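import Pool.Agent.Lib.P07318s.Defs

/-!
The normalised local factor `JJ X Y = (∏_{i,j} (1 - X_i Y_j)) I(X; Y)`, where
`I(X; Y) = ∫_0^1 ∏_i (1 - e(θ) X_i)⁻¹ ∏_j (1 - e(-θ) Y_j)⁻¹ dθ`.
Identity: `1 - x y = (1 - x e) + (1 - y e⁻) - (1 - x e)(1 - y e⁻)` (`e e⁻ = 1`), so for any pair `x = X_a`, `y = Y_b`,
with `X'` = `X` without `x` and `Y'` = `Y` without `y`:
`(1 - x y) I(X; Y) = I(X; Y') + I(X'; Y) - I(X'; Y')`, hence
`JJ(X;Y) = A · JJ(X; Y') + B · JJ(X'; Y) - A B · JJ(X'; Y')`, `A = ∏_{i ≠ a} (1 - X_i y)`, `B = ∏_{j ≠ b} (1 - x Y_j)`.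
Base cases: `JJ(X; ∅) = JJ(∅; Y) = 1` (mean value property of the holomorphic function `∏ (1 - z X_i)⁻¹` on the
closed unit disc, or power series).
Bound by induction on the number of variables, all variables of modulus `≤ q < 1`; one claim is enough:
(a) all `‖X_i‖, ‖Y_j‖ ≤ τ ≤ 1`: `|JJ - 1| ≤ C τ⁴`;
(b) `‖X_0‖ ≤ q`, all others `≤ τ ≤ q`: `|JJ - 1| ≤ C q τ³` (and symmetrically (c) with `Y_0`);
(d) `‖X_0‖, ‖Y_0‖ ≤ q`, others `≤ τ`: `|JJ - 1| ≤ C (τ q)²`.
Since `A + B - A B = 1 - (1-A)(1-B)`: for (a) use any pair, for (b) the pair `(X_0, Y_b)` (`1-A = O(τ²)`,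
`1-B = O(qτ)`), for (d) the pair `(X_0, Y_0)` (`1-A, 1-B = O(τ q)`). Work with `Fin m`, `Fin n` (`Fin.cons`,
`Fin.insertNth`) or with lists/multisets. All integrands are continuous as the moduli are `< 1`.
-/

set_option autoImplicit false

namespace Pool.Agent.P07318s

open MeasureTheory Complex

theorem norm_ee (θ : ℝ) : ‖ee θ‖ = 1 := by
  unfold ee
  rw [show (2 * Real.pi * I * θ : ℂ) = ((2 * Real.pi * θ : ℝ) : ℂ) * I by push_cast; ring,
    Complex.norm_exp_ofReal_mul_I]

namespace LocalJAux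

lemma ee_mul_neg (θ : ℝ) : ee θ * ee (-θ) = 1 := by
  unfold ee
  rw [← Complex.exp_add]
  push_cast
  rw [show (2 * Real.pi * I * θ + 2 * Real.pi * I * -θ : ℂ) = 0 by ring, Complex.exp_zero]

lemma continuous_ee : Continuous ee := by
  unfold ee
  fun_prop

lemma one_sub_ne {x : ℂ} (hx : ‖x‖ < 1) {e : ℂ} (he : ‖e‖ ≤ 1) : 1 - e * x ≠ 0 := by
  intro h
  have h1 : e * x = 1 := (sub_eq_zero.mp h).symm
  have h2 : ‖e * x‖ < 1 := by
    rw [norm_mul]
    calc ‖e‖ * ‖x‖ ≤ 1 * ‖x‖ := mul_le_mul_of_nonneg_right he (norm_nonneg _)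
      _ < 1 := by rw [one_mul]; exact hx
  rw [h1, norm_one] at h2
  exact lt_irrefl _ h2

/-- The integrand. -/
noncomputable def FF (s t : List ℂ) (θ : ℝ) : ℂ :=
  (s.map fun x => (1 - ee θ * x)⁻¹).prod * (t.map fun y => (1 - ee (-θ) * y)⁻¹).prod

/-- The integral. -/
noncomputable def II (s t : List ℂ) : ℂ := ∫ θ in (0:ℝ)..1, FF s t θ

/-- The product of the `1 - x y`. -/
noncomputable def PP (s t : List ℂ) : ℂ := (s.map fun x => (t.map fun y => 1 - x * y).prod).prod

/-- The normalised factor for lists. -/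
noncomputable def JM (s t : List ℂ) : ℂ := PP s t * II s t

/-- All entries have modulus less than one. -/
def Small (s : List ℂ) : Prop := ∀ x ∈ s, ‖x‖ < 1

lemma Small.tail {x : ℂ} {s : List ℂ} (h : Small (x :: s)) : Small s :=
  fun y hy => h y (List.mem_cons_of_mem _ hy)

lemma Small.head {x : ℂ} {s : List ℂ} (h : Small (x :: s)) : ‖x‖ < 1 := h x List.mem_cons_self

lemma continuous_FF {s t : List ℂ} (hs : Small s) (ht : Small t) : Continuous (FF s t) := by
  unfold FF
  refine Continuous.mul ?_ ?_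
  · refine continuous_list_prod s fun x hx => ?_
    refine Continuous.inv₀ (continuous_const.sub (continuous_ee.mul continuous_const)) fun θ => ?_
    exact one_sub_ne (hs x hx) (norm_ee θ).le
  · refine continuous_list_prod t fun y hy => ?_
    refine Continuous.inv₀ (continuous_const.sub ((continuous_ee.comp continuous_neg).mul
      continuous_const)) fun θ => ?_
    exact one_sub_ne (ht y hy) (norm_ee (-θ)).le

lemma FF_rec {x y : ℂ} {s t : List ℂ} (hx : ‖x‖ < 1) (hy : ‖y‖ < 1) (θ : ℝ) :
    (1 - x * y) * FF (x :: s) (y :: t) θ = FF (x :: s) t θ + FF s (y :: t) θ - FF s t θ := by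
  unfold FF
  simp only [List.map_cons, List.prod_cons]
  have h1 := one_sub_ne hx (norm_ee θ).le
  have h2 := one_sub_ne hy (norm_ee (-θ)).le
  have h3 := ee_mul_neg θ
  generalize (s.map fun x => (1 - ee θ * x)⁻¹).prod = P
  generalize (t.map fun y => (1 - ee (-θ) * y)⁻¹).prod = R
  have e : 1 - x * y = (1 - ee θ * x) + (1 - ee (-θ) * y) - (1 - ee θ * x) * (1 - ee (-θ) * y) := by
    linear_combination x * y * h3
  rw [e]
  generalize (1 - ee θ * x) = a at h1 ⊢
  generalize (1 - ee (-θ) * y) = b at h2 ⊢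
  field_simp
  ring

lemma II_rec {x y : ℂ} {s t : List ℂ} (hs : Small (x :: s)) (ht : Small (y :: t)) :
    (1 - x * y) * II (x :: s) (y :: t) = II (x :: s) t + II s (y :: t) - II s t := by
  unfold II
  rw [← intervalIntegral.integral_const_mul]
  simp_rw [FF_rec hs.head ht.head]
  rw [intervalIntegral.integral_sub, intervalIntegral.integral_add]
  · exact (continuous_FF hs ht.tail).intervalIntegrable _ _
  · exact (continuous_FF hs.tail ht).intervalIntegrable _ _
  · exact ((continuous_FF hs ht.tail).add (continuous_FF hs.tail ht)).intervalIntegrable _ _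
  · exact (continuous_FF hs.tail ht.tail).intervalIntegrable _ _

lemma mean_value {s : List ℂ} (hs : Small s) :
    ∫ θ in (0:ℝ)..1, (s.map fun x => (1 - ee θ * x)⁻¹).prod = 1 := by
  set g : ℂ → ℂ := fun z => (s.map fun x => (1 - z * x)⁻¹).prod with hg
  have hd : DiffContOnCl ℂ g (Metric.ball 0 |(1:ℝ)|) := by
    apply DifferentiableOn.diffContOnCl
    rw [abs_one, closure_ball (0:ℂ) one_ne_zero]
    rw [hg]
    clear hg g
    induction s with
    | nil => simp
    | cons x s ih =>
      simp only [List.map_cons, List.prod_cons]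
      refine DifferentiableOn.mul ?_ (ih hs.tail)
      refine DifferentiableOn.inv (by fun_prop) fun z hz => ?_
      exact one_sub_ne hs.head (by rwa [Metric.mem_closedBall, dist_zero_right] at hz)
  have h1 := hd.circleAverage
  rw [Real.circleAverage_def] at h1
  have h2 : g 0 = 1 := by
    simp [hg]
  rw [h2] at h1
  refine Eq.trans ?_ h1
  have h3 := intervalIntegral.integral_comp_mul_left (a := 0) (b := 1)
    (fun u : ℝ => g (circleMap 0 1 u)) (c := 2 * Real.pi) (by positivity)
  rw [mul_zero, mul_one] at h3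
  rw [← h3]
  refine intervalIntegral.integral_congr fun θ _ => ?_
  simp only [hg]
  congr 2
  funext x
  congr 3
  unfold ee circleMap
  push_cast
  rw [zero_add, one_mul]
  congr 1
  ring

lemma II_nil_right {s : List ℂ} (hs : Small s) : II s [] = 1 := by
  unfold II FF
  simp only [List.map_nil, List.prod_nil, mul_one]
  exact mean_value hs

lemma II_nil_left {t : List ℂ} (ht : Small t) : II [] t = 1 := by
  unfold II FF
  simp only [List.map_nil, List.prod_nil, one_mul]
  have h := intervalIntegral.integral_comp_sub_left (a := 0) (b := 1)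
    (fun θ : ℝ => (t.map fun y => (1 - ee (-θ) * y)⁻¹).prod) 1
  rw [sub_self, sub_zero] at h
  refine h.symm.trans (Eq.trans ?_ (mean_value ht))
  refine intervalIntegral.integral_congr fun θ _ => ?_
  congr 2
  funext x
  congr 3
  unfold ee
  push_cast
  rw [show (2 * Real.pi * I * -(1 - θ) : ℂ) = 2 * Real.pi * I * θ - 2 * Real.pi * I by ring,
    Complex.exp_sub, Complex.exp_two_pi_mul_I, div_one]

lemma JM_nil_right {s : List ℂ} (hs : Small s) : JM s [] = 1 := by
  unfold JM PP
  rw [II_nil_right hs]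
  simp

lemma JM_nil_left {t : List ℂ} (ht : Small t) : JM [] t = 1 := by
  unfold JM PP
  rw [II_nil_left ht]
  simp

lemma PP_cons_left (x : ℂ) (s t : List ℂ) :
    PP (x :: s) t = (t.map fun y => 1 - x * y).prod * PP s t := by
  unfold PP
  rw [List.map_cons, List.prod_cons]

lemma PP_cons_right (y : ℂ) (s t : List ℂ) :
    PP s (y :: t) = (s.map fun x => 1 - x * y).prod * PP s t := by
  unfold PP
  simp only [List.map_cons, List.prod_cons]
  rw [List.prod_map_mul]

lemma JM_rec {x y : ℂ} {s t : List ℂ} (hs : Small (x :: s)) (ht : Small (y :: t)) :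
    JM (x :: s) (y :: t) = (s.map fun x' => 1 - x' * y).prod * JM (x :: s) t +
      (t.map fun y' => 1 - x * y').prod * JM s (y :: t) -
      (s.map fun x' => 1 - x' * y).prod * (t.map fun y' => 1 - x * y').prod * JM s t := by
  unfold JM
  rw [PP_cons_left, PP_cons_right, PP_cons_left x s t, List.map_cons, List.prod_cons]
  have h := II_rec hs ht
  linear_combination ((t.map fun y' => 1 - x * y').prod * (s.map fun x' => 1 - x' * y).prod *
    PP s t) * h

/-! ### Bounds -/

lemma prod_bound {s : List ℂ} {τ b : ℝ} (hτ : 0 ≤ τ) (hτ1 : τ ≤ 1) (hb : 0 ≤ b) (hb1 : b ≤ 1)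
    (hs : ∀ x ∈ s, ‖x‖ ≤ τ) {f : ℂ → ℂ} (hf : ∀ x, ‖f x‖ ≤ ‖x‖ * b) :
    ‖(s.map fun x => 1 - f x).prod‖ ≤ 2 ^ s.length ∧
      ‖1 - (s.map fun x => 1 - f x).prod‖ ≤ 2 ^ s.length * (τ * b) := by
  induction s with
  | nil => simp; positivity
  | cons x s ih =>
    obtain ⟨h1, h2⟩ := ih fun x' hx' => hs x' (List.mem_cons_of_mem _ hx')
    have hx : ‖f x‖ ≤ τ * b :=
      (hf x).trans (mul_le_mul_of_nonneg_right (hs x List.mem_cons_self) hb)
    have hx1 : ‖f x‖ ≤ 1 := hx.trans (mul_le_one₀ hτ1 hb hb1)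
    rw [List.map_cons, List.prod_cons, List.length_cons, pow_succ]
    set A := (s.map fun x => 1 - f x).prod with hA
    constructor
    · calc ‖(1 - f x) * A‖ = ‖1 - f x‖ * ‖A‖ := norm_mul _ _
        _ ≤ 2 * 2 ^ s.length := by
            refine mul_le_mul ?_ h1 (norm_nonneg _) (by norm_num)
            calc ‖1 - f x‖ ≤ ‖(1:ℂ)‖ + ‖f x‖ := norm_sub_le _ _
              _ ≤ 2 := by rw [norm_one]; linarith
        _ = 2 ^ s.length * 2 := mul_comm _ _
    · have e : 1 - (1 - f x) * A = (1 - A) + f x * A := by ring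
      rw [e]
      calc ‖(1 - A) + f x * A‖ ≤ ‖1 - A‖ + ‖f x * A‖ := norm_add_le _ _
        _ ≤ 2 ^ s.length * (τ * b) + (τ * b) * 2 ^ s.length := by
            rw [norm_mul]
            exact add_le_add h2 (mul_le_mul hx h1 (norm_nonneg _) (by positivity))
        _ = 2 ^ s.length * 2 * (τ * b) := by ring

lemma main (N : ℕ) : ∃ C : ℝ, 0 ≤ C ∧ ∀ s t : List ℂ, s.length + t.length < N →
    ∀ (x y : ℂ) (τ a b : ℝ), 0 ≤ τ → τ ≤ a → a < 1 → τ ≤ b → b < 1 → ‖x‖ ≤ a → ‖y‖ ≤ b →
    (∀ x' ∈ s, ‖x'‖ ≤ τ) → (∀ y' ∈ t, ‖y'‖ ≤ τ) →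
      ‖JM (x :: s) (y :: t) - 1‖ ≤ C * (τ ^ 2 * a * b) := by
  induction N with
  | zero => exact ⟨0, le_rfl, fun s t h => absurd h (by omega)⟩
  | succ N ih =>
    obtain ⟨C, hC, ih⟩ := ih
    refine ⟨2 * 2 ^ N * C + 4 ^ N * C + 4 ^ N, by positivity, ?_⟩
    intro s t hst x y τ a b hτ hτa ha hτb hb hx hy hs ht
    have hτ1 : τ < 1 := hτa.trans_lt ha
    have ha0 : 0 ≤ a := hτ.trans hτa
    have hb0 : 0 ≤ b := hτ.trans hτb
    have hSs : Small s := fun x' hx' => (hs x' hx').trans_lt hτ1
    have hSt : Small t := fun y' hy' => (ht y' hy').trans_lt hτ1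
    have hSx : Small (x :: s) := by
      intro x' hx'
      rcases List.mem_cons.mp hx' with h | h
      · rw [h]; exact hx.trans_lt ha
      · exact hSs x' h
    have hSy : Small (y :: t) := by
      intro y' hy'
      rcases List.mem_cons.mp hy' with h | h
      · rw [h]; exact hy.trans_lt hb
      · exact hSt y' h
    set X : ℝ := τ ^ 2 * a * b with hX
    have hX0 : 0 ≤ X := by positivity
    -- the three terms
    have h1 : ‖JM (x :: s) t - 1‖ ≤ C * X := by
      cases t with
      | nil =>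
        rw [JM_nil_right hSx, sub_self, norm_zero]
        positivity
      | cons y' t' =>
        refine (ih s t' (by simp only [List.length_cons] at hst; omega) x y' τ a τ hτ hτa ha le_rfl hτ1 hx
          (ht y' List.mem_cons_self) hs fun z hz => ht z (List.mem_cons_of_mem _ hz)).trans ?_
        refine mul_le_mul_of_nonneg_left ?_ hC
        exact mul_le_mul_of_nonneg_left hτb (by positivity)
    have h2 : ‖JM s (y :: t) - 1‖ ≤ C * X := by
      cases s with
      | nil =>
        rw [JM_nil_left hSy, sub_self, norm_zero]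
        positivity
      | cons x' s' =>
        refine (ih s' t (by simp only [List.length_cons] at hst; omega) x' y τ τ b hτ le_rfl hτ1 hτb hb
          (hs x' List.mem_cons_self) hy (fun z hz => hs z (List.mem_cons_of_mem _ hz)) ht).trans ?_
        refine mul_le_mul_of_nonneg_left ?_ hC
        exact mul_le_mul_of_nonneg_right (mul_le_mul_of_nonneg_left hτa (by positivity)) hb0
    have h3 : ‖JM s t - 1‖ ≤ C * X := by
      cases s with
      | nil =>
        rw [JM_nil_left hSt, sub_self, norm_zero]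
        positivity
      | cons x' s' =>
        cases t with
        | nil =>
          rw [JM_nil_right hSs, sub_self, norm_zero]
          positivity
        | cons y' t' =>
          refine (ih s' t' (by simp only [List.length_cons] at hst; omega) x' y' τ τ τ hτ le_rfl hτ1 le_rfl hτ1
            (hs x' List.mem_cons_self) (ht y' List.mem_cons_self)
            (fun z hz => hs z (List.mem_cons_of_mem _ hz))
            (fun z hz => ht z (List.mem_cons_of_mem _ hz))).trans ?_
          refine mul_le_mul_of_nonneg_left ?_ hC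
          exact mul_le_mul (mul_le_mul_of_nonneg_left hτa (by positivity)) hτb hτ (by positivity)
    obtain ⟨hA1, hA2⟩ := prod_bound (s := s) hτ hτ1.le hb0 hb.le hs (f := fun x' => x' * y)
      (fun x' => by rw [norm_mul]; exact mul_le_mul_of_nonneg_left hy (norm_nonneg _))
    obtain ⟨hB1, hB2⟩ := prod_bound (s := t) hτ hτ1.le ha0 ha.le ht (f := fun y' => x * y')
      (fun y' => by rw [norm_mul, mul_comm]; exact mul_le_mul_of_nonneg_left hx (norm_nonneg _))
    rw [JM_rec hSx hSy]
    set A := (s.map fun x' => 1 - x' * y).prod with hA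
    set B := (t.map fun y' => 1 - x * y').prod with hB
    have hls : (2:ℝ) ^ s.length ≤ 2 ^ N := pow_le_pow_right₀ (by norm_num) (by omega)
    have hlt : (2:ℝ) ^ t.length ≤ 2 ^ N := pow_le_pow_right₀ (by norm_num) (by omega)
    have hA1' : ‖A‖ ≤ 2 ^ N := hA1.trans hls
    have hB1' : ‖B‖ ≤ 2 ^ N := hB1.trans hlt
    have hA2' : ‖1 - A‖ ≤ 2 ^ N * (τ * b) :=
      hA2.trans (mul_le_mul_of_nonneg_right hls (by positivity))
    have hB2' : ‖1 - B‖ ≤ 2 ^ N * (τ * a) :=
      hB2.trans (mul_le_mul_of_nonneg_right hlt (by positivity))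
    have e : A * JM (x :: s) t + B * JM s (y :: t) - A * B * JM s t - 1 =
        A * (JM (x :: s) t - 1) + B * (JM s (y :: t) - 1) - A * B * (JM s t - 1) -
          (1 - A) * (1 - B) := by ring
    rw [e]
    have h22 : (4:ℝ) ^ N = 2 ^ N * 2 ^ N := by
      rw [← mul_pow]
      norm_num
    calc ‖A * (JM (x :: s) t - 1) + B * (JM s (y :: t) - 1) - A * B * (JM s t - 1) -
          (1 - A) * (1 - B)‖ ≤ ‖A‖ * ‖JM (x :: s) t - 1‖ + ‖B‖ * ‖JM s (y :: t) - 1‖ +
            ‖A‖ * ‖B‖ * ‖JM s t - 1‖ + ‖1 - A‖ * ‖1 - B‖ := by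
          refine (norm_sub_le _ _).trans (add_le_add ((norm_sub_le _ _).trans (add_le_add
            ((norm_add_le _ _).trans (add_le_add ?_ ?_)) ?_)) ?_)
          · rw [norm_mul]
          · rw [norm_mul]
          · rw [norm_mul, norm_mul]
          · rw [norm_mul]
      _ ≤ 2 ^ N * (C * X) + 2 ^ N * (C * X) + 2 ^ N * 2 ^ N * (C * X) +
            2 ^ N * (τ * b) * (2 ^ N * (τ * a)) := by
          refine add_le_add (add_le_add (add_le_add ?_ ?_) ?_) ?_
          · exact mul_le_mul hA1' h1 (norm_nonneg _) (by positivity)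
          · exact mul_le_mul hB1' h2 (norm_nonneg _) (by positivity)
          · exact mul_le_mul (mul_le_mul hA1' hB1' (norm_nonneg _) (by positivity)) h3
              (norm_nonneg _) (by positivity)
          · exact mul_le_mul hA2' hB2' (norm_nonneg _) (by positivity)
      _ = (2 * 2 ^ N * C + 4 ^ N * C + 4 ^ N) * X := by
          rw [h22, hX]
          ring

/-! ### Translation to `JJ` -/

lemma prod_cons_eq {m : ℕ} (X : Fin (m + 1) → ℂ) (i₀ : Fin (m + 1)) (f : ℂ → ℂ) :
    ((X i₀ :: List.ofFn fun i => X (i₀.succAbove i)).map f).prod = ∏ i, f (X i) := by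
  rw [List.map_cons, List.prod_cons, List.map_ofFn, List.prod_ofFn,
    Fin.prod_univ_succAbove (fun i => f (X i)) i₀]
  rfl

lemma prod_ofFn_eq {m : ℕ} (X : Fin m → ℂ) (f : ℂ → ℂ) :
    ((List.ofFn X).map f).prod = ∏ i, f (X i) := by
  rw [List.map_ofFn, List.prod_ofFn]
  rfl

lemma JJ_eq_cons {m n : ℕ} (X : Fin (m + 1) → ℂ) (Y : Fin (n + 1) → ℂ) (i₀ : Fin (m + 1))
    (j₀ : Fin (n + 1)) :
    JJ X Y = JM (X i₀ :: List.ofFn fun i => X (i₀.succAbove i))
      (Y j₀ :: List.ofFn fun j => Y (j₀.succAbove j)) := by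
  unfold JJ JM PP II FF
  simp_rw [prod_cons_eq]

lemma JJ_eq_ofFn {m n : ℕ} (X : Fin m → ℂ) (Y : Fin n → ℂ) :
    JJ X Y = JM (List.ofFn X) (List.ofFn Y) := by
  unfold JJ JM PP II FF
  simp_rw [prod_ofFn_eq]

/-! ### The polynomial -/

/-- The polynomial equal to `JM`. -/
noncomputable def PJ : List ℂ → List ℂ → ℂ
  | [], _ => 1
  | _ :: _, [] => 1
  | x :: s, y :: t => (s.map fun x' => 1 - x' * y).prod * PJ (x :: s) t +
      (t.map fun y' => 1 - x * y').prod * PJ s (y :: t) -
      (s.map fun x' => 1 - x' * y).prod * (t.map fun y' => 1 - x * y').prod * PJ s t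
termination_by s t => s.length + t.length

lemma PJ_nil_left (t : List ℂ) : PJ [] t = 1 := by
  rw [PJ]

lemma PJ_nil_right (s : List ℂ) : PJ s [] = 1 := by
  cases s with
  | nil => rw [PJ]
  | cons x s => rw [PJ]

lemma PJ_cons (x y : ℂ) (s t : List ℂ) : PJ (x :: s) (y :: t) =
    (s.map fun x' => 1 - x' * y).prod * PJ (x :: s) t +
      (t.map fun y' => 1 - x * y').prod * PJ s (y :: t) -
      (s.map fun x' => 1 - x' * y).prod * (t.map fun y' => 1 - x * y').prod * PJ s t := by
  rw [PJ]

lemma JM_eq_PJ : ∀ (N : ℕ) (s t : List ℂ), s.length + t.length ≤ N → Small s → Small t →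
    JM s t = PJ s t := by
  intro N
  induction N with
  | zero =>
    intro s t h hs ht
    have : s = [] := List.length_eq_zero_iff.mp (by omega)
    subst this
    rw [JM_nil_left ht, PJ_nil_left]
  | succ N ih =>
    intro s t h hs ht
    cases s with
    | nil => rw [JM_nil_left ht, PJ_nil_left]
    | cons x s =>
      cases t with
      | nil => rw [JM_nil_right hs, PJ_nil_right]
      | cons y t =>
        simp only [List.length_cons] at h
        rw [JM_rec hs ht, PJ_cons, ih (x :: s) t (by simp only [List.length_cons]; omega) hs ht.tail,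
          ih s (y :: t) (by simp only [List.length_cons]; omega) hs.tail ht,
          ih s t (by omega) hs.tail ht.tail]

lemma continuous_PJ {P : Type*} [TopologicalSpace P] : ∀ (N : ℕ) (S T : List (P → ℂ)),
    S.length + T.length ≤ N → (∀ f ∈ S, Continuous f) → (∀ f ∈ T, Continuous f) →
    Continuous fun p => PJ (S.map fun f => f p) (T.map fun f => f p) := by
  intro N
  induction N with
  | zero =>
    intro S T h _ _
    have : S = [] := List.length_eq_zero_iff.mp (by omega)
    subst this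
    simp only [List.map_nil, PJ_nil_left]
    exact continuous_const
  | succ N ih =>
    intro S T h hS hT
    cases S with
    | nil =>
      simp only [List.map_nil, PJ_nil_left]
      exact continuous_const
    | cons x S =>
      cases T with
      | nil =>
        simp only [List.map_nil, PJ_nil_right]
        exact continuous_const
      | cons y T =>
        simp only [List.length_cons] at h
        have hx : Continuous x := hS x List.mem_cons_self
        have hy : Continuous y := hT y List.mem_cons_self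
        have hS' : ∀ f ∈ S, Continuous f := fun f hf => hS f (List.mem_cons_of_mem _ hf)
        have hT' : ∀ f ∈ T, Continuous f := fun f hf => hT f (List.mem_cons_of_mem _ hf)
        have i1 := ih (x :: S) T (by simp only [List.length_cons]; omega) hS hT'
        have i2 := ih S (y :: T) (by simp only [List.length_cons]; omega) hS' hT
        have i3 := ih S T (by omega) hS' hT'
        simp only [List.map_cons] at i1 i2 ⊢
        simp only [PJ_cons, List.map_map, Function.comp_def]
        have hA : Continuous fun p => (S.map fun f => 1 - f p * y p).prod :=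
          continuous_list_prod S fun f hf => continuous_const.sub ((hS' f hf).mul hy)
        have hB : Continuous fun p => (T.map fun f => 1 - x p * f p).prod :=
          continuous_list_prod T fun f hf => continuous_const.sub (hx.mul (hT' f hf))
        exact ((hA.mul i1).add (hB.mul i2)).sub ((hA.mul hB).mul i3)

lemma diff_list_prod {S : List (ℂ → ℂ)} {z₀ : ℂ} (hS : ∀ f ∈ S, DifferentiableAt ℂ f z₀) :
    DifferentiableAt ℂ (fun z => (S.map fun f => f z).prod) z₀ := by
  induction S with
  | nil => simp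
  | cons f S ih =>
    simp only [List.map_cons, List.prod_cons]
    exact (hS f List.mem_cons_self).mul (ih fun g hg => hS g (List.mem_cons_of_mem _ hg))

lemma diff_PJ {z₀ : ℂ} : ∀ (N : ℕ) (S T : List (ℂ → ℂ)),
    S.length + T.length ≤ N → (∀ f ∈ S, DifferentiableAt ℂ f z₀) →
    (∀ f ∈ T, DifferentiableAt ℂ f z₀) →
    DifferentiableAt ℂ (fun p => PJ (S.map fun f => f p) (T.map fun f => f p)) z₀ := by
  intro N
  induction N with
  | zero =>
    intro S T h _ _
    have : S = [] := List.length_eq_zero_iff.mp (by omega)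
    subst this
    simp only [List.map_nil, PJ_nil_left]
    exact differentiableAt_const _
  | succ N ih =>
    intro S T h hS hT
    cases S with
    | nil =>
      simp only [List.map_nil, PJ_nil_left]
      exact differentiableAt_const _
    | cons x S =>
      cases T with
      | nil =>
        simp only [List.map_nil, PJ_nil_right]
        exact differentiableAt_const _
      | cons y T =>
        simp only [List.length_cons] at h
        have hx : DifferentiableAt ℂ x z₀ := hS x List.mem_cons_self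
        have hy : DifferentiableAt ℂ y z₀ := hT y List.mem_cons_self
        have hS' : ∀ f ∈ S, DifferentiableAt ℂ f z₀ := fun f hf => hS f (List.mem_cons_of_mem _ hf)
        have hT' : ∀ f ∈ T, DifferentiableAt ℂ f z₀ := fun f hf => hT f (List.mem_cons_of_mem _ hf)
        have i1 := ih (x :: S) T (by simp only [List.length_cons]; omega) hS hT'
        have i2 := ih S (y :: T) (by simp only [List.length_cons]; omega) hS' hT
        have i3 := ih S T (by omega) hS' hT'
        simp only [List.map_cons] at i1 i2 ⊢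
        simp only [PJ_cons, List.map_map, Function.comp_def]
        have hA : DifferentiableAt ℂ (fun p => (S.map fun f => 1 - f p * y p).prod) z₀ := by
          have := diff_list_prod (S := S.map fun f => fun p => 1 - f p * y p) (z₀ := z₀) (by
            intro g hg
            obtain ⟨f, hf, rfl⟩ := List.mem_map.mp hg
            exact (differentiableAt_const _).sub ((hS' f hf).mul hy))
          simpa only [List.map_map, Function.comp_def] using this
        have hB : DifferentiableAt ℂ (fun p => (T.map fun f => 1 - x p * f p).prod) z₀ := by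
          have := diff_list_prod (S := T.map fun f => fun p => 1 - x p * f p) (z₀ := z₀) (by
            intro g hg
            obtain ⟨f, hf, rfl⟩ := List.mem_map.mp hg
            exact (differentiableAt_const _).sub (hx.mul (hT' f hf)))
          simpa only [List.map_map, Function.comp_def] using this
        exact ((hA.mul i1).add (hB.mul i2)).sub ((hA.mul hB).mul i3)

lemma small_ofFn {k : ℕ} {X : Fin k → ℂ} (h : ∀ j, ‖X j‖ < 1) : Small (List.ofFn X) := by
  intro x hx
  obtain ⟨j, rfl⟩ := (List.mem_ofFn' X x).mp hx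
  exact h j

lemma JJ_eq_PJ {m n : ℕ} {X : Fin m → ℂ} {Y : Fin n → ℂ} (hX : ∀ j, ‖X j‖ < 1)
    (hY : ∀ j, ‖Y j‖ < 1) : JJ X Y = PJ (List.ofFn X) (List.ofFn Y) := by
  rw [JJ_eq_ofFn, JM_eq_PJ _ _ _ le_rfl (small_ofFn hX) (small_ofFn hY)]

end LocalJAux

open LocalJAux

theorem JJ_bound (k : ℕ) : ∃ C : ℝ, 0 < C ∧ ∀ (X Y : Fin k → ℂ) (j₀ : Fin k) (τ q : ℝ), 0 ≤ τ → τ ≤ q → q < 1 →
    ‖X j₀‖ ≤ q → ‖Y j₀‖ ≤ q → (∀ j, j ≠ j₀ → ‖X j‖ ≤ τ ∧ ‖Y j‖ ≤ τ) →
    ‖JJ X Y - 1‖ ≤ C * (τ * q) ^ 2 := by
  obtain ⟨C, hC, h⟩ := main (2 * k + 1)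
  refine ⟨C + 1, by positivity, ?_⟩
  intro X Y j₀ τ q hτ hτq hq hX hY hXY
  cases k with
  | zero => exact j₀.elim0
  | succ k =>
    rw [JJ_eq_cons X Y j₀ j₀]
    refine (h _ _ (by simp only [List.length_ofFn]; omega) _ _ τ q q hτ hτq hq hτq hq hX hY ?_ ?_).trans ?_
    · intro x hx
      obtain ⟨j, rfl⟩ := (List.mem_ofFn' _ x).mp hx
      exact (hXY _ (Fin.succAbove_ne j₀ j)).1
    · intro x hx
      obtain ⟨j, rfl⟩ := (List.mem_ofFn' _ x).mp hx
      exact (hXY _ (Fin.succAbove_ne j₀ j)).2
    · have e : τ ^ 2 * q * q = (τ * q) ^ 2 := by ring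
      rw [e]
      exact mul_le_mul_of_nonneg_right (by linarith) (by positivity)

theorem JJ_continuousOn (k : ℕ) : ContinuousOn (fun P : (Fin k → ℂ) × (Fin k → ℂ) => JJ P.1 P.2)
    {P | (∀ j, ‖P.1 j‖ < 1) ∧ ∀ j, ‖P.2 j‖ < 1} := by
  have h := continuous_PJ (P := (Fin k → ℂ) × (Fin k → ℂ)) _
    (List.ofFn fun j : Fin k => fun P : (Fin k → ℂ) × (Fin k → ℂ) => P.1 j)
    (List.ofFn fun j : Fin k => fun P : (Fin k → ℂ) × (Fin k → ℂ) => P.2 j) le_rfl
    (by
      intro f hf
      obtain ⟨j, rfl⟩ := (List.mem_ofFn' _ f).mp hf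
      fun_prop)
    (by
      intro f hf
      obtain ⟨j, rfl⟩ := (List.mem_ofFn' _ f).mp hf
      fun_prop)
  simp only [List.map_ofFn] at h
  refine h.continuousOn.congr fun P hP => ?_
  exact JJ_eq_PJ hP.1 hP.2

/-- holomorphic along holomorphic curves -/
theorem JJ_diff {k : ℕ} {X Y : ℂ → Fin k → ℂ} {s₀ : ℂ} (hX : ∀ j, ∀ᶠ s in nhds s₀, DifferentiableAt ℂ (fun s => X s j) s)
    (hY : ∀ j, ∀ᶠ s in nhds s₀, DifferentiableAt ℂ (fun s => Y s j) s) (h1 : ∀ j, ‖X s₀ j‖ < 1) (h2 : ∀ j, ‖Y s₀ j‖ < 1) :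
    DifferentiableAt ℂ (fun s => JJ (X s) (Y s)) s₀ := by
  have h := diff_PJ (z₀ := s₀) _
    (List.ofFn fun j : Fin k => fun s : ℂ => X s j)
    (List.ofFn fun j : Fin k => fun s : ℂ => Y s j) le_rfl
    (by
      intro f hf
      obtain ⟨j, rfl⟩ := (List.mem_ofFn' _ f).mp hf
      exact (hX j).self_of_nhds)
    (by
      intro f hf
      obtain ⟨j, rfl⟩ := (List.mem_ofFn' _ f).mp hf
      exact (hY j).self_of_nhds)
  simp only [List.map_ofFn] at h
  refine h.congr_of_eventuallyEq ?_
  have e1 : ∀ᶠ s in nhds s₀, ∀ j, ‖X s j‖ < 1 := by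
    rw [Filter.eventually_all]
    intro j
    exact ((hX j).self_of_nhds.continuousAt.norm).eventually_lt continuousAt_const (h1 j)
  have e2 : ∀ᶠ s in nhds s₀, ∀ j, ‖Y s j‖ < 1 := by
    rw [Filter.eventually_all]
    intro j
    exact ((hY j).self_of_nhds.continuousAt.norm).eventually_lt continuousAt_const (h2 j)
  filter_upwards [e1, e2] with s hs1 hs2
  exact JJ_eq_PJ hs1 hs2

theorem Afac_eq {k : ℕ} (z z' : Fin k → ℂ) {p : ℕ} (hp : 1 ≤ p) :
    Afac z z' p = JJ (fun j => (p : ℂ) ^ (-(1 / 2 + z j))) (fun j => (p : ℂ) ^ (-(1 / 2 - z' j))) := by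
  have hp0 : (p : ℂ) ≠ 0 := by
    have : p ≠ 0 := by omega
    exact_mod_cast this
  unfold Afac JJ
  congr 1
  · refine Finset.prod_congr rfl fun i _ => Finset.prod_congr rfl fun j _ => ?_
    rw [← Complex.cpow_add _ _ hp0]
    congr 2
    ring
  · refine intervalIntegral.integral_congr fun θ _ => ?_
    simp only
    rw [← Finset.prod_mul_distrib]
    refine Finset.prod_congr rfl fun j _ => ?_
    simp only [Complex.cpow_neg, div_eq_mul_inv]

end Pool.Agent.P07318s
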