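import Pool.Agent.Lib.P07318s.Defs
import Pool.Agent.Lib.P07318s.LocalJ

/-!
Convergence of the Euler product `A`. With `z = w + i x`, `z' = -w + i x`:
`|X_j| = |Y_j| = p^(-1/2 - Re w_j)`. On `Rg k e ρ` (`e + ρ ≤ 1/2`): `|X_{j₀}|, |Y_{j₀}| ≤ q = p^(-e)`, the others
`≤ τ = p^(-1/2+ρ) ≤ q`, so `‖Afac - 1‖ ≤ C (τ q)² = C p^(-1+2ρ-2e)` with `e > ρ`: summable over primes, uniformly on
`Rg`. Multipliability and the bound: `Complex.multipliable_one_add_of_summable` /
`norm_tprod_one_add_le`-type lemmas, `‖∏ (1 + a_p)‖ ≤ exp(∑ ‖a_p‖)`. Continuity and separate holomorphy: uniform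
convergence of the product (`multipliableUniformlyOn`, `Summable.hasProdUniformlyOn_nat_one_add`, or
`HasProdLocallyUniformlyOn`), then `TendstoLocallyUniformlyOn.continuousOn` /
`TendstoLocallyUniformlyOn.differentiableOn` in one variable (the finite products are differentiable by `JJ_diff`).
-/

set_option autoImplicit false

namespace Pool.Agent.P07318s

open MeasureTheory Complex

theorem isOpen_Rg (k : ℕ) (e ρ : ℝ) : IsOpen (Rg k e ρ) := by
  have h : Rg k e ρ = ⋃ j₀ : Fin k, {w : Fin k → ℂ | -(1 / 2) + e < (w j₀).re} ∩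
      ⋂ j : Fin k, {w : Fin k → ℂ | j ≠ j₀ → -ρ < (w j).re} := by
    ext w
    simp [Rg]
  rw [h]
  refine isOpen_iUnion fun j₀ => IsOpen.inter ?_ ?_
  · exact isOpen_lt continuous_const (Complex.continuous_re.comp (continuous_apply j₀))
  · refine isOpen_iInter_of_finite fun j => ?_
    by_cases hj : j = j₀
    · simp [hj]
    · simp only [ne_eq, hj, not_false_eq_true, forall_const]
      exact isOpen_lt continuous_const (Complex.continuous_re.comp (continuous_apply j))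

theorem ea_Afac {k : ℕ} (x : Fin k → ℝ) (w : Fin k → ℂ) {p : ℕ} (hp : 1 ≤ p) :
    Afac (fun j => w j + x j * I) (fun j => -w j + x j * I) p =
      JJ (fun j => (p : ℂ) ^ (-(1 / 2 + (w j + x j * I))))
        (fun j => (p : ℂ) ^ (-(1 / 2 - (-w j + x j * I)))) := Afac_eq _ _ hp

theorem ea_norm1 {k : ℕ} (x : Fin k → ℝ) (w : Fin k → ℂ) {p : ℕ} (hp : 1 ≤ p) (j : Fin k) :
    ‖(p : ℂ) ^ (-(1 / 2 + (w j + x j * I)))‖ = (p : ℝ) ^ (-(1 / 2) - (w j).re) := by
  rw [Complex.norm_natCast_cpow_of_pos hp]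
  congr 1
  simp
  ring

theorem ea_norm2 {k : ℕ} (x : Fin k → ℝ) (w : Fin k → ℂ) {p : ℕ} (hp : 1 ≤ p) (j : Fin k) :
    ‖(p : ℂ) ^ (-(1 / 2 - (-w j + x j * I)))‖ = (p : ℝ) ^ (-(1 / 2) - (w j).re) := by
  rw [Complex.norm_natCast_cpow_of_pos hp]
  congr 1
  simp
  ring

theorem ea_lt_one {e ρ : ℝ} (hρ : 0 < ρ) (hρe : ρ < e) (he : e + ρ ≤ 1 / 2) {k : ℕ}
    {w : Fin k → ℂ} (hw : w ∈ Rg k e ρ) {p : ℕ} (hp : 2 ≤ p) (j : Fin k) :
    (p : ℝ) ^ (-(1 / 2) - (w j).re) < 1 := by
  have hp' : (1 : ℝ) < p := by exact_mod_cast hp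
  apply Real.rpow_lt_one_of_one_lt_of_neg hp'
  obtain ⟨j₀, h1, h2⟩ := hw
  by_cases hj : j = j₀
  · subst hj; linarith
  · have := h2 j hj; linarith

theorem ea_bound (k : ℕ) {e ρ : ℝ} (hρ : 0 < ρ) (hρe : ρ < e) (he : e + ρ ≤ 1 / 2) :
    ∃ C : ℝ, 0 < C ∧ ∀ (x : Fin k → ℝ), ∀ w ∈ Rg k e ρ, ∀ p : Nat.Primes,
      ‖Afac (fun j => w j + x j * I) (fun j => -w j + x j * I) p - 1‖
        ≤ C * ((p : ℕ) : ℝ) ^ (-(1 + 2 * (e - ρ))) := by
  obtain ⟨C, hC, h⟩ := JJ_bound k
  refine ⟨C, hC, fun x w hw p => ?_⟩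
  have hp2 : 2 ≤ (p : ℕ) := p.2.two_le
  have hp1 : 1 ≤ (p : ℕ) := by omega
  have hp' : (1 : ℝ) < ((p : ℕ) : ℝ) := by exact_mod_cast hp2
  have hp0 : (0 : ℝ) < ((p : ℕ) : ℝ) := by linarith
  obtain ⟨j₀, h1, h2⟩ := hw
  rw [ea_Afac x w hp1]
  have hb := h (fun j => ((p : ℕ) : ℂ) ^ (-(1 / 2 + (w j + x j * I))))
    (fun j => ((p : ℕ) : ℂ) ^ (-(1 / 2 - (-w j + x j * I)))) j₀
    (((p : ℕ) : ℝ) ^ (-(1 / 2) + ρ)) (((p : ℕ) : ℝ) ^ (-e)) (Real.rpow_nonneg hp0.le _)
    (Real.rpow_le_rpow_of_exponent_le hp'.le (by linarith))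
    (Real.rpow_lt_one_of_one_lt_of_neg hp' (by linarith)) ?_ ?_ ?_
  · refine hb.trans (le_of_eq ?_)
    rw [← Real.rpow_add hp0, ← Real.rpow_natCast, ← Real.rpow_mul hp0.le]
    congr 2
    push_cast
    ring
  · rw [ea_norm1 x w hp1]
    exact Real.rpow_le_rpow_of_exponent_le hp'.le (by linarith)
  · rw [ea_norm2 x w hp1]
    exact Real.rpow_le_rpow_of_exponent_le hp'.le (by linarith)
  · intro j hj
    have := h2 j hj
    rw [ea_norm1 x w hp1, ea_norm2 x w hp1]
    exact ⟨Real.rpow_le_rpow_of_exponent_le hp'.le (by linarith),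
      Real.rpow_le_rpow_of_exponent_le hp'.le (by linarith)⟩

theorem ea_summable {e ρ : ℝ} (hρe : ρ < e) (C : ℝ) :
    Summable (fun p : Nat.Primes => C * ((p : ℕ) : ℝ) ^ (-(1 + 2 * (e - ρ)))) := by
  apply Summable.mul_left
  exact Nat.Primes.summable_rpow.2 (by linarith)

theorem AX_bound (k : ℕ) {e ρ : ℝ} (hρ : 0 < ρ) (hρe : ρ < e) (he : e + ρ ≤ 1 / 2) : ∃ C : ℝ, 0 < C ∧
    ∀ (x : Fin k → ℝ), ∀ w ∈ Rg k e ρ,
      (Multipliable fun p : Nat.Primes => Afac (fun j => w j + x j * I) (fun j => -w j + x j * I) p) ∧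
        ‖AX x w‖ ≤ C := by
  obtain ⟨C, hC, h⟩ := ea_bound k hρ hρe he
  refine ⟨Real.exp (∑' p : Nat.Primes, C * ((p : ℕ) : ℝ) ^ (-(1 + 2 * (e - ρ)))), Real.exp_pos _,
    fun x w hw => ?_⟩
  have hs := ea_summable hρe C
  set a : Nat.Primes → ℂ := fun p =>
    Afac (fun j => w j + x j * I) (fun j => -w j + x j * I) p - 1 with ha
  have hsa : Summable (fun p => ‖a p‖) :=
    Summable.of_nonneg_of_le (fun _ => norm_nonneg _) (fun p => h x w hw p) hs
  have hm : Multipliable fun p : Nat.Primes => 1 + a p := multipliable_one_add_of_summable hsa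
  have he1 : (fun p : Nat.Primes => Afac (fun j => w j + x j * I) (fun j => -w j + x j * I) p)
      = fun p => 1 + a p := by
    funext p
    rw [ha]
    ring
  rw [he1]
  refine ⟨hm, ?_⟩
  unfold AX AA
  rw [he1]
  have ht := (hm.hasProd.norm : Filter.Tendsto _ _ _)
  refine le_of_tendsto ht (Filter.Eventually.of_forall fun s => ?_)
  change ∏ p ∈ s, ‖1 + a p‖ ≤ _
  calc ∏ p ∈ s, ‖1 + a p‖ ≤ ∏ p ∈ s, Real.exp ‖a p‖ := by
        refine Finset.prod_le_prod (fun p _ => norm_nonneg _) (fun p _ => ?_)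
        refine (norm_add_le _ _).trans ?_
        rw [norm_one, add_comm]
        exact Real.add_one_le_exp _
    _ = Real.exp (∑ p ∈ s, ‖a p‖) := (Real.exp_sum _ _).symm
    _ ≤ Real.exp (∑' p : Nat.Primes, C * ((p : ℕ) : ℝ) ^ (-(1 + 2 * (e - ρ)))) := by
        rw [Real.exp_le_exp]
        refine (Finset.sum_le_sum fun p _ => h x w hw p).trans ?_
        exact hs.sum_le_tsum s (fun p _ => by positivity)

theorem ea_cont {k : ℕ} {e ρ : ℝ} (hρ : 0 < ρ) (hρe : ρ < e) (he : e + ρ ≤ 1 / 2)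
    (p : Nat.Primes) :
    ContinuousOn (fun P : (Fin k → ℝ) × (Fin k → ℂ) =>
      Afac (fun j => P.2 j + P.1 j * I) (fun j => -P.2 j + P.1 j * I) p)
      (Set.univ ×ˢ Rg k e ρ) := by
  have hp2 : 2 ≤ (p : ℕ) := p.2.two_le
  have hp1 : 1 ≤ (p : ℕ) := by omega
  have hp0 : ((p : ℕ) : ℂ) ≠ 0 := by
    have : (p : ℕ) ≠ 0 := by omega
    exact_mod_cast this
  have hc : Continuous (fun P : (Fin k → ℝ) × (Fin k → ℂ) =>
      ((fun j => ((p : ℕ) : ℂ) ^ (-(1 / 2 + (P.2 j + P.1 j * I))),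
        fun j => ((p : ℕ) : ℂ) ^ (-(1 / 2 - (-P.2 j + P.1 j * I)))) :
        (Fin k → ℂ) × (Fin k → ℂ))) := by
    refine Continuous.prodMk (continuous_pi fun j => ?_) (continuous_pi fun j => ?_)
    · refine Continuous.const_cpow ?_ (Or.inl hp0)
      fun_prop
    · refine Continuous.const_cpow ?_ (Or.inl hp0)
      fun_prop
  refine ((JJ_continuousOn k).comp hc.continuousOn ?_).congr ?_
  · intro P hP
    refine ⟨fun j => ?_, fun j => ?_⟩
    · change ‖((p : ℕ) : ℂ) ^ (-(1 / 2 + (P.2 j + P.1 j * I)))‖ < 1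
      rw [ea_norm1 P.1 P.2 hp1]
      exact ea_lt_one hρ hρe he hP.2 hp2 j
    · change ‖((p : ℕ) : ℂ) ^ (-(1 / 2 - (-P.2 j + P.1 j * I)))‖ < 1
      rw [ea_norm2 P.1 P.2 hp1]
      exact ea_lt_one hρ hρe he hP.2 hp2 j
  · intro P hP
    exact ea_Afac P.1 P.2 hp1

theorem AX_continuousOn_prod (k : ℕ) {e ρ : ℝ} (hρ : 0 < ρ) (hρe : ρ < e) (he : e + ρ ≤ 1 / 2) :
    ContinuousOn (fun P : (Fin k → ℝ) × (Fin k → ℂ) => AX P.1 P.2) (Set.univ ×ˢ Rg k e ρ) := by
  obtain ⟨C, hC, h⟩ := ea_bound k hρ hρe he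
  have hs := ea_summable hρe C
  have hu := Summable.hasProdLocallyUniformlyOn_one_add (K := Set.univ ×ˢ Rg k e ρ)
    (f := fun (p : Nat.Primes) (P : (Fin k → ℝ) × (Fin k → ℂ)) =>
      Afac (fun j => P.2 j + P.1 j * I) (fun j => -P.2 j + P.1 j * I) p - 1)
    (isOpen_univ.prod (isOpen_Rg k e ρ)) hs
    (Filter.Eventually.of_forall fun p P hP => h P.1 P.2 hP.2 p)
    (fun p => (ea_cont hρ hρe he p).sub continuousOn_const)
  have hc := TendstoLocallyUniformlyOn.continuousOn hu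
    (Filter.Frequently.of_forall fun s => ?_)
  · refine hc.congr fun P _ => ?_
    unfold AX AA
    refine tprod_congr fun p => ?_
    ring
  · refine continuousOn_finsetProd s fun p _ => ?_
    exact continuousOn_const.add ((ea_cont hρ hρe he p).sub continuousOn_const)

theorem AX_continuousOn (k : ℕ) {e ρ : ℝ} (hρ : 0 < ρ) (hρe : ρ < e) (he : e + ρ ≤ 1 / 2) (x : Fin k → ℝ) :
    ContinuousOn (AX x) (Rg k e ρ) := by
  have h := (AX_continuousOn_prod k hρ hρe he).comp
    (f := fun w : Fin k → ℂ => (x, w)) (s := Rg k e ρ) (by fun_prop)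
    (fun w hw => ⟨Set.mem_univ _, hw⟩)
  exact h

theorem AX_diff {k : ℕ} {e ρ : ℝ} (hρ : 0 < ρ) (hρe : ρ < e) (he : e + ρ ≤ 1 / 2) (x : Fin k → ℝ)
    (w : Fin k → ℂ) (j : Fin k) {s : ℂ} (hs : Function.update w j s ∈ Rg k e ρ) :
    DifferentiableAt ℂ (fun s => AX x (Function.update w j s)) s := by
  obtain ⟨C, hC, h⟩ := ea_bound k hρ hρe he
  have hsum := ea_summable hρe C
  set U : Set ℂ := {s | Function.update w j s ∈ Rg k e ρ} with hU
  have hcu : Continuous (fun s : ℂ => Function.update w j s) := by fun_prop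
  have hUo : IsOpen U := (isOpen_Rg k e ρ).preimage hcu
  have hd : ∀ p : Nat.Primes, DifferentiableOn ℂ (fun s =>
      Afac (fun i => Function.update w j s i + x i * I)
        (fun i => -Function.update w j s i + x i * I) p - 1) U := by
    intro p t ht
    have hp2 : 2 ≤ (p : ℕ) := p.2.two_le
    have hp1 : 1 ≤ (p : ℕ) := by omega
    have hp0 : ((p : ℕ) : ℂ) ≠ 0 := by
      have : (p : ℕ) ≠ 0 := by omega
      exact_mod_cast this
    have hupd : ∀ i, Differentiable ℂ (fun s : ℂ => Function.update w j s i) := by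
      intro i
      by_cases hi : i = j
      · subst hi
        simp only [Function.update_self]
        exact differentiable_id
      · simp only [Function.update_of_ne hi]
        exact differentiable_const _
    have h1 := JJ_diff (k := k)
      (X := fun s i => ((p : ℕ) : ℂ) ^ (-(1 / 2 + (Function.update w j s i + x i * I))))
      (Y := fun s i => ((p : ℕ) : ℂ) ^ (-(1 / 2 - (-Function.update w j s i + x i * I))))
      (s₀ := t) ?_ ?_ ?_ ?_
    · refine DifferentiableAt.differentiableWithinAt ?_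
      refine DifferentiableAt.sub_const ?_ 1
      refine h1.congr_of_eventuallyEq (Filter.Eventually.of_forall fun s => ?_)
      exact ea_Afac x (Function.update w j s) hp1
    · intro i
      refine Filter.Eventually.of_forall fun s => ?_
      refine DifferentiableAt.const_cpow ?_ (Or.inl hp0)
      exact (((hupd i s).add_const _).const_add _).neg
    · intro i
      refine Filter.Eventually.of_forall fun s => ?_
      refine DifferentiableAt.const_cpow ?_ (Or.inl hp0)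
      exact (((hupd i s).neg.add_const _).const_sub _).neg
    · intro i
      rw [ea_norm1 x (Function.update w j t) hp1]
      exact ea_lt_one hρ hρe he ht hp2 i
    · intro i
      rw [ea_norm2 x (Function.update w j t) hp1]
      exact ea_lt_one hρ hρe he ht hp2 i
  have hu := Summable.hasProdLocallyUniformlyOn_one_add (K := U)
    (f := fun (p : Nat.Primes) (s : ℂ) =>
      Afac (fun i => Function.update w j s i + x i * I)
        (fun i => -Function.update w j s i + x i * I) p - 1)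
    hUo hsum
    (Filter.Eventually.of_forall fun p t ht => h x (Function.update w j t) ht p)
    (fun p => (hd p).continuousOn)
  have hdd := TendstoLocallyUniformlyOn.differentiableOn hu
    (Filter.Eventually.of_forall fun F => ?_) hUo
  · have h2 := hdd.differentiableAt (hUo.mem_nhds hs)
    refine h2.congr_of_eventuallyEq (Filter.Eventually.of_forall fun t => ?_)
    unfold AX AA
    refine tprod_congr fun p => ?_
    ring
  · refine DifferentiableOn.fun_finsetProd fun p _ => ?_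
    exact (hd p).const_add 1

end Pool.Agent.P07318s
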