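import Pool.Agent.Lib.P07318s.Defs
import Pool.Agent.Lib.P4f18dfV.Defs
import Pool.Agent.Lib.P4f18dfV.HalfPlane
import Pool.Agent.Lib.P4f18dfV.Crude

/-!
Crude bounds for Gamma and zeta.
-/

set_option autoImplicit false

namespace Pool.Agent.P07318s

open MeasureTheory Complex

theorem gamma_upper {s : ℂ} (hs : 0 < s.re) : ‖Gamma s‖ ≤ Real.Gamma s.re :=
  P4f18dfV.norm_Gamma_le_re hs

theorem gamma_quarter_lower : ∃ c : ℝ, 0 < c ∧ ∀ y : ℝ,
    c * Real.exp (-(Real.pi * |y|)) ≤ ‖Gamma (1 / 4 + y * I)‖ := by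
  have hG0 : 0 < Real.Gamma (3 / 4) := Real.Gamma_pos_of_pos (by norm_num)
  refine ⟨Real.pi / Real.Gamma (3 / 4), by positivity, fun y => ?_⟩
  have h1 := Complex.Gamma_mul_Gamma_one_sub (1 / 4 + y * I)
  have hre : (1 / 4 + y * I : ℂ).re = 1 / 4 := by
    simp [Complex.add_re, Complex.mul_re]
  have hre2 : (1 - (1 / 4 + y * I) : ℂ).re = 3 / 4 := by
    rw [Complex.sub_re, hre, Complex.one_re]
    norm_num
  have h2 : ‖Gamma (1 - (1 / 4 + y * I))‖ ≤ Real.Gamma (3 / 4) := by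
    have := gamma_upper (s := 1 - (1 / 4 + y * I)) (by rw [hre2]; norm_num)
    rwa [hre2] at this
  have h3 : ‖Complex.sin (Real.pi * (1 / 4 + y * I))‖ ≤ Real.exp (Real.pi * |y|) := by
    rw [← Complex.cos_sub_pi_div_two]
    refine (P4f18dfV.norm_cos_le_exp _).trans ?_
    apply Real.exp_le_exp.mpr
    have e : ((Real.pi : ℂ) * (1 / 4 + y * I) - Real.pi / 2).im = Real.pi * y := by
      have : (Real.pi : ℂ) * (1 / 4 + y * I) - Real.pi / 2 =
          ((Real.pi / 4 - Real.pi / 2 : ℝ) : ℂ) + ((Real.pi * y : ℝ) : ℂ) * I := by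
        push_cast
        ring
      rw [this]
      simp
    rw [e, abs_mul, abs_of_pos Real.pi_pos]
  have hsin : Complex.sin (Real.pi * (1 / 4 + y * I)) ≠ 0 := by
    intro h0
    rw [h0, div_zero] at h1
    have hne1 : Gamma (1 / 4 + y * I) ≠ 0 := Complex.Gamma_ne_zero_of_re_pos (by rw [hre]; norm_num)
    have hne2 : Gamma (1 - (1 / 4 + y * I)) ≠ 0 :=
      Complex.Gamma_ne_zero_of_re_pos (by rw [hre2]; norm_num)
    exact (mul_ne_zero hne1 hne2) h1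
  have hsin' : 0 < ‖Complex.sin (Real.pi * (1 / 4 + y * I))‖ := norm_pos_iff.mpr hsin
  have h4 := congrArg norm h1
  rw [norm_mul, norm_div, Complex.norm_real, Real.norm_of_nonneg Real.pi_pos.le] at h4
  rw [eq_div_iff hsin'.ne'] at h4
  rw [div_mul_eq_mul_div, div_le_iff₀ hG0, Real.exp_neg, ← div_eq_mul_inv,
    div_le_iff₀ (Real.exp_pos _)]
  calc Real.pi = ‖Gamma (1 / 4 + y * I)‖ * ‖Gamma (1 - (1 / 4 + y * I))‖ *
        ‖Complex.sin (Real.pi * (1 / 4 + y * I))‖ := h4.symm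
    _ ≤ ‖Gamma (1 / 4 + y * I)‖ * Real.Gamma (3 / 4) * Real.exp (Real.pi * |y|) := by
        gcongr

lemma zE_formula {s : ℂ} (hs : 0 < s.re) :
    P4f18dfV.zE s = s - s * (s - 1) * P4f18dfV.hpA s := by
  have hU : IsOpen {s : ℂ | 0 < s.re} := isOpen_lt continuous_const Complex.continuous_re
  have hconv : Convex ℝ {s : ℂ | 0 < s.re} := convex_halfSpace_re_gt 0
  have hf1 : AnalyticOnNhd ℂ P4f18dfV.zE {s : ℂ | 0 < s.re} :=
    P4f18dfV.zE_diff.differentiableOn.analyticOnNhd hU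
  have hf2 : AnalyticOnNhd ℂ (fun s => s - s * (s - 1) * P4f18dfV.hpA s) {s : ℂ | 0 < s.re} := by
    refine DifferentiableOn.analyticOnNhd (fun z hz => ?_) hU
    refine DifferentiableAt.differentiableWithinAt ?_
    have := P4f18dfV.hpA_diff hz
    fun_prop
  have heq := hf1.eqOn_of_preconnected_of_eventuallyEq hf2 hconv.isPreconnected
    (z₀ := 2) (by simp) (by
      have h1 : ∀ᶠ z : ℂ in nhds 2, 1 < z.re :=
        (isOpen_lt continuous_const Complex.continuous_re).mem_nhds (by simp)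
      filter_upwards [h1] with z hz
      exact P4f18dfV.hp_zeta hz)
  exact heq hs

theorem zE_bound (σ₀ : ℝ) (hσ : 0 < σ₀) : ∃ C : ℝ, 0 < C ∧ ∀ s : ℂ, σ₀ ≤ s.re →
    ‖P4f18dfV.zE s‖ ≤ C * (1 + ‖s‖) ^ 2 := by
  refine ⟨1 + 1 / σ₀, by positivity, fun s hs => ?_⟩
  have h0 : 0 < s.re := hσ.trans_le hs
  rw [zE_formula h0]
  have h2 : ‖P4f18dfV.hpA s‖ ≤ 1 / σ₀ :=
    (P4f18dfV.hpA_norm h0).trans (one_div_le_one_div_of_le hσ hs)
  have h3 : ‖s - 1‖ ≤ ‖s‖ + 1 := by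
    refine (norm_sub_le _ _).trans ?_
    rw [norm_one]
  have hn : 0 ≤ ‖s‖ := norm_nonneg s
  have hσ' : 0 < 1 / σ₀ := by positivity
  calc ‖s - s * (s - 1) * P4f18dfV.hpA s‖ ≤ ‖s‖ + ‖s‖ * ‖s - 1‖ * ‖P4f18dfV.hpA s‖ := by
        refine (norm_sub_le _ _).trans ?_
        rw [norm_mul, norm_mul]
    _ ≤ ‖s‖ + ‖s‖ * (‖s‖ + 1) * (1 / σ₀) := by gcongr
    _ ≤ (1 + 1 / σ₀) * (1 + ‖s‖) ^ 2 := by nlinarith [mul_nonneg hσ'.le hn, mul_nonneg hσ'.le (sq_nonneg ‖s‖)]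

theorem zeta_bound_im (σ₀ : ℝ) (hσ : 0 < σ₀) : ∃ C : ℝ, 0 < C ∧ ∀ s : ℂ, σ₀ ≤ s.re → s.re ≤ 4 →
    1 / 10 ≤ ‖s - 1‖ → ‖riemannZeta s‖ ≤ C * (1 + |s.im|) := by
  obtain ⟨C, hC, hb⟩ := zE_bound σ₀ hσ
  refine ⟨275 * C, by positivity, fun s h1 h2 h3 => ?_⟩
  have hs1 : s ≠ 1 := by
    rintro rfl
    simp at h3
    norm_num at h3
  have hz := P4f18dfV.zE_of_ne hs1
  have hz' := congrArg norm hz
  rw [norm_mul] at hz'
  have h4 : |s.im| ≤ ‖s - 1‖ := by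
    have := Complex.abs_im_le_norm (s - 1)
    simpa using this
  have h5 : 1 + |s.im| ≤ 11 * ‖s - 1‖ := by linarith
  have h6 : ‖s‖ ≤ 4 + |s.im| := by
    refine (Complex.norm_le_abs_re_add_abs_im s).trans ?_
    rw [abs_of_pos (hσ.trans_le h1)]
    linarith
  have him : 0 ≤ |s.im| := abs_nonneg _
  have h7 : ‖s - 1‖ * ‖riemannZeta s‖ ≤ C * (25 * (1 + |s.im|) ^ 2) := by
    rw [← hz']
    refine (hb s h1).trans ?_
    refine mul_le_mul_of_nonneg_left ?_ hC.le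
    have : (1 + ‖s‖) ^ 2 ≤ (5 + |s.im|) ^ 2 := by
      apply pow_le_pow_left₀ (by positivity)
      linarith
    nlinarith
  have h8 : (1 + |s.im|) * ‖riemannZeta s‖ ≤ (1 + |s.im|) * (275 * C * (1 + |s.im|)) := by
    calc (1 + |s.im|) * ‖riemannZeta s‖ ≤ 11 * ‖s - 1‖ * ‖riemannZeta s‖ := by gcongr
      _ = 11 * (‖s - 1‖ * ‖riemannZeta s‖) := by ring
      _ ≤ 11 * (C * (25 * (1 + |s.im|) ^ 2)) := by gcongr
      _ = _ := by ring
  exact le_of_mul_le_mul_left h8 (by positivity)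

theorem zeta_bound_re (a : ℝ) (ha : 0 < a) : ∃ C : ℝ, 0 < C ∧ ∀ s : ℂ, 1 + a ≤ s.re →
    ‖riemannZeta s‖ ≤ C := by
  have hsum : Summable fun n : ℕ => 1 / ((n : ℝ) + 1) ^ (1 + a) := by
    have h1 := (Real.summable_one_div_nat_rpow (p := 1 + a)).mpr (by linarith)
    have h2 := (summable_nat_add_iff 1).mpr h1
    simpa using h2
  refine ⟨1 + ∑' n : ℕ, 1 / ((n : ℝ) + 1) ^ (1 + a), ?_, fun s hs => ?_⟩
  · have : 0 ≤ ∑' n : ℕ, 1 / ((n : ℝ) + 1) ^ (1 + a) := tsum_nonneg fun n => by positivity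
    linarith
  rw [zeta_eq_tsum_one_div_nat_add_one_cpow (by linarith)]
  have hle : ∀ n : ℕ, ‖1 / ((n : ℂ) + 1) ^ s‖ ≤ 1 / ((n : ℝ) + 1) ^ (1 + a) := by
    intro n
    rw [norm_div, norm_one]
    have e : ((n : ℂ) + 1) = (((n : ℝ) + 1 : ℝ) : ℂ) := by push_cast; ring
    rw [e, Complex.norm_cpow_eq_rpow_re_of_pos (by positivity)]
    apply one_div_le_one_div_of_le (by positivity)
    apply Real.rpow_le_rpow_of_exponent_le _ hs
    have : (0 : ℝ) ≤ n := Nat.cast_nonneg n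
    linarith
  have hs2 : Summable fun n : ℕ => ‖1 / ((n : ℂ) + 1) ^ s‖ :=
    Summable.of_nonneg_of_le (fun n => norm_nonneg _) hle hsum
  refine (norm_tsum_le_tsum_norm hs2).trans ?_
  have := hs2.tsum_le_tsum hle hsum
  linarith

/-- the entire function `z (1 - z) Λ(z)` -/
noncomputable def xi0 (z : ℂ) : ℂ := z * (1 - z) * completedRiemannZeta₀ z - 1

theorem xi0_eq {z : ℂ} (hz : 0 < z.re) (h1 : z ≠ 1) : xi0 z = z * (1 - z) * (Gammaℝ z * riemannZeta z) := by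
  have h0 : z ≠ 0 := by
    rintro rfl
    simp at hz
  have h1' : 1 - z ≠ 0 := sub_ne_zero.mpr (Ne.symm h1)
  rw [riemannZeta_def_of_ne_zero h0, mul_div_cancel₀ _ (Gammaℝ_ne_zero_of_re_pos hz),
    completedRiemannZeta_eq, xi0]
  field_simp
  ring

theorem xi0_diff : Differentiable ℂ xi0 := by
  unfold xi0
  have := differentiable_completedZeta₀
  fun_prop

theorem xi0_one_sub (z : ℂ) : xi0 (1 - z) = xi0 z := by
  unfold xi0
  rw [completedRiemannZeta₀_one_sub]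
  ring

theorem xi0_eq_zE {z : ℂ} (hz : 0 < z.re) : xi0 z = -(z * Gammaℝ z * P4f18dfV.zE z) := by
  by_cases h1 : z = 1
  · subst h1
    rw [P4f18dfV.zE_one, Gammaℝ_one, xi0]
    ring
  · rw [xi0_eq hz h1, P4f18dfV.zE_of_ne h1]
    ring

theorem xi0_bound : ∃ C : ℝ, 0 < C ∧ ∀ z : ℂ, 1 / 2 ≤ z.re → z.re ≤ 2 → ‖xi0 z‖ ≤ C * (1 + ‖z‖) ^ 4 := by
  obtain ⟨C, hC, hb⟩ := zE_bound (1 / 2) (by norm_num)
  have hcont : ContinuousOn Real.Gamma (Set.Icc (1 / 4 : ℝ) 1) := by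
    intro x hx
    have hx0 : 0 < x := by
      have := hx.1
      linarith
    exact (Real.differentiableAt_Gamma (fun m => by
      have : (0 : ℝ) ≤ m := Nat.cast_nonneg m
      linarith)).continuousAt.continuousWithinAt
  obtain ⟨M, hM⟩ := isCompact_Icc.exists_bound_of_continuousOn hcont
  refine ⟨(|M| + 1) * C, by positivity, fun z h1 h2 => ?_⟩
  have hz0 : 0 < z.re := by linarith
  rw [xi0_eq_zE hz0, norm_neg, norm_mul, norm_mul]
  have hre : (z / 2).re = z.re / 2 := by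
    have : z / 2 = ((1 / 2 : ℝ) : ℂ) * z := by push_cast; ring
    rw [this, Complex.re_ofReal_mul]
    ring
  have hg : ‖Gammaℝ z‖ ≤ |M| + 1 := by
    rw [Gammaℝ_def, norm_mul]
    have h3 : ‖(Real.pi : ℂ) ^ (-z / 2)‖ ≤ 1 := by
      rw [Complex.norm_cpow_eq_rpow_re_of_pos Real.pi_pos]
      apply Real.rpow_le_one_of_one_le_of_nonpos
      · have := Real.pi_gt_three
        linarith
      · have : (-z / 2).re = -(z.re / 2) := by
          rw [neg_div, Complex.neg_re, hre]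
        rw [this]
        linarith
    have h4 : ‖Gamma (z / 2)‖ ≤ |M| + 1 := by
      refine (gamma_upper (by rw [hre]; linarith)).trans ?_
      rw [hre]
      have h5 := hM (z.re / 2) ⟨by linarith, by linarith⟩
      have h6 := le_abs_self (Real.Gamma (z.re / 2))
      rw [Real.norm_eq_abs] at h5
      have h7 := le_abs_self M
      linarith
    calc ‖(Real.pi : ℂ) ^ (-z / 2)‖ * ‖Gamma (z / 2)‖ ≤ 1 * (|M| + 1) := by gcongr
      _ = _ := one_mul _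
  have hn : 0 ≤ ‖z‖ := norm_nonneg z
  calc ‖z‖ * ‖Gammaℝ z‖ * ‖P4f18dfV.zE z‖ ≤ (1 + ‖z‖) * (|M| + 1) * (C * (1 + ‖z‖) ^ 2) := by
        have := hb z h1
        have h8 : ‖z‖ ≤ 1 + ‖z‖ := by linarith
        gcongr
    _ = (|M| + 1) * C * (1 + ‖z‖) ^ 3 := by ring
    _ ≤ (|M| + 1) * C * (1 + ‖z‖) ^ 4 := by
        have h9 : (1 + ‖z‖) ^ 3 ≤ (1 + ‖z‖) ^ 4 := pow_le_pow_right₀ (by linarith) (by norm_num)
        have h10 : 0 ≤ (|M| + 1) * C := by positivity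
        exact mul_le_mul_of_nonneg_left h9 h10

end Pool.Agent.P07318s
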