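import Pool.Agent.Lib.P07318s.Defs
import Pool.Agent.Lib.P07318s.Crude

/-!
One variable. Let `F₀(s) = X^s ζ(1+2s)/s · f(s) = g(s)/s²` with `g(s) = X^s zE(1+2s)/2 · f(s)` holomorphic near the
rectangle `K`. The circle integral `I⁻¹ ∮ F₀ = 2π g'(0)`, and also `I⁻¹ ∮ exp(s²) F₀ = 2π g'(0)` (derivative of `exp(s²) g`
at `0`). So it is enough to treat `F = exp(s²) F₀` on both sides: write `exp(s²) g(s) = g(0) + g'(0) s + s² h(s)` with `h`
holomorphic near `K` (`dslope` twice); the boundary integral of `h` over the rectangle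
`[-1/2+e, c] × [-Y, Y]` vanishes (`Complex.integral_boundary_rect_eq_zero_of_differentiableOn`), that of `1/s²` vanishes
(primitive `-1/s`), that of `1/s` is `2πi` (primitive `log`, cut on the negative real axis). Hence the right side
`∫_{-Y}^{Y} F(c+iv) dv` minus `2π g'(0)` is the integral over the left side and the two horizontal sides. Left side:
`|X^s| = X^(-1/2+e)`, `|ζ(1+2s)| ≤ C (1+|v|)` (`zeta_bound_im`, `Re(1+2s) = 2e > 0`; `‖2s‖ ≥ 1/10` since
`‖s‖ ≥ 1/2 - e > r`), `|1/s| ≤ 1/r`, `|exp(s²)| ≤ e exp(-v²)`. Horizontal sides: `|exp(s²)| ≤ e exp(-Y²)`,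
`X^σ ≤ X^(-1/2+e) + X^c`, `|ζ(1+2s)| ≤ C (1+Y)`, and `(1+Y) exp(-Y²) ≤ 2 exp(-Y²/2)`.
The constant may depend on `e, r, c`.
-/

set_option autoImplicit false

namespace Pool.Agent.P07318s

open MeasureTheory Complex

namespace OneVarAux

/-- horizontal side -/
noncomputable def hs (F : ℂ → ℂ) (a c y : ℝ) : ℂ := ∫ x in a..c, F ((x : ℂ) + (y : ℂ) * I)

/-- vertical side -/
noncomputable def vs (F : ℂ → ℂ) (x Y : ℝ) : ℂ := ∫ y in (-Y)..Y, F ((x : ℂ) + (y : ℂ) * I)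

/-- boundary integral over the rectangle -/
noncomputable def RI (F : ℂ → ℂ) (a c Y : ℝ) : ℂ :=
  hs F a c (-Y) - hs F a c Y + I * vs F c Y - I * vs F a Y

/-- the closed rectangle -/
def K (a c Y : ℝ) : Set ℂ := {s | a ≤ s.re ∧ s.re ≤ c ∧ |s.im| ≤ Y}

lemma re_line (x y : ℝ) : ((x : ℂ) + (y : ℂ) * I).re = x := by simp
lemma im_line (x y : ℝ) : ((x : ℂ) + (y : ℂ) * I).im = y := by simp

lemma mem_K {a c Y x y : ℝ} (h1 : a ≤ x) (h2 : x ≤ c) (h3 : |y| ≤ Y) :
    ((x : ℂ) + (y : ℂ) * I) ∈ K a c Y := by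
  unfold K
  rw [Set.mem_ofPred_eq, re_line, im_line]
  exact ⟨h1, h2, h3⟩

lemma hs_prim {F P : ℂ → ℂ} {a c y : ℝ} (hac : a ≤ c)
    (h : ∀ x : ℝ, a ≤ x → x ≤ c → HasDerivAt P (F ((x : ℂ) + (y : ℂ) * I)) ((x : ℂ) + (y : ℂ) * I))
    (hint : IntervalIntegrable (fun x : ℝ => F ((x : ℂ) + (y : ℂ) * I)) volume a c) :
    hs F a c y = P ((c : ℂ) + (y : ℂ) * I) - P ((a : ℂ) + (y : ℂ) * I) := by
  unfold hs
  apply intervalIntegral.integral_eq_sub_of_hasDerivAt (f := fun x : ℝ => P ((x : ℂ) + (y : ℂ) * I))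
  · intro x hx
    rw [Set.uIcc_of_le hac] at hx
    have h1 := (h x hx.1 hx.2).comp_add_const (x : ℂ) ((y : ℂ) * I)
    exact h1.comp_ofReal
  · exact hint

lemma vs_prim {F P : ℂ → ℂ} {x Y : ℝ} (hY : 0 ≤ Y)
    (h : ∀ y : ℝ, |y| ≤ Y → HasDerivAt P (F ((x : ℂ) + (y : ℂ) * I)) ((x : ℂ) + (y : ℂ) * I))
    (hint : IntervalIntegrable (fun y : ℝ => F ((x : ℂ) + (y : ℂ) * I)) volume (-Y) Y) :
    I * vs F x Y = P ((x : ℂ) + (Y : ℂ) * I) - P ((x : ℂ) + ((-Y : ℝ) : ℂ) * I) := by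
  unfold vs
  rw [← intervalIntegral.integral_const_mul]
  apply intervalIntegral.integral_eq_sub_of_hasDerivAt (f := fun y : ℝ => P ((x : ℂ) + (y : ℂ) * I))
  · intro y hy
    rw [Set.uIcc_of_le (by linarith)] at hy
    have h0 : HasDerivAt (fun z : ℂ => (x : ℂ) + z * I) I (y : ℂ) := by
      simpa using ((hasDerivAt_id (y : ℂ)).mul_const I).const_add (x : ℂ)
    have h1 := (h y (abs_le.mpr ⟨hy.1, hy.2⟩)).comp (y : ℂ) h0
    rw [mul_comm] at h1
    exact h1.comp_ofReal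
  · exact hint.const_mul I

/-- integrability on the sides -/
structure Sides (F : ℂ → ℂ) (a c Y : ℝ) : Prop where
  bot : IntervalIntegrable (fun x : ℝ => F ((x : ℂ) + ((-Y : ℝ) : ℂ) * I)) volume a c
  top : IntervalIntegrable (fun x : ℝ => F ((x : ℂ) + (Y : ℂ) * I)) volume a c
  rig : IntervalIntegrable (fun y : ℝ => F ((c : ℂ) + (y : ℂ) * I)) volume (-Y) Y
  lef : IntervalIntegrable (fun y : ℝ => F ((a : ℂ) + (y : ℂ) * I)) volume (-Y) Y

lemma sides {F : ℂ → ℂ} {a c Y : ℝ} (ha : a < 0) (hc : 0 < c) (hY : 0 < Y)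
    (hF : ContinuousOn F (K a c Y \ {0})) : Sides F a c Y := by
  have hh : ∀ y : ℝ, y ≠ 0 → |y| ≤ Y →
      IntervalIntegrable (fun x : ℝ => F ((x : ℂ) + (y : ℂ) * I)) volume a c := by
    intro y hy0 hy
    apply ContinuousOn.intervalIntegrable
    rw [Set.uIcc_of_le (by linarith)]
    apply hF.comp (by fun_prop)
    intro x hx
    refine ⟨mem_K hx.1 hx.2 hy, ?_⟩
    rw [Set.mem_singleton_iff]
    intro h
    have h : (x : ℂ) + (y : ℂ) * I = 0 := h
    apply hy0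
    rw [← im_line x y, h, zero_im]
  have hv : ∀ x : ℝ, x ≠ 0 → a ≤ x → x ≤ c →
      IntervalIntegrable (fun y : ℝ => F ((x : ℂ) + (y : ℂ) * I)) volume (-Y) Y := by
    intro x hx0 h1 h2
    apply ContinuousOn.intervalIntegrable
    rw [Set.uIcc_of_le (by linarith)]
    apply hF.comp (by fun_prop)
    intro y hy
    refine ⟨mem_K h1 h2 (abs_le.mpr hy), ?_⟩
    rw [Set.mem_singleton_iff]
    intro h
    have h : (x : ℂ) + (y : ℂ) * I = 0 := h
    apply hx0
    rw [← re_line x y, h, zero_re]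
  exact ⟨hh _ (by simpa using hY.ne') (by rw [abs_neg, abs_of_pos hY]),
    hh _ hY.ne' (by rw [abs_of_pos hY]), hv _ hc.ne' (by linarith) le_rfl,
    hv _ ha.ne le_rfl (by linarith)⟩

lemma RI_add {F G : ℂ → ℂ} {a c Y : ℝ} (hF : Sides F a c Y) (hG : Sides G a c Y) :
    RI (fun s => F s + G s) a c Y = RI F a c Y + RI G a c Y := by
  unfold RI hs vs
  rw [intervalIntegral.integral_add hF.bot hG.bot, intervalIntegral.integral_add hF.top hG.top,
    intervalIntegral.integral_add hF.rig hG.rig, intervalIntegral.integral_add hF.lef hG.lef]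
  ring

lemma RI_mul (z : ℂ) (F : ℂ → ℂ) (a c Y : ℝ) :
    RI (fun s => z * F s) a c Y = z * RI F a c Y := by
  unfold RI hs vs
  rw [intervalIntegral.integral_const_mul, intervalIntegral.integral_const_mul,
    intervalIntegral.integral_const_mul, intervalIntegral.integral_const_mul]
  ring

lemma RI_congr {F G : ℂ → ℂ} {a c Y : ℝ} (ha : a < 0) (hc : 0 < c) (hY : 0 < Y)
    (h : ∀ s ∈ K a c Y, s ≠ 0 → F s = G s) : RI F a c Y = RI G a c Y := by
  have hh : ∀ y : ℝ, y ≠ 0 → |y| ≤ Y → hs F a c y = hs G a c y := by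
    intro y hy0 hy
    unfold hs
    apply intervalIntegral.integral_congr
    intro x hx
    rw [Set.uIcc_of_le (by linarith)] at hx
    refine h _ (mem_K hx.1 hx.2 hy) ?_
    intro h
    apply hy0
    rw [← im_line x y, h, zero_im]
  have hv : ∀ x : ℝ, x ≠ 0 → a ≤ x → x ≤ c → vs F x Y = vs G x Y := by
    intro x hx0 h1 h2
    unfold vs
    apply intervalIntegral.integral_congr
    intro y hy
    rw [Set.uIcc_of_le (by linarith)] at hy
    refine h _ (mem_K h1 h2 (abs_le.mpr hy)) ?_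
    intro h
    apply hx0
    rw [← re_line x y, h, zero_re]
  unfold RI
  rw [hh _ (by simpa using hY.ne') (by rw [abs_neg, abs_of_pos hY]),
    hh _ hY.ne' (by rw [abs_of_pos hY]), hv _ hc.ne' (by linarith) le_rfl,
    hv _ ha.ne le_rfl (by linarith)]

lemma RI_zero {F : ℂ → ℂ} {a c Y : ℝ} (hac : a ≤ c) (hY : 0 ≤ Y)
    (hF : DifferentiableOn ℂ F (K a c Y)) : RI F a c Y = 0 := by
  have h := integral_boundary_rect_eq_zero_of_differentiableOn F
    ((a : ℂ) + ((-Y : ℝ) : ℂ) * I) ((c : ℂ) + (Y : ℂ) * I) ?_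
  · simp only [re_line, im_line] at h
    exact h
  · refine hF.mono ?_
    intro s hs
    rw [Complex.mem_reProdIm, re_line, re_line, im_line, im_line, Set.uIcc_of_le hac,
      Set.uIcc_of_le (by linarith)] at hs
    exact ⟨hs.1.1, hs.1.2, abs_le.mpr hs.2⟩

lemma RI_inv_sq {a c Y : ℝ} (ha : a < 0) (hc : 0 < c) (hY : 0 < Y) :
    RI (fun s => (s ^ 2)⁻¹) a c Y = 0 := by
  have hS := sides (F := fun s => (s ^ 2)⁻¹) ha hc hY (by
    intro s hs
    apply ContinuousAt.continuousWithinAt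
    apply ContinuousAt.inv₀ (by fun_prop)
    exact pow_ne_zero 2 hs.2)
  have hd : ∀ s : ℂ, s ≠ 0 → HasDerivAt (fun z : ℂ => -z⁻¹) ((s ^ 2)⁻¹) s := by
    intro s hs
    have := (hasDerivAt_inv hs).fun_neg
    rwa [neg_neg] at this
  have n1 : ∀ x y : ℝ, y ≠ 0 → ((x : ℂ) + (y : ℂ) * I) ≠ 0 := by
    intro x y hy h
    apply hy
    rw [← im_line x y, h, zero_im]
  have n2 : ∀ x y : ℝ, x ≠ 0 → ((x : ℂ) + (y : ℂ) * I) ≠ 0 := by
    intro x y hx h
    apply hx
    rw [← re_line x y, h, zero_re]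
  unfold RI
  rw [hs_prim (P := fun z : ℂ => -z⁻¹) (by linarith) (fun x _ _ => hd _ (n1 x _ (by simpa using hY.ne'))) hS.bot,
    hs_prim (P := fun z : ℂ => -z⁻¹) (by linarith) (fun x _ _ => hd _ (n1 x _ hY.ne')) hS.top,
    vs_prim (P := fun z : ℂ => -z⁻¹) hY.le (fun y _ => hd _ (n2 _ y hc.ne')) hS.rig,
    vs_prim (P := fun z : ℂ => -z⁻¹) hY.le (fun y _ => hd _ (n2 _ y ha.ne)) hS.lef]
  ring

lemma RI_inv {a c Y : ℝ} (ha : a < 0) (hc : 0 < c) (hY : 0 < Y) :
    RI (fun s => s⁻¹) a c Y = 2 * Real.pi * I := by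
  have hS := sides (F := fun s => s⁻¹) ha hc hY (by
    intro s hs
    exact (continuousAt_inv₀ hs.2).continuousWithinAt)
  have hb := hs_prim (F := fun s => s⁻¹) (P := Complex.log) (a := a) (c := c) (y := -Y) (by linarith)
    (fun x _ _ => Complex.hasDerivAt_log (Or.inr (by rw [im_line]; linarith))) hS.bot
  have ht := hs_prim (F := fun s => s⁻¹) (P := Complex.log) (a := a) (c := c) (y := Y) (by linarith)
    (fun x _ _ => Complex.hasDerivAt_log (Or.inr (by rw [im_line]; linarith))) hS.top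
  have hr := vs_prim (F := fun s => s⁻¹) (P := Complex.log) (x := c) hY.le
    (fun y _ => Complex.hasDerivAt_log (Or.inl (by rw [re_line]; linarith))) hS.rig
  have hl := vs_prim (F := fun s => s⁻¹) (P := fun z => Complex.log (-z)) (x := a) hY.le
    (fun y _ => by
      have h1 : (-((a : ℂ) + (y : ℂ) * I)) ∈ Complex.slitPlane :=
        Or.inl (by rw [neg_re, re_line]; linarith)
      have h2 := (Complex.hasDerivAt_log h1).comp ((a : ℂ) + (y : ℂ) * I)
        (hasDerivAt_neg ((a : ℂ) + (y : ℂ) * I))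
      have e : (-((a : ℂ) + (y : ℂ) * I))⁻¹ * -1 = ((a : ℂ) + (y : ℂ) * I)⁻¹ := by
        rw [inv_neg]
        ring
      rw [e] at h2
      exact h2) hS.lef
  have l1 : Complex.log (-((a : ℂ) + (Y : ℂ) * I)) =
      Complex.log ((a : ℂ) + (Y : ℂ) * I) - Real.pi * I := by
    unfold Complex.log
    rw [norm_neg, arg_neg_eq_arg_sub_pi_of_im_pos (by rw [im_line]; exact hY)]
    push_cast
    ring
  have l2 : Complex.log (-((a : ℂ) + ((-Y : ℝ) : ℂ) * I)) =
      Complex.log ((a : ℂ) + ((-Y : ℝ) : ℂ) * I) + Real.pi * I := by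
    unfold Complex.log
    rw [norm_neg, arg_neg_eq_arg_add_pi_of_im_neg (by rw [im_line]; linarith)]
    push_cast
    ring
  unfold RI
  rw [hb, ht, hr, hl, l1, l2]
  ring

/-- the residue theorem for a double pole in a rectangle -/
lemma RI_double {G : ℂ → ℂ} {a c Y : ℝ} (ha : a < 0) (hc : 0 < c) (hY : 0 < Y)
    (hG : DifferentiableOn ℂ G (K a c Y)) :
    RI (fun s => G s * (s ^ 2)⁻¹) a c Y = 2 * Real.pi * I * deriv G 0 := by
  have hK : K a c Y ∈ nhds (0 : ℂ) := by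
    have h1 : ∀ᶠ s : ℂ in nhds 0, a < s.re :=
      continuous_re.continuousAt.eventually (lt_mem_nhds (by simpa using ha))
    have h2 : ∀ᶠ s : ℂ in nhds 0, s.re < c :=
      continuous_re.continuousAt.eventually (gt_mem_nhds (by simpa using hc))
    have h3 : ∀ᶠ s : ℂ in nhds 0, |s.im| < Y :=
      (continuous_abs.comp continuous_im).continuousAt.eventually
        (gt_mem_nhds (by simpa using hY))
    filter_upwards [h1, h2, h3] with s s1 s2 s3
    exact ⟨s1.le, s2.le, s3.le⟩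
  have hd1 : DifferentiableOn ℂ (dslope G 0) (K a c Y) := (differentiableOn_dslope hK).mpr hG
  have hd2 : DifferentiableOn ℂ (dslope (dslope G 0) 0) (K a c Y) :=
    (differentiableOn_dslope hK).mpr hd1
  set h := dslope (dslope G 0) 0 with hh
  have hdec : ∀ s ∈ K a c Y, s ≠ 0 →
      G s * (s ^ 2)⁻¹ = (G 0 * (s ^ 2)⁻¹ + deriv G 0 * s⁻¹) + h s := by
    intro s _ hs
    rw [hh, dslope_of_ne _ hs, slope_def_field, dslope_of_ne _ hs, dslope_same, slope_def_field]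
    rw [sub_zero]
    field_simp
    ring
  have c1 : Sides (fun s : ℂ => G 0 * (s ^ 2)⁻¹) a c Y := sides ha hc hY (by
    intro s hs
    apply ContinuousAt.continuousWithinAt
    apply ContinuousAt.mul continuousAt_const
    apply ContinuousAt.inv₀ (by fun_prop)
    exact pow_ne_zero 2 hs.2)
  have c2 : Sides (fun s : ℂ => deriv G 0 * s⁻¹) a c Y := sides ha hc hY (by
    intro s hs
    apply ContinuousAt.continuousWithinAt
    exact continuousAt_const.mul (continuousAt_inv₀ hs.2))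
  have c3 : Sides h a c Y := sides ha hc hY (hd2.continuousOn.mono Set.sdiff_subset)
  have c12 : Sides (fun s : ℂ => G 0 * (s ^ 2)⁻¹ + deriv G 0 * s⁻¹) a c Y :=
    ⟨c1.bot.add c2.bot, c1.top.add c2.top, c1.rig.add c2.rig, c1.lef.add c2.lef⟩
  rw [RI_congr ha hc hY hdec, RI_add c12 c3, RI_add c1 c2, RI_mul, RI_mul, RI_inv_sq ha hc hY,
    RI_inv ha hc hY, RI_zero (by linarith) hY.le hd2]
  ring

end OneVarAux

namespace OneVarAux

lemma poly1 (t : ℝ) : (4 + 2 * |t|) ^ 2 ≤ 32 * (1 + t ^ 2 / 2) := by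
  have h := sq_abs t
  nlinarith [sq_nonneg (|t| - 2), sq_nonneg (|t|)]

lemma expb (t : ℝ) : Real.exp (-t ^ 2) * (4 + 2 * |t|) ^ 2 ≤ 32 * Real.exp (-(t ^ 2 / 2)) := by
  have h1 := poly1 t
  have h2 : 1 + t ^ 2 / 2 ≤ Real.exp (t ^ 2 / 2) := by
    have := Real.add_one_le_exp (t ^ 2 / 2)
    linarith
  have h3 : Real.exp (-t ^ 2) * Real.exp (t ^ 2 / 2) = Real.exp (-(t ^ 2 / 2)) := by
    rw [← Real.exp_add]
    congr 1
    ring
  calc Real.exp (-t ^ 2) * (4 + 2 * |t|) ^ 2 ≤ Real.exp (-t ^ 2) * (32 * Real.exp (t ^ 2 / 2)) :=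
        mul_le_mul_of_nonneg_left (by linarith) (Real.exp_pos _).le
    _ = 32 * (Real.exp (-t ^ 2) * Real.exp (t ^ 2 / 2)) := by ring
    _ = _ := by rw [h3]

lemma expb2 (t : ℝ) : Real.exp (-t ^ 2) * (4 + 2 * |t|) ^ 2 ≤ 64 * (1 / (1 + t ^ 2)) := by
  have h1 := poly1 t
  have h2 : 1 + t ^ 2 / 2 ≤ Real.exp (t ^ 2 / 2) := by
    have := Real.add_one_le_exp (t ^ 2 / 2)
    linarith
  have h4 : (4 + 2 * |t|) ^ 2 * (1 + t ^ 2) ≤ 64 * Real.exp (t ^ 2) := by
    have h5 : (1 + t ^ 2 / 2) ^ 2 ≤ Real.exp (t ^ 2) := by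
      have : Real.exp (t ^ 2) = Real.exp (t ^ 2 / 2) ^ 2 := by
        rw [← Real.exp_nat_mul]
        congr 1
        push_cast
        ring
      rw [this]
      exact pow_le_pow_left₀ (by positivity) h2 2
    have h6 : (4 + 2 * |t|) ^ 2 * (1 + t ^ 2) ≤ (32 * (1 + t ^ 2 / 2)) * (2 * (1 + t ^ 2 / 2)) := by
      apply mul_le_mul h1 (by nlinarith [sq_nonneg t]) (by positivity) (by positivity)
    nlinarith
  rw [mul_one_div, le_div_iff₀ (by positivity)]
  calc Real.exp (-t ^ 2) * (4 + 2 * |t|) ^ 2 * (1 + t ^ 2)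
      = Real.exp (-t ^ 2) * ((4 + 2 * |t|) ^ 2 * (1 + t ^ 2)) := by ring
    _ ≤ Real.exp (-t ^ 2) * (64 * Real.exp (t ^ 2)) :=
        mul_le_mul_of_nonneg_left h4 (Real.exp_pos _).le
    _ = 64 * (Real.exp (-t ^ 2) * Real.exp (t ^ 2)) := by ring
    _ = 64 := by
        rw [← Real.exp_add]
        simp

lemma rpow_between {X a σ c : ℝ} (hX : 0 < X) (h1 : a ≤ σ) (h2 : σ ≤ c) :
    X ^ σ ≤ X ^ a + X ^ c := by
  rcases le_total 1 X with h | h
  · have := Real.rpow_le_rpow_of_exponent_le h h2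
    have h3 := Real.rpow_nonneg hX.le a
    linarith
  · have := Real.rpow_le_rpow_of_exponent_ge hX h h1
    have h3 := Real.rpow_nonneg hX.le c
    linarith

/-- the numerator without the Gaussian factor -/
noncomputable def G0 (X : ℝ) (f : ℂ → ℂ) (s : ℂ) : ℂ :=
  (X : ℂ) ^ s * P4f18dfV.zE (1 + 2 * s) / 2 * f s

/-- the numerator -/
noncomputable def G1 (X : ℝ) (f : ℂ → ℂ) (s : ℂ) : ℂ := cexp (s ^ 2) * G0 X f s

lemma G0_diff {X : ℝ} (hX : 0 < X) {f : ℂ → ℂ} {s : ℂ} (hf : DifferentiableAt ℂ f s) :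
    DifferentiableAt ℂ (G0 X f) s := by
  unfold G0
  have h1 : DifferentiableAt ℂ (fun s : ℂ => (X : ℂ) ^ s) s :=
    differentiableAt_id.const_cpow (Or.inl (by exact_mod_cast hX.ne'))
  have h2 : DifferentiableAt ℂ (fun s : ℂ => P4f18dfV.zE (1 + 2 * s)) s :=
    (P4f18dfV.zE_diff _).comp s (by fun_prop)
  exact ((h1.mul h2).div_const 2).mul hf

lemma zE_two {s : ℂ} (hs : s ≠ 0) : P4f18dfV.zE (1 + 2 * s) = 2 * s * riemannZeta (1 + 2 * s) := by
  rw [P4f18dfV.zE_of_ne]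
  · ring
  · intro h
    apply hs
    have : 2 * s = 0 := by linear_combination h
    simpa using this

lemma deriv_G1 {X : ℝ} {f : ℂ → ℂ} (hd : DifferentiableAt ℂ (G0 X f) 0) :
    deriv (G1 X f) 0 = deriv (G0 X f) 0 := by
  have h1 : HasDerivAt (fun s : ℂ => cexp (s ^ 2)) 0 0 := by
    have := ((hasDerivAt_id (0 : ℂ)).pow 2).cexp
    simpa using this
  have h2 := h1.mul hd.hasDerivAt
  have h3 : HasDerivAt (G1 X f) (deriv (G0 X f) 0) 0 := by
    have e : (0 : ℂ) * G0 X f 0 + cexp (0 ^ 2) * deriv (G0 X f) 0 = deriv (G0 X f) 0 := by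
      simp
    rw [← e]
    exact h2
  exact h3.deriv

lemma G1_bound {X B C₀ e : ℝ} {f : ℂ → ℂ} {s : ℂ} (hX : 0 < X) (hC₀ : 0 < C₀) (_hB : 0 ≤ B)
    (hz : ∀ s : ℂ, 2 * e ≤ s.re → ‖P4f18dfV.zE s‖ ≤ C₀ * (1 + ‖s‖) ^ 2)
    (h1 : -(1 / 2) + e ≤ s.re) (h0 : -1 ≤ s.re) (h2 : s.re ≤ 1) (hf : ‖f s‖ ≤ B) :
    ‖G1 X f s‖ ≤ Real.exp 1 * X ^ s.re * (C₀ / 2) * B *
      (Real.exp (-s.im ^ 2) * (4 + 2 * |s.im|) ^ 2) := by
  unfold G1 G0
  rw [norm_mul, norm_mul, norm_div, norm_mul, Complex.norm_exp,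
    Complex.norm_cpow_eq_rpow_re_of_pos hX]
  have e1 : (s ^ 2).re = s.re ^ 2 - s.im ^ 2 := by
    rw [pow_two, Complex.mul_re]
    ring
  have e2 : Real.exp ((s ^ 2).re) ≤ Real.exp 1 * Real.exp (-s.im ^ 2) := by
    rw [← Real.exp_add, e1]
    apply Real.exp_le_exp.mpr
    nlinarith
  have e3 : ‖P4f18dfV.zE (1 + 2 * s)‖ ≤ C₀ * (4 + 2 * |s.im|) ^ 2 := by
    refine (hz _ (by
      rw [add_re, mul_re]
      simp
      linarith)).trans ?_
    apply mul_le_mul_of_nonneg_left _ hC₀.le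
    apply pow_le_pow_left₀ (by positivity)
    have h3 : ‖1 + 2 * s‖ ≤ 1 + 2 * ‖s‖ := by
      refine (norm_add_le _ _).trans ?_
      rw [norm_mul, norm_one]
      simp
    have h4 := Complex.norm_le_abs_re_add_abs_im s
    have h5 : |s.re| ≤ 1 := abs_le.mpr ⟨h0, h2⟩
    linarith
  have e4 : ‖(2 : ℂ)‖ = 2 := by simp
  rw [e4]
  have hXp : 0 ≤ X ^ s.re := Real.rpow_nonneg hX.le _
  calc Real.exp ((s ^ 2).re) * (X ^ s.re * ‖P4f18dfV.zE (1 + 2 * s)‖ / 2 * ‖f s‖)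
      ≤ (Real.exp 1 * Real.exp (-s.im ^ 2)) *
        (X ^ s.re * (C₀ * (4 + 2 * |s.im|) ^ 2) / 2 * B) := by
        gcongr
    _ = _ := by ring

end OneVarAux

open OneVarAux

theorem one_var {e r c : ℝ} (hr : 0 < r) (hrc : r < c) (hc : c ≤ 1) (he : 0 < e) (hre : r < 1 / 2 - e) : ∃ C : ℝ, 0 < C ∧
    ∀ (X Y B : ℝ) (f : ℂ → ℂ), 0 < X → 1 ≤ Y → 0 ≤ B →
    (∀ s : ℂ, -(1 / 2) + e ≤ s.re → s.re ≤ c → |s.im| ≤ Y → DifferentiableAt ℂ f s) →
    (∀ s : ℂ, -(1 / 2) + e ≤ s.re → s.re ≤ c → |s.im| ≤ Y → ‖f s‖ ≤ B) →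
    ‖(∫ v in (-Y)..Y, cexp (((c : ℂ) + v * I) ^ 2) *
        ((X : ℂ) ^ ((c : ℂ) + v * I) * riemannZeta (1 + 2 * ((c : ℂ) + v * I)) / ((c : ℂ) + v * I) * f ((c : ℂ) + v * I))) -
      I⁻¹ * ∮ s in C(0, r), ((X : ℂ) ^ s * riemannZeta (1 + 2 * s) / s * f s)‖ ≤
      C * B * (X ^ (-(1 / 2) + e) + X ^ c * Real.exp (-(Y ^ 2 / 2))) := by
  obtain ⟨C₀, hC₀, hz⟩ := zE_bound (2 * e) (by linarith)
  refine ⟨Real.exp 1 * C₀ * (32 * Real.pi / r ^ 2 + 48), by positivity, ?_⟩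
  intro X Y B f hX hY hB hfd hfb
  set a : ℝ := -(1 / 2) + e with ha_def
  have ha : a < 0 := by linarith
  have ha1 : -1 ≤ a := by linarith
  have hc0 : 0 < c := by linarith
  have hY0 : 0 < Y := by linarith
  have hfK : ∀ s ∈ K a c Y, DifferentiableAt ℂ f s := fun s hs => hfd s hs.1 hs.2.1 hs.2.2
  have hfB : ∀ s ∈ K a c Y, ‖f s‖ ≤ B := fun s hs => hfb s hs.1 hs.2.1 hs.2.2
  -- the integrand
  set F : ℂ → ℂ := fun s => cexp (s ^ 2) * ((X : ℂ) ^ s * riemannZeta (1 + 2 * s) / s * f s) with hF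
  have hFG : ∀ s ∈ K a c Y, s ≠ 0 → F s = G1 X f s * (s ^ 2)⁻¹ := by
    intro s _ hs
    rw [hF]
    unfold G1 G0
    rw [zE_two hs]
    field_simp
  have hres : RI F a c Y = 2 * Real.pi * I * deriv (G1 X f) 0 := by
    rw [RI_congr ha hc0 hY0 hFG]
    apply RI_double ha hc0 hY0
    intro s hs
    apply DifferentiableAt.differentiableWithinAt
    unfold G1
    exact (by fun_prop : DifferentiableAt ℂ (fun s : ℂ => cexp (s ^ 2)) s).mul (G0_diff hX (hfK s hs))
  -- the circle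
  have hcirc : I⁻¹ * ∮ s in C(0, r), ((X : ℂ) ^ s * riemannZeta (1 + 2 * s) / s * f s) =
      2 * Real.pi * deriv (G1 X f) 0 := by
    have hU : IsOpen {s : ℂ | a < s.re ∧ s.re < c ∧ |s.im| < Y} := by
      apply IsOpen.inter (isOpen_lt continuous_const continuous_re)
      apply IsOpen.inter (isOpen_lt continuous_re continuous_const)
      exact isOpen_lt (continuous_abs.comp continuous_im) continuous_const
    have hsub : Metric.closedBall (0 : ℂ) r ⊆ {s : ℂ | a < s.re ∧ s.re < c ∧ |s.im| < Y} := by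
      intro s hs
      rw [mem_closedBall_zero_iff] at hs
      have h1 := (Complex.abs_re_le_norm s).trans hs
      have h2 := (Complex.abs_im_le_norm s).trans hs
      rw [abs_le] at h1
      exact ⟨by linarith, by linarith, by linarith⟩
    have h3 := two_pi_I_inv_smul_circleIntegral_sub_sq_inv_smul_of_differentiable hU hsub
      (f := G0 X f) (fun s hs => (G0_diff hX (hfK s ⟨hs.1.le, hs.2.1.le, hs.2.2.le⟩)).differentiableWithinAt)
      (Metric.mem_ball_self hr)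
    have h4 : (∮ s in C(0, r), ((X : ℂ) ^ s * riemannZeta (1 + 2 * s) / s * f s)) =
        ∮ z in C(0, r), ((z - 0) ^ 2)⁻¹ • G0 X f z := by
      apply circleIntegral.integral_congr hr.le
      intro s hs
      have hs0 : s ≠ 0 := by
        rintro rfl
        rw [mem_sphere_zero_iff_norm, norm_zero] at hs
        exact hr.ne hs
      show (X : ℂ) ^ s * riemannZeta (1 + 2 * s) / s * f s = ((s - 0) ^ 2)⁻¹ • G0 X f s
      unfold G0
      rw [zE_two hs0, smul_eq_mul, sub_zero]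
      field_simp
    have h0K : (0 : ℂ) ∈ K a c Y := ⟨by simpa using ha.le, by simpa using hc0.le, by simpa using hY0.le⟩
    rw [deriv_G1 (G0_diff hX (hfK 0 h0K)), ← h3, h4, smul_eq_mul]
    field_simp
  have hmain : vs F c Y - I⁻¹ * ∮ s in C(0, r), ((X : ℂ) ^ s * riemannZeta (1 + 2 * s) / s * f s) =
      vs F a Y + I⁻¹ * (hs F a c Y - hs F a c (-Y)) := by
    rw [hcirc]
    unfold RI at hres
    have hI : I * I⁻¹ = 1 := mul_inv_cancel₀ I_ne_zero
    have : I * (vs F c Y - 2 * Real.pi * deriv (G1 X f) 0) =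
        I * (vs F a Y + I⁻¹ * (hs F a c Y - hs F a c (-Y))) := by
      linear_combination hres - (hs F a c Y - hs F a c (-Y)) * hI
    exact mul_left_cancel₀ I_ne_zero this
  -- the left side
  have hleft : ‖vs F a Y‖ ≤ Real.exp 1 * C₀ * (32 * Real.pi / r ^ 2) * B * X ^ a := by
    have hpt : ∀ v : ℝ, v ∈ Set.Ioc (-Y) Y → ‖F ((a : ℂ) + (v : ℂ) * I)‖ ≤
        (Real.exp 1 * X ^ a * C₀ * B * 32 / r ^ 2) * (1 / (1 + v ^ 2)) := by
      intro v hv
      have hmem : ((a : ℂ) + (v : ℂ) * I) ∈ K a c Y :=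
        mem_K le_rfl (by linarith) (abs_le.mpr ⟨hv.1.le, hv.2⟩)
      have hne : ((a : ℂ) + (v : ℂ) * I) ≠ 0 := by
        intro h
        apply ha.ne
        rw [← re_line a v, h, zero_re]
      rw [hFG _ hmem hne, norm_mul, norm_inv, norm_pow]
      have h1 := G1_bound (f := f) (s := (a : ℂ) + (v : ℂ) * I) hX hC₀ hB hz
        (by rw [re_line]) (by rw [re_line]; exact ha1) (by rw [re_line]; linarith) (hfB _ hmem)
      rw [re_line, im_line] at h1
      have h2 : r ≤ ‖(a : ℂ) + (v : ℂ) * I‖ := by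
        have := Complex.abs_re_le_norm ((a : ℂ) + (v : ℂ) * I)
        rw [re_line, abs_of_neg ha] at this
        linarith
      have h3 : (‖(a : ℂ) + (v : ℂ) * I‖ ^ 2)⁻¹ ≤ (r ^ 2)⁻¹ := by
        apply inv_anti₀ (by positivity)
        exact pow_le_pow_left₀ hr.le h2 2
      have hXp : 0 ≤ X ^ a := Real.rpow_nonneg hX.le _
      have h4 := expb2 v
      calc ‖G1 X f ((a : ℂ) + (v : ℂ) * I)‖ * (‖(a : ℂ) + (v : ℂ) * I‖ ^ 2)⁻¹
          ≤ (Real.exp 1 * X ^ a * (C₀ / 2) * B * (64 * (1 / (1 + v ^ 2)))) * (r ^ 2)⁻¹ := by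
            apply mul_le_mul _ h3 (by positivity) (by positivity)
            refine h1.trans (mul_le_mul_of_nonneg_left h4 (by positivity))
        _ = _ := by
            field_simp
            ring
    have hint : IntervalIntegrable
        (fun v : ℝ => (Real.exp 1 * X ^ a * C₀ * B * 32 / r ^ 2) * (1 / (1 + v ^ 2))) volume (-Y) Y := by
      apply Continuous.intervalIntegrable
      apply continuous_const.mul
      apply Continuous.div continuous_const (by fun_prop)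
      intro v
      positivity
    have h1 := intervalIntegral.norm_integral_le_of_norm_le (by linarith : -Y ≤ Y)
      (Filter.Eventually.of_forall hpt) hint
    rw [intervalIntegral.integral_const_mul, integral_one_div_one_add_sq] at h1
    have h2 : Real.arctan Y - Real.arctan (-Y) ≤ Real.pi := by
      have h3 := Real.arctan_lt_pi_div_two Y
      have h4 := Real.neg_pi_div_two_lt_arctan (-Y)
      linarith
    have hXp : 0 ≤ X ^ a := Real.rpow_nonneg hX.le _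
    refine h1.trans ?_
    calc (Real.exp 1 * X ^ a * C₀ * B * 32 / r ^ 2) * (Real.arctan Y - Real.arctan (-Y))
        ≤ (Real.exp 1 * X ^ a * C₀ * B * 32 / r ^ 2) * Real.pi :=
          mul_le_mul_of_nonneg_left h2 (by positivity)
      _ = _ := by ring
  -- the horizontal sides
  have hhor : ∀ y : ℝ, |y| = Y → ‖hs F a c y‖ ≤
      24 * (Real.exp 1 * C₀) * B * ((X ^ a + X ^ c) * Real.exp (-(Y ^ 2 / 2))) := by
    intro y hy
    have hy0 : y ≠ 0 := by
      intro h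
      rw [h, abs_zero] at hy
      linarith
    have hy2 : y ^ 2 = Y ^ 2 := by rw [← sq_abs, hy]
    have hpt : ∀ x ∈ Set.uIoc a c, ‖F ((x : ℂ) + (y : ℂ) * I)‖ ≤
        16 * (Real.exp 1 * C₀) * B * ((X ^ a + X ^ c) * Real.exp (-(Y ^ 2 / 2))) := by
      intro x hx
      rw [Set.uIoc_of_le (by linarith)] at hx
      have hmem : ((x : ℂ) + (y : ℂ) * I) ∈ K a c Y := mem_K hx.1.le hx.2 hy.le
      have hne : ((x : ℂ) + (y : ℂ) * I) ≠ 0 := by
        intro h
        apply hy0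
        rw [← im_line x y, h, zero_im]
      rw [hFG _ hmem hne, norm_mul, norm_inv, norm_pow]
      have h1 := G1_bound (f := f) (s := (x : ℂ) + (y : ℂ) * I) hX hC₀ hB hz
        (by rw [re_line]; exact hx.1.le) (by rw [re_line]; linarith [hx.1])
        (by rw [re_line]; linarith [hx.2]) (hfB _ hmem)
      rw [re_line, im_line] at h1
      have h2 : 1 ≤ ‖(x : ℂ) + (y : ℂ) * I‖ := by
        have := Complex.abs_im_le_norm ((x : ℂ) + (y : ℂ) * I)
        rw [im_line, hy] at this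
        linarith
      have h3 : (‖(x : ℂ) + (y : ℂ) * I‖ ^ 2)⁻¹ ≤ 1 := by
        apply inv_le_one_of_one_le₀
        exact one_le_pow₀ h2
      have hXa : 0 ≤ X ^ a := Real.rpow_nonneg hX.le _
      have hXc : 0 ≤ X ^ c := Real.rpow_nonneg hX.le _
      have h4 := expb y
      have h5 := rpow_between hX hx.1.le hx.2
      rw [← hy2]
      calc ‖G1 X f ((x : ℂ) + (y : ℂ) * I)‖ * (‖(x : ℂ) + (y : ℂ) * I‖ ^ 2)⁻¹
          ≤ (Real.exp 1 * (X ^ a + X ^ c) * (C₀ / 2) * B * (32 * Real.exp (-(y ^ 2 / 2)))) * 1 := by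
            apply mul_le_mul _ h3 (by positivity) (by positivity)
            refine h1.trans ?_
            gcongr
        _ = _ := by ring
    have h1 := intervalIntegral.norm_integral_le_of_norm_le_const hpt
    have hXa : 0 ≤ X ^ a := Real.rpow_nonneg hX.le _
    have hXc : 0 ≤ X ^ c := Real.rpow_nonneg hX.le _
    refine h1.trans ?_
    have h2 : |c - a| ≤ 3 / 2 := by
      rw [abs_of_nonneg (by linarith)]
      linarith
    calc _ ≤ 16 * (Real.exp 1 * C₀) * B * ((X ^ a + X ^ c) * Real.exp (-(Y ^ 2 / 2))) * (3 / 2) :=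
          mul_le_mul_of_nonneg_left h2 (by positivity)
      _ = _ := by ring
  -- conclusion
  show ‖vs F c Y - I⁻¹ * ∮ s in C(0, r), ((X : ℂ) ^ s * riemannZeta (1 + 2 * s) / s * f s)‖ ≤ _
  rw [hmain]
  have h1 := hhor Y (abs_of_pos hY0)
  have h2 := hhor (-Y) (by rw [abs_neg, abs_of_pos hY0])
  have h3 : ‖I⁻¹ * (hs F a c Y - hs F a c (-Y))‖ ≤ ‖hs F a c Y‖ + ‖hs F a c (-Y)‖ := by
    rw [norm_mul, norm_inv, norm_I, inv_one, one_mul]
    exact norm_sub_le _ _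
  have hXa : 0 ≤ X ^ a := Real.rpow_nonneg hX.le _
  have hXc : 0 ≤ X ^ c := Real.rpow_nonneg hX.le _
  have h4 : (X ^ a + X ^ c) * Real.exp (-(Y ^ 2 / 2)) ≤ X ^ a + X ^ c * Real.exp (-(Y ^ 2 / 2)) := by
    have h5 : Real.exp (-(Y ^ 2 / 2)) ≤ 1 := Real.exp_le_one_iff.mpr (by nlinarith)
    nlinarith
  have h6 : 0 ≤ X ^ c * Real.exp (-(Y ^ 2 / 2)) := by positivity
  have hE : 0 < Real.exp 1 * C₀ := by positivity
  calc ‖vs F a Y + I⁻¹ * (hs F a c Y - hs F a c (-Y))‖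
      ≤ ‖vs F a Y‖ + (‖hs F a c Y‖ + ‖hs F a c (-Y)‖) :=
        (norm_add_le _ _).trans (add_le_add le_rfl h3)
    _ ≤ Real.exp 1 * C₀ * (32 * Real.pi / r ^ 2) * B * X ^ a +
        48 * (Real.exp 1 * C₀) * B * ((X ^ a + X ^ c) * Real.exp (-(Y ^ 2 / 2))) := by linarith
    _ ≤ Real.exp 1 * C₀ * (32 * Real.pi / r ^ 2) * B * (X ^ a + X ^ c * Real.exp (-(Y ^ 2 / 2))) +
        48 * (Real.exp 1 * C₀) * B * (X ^ a + X ^ c * Real.exp (-(Y ^ 2 / 2))) := by
        apply add_le_add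
        · apply mul_le_mul_of_nonneg_left (by linarith) (by positivity)
        · apply mul_le_mul_of_nonneg_left h4 (by positivity)
    _ = _ := by ring

end Pool.Agent.P07318s
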