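import Pool.Agent.Lib.P07318s.Defs

/-!
The cut-off function `W`.

`W_eq`: `1/(c+iv) = ∫_0^∞ exp(-(c+iv)u) du`, so with `L = log y` the right side is
`(1/π) ∫∫ exp(s² - s(u+L)) dv du` (`s = c+iv`), and `∫ exp(s² - s M) dv = √π exp(-M²/4)`,
which gives `(1/√π) ∫_0^∞ exp(-(u+L)²/4) du = W y`. Fubini is absolute.
`W_le_rpow`: for `u > log y`: `y^A = exp(A log y) ≤ exp(A u)`, so `y^A W y ≤ (1/√π) ∫ exp(A u - u²/4) du`.
`W_le_two`: total Gaussian mass.
-/

set_option autoImplicit false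

namespace Pool.Agent.P07318s

open MeasureTheory Complex

namespace WMellinAux

lemma integrable_g (A : ℝ) : Integrable (fun u : ℝ => Real.exp (A * u - u ^ 2 / 4)) := by
  have h1 : Integrable (fun x : ℝ => Real.exp (-(1 / 4) * x ^ 2)) :=
    integrable_exp_neg_mul_sq (by norm_num)
  have h2 := (h1.comp_sub_right (2 * A)).const_mul (Real.exp (A ^ 2))
  refine h2.congr (Filter.Eventually.of_forall fun u => ?_)
  simp only
  rw [← Real.exp_add]
  congr 1
  ring

lemma integrable_g0 : Integrable (fun u : ℝ => Real.exp (-u ^ 2 / 4)) := by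
  have h := integrable_g 0
  refine h.congr (Filter.Eventually.of_forall fun u => ?_)
  simp only
  congr 1
  ring

lemma integral_g0 : ∫ u : ℝ, Real.exp (-u ^ 2 / 4) = 2 * Real.sqrt Real.pi := by
  have h := integral_gaussian (1 / 4)
  have h1 : (fun u : ℝ => Real.exp (-u ^ 2 / 4)) = fun x : ℝ => Real.exp (-(1 / 4) * x ^ 2) := by
    funext u
    congr 1
    ring
  rw [h1, h]
  have h2 : Real.pi / (1 / 4) = 2 ^ 2 * Real.pi := by ring
  rw [h2, Real.sqrt_mul (by norm_num), Real.sqrt_sq (by norm_num)]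

lemma sqrt_pi_pos : 0 < Real.sqrt Real.pi := Real.sqrt_pos.mpr Real.pi_pos

/-- translation of a half line -/
lemma integral_Ioi_add (f : ℝ → ℝ) (L : ℝ) :
    ∫ u in Set.Ioi (0:ℝ), f (u + L) = ∫ u in Set.Ioi L, f u := by
  rw [← integral_indicator measurableSet_Ioi, ← integral_indicator measurableSet_Ioi,
    ← integral_add_right_eq_self (μ := volume) (fun x => (Set.Ioi L).indicator f x) L]
  congr 1
  funext u
  simp only [Set.indicator, Set.mem_Ioi]
  have : (0 < u) ↔ (L < u + L) := by constructor <;> intro h <;> linarith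
  simp only [this]

/-- the Gaussian integral in the vertical direction -/
lemma gauss_vert (c M : ℝ) :
    ∫ v : ℝ, cexp (((c : ℂ) + v * I) ^ 2 - ((c : ℂ) + v * I) * M) =
      ((Real.sqrt Real.pi * Real.exp (-M ^ 2 / 4) : ℝ) : ℂ) := by
  have hb : (-1 : ℂ).re < 0 := by norm_num
  have h1 := integral_cexp_quadratic hb (I * (2 * c - M)) ((c : ℂ) ^ 2 - c * M)
  have hI : I ^ 2 = -1 := Complex.I_sq
  have h2 : ∀ v : ℝ, cexp (((c : ℂ) + v * I) ^ 2 - ((c : ℂ) + v * I) * M) =
      cexp (-1 * (v : ℂ) ^ 2 + I * (2 * c - M) * v + ((c : ℂ) ^ 2 - c * M)) := by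
    intro v
    congr 1
    linear_combination ((v : ℂ) ^ 2) * hI
  simp_rw [h2]
  rw [h1]
  have h3 : ((Real.pi : ℂ) / - -1) ^ (1 / 2 : ℂ) = ((Real.sqrt Real.pi : ℝ) : ℂ) := by
    have h5 : (1 / 2 : ℂ) = ((1 / 2 : ℝ) : ℂ) := by push_cast; ring
    rw [neg_neg, div_one, h5, ← Complex.ofReal_cpow Real.pi_pos.le, ← Real.sqrt_eq_rpow]
  rw [h3, Complex.ofReal_mul, Complex.ofReal_exp]
  congr 2
  push_cast
  linear_combination ((2 * (c:ℂ) - M) ^ 2 / 4) * hI

lemma norm_exp_sq (c v : ℝ) : ‖cexp (((c : ℂ) + v * I) ^ 2)‖ = Real.exp (c ^ 2 - v ^ 2) := by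
  rw [Complex.norm_exp]
  congr 1
  have : ((c : ℂ) + v * I) ^ 2 = ((c ^ 2 - v ^ 2 : ℝ) : ℂ) + ((2 * c * v : ℝ) : ℂ) * I := by
    push_cast
    linear_combination ((v : ℂ) ^ 2) * Complex.I_sq
  rw [this, Complex.add_re, Complex.ofReal_re, Complex.re_ofReal_mul, Complex.I_re, mul_zero,
    add_zero]

lemma re_s (c v : ℝ) : ((c : ℂ) + v * I).re = c := by simp

lemma norm_s_ge {c : ℝ} (v : ℝ) : c ≤ ‖(c : ℂ) + v * I‖ := by
  have := Complex.re_le_norm ((c : ℂ) + v * I)
  rwa [re_s] at this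

lemma s_ne_zero {c : ℝ} (hc : 0 < c) (v : ℝ) : (c : ℂ) + v * I ≠ 0 := by
  intro h
  have := congrArg Complex.re h
  rw [re_s] at this
  simp at this
  linarith

lemma integrable_gauss_v (c : ℝ) : Integrable (fun v : ℝ => Real.exp (c ^ 2 - v ^ 2)) := by
  have h1 : Integrable (fun x : ℝ => Real.exp (-1 * x ^ 2)) :=
    integrable_exp_neg_mul_sq (by norm_num)
  refine (h1.const_mul (Real.exp (c ^ 2))).congr (Filter.Eventually.of_forall fun u => ?_)
  simp only
  rw [← Real.exp_add]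
  congr 1
  ring

lemma cpow_eq {y : ℝ} (hy : 0 < y) (s : ℂ) : (y : ℂ) ^ (-s) = cexp (-(s * (Real.log y : ℂ))) := by
  have h0 : (y : ℂ) ≠ 0 := by exact_mod_cast hy.ne'
  rw [Complex.cpow_def_of_ne_zero h0, ← Complex.ofReal_log hy.le]
  congr 1
  ring

end WMellinAux

open WMellinAux

theorem W_nonneg (y : ℝ) : 0 ≤ W y := by
  unfold W
  exact mul_nonneg (by positivity) (integral_nonneg fun u => (Real.exp_pos _).le)

theorem W_le_two (y : ℝ) : W y ≤ 2 := by
  unfold W
  have h1 : ∫ u in Set.Ioi (Real.log y), Real.exp (-u ^ 2 / 4) ≤ ∫ u : ℝ, Real.exp (-u ^ 2 / 4) :=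
    setIntegral_le_integral integrable_g0 (Filter.Eventually.of_forall fun u => (Real.exp_pos _).le)
  rw [integral_g0] at h1
  have h2 := sqrt_pi_pos
  rw [inv_mul_le_iff₀ h2]
  linarith

theorem W_antitone : AntitoneOn W (Set.Ioi 0) := by
  intro y hy y' _ hyy'
  unfold W
  apply mul_le_mul_of_nonneg_left _ (by positivity)
  apply setIntegral_mono_set integrable_g0.integrableOn
  · exact Filter.Eventually.of_forall fun u => (Real.exp_pos _).le
  · apply Filter.Eventually.of_forall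
    exact Set.Ioi_subset_Ioi (Real.log_le_log hy hyy')

theorem W_le_rpow (A : ℝ) (hA : 0 < A) : ∃ C : ℝ, 0 < C ∧ ∀ y : ℝ, 0 < y → W y ≤ C * y ^ (-A) := by
  have hI : 0 ≤ ∫ u : ℝ, Real.exp (A * u - u ^ 2 / 4) :=
    integral_nonneg fun u => (Real.exp_pos _).le
  refine ⟨(Real.sqrt Real.pi)⁻¹ * (∫ u : ℝ, Real.exp (A * u - u ^ 2 / 4)) + 1, ?_, ?_⟩
  · have : 0 ≤ (Real.sqrt Real.pi)⁻¹ * (∫ u : ℝ, Real.exp (A * u - u ^ 2 / 4)) :=
      mul_nonneg (by positivity) hI
    linarith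
  intro y hy
  have hyA : 0 < y ^ (-A) := Real.rpow_pos_of_pos hy _
  have h1 : ∫ u in Set.Ioi (Real.log y), Real.exp (-u ^ 2 / 4) ≤
      ∫ u in Set.Ioi (Real.log y), y ^ (-A) * Real.exp (A * u - u ^ 2 / 4) := by
    apply setIntegral_mono_on integrable_g0.integrableOn
      ((integrable_g A).const_mul _).integrableOn measurableSet_Ioi
    intro u hu
    rw [Set.mem_Ioi] at hu
    rw [Real.rpow_def_of_pos hy, ← Real.exp_add]
    apply Real.exp_le_exp.mpr
    nlinarith
  have h2 : ∫ u in Set.Ioi (Real.log y), y ^ (-A) * Real.exp (A * u - u ^ 2 / 4) ≤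
      y ^ (-A) * ∫ u : ℝ, Real.exp (A * u - u ^ 2 / 4) := by
    rw [integral_const_mul]
    apply mul_le_mul_of_nonneg_left _ hyA.le
    exact setIntegral_le_integral (integrable_g A)
      (Filter.Eventually.of_forall fun u => (Real.exp_pos _).le)
  unfold W
  calc (Real.sqrt Real.pi)⁻¹ * ∫ u in Set.Ioi (Real.log y), Real.exp (-u ^ 2 / 4)
      ≤ (Real.sqrt Real.pi)⁻¹ * (y ^ (-A) * ∫ u : ℝ, Real.exp (A * u - u ^ 2 / 4)) :=
        mul_le_mul_of_nonneg_left (h1.trans h2) (by positivity)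
    _ ≤ (Real.sqrt Real.pi)⁻¹ * (∫ u : ℝ, Real.exp (A * u - u ^ 2 / 4)) * y ^ (-A) + y ^ (-A) := by
        nlinarith
    _ = _ := by ring

theorem W_continuousOn : ContinuousOn W (Set.Ioi 0) := by
  have h1 : ∀ x : ℝ, ∫ u in Set.Ioi x, Real.exp (-u ^ 2 / 4) =
      (∫ u in Set.Ioi (0:ℝ), Real.exp (-u ^ 2 / 4)) -
        ∫ u in (0:ℝ)..x, Real.exp (-u ^ 2 / 4) := by
    intro x
    have h := intervalIntegral.integral_Ioi_sub_Ioi' (a := 0) (b := x)
      (f := fun u : ℝ => Real.exp (-u ^ 2 / 4)) (μ := volume)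
      integrable_g0.integrableOn integrable_g0.integrableOn
    linarith
  have h2 : Continuous fun x : ℝ => ∫ u in (0:ℝ)..x, Real.exp (-u ^ 2 / 4) :=
    intervalIntegral.continuous_primitive (fun a b => integrable_g0.intervalIntegrable) 0
  have hW : W = fun y : ℝ => (Real.sqrt Real.pi)⁻¹ *
      ((∫ u in Set.Ioi (0:ℝ), Real.exp (-u ^ 2 / 4)) -
        ∫ u in (0:ℝ)..(Real.log y), Real.exp (-u ^ 2 / 4)) := by
    funext y
    unfold W
    rw [h1 (Real.log y)]
  rw [hW]
  apply ContinuousOn.mul continuousOn_const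
  apply ContinuousOn.sub continuousOn_const
  exact h2.comp_continuousOn (Real.continuousOn_log.mono (fun x hx => by
    rw [Set.mem_Ioi] at hx
    exact hx.ne'))

theorem W_integrand_integrable {c : ℝ} (hc : 0 < c) {y : ℝ} (hy : 0 < y) :
    Integrable (fun v : ℝ => cexp (((c : ℂ) + v * I) ^ 2) * (y : ℂ) ^ (-((c : ℂ) + v * I)) / ((c : ℂ) + v * I)) := by
  have hcont : Continuous (fun v : ℝ => cexp (((c : ℂ) + v * I) ^ 2) *
      (y : ℂ) ^ (-((c : ℂ) + v * I)) / ((c : ℂ) + v * I)) := by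
    have hs : Continuous (fun v : ℝ => (c : ℂ) + v * I) :=
      continuous_const.add (Complex.continuous_ofReal.mul continuous_const)
    simp_rw [cpow_eq hy]
    refine Continuous.div ?_ hs (fun v => s_ne_zero hc v)
    exact (Complex.continuous_exp.comp (hs.pow 2)).mul
      (Complex.continuous_exp.comp ((hs.mul continuous_const).neg))
  refine ((integrable_gauss_v c).const_mul (y ^ (-c) / c)).mono' hcont.aestronglyMeasurable ?_
  refine Filter.Eventually.of_forall fun v => ?_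
  rw [norm_div, norm_mul, norm_exp_sq, Complex.norm_cpow_eq_rpow_re_of_pos hy]
  have h1 : (-((c : ℂ) + v * I)).re = -c := by simp
  rw [h1]
  have h2 := norm_s_ge (c := c) v
  have h3 : 0 < y ^ (-c) := Real.rpow_pos_of_pos hy _
  calc Real.exp (c ^ 2 - v ^ 2) * y ^ (-c) / ‖(c : ℂ) + v * I‖ ≤
        Real.exp (c ^ 2 - v ^ 2) * y ^ (-c) / c :=
        div_le_div_of_nonneg_left (by positivity) hc h2
    _ = _ := by ring

theorem W_eq {c : ℝ} (hc : 0 < c) {y : ℝ} (hy : 0 < y) :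
    (W y : ℂ) = (Real.pi : ℂ)⁻¹ *
      ∫ v : ℝ, cexp (((c : ℂ) + v * I) ^ 2) * (y : ℂ) ^ (-((c : ℂ) + v * I)) / ((c : ℂ) + v * I) := by
  set L : ℝ := Real.log y with hL
  have hs : Continuous (fun v : ℝ => (c : ℂ) + v * I) :=
    continuous_const.add (Complex.continuous_ofReal.mul continuous_const)
  -- the inner integral
  have h1 : ∀ v : ℝ, cexp (((c : ℂ) + v * I) ^ 2) * (y : ℂ) ^ (-((c : ℂ) + v * I)) /
      ((c : ℂ) + v * I) = ∫ u in Set.Ioi (0:ℝ),
        cexp (((c : ℂ) + v * I) ^ 2 - ((c : ℂ) + v * I) * ((u + L : ℝ) : ℂ)) := by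
    intro v
    have hre : (-((c : ℂ) + v * I)).re < 0 := by
      have : (-((c : ℂ) + v * I)).re = -c := by simp
      rw [this]
      linarith
    have h2 := integral_exp_mul_complex_Ioi hre 0
    have h3 : ∀ u : ℝ, cexp (((c : ℂ) + v * I) ^ 2 - ((c : ℂ) + v * I) * ((u + L : ℝ) : ℂ)) =
        (cexp (((c : ℂ) + v * I) ^ 2) * (y : ℂ) ^ (-((c : ℂ) + v * I))) *
          cexp (-((c : ℂ) + v * I) * u) := by
      intro u
      rw [cpow_eq hy, ← Complex.exp_add, ← Complex.exp_add]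
      congr 1
      push_cast
      rw [← hL]
      ring
    simp_rw [h3]
    rw [integral_const_mul, h2]
    have hne := s_ne_zero hc v
    simp only [Complex.ofReal_zero, mul_zero, Complex.exp_zero]
    field_simp
  simp_rw [h1]
  -- Fubini
  have hint : Integrable (Function.uncurry fun (v u : ℝ) =>
      cexp (((c : ℂ) + v * I) ^ 2 - ((c : ℂ) + v * I) * ((u + L : ℝ) : ℂ)))
      (volume.prod (volume.restrict (Set.Ioi (0:ℝ)))) := by
    have hbd : Integrable (fun z : ℝ × ℝ => Real.exp (c ^ 2 - z.1 ^ 2) *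
        (Real.exp (-(c * L)) * Real.exp (-c * z.2)))
        (volume.prod (volume.restrict (Set.Ioi (0:ℝ)))) :=
      (integrable_gauss_v c).mul_prod ((exp_neg_integrableOn_Ioi 0 hc).const_mul _)
    refine hbd.mono' ?_ ?_
    · apply Continuous.aestronglyMeasurable
      apply Complex.continuous_exp.comp
      have hs1 : Continuous (fun z : ℝ × ℝ => (c : ℂ) + (z.1 : ℂ) * I) := hs.comp continuous_fst
      refine (hs1.pow 2).sub (hs1.mul ?_)
      exact Complex.continuous_ofReal.comp (continuous_snd.add continuous_const)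
    · refine Filter.Eventually.of_forall fun z => ?_
      simp only [Function.uncurry]
      rw [Complex.exp_sub, norm_div, norm_exp_sq, Complex.norm_exp]
      have h4 : (((c : ℂ) + (z.1 : ℂ) * I) * ((z.2 + L : ℝ) : ℂ)).re = c * (z.2 + L) := by
        rw [Complex.re_mul_ofReal, re_s]
      rw [h4, ← Real.exp_add, ← Real.exp_add, ← Real.exp_sub]
      apply Real.exp_le_exp.mpr
      apply le_of_eq
      ring
  rw [integral_integral_swap hint]
  simp_rw [gauss_vert]
  rw [integral_complex_ofReal, integral_const_mul,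
    integral_Ioi_add (fun u => Real.exp (-u ^ 2 / 4)) L]
  unfold W
  rw [← hL]
  have hpi : Real.sqrt Real.pi * Real.sqrt Real.pi = Real.pi := Real.mul_self_sqrt Real.pi_pos.le
  have h5 : (Real.sqrt Real.pi)⁻¹ = Real.pi⁻¹ * Real.sqrt Real.pi := by
    have := sqrt_pi_pos
    field_simp
    nlinarith
  rw [h5]
  push_cast
  ring

end Pool.Agent.P07318s
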