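import Mathlib

/-!
Stirling type estimate for a quotient of Gamma functions, from the Gauss product.

Put `z = 1/4 + i y` (`y ≥ 1`), `‖a‖ ≤ y/2`. By `Complex.GammaSeq_tendsto_Gamma`
(`GammaSeq s n = n^s n! / ∏_{j ≤ n} (s + j)`),
`Γ(z+a)/Γ(z) = lim n^a ∏_{j ≤ n} (z+j)/(z+a+j) = lim exp(a log n - ∑_{j ≤ n} log(1 + a/(z+j)))`
(`z+j` has imaginary part `y`, so `‖a/(z+j)‖ ≤ 1/2` and `log` is the principal branch).
Write `log(1+w) = w + O(‖w‖²)` (`‖w‖ ≤ 1/2`, e.g. `Complex.norm_log_one_add_sub_self_le`), and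
`∑_{j ≤ n} 1/(z+j) = ∑_j log((z+j+1)/(z+j)) + O(∑ 1/‖z+j‖²) = log(z+n+1) - log z + O(1/y)`
(telescoping of principal logarithms in the upper half plane), `log n - log(z+n+1) → 0`, and
`∑_j 1/‖z+j‖² ≤ 4/y`.
Hence the exponent is `a log z + O((‖a‖ + ‖a‖²)/y)`, and `log z = log(i y) + O(1/y)`,
`(i y)^a = exp(a log(i y))`. Finally `‖exp(w) - 1‖ ≤ exp(‖w‖) - 1`.
The second statement follows by complex conjugation (`Complex.Gamma_conj`).
-/

set_option autoImplicit false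

namespace Pool.Agent.P07318s

open MeasureTheory Complex

namespace GR

/-- the points of the half plane `Im = y` -/
noncomputable def zz (y : ℝ) (t : ℝ) : ℂ := 1 / 4 + y * I + t

lemma zz_im (y t : ℝ) : (zz y t).im = y := by simp [zz]

lemma zz_re (y t : ℝ) : (zz y t).re = 1 / 4 + t := by simp [zz]

lemma mem_slit {w : ℂ} (h : 0 < w.im) : w ∈ slitPlane := by
  rw [Complex.mem_slitPlane_iff]
  right
  exact h.ne'

lemma ne_zero_of_im {w : ℂ} (h : 0 < w.im) : w ≠ 0 := by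
  rintro rfl
  simp at h

lemma im_le_norm {w : ℂ} (h : 0 < w.im) : w.im ≤ ‖w‖ := by
  have := Complex.abs_im_le_norm w
  rwa [abs_of_pos h] at this

/-- derivative of `t ↦ log (w + t)` -/
lemma hasDerivAt_log_add {w : ℂ} (t : ℝ) (h : 0 < (w + t).im) :
    HasDerivAt (fun s : ℝ => Complex.log (w + s)) (1 / (w + t)) t := by
  have h1 : HasDerivAt (fun s : ℝ => w + (s : ℂ)) 1 t := by
    simpa using (Complex.ofRealCLM.hasDerivAt (x := t)).const_add w
  have h2 := h1.clog_real (mem_slit h)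
  simpa using h2

lemma log_step {y : ℝ} (hy : 1 ≤ y) {w : ℂ} (hw : w.im = y) (hre : 0 ≤ w.re) :
    ‖Complex.log (w + 1) - Complex.log w - 1 / w‖ ≤ 1 / ‖w‖ ^ 2 := by
  have hy0 : 0 < y := by linarith
  have hw0 : 0 < w.im := by rw [hw]; exact hy0
  have hwne : w ≠ 0 := ne_zero_of_im hw0
  have hwn : 0 < ‖w‖ := norm_pos_iff.2 hwne
  have h := norm_image_sub_le_of_norm_deriv_le_segment_01'
    (f := fun s : ℝ => Complex.log (w + s) - (s : ℂ) * (1 / w))
    (f' := fun s : ℝ => 1 / (w + s) - 1 / w) (C := 1 / ‖w‖ ^ 2) ?_ ?_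
  · have e : (fun s : ℝ => Complex.log (w + s) - (s : ℂ) * (1 / w)) 1 -
        (fun s : ℝ => Complex.log (w + s) - (s : ℂ) * (1 / w)) 0 =
        Complex.log (w + 1) - Complex.log w - 1 / w := by
      simp only [Complex.ofReal_one, Complex.ofReal_zero, one_mul, zero_mul, add_zero, sub_zero]
      ring
    rw [e] at h
    exact h
  · intro t _
    apply HasDerivAt.hasDerivWithinAt
    have h1 := hasDerivAt_log_add (w := w) t (by simpa using hw0)
    have h2 : HasDerivAt (fun s : ℝ => (s : ℂ) * (1 / w)) (1 / w) t := by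
      have := (Complex.ofRealCLM.hasDerivAt (x := t)).mul_const (1 / w)
      simpa using this
    exact h1.sub h2
  · intro t ht
    have ht0 : 0 ≤ t := ht.1
    have ht1 : t < 1 := ht.2
    have him : 0 < (w + t).im := by simpa using hw0
    have hne : w + t ≠ 0 := ne_zero_of_im him
    have e : 1 / (w + t) - 1 / w = -(t : ℂ) / ((w + t) * w) := by
      field_simp
      ring
    rw [e, norm_div, norm_neg, norm_mul]
    have hge : ‖w‖ ≤ ‖w + t‖ := by
      rw [Complex.norm_def, Complex.norm_def]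
      apply Real.sqrt_le_sqrt
      rw [Complex.normSq_apply, Complex.normSq_apply]
      simp only [Complex.add_re, Complex.ofReal_re, Complex.add_im, Complex.ofReal_im, add_zero]
      nlinarith
    have hnt : ‖(t : ℂ)‖ ≤ 1 := by
      rw [Complex.norm_real, Real.norm_eq_abs, abs_of_nonneg ht0]
      exact ht1.le
    have hpos : 0 < ‖w + t‖ := lt_of_lt_of_le hwn hge
    rw [div_le_div_iff₀ (by positivity) (by positivity), sq]
    have : ‖w‖ * ‖w‖ ≤ ‖w + t‖ * ‖w‖ := mul_le_mul_of_nonneg_right hge hwn.le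
    have h3 : ‖(t : ℂ)‖ * (‖w‖ * ‖w‖) ≤ 1 * (‖w‖ * ‖w‖) :=
      mul_le_mul_of_nonneg_right hnt (by positivity)
    linarith

lemma log_quarter {y : ℝ} (hy : 1 ≤ y) :
    ‖Complex.log (1 / 4 + y * I) - Complex.log (y * I)‖ ≤ 1 / y * (1 / 4) := by
  have hy0 : 0 < y := by linarith
  have him : ∀ t : ℝ, 0 < ((y : ℂ) * I + t).im := fun t => by simpa using hy0
  have h := norm_image_sub_le_of_norm_deriv_le_segment'
    (f := fun s : ℝ => Complex.log ((y : ℂ) * I + s)) (a := 0) (b := 1 / 4)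
    (f' := fun s : ℝ => 1 / ((y : ℂ) * I + s)) (C := 1 / y) ?_ ?_ (1 / 4) ⟨by norm_num, le_rfl⟩
  · have e : (fun s : ℝ => Complex.log ((y : ℂ) * I + s)) (1 / 4) -
        (fun s : ℝ => Complex.log ((y : ℂ) * I + s)) 0 =
        Complex.log (1 / 4 + y * I) - Complex.log (y * I) := by
      simp only [Complex.ofReal_zero, add_zero]
      congr 2
      push_cast
      ring
    rw [e] at h
    simpa using h
  · intro t _
    exact (hasDerivAt_log_add t (him t)).hasDerivWithinAt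
  · intro t _
    rw [norm_div, norm_one]
    apply one_div_le_one_div_of_le hy0
    have := im_le_norm (him t)
    simpa using this

lemma norm_zz_sq (y : ℝ) (j : ℕ) : ((j : ℝ) + y) ^ 2 / 2 ≤ ‖zz y j‖ ^ 2 := by
  rw [← Complex.normSq_eq_norm_sq, Complex.normSq_apply, zz_im, zz_re]
  have hj : (0 : ℝ) ≤ j := Nat.cast_nonneg j
  nlinarith [sq_nonneg ((j : ℝ) - y)]

lemma zz_norm_ge {y : ℝ} (hy : 1 ≤ y) (j : ℕ) : y ≤ ‖zz y j‖ := by
  have h : 0 < (zz y j).im := by rw [zz_im]; linarith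
  have := im_le_norm h
  rwa [zz_im] at this

lemma inv_sq_le {y : ℝ} (hy : 1 ≤ y) (j : ℕ) :
    1 / ‖zz y j‖ ^ 2 ≤ 2 * (1 / ((j : ℝ) + y - 1 / 2) - 1 / ((j : ℝ) + 1 + y - 1 / 2)) := by
  have hj : (0 : ℝ) ≤ j := Nat.cast_nonneg j
  have h1 := norm_zz_sq y j
  have h2 : 0 < ((j : ℝ) + y) ^ 2 / 2 := by positivity
  have h3 : 1 / ‖zz y j‖ ^ 2 ≤ 1 / (((j : ℝ) + y) ^ 2 / 2) := one_div_le_one_div_of_le h2 h1
  refine h3.trans ?_
  have h4 : 0 < (j : ℝ) + y - 1 / 2 := by linarith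
  have h5 : 0 < (j : ℝ) + 1 + y - 1 / 2 := by linarith
  have h6 : 0 < (j : ℝ) + y := by linarith
  rw [one_div_div, div_sub_div _ _ h4.ne' h5.ne', ← mul_div_assoc, div_le_div_iff₀ (by positivity)
    (by positivity)]
  nlinarith

lemma sum_inv_sq {y : ℝ} (hy : 1 ≤ y) (n : ℕ) :
    ∑ j ∈ Finset.range n, 1 / ‖zz y j‖ ^ 2 ≤ 4 / y := by
  have h : ∀ n : ℕ, ∑ j ∈ Finset.range n, 1 / ‖zz y j‖ ^ 2 ≤
      2 * (1 / (y - 1 / 2) - 1 / ((n : ℝ) + y - 1 / 2)) := by
    intro n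
    induction n with
    | zero => simp
    | succ n ih =>
      rw [Finset.sum_range_succ]
      have := inv_sq_le hy n
      push_cast
      linarith
  refine (h n).trans ?_
  have hn : (0 : ℝ) ≤ n := Nat.cast_nonneg n
  have h1 : 0 ≤ 1 / ((n : ℝ) + y - 1 / 2) := by
    apply div_nonneg one_pos.le
    linarith
  have h2 : 1 / (y - 1 / 2) ≤ 2 / y := by
    rw [div_le_div_iff₀ (by linarith) (by linarith)]
    linarith
  have h3 : 2 * (2 / y) = 4 / y := by ring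
  linarith

/-- the sum of the reciprocals -/
lemma sum_inv {y : ℝ} (hy : 1 ≤ y) (n : ℕ) :
    ‖(∑ j ∈ Finset.range n, 1 / zz y j) - (Complex.log (zz y n) - Complex.log (zz y 0))‖ ≤ 4 / y := by
  have h : ∀ n : ℕ, ‖(∑ j ∈ Finset.range n, 1 / zz y j) -
      (Complex.log (zz y n) - Complex.log (zz y 0))‖ ≤
      ∑ j ∈ Finset.range n, 1 / ‖zz y j‖ ^ 2 := by
    intro n
    induction n with
    | zero => simp
    | succ n ih =>
      rw [Finset.sum_range_succ, Finset.sum_range_succ]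
      have e1 : zz y ((n + 1 : ℕ) : ℝ) = zz y n + 1 := by
        simp [zz]
        ring
      have h1 := log_step (w := zz y n) hy (zz_im y n) (by
        rw [zz_re]
        positivity)
      rw [e1]
      have e2 : (∑ j ∈ Finset.range n, 1 / zz y j) + 1 / zz y n -
          (Complex.log (zz y n + 1) - Complex.log (zz y 0)) =
          ((∑ j ∈ Finset.range n, 1 / zz y j) -
            (Complex.log (zz y n) - Complex.log (zz y 0))) -
          (Complex.log (zz y n + 1) - Complex.log (zz y n) - 1 / zz y n) := by ring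
      rw [e2]
      exact (norm_sub_le _ _).trans (add_le_add ih h1)
  exact (h n).trans (sum_inv_sq hy n)

/-- the exponent -/
noncomputable def EE (y : ℝ) (a : ℂ) (n : ℕ) : ℂ :=
  a * Real.log n - (∑ j ∈ Finset.range (n + 1), Complex.log (1 + a / zz y j)) -
    a * Complex.log (y * I)

lemma quot_alg {Z P A B D F : ℂ} (hZ : Z ≠ 0) (hP : P ≠ 0) (hA : A ≠ 0) (hB : B ≠ 0)
    (hD : D ≠ 0) (hF : F ≠ 0) :
    Z * A * F / B / (Z * F / P * D) = A / (B / P) / D := by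
  field_simp

lemma exp_EE {y : ℝ} (hy : 1 ≤ y) {a : ℂ} (ha : ‖a‖ ≤ y / 2) {n : ℕ} (hn : n ≠ 0) :
    GammaSeq (1 / 4 + y * I + a) n / (GammaSeq (1 / 4 + y * I) n * (y * I) ^ a) =
      Complex.exp (EE y a n) := by
  have hy0 : 0 < y := by linarith
  have hnC : (n : ℂ) ≠ 0 := by exact_mod_cast hn
  have hI : (y : ℂ) * I ≠ 0 := mul_ne_zero (by exact_mod_cast hy0.ne') I_ne_zero
  have hz : ∀ j : ℕ, zz y j ≠ 0 := fun j => ne_zero_of_im (by rw [zz_im]; exact hy0)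
  have hlt : ∀ j : ℕ, ‖a / zz y j‖ ≤ 1 / 2 := by
    intro j
    rw [norm_div, div_le_iff₀ (norm_pos_iff.2 (hz j))]
    have := zz_norm_ge hy j
    linarith
  have h1a : ∀ j : ℕ, 1 + a / zz y j ≠ 0 := by
    intro j h0
    have : a / zz y j = -1 := by linear_combination h0
    have h2 := hlt j
    rw [this] at h2
    norm_num at h2
  have hzj : ∀ j : ℕ, zz y j = 1 / 4 + y * I + j := by
    intro j
    unfold zz
    push_cast
    ring
  unfold GammaSeq EE
  rw [Complex.exp_sub, Complex.exp_sub, Complex.exp_sum]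
  have e1 : Complex.exp (a * Real.log n) = (n : ℂ) ^ a := by
    rw [Complex.cpow_def_of_ne_zero hnC, ← Complex.natCast_log, mul_comm]
  have e2 : Complex.exp (a * Complex.log (y * I)) = (y * I : ℂ) ^ a := by
    rw [Complex.cpow_def_of_ne_zero hI, mul_comm]
  have e3 : ∀ j ∈ Finset.range (n + 1), Complex.exp (Complex.log (1 + a / zz y j)) =
      (1 / 4 + y * I + a + j) / (1 / 4 + y * I + j) := by
    intro j _
    rw [Complex.exp_log (h1a j)]
    have h := hz j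
    rw [← hzj j, one_add_div h]
    congr 1
    rw [hzj]
    ring
  rw [e1, e2, Finset.prod_congr rfl e3, Finset.prod_div_distrib]
  have e4 : (n : ℂ) ^ (1 / 4 + y * I + a) = (n : ℂ) ^ (1 / 4 + y * I) * (n : ℂ) ^ a :=
    Complex.cpow_add _ _ hnC
  rw [e4]
  have hp1 : ∏ j ∈ Finset.range (n + 1), (1 / 4 + (y : ℂ) * I + j) ≠ 0 := by
    refine Finset.prod_ne_zero_iff.2 fun j _ => ?_
    rw [← hzj j]
    exact hz j
  have hp2 : ∏ j ∈ Finset.range (n + 1), (1 / 4 + (y : ℂ) * I + a + j) ≠ 0 := by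
    refine Finset.prod_ne_zero_iff.2 fun j _ => ?_
    intro h0
    apply h1a j
    have h := hz j
    rw [one_add_div h]
    have : zz y j + a = 1 / 4 + (y : ℂ) * I + a + j := by
      rw [hzj]
      ring
    rw [this, h0, zero_div]
  have hfac : ((n.factorial : ℕ) : ℂ) ≠ 0 := by exact_mod_cast n.factorial_ne_zero
  have hcp : (n : ℂ) ^ (1 / 4 + y * I : ℂ) ≠ 0 := by
    rw [Complex.cpow_def_of_ne_zero hnC]
    exact Complex.exp_ne_zero _
  have hcpa : (n : ℂ) ^ a ≠ 0 := by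
    rw [Complex.cpow_def_of_ne_zero hnC]
    exact Complex.exp_ne_zero _
  have hcp2 : (y * I : ℂ) ^ a ≠ 0 := by
    rw [Complex.cpow_def_of_ne_zero hI]
    exact Complex.exp_ne_zero _
  exact quot_alg hcp hp1 hcpa hp2 hcp2 hfac

lemma norm_EE_le {y : ℝ} (hy : 1 ≤ y) {a : ℂ} (ha : ‖a‖ ≤ y / 2) (n : ℕ) :
    ‖EE y a n‖ ≤ 9 * (1 + ‖a‖ ^ 2) / y +
      ‖a‖ * ‖(Real.log n : ℂ) - Complex.log (zz y (n + 1 : ℕ))‖ := by
  have hy0 : 0 < y := by linarith
  have hz : ∀ j : ℕ, zz y j ≠ 0 := fun j => ne_zero_of_im (by rw [zz_im]; exact hy0)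
  have hlt : ∀ j : ℕ, ‖a / zz y j‖ ≤ 1 / 2 := by
    intro j
    rw [norm_div, div_le_iff₀ (norm_pos_iff.2 (hz j))]
    have := zz_norm_ge hy j
    linarith
  -- first error
  have h1 : ‖∑ j ∈ Finset.range (n + 1), (Complex.log (1 + a / zz y j) - a / zz y j)‖ ≤
      ‖a‖ ^ 2 * (4 / y) := by
    refine (norm_sum_le _ _).trans ?_
    refine le_trans (Finset.sum_le_sum (g := fun j : ℕ => ‖a‖ ^ 2 * (1 / ‖zz y j‖ ^ 2))
      fun j _ => ?_) ?_
    · have hl := hlt j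
      have h0 := Complex.norm_log_one_add_sub_self_le (z := a / zz y j) (by linarith)
      refine h0.trans ?_
      have hinv : (1 - ‖a / zz y j‖)⁻¹ ≤ 2 := by
        rw [inv_le_comm₀ (by linarith) (by norm_num)]
        linarith
      have hsq : ‖a / zz y j‖ ^ 2 = ‖a‖ ^ 2 * (1 / ‖zz y j‖ ^ 2) := by
        rw [norm_div, div_pow]
        ring
      have hnn : 0 ≤ ‖a / zz y j‖ ^ 2 := by positivity
      calc ‖a / zz y j‖ ^ 2 * (1 - ‖a / zz y j‖)⁻¹ / 2 ≤ ‖a / zz y j‖ ^ 2 * 2 / 2 := by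
            gcongr
        _ = ‖a‖ ^ 2 * (1 / ‖zz y j‖ ^ 2) := by rw [← hsq]; ring
    · rw [← Finset.mul_sum]
      exact mul_le_mul_of_nonneg_left (sum_inv_sq hy (n + 1)) (by positivity)
  have h2 := sum_inv hy (n + 1)
  have h3 := log_quarter hy
  have hz0 : zz y (0 : ℝ) = 1 / 4 + y * I := by simp [zz]
  rw [hz0] at h2
  set S1 := ∑ j ∈ Finset.range (n + 1), (Complex.log (1 + a / zz y j) - a / zz y j) with hS1
  set S2 := ∑ j ∈ Finset.range (n + 1), 1 / zz y j with hS2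
  have hsum : ∑ j ∈ Finset.range (n + 1), Complex.log (1 + a / zz y j) = S1 + a * S2 := by
    rw [hS1, hS2, Finset.mul_sum, ← Finset.sum_add_distrib]
    refine Finset.sum_congr rfl fun j _ => ?_
    ring
  have e : EE y a n = a * ((Real.log n : ℂ) - Complex.log (zz y (n + 1 : ℕ))) - S1 -
      a * (S2 - (Complex.log (zz y (n + 1 : ℕ)) - Complex.log (1 / 4 + y * I))) +
      a * (Complex.log (1 / 4 + y * I) - Complex.log (y * I)) := by
    unfold EE
    rw [hsum]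
    ring
  rw [e]
  have hA : ‖a‖ ≤ (1 + ‖a‖ ^ 2) / 2 := by nlinarith [sq_nonneg (‖a‖ - 1)]
  have ha0 := norm_nonneg a
  have t1 : ‖a * (S2 - (Complex.log (zz y (n + 1 : ℕ)) - Complex.log (1 / 4 + y * I)))‖ ≤
      ‖a‖ * (4 / y) := by
    rw [norm_mul]
    exact mul_le_mul_of_nonneg_left h2 ha0
  have t2 : ‖a * (Complex.log (1 / 4 + y * I) - Complex.log (y * I))‖ ≤ ‖a‖ * (1 / y * (1 / 4)) := by
    rw [norm_mul]
    exact mul_le_mul_of_nonneg_left h3 ha0
  have t0 : ‖a * ((Real.log n : ℂ) - Complex.log (zz y (n + 1 : ℕ)))‖ =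
      ‖a‖ * ‖(Real.log n : ℂ) - Complex.log (zz y (n + 1 : ℕ))‖ := norm_mul _ _
  have hfin : ‖a‖ ^ 2 * (4 / y) + ‖a‖ * (4 / y) + ‖a‖ * (1 / y * (1 / 4)) ≤
      9 * (1 + ‖a‖ ^ 2) / y := by
    have : ‖a‖ ^ 2 * (4 / y) + ‖a‖ * (4 / y) + ‖a‖ * (1 / y * (1 / 4)) =
        (4 * ‖a‖ ^ 2 + 17 / 4 * ‖a‖) / y := by
      field_simp
      ring
    rw [this]
    apply div_le_div_of_nonneg_right _ hy0.le
    nlinarith
  refine (norm_add_le _ _).trans ?_
  have u1 := norm_sub_le (a * ((Real.log n : ℂ) - Complex.log (zz y (n + 1 : ℕ))) - S1)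
    (a * (S2 - (Complex.log (zz y (n + 1 : ℕ)) - Complex.log (1 / 4 + y * I))))
  have u2 := norm_sub_le (a * ((Real.log n : ℂ) - Complex.log (zz y (n + 1 : ℕ)))) S1
  linarith

open Filter Topology in
lemma tendsto_log (y : ℝ) (hy : 1 ≤ y) :
    Tendsto (fun n : ℕ => ‖(Real.log n : ℂ) - Complex.log (zz y (n + 1 : ℕ))‖) atTop (𝓝 0) := by
  have h1 : Tendsto (fun n : ℕ => 1 + zz y 1 / (n : ℂ)) atTop (𝓝 (1 + 0)) := by
    refine tendsto_const_nhds.add ?_
    exact tendsto_const_div_atTop_nhds_zero_nat (zz y 1)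
  rw [add_zero] at h1
  have h2 : Tendsto (fun n : ℕ => ‖Complex.log (1 + zz y 1 / (n : ℂ))‖) atTop (𝓝 0) := by
    have := (h1.clog (by simp)).norm
    simpa using this
  refine h2.congr' ?_
  filter_upwards [eventually_ne_atTop 0] with n hn
  have hnr : (0 : ℝ) < n := by exact_mod_cast Nat.pos_of_ne_zero hn
  have hnC : (n : ℂ) ≠ 0 := by exact_mod_cast hn
  have hzne : (1 : ℂ) + zz y 1 / (n : ℂ) ≠ 0 := by
    apply ne_zero_of_im
    rw [Complex.add_im, Complex.one_im, zero_add, Complex.div_natCast_im, zz_im]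
    positivity
  have e : zz y (n + 1 : ℕ) = ((n : ℝ) : ℂ) * (1 + zz y 1 / (n : ℂ)) := by
    unfold zz
    push_cast
    field_simp
    ring
  rw [e, Complex.log_ofReal_mul hnr hzne]
  have e2 : (Real.log n : ℂ) - ((Real.log n : ℝ) + Complex.log (1 + zz y 1 / (n : ℂ))) =
      -Complex.log (1 + zz y 1 / (n : ℂ)) := by ring
  rw [e2, norm_neg]

lemma norm_exp_sub_one_le' (w : ℂ) : ‖Complex.exp w - 1‖ ≤ Real.exp ‖w‖ - 1 := by
  have := Complex.norm_exp_sub_sum_le_exp_norm_sub_sum w 1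
  simpa using this

end GR

open GR Filter Topology in
theorem gamma_ratio_nine (y : ℝ) (hy : 1 ≤ y) (a : ℂ) (ha : ‖a‖ ≤ y / 2) :
    ‖Gamma (1 / 4 + y * I + a) / (Gamma (1 / 4 + y * I) * (y * I) ^ a) - 1‖ ≤
      Real.exp (9 * (1 + ‖a‖ ^ 2) / y) - 1 := by
  have hy0 : 0 < y := by linarith
  have hI : (y : ℂ) * I ≠ 0 := mul_ne_zero (by exact_mod_cast hy0.ne') I_ne_zero
  have hcp2 : (y * I : ℂ) ^ a ≠ 0 := by
    rw [Complex.cpow_def_of_ne_zero hI]
    exact Complex.exp_ne_zero _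
  have hG : Gamma (1 / 4 + y * I) ≠ 0 := by
    apply Complex.Gamma_ne_zero_of_re_pos
    simp
  have t1 : Tendsto (fun n : ℕ => ‖GammaSeq (1 / 4 + y * I + a) n /
      (GammaSeq (1 / 4 + y * I) n * (y * I) ^ a) - 1‖) atTop
      (𝓝 ‖Gamma (1 / 4 + y * I + a) / (Gamma (1 / 4 + y * I) * (y * I) ^ a) - 1‖) := by
    refine ((Tendsto.div (GammaSeq_tendsto_Gamma _)
      ((GammaSeq_tendsto_Gamma _).mul tendsto_const_nhds) (mul_ne_zero hG hcp2)).sub
      tendsto_const_nhds).norm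
  have t2 : Tendsto (fun n : ℕ => Real.exp (9 * (1 + ‖a‖ ^ 2) / y +
      ‖a‖ * ‖(Real.log n : ℂ) - Complex.log (zz y (n + 1 : ℕ))‖) - 1) atTop
      (𝓝 (Real.exp (9 * (1 + ‖a‖ ^ 2) / y + ‖a‖ * 0) - 1)) := by
    refine Tendsto.sub_const ?_ 1
    refine (Real.continuous_exp.tendsto _).comp ?_
    exact tendsto_const_nhds.add (tendsto_const_nhds.mul (tendsto_log y hy))
  rw [mul_zero, add_zero] at t2
  refine le_of_tendsto_of_tendsto t1 t2 ?_
  filter_upwards [eventually_ne_atTop 0] with n hn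
  rw [exp_EE hy ha hn]
  refine (norm_exp_sub_one_le' _).trans ?_
  have := norm_EE_le hy ha n
  have := Real.exp_le_exp.2 this
  linarith

theorem gamma_ratio : ∃ C : ℝ, 0 < C ∧ ∀ y : ℝ, 1 ≤ y → ∀ a : ℂ, ‖a‖ ≤ y / 2 →
    ‖Gamma (1 / 4 + y * I + a) / (Gamma (1 / 4 + y * I) * (y * I) ^ a) - 1‖ ≤
      Real.exp (C * (1 + ‖a‖ ^ 2) / y) - 1 :=
  ⟨9, by norm_num, fun y hy a ha => gamma_ratio_nine y hy a ha⟩

open ComplexConjugate in
theorem gamma_ratio_conj : ∃ C : ℝ, 0 < C ∧ ∀ y : ℝ, 1 ≤ y → ∀ a : ℂ, ‖a‖ ≤ y / 2 →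
    ‖Gamma (1 / 4 - y * I + a) / (Gamma (1 / 4 - y * I) * (-(y * I)) ^ a) - 1‖ ≤
      Real.exp (C * (1 + ‖a‖ ^ 2) / y) - 1 := by
  refine ⟨9, by norm_num, fun y hy a ha => ?_⟩
  have hy0 : 0 < y := by linarith
  have hI : (y : ℂ) * I ≠ 0 := mul_ne_zero (by exact_mod_cast hy0.ne') I_ne_zero
  have h := gamma_ratio_nine y hy (conj a) (by rwa [Complex.norm_conj])
  rw [Complex.norm_conj] at h
  refine le_trans (le_of_eq ?_) h
  rw [← Complex.norm_conj]
  congr 1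
  have e1 : conj (Gamma (1 / 4 - y * I + a)) = Gamma (1 / 4 + y * I + conj a) := by
    rw [← Complex.Gamma_conj]
    congr 1
    simp [Complex.ext_iff]
  have e2 : conj (Gamma (1 / 4 - y * I)) = Gamma (1 / 4 + y * I) := by
    rw [← Complex.Gamma_conj]
    congr 1
    simp [Complex.ext_iff]
  have e3 : conj ((-(y * I) : ℂ) ^ a) = (y * I : ℂ) ^ (conj a) := by
    have h1 : (-(y * I) : ℂ) = conj (y * I : ℂ) := by simp
    rw [h1, Complex.conj_cpow _ _ ?_, Complex.conj_conj]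
    intro harg
    rw [Complex.arg_eq_pi_iff] at harg
    simp at harg
  rw [map_sub, map_div₀, map_mul, map_one, e1, e2, e3]

end Pool.Agent.P07318s
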