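import Pool.Agent.Lib.P07318s.Defs
import Pool.Agent.Lib.P07318s.GammaRatio
import Pool.Agent.Lib.P07318s.Crude

/-!
The kernel of the approximate functional equation.

`Gammaℝ s = π^(-s/2) Γ(s/2)`, so with `a = s/2`, `y = x/2`:
`gx x s = π^(-s) Γ(1/4+iy+a) Γ(1/4-iy+a) / (Γ(1/4+iy) Γ(1/4-iy))`. If `‖s‖ ≤ x/2` and `x ≥ 2` the two
versions of `gamma_ratio` give `‖gx x s / (x/(2π))^s - 1‖ ≤ exp(C (1+‖s‖²)/x) - 1` (note
`(iy)^a (-iy)^a = y^(2a)`, arguments `±π/2`), and since `‖s‖ ≤ x/2` this is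
`≤ C' (1+‖s‖²) exp(C'(1+‖s‖)) / x`. Also `qx x s = (1 - (s²+2isx)/(1/4+x²)) (1 - (s²-2isx)/(1/4+x²))`, so
`‖qx x s - 1‖ ≤ C (1+‖s‖)^4 / x`. So for `s = c + i v`, `‖s‖ ≤ x/2`, the integrand of `kernel_bound` is
`≤ C x^(c-1) (1+|v|)^A exp(A |v| - v²) / c`.
If `‖s‖ > x/2` (or `1 ≤ x ≤ 2`): `‖gx x s‖ ≤ C exp(2π x) ≤ C exp(4π‖s‖ + C)` by `gamma_upper` and
`gamma_quarter_lower`, everything is `≤ C exp(A‖s‖)`, and `1 ≤ (2‖s‖/x)` provides the factor `1/x`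
(times `x^c ≤ (2‖s‖)^c`).
Everything is uniform, the Gaussian `exp(-v²)` wins. Measurability: all functions are continuous in `v`.
-/

set_option autoImplicit false

namespace Pool.Agent.P07318s

open MeasureTheory Complex

namespace KernelAux

/-- the quotient of the Gamma factors -/
theorem gx_eq (x : ℝ) (s : ℂ) : gx x s = (Real.pi : ℂ) ^ (-s) *
    (Gamma (1 / 4 + (x / 2 : ℝ) * I + s / 2) / Gamma (1 / 4 + (x / 2 : ℝ) * I)) *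
    (Gamma (1 / 4 - (x / 2 : ℝ) * I + s / 2) / Gamma (1 / 4 - (x / 2 : ℝ) * I)) := by
  have hp : (Real.pi : ℂ) ≠ 0 := by exact_mod_cast Real.pi_ne_zero
  unfold gx
  rw [Gammaℝ_def, Gammaℝ_def, Gammaℝ_def, Gammaℝ_def]
  have e1 : (Real.pi : ℂ) ^ (-(1 / 2 + s + x * I) / 2) =
      (Real.pi : ℂ) ^ (-(1 / 2 + x * I) / 2) * (Real.pi : ℂ) ^ (-(s / 2)) := by
    rw [← cpow_add _ _ hp]; congr 1; ring
  have e2 : (Real.pi : ℂ) ^ (-(1 / 2 + s - x * I) / 2) =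
      (Real.pi : ℂ) ^ (-(1 / 2 - x * I) / 2) * (Real.pi : ℂ) ^ (-(s / 2)) := by
    rw [← cpow_add _ _ hp]; congr 1; ring
  have e3 : (Real.pi : ℂ) ^ (-s) = (Real.pi : ℂ) ^ (-(s / 2)) * (Real.pi : ℂ) ^ (-(s / 2)) := by
    rw [← cpow_add _ _ hp]; congr 1; ring
  have f1 : (1 / 2 + s + x * I) / 2 = 1 / 4 + (x / 2 : ℝ) * I + s / 2 := by push_cast; ring
  have f2 : (1 / 2 + s - x * I) / 2 = 1 / 4 - (x / 2 : ℝ) * I + s / 2 := by push_cast; ring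
  have f3 : (1 / 2 + x * I) / 2 = 1 / 4 + (x / 2 : ℝ) * I := by push_cast; ring
  have f4 : (1 / 2 - x * I) / 2 = 1 / 4 - (x / 2 : ℝ) * I := by push_cast; ring
  rw [e1, e2, e3, f1, f2, f3, f4]
  have g1 : (Real.pi : ℂ) ^ (-(1 / 2 + x * I) / 2) ≠ 0 := by
    rw [Ne, cpow_eq_zero_iff]; tauto
  have g2 : (Real.pi : ℂ) ^ (-(1 / 2 - x * I) / 2) ≠ 0 := by
    rw [Ne, cpow_eq_zero_iff]; tauto
  generalize (Real.pi : ℂ) ^ (-(1 / 2 + x * I) / 2) = A at *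
  generalize (Real.pi : ℂ) ^ (-(1 / 2 - x * I) / 2) = B at *
  generalize (Real.pi : ℂ) ^ (-(s / 2)) = D
  generalize Gamma (1 / 4 + (x / 2 : ℝ) * I + s / 2) = G1
  generalize Gamma (1 / 4 - (x / 2 : ℝ) * I + s / 2) = G2
  generalize Gamma (1 / 4 + (x / 2 : ℝ) * I) = G3
  generalize Gamma (1 / 4 - (x / 2 : ℝ) * I) = G4
  have h1 : A * D * G1 * (B * D * G2) / (A * G3 * (B * G4)) =
      (A * B) * (D * D * (G1 * G2)) / ((A * B) * (G3 * G4)) := by congr 1 <;> ring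
  rw [h1, mul_div_mul_left _ _ (mul_ne_zero g1 g2)]
  ring

theorem pow_eq {x : ℝ} (hx : 0 < x) (s : ℂ) : ((x / (2 * Real.pi) : ℝ) : ℂ) ^ s =
    (Real.pi : ℂ) ^ (-s) * (((x / 2 : ℝ) : ℂ) * I) ^ (s / 2) *
      (-(((x / 2 : ℝ) : ℂ) * I)) ^ (s / 2) := by
  have hp : (Real.pi : ℂ) ≠ 0 := by exact_mod_cast Real.pi_ne_zero
  have hy : 0 < x / 2 := by positivity
  have hx1 : 0 < x / (2 * Real.pi) := by positivity
  have h1 : ((x / (2 * Real.pi) : ℝ) : ℂ) ≠ 0 := by exact_mod_cast hx1.ne'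
  have h2 : ((x / 2 : ℝ) : ℂ) * I ≠ 0 := mul_ne_zero (by exact_mod_cast hy.ne') I_ne_zero
  rw [cpow_def_of_ne_zero h1, cpow_def_of_ne_zero hp, cpow_def_of_ne_zero h2,
    cpow_def_of_ne_zero (neg_ne_zero.2 h2), ← exp_add, ← exp_add]
  congr 1
  have l1 : log (((x / 2 : ℝ) : ℂ) * I) = (Real.log (x / 2) : ℂ) + Real.pi / 2 * I := by
    rw [log_ofReal_mul hy I_ne_zero, log_I]
  have l2 : log (-(((x / 2 : ℝ) : ℂ) * I)) = (Real.log (x / 2) : ℂ) - Real.pi / 2 * I := by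
    rw [← mul_neg, log_ofReal_mul hy (neg_ne_zero.2 I_ne_zero), log_neg_I]
    ring
  have l3 : log ((x / (2 * Real.pi) : ℝ) : ℂ) = (Real.log (x / 2) : ℂ) - Real.log Real.pi := by
    rw [← ofReal_log hx1.le, show x / (2 * Real.pi) = (x / 2) / Real.pi by field_simp,
      Real.log_div hy.ne' Real.pi_ne_zero]
    push_cast
    rfl
  have l4 : log (Real.pi : ℂ) = (Real.log Real.pi : ℂ) := (ofReal_log Real.pi_pos.le).symm
  rw [l1, l2, l3, l4]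
  ring

theorem prod_sub_one (a b : ℂ) : 1 + ‖a * b - 1‖ ≤ (1 + ‖a - 1‖) * (1 + ‖b - 1‖) := by
  have h : a * b - 1 = (a - 1) * (b - 1) + (a - 1) + (b - 1) := by ring
  rw [h]
  have h1 := norm_add_le ((a - 1) * (b - 1) + (a - 1)) (b - 1)
  have h2 := norm_add_le ((a - 1) * (b - 1)) (a - 1)
  rw [norm_mul] at h2
  nlinarith

/-- the two factors of `qx` -/
theorem qx_eq (x : ℝ) (s : ℂ) : qx x s =
    (1 - (s ^ 2 + 2 * I * s * x) / ((1 / 4 + x ^ 2 : ℝ) : ℂ)) *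
      (1 - (s ^ 2 - 2 * I * s * x) / ((1 / 4 + x ^ 2 : ℝ) : ℂ)) := by
  have h0 : (0 : ℝ) < 1 / 4 + x ^ 2 := by positivity
  have h : ((1 / 4 + x ^ 2 : ℝ) : ℂ) ≠ 0 := by exact_mod_cast h0.ne'
  unfold qx
  rw [ofReal_pow]
  have e1 : (1 / 4 - (s + x * I) ^ 2 : ℂ) = ((1 / 4 + x ^ 2 : ℝ) : ℂ) - (s ^ 2 + 2 * I * s * x) := by
    push_cast
    ring_nf
    rw [I_sq]
    ring
  have e2 : (1 / 4 - (s - x * I) ^ 2 : ℂ) = ((1 / 4 + x ^ 2 : ℝ) : ℂ) - (s ^ 2 - 2 * I * s * x) := by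
    push_cast
    ring_nf
    rw [I_sq]
    ring
  rw [e1, e2]
  generalize ((1 / 4 + x ^ 2 : ℝ) : ℂ) = D at *
  generalize (s ^ 2 + 2 * I * s * x : ℂ) = A
  generalize (s ^ 2 - 2 * I * s * x : ℂ) = B
  field_simp

theorem qx_fac {x : ℝ} (hx : 1 ≤ x) (s w : ℂ) (hw : ‖w‖ ≤ ‖s‖ ^ 2 + 2 * ‖s‖ * x) :
    ‖(1 - w / ((1 / 4 + x ^ 2 : ℝ) : ℂ)) - 1‖ ≤ (1 + ‖s‖) ^ 2 / x := by
  have h0 : (0 : ℝ) < 1 / 4 + x ^ 2 := by positivity
  have h1 : (1 - w / ((1 / 4 + x ^ 2 : ℝ) : ℂ)) - 1 = -(w / ((1 / 4 + x ^ 2 : ℝ) : ℂ)) := by ring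
  rw [h1, norm_neg, norm_div, norm_real, Real.norm_eq_abs, abs_of_pos h0,
    div_le_div_iff₀ h0 (by linarith)]
  have hn := norm_nonneg s
  calc ‖w‖ * x ≤ (‖s‖ ^ 2 + 2 * ‖s‖ * x) * x := mul_le_mul_of_nonneg_right hw (by linarith)
    _ ≤ (1 + ‖s‖) ^ 2 * (x ^ 2) := by
        have h2 : ‖s‖ ^ 2 * x ≤ ‖s‖ ^ 2 * x ^ 2 := by
          apply mul_le_mul_of_nonneg_left _ (sq_nonneg _)
          nlinarith
        nlinarith [sq_nonneg x]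
    _ ≤ (1 + ‖s‖) ^ 2 * (1 / 4 + x ^ 2) := by
        apply mul_le_mul_of_nonneg_left _ (sq_nonneg _)
        linarith

theorem qx_bound {x : ℝ} (hx : 1 ≤ x) (s : ℂ) :
    ‖qx x s - 1‖ ≤ 3 * (1 + ‖s‖) ^ 4 / x ∧ ‖qx x s‖ ≤ 4 * (1 + ‖s‖) ^ 4 := by
  have hn := norm_nonneg s
  have hx0 : 0 < x := by linarith
  have hw1 : ‖s ^ 2 + 2 * I * s * x‖ ≤ ‖s‖ ^ 2 + 2 * ‖s‖ * x := by
    refine (norm_add_le _ _).trans (le_of_eq ?_)
    simp [norm_pow, abs_of_pos hx0]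
  have hw2 : ‖s ^ 2 - 2 * I * s * x‖ ≤ ‖s‖ ^ 2 + 2 * ‖s‖ * x := by
    refine (norm_sub_le _ _).trans (le_of_eq ?_)
    simp [norm_pow, abs_of_pos hx0]
  have h1 := qx_fac hx s _ hw1
  have h2 := qx_fac hx s _ hw2
  have h3 := prod_sub_one (1 - (s ^ 2 + 2 * I * s * x) / ((1 / 4 + x ^ 2 : ℝ) : ℂ))
    (1 - (s ^ 2 - 2 * I * s * x) / ((1 / 4 + x ^ 2 : ℝ) : ℂ))
  rw [← qx_eq] at h3
  obtain ⟨u, hu⟩ : ∃ u, u = (1 + ‖s‖) ^ 2 / x := ⟨_, rfl⟩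
  rw [← hu] at h1 h2
  have hu0 : 0 ≤ u := by rw [hu]; positivity
  have h4 : (1 + ‖(1 - (s ^ 2 + 2 * I * s * x) / ((1 / 4 + x ^ 2 : ℝ) : ℂ)) - 1‖) *
      (1 + ‖(1 - (s ^ 2 - 2 * I * s * x) / ((1 / 4 + x ^ 2 : ℝ) : ℂ)) - 1‖) ≤ (1 + u) * (1 + u) :=
    mul_le_mul (by linarith) (by linarith) (by positivity) (by linarith)
  have hm1 : 1 ≤ (1 + ‖s‖) ^ 2 := by nlinarith
  have hum : u ≤ (1 + ‖s‖) ^ 2 := by
    rw [hu, div_le_iff₀ hx0]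
    nlinarith
  have hux : u * x = (1 + ‖s‖) ^ 2 := by rw [hu]; field_simp
  constructor
  · rw [le_div_iff₀ hx0]
    have h5 : ‖qx x s - 1‖ ≤ 2 * u + u ^ 2 := by nlinarith
    calc ‖qx x s - 1‖ * x ≤ (2 * u + u ^ 2) * x := mul_le_mul_of_nonneg_right h5 hx0.le
      _ = (2 + u) * (u * x) := by ring
      _ = (2 + u) * (1 + ‖s‖) ^ 2 := by rw [hux]
      _ ≤ (3 * (1 + ‖s‖) ^ 2) * (1 + ‖s‖) ^ 2 := by
          apply mul_le_mul_of_nonneg_right _ (by positivity)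
          linarith
      _ = 3 * (1 + ‖s‖) ^ 4 := by ring
  · have h6 : ‖qx x s‖ ≤ 1 + ‖qx x s - 1‖ := by
      have := norm_add_le (1 : ℂ) (qx x s - 1)
      simpa using this
    have h7 : (1 + u) * (1 + u) ≤ (2 * (1 + ‖s‖) ^ 2) * (2 * (1 + ‖s‖) ^ 2) :=
      mul_le_mul (by linarith) (by linarith) (by linarith) (by linarith)
    calc ‖qx x s‖ ≤ 1 + ‖qx x s - 1‖ := h6
      _ ≤ (2 * (1 + ‖s‖) ^ 2) * (2 * (1 + ‖s‖) ^ 2) := (h3.trans h4).trans h7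
      _ = 4 * (1 + ‖s‖) ^ 4 := by ring

theorem exp_sub_one_le (t : ℝ) : Real.exp t - 1 ≤ t * Real.exp t := by
  have h1 := Real.add_one_le_exp (-t)
  have h2 : Real.exp t * Real.exp (-t) = 1 := by rw [← Real.exp_add]; simp
  have h3 := Real.exp_pos t
  nlinarith

/-- the modulus of the main power -/
theorem norm_pow_le {c : ℝ} (hc : 0 < c) {x : ℝ} (hx : 1 ≤ x) (v : ℝ) :
    ‖((x / (2 * Real.pi) : ℝ) : ℂ) ^ ((c : ℂ) + v * I)‖ ≤ x ^ c := by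
  have hx1 : 0 < x / (2 * Real.pi) := by positivity
  rw [norm_cpow_eq_rpow_re_of_pos hx1]
  have : ((c : ℂ) + v * I).re = c := by simp
  rw [this]
  apply Real.rpow_le_rpow hx1.le _ hc.le
  apply div_le_self (by linarith)
  have := Real.pi_gt_three
  linarith

/-- small `s` -/
theorem case_one : ∃ C : ℝ, 0 < C ∧ ∀ x : ℝ, 2 ≤ x → ∀ s : ℂ, ‖s‖ ≤ x / 2 →
    ‖qx x s * gx x s - ((x / (2 * Real.pi) : ℝ) : ℂ) ^ s‖ ≤
      ‖((x / (2 * Real.pi) : ℝ) : ℂ) ^ s‖ * (C * (1 + ‖s‖) ^ 5 * Real.exp (C * (1 + ‖s‖)) / x) := by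
  obtain ⟨C₁, hC₁, h₁⟩ := gamma_ratio
  obtain ⟨C₂, hC₂, h₂⟩ := gamma_ratio_conj
  refine ⟨3 + 4 * (C₁ + C₂), by positivity, ?_⟩
  intro x hx s hs
  have hx0 : 0 < x := by linarith
  have hn := norm_nonneg s
  have hy : 1 ≤ x / 2 := by linarith
  have ha : ‖s / 2‖ ≤ (x / 2) / 2 := by
    rw [norm_div]; norm_num; linarith
  have ha2 : ‖s / 2‖ ^ 2 = ‖s‖ ^ 2 / 4 := by
    rw [norm_div]; norm_num; ring
  have k1 := h₁ (x / 2) hy (s / 2) ha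
  have k2 := h₂ (x / 2) hy (s / 2) ha
  rw [ha2] at k1 k2
  obtain ⟨T, hT⟩ : ∃ T, T = 2 * (C₁ + C₂) * (1 + ‖s‖) ^ 2 / x := ⟨_, rfl⟩
  have hT0 : 0 ≤ T := by rw [hT]; positivity
  have hTb : ∀ C' : ℝ, 0 < C' → C' ≤ C₁ + C₂ → C' * (1 + ‖s‖ ^ 2 / 4) / (x / 2) ≤ T := by
    intro C' h0 h1
    rw [hT, div_div_eq_mul_div, div_le_div_iff_of_pos_right hx0]
    have h3 : 1 + ‖s‖ ^ 2 / 4 ≤ (1 + ‖s‖) ^ 2 := by nlinarith
    nlinarith [mul_le_mul h1 h3 (by positivity) (by linarith)]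
  have k1' := k1.trans (sub_le_sub_right (Real.exp_le_exp.2 (hTb C₁ hC₁ (by linarith))) 1)
  have k2' := k2.trans (sub_le_sub_right (Real.exp_le_exp.2 (hTb C₂ hC₂ (by linarith))) 1)
  -- the factorisation
  have hy0 : 0 < x / 2 := by linarith
  have hI : ((x / 2 : ℝ) : ℂ) * I ≠ 0 := mul_ne_zero (by exact_mod_cast hy0.ne') I_ne_zero
  have hc1 : (((x / 2 : ℝ) : ℂ) * I) ^ (s / 2) ≠ 0 := by
    rw [Ne, cpow_eq_zero_iff]; tauto
  have hc2 : (-(((x / 2 : ℝ) : ℂ) * I)) ^ (s / 2) ≠ 0 := by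
    rw [Ne, cpow_eq_zero_iff, neg_eq_zero]; tauto
  obtain ⟨R₁, hR₁⟩ : ∃ R, R = Gamma (1 / 4 + (x / 2 : ℝ) * I + s / 2) /
    (Gamma (1 / 4 + (x / 2 : ℝ) * I) * ((x / 2 : ℝ) * I) ^ (s / 2)) := ⟨_, rfl⟩
  obtain ⟨R₂, hR₂⟩ : ∃ R, R = Gamma (1 / 4 - (x / 2 : ℝ) * I + s / 2) /
    (Gamma (1 / 4 - (x / 2 : ℝ) * I) * (-((x / 2 : ℝ) * I)) ^ (s / 2)) := ⟨_, rfl⟩
  rw [← hR₁] at k1'
  rw [← hR₂] at k2'
  have e1 : Gamma (1 / 4 + (x / 2 : ℝ) * I + s / 2) / Gamma (1 / 4 + (x / 2 : ℝ) * I) =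
      R₁ * ((x / 2 : ℝ) * I) ^ (s / 2) := by
    rw [hR₁, div_mul_eq_mul_div, mul_div_mul_right _ _ hc1]
  have e2 : Gamma (1 / 4 - (x / 2 : ℝ) * I + s / 2) / Gamma (1 / 4 - (x / 2 : ℝ) * I) =
      R₂ * (-((x / 2 : ℝ) * I)) ^ (s / 2) := by
    rw [hR₂, div_mul_eq_mul_div, mul_div_mul_right _ _ hc2]
  have e3 : gx x s = ((x / (2 * Real.pi) : ℝ) : ℂ) ^ s * (R₁ * R₂) := by
    rw [gx_eq, e1, e2, pow_eq hx0]
    ring
  have e4 : qx x s * gx x s - ((x / (2 * Real.pi) : ℝ) : ℂ) ^ s =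
      ((x / (2 * Real.pi) : ℝ) : ℂ) ^ s * (qx x s * (R₁ * R₂) - 1) := by
    rw [e3]; ring
  rw [e4, norm_mul]
  apply mul_le_mul_of_nonneg_left _ (norm_nonneg _)
  have hE := Real.exp_pos T
  have p1 := prod_sub_one (qx x s) (R₁ * R₂)
  have p2 := prod_sub_one R₁ R₂
  have p3 : (1 + ‖R₁ - 1‖) * (1 + ‖R₂ - 1‖) ≤ Real.exp T * Real.exp T :=
    mul_le_mul (by linarith) (by linarith) (by positivity) hE.le
  rw [← Real.exp_add] at p3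
  have p4 := (qx_bound (by linarith : (1 : ℝ) ≤ x) s).1
  obtain ⟨α, hα⟩ : ∃ α, α = 3 * (1 + ‖s‖) ^ 4 / x := ⟨_, rfl⟩
  rw [← hα] at p4
  have hα0 : 0 ≤ α := by rw [hα]; positivity
  have p5 : (1 + ‖qx x s - 1‖) * (1 + ‖R₁ * R₂ - 1‖) ≤ (1 + α) * Real.exp (T + T) :=
    mul_le_mul (by linarith) (p2.trans p3) (by positivity) (by linarith)
  have p6 := exp_sub_one_le (T + T)
  have p7 : ‖qx x s * (R₁ * R₂) - 1‖ ≤ (α + (T + T)) * Real.exp (T + T) := by nlinarith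
  -- final
  have hTm : T + T ≤ (3 + 4 * (C₁ + C₂)) * (1 + ‖s‖) := by
    have h3 : (1 + ‖s‖) ^ 2 / x ≤ 1 + ‖s‖ := by
      rw [div_le_iff₀ hx0]
      nlinarith
    have h4 : T = 2 * (C₁ + C₂) * ((1 + ‖s‖) ^ 2 / x) := by rw [hT]; ring
    rw [h4]
    have h5 : 0 < C₁ + C₂ := by positivity
    nlinarith
  have hexp := Real.exp_le_exp.2 hTm
  have hsum : α + (T + T) ≤ (3 + 4 * (C₁ + C₂)) * (1 + ‖s‖) ^ 5 / x := by
    rw [hα, hT, le_div_iff₀ hx0]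
    have h4 : (3 * (1 + ‖s‖) ^ 4 / x + (2 * (C₁ + C₂) * (1 + ‖s‖) ^ 2 / x +
        2 * (C₁ + C₂) * (1 + ‖s‖) ^ 2 / x)) * x =
        3 * (1 + ‖s‖) ^ 4 + 4 * (C₁ + C₂) * (1 + ‖s‖) ^ 2 := by field_simp; ring
    rw [h4]
    have hm : 1 ≤ 1 + ‖s‖ := by linarith
    have h5 : (1 + ‖s‖) ^ 4 ≤ (1 + ‖s‖) ^ 5 := pow_le_pow_right₀ hm (by norm_num)
    have h6 : (1 + ‖s‖) ^ 2 ≤ (1 + ‖s‖) ^ 5 := pow_le_pow_right₀ hm (by norm_num)
    have h7 : 0 < C₁ + C₂ := by positivity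
    nlinarith
  calc ‖qx x s * (R₁ * R₂) - 1‖ ≤ (α + (T + T)) * Real.exp (T + T) := p7
    _ ≤ ((3 + 4 * (C₁ + C₂)) * (1 + ‖s‖) ^ 5 / x) *
        Real.exp ((3 + 4 * (C₁ + C₂)) * (1 + ‖s‖)) :=
        mul_le_mul hsum hexp (Real.exp_pos _).le (by positivity)
    _ = _ := by ring

/-- a crude bound of `gx` -/
theorem gx_crude {c : ℝ} (hc : 0 < c) : ∃ C : ℝ, 0 < C ∧ ∀ x : ℝ, 1 ≤ x → ∀ v : ℝ,
    ‖gx x ((c : ℂ) + v * I)‖ ≤ C * Real.exp (Real.pi * x) := by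
  obtain ⟨d, hd, hlow⟩ := gamma_quarter_lower
  have hG : 0 < Real.Gamma (1 / 4 + c / 2) := Real.Gamma_pos_of_pos (by positivity)
  refine ⟨Real.Gamma (1 / 4 + c / 2) / d * (Real.Gamma (1 / 4 + c / 2) / d), by positivity, ?_⟩
  intro x hx v
  have hx0 : 0 < x := by linarith
  rw [gx_eq, norm_mul, norm_mul]
  have h1 : ‖(Real.pi : ℂ) ^ (-((c : ℂ) + v * I))‖ ≤ 1 := by
    rw [norm_cpow_eq_rpow_re_of_pos Real.pi_pos]
    have : (-((c : ℂ) + v * I)).re = -c := by simp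
    rw [this]
    apply Real.rpow_le_one_of_one_le_of_nonpos _ (by linarith)
    have := Real.pi_gt_three
    linarith
  have hup : ∀ w : ℂ, w.re = 0 → ‖Gamma (1 / 4 + w + ((c : ℂ) + v * I) / 2)‖ ≤
      Real.Gamma (1 / 4 + c / 2) := by
    intro w hw
    have hre : (1 / 4 + w + ((c : ℂ) + v * I) / 2).re = 1 / 4 + c / 2 := by
      simp only [add_re, hw]
      have e1 : ((1 : ℂ) / 4).re = 1 / 4 := by norm_num
      have e2 : (((c : ℂ) + v * I) / 2).re = c / 2 := by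
        have : ((c : ℂ) + v * I) / 2 = ((c / 2 : ℝ) : ℂ) + ((v / 2 : ℝ) : ℂ) * I := by
          push_cast; ring
        rw [this]; simp
      rw [e1, e2]; ring
    have := gamma_upper (s := 1 / 4 + w + ((c : ℂ) + v * I) / 2) (by rw [hre]; positivity)
    rwa [hre] at this
  have hlow1 : d * Real.exp (-(Real.pi * (x / 2))) ≤ ‖Gamma (1 / 4 + (x / 2 : ℝ) * I)‖ := by
    have := hlow (x / 2)
    rwa [abs_of_pos (by positivity : 0 < x / 2)] at this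
  have hlow2 : d * Real.exp (-(Real.pi * (x / 2))) ≤ ‖Gamma (1 / 4 - (x / 2 : ℝ) * I)‖ := by
    have := hlow (-(x / 2))
    rw [abs_neg, abs_of_pos (by positivity : 0 < x / 2)] at this
    rw [show (1 / 4 - (x / 2 : ℝ) * I : ℂ) = 1 / 4 + ((-(x / 2) : ℝ) : ℂ) * I by push_cast; ring]
    exact this
  have hE := Real.exp_pos (-(Real.pi * (x / 2)))
  have hdE : 0 < d * Real.exp (-(Real.pi * (x / 2))) := by positivity
  have hr : ∀ A B : ℂ, ‖A‖ ≤ Real.Gamma (1 / 4 + c / 2) →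
      d * Real.exp (-(Real.pi * (x / 2))) ≤ ‖B‖ →
      ‖A / B‖ ≤ Real.Gamma (1 / 4 + c / 2) / d * Real.exp (Real.pi * (x / 2)) := by
    intro A B hA hB
    rw [norm_div]
    have h2 : ‖A‖ / ‖B‖ ≤ Real.Gamma (1 / 4 + c / 2) / (d * Real.exp (-(Real.pi * (x / 2)))) :=
      div_le_div₀ hG.le hA hdE hB
    refine h2.trans (le_of_eq ?_)
    rw [Real.exp_neg]
    field_simp
  have r1 := hr _ _ (hup ((x / 2 : ℝ) * I) (by simp)) hlow1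
  have r2 := hr _ _ (by
    have := hup (-((x / 2 : ℝ) * I)) (by simp)
    rwa [← sub_eq_add_neg] at this) hlow2
  have hexp : Real.exp (Real.pi * x) = Real.exp (Real.pi * (x / 2)) * Real.exp (Real.pi * (x / 2)) := by
    rw [← Real.exp_add]; congr 1; ring
  calc _ ≤ 1 * (Real.Gamma (1 / 4 + c / 2) / d * Real.exp (Real.pi * (x / 2))) *
        (Real.Gamma (1 / 4 + c / 2) / d * Real.exp (Real.pi * (x / 2))) := by
        gcongr
    _ = _ := by rw [hexp]; ring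

/-- the uniform estimate -/
theorem est {c : ℝ} (hc : 0 < c) (hc1 : c ≤ 1) : ∃ K : ℝ, 0 < K ∧ ∀ x : ℝ, 1 ≤ x → ∀ v : ℝ,
    ‖qx x ((c : ℂ) + v * I) * gx x ((c : ℂ) + v * I) -
      ((x / (2 * Real.pi) : ℝ) : ℂ) ^ ((c : ℂ) + v * I)‖ ≤
      x ^ (c - 1) * (K * (1 + ‖(c : ℂ) + v * I‖) ^ 5 *
        Real.exp (K * (1 + ‖(c : ℂ) + v * I‖))) := by
  obtain ⟨C₁, hC₁, h₁⟩ := case_one
  obtain ⟨C₂, hC₂, h₂⟩ := gx_crude hc
  refine ⟨C₁ + (8 * C₂ + 2) + 2 * Real.pi, by positivity, ?_⟩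
  intro x hx v
  have hx0 : 0 < x := by linarith
  obtain ⟨s, hs⟩ : ∃ s, s = (c : ℂ) + v * I := ⟨_, rfl⟩
  have hpow := norm_pow_le hc hx v
  have hg := h₂ x hx v
  rw [← hs] at hpow hg ⊢
  have hn := norm_nonneg s
  have hm : 1 ≤ 1 + ‖s‖ := by linarith
  have hpi := Real.pi_pos
  have hK : C₁ ≤ C₁ + (8 * C₂ + 2) + 2 * Real.pi := by linarith
  have hxc : x ^ (c - 1) = x ^ c / x := Real.rpow_sub_one hx0.ne' c
  have hxc1 : 1 ≤ x ^ c := Real.one_le_rpow hx hc.le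
  rw [hxc]
  by_cases hcase : 2 ≤ x ∧ ‖s‖ ≤ x / 2
  · refine (h₁ x hcase.1 s hcase.2).trans ?_
    have h3 : C₁ * (1 + ‖s‖) ^ 5 * Real.exp (C₁ * (1 + ‖s‖)) ≤
        (C₁ + (8 * C₂ + 2) + 2 * Real.pi) * (1 + ‖s‖) ^ 5 *
          Real.exp ((C₁ + (8 * C₂ + 2) + 2 * Real.pi) * (1 + ‖s‖)) := by
      gcongr
    calc ‖((x / (2 * Real.pi) : ℝ) : ℂ) ^ s‖ * (C₁ * (1 + ‖s‖) ^ 5 * Real.exp (C₁ * (1 + ‖s‖)) / x)
        ≤ x ^ c * ((C₁ + (8 * C₂ + 2) + 2 * Real.pi) * (1 + ‖s‖) ^ 5 *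
          Real.exp ((C₁ + (8 * C₂ + 2) + 2 * Real.pi) * (1 + ‖s‖)) / x) := by gcongr
      _ = _ := by ring
  · have hxm : x ≤ 2 * (1 + ‖s‖) := by
      rw [not_and_or, not_le, not_le] at hcase
      rcases hcase with h | h <;> linarith
    have hgE : ‖gx x s‖ ≤ C₂ * Real.exp (2 * Real.pi * (1 + ‖s‖)) := by
      refine hg.trans (mul_le_mul_of_nonneg_left (Real.exp_le_exp.2 ?_) hC₂.le)
      nlinarith
    have hq := (qx_bound hx s).2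
    have h4 : ‖qx x s * gx x s - ((x / (2 * Real.pi) : ℝ) : ℂ) ^ s‖ ≤
        4 * (1 + ‖s‖) ^ 4 * (C₂ * Real.exp (2 * Real.pi * (1 + ‖s‖))) + x ^ c := by
      refine (norm_sub_le _ _).trans (add_le_add ?_ hpow)
      rw [norm_mul]
      exact mul_le_mul hq hgE (norm_nonneg _) (by positivity)
    have hE1 : 1 ≤ Real.exp (2 * Real.pi * (1 + ‖s‖)) := Real.one_le_exp (by positivity)
    have hm4 : 1 ≤ (1 + ‖s‖) ^ 4 := one_le_pow₀ hm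
    have h5 : 4 * (1 + ‖s‖) ^ 4 * (C₂ * Real.exp (2 * Real.pi * (1 + ‖s‖))) + x ^ c ≤
        x ^ c * ((4 * C₂ + 1) * (1 + ‖s‖) ^ 4 * Real.exp (2 * Real.pi * (1 + ‖s‖))) := by
      have h6 : 4 * (1 + ‖s‖) ^ 4 * (C₂ * Real.exp (2 * Real.pi * (1 + ‖s‖))) ≤
          x ^ c * (4 * (1 + ‖s‖) ^ 4 * (C₂ * Real.exp (2 * Real.pi * (1 + ‖s‖)))) :=
        le_mul_of_one_le_left (by positivity) hxc1
      have h7 : x ^ c * 1 ≤ x ^ c * ((1 + ‖s‖) ^ 4 * Real.exp (2 * Real.pi * (1 + ‖s‖))) := by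
        gcongr
        nlinarith
      nlinarith
    have h8 : (4 * C₂ + 1) * (1 + ‖s‖) ^ 4 * Real.exp (2 * Real.pi * (1 + ‖s‖)) * x ≤
        (C₁ + (8 * C₂ + 2) + 2 * Real.pi) * (1 + ‖s‖) ^ 5 *
          Real.exp ((C₁ + (8 * C₂ + 2) + 2 * Real.pi) * (1 + ‖s‖)) := by
      have h9 : Real.exp (2 * Real.pi * (1 + ‖s‖)) ≤
          Real.exp ((C₁ + (8 * C₂ + 2) + 2 * Real.pi) * (1 + ‖s‖)) := by
        apply Real.exp_le_exp.2
        apply mul_le_mul_of_nonneg_right _ (by linarith)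
        linarith
      calc (4 * C₂ + 1) * (1 + ‖s‖) ^ 4 * Real.exp (2 * Real.pi * (1 + ‖s‖)) * x
          ≤ (4 * C₂ + 1) * (1 + ‖s‖) ^ 4 * Real.exp (2 * Real.pi * (1 + ‖s‖)) *
            (2 * (1 + ‖s‖)) := by gcongr
        _ = (8 * C₂ + 2) * (1 + ‖s‖) ^ 5 * Real.exp (2 * Real.pi * (1 + ‖s‖)) := by ring
        _ ≤ _ := by
            apply mul_le_mul _ h9 (Real.exp_pos _).le (by positivity)
            apply mul_le_mul_of_nonneg_right _ (by positivity)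
            linarith
    calc ‖qx x s * gx x s - ((x / (2 * Real.pi) : ℝ) : ℂ) ^ s‖
        ≤ x ^ c * ((4 * C₂ + 1) * (1 + ‖s‖) ^ 4 * Real.exp (2 * Real.pi * (1 + ‖s‖))) :=
          h4.trans h5
      _ = x ^ c / x * ((4 * C₂ + 1) * (1 + ‖s‖) ^ 4 * Real.exp (2 * Real.pi * (1 + ‖s‖)) * x) := by
          field_simp
      _ ≤ _ := by gcongr

/-- the Gaussian factor -/
theorem gauss {c : ℝ} (hc : 0 < c) (hc1 : c ≤ 1) (v : ℝ) :
    ‖cexp (((c : ℂ) + v * I) ^ 2) / ((c : ℂ) + v * I)‖ ≤ Real.exp (1 - v ^ 2) / c := by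
  rw [norm_div, norm_exp]
  have h1 : (((c : ℂ) + v * I) ^ 2).re = c ^ 2 - v ^ 2 := by
    simp [sq]
  have h2 : c ≤ ‖(c : ℂ) + v * I‖ := by
    have := abs_re_le_norm ((c : ℂ) + v * I)
    simp only [add_re, ofReal_re, mul_re, I_re, mul_zero, ofReal_im, I_im, mul_one, sub_self,
      add_zero] at this
    exact (le_abs_self c).trans this
  rw [h1]
  have h3 : c ^ 2 ≤ 1 := by nlinarith
  apply div_le_div₀ (Real.exp_pos _).le _ hc h2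
  apply Real.exp_le_exp.2
  linarith

/-- the pointwise bound -/
theorem ptw {c : ℝ} (hc : 0 < c) (hc1 : c ≤ 1) : ∃ K : ℝ, 0 < K ∧ ∀ x : ℝ, 1 ≤ x → ∀ v : ℝ,
    ‖(qx x (c + v * I) * gx x (c + v * I) - ((x / (2 * Real.pi) : ℝ) : ℂ) ^ ((c : ℂ) + v * I)) *
      cexp (((c : ℂ) + v * I) ^ 2) / ((c : ℂ) + v * I)‖ ≤
      K * x ^ (c - 1) * Real.exp (-(1 / 2) * v ^ 2) := by
  obtain ⟨K, hK, hest⟩ := est hc hc1
  refine ⟨K * 120 * Real.exp (2 * (K + 1) + (K + 1) ^ 2 / 2 + 1) / c, by positivity, ?_⟩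
  intro x hx v
  have hx0 : 0 < x := by linarith
  have hxr : 0 < x ^ (c - 1) := Real.rpow_pos_of_pos hx0 _
  rw [mul_div_assoc, norm_mul]
  have h1 := hest x hx v
  have h2 := gauss hc hc1 v
  obtain ⟨m, hm⟩ : ∃ m, m = 1 + ‖(c : ℂ) + v * I‖ := ⟨_, rfl⟩
  rw [← hm] at h1
  have hm0 : 0 ≤ m := by rw [hm]; positivity
  have hmv : m ≤ 2 + |v| := by
    rw [hm]
    have : ‖(c : ℂ) + v * I‖ ≤ c + |v| := by
      refine (norm_add_le _ _).trans (le_of_eq ?_)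
      simp [abs_of_pos hc]
    linarith
  have h3 : m ^ 5 ≤ 120 * Real.exp m := by
    have := Real.pow_div_factorial_le_exp m hm0 5
    rw [div_le_iff₀ (by positivity)] at this
    norm_num [Nat.factorial] at this
    linarith
  have h4 : K * m ^ 5 * Real.exp (K * m) ≤ K * 120 * Real.exp ((K + 1) * (2 + |v|)) := by
    calc K * m ^ 5 * Real.exp (K * m) ≤ K * (120 * Real.exp m) * Real.exp (K * m) := by gcongr
      _ = K * 120 * Real.exp ((K + 1) * m) := by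
          rw [show (K + 1) * m = m + K * m by ring, Real.exp_add]; ring
      _ ≤ _ := by gcongr
  have h5 : (K + 1) * (2 + |v|) + (1 - v ^ 2) ≤
      (2 * (K + 1) + (K + 1) ^ 2 / 2 + 1) + (-(1 / 2) * v ^ 2) := by
    have : (K + 1) * |v| ≤ (K + 1) ^ 2 / 2 + v ^ 2 / 2 := by
      have := sq_nonneg ((K + 1) - |v|)
      rw [← sq_abs v]
      nlinarith
    linarith
  calc _ ≤ (x ^ (c - 1) * (K * m ^ 5 * Real.exp (K * m))) * (Real.exp (1 - v ^ 2) / c) :=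
        mul_le_mul h1 h2 (norm_nonneg _) (by positivity)
    _ ≤ (x ^ (c - 1) * (K * 120 * Real.exp ((K + 1) * (2 + |v|)))) *
        (Real.exp (1 - v ^ 2) / c) := by gcongr
    _ = x ^ (c - 1) * K * 120 / c * Real.exp ((K + 1) * (2 + |v|) + (1 - v ^ 2)) := by
        rw [Real.exp_add]; ring
    _ ≤ x ^ (c - 1) * K * 120 / c * Real.exp ((2 * (K + 1) + (K + 1) ^ 2 / 2 + 1) +
        (-(1 / 2) * v ^ 2)) := by gcongr
    _ = _ := by rw [Real.exp_add]; ring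

end KernelAux

open KernelAux

theorem kernel_bound {c : ℝ} (hc : 0 < c) (hc1 : c ≤ 1) : ∃ C : ℝ, 0 < C ∧ ∀ x : ℝ, 1 ≤ x →
    ∫⁻ v : ℝ, ‖(qx x (c + v * I) * gx x (c + v * I) - ((x / (2 * Real.pi) : ℝ) : ℂ) ^ ((c : ℂ) + v * I)) *
      cexp (((c : ℂ) + v * I) ^ 2) / ((c : ℂ) + v * I)‖ₑ ≤ ENNReal.ofReal (C * x ^ (c - 1)) := by
  obtain ⟨K, hK, hpt⟩ := ptw hc hc1
  have hint : Integrable (fun v : ℝ => Real.exp (-(1 / 2) * v ^ 2)) :=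
    integrable_exp_neg_mul_sq (by norm_num)
  have hI0 : 0 ≤ ∫ v : ℝ, Real.exp (-(1 / 2) * v ^ 2) :=
    integral_nonneg fun v => (Real.exp_pos _).le
  refine ⟨K * (∫ v : ℝ, Real.exp (-(1 / 2) * v ^ 2)) + 1, by positivity, ?_⟩
  intro x hx
  have hx0 : 0 < x := by linarith
  have hxr : 0 < x ^ (c - 1) := Real.rpow_pos_of_pos hx0 _
  calc _ ≤ ∫⁻ v : ℝ, ENNReal.ofReal (K * x ^ (c - 1) * Real.exp (-(1 / 2) * v ^ 2)) := by
        apply lintegral_mono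
        intro v
        beta_reduce
        rw [← ofReal_norm]
        exact ENNReal.ofReal_le_ofReal (hpt x hx v)
    _ = ENNReal.ofReal (∫ v : ℝ, K * x ^ (c - 1) * Real.exp (-(1 / 2) * v ^ 2)) := by
        rw [ofReal_integral_eq_lintegral_ofReal (hint.const_mul _)]
        exact Filter.Eventually.of_forall fun v => by positivity
    _ ≤ _ := by
        apply ENNReal.ofReal_le_ofReal
        rw [integral_const_mul]
        nlinarith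

theorem kernel_continuous {c : ℝ} (hc : 0 < c) (x : ℝ) :
    Continuous (fun v : ℝ => qx x (c + v * I) * gx x (c + v * I) *
      cexp (((c : ℂ) + v * I) ^ 2) / ((c : ℂ) + v * I)) := by
  have hG : ∀ w : ℂ, w.re = 0 → Continuous fun v : ℝ => Gammaℝ (1 / 2 + ((c : ℂ) + v * I) + w) := by
    intro w hw
    have h1 : Continuous fun v : ℝ => (Gammaℝ (1 / 2 + ((c : ℂ) + v * I) + w))⁻¹ :=
      differentiable_Gammaℝ_inv.continuous.comp (by fun_prop)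
    have h2 : ∀ v : ℝ, (Gammaℝ (1 / 2 + ((c : ℂ) + v * I) + w))⁻¹ ≠ 0 := by
      intro v
      apply inv_ne_zero
      apply Gammaℝ_ne_zero_of_re_pos
      have : (1 / 2 + ((c : ℂ) + v * I) + w).re = 1 / 2 + c := by
        simp [hw]
      rw [this]
      positivity
    have h3 := h1.inv₀ h2
    refine h3.congr fun v => ?_
    simp
  have h1 := hG (x * I) (by simp)
  have h2 := hG (-(x * I)) (by simp)
  have hne : ∀ v : ℝ, (c : ℂ) + v * I ≠ 0 := by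
    intro v h
    have := congrArg Complex.re h
    simp at this
    exact hc.ne' this
  refine Continuous.div ?_ (by fun_prop) hne
  refine Continuous.mul (Continuous.mul ?_ ?_) (by fun_prop)
  · unfold qx
    fun_prop
  · unfold gx
    simp only [sub_eq_add_neg]
    exact (h1.mul h2).div_const _

theorem kernel_integrable {c : ℝ} (hc : 0 < c) (hc1 : c ≤ 1) (x : ℝ) (hx : 1 ≤ x) :
    Integrable (fun v : ℝ => qx x (c + v * I) * gx x (c + v * I) *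
      cexp (((c : ℂ) + v * I) ^ 2) / ((c : ℂ) + v * I)) := by
  obtain ⟨K, hK, hpt⟩ := ptw hc hc1
  have hx0 : 0 < x := by linarith
  have hxr : 0 < x ^ c := Real.rpow_pos_of_pos hx0 _
  have hint : Integrable (fun v : ℝ => Real.exp (-(1 / 2) * v ^ 2)) :=
    integrable_exp_neg_mul_sq (by norm_num)
  refine Integrable.mono' (hint.const_mul (K * x ^ (c - 1) + x ^ c * (Real.exp 1 / c)))
    (kernel_continuous hc x).aestronglyMeasurable (Filter.Eventually.of_forall fun v => ?_)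
  have h1 := hpt x hx v
  have h2 := norm_pow_le hc hx v
  have h3 := gauss hc hc1 v
  have h4 : qx x (c + v * I) * gx x (c + v * I) * cexp (((c : ℂ) + v * I) ^ 2) /
      ((c : ℂ) + v * I) = (qx x (c + v * I) * gx x (c + v * I) -
        ((x / (2 * Real.pi) : ℝ) : ℂ) ^ ((c : ℂ) + v * I)) *
      cexp (((c : ℂ) + v * I) ^ 2) / ((c : ℂ) + v * I) +
      ((x / (2 * Real.pi) : ℝ) : ℂ) ^ ((c : ℂ) + v * I) *
        (cexp (((c : ℂ) + v * I) ^ 2) / ((c : ℂ) + v * I)) := by ring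
  rw [h4]
  refine (norm_add_le _ _).trans ?_
  rw [add_mul]
  refine add_le_add h1 ?_
  rw [norm_mul]
  have h5 : Real.exp (1 - v ^ 2) / c ≤ Real.exp 1 / c * Real.exp (-(1 / 2) * v ^ 2) := by
    rw [div_mul_eq_mul_div, ← Real.exp_add]
    apply div_le_div_of_nonneg_right _ hc.le
    apply Real.exp_le_exp.2
    nlinarith [sq_nonneg v]
  calc _ ≤ x ^ c * (Real.exp 1 / c * Real.exp (-(1 / 2) * v ^ 2)) :=
        mul_le_mul h2 (h3.trans h5) (norm_nonneg _) hxr.le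
    _ = _ := by ring

end Pool.Agent.P07318s
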