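import Mathlib

/-!
Products of absolutely convergent series indexed by `Fin k → ι`. Induction on `k` with
`Fin.consEquiv` / `Fin.insertNthEquiv`, `Summable.mul_norm`, `tsum_mul_tsum_of_summable_norm`,
`ENNReal.tsum_prod`, `ENNReal.tsum_mul_left`.
-/

set_option autoImplicit false

namespace Pool.Agent.P07318s

open MeasureTheory Complex

theorem summable_pi_prod_real {ι : Type*} {k : ℕ} (f : Fin k → ι → ℝ) (hf : ∀ j, Summable (f j))
    (h0 : ∀ j i, 0 ≤ f j i) : Summable (fun q : Fin k → ι => ∏ j, f j (q j)) := by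
  induction k with
  | zero => exact (hasSum_fintype _).summable
  | succ k ih =>
    rw [← (Fin.consEquiv (fun _ => ι)).summable_iff]
    have h1 := ih (fun j => f j.succ) (fun j => hf j.succ) (fun j i => h0 j.succ i)
    have h2 := (hf 0).mul_of_nonneg h1 (fun i => h0 0 i)
      (fun q => Finset.prod_nonneg fun j _ => h0 j.succ (q j))
    refine h2.congr fun x => ?_
    simp only [Function.comp_apply, Fin.consEquiv_apply, Fin.prod_univ_succ, Fin.cons_zero, Fin.cons_succ]

theorem summable_pi_prod {ι : Type*} {k : ℕ} (f : Fin k → ι → ℂ) (hf : ∀ j, Summable fun i => ‖f j i‖) :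
    Summable (fun q : Fin k → ι => ‖∏ j, f j (q j)‖) := by
  have h := summable_pi_prod_real (fun j i => ‖f j i‖) hf (fun j i => norm_nonneg _)
  refine h.congr fun q => ?_
  rw [norm_prod]

theorem mulAux {α β : Type*} (f : α → ℂ) (g : β → ℂ) {a b : ℂ} (hf : Summable fun i => ‖f i‖)
    (hg : Summable fun i => ‖g i‖) (ha : HasSum f a) (hb : HasSum g b) :
    HasSum (fun x : α × β => f x.1 * g x.2) (a * b) :=
  ha.mul hb (summable_mul_of_summable_norm hf hg)

theorem hasSum_pi_prod {ι : Type*} {k : ℕ} (f : Fin k → ι → ℂ) (hf : ∀ j, Summable fun i => ‖f j i‖) :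
    HasSum (fun q : Fin k → ι => ∏ j, f j (q j)) (∏ j, ∑' i, f j i) := by
  induction k with
  | zero =>
    have h := hasSum_fintype (fun q : Fin 0 → ι => ∏ j, f j (q j))
    simp at h ⊢
  | succ k ih =>
    rw [← (Fin.consEquiv (fun _ => ι)).hasSum_iff]
    have h1 := ih (fun j => f j.succ) (fun j => hf j.succ)
    have h3 : Summable (fun q : Fin k → ι => ‖∏ j, f j.succ (q j)‖) :=
      summable_pi_prod (fun j => f j.succ) (fun j => hf j.succ)
    have h5 : HasSum (f 0) (∑' i, f 0 i) := (hf 0).of_norm.hasSum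
    have h6 : Summable (fun i => ‖f 0 i‖) := hf 0
    have h2 : HasSum (fun x : ι × (Fin k → ι) => f 0 x.1 * ∏ j : Fin k, f j.succ (x.2 j))
        ((∑' i, f 0 i) * ∏ j : Fin k, ∑' i, f j.succ i) := by
      refine mulAux (f 0) (fun q : Fin k → ι => ∏ j : Fin k, f j.succ (q j)) h6 ?_ h5 ?_
      · exact h3
      · exact h1
    rw [Fin.prod_univ_succ]
    have e : ((fun q : Fin (k + 1) → ι => ∏ j, f j (q j)) ∘ (Fin.consEquiv (fun _ => ι))) =
        fun x : ι × (Fin k → ι) => f 0 x.1 * ∏ j, f j.succ (x.2 j) := by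
      funext x
      simp only [Function.comp_apply, Fin.consEquiv_apply, Fin.prod_univ_succ, Fin.cons_zero, Fin.cons_succ]
    rw [e]
    exact h2

theorem tsum_pi_prod_ennreal {ι : Type*} {k : ℕ} (f : Fin k → ι → ENNReal) :
    ∑' q : Fin k → ι, ∏ j, f j (q j) = ∏ j, ∑' i, f j i := by
  induction k with
  | zero =>
    rw [tsum_fintype]
    simp
  | succ k ih =>
    rw [← (Fin.consEquiv (fun _ => ι)).tsum_eq]
    have e : ∀ x : ι × (Fin k → ι), ∏ j, f j ((Fin.consEquiv (fun _ => ι)) x j) =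
        f 0 x.1 * ∏ j : Fin k, f j.succ (x.2 j) := by
      intro x
      simp only [Fin.consEquiv_apply, Fin.prod_univ_succ, Fin.cons_zero, Fin.cons_succ]
    rw [tsum_congr e, ENNReal.tsum_prod' (f := fun x : ι × (Fin k → ι) => f 0 x.1 * ∏ j : Fin k, f j.succ (x.2 j))]
    simp only [ENNReal.tsum_mul_left, ENNReal.tsum_mul_right]
    rw [ih (fun j => f j.succ), Fin.prod_univ_succ]

end Pool.Agent.P07318s
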