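import Pool.Agent.Lib.P07318s.Defs
import Pool.Agent.Lib.P07318s.PiSum
import Pool.Agent.Lib.P07318s.WMellin

/-!
Grouping the pairs `(m, n)` by the reduced fraction `m/n`: `(m, n) = g (a, b)`, `g = gcd`, `(a, b) ∈ Q`.
The map `Q × ℕ+ ≃ ℕ+ × ℕ+`, `((a, b), g) ↦ (g a, g b)` is a bijection with `hgt = g² hgt q`, `lgr = lgr q`,
`ex x = ex x q`. Summability of `cf x p ≤ C x hgt^(-3/2)` (`W_le_rpow` with exponent 1;
`hgt p^(-3/2) = m^(-3/2) n^(-3/2)`). Then `tsum` over a product (`Summable.tsum_prod`,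
`Equiv.tsum_eq`). For `Dg`: the bijection on `Fin k → ...` (`Equiv.piCongrRight` and
`(Fin k → Q × ℕ+) ≃ (Fin k → Q) × (Fin k → ℕ+)` = `Equiv.arrowProdEquivProdArrow`), summability by `PiSum`.
-/

set_option autoImplicit false

namespace Pool.Agent.P07318s

open MeasureTheory Complex

theorem cf_nonneg {x : ℝ} (p : ℕ+ × ℕ+) : 0 ≤ cf x p :=
  mul_nonneg (Real.rpow_nonneg (hgt_pos p).le _) (W_nonneg _)

namespace Regroup

/-- the map `(q, g) ↦ g q` -/
def gm (z : Q × ℕ+) : ℕ+ × ℕ+ := (z.2 * z.1.1.1, z.2 * z.1.1.2)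

lemma gm_bij : Function.Bijective gm := by
  constructor
  · rintro ⟨⟨⟨a, b⟩, hab⟩, g⟩ ⟨⟨⟨a', b'⟩, hab'⟩, g'⟩ h
    simp only [gm, Prod.mk.injEq] at h
    obtain ⟨h1, h2⟩ := h
    have e1 : (g : ℕ) * a = g' * a' := by exact_mod_cast congrArg (fun z : ℕ+ => (z : ℕ)) h1
    have e2 : (g : ℕ) * b = g' * b' := by exact_mod_cast congrArg (fun z : ℕ+ => (z : ℕ)) h2
    have hg : (g : ℕ) = g' := by
      have h3 : Nat.gcd ((g : ℕ) * a) ((g : ℕ) * b) = g := by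
        rw [Nat.gcd_mul_left]
        have : Nat.gcd (a : ℕ) b = 1 := hab
        rw [this, mul_one]
      have h4 : Nat.gcd ((g' : ℕ) * a') ((g' : ℕ) * b') = g' := by
        rw [Nat.gcd_mul_left]
        have : Nat.gcd (a' : ℕ) b' = 1 := hab'
        rw [this, mul_one]
      rw [← h3, ← h4, e1, e2]
    have hg' : g = g' := PNat.eq hg
    subst hg'
    have ha : a = a' := mul_left_cancel h1
    have hb : b = b' := mul_left_cancel h2
    subst ha
    subst hb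
    rfl
  · rintro ⟨m, n⟩
    have hd : 0 < Nat.gcd (m : ℕ) n := Nat.gcd_pos_of_pos_left _ m.pos
    have hm : Nat.gcd (m : ℕ) n ∣ m := Nat.gcd_dvd_left _ _
    have hn : Nat.gcd (m : ℕ) n ∣ n := Nat.gcd_dvd_right _ _
    have hm0 : 0 < (m : ℕ) / Nat.gcd (m : ℕ) n := Nat.div_pos (Nat.le_of_dvd m.pos hm) hd
    have hn0 : 0 < (n : ℕ) / Nat.gcd (m : ℕ) n := Nat.div_pos (Nat.le_of_dvd n.pos hn) hd
    refine ⟨(⟨(⟨_, hm0⟩, ⟨_, hn0⟩), ?_⟩, ⟨_, hd⟩), ?_⟩
    · exact Nat.coprime_div_gcd_div_gcd hd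
    · simp only [gm, Prod.mk.injEq]
      constructor
      · apply PNat.eq
        exact Nat.mul_div_cancel' hm
      · apply PNat.eq
        exact Nat.mul_div_cancel' hn

/-- the equivalence `(q, g) ↦ g q` -/
noncomputable def ge : Q × ℕ+ ≃ ℕ+ × ℕ+ := Equiv.ofBijective gm gm_bij

lemma ge_apply (z : Q × ℕ+) : ge z = gm z := rfl

lemma gpos (g : ℕ+) : (0 : ℝ) < ((g : ℕ) : ℝ) := by exact_mod_cast g.pos

lemma gone (g : ℕ+) : (1 : ℝ) ≤ ((g : ℕ) : ℝ) := by exact_mod_cast g.pos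

lemma hgt_gm (z : Q × ℕ+) : hgt (gm z) = ((z.2 : ℕ) : ℝ) ^ 2 * hgt z.1.1 := by
  simp only [hgt, gm, PNat.mul_coe]
  push_cast
  ring

lemma lgr_gm (z : Q × ℕ+) : lgr (gm z) = lgr z.1.1 := by
  simp only [lgr, gm, PNat.mul_coe]
  push_cast
  rw [Real.log_mul (gpos _).ne' (gpos _).ne', Real.log_mul (gpos _).ne' (gpos _).ne']
  ring

lemma ex_gm (x : ℝ) (z : Q × ℕ+) : ex x (gm z) = ex x z.1.1 := by
  unfold ex
  rw [lgr_gm]

lemma cf_gm (x : ℝ) (z : Q × ℕ+) : cf x (gm z) = (hgt z.1.1) ^ (-(1 / 2) : ℝ) *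
    (W (2 * Real.pi * ((z.2 : ℕ) : ℝ) ^ 2 * hgt z.1.1 / x) / ((z.2 : ℕ) : ℝ)) := by
  unfold cf
  rw [hgt_gm, Real.mul_rpow (by positivity) (hgt_pos _).le]
  have h1 : (((z.2 : ℕ) : ℝ) ^ 2) ^ (-(1 / 2) : ℝ) = (((z.2 : ℕ) : ℝ))⁻¹ := by
    rw [Real.rpow_neg (by positivity), ← Real.sqrt_eq_rpow, Real.sqrt_sq (gpos _).le]
  rw [h1]
  have h2 : 2 * Real.pi * (((z.2 : ℕ) : ℝ) ^ 2 * hgt z.1.1) / x =
      2 * Real.pi * ((z.2 : ℕ) : ℝ) ^ 2 * hgt z.1.1 / x := by ring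
  rw [h2]
  ring

lemma summable_three_halves : Summable (fun g : ℕ+ => ((g : ℕ) : ℝ) ^ (-(3 / 2) : ℝ)) := by
  have h : Summable (fun g : ℕ => (g : ℝ) ^ (-(3 / 2) : ℝ)) :=
    Real.summable_nat_rpow.2 (by norm_num)
  exact h.comp_injective PNat.coe_injective

end Regroup

open Regroup

theorem cf_summable {x : ℝ} (hx : 0 < x) : Summable (fun p => cf x p) := by
  obtain ⟨C, hC, hW⟩ := W_le_rpow 1 one_pos
  have hs : Summable (fun p : ℕ+ × ℕ+ =>
      (((p.1 : ℕ) : ℝ) ^ (-(3 / 2) : ℝ)) * (((p.2 : ℕ) : ℝ) ^ (-(3 / 2) : ℝ))) :=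
    Summable.mul_of_nonneg summable_three_halves summable_three_halves
      (fun g => Real.rpow_nonneg (gpos g).le _) (fun g => Real.rpow_nonneg (gpos g).le _)
  refine Summable.of_nonneg_of_le (fun p => cf_nonneg p) (fun p => ?_) (hs.mul_left (C * x / (2 * Real.pi)))
  have hp := hgt_pos p
  have hpi := Real.pi_pos
  have hy : 0 < 2 * Real.pi * hgt p / x := by positivity
  calc cf x p = (hgt p) ^ (-(1 / 2) : ℝ) * W (2 * Real.pi * hgt p / x) := rfl
    _ ≤ (hgt p) ^ (-(1 / 2) : ℝ) * (C * (2 * Real.pi * hgt p / x) ^ (-1 : ℝ)) := by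
        have := hW _ hy
        exact mul_le_mul_of_nonneg_left this (Real.rpow_nonneg hp.le _)
    _ = C * x / (2 * Real.pi) * (hgt p) ^ (-(3 / 2) : ℝ) := by
        have e : (hgt p) ^ (-(3 / 2) : ℝ) = (hgt p) ^ (-(1 / 2) : ℝ) * (hgt p)⁻¹ := by
          rw [← Real.rpow_neg_one, ← Real.rpow_add hp]
          norm_num
        rw [e, Real.rpow_neg_one]
        field_simp
    _ = _ := by
        unfold hgt
        rw [Real.mul_rpow (gpos _).le (gpos _).le]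

theorem Om_summable {x h : ℝ} (hx : 0 < x) (hh : 1 ≤ h) :
    Summable (fun g : ℕ+ => W (2 * Real.pi * ((g : ℕ) : ℝ) ^ 2 * h / x) / ((g : ℕ) : ℝ)) := by
  obtain ⟨C, hC, hW⟩ := W_le_rpow 1 one_pos
  have hs : Summable (fun g : ℕ+ => (((g : ℕ) : ℝ) ^ 3)⁻¹) := by
    have h : Summable (fun g : ℕ => ((g : ℝ) ^ 3)⁻¹) := Real.summable_nat_pow_inv.2 (by norm_num)
    exact h.comp_injective PNat.coe_injective
  refine Summable.of_nonneg_of_le (fun g => div_nonneg (W_nonneg _) (gpos g).le) (fun g => ?_)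
    (hs.mul_left (C * x / (2 * Real.pi * h)))
  have hg := gpos g
  have hpi := Real.pi_pos
  have hh0 : 0 < h := by linarith
  have hy : 0 < 2 * Real.pi * ((g : ℕ) : ℝ) ^ 2 * h / x := by positivity
  have h1 := hW _ hy
  rw [Real.rpow_neg_one] at h1
  calc W (2 * Real.pi * ((g : ℕ) : ℝ) ^ 2 * h / x) / ((g : ℕ) : ℝ)
      ≤ (C * (2 * Real.pi * ((g : ℕ) : ℝ) ^ 2 * h / x)⁻¹) / ((g : ℕ) : ℝ) :=
        div_le_div_of_nonneg_right h1 hg.le
    _ = _ := by field_simp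

theorem Om_nonneg (h x : ℝ) : 0 ≤ Om h x :=
  tsum_nonneg fun g => div_nonneg (W_nonneg _) (gpos g).le

namespace Regroup

lemma tsum_g {x : ℝ} (q : Q) :
    ∑' g : ℕ+, cf x (gm (q, g)) = (hgt q.1) ^ (-(1 / 2) : ℝ) * Om (hgt q.1) x := by
  unfold Om
  rw [← tsum_mul_left]
  exact tsum_congr fun g => cf_gm x (q, g)

lemma summable_z {x : ℝ} (hx : 0 < x) : Summable (fun z : Q × ℕ+ => cf x (gm z)) := by
  have := (ge.summable_iff (f := fun p => cf x p)).2 (cf_summable hx)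
  exact this

end Regroup

theorem cfQ_summable {x : ℝ} (hx : 0 < x) :
    Summable (fun q : Q => (hgt q.1) ^ (-(1 / 2) : ℝ) * Om (hgt q.1) x) := by
  have h := (summable_z hx).prod
  refine h.congr fun q => ?_
  exact tsum_g q

namespace Regroup

lemma norm_cfex {x y : ℝ} (p p' : ℕ+ × ℕ+) : ‖(cf x p : ℂ) * ex y p'‖ = cf x p := by
  rw [norm_mul, norm_ex, mul_one, Complex.norm_real, Real.norm_of_nonneg (cf_nonneg p)]

lemma tsum_g_c {x : ℝ} (q : Q) :
    ∑' g : ℕ+, (cf x (gm (q, g)) : ℂ) * ex x q.1 =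
      (((hgt q.1) ^ (-(1 / 2) : ℝ) * Om (hgt q.1) x : ℝ) : ℂ) * ex x q.1 := by
  rw [tsum_mul_right, ← tsum_g q, Complex.ofReal_tsum]

end Regroup

theorem Fd_eq {x : ℝ} (hx : 0 < x) :
    Fd x = ∑' q : Q, (((hgt q.1) ^ (-(1 / 2) : ℝ) * Om (hgt q.1) x : ℝ) : ℂ) * ex x q.1 := by
  unfold Fd
  rw [← ge.tsum_eq (fun p => (cf x p : ℂ) * ex x p)]
  have h1 : ∀ z : Q × ℕ+, (cf x (ge z) : ℂ) * ex x (ge z) = (cf x (gm z) : ℂ) * ex x z.1.1 := by
    intro z
    rw [ge_apply, ex_gm]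
  simp_rw [h1]
  have hs : Summable (fun z : Q × ℕ+ => (cf x (gm z) : ℂ) * ex x z.1.1) := by
    apply Summable.of_norm
    refine (summable_z hx).congr fun z => ?_
    rw [norm_cfex]
  rw [hs.tsum_prod]
  exact tsum_congr fun q => tsum_g_c q

theorem Dg_eq {k : ℕ} (x : Fin k → ℝ) (hx : ∀ j, 0 < x j) :
    Dg x = ∑' q : Fin k → Q, if lam (fun j => (q j).1) = 0 then
      ∏ j, ((((hgt (q j).1) ^ (-(1 / 2) : ℝ) * Om (hgt (q j).1) (x j) : ℝ) : ℂ) * ex (x j) (q j).1) else 0 := by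
  classical
  unfold Dg
  let E : (Fin k → Q) × (Fin k → ℕ+) ≃ (Fin k → ℕ+ × ℕ+) :=
    (Equiv.arrowProdEquivProdArrow (Fin k) (fun _ => Q) (fun _ => ℕ+)).symm.trans (Equiv.piCongrRight fun _ => ge)
  have hE : ∀ (z : (Fin k → Q) × (Fin k → ℕ+)) (j : Fin k), E z j = gm (z.1 j, z.2 j) := fun z j => rfl
  have hlam : ∀ z, lam (E z) = lam (fun j => (z.1 j).1) := by
    intro z
    unfold lam
    refine Finset.sum_congr rfl fun j _ => ?_
    rw [hE, lgr_gm]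
  set F : (Fin k → ℕ+ × ℕ+) → ℂ := fun p =>
    if lam p = 0 then ∏ j, ((cf (x j) (p j) : ℂ) * ex (x j) (p j)) else 0 with hF
  have hFs : Summable F := by
    have h1 := summable_pi_prod (fun (j : Fin k) (p : ℕ+ × ℕ+) => (cf (x j) p : ℂ) * ex (x j) p)
      (fun j => (cf_summable (hx j)).congr fun p => (norm_cfex p p).symm)
    refine Summable.of_norm_bounded h1 fun p => ?_
    rw [hF]
    simp only
    split_ifs
    · exact le_rfl
    · rw [norm_zero]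
      exact norm_nonneg _
  have hgoal : ∑' p : Fin k → ℕ+ × ℕ+, F p = ∑' q : Fin k → Q, if lam (fun j => (q j).1) = 0 then
      ∏ j, ((((hgt (q j).1) ^ (-(1 / 2) : ℝ) * Om (hgt (q j).1) (x j) : ℝ) : ℂ) * ex (x j) (q j).1)
        else 0 := by
    rw [← E.tsum_eq F]
    have hs : Summable (fun z => F (E z)) := (E.summable_iff (f := F)).2 hFs
    rw [hs.tsum_prod]
    refine tsum_congr fun q => ?_
    by_cases h0 : lam (fun j => (q j).1) = 0
    · rw [if_pos h0]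
      have h2 : ∀ g : Fin k → ℕ+, F (E (q, g)) =
          ∏ j, ((cf (x j) (gm (q j, g j)) : ℂ) * ex (x j) (q j).1) := by
        intro g
        rw [hF]
        simp only
        rw [if_pos (by rw [hlam]; exact h0)]
        refine Finset.prod_congr rfl fun j _ => ?_
        rw [hE]
        simp only
        rw [ex_gm]
      simp_rw [h2]
      have h3 := hasSum_pi_prod (fun (j : Fin k) (g : ℕ+) =>
        (cf (x j) (gm (q j, g)) : ℂ) * ex (x j) (q j).1) (fun j => by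
          have h4 := (summable_z (hx j)).prod_factor (q j)
          refine h4.congr fun g => ?_
          rw [norm_cfex])
      rw [h3.tsum_eq]
      refine Finset.prod_congr rfl fun j _ => ?_
      exact tsum_g_c (q j)
    · rw [if_neg h0]
      have h2 : ∀ g : Fin k → ℕ+, F (E (q, g)) = 0 := by
        intro g
        rw [hF]
        simp only
        rw [if_neg (by rw [hlam]; exact h0)]
      simp_rw [h2]
      exact tsum_zero
  rw [← hgoal]

end Pool.Agent.P07318s
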