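import Pool.Agent.Lib.P07318s.Defs
import Pool.Agent.Lib.P07318s.Crude
import Pool.Agent.Lib.P07318s.Kernel
import Pool.Agent.Lib.P4f18dfV.Shift

/-!
The exact formula behind the approximate functional equation.

Let `Φ(s) = xi0(1/2+s+ix) xi0(1/2+s-ix)` (entire, and even in `s` by `xi0_one_sub`).  By
`P4f18dfV.shift_pole` (lines `Re s = c` and `Re s = -c`, kernel `exp(s²)`) and the parity
`∫ Φ(s) exp(s²)/s dv = π Φ(0)` on `Re s = c`.
Finally `xi0 z = z (1 - z) Gammaℝ z ζ z`, so after division by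
`Gammaℝ(1/2+ix) Gammaℝ(1/2-ix) (1/4+x²)²` one gets `qx x s * gx x s * ζ(1/2+s+ix) ζ(1/2+s-ix)`, and at `s = 0` the
value is `ζ(1/2+ix) ζ(1/2-ix) = ‖ζ(1/2+ix)‖²`.
-/

set_option autoImplicit false

namespace Pool.Agent.P07318s

open MeasureTheory Complex

theorem zeta_conj (s : ℂ) : riemannZeta ((starRingEnd ℂ) s) = (starRingEnd ℂ) (riemannZeta s) :=
  riemannZeta_conj s

namespace ShiftAux

lemma gk_eq (s : ℂ) : P4f18dfV.gk 0 (Real.sqrt 2) 0 s = cexp (s ^ 2) := by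
  unfold P4f18dfV.gk
  congr 1
  rw [Real.sq_sqrt (by norm_num)]
  push_cast
  ring

/-- even entire functions of moderate growth -/
lemma even_formula {F : ℂ → ℂ} (hF : Differentiable ℂ F) (heven : ∀ s, F (-s) = F s) {c K : ℝ}
    (hc : 0 < c) (hK : ∀ s : ℂ, 0 ≤ s.re → s.re ≤ c → ‖F s‖ ≤ K * Real.exp (K * |s.im|)) :
    ∫ v : ℝ, F (c + v * I) * cexp (((c : ℂ) + v * I) ^ 2) / ((c : ℂ) + v * I) =
      Real.pi * F 0 := by
  have hK' : ∀ s : ℂ, -c ≤ s.re → s.re ≤ c → ‖F s‖ ≤ K * Real.exp (K * |s.im|) := by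
    intro s h1 h2
    rcases le_total 0 s.re with h | h
    · exact hK s h h2
    · have h3 := hK (-s) (by rw [Complex.neg_re]; linarith) (by rw [Complex.neg_re]; linarith)
      rwa [heven, Complex.neg_im, abs_neg] at h3
  have hs2 : 0 < Real.sqrt 2 := Real.sqrt_pos.mpr (by norm_num)
  have h := P4f18dfV.shift_pole hF hK' hs2 0 0 (by simpa using hc) (by simpa using hc)
  simp only [gk_eq, sub_zero] at h
  have hneg : (∫ t : ℝ, F (((-c : ℝ) : ℂ) + t * I) * cexp ((((-c : ℝ) : ℂ) + t * I) ^ 2) /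
      (((-c : ℝ) : ℂ) + t * I)) =
      - ∫ v : ℝ, F (c + v * I) * cexp (((c : ℂ) + v * I) ^ 2) / ((c : ℂ) + v * I) := by
    rw [← integral_neg_eq_self, ← integral_neg]
    congr 1
    funext v
    have e : ((-c : ℝ) : ℂ) + ((-v : ℝ) : ℂ) * I = -((c : ℂ) + v * I) := by
      push_cast
      ring
    rw [e, heven, neg_sq, div_neg]
  rw [hneg] at h
  linear_combination (1 / 2 : ℂ) * h

/-- the product of two values of the entire function -/
noncomputable def Ph (x : ℝ) (s : ℂ) : ℂ := xi0 (1 / 2 + s + x * I) * xi0 (1 / 2 + s - x * I)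

lemma Ph_diff (x : ℝ) : Differentiable ℂ (Ph x) := by
  unfold Ph
  have h1 : Differentiable ℂ (fun s : ℂ => 1 / 2 + s + x * I) := by fun_prop
  have h2 : Differentiable ℂ (fun s : ℂ => 1 / 2 + s - x * I) := by fun_prop
  exact (xi0_diff.comp h1).mul (xi0_diff.comp h2)

lemma Ph_even (x : ℝ) (s : ℂ) : Ph x (-s) = Ph x s := by
  unfold Ph
  rw [← xi0_one_sub (1 / 2 + -s + x * I), ← xi0_one_sub (1 / 2 + -s - x * I), mul_comm]
  congr 2 <;> ring

lemma Ph_bound {x c : ℝ} (hx : 0 ≤ x) (hc1 : c ≤ 1) :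
    ∃ K : ℝ, ∀ s : ℂ, 0 ≤ s.re → s.re ≤ c → ‖Ph x s‖ ≤ K * Real.exp (K * |s.im|) := by
  obtain ⟨C, hC, hb⟩ := xi0_bound
  refine ⟨8 + (C * (3 + x) ^ 4) ^ 2, ?_⟩
  intro s h0 h1
  set K : ℝ := 8 + (C * (3 + x) ^ 4) ^ 2 with hK
  have hsq : 0 ≤ (C * (3 + x) ^ 4) ^ 2 := sq_nonneg _
  have hone : ∀ ε : ℝ, |ε| = 1 → ‖xi0 (1 / 2 + s + (ε * x : ℝ) * I)‖ ≤
      C * (3 + x) ^ 4 * (1 + |s.im|) ^ 4 := by
    intro ε hε
    have hre : (1 / 2 + s + (ε * x : ℝ) * I).re = 1 / 2 + s.re := by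
      rw [Complex.add_re, Complex.add_re, Complex.re_ofReal_mul, Complex.I_re]
      norm_num
    have h2 := hb (1 / 2 + s + (ε * x : ℝ) * I) (by rw [hre]; linarith) (by rw [hre]; linarith)
    refine h2.trans ?_
    rw [mul_assoc]
    apply mul_le_mul_of_nonneg_left _ hC.le
    rw [← mul_pow]
    apply pow_le_pow_left₀ (by positivity)
    have h3 : ‖1 / 2 + s + (ε * x : ℝ) * I‖ ≤ 1 / 2 + ‖s‖ + x := by
      refine (norm_add_le _ _).trans ?_
      refine add_le_add ((norm_add_le _ _).trans ?_) ?_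
      · apply add_le_add_left
        norm_num
      · rw [norm_mul, Complex.norm_I, mul_one, Complex.norm_real, Real.norm_eq_abs, abs_mul, hε,
          one_mul, abs_of_nonneg hx]
    have h4 : ‖s‖ ≤ 1 + |s.im| := by
      refine (Complex.norm_le_abs_re_add_abs_im s).trans ?_
      rw [abs_of_nonneg h0]
      linarith
    nlinarith [abs_nonneg s.im]
  have hp := hone 1 (by norm_num)
  have hm := hone (-1) (by norm_num)
  have e1 : (1 / 2 + s + ((1 * x : ℝ) : ℂ) * I) = 1 / 2 + s + x * I := by push_cast; ring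
  have e2 : (1 / 2 + s + (((-1) * x : ℝ) : ℂ) * I) = 1 / 2 + s - x * I := by push_cast; ring
  rw [e1] at hp
  rw [e2] at hm
  unfold Ph
  rw [norm_mul]
  have hexp : (1 + |s.im|) ^ 8 ≤ Real.exp (8 * |s.im|) := by
    have h5 := Real.add_one_le_exp |s.im|
    rw [show (8:ℝ) * |s.im| = ((8:ℕ):ℝ) * |s.im| by norm_num, Real.exp_nat_mul]
    apply pow_le_pow_left₀ (by positivity)
    linarith
  have hexp2 : Real.exp (8 * |s.im|) ≤ Real.exp (K * |s.im|) := by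
    apply Real.exp_le_exp.mpr
    apply mul_le_mul_of_nonneg_right _ (abs_nonneg _)
    linarith
  calc ‖xi0 (1 / 2 + s + x * I)‖ * ‖xi0 (1 / 2 + s - x * I)‖ ≤
        (C * (3 + x) ^ 4 * (1 + |s.im|) ^ 4) * (C * (3 + x) ^ 4 * (1 + |s.im|) ^ 4) :=
        mul_le_mul hp hm (norm_nonneg _) (by positivity)
    _ = (C * (3 + x) ^ 4) ^ 2 * (1 + |s.im|) ^ 8 := by ring
    _ ≤ K * Real.exp (K * |s.im|) := by
        apply mul_le_mul (by linarith) (hexp.trans hexp2) (by positivity) (by positivity)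

lemma Gammaℝ_ne (x c : ℝ) (hc : 0 < c) (v : ℝ) : Gammaℝ ((c : ℂ) + v * I + x * I) ≠ 0 := by
  apply Gammaℝ_ne_zero_of_re_pos
  simp
  exact hc

/-- the relation of `Ph` to the integrand -/
lemma Ph_eq {x : ℝ} {s : ℂ} (hs : 0 ≤ s.re) (h1 : 1 / 2 + s + x * I ≠ 1)
    (h2 : 1 / 2 + s - x * I ≠ 1) :
    Ph x s = (Gammaℝ (1 / 2 + x * I) * Gammaℝ (1 / 2 - x * I) * (((1 / 4 + x ^ 2) ^ 2 : ℝ) : ℂ)) *
      (qx x s * gx x s * (riemannZeta (1 / 2 + s + x * I) * riemannZeta (1 / 2 + s - x * I))) := by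
  have hre : ∀ ε : ℝ, 0 < (1 / 2 + s + (ε * x : ℝ) * I).re := by
    intro ε
    rw [Complex.add_re, Complex.add_re, Complex.re_ofReal_mul, Complex.I_re]
    norm_num
    linarith
  have e1 : (1 / 2 + s + ((1 * x : ℝ) : ℂ) * I) = 1 / 2 + s + x * I := by push_cast; ring
  have e2 : (1 / 2 + s + (((-1) * x : ℝ) : ℂ) * I) = 1 / 2 + s - x * I := by push_cast; ring
  have hp := hre 1
  have hm := hre (-1)
  rw [e1] at hp
  rw [e2] at hm
  have hg1 : Gammaℝ (1 / 2 + x * I) ≠ 0 := Gammaℝ_ne_zero_of_re_pos (by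
    rw [Complex.add_re, Complex.re_ofReal_mul, Complex.I_re]; norm_num)
  have hg2 : Gammaℝ (1 / 2 - x * I) ≠ 0 := Gammaℝ_ne_zero_of_re_pos (by
    rw [Complex.sub_re, Complex.re_ofReal_mul, Complex.I_re]; norm_num)
  have hx : ((((1 / 4 + x ^ 2) ^ 2 : ℝ)) : ℂ) ≠ 0 := by
    have : (0:ℝ) < (1 / 4 + x ^ 2) ^ 2 := by positivity
    exact_mod_cast this.ne'
  unfold Ph
  rw [xi0_eq hp h1, xi0_eq hm h2]
  unfold qx gx
  have hq : (1 / 4 - (s + x * I) ^ 2) = (1 / 2 + s + x * I) * (1 - (1 / 2 + s + x * I)) := by ring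
  have hq' : (1 / 4 - (s - x * I) ^ 2) = (1 / 2 + s - x * I) * (1 - (1 / 2 + s - x * I)) := by ring
  rw [hq, hq']
  generalize Gammaℝ (1 / 2 + x * I) = G1 at *
  generalize Gammaℝ (1 / 2 - x * I) = G2 at *
  generalize Gammaℝ (1 / 2 + s + x * I) = G3 at *
  generalize Gammaℝ (1 / 2 + s - x * I) = G4 at *
  generalize ((((1 / 4 + x ^ 2) ^ 2 : ℝ)) : ℂ) = X at *
  generalize riemannZeta (1 / 2 + s + x * I) = Z1 at *
  generalize riemannZeta (1 / 2 + s - x * I) = Z2 at *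
  generalize 1 / 2 + s + x * I = w1 at *
  generalize 1 / 2 + s - x * I = w2 at *
  field_simp

end ShiftAux

open ShiftAux

theorem integral_exp_sq_div {c : ℝ} (hc : 0 < c) :
    ∫ v : ℝ, cexp (((c : ℂ) + v * I) ^ 2) / ((c : ℂ) + v * I) = Real.pi := by
  have h := even_formula (F := fun _ => 1) (differentiable_const 1) (fun _ => rfl) (K := 1) hc
    (fun s _ _ => by
      rw [norm_one, one_mul, one_mul]
      exact Real.one_le_exp (abs_nonneg _))
  simpa using h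

theorem zeta_sq_eq {c : ℝ} (hc : 1 / 2 < c) (hc1 : c ≤ 1) (x : ℝ) (hx : 1 ≤ x) :
    ((‖riemannZeta (1 / 2 + x * I)‖ ^ 2 : ℝ) : ℂ) = (Real.pi : ℂ)⁻¹ *
      ∫ v : ℝ, qx x (c + v * I) * gx x (c + v * I) * cexp (((c : ℂ) + v * I) ^ 2) / ((c : ℂ) + v * I) *
        (riemannZeta (1 / 2 + ((c : ℂ) + v * I) + x * I) * riemannZeta (1 / 2 + ((c : ℂ) + v * I) - x * I)) := by
  have hc0 : 0 < c := by linarith
  obtain ⟨K, hK⟩ := Ph_bound (x := x) (c := c) (by linarith) hc1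
  have hmain := even_formula (Ph_diff x) (Ph_even x) hc0 hK
  set D : ℂ := Gammaℝ (1 / 2 + x * I) * Gammaℝ (1 / 2 - x * I) * (((1 / 4 + x ^ 2) ^ 2 : ℝ) : ℂ)
    with hD
  have hg1 : Gammaℝ (1 / 2 + x * I) ≠ 0 := Gammaℝ_ne_zero_of_re_pos (by
    rw [Complex.add_re, Complex.re_ofReal_mul, Complex.I_re]; norm_num)
  have hg2 : Gammaℝ (1 / 2 - x * I) ≠ 0 := Gammaℝ_ne_zero_of_re_pos (by
    rw [Complex.sub_re, Complex.re_ofReal_mul, Complex.I_re]; norm_num)
  have hx4 : ((((1 / 4 + x ^ 2) ^ 2 : ℝ)) : ℂ) ≠ 0 := by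
    have : (0:ℝ) < (1 / 4 + x ^ 2) ^ 2 := by positivity
    exact_mod_cast this.ne'
  have hD0 : D ≠ 0 := mul_ne_zero (mul_ne_zero hg1 hg2) hx4
  -- the value at zero
  have h0 : Ph x 0 = D * ((‖riemannZeta (1 / 2 + x * I)‖ ^ 2 : ℝ) : ℂ) := by
    have hne : ∀ ε : ℝ, ε * x ≠ 0 → (1 / 2 + 0 + ((ε * x : ℝ) : ℂ) * I) ≠ 1 := by
      intro ε hε h
      have := congrArg Complex.im h
      rw [Complex.add_im, Complex.im_ofReal_mul, Complex.I_im] at this
      norm_num at this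
      apply hε
      rcases this with h1 | h1 <;> rw [h1] <;> ring
    have e1 : (1 / 2 + 0 + ((1 * x : ℝ) : ℂ) * I) = 1 / 2 + 0 + x * I := by push_cast; ring
    have e2 : (1 / 2 + 0 + (((-1) * x : ℝ) : ℂ) * I) = 1 / 2 + 0 - x * I := by push_cast; ring
    have hp := hne 1 (by linarith)
    have hm := hne (-1) (by linarith)
    rw [e1] at hp
    rw [e2] at hm
    rw [Ph_eq (by simp) hp hm, ← hD]
    congr 1
    have hq : qx x 0 = 1 := by
      unfold qx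
      rw [div_eq_one_iff_eq hx4]
      push_cast
      linear_combination (-(x:ℂ) ^ 2 * (1 / 2 - (x:ℂ) ^ 2 * (I ^ 2 - 1))) * Complex.I_sq
    have hg : gx x 0 = 1 := by
      unfold gx
      simp only [add_zero]
      exact div_self (mul_ne_zero hg1 hg2)
    rw [hq, hg, one_mul, one_mul, add_zero]
    have hconj : (1 / 2 - x * I : ℂ) = (starRingEnd ℂ) (1 / 2 + x * I) := by
      have h12 : (starRingEnd ℂ) (1 / 2 : ℂ) = 1 / 2 := by
        have : (1 / 2 : ℂ) = ((1 / 2 : ℝ) : ℂ) := by push_cast; ring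
        rw [this, Complex.conj_ofReal]
      rw [map_add, map_mul, Complex.conj_ofReal, Complex.conj_I, h12]
      ring
    rw [hconj, zeta_conj, Complex.mul_conj, Complex.normSq_eq_norm_sq]
  -- the integrand
  have hI : ∀ v : ℝ, Ph x (c + v * I) * cexp (((c : ℂ) + v * I) ^ 2) / ((c : ℂ) + v * I) =
      D * (qx x (c + v * I) * gx x (c + v * I) * cexp (((c : ℂ) + v * I) ^ 2) / ((c : ℂ) + v * I) *
        (riemannZeta (1 / 2 + ((c : ℂ) + v * I) + x * I) *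
          riemannZeta (1 / 2 + ((c : ℂ) + v * I) - x * I))) := by
    intro v
    have hne : ∀ ε : ℝ, (1 / 2 + ((c : ℂ) + v * I) + ((ε * x : ℝ) : ℂ) * I) ≠ 1 := by
      intro ε h
      have := congrArg Complex.re h
      rw [Complex.add_re, Complex.add_re, Complex.add_re, Complex.re_ofReal_mul,
        Complex.re_ofReal_mul, Complex.I_re] at this
      norm_num at this
      linarith
    have e1 : (1 / 2 + ((c : ℂ) + v * I) + ((1 * x : ℝ) : ℂ) * I) =
        1 / 2 + ((c : ℂ) + v * I) + x * I := by push_cast; ring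
    have e2 : (1 / 2 + ((c : ℂ) + v * I) + (((-1) * x : ℝ) : ℂ) * I) =
        1 / 2 + ((c : ℂ) + v * I) - x * I := by push_cast; ring
    have hp := hne 1
    have hm := hne (-1)
    rw [e1] at hp
    rw [e2] at hm
    rw [Ph_eq (by simp; linarith) hp hm, ← hD]
    ring
  simp_rw [hI] at hmain
  rw [integral_const_mul, h0] at hmain
  have hpi : (Real.pi : ℂ) ≠ 0 := by exact_mod_cast Real.pi_pos.ne'
  have h2 : ∫ v : ℝ, qx x (c + v * I) * gx x (c + v * I) * cexp (((c : ℂ) + v * I) ^ 2) /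
      ((c : ℂ) + v * I) * (riemannZeta (1 / 2 + ((c : ℂ) + v * I) + x * I) *
        riemannZeta (1 / 2 + ((c : ℂ) + v * I) - x * I)) =
      Real.pi * ((‖riemannZeta (1 / 2 + x * I)‖ ^ 2 : ℝ) : ℂ) := by
    apply mul_left_cancel₀ hD0
    rw [hmain]
    ring
  rw [h2, ← mul_assoc, inv_mul_cancel₀ hpi, one_mul]

end Pool.Agent.P07318s
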