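import Pool.Agent.Lib.P07318s.Defs
import Pool.Agent.Lib.P07318s.Shift
import Pool.Agent.Lib.P07318s.Kernel
import Pool.Agent.Lib.P07318s.WMellin
import Pool.Agent.Lib.P07318s.Regroup

/-!
The approximate functional equation. Take `c = 1/2 + ε` (wlog `ε ≤ 1/2`). For `Re s = c`:
`ζ(1/2+s+ix) ζ(1/2+s-ix) = ∑_{p=(m,n)} (mn)^(-1/2-s) ex x p` (absolutely convergent, the product of two
Dirichlet series `zeta_eq_tsum_one_div_nat_cpow` / `pnat` version). By `zeta_sq_eq`,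
`‖ζ‖² = (1/π) ∫ (x/2π)^s exp(s²)/s ∑_p ... dv + error`, the first term is `∑_p cf x p ex x p = Fd x` by
`W_eq` with `y = 2π mn/x` (interchange: `integral_tsum` or `hasSum_integral_of_summable_integral_norm`), and the
error is `≤ (1/π) ζ(1/2+c)² C x^(c-1)` by `kernel_bound`.
-/

set_option autoImplicit false

namespace Pool.Agent.P07318s

open MeasureTheory Complex

namespace AFEX

theorem zeta_pnat {z : ℂ} (hz : 1 < z.re) :
    (Summable fun n : ℕ+ => ‖((n : ℕ) : ℂ) ^ (-z)‖) ∧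
      riemannZeta z = ∑' n : ℕ+, ((n : ℕ) : ℂ) ^ (-z) := by
  have h1 : Summable (fun n : ℕ => 1 / (n : ℂ) ^ z) := Complex.summable_one_div_nat_cpow.2 hz
  have h2 : Summable (fun n : ℕ+ => ((n : ℕ) : ℂ) ^ (-z)) := by
    have := h1.comp_injective PNat.coe_injective
    refine this.congr fun n => ?_
    simp [cpow_neg]
  refine ⟨h2.norm, ?_⟩
  rw [zeta_eq_tsum_one_div_nat_add_one_cpow hz,
    tsum_pnat_eq_tsum_succ (f := fun n : ℕ => (n : ℂ) ^ (-z))]
  refine tsum_congr fun n => ?_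
  rw [cpow_neg]
  push_cast
  simp

theorem cpow_pos {a : ℝ} (ha : 0 < a) (w : ℂ) :
    ((a : ℝ) : ℂ) ^ w = cexp ((Real.log a : ℂ) * w) := by
  rw [Complex.cpow_def_of_ne_zero (by exact_mod_cast ha.ne'), Complex.ofReal_log ha.le]

theorem term_eq (x : ℝ) (s : ℂ) (p : ℕ+ × ℕ+) :
    ((p.1 : ℕ) : ℂ) ^ (-(1 / 2 + s + x * I)) * ((p.2 : ℕ) : ℂ) ^ (-(1 / 2 + s - x * I)) =
      ((hgt p : ℝ) : ℂ) ^ (-(1 / 2) - s) * ex x p := by
  have h1 : (0 : ℝ) < ((p.1 : ℕ) : ℝ) := by exact_mod_cast p.1.2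
  have h2 : (0 : ℝ) < ((p.2 : ℕ) : ℝ) := by exact_mod_cast p.2.2
  have e1 : ((p.1 : ℕ) : ℂ) = (((p.1 : ℕ) : ℝ) : ℂ) := by norm_cast
  have e2 : ((p.2 : ℕ) : ℂ) = (((p.2 : ℕ) : ℝ) : ℂ) := by norm_cast
  rw [e1, e2, cpow_pos h1, cpow_pos h2, cpow_pos (hgt_pos p)]
  unfold ex lgr hgt
  rw [Real.log_mul h1.ne' h2.ne', ← Complex.exp_add, ← Complex.exp_add]
  congr 1
  push_cast
  ring

theorem zz_eq (x : ℝ) {s : ℂ} (hs : 1 / 2 < s.re) :
    (Summable fun p : ℕ+ × ℕ+ => ‖((hgt p : ℝ) : ℂ) ^ (-(1 / 2) - s) * ex x p‖) ∧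
      riemannZeta (1 / 2 + s + x * I) * riemannZeta (1 / 2 + s - x * I) =
        ∑' p : ℕ+ × ℕ+, ((hgt p : ℝ) : ℂ) ^ (-(1 / 2) - s) * ex x p := by
  have r1 : 1 < (1 / 2 + s + x * I).re := by simp; linarith
  have r2 : 1 < (1 / 2 + s - x * I).re := by simp; linarith
  obtain ⟨a1, a2⟩ := zeta_pnat r1
  obtain ⟨b1, b2⟩ := zeta_pnat r2
  constructor
  · have := a1.mul_norm b1
    refine this.congr fun p => ?_
    rw [← term_eq]
  · rw [a2, b2, tsum_mul_tsum_of_summable_norm a1 b1]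
    exact tsum_congr fun p => term_eq x s p

theorem hgt_summable {c : ℝ} (hc : 1 / 2 < c) :
    Summable (fun p : ℕ+ × ℕ+ => (hgt p) ^ (-(1 / 2) - c : ℝ)) := by
  have := (zz_eq 0 (s := (c : ℂ)) (by simpa using hc)).1
  refine this.congr fun p => ?_
  rw [norm_mul, norm_ex, mul_one, Complex.norm_cpow_eq_rpow_re_of_pos (hgt_pos p)]
  simp

theorem kern_eq {x : ℝ} (hx : 0 < x) (s : ℂ) (p : ℕ+ × ℕ+) :
    ((x / (2 * Real.pi) : ℝ) : ℂ) ^ s * cexp (s ^ 2) / s *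
        (((hgt p : ℝ) : ℂ) ^ (-(1 / 2) - s) * ex x p) =
      ((((hgt p) ^ (-(1 / 2) : ℝ) : ℝ) : ℂ) * ex x p) *
        (cexp (s ^ 2) * ((2 * Real.pi * hgt p / x : ℝ) : ℂ) ^ (-s) / s) := by
  have hh := hgt_pos p
  have hp : (0 : ℝ) < 2 * Real.pi := by positivity
  have e : ((x / (2 * Real.pi) : ℝ) : ℂ) ^ s * ((hgt p : ℝ) : ℂ) ^ (-(1 / 2) - s) =
      (((hgt p) ^ (-(1 / 2) : ℝ) : ℝ) : ℂ) * ((2 * Real.pi * hgt p / x : ℝ) : ℂ) ^ (-s) := by
    rw [Complex.ofReal_cpow hh.le, cpow_pos (by positivity : (0 : ℝ) < x / (2 * Real.pi)),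
      cpow_pos hh, cpow_pos hh, cpow_pos (by positivity : (0 : ℝ) < 2 * Real.pi * hgt p / x),
      Real.log_div hx.ne' hp.ne', Real.log_div (by positivity) hx.ne',
      Real.log_mul hp.ne' hh.ne', ← Complex.exp_add, ← Complex.exp_add]
    congr 1
    push_cast
    ring
  calc _ = (((x / (2 * Real.pi) : ℝ) : ℂ) ^ s * ((hgt p : ℝ) : ℂ) ^ (-(1 / 2) - s)) *
        (cexp (s ^ 2) / s * ex x p) := by ring
    _ = _ := by rw [e]; ring

theorem main_eq {c : ℝ} (hc : 1 / 2 < c) {x : ℝ} (hx : 0 < x) :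
    (∫ v : ℝ, ((x / (2 * Real.pi) : ℝ) : ℂ) ^ ((c : ℂ) + v * I) * cexp (((c : ℂ) + v * I) ^ 2) /
        ((c : ℂ) + v * I) * (riemannZeta (1 / 2 + ((c : ℂ) + v * I) + x * I) *
          riemannZeta (1 / 2 + ((c : ℂ) + v * I) - x * I))) = Real.pi * Fd x := by
  have hc0 : 0 < c := by linarith
  let F : ℕ+ × ℕ+ → ℝ → ℂ := fun p v => ((((hgt p) ^ (-(1 / 2) : ℝ) : ℝ) : ℂ) * ex x p) *
        (cexp (((c : ℂ) + v * I) ^ 2) * ((2 * Real.pi * hgt p / x : ℝ) : ℂ) ^ (-((c : ℂ) + v * I)) /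
          ((c : ℂ) + v * I))
  have hy : ∀ p : ℕ+ × ℕ+, 0 < 2 * Real.pi * hgt p / x := fun p => by
    have := hgt_pos p
    positivity
  have hint : ∀ p, Integrable (F p) := fun p =>
    (W_integrand_integrable hc0 (hy p)).const_mul _
  have hpt : ∀ v : ℝ, ((x / (2 * Real.pi) : ℝ) : ℂ) ^ ((c : ℂ) + v * I) *
      cexp (((c : ℂ) + v * I) ^ 2) /
        ((c : ℂ) + v * I) * (riemannZeta (1 / 2 + ((c : ℂ) + v * I) + x * I) *
          riemannZeta (1 / 2 + ((c : ℂ) + v * I) - x * I)) = ∑' p, F p v := by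
    intro v
    rw [(zz_eq x (s := (c : ℂ) + v * I) (by simpa using hc)).2, ← tsum_mul_left]
    exact tsum_congr fun p => kern_eq hx _ p
  have hnorm : ∀ p (v : ℝ), ‖F p v‖ = (hgt p) ^ (-(1 / 2) - c : ℝ) *
      ((2 * Real.pi / x) ^ (-c) * ‖cexp (((c : ℂ) + v * I) ^ 2) / ((c : ℂ) + v * I)‖) := by
    intro p v
    have hh := hgt_pos p
    have e1 : ‖((2 * Real.pi * hgt p / x : ℝ) : ℂ) ^ (-((c : ℂ) + v * I))‖ =
        (2 * Real.pi / x) ^ (-c) * (hgt p) ^ (-c) := by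
      rw [Complex.norm_cpow_eq_rpow_re_of_pos (hy p)]
      have : (-((c : ℂ) + v * I)).re = -c := by simp
      rw [this, ← Real.mul_rpow (by positivity) hh.le]
      congr 1
      ring
    have e2 : (hgt p) ^ (-(1 / 2) - c : ℝ) = (hgt p) ^ (-(1 / 2) : ℝ) * (hgt p) ^ (-c) := by
      rw [← Real.rpow_add hh]
      congr 1
    simp only [F]
    rw [norm_mul, norm_mul, norm_ex, mul_one, norm_div, norm_mul, e1, norm_div, e2,
      Complex.norm_real, Real.norm_of_nonneg (Real.rpow_nonneg hh.le _)]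
    ring
  have hsum : Summable fun p => ∫ v, ‖F p v‖ := by
    have e : ∀ p, ∫ v, ‖F p v‖ = (hgt p) ^ (-(1 / 2) - c : ℝ) *
        ∫ v : ℝ, ((2 * Real.pi / x) ^ (-c) * ‖cexp (((c : ℂ) + v * I) ^ 2) / ((c : ℂ) + v * I)‖) := by
      intro p
      rw [← integral_const_mul]
      exact integral_congr_ae (Filter.Eventually.of_forall fun v => hnorm p v)
    simp_rw [e]
    exact (hgt_summable hc).mul_right _
  calc _ = ∫ v, ∑' p, F p v := integral_congr_ae (Filter.Eventually.of_forall hpt)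
    _ = ∑' p, ∫ v, F p v := ((hasSum_integral_of_summable_integral_norm hint hsum).tsum_eq).symm
    _ = ∑' p, (Real.pi : ℂ) * ((cf x p : ℂ) * ex x p) := by
        refine tsum_congr fun p => ?_
        simp only [F]
        rw [integral_const_mul]
        have hW := W_eq hc0 (hy p)
        have hpi : (Real.pi : ℂ) ≠ 0 := by exact_mod_cast Real.pi_ne_zero
        have hW' : (∫ v : ℝ, cexp (((c : ℂ) + v * I) ^ 2) *
            ((2 * Real.pi * hgt p / x : ℝ) : ℂ) ^ (-((c : ℂ) + v * I)) / ((c : ℂ) + v * I)) =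
            Real.pi * (W (2 * Real.pi * hgt p / x) : ℂ) := by
          rw [hW, ← mul_assoc, mul_inv_cancel₀ hpi, one_mul]
        rw [hW']
        unfold cf
        push_cast
        ring
    _ = _ := by rw [tsum_mul_left]; rfl

end AFEX

open AFEX in
theorem afe (ε : ℝ) (hε : 0 < ε) : ∃ C : ℝ, 0 < C ∧ ∀ x : ℝ, 1 ≤ x →
    ‖((‖riemannZeta (1 / 2 + x * I)‖ ^ 2 : ℝ) : ℂ) - Fd x‖ ≤ C * x ^ (-(1 / 2) + ε) := by
  obtain ⟨c, hc, hc1, hcε⟩ : ∃ c : ℝ, 1 / 2 < c ∧ c ≤ 1 ∧ c - 1 ≤ -(1 / 2) + ε :=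
    ⟨1 / 2 + min ε (1 / 2), by have : 0 < min ε (1 / 2) := by positivity
                               linarith,
      by have := min_le_right ε (1 / 2); linarith, by have := min_le_left ε (1 / 2); linarith⟩
  have hc0 : 0 < c := by linarith
  obtain ⟨C1, hC1, hk⟩ := kernel_bound hc0 hc1
  obtain ⟨C2, hC2, hz⟩ := zeta_bound_re (c - 1 / 2) (by linarith)
  refine ⟨Real.pi⁻¹ * (C2 ^ 2 * C1), by positivity, fun x hx => ?_⟩
  have hx0 : 0 < x := by linarith
  set Z : ℝ → ℂ := fun v => riemannZeta (1 / 2 + ((c : ℂ) + v * I) + x * I) *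
      riemannZeta (1 / 2 + ((c : ℂ) + v * I) - x * I) with hZ
  set A : ℝ → ℂ := fun v => qx x (c + v * I) * gx x (c + v * I) *
      cexp (((c : ℂ) + v * I) ^ 2) / ((c : ℂ) + v * I) with hA
  set B : ℝ → ℂ := fun v => ((x / (2 * Real.pi) : ℝ) : ℂ) ^ ((c : ℂ) + v * I) *
      cexp (((c : ℂ) + v * I) ^ 2) / ((c : ℂ) + v * I) with hB
  have hre1 : ∀ v : ℝ, (1 / 2 + ((c : ℂ) + v * I) + x * I).re = 1 / 2 + c := by intro v; simp
  have hre2 : ∀ v : ℝ, (1 / 2 + ((c : ℂ) + v * I) - x * I).re = 1 / 2 + c := by intro v; simp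
  have hne : ∀ z : ℂ, z.re = 1 / 2 + c → z ≠ 1 := by
    intro z hz0 h
    rw [h] at hz0
    simp at hz0
    linarith
  have hZc : Continuous Z := by
    refine Continuous.mul ?_ ?_
    · refine continuous_iff_continuousAt.2 fun v => ?_
      refine ContinuousAt.comp (g := riemannZeta) ?_ (by fun_prop)
      exact (differentiableAt_riemannZeta (hne _ (hre1 v))).continuousAt
    · refine continuous_iff_continuousAt.2 fun v => ?_
      refine ContinuousAt.comp (g := riemannZeta) ?_ (by fun_prop)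
      exact (differentiableAt_riemannZeta (hne _ (hre2 v))).continuousAt
  have hZb : ∀ v, ‖Z v‖ ≤ C2 ^ 2 := by
    intro v
    have h1 := hz (1 / 2 + ((c : ℂ) + v * I) + x * I) (by rw [hre1]; linarith)
    have h2 := hz (1 / 2 + ((c : ℂ) + v * I) - x * I) (by rw [hre2]; linarith)
    simp only [hZ]
    rw [norm_mul, sq]
    exact mul_le_mul h1 h2 (norm_nonneg _) hC2.le
  have hAi : Integrable A := kernel_integrable hc0 hc1 x hx
  have hBi : Integrable B := by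
    have := W_integrand_integrable hc0 (by positivity : 0 < 2 * Real.pi / x)
    refine this.congr (Filter.Eventually.of_forall fun v => ?_)
    simp only [hB]
    have e : ((2 * Real.pi / x : ℝ) : ℂ) ^ (-((c : ℂ) + v * I)) =
        ((x / (2 * Real.pi) : ℝ) : ℂ) ^ ((c : ℂ) + v * I) := by
      rw [cpow_pos (by positivity), cpow_pos (by positivity),
        Real.log_div (by positivity) hx0.ne', Real.log_div hx0.ne' (by positivity)]
      congr 1
      push_cast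
      ring
    rw [e]
    ring
  have hAZ : Integrable (fun v => A v * Z v) :=
    hAi.mul_bdd hZc.aestronglyMeasurable (Filter.Eventually.of_forall hZb)
  have hBZ : Integrable (fun v => B v * Z v) :=
    hBi.mul_bdd hZc.aestronglyMeasurable (Filter.Eventually.of_forall hZb)
  have hpi : (Real.pi : ℂ) ≠ 0 := by exact_mod_cast Real.pi_ne_zero
  have h1 : ((‖riemannZeta (1 / 2 + x * I)‖ ^ 2 : ℝ) : ℂ) =
      (Real.pi : ℂ)⁻¹ * ∫ v, A v * Z v := zeta_sq_eq hc hc1 x hx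
  have h2 : Fd x = (Real.pi : ℂ)⁻¹ * ∫ v, B v * Z v := by
    have := main_eq hc hx0
    simp only [hB, hZ]
    rw [this, ← mul_assoc, inv_mul_cancel₀ hpi, one_mul]
  rw [h1, h2, ← mul_sub, ← integral_sub hAZ hBZ, norm_mul, norm_inv, Complex.norm_real,
    Real.norm_of_nonneg Real.pi_pos.le]
  have h3 : ‖∫ v, (A v * Z v - B v * Z v)‖ ≤ C2 ^ 2 * (C1 * x ^ (c - 1)) := by
    have h4 : ‖∫ v, (A v * Z v - B v * Z v)‖ₑ ≤ ENNReal.ofReal (C2 ^ 2 * (C1 * x ^ (c - 1))) := by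
      calc ‖∫ v, (A v * Z v - B v * Z v)‖ₑ ≤ ∫⁻ v, ‖A v * Z v - B v * Z v‖ₑ :=
            enorm_integral_le_lintegral_enorm _
        _ ≤ ∫⁻ v : ℝ, ENNReal.ofReal (C2 ^ 2) * ‖(qx x (c + v * I) * gx x (c + v * I) -
              ((x / (2 * Real.pi) : ℝ) : ℂ) ^ ((c : ℂ) + v * I)) *
                cexp (((c : ℂ) + v * I) ^ 2) / ((c : ℂ) + v * I)‖ₑ := by
            refine lintegral_mono fun v => ?_
            have e : A v * Z v - B v * Z v = Z v * ((qx x (c + v * I) * gx x (c + v * I) -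
              ((x / (2 * Real.pi) : ℝ) : ℂ) ^ ((c : ℂ) + v * I)) *
                cexp (((c : ℂ) + v * I) ^ 2) / ((c : ℂ) + v * I)) := by
              simp only [hA, hB]
              ring
            rw [e, enorm_mul]
            refine mul_le_mul_left ?_ _
            rw [← ofReal_norm]
            exact ENNReal.ofReal_le_ofReal (hZb v)
        _ = ENNReal.ofReal (C2 ^ 2) * ∫⁻ v : ℝ, ‖(qx x (c + v * I) * gx x (c + v * I) -
              ((x / (2 * Real.pi) : ℝ) : ℂ) ^ ((c : ℂ) + v * I)) *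
                cexp (((c : ℂ) + v * I) ^ 2) / ((c : ℂ) + v * I)‖ₑ :=
            lintegral_const_mul' _ _ ENNReal.ofReal_ne_top
        _ ≤ ENNReal.ofReal (C2 ^ 2) * ENNReal.ofReal (C1 * x ^ (c - 1)) :=
            mul_le_mul_right (hk x hx) _
        _ = _ := (ENNReal.ofReal_mul (by positivity)).symm
    rw [← ofReal_norm] at h4
    exact (ENNReal.ofReal_le_ofReal_iff (by positivity)).1 h4
  have h5 : x ^ (c - 1) ≤ x ^ (-(1 / 2) + ε) := Real.rpow_le_rpow_of_exponent_le hx hcε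
  calc Real.pi⁻¹ * ‖∫ v, (A v * Z v - B v * Z v)‖
      ≤ Real.pi⁻¹ * (C2 ^ 2 * (C1 * x ^ (-(1 / 2) + ε))) := by
        refine mul_le_mul_of_nonneg_left (h3.trans ?_) (by positivity)
        refine mul_le_mul_of_nonneg_left ?_ (by positivity)
        exact mul_le_mul_of_nonneg_left h5 hC1.le
    _ = _ := by ring

end Pool.Agent.P07318s
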