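import Pool.Agent.Lib.P07318s.Defs
import Pool.Agent.Lib.P07318s.PiSum
import Pool.Agent.Lib.P07318s.LocalJ

/-!
Local factor. `hh s (p^e) = ∑_{e_1+...+e_k = e} ∏ p^(-s_j e_j)` (`finMulAntidiag k (p^e)` are the tuples
`(p^{e_j})` with `∑ e_j = e`: `Nat.finMulAntidiag` of a prime power, or prove directly the generating function).
`∏_j (1 - e(θ) p^(-s_j))⁻¹ = ∑_e hh s (p^e) e(eθ)` (product of geometric series, `hasSum_pi_prod` with `ι = ℕ`,
grouped by the total degree), absolutely convergent; multiply by the conjugate type series and integrate over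
`θ ∈ [0,1]` (orthogonality `∫_0^1 e((m-n)θ) dθ = [m = n]`).
-/

set_option autoImplicit false

namespace Pool.Agent.P07318s

open MeasureTheory Complex

namespace EulerLocAux

theorem hsCongr {ι : Type*} {f g : ι → ℂ} {c : ℂ} (h : ∀ x, f x = g x) (hf : HasSum f c) : HasSum g c := by
  rwa [show g = f from funext fun x => (h x).symm]

/-- the complete homogeneous sums -/
noncomputable def Hc {k : ℕ} (a : Fin k → ℂ) (e : ℕ) : ℂ :=
  ∑ m ∈ Finset.finAntidiagonal k e, ∏ j, (a j) ^ (m j)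

theorem natCast_pow_cpow (p n : ℕ) (z : ℂ) : (((p ^ n : ℕ) : ℂ)) ^ z = ((p : ℂ) ^ z) ^ n := by
  induction n with
  | zero => simp
  | succ n ih =>
    rw [pow_succ, Nat.cast_mul, Complex.natCast_mul_natCast_cpow, ih, pow_succ]

theorem hasSum_Hc {k : ℕ} (a : Fin k → ℂ) (ha : ∀ j, ‖a j‖ < 1) :
    HasSum (fun e : ℕ => Hc a e) (∏ j, (1 - a j)⁻¹) := by
  have h1 : HasSum (fun q : Fin k → ℕ => ∏ j, (a j) ^ (q j)) (∏ j, (1 - a j)⁻¹) := by
    have h := hasSum_pi_prod (fun (j : Fin k) (n : ℕ) => (a j) ^ n) (fun j => by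
      simp only [norm_pow]
      exact summable_geometric_of_lt_one (norm_nonneg _) (ha j))
    have e : ∀ j, ∑' n : ℕ, (a j) ^ n = (1 - a j)⁻¹ := fun j => tsum_geometric_of_norm_lt_one (ha j)
    simp only [e] at h
    exact h
  have h2 := h1.tsum_fiberwise (fun q : Fin k → ℕ => ∑ j, q j)
  refine hsCongr (fun e => ?_) h2
  have hs : (fun q : Fin k → ℕ => ∑ j, q j) ⁻¹' {e} = ↑(Finset.finAntidiagonal k e) := by
    ext q
    simp [Finset.mem_finAntidiagonal]
  rw [hs, Finset.tsum_subtype' (Finset.finAntidiagonal k e) (fun q : Fin k → ℕ => ∏ j, (a j) ^ (q j))]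
  rfl

theorem Hc_mul {k : ℕ} (a : Fin k → ℂ) (u : ℂ) (e : ℕ) : Hc (fun j => u * a j) e = u ^ e * Hc a e := by
  unfold Hc
  rw [Finset.mul_sum]
  refine Finset.sum_congr rfl fun m hm => ?_
  rw [Finset.mem_finAntidiagonal] at hm
  simp only [mul_pow]
  rw [Finset.prod_mul_distrib, Finset.prod_pow_eq_pow_sum, hm]

theorem summable_Hc {k : ℕ} (a : Fin k → ℂ) (ha : ∀ j, ‖a j‖ < 1) : Summable (fun e : ℕ => ‖Hc a e‖) := by
  have h := (hasSum_Hc (fun j => ((‖a j‖ : ℝ) : ℂ)) (fun j => by simpa using ha j)).summable.norm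
  refine Summable.of_nonneg_of_le (fun _ => norm_nonneg _) (fun e => ?_) h
  have e1 : Hc (fun j => ((‖a j‖ : ℝ) : ℂ)) e =
      ((∑ m ∈ Finset.finAntidiagonal k e, ∏ j, ‖a j‖ ^ (m j) : ℝ) : ℂ) := by
    unfold Hc
    push_cast
    rfl
  rw [e1, Complex.norm_real, Real.norm_of_nonneg (Finset.sum_nonneg fun m _ => Finset.prod_nonneg fun j _ =>
    pow_nonneg (norm_nonneg _) _)]
  unfold Hc
  refine (norm_sum_le _ _).trans (Finset.sum_le_sum fun m _ => ?_)
  rw [norm_prod]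
  simp only [norm_pow]
  exact le_rfl

theorem ee_norm (θ : ℝ) : ‖ee θ‖ = 1 := by
  unfold ee
  have e : (2 * Real.pi * I * θ : ℂ) = ((2 * Real.pi * θ : ℝ) : ℂ) * I := by push_cast; ring
  rw [e, Complex.norm_exp_ofReal_mul_I]

theorem ee_continuous : Continuous ee := by
  unfold ee
  fun_prop

theorem integral_ee (e f : ℕ) :
    ∫ θ in (0:ℝ)..1, ee θ ^ e * ee (-θ) ^ f = if e = f then 1 else 0 := by
  have h1 : ∀ θ : ℝ, ee θ ^ e * ee (-θ) ^ f = Complex.exp ((2 * Real.pi * I * ((e : ℤ) - (f : ℤ) : ℤ)) * θ) := by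
    intro θ
    unfold ee
    rw [← Complex.exp_nat_mul, ← Complex.exp_nat_mul, ← Complex.exp_add]
    congr 1
    push_cast
    ring
  simp_rw [h1]
  split_ifs with hef
  · subst hef
    simp
  · have hne : (2 * Real.pi * I * (((e : ℤ) - (f : ℤ) : ℤ) : ℂ)) ≠ 0 := by
      have h2 : (((e : ℤ) - (f : ℤ) : ℤ) : ℂ) ≠ 0 := by
        rw [Int.cast_ne_zero]
        intro h
        apply hef
        omega
      exact mul_ne_zero Complex.two_pi_I_ne_zero h2
    rw [integral_exp_mul_complex hne]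
    have h3 : Complex.exp (2 * Real.pi * I * (((e : ℤ) - (f : ℤ) : ℤ) : ℂ) * ((1 : ℝ) : ℂ)) = 1 := by
      have : (2 * Real.pi * I * (((e : ℤ) - (f : ℤ) : ℤ) : ℂ) * ((1 : ℝ) : ℂ)) =
          (((e : ℤ) - (f : ℤ) : ℤ) : ℂ) * (2 * Real.pi * I) := by
        push_cast
        ring
      rw [this]
      exact Complex.exp_int_mul_two_pi_mul_I _
    rw [h3]
    simp

end EulerLocAux

open EulerLocAux

theorem hh_prime_pow {k : ℕ} (s : Fin k → ℂ) {p : ℕ} (hp : p.Prime) (e : ℕ) :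
    hh s (p ^ e) = ∑ m ∈ Finset.finAntidiagonal k e, ∏ j, ((p : ℂ) ^ (-(s j))) ^ (m j) := by
  unfold hh
  symm
  refine Finset.sum_bij (fun m _ => fun j => p ^ (m j)) ?_ ?_ ?_ ?_
  · intro m hm
    rw [Finset.mem_finAntidiagonal] at hm
    rw [Nat.mem_finMulAntidiag]
    refine ⟨?_, pow_ne_zero _ hp.ne_zero⟩
    rw [Finset.prod_pow_eq_pow_sum, hm]
  · intro m1 _ m2 _ h
    funext j
    exact Nat.pow_right_injective hp.two_le (congrFun h j)
  · intro f hf
    rw [Nat.mem_finMulAntidiag] at hf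
    have h1 : ∀ j, ∃ m, f j = p ^ m := by
      intro j
      have : f j ∣ p ^ e := by
        rw [← hf.1]
        exact Finset.dvd_prod_of_mem f (Finset.mem_univ j)
      obtain ⟨m, -, hm⟩ := (Nat.dvd_prime_pow hp).1 this
      exact ⟨m, hm⟩
    choose m hm using h1
    refine ⟨m, ?_, ?_⟩
    · rw [Finset.mem_finAntidiagonal]
      have h2 := hf.1
      simp only [hm] at h2
      rw [Finset.prod_pow_eq_pow_sum] at h2
      exact Nat.pow_right_injective hp.two_le h2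
    · funext j
      exact (hm j).symm
  · intro m _
    refine Finset.prod_congr rfl fun j _ => ?_
    exact (natCast_pow_cpow p (m j) (-(s j))).symm

theorem euler_local {k : ℕ} (s s' : Fin k → ℂ) (hs : ∀ j, 0 < (s j).re) (hs' : ∀ j, 0 < (s' j).re) {p : ℕ}
    (hp : p.Prime) :
    (Summable fun e : ℕ => ‖hh s (p ^ e) * hh s' (p ^ e)‖) ∧
    HasSum (fun e : ℕ => hh s (p ^ e) * hh s' (p ^ e))
      (∫ θ in (0:ℝ)..1, ∏ j, ((1 - ee θ / (p : ℂ) ^ (s j))⁻¹ * (1 - ee (-θ) / (p : ℂ) ^ (s' j))⁻¹)) := by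
  have hnorm : ∀ (t : Fin k → ℂ), (∀ j, 0 < (t j).re) → ∀ j, ‖(p : ℂ) ^ (-(t j))‖ < 1 := by
    intro t ht j
    rw [Complex.norm_natCast_cpow_of_pos hp.pos]
    apply Real.rpow_lt_one_of_one_lt_of_neg
    · exact_mod_cast hp.one_lt
    · simp [ht j]
  set a : Fin k → ℂ := fun j => (p : ℂ) ^ (-(s j)) with ha
  set b : Fin k → ℂ := fun j => (p : ℂ) ^ (-(s' j)) with hb
  have ha1 : ∀ j, ‖a j‖ < 1 := hnorm s hs
  have hb1 : ∀ j, ‖b j‖ < 1 := hnorm s' hs'
  have hha : ∀ e, hh s (p ^ e) = Hc a e := fun e => hh_prime_pow s hp e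
  have hhb : ∀ e, hh s' (p ^ e) = Hc b e := fun e => hh_prime_pow s' hp e
  have hsa := summable_Hc a ha1
  have hsb := summable_Hc b hb1
  have hprod : Summable (fun x : ℕ × ℕ => ‖Hc a x.1‖ * ‖Hc b x.2‖) :=
    hsa.mul_of_nonneg hsb (fun _ => norm_nonneg _) (fun _ => norm_nonneg _)
  have hinj : Function.Injective (fun e : ℕ => (e, e)) := fun x y h => (Prod.mk.inj h).1
  simp only [hha, hhb]
  constructor
  · have h := hprod.comp_injective hinj
    refine h.congr fun e => ?_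
    simp
  -- pointwise expansion
  have hpt : ∀ θ : ℝ, HasSum (fun x : ℕ × ℕ => (Hc a x.1 * Hc b x.2) * (ee θ ^ x.1 * ee (-θ) ^ x.2))
      (∏ j, ((1 - ee θ / (p : ℂ) ^ (s j))⁻¹ * (1 - ee (-θ) / (p : ℂ) ^ (s' j))⁻¹)) := by
    intro θ
    have h1 := hasSum_Hc (fun j => ee θ * a j) (fun j => by rw [norm_mul, ee_norm, one_mul]; exact ha1 j)
    have h2 := hasSum_Hc (fun j => ee (-θ) * b j) (fun j => by rw [norm_mul, ee_norm, one_mul]; exact hb1 j)
    have hsum : Summable (fun x : ℕ × ℕ => Hc (fun j => ee θ * a j) x.1 * Hc (fun j => ee (-θ) * b j) x.2) := by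
      refine Summable.of_norm_bounded hprod fun x => ?_
      rw [norm_mul, Hc_mul, Hc_mul, norm_mul, norm_mul, norm_pow, norm_pow, ee_norm, ee_norm, one_pow, one_mul,
        one_pow, one_mul]
    have h3 := h1.mul h2 hsum
    have e1 : (∏ j, (1 - ee θ * a j)⁻¹) * (∏ j, (1 - ee (-θ) * b j)⁻¹) =
        ∏ j, ((1 - ee θ / (p : ℂ) ^ (s j))⁻¹ * (1 - ee (-θ) / (p : ℂ) ^ (s' j))⁻¹) := by
      rw [← Finset.prod_mul_distrib]
      refine Finset.prod_congr rfl fun j _ => ?_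
      simp only [ha, hb, Complex.cpow_neg, div_eq_mul_inv]
    rw [← e1]
    refine hsCongr (fun x => ?_) h3
    rw [Hc_mul, Hc_mul]
    ring
  have hint := intervalIntegral.hasSum_integral_of_dominated_convergence (μ := volume) (a := 0) (b := 1)
    (F := fun (x : ℕ × ℕ) (θ : ℝ) => (Hc a x.1 * Hc b x.2) * (ee θ ^ x.1 * ee (-θ) ^ x.2))
    (f := fun θ : ℝ => ∏ j, ((1 - ee θ / (p : ℂ) ^ (s j))⁻¹ * (1 - ee (-θ) / (p : ℂ) ^ (s' j))⁻¹))
    (fun x _ => ‖Hc a x.1‖ * ‖Hc b x.2‖)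
    (fun x => by
      have h1 : Continuous (fun θ : ℝ => ee (-θ)) := ee_continuous.comp continuous_neg
      exact (continuous_const.mul ((ee_continuous.pow _).mul (h1.pow _))).aestronglyMeasurable)
    (fun x => Filter.Eventually.of_forall fun θ _ => by
      rw [norm_mul, norm_mul, norm_mul, norm_pow, norm_pow, ee_norm, ee_norm, one_pow, one_pow, mul_one, mul_one])
    (Filter.Eventually.of_forall fun θ _ => hprod)
    intervalIntegrable_const
    (Filter.Eventually.of_forall fun θ _ => hpt θ)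
  have hint2 : HasSum (fun x : ℕ × ℕ => if x.1 = x.2 then Hc a x.1 * Hc b x.2 else 0)
      (∫ θ in (0:ℝ)..1, ∏ j, ((1 - ee θ / (p : ℂ) ^ (s j))⁻¹ * (1 - ee (-θ) / (p : ℂ) ^ (s' j))⁻¹)) := by
    refine hsCongr (fun x => ?_) hint
    rw [intervalIntegral.integral_const_mul, integral_ee]
    split_ifs <;> simp
  have h5 := (hinj.hasSum_iff (f := fun x : ℕ × ℕ => if x.1 = x.2 then Hc a x.1 * Hc b x.2 else 0) (by
    intro x hx
    rw [if_neg]
    intro h
    exact hx ⟨x.1, Prod.ext rfl h⟩)).2 hint2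
  refine hsCongr (fun e => ?_) h5
  simp

end Pool.Agent.P07318s
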