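import Pool.Agent.Lib.P07318s.Defs
import Pool.Agent.Lib.P07318s.PiSum
import Pool.Agent.Lib.P07318s.LocalJ
import Pool.Agent.Lib.P07318s.EulerA
import Pool.Agent.Lib.P07318s.EulerLoc
import Pool.Agent.Lib.P07318d.DivSum

/-!
`hh s` is the Dirichlet convolution of the completely multiplicative functions `n^(-s_j)`, so multiplicative on
coprime arguments, hence so is `N ↦ hh s N * hh s' N`. Absolute summability for `Re s_j = Re s'_j = 1/2 + Re w_j`,
`c = min Re w_j > 0`: `∑_N |hh s N| |hh s' N| ≤ ∑_N (d_k N)² N^(-1-2c) < ∞` (with `d_k N ≤ dd N ^ k`, divisor sums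
`P07318d.divsum_le`, or by nonnegative Euler products). Euler product:
`EulerProduct.eulerProduct_hasProd` gives `∏_p ∑_e hh s (p^e) hh s' (p^e) = ∑_N`. By `euler_local` the local sum times
`∏_{l,j} (1 - p^(-1-z_l+z'_j))` is `Afac z z' p`; `∏_p (1 - p^(-(1+z_l-z'_j)))⁻¹ = ζ(1+z_l-z'_j)`
(`riemannZeta_eulerProduct_hasProd`, real part `1 + Re(w_l + w_j) > 1`). Hence `∑_N = AA ∏ ζ = GX x w`.
-/

set_option autoImplicit false

namespace Pool.Agent.P07318s

open MeasureTheory Complex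

theorem ed_hh_zero {k : ℕ} (s : Fin k → ℂ) : hh s 0 = 0 := by
  simp [hh]

theorem ed_hh_one {k : ℕ} (s : Fin k → ℂ) : hh s 1 = 1 := by
  simp [hh, Nat.finMulAntidiag_one]

theorem ed_hh_succ {k : ℕ} (s : Fin (k + 1) → ℂ) {N : ℕ} :
    hh s N = ∑ x ∈ N.divisorsAntidiagonal, ((x.1 : ℕ) : ℂ) ^ (-(s 0)) *
      hh (fun j : Fin k => s j.succ) x.2 := by
  unfold hh
  simp_rw [Finset.mul_sum]
  rw [Finset.sum_sigma']
  refine Finset.sum_bij' (fun f _ => ⟨(f 0, ∏ j : Fin k, f j.succ), fun j => f j.succ⟩)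
    (fun y _ => (Fin.cons y.1.1 y.2 : Fin (k + 1) → ℕ)) ?_ ?_ ?_ ?_ ?_
  · intro f hf
    rw [Nat.mem_finMulAntidiag] at hf
    obtain ⟨h1, h2⟩ := hf
    rw [Fin.prod_univ_succ] at h1
    rw [Finset.mem_sigma]
    refine ⟨?_, ?_⟩
    · rw [Nat.mem_divisorsAntidiagonal]
      exact ⟨h1, h2⟩
    · rw [Nat.mem_finMulAntidiag]
      refine ⟨rfl, ?_⟩
      intro h3
      apply h2
      rw [← h1]
      change f 0 * ∏ j : Fin k, f j.succ = 0
      rw [show ∏ j : Fin k, f j.succ = 0 from h3, mul_zero]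
  · intro y hy
    rw [Finset.mem_sigma, Nat.mem_divisorsAntidiagonal, Nat.mem_finMulAntidiag] at hy
    obtain ⟨⟨h1, h2⟩, h3, h4⟩ := hy
    rw [Nat.mem_finMulAntidiag]
    refine ⟨?_, h2⟩
    rw [Fin.prod_univ_succ, Fin.cons_zero]
    simp only [Fin.cons_succ]
    rw [h3, h1]
  · intro f hf
    funext j
    refine Fin.cases ?_ (fun j => ?_) j
    · rfl
    · rfl
  · intro y hy
    rw [Finset.mem_sigma, Nat.mem_divisorsAntidiagonal, Nat.mem_finMulAntidiag] at hy
    obtain ⟨⟨h1, h2⟩, h3, h4⟩ := hy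
    obtain ⟨⟨a, b⟩, m⟩ := y
    simp only at h3
    subst h3
    rfl
  · intro f hf
    rw [Fin.prod_univ_succ]

/-- the completely multiplicative function `n ^ (-c)` -/
noncomputable def ed_pow (c : ℂ) : ArithmeticFunction ℂ :=
  ⟨fun n => if n = 0 then 0 else (n : ℂ) ^ (-c), by simp⟩

theorem ed_pow_mult (c : ℂ) : (ed_pow c).IsMultiplicative := by
  rw [ArithmeticFunction.IsMultiplicative.iff_ne_zero]
  refine ⟨by simp [ed_pow], ?_⟩
  intro m n hm hn _
  have hmn : m * n ≠ 0 := mul_ne_zero hm hn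
  simp only [ed_pow, ArithmeticFunction.coe_mk, hm, hn, hmn, if_false]
  rw [Nat.cast_mul, Complex.natCast_mul_natCast_cpow]

/-- `hh s` as an arithmetic function -/
noncomputable def ed_hh {k : ℕ} (s : Fin k → ℂ) : ArithmeticFunction ℂ :=
  ⟨fun n => hh s n, ed_hh_zero s⟩

theorem ed_hh_mult {k : ℕ} (s : Fin k → ℂ) : (ed_hh s).IsMultiplicative := by
  induction k with
  | zero =>
    have h : ed_hh s = 1 := by
      ext n
      change hh s n = _
      by_cases hn : n = 1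
      · subst hn
        rw [ed_hh_one]
        simp
      · rw [ArithmeticFunction.one_apply_ne hn]
        unfold hh
        rw [Nat.finMulAntidiag_zero_left hn, Finset.sum_empty]
    rw [h]
    exact ArithmeticFunction.isMultiplicative_one
  | succ k ih =>
    have h : ed_hh s = ed_pow (s 0) * ed_hh (fun j : Fin k => s j.succ) := by
      ext n
      rw [ArithmeticFunction.mul_apply]
      change hh s n = _
      rw [ed_hh_succ]
      refine Finset.sum_congr rfl fun x hx => ?_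
      rw [Nat.mem_divisorsAntidiagonal] at hx
      have hx1 : x.1 ≠ 0 := by
        intro h0
        apply hx.2
        rw [← hx.1, h0, zero_mul]
      change _ = (if x.1 = 0 then 0 else ((x.1 : ℕ) : ℂ) ^ (-(s 0))) * _
      rw [if_neg hx1]
      rfl
    rw [h]
    exact (ed_pow_mult _).mul (ih _)

theorem hh_mul {k : ℕ} (s : Fin k → ℂ) {m n : ℕ} (h : Nat.Coprime m n) : hh s (m * n) = hh s m * hh s n :=
  (ed_hh_mult s).map_mul_of_coprime h

theorem ed_bound {k : ℕ} (s : Fin k → ℂ) {σ : ℝ} (hσ : ∀ j, σ ≤ (s j).re) (N : ℕ) :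
    ‖hh s N‖ ≤ (P07318d.dd N) ^ k * (N : ℝ) ^ (-σ) := by
  by_cases hN : N = 0
  · subst hN
    rw [ed_hh_zero, norm_zero]
    have := P07318d.dd_nonneg 0
    positivity
  have hN1 : (1 : ℝ) ≤ N := by exact_mod_cast Nat.one_le_iff_ne_zero.2 hN
  have hN0 : (0 : ℝ) < N := by linarith
  unfold hh
  refine (norm_sum_le _ _).trans ?_
  have h1 : ∀ m ∈ Nat.finMulAntidiag k N, ‖∏ j, ((m j : ℕ) : ℂ) ^ (-(s j))‖ ≤ (N : ℝ) ^ (-σ) := by
    intro m hm
    have hm0 := Nat.ne_zero_of_mem_finMulAntidiag hm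
    rw [norm_prod]
    have h2 : (N : ℝ) ^ (-σ) = ∏ j, ((m j : ℕ) : ℝ) ^ (-σ) := by
      rw [Real.finsetProd_rpow _ _ (fun j _ => Nat.cast_nonneg _), ← Nat.cast_prod,
        Nat.prod_eq_of_mem_finMulAntidiag hm]
    rw [h2]
    refine Finset.prod_le_prod (fun _ _ => norm_nonneg _) fun j _ => ?_
    have hj : 0 < m j := Nat.pos_of_ne_zero (hm0 j)
    rw [Complex.norm_natCast_cpow_of_pos hj]
    apply Real.rpow_le_rpow_of_exponent_le
    · exact_mod_cast hj
    · rw [Complex.neg_re]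
      linarith [hσ j]
  refine (Finset.sum_le_sum h1).trans ?_
  rw [Finset.sum_const, nsmul_eq_mul]
  refine mul_le_mul_of_nonneg_right ?_ (Real.rpow_nonneg hN0.le _)
  unfold P07318d.dd
  have h3 : (Nat.finMulAntidiag k N).card ≤ (N.divisors.card) ^ k := by
    rw [Nat.finMulAntidiag_eq_piFinset_divisors_filter dvd_rfl hN]
    refine (Finset.card_filter_le _ _).trans ?_
    rw [Fintype.card_piFinset]
    simp
  exact_mod_cast h3

theorem ed_summable (M : ℕ) {s : ℝ} (hs : 1 < s) :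
    Summable (fun n : ℕ => (P07318d.dd n) ^ M * (n : ℝ) ^ (-s)) := by
  have hs0 : Summable (fun n : ℕ => (n : ℝ) ^ (-s)) := Real.summable_nat_rpow.2 (by linarith)
  refine summable_of_sum_range_le (c := (∑' n : ℕ, (n : ℝ) ^ (-s)) ^ (2 ^ M)) ?_ ?_
  · intro n
    have := P07318d.dd_nonneg n
    positivity
  · intro n
    have h0 : ∀ i : ℕ, 0 ≤ (P07318d.dd i) ^ M * (i : ℝ) ^ (-s) := by
      intro i
      have := P07318d.dd_nonneg i
      positivity
    calc ∑ i ∈ Finset.range n, (P07318d.dd i) ^ M * (i : ℝ) ^ (-s)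
        ≤ ∑ i ∈ Finset.Icc 1 n, (P07318d.dd i) ^ M * (i : ℝ) ^ (-s) := by
          have h1 : (P07318d.dd 0) ^ M * ((0 : ℕ) : ℝ) ^ (-s) = 0 := by
            rw [Nat.cast_zero, Real.zero_rpow (by linarith), mul_zero]
          have h2 : ∑ i ∈ insert 0 (Finset.Icc 1 n), (P07318d.dd i) ^ M * (i : ℝ) ^ (-s) =
              ∑ i ∈ Finset.Icc 1 n, (P07318d.dd i) ^ M * (i : ℝ) ^ (-s) := by
            rw [Finset.sum_insert (by simp), h1, zero_add]
          rw [← h2]
          refine Finset.sum_le_sum_of_subset_of_nonneg ?_ fun i _ _ => h0 i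
          intro i hi
          rw [Finset.mem_range] at hi
          rw [Finset.mem_insert, Finset.mem_Icc]
          omega
      _ ≤ (∑ i ∈ Finset.Icc 1 n, (i : ℝ) ^ (-s)) ^ (2 ^ M) := P07318d.divsum_le M n s
      _ ≤ (∑' n : ℕ, (n : ℝ) ^ (-s)) ^ (2 ^ M) := by
          refine pow_le_pow_left₀ (Finset.sum_nonneg fun i _ => by positivity) ?_ _
          exact hs0.sum_le_tsum _ fun i _ => by positivity

theorem ed_exists_min {k : ℕ} (w : Fin k → ℂ) (hw : ∀ j, 0 < (w j).re) :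
    ∃ c : ℝ, 0 < c ∧ ∀ j, c ≤ (w j).re := by
  rcases isEmpty_or_nonempty (Fin k) with h | h
  · exact ⟨1, one_pos, fun j => h.elim j⟩
  · obtain ⟨j₀, hj⟩ := Finite.exists_min (fun j => (w j).re)
    exact ⟨(w j₀).re, hw j₀, hj⟩

theorem ed_hasProd_A {k : ℕ} (x : Fin k → ℝ) (w : Fin k → ℂ) (hw : ∀ j, 0 < (w j).re) :
    HasProd (fun p : Nat.Primes => Afac (fun j => w j + x j * I) (fun j => -w j + x j * I) p)
      (AX x w) := by
  unfold AX AA
  apply Multipliable.hasProd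
  rcases Nat.eq_zero_or_pos k with hk | hk
  · subst hk
    have h : (fun p : Nat.Primes => Afac (fun j => w j + x j * I) (fun j => -w j + x j * I) p)
        = fun _ => 1 := by
      funext p
      simp [Afac]
    rw [h]
    exact multipliable_one
  · obtain ⟨C, _, h⟩ := AX_bound k (e := 1 / 4) (ρ := 1 / 8) (by norm_num) (by norm_num)
      (by norm_num)
    refine (h x w ⟨⟨0, hk⟩, ?_, fun j _ => ?_⟩).1
    · linarith [hw ⟨0, hk⟩]
    · linarith [hw j]

theorem euler_D1 {k : ℕ} (x : Fin k → ℝ) (w : Fin k → ℂ) (hw : ∀ j, 0 < (w j).re) :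
    (Summable fun N : ℕ => ‖hh (fun j => 1 / 2 + w j + x j * I) N * hh (fun j => 1 / 2 + w j - x j * I) N‖) ∧
    HasSum (fun N : ℕ => hh (fun j => 1 / 2 + w j + x j * I) N * hh (fun j => 1 / 2 + w j - x j * I) N) (GX x w) := by
  set s : Fin k → ℂ := fun j => 1 / 2 + w j + x j * I with hs
  set s' : Fin k → ℂ := fun j => 1 / 2 + w j - x j * I with hs'
  have hre : ∀ j, (s j).re = 1 / 2 + (w j).re := by
    intro j; rw [hs]; simp
  have hre' : ∀ j, (s' j).re = 1 / 2 + (w j).re := by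
    intro j; rw [hs']; simp
  obtain ⟨c, hc, hcw⟩ := ed_exists_min w hw
  have hsum : Summable fun N : ℕ => ‖hh s N * hh s' N‖ := by
    refine Summable.of_nonneg_of_le (fun _ => norm_nonneg _) (fun N => ?_)
      (ed_summable (2 * k) (s := 1 + 2 * c) (by linarith))
    rw [norm_mul]
    have h1 := ed_bound s (σ := 1 / 2 + c) (fun j => by rw [hre]; linarith [hcw j]) N
    have h2 := ed_bound s' (σ := 1 / 2 + c) (fun j => by rw [hre']; linarith [hcw j]) N
    refine (mul_le_mul h1 h2 (norm_nonneg _) ((norm_nonneg _).trans h1)).trans (le_of_eq ?_)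
    by_cases hN : N = 0
    · subst hN
      rw [Nat.cast_zero, Real.zero_rpow (by linarith), Real.zero_rpow (by linarith)]
      ring
    have hN0 : (0 : ℝ) < N := by exact_mod_cast Nat.pos_of_ne_zero hN
    rw [mul_mul_mul_comm, ← pow_add, ← Real.rpow_add hN0, two_mul]
    congr 2
    ring
  refine ⟨hsum, ?_⟩
  have hP := EulerProduct.eulerProduct_hasProd (f := fun N : ℕ => hh s N * hh s' N)
    (by simp [ed_hh_one]) (fun {m n} hmn => by
      rw [hh_mul s hmn, hh_mul s' hmn]; ring) hsum (by simp [ed_hh_zero])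
  have hA := ed_hasProd_A x w hw
  have hZ : HasProd (fun p : Nat.Primes => ∏ l, ∏ j,
      (1 - ((p : ℕ) : ℂ) ^ (-(1 + (w l + x l * I) - (-w j + x j * I))))⁻¹)
      (∏ l, ∏ j, riemannZeta (1 + (w l + x l * I) - (-w j + x j * I))) := by
    refine hasProd_prod fun l _ => hasProd_prod fun j _ => ?_
    refine riemannZeta_eulerProduct_hasProd ?_
    simp
    linarith [hw l, hw j]
  have hAZ := hA.mul hZ
  have heq : (fun p : Nat.Primes => ∑' e : ℕ, (hh s ((p : ℕ) ^ e) * hh s' ((p : ℕ) ^ e))) =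
      fun p : Nat.Primes => Afac (fun j => w j + x j * I) (fun j => -w j + x j * I) p *
        ∏ l, ∏ j, (1 - ((p : ℕ) : ℂ) ^ (-(1 + (w l + x l * I) - (-w j + x j * I))))⁻¹ := by
    funext p
    rw [(euler_local s s' (fun j => by rw [hre]; linarith [hw j])
      (fun j => by rw [hre']; linarith [hw j]) p.2).2.tsum_eq]
    unfold Afac
    have hne : ∀ l j, (1 - ((p : ℕ) : ℂ) ^ (-(1 + (w l + x l * I) - (-w j + x j * I)))) ≠ 0 := by
      intro l j h0
      have h1 : ((p : ℕ) : ℂ) ^ (-(1 + (w l + x l * I) - (-w j + x j * I))) = 1 :=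
        (sub_eq_zero.1 h0).symm
      have h2 : ‖((p : ℕ) : ℂ) ^ (-(1 + (w l + x l * I) - (-w j + x j * I)))‖ = 1 := by
        rw [h1, norm_one]
      rw [Complex.norm_natCast_cpow_of_pos p.2.pos] at h2
      have h3 : ((p : ℕ) : ℝ) ^ (-(1 + (w l + x l * I) - (-w j + x j * I))).re < 1 := by
        apply Real.rpow_lt_one_of_one_lt_of_neg
        · exact_mod_cast p.2.one_lt
        · simp
          linarith [hw l, hw j]
      linarith
    have e1 : ∀ l j, (1 - ((p : ℕ) : ℂ) ^ (-1 - (w l + x l * I) + (-w j + x j * I))) =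
        (1 - ((p : ℕ) : ℂ) ^ (-(1 + (w l + x l * I) - (-w j + x j * I)))) := by
      intro l j
      congr 2
      ring
    have e2 : ∀ j, (1 / 2 : ℂ) + (w j + x j * I) = s j := fun j => by rw [hs]; ring
    have e3 : ∀ j, (1 / 2 : ℂ) - (-w j + x j * I) = s' j := fun j => by rw [hs']; ring
    simp_rw [e1, e2, e3]
    rw [mul_right_comm, ← Finset.prod_mul_distrib]
    have e4 : (∏ l, ((∏ j, (1 - ((p : ℕ) : ℂ) ^ (-(1 + (w l + x l * I) - (-w j + x j * I))))) *
        ∏ j, (1 - ((p : ℕ) : ℂ) ^ (-(1 + (w l + x l * I) - (-w j + x j * I))))⁻¹)) = 1 := by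
      refine Finset.prod_eq_one fun l _ => ?_
      rw [← Finset.prod_mul_distrib]
      exact Finset.prod_eq_one fun j _ => mul_inv_cancel₀ (hne l j)
    rw [e4, one_mul]
  rw [heq] at hP
  have hfin : ∑' N : ℕ, hh s N * hh s' N = GX x w := by
    rw [hP.unique hAZ]
    rfl
  rw [← hfin]
  exact hsum.of_norm.hasSum

end Pool.Agent.P07318s
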