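import Pool.Agent.Lib.P07318s.Defs
import Pool.Agent.Lib.P07318s.PiSum
import Pool.Agent.Lib.P07318s.EulerD1

/-!
Regroup the diagonal sum: `lam p = 0` iff `∏ m_j = ∏ n_j =: N` (logarithm injective), the tuples `(m_j)` with product
`N` are `Nat.finMulAntidiag k N` (as positive integers), and
`(hgt p_j)^(-(1/2+w_j)) ex(x_j) p_j = m_j^(-(1/2+w_j+ix_j)) n_j^(-(1/2+w_j-ix_j))`. Absolute summability: apply
the nonnegative case (real exponents, `x = 0`, `w = Re w`) and `tsum` over sigma types in `ENNReal`.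
`diag_norm_bound`: same with norms: value at `x = 0`, `w = c`.
-/

set_option autoImplicit false

namespace Pool.Agent.P07318s

open MeasureTheory Complex

theorem ed2_lam {k : ℕ} (p : Fin k → ℕ+ × ℕ+) :
    lam p = 0 ↔ ∏ j, ((p j).1 : ℕ) = ∏ j, ((p j).2 : ℕ) := by
  unfold lam lgr
  rw [Finset.sum_sub_distrib, ← Real.log_prod, ← Real.log_prod, sub_eq_zero]
  · rw [Real.log_injOn_pos.eq_iff]
    · rw [← Nat.cast_prod, ← Nat.cast_prod, Nat.cast_inj]
    · exact Set.mem_Ioi.2 (Finset.prod_pos fun j _ => Nat.cast_pos.2 (p j).1.pos)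
    · exact Set.mem_Ioi.2 (Finset.prod_pos fun j _ => Nat.cast_pos.2 (p j).2.pos)
  · intro j _
    exact_mod_cast (p j).2.ne_zero
  · intro j _
    exact_mod_cast (p j).1.ne_zero

/-- pairs of tuples with the same product -/
abbrev Ed2S (k : ℕ) : Type := Σ N : ℕ, (Nat.finMulAntidiag k N) × (Nat.finMulAntidiag k N)

/-- the tuple of fractions of a pair of tuples -/
def ed2_map {k : ℕ} (y : Ed2S k) : {p : Fin k → ℕ+ × ℕ+ | lam p = 0} :=
  ⟨fun j => (⟨(y.2.1 : Fin k → ℕ) j, Nat.pos_of_ne_zero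
      (Nat.ne_zero_of_mem_finMulAntidiag y.2.1.2 j)⟩,
    ⟨(y.2.2 : Fin k → ℕ) j, Nat.pos_of_ne_zero
      (Nat.ne_zero_of_mem_finMulAntidiag y.2.2.2 j)⟩), by
    change lam _ = 0
    rw [ed2_lam]
    exact (Nat.prod_eq_of_mem_finMulAntidiag y.2.1.2).trans
      (Nat.prod_eq_of_mem_finMulAntidiag y.2.2.2).symm⟩

theorem ed2_map_bij (k : ℕ) : Function.Bijective (ed2_map (k := k)) := by
  constructor
  · rintro ⟨N, ⟨m, hm⟩, ⟨n, hn⟩⟩ ⟨N', ⟨m', hm'⟩, ⟨n', hn'⟩⟩ h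
    have h1 : ∀ j, ((ed2_map ⟨N, ⟨m, hm⟩, ⟨n, hn⟩⟩).1 j) =
        ((ed2_map ⟨N', ⟨m', hm'⟩, ⟨n', hn'⟩⟩).1 j) := fun j => by rw [h]
    have hm1 : m = m' := by
      funext j
      have := congrArg (fun z : ℕ+ × ℕ+ => (z.1 : ℕ)) (h1 j)
      exact this
    have hn1 : n = n' := by
      funext j
      have := congrArg (fun z : ℕ+ × ℕ+ => (z.2 : ℕ)) (h1 j)
      exact this
    have hN : N = N' := by
      rw [← Nat.prod_eq_of_mem_finMulAntidiag hm, ← Nat.prod_eq_of_mem_finMulAntidiag hm', hm1]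
    subst hN hm1 hn1
    rfl
  · rintro ⟨p, hp⟩
    change lam p = 0 at hp
    rw [ed2_lam] at hp
    have hne : ∏ j, ((p j).1 : ℕ) ≠ 0 := Finset.prod_ne_zero_iff.2 fun j _ => (p j).1.ne_zero
    refine ⟨⟨∏ j, ((p j).1 : ℕ), ⟨fun j => ((p j).1 : ℕ), ?_⟩, ⟨fun j => ((p j).2 : ℕ), ?_⟩⟩, ?_⟩
    · exact Nat.mem_finMulAntidiag.2 ⟨rfl, hne⟩
    · exact Nat.mem_finMulAntidiag.2 ⟨hp.symm, hne⟩
    · rfl

open Classical in
theorem ed2_hasSum_iff {E : Type*} [AddCommMonoid E] [TopologicalSpace E] {k : ℕ}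
    (f : (Fin k → ℕ+ × ℕ+) → E) (a : E) :
    HasSum (fun p => if lam p = 0 then f p else 0) a ↔
      HasSum (fun y : Ed2S k => f (ed2_map y).1) a := by
  have h1 : Function.support (fun p => if lam p = 0 then f p else 0) ⊆
      {p : Fin k → ℕ+ × ℕ+ | lam p = 0} := by
    intro p hp
    by_contra h
    exact hp (if_neg h)
  rw [← hasSum_subtype_iff_of_support_subset h1,
    ← (Equiv.ofBijective _ (ed2_map_bij k)).hasSum_iff]
  have h2 : (((fun p => if lam p = 0 then f p else 0) ∘ (Subtype.val :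
      {p : Fin k → ℕ+ × ℕ+ | lam p = 0} → _)) ∘ (Equiv.ofBijective _ (ed2_map_bij k))) =
      fun y : Ed2S k => f (ed2_map y).1 := by
    funext y
    exact if_pos (ed2_map y).2
  rw [h2]

theorem ed2_summable_aux {k : ℕ} (c : ℝ) (hc : 0 < c) :
    Summable (fun y : Ed2S k => ∏ j, (hgt ((ed2_map y).1 j)) ^ (-(1 / 2 + c))) := by
  have h0 : ∀ y : Ed2S k, (∏ j, (hgt ((ed2_map y).1 j)) ^ (-(1 / 2 + c))) =
      (y.1 : ℝ) ^ (-(1 + 2 * c)) := by
    rintro ⟨N, ⟨m, hm⟩, ⟨n, hn⟩⟩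
    have hN : 0 < N := Nat.pos_of_ne_zero (Nat.mem_finMulAntidiag.1 hm).2
    have hN0 : (0 : ℝ) < N := by exact_mod_cast hN
    change (∏ j, (((m j : ℕ) : ℝ) * ((n j : ℕ) : ℝ)) ^ (-(1 / 2 + c))) = (N : ℝ) ^ (-(1 + 2 * c))
    rw [Real.finsetProd_rpow _ _ (fun j _ => by positivity), Finset.prod_mul_distrib,
      ← Nat.cast_prod, ← Nat.cast_prod, Nat.prod_eq_of_mem_finMulAntidiag hm,
      Nat.prod_eq_of_mem_finMulAntidiag hn, Real.mul_rpow hN0.le hN0.le, ← Real.rpow_add hN0]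
    congr 1
    ring
  simp_rw [h0]
  rw [summable_sigma_of_nonneg (fun y => by positivity)]
  refine ⟨fun N => (hasSum_fintype _).summable, ?_⟩
  refine Summable.of_nonneg_of_le (fun N => tsum_nonneg fun _ => by positivity) (fun N => ?_)
    (ed_summable (2 * k) (s := 1 + 2 * c) (by linarith))
  rw [tsum_fintype]
  change ∑ _b : (Nat.finMulAntidiag k N) × (Nat.finMulAntidiag k N), (N : ℝ) ^ (-(1 + 2 * c)) ≤ _
  rw [Finset.sum_const, nsmul_eq_mul]
  refine mul_le_mul_of_nonneg_right ?_ (by positivity)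
  rw [Finset.card_univ, Fintype.card_prod, Fintype.card_coe, Nat.cast_mul, two_mul, pow_add]
  have h3 : ((Nat.finMulAntidiag k N).card : ℝ) ≤ (P07318d.dd N) ^ k := by
    unfold P07318d.dd
    by_cases hN : N = 0
    · subst hN
      simp
    have h3 : (Nat.finMulAntidiag k N).card ≤ (N.divisors.card) ^ k := by
      rw [Nat.finMulAntidiag_eq_piFinset_divisors_filter dvd_rfl hN]
      refine (Finset.card_filter_le _ _).trans ?_
      rw [Fintype.card_piFinset]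
      simp
    exact_mod_cast h3
  exact mul_le_mul h3 h3 (by positivity) (by have := P07318d.dd_nonneg N; positivity)

theorem euler_D2_summable {k : ℕ} (c : ℝ) (hc : 0 < c) :
    Summable (fun p : Fin k → ℕ+ × ℕ+ => if lam p = 0 then ∏ j, (hgt (p j)) ^ (-(1 / 2 + c)) else 0) := by
  have h := (ed2_summable_aux (k := k) c hc).hasSum
  rw [← ed2_hasSum_iff (fun p : Fin k → ℕ+ × ℕ+ => ∏ j, (hgt (p j)) ^ (-(1 / 2 + c)))] at h
  convert! h.summable

theorem ed2_term (x : ℝ) (w : ℂ) (m n : ℕ+) :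
    ((hgt (m, n) : ℝ) : ℂ) ^ (-(1 / 2 + w)) * ex x (m, n) =
      ((m : ℕ) : ℂ) ^ (-(1 / 2 + w + x * I)) * ((n : ℕ) : ℂ) ^ (-(1 / 2 + w - x * I)) := by
  have hm : ((m : ℕ) : ℂ) ≠ 0 := by exact_mod_cast m.ne_zero
  have hn : ((n : ℕ) : ℂ) ≠ 0 := by exact_mod_cast n.ne_zero
  have h1 : ((hgt (m, n) : ℝ) : ℂ) ^ (-(1 / 2 + w)) =
      ((m : ℕ) : ℂ) ^ (-(1 / 2 + w)) * ((n : ℕ) : ℂ) ^ (-(1 / 2 + w)) := by
    unfold hgt
    rw [Complex.ofReal_mul, Complex.ofReal_natCast, Complex.ofReal_natCast,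
      Complex.natCast_mul_natCast_cpow]
  rw [h1]
  unfold ex lgr
  rw [Complex.cpow_def_of_ne_zero hm, Complex.cpow_def_of_ne_zero hn,
    Complex.cpow_def_of_ne_zero hm, Complex.cpow_def_of_ne_zero hn, ← Complex.exp_add,
    ← Complex.exp_add, ← Complex.exp_add]
  congr 1
  rw [← Complex.natCast_log, ← Complex.natCast_log]
  push_cast
  ring

theorem ed2_norm {k : ℕ} (x : Fin k → ℝ) (w : Fin k → ℂ) {c : ℝ} (hc : ∀ j, c ≤ (w j).re)
    (p : Fin k → ℕ+ × ℕ+) :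
    ‖∏ j, (((hgt (p j) : ℝ) : ℂ) ^ (-(1 / 2 + w j)) * ex (x j) (p j))‖ ≤
      ∏ j, (hgt (p j)) ^ (-(1 / 2 + c)) := by
  rw [norm_prod]
  refine Finset.prod_le_prod (fun _ _ => norm_nonneg _) fun j _ => ?_
  rw [norm_mul, norm_ex, mul_one, Complex.norm_cpow_eq_rpow_re_of_pos (hgt_pos _)]
  apply Real.rpow_le_rpow_of_exponent_le (one_le_hgt _)
  simp
  linarith [hc j]

theorem euler_D2 {k : ℕ} (x : Fin k → ℝ) (w : Fin k → ℂ) (hw : ∀ j, 0 < (w j).re) :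
    HasSum (fun p : Fin k → ℕ+ × ℕ+ => if lam p = 0 then
      ∏ j, (((hgt (p j) : ℝ) : ℂ) ^ (-(1 / 2 + w j)) * ex (x j) (p j)) else 0) (GX x w) := by
  obtain ⟨c, hc, hcw⟩ := ed_exists_min w hw
  have hmain : HasSum (fun y : Ed2S k => ∏ j, (((hgt ((ed2_map y).1 j) : ℝ) : ℂ) ^ (-(1 / 2 + w j)) *
      ex (x j) ((ed2_map y).1 j))) (GX x w) := by
    refine HasSum.sigma_of_hasSum (euler_D1 x w hw).2 (fun N => ?_) ?_
    · have h1 := hasSum_fintype (fun y : (Nat.finMulAntidiag k N) × (Nat.finMulAntidiag k N) =>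
        ∏ j, (((hgt ((ed2_map (⟨N, y⟩ : Ed2S k)).1 j) : ℝ) : ℂ) ^ (-(1 / 2 + w j)) *
          ex (x j) ((ed2_map (⟨N, y⟩ : Ed2S k)).1 j)))
      convert! h1 using 1
      rw [Fintype.sum_prod_type]
      unfold hh
      rw [Finset.sum_mul_sum, ← Finset.sum_coe_sort (Nat.finMulAntidiag k N)]
      refine Finset.sum_congr rfl fun m _ => ?_
      rw [← Finset.sum_coe_sort (Nat.finMulAntidiag k N)]
      refine Finset.sum_congr rfl fun n _ => ?_
      rw [← Finset.prod_mul_distrib]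
      refine Finset.prod_congr rfl fun j _ => ?_
      exact (ed2_term (x j) (w j) ⟨(m : Fin k → ℕ) j, Nat.pos_of_ne_zero
        (Nat.ne_zero_of_mem_finMulAntidiag m.2 j)⟩ ⟨(n : Fin k → ℕ) j, Nat.pos_of_ne_zero
        (Nat.ne_zero_of_mem_finMulAntidiag n.2 j)⟩).symm
    · refine Summable.of_norm_bounded (ed2_summable_aux c hc) fun y => ?_
      exact ed2_norm x w hcw _
  have h2 := (ed2_hasSum_iff (fun p : Fin k → ℕ+ × ℕ+ =>
    ∏ j, (((hgt (p j) : ℝ) : ℂ) ^ (-(1 / 2 + w j)) * ex (x j) (p j))) (GX x w)).2 hmain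
  convert! h2

end Pool.Agent.P07318s
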