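import Pool.Agent.Lib.P07318s.Defs
import Pool.Agent.Lib.P07318s.PiSum
import Pool.Agent.Lib.P07318s.WMellin
import Pool.Agent.Lib.P07318s.Regroup

/-!
Continuity of `Fd` and `Dg` on positive heights: Weierstrass M-test; `cf x p ≤ cf X p` for `x ≤ X` because `W` is
decreasing, and `cf X` is summable.
-/

set_option autoImplicit false

namespace Pool.Agent.P07318s

open MeasureTheory Complex

theorem Cont_cf_mono {x X : ℝ} (hx : 0 < x) (hX : x ≤ X) (p : ℕ+ × ℕ+) : cf x p ≤ cf X p := by
  have hX0 : 0 < X := hx.trans_le hX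
  have hh := hgt_pos p
  have hpi := Real.pi_pos
  unfold cf
  refine mul_le_mul_of_nonneg_left ?_ (Real.rpow_nonneg hh.le _)
  refine W_antitone (a := 2 * Real.pi * hgt p / X) (b := 2 * Real.pi * hgt p / x) ?_ ?_ ?_
  · rw [Set.mem_Ioi]
    positivity
  · rw [Set.mem_Ioi]
    positivity
  · exact div_le_div_of_nonneg_left (by positivity) hx hX

theorem Cont_cf_continuousOn (p : ℕ+ × ℕ+) : ContinuousOn (fun x : ℝ => cf x p) (Set.Ioi 0) := by
  have hh := hgt_pos p
  have hpi := Real.pi_pos
  unfold cf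
  refine continuousOn_const.mul ?_
  refine W_continuousOn.comp (t := Set.Ioi 0) (f := fun x : ℝ => 2 * Real.pi * hgt p / x) ?_ ?_
  · exact continuousOn_const.div continuousOn_id (fun x hx => ne_of_gt hx)
  · intro x hx
    have hx0 : 0 < x := hx
    show 0 < 2 * Real.pi * hgt p / x
    positivity

theorem Cont_ex_continuous (p : ℕ+ × ℕ+) : Continuous (fun x : ℝ => ex x p) := by
  unfold ex
  fun_prop

theorem Cont_term_norm {x : ℝ} (p : ℕ+ × ℕ+) : ‖(cf x p : ℂ) * ex x p‖ = cf x p := by
  rw [norm_mul, norm_ex, mul_one, Complex.norm_real, Real.norm_eq_abs, abs_of_nonneg (cf_nonneg p)]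

theorem Cont_term_continuousOn (p : ℕ+ × ℕ+) :
    ContinuousOn (fun x : ℝ => (cf x p : ℂ) * ex x p) (Set.Ioi 0) :=
  (Complex.continuous_ofReal.comp_continuousOn (Cont_cf_continuousOn p)).mul
    (Cont_ex_continuous p).continuousOn

theorem Fd_continuousOn : ContinuousOn Fd (Set.Ioi 0) := by
  intro x0 hx0
  have hx0' : 0 < x0 := hx0
  have h1 : ContinuousOn Fd (Set.Ioo 0 (x0 + 1)) := by
    unfold Fd
    refine continuousOn_tsum (u := fun p => cf (x0 + 1) p) (fun p => ?_)
      (cf_summable (by linarith)) (fun p x hx => ?_)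
    · exact (Cont_term_continuousOn p).mono (fun x hx => hx.1)
    · rw [Cont_term_norm]
      exact Cont_cf_mono hx.1 hx.2.le p
  exact (h1.continuousAt (Ioo_mem_nhds hx0' (by linarith))).continuousWithinAt

theorem Dg_continuousOn (k : ℕ) : ContinuousOn (fun x : Fin k → ℝ => Dg x) {x | ∀ j, 0 < x j} := by
  classical
  intro x0 hx0
  have hx0' : ∀ j, 0 < x0 j := hx0
  have hS : IsOpen {x : Fin k → ℝ | ∀ j, x j ∈ Set.Ioo 0 (x0 j + 1)} := by
    have : {x : Fin k → ℝ | ∀ j, x j ∈ Set.Ioo 0 (x0 j + 1)} =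
        Set.pi Set.univ (fun j => Set.Ioo 0 (x0 j + 1)) := by
      ext x
      simp
    rw [this]
    exact isOpen_set_pi Set.finite_univ (fun j _ => isOpen_Ioo)
  have h1 : ContinuousOn (fun x : Fin k → ℝ => Dg x) {x : Fin k → ℝ | ∀ j, x j ∈ Set.Ioo 0 (x0 j + 1)} := by
    unfold Dg
    refine continuousOn_tsum (u := fun p : Fin k → ℕ+ × ℕ+ => ∏ j, cf (x0 j + 1) (p j)) (fun p => ?_)
      (summable_pi_prod_real (fun j p => cf (x0 j + 1) p)
        (fun j => cf_summable (by linarith [hx0' j])) (fun j p => cf_nonneg p)) (fun p x hx => ?_)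
    · by_cases hp : lam p = 0
      · simp only [if_pos hp]
        refine continuousOn_finsetProd _ (fun j _ => ?_)
        exact (Cont_term_continuousOn (p j)).comp (continuous_apply j).continuousOn
          (fun x hx => (hx j).1)
      · simp only [if_neg hp]
        exact continuousOn_const
    · have h0 : 0 ≤ ∏ j, cf (x0 j + 1) (p j) := Finset.prod_nonneg (fun j _ => cf_nonneg _)
      by_cases hp : lam p = 0
      · simp only [if_pos hp]
        rw [norm_prod]
        refine Finset.prod_le_prod (fun j _ => norm_nonneg _) (fun j _ => ?_)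
        rw [Cont_term_norm]
        exact Cont_cf_mono (hx j).1 (hx j).2.le (p j)
      · simp only [if_neg hp, norm_zero]
        exact h0
  refine (h1.continuousAt (hS.mem_nhds ?_)).continuousWithinAt
  intro j
  exact ⟨hx0' j, by linarith⟩

end Pool.Agent.P07318s
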