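import Pool.Agent.Lib.P07318s.Defs

/-!
Mean square of an absolutely convergent trigonometric sum over a box: expand the square as an absolutely
convergent double series, integrate termwise (`integral_tsum`), and
`|∫_{Icc β (β+H)} exp(-i⟨α, ω⟩) dα| = ∏_j |∫_{β_j}^{β_j+H} exp(-i α_j ω_j) dα_j| ≤ ∏_j bb H (ω_j)`
(`norm_osc_le` in Defs; product structure: `MeasureTheory.integral_fintype_prod_eq_prod` or
`Measure.restrict_pi_pi` with `volume.restrict (Set.pi ..)`). If `H = 0` and `n > 0` the box is a null set.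
(For `n = 0` the box is a point of mass one.)
-/

set_option autoImplicit false

namespace Pool.Agent.P07318s

open MeasureTheory Complex

namespace BoxMSAux

theorem one_dim (b : ℝ) {H : ℝ} (hH : 0 ≤ H) (d : ℝ) :
    ‖∫ x in Set.Icc b (b + H), cexp (((-(x * d) : ℝ) : ℂ) * I)‖ ≤ bb H d := by
  rw [integral_Icc_eq_integral_Ioc, ← intervalIntegral.integral_of_le (by linarith)]
  have e : ∫ x in b..(b + H), cexp (((-(x * d) : ℝ) : ℂ) * I) =
      cexp (((-(b * d) : ℝ) : ℂ) * I) * osc H d := by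
    have h1 := intervalIntegral.integral_comp_add_right (a := 0) (b := H)
      (fun x : ℝ => cexp (((-(x * d) : ℝ) : ℂ) * I)) b
    rw [zero_add, add_comm H b] at h1
    rw [← h1]
    unfold osc
    rw [← intervalIntegral.integral_const_mul]
    refine intervalIntegral.integral_congr fun x _ => ?_
    rw [← Complex.exp_add]
    congr 1
    push_cast
    ring
  rw [e, norm_mul, Complex.norm_exp_ofReal_mul_I, one_mul]
  exact norm_osc_le hH d

theorem box_osc {n : ℕ} (β : Fin n → ℝ) {H : ℝ} (hH : 0 ≤ H) (d : Fin n → ℝ) :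
    ‖∫ α in Set.Icc β (fun j => β j + H), cexp (((-(∑ j, α j * d j) : ℝ) : ℂ) * I)‖ ≤
      ∏ j, bb H (d j) := by
  have e1 : ∀ α : Fin n → ℝ, cexp (((-(∑ j, α j * d j) : ℝ) : ℂ) * I) =
      ∏ j, cexp (((-(α j * d j) : ℝ) : ℂ) * I) := by
    intro α
    rw [← Complex.exp_sum, ← Finset.sum_mul]
    congr 2
    rw [← Finset.sum_neg_distrib]
    push_cast
    rfl
  simp_rw [e1]
  rw [← Set.pi_univ_Icc, volume_pi, Measure.restrict_pi_pi,
    integral_fintype_prod_eq_prod (fun (j : Fin n) (x : ℝ) => cexp (((-(x * d j) : ℝ) : ℂ) * I)), norm_prod]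
  exact Finset.prod_le_prod (fun j _ => norm_nonneg _) fun j _ => one_dim (β j) hH (d j)

theorem enorm_ofReal_nonneg {r : ℝ} (hr : 0 ≤ r) : ‖(r : ℂ)‖ₑ = ENNReal.ofReal r := by
  rw [← ofReal_norm, Complex.norm_real, Real.norm_of_nonneg hr]

end BoxMSAux

open BoxMSAux

theorem box_ms {ι : Type*} [Countable ι] {n : ℕ} (Z : ι → ℂ) (hZ : Summable fun i => ‖Z i‖)
    (ω : ι → Fin n → ℝ) (β : Fin n → ℝ) {H : ℝ} (hH : 0 ≤ H) :
    ∫⁻ α in Set.Icc β (fun j => β j + H),
        ‖∑' i, Z i * cexp (((-(∑ j, α j * ω i j) : ℝ) : ℂ) * I)‖ₑ ^ 2 ≤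
      ∑' i, ∑' i', ‖Z i‖ₑ * ‖Z i'‖ₑ * ∏ j, ENNReal.ofReal (bb H (ω i j - ω i' j)) := by
  set K : Set (Fin n → ℝ) := Set.Icc β (fun j => β j + H) with hK
  have : IsFiniteMeasure (volume.restrict K) :=
    ⟨by rw [Measure.restrict_apply_univ]; exact isCompact_Icc.measure_lt_top⟩
  set f : (Fin n → ℝ) → ℂ := fun α => ∑' i, Z i * cexp (((-(∑ j, α j * ω i j) : ℝ) : ℂ) * I) with hf
  set F : ι × ι → (Fin n → ℝ) → ℂ := fun x α => (Z x.1 * (starRingEnd ℂ) (Z x.2)) *
    cexp (((-(∑ j, α j * (ω x.1 j - ω x.2 j)) : ℝ) : ℂ) * I) with hF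
  have hnorm : ∀ (i : ι) (α : Fin n → ℝ), ‖Z i * cexp (((-(∑ j, α j * ω i j) : ℝ) : ℂ) * I)‖ = ‖Z i‖ := by
    intro i α
    rw [norm_mul, Complex.norm_exp_ofReal_mul_I, mul_one]
  have hFnorm : ∀ (x : ι × ι) (α : Fin n → ℝ), ‖F x α‖ = ‖Z x.1‖ * ‖Z x.2‖ := by
    intro x α
    simp only [hF]
    rw [norm_mul, Complex.norm_exp_ofReal_mul_I, mul_one, norm_mul, RCLike.norm_conj]
  have hprod : Summable (fun x : ι × ι => ‖Z x.1‖ * ‖Z x.2‖) :=
    hZ.mul_of_nonneg hZ (fun _ => norm_nonneg _) (fun _ => norm_nonneg _)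
  have hfcont : Continuous f := by
    refine continuous_tsum (u := fun i => ‖Z i‖) (fun i => ?_) hZ (fun i α => (hnorm i α).le)
    fun_prop
  have hs : ∀ α, HasSum (fun i => Z i * cexp (((-(∑ j, α j * ω i j) : ℝ) : ℂ) * I)) (f α) := by
    intro α
    exact (Summable.of_norm (by simpa only [hnorm] using hZ)).hasSum
  have hpt : ∀ α, HasSum (fun x => F x α) (((‖f α‖ ^ 2 : ℝ)) : ℂ) := by
    intro α
    have h1 := hs α
    have h2 := h1.star
    have h3 : Summable (fun x : ι × ι => (Z x.1 * cexp (((-(∑ j, α j * ω x.1 j) : ℝ) : ℂ) * I)) *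
        star (Z x.2 * cexp (((-(∑ j, α j * ω x.2 j) : ℝ) : ℂ) * I))) := by
      refine Summable.of_norm_bounded hprod fun x => ?_
      rw [norm_mul, norm_star, hnorm, hnorm]
    have h4 := h1.mul h2 h3
    have e1 : f α * star (f α) = (((‖f α‖ ^ 2 : ℝ)) : ℂ) := by
      have := Complex.mul_conj (f α)
      rw [Complex.normSq_eq_norm_sq] at this
      exact this
    rw [e1] at h4
    have e2 : (fun x : ι × ι => (Z x.1 * cexp (((-(∑ j, α j * ω x.1 j) : ℝ) : ℂ) * I)) *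
        star (Z x.2 * cexp (((-(∑ j, α j * ω x.2 j) : ℝ) : ℂ) * I))) = fun x => F x α := by
      funext x
      simp only [hF]
      have e3 : star (Z x.2 * cexp (((-(∑ j, α j * ω x.2 j) : ℝ) : ℂ) * I)) =
          (starRingEnd ℂ) (Z x.2) * cexp (((∑ j, α j * ω x.2 j : ℝ) : ℂ) * I) := by
        change (starRingEnd ℂ) _ = _
        rw [map_mul, ← Complex.exp_conj, map_mul, Complex.conj_ofReal, Complex.conj_I]
        congr 2
        push_cast
        ring
      rw [e3]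
      have e4 : cexp (((-(∑ j, α j * (ω x.1 j - ω x.2 j)) : ℝ) : ℂ) * I) =
          cexp (((-(∑ j, α j * ω x.1 j) : ℝ) : ℂ) * I) * cexp (((∑ j, α j * ω x.2 j : ℝ) : ℂ) * I) := by
        rw [← Complex.exp_add, ← add_mul]
        congr 2
        have : (∑ j, α j * (ω x.1 j - ω x.2 j)) = (∑ j, α j * ω x.1 j) - ∑ j, α j * ω x.2 j := by
          rw [← Finset.sum_sub_distrib]
          exact Finset.sum_congr rfl fun j _ => by ring
        rw [this]
        push_cast
        ring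
      rw [e4]
      ring
    rw [e2] at h4
    exact h4
  have hFint : ∀ x, Integrable (F x) (volume.restrict K) := by
    intro x
    have hc : Continuous (F x) := by
      simp only [hF]
      fun_prop
    refine Integrable.of_bound hc.aestronglyMeasurable (‖Z x.1‖ * ‖Z x.2‖) ?_
    exact Filter.Eventually.of_forall fun α => (hFnorm x α).le
  have hFsum : Summable (fun x => ∫ α, ‖F x α‖ ∂(volume.restrict K)) := by
    simp only [hFnorm, integral_const]
    exact hprod.mul_left _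
  have hint := hasSum_integral_of_summable_integral_norm hFint hFsum
  have e5 : (∫ α, (∑' x, F x α) ∂(volume.restrict K)) =
      (((∫ α, ‖f α‖ ^ 2 ∂(volume.restrict K)) : ℝ) : ℂ) := by
    have e8 : (∫ α, ((‖f α‖ ^ 2 : ℝ) : ℂ) ∂(volume.restrict K)) =
        (((∫ α, ‖f α‖ ^ 2 ∂(volume.restrict K)) : ℝ) : ℂ) := integral_ofReal
    rw [← e8]
    refine integral_congr_ae (Filter.Eventually.of_forall fun α => ?_)
    exact (hpt α).tsum_eq
  rw [e5] at hint
  have hnn : 0 ≤ ∫ α, ‖f α‖ ^ 2 ∂(volume.restrict K) := integral_nonneg fun α => by positivity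
  have hfint : Integrable (fun α => ‖f α‖ ^ 2) (volume.restrict K) := by
    refine Integrable.of_bound (by fun_prop) ((∑' i, ‖Z i‖) ^ 2) ?_
    refine Filter.Eventually.of_forall fun α => ?_
    rw [Real.norm_of_nonneg (by positivity)]
    refine pow_le_pow_left₀ (norm_nonneg _) ?_ 2
    refine (norm_tsum_le_tsum_norm (by simpa only [hnorm] using hZ)).trans (le_of_eq ?_)
    exact tsum_congr fun i => hnorm i α
  calc ∫⁻ α in K, ‖f α‖ₑ ^ 2
      = ∫⁻ α in K, ENNReal.ofReal (‖f α‖ ^ 2) := by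
        refine lintegral_congr fun α => ?_
        rw [ENNReal.ofReal_pow (norm_nonneg _), ofReal_norm]
    _ = ENNReal.ofReal (∫ α, ‖f α‖ ^ 2 ∂(volume.restrict K)) :=
        (ofReal_integral_eq_lintegral_ofReal hfint (Filter.Eventually.of_forall fun α => by positivity)).symm
    _ = ‖∑' x, ∫ α, F x α ∂(volume.restrict K)‖ₑ := by
        rw [hint.tsum_eq, enorm_ofReal_nonneg hnn]
    _ ≤ ∑' x, ‖∫ α, F x α ∂(volume.restrict K)‖ₑ := enorm_tsum_le_tsum_enorm
    _ ≤ ∑' x : ι × ι, ‖Z x.1‖ₑ * ‖Z x.2‖ₑ * ∏ j, ENNReal.ofReal (bb H (ω x.1 j - ω x.2 j)) := by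
        refine ENNReal.tsum_le_tsum fun x => ?_
        have e6 : ∫ α, F x α ∂(volume.restrict K) = (Z x.1 * (starRingEnd ℂ) (Z x.2)) *
            ∫ α in K, cexp (((-(∑ j, α j * (ω x.1 j - ω x.2 j)) : ℝ) : ℂ) * I) := by
          simp only [hF]
          rw [integral_const_mul]
        rw [e6, enorm_mul, enorm_mul]
        have e7 : ‖(starRingEnd ℂ) (Z x.2)‖ₑ = ‖Z x.2‖ₑ := by
          rw [← ofReal_norm, ← ofReal_norm, RCLike.norm_conj]
        rw [e7]
        gcongr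
        rw [← ENNReal.ofReal_prod_of_nonneg (fun j _ => bb_nonneg hH _), ← ofReal_norm]
        exact ENNReal.ofReal_le_ofReal (box_osc β hH (fun j => ω x.1 j - ω x.2 j))
    _ = ∑' i, ∑' i', ‖Z i‖ₑ * ‖Z i'‖ₑ * ∏ j, ENNReal.ofReal (bb H (ω i j - ω i' j)) :=
        ENNReal.tsum_prod' (f := fun x : ι × ι =>
          ‖Z x.1‖ₑ * ‖Z x.2‖ₑ * ∏ j, ENNReal.ofReal (bb H (ω x.1 j - ω x.2 j)))

end Pool.Agent.P07318s
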