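import Pool.Agent.Lib.P07318s.Defs
import Pool.Agent.Lib.P07318s.PiSum
import Pool.Agent.Lib.P5632c9.DivBound

/-!
The outer sum: products of reduced fractions weighted by the inverse of the logarithm of the product.
-/

set_option autoImplicit false

namespace Pool.Agent.P07318s

open MeasureTheory Complex

theorem tsum_prod_le (k : ℕ) (G : ℕ+ → ENNReal) :
    ∑' m : Fin k → ℕ+, G (∏ j, m j) ≤ ∑' a : ℕ+, (((a : ℕ).divisors.card : ENNReal)) ^ k * G a := by
  induction k generalizing G with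
  | zero =>
    simp only [Finset.univ_eq_empty, Finset.prod_empty, pow_zero, one_mul]
    rw [tsum_fintype]
    simp only [Finset.univ_unique, Finset.sum_singleton]
    exact ENNReal.le_tsum (1 : ℕ+)
  | succ k ih =>
    rw [← (Fin.consEquiv (fun _ : Fin (k + 1) => ℕ+)).tsum_eq, ENNReal.tsum_prod']
    simp only [Fin.consEquiv_apply, Fin.prod_univ_succ, Fin.cons_zero, Fin.cons_succ]
    have h1 : ∀ x : ℕ+, ∑' m : Fin k → ℕ+, G (x * ∏ j, m j) ≤
        ∑' a : ℕ+, (((a : ℕ).divisors.card : ENNReal)) ^ k * G (x * a) := fun x => ih (fun y => G (x * y))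
    refine (ENNReal.tsum_le_tsum h1).trans ?_
    rw [← ENNReal.tsum_prod (f := fun x a : ℕ+ => (((a : ℕ).divisors.card : ENNReal)) ^ k * G (x * a)),
      ← sigmaAntidiagonalEquivProd.tsum_eq, ENNReal.tsum_sigma']
    refine ENNReal.tsum_le_tsum fun c => ?_
    rw [tsum_fintype]
    have h2 : ∀ p : (Nat.divisorsAntidiagonal (c : ℕ)),
        (((sigmaAntidiagonalEquivProd ⟨c, p⟩).2 : ℕ).divisors.card : ENNReal) ^ k *
          G ((sigmaAntidiagonalEquivProd ⟨c, p⟩).1 * (sigmaAntidiagonalEquivProd ⟨c, p⟩).2) ≤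
        ((c : ℕ).divisors.card : ENNReal) ^ k * G c := by
      rintro ⟨p, hp⟩
      have hp' := Nat.mem_divisorsAntidiagonal.1 hp
      have e1 : (sigmaAntidiagonalEquivProd ⟨c, ⟨p, hp⟩⟩).1 * (sigmaAntidiagonalEquivProd ⟨c, ⟨p, hp⟩⟩).2 = c := by
        apply PNat.eq
        rw [PNat.mul_coe]
        exact hp'.1
      rw [e1]
      refine mul_le_mul_left ?_ _
      refine pow_le_pow_left₀ (zero_le) ?_ k
      have e2 : ((sigmaAntidiagonalEquivProd ⟨c, ⟨p, hp⟩⟩).2 : ℕ) ∣ (c : ℕ) := by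
        have e3 := congrArg (fun z : ℕ+ => (z : ℕ)) e1
        simp only [PNat.mul_coe] at e3
        exact Dvd.intro_left _ e3
      exact_mod_cast Finset.card_le_card (Nat.divisors_subset_of_dvd hp'.2 e2)
    refine (Finset.sum_le_sum fun p _ => h2 p).trans ?_
    rw [Finset.sum_const, nsmul_eq_mul, Finset.card_univ, Fintype.card_coe]
    have h4 : (c : ℕ).divisorsAntidiagonal.card = (c : ℕ).divisors.card := by
      rw [← Nat.map_div_right_divisors, Finset.card_map]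
    rw [h4, pow_succ]
    apply le_of_eq
    ring

theorem tsum_zeta_ne_top {η : ℝ} (hη : 0 < η) :
    ∑' n : ℕ+, ENNReal.ofReal (((n : ℕ) : ℝ) ^ (-1 - η)) ≠ ⊤ := by
  have h1 : Summable (fun n : ℕ => (n : ℝ) ^ (-1 - η)) := Real.summable_nat_rpow.2 (by linarith)
  have h2 : Summable (fun n : ℕ+ => ((n : ℕ) : ℝ) ^ (-1 - η)) := h1.comp_injective PNat.coe_injective
  rw [← ENNReal.ofReal_tsum_of_nonneg (fun n => by positivity) h2]
  exact ENNReal.ofReal_ne_top

/-- the weight of a pair of products -/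
noncomputable def Tw (δ : ℝ) (a b : ℕ+) : ℝ :=
  ((((a : ℕ) : ℝ) * ((b : ℕ) : ℝ)) ^ (-1 - δ)) / |Real.log (a : ℕ) - Real.log (b : ℕ)|

lemma Tw_nonneg (δ : ℝ) (a b : ℕ+) : 0 ≤ Tw δ a b := by
  unfold Tw; positivity

lemma Tw_symm (δ : ℝ) (a b : ℕ+) : Tw δ a b = Tw δ b a := by
  unfold Tw
  rw [abs_sub_comm, mul_comm (((a : ℕ) : ℝ))]

lemma Tw_self (δ : ℝ) (a : ℕ+) : Tw δ a a = 0 := by
  unfold Tw; simp

lemma Tw_le {δ ε : ℝ} (hε : ε < δ) (m b : ℕ+) :
    (((b + m : ℕ+) : ℕ) : ℝ) ^ ε * ((b : ℕ) : ℝ) ^ ε * Tw δ (b + m) b ≤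
      ((b : ℕ) : ℝ) ^ (-1 - (δ - ε)) * ((m : ℕ) : ℝ) ^ (-1 - (δ - ε)) := by
  have hb : (0:ℝ) < ((b : ℕ) : ℝ) := by exact_mod_cast b.pos
  have hm : (0:ℝ) < ((m : ℕ) : ℝ) := by exact_mod_cast m.pos
  have e1 : (((b + m : ℕ+) : ℕ) : ℝ) = ((b : ℕ) : ℝ) + ((m : ℕ) : ℝ) := by
    rw [PNat.add_coe]; push_cast; ring
  unfold Tw
  rw [e1]
  set x : ℝ := ((b : ℕ) : ℝ) with hx
  set y : ℝ := ((m : ℕ) : ℝ) with hy
  have hxy : 0 < x + y := by linarith
  -- lower bound for the difference of logarithms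
  have h1 : y / (x + y) ≤ |Real.log (x + y) - Real.log x| := by
    rw [← Real.log_div hxy.ne' hb.ne']
    refine le_trans ?_ (le_abs_self _)
    have h2 := Real.one_sub_inv_le_log_of_pos (x := (x + y) / x) (by positivity)
    refine le_trans (le_of_eq ?_) h2
    rw [inv_div]
    field_simp
    ring
  have h0 : 0 < y / (x + y) := by positivity
  have h2 : ((x + y) * x) ^ (-1 - δ) / |Real.log (x + y) - Real.log x| ≤
      ((x + y) * x) ^ (-1 - δ) / (y / (x + y)) :=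
    div_le_div_of_nonneg_left (by positivity) h0 h1
  calc (x + y) ^ ε * x ^ ε * (((x + y) * x) ^ (-1 - δ) / |Real.log (x + y) - Real.log x|)
      ≤ (x + y) ^ ε * x ^ ε * (((x + y) * x) ^ (-1 - δ) / (y / (x + y))) :=
        mul_le_mul_of_nonneg_left h2 (by positivity)
    _ = (x + y) ^ (-(δ - ε)) * (x ^ (-1 - (δ - ε)) * y⁻¹) := by
        rw [Real.mul_rpow hxy.le hb.le]
        have e2 : (x + y) ^ (-(δ - ε)) = (x + y) ^ ε * (x + y) ^ (-1 - δ) * (x + y) := by
          rw [← Real.rpow_add hxy]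
          nth_rewrite 3 [← Real.rpow_one (x + y)]
          rw [← Real.rpow_add hxy]
          congr 1; ring
        have e3 : x ^ (-1 - (δ - ε)) = x ^ ε * x ^ (-1 - δ) := by
          rw [← Real.rpow_add hb]
          congr 1; ring
        rw [e2, e3]
        field_simp
    _ ≤ y ^ (-(δ - ε)) * (x ^ (-1 - (δ - ε)) * y⁻¹) := by
        refine mul_le_mul_of_nonneg_right ?_ (by positivity)
        exact Real.rpow_le_rpow_of_nonpos hm (by linarith) (by linarith)
    _ = x ^ (-1 - (δ - ε)) * y ^ (-1 - (δ - ε)) := by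
        have e4 : y ^ (-1 - (δ - ε)) = y ^ (-(δ - ε)) * y⁻¹ := by
          rw [← Real.rpow_neg_one y, ← Real.rpow_add hm]
          congr 1; ring
        rw [e4]; ring

theorem outer_pairs (k : ℕ) (δ : ℝ) (hδ : 0 < δ) :
    ∑' a : ℕ+, (((a : ℕ).divisors.card : ENNReal)) ^ k *
      ∑' b : ℕ+, (((b : ℕ).divisors.card : ENNReal)) ^ k * ENNReal.ofReal (Tw δ a b) ≠ ⊤ := by
  -- divisor bound
  obtain ⟨C, hC1, hC⟩ : ∃ C : ℝ, 1 ≤ C ∧ ∀ n : ℕ+,
      (((n : ℕ).divisors.card : ℝ)) ^ k ≤ C * (((n : ℕ) : ℝ)) ^ (δ / 2) := by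
    obtain ⟨C, hC1, hC⟩ := Pool.Agent.Lib.P5632c9.card_divisors_le (δ / 2 / (k + 1)) (by positivity)
    refine ⟨C ^ k, one_le_pow₀ hC1, fun n => ?_⟩
    have hn1 : (1:ℝ) ≤ (((n : ℕ) : ℝ)) := by exact_mod_cast n.pos
    refine (pow_le_pow_left₀ (by positivity) (hC n n.ne_zero) k).trans ?_
    rw [mul_pow]
    refine mul_le_mul_of_nonneg_left ?_ (by positivity)
    rw [← Real.rpow_natCast, ← Real.rpow_mul (by positivity)]
    refine Real.rpow_le_rpow_of_exponent_le hn1 ?_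
    rw [div_mul_eq_mul_div, div_le_iff₀ (by positivity)]
    have : (0:ℝ) ≤ k := Nat.cast_nonneg _
    nlinarith
  have hC0 : 0 < C := by linarith
  have hη : 0 < δ - δ / 2 := by linarith
  set Z : ENNReal := ∑' n : ℕ+, ENNReal.ofReal (((n : ℕ) : ℝ) ^ (-1 - (δ - δ / 2))) with hZ
  have hZt : Z ≠ ⊤ := tsum_zeta_ne_top hη
  -- the weight
  set w : ℕ+ → ℕ+ → ENNReal := fun a b => (((a : ℕ).divisors.card : ENNReal)) ^ k *
    ((((b : ℕ).divisors.card : ENNReal)) ^ k * ENNReal.ofReal (Tw δ a b)) with hw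
  have hwsymm : ∀ a b, w a b = w b a := by
    intro a b
    simp only [hw]
    rw [Tw_symm δ a b]
    ring
  have hwself : ∀ a, w a a = 0 := by
    intro a
    simp only [hw]
    rw [Tw_self]; simp
  have hwle : ∀ m b : ℕ+, w (b + m) b ≤ ENNReal.ofReal (C * C) *
      (ENNReal.ofReal (((b : ℕ) : ℝ) ^ (-1 - (δ - δ / 2))) *
        ENNReal.ofReal (((m : ℕ) : ℝ) ^ (-1 - (δ - δ / 2)))) := by
    intro m b
    simp only [hw]
    have e1 : ∀ n : ℕ+, (((n : ℕ).divisors.card : ENNReal)) ^ k =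
        ENNReal.ofReal ((((n : ℕ).divisors.card : ℝ)) ^ k) := by
      intro n
      rw [ENNReal.ofReal_pow (Nat.cast_nonneg _), ENNReal.ofReal_natCast]
    rw [e1, e1, ← ENNReal.ofReal_mul (by positivity), ← ENNReal.ofReal_mul (by positivity),
      ← ENNReal.ofReal_mul (by positivity), ← ENNReal.ofReal_mul (by positivity)]
    refine ENNReal.ofReal_le_ofReal ?_
    have h1 := Tw_le (δ := δ) (ε := δ / 2) (by linarith) m b
    have h2 := hC (b + m)
    have h3 := hC b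
    have hT := Tw_nonneg δ (b + m) b
    calc ((((b + m : ℕ+) : ℕ).divisors.card : ℝ)) ^ k * (((((b : ℕ).divisors.card : ℝ)) ^ k) * Tw δ (b + m) b)
        ≤ (C * ((((b + m : ℕ+) : ℕ) : ℝ)) ^ (δ / 2)) * ((C * (((b : ℕ) : ℝ)) ^ (δ / 2)) * Tw δ (b + m) b) := by
          refine mul_le_mul h2 ?_ (by positivity) (by positivity)
          exact mul_le_mul_of_nonneg_right h3 hT
      _ = C * C * (((((b + m : ℕ+) : ℕ) : ℝ)) ^ (δ / 2) * (((b : ℕ) : ℝ)) ^ (δ / 2) * Tw δ (b + m) b) := by ring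
      _ ≤ _ := mul_le_mul_of_nonneg_left h1 (by positivity)
  have hA : ∑' b : ℕ+, ∑' m : ℕ+, w (b + m) b ≤ ENNReal.ofReal (C * C) * (Z * Z) := by
    calc ∑' b : ℕ+, ∑' m : ℕ+, w (b + m) b
        ≤ ∑' b : ℕ+, ∑' m : ℕ+, ENNReal.ofReal (C * C) *
          (ENNReal.ofReal (((b : ℕ) : ℝ) ^ (-1 - (δ - δ / 2))) *
            ENNReal.ofReal (((m : ℕ) : ℝ) ^ (-1 - (δ - δ / 2)))) :=
          ENNReal.tsum_le_tsum fun b => ENNReal.tsum_le_tsum fun m => hwle m b
      _ = _ := by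
          simp_rw [ENNReal.tsum_mul_left]
          rw [ENNReal.tsum_mul_right]
  have hB : ∀ b : ℕ+, ∑' a : ℕ+, (if b < a then w a b else 0) = ∑' m : ℕ+, w (b + m) b := by
    intro b
    have hinj : Function.Injective (fun m : ℕ+ => b + m) := fun x y h => by simpa using h
    have h1 := hinj.tsum_eq (f := fun a : ℕ+ => (if b < a then w a b else 0)) (by
      intro a ha
      rw [Function.mem_support] at ha
      by_cases h : b < a
      · exact ⟨a - b, PNat.add_sub_of_lt h⟩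
      · simp [h] at ha)
    rw [← h1]
    refine tsum_congr fun m => ?_
    rw [if_pos (PNat.lt_add_right b m)]
  have hle : ∀ a b : ℕ+, w a b ≤ (if b < a then w a b else 0) + (if a < b then w b a else 0) := by
    intro a b
    rcases lt_trichotomy a b with h | h | h
    · rw [if_pos h, if_neg (not_lt.2 h.le), zero_add, hwsymm]
    · subst h; rw [hwself]; exact zero_le
    · rw [if_pos h]; exact le_self_add
  have hfin : ∑' a : ℕ+, ∑' b : ℕ+, w a b ≤ 2 * (ENNReal.ofReal (C * C) * (Z * Z)) := by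
    calc ∑' a : ℕ+, ∑' b : ℕ+, w a b
        ≤ ∑' a : ℕ+, ∑' b : ℕ+, ((if b < a then w a b else 0) + (if a < b then w b a else 0)) :=
          ENNReal.tsum_le_tsum fun a => ENNReal.tsum_le_tsum fun b => hle a b
      _ = (∑' a : ℕ+, ∑' b : ℕ+, (if b < a then w a b else 0)) +
          ∑' a : ℕ+, ∑' b : ℕ+, (if a < b then w b a else 0) := by
          simp_rw [ENNReal.tsum_add]
      _ = (∑' b : ℕ+, ∑' a : ℕ+, (if b < a then w a b else 0)) +
          ∑' a : ℕ+, ∑' b : ℕ+, (if a < b then w b a else 0) := by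
          rw [ENNReal.tsum_comm]
      _ = 2 * ∑' b : ℕ+, ∑' m : ℕ+, w (b + m) b := by
          simp_rw [hB]
          rw [two_mul]
      _ ≤ _ := by gcongr
  have hlt : ∑' a : ℕ+, ∑' b : ℕ+, w a b ≠ ⊤ := by
    refine ne_top_of_le_ne_top ?_ hfin
    exact ENNReal.mul_ne_top (by norm_num) (ENNReal.mul_ne_top ENNReal.ofReal_ne_top (ENNReal.mul_ne_top hZt hZt))
  simp_rw [hw, ENNReal.tsum_mul_left] at hlt
  exact hlt

theorem outer_sum (k : ℕ) (δ : ℝ) (hδ : 0 < δ) : ∃ C : ℝ, 0 < C ∧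
    ∑' q : Fin k → Q, ENNReal.ofReal ((∏ j, (hgt (q j).1) ^ (-1 - δ)) / |lam (fun j => (q j).1)|) ≤
      ENNReal.ofReal C := by
  have hfin := outer_pairs k δ hδ
  set S := ∑' a : ℕ+, (((a : ℕ).divisors.card : ENNReal)) ^ k *
      ∑' b : ℕ+, (((b : ℕ).divisors.card : ENNReal)) ^ k * ENNReal.ofReal (Tw δ a b) with hS
  refine ⟨S.toReal + 1, by positivity, ?_⟩
  refine le_trans ?_ (show S ≤ ENNReal.ofReal (S.toReal + 1) from ?_)
  swap
  · refine le_trans (le_of_eq (ENNReal.ofReal_toReal hfin).symm) ?_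
    exact ENNReal.ofReal_le_ofReal (by linarith)
  have hterm : ∀ q : Fin k → Q,
      ENNReal.ofReal ((∏ j, (hgt (q j).1) ^ (-1 - δ)) / |lam (fun j => (q j).1)|) =
        ENNReal.ofReal (Tw δ (∏ j, (q j).1.1) (∏ j, (q j).1.2)) := by
    intro q
    congr 1
    unfold Tw
    have e1 : ∀ f : Fin k → ℕ+, (((∏ j, f j : ℕ+) : ℕ) : ℝ) = ∏ j, (((f j : ℕ+) : ℕ) : ℝ) := by
      intro f
      rw [← Nat.cast_prod]
      congr 1
      exact map_prod PNat.coeMonoidHom f Finset.univ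
    rw [e1, e1]
    congr 1
    · rw [← Finset.prod_mul_distrib]
      rw [← Real.finsetProd_rpow]
      · rfl
      · intro j _; positivity
    · unfold lam lgr
      rw [Finset.sum_sub_distrib, Real.log_prod, Real.log_prod]
      · intro j _
        exact_mod_cast ((q j).1.2).ne_zero
      · intro j _
        exact_mod_cast ((q j).1.1).ne_zero
  calc ∑' q : Fin k → Q, ENNReal.ofReal ((∏ j, (hgt (q j).1) ^ (-1 - δ)) / |lam (fun j => (q j).1)|)
      = ∑' q : Fin k → Q, ENNReal.ofReal (Tw δ (∏ j, (q j).1.1) (∏ j, (q j).1.2)) := tsum_congr hterm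
    _ ≤ ∑' p : (Fin k → ℕ+) × (Fin k → ℕ+), ENNReal.ofReal (Tw δ (∏ j, p.1 j) (∏ j, p.2 j)) := by
        have hinj : Function.Injective (fun q : Fin k → Q => ((fun j => (q j).1.1, fun j => (q j).1.2) :
            (Fin k → ℕ+) × (Fin k → ℕ+))) := by
          intro q q' h
          rw [Prod.mk.injEq] at h
          funext j
          apply Subtype.ext
          exact Prod.ext (congrFun h.1 j) (congrFun h.2 j)
        exact ENNReal.tsum_comp_le_tsum_of_injective hinj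
          (fun p => ENNReal.ofReal (Tw δ (∏ j, p.1 j) (∏ j, p.2 j)))
    _ = ∑' m : Fin k → ℕ+, ∑' n : Fin k → ℕ+, ENNReal.ofReal (Tw δ (∏ j, m j) (∏ j, n j)) := ENNReal.tsum_prod'
    _ ≤ ∑' m : Fin k → ℕ+, ∑' b : ℕ+, (((b : ℕ).divisors.card : ENNReal)) ^ k *
          ENNReal.ofReal (Tw δ (∏ j, m j) b) :=
        ENNReal.tsum_le_tsum fun m => tsum_prod_le k (fun b => ENNReal.ofReal (Tw δ (∏ j, m j) b))
    _ ≤ S := tsum_prod_le k (fun a => ∑' b : ℕ+, (((b : ℕ).divisors.card : ENNReal)) ^ k *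
          ENNReal.ofReal (Tw δ a b))

end Pool.Agent.P07318s
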