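import Pool.Agent.Lib.P07318s.Defs

/-!
Spacing of the logarithms of reduced fractions and the resulting sum.

`spacing`: for `q = a/b ≠ q' = a'/b'` put `m = a b'`, `n = a' b`, `m ≠ n`, `m n = h h'`, `lgr q - lgr q' = log(m/n)`;
wlog `m > n`, then `log(m/n) ≥ log((n+1)/n) ≥ 1/(n+1)` and also `log (m/n) ≥ 1 - n/m`. Since
`log(m/n) ≥ log(1+1/n) ≥ 1/(n+1) ≥ (1/√2)/√(n(n+1)) ≥ (1/2)/√(m n)` when `m ≥ n+1`.

`spaced_sum`: split dyadically, `2^i ≤ hgt q < 2^(i+1)`, `D = 2^i`. The numbers `lgr q + μ` are spaced by at least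
`1/(4D)`, so `∑ bb V (lgr q + μ) ≤ 2 ∑_{m ≥ 0, m ≤ M} 4V/(1 + V m/(8D)) ≤ 8V + 64 D (1 + log M)·(const)` where the
number of `q` (hence `M`) is at most `C D²` (crude). So the dyadic block is `≤ C (V + D (1 + log D))`, with
`V ≤ U`. Multiply by `kap ≤ (U/D)^δ` for `D ≤ U`, by `4 (U/D)²` for `D > U/2`, and sum over `i`:
`≤ C U (1 + log U) U^δ ≤ C' U^(1+2δ)`. Alternative without dyadic blocks: count `q` with `hgt q ≤ D` and
`|lgr q + μ| ≤ r` by `1 + 8 r D` and use layer cake sums.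
-/

set_option autoImplicit false

namespace Pool.Agent.P07318s

open MeasureTheory Complex

namespace Spaced

theorem log_core {m n : ℝ} (hn : 1 ≤ n) (hmn : n + 1 ≤ m) :
    1 / (2 * Real.sqrt (m * n)) ≤ Real.log m - Real.log n := by
  have hn0 : 0 < n := by linarith
  have hm0 : 0 < m := by linarith
  rw [← Real.log_div hm0.ne' hn0.ne']
  have h1 : 1 - (m / n)⁻¹ ≤ Real.log (m / n) := Real.one_sub_inv_le_log_of_pos (by positivity)
  refine le_trans ?_ h1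
  rw [inv_div]
  have h2 : 1 - n / m = (m - n) / m := by field_simp
  rw [h2]
  have hs : 0 < Real.sqrt (m * n) := Real.sqrt_pos.2 (by positivity)
  rw [div_le_div_iff₀ (by positivity) hm0]
  rw [one_mul]
  -- m ≤ (m-n) * (2 sqrt (m n))
  have h3 : m ≤ Real.sqrt ((2 * (m - n)) ^ 2 * (m * n)) := by
    apply Real.le_sqrt_of_sq_le
    have hd : 1 ≤ m - n := by linarith
    have : m ≤ (2 * (m - n)) ^ 2 * n := by
      have e : m = n + (m - n) := by ring
      have h4 : m - n ≤ (m - n) ^ 2 * n := by nlinarith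
      have h5 : n ≤ (m - n) ^ 2 * n := le_mul_of_one_le_left hn0.le (one_le_pow₀ hd)
      nlinarith
    nlinarith
  rw [Real.sqrt_mul (by positivity), Real.sqrt_sq (by linarith)] at h3
  linarith

end Spaced

open Spaced in
theorem spacing {q q' : Q} (h : q ≠ q') :
    1 / (2 * Real.sqrt (hgt q.1 * hgt q'.1)) ≤ |lgr q.1 - lgr q'.1| := by
  obtain ⟨⟨a, b⟩, hab⟩ := q
  obtain ⟨⟨a', b'⟩, hab'⟩ := q'
  simp only at hab hab'
  unfold lgr hgt
  simp only
  have ha : (1 : ℝ) ≤ ((a : ℕ) : ℝ) := by exact_mod_cast a.2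
  have hb : (1 : ℝ) ≤ ((b : ℕ) : ℝ) := by exact_mod_cast b.2
  have ha' : (1 : ℝ) ≤ ((a' : ℕ) : ℝ) := by exact_mod_cast a'.2
  have hb' : (1 : ℝ) ≤ ((b' : ℕ) : ℝ) := by exact_mod_cast b'.2
  have hne : (a : ℕ) * (b' : ℕ) ≠ (a' : ℕ) * (b : ℕ) := by
    intro he
    apply h
    have h1 : (a : ℕ) ∣ (a' : ℕ) := by
      have : (a : ℕ) ∣ (a' : ℕ) * (b : ℕ) := ⟨_, he.symm⟩
      exact Nat.Coprime.dvd_of_dvd_mul_right hab this
    have h2 : (a' : ℕ) ∣ (a : ℕ) := by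
      have : (a' : ℕ) ∣ (a : ℕ) * (b' : ℕ) := ⟨_, he⟩
      exact Nat.Coprime.dvd_of_dvd_mul_right hab' this
    have h3 : (a : ℕ) = (a' : ℕ) := Nat.dvd_antisymm h1 h2
    have h4 : (b' : ℕ) = (b : ℕ) := by
      rw [h3] at he
      exact Nat.eq_of_mul_eq_mul_left a'.2 he
    have h5 : a = a' := PNat.coe_injective h3
    have h6 : b = b' := PNat.coe_injective h4.symm
    subst h5 h6
    rfl
  have e1 : Real.log ((a : ℕ) : ℝ) - Real.log ((b : ℕ) : ℝ)
      - (Real.log ((a' : ℕ) : ℝ) - Real.log ((b' : ℕ) : ℝ))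
      = Real.log (((a : ℕ) : ℝ) * ((b' : ℕ) : ℝ)) - Real.log (((a' : ℕ) : ℝ) * ((b : ℕ) : ℝ)) := by
    rw [Real.log_mul (by linarith) (by linarith), Real.log_mul (by linarith) (by linarith)]
    ring
  rw [e1]
  rcases lt_or_gt_of_ne hne with hlt | hlt
  · have h7 : ((a : ℕ) : ℝ) * ((b' : ℕ) : ℝ) + 1 ≤ ((a' : ℕ) : ℝ) * ((b : ℕ) : ℝ) := by
      exact_mod_cast hlt
    have h8 := log_core (n := ((a : ℕ) : ℝ) * ((b' : ℕ) : ℝ)) (by nlinarith) h7
    rw [abs_sub_comm]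
    refine le_trans ?_ (le_abs_self _)
    refine le_trans (le_of_eq ?_) h8
    congr 3
    ring
  · have h7 : ((a' : ℕ) : ℝ) * ((b : ℕ) : ℝ) + 1 ≤ ((a : ℕ) : ℝ) * ((b' : ℕ) : ℝ) := by
      exact_mod_cast hlt
    have h8 := log_core (n := ((a' : ℕ) : ℝ) * ((b : ℕ) : ℝ)) (by nlinarith) h7
    refine le_trans ?_ (le_abs_self _)
    refine le_trans (le_of_eq ?_) h8
    congr 3
    ring

namespace Spaced

theorem kap_le' {δ U h θ : ℝ} (h1 : δ ≤ θ) (h2 : θ ≤ 2) (hU : 0 < U) (hh : 0 < h) :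
    kap δ U h ≤ (U / h) ^ θ := by
  unfold kap
  split_ifs with h3
  · have h4 : 1 ≤ U / h := (one_le_div hh).2 h3
    exact Real.rpow_le_rpow_of_exponent_le h4 h1
  · push Not at h3
    have h4 : U / h ≤ 1 := (div_le_one hh).2 h3.le
    exact Real.rpow_le_rpow_of_exponent_ge (by positivity) h4 h2

/-- the dyadic index. -/
def di (q : Q) : ℕ := Nat.log 2 ((q.1.1 : ℕ) * (q.1.2 : ℕ))

/-- the cell index. -/
noncomputable def ce (μ : ℝ) (q : Q) : ℤ := ⌊(2 : ℝ) ^ (di q + 2) * (lgr q.1 + μ)⌋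

theorem di_le (q : Q) : (2 : ℝ) ^ di q ≤ hgt q.1 := by
  unfold di hgt
  have h : 2 ^ Nat.log 2 ((q.1.1 : ℕ) * (q.1.2 : ℕ)) ≤ (q.1.1 : ℕ) * (q.1.2 : ℕ) :=
    Nat.pow_log_le_self 2 (Nat.mul_pos q.1.1.2 q.1.2.2).ne'
  exact_mod_cast h

theorem lt_di (q : Q) : hgt q.1 < 2 * (2 : ℝ) ^ di q := by
  unfold di hgt
  have h : (q.1.1 : ℕ) * (q.1.2 : ℕ) < 2 ^ (Nat.log 2 ((q.1.1 : ℕ) * (q.1.2 : ℕ)) + 1) :=
    Nat.lt_pow_succ_log_self (by norm_num) _
  rw [pow_succ] at h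
  have h' : (((q.1.1 : ℕ) * (q.1.2 : ℕ) : ℕ) : ℝ)
      < ((2 ^ (Nat.log 2 ((q.1.1 : ℕ) * (q.1.2 : ℕ))) * 2 : ℕ) : ℝ) := by exact_mod_cast h
  push_cast at h'
  linarith

theorem inj (μ : ℝ) : Function.Injective fun q : Q => (di q, ce μ q) := by
  intro q q' h
  simp only [Prod.mk.injEq] at h
  obtain ⟨hd, hc⟩ := h
  by_contra hne
  have hs := spacing hne
  have h1 := lt_di q
  have h2 := lt_di q'
  rw [← hd] at h2
  have hp : (0 : ℝ) < 2 ^ di q := by positivity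
  have h3 : Real.sqrt (hgt q.1 * hgt q'.1) < 2 * 2 ^ di q := by
    rw [Real.sqrt_lt' (by positivity)]
    have := hgt_pos q.1
    have := hgt_pos q'.1
    nlinarith
  have h3' : 0 < Real.sqrt (hgt q.1 * hgt q'.1) :=
    Real.sqrt_pos.2 (mul_pos (hgt_pos _) (hgt_pos _))
  have h4 : 1 / (2 ^ (di q + 2) : ℝ) < 1 / (2 * Real.sqrt (hgt q.1 * hgt q'.1)) := by
    apply one_div_lt_one_div_of_lt (by positivity)
    rw [pow_add]
    linarith
  have h5 := lt_of_lt_of_le h4 hs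
  have h6 : |(2 : ℝ) ^ (di q + 2) * (lgr q.1 + μ) - (2 : ℝ) ^ (di q + 2) * (lgr q'.1 + μ)| < 1 := by
    apply Int.abs_sub_lt_one_of_floor_eq_floor
    unfold ce at hc
    rw [← hd] at hc
    exact hc
  rw [← mul_sub, abs_mul, abs_of_pos (by positivity : (0 : ℝ) < 2 ^ (di q + 2))] at h6
  have h7 : lgr q.1 + μ - (lgr q'.1 + μ) = lgr q.1 - lgr q'.1 := by ring
  rw [h7] at h6
  rw [div_lt_iff₀ (by positivity)] at h5
  linarith

/-- main pointwise bound. -/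
theorem bound {δ U V μ : ℝ} (hδ : 0 < δ) (hδ2 : δ ≤ 1 / 2) (hU : 1 ≤ U) (hV : 0 ≤ V) (hVU : V ≤ U)
    (q : Q) :
    kap δ U (hgt q.1) * bb V (lgr q.1 + μ) ≤
      U ^ (1 + 2 * δ) * (48 * (((2 : ℝ) ^ di q) ^ (-δ) * (1 + |(ce μ q : ℝ)|) ^ (-(1 + δ / 2)))) +
      U ^ (1 + 2 * δ) * (192 * (hgt q.1) ^ (-2 : ℝ)) := by
  have hU0 : 0 < U := by linarith
  set D : ℝ := (2 : ℝ) ^ di q with hD
  have hD1 : 1 ≤ D := one_le_pow₀ (by norm_num)
  have hD0 : 0 < D := by linarith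
  set x : ℝ := 1 + |(ce μ q : ℝ)| with hx
  have hx1 : 1 ≤ x := by rw [hx]; linarith [abs_nonneg (ce μ q : ℝ)]
  have hx0 : 0 < x := by linarith
  have hh := hgt_pos q.1
  have hDh : D ≤ hgt q.1 := di_le q
  have hhD : hgt q.1 < 2 * D := lt_di q
  have hUp : 0 < U ^ (1 + 2 * δ) := Real.rpow_pos_of_pos hU0 _
  have hA : 0 ≤ U ^ (1 + 2 * δ) * (48 * (D ^ (-δ) * x ^ (-(1 + δ / 2)))) := by positivity
  have hB : 0 ≤ U ^ (1 + 2 * δ) * (192 * (hgt q.1) ^ (-2 : ℝ)) := by positivity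
  have hbb0 := bb_nonneg hV (lgr q.1 + μ)
  by_cases hc : x ≤ 2
  · -- near cells
    have h1 : kap δ U (hgt q.1) ≤ (U / hgt q.1) ^ (2 * δ) :=
      kap_le' (by linarith) (by linarith) hU0 hh
    have h2 : (U / hgt q.1) ^ (2 * δ) ≤ U ^ (2 * δ) * D ^ (-δ) := by
      rw [Real.div_rpow hU0.le hh.le, div_eq_mul_inv, ← Real.rpow_neg hh.le]
      apply mul_le_mul_of_nonneg_left _ (Real.rpow_nonneg hU0.le _)
      calc (hgt q.1) ^ (-(2 * δ)) ≤ D ^ (-(2 * δ)) :=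
            Real.rpow_le_rpow_of_nonpos hD0 hDh (by linarith)
        _ ≤ D ^ (-δ) := Real.rpow_le_rpow_of_exponent_le hD1 (by linarith)
    have h3 : bb V (lgr q.1 + μ) ≤ 4 * U := (bb_le hV _).trans (by linarith)
    have h4 : (1 : ℝ) / 4 ≤ x ^ (-(1 + δ / 2)) := by
      calc (1 : ℝ) / 4 = (2 : ℝ) ^ (-2 : ℝ) := by
            rw [Real.rpow_neg (by norm_num)]
            norm_num
        _ ≤ (2 : ℝ) ^ (-(1 + δ / 2)) :=
            Real.rpow_le_rpow_of_exponent_le (by norm_num) (by linarith)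
        _ ≤ x ^ (-(1 + δ / 2)) := Real.rpow_le_rpow_of_nonpos hx0 hc (by linarith)
    have h5 : U ^ (1 + 2 * δ) = U * U ^ (2 * δ) := by
      rw [Real.rpow_add hU0, Real.rpow_one]
    have hUd : 0 < U ^ (2 * δ) := Real.rpow_pos_of_pos hU0 _
    have hDd : 0 < D ^ (-δ) := Real.rpow_pos_of_pos hD0 _
    calc kap δ U (hgt q.1) * bb V (lgr q.1 + μ)
        ≤ (U ^ (2 * δ) * D ^ (-δ)) * (4 * U) :=
          mul_le_mul (h1.trans h2) h3 hbb0 (by positivity)
      _ = U ^ (1 + 2 * δ) * (16 * (D ^ (-δ) * (1 / 4))) := by rw [h5]; ring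
      _ ≤ U ^ (1 + 2 * δ) * (48 * (D ^ (-δ) * x ^ (-(1 + δ / 2)))) := by
          apply mul_le_mul_of_nonneg_left _ hUp.le
          have h6 : D ^ (-δ) * (1 / 4) ≤ D ^ (-δ) * x ^ (-(1 + δ / 2)) :=
            mul_le_mul_of_nonneg_left h4 hDd.le
          have h7 : 0 ≤ D ^ (-δ) * x ^ (-(1 + δ / 2)) := by positivity
          linarith
      _ ≤ _ := le_add_of_nonneg_right hB
  · push Not at hc
    -- far cells
    have hm : (2 : ℝ) ≤ |(ce μ q : ℝ)| := by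
      have h0 : (1 : ℝ) < |(ce μ q : ℝ)| := by rw [hx] at hc; linarith
      have h0' : (1 : ℤ) < |ce μ q| := by
        rw [← Int.cast_abs] at h0
        exact_mod_cast h0
      have h0'' : (2 : ℤ) ≤ |ce μ q| := h0'
      rw [← Int.cast_abs]
      exact_mod_cast h0''
    have hl : x / (12 * D) ≤ |lgr q.1 + μ| := by
      have e0 : (2 : ℝ) ^ (di q + 2) = 4 * D := by rw [hD, pow_add]; ring
      have h1 : ((ce μ q : ℤ) : ℝ) ≤ 4 * D * (lgr q.1 + μ) := by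
        have := Int.floor_le ((2 : ℝ) ^ (di q + 2) * (lgr q.1 + μ))
        rw [e0] at this
        unfold ce
        rw [e0]
        exact this
      have h2 : 4 * D * (lgr q.1 + μ) < ((ce μ q : ℤ) : ℝ) + 1 := by
        have := Int.lt_floor_add_one ((2 : ℝ) ^ (di q + 2) * (lgr q.1 + μ))
        rw [e0] at this
        unfold ce
        rw [e0]
        exact this
      have h3 : |((ce μ q : ℤ) : ℝ)| - 1 ≤ |4 * D * (lgr q.1 + μ)| := by
        rcases abs_cases ((ce μ q : ℤ) : ℝ) with ⟨h4, h5⟩ | ⟨h4, h5⟩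
        · rw [h4]
          exact le_trans (by linarith) (le_abs_self _)
        · rw [h4]
          exact le_trans (by linarith) (neg_le_abs _)
      rw [abs_mul, abs_of_pos (by positivity : (0 : ℝ) < 4 * D)] at h3
      rw [div_le_iff₀ (by positivity)]
      have h4 : x ≤ 3 * (|((ce μ q : ℤ) : ℝ)| - 1) := by rw [hx]; linarith
      linarith
    have hl0 : 0 < |lgr q.1 + μ| := lt_of_lt_of_le (by positivity) hl
    have hb : bb V (lgr q.1 + μ) ≤ 48 * D / x := by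
      refine (bb_le_inv hV (abs_pos.1 hl0)).trans ?_
      rw [div_le_div_iff₀ hl0 hx0]
      rw [div_le_iff₀ (by positivity)] at hl
      linarith
    have h1 : kap δ U (hgt q.1) ≤ (U / hgt q.1) ^ (1 + 2 * δ) :=
      kap_le' (by linarith) (by linarith) hU0 hh
    have h2 : (U / hgt q.1) ^ (1 + 2 * δ) ≤ U ^ (1 + 2 * δ) * (D⁻¹ * D ^ (-(2 * δ))) := by
      rw [Real.div_rpow hU0.le hh.le, div_eq_mul_inv, ← Real.rpow_neg hh.le]
      apply mul_le_mul_of_nonneg_left _ (Real.rpow_nonneg hU0.le _)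
      calc (hgt q.1) ^ (-(1 + 2 * δ)) ≤ D ^ (-(1 + 2 * δ)) :=
            Real.rpow_le_rpow_of_nonpos hD0 hDh (by linarith)
        _ = D⁻¹ * D ^ (-(2 * δ)) := by
            rw [← Real.rpow_neg_one, ← Real.rpow_add hD0]
            congr 1
            ring
    have hDd2 : 0 < D ^ (-(2 * δ)) := Real.rpow_pos_of_pos hD0 _
    have h3 : kap δ U (hgt q.1) * bb V (lgr q.1 + μ)
        ≤ U ^ (1 + 2 * δ) * (48 * (D ^ (-(2 * δ)) * x⁻¹)) := by
      calc kap δ U (hgt q.1) * bb V (lgr q.1 + μ)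
          ≤ (U ^ (1 + 2 * δ) * (D⁻¹ * D ^ (-(2 * δ)))) * (48 * D / x) :=
            mul_le_mul (h1.trans h2) hb hbb0 (by positivity)
        _ = U ^ (1 + 2 * δ) * (48 * (D ^ (-(2 * δ)) * x⁻¹)) := by
            field_simp
    by_cases hK : x ≤ D ^ (2 : ℝ)
    · refine le_trans h3 (le_trans ?_ (le_add_of_nonneg_right hB))
      apply mul_le_mul_of_nonneg_left _ hUp.le
      apply mul_le_mul_of_nonneg_left _ (by norm_num)
      have h4 : x ^ (δ / 2) ≤ D ^ δ := by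
        calc x ^ (δ / 2) ≤ (D ^ (2 : ℝ)) ^ (δ / 2) :=
              Real.rpow_le_rpow hx0.le hK (by linarith)
          _ = D ^ δ := by
              rw [← Real.rpow_mul hD0.le]
              congr 1
              ring
      have h5 : x⁻¹ = x ^ (-(1 + δ / 2)) * x ^ (δ / 2) := by
        rw [← Real.rpow_add hx0, ← Real.rpow_neg_one]
        congr 1
        ring
      have h6 : D ^ (-(2 * δ)) * D ^ δ = D ^ (-δ) := by
        rw [← Real.rpow_add hD0]
        congr 1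
        ring
      rw [h5]
      calc D ^ (-(2 * δ)) * (x ^ (-(1 + δ / 2)) * x ^ (δ / 2))
          ≤ D ^ (-(2 * δ)) * (x ^ (-(1 + δ / 2)) * D ^ δ) := by
            apply mul_le_mul_of_nonneg_left _ hDd2.le
            exact mul_le_mul_of_nonneg_left h4 (Real.rpow_nonneg hx0.le _)
        _ = (D ^ (-(2 * δ)) * D ^ δ) * x ^ (-(1 + δ / 2)) := by ring
        _ = D ^ (-δ) * x ^ (-(1 + δ / 2)) := by rw [h6]
    · push Not at hK
      refine le_trans h3 (le_trans ?_ (le_add_of_nonneg_left hA))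
      apply mul_le_mul_of_nonneg_left _ hUp.le
      have h4 : D ^ (-(2 * δ)) ≤ 1 := Real.rpow_le_one_of_one_le_of_nonpos hD1 (by linarith)
      have h5 : x⁻¹ ≤ (D ^ (2 : ℝ))⁻¹ := inv_anti₀ (by positivity) hK.le
      have h6 : (D ^ (2 : ℝ))⁻¹ ≤ 4 * (hgt q.1) ^ (-2 : ℝ) := by
        rw [Real.rpow_neg hh.le, Real.rpow_two, Real.rpow_two]
        rw [inv_le_iff_one_le_mul₀ (by positivity)]
        have h7 : (hgt q.1) ^ 2 ≤ 4 * D ^ 2 := by nlinarith
        have h8 : 4 * (hgt q.1 ^ 2)⁻¹ * D ^ 2 = (4 * D ^ 2) / (hgt q.1) ^ 2 := by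
          field_simp
        rw [h8, one_le_div (by positivity)]
        exact h7
      have h9 : D ^ (-(2 * δ)) * x⁻¹ ≤ 1 * (4 * (hgt q.1) ^ (-2 : ℝ)) :=
        mul_le_mul h4 (h5.trans h6) (by positivity) (by norm_num)
      linarith

theorem summable1 {δ : ℝ} (hδ : 0 < δ) :
    Summable fun p : ℕ × ℤ => ((2 : ℝ) ^ p.1) ^ (-δ) * (1 + |(p.2 : ℝ)|) ^ (-(1 + δ / 2)) := by
  have h1 : Summable fun i : ℕ => ((2 : ℝ) ^ i) ^ (-δ) := by
    have e : (fun i : ℕ => ((2 : ℝ) ^ i) ^ (-δ)) = fun i : ℕ => ((2 : ℝ) ^ (-δ)) ^ i := by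
      ext i
      rw [← Real.rpow_natCast, ← Real.rpow_natCast, ← Real.rpow_mul (by norm_num),
        ← Real.rpow_mul (by norm_num)]
      congr 1
      ring
    rw [e]
    apply summable_geometric_of_lt_one (by positivity)
    exact Real.rpow_lt_one_of_one_lt_of_neg (by norm_num) (by linarith)
  have h2 : Summable fun m : ℤ => (1 + |(m : ℝ)|) ^ (-(1 + δ / 2)) := by
    have h3 : Summable fun n : ℕ => (1 + (n : ℝ)) ^ (-(1 + δ / 2)) := by
      have h4 : Summable fun n : ℕ => ((n : ℝ)) ^ (-(1 + δ / 2)) :=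
        Real.summable_nat_rpow.2 (by linarith)
      have h5 := (summable_nat_add_iff 1).2 h4
      refine h5.congr ?_
      intro n
      push_cast
      rw [add_comm]
    apply Summable.of_nat_of_neg
    · refine h3.congr ?_
      intro n
      simp
    · refine h3.congr ?_
      intro n
      simp
  exact h1.mul_of_nonneg h2 (fun i => by positivity) (fun m => by positivity)

theorem summable2 : Summable fun p : ℕ+ × ℕ+ => (hgt p) ^ (-2 : ℝ) := by
  have h1 : Summable fun n : ℕ+ => (((n : ℕ) : ℝ)) ^ (-2 : ℝ) := by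
    have h4 : Summable fun n : ℕ => ((n : ℝ)) ^ (-2 : ℝ) :=
      Real.summable_nat_rpow.2 (by norm_num)
    exact h4.comp_injective PNat.coe_injective
  have h2 := h1.mul_of_nonneg h1 (fun i => by positivity) (fun i => by positivity)
  refine h2.congr ?_
  intro p
  unfold hgt
  rw [Real.mul_rpow (by positivity) (by positivity)]

end Spaced

open Spaced in
theorem spaced_sum (δ : ℝ) (hδ : 0 < δ) (hδ2 : δ ≤ 1 / 2) : ∃ C : ℝ, 0 < C ∧ ∀ U V μ : ℝ, 1 ≤ U →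
    0 ≤ V → V ≤ U →
    ∑' q : Q, ENNReal.ofReal (kap δ U (hgt q.1) * bb V (lgr q.1 + μ)) ≤
      ENNReal.ofReal (C * U ^ (1 + 2 * δ)) := by
  set g1 : ℕ × ℤ → ℝ := fun p => ((2 : ℝ) ^ p.1) ^ (-δ) * (1 + |(p.2 : ℝ)|) ^ (-(1 + δ / 2)) with hg1
  set g2 : ℕ+ × ℕ+ → ℝ := fun p => (hgt p) ^ (-2 : ℝ) with hg2
  have h1 : Summable g1 := summable1 hδ
  have h2 : Summable g2 := summable2
  have n1 : ∀ p, 0 ≤ g1 p := fun p => by simp only [hg1]; positivity
  have n2 : ∀ p, 0 ≤ g2 p := fun p => Real.rpow_nonneg (hgt_pos p).le _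
  have s1 : 0 ≤ ∑' p, g1 p := tsum_nonneg n1
  have s2 : 0 ≤ ∑' p, g2 p := tsum_nonneg n2
  refine ⟨48 * (∑' p, g1 p) + 192 * (∑' p, g2 p) + 1, by positivity, ?_⟩
  intro U V μ hU hV hVU
  have hU0 : 0 < U := by linarith
  have hUp : 0 < U ^ (1 + 2 * δ) := Real.rpow_pos_of_pos hU0 _
  have hpt : ∀ q : Q, ENNReal.ofReal (kap δ U (hgt q.1) * bb V (lgr q.1 + μ)) ≤
      ENNReal.ofReal (U ^ (1 + 2 * δ) * 48) * ENNReal.ofReal (g1 (di q, ce μ q)) +
      ENNReal.ofReal (U ^ (1 + 2 * δ) * 192) * ENNReal.ofReal (g2 q.1) := by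
    intro q
    rw [← ENNReal.ofReal_mul (by positivity), ← ENNReal.ofReal_mul (by positivity),
      ← ENNReal.ofReal_add (mul_nonneg (by positivity) (n1 _)) (mul_nonneg (by positivity) (n2 _))]
    apply ENNReal.ofReal_le_ofReal
    have := bound (μ := μ) hδ hδ2 hU hV hVU q
    simp only [hg1, hg2]
    calc _ ≤ _ := this
      _ = _ := by ring
  calc ∑' q : Q, ENNReal.ofReal (kap δ U (hgt q.1) * bb V (lgr q.1 + μ))
      ≤ ∑' q : Q, (ENNReal.ofReal (U ^ (1 + 2 * δ) * 48) * ENNReal.ofReal (g1 (di q, ce μ q)) +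
      ENNReal.ofReal (U ^ (1 + 2 * δ) * 192) * ENNReal.ofReal (g2 q.1)) := ENNReal.tsum_le_tsum hpt
    _ = ENNReal.ofReal (U ^ (1 + 2 * δ) * 48) * ∑' q : Q, ENNReal.ofReal (g1 (di q, ce μ q)) +
        ENNReal.ofReal (U ^ (1 + 2 * δ) * 192) * ∑' q : Q, ENNReal.ofReal (g2 q.1) := by
        rw [ENNReal.tsum_add, ENNReal.tsum_mul_left, ENNReal.tsum_mul_left]
    _ ≤ ENNReal.ofReal (U ^ (1 + 2 * δ) * 48) * ∑' p, ENNReal.ofReal (g1 p) +
        ENNReal.ofReal (U ^ (1 + 2 * δ) * 192) * ∑' p, ENNReal.ofReal (g2 p) := by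
        gcongr
        · exact ENNReal.tsum_comp_le_tsum_of_injective (inj μ) (fun p => ENNReal.ofReal (g1 p))
        · exact ENNReal.tsum_comp_le_tsum_of_injective Subtype.val_injective
            (fun p => ENNReal.ofReal (g2 p))
    _ = ENNReal.ofReal (U ^ (1 + 2 * δ) * 48 * (∑' p, g1 p) +
          U ^ (1 + 2 * δ) * 192 * (∑' p, g2 p)) := by
        rw [← ENNReal.ofReal_tsum_of_nonneg n1 h1, ← ENNReal.ofReal_tsum_of_nonneg n2 h2,
          ← ENNReal.ofReal_mul (by positivity), ← ENNReal.ofReal_mul (by positivity),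
          ← ENNReal.ofReal_add (by positivity) (by positivity)]
    _ ≤ _ := by
        apply ENNReal.ofReal_le_ofReal
        nlinarith

end Pool.Agent.P07318s
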