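import Pool.Agent.Lib.P07318s.Defs
import Pool.Agent.Lib.P07318s.PiSum
import Pool.Agent.Lib.P07318s.Spaced
import Pool.Agent.Lib.P07318s.Outer

/-!
The counting estimate. `∏_j h_j^(-1/2) h'_j^(-1/2) ≤ (∏ 1/h_j + ∏ 1/h'_j)/2`, and the two resulting sums are equal by
the symmetry `q ↔ q'` (`bb_neg`). So it is enough to bound
`∑_q (∏ kap(h_j)/h_j) bb V (lam q) 1[lam q ≠ 0] ∑_{q'} (∏_j kap(h'_j)) bb V (lam q') ∏_{j ≥ 1} bb H (lgr q_j - lgr q'_j)`.
In the inner sum first sum over `q'_0` (`spaced_sum` with `μ = ∑_{j ≥ 1} lgr q'_j`), then over each `q'_j`, `j ≥ 1`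
(`spaced_sum` with `V := H`, `μ = -lgr q_j`, `tsum_pi_prod_ennreal`): the inner sum is `≤ (C U^(1+2δ))^(n+1)`.
The outer sum is `≤ 4 ∑_q ∏ (U^δ h_j^(-1-δ)) / |lam q| ≤ C U^((n+1)δ)` by `bb_le_inv`, `kap_le` and `outer_sum`.
-/

set_option autoImplicit false

namespace Pool.Agent.P07318s

open MeasureTheory Complex

namespace CountAux

/-- the first factor -/
noncomputable def fA (n : ℕ) (δ U V : ℝ) (q : Fin (n + 1) → Q) : ℝ :=
  if lam (fun j => (q j).1) = 0 then 0 else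
    (∏ j, (kap δ U (hgt (q j).1) * (hgt (q j).1)⁻¹)) * bb V (lam fun j => (q j).1)

/-- the second factor -/
noncomputable def fB (n : ℕ) (δ U V H : ℝ) (q q' : Fin (n + 1) → Q) : ℝ :=
  (∏ j, kap δ U (hgt (q' j).1)) * bb V (lam fun j => (q' j).1) *
    ∏ j : Fin n, bb H (lgr (q j.succ).1 - lgr (q' j.succ).1)

theorem fA_nonneg {n : ℕ} {δ U V : ℝ} (hU : 0 ≤ U) (hV : 0 ≤ V) (q : Fin (n + 1) → Q) :
    0 ≤ fA n δ U V q := by
  unfold fA
  split_ifs
  · exact le_rfl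
  · exact mul_nonneg (Finset.prod_nonneg fun j _ => mul_nonneg (kap_nonneg hU (hgt_pos _).le)
      (inv_nonneg.2 (hgt_pos _).le)) (bb_nonneg hV _)

theorem fB_nonneg {n : ℕ} {δ U V H : ℝ} (hU : 0 ≤ U) (hV : 0 ≤ V) (hH : 0 ≤ H)
    (q q' : Fin (n + 1) → Q) : 0 ≤ fB n δ U V H q q' :=
  mul_nonneg (mul_nonneg (Finset.prod_nonneg fun _ _ => kap_nonneg hU (hgt_pos _).le)
    (bb_nonneg hV _)) (Finset.prod_nonneg fun _ _ => bb_nonneg hH _)

theorem prod_ww (n : ℕ) (δ U : ℝ) (q : Fin (n + 1) → Q) :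
    ∏ j, ww δ U (q j) = (∏ j, kap δ U (hgt (q j).1)) * ∏ j, (hgt (q j).1) ^ (-(1 / 2) : ℝ) := by
  unfold ww
  rw [Finset.prod_mul_distrib]

theorem sq_prod (n : ℕ) (q : Fin (n + 1) → Q) :
    (∏ j, (hgt (q j).1) ^ (-(1 / 2) : ℝ)) ^ 2 = ∏ j, (hgt (q j).1)⁻¹ := by
  rw [← Finset.prod_pow]
  refine Finset.prod_congr rfl fun j _ => ?_
  rw [← Real.rpow_natCast, ← Real.rpow_mul (hgt_pos _).le]
  norm_num
  rw [Real.rpow_neg_one]

theorem term_le {n : ℕ} {δ U V H : ℝ} (hU : 0 ≤ U) (hV : 0 ≤ V) (hH : 0 ≤ H)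
    (q q' : Fin (n + 1) → Q) :
    (if lam (fun j => (q j).1) = 0 ∨ lam (fun j => (q' j).1) = 0 then 0 else
        (∏ j, ww δ U (q j)) * (∏ j, ww δ U (q' j)) * bb V (lam fun j => (q j).1) *
          bb V (lam fun j => (q' j).1) *
          ∏ j : Fin n, bb H (lgr (q j.succ).1 - lgr (q' j.succ).1)) ≤
      fA n δ U V q * fB n δ U V H q q' + fA n δ U V q' * fB n δ U V H q' q := by
  split_ifs with h
  · exact add_nonneg (mul_nonneg (fA_nonneg hU hV q) (fB_nonneg hU hV hH q q'))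
      (mul_nonneg (fA_nonneg hU hV q') (fB_nonneg hU hV hH q' q))
  · push Not at h
    unfold fA fB
    rw [if_neg h.1, if_neg h.2, prod_ww, prod_ww]
    have hP : ∏ j : Fin n, bb H (lgr (q' j.succ).1 - lgr (q j.succ).1) =
        ∏ j : Fin n, bb H (lgr (q j.succ).1 - lgr (q' j.succ).1) :=
      Finset.prod_congr rfl fun j _ => by rw [← bb_neg, neg_sub]
    rw [hP, Finset.prod_mul_distrib, Finset.prod_mul_distrib, ← sq_prod, ← sq_prod]
    set k₁ := ∏ j, kap δ U (hgt (q j).1)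
    set k₂ := ∏ j, kap δ U (hgt (q' j).1)
    set x := ∏ j, (hgt (q j).1) ^ (-(1 / 2) : ℝ)
    set y := ∏ j, (hgt (q' j).1) ^ (-(1 / 2) : ℝ)
    set b₁ := bb V (lam fun j => (q j).1)
    set b₂ := bb V (lam fun j => (q' j).1)
    set P := ∏ j : Fin n, bb H (lgr (q j.succ).1 - lgr (q' j.succ).1)
    have hk₁ : 0 ≤ k₁ := Finset.prod_nonneg fun j _ => kap_nonneg hU (hgt_pos _).le
    have hk₂ : 0 ≤ k₂ := Finset.prod_nonneg fun j _ => kap_nonneg hU (hgt_pos _).le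
    have hb₁ : 0 ≤ b₁ := bb_nonneg hV _
    have hb₂ : 0 ≤ b₂ := bb_nonneg hV _
    have hPn : 0 ≤ P := Finset.prod_nonneg fun j _ => bb_nonneg hH _
    have hxy : x * y ≤ x ^ 2 + y ^ 2 := by nlinarith [sq_nonneg (x - y), sq_nonneg (x + y)]
    have hc : 0 ≤ k₁ * k₂ * b₁ * b₂ * P := by positivity
    calc k₁ * x * (k₂ * y) * b₁ * b₂ * P = (k₁ * k₂ * b₁ * b₂ * P) * (x * y) := by ring
      _ ≤ (k₁ * k₂ * b₁ * b₂ * P) * (x ^ 2 + y ^ 2) := mul_le_mul_of_nonneg_left hxy hc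
      _ = _ := by ring

theorem inner {n : ℕ} {δ U V H C : ℝ} (hU : 0 ≤ U) (hV : 0 ≤ V) (hH : 0 ≤ H) (hC : 0 ≤ C)
    (h1 : ∀ μ : ℝ, ∑' q : Q, ENNReal.ofReal (kap δ U (hgt q.1) * bb V (lgr q.1 + μ)) ≤
      ENNReal.ofReal C)
    (h2 : ∀ μ : ℝ, ∑' q : Q, ENNReal.ofReal (kap δ U (hgt q.1) * bb H (lgr q.1 + μ)) ≤
      ENNReal.ofReal C) (q : Fin (n + 1) → Q) :
    ∑' q' : Fin (n + 1) → Q, ENNReal.ofReal (fB n δ U V H q q') ≤ ENNReal.ofReal (C ^ (n + 1)) := by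
  have e : ∀ p : Q × (Fin n → Q), ENNReal.ofReal (fB n δ U V H q
      (Fin.consEquiv (fun _ : Fin (n + 1) => Q) p)) =
      ENNReal.ofReal (kap δ U (hgt p.1.1) * bb V (lgr p.1.1 + ∑ j, lgr (p.2 j).1)) *
        ∏ j : Fin n, ENNReal.ofReal (kap δ U (hgt (p.2 j).1) *
          bb H (lgr (p.2 j).1 + -lgr (q j.succ).1)) := by
    intro p
    rw [← ENNReal.ofReal_prod_of_nonneg (fun j _ => mul_nonneg (kap_nonneg hU (hgt_pos _).le)
      (bb_nonneg hH _)), ← ENNReal.ofReal_mul (mul_nonneg (kap_nonneg hU (hgt_pos _).le)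
      (bb_nonneg hV _))]
    congr 1
    unfold fB lam
    have e0 : (Fin.consEquiv (fun _ : Fin (n + 1) => Q) p) 0 = p.1 := rfl
    have e1 : ∀ j : Fin n, (Fin.consEquiv (fun _ : Fin (n + 1) => Q) p) j.succ = p.2 j :=
      fun j => rfl
    rw [Fin.prod_univ_succ, Fin.sum_univ_succ]
    simp only [e0, e1]
    rw [Finset.prod_mul_distrib]
    have hP : ∏ j : Fin n, bb H (lgr (p.2 j).1 + -lgr (q j.succ).1) =
        ∏ j : Fin n, bb H (lgr (q j.succ).1 - lgr (p.2 j).1) :=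
      Finset.prod_congr rfl fun j _ => by rw [← bb_neg]; congr 1; ring
    rw [hP]
    ring
  rw [← (Fin.consEquiv (fun _ : Fin (n + 1) => Q)).tsum_eq
    (fun q' => ENNReal.ofReal (fB n δ U V H q q'))]
  simp_rw [e]
  rw [ENNReal.tsum_prod', ENNReal.tsum_comm]
  simp only [ENNReal.tsum_mul_right]
  calc ∑' r : Fin n → Q, (∑' a : Q, ENNReal.ofReal (kap δ U (hgt a.1) *
          bb V (lgr a.1 + ∑ j, lgr (r j).1))) *
        ∏ j : Fin n, ENNReal.ofReal (kap δ U (hgt (r j).1) *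
          bb H (lgr (r j).1 + -lgr (q j.succ).1))
      ≤ ∑' r : Fin n → Q, ENNReal.ofReal C *
        ∏ j : Fin n, ENNReal.ofReal (kap δ U (hgt (r j).1) *
          bb H (lgr (r j).1 + -lgr (q j.succ).1)) :=
        ENNReal.tsum_le_tsum fun r => mul_le_mul_left (h1 _) _
    _ = ENNReal.ofReal C * ∏ j : Fin n, ∑' a : Q, ENNReal.ofReal (kap δ U (hgt a.1) *
          bb H (lgr a.1 + -lgr (q j.succ).1)) := by
        rw [ENNReal.tsum_mul_left, ← tsum_pi_prod_ennreal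
          (fun (j : Fin n) (a : Q) => ENNReal.ofReal (kap δ U (hgt a.1) *
          bb H (lgr a.1 + -lgr (q j.succ).1)))]
    _ ≤ ENNReal.ofReal C * ∏ _j : Fin n, ENNReal.ofReal C :=
        mul_le_mul_right (Finset.prod_le_prod' fun j _ => h2 _) _
    _ = ENNReal.ofReal (C ^ (n + 1)) := by
        rw [Finset.prod_const, Finset.card_univ, Fintype.card_fin, ENNReal.ofReal_pow hC,
          pow_succ, mul_comm]

theorem outer {n : ℕ} {δ U V C : ℝ} (hδ : 0 < δ) (hδ2 : δ ≤ 1 / 2) (hU : 1 ≤ U) (hV : 0 ≤ V)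
    (h2 : ∑' q : Fin (n + 1) → Q, ENNReal.ofReal ((∏ j, (hgt (q j).1) ^ (-1 - δ)) /
      |lam (fun j => (q j).1)|) ≤ ENNReal.ofReal C) :
    ∑' q : Fin (n + 1) → Q, ENNReal.ofReal (fA n δ U V q) ≤
      ENNReal.ofReal (4 * (U ^ δ) ^ (n + 1)) * ENNReal.ofReal C := by
  have hU0 : 0 < U := by linarith
  have h3 : ∀ q : Fin (n + 1) → Q, ENNReal.ofReal (fA n δ U V q) ≤
      ENNReal.ofReal (4 * (U ^ δ) ^ (n + 1)) * ENNReal.ofReal ((∏ j, (hgt (q j).1) ^ (-1 - δ)) /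
      |lam (fun j => (q j).1)|) := by
    intro q
    rw [← ENNReal.ofReal_mul (by positivity)]
    apply ENNReal.ofReal_le_ofReal
    unfold fA
    have hpn : 0 ≤ ∏ j, (hgt (q j).1) ^ (-1 - δ) :=
      Finset.prod_nonneg fun j _ => Real.rpow_nonneg (hgt_pos _).le _
    split_ifs with h
    · positivity
    · have hb := bb_le_inv hV h
      have hk : ∏ j, (kap δ U (hgt (q j).1) * (hgt (q j).1)⁻¹) ≤
          (U ^ δ) ^ (n + 1) * ∏ j, (hgt (q j).1) ^ (-1 - δ) := by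
        have h4 : ∀ j, kap δ U (hgt (q j).1) * (hgt (q j).1)⁻¹ ≤
            U ^ δ * (hgt (q j).1) ^ (-1 - δ) := by
          intro j
          have hh := hgt_pos (q j).1
          have h5 := kap_le (δ := δ) (by linarith) hU0 hh
          rw [Real.div_rpow hU0.le hh.le] at h5
          have h6 : (hgt (q j).1) ^ (-1 - δ) = (hgt (q j).1)⁻¹ / (hgt (q j).1) ^ δ := by
            rw [Real.rpow_sub hh, Real.rpow_neg_one]
          rw [h6]
          calc kap δ U (hgt (q j).1) * (hgt (q j).1)⁻¹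
              ≤ U ^ δ / (hgt (q j).1) ^ δ * (hgt (q j).1)⁻¹ :=
                mul_le_mul_of_nonneg_right h5 (inv_nonneg.2 hh.le)
            _ = _ := by ring
        calc ∏ j, (kap δ U (hgt (q j).1) * (hgt (q j).1)⁻¹)
            ≤ ∏ j, (U ^ δ * (hgt (q j).1) ^ (-1 - δ)) :=
              Finset.prod_le_prod (fun j _ => mul_nonneg (kap_nonneg hU0.le (hgt_pos _).le)
                (inv_nonneg.2 (hgt_pos _).le)) fun j _ => h4 j
          _ = _ := by
              rw [Finset.prod_mul_distrib, Finset.prod_const, Finset.card_univ, Fintype.card_fin]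
      calc (∏ j, (kap δ U (hgt (q j).1) * (hgt (q j).1)⁻¹)) * bb V (lam fun j => (q j).1)
          ≤ ((U ^ δ) ^ (n + 1) * ∏ j, (hgt (q j).1) ^ (-1 - δ)) *
            (4 / |lam fun j => (q j).1|) :=
            mul_le_mul hk hb (bb_nonneg hV _) (by positivity)
        _ = _ := by ring
  refine (ENNReal.tsum_le_tsum h3).trans ?_
  rw [ENNReal.tsum_mul_left]
  exact mul_le_mul_right h2 _

end CountAux

open CountAux in
theorem count (n : ℕ) (δ : ℝ) (hδ : 0 < δ) (hδ2 : δ ≤ 1 / 2) : ∃ C : ℝ, 0 < C ∧ ∀ U V H : ℝ, 1 ≤ U →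
    0 ≤ V → V ≤ U → 0 ≤ H → H ≤ U →
    ∑' q : Fin (n + 1) → Q, ∑' q' : Fin (n + 1) → Q,
      ENNReal.ofReal (if lam (fun j => (q j).1) = 0 ∨ lam (fun j => (q' j).1) = 0 then 0 else
        (∏ j, ww δ U (q j)) * (∏ j, ww δ U (q' j)) * bb V (lam fun j => (q j).1) *
          bb V (lam fun j => (q' j).1) *
          ∏ j : Fin n, bb H (lgr (q j.succ).1 - lgr (q' j.succ).1)) ≤
      ENNReal.ofReal (C * U ^ (((n : ℝ) + 1) * (1 + 3 * δ))) := by
  obtain ⟨C1, hC1, h1⟩ := spaced_sum δ hδ hδ2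
  obtain ⟨C2, hC2, h2⟩ := outer_sum (n + 1) δ hδ
  refine ⟨8 * C2 * C1 ^ (n + 1), by positivity, ?_⟩
  intro U V H hU hV hVU hH hHU
  have hU0 : 0 < U := by linarith
  set M : ℝ := C1 * U ^ (1 + 2 * δ) with hM
  have hM0 : 0 ≤ M := by positivity
  have hin := fun q => inner (n := n) hU0.le hV hH hM0 (fun μ => h1 U V μ hU hV hVU)
    (fun μ => h1 U H μ hU hH hHU) q
  have hout := outer hδ hδ2 hU hV h2
  have hS : ∑' q : Fin (n + 1) → Q, ∑' q' : Fin (n + 1) → Q,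
      ENNReal.ofReal (fA n δ U V q) * ENNReal.ofReal (fB n δ U V H q q') ≤
      ENNReal.ofReal (4 * (U ^ δ) ^ (n + 1)) * ENNReal.ofReal C2 * ENNReal.ofReal (M ^ (n + 1)) := by
    simp only [ENNReal.tsum_mul_left]
    calc ∑' q : Fin (n + 1) → Q, ENNReal.ofReal (fA n δ U V q) *
          ∑' q' : Fin (n + 1) → Q, ENNReal.ofReal (fB n δ U V H q q')
        ≤ ∑' q : Fin (n + 1) → Q, ENNReal.ofReal (fA n δ U V q) *
          ENNReal.ofReal (M ^ (n + 1)) :=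
          ENNReal.tsum_le_tsum fun q => mul_le_mul_right (hin q) _
      _ = (∑' q : Fin (n + 1) → Q, ENNReal.ofReal (fA n δ U V q)) *
          ENNReal.ofReal (M ^ (n + 1)) := ENNReal.tsum_mul_right
      _ ≤ _ := mul_le_mul_left hout _
  have hterm : ∀ q q' : Fin (n + 1) → Q,
      ENNReal.ofReal (if lam (fun j => (q j).1) = 0 ∨ lam (fun j => (q' j).1) = 0 then 0 else
        (∏ j, ww δ U (q j)) * (∏ j, ww δ U (q' j)) * bb V (lam fun j => (q j).1) *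
          bb V (lam fun j => (q' j).1) *
          ∏ j : Fin n, bb H (lgr (q j.succ).1 - lgr (q' j.succ).1)) ≤
      ENNReal.ofReal (fA n δ U V q) * ENNReal.ofReal (fB n δ U V H q q') +
      ENNReal.ofReal (fA n δ U V q') * ENNReal.ofReal (fB n δ U V H q' q) := by
    intro q q'
    rw [← ENNReal.ofReal_mul (fA_nonneg hU0.le hV q), ← ENNReal.ofReal_mul
      (fA_nonneg hU0.le hV q'), ← ENNReal.ofReal_add
      (mul_nonneg (fA_nonneg hU0.le hV q) (fB_nonneg hU0.le hV hH q q'))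
      (mul_nonneg (fA_nonneg hU0.le hV q') (fB_nonneg hU0.le hV hH q' q))]
    exact ENNReal.ofReal_le_ofReal (term_le hU0.le hV hH q q')
  refine (ENNReal.tsum_le_tsum fun q => ENNReal.tsum_le_tsum fun q' => hterm q q').trans ?_
  simp only [ENNReal.tsum_add]
  have hcomm : ∑' q : Fin (n + 1) → Q, ∑' q' : Fin (n + 1) → Q,
      ENNReal.ofReal (fA n δ U V q') * ENNReal.ofReal (fB n δ U V H q' q) =
      ∑' q : Fin (n + 1) → Q, ∑' q' : Fin (n + 1) → Q,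
      ENNReal.ofReal (fA n δ U V q) * ENNReal.ofReal (fB n δ U V H q q') := ENNReal.tsum_comm
  rw [hcomm]
  refine (add_le_add hS hS).trans ?_
  rw [← ENNReal.ofReal_mul (by positivity), ← ENNReal.ofReal_mul (by positivity),
    ← ENNReal.ofReal_add (by positivity) (by positivity)]
  apply ENNReal.ofReal_le_ofReal
  apply le_of_eq
  have e1 : (U ^ δ) ^ (n + 1) * (U ^ (1 + 2 * δ)) ^ (n + 1) = U ^ (((n : ℝ) + 1) * (1 + 3 * δ)) := by
    rw [← mul_pow, ← Real.rpow_add hU0, ← Real.rpow_natCast, ← Real.rpow_mul hU0.le]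
    congr 1
    push_cast
    ring
  rw [← e1, hM, mul_pow]
  ring

end Pool.Agent.P07318s
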