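import Pool.Agent.Lib.P07318s.Defs
import Pool.Agent.Lib.P07318s.PiSum

/-!
Summability of the majorant: for `hgt q > U` we have `ww = U² hgt^(-5/2)`, finitely many `q` with `hgt q ≤ U`,
and `∑ hgt^(-3/2) = (∑ m^(-3/2))²` converges. (`ww ≤ (U + 1)^4 hgt^(-3/2)` or similar for every `q`, `0 < δ ≤ 1/2`:
if `h ≤ U` then `(U/h)^δ h^(-1/2) ≤ U^2 h^(-3/2)`.)
-/

set_option autoImplicit false

namespace Pool.Agent.P07318s

open MeasureTheory Complex

namespace KapSumAux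

theorem summable_pnat : Summable (fun m : ℕ+ => (((m : ℕ) : ℝ)) ^ (-(3 / 2) : ℝ)) := by
  have h : Summable (fun m : ℕ => ((m : ℕ) : ℝ) ^ (-(3 / 2) : ℝ)) :=
    Real.summable_nat_rpow.2 (by norm_num)
  exact h.comp_injective PNat.coe_injective

theorem summable_hgt : Summable (fun p : ℕ+ × ℕ+ => (hgt p) ^ (-(3 / 2) : ℝ)) := by
  have h := summable_pnat.mul_of_nonneg summable_pnat
    (fun m => Real.rpow_nonneg (Nat.cast_nonneg _) _) (fun m => Real.rpow_nonneg (Nat.cast_nonneg _) _)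
  refine h.congr fun p => ?_
  unfold hgt
  rw [Real.mul_rpow (Nat.cast_nonneg _) (Nat.cast_nonneg _)]

theorem summable_hgtQ : Summable (fun q : Q => (hgt q.1) ^ (-(3 / 2) : ℝ)) := by
  have hinj : Function.Injective (fun q : Q => q.1) := fun a b h => Subtype.ext h
  exact summable_hgt.comp_injective hinj

theorem kap_le_div {δ U h : ℝ} (hδ : 0 < δ) (hδ2 : δ ≤ 1 / 2) (hU : 1 ≤ U) (hh : 1 ≤ h) :
    kap δ U h ≤ U ^ 2 * h ^ (-1 : ℝ) := by
  have hh0 : 0 < h := by linarith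
  unfold kap
  rw [Real.rpow_neg_one, ← div_eq_mul_inv]
  split_ifs with h1
  · have h2 : 1 ≤ U / h := by rw [le_div_iff₀ hh0]; linarith
    calc (U / h) ^ δ ≤ (U / h) ^ (1 : ℝ) := Real.rpow_le_rpow_of_exponent_le h2 (by linarith)
      _ = U / h := Real.rpow_one _
      _ ≤ U ^ 2 / h := by
          apply div_le_div_of_nonneg_right _ hh0.le
          nlinarith
  · rw [show ((2 : ℝ)) = ((2 : ℕ) : ℝ) by norm_num, Real.rpow_natCast, div_pow]
    apply div_le_div_of_nonneg_left (by positivity) hh0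
    nlinarith

end KapSumAux

theorem ww_summable {δ U : ℝ} (hδ : 0 < δ) (hδ2 : δ ≤ 1 / 2) (hU : 1 ≤ U) :
    Summable (fun q : Q => ww δ U q) := by
  refine Summable.of_nonneg_of_le (fun q => ww_nonneg (by linarith) q) (fun q => ?_)
    (KapSumAux.summable_hgtQ.mul_left (U ^ 2))
  unfold ww
  have h0 := hgt_pos q.1
  calc kap δ U (hgt q.1) * (hgt q.1) ^ (-(1 / 2) : ℝ)
      ≤ (U ^ 2 * (hgt q.1) ^ (-1 : ℝ)) * (hgt q.1) ^ (-(1 / 2) : ℝ) :=
        mul_le_mul_of_nonneg_right (KapSumAux.kap_le_div hδ hδ2 hU (one_le_hgt q.1)) (Real.rpow_nonneg h0.le _)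
    _ = U ^ 2 * (hgt q.1) ^ (-(3 / 2) : ℝ) := by
        rw [mul_assoc, ← Real.rpow_add h0]
        norm_num

end Pool.Agent.P07318s
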