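import Pool.Agent.Lib.P07318s.Defs
import Pool.Agent.Lib.P07318s.PiSum
import Pool.Agent.Lib.P07318s.BoxMS
import Pool.Agent.Lib.P07318s.KapSum
import Pool.Agent.Lib.P07318s.Count

/-!
Mean square of `MM`. Apply `box_ms` with `ι = Fin (n+1) → Q`,
`Z q = (if lam q = 0 then 0 else (∏ z_j(q_j)) * osc V (lam q) * ex α₀ (q 0))`, `ω q j = lgr (q j.succ)`;
`‖Z q‖ ≤ (∏ s_j) ∏ ww(q_j) bb V (lam q)` (`norm_osc_le`, `norm_ex`), summable by `ww_summable`, `PiSum` and `bb_le`.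
Then `count`.
-/

set_option autoImplicit false

namespace Pool.Agent.P07318s

open MeasureTheory Complex

/-- coefficients for `box_ms` -/
noncomputable def mmZ {n : ℕ} (z : Fin (n + 1) → Q → ℝ) (V α₀ : ℝ) (q : Fin (n + 1) → Q) : ℂ :=
  if lam (fun j => (q j).1) = 0 then 0 else
    (∏ j, (z j (q j) : ℂ)) * osc V (lam (fun j => (q j).1)) * ex α₀ (q 0).1

lemma mmZ_norm {n : ℕ} {δ U V : ℝ} (hU : 1 ≤ U) (hV : 0 ≤ V) (z : Fin (n + 1) → Q → ℝ)
    (s : Fin (n + 1) → ℝ) (hs : ∀ j, 0 ≤ s j) (hz : ∀ j q, |z j q| ≤ s j * ww δ U q) (α₀ : ℝ)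
    (q : Fin (n + 1) → Q) :
    ‖mmZ z V α₀ q‖ ≤ (∏ j, s j) *
      (if lam (fun j => (q j).1) = 0 then 0 else (∏ j, ww δ U (q j)) * bb V (lam fun j => (q j).1)) := by
  unfold mmZ
  split_ifs with h
  · simp
  · rw [norm_mul, norm_mul, norm_ex, mul_one, norm_prod]
    have h1 : ∏ j, ‖((z j (q j) : ℝ) : ℂ)‖ ≤ ∏ j, (s j * ww δ U (q j)) := by
      refine Finset.prod_le_prod (fun j _ => norm_nonneg _) fun j _ => ?_
      rw [Complex.norm_real, Real.norm_eq_abs]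
      exact hz j (q j)
    rw [Finset.prod_mul_distrib] at h1
    have h2 := norm_osc_le hV (lam fun j => (q j).1)
    have h0 : 0 ≤ ∏ j, ww δ U (q j) := Finset.prod_nonneg fun j _ => ww_nonneg (by linarith) _
    calc (∏ j, ‖((z j (q j) : ℝ) : ℂ)‖) * ‖osc V (lam fun j => (q j).1)‖
        ≤ ((∏ j, s j) * ∏ j, ww δ U (q j)) * bb V (lam fun j => (q j).1) :=
          mul_le_mul h1 h2 (norm_nonneg _) (mul_nonneg (Finset.prod_nonneg fun j _ => hs j) h0)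
      _ = _ := by ring

lemma mmZ_summable {n : ℕ} {δ U V : ℝ} (hδ : 0 < δ) (hδ2 : δ ≤ 1 / 2) (hU : 1 ≤ U) (hV : 0 ≤ V)
    (z : Fin (n + 1) → Q → ℝ)
    (s : Fin (n + 1) → ℝ) (hs : ∀ j, 0 ≤ s j) (hz : ∀ j q, |z j q| ≤ s j * ww δ U q) (α₀ : ℝ) :
    Summable (fun q => ‖mmZ z V α₀ q‖) := by
  have hw := summable_pi_prod_real (k := n + 1) (fun _ q => ww δ U q) (fun _ => ww_summable hδ hδ2 hU)
    (fun _ q => ww_nonneg (by linarith) q)
  refine Summable.of_nonneg_of_le (fun q => norm_nonneg _) (fun q => ?_)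
    (hw.mul_left ((∏ j, s j) * (4 * V)))
  refine (mmZ_norm hU hV z s hs hz α₀ q).trans ?_
  have h0 : 0 ≤ ∏ j, ww δ U (q j) := Finset.prod_nonneg fun j _ => ww_nonneg (by linarith) _
  have hs0 : 0 ≤ ∏ j, s j := Finset.prod_nonneg fun j _ => hs j
  rw [mul_assoc]
  refine mul_le_mul_of_nonneg_left ?_ hs0
  split_ifs with h
  · positivity
  · rw [mul_comm]
    exact mul_le_mul_of_nonneg_right (bb_le hV _) h0

lemma mm_eq {n : ℕ} (z : Fin (n + 1) → Q → ℝ) (V α₀ : ℝ) (α : Fin n → ℝ) :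
    MM z V (Fin.cons α₀ α : Fin (n + 1) → ℝ) =
      ∑' q : Fin (n + 1) → Q, mmZ z V α₀ q *
        cexp (((-(∑ j, α j * (fun (q : Fin (n + 1) → Q) (j : Fin n) => lgr (q j.succ).1) q j) : ℝ) : ℂ) * I) := by
  unfold MM mmZ
  refine tsum_congr fun q => ?_
  split_ifs with h
  · simp
  · rw [Finset.prod_mul_distrib]
    have e : ∏ j : Fin (n + 1), ex ((Fin.cons α₀ α : Fin (n + 1) → ℝ) j) (q j).1 =
        ex α₀ (q 0).1 * cexp (((-(∑ j, α j * lgr (q j.succ).1) : ℝ) : ℂ) * I) := by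
      rw [Fin.prod_univ_succ]
      congr 1
      unfold ex
      rw [← Complex.exp_sum]
      congr 1
      rw [← Finset.sum_mul]
      congr 1
      push_cast
      rw [← Finset.sum_neg_distrib]
      refine Finset.sum_congr rfl fun j _ => ?_
      simp
    rw [e]
    ring

theorem mean_MM (n : ℕ) (δ : ℝ) (hδ : 0 < δ) (hδ2 : δ ≤ 1 / 2) : ∃ C : ℝ, 0 < C ∧ ∀ U V H : ℝ, 1 ≤ U →
    0 ≤ V → V ≤ U → 0 ≤ H → H ≤ U → ∀ (z : Fin (n + 1) → Q → ℝ) (s : Fin (n + 1) → ℝ),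
    (∀ j, 0 ≤ s j) → (∀ j q, |z j q| ≤ s j * ww δ U q) → ∀ (α₀ : ℝ) (β : Fin n → ℝ),
    ∫⁻ α in Set.Icc β (fun j => β j + H), ‖MM z V (Fin.cons α₀ α : Fin (n + 1) → ℝ)‖ₑ ^ 2 ≤
      ENNReal.ofReal (C * (∏ j, s j) ^ 2 * U ^ (((n : ℝ) + 1) * (1 + 3 * δ))) := by
  obtain ⟨C, hC, hcount⟩ := count n δ hδ hδ2
  refine ⟨C, hC, fun U V H hU hV hVU hH hHU z s hs hz α₀ β => ?_⟩
  have h1 := box_ms (mmZ z V α₀) (mmZ_summable hδ hδ2 hU hV z s hs hz α₀)
    (fun (q : Fin (n + 1) → Q) (j : Fin n) => lgr (q j.succ).1) β hH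
  simp_rw [mm_eq]
  refine h1.trans ?_
  have hs0 : 0 ≤ ∏ j, s j := Finset.prod_nonneg fun j _ => hs j
  have hterm : ∀ q q' : Fin (n + 1) → Q, ‖mmZ z V α₀ q‖ₑ * ‖mmZ z V α₀ q'‖ₑ *
      ∏ j : Fin n, ENNReal.ofReal (bb H (lgr (q j.succ).1 - lgr (q' j.succ).1)) ≤
      ENNReal.ofReal ((∏ j, s j) ^ 2) *
      ENNReal.ofReal (if lam (fun j => (q j).1) = 0 ∨ lam (fun j => (q' j).1) = 0 then 0 else
        (∏ j, ww δ U (q j)) * (∏ j, ww δ U (q' j)) * bb V (lam fun j => (q j).1) *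
          bb V (lam fun j => (q' j).1) *
          ∏ j : Fin n, bb H (lgr (q j.succ).1 - lgr (q' j.succ).1)) := by
    intro q q'
    have hp : 0 ≤ ∏ j : Fin n, bb H (lgr (q j.succ).1 - lgr (q' j.succ).1) :=
      Finset.prod_nonneg fun j _ => bb_nonneg hH _
    rw [← ENNReal.ofReal_prod_of_nonneg (fun j _ => bb_nonneg hH _), ← ofReal_norm, ← ofReal_norm,
      ← ENNReal.ofReal_mul (norm_nonneg _), ← ENNReal.ofReal_mul (by positivity),
      ← ENNReal.ofReal_mul (by positivity)]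
    refine ENNReal.ofReal_le_ofReal ?_
    have ha := mmZ_norm hU hV z s hs hz α₀ q
    have hb := mmZ_norm hU hV z s hs hz α₀ q'
    by_cases h : lam (fun j => (q j).1) = 0 ∨ lam (fun j => (q' j).1) = 0
    · rw [if_pos h]
      rcases h with h | h
      · have : mmZ z V α₀ q = 0 := by unfold mmZ; rw [if_pos h]
        rw [this]
        simp
      · have : mmZ z V α₀ q' = 0 := by unfold mmZ; rw [if_pos h]
        rw [this]
        simp
    · rw [if_neg h]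
      push Not at h
      rw [if_neg h.1] at ha
      rw [if_neg h.2] at hb
      have h0 : 0 ≤ ∏ j, ww δ U (q j) := Finset.prod_nonneg fun j _ => ww_nonneg (by linarith) _
      have h0' : 0 ≤ ∏ j, ww δ U (q' j) := Finset.prod_nonneg fun j _ => ww_nonneg (by linarith) _
      have hb0 := bb_nonneg hV (lam fun j => (q j).1)
      have hb0' := bb_nonneg hV (lam fun j => (q' j).1)
      calc ‖mmZ z V α₀ q‖ * ‖mmZ z V α₀ q'‖ * ∏ j : Fin n, bb H (lgr (q j.succ).1 - lgr (q' j.succ).1)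
          ≤ ((∏ j, s j) * ((∏ j, ww δ U (q j)) * bb V (lam fun j => (q j).1))) *
            ((∏ j, s j) * ((∏ j, ww δ U (q' j)) * bb V (lam fun j => (q' j).1))) *
            ∏ j : Fin n, bb H (lgr (q j.succ).1 - lgr (q' j.succ).1) := by
            refine mul_le_mul_of_nonneg_right ?_ hp
            exact mul_le_mul ha hb (norm_nonneg _) (by positivity)
        _ = _ := by ring
  calc ∑' q : Fin (n + 1) → Q, ∑' q' : Fin (n + 1) → Q, ‖mmZ z V α₀ q‖ₑ * ‖mmZ z V α₀ q'‖ₑ *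
      ∏ j : Fin n, ENNReal.ofReal (bb H (lgr (q j.succ).1 - lgr (q' j.succ).1))
      ≤ ∑' q : Fin (n + 1) → Q, ∑' q' : Fin (n + 1) → Q, ENNReal.ofReal ((∏ j, s j) ^ 2) *
      ENNReal.ofReal (if lam (fun j => (q j).1) = 0 ∨ lam (fun j => (q' j).1) = 0 then 0 else
        (∏ j, ww δ U (q j)) * (∏ j, ww δ U (q' j)) * bb V (lam fun j => (q j).1) *
          bb V (lam fun j => (q' j).1) *
          ∏ j : Fin n, bb H (lgr (q j.succ).1 - lgr (q' j.succ).1)) :=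
        ENNReal.tsum_le_tsum fun q => ENNReal.tsum_le_tsum fun q' => hterm q q'
    _ = ENNReal.ofReal ((∏ j, s j) ^ 2) * ∑' q : Fin (n + 1) → Q, ∑' q' : Fin (n + 1) → Q,
      ENNReal.ofReal (if lam (fun j => (q j).1) = 0 ∨ lam (fun j => (q' j).1) = 0 then 0 else
        (∏ j, ww δ U (q j)) * (∏ j, ww δ U (q' j)) * bb V (lam fun j => (q j).1) *
          bb V (lam fun j => (q' j).1) *
          ∏ j : Fin n, bb H (lgr (q j.succ).1 - lgr (q' j.succ).1)) := by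
        rw [← ENNReal.tsum_mul_left]
        refine tsum_congr fun q => ?_
        rw [← ENNReal.tsum_mul_left]
    _ ≤ ENNReal.ofReal ((∏ j, s j) ^ 2) * ENNReal.ofReal (C * U ^ (((n : ℝ) + 1) * (1 + 3 * δ))) :=
        mul_le_mul_right (hcount U V H hU hV hVU hH hHU) _
    _ = _ := by
        rw [← ENNReal.ofReal_mul (by positivity)]
        congr 1
        ring

end Pool.Agent.P07318s
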