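import Pool.Agent.Lib.P07318s.Defs
import Pool.Agent.Lib.P07318s.PiSum
import Pool.Agent.Lib.P07318s.KapSum

/-!
Termwise integration: `ex (t + α) q = ex t q * ex α q` (`lgr_add_aux`), so `∏_j ex (t + α_j) (q_j) =
exp(-i t lam q) ∏_j ex (α_j) (q_j)`; the series is dominated by the summable `∏ (s_j ww(q_j))`
(`ww_summable`, `summable_pi_prod_real`), each term is continuous in `t` and `∫_0^V exp(-i t lam) dt = osc V lam`
(`intervalIntegral.hasSum_integral_of_summable_norm` or similar). Joint continuity of `MM` in `(V, x)`: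
`continuous_tsum`, `osc` is continuous in `V` and `‖osc V l‖ ≤ |V|` (local bound).
-/

set_option autoImplicit false

namespace Pool.Agent.P07318s

open MeasureTheory Complex

namespace NNintAux

theorem ex_continuous (p : ℕ+ × ℕ+) : Continuous (fun x : ℝ => ex x p) := by
  unfold ex
  fun_prop

/-- the majorant -/
noncomputable def Bd {k : ℕ} (δ U : ℝ) (s : Fin k → ℝ) (q : Fin k → Q) : ℝ := ∏ j, (s j * ww δ U (q j))

theorem Bd_summable {k : ℕ} {δ U : ℝ} (hδ : 0 < δ) (hδ2 : δ ≤ 1 / 2) (hU : 1 ≤ U) (z : Fin k → Q → ℝ)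
    (s : Fin k → ℝ) (hz : ∀ j q, |z j q| ≤ s j * ww δ U q) : Summable (Bd δ U s) := by
  unfold Bd
  exact summable_pi_prod_real (fun j q => s j * ww δ U q) (fun j => (ww_summable hδ hδ2 hU).mul_left _)
    (fun j q => (abs_nonneg _).trans (hz j q))

theorem Bd_nonneg {k : ℕ} {δ U : ℝ} (z : Fin k → Q → ℝ)
    (s : Fin k → ℝ) (hz : ∀ j q, |z j q| ≤ s j * ww δ U q) (q : Fin k → Q) : 0 ≤ Bd δ U s q := by
  unfold Bd
  exact Finset.prod_nonneg fun j _ => (abs_nonneg _).trans (hz j (q j))

theorem prod_le {k : ℕ} {δ U : ℝ} (z : Fin k → Q → ℝ)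
    (s : Fin k → ℝ) (hz : ∀ j q, |z j q| ≤ s j * ww δ U q) (x : Fin k → ℝ) (q : Fin k → Q) :
    ‖∏ j, ((z j (q j) : ℂ) * ex (x j) (q j).1)‖ ≤ Bd δ U s q := by
  unfold Bd
  rw [norm_prod]
  refine Finset.prod_le_prod (fun j _ => norm_nonneg _) fun j _ => ?_
  rw [norm_mul, norm_ex, mul_one, Complex.norm_real, Real.norm_eq_abs]
  exact hz j (q j)

theorem prod_continuous {k : ℕ} (z : Fin k → Q → ℝ) (q : Fin k → Q) :
    Continuous (fun x : Fin k → ℝ => ∏ j, ((z j (q j) : ℂ) * ex (x j) (q j).1)) := by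
  refine continuous_finsetProd _ fun j _ => ?_
  exact continuous_const.mul ((ex_continuous _).comp (continuous_apply j))

theorem osc_continuous (l : ℝ) : Continuous (fun V : ℝ => osc V l) := by
  unfold osc
  refine intervalIntegral.continuous_primitive (fun a b => ?_) 0
  apply Continuous.intervalIntegrable
  fun_prop

theorem osc_le (V l : ℝ) : ‖osc V l‖ ≤ |V| := by
  unfold osc
  have h := intervalIntegral.norm_integral_le_of_norm_le_const (a := 0) (b := V) (C := 1)
    (f := fun τ : ℝ => Complex.exp (((-(τ * l) : ℝ) : ℂ) * I)) (fun τ _ => by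
      rw [Complex.norm_exp_ofReal_mul_I])
  simpa using h

theorem prod_shift {k : ℕ} (z : Fin k → Q → ℝ) (α : Fin k → ℝ) (q : Fin k → Q) (t : ℝ) :
    ∏ j, ((z j (q j) : ℂ) * ex (t + α j) (q j).1) =
      (∏ j, ((z j (q j) : ℂ) * ex (α j) (q j).1)) *
        Complex.exp (((-(t * lam (fun j => (q j).1)) : ℝ) : ℂ) * I) := by
  have e1 : Complex.exp (((-(t * lam (fun j => (q j).1)) : ℝ) : ℂ) * I) = ∏ j, ex t (q j).1 := by
    unfold ex lam
    rw [← Complex.exp_sum]
    congr 1
    rw [← Finset.sum_mul]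
    congr 1
    rw [Finset.mul_sum, ← Finset.sum_neg_distrib]
    push_cast
    rfl
  rw [e1, ← Finset.prod_mul_distrib]
  refine Finset.prod_congr rfl fun j _ => ?_
  rw [lgr_add_aux]
  ring

end NNintAux

open NNintAux

theorem NN_continuous {k : ℕ} {δ U : ℝ} (hδ : 0 < δ) (hδ2 : δ ≤ 1 / 2) (hU : 1 ≤ U) (z : Fin k → Q → ℝ)
    (s : Fin k → ℝ) (hz : ∀ j q, |z j q| ≤ s j * ww δ U q) :
    Continuous (fun x : Fin k → ℝ => NN z x) := by
  unfold NN
  refine continuous_tsum (u := Bd δ U s) (fun q => ?_) (Bd_summable hδ hδ2 hU z s hz) (fun q x => ?_)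
  · by_cases h : lam (fun j => (q j).1) = 0
    · simp only [if_pos h]
      exact continuous_const
    · simp only [if_neg h]
      exact prod_continuous z q
  · split_ifs
    · rw [norm_zero]
      exact Bd_nonneg z s hz q
    · exact prod_le z s hz x q

theorem MM_eq {k : ℕ} {δ U : ℝ} (hδ : 0 < δ) (hδ2 : δ ≤ 1 / 2) (hU : 1 ≤ U) (z : Fin k → Q → ℝ)
    (s : Fin k → ℝ) (hz : ∀ j q, |z j q| ≤ s j * ww δ U q) (α : Fin k → ℝ) (V : ℝ) :
    ∫ t in (0:ℝ)..V, NN z (fun j => t + α j) = MM z V α := by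
  have hB := Bd_summable hδ hδ2 hU z s hz
  have hbd : ∀ (q : Fin k → Q) (t : ℝ), ‖(if lam (fun j => (q j).1) = 0 then (0 : ℂ) else
      ∏ j, ((z j (q j) : ℂ) * ex (t + α j) (q j).1))‖ ≤ Bd δ U s q := by
    intro q t
    split_ifs
    · rw [norm_zero]
      exact Bd_nonneg z s hz q
    · exact prod_le z s hz (fun j => t + α j) q
  have hint := intervalIntegral.hasSum_integral_of_dominated_convergence (μ := volume) (a := 0) (b := V)
    (F := fun (q : Fin k → Q) (t : ℝ) => if lam (fun j => (q j).1) = 0 then (0 : ℂ) else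
      ∏ j, ((z j (q j) : ℂ) * ex (t + α j) (q j).1))
    (f := fun t : ℝ => NN z (fun j => t + α j))
    (fun q _ => Bd δ U s q)
    (fun q => by
      by_cases h : lam (fun j => (q j).1) = 0
      · simp only [if_pos h]
        exact aestronglyMeasurable_const
      · simp only [if_neg h]
        refine Continuous.aestronglyMeasurable ?_
        exact (prod_continuous z q).comp (continuous_pi fun j => continuous_id.add continuous_const))
    (fun q => Filter.Eventually.of_forall fun t _ => hbd q t)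
    (Filter.Eventually.of_forall fun t _ => hB)
    intervalIntegrable_const
    (Filter.Eventually.of_forall fun t _ => (Summable.of_norm_bounded hB fun q => hbd q t).hasSum)
  rw [← hint.tsum_eq]
  unfold MM
  refine tsum_congr fun q => ?_
  by_cases h : lam (fun j => (q j).1) = 0
  · simp only [if_pos h]
    simp
  · simp only [if_neg h, prod_shift]
    rw [intervalIntegral.integral_const_mul]
    rfl

theorem MM_continuous {k : ℕ} {δ U : ℝ} (hδ : 0 < δ) (hδ2 : δ ≤ 1 / 2) (hU : 1 ≤ U) (z : Fin k → Q → ℝ)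
    (s : Fin k → ℝ) (hz : ∀ j q, |z j q| ≤ s j * ww δ U q) :
    Continuous (fun p : ℝ × (Fin k → ℝ) => MM z p.1 p.2) := by
  rw [continuous_iff_continuousAt]
  intro p0
  set R : ℝ := |p0.1| + 1 with hR
  have hRpos : 0 < R := by positivity
  set S : Set (ℝ × (Fin k → ℝ)) := {p | |p.1| < R} with hS
  have hSo : IsOpen S := isOpen_lt (continuous_abs.comp continuous_fst) continuous_const
  have hpS : p0 ∈ S := by
    rw [hS, Set.mem_ofPred_eq, hR]
    linarith
  have hcont : ContinuousOn (fun p : ℝ × (Fin k → ℝ) => MM z p.1 p.2) S := by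
    unfold MM
    refine continuousOn_tsum (u := fun q => Bd δ U s q * R) (fun q => ?_)
      ((Bd_summable hδ hδ2 hU z s hz).mul_right R) (fun q p hp => ?_)
    · by_cases h : lam (fun j => (q j).1) = 0
      · simp only [if_pos h]
        exact continuousOn_const
      · simp only [if_neg h]
        refine Continuous.continuousOn ?_
        exact ((prod_continuous z q).comp continuous_snd).mul ((osc_continuous _).comp continuous_fst)
    · split_ifs
      · rw [norm_zero]
        exact mul_nonneg (Bd_nonneg z s hz q) hRpos.le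
      · rw [norm_mul]
        refine mul_le_mul (prod_le z s hz p.2 q) ((osc_le _ _).trans hp.le) (norm_nonneg _)
          (Bd_nonneg z s hz q)
  exact hcont.continuousAt (hSo.mem_nhds hpS)

end Pool.Agent.P07318s
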