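import Mathlib

/-!
Integration by parts. `f(t) = ∏_j log((t+α_j)/U)^(l_j)` satisfies `0 ≤ f ≤ 2^|l|` and
`0 ≤ f'(t) = ∑_j l_j log(..)^(l_j - 1) (t+α_j)^(-1) ∏_{i ≠ j} .. ≤ |l| 2^|l| / U` on `[0, V]`, as `0 ≤ log ≤ log 4 ≤ 2`
and `t + α_j ≥ U`. With `M(t) = ∫_0^t N`: `∫_0^V f N = f(V) M(V) - ∫_0^V f' M`
(`intervalIntegral.integral_mul_deriv_eq_deriv_mul`).
-/

set_option autoImplicit false

namespace Pool.Agent.P07318s

open MeasureTheory Complex

namespace PartIntAux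

/-- the logarithmic factor -/
noncomputable def g (U a t : ℝ) : ℝ := Real.log ((t + a) / U)

lemma g_nonneg {U V a t : ℝ} (hU : 1 ≤ U) (h1 : U ≤ a) (ht : t ∈ Set.Icc 0 V) : 0 ≤ g U a t := by
  unfold g
  apply Real.log_nonneg
  rw [le_div_iff₀ (by linarith)]
  linarith [ht.1]

lemma g_le {U V a t : ℝ} (hU : 1 ≤ U) (h1 : U ≤ a) (h2 : a + V ≤ 4 * U)
    (ht : t ∈ Set.Icc 0 V) : g U a t ≤ 2 := by
  unfold g
  have h3 : (t + a) / U ≤ 4 := by
    rw [div_le_iff₀ (by linarith)]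
    linarith [ht.2]
  have h4 : 0 < (t + a) / U := by
    apply div_pos <;> linarith [ht.1]
  calc Real.log ((t + a) / U) ≤ Real.log 4 := Real.log_le_log h4 h3
    _ = 2 * Real.log 2 := by
        rw [show (4:ℝ) = 2 ^ 2 by norm_num, Real.log_pow]; norm_num
    _ ≤ 2 := by linarith [Real.log_two_lt_d9]

lemma g_deriv {U V a t : ℝ} (hU : 1 ≤ U) (h1 : U ≤ a) (ht : t ∈ Set.Icc 0 V) :
    HasDerivAt (g U a) (1 / (t + a)) t := by
  have hU0 : U ≠ 0 := by linarith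
  have hta : t + a ≠ 0 := by linarith [ht.1]
  have h3 : HasDerivAt (fun t => (t + a) / U) (1 / U) t := by
    have := ((hasDerivAt_id t).add_const a).div_const U
    simpa using this
  have h4 := h3.log (by positivity)
  have e : 1 / U / ((t + a) / U) = 1 / (t + a) := by field_simp
  rw [e] at h4
  exact h4

/-- the derivative of the product -/
noncomputable def fd {k : ℕ} (l : Fin k → ℕ) (U : ℝ) (α : Fin k → ℝ) (t : ℝ) : ℝ :=
  ∑ j, (∏ i ∈ Finset.univ.erase j, (g U (α i) t) ^ (l i)) *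
    ((l j : ℝ) * (g U (α j) t) ^ (l j - 1) * (1 / (t + α j)))

lemma f_deriv {k : ℕ} (l : Fin k → ℕ) {U V t : ℝ} (hU : 1 ≤ U) (α : Fin k → ℝ)
    (h1 : ∀ j, U ≤ α j) (ht : t ∈ Set.Icc 0 V) :
    HasDerivAt (fun t => ∏ j, (g U (α j) t) ^ (l j)) (fd l U α t) t := by
  have := HasDerivAt.fun_finset_prod (u := (Finset.univ : Finset (Fin k)))
    (f := fun j t => (g U (α j) t) ^ (l j))
    (f' := fun j => (l j : ℝ) * (g U (α j) t) ^ (l j - 1) * (1 / (t + α j))) (x := t)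
    (fun j _ => (g_deriv hU (h1 j) ht).fun_pow (l j))
  simpa only [smul_eq_mul, fd] using this

lemma f_bound {k : ℕ} (l : Fin k → ℕ) {U V t : ℝ} (hU : 1 ≤ U) (α : Fin k → ℝ)
    (h1 : ∀ j, U ≤ α j) (h2 : ∀ j, α j + V ≤ 4 * U) (ht : t ∈ Set.Icc 0 V) :
    |∏ j, (g U (α j) t) ^ (l j)| ≤ 2 ^ (∑ j, l j) := by
  rw [Finset.abs_prod, ← Finset.prod_pow_eq_pow_sum]
  apply Finset.prod_le_prod
  · intro i _; positivity
  · intro i _
    rw [abs_pow, abs_of_nonneg (g_nonneg hU (h1 i) ht)]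
    exact pow_le_pow_left₀ (g_nonneg hU (h1 i) ht) (g_le hU (h1 i) (h2 i) ht) _

lemma fd_bound {k : ℕ} (l : Fin k → ℕ) {U V t : ℝ} (hU : 1 ≤ U) (α : Fin k → ℝ)
    (h1 : ∀ j, U ≤ α j) (h2 : ∀ j, α j + V ≤ 4 * U) (ht : t ∈ Set.Icc 0 V) :
    |fd l U α t| ≤ 2 ^ (∑ j, l j) * ((∑ j, l j : ℕ) / U) := by
  unfold fd
  refine (Finset.abs_sum_le_sum_abs _ _).trans ?_
  have key : ∀ j ∈ (Finset.univ : Finset (Fin k)),
      |(∏ i ∈ Finset.univ.erase j, (g U (α i) t) ^ (l i)) *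
        ((l j : ℝ) * (g U (α j) t) ^ (l j - 1) * (1 / (t + α j)))| ≤
      2 ^ (∑ j, l j) * ((l j : ℝ) / U) := by
    intro j _
    have hn := fun i => g_nonneg hU (h1 i) ht
    have hl := fun i => g_le hU (h1 i) (h2 i) ht
    have ha : 0 < t + α j := by linarith [ht.1, h1 j]
    rw [abs_mul]
    have e1 : |∏ i ∈ Finset.univ.erase j, (g U (α i) t) ^ (l i)| ≤
        2 ^ (∑ i ∈ Finset.univ.erase j, l i) := by
      rw [Finset.abs_prod, ← Finset.prod_pow_eq_pow_sum]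
      apply Finset.prod_le_prod
      · intro i _; positivity
      · intro i _
        rw [abs_pow, abs_of_nonneg (hn i)]
        exact pow_le_pow_left₀ (hn i) (hl i) _
    have e2 : |(l j : ℝ) * (g U (α j) t) ^ (l j - 1) * (1 / (t + α j))| ≤
        2 ^ (l j) * ((l j : ℝ) / U) := by
      rw [abs_of_nonneg (by have := hn j; positivity)]
      have e3 : (g U (α j) t) ^ (l j - 1) ≤ 2 ^ (l j) := by
        calc (g U (α j) t) ^ (l j - 1) ≤ 2 ^ (l j - 1) := pow_le_pow_left₀ (hn j) (hl j) _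
          _ ≤ 2 ^ (l j) := pow_le_pow_right₀ (by norm_num) (Nat.sub_le _ _)
      have e4 : 1 / (t + α j) ≤ 1 / U :=
        one_div_le_one_div_of_le (by linarith) (by linarith [ht.1, h1 j])
      calc (l j : ℝ) * (g U (α j) t) ^ (l j - 1) * (1 / (t + α j))
          ≤ (l j : ℝ) * 2 ^ (l j) * (1 / U) := by
            apply mul_le_mul _ e4 (by positivity) (by positivity)
            exact mul_le_mul_of_nonneg_left e3 (by positivity)
        _ = 2 ^ (l j) * ((l j : ℝ) / U) := by ring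
    have e5 : (2:ℝ) ^ (∑ j, l j) = 2 ^ (∑ i ∈ Finset.univ.erase j, l i) * 2 ^ (l j) := by
      rw [← pow_add, Finset.sum_erase_add _ _ (Finset.mem_univ j)]
    calc _ ≤ 2 ^ (∑ i ∈ Finset.univ.erase j, l i) * (2 ^ (l j) * ((l j : ℝ) / U)) :=
          mul_le_mul e1 e2 (abs_nonneg _) (by positivity)
      _ = 2 ^ (∑ j, l j) * ((l j : ℝ) / U) := by rw [e5]; ring
  refine (Finset.sum_le_sum key).trans (le_of_eq ?_)
  rw [← Finset.mul_sum, ← Finset.sum_div]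
  push_cast
  rfl

end PartIntAux

open PartIntAux

theorem part_int {k : ℕ} (l : Fin k → ℕ) {U V : ℝ} (hU : 1 ≤ U) (hV : 0 ≤ V) (α : Fin k → ℝ)
    (h1 : ∀ j, U ≤ α j) (h2 : ∀ j, α j + V ≤ 4 * U) (N : ℝ → ℂ) (hN : Continuous N) :
    ‖∫ t in (0:ℝ)..V, ((∏ j, (Real.log ((t + α j) / U)) ^ (l j) : ℝ) : ℂ) * N t‖ ≤
      2 ^ (∑ j, l j) * (‖∫ t in (0:ℝ)..V, N t‖ +
        (∑ j, l j : ℕ) / U * ∫ t in (0:ℝ)..V, ‖∫ τ in (0:ℝ)..t, N τ‖) := by
  have hUI : Set.uIcc (0:ℝ) V = Set.Icc 0 V := Set.uIcc_of_le hV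
  have hMd : ∀ t, HasDerivAt (fun t => ∫ τ in (0:ℝ)..t, N τ) (N t) t := fun t =>
    intervalIntegral.integral_hasDerivAt_right (hN.intervalIntegrable _ _)
      (hN.stronglyMeasurableAtFilter _ _) hN.continuousAt
  have hMc : Continuous (fun t => ∫ τ in (0:ℝ)..t, N τ) :=
    continuous_iff_continuousAt.2 fun t => (hMd t).continuousAt
  have hfdc : ContinuousOn (fun t => fd l U α t) (Set.Icc 0 V) := by
    unfold fd
    apply continuousOn_finset_sum
    intro j _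
    have hg : ∀ i, ContinuousOn (g U (α i)) (Set.Icc 0 V) := fun i t ht =>
      (g_deriv hU (h1 i) ht).continuousAt.continuousWithinAt
    apply ContinuousOn.mul
    · exact continuousOn_finset_prod _ fun i _ => (hg i).pow _
    · apply ContinuousOn.mul
      · exact continuousOn_const.mul ((hg j).pow _)
      · apply ContinuousOn.div continuousOn_const (by fun_prop)
        intro t ht
        have := h1 j
        linarith [ht.1]
  have hint : IntervalIntegrable (fun t => ((fd l U α t : ℝ) : ℂ)) volume 0 V := by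
    apply ContinuousOn.intervalIntegrable
    rw [hUI]
    exact continuous_ofReal.comp_continuousOn hfdc
  have hparts := intervalIntegral.integral_mul_deriv_eq_deriv_mul (a := 0) (b := V)
    (u := fun t => ((∏ j, (g U (α j) t) ^ (l j) : ℝ) : ℂ)) (u' := fun t => ((fd l U α t : ℝ) : ℂ))
    (v := fun t => ∫ τ in (0:ℝ)..t, N τ) (v' := N)
    (fun t ht => (f_deriv l hU α h1 (hUI ▸ ht)).ofReal_comp) (fun t _ => hMd t) hint
    (hN.intervalIntegrable _ _)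
  have e0 : (∫ t in (0:ℝ)..V, ((∏ j, (Real.log ((t + α j) / U)) ^ (l j) : ℝ) : ℂ) * N t) =
      ∫ t in (0:ℝ)..V, ((∏ j, (g U (α j) t) ^ (l j) : ℝ) : ℂ) * N t := rfl
  rw [e0, hparts]
  simp only [intervalIntegral.integral_same, mul_zero, sub_zero]
  have hVm : V ∈ Set.Icc 0 V := ⟨hV, le_rfl⟩
  have b1 : ‖((∏ j, (g U (α j) V) ^ (l j) : ℝ) : ℂ) * ∫ τ in (0:ℝ)..V, N τ‖ ≤
      2 ^ (∑ j, l j) * ‖∫ τ in (0:ℝ)..V, N τ‖ := by
    rw [norm_mul, Complex.norm_real, Real.norm_eq_abs]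
    exact mul_le_mul_of_nonneg_right (f_bound l hU α h1 h2 hVm) (norm_nonneg _)
  have b2 : ‖∫ t in (0:ℝ)..V, ((fd l U α t : ℝ) : ℂ) * ∫ τ in (0:ℝ)..t, N τ‖ ≤
      2 ^ (∑ j, l j) * ((∑ j, l j : ℕ) / U) * ∫ t in (0:ℝ)..V, ‖∫ τ in (0:ℝ)..t, N τ‖ := by
    rw [← intervalIntegral.integral_const_mul]
    apply intervalIntegral.norm_integral_le_of_norm_le hV
    · refine Filter.Eventually.of_forall fun t ht => ?_
      rw [norm_mul, Complex.norm_real, Real.norm_eq_abs]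
      exact mul_le_mul_of_nonneg_right (fd_bound l hU α h1 h2 ⟨ht.1.le, ht.2⟩) (norm_nonneg _)
    · exact (continuous_const.mul hMc.norm).intervalIntegrable _ _
  calc _ ≤ _ := norm_sub_le _ _
    _ ≤ 2 ^ (∑ j, l j) * ‖∫ τ in (0:ℝ)..V, N τ‖ +
      2 ^ (∑ j, l j) * ((∑ j, l j : ℕ) / U) * ∫ t in (0:ℝ)..V, ‖∫ τ in (0:ℝ)..t, N τ‖ :=
        add_le_add b1 b2
    _ = _ := by ring

end Pool.Agent.P07318s
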