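import Pool.Agent.Lib.P07318s.Defs
import Pool.Agent.Lib.P07318s.WMellin
import Pool.Agent.Lib.P07318s.Regroup

/-!
Separation of variables in the coefficients, by the Hermite generating function
`exp(-(v-r)²/4) = exp(-v²/4) ∑_l r^l c_l(v)`, `|c_l(v)| ≤ 16^(-l) exp(8 |v| + 64)`.
-/

set_option autoImplicit false

namespace Pool.Agent.P07318s

open MeasureTheory Complex

/-- coefficients of `exp(-r²/4)` -/
noncomputable def sepD (m : ℕ) : ℝ := if Even m then (-1 / 4 : ℝ) ^ (m / 2) / (m / 2).factorial else 0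

/-- coefficients of `exp(v r/2 - r²/4)` -/
noncomputable def sepC (l : ℕ) (v : ℝ) : ℝ :=
  ∑ p ∈ Finset.HasAntidiagonal.antidiagonal l, (v / 2) ^ p.1 / p.1.factorial * sepD p.2

lemma real_hasSum_exp (x : ℝ) : HasSum (fun n : ℕ => x ^ n / n.factorial) (Real.exp x) := by
  have h := NormedSpace.expSeries_div_hasSum_exp (𝔸 := ℝ) x
  rwa [← Real.exp_eq_exp_ℝ] at h

lemma sepD_hasSum (r : ℝ) : HasSum (fun m : ℕ => r ^ m * sepD m) (Real.exp (-r ^ 2 / 4)) := by
  have hinj : Function.Injective (fun j : ℕ => 2 * j) := fun a b h => by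
    simp only at h
    omega
  have h0 : ∀ x ∉ Set.range (fun j : ℕ => 2 * j), r ^ x * sepD x = 0 := by
    intro x hx
    have : ¬ Even x := by
      rintro ⟨y, hy⟩
      exact hx ⟨y, by simp only; omega⟩
    simp [sepD, this]
  rw [← hinj.hasSum_iff h0]
  have h := real_hasSum_exp (-r ^ 2 / 4)
  refine h.congr_fun ?_
  intro j
  have e1 : Even (2 * j) := even_two_mul j
  have e2 : 2 * j / 2 = j := by omega
  simp only [Function.comp, sepD, e1, if_true, e2]
  rw [pow_mul, show -r ^ 2 / 4 = r ^ 2 * (-1 / 4) by ring, mul_pow (r ^ 2)]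
  ring

lemma sepD_hasSum_abs (r : ℝ) : HasSum (fun m : ℕ => r ^ m * |sepD m|) (Real.exp (r ^ 2 / 4)) := by
  have hinj : Function.Injective (fun j : ℕ => 2 * j) := fun a b h => by
    simp only at h
    omega
  have h0 : ∀ x ∉ Set.range (fun j : ℕ => 2 * j), r ^ x * |sepD x| = 0 := by
    intro x hx
    have : ¬ Even x := by
      rintro ⟨y, hy⟩
      exact hx ⟨y, by simp only; omega⟩
    simp [sepD, this]
  rw [← hinj.hasSum_iff h0]
  have h := real_hasSum_exp (r ^ 2 / 4)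
  refine h.congr_fun ?_
  intro j
  have e1 : Even (2 * j) := even_two_mul j
  have e2 : 2 * j / 2 = j := by omega
  simp only [Function.comp, sepD, e1, if_true, e2]
  rw [abs_div, abs_pow, show |(-1 / 4 : ℝ)| = 1 / 4 by rw [abs_of_neg (by norm_num)]; norm_num,
    Nat.abs_cast, pow_mul, show r ^ 2 / 4 = r ^ 2 * (1 / 4) by ring, mul_pow (r ^ 2)]
  ring

lemma sepC_hasSum (r v : ℝ) :
    HasSum (fun l : ℕ => r ^ l * sepC l v) (Real.exp (v * r / 2 - r ^ 2 / 4)) := by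
  have h1 : Summable (fun i : ℕ => ‖(v * r / 2) ^ i / i.factorial‖) := (real_hasSum_exp _).summable.norm
  have h2 : Summable (fun m : ℕ => ‖r ^ m * sepD m‖) := (sepD_hasSum r).summable.norm
  have e := tsum_mul_tsum_eq_tsum_sum_antidiagonal_of_summable_norm h1 h2
  have s := (summable_norm_sum_mul_antidiagonal_of_summable_norm h1 h2).of_norm.hasSum
  rw [(real_hasSum_exp _).tsum_eq, (sepD_hasSum r).tsum_eq, ← Real.exp_add] at e
  rw [← e] at s
  have e2 : v * r / 2 + -r ^ 2 / 4 = v * r / 2 - r ^ 2 / 4 := by ring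
  rw [e2] at s
  refine s.congr_fun ?_
  intro l
  unfold sepC
  rw [Finset.mul_sum]
  refine Finset.sum_congr rfl fun p hp => ?_
  rw [Finset.HasAntidiagonal.mem_antidiagonal] at hp
  rw [← hp, pow_add, show v * r / 2 = r * (v / 2) by ring, mul_pow]
  ring

lemma sepC_hasSum_abs (r v : ℝ) :
    HasSum (fun l : ℕ => r ^ l * ∑ p ∈ Finset.HasAntidiagonal.antidiagonal l, (|v| / 2) ^ p.1 / p.1.factorial * |sepD p.2|)
      (Real.exp (|v| * r / 2 + r ^ 2 / 4)) := by
  have h1 : Summable (fun i : ℕ => ‖(|v| * r / 2) ^ i / i.factorial‖) :=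
    (real_hasSum_exp _).summable.norm
  have h2 : Summable (fun m : ℕ => ‖r ^ m * |sepD m|‖) := (sepD_hasSum_abs r).summable.norm
  have e := tsum_mul_tsum_eq_tsum_sum_antidiagonal_of_summable_norm h1 h2
  have s := (summable_norm_sum_mul_antidiagonal_of_summable_norm h1 h2).of_norm.hasSum
  rw [(real_hasSum_exp _).tsum_eq, (sepD_hasSum_abs r).tsum_eq, ← Real.exp_add] at e
  rw [← e] at s
  refine s.congr_fun ?_
  intro l
  rw [Finset.mul_sum]
  refine Finset.sum_congr rfl fun p hp => ?_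
  rw [Finset.HasAntidiagonal.mem_antidiagonal] at hp
  rw [← hp, pow_add, show |v| * r / 2 = r * (|v| / 2) by ring, mul_pow]
  ring

lemma sepC_abs_le (l : ℕ) (v : ℝ) : |sepC l v| ≤ Real.exp (8 * |v| + 64) / 16 ^ l := by
  have h := sepC_hasSum_abs 16 v
  have h1 : |sepC l v| ≤ ∑ p ∈ Finset.HasAntidiagonal.antidiagonal l, (|v| / 2) ^ p.1 / p.1.factorial * |sepD p.2| := by
    unfold sepC
    refine (Finset.abs_sum_le_sum_abs _ _).trans (le_of_eq ?_)
    refine Finset.sum_congr rfl fun p hp => ?_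
    rw [abs_mul, abs_div, abs_pow, abs_div, Nat.abs_cast, abs_two]
  have h2 : (16 : ℝ) ^ l * ∑ p ∈ Finset.HasAntidiagonal.antidiagonal l, (|v| / 2) ^ p.1 / p.1.factorial * |sepD p.2| ≤
      Real.exp (|v| * 16 / 2 + 16 ^ 2 / 4) := by
    refine le_hasSum h l fun j _ => ?_
    refine mul_nonneg (by positivity) (Finset.sum_nonneg fun p _ => ?_)
    positivity
  rw [le_div_iff₀ (by positivity)]
  have e : |v| * 16 / 2 + 16 ^ 2 / 4 = 8 * |v| + 64 := by ring
  rw [e] at h2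
  refine le_trans ?_ h2
  rw [mul_comm]
  exact mul_le_mul_of_nonneg_left h1 (by positivity)

lemma sepC_continuous (l : ℕ) : Continuous (fun v => sepC l v) := by
  unfold sepC
  fun_prop

/-! ### integrals -/

lemma sep_int (A : ℝ) : Integrable (fun v : ℝ => Real.exp (8 * |v| + A * v - v ^ 2 / 4)) := by
  have h := (integrable_exp_neg_mul_sq (b := 1 / 8) (by norm_num)).mul_const
    (Real.exp (2 * (8 + |A|) ^ 2))
  refine h.mono' (by fun_prop) (Filter.Eventually.of_forall fun v => ?_)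
  rw [Real.norm_eq_abs, abs_of_pos (Real.exp_pos _), ← Real.exp_add]
  refine Real.exp_le_exp.2 ?_
  have h1 : A * v ≤ |A| * |v| := by rw [← abs_mul]; exact le_abs_self _
  have h2 : v ^ 2 = |v| ^ 2 := (sq_abs v).symm
  nlinarith [sq_nonneg (|v| / 4 - (8 + |A|)), abs_nonneg v, abs_nonneg A, h2,
    sq_nonneg (|v| - 4 * (8 + |A|))]

lemma sep_int0 : Integrable (fun v : ℝ => Real.exp (8 * |v| - v ^ 2 / 4)) := by
  have := sep_int 0
  simpa using this

/-- `∫_{v>L} exp(-v²/4) c_l(v)` -/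
noncomputable def sepA (l : ℕ) (L : ℝ) : ℝ :=
  (Real.sqrt Real.pi)⁻¹ * ∫ v in Set.Ioi L, Real.exp (-v ^ 2 / 4) * sepC l v

lemma sepF_bound (l : ℕ) (v : ℝ) : ‖Real.exp (-v ^ 2 / 4) * sepC l v‖ ≤
    Real.exp 64 / 16 ^ l * Real.exp (8 * |v| - v ^ 2 / 4) := by
  rw [norm_mul, Real.norm_eq_abs, Real.norm_eq_abs, abs_of_pos (Real.exp_pos _)]
  calc Real.exp (-v ^ 2 / 4) * |sepC l v| ≤ Real.exp (-v ^ 2 / 4) * (Real.exp (8 * |v| + 64) / 16 ^ l) :=
        mul_le_mul_of_nonneg_left (sepC_abs_le l v) (Real.exp_pos _).le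
    _ = _ := by
        rw [show 8 * |v| - v ^ 2 / 4 = -v ^ 2 / 4 + 8 * |v| by ring, Real.exp_add, Real.exp_add]
        ring

lemma sepF_int (l : ℕ) : Integrable (fun v : ℝ => Real.exp (-v ^ 2 / 4) * sepC l v) := by
  refine (sep_int0.const_mul (Real.exp 64 / 16 ^ l)).mono' ?_ (Filter.Eventually.of_forall (sepF_bound l))
  have := sepC_continuous l
  fun_prop

lemma sep_tail (A : ℝ) (hA : 0 < A) (L : ℝ) :
    ∫ v in Set.Ioi L, Real.exp (8 * |v| - v ^ 2 / 4) ≤
      (∫ v : ℝ, Real.exp (8 * |v| + A * v - v ^ 2 / 4)) * Real.exp (-A * L) := by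
  calc ∫ v in Set.Ioi L, Real.exp (8 * |v| - v ^ 2 / 4)
      ≤ ∫ v in Set.Ioi L, Real.exp (8 * |v| + A * v - v ^ 2 / 4) * Real.exp (-A * L) := by
        refine setIntegral_mono_on sep_int0.integrableOn ((sep_int A).mul_const _).integrableOn
          measurableSet_Ioi fun v hv => ?_
        rw [← Real.exp_add]
        refine Real.exp_le_exp.2 ?_
        have : A * L ≤ A * v := mul_le_mul_of_nonneg_left (le_of_lt hv) hA.le
        linarith
    _ ≤ ∫ v : ℝ, Real.exp (8 * |v| + A * v - v ^ 2 / 4) * Real.exp (-A * L) := by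
        refine setIntegral_le_integral ((sep_int A).mul_const _) (Filter.Eventually.of_forall fun v => ?_)
        positivity
    _ = _ := integral_mul_const _ _

lemma sepA_le (A : ℝ) (hA : 0 < A) : ∃ K : ℝ, 0 < K ∧ ∀ l L, |sepA l L| ≤ K / 16 ^ l * Real.exp (-A * L) := by
  set J : ℝ := ∫ v : ℝ, Real.exp (8 * |v| + A * v - v ^ 2 / 4) with hJ
  have hJ0 : 0 ≤ J := integral_nonneg fun v => (Real.exp_pos _).le
  refine ⟨(Real.sqrt Real.pi)⁻¹ * (Real.exp 64 * (J + 1)), by positivity, fun l L => ?_⟩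
  unfold sepA
  rw [abs_mul, abs_of_nonneg (by positivity : (0:ℝ) ≤ (Real.sqrt Real.pi)⁻¹)]
  have h1 : |∫ v in Set.Ioi L, Real.exp (-v ^ 2 / 4) * sepC l v| ≤
      Real.exp 64 / 16 ^ l * (J * Real.exp (-A * L)) := by
    rw [← Real.norm_eq_abs]
    refine (norm_integral_le_integral_norm _).trans ?_
    calc ∫ v in Set.Ioi L, ‖Real.exp (-v ^ 2 / 4) * sepC l v‖
        ≤ ∫ v in Set.Ioi L, Real.exp 64 / 16 ^ l * Real.exp (8 * |v| - v ^ 2 / 4) := by
          refine setIntegral_mono_on (sepF_int l).norm.integrableOn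
            (sep_int0.const_mul _).integrableOn measurableSet_Ioi fun v _ => sepF_bound l v
      _ = Real.exp 64 / 16 ^ l * ∫ v in Set.Ioi L, Real.exp (8 * |v| - v ^ 2 / 4) :=
          integral_const_mul _ _
      _ ≤ _ := mul_le_mul_of_nonneg_left (sep_tail A hA L) (by positivity)
  calc (Real.sqrt Real.pi)⁻¹ * |∫ v in Set.Ioi L, Real.exp (-v ^ 2 / 4) * sepC l v|
      ≤ (Real.sqrt Real.pi)⁻¹ * (Real.exp 64 / 16 ^ l * (J * Real.exp (-A * L))) :=
        mul_le_mul_of_nonneg_left h1 (by positivity)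
    _ ≤ (Real.sqrt Real.pi)⁻¹ * (Real.exp 64 / 16 ^ l * ((J + 1) * Real.exp (-A * L))) := by
        gcongr
        linarith
    _ = _ := by ring

lemma sepA_hasSum (r L : ℝ) (hr : |r| ≤ 2) : HasSum (fun l : ℕ => r ^ l * sepA l L)
    ((Real.sqrt Real.pi)⁻¹ * ∫ u in Set.Ioi (L - r), Real.exp (-u ^ 2 / 4)) := by
  have hF : ∀ l : ℕ, Integrable (fun v : ℝ => r ^ l * (Real.exp (-v ^ 2 / 4) * sepC l v))
      (volume.restrict (Set.Ioi L)) := fun l => ((sepF_int l).const_mul _).integrableOn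
  have hS : Summable (fun l : ℕ => ∫ v in Set.Ioi L, ‖r ^ l * (Real.exp (-v ^ 2 / 4) * sepC l v)‖) := by
    have hg : Summable (fun l : ℕ => (1 / 8 : ℝ) ^ l *
        (Real.exp 64 * ∫ v in Set.Ioi L, Real.exp (8 * |v| - v ^ 2 / 4))) :=
      (summable_geometric_of_lt_one (by norm_num) (by norm_num)).mul_right _
    refine Summable.of_nonneg_of_le (fun l => integral_nonneg fun v => norm_nonneg _) (fun l => ?_) hg
    calc ∫ v in Set.Ioi L, ‖r ^ l * (Real.exp (-v ^ 2 / 4) * sepC l v)‖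
        ≤ ∫ v in Set.Ioi L, 2 ^ l * (Real.exp 64 / 16 ^ l * Real.exp (8 * |v| - v ^ 2 / 4)) := by
          refine setIntegral_mono_on (hF l).norm
            ((sep_int0.const_mul _).const_mul _).integrableOn measurableSet_Ioi fun v _ => ?_
          rw [norm_mul, norm_pow, Real.norm_eq_abs r]
          have h1 : |r| ^ l ≤ 2 ^ l := pow_le_pow_left₀ (abs_nonneg _) hr l
          exact mul_le_mul h1 (sepF_bound l v) (norm_nonneg _) (by positivity)
      _ = _ := by
          rw [integral_const_mul, integral_const_mul]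
          have e : (2 : ℝ) ^ l * (Real.exp 64 / 16 ^ l) = (1 / 8) ^ l * Real.exp 64 := by
            rw [show (16 : ℝ) = 2 * 8 by norm_num, mul_pow, div_pow, one_pow]
            field_simp
          rw [← mul_assoc, e]
          ring
  have h := hasSum_integral_of_summable_integral_norm hF hS
  have e1 : ∀ l : ℕ, ∫ v in Set.Ioi L, r ^ l * (Real.exp (-v ^ 2 / 4) * sepC l v) =
      r ^ l * ∫ v in Set.Ioi L, (Real.exp (-v ^ 2 / 4) * sepC l v) := fun l => integral_const_mul _ _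
  have e2 : ∫ v in Set.Ioi L, ∑' l : ℕ, r ^ l * (Real.exp (-v ^ 2 / 4) * sepC l v) =
      ∫ u in Set.Ioi (L - r), Real.exp (-u ^ 2 / 4) := by
    have e3 : ∀ v : ℝ, ∑' l : ℕ, r ^ l * (Real.exp (-v ^ 2 / 4) * sepC l v) =
        Real.exp (-(v - r) ^ 2 / 4) := by
      intro v
      have h3 := (sepC_hasSum r v).mul_left (Real.exp (-v ^ 2 / 4))
      rw [← Real.exp_add] at h3
      have e4 : -v ^ 2 / 4 + (v * r / 2 - r ^ 2 / 4) = -(v - r) ^ 2 / 4 := by ring
      rw [e4] at h3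
      rw [← h3.tsum_eq]
      refine tsum_congr fun l => by ring
    simp_rw [e3]
    have hm := (measurePreserving_sub_right (volume : Measure ℝ) r).setIntegral_preimage_emb
      (MeasurableEquiv.subRight r).measurableEmbedding (fun u => Real.exp (-u ^ 2 / 4)) (Set.Ioi (L - r))
    rw [← hm]
    congr 1
    congr 1
    ext v
    simp
  rw [e2] at h
  have h' := h.mul_left ((Real.sqrt Real.pi)⁻¹)
  refine h'.congr_fun fun l => ?_
  rw [e1]
  unfold sepA
  ring

/-! ### the sum over `g` -/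

lemma sepW (y r : ℝ) (hy : 0 < y) (hr : |r| ≤ 2) :
    HasSum (fun l : ℕ => r ^ l * sepA l (Real.log y)) (W (y * Real.exp (-r))) := by
  have h := sepA_hasSum r (Real.log y) hr
  unfold W
  rw [Real.log_mul hy.ne' (Real.exp_pos _).ne', Real.log_exp]
  exact h

lemma sep_summable_g (A : ℝ) (hA : 0 < A) :
    Summable (fun g : ℕ+ => ((g : ℕ) : ℝ) ^ (-1 - 2 * A)) := by
  have h : Summable (fun n : ℕ => (n : ℝ) ^ (-1 - 2 * A)) := by
    rw [Real.summable_nat_rpow]
    linarith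
  exact h.comp_injective PNat.coe_injective

lemma sep_term (A : ℝ) (hA : 0 < A) {K : ℝ} (hK : 0 < K)
    (hKb : ∀ l L, |sepA l L| ≤ K / 16 ^ l * Real.exp (-A * L)) {U h : ℝ} (hU : 0 < U) (hh : 0 < h)
    (l : ℕ) (g : ℕ+) :
    |sepA l (Real.log (2 * Real.pi * ((g : ℕ) : ℝ) ^ 2 * h / U)) / ((g : ℕ) : ℝ)| ≤
      K / 16 ^ l * (U / h) ^ A * ((g : ℕ) : ℝ) ^ (-1 - 2 * A) := by
  have hg : (0 : ℝ) < ((g : ℕ) : ℝ) := by exact_mod_cast g.2
  have hy : 0 < 2 * Real.pi * ((g : ℕ) : ℝ) ^ 2 * h / U := by positivity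
  rw [abs_div, abs_of_pos hg]
  have h1 := hKb l (Real.log (2 * Real.pi * ((g : ℕ) : ℝ) ^ 2 * h / U))
  have h2 : Real.exp (-A * Real.log (2 * Real.pi * ((g : ℕ) : ℝ) ^ 2 * h / U)) ≤
      (U / h) ^ A * ((g : ℕ) : ℝ) ^ (-(2 * A)) := by
    rw [mul_comm, ← Real.rpow_def_of_pos hy]
    have hle : ((g : ℕ) : ℝ) ^ 2 * h / U ≤ 2 * Real.pi * ((g : ℕ) : ℝ) ^ 2 * h / U := by
      have hp : (1 : ℝ) ≤ 2 * Real.pi := by linarith [Real.pi_gt_three]
      have h0 : 0 ≤ ((g : ℕ) : ℝ) ^ 2 * h / U := by positivity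
      calc ((g : ℕ) : ℝ) ^ 2 * h / U = 1 * (((g : ℕ) : ℝ) ^ 2 * h / U) := (one_mul _).symm
        _ ≤ 2 * Real.pi * (((g : ℕ) : ℝ) ^ 2 * h / U) := mul_le_mul_of_nonneg_right hp h0
        _ = _ := by ring
    calc (2 * Real.pi * ((g : ℕ) : ℝ) ^ 2 * h / U) ^ (-A) ≤ (((g : ℕ) : ℝ) ^ 2 * h / U) ^ (-A) :=
          Real.rpow_le_rpow_of_nonpos (by positivity) hle (by linarith)
      _ = (U / h) ^ A * ((g : ℕ) : ℝ) ^ (-(2 * A)) := by
          rw [show ((g : ℕ) : ℝ) ^ 2 * h / U = (U / h)⁻¹ * ((g : ℕ) : ℝ) ^ 2 by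
            rw [inv_div]; ring, Real.mul_rpow (by positivity) (by positivity),
            Real.inv_rpow (by positivity), Real.rpow_neg (by positivity), inv_inv]
          congr 1
          rw [← Real.rpow_natCast, ← Real.rpow_mul hg.le]
          congr 1
          push_cast
          ring
  have h3 : ((g : ℕ) : ℝ) ^ (-1 - 2 * A) = ((g : ℕ) : ℝ) ^ (-(2 * A)) / ((g : ℕ) : ℝ) := by
    rw [show -1 - 2 * A = -(2 * A) - 1 by ring, Real.rpow_sub_one hg.ne']
  rw [h3]
  calc |sepA l (Real.log (2 * Real.pi * ((g : ℕ) : ℝ) ^ 2 * h / U))| / ((g : ℕ) : ℝ)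
      ≤ (K / 16 ^ l * ((U / h) ^ A * ((g : ℕ) : ℝ) ^ (-(2 * A)))) / ((g : ℕ) : ℝ) := by
        gcongr
        exact h1.trans (mul_le_mul_of_nonneg_left h2 (by positivity))
    _ = _ := by ring

theorem exists_sep (δ : ℝ) (hδ : 0 < δ) (hδ2 : δ ≤ 1 / 2) : ∃ C : ℝ, 0 < C ∧ ∀ U : ℝ, 1 ≤ U →
    ∃ a : ℕ → ℝ → ℝ, IsSep δ U C a := by
  obtain ⟨K, hK, hKb⟩ := sepA_le δ hδ
  obtain ⟨K', hK', hKb'⟩ := sepA_le 2 (by norm_num)
  set S : ℝ := ∑' g : ℕ+, ((g : ℕ) : ℝ) ^ (-1 - 2 * δ) with hS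
  set S' : ℝ := ∑' g : ℕ+, ((g : ℕ) : ℝ) ^ (-1 - 2 * (2 : ℝ)) with hS'
  have hS0 : 0 ≤ S := tsum_nonneg fun g => by positivity
  have hS0' : 0 ≤ S' := tsum_nonneg fun g => by positivity
  refine ⟨K * S + K' * S' + 1, by positivity, fun U hU => ?_⟩
  have hU0 : 0 < U := by linarith
  refine ⟨fun l h => ∑' g : ℕ+, sepA l (Real.log (2 * Real.pi * ((g : ℕ) : ℝ) ^ 2 * h / U)) / ((g : ℕ) : ℝ),
    ?_, ?_⟩
  · intro l h hh
    have hh0 : 0 < h := by linarith
    have hbd : ∀ (A : ℝ) (hA : 0 < A) (K : ℝ) (hK : 0 < K)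
        (hKb : ∀ l L, |sepA l L| ≤ K / 16 ^ l * Real.exp (-A * L)),
        |∑' g : ℕ+, sepA l (Real.log (2 * Real.pi * ((g : ℕ) : ℝ) ^ 2 * h / U)) / ((g : ℕ) : ℝ)| ≤
          K / 16 ^ l * (U / h) ^ A * ∑' g : ℕ+, ((g : ℕ) : ℝ) ^ (-1 - 2 * A) := by
      intro A hA K hK hKb
      have h1 := ((sep_summable_g A hA).mul_left (K / 16 ^ l * (U / h) ^ A)).hasSum
      rw [tsum_mul_left] at h1
      have h2 := tsum_of_norm_bounded h1 (fun g => by
        rw [Real.norm_eq_abs]; exact sep_term A hA hK hKb hU0 hh0 l g)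
      rwa [Real.norm_eq_abs] at h2
    simp only
    unfold kap
    split_ifs with hc
    · refine (hbd δ hδ K hK hKb).trans ?_
      rw [← hS]
      have hx : 0 ≤ (U / h) ^ δ := by positivity
      have h16 : (0 : ℝ) < 16 ^ l := by positivity
      calc K / 16 ^ l * (U / h) ^ δ * S = (K * S) / 16 ^ l * (U / h) ^ δ := by ring
        _ ≤ (K * S + K' * S' + 1) / 16 ^ l * (U / h) ^ δ := by
            gcongr
            have := mul_nonneg hK'.le hS0'
            linarith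
    · refine (hbd 2 (by norm_num) K' hK' hKb').trans ?_
      rw [← hS']
      have hx : 0 ≤ (U / h) ^ (2 : ℝ) := by positivity
      have h16 : (0 : ℝ) < 16 ^ l := by positivity
      calc K' / 16 ^ l * (U / h) ^ (2 : ℝ) * S' = (K' * S') / 16 ^ l * (U / h) ^ (2 : ℝ) := by ring
        _ ≤ (K * S + K' * S' + 1) / 16 ^ l * (U / h) ^ (2 : ℝ) := by
            gcongr
            have := mul_nonneg hK.le hS0
            linarith
  · intro h hh x hx1 hx2
    have hh0 : 0 < h := by linarith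
    have hx0 : 0 < x := by linarith
    set r : ℝ := Real.log (x / U) with hr
    have hr0 : 0 ≤ r := Real.log_nonneg ((one_le_div hU0).2 hx1)
    have hr2 : r ≤ 2 := by
      have h1 : x / U ≤ 4 := by rw [div_le_iff₀ hU0]; linarith
      have h2 : r ≤ Real.log 4 := Real.log_le_log (by positivity) h1
      have h3 : Real.log 4 = 2 * Real.log 2 := by
        rw [show (4 : ℝ) = 2 ^ 2 by norm_num, Real.log_pow]; norm_num
      have h4 := Real.log_two_lt_d9
      linarith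
    have hrabs : |r| ≤ 2 := by rwa [abs_of_nonneg hr0]
    have hex : Real.exp (-r) = U / x := by
      rw [Real.exp_neg, hr, Real.exp_log (by positivity), inv_div]
    let f : ℕ+ × ℕ → ℝ := fun p => r ^ p.2 *
      (sepA p.2 (Real.log (2 * Real.pi * ((p.1 : ℕ) : ℝ) ^ 2 * h / U)) / ((p.1 : ℕ) : ℝ))
    have hfs : Summable f := by
      have hg : Summable (fun p : ℕ+ × ℕ => ((p.1 : ℕ) : ℝ) ^ (-1 - 2 * δ) * (1 / 8 : ℝ) ^ p.2) :=
        (sep_summable_g δ hδ).mul_of_nonneg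
          (summable_geometric_of_lt_one (by norm_num) (by norm_num)) (fun g => by positivity)
          (fun l => by positivity)
      refine Summable.of_norm_bounded (hg.mul_left (K * (U / h) ^ δ)) fun p => ?_
      simp only [f]
      rw [norm_mul, norm_pow, Real.norm_eq_abs, Real.norm_eq_abs]
      have h1 : |r| ^ p.2 ≤ 2 ^ p.2 := pow_le_pow_left₀ (abs_nonneg _) hrabs _
      calc |r| ^ p.2 * |sepA p.2 (Real.log (2 * Real.pi * ((p.1 : ℕ) : ℝ) ^ 2 * h / U)) / ((p.1 : ℕ) : ℝ)|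
          ≤ 2 ^ p.2 * (K / 16 ^ p.2 * (U / h) ^ δ * ((p.1 : ℕ) : ℝ) ^ (-1 - 2 * δ)) :=
            mul_le_mul h1 (sep_term δ hδ hK hKb hU0 hh0 p.2 p.1) (abs_nonneg _) (by positivity)
        _ = _ := by
            have e : (2 : ℝ) ^ p.2 / 16 ^ p.2 = (1 / 8) ^ p.2 := by
              rw [← div_pow]; norm_num
            rw [← e]
            ring
    have hin : ∀ g : ℕ+, HasSum (fun l : ℕ => f (g, l))
        (W (2 * Real.pi * ((g : ℕ) : ℝ) ^ 2 * h / x) / ((g : ℕ) : ℝ)) := by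
      intro g
      have hg : (0 : ℝ) < ((g : ℕ) : ℝ) := by exact_mod_cast g.2
      have h1 := (sepW (2 * Real.pi * ((g : ℕ) : ℝ) ^ 2 * h / U) r (by positivity) hrabs).div_const
        ((g : ℕ) : ℝ)
      have e : 2 * Real.pi * ((g : ℕ) : ℝ) ^ 2 * h / U * Real.exp (-r) =
          2 * Real.pi * ((g : ℕ) : ℝ) ^ 2 * h / x := by
        rw [hex]
        field_simp
      rw [e] at h1
      refine h1.congr_fun fun l => ?_
      simp only [f]
      ring
    have hOm : HasSum f (Om h x) := by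
      have h1 := hfs.hasSum.prod_fiberwise hin
      have h2 : Om h x = ∑' p, f p := h1.tsum_eq
      rw [h2]
      exact hfs.hasSum
    have hsw : HasSum (fun p : ℕ × ℕ+ => f p.swap) (Om h x) :=
      (Equiv.prodComm ℕ ℕ+).hasSum_iff.2 hOm
    refine hsw.prod_fiberwise fun l => ?_
    have h2 : Summable (fun g : ℕ+ =>
        sepA l (Real.log (2 * Real.pi * ((g : ℕ) : ℝ) ^ 2 * h / U)) / ((g : ℕ) : ℝ)) :=
      Summable.of_norm_bounded ((sep_summable_g δ hδ).mul_left (K / 16 ^ l * (U / h) ^ δ)) fun g => by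
        rw [Real.norm_eq_abs]; exact sep_term δ hδ hK hKb hU0 hh0 l g
    exact h2.hasSum.mul_left (r ^ l)

end Pool.Agent.P07318s
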