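import Pool.Agent.Lib.P07318s.Defs
import Pool.Agent.Lib.P07318s.PiSum
import Pool.Agent.Lib.P07318s.Regroup
import Pool.Agent.Lib.P07318s.KapSum
import Pool.Agent.Lib.P07318s.Sep

/-!
`∏ Fd (x_j) - Dg x = ∑_{q, lam q ≠ 0} ∏_j hgt^(-1/2) Om(hgt q_j)(x_j) ex(x_j)(q_j)` (`Fd_eq`, `Dg_eq`,
`hasSum_pi_prod`). Insert `Om (hgt q) x = ∑_l log(x/U)^l a l (hgt q)`; the double sum over `(q, l)` is absolutely
convergent: `|log(x/U)| ≤ log 4 ≤ 2`, `∑_l 2^l C/16^l < ∞`, `ww_summable`, `za_le`, `summable_pi_prod_real`.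
Product over `j` of the `l`-series: `hasSum_pi_prod` with `ι = ℕ`.
-/

set_option autoImplicit false

namespace Pool.Agent.P07318s

open MeasureTheory Complex

namespace ProdExpAux

/-- the terms of the double expansion -/
noncomputable def tm (U x : ℝ) (a : ℕ → ℝ → ℝ) (l : ℕ) (q : Q) : ℂ :=
  ((Real.log (x / U) ^ l * ((hgt q.1) ^ (-(1 / 2) : ℝ) * a l (hgt q.1)) : ℝ) : ℂ) * ex x q.1

theorem abs_log_le {U x : ℝ} (hU : 1 ≤ U) (h1 : U ≤ x) (h2 : x ≤ 4 * U) :
    |Real.log (x / U)| ≤ 2 := by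
  have hU0 : 0 < U := by linarith
  have h3 : 1 ≤ x / U := (one_le_div hU0).2 h1
  have h4 : x / U ≤ 4 := (div_le_iff₀ hU0).2 h2
  have h5 : 0 ≤ Real.log (x / U) := Real.log_nonneg h3
  rw [abs_of_nonneg h5]
  have h6 : Real.log (x / U) ≤ Real.log 4 := Real.log_le_log (by linarith) h4
  have h7 : Real.log 4 = 2 * Real.log 2 := by
    have : (4 : ℝ) = 2 ^ 2 := by norm_num
    rw [this, Real.log_pow]
    norm_num
  have h8 := Real.log_two_lt_d9
  linarith

theorem norm_tm_le {δ U C : ℝ} (hU : 1 ≤ U) {a : ℕ → ℝ → ℝ} (ha : IsSep δ U C a) {x : ℝ}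
    (h1 : U ≤ x) (h2 : x ≤ 4 * U) (l : ℕ) (q : Q) :
    ‖tm U x a l q‖ ≤ |C| / 8 ^ l * ww δ U q := by
  unfold tm
  rw [norm_mul, norm_ex, mul_one, Complex.norm_real, Real.norm_eq_abs, abs_mul, abs_pow]
  have h3 : |(hgt q.1) ^ (-(1 / 2) : ℝ) * a l (hgt q.1)| ≤ |C| / 16 ^ l * ww δ U q := by
    have h4 := za_le (k := 1) ha (fun _ => l) 0 q
    refine h4.trans ?_
    have hw : 0 ≤ ww δ U q := ww_nonneg (by linarith) q
    refine mul_le_mul_of_nonneg_right ?_ hw
    exact div_le_div_of_nonneg_right (le_abs_self C) (by positivity)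
  have h5 : |Real.log (x / U)| ^ l ≤ 2 ^ l :=
    pow_le_pow_left₀ (abs_nonneg _) (abs_log_le hU h1 h2) l
  have hw : 0 ≤ ww δ U q := ww_nonneg (by linarith) q
  calc |Real.log (x / U)| ^ l * |(hgt q.1) ^ (-(1 / 2) : ℝ) * a l (hgt q.1)|
      ≤ 2 ^ l * (|C| / 16 ^ l * ww δ U q) :=
        mul_le_mul h5 h3 (abs_nonneg _) (by positivity)
    _ = |C| / 8 ^ l * ww δ U q := by
        have e : (16 : ℝ) ^ l = 2 ^ l * 8 ^ l := by rw [← mul_pow]; norm_num
        have e2 : (2 : ℝ) ^ l ≠ 0 := by positivity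
        have e3 : (8 : ℝ) ^ l ≠ 0 := by positivity
        rw [e]
        field_simp

theorem summable_geo (c : ℝ) : Summable (fun l : ℕ => |c| / (8 : ℝ) ^ l) := by
  have h : Summable (fun l : ℕ => ((1 : ℝ) / 8) ^ l) :=
    summable_geometric_of_lt_one (by norm_num) (by norm_num)
  refine (h.mul_left |c|).congr (fun l => ?_)
  rw [one_div, inv_pow, div_eq_mul_inv]

theorem hasSum_tm {δ U C : ℝ} {a : ℕ → ℝ → ℝ} (ha : IsSep δ U C a) {x : ℝ}
    (h1 : U ≤ x) (h2 : x ≤ 4 * U) (q : Q) :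
    HasSum (fun l => tm U x a l q)
      ((((hgt q.1) ^ (-(1 / 2) : ℝ) * Om (hgt q.1) x : ℝ) : ℂ) * ex x q.1) := by
  have h3 := ha.2 (hgt q.1) (one_le_hgt q.1) x h1 h2
  have h4 := h3.mul_left ((hgt q.1) ^ (-(1 / 2) : ℝ))
  have h5 := (Complex.hasSum_ofReal.2 h4).mul_right (ex x q.1)
  have h6 : (fun l => tm U x a l q) = fun l : ℕ => (((hgt q.1) ^ (-(1 / 2) : ℝ) *
      ((Real.log (x / U)) ^ l * a l (hgt q.1)) : ℝ) : ℂ) * ex x q.1 := by
    funext l
    unfold tm
    push_cast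
    ring
  rw [h6]
  exact h5

end ProdExpAux

open ProdExpAux

theorem prod_exp {k : ℕ} {δ U C : ℝ} (hδ : 0 < δ) (hδ2 : δ ≤ 1 / 2) (hU : 1 ≤ U) {a : ℕ → ℝ → ℝ}
    (ha : IsSep δ U C a) (x : Fin k → ℝ) (hx1 : ∀ j, U ≤ x j) (hx2 : ∀ j, x j ≤ 4 * U) :
    HasSum (fun l : Fin k → ℕ => ((∏ j, (Real.log (x j / U)) ^ (l j) : ℝ) : ℂ) * NN (za a l) x)
      (∏ j, Fd (x j) - Dg x) := by
  classical
  have hx0 : ∀ j, 0 < x j := fun j => by linarith [hx1 j]
  -- the coefficients
  set F : Fin k → Q → ℂ := fun j q =>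
    (((hgt q.1) ^ (-(1 / 2) : ℝ) * Om (hgt q.1) (x j) : ℝ) : ℂ) * ex (x j) q.1 with hF
  have hFnorm : ∀ j, Summable fun q => ‖F j q‖ := by
    intro j
    refine (cfQ_summable (hx0 j)).congr (fun q => ?_)
    rw [hF]
    simp only
    rw [norm_mul, norm_ex, mul_one, Complex.norm_real, Real.norm_eq_abs, abs_of_nonneg]
    exact mul_nonneg (Real.rpow_nonneg (hgt_pos q.1).le _) (Om_nonneg _ _)
  have hprod := hasSum_pi_prod F hFnorm
  have hprodn := summable_pi_prod F hFnorm
  have hFd : ∀ j, Fd (x j) = ∑' q, F j q := fun j => Fd_eq (hx0 j)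
  -- the double series
  let g : (Fin k → ℕ) × (Fin k → Q) → ℂ := fun p =>
    if lam (fun j => (p.2 j).1) = 0 then 0 else ∏ j, tm U (x j) a (p.1 j) (p.2 j)
  have hgs : Summable g := by
    have hs1 : Summable (fun l : Fin k → ℕ => ∏ j, |C| / (8 : ℝ) ^ (l j)) :=
      summable_pi_prod_real (fun _ l => |C| / (8 : ℝ) ^ l) (fun _ => summable_geo C)
        (fun _ l => by positivity)
    have hs2 : Summable (fun q : Fin k → Q => ∏ j, ww δ U (q j)) :=
      summable_pi_prod_real (fun _ q => ww δ U q) (fun _ => ww_summable hδ hδ2 hU)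
        (fun _ q => ww_nonneg (by linarith) q)
    have hs3 := hs1.mul_of_nonneg hs2
      (fun l => Finset.prod_nonneg (fun j _ => by positivity))
      (fun q => Finset.prod_nonneg (fun j _ => ww_nonneg (by linarith) (q j)))
    refine Summable.of_norm_bounded hs3 (fun p => ?_)
    by_cases hl : lam (fun j => (p.2 j).1) = 0
    · have : g p = 0 := if_pos hl
      rw [this, norm_zero]
      exact mul_nonneg (Finset.prod_nonneg (fun j _ => by positivity))
        (Finset.prod_nonneg (fun j _ => ww_nonneg (by linarith) _))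
    · have : g p = ∏ j, tm U (x j) a (p.1 j) (p.2 j) := if_neg hl
      rw [this, norm_prod, ← Finset.prod_mul_distrib]
      exact Finset.prod_le_prod (fun j _ => norm_nonneg _)
        (fun j _ => norm_tm_le hU ha (hx1 j) (hx2 j) _ _)
  have hl : ∀ l : Fin k → ℕ, HasSum (fun q => g (l, q))
      (((∏ j, (Real.log (x j / U)) ^ (l j) : ℝ) : ℂ) * NN (za a l) x) := by
    intro l
    have h1 : Summable (fun q => g (l, q)) := hgs.prod_factor l
    have h2 : ∑' q, g (l, q) = ((∏ j, (Real.log (x j / U)) ^ (l j) : ℝ) : ℂ) * NN (za a l) x := by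
      unfold NN
      rw [← tsum_mul_left]
      refine tsum_congr (fun q => ?_)
      by_cases hq : lam (fun j => (q j).1) = 0
      · change (if lam (fun j => (q j).1) = 0 then (0 : ℂ) else _) = _
        rw [if_pos hq, if_pos hq, mul_zero]
      · change (if lam (fun j => (q j).1) = 0 then (0 : ℂ) else
          ∏ j, tm U (x j) a (l j) (q j)) = _
        rw [if_neg hq, if_neg hq, Complex.ofReal_prod, ← Finset.prod_mul_distrib]
        refine Finset.prod_congr rfl (fun j _ => ?_)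
        unfold tm za
        push_cast
        ring
    rw [← h2]
    exact h1.hasSum
  have hq : ∀ q : Fin k → Q, ∑' l, g (l, q)
      = if lam (fun j => (q j).1) = 0 then 0 else ∏ j, F j (q j) := by
    intro q
    by_cases hq0 : lam (fun j => (q j).1) = 0
    · rw [if_pos hq0]
      have : ∀ l, g (l, q) = 0 := fun l => if_pos hq0
      simp only [this, tsum_zero]
    · rw [if_neg hq0]
      have : ∀ l, g (l, q) = ∏ j, tm U (x j) a (l j) (q j) := fun l => if_neg hq0
      simp only [this]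
      have h3 := hasSum_pi_prod (fun j l => tm U (x j) a l (q j)) (fun j =>
        Summable.of_nonneg_of_le (fun l => norm_nonneg _)
          (fun l => norm_tm_le hU ha (hx1 j) (hx2 j) l (q j))
          ((summable_geo C).mul_right (ww δ U (q j))))
      rw [h3.tsum_eq]
      refine Finset.prod_congr rfl (fun j _ => ?_)
      exact (hasSum_tm ha (hx1 j) (hx2 j) (q j)).tsum_eq
  have hmain : ∑' p, g p = ∏ j, Fd (x j) - Dg x := by
    have h1 : ∑' p, g p = ∑' q, ∑' l, g (l, q) := by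
      rw [← (Equiv.prodComm (Fin k → Q) (Fin k → ℕ)).tsum_eq g]
      exact (hgs.prod_symm).tsum_prod
    rw [h1, tsum_congr hq, Dg_eq x hx0]
    have h2 : ∏ j, Fd (x j) = ∑' q : Fin k → Q, ∏ j, F j (q j) := by
      rw [hprod.tsum_eq]
      exact Finset.prod_congr rfl (fun j _ => hFd j)
    have h3 : Summable (fun q : Fin k → Q => if lam (fun j => (q j).1) = 0 then
        ∏ j, F j (q j) else 0) := by
      refine Summable.of_norm_bounded hprodn (fun q => ?_)
      split_ifs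
      · exact le_rfl
      · rw [norm_zero]; exact norm_nonneg _
    rw [h2]
    change _ = _ - ∑' q : Fin k → Q, if lam (fun j => (q j).1) = 0 then
        ∏ j, F j (q j) else 0
    rw [← hprod.summable.tsum_sub h3]
    refine tsum_congr (fun q => ?_)
    split_ifs
    · rw [sub_self]
    · rw [sub_zero]
  rw [← hmain]
  exact hgs.hasSum.prod_fiberwise hl

end Pool.Agent.P07318s
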