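import Pool.Agent.Lib.P07318s.Defs
import Pool.Agent.Lib.P07318s.MeanM
import Pool.Agent.Lib.P07318s.NNint
import Pool.Agent.Lib.P07318s.ProdExp
import Pool.Agent.Lib.P07318s.PartInt

/-!
Mean square of the off-diagonal part. Fix a separated expansion (`exists_sep`), constant `C₀`. For `α` in the box,
`∫_0^V (∏ Fd - Dg)(t + α) dt = ∑_l ∫_0^V f_l(t) N_l(t) dt` (`prod_exp`; termwise integration: the sum over `l` is
dominated uniformly in `t` by `2^|l| ∏ (C₀/16^(l_j)) (∑ ww)^k`), and by `part_int`, `MM_eq`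
`‖...‖ ≤ ∑_l 2^|l| (‖MM_l(V)‖ + (|l|/U) ∫_0^V ‖MM_l(t)‖ dt)`. Cauchy-Schwarz with the weights `2^(-|l|)` in the
sum over `l`, and in the integral over `t`; then integrate over the box (`lintegral` and Tonelli, measurability
from `MM_continuous`) and use `mean_MM` with `s_j = C₀/16^(l_j)` for every `t ∈ [0, V]`.
-/

set_option autoImplicit false

namespace Pool.Agent.P07318s

open MeasureTheory Complex
open scoped ENNReal

/-- Cauchy-Schwarz for the integral. -/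
theorem cs_lintegral {α : Type*} [MeasurableSpace α] (μ : Measure α) {f g : α → ℝ≥0∞}
    (hf : AEMeasurable f μ) (hg : AEMeasurable g μ) :
    (∫⁻ a, f a * g a ∂μ) ^ 2 ≤ (∫⁻ a, f a ^ 2 ∂μ) * ∫⁻ a, g a ^ 2 ∂μ := by
  have h := ENNReal.lintegral_mul_le_Lp_mul_Lq μ Real.HolderConjugate.two_two hf hg
  have h2 := pow_le_pow_left' h 2
  refine h2.trans (le_of_eq ?_)
  rw [mul_pow, ← ENNReal.rpow_natCast, ← ENNReal.rpow_mul, ← ENNReal.rpow_natCast,
    ← ENNReal.rpow_mul]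
  norm_num

/-- Cauchy-Schwarz for the sum. -/
theorem cs_tsum {ι : Type*} [Countable ι] (f g : ι → ℝ≥0∞) :
    (∑' i, f i * g i) ^ 2 ≤ (∑' i, f i ^ 2) * ∑' i, g i ^ 2 := by
  let _ : MeasurableSpace ι := ⊤
  have h := cs_lintegral (Measure.count : Measure ι) (f := f) (g := g)
    (Measurable.of_discrete).aemeasurable (Measurable.of_discrete).aemeasurable
  simpa only [lintegral_count] using h

theorem sq_add_le' (a b : ℝ≥0∞) : (a + b) ^ 2 ≤ 2 * (a ^ 2 + b ^ 2) := by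
  rcases eq_or_ne a ⊤ with ha | ha
  · subst ha; simp
  rcases eq_or_ne b ⊤ with hb | hb
  · subst hb; simp
  lift a to NNReal using ha
  lift b to NNReal using hb
  norm_cast
  rw [← NNReal.coe_le_coe]
  push_cast
  nlinarith [sq_nonneg ((a : ℝ) - b)]

theorem continuous_shift {k : ℕ} (α : Fin k → ℝ) : Continuous fun t : ℝ => (fun j => t + α j) := by
  fun_prop

theorem continuous_cons {n : ℕ} (α₀ : ℝ) :
    Continuous fun α : Fin n → ℝ => (Fin.cons α₀ α : Fin (n + 1) → ℝ) := by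
  refine continuous_pi fun j => ?_
  refine Fin.cases ?_ (fun i => ?_) j
  · simpa using continuous_const
  · simpa using continuous_apply i

/-- bound for the off-diagonal sum -/
theorem NN_norm_le {k : ℕ} {δ U : ℝ} (hδ : 0 < δ) (hδ2 : δ ≤ 1 / 2) (hU : 1 ≤ U) (z : Fin k → Q → ℝ)
    (s : Fin k → ℝ) (hs : ∀ j, 0 ≤ s j) (hz : ∀ j q, |z j q| ≤ s j * ww δ U q) (x : Fin k → ℝ) :
    ‖NN z x‖ ≤ (∏ j, s j) * ∑' q : Fin k → Q, ∏ j, ww δ U (q j) := by
  have hsum : Summable fun q : Fin k → Q => ∏ j, ww δ U (q j) :=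
    summable_pi_prod_real (fun _ => ww δ U) (fun _ => ww_summable hδ hδ2 hU)
      fun _ q => ww_nonneg (by linarith) q
  have hb : ∀ q : Fin k → Q, ‖(if lam (fun j => (q j).1) = 0 then (0 : ℂ) else
      ∏ j, ((z j (q j) : ℂ) * ex (x j) (q j).1))‖ ≤ (∏ j, s j) * ∏ j, ww δ U (q j) := by
    intro q
    have h0 : 0 ≤ (∏ j, s j) * ∏ j, ww δ U (q j) :=
      mul_nonneg (Finset.prod_nonneg fun j _ => hs j)
        (Finset.prod_nonneg fun j _ => ww_nonneg (by linarith) _)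
    split_ifs with h
    · simpa using h0
    · rw [norm_prod, ← Finset.prod_mul_distrib]
      refine Finset.prod_le_prod (fun _ _ => norm_nonneg _) fun j _ => ?_
      rw [norm_mul, norm_ex, mul_one, Complex.norm_real, Real.norm_eq_abs]
      exact hz j (q j)
  unfold NN
  refine (tsum_of_norm_bounded (hsum.hasSum.mul_left _) hb)

theorem point_bound {k : ℕ} {δ U C₀ : ℝ} (hδ : 0 < δ) (hδ2 : δ ≤ 1 / 2) (hU : 1 ≤ U) (hC₀ : 0 ≤ C₀)
    {a : ℕ → ℝ → ℝ} (ha : IsSep δ U C₀ a) {V : ℝ} (hV : 0 ≤ V) (α : Fin k → ℝ)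
    (h1 : ∀ j, U ≤ α j) (h2 : ∀ j, α j + V ≤ 4 * U) :
    ‖∫ t in (0:ℝ)..V, ((∏ j, Fd (t + α j)) - Dg (fun j => t + α j))‖ₑ ≤
      ∑' l : Fin k → ℕ, ENNReal.ofReal (2 ^ (∑ j, l j)) * (‖MM (za a l) V α‖ₑ +
        ENNReal.ofReal ((∑ j, l j : ℕ) / U) * ∫⁻ t in Set.Ioc 0 V, ‖MM (za a l) t α‖ₑ) := by
  have hU0 : 0 < U := by linarith
  have hz : ∀ (l : Fin k → ℕ) (j : Fin k) (q : Q),
      |za a l j q| ≤ (fun j => C₀ / 16 ^ (l j)) j * ww δ U q := fun l j q => za_le ha l j q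
  have hsn : ∀ (l : Fin k → ℕ) (j : Fin k), 0 ≤ (fun j => C₀ / 16 ^ (l j)) j := fun l j => by
    positivity
  set T := ∑' q : Fin k → Q, ∏ j, ww δ U (q j) with hT
  have hcont : ∀ l : Fin k → ℕ, Continuous fun t : ℝ => NN (za a l) (fun j => t + α j) := fun l =>
    (NN_continuous hδ hδ2 hU (za a l) _ (hz l)).comp (continuous_shift α)
  have hs : HasSum (fun l : Fin k → ℕ => ∫ t in (0:ℝ)..V,
      ((∏ j, (Real.log ((t + α j) / U)) ^ (l j) : ℝ) : ℂ) * NN (za a l) (fun j => t + α j))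
      (∫ t in (0:ℝ)..V, ((∏ j, Fd (t + α j)) - Dg (fun j => t + α j))) := by
    have hlog : ∀ t ∈ Set.uIoc 0 V, ∀ j, |Real.log ((t + α j) / U)| ≤ 2 := by
      intro t ht j
      rw [Set.uIoc_of_le hV] at ht
      have e1 : 1 ≤ (t + α j) / U := by
        rw [le_div_iff₀ hU0]
        linarith [h1 j, ht.1]
      have e2 : (t + α j) / U ≤ 4 := by
        rw [div_le_iff₀ hU0]
        linarith [h2 j, ht.2]
      rw [abs_of_nonneg (Real.log_nonneg e1)]
      have e3 : Real.log ((t + α j) / U) ≤ Real.log 4 := Real.log_le_log (by linarith) e2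
      have e4 : Real.log 4 ≤ 2 := by
        have : (4 : ℝ) = 2 ^ 2 := by norm_num
        rw [this, Real.log_pow]
        have := Real.log_two_lt_d9
        push_cast
        linarith
      linarith
    refine intervalIntegral.hasSum_integral_of_dominated_convergence
      (fun l _ => (∏ j, (2 ^ (l j) * (C₀ / 16 ^ (l j)))) * T) ?_ ?_ ?_ ?_ ?_
    · intro l
      have hm : Measurable fun t : ℝ => ((∏ j, (Real.log ((t + α j) / U)) ^ (l j) : ℝ) : ℂ) := by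
        refine Complex.measurable_ofReal.comp ?_
        refine Finset.measurable_prod _ fun j _ => ?_
        refine (Real.measurable_log.comp ?_).pow_const _
        fun_prop
      exact (hm.mul (hcont l).measurable).aestronglyMeasurable
    · intro l
      refine Filter.Eventually.of_forall fun t ht => ?_
      rw [norm_mul, Complex.norm_real, Real.norm_eq_abs, Finset.abs_prod, Finset.prod_mul_distrib,
        mul_assoc]
      refine mul_le_mul ?_ (NN_norm_le hδ hδ2 hU (za a l) _ (hsn l) (hz l) _) (norm_nonneg _)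
        (Finset.prod_nonneg fun _ _ => by positivity)
      refine Finset.prod_le_prod (fun _ _ => abs_nonneg _) fun j _ => ?_
      rw [abs_pow]
      exact pow_le_pow_left₀ (abs_nonneg _) (hlog t ht j) _
    · refine Filter.Eventually.of_forall fun t _ => ?_
      have hg : Summable fun i : ℕ => (2 : ℝ) ^ i * (C₀ / 16 ^ i) := by
        have : (fun i : ℕ => (2 : ℝ) ^ i * (C₀ / 16 ^ i)) = fun i => C₀ * (1 / 8 : ℝ) ^ i := by
          funext i
          have : (16 : ℝ) = 8 * 2 := by norm_num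
          rw [this, mul_pow, one_div, inv_pow]
          field_simp
        rw [this]
        exact (summable_geometric_of_lt_one (by norm_num) (by norm_num)).mul_left _
      exact (summable_pi_prod_real (k := k) (fun _ i => (2 : ℝ) ^ i * (C₀ / 16 ^ i)) (fun _ => hg)
        fun _ i => by positivity).mul_right _
    · exact intervalIntegrable_const
    · refine Filter.Eventually.of_forall fun t ht => ?_
      rw [Set.uIoc_of_le hV] at ht
      exact prod_exp hδ hδ2 hU ha (fun j => t + α j) (fun j => by linarith [h1 j, ht.1])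
        fun j => by linarith [h2 j, ht.2]
  rw [← hs.tsum_eq]
  refine enorm_tsum_le_tsum_enorm.trans (ENNReal.tsum_le_tsum fun l => ?_)
  have hp := part_int l hU hV α h1 h2 _ (hcont l)
  have hMc : Continuous fun t : ℝ => MM (za a l) t α := by
    have hct : Continuous fun t : ℝ => ((t, α) : ℝ × (Fin k → ℝ)) :=
      continuous_id.prodMk continuous_const
    have h := (MM_continuous hδ hδ2 hU (za a l) _ (hz l)).comp hct
    exact h
  have he : ∀ t : ℝ, ∫ τ in (0:ℝ)..t, NN (za a l) (fun j => τ + α j) = MM (za a l) t α := fun t =>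
    MM_eq hδ hδ2 hU (za a l) _ (hz l) α t
  simp only [he] at hp
  rw [← ofReal_norm]
  refine (ENNReal.ofReal_le_ofReal hp).trans (le_of_eq ?_)
  have hint : 0 ≤ ∫ t in (0:ℝ)..V, ‖MM (za a l) t α‖ :=
    intervalIntegral.integral_nonneg hV fun _ _ => norm_nonneg _
  rw [ENNReal.ofReal_mul (by positivity), ENNReal.ofReal_add (norm_nonneg _) (by positivity),
    ofReal_norm, ENNReal.ofReal_mul (by positivity)]
  congr 3
  rw [intervalIntegral.integral_of_le hV, ofReal_integral_eq_lintegral_ofReal]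
  · simp only [ofReal_norm]
  · exact (hMc.norm.intervalIntegrable 0 V).1
  · exact Filter.Eventually.of_forall fun _ => norm_nonneg _

/-- the integrand of the mean square of one separated term -/
noncomputable def Dl {n : ℕ} (z : Fin (n + 1) → Q → ℝ) (m : ℕ) (U V α₀ : ℝ) (α : Fin n → ℝ) : ℝ≥0∞ :=
  ‖MM z V (Fin.cons α₀ α : Fin (n + 1) → ℝ)‖ₑ ^ 2 + ENNReal.ofReal ((m : ℝ) ^ 2 / U) *
    ∫⁻ t in Set.Ioc 0 V, ‖MM z t (Fin.cons α₀ α : Fin (n + 1) → ℝ)‖ₑ ^ 2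

theorem measurable_enorm_MM {n : ℕ} {δ U : ℝ} (hδ : 0 < δ) (hδ2 : δ ≤ 1 / 2) (hU : 1 ≤ U)
    (z : Fin (n + 1) → Q → ℝ) (s : Fin (n + 1) → ℝ) (hz : ∀ j q, |z j q| ≤ s j * ww δ U q) (α₀ : ℝ) :
    Measurable fun p : (Fin n → ℝ) × ℝ => ‖MM z p.2 (Fin.cons α₀ p.1 : Fin (n + 1) → ℝ)‖ₑ ^ 2 := by
  have hc : Continuous fun p : (Fin n → ℝ) × ℝ =>
      ((p.2, (Fin.cons α₀ p.1 : Fin (n + 1) → ℝ)) : ℝ × (Fin (n + 1) → ℝ)) :=
    continuous_snd.prodMk ((continuous_cons α₀).comp continuous_fst)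
  have h := ((MM_continuous hδ hδ2 hU z s hz).comp hc).enorm.measurable.pow_const 2
  exact h

theorem measurable_point_MM {n : ℕ} {δ U : ℝ} (hδ : 0 < δ) (hδ2 : δ ≤ 1 / 2) (hU : 1 ≤ U)
    (z : Fin (n + 1) → Q → ℝ) (s : Fin (n + 1) → ℝ) (hz : ∀ j q, |z j q| ≤ s j * ww δ U q) (V α₀ : ℝ) :
    Measurable fun α : Fin n → ℝ => ‖MM z V (Fin.cons α₀ α : Fin (n + 1) → ℝ)‖ₑ ^ 2 := by
  have hc : Measurable fun α : Fin n → ℝ => ((α, V) : (Fin n → ℝ) × ℝ) :=
    measurable_id.prodMk measurable_const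
  have h := (measurable_enorm_MM hδ hδ2 hU z s hz α₀).comp hc
  exact h

theorem measurable_int_MM {n : ℕ} {δ U : ℝ} (hδ : 0 < δ) (hδ2 : δ ≤ 1 / 2) (hU : 1 ≤ U)
    (z : Fin (n + 1) → Q → ℝ) (s : Fin (n + 1) → ℝ) (hz : ∀ j q, |z j q| ≤ s j * ww δ U q) (V α₀ : ℝ) :
    Measurable fun α : Fin n → ℝ =>
      ∫⁻ t in Set.Ioc 0 V, ‖MM z t (Fin.cons α₀ α : Fin (n + 1) → ℝ)‖ₑ ^ 2 := by
  have h := (measurable_enorm_MM hδ hδ2 hU z s hz α₀).lintegral_prod_right'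
    (ν := volume.restrict (Set.Ioc 0 V))
  exact h

theorem Dl_measurable {n : ℕ} {δ U : ℝ} (hδ : 0 < δ) (hδ2 : δ ≤ 1 / 2) (hU : 1 ≤ U)
    (z : Fin (n + 1) → Q → ℝ) (s : Fin (n + 1) → ℝ) (hz : ∀ j q, |z j q| ≤ s j * ww δ U q) (m : ℕ)
    (V α₀ : ℝ) : Measurable (Dl z m U V α₀) := by
  have h1 := measurable_point_MM hδ hδ2 hU z s hz V α₀
  have h2 := measurable_int_MM hδ hδ2 hU z s hz V α₀
  have h3 := h1.add (h2.const_mul (ENNReal.ofReal ((m : ℝ) ^ 2 / U)))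
  exact h3

theorem Dl_integral_le {n : ℕ} {δ U V H Cm : ℝ} (hδ : 0 < δ) (hδ2 : δ ≤ 1 / 2) (hU : 1 ≤ U) (hV : 0 ≤ V)
    (hVU : V ≤ U) (hCm : 0 < Cm) (z : Fin (n + 1) → Q → ℝ) (s : Fin (n + 1) → ℝ)
    (hz : ∀ j q, |z j q| ≤ s j * ww δ U q) (m : ℕ) (α₀ : ℝ) (β : Fin n → ℝ)
    (hmean : ∀ t : ℝ, 0 ≤ t → t ≤ V →
      ∫⁻ α in Set.Icc β (fun j => β j + H), ‖MM z t (Fin.cons α₀ α : Fin (n + 1) → ℝ)‖ₑ ^ 2 ≤
      ENNReal.ofReal (Cm * (∏ j, s j) ^ 2 * U ^ (((n : ℝ) + 1) * (1 + 3 * δ)))) :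
    ∫⁻ α in Set.Icc β (fun j => β j + H), Dl z m U V α₀ α ≤
      ENNReal.ofReal ((1 + (m : ℝ) ^ 2) * (Cm * (∏ j, s j) ^ 2 * U ^ (((n : ℝ) + 1) * (1 + 3 * δ)))) := by
  have h := measurable_enorm_MM hδ hδ2 hU z s hz α₀
  have h1 := measurable_point_MM hδ hδ2 hU z s hz V α₀
  have h2 := measurable_int_MM hδ hδ2 hU z s hz V α₀
  have hU0 : 0 < U := by linarith
  set M := Cm * (∏ j, s j) ^ 2 * U ^ (((n : ℝ) + 1) * (1 + 3 * δ)) with hM
  have hM0 : 0 ≤ M := by positivity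
  unfold Dl
  rw [lintegral_add_left h1, lintegral_const_mul _ h2]
  have h3 : ∫⁻ α in Set.Icc β (fun j => β j + H), ∫⁻ t in Set.Ioc 0 V,
      ‖MM z t (Fin.cons α₀ α : Fin (n + 1) → ℝ)‖ₑ ^ 2 ≤ ENNReal.ofReal (V * M) := by
    rw [lintegral_lintegral_swap h.aemeasurable]
    calc ∫⁻ t in Set.Ioc 0 V, ∫⁻ α in Set.Icc β (fun j => β j + H),
          ‖MM z t (Fin.cons α₀ α : Fin (n + 1) → ℝ)‖ₑ ^ 2
        ≤ ∫⁻ _t in Set.Ioc 0 V, ENNReal.ofReal M := by
          refine setLIntegral_mono measurable_const fun t ht => hmean t ht.1.le ht.2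
      _ = ENNReal.ofReal (V * M) := by
          rw [setLIntegral_const, Real.volume_Ioc, sub_zero, mul_comm, ENNReal.ofReal_mul hV]
  calc _ ≤ ENNReal.ofReal M + ENNReal.ofReal ((m : ℝ) ^ 2 / U) * ENNReal.ofReal (V * M) :=
        add_le_add (hmean V hV le_rfl) (mul_le_mul_right h3 _)
    _ = ENNReal.ofReal (M + (m : ℝ) ^ 2 / U * (V * M)) := by
        rw [ENNReal.ofReal_add hM0 (by positivity),
          ENNReal.ofReal_mul (p := (m : ℝ) ^ 2 / U) (by positivity)]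
    _ ≤ _ := by
        apply ENNReal.ofReal_le_ofReal
        have : (m : ℝ) ^ 2 / U * (V * M) ≤ (m : ℝ) ^ 2 * M := by
          have e : (m : ℝ) ^ 2 / U * (V * M) = (m : ℝ) ^ 2 * M * (V / U) := by ring
          rw [e]
          have e2 : V / U ≤ 1 := (div_le_one hU0).2 hVU
          exact mul_le_of_le_one_right (by positivity) e2
        linarith

theorem sq_term_le {n : ℕ} {δ U V : ℝ} (hδ : 0 < δ) (hδ2 : δ ≤ 1 / 2) (hU : 1 ≤ U)
    (hVU : V ≤ U) (z : Fin (n + 1) → Q → ℝ) (s : Fin (n + 1) → ℝ)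
    (hz : ∀ j q, |z j q| ≤ s j * ww δ U q) (m : ℕ) (α₀ : ℝ) (α : Fin n → ℝ) :
    (‖MM z V (Fin.cons α₀ α : Fin (n + 1) → ℝ)‖ₑ + ENNReal.ofReal ((m : ℝ) / U) *
      ∫⁻ t in Set.Ioc 0 V, ‖MM z t (Fin.cons α₀ α : Fin (n + 1) → ℝ)‖ₑ) ^ 2 ≤
      2 * Dl z m U V α₀ α := by
  have hU0 : 0 < U := by linarith
  refine (sq_add_le' _ _).trans (mul_le_mul_right ?_ _)
  unfold Dl
  refine add_le_add le_rfl ?_
  rw [mul_pow]
  have hm : Measurable fun t : ℝ => ‖MM z t (Fin.cons α₀ α : Fin (n + 1) → ℝ)‖ₑ := by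
    have hct : Continuous fun t : ℝ => ((t, (Fin.cons α₀ α : Fin (n + 1) → ℝ)) :
        ℝ × (Fin (n + 1) → ℝ)) := continuous_id.prodMk continuous_const
    have h := ((MM_continuous hδ hδ2 hU z s hz).comp hct).enorm.measurable
    exact h
  have h1 := cs_lintegral (volume.restrict (Set.Ioc 0 V)) (f := fun _ => (1 : ℝ≥0∞))
    (g := fun t => ‖MM z t (Fin.cons α₀ α : Fin (n + 1) → ℝ)‖ₑ) measurable_const.aemeasurable
    hm.aemeasurable
  simp only [one_mul, one_pow, lintegral_const, Measure.restrict_apply MeasurableSet.univ,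
    Set.univ_inter, Real.volume_Ioc, sub_zero] at h1
  calc _ ≤ ENNReal.ofReal ((m : ℝ) / U) ^ 2 * (ENNReal.ofReal V *
        ∫⁻ t in Set.Ioc 0 V, ‖MM z t (Fin.cons α₀ α : Fin (n + 1) → ℝ)‖ₑ ^ 2) :=
        mul_le_mul_right h1 _
    _ = ENNReal.ofReal (((m : ℝ) / U) ^ 2 * V) *
        ∫⁻ t in Set.Ioc 0 V, ‖MM z t (Fin.cons α₀ α : Fin (n + 1) → ℝ)‖ₑ ^ 2 := by
        rw [← mul_assoc, ENNReal.ofReal_mul (by positivity), ENNReal.ofReal_pow (by positivity)]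
    _ ≤ _ := by
        refine mul_le_mul_left (ENNReal.ofReal_le_ofReal ?_) _
        have e : ((m : ℝ) / U) ^ 2 * V = (m : ℝ) ^ 2 / U * (V / U) := by
          field_simp
        rw [e]
        exact mul_le_of_le_one_right (by positivity) ((div_le_one hU0).2 hVU)

theorem num_ineq (n m : ℕ) {Cm C₀ X : ℝ} (hCm : 0 < Cm) (hX : 0 ≤ X) :
    16 ^ m * (2 * ((1 + (m : ℝ) ^ 2) * (Cm * (C₀ ^ (n + 1) / 16 ^ m) ^ 2 * X))) ≤
      4 * Cm * C₀ ^ (2 * (n + 1)) * X * (1 / 4) ^ m := by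
  have h1 : (m : ℝ) ≤ 2 ^ m := by exact_mod_cast Nat.lt_two_pow_self.le
  have h4 : ((2 : ℝ) ^ m) ^ 2 = 4 ^ m := by rw [← pow_mul, mul_comm, pow_mul]; norm_num
  have h16 : (16 : ℝ) ^ m = 4 ^ m * 4 ^ m := by rw [← mul_pow]; norm_num
  have h2 : (m : ℝ) ^ 2 ≤ 4 ^ m := by
    rw [← h4]; exact pow_le_pow_left₀ (by positivity) h1 2
  have h3 : (1 : ℝ) ≤ 4 ^ m := one_le_pow₀ (by norm_num)
  have hc : (C₀ ^ (n + 1)) ^ 2 = C₀ ^ (2 * (n + 1)) := by rw [← pow_mul, mul_comm]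
  have e : (16 : ℝ) ^ m * (2 * ((1 + (m : ℝ) ^ 2) * (Cm * (C₀ ^ (n + 1) / 16 ^ m) ^ 2 * X))) =
      2 * Cm * C₀ ^ (2 * (n + 1)) * X * ((1 + (m : ℝ) ^ 2) / 16 ^ m) := by
    rw [div_pow, hc]
    field_simp
  have e2 : 4 * Cm * C₀ ^ (2 * (n + 1)) * X * (1 / 4 : ℝ) ^ m =
      2 * Cm * C₀ ^ (2 * (n + 1)) * X * (2 * (1 / 4) ^ m) := by ring
  rw [e, e2]
  have hc0 : 0 ≤ C₀ ^ (2 * (n + 1)) := by rw [← hc]; positivity
  refine mul_le_mul_of_nonneg_left ?_ (by positivity)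
  rw [h16, one_div, inv_pow]
  have h40 : (0 : ℝ) < 4 ^ m := by positivity
  rw [div_le_iff₀ (by positivity)]
  have : 2 * ((4 : ℝ) ^ m)⁻¹ * (4 ^ m * 4 ^ m) = 2 * 4 ^ m := by field_simp
  rw [this]
  linarith

theorem r1 (n : ℕ) (δ : ℝ) (hδ : 0 < δ) (hδ2 : δ ≤ 1 / 2) : ∃ C : ℝ, 0 < C ∧ ∀ U V H : ℝ, 1 ≤ U →
    0 ≤ V → V ≤ U → 0 ≤ H → H ≤ U → ∀ α₀ : ℝ, U ≤ α₀ → α₀ ≤ 3 * U → ∀ β : Fin n → ℝ,
    (∀ j, U ≤ β j) → (∀ j, β j ≤ 2 * U) →
    ∫⁻ α in Set.Icc β (fun j => β j + H),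
      ‖∫ t in (0:ℝ)..V, ((∏ j, Fd (t + (Fin.cons α₀ α : Fin (n + 1) → ℝ) j)) -
        Dg (fun j => t + (Fin.cons α₀ α : Fin (n + 1) → ℝ) j))‖ₑ ^ 2 ≤
      ENNReal.ofReal (C * U ^ (((n : ℝ) + 1) * (1 + 3 * δ))) := by
  obtain ⟨C₀, hC₀, hsep⟩ := exists_sep δ hδ hδ2
  obtain ⟨Cm, hCm, hmean⟩ := mean_MM n δ hδ hδ2
  set S : ℝ≥0∞ := ∑' l : Fin (n + 1) → ℕ, ENNReal.ofReal ((1 / 4) ^ (∑ j, l j)) with hS
  have hSf : S ≠ ⊤ := by
    have hsm : Summable (fun l : Fin (n + 1) → ℕ => ∏ j, (1 / 4 : ℝ) ^ (l j)) :=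
      summable_pi_prod_real (k := n + 1) (fun _ i => (1 / 4 : ℝ) ^ i)
        (fun _ => summable_geometric_of_lt_one (by norm_num) (by norm_num)) (fun _ i => by positivity)
    have : S = ENNReal.ofReal (∑' l : Fin (n + 1) → ℕ, ∏ j, (1 / 4 : ℝ) ^ (l j)) := by
      rw [ENNReal.ofReal_tsum_of_nonneg (fun l => Finset.prod_nonneg fun _ _ => by positivity) hsm]
      simp only [Finset.prod_pow_eq_pow_sum]
      exact hS
    rw [this]
    exact ENNReal.ofReal_ne_top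
  refine ⟨4 * Cm * C₀ ^ (2 * (n + 1)) * S.toReal ^ 2 + 1, by positivity, ?_⟩
  intro U V H hU hV hVU hH hHU α₀ hα1 hα2 β hβ1 hβ2
  obtain ⟨a, ha⟩ := hsep U hU
  have hU0 : 0 < U := by linarith
  set X := U ^ (((n : ℝ) + 1) * (1 + 3 * δ)) with hX
  have hX0 : 0 ≤ X := by positivity
  have hz : ∀ (l : Fin (n + 1) → ℕ) (j : Fin (n + 1)) (q : Q),
      |za a l j q| ≤ (fun j => C₀ / 16 ^ (l j)) j * ww δ U q := fun l j q => za_le ha l j q
  have hpt : ∀ α ∈ Set.Icc β (fun j => β j + H),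
      ‖∫ t in (0:ℝ)..V, ((∏ j, Fd (t + (Fin.cons α₀ α : Fin (n + 1) → ℝ) j)) -
        Dg (fun j => t + (Fin.cons α₀ α : Fin (n + 1) → ℝ) j))‖ₑ ^ 2 ≤
      S * ∑' l : Fin (n + 1) → ℕ, ENNReal.ofReal (16 ^ (∑ j, l j) * 2) *
        Dl (za a l) (∑ j, l j) U V α₀ α := by
    intro α hα
    have h1 : ∀ j, U ≤ (Fin.cons α₀ α : Fin (n + 1) → ℝ) j := by
      refine Fin.cases ?_ fun i => ?_
      · simpa using hα1
      · simpa using (hβ1 i).trans (hα.1 i)
    have h2 : ∀ j, (Fin.cons α₀ α : Fin (n + 1) → ℝ) j + V ≤ 4 * U := by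
      refine Fin.cases ?_ fun i => ?_
      · simp only [Fin.cons_zero]
        linarith
      · simp only [Fin.cons_succ]
        have := hα.2 i
        simp only at this
        linarith [hβ2 i]
    refine (pow_le_pow_left' (point_bound hδ hδ2 hU hC₀.le ha hV _ h1 h2) 2).trans ?_
    have e1 : ∀ l : Fin (n + 1) → ℕ, ENNReal.ofReal (2 ^ (∑ j, l j)) *
        (‖MM (za a l) V (Fin.cons α₀ α : Fin (n + 1) → ℝ)‖ₑ +
        ENNReal.ofReal ((∑ j, l j : ℕ) / U) *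
          ∫⁻ t in Set.Ioc 0 V, ‖MM (za a l) t (Fin.cons α₀ α : Fin (n + 1) → ℝ)‖ₑ) =
        ENNReal.ofReal ((1 / 2) ^ (∑ j, l j)) * (ENNReal.ofReal (4 ^ (∑ j, l j)) *
        (‖MM (za a l) V (Fin.cons α₀ α : Fin (n + 1) → ℝ)‖ₑ +
        ENNReal.ofReal ((∑ j, l j : ℕ) / U) *
          ∫⁻ t in Set.Ioc 0 V, ‖MM (za a l) t (Fin.cons α₀ α : Fin (n + 1) → ℝ)‖ₑ)) := by
      intro l
      rw [← mul_assoc, ← ENNReal.ofReal_mul (by positivity), ← mul_pow]
      norm_num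
    simp only [e1]
    refine (cs_tsum _ _).trans ?_
    refine mul_le_mul' (le_of_eq ?_) (ENNReal.tsum_le_tsum fun l => ?_)
    · rw [hS]
      refine tsum_congr fun l => ?_
      rw [← ENNReal.ofReal_pow (by positivity), ← pow_mul, mul_comm, pow_mul]
      norm_num
    · rw [mul_pow, ENNReal.ofReal_mul (by positivity), mul_assoc]
      refine mul_le_mul' (le_of_eq ?_) ?_
      · rw [← ENNReal.ofReal_pow (by positivity), ← pow_mul, mul_comm, pow_mul]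
        norm_num
      · have h := sq_term_le hδ hδ2 hU hVU (za a l) _ (hz l) (∑ j, l j) α₀ α
        have h2 : ENNReal.ofReal 2 = 2 := by norm_num
        rw [h2]
        exact h
  calc ∫⁻ α in Set.Icc β (fun j => β j + H),
      ‖∫ t in (0:ℝ)..V, ((∏ j, Fd (t + (Fin.cons α₀ α : Fin (n + 1) → ℝ) j)) -
        Dg (fun j => t + (Fin.cons α₀ α : Fin (n + 1) → ℝ) j))‖ₑ ^ 2
      ≤ ∫⁻ α in Set.Icc β (fun j => β j + H), S * ∑' l : Fin (n + 1) → ℕ,
          ENNReal.ofReal (16 ^ (∑ j, l j) * 2) * Dl (za a l) (∑ j, l j) U V α₀ α := by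
        refine setLIntegral_mono' measurableSet_Icc hpt
    _ = S * ∑' l : Fin (n + 1) → ℕ, ENNReal.ofReal (16 ^ (∑ j, l j) * 2) *
          ∫⁻ α in Set.Icc β (fun j => β j + H), Dl (za a l) (∑ j, l j) U V α₀ α := by
        rw [lintegral_const_mul' _ _ hSf, lintegral_tsum fun l =>
          ((Dl_measurable hδ hδ2 hU (za a l) _ (hz l) _ V α₀).const_mul _).aemeasurable]
        congr 1
        refine tsum_congr fun l => ?_
        rw [lintegral_const_mul' _ _ ENNReal.ofReal_ne_top]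
    _ ≤ S * ∑' l : Fin (n + 1) → ℕ,
          ENNReal.ofReal (4 * Cm * C₀ ^ (2 * (n + 1)) * X) * ENNReal.ofReal ((1 / 4) ^ (∑ j, l j)) := by
        refine mul_le_mul_right (ENNReal.tsum_le_tsum fun l => ?_) _
        have h := Dl_integral_le (H := H) hδ hδ2 hU hV hVU hCm (za a l) _ (hz l) (∑ j, l j) α₀ β
          (fun t ht1 ht2 => hmean U t H hU ht1 (ht2.trans hVU) hH hHU (za a l) _
            (fun j => by positivity) (hz l) α₀ β)
        refine (mul_le_mul_right h _).trans ?_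
        rw [← ENNReal.ofReal_mul (by positivity), ← ENNReal.ofReal_mul (by positivity)]
        apply ENNReal.ofReal_le_ofReal
        have hp : ∏ j, (fun j => C₀ / 16 ^ (l j)) j = C₀ ^ (n + 1) / 16 ^ (∑ j, l j) := by
          simp only [Finset.prod_div_distrib, Finset.prod_const, Finset.card_univ,
            Fintype.card_fin, Finset.prod_pow_eq_pow_sum]
        rw [hp, mul_assoc (16 ^ _)]
        exact num_ineq n (∑ j, l j) hCm hX0
    _ = ENNReal.ofReal (4 * Cm * C₀ ^ (2 * (n + 1)) * S.toReal ^ 2 * X) := by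
        rw [ENNReal.tsum_mul_left, ← hS, ← ENNReal.ofReal_toReal hSf,
          ← ENNReal.ofReal_mul (by positivity), ← ENNReal.ofReal_mul (by positivity),
          ENNReal.toReal_ofReal (by positivity)]
        congr 1
        ring
    _ ≤ _ := by
        apply ENNReal.ofReal_le_ofReal
        nlinarith

end Pool.Agent.P07318s
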