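import Pool.Agent.Lib.P07318s.Defs
import Pool.Agent.Lib.P07318s.AFE
import Pool.Agent.Lib.P07318s.R1
import Pool.Agent.Lib.P07318s.Cont

/-!
Second moment in short intervals (from `r1` with `n = 0`; `Set.Icc` in `Fin 0 → ℝ` is one point of mass one).

`sm_Dg_one`: for `k = 1`, `lam p = 0` iff `m = n`, and `Dg x = ∑_g W(2π g²/x)/g ≤ C ∑_g (g²/x)^(-ε/2)/g ≤ C' x^ε`... (`W_le_rpow`).
`sm_local`: for `U ≤ a ≤ 3U`, `V ≤ U`: `∫_0^V ‖ζ(1/2+i(t+a))‖² dt`
`≤ |∫ (Fd - Dg)| + ∫ |Dg| + ∫ |‖ζ‖² - Fd| ≤ C U^(1/2+3δ/2) + C V U^ε + C V U^(-1/2+ε)`.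
`second_moment`: intervals of `[-4U, 4U]`: split `[1, 4U]` into dyadic pieces `[2^i, 2^(i+1)]`, apply the local
version with `U' = 2^i` to each piece (length `≤ U'`), sum the geometric series; `[-1, 1]` contributes a constant;
negative `x` by the symmetry `‖ζ(1/2 - ix)‖ = ‖ζ(1/2+ix)‖` (`zeta_conj`).
-/

set_option autoImplicit false

namespace Pool.Agent.P07318s

open MeasureTheory Complex

theorem zeta_half_continuous : Continuous (fun x : ℝ => riemannZeta (1 / 2 + x * I)) := by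
  rw [continuous_iff_continuousAt]
  intro x
  have h1 : ((1:ℂ) / 2 + x * I) ≠ 1 := by
    intro h
    have := congrArg Complex.re h
    simp at this
  have h2 : ContinuousAt (fun x : ℝ => ((1:ℂ) / 2 + x * I)) x := by fun_prop
  exact ContinuousAt.comp (g := riemannZeta) (f := fun x : ℝ => ((1:ℂ) / 2 + x * I))
    (differentiableAt_riemannZeta h1).continuousAt h2

theorem sm_zsq_continuous : Continuous (fun x : ℝ => ‖riemannZeta (1 / 2 + x * I)‖ ^ 2) :=
  (zeta_half_continuous.norm).pow 2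

theorem sm_zsq_neg (x : ℝ) : ‖riemannZeta (1 / 2 + ((-x : ℝ) : ℂ) * I)‖ ^ 2 = ‖riemannZeta (1 / 2 + x * I)‖ ^ 2 := by
  have h : (1 / 2 + ((-x : ℝ) : ℂ) * I) = (starRingEnd ℂ) (1 / 2 + x * I) := by
    apply Complex.ext <;> simp
  rw [h, zeta_conj]
  simp

theorem sm_lgr_eq_zero {p : ℕ+ × ℕ+} (h : lgr p = 0) : p.1 = p.2 := by
  unfold lgr at h
  have h1 : (0:ℝ) < ((p.1 : ℕ) : ℝ) := by exact_mod_cast p.1.2
  have h2 : (0:ℝ) < ((p.2 : ℕ) : ℝ) := by exact_mod_cast p.2.2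
  have h3 : Real.log ((p.1 : ℕ) : ℝ) = Real.log ((p.2 : ℕ) : ℝ) := by linarith
  have h4 := Real.log_injOn_pos (Set.mem_Ioi.2 h1) (Set.mem_Ioi.2 h2) h3
  have h5 : (p.1 : ℕ) = (p.2 : ℕ) := by exact_mod_cast h4
  exact PNat.coe_injective h5

theorem sm_Dg_one (ε : ℝ) (hε : 0 < ε) : ∃ C : ℝ, 0 < C ∧ ∀ x : Fin 1 → ℝ, 1 ≤ x 0 →
    ‖Dg x‖ ≤ C * (x 0) ^ ε := by
  classical
  obtain ⟨C, hC, hW⟩ := W_le_rpow ε hε
  -- majorant
  set g : (Fin 1 → ℕ+ × ℕ+) → ℝ := fun p =>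
    if (p 0).1 = (p 0).2 then C * (((p 0).1 : ℕ) : ℝ) ^ (-(1 + 2 * ε)) else 0 with hg
  have hsum : Summable g := by
    let i : ℕ+ → (Fin 1 → ℕ+ × ℕ+) := fun n _ => (n, n)
    have hi : Function.Injective i := by
      intro a b hab
      have := congrFun hab 0
      exact (Prod.ext_iff.1 this).1
    rw [← Function.Injective.summable_iff hi]
    · have h1 : Summable (fun n : ℕ => C * (n : ℝ) ^ (-(1 + 2 * ε))) :=
        (Real.summable_nat_rpow.2 (by linarith)).mul_left C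
      have h2 := h1.comp_injective PNat.coe_injective
      refine h2.congr fun n => ?_
      simp [hg, i]
    · intro p hp
      simp only [hg]
      rw [if_neg]
      intro h
      apply hp
      refine ⟨(p 0).1, ?_⟩
      funext j
      have hj : j = 0 := Subsingleton.elim _ _
      subst hj
      simp only [i]
      exact Prod.ext rfl h
  refine ⟨∑' p, g p + 1, ?_, ?_⟩
  · have : 0 ≤ ∑' p, g p := tsum_nonneg fun p => by
      simp only [hg]
      split_ifs <;> positivity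
    linarith
  intro x hx
  have hx0 : 0 < x 0 := by linarith
  have hxe : 0 < (x 0) ^ ε := Real.rpow_pos_of_pos hx0 _
  have key : ‖Dg x‖ ≤ (∑' p, g p) * (x 0) ^ ε := by
    unfold Dg
    refine tsum_of_norm_bounded (hsum.hasSum.mul_right _) ?_
    intro p
    by_cases hl : lam p = 0
    · rw [if_pos hl]
      have hl' : lgr (p 0) = 0 := by
        unfold lam at hl
        simpa using hl
      have he := sm_lgr_eq_zero hl'
      simp only [hg]
      rw [if_pos he]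
      simp only [Fin.isValue, Finset.univ_unique, Fin.default_eq_zero, Finset.prod_singleton, norm_mul, norm_ex, mul_one, Complex.norm_real]
      unfold cf
      set m : ℝ := (((p 0).1 : ℕ) : ℝ) with hm
      have hm0 : 1 ≤ m := by
        rw [hm]; exact_mod_cast (p 0).1.2
      have hmp : 0 < m := by linarith
      have hh : hgt (p 0) = m * m := by
        unfold hgt
        rw [← he]
      rw [hh, Real.norm_eq_abs, abs_mul, abs_of_nonneg (Real.rpow_nonneg (by positivity) _),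
        abs_of_nonneg (W_nonneg _)]
      have hy : 0 < 2 * Real.pi * (m * m) / x 0 := by positivity
      have h1 := hW _ hy
      have h2 : (2 * Real.pi * (m * m) / x 0) ^ (-ε) ≤ (m * m) ^ (-ε) * (x 0) ^ ε := by
        have e1 : (2 * Real.pi * (m * m) / x 0) = (2 * Real.pi) * ((m * m) / x 0) := by ring
        rw [e1, Real.mul_rpow (by positivity) (by positivity), Real.div_rpow (by positivity) (by positivity)]
        have e2 : (2 * Real.pi) ^ (-ε) ≤ 1 :=
          Real.rpow_le_one_of_one_le_of_nonpos (by nlinarith [Real.pi_gt_three]) (by linarith)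
        have e3 : (m * m) ^ (-ε) / (x 0) ^ (-ε) = (m * m) ^ (-ε) * (x 0) ^ ε := by
          rw [Real.rpow_neg hx0.le ε, div_inv_eq_mul]
        rw [e3]
        have e4 : 0 ≤ (m * m) ^ (-ε) * (x 0) ^ ε := by positivity
        nlinarith
      have h3 : (m * m) ^ (-(1 / 2) : ℝ) * (m * m) ^ (-ε) = m ^ (-(1 + 2 * ε)) := by
        rw [← Real.rpow_add (by positivity), Real.mul_rpow hmp.le hmp.le, ← Real.rpow_add hmp]
        congr 1
        ring
      have h4 : 0 ≤ (m * m) ^ (-(1 / 2) : ℝ) := by positivity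
      calc (m * m) ^ (-(1 / 2) : ℝ) * W (2 * Real.pi * (m * m) / x 0)
          ≤ (m * m) ^ (-(1 / 2) : ℝ) * (C * ((m * m) ^ (-ε) * (x 0) ^ ε)) :=
            mul_le_mul_of_nonneg_left (h1.trans (mul_le_mul_of_nonneg_left h2 hC.le)) h4
        _ = C * ((m * m) ^ (-(1 / 2) : ℝ) * (m * m) ^ (-ε)) * (x 0) ^ ε := by ring
        _ = C * m ^ (-(1 + 2 * ε)) * (x 0) ^ ε := by rw [h3]
    · rw [if_neg hl, norm_zero]
      have : 0 ≤ g p := by
        simp only [hg]
        split_ifs <;> positivity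
      positivity
  nlinarith

theorem sm_r1_zero (δ : ℝ) (hδ : 0 < δ) (hδ2 : δ ≤ 1 / 2) : ∃ C : ℝ, 0 < C ∧ ∀ U V : ℝ, 1 ≤ U →
    0 ≤ V → V ≤ U →
    ‖∫ t in (0:ℝ)..V, (Fd (t + U) - Dg (fun _ : Fin 1 => t + U))‖ ≤ C * U ^ (1 / 2 + 3 / 2 * δ) := by
  obtain ⟨C, hC, h⟩ := r1 0 δ hδ hδ2
  refine ⟨Real.sqrt C, Real.sqrt_pos.2 hC, ?_⟩
  intro U V hU hV hVU
  have h1 := h U V 0 hU hV hVU le_rfl (by linarith) U le_rfl (by linarith) (fun j => U) (fun j => le_rfl)
    (fun j => by linarith)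
  have hU0 : 0 < U := by linarith
  have e1 : (Set.Icc (fun _ : Fin 0 => U) (fun _ => U + 0)) = Set.univ := by
    ext y
    simp only [Set.mem_Icc, Set.mem_univ, iff_true]
    exact ⟨fun j => j.elim0, fun j => j.elim0⟩
  rw [e1] at h1
  simp only [Measure.restrict_univ] at h1
  set x0 : Fin 0 → ℝ := fun j => j.elim0 with hx0
  rw [Measure.volume_pi_eq_dirac x0, lintegral_dirac] at h1
  have hcons : ∀ j : Fin (0 + 1), (Fin.cons U x0 : Fin (0 + 1) → ℝ) j = U := by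
    intro j
    have hj : j = 0 := Fin.ext (by have := j.2; simp only [Fin.val_zero]; omega)
    rw [hj, Fin.cons_zero]
  have hfun : ∀ t : ℝ, (fun j : Fin (0 + 1) => t + (Fin.cons U x0 : Fin (0 + 1) → ℝ) j) = fun _ : Fin 1 => t + U := by
    intro t
    funext j
    rw [hcons j]
  have hprod : ∀ t : ℝ, (∏ j : Fin (0 + 1), Fd (t + (Fin.cons U x0 : Fin (0 + 1) → ℝ) j)) = Fd (t + U) := by
    intro t
    have : ∀ j : Fin (0 + 1), Fd (t + (Fin.cons U x0 : Fin (0 + 1) → ℝ) j) = Fd (t + U) := by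
      intro j
      rw [hcons j]
    rw [Finset.prod_congr rfl fun j _ => this j, Finset.prod_const]
    simp
  simp only [hfun, hprod] at h1
  set z : ℂ := ∫ t in (0:ℝ)..V, (Fd (t + U) - Dg (fun _ : Fin 1 => t + U)) with hz
  have h2 : ‖z‖ ^ 2 ≤ C * U ^ (1 + 3 * δ) := by
    have e3 : ‖z‖ₑ ^ 2 = ENNReal.ofReal (‖z‖ ^ 2) := by
      rw [ENNReal.ofReal_pow (norm_nonneg _), ofReal_norm]
    rw [e3] at h1
    have h3 := (ENNReal.ofReal_le_ofReal_iff (by positivity)).1 h1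
    simpa using h3
  have h4 : U ^ (1 + 3 * δ) = (U ^ (1 / 2 + 3 / 2 * δ)) ^ 2 := by
    rw [← Real.rpow_natCast, ← Real.rpow_mul hU0.le]
    congr 1
    push_cast
    ring
  have h5 : 0 ≤ Real.sqrt C * U ^ (1 / 2 + 3 / 2 * δ) := by positivity
  refine le_of_sq_le_sq ?_ h5
  rw [mul_pow, Real.sq_sqrt hC.le, ← h4]
  exact h2

theorem sm_local (ε : ℝ) (hε : 0 < ε) : ∃ C : ℝ, 0 < C ∧ ∀ U V : ℝ, 1 ≤ U → 0 ≤ V → V ≤ U →
    ∫ x in U..(U + V), ‖riemannZeta (1 / 2 + x * I)‖ ^ 2 ≤ C * U ^ ε * (V + U ^ (1 / 2 : ℝ)) := by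
  obtain ⟨C1, hC1, hA⟩ := afe (min ε (1 / 2)) (lt_min hε (by norm_num))
  obtain ⟨C2, hC2, hD⟩ := sm_Dg_one ε hε
  obtain ⟨C3, hC3, hR⟩ := sm_r1_zero (min (ε / 2) (1 / 2)) (lt_min (by linarith) (by norm_num)) (min_le_right _ _)
  refine ⟨C1 + C2 * 2 ^ ε + C3, by positivity, ?_⟩
  intro U V hU hV hVU
  have hU0 : 0 < U := by linarith
  have hUε : 1 ≤ U ^ ε := Real.one_le_rpow hU hε.le
  have hUh : 0 ≤ U ^ (1 / 2 : ℝ) := by positivity
  -- continuity
  have hmap : ∀ t ∈ Set.uIcc 0 V, 0 < t + U := by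
    intro t ht
    rw [Set.uIcc_of_le hV] at ht
    linarith [ht.1]
  have cF : ContinuousOn (fun t : ℝ => Fd (t + U)) (Set.uIcc 0 V) := by
    refine ContinuousOn.comp Fd_continuousOn (t := Set.Ioi 0) (by fun_prop) ?_
    intro t ht
    exact hmap t ht
  have cD : ContinuousOn (fun t : ℝ => Dg (fun _ : Fin 1 => t + U)) (Set.uIcc 0 V) := by
    refine ContinuousOn.comp (g := fun x : Fin 1 → ℝ => Dg x) (f := fun t : ℝ => (fun _ : Fin 1 => t + U))
      (Dg_continuousOn 1) (t := {x | ∀ j, 0 < x j}) (by fun_prop) ?_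
    intro t ht j
    exact hmap t ht
  have cZ : ContinuousOn (fun t : ℝ => ((‖riemannZeta (1 / 2 + ((t + U : ℝ) : ℂ) * I)‖ ^ 2 : ℝ) : ℂ))
      (Set.uIcc 0 V) := by
    have h1 : Continuous (fun t : ℝ => ((‖riemannZeta (1 / 2 + ((t + U : ℝ) : ℂ) * I)‖ ^ 2 : ℝ) : ℂ)) := by
      have h2 := sm_zsq_continuous.comp (show Continuous fun t : ℝ => t + U by fun_prop)
      exact Complex.continuous_ofReal.comp h2
    exact h1.continuousOn
  have e0 : ∫ x in U..(U + V), ‖riemannZeta (1 / 2 + x * I)‖ ^ 2 =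
      ∫ t in (0:ℝ)..V, ‖riemannZeta (1 / 2 + ((t + U : ℝ) : ℂ) * I)‖ ^ 2 := by
    have := intervalIntegral.integral_comp_add_right (a := 0) (b := V)
      (fun x : ℝ => ‖riemannZeta (1 / 2 + x * I)‖ ^ 2) U
    rw [this]
    congr 1
    · ring
    · ring
  rw [e0]
  set S : ℝ := ∫ t in (0:ℝ)..V, ‖riemannZeta (1 / 2 + ((t + U : ℝ) : ℂ) * I)‖ ^ 2 with hS
  have e1 : (S : ℂ) = ∫ t in (0:ℝ)..V, ((‖riemannZeta (1 / 2 + ((t + U : ℝ) : ℂ) * I)‖ ^ 2 : ℝ) : ℂ) := by
    rw [hS]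
    exact (intervalIntegral.integral_ofReal).symm
  have e2 : (S : ℂ) = (∫ t in (0:ℝ)..V, (((‖riemannZeta (1 / 2 + ((t + U : ℝ) : ℂ) * I)‖ ^ 2 : ℝ) : ℂ) - Fd (t + U)))
      + (∫ t in (0:ℝ)..V, (Fd (t + U) - Dg (fun _ : Fin 1 => t + U)))
      + ∫ t in (0:ℝ)..V, Dg (fun _ : Fin 1 => t + U) := by
    rw [e1, ← intervalIntegral.integral_add, ← intervalIntegral.integral_add]
    · refine intervalIntegral.integral_congr fun t _ => ?_
      ring
    · exact ((cZ.sub cF).add (cF.sub cD)).intervalIntegrable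
    · exact cD.intervalIntegrable
    · exact (cZ.sub cF).intervalIntegrable
    · exact (cF.sub cD).intervalIntegrable
  have b1 : ‖∫ t in (0:ℝ)..V, (((‖riemannZeta (1 / 2 + ((t + U : ℝ) : ℂ) * I)‖ ^ 2 : ℝ) : ℂ) - Fd (t + U))‖ ≤
      C1 * V := by
    have := intervalIntegral.norm_integral_le_of_norm_le_const (a := 0) (b := V) (C := C1)
      (f := fun t : ℝ => (((‖riemannZeta (1 / 2 + ((t + U : ℝ) : ℂ) * I)‖ ^ 2 : ℝ) : ℂ) - Fd (t + U))) (by
        intro t ht
        rw [Set.uIoc_of_le hV] at ht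
        have ht1 : 1 ≤ t + U := by linarith [ht.1]
        refine (hA (t + U) ht1).trans ?_
        have : (t + U) ^ (-(1 / 2) + min ε (1 / 2)) ≤ 1 :=
          Real.rpow_le_one_of_one_le_of_nonpos ht1 (by linarith [min_le_right ε (1 / 2)])
        nlinarith)
    simpa [abs_of_nonneg hV] using this
  have b3 : ‖∫ t in (0:ℝ)..V, Dg (fun _ : Fin 1 => t + U)‖ ≤ C2 * (2 ^ ε * U ^ ε) * V := by
    have := intervalIntegral.norm_integral_le_of_norm_le_const (a := 0) (b := V) (C := C2 * (2 ^ ε * U ^ ε))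
      (f := fun t : ℝ => Dg (fun _ : Fin 1 => t + U)) (by
        intro t ht
        rw [Set.uIoc_of_le hV] at ht
        have ht1 : 1 ≤ t + U := by linarith [ht.1]
        refine (hD (fun _ => t + U) ht1).trans ?_
        rw [← Real.mul_rpow (by norm_num) hU0.le]
        have : (t + U) ^ ε ≤ (2 * U) ^ ε :=
          Real.rpow_le_rpow (by linarith) (by linarith [ht.2]) hε.le
        exact mul_le_mul_of_nonneg_left this hC2.le)
    simpa [abs_of_nonneg hV] using this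
  have b2 : ‖∫ t in (0:ℝ)..V, (Fd (t + U) - Dg (fun _ : Fin 1 => t + U))‖ ≤ C3 * (U ^ ε * U ^ (1 / 2 : ℝ)) := by
    refine (hR U V hU hV hVU).trans ?_
    rw [← Real.rpow_add hU0]
    refine mul_le_mul_of_nonneg_left ?_ hC3.le
    refine Real.rpow_le_rpow_of_exponent_le hU ?_
    have := min_le_left (ε / 2) (1 / 2)
    linarith
  have h1 : |S| ≤ C1 * V + C3 * (U ^ ε * U ^ (1 / 2 : ℝ)) + C2 * (2 ^ ε * U ^ ε) * V := by
    have : |S| = ‖(S : ℂ)‖ := by rw [Complex.norm_real, Real.norm_eq_abs]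
    rw [this, e2]
    refine (norm_add_le _ _).trans (add_le_add ((norm_add_le _ _).trans (add_le_add b1 b2)) b3)
  refine (le_abs_self S).trans (h1.trans ?_)
  have p2 : (0:ℝ) < 2 ^ ε := by positivity
  have q1 : C1 * V ≤ C1 * U ^ ε * V := by nlinarith [mul_nonneg hC1.le hV]
  have q2 : 0 ≤ C1 * U ^ ε * U ^ (1 / 2 : ℝ) := by positivity
  have q3 : 0 ≤ C2 * 2 ^ ε * U ^ ε * U ^ (1 / 2 : ℝ) := by positivity
  have q4 : 0 ≤ C3 * U ^ ε * V := by positivity
  nlinarith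

theorem sm_pos (ε : ℝ) (hε : 0 < ε) : ∃ C : ℝ, 0 < C ∧ ∀ a b : ℝ, 1 ≤ a → a ≤ b →
    ∫ x in a..b, ‖riemannZeta (1 / 2 + x * I)‖ ^ 2 ≤ C * b ^ ε * ((b - a) + 3 * b ^ (1 / 2 : ℝ)) := by
  obtain ⟨C, hC, hL⟩ := sm_local ε hε
  refine ⟨C, hC, ?_⟩
  have hint : ∀ a b : ℝ, IntervalIntegrable (fun x : ℝ => ‖riemannZeta (1 / 2 + x * I)‖ ^ 2) volume a b :=
    fun a b => sm_zsq_continuous.intervalIntegrable a b
  have loc : ∀ a b : ℝ, 1 ≤ a → a ≤ b → b ≤ 2 * a →
      ∫ x in a..b, ‖riemannZeta (1 / 2 + x * I)‖ ^ 2 ≤ C * a ^ ε * ((b - a) + a ^ (1 / 2 : ℝ)) := by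
    intro a b ha hab hb
    have := hL a (b - a) ha (by linarith) (by linarith)
    rwa [add_sub_cancel] at this
  have main : ∀ n : ℕ, ∀ a b : ℝ, 1 ≤ a → a ≤ b → b ≤ 2 ^ n * a →
      ∫ x in a..b, ‖riemannZeta (1 / 2 + x * I)‖ ^ 2 ≤ C * b ^ ε * ((b - a) + 3 * b ^ (1 / 2 : ℝ)) := by
    intro n
    induction n with
    | zero =>
      intro a b ha hab hb
      have : a = b := le_antisymm hab (by simpa using hb)
      subst this
      rw [intervalIntegral.integral_same]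
      have : 0 ≤ a := by linarith
      positivity
    | succ n ih =>
      intro a b ha hab hb
      have ha0 : 0 < a := by linarith
      have hb0 : 0 < b := by linarith
      by_cases h2 : b ≤ 2 * a
      · refine (loc a b ha hab h2).trans ?_
        have h3 : a ^ ε ≤ b ^ ε := Real.rpow_le_rpow ha0.le hab hε.le
        have h4 : a ^ (1 / 2 : ℝ) ≤ b ^ (1 / 2 : ℝ) := Real.rpow_le_rpow ha0.le hab (by norm_num)
        have h5 : 0 ≤ b ^ (1 / 2 : ℝ) := by positivity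
        have h6 : 0 ≤ a ^ (1 / 2 : ℝ) := by positivity
        refine mul_le_mul (mul_le_mul_of_nonneg_left h3 hC.le) (by linarith) (by linarith) (by positivity)
      · push Not at h2
        have hm : 1 ≤ b / 2 := by linarith
        have i1 := ih a (b / 2) ha (by linarith) (by
          rw [pow_succ] at hb
          linarith)
        have i2 := loc (b / 2) b hm (by linarith) (by linarith)
        rw [← intervalIntegral.integral_add_adjacent_intervals (hint a (b / 2)) (hint (b / 2) b)]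
        have h3 : (b / 2) ^ ε ≤ b ^ ε := Real.rpow_le_rpow (by linarith) (by linarith) hε.le
        have h4 : 4 * (b / 2) ^ (1 / 2 : ℝ) ≤ 3 * b ^ (1 / 2 : ℝ) := by
          rw [← Real.sqrt_eq_rpow, ← Real.sqrt_eq_rpow]
          have e1 : 4 * Real.sqrt (b / 2) = Real.sqrt (8 * b) := by
            rw [show (8 * b) = 4 ^ 2 * (b / 2) by ring, Real.sqrt_mul (by norm_num), Real.sqrt_sq (by norm_num)]
          have e2 : 3 * Real.sqrt b = Real.sqrt (9 * b) := by
            rw [show (9 * b) = 3 ^ 2 * b by ring, Real.sqrt_mul (by norm_num), Real.sqrt_sq (by norm_num)]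
          rw [e1, e2]
          exact Real.sqrt_le_sqrt (by linarith)
        have h5 : 0 ≤ (b / 2) ^ (1 / 2 : ℝ) := by positivity
        have h6 : 0 ≤ (b / 2) ^ ε := by positivity
        have j1 : C * (b / 2) ^ ε * ((b / 2 - a) + 3 * (b / 2) ^ (1 / 2 : ℝ)) ≤
            C * b ^ ε * ((b / 2 - a) + 3 * (b / 2) ^ (1 / 2 : ℝ)) :=
          mul_le_mul_of_nonneg_right (mul_le_mul_of_nonneg_left h3 hC.le) (by linarith)
        have j2 : C * (b / 2) ^ ε * ((b - b / 2) + (b / 2) ^ (1 / 2 : ℝ)) ≤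
            C * b ^ ε * ((b - b / 2) + (b / 2) ^ (1 / 2 : ℝ)) :=
          mul_le_mul_of_nonneg_right (mul_le_mul_of_nonneg_left h3 hC.le) (by linarith)
        have j3 : C * b ^ ε * ((b / 2 - a) + 3 * (b / 2) ^ (1 / 2 : ℝ)) +
            C * b ^ ε * ((b - b / 2) + (b / 2) ^ (1 / 2 : ℝ)) =
            C * b ^ ε * ((b - a) + 4 * (b / 2) ^ (1 / 2 : ℝ)) := by ring
        have j4 : C * b ^ ε * ((b - a) + 4 * (b / 2) ^ (1 / 2 : ℝ)) ≤
            C * b ^ ε * ((b - a) + 3 * b ^ (1 / 2 : ℝ)) :=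
          mul_le_mul_of_nonneg_left (by linarith) (by positivity)
        linarith
  intro a b ha hab
  obtain ⟨n, hn⟩ := pow_unbounded_of_one_lt (b / a) (one_lt_two : (1:ℝ) < 2)
  have ha0 : 0 < a := by linarith
  exact main n a b ha hab (by rw [div_lt_iff₀ ha0] at hn; linarith)

theorem second_moment (ε : ℝ) (hε : 0 < ε) : ∃ C : ℝ, 0 < C ∧ ∀ U a b : ℝ, 1 ≤ U → -(4 * U) ≤ a →
    a ≤ b → b ≤ 4 * U →
    ∫ x in a..b, ‖riemannZeta (1 / 2 + x * I)‖ ^ 2 ≤ C * U ^ ε * ((b - a) + U ^ (1 / 2 : ℝ)) := by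
  obtain ⟨C, hC, hP⟩ := sm_pos ε hε
  have hint : ∀ a b : ℝ, IntervalIntegrable (fun x : ℝ => ‖riemannZeta (1 / 2 + x * I)‖ ^ 2) volume a b :=
    fun a b => sm_zsq_continuous.intervalIntegrable a b
  set f : ℝ → ℝ := fun x : ℝ => ‖riemannZeta (1 / 2 + x * I)‖ ^ 2 with hf
  have hf0 : ∀ x, 0 ≤ f x := fun x => by simp only [hf]; positivity
  have hnn : ∀ a b : ℝ, a ≤ b → 0 ≤ ∫ x in a..b, f x := fun a b hab =>
    intervalIntegral.integral_nonneg hab fun x _ => hf0 x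
  have hmono : ∀ a b c d : ℝ, c ≤ a → a ≤ b → b ≤ d → ∫ x in a..b, f x ≤ ∫ x in c..d, f x := by
    intro a b c d h1 h2 h3
    rw [← intervalIntegral.integral_add_adjacent_intervals (hint c a) (hint a d),
      ← intervalIntegral.integral_add_adjacent_intervals (hint a b) (hint b d)]
    have := hnn c a h1
    have := hnn b d h3
    linarith
  set K : ℝ := ∫ x in (0:ℝ)..1, f x with hK
  have hK0 : 0 ≤ K := hnn 0 1 zero_le_one
  set D : ℝ := K + C * 4 ^ ε * 6 with hD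
  have hD0 : 0 < D := by positivity
  -- nonnegative intervals
  have pos : ∀ U a b : ℝ, 1 ≤ U → 0 ≤ a → a ≤ b → b ≤ 4 * U →
      ∫ x in a..b, f x ≤ D * U ^ ε * ((b - a) + U ^ (1 / 2 : ℝ)) := by
    intro U a b hU ha hab hb
    have hU0 : 0 < U := by linarith
    have hUε : 1 ≤ U ^ ε := Real.one_le_rpow hU hε.le
    have hUh : 1 ≤ U ^ (1 / 2 : ℝ) := Real.one_le_rpow hU (by norm_num)
    have p4 : (0:ℝ) < 4 ^ ε := by positivity
    have kk : K ≤ K * (U ^ ε * ((b - a) + U ^ (1 / 2 : ℝ))) := by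
      have : 1 ≤ U ^ ε * ((b - a) + U ^ (1 / 2 : ℝ)) := by nlinarith
      nlinarith
    have big : ∀ a' : ℝ, 1 ≤ a' → a ≤ a' → a' ≤ b →
        ∫ x in a'..b, f x ≤ C * 4 ^ ε * 6 * (U ^ ε * ((b - a) + U ^ (1 / 2 : ℝ))) := by
      intro a' h1 h2 h3
      have hb0 : 0 < b := by linarith
      refine (hP a' b h1 h3).trans ?_
      have e1 : b ^ ε ≤ 4 ^ ε * U ^ ε := by
        rw [← Real.mul_rpow (by norm_num) hU0.le]
        exact Real.rpow_le_rpow hb0.le hb hε.le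
      have e2 : b ^ (1 / 2 : ℝ) ≤ 2 * U ^ (1 / 2 : ℝ) := by
        have e3 : (2:ℝ) = 4 ^ (1 / 2 : ℝ) := by
          rw [← Real.sqrt_eq_rpow, show (4:ℝ) = 2 ^ 2 by norm_num, Real.sqrt_sq (by norm_num)]
        calc b ^ (1 / 2 : ℝ) ≤ (4 * U) ^ (1 / 2 : ℝ) := Real.rpow_le_rpow hb0.le hb (by norm_num)
          _ = 4 ^ (1 / 2 : ℝ) * U ^ (1 / 2 : ℝ) := Real.mul_rpow (by norm_num) hU0.le
          _ = 2 * U ^ (1 / 2 : ℝ) := by rw [← e3]
      have e4 : (b - a') + 3 * b ^ (1 / 2 : ℝ) ≤ 6 * ((b - a) + U ^ (1 / 2 : ℝ)) := by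
        nlinarith
      have e5 : 0 ≤ b ^ (1 / 2 : ℝ) := by positivity
      calc C * b ^ ε * ((b - a') + 3 * b ^ (1 / 2 : ℝ))
          ≤ C * (4 ^ ε * U ^ ε) * (6 * ((b - a) + U ^ (1 / 2 : ℝ))) := by
            refine mul_le_mul (mul_le_mul_of_nonneg_left e1 hC.le) e4 (by linarith) (by positivity)
        _ = C * 4 ^ ε * 6 * (U ^ ε * ((b - a) + U ^ (1 / 2 : ℝ))) := by ring
    have goal_eq : D * U ^ ε * ((b - a) + U ^ (1 / 2 : ℝ)) =
        K * (U ^ ε * ((b - a) + U ^ (1 / 2 : ℝ))) +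
        C * 4 ^ ε * 6 * (U ^ ε * ((b - a) + U ^ (1 / 2 : ℝ))) := by
      rw [hD]; ring
    rw [goal_eq]
    have ba : 0 ≤ b - a := by linarith
    have nn : 0 ≤ C * 4 ^ ε * 6 * (U ^ ε * ((b - a) + U ^ (1 / 2 : ℝ))) := by positivity
    have nk : 0 ≤ K * (U ^ ε * ((b - a) + U ^ (1 / 2 : ℝ))) := by positivity
    by_cases h1 : 1 ≤ a
    · have := big a h1 le_rfl hab
      linarith
    · push Not at h1
      by_cases h2 : b ≤ 1
      · have := hmono a b 0 1 ha hab h2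
        linarith
      · push Not at h2
        rw [← intervalIntegral.integral_add_adjacent_intervals (hint a 1) (hint 1 b)]
        have i1 := hmono a 1 0 1 ha h1.le le_rfl
        have i2 := big 1 le_rfl h1.le h2.le
        linarith
  have hneg : ∀ a b : ℝ, ∫ x in a..b, f x = ∫ x in (-b)..(-a), f x := by
    intro a b
    rw [← intervalIntegral.integral_comp_neg (a := a) (b := b) f]
    refine intervalIntegral.integral_congr fun x _ => ?_
    simp only [hf]
    exact (sm_zsq_neg x).symm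
  refine ⟨2 * D, by positivity, ?_⟩
  intro U a b hU ha hab hb
  have hU0 : 0 < U := by linarith
  have hUε : 0 < U ^ ε := by positivity
  have hUh : 0 < U ^ (1 / 2 : ℝ) := by positivity
  by_cases h0 : 0 ≤ a
  · have := pos U a b hU h0 hab hb
    have h1 : 0 ≤ D * U ^ ε * ((b - a) + U ^ (1 / 2 : ℝ)) := by
      have : 0 ≤ b - a := by linarith
      positivity
    linarith
  · push Not at h0
    by_cases h1 : b ≤ 0
    · rw [hneg]
      have := pos U (-b) (-a) hU (by linarith) (by linarith) (by linarith)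
      have h2 : 0 ≤ D * U ^ ε * ((b - a) + U ^ (1 / 2 : ℝ)) := by
        have : 0 ≤ b - a := by linarith
        positivity
      have h3 : (-a - -b) = b - a := by ring
      rw [h3] at this
      linarith
    · push Not at h1
      rw [← intervalIntegral.integral_add_adjacent_intervals (hint a 0) (hint 0 b), hneg a 0]
      have i1 := pos U 0 b hU le_rfl h1.le hb
      have i2 := pos U 0 (-a) hU le_rfl (by linarith) (by linarith)
      rw [neg_zero]
      have e : D * U ^ ε * ((b - 0) + U ^ (1 / 2 : ℝ)) + D * U ^ ε * ((-a - 0) + U ^ (1 / 2 : ℝ)) ≤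
          2 * D * U ^ ε * ((b - a) + U ^ (1 / 2 : ℝ)) := by
        have h3 : 0 ≤ D * U ^ ε * (b - a) := by
          have : 0 ≤ b - a := by linarith
          positivity
        nlinarith
      linarith

end Pool.Agent.P07318s
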