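import Pool.Agent.Lib.P07318s.Defs
import Pool.Agent.Lib.P07318s.Crude
import Pool.Agent.Lib.P07318s.SecondMoment
import Pool.Agent.Lib.P4f18dfV.HalfPlane
import Pool.Agent.Lib.P4f18dfV.Shift

/-!
Bound to the right of the critical line by a mean value on the line. For `s₀ = σ + it`, `1/2 + κ ≤ σ ≤ 3`, `|t| ≥ 1`,
the residue theorem for the entire function `zE(s) = (s - 1) ζ(s)` with the kernel `exp((s-s₀)²) / (s-s₀)` on the
lines `Re s = 4` and `Re s = 1/2` (`P4f18dfV.shift_pole`), and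
`‖s - 1‖ ≤ ‖s₀ - 1‖ (‖s - s₀‖ + 1)` as `‖s₀ - 1‖ ≥ 1`.
-/

set_option autoImplicit false

namespace Pool.Agent.P07318s

open MeasureTheory Complex

private lemma zs_gk (ρ s : ℂ) : P4f18dfV.gk 0 (Real.sqrt 2) ρ s = cexp ((s - ρ) ^ 2) := by
  unfold P4f18dfV.gk
  congr 1
  have h : (Real.sqrt 2) ^ 2 / 2 = (1 : ℝ) := by
    rw [Real.sq_sqrt (by norm_num)]
    norm_num
  rw [h]
  push_cast
  ring

private lemma zs_re (a t : ℝ) : ((a : ℂ) + t * I).re = a := by simp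
private lemma zs_im (a t : ℝ) : ((a : ℂ) + t * I).im = t := by simp

private lemma zs_exp_norm (a σ t v : ℝ) :
    ‖cexp (((a : ℂ) + v * I - (σ + t * I)) ^ 2)‖ = Real.exp ((a - σ) ^ 2 - (v - t) ^ 2) := by
  rw [Complex.norm_exp]
  congr 1
  have h1 : ((a : ℂ) + v * I - (σ + t * I)) = ((a - σ : ℝ) : ℂ) + ((v - t : ℝ) : ℂ) * I := by
    push_cast
    ring
  rw [h1, pow_two, Complex.mul_re, zs_re, zs_im]
  ring

private lemma zs_zE_exp : ∃ K : ℝ, 0 < K ∧ ∀ s : ℂ, 1 / 2 ≤ s.re → s.re ≤ 4 →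
    ‖P4f18dfV.zE s‖ ≤ K * Real.exp (K * |s.im|) := by
  obtain ⟨C, hC, h⟩ := P4f18dfV.zE_half
  refine ⟨25 * C + 2, by positivity, fun s h1 h2 => ?_⟩
  have h3 := h s (by linarith)
  have h4 : ‖s‖ ≤ 4 + |s.im| := by
    refine (Complex.norm_le_abs_re_add_abs_im s).trans ?_
    rw [abs_of_nonneg (by linarith : (0:ℝ) ≤ s.re)]
    linarith
  have h5 : (1 + ‖s‖) ^ 2 ≤ (5 * (1 + |s.im|)) ^ 2 := by
    refine pow_le_pow_left₀ (by positivity) ?_ 2
    have := abs_nonneg s.im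
    linarith
  have h6 : 1 + |s.im| ≤ Real.exp |s.im| := by
    have := Real.add_one_le_exp |s.im|
    linarith
  have h7 : (1 + |s.im|) ^ 2 ≤ Real.exp (2 * |s.im|) := by
    have e : Real.exp (2 * |s.im|) = (Real.exp |s.im|) ^ 2 := by
      rw [← Real.exp_nat_mul]
      norm_num
    rw [e]
    exact pow_le_pow_left₀ (by positivity) h6 2
  calc ‖P4f18dfV.zE s‖ ≤ C * (1 + ‖s‖) ^ 2 := h3
    _ ≤ C * (5 * (1 + |s.im|)) ^ 2 := mul_le_mul_of_nonneg_left h5 hC.le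
    _ = 25 * C * (1 + |s.im|) ^ 2 := by ring
    _ ≤ 25 * C * Real.exp (2 * |s.im|) := mul_le_mul_of_nonneg_left h7 (by positivity)
    _ ≤ (25 * C + 2) * Real.exp ((25 * C + 2) * |s.im|) := by
        refine mul_le_mul (by linarith) (Real.exp_le_exp.2 ?_) (Real.exp_pos _).le (by positivity)
        refine mul_le_mul_of_nonneg_right ?_ (abs_nonneg _)
        linarith

/-- the value on the line is dominated -/
private lemma zs_line {a σ t v κ : ℝ} (hκ : 0 < κ) (ht : 1 ≤ |t|) (ha : κ ≤ |a - σ|)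
    (ha4 : |a - σ| ≤ 4) (hne : ((a : ℂ) + v * I) ≠ 1) :
    ‖P4f18dfV.zE (a + v * I) * P4f18dfV.gk 0 (Real.sqrt 2) (σ + t * I) (a + v * I) /
        (a + v * I - (σ + t * I))‖ ≤
      ‖(σ + t * I : ℂ) - 1‖ * ((1 + 1 / κ) * Real.exp 16 *
        (‖riemannZeta (a + v * I)‖ * Real.exp (-(v - t) ^ 2))) := by
  set s : ℂ := (a : ℂ) + v * I with hs
  set s0 : ℂ := (σ : ℂ) + t * I with hs0
  set D : ℝ := ‖s0 - 1‖ with hD
  have hD1 : 1 ≤ D := by
    have h1 : |(s0 - 1).im| ≤ D := Complex.abs_im_le_norm _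
    have h2 : (s0 - 1).im = t := by simp [hs0]
    rw [h2] at h1
    linarith
  have hd : κ ≤ ‖s - s0‖ := by
    have h1 : |(s - s0).re| ≤ ‖s - s0‖ := Complex.abs_re_le_norm _
    have h2 : (s - s0).re = a - σ := by simp [hs, hs0]
    rw [h2] at h1
    linarith
  have hd0 : 0 < ‖s - s0‖ := lt_of_lt_of_le hκ hd
  rw [norm_div, norm_mul, zs_gk, P4f18dfV.zE_of_ne hne, norm_mul, zs_exp_norm]
  have h3 : ‖s - 1‖ ≤ D * (‖s - s0‖ + 1) := by
    have h1 : ‖s - 1‖ ≤ ‖s - s0‖ + D := by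
      have : s - 1 = (s - s0) + (s0 - 1) := by ring
      rw [this]
      exact norm_add_le _ _
    nlinarith
  have h4 : Real.exp ((a - σ) ^ 2 - (v - t) ^ 2) ≤ Real.exp 16 * Real.exp (-(v - t) ^ 2) := by
    rw [← Real.exp_add]
    refine Real.exp_le_exp.2 ?_
    have : (a - σ) ^ 2 ≤ 4 ^ 2 := by
      rw [← sq_abs]
      exact pow_le_pow_left₀ (abs_nonneg _) ha4 2
    linarith
  have h5 : (‖s - s0‖ + 1) / ‖s - s0‖ ≤ 1 + 1 / κ := by
    rw [add_div, div_self hd0.ne']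
    have := one_div_le_one_div_of_le hκ hd
    linarith
  calc ‖s - 1‖ * ‖riemannZeta s‖ * Real.exp ((a - σ) ^ 2 - (v - t) ^ 2) / ‖s - s0‖
      ≤ (D * (‖s - s0‖ + 1)) * ‖riemannZeta s‖ * (Real.exp 16 * Real.exp (-(v - t) ^ 2)) / ‖s - s0‖ := by
        gcongr
    _ = D * (((‖s - s0‖ + 1) / ‖s - s0‖) * Real.exp 16 *
        (‖riemannZeta s‖ * Real.exp (-(v - t) ^ 2))) := by
        ring
    _ ≤ D * ((1 + 1 / κ) * Real.exp 16 * (‖riemannZeta s‖ * Real.exp (-(v - t) ^ 2))) := by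
        gcongr

private lemma zs_half_ne (v : ℝ) : (((1 / 2 : ℝ) : ℂ) + v * I) ≠ 1 := by
  intro h
  have := congrArg Complex.re h
  rw [zs_re] at this
  norm_num at this

private lemma zs_four_ne (v : ℝ) : (((4 : ℝ) : ℂ) + v * I) ≠ 1 := by
  intro h
  have := congrArg Complex.re h
  rw [zs_re] at this
  norm_num at this

private lemma zs_half_cont : Continuous (fun v : ℝ => riemannZeta (((1 / 2 : ℝ) : ℂ) + v * I)) := by
  have h := zeta_half_continuous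
  have e : (fun v : ℝ => riemannZeta (((1 / 2 : ℝ) : ℂ) + v * I)) =
      fun x : ℝ => riemannZeta (1 / 2 + x * I) := by
    funext v
    push_cast
    rfl
  rw [e]
  exact h

private lemma zs_half_bound : ∃ K : ℝ, 0 < K ∧ ∀ v : ℝ,
    ‖riemannZeta (((1 / 2 : ℝ) : ℂ) + v * I)‖ ≤ K * Real.exp (K * |v|) := by
  obtain ⟨K, hK, h⟩ := zs_zE_exp
  refine ⟨2 * K, by positivity, fun v => ?_⟩
  have h1 := h (((1 / 2 : ℝ) : ℂ) + v * I) (by rw [zs_re]) (by rw [zs_re]; norm_num)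
  rw [P4f18dfV.zE_of_ne (zs_half_ne v), norm_mul, zs_im] at h1
  have h2 : 1 / 2 ≤ ‖(((1 / 2 : ℝ) : ℂ) + v * I) - 1‖ := by
    have h3 : |((((1 / 2 : ℝ) : ℂ) + v * I) - 1).re| ≤ ‖(((1 / 2 : ℝ) : ℂ) + v * I) - 1‖ :=
      Complex.abs_re_le_norm _
    have h4 : ((((1 / 2 : ℝ) : ℂ) + v * I) - 1).re = -(1 / 2) := by
      rw [Complex.sub_re, zs_re, Complex.one_re]
      norm_num
    rw [h4, abs_neg, abs_of_pos (by norm_num : (0:ℝ) < 1 / 2)] at h3
    exact h3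
  have h5 : Real.exp (K * |v|) ≤ Real.exp (2 * K * |v|) := by
    refine Real.exp_le_exp.2 ?_
    have := mul_nonneg hK.le (abs_nonneg v)
    linarith
  have h6 : 1 / 2 * ‖riemannZeta (((1 / 2 : ℝ) : ℂ) + v * I)‖ ≤ K * Real.exp (K * |v|) :=
    (mul_le_mul_of_nonneg_right h2 (norm_nonneg _)).trans h1
  nlinarith [Real.exp_pos (K * |v|)]

/-- integrability of a function of exponential growth against the Gaussian -/
private lemma zs_int {f : ℝ → ℝ} (hf : Continuous f) {K : ℝ} (hK : ∀ v, |f v| ≤ K * Real.exp (K * |v|))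
    (t : ℝ) : Integrable (fun v : ℝ => f v * Real.exp (-(v - t) ^ 2)) := by
  have h := P4f18dfV.shift_integrable (F := fun s : ℂ => ((f s.im : ℝ) : ℂ)) (a := 0) (K := K)
    (by
      have e : (fun v : ℝ => ((f ((((0 : ℝ) : ℂ) + v * I)).im : ℝ) : ℂ)) = fun v : ℝ => ((f v : ℝ) : ℂ) := by
        funext v
        rw [zs_im]
      rw [e]
      exact Complex.continuous_ofReal.comp hf)
    (by
      intro v
      simp only [zs_im]
      rw [Complex.norm_real, Real.norm_eq_abs]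
      exact hK v) (h := Real.sqrt 2) (by positivity) 0 (((0 : ℝ) : ℂ) + t * I)
  have h2 := h.re
  refine h2.congr (Filter.Eventually.of_forall fun v => ?_)
  simp only [zs_im, zs_gk]
  have e : cexp ((((0 : ℝ) : ℂ) + v * I - (((0 : ℝ) : ℂ) + t * I)) ^ 2) =
      ((Real.exp (-(v - t) ^ 2) : ℝ) : ℂ) := by
    rw [Complex.ofReal_exp]
    congr 1
    push_cast
    have : (0 + (v : ℂ) * I - (0 + t * I)) ^ 2 = (v - t) ^ 2 * I ^ 2 := by ring
    rw [this, Complex.I_sq]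
    ring
  rw [e, ← Complex.ofReal_mul]
  exact Complex.ofReal_re _

private lemma zs_gauss (t : ℝ) : ∫ v : ℝ, Real.exp (-(v - t) ^ 2) = Real.sqrt Real.pi := by
  have h := integral_sub_right_eq_self (μ := (volume : Measure ℝ)) (fun u : ℝ => Real.exp (-u ^ 2)) t
  rw [h]
  have h2 := integral_gaussian 1
  simp only [div_one, neg_mul, one_mul] at h2
  exact h2

private lemma zs_gauss_int (t : ℝ) : Integrable (fun v : ℝ => Real.exp (-(v - t) ^ 2)) := by
  have h := zs_int (f := fun _ => 1) continuous_const (K := 1)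
    (fun v => by
      rw [abs_one, one_mul, one_mul]
      exact Real.one_le_exp (abs_nonneg v)) t
  simpa using h

/-- Cauchy-Schwarz -/
private lemma zs_cs {f : ℝ → ℝ} (t : ℝ)
    (h1 : Integrable (fun v : ℝ => f v * Real.exp (-(v - t) ^ 2)))
    (h2 : Integrable (fun v : ℝ => f v ^ 2 * Real.exp (-(v - t) ^ 2))) :
    (∫ v : ℝ, f v * Real.exp (-(v - t) ^ 2)) ^ 2 ≤
      Real.sqrt Real.pi * ∫ v : ℝ, f v ^ 2 * Real.exp (-(v - t) ^ 2) := by
  set J : ℝ := ∫ v : ℝ, f v * Real.exp (-(v - t) ^ 2) with hJ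
  set S : ℝ := ∫ v : ℝ, f v ^ 2 * Real.exp (-(v - t) ^ 2) with hS
  have hp : 0 < Real.sqrt Real.pi := Real.sqrt_pos.2 Real.pi_pos
  set m : ℝ := J / Real.sqrt Real.pi with hm
  have h0 : 0 ≤ ∫ v : ℝ, (f v - m) ^ 2 * Real.exp (-(v - t) ^ 2) :=
    integral_nonneg fun v => by positivity
  have e : (fun v : ℝ => (f v - m) ^ 2 * Real.exp (-(v - t) ^ 2)) =
      fun v : ℝ => (f v ^ 2 * Real.exp (-(v - t) ^ 2) - 2 * m * (f v * Real.exp (-(v - t) ^ 2))) +
        m ^ 2 * Real.exp (-(v - t) ^ 2) := by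
    funext v
    ring
  have eA : ∫ v : ℝ, (f v ^ 2 * Real.exp (-(v - t) ^ 2) - 2 * m * (f v * Real.exp (-(v - t) ^ 2))) =
      S - 2 * m * J := by
    have hA := integral_sub h2 (h1.const_mul (2 * m))
    rw [integral_const_mul] at hA
    exact hA
  have hi : Integrable (fun v : ℝ => f v ^ 2 * Real.exp (-(v - t) ^ 2) -
      2 * m * (f v * Real.exp (-(v - t) ^ 2))) := h2.sub (h1.const_mul (2 * m))
  rw [e, integral_add hi ((zs_gauss_int t).const_mul (m ^ 2)), eA, integral_const_mul, zs_gauss] at h0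
  have hJm : J = m * Real.sqrt Real.pi := by
    rw [hm]
    field_simp
  have h3 : m ^ 2 * Real.sqrt Real.pi ≤ S := by
    rw [hJm] at h0
    nlinarith
  calc J ^ 2 = Real.sqrt Real.pi * (m ^ 2 * Real.sqrt Real.pi) := by
        rw [hJm]
        ring
    _ ≤ Real.sqrt Real.pi * S := mul_le_mul_of_nonneg_left h3 hp.le

theorem z_sup (κ : ℝ) (hκ : 0 < κ) (hκ2 : κ ≤ 1) : ∃ C : ℝ, 0 < C ∧ ∀ σ t : ℝ, 1 / 2 + κ ≤ σ → σ ≤ 3 → 1 ≤ |t| →
    ‖riemannZeta (σ + t * I)‖ ^ 2 ≤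
      C * (1 + ∫ u : ℝ, ‖riemannZeta (1 / 2 + ((t + u : ℝ) : ℂ) * I)‖ ^ 2 * Real.exp (-u ^ 2)) := by
  obtain ⟨C4, hC4, hz4⟩ := zeta_bound_re 3 (by norm_num)
  obtain ⟨K, hK, hKb⟩ := zs_zE_exp
  obtain ⟨L, hL, hLb⟩ := zs_half_bound
  set A : ℝ := (1 + 1 / κ) * Real.exp 16 with hA
  have hA0 : 0 < A := by positivity
  have hp : 0 < Real.sqrt Real.pi := Real.sqrt_pos.2 Real.pi_pos
  refine ⟨2 * A ^ 2 * (C4 ^ 2 * Real.sqrt Real.pi ^ 2 + Real.sqrt Real.pi), by positivity, ?_⟩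
  intro σ t hσ1 hσ2 ht
  set s0 : ℂ := (σ : ℂ) + t * I with hs0
  have hs0ne : s0 ≠ 1 := by
    intro h
    have h1 := congrArg Complex.im h
    rw [hs0, zs_im, Complex.one_im] at h1
    rw [h1, abs_zero] at ht
    linarith
  set D : ℝ := ‖s0 - 1‖ with hD
  have hD0 : 0 < D := norm_pos_iff.2 (sub_ne_zero.2 hs0ne)
  -- the function on the critical line
  set f : ℝ → ℝ := fun v => ‖riemannZeta (((1 / 2 : ℝ) : ℂ) + v * I)‖ with hf
  have hfc : Continuous f := zs_half_cont.norm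
  have hf1 : Integrable (fun v : ℝ => f v * Real.exp (-(v - t) ^ 2)) :=
    zs_int hfc (K := L) (fun v => by rw [hf]; simp only [abs_norm]; exact hLb v) t
  have hf2 : Integrable (fun v : ℝ => f v ^ 2 * Real.exp (-(v - t) ^ 2)) := by
    refine zs_int (f := fun v => f v ^ 2) (hfc.pow 2) (K := L ^ 2 + 2 * L) (fun v => ?_) t
    rw [abs_of_nonneg (by positivity)]
    have h1 : f v ^ 2 ≤ (L * Real.exp (L * |v|)) ^ 2 := pow_le_pow_left₀ (norm_nonneg _) (hLb v) 2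
    have h2 : (L * Real.exp (L * |v|)) ^ 2 = L ^ 2 * Real.exp (2 * L * |v|) := by
      rw [mul_pow, ← Real.exp_nat_mul]
      congr 2
      push_cast
      ring
    rw [h2] at h1
    refine h1.trans (mul_le_mul (by linarith) (Real.exp_le_exp.2 ?_) (Real.exp_pos _).le (by positivity))
    refine mul_le_mul_of_nonneg_right ?_ (abs_nonneg _)
    nlinarith [sq_nonneg L]
  have hcs := zs_cs t hf1 hf2
  -- the line four
  have h4 : ‖∫ v : ℝ, P4f18dfV.zE (((4 : ℝ) : ℂ) + v * I) *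
      P4f18dfV.gk 0 (Real.sqrt 2) s0 (((4 : ℝ) : ℂ) + v * I) / (((4 : ℝ) : ℂ) + v * I - s0)‖ ≤
      D * (A * (C4 * Real.sqrt Real.pi)) := by
    have hint : Integrable (fun v : ℝ => D * (A * (C4 * Real.exp (-(v - t) ^ 2)))) :=
      (((zs_gauss_int t).const_mul C4).const_mul A).const_mul D
    refine (norm_integral_le_of_norm_le hint (Filter.Eventually.of_forall fun v => ?_)).trans ?_
    · have h := zs_line (a := 4) (σ := σ) (t := t) (v := v) hκ ht
        (by rw [abs_of_nonneg (by linarith)]; linarith) (by rw [abs_of_nonneg (by linarith)]; linarith)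
        (zs_four_ne v)
      refine h.trans ?_
      have hz := hz4 (((4 : ℝ) : ℂ) + v * I) (by rw [zs_re]; norm_num)
      gcongr
    · rw [integral_const_mul, integral_const_mul, integral_const_mul, zs_gauss]
  -- the line one half
  have h5 : ‖∫ v : ℝ, P4f18dfV.zE (((1 / 2 : ℝ) : ℂ) + v * I) *
      P4f18dfV.gk 0 (Real.sqrt 2) s0 (((1 / 2 : ℝ) : ℂ) + v * I) / (((1 / 2 : ℝ) : ℂ) + v * I - s0)‖ ≤
      D * (A * ∫ v : ℝ, f v * Real.exp (-(v - t) ^ 2)) := by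
    have hint : Integrable (fun v : ℝ => D * (A * (f v * Real.exp (-(v - t) ^ 2)))) :=
      (hf1.const_mul A).const_mul D
    refine (norm_integral_le_of_norm_le hint (Filter.Eventually.of_forall fun v => ?_)).trans ?_
    · exact zs_line (a := 1 / 2) (σ := σ) (t := t) (v := v) hκ ht
        (by rw [abs_of_nonpos (by linarith)]; linarith) (by rw [abs_of_nonpos (by linarith)]; linarith)
        (zs_half_ne v)
    · rw [integral_const_mul, integral_const_mul]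
  have hsh := P4f18dfV.shift_pole P4f18dfV.zE_diff (a := 1 / 2) (b := 4) (K := K) hKb
    (h := Real.sqrt 2) (by positivity) 0 s0 (by rw [hs0, zs_re]; linarith) (by rw [hs0, zs_re]; linarith)
  set J : ℝ := ∫ v : ℝ, f v * Real.exp (-(v - t) ^ 2) with hJ
  have hJ0 : 0 ≤ J := integral_nonneg fun v => by positivity
  have h6 : 2 * Real.pi * (D * ‖riemannZeta s0‖) ≤ D * (A * (C4 * Real.sqrt Real.pi)) + D * (A * J) := by
    have e1 : (2 * Real.pi * P4f18dfV.zE s0 : ℂ) =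
        (∫ v : ℝ, P4f18dfV.zE (((4 : ℝ) : ℂ) + v * I) *
          P4f18dfV.gk 0 (Real.sqrt 2) s0 (((4 : ℝ) : ℂ) + v * I) / (((4 : ℝ) : ℂ) + v * I - s0)) -
        ∫ v : ℝ, P4f18dfV.zE (((1 / 2 : ℝ) : ℂ) + v * I) *
          P4f18dfV.gk 0 (Real.sqrt 2) s0 (((1 / 2 : ℝ) : ℂ) + v * I) / (((1 / 2 : ℝ) : ℂ) + v * I - s0) := by
      rw [hsh]
      ring
    have e2 : ‖(2 * Real.pi * P4f18dfV.zE s0 : ℂ)‖ = 2 * Real.pi * (D * ‖riemannZeta s0‖) := by
      rw [P4f18dfV.zE_of_ne hs0ne, norm_mul, norm_mul, norm_mul, ← hD, Complex.norm_real,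
        Real.norm_eq_abs, abs_of_pos Real.pi_pos, Complex.norm_ofNat]
    rw [← e2, e1]
    exact (norm_sub_le _ _).trans (add_le_add h4 h5)
  have h7 : ‖riemannZeta s0‖ ≤ A * (C4 * Real.sqrt Real.pi) + A * J := by
    have h8 : 2 * Real.pi * ‖riemannZeta s0‖ ≤ A * (C4 * Real.sqrt Real.pi) + A * J := by
      have h9 : D * (2 * Real.pi * ‖riemannZeta s0‖) ≤ D * (A * (C4 * Real.sqrt Real.pi) + A * J) := by
        nlinarith
      exact le_of_mul_le_mul_left h9 hD0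
    have h10 : 1 ≤ 2 * Real.pi := by linarith [Real.pi_gt_three]
    have := norm_nonneg (riemannZeta s0)
    nlinarith
  have h11 : ‖riemannZeta s0‖ ^ 2 ≤ 2 * (A * (C4 * Real.sqrt Real.pi)) ^ 2 + 2 * (A * J) ^ 2 := by
    have h12 := pow_le_pow_left₀ (norm_nonneg _) h7 2
    nlinarith [sq_nonneg (A * (C4 * Real.sqrt Real.pi) - A * J)]
  -- change of variables
  have h13 : ∫ v : ℝ, f v ^ 2 * Real.exp (-(v - t) ^ 2) =
      ∫ u : ℝ, ‖riemannZeta (1 / 2 + ((t + u : ℝ) : ℂ) * I)‖ ^ 2 * Real.exp (-u ^ 2) := by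
    have h14 := integral_add_left_eq_self (μ := (volume : Measure ℝ))
      (fun v : ℝ => f v ^ 2 * Real.exp (-(v - t) ^ 2)) t
    rw [← h14]
    congr 1
    funext u
    rw [hf]
    simp only
    have e1 : t + u - t = u := by ring
    rw [e1]
    congr 3
    push_cast
    ring
  rw [h13] at hcs
  set S : ℝ := ∫ u : ℝ, ‖riemannZeta (1 / 2 + ((t + u : ℝ) : ℂ) * I)‖ ^ 2 * Real.exp (-u ^ 2) with hS
  have hS0 : 0 ≤ S := integral_nonneg fun v => by positivity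
  calc ‖riemannZeta s0‖ ^ 2 ≤ 2 * (A * (C4 * Real.sqrt Real.pi)) ^ 2 + 2 * (A * J) ^ 2 := h11
    _ = 2 * A ^ 2 * (C4 ^ 2 * Real.sqrt Real.pi ^ 2) + 2 * A ^ 2 * J ^ 2 := by ring
    _ ≤ 2 * A ^ 2 * (C4 ^ 2 * Real.sqrt Real.pi ^ 2) + 2 * A ^ 2 * (Real.sqrt Real.pi * S) := by
        gcongr
    _ ≤ 2 * A ^ 2 * (C4 ^ 2 * Real.sqrt Real.pi ^ 2 + Real.sqrt Real.pi) * (1 + S) := by
        have h15 : 0 ≤ 2 * A ^ 2 * (C4 ^ 2 * Real.sqrt Real.pi ^ 2) * S := by positivity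
        have h16 : 0 ≤ 2 * A ^ 2 * Real.sqrt Real.pi := by positivity
        nlinarith

end Pool.Agent.P07318s
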