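import Pool.Agent.Lib.P07318s.Defs
import Pool.Agent.Lib.P07318s.Crude
import Pool.Agent.Lib.P07318s.SecondMoment
import Pool.Agent.Lib.P07318s.ZSup

/-!
Almost all differences are good. `Y = U^κ`. Let `δ ∈ [a, a+H]`, `|δ| > 4Y` (the complement has measure
`≤ 8 U^κ ≤ 8 H U^(κ-1/2)`). For `|v| ≤ 2Y`: `|δ+v| ≥ 1`, and by `z_sup`
`|ζ(σ+i(δ+v))|² ≤ C (1 + ∫_{|u| ≤ Y} + ∫_{|u| > Y}) ≤ C (1 + ∫_{|u| ≤ 3Y} |ζ(1/2+i(δ+u))|² du + C')`, the tail by
`zeta_bound_im`: `|ζ(1/2+iτ)|² ≤ C (1+|τ|)²`, `|δ+v| ≤ 9U` and `exp(-Y²/2) U² ≤ C`. Integrate over `δ`: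
`∫_{a}^{a+H} ∫_{|u| ≤ 3Y} |ζ(1/2+i(δ+u))|² du dδ ≤ 6Y · C U^ε (H + U^(1/2)) ≤ C' U^(κ+ε) H`, using `second_moment` on
`[a+u, a+u+H]` (inside `[-4U', 4U']` with `U' = 2U`). Chebyshev: the set of `δ` where the inner integral
exceeds `U^(2κ)` has measure `≤ C H U^(κ+ε-2κ)`, take `ε = κ/2`, `κ' = κ/2`.
-/

set_option autoImplicit false

namespace Pool.Agent.P07318s

open MeasureTheory Complex

namespace ZetaGood

/-- `‖ζ(1/2 + ix)‖²`. -/
noncomputable def fz (x : ℝ) : ℝ := ‖riemannZeta (1 / 2 + x * I)‖ ^ 2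

lemma fz_cont : Continuous fz := by
  unfold fz
  exact (zeta_half_continuous.norm).pow 2

lemma fz_nonneg (x : ℝ) : 0 ≤ fz x := by unfold fz; positivity

lemma fz_bound : ∃ C : ℝ, 0 < C ∧ ∀ τ : ℝ, fz τ ≤ C * (1 + |τ|) ^ 2 := by
  obtain ⟨C, hC, h⟩ := zeta_bound_im (1 / 2) (by norm_num)
  refine ⟨C ^ 2, by positivity, fun τ => ?_⟩
  have hre : ((1 / 2 : ℂ) + τ * I).re = 1 / 2 := by simp
  have him : ((1 / 2 : ℂ) + τ * I).im = τ := by simp
  have h1 := h (1 / 2 + τ * I) (by rw [hre]) (by rw [hre]; norm_num) (by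
    have h2 := Complex.abs_re_le_norm ((1 / 2 : ℂ) + τ * I - 1)
    rw [Complex.sub_re, hre, Complex.one_re] at h2
    have h3 : |(1 / 2 : ℝ) - 1| = 1 / 2 := by norm_num
    rw [h3] at h2
    linarith)
  rw [him] at h1
  unfold fz
  rw [← mul_pow]
  exact pow_le_pow_left₀ (norm_nonneg _) h1 2

/-- The local mean value. -/
noncomputable def Jz (Y δ : ℝ) : ℝ := ∫ u in (-(3 * Y))..(3 * Y), fz (δ + u)

lemma Jz_cont (Y : ℝ) : Continuous (Jz Y) := by
  unfold Jz
  apply intervalIntegral.continuous_parametric_intervalIntegral_of_continuous'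
  exact fz_cont.comp (continuous_fst.add continuous_snd)

lemma Jz_nonneg {Y : ℝ} (hY : 0 ≤ Y) (δ : ℝ) : 0 ≤ Jz Y δ := by
  unfold Jz
  apply intervalIntegral.integral_nonneg (by linarith)
  intro u _
  exact fz_nonneg _

lemma gauss_split {C₁ : ℝ} (hC₁ : 0 < C₁) (hb : ∀ τ : ℝ, fz τ ≤ C₁ * (1 + |τ|) ^ 2) {U Y δ v : ℝ}
    (hU : 1 ≤ U) (hY : 1 ≤ Y) (hYU : Y ≤ U) (hδ : |δ| ≤ 3 * U) (hv : |v| ≤ 2 * Y) :
    ∫ u : ℝ, fz (δ + v + u) * Real.exp (-u ^ 2) ≤
      Jz Y δ + C₁ * 36 * (U ^ 2 * Real.exp (-(Y ^ 2 / 2))) * 8 * ∫ u : ℝ, Real.exp (-(1 / 4) * u ^ 2) := by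
  have hint : Integrable (fun u : ℝ => Real.exp (-(1 / 4) * u ^ 2)) := integrable_exp_neg_mul_sq (by norm_num)
  have hind : Integrable ((Set.Ioc (-Y) Y).indicator (fun u : ℝ => fz (δ + v + u))) := by
    rw [integrable_indicator_iff measurableSet_Ioc]
    exact ((fz_cont.comp (continuous_const.add continuous_id)).integrableOn_Icc).mono_set Set.Ioc_subset_Icc_self
  have hint2 := hint.const_mul (C₁ * 36 * (U ^ 2 * Real.exp (-(Y ^ 2 / 2))) * 8)
  have h1 : ∫ u : ℝ, fz (δ + v + u) * Real.exp (-u ^ 2) ≤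
      ∫ u : ℝ, ((Set.Ioc (-Y) Y).indicator (fun u : ℝ => fz (δ + v + u)) u +
        C₁ * 36 * (U ^ 2 * Real.exp (-(Y ^ 2 / 2))) * 8 * Real.exp (-(1 / 4) * u ^ 2)) := by
    apply integral_mono_of_nonneg
    · exact Filter.Eventually.of_forall fun u => mul_nonneg (fz_nonneg _) (Real.exp_pos _).le
    · exact hind.add hint2
    · refine Filter.Eventually.of_forall fun u => ?_
      simp only
      by_cases hu : u ∈ Set.Ioc (-Y) Y
      · rw [Set.indicator_of_mem hu]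
        have he : Real.exp (-u ^ 2) ≤ 1 := by
          rw [Real.exp_le_one_iff]
          nlinarith [sq_nonneg u]
        have h2 : 0 ≤ C₁ * 36 * (U ^ 2 * Real.exp (-(Y ^ 2 / 2))) * 8 * Real.exp (-(1 / 4) * u ^ 2) := by
          positivity
        have h3 := mul_le_mul_of_nonneg_left he (fz_nonneg (δ + v + u))
        linarith
      · rw [Set.indicator_of_notMem hu, zero_add]
        have huY : Y ≤ |u| := by
          by_contra hcon
          push Not at hcon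
          rw [abs_lt] at hcon
          exact hu ⟨hcon.1, hcon.2.le⟩
        have hU0 : 0 < U := by linarith
        have hau : 0 ≤ |u| := abs_nonneg u
        have h2 : fz (δ + v + u) ≤ C₁ * (6 * U * (1 + |u|)) ^ 2 := by
          refine (hb _).trans ?_
          apply mul_le_mul_of_nonneg_left _ hC₁.le
          apply pow_le_pow_left₀ (by positivity)
          have h3 : |δ + v + u| ≤ |δ| + |v| + |u| := by
            refine (abs_add_le _ _).trans ?_
            have := abs_add_le δ v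
            linarith
          nlinarith
        have h4 : Real.exp (-u ^ 2) ≤ Real.exp (-(Y ^ 2 / 2)) * Real.exp (-(1 / 2) * u ^ 2) := by
          rw [← Real.exp_add]
          apply Real.exp_le_exp.mpr
          have : Y ^ 2 ≤ u ^ 2 := by
            rw [← sq_abs u]
            exact pow_le_pow_left₀ (by linarith) huY 2
          linarith
        have h5 : (1 + |u|) ^ 2 ≤ 8 * Real.exp (1 / 4 * u ^ 2) := by
          have h6 := Real.add_one_le_exp (1 / 4 * u ^ 2)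
          have h7 : |u| ^ 2 = u ^ 2 := sq_abs u
          nlinarith [sq_nonneg (|u| - 1)]
        calc fz (δ + v + u) * Real.exp (-u ^ 2)
            ≤ (C₁ * (6 * U * (1 + |u|)) ^ 2) * (Real.exp (-(Y ^ 2 / 2)) * Real.exp (-(1 / 2) * u ^ 2)) := by
              apply mul_le_mul h2 h4 (Real.exp_pos _).le (by positivity)
          _ = C₁ * 36 * (U ^ 2 * Real.exp (-(Y ^ 2 / 2))) * ((1 + |u|) ^ 2 * Real.exp (-(1 / 2) * u ^ 2)) := by
              ring
          _ ≤ C₁ * 36 * (U ^ 2 * Real.exp (-(Y ^ 2 / 2))) *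
              ((8 * Real.exp (1 / 4 * u ^ 2)) * Real.exp (-(1 / 2) * u ^ 2)) := by
              have := Real.exp_pos (-(1 / 2) * u ^ 2)
              gcongr
          _ = C₁ * 36 * (U ^ 2 * Real.exp (-(Y ^ 2 / 2))) * 8 * Real.exp (-(1 / 4) * u ^ 2) := by
              have : Real.exp (1 / 4 * u ^ 2) * Real.exp (-(1 / 2) * u ^ 2) = Real.exp (-(1 / 4) * u ^ 2) := by
                rw [← Real.exp_add]
                congr 1
                ring
              rw [← this]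
              ring
  refine h1.trans ?_
  rw [integral_add hind hint2, integral_const_mul, integral_indicator measurableSet_Ioc]
  have h8 : ∫ u in Set.Ioc (-Y) Y, fz (δ + v + u) ≤ Jz Y δ := by
    rw [← intervalIntegral.integral_of_le (by linarith)]
    unfold Jz
    have h9 : ∫ u in (-Y)..Y, fz (δ + v + u) = ∫ w in (-Y + v)..(Y + v), fz (δ + w) := by
      rw [← intervalIntegral.integral_comp_add_right (fun w => fz (δ + w)) v]
      congr 1
      funext u
      congr 1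
      ring
    rw [h9]
    obtain ⟨hv1, hv2⟩ := abs_le.mp hv
    apply intervalIntegral.integral_mono_interval (by linarith) (by linarith) (by linarith)
    · exact Filter.Eventually.of_forall fun u => fz_nonneg _
    · exact (fz_cont.comp (continuous_const.add continuous_id)).intervalIntegrable _ _
  linarith

lemma exp_small (κ : ℝ) (hκ : 0 < κ) : ∃ M : ℝ, 0 < M ∧ ∀ U : ℝ, 1 ≤ U →
    U ^ 2 * Real.exp (-((U ^ κ) ^ 2 / 2)) ≤ M := by
  obtain ⟨n, hn⟩ := exists_nat_ge (1 / κ)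
  refine ⟨(n.factorial : ℝ) * 2 ^ n, by positivity, fun U hU => ?_⟩
  have hU0 : 0 < U := by linarith
  set y := (U ^ κ) ^ 2 / 2 with hy
  have hy0 : 0 < y := by positivity
  have h1 := Real.pow_div_factorial_le_exp y hy0.le n
  have hfac : (0 : ℝ) < n.factorial := by positivity
  rw [div_le_iff₀ hfac] at h1
  -- `U^2 ≤ (2y)^n`
  have h2 : U ^ 2 ≤ (2 * y) ^ n := by
    have h3 : (2 * y) ^ n = U ^ (2 * (κ * n)) := by
      have : 2 * y = (U ^ κ) ^ 2 := by rw [hy]; ring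
      rw [this, ← pow_mul, ← Real.rpow_natCast, ← Real.rpow_mul hU0.le]
      congr 1
      push_cast
      ring
    rw [h3, ← Real.rpow_natCast]
    apply Real.rpow_le_rpow_of_exponent_le hU
    have : 1 ≤ κ * n := by
      rw [div_le_iff₀ hκ] at hn
      linarith
    push_cast
    linarith
  have hexp : Real.exp (-y) * Real.exp y = 1 := by rw [← Real.exp_add]; simp
  have hpos := Real.exp_pos (-y)
  calc U ^ 2 * Real.exp (-y) ≤ (2 * y) ^ n * Real.exp (-y) := by gcongr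
    _ = 2 ^ n * (y ^ n * Real.exp (-y)) := by rw [mul_pow]; ring
    _ ≤ 2 ^ n * (Real.exp y * n.factorial * Real.exp (-y)) := by gcongr
    _ = (n.factorial : ℝ) * 2 ^ n * (Real.exp (-y) * Real.exp y) := by ring
    _ = (n.factorial : ℝ) * 2 ^ n := by rw [hexp, mul_one]

/-- If the local mean value is small the difference is good. -/
lemma good_of_small (κ : ℝ) (hκ : 0 < κ) (hκ2 : κ ≤ 1 / 4) : ∃ B : ℝ, 0 < B ∧ ∀ U δ : ℝ, 1 ≤ U →
    |δ| ≤ 3 * U → 4 * U ^ κ < |δ| → Jz (U ^ κ) δ ≤ U ^ (2 * κ) → Good κ (U ^ κ) (B * U ^ κ) δ := by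
  obtain ⟨C₁, hC₁, hb⟩ := fz_bound
  obtain ⟨C, hC, hz⟩ := z_sup κ hκ (by linarith)
  obtain ⟨M, hM, hexp⟩ := exp_small κ hκ
  set K : ℝ := ∫ u : ℝ, Real.exp (-(1 / 4) * u ^ 2) with hK
  have hK0 : 0 ≤ K := integral_nonneg fun u => (Real.exp_pos _).le
  refine ⟨Real.sqrt (C * (2 + C₁ * 36 * M * 8 * K)), Real.sqrt_pos.mpr (by positivity), ?_⟩
  intro U δ hU hδ hδY hJ
  have hU0 : 0 < U := by linarith
  have hY1 : 1 ≤ U ^ κ := Real.one_le_rpow hU hκ.le
  have hYU : U ^ κ ≤ U := by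
    calc U ^ κ ≤ U ^ (1 : ℝ) := Real.rpow_le_rpow_of_exponent_le hU (by linarith)
      _ = U := Real.rpow_one U
  refine ⟨hδY, ?_⟩
  intro σ v hσ hσ3 hv
  have ht : 1 ≤ |δ + v| := by
    have h1 : |δ| - |v| ≤ |δ + v| := by
      have := abs_sub_abs_le_abs_sub δ (-v)
      rw [abs_neg, sub_neg_eq_add] at this
      exact this
    linarith
  have h := hz σ (δ + v) hσ hσ3 ht
  have hsplit := gauss_split hC₁ hb hU hY1 hYU hδ hv
  have hsame : (∫ u : ℝ, ‖riemannZeta (1 / 2 + ((δ + v + u : ℝ) : ℂ) * I)‖ ^ 2 * Real.exp (-u ^ 2)) =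
      ∫ u : ℝ, fz (δ + v + u) * Real.exp (-u ^ 2) := rfl
  rw [hsame] at h
  have hY2 : (U ^ κ) ^ 2 = U ^ (2 * κ) := by
    rw [← Real.rpow_natCast, ← Real.rpow_mul hU0.le]
    congr 1
    push_cast
    ring
  have hone : 1 ≤ U ^ (2 * κ) := Real.one_le_rpow hU (by linarith)
  have hM' := hexp U hU
  have h2 : ‖riemannZeta (σ + ((δ + v : ℝ) : ℂ) * I)‖ ^ 2 ≤ C * (2 + C₁ * 36 * M * 8 * K) * (U ^ κ) ^ 2 := by
    refine h.trans ?_
    rw [hY2]
    calc C * (1 + ∫ u : ℝ, fz (δ + v + u) * Real.exp (-u ^ 2))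
        ≤ C * (1 + (U ^ (2 * κ) + C₁ * 36 * M * 8 * K)) := by
          apply mul_le_mul_of_nonneg_left _ hC.le
          have h3 : C₁ * 36 * (U ^ 2 * Real.exp (-((U ^ κ) ^ 2 / 2))) * 8 * K ≤ C₁ * 36 * M * 8 * K := by
            gcongr
          linarith
      _ ≤ C * ((2 + C₁ * 36 * M * 8 * K) * U ^ (2 * κ)) := by
          apply mul_le_mul_of_nonneg_left _ hC.le
          have h4 : 0 ≤ C₁ * 36 * M * 8 * K := by positivity
          nlinarith
      _ = C * (2 + C₁ * 36 * M * 8 * K) * U ^ (2 * κ) := by ring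
  have h5 : Real.sqrt (C * (2 + C₁ * 36 * M * 8 * K)) * U ^ κ =
      Real.sqrt (C * (2 + C₁ * 36 * M * 8 * K) * (U ^ κ) ^ 2) := by
    rw [Real.sqrt_mul (show 0 ≤ C * (2 + C₁ * 36 * M * 8 * K) by positivity) ((U ^ κ) ^ 2),
      Real.sqrt_sq (by positivity)]
  rw [h5]
  exact Real.le_sqrt_of_sq_le h2

/-- The mean of the local mean values. -/
lemma Jz_mean (κ : ℝ) (hκ : 0 < κ) (hκ2 : κ ≤ 1 / 4) : ∃ C : ℝ, 0 < C ∧ ∀ U a H : ℝ, 1 ≤ U →
    U ^ (1 / 2 : ℝ) ≤ H → -(3 * U) ≤ a → a + H ≤ 3 * U →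
    ∫ δ in a..(a + H), Jz (U ^ κ) δ ≤ C * U ^ (3 * κ / 2) * H := by
  obtain ⟨C, hC, hsm⟩ := second_moment (κ / 2) (by linarith)
  refine ⟨6 * C * 2 * 3, by positivity, ?_⟩
  intro U a H hU hH ha haH
  have hU0 : 0 < U := by linarith
  have hH0 : 0 < H := lt_of_lt_of_le (Real.rpow_pos_of_pos hU0 _) hH
  have hY1 : 1 ≤ U ^ κ := Real.one_le_rpow hU hκ.le
  have hYU : U ^ κ ≤ U := by
    calc U ^ κ ≤ U ^ (1 : ℝ) := Real.rpow_le_rpow_of_exponent_le hU (by linarith)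
      _ = U := Real.rpow_one U
  unfold Jz
  rw [intervalIntegral_intervalIntegral_swap (by
    apply IntegrableOn.mono_set (t := Set.uIcc a (a + H) ×ˢ Set.uIcc (-(3 * U ^ κ)) (3 * U ^ κ))
    · apply ContinuousOn.integrableOn_compact
      · exact isCompact_uIcc.prod isCompact_uIcc
      · exact (fz_cont.comp (continuous_fst.add continuous_snd)).continuousOn
    · exact Set.prod_mono Set.uIoc_subset_uIcc Set.uIoc_subset_uIcc)]
  have hbd : ∀ u ∈ Set.Icc (-(3 * U ^ κ)) (3 * U ^ κ), ∫ x in a..(a + H), fz (x + u) ≤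
      C * 2 * 3 * (U ^ (κ / 2) * H) := by
    intro u hu
    have h1 : ∫ x in a..(a + H), fz (x + u) = ∫ x in (a + u)..(a + H + u), fz x :=
      intervalIntegral.integral_comp_add_right fz u
    rw [h1]
    have h2 := hsm (2 * U) (a + u) (a + H + u) (by linarith) (by linarith [hu.1]) (by linarith)
      (by linarith [hu.2])
    have h3 : (a + H + u) - (a + u) = H := by ring
    rw [h3] at h2
    refine h2.trans ?_
    have h4 : (2 * U) ^ (κ / 2) ≤ 2 * U ^ (κ / 2) := by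
      rw [Real.mul_rpow (by norm_num) hU0.le]
      apply mul_le_mul_of_nonneg_right _ (by positivity)
      calc (2 : ℝ) ^ (κ / 2) ≤ 2 ^ (1 : ℝ) := Real.rpow_le_rpow_of_exponent_le (by norm_num) (by linarith)
        _ = 2 := Real.rpow_one 2
    have h5 : (2 * U) ^ (1 / 2 : ℝ) ≤ 2 * H := by
      rw [Real.mul_rpow (by norm_num) hU0.le]
      apply mul_le_mul _ hH (by positivity) (by norm_num)
      calc (2 : ℝ) ^ (1 / 2 : ℝ) ≤ 2 ^ (1 : ℝ) := Real.rpow_le_rpow_of_exponent_le (by norm_num) (by norm_num)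
        _ = 2 := Real.rpow_one 2
    calc C * (2 * U) ^ (κ / 2) * (H + (2 * U) ^ (1 / 2 : ℝ))
        ≤ C * (2 * U ^ (κ / 2)) * (H + 2 * H) := by gcongr
      _ = C * 2 * 3 * (U ^ (κ / 2) * H) := by ring
  calc ∫ u in (-(3 * U ^ κ))..(3 * U ^ κ), ∫ x in a..(a + H), fz (x + u)
      ≤ ∫ _u in (-(3 * U ^ κ))..(3 * U ^ κ), C * 2 * 3 * (U ^ (κ / 2) * H) := by
        apply intervalIntegral.integral_mono_on (by linarith) _ _ hbd
        · apply Continuous.intervalIntegrable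
          apply intervalIntegral.continuous_parametric_intervalIntegral_of_continuous'
          exact fz_cont.comp (continuous_snd.add continuous_fst)
        · exact intervalIntegrable_const
    _ = 6 * C * 2 * 3 * (U ^ κ * U ^ (κ / 2)) * H := by
        rw [intervalIntegral.integral_const, smul_eq_mul]
        ring
    _ = 6 * C * 2 * 3 * U ^ (3 * κ / 2) * H := by
        rw [← Real.rpow_add hU0]
        congr 3
        ring

end ZetaGood

open ZetaGood in
theorem zeta_good (κ : ℝ) (hκ : 0 < κ) (hκ2 : κ ≤ 1 / 4) : ∃ B C κ' : ℝ, 0 < B ∧ 0 < C ∧ 0 < κ' ∧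
    ∀ U a H : ℝ, 1 ≤ U → U ^ (1 / 2 : ℝ) ≤ H → -(3 * U) ≤ a → a + H ≤ 3 * U →
    volume {δ ∈ Set.Icc a (a + H) | ¬ Good κ (U ^ κ) (B * U ^ κ) δ} ≤ ENNReal.ofReal (C * H * U ^ (-κ')) := by
  obtain ⟨B, hB, hgood⟩ := good_of_small κ hκ hκ2
  obtain ⟨C, hC, hmean⟩ := Jz_mean κ hκ hκ2
  refine ⟨B, C + 8, κ / 2, hB, by linarith, by linarith, ?_⟩
  intro U a H hU hH ha haH
  have hU0 : 0 < U := by linarith
  have hH0 : 0 < H := lt_of_lt_of_le (Real.rpow_pos_of_pos hU0 _) hH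
  have hY0 : 0 < U ^ κ := Real.rpow_pos_of_pos hU0 _
  have hP0 : 0 < U ^ (2 * κ) := Real.rpow_pos_of_pos hU0 _
  -- the two parts of the bad set
  have hsub : {δ ∈ Set.Icc a (a + H) | ¬ Good κ (U ^ κ) (B * U ^ κ) δ} ⊆
      Set.Icc (-(4 * U ^ κ)) (4 * U ^ κ) ∪
        {δ | U ^ (2 * κ) ≤ Jz (U ^ κ) δ} ∩ Set.Icc a (a + H) := by
    intro δ hδ
    obtain ⟨⟨h1, h2⟩, h3⟩ := hδ
    by_cases h4 : 4 * U ^ κ < |δ|
    · right
      refine ⟨?_, h1, h2⟩
      by_contra h5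
      simp only [Set.mem_ofPred_eq, not_le] at h5
      refine h3 (hgood U δ hU ?_ h4 h5.le)
      rw [abs_le]
      constructor <;> linarith
    · left
      push Not at h4
      exact ⟨(abs_le.mp h4).1, (abs_le.mp h4).2⟩
  refine (measure_mono hsub).trans ((measure_union_le _ _).trans ?_)
  -- first part
  have hp1 : volume (Set.Icc (-(4 * U ^ κ)) (4 * U ^ κ)) ≤ ENNReal.ofReal (8 * H * U ^ (-(κ / 2))) := by
    rw [Real.volume_Icc]
    apply ENNReal.ofReal_le_ofReal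
    have h1 : U ^ κ ≤ U ^ (1 / 2 : ℝ) * U ^ (-(κ / 2)) := by
      rw [← Real.rpow_add hU0]
      apply Real.rpow_le_rpow_of_exponent_le hU
      linarith
    have h2 : U ^ (1 / 2 : ℝ) * U ^ (-(κ / 2)) ≤ H * U ^ (-(κ / 2)) :=
      mul_le_mul_of_nonneg_right hH (by positivity)
    linarith
  -- second part
  have hp2 : volume ({δ | U ^ (2 * κ) ≤ Jz (U ^ κ) δ} ∩ Set.Icc a (a + H)) ≤
      ENNReal.ofReal (C * H * U ^ (-(κ / 2))) := by
    have hmeas : MeasurableSet {δ : ℝ | U ^ (2 * κ) ≤ Jz (U ^ κ) δ} :=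
      measurableSet_le measurable_const (Jz_cont _).measurable
    rw [← Measure.restrict_apply hmeas]
    have hfin : (volume.restrict (Set.Icc a (a + H))) {δ : ℝ | U ^ (2 * κ) ≤ Jz (U ^ κ) δ} ≠ ⊤ :=
      measure_ne_top _ _
    rw [← ENNReal.ofReal_toReal hfin]
    apply ENNReal.ofReal_le_ofReal
    have hint : IntegrableOn (Jz (U ^ κ)) (Set.Icc a (a + H)) := (Jz_cont _).integrableOn_Icc
    have hche := mul_meas_ge_le_integral_of_nonneg (μ := volume.restrict (Set.Icc a (a + H)))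
      (f := Jz (U ^ κ)) (Filter.Eventually.of_forall fun δ => Jz_nonneg hY0.le δ) hint (U ^ (2 * κ))
    rw [Measure.real] at hche
    have hcmp : ∫ δ in Set.Icc a (a + H), Jz (U ^ κ) δ ≤ C * U ^ (3 * κ / 2) * H := by
      rw [integral_Icc_eq_integral_Ioc, ← intervalIntegral.integral_of_le (by linarith)]
      exact hmean U a H hU hH ha haH
    have h3 : U ^ (3 * κ / 2) = U ^ (2 * κ) * U ^ (-(κ / 2)) := by
      rw [← Real.rpow_add hU0]
      congr 1
      ring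
    have h4 := hche.trans hcmp
    rw [h3] at h4
    have h5 : U ^ (2 * κ) * ((volume.restrict (Set.Icc a (a + H))) {x | U ^ (2 * κ) ≤ Jz (U ^ κ) x}).toReal ≤
        U ^ (2 * κ) * (C * H * U ^ (-(κ / 2))) := by
      calc _ ≤ C * (U ^ (2 * κ) * U ^ (-(κ / 2))) * H := h4
        _ = _ := by ring
    exact le_of_mul_le_mul_left h5 hP0
  calc volume (Set.Icc (-(4 * U ^ κ)) (4 * U ^ κ)) +
        volume ({δ | U ^ (2 * κ) ≤ Jz (U ^ κ) δ} ∩ Set.Icc a (a + H))
      ≤ ENNReal.ofReal (8 * H * U ^ (-(κ / 2))) + ENNReal.ofReal (C * H * U ^ (-(κ / 2))) := add_le_add hp1 hp2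
    _ = ENNReal.ofReal ((C + 8) * H * U ^ (-(κ / 2))) := by
        rw [← ENNReal.ofReal_add (by positivity) (by positivity)]
        congr 1
        ring

end Pool.Agent.P07318s
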