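import Pool.Agent.Lib.P07318s.Defs
import Pool.Agent.Lib.P07318s.AFE
import Pool.Agent.Lib.P07318s.SecondMoment

/-!
`∏ ‖ζ(x_j)‖² - ∏ Fd(x_j)`: with `Fd = ‖ζ‖² + e_j`, `|e_j| ≤ C U^(-1/2+ε)` (`afe`), expand:
`|..| ≤ ∑_{S ≠ ∅} (C U^(-1/2+ε))^|S| ∏_{j ∉ S} ‖ζ(1/2+ix_j)‖²`. Integrate over `t ∈ [0, V]` and the box:
for `j ≥ 1`, `∫_{β_j}^{β_j+H} ‖ζ(1/2+i(t+α_j))‖² dα_j ≤ C U^ε (H + U^(1/2)) ≤ 2 C U^ε H`, and
`∫_0^V ‖ζ(1/2+i(t+α₀))‖² dt ≤ C U^(1+ε)` (`second_moment`; everything inside `[0, 4U]`). Each nonempty `S` gains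
`U^(-1/2+ε)`, total `≤ C U^(1/2 + (n+2)ε') H^n`. Use `lintegral`, Tonelli and
`lintegral_fintype_prod`-type formulas (`Fin.prod_univ_succ`).
-/

set_option autoImplicit false

namespace Pool.Agent.P07318s

open MeasureTheory Complex

theorem e1_lint_prod (n : ℕ) (μ : Fin n → Measure ℝ) [∀ i, SigmaFinite (μ i)] (f : Fin n → ℝ → ENNReal)
    (hf : ∀ i, Measurable (f i)) :
    ∫⁻ x, ∏ i, f i (x i) ∂(Measure.pi μ) = ∏ i, ∫⁻ x, f i x ∂(μ i) := by
  induction n with
  | zero => simp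
  | succ n ih =>
    have h := measurePreserving_piFinSuccAbove μ 0
    rw [← (h.symm (MeasurableEquiv.piFinSuccAbove (fun _ => ℝ) 0)).lintegral_comp
      (f := fun x => ∏ i, f i (x i)) (by
        refine Finset.measurable_prod _ fun i _ => (hf i).comp (measurable_pi_apply i))]
    have e : ∀ y : ℝ × (Fin n → ℝ),
        (∏ i, f i ((MeasurableEquiv.piFinSuccAbove (fun _ => ℝ) 0).symm y i)) =
          f 0 y.1 * ∏ i : Fin n, f i.succ (y.2 i) := by
      intro y
      rw [Fin.prod_univ_succ]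
      simp [MeasurableEquiv.piFinSuccAbove]
    simp_rw [e]
    rw [lintegral_prod_mul (f := f 0) (g := fun z : Fin n → ℝ => ∏ i : Fin n, f i.succ (z i)) (hf 0).aemeasurable
      (Finset.measurable_prod _ fun i _ => (hf i.succ).comp (measurable_pi_apply i)).aemeasurable]
    rw [Fin.prod_univ_succ]
    congr 1
    exact ih (fun i => μ i.succ) (fun i => f i.succ) (fun i => hf i.succ)

theorem e1_prod_diff (n : ℕ) (a b : Fin n → ℂ) (A : Fin n → ℝ) {η : ℝ} (hη : 0 ≤ η) (hA : ∀ i, ‖a i‖ ≤ A i)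
    (hab : ∀ i, ‖a i - b i‖ ≤ η) :
    ‖∏ i, a i - ∏ i, b i‖ ≤ ∑ j, ∏ i, (if i = j then η else A i + η) := by
  induction n with
  | zero => simp
  | succ n ih =>
    rw [Fin.prod_univ_succ, Fin.prod_univ_succ, Fin.sum_univ_succ]
    have hb : ∀ i, ‖b i‖ ≤ A i + η := by
      intro i
      calc ‖b i‖ = ‖a i - (a i - b i)‖ := by rw [sub_sub_cancel]
        _ ≤ _ := (norm_sub_le _ _).trans (add_le_add (hA i) (hab i))
    have h1 : ‖∏ i : Fin n, b i.succ‖ ≤ ∏ i : Fin n, (A i.succ + η) := by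
      rw [norm_prod]
      exact Finset.prod_le_prod (fun i _ => norm_nonneg _) fun i _ => hb _
    have h2 := ih (fun i => a i.succ) (fun i => b i.succ) (fun i => A i.succ) (fun i => hA _) (fun i => hab _)
    have h3 : a 0 * ∏ i : Fin n, a i.succ - b 0 * ∏ i : Fin n, b i.succ =
        (a 0 - b 0) * ∏ i : Fin n, b i.succ + a 0 * (∏ i : Fin n, a i.succ - ∏ i : Fin n, b i.succ) := by ring
    rw [h3]
    refine (norm_add_le _ _).trans (add_le_add ?_ ?_)
    · rw [norm_mul, Fin.prod_univ_succ]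
      simp only [if_true, Fin.succ_ne_zero, if_false]
      exact mul_le_mul (hab 0) h1 (norm_nonneg _) hη
    · rw [norm_mul]
      have e : ∀ j : Fin n, (∏ i : Fin (n + 1), (if i = j.succ then η else A i + η)) =
          (A 0 + η) * ∏ i : Fin n, (if i = j then η else A i.succ + η) := by
        intro j
        rw [Fin.prod_univ_succ]
        simp [Fin.succ_inj, (Fin.succ_ne_zero j).symm]
      simp_rw [e]
      rw [← Finset.mul_sum]
      have hA0 : 0 ≤ A 0 := (norm_nonneg _).trans (hA 0)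
      refine mul_le_mul ((hA 0).trans (by linarith)) h2 (norm_nonneg _) (by linarith)

theorem e1_lint_le {C U ε' η M a b s : ℝ} (hU : 1 ≤ U) (hη : 0 ≤ η) (hC : 0 < C)
    (hsm : ∀ a b : ℝ, -(4 * U) ≤ a → a ≤ b → b ≤ 4 * U →
      ∫ x in a..b, ‖riemannZeta (1 / 2 + x * I)‖ ^ 2 ≤ C * U ^ ε' * ((b - a) + U ^ (1 / 2 : ℝ)))
    {C1 : ℝ} (hC1 : η ≤ C1 * U ^ ε')
    (hab : a ≤ b) (hM : b - a ≤ M) (hM2 : U ^ (1 / 2 : ℝ) ≤ M) (h1 : -(4 * U) ≤ s + a) (h2 : s + b ≤ 4 * U) :
    ∫⁻ x in Set.Icc a b, ENNReal.ofReal (‖riemannZeta (1 / 2 + ((s + x : ℝ) : ℂ) * I)‖ ^ 2 + η) ≤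
      ENNReal.ofReal ((2 * C + C1) * U ^ ε' * M) := by
  have hcont : Continuous (fun x : ℝ => ‖riemannZeta (1 / 2 + ((s + x : ℝ) : ℂ) * I)‖ ^ 2 + η) := by
    have := zeta_half_continuous.comp (continuous_const.add continuous_id : Continuous (fun x : ℝ => s + x))
    exact (this.norm.pow 2).add continuous_const
  rw [← ofReal_integral_eq_lintegral_ofReal (hcont.integrableOn_Icc)
    (Filter.Eventually.of_forall fun x => by positivity)]
  refine ENNReal.ofReal_le_ofReal ?_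
  rw [integral_Icc_eq_integral_Ioc, ← intervalIntegral.integral_of_le hab]
  have hc2 : Continuous (fun x : ℝ => ‖riemannZeta (1 / 2 + ((s + x : ℝ) : ℂ) * I)‖ ^ 2) := by
    have := zeta_half_continuous.comp (continuous_const.add continuous_id : Continuous (fun x : ℝ => s + x))
    exact (this.norm.pow 2)
  rw [intervalIntegral.integral_add (hc2.intervalIntegrable _ _) (continuous_const.intervalIntegrable _ _)]
  have h3 := intervalIntegral.integral_comp_add_left (a := a) (b := b)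
    (fun x : ℝ => ‖riemannZeta (1 / 2 + (x : ℂ) * I)‖ ^ 2) s
  rw [h3, intervalIntegral.integral_const, smul_eq_mul]
  have h4 := hsm (s + a) (s + b) h1 (by linarith) h2
  have hUp : 0 < U ^ ε' := Real.rpow_pos_of_pos (by linarith) _
  have hM0 : 0 ≤ M := (Real.rpow_nonneg (by linarith) _).trans hM2
  calc _ ≤ C * U ^ ε' * ((s + b - (s + a)) + U ^ (1 / 2 : ℝ)) + M * (C1 * U ^ ε') :=
        add_le_add h4 (mul_le_mul hM hC1 hη hM0)
    _ ≤ C * U ^ ε' * (M + M) + M * (C1 * U ^ ε') := by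
        refine add_le_add_left (mul_le_mul_of_nonneg_left ?_ (by positivity)) _
        linarith
    _ = _ := by ring

theorem e1_prod_ite (n : ℕ) (j : Fin (n + 1)) (a b : ℝ) :
    ∏ i : Fin (n + 1), (if i = j then a else b) = a * b ^ n := by
  rw [← Finset.mul_prod_erase Finset.univ _ (Finset.mem_univ j)]
  rw [if_pos rfl]
  congr 1
  rw [Finset.prod_congr rfl (g := fun _ => b) (fun i hi => if_neg (Finset.ne_of_mem_erase hi))]
  simp [Finset.card_erase_of_mem]

theorem e1 (n : ℕ) (ε : ℝ) (hε : 0 < ε) : ∃ C : ℝ, 0 < C ∧ ∀ U V H : ℝ, 1 ≤ U →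
    0 ≤ V → V ≤ U → U ^ (1 / 2 : ℝ) ≤ H → H ≤ U → ∀ α₀ : ℝ, U ≤ α₀ → α₀ ≤ 2 * U → ∀ β : Fin n → ℝ,
    (∀ j, U ≤ β j) → (∀ j, β j ≤ 2 * U) →
    ∫⁻ α in Set.Icc β (fun j => β j + H),
      ‖∫ t in (0:ℝ)..V, (((∏ j, ‖riemannZeta (1 / 2 +
          ((t + (Fin.cons α₀ α : Fin (n + 1) → ℝ) j : ℝ) : ℂ) * I)‖ ^ 2 : ℝ) : ℂ) -
        ∏ j, Fd (t + (Fin.cons α₀ α : Fin (n + 1) → ℝ) j))‖ₑ ≤
      ENNReal.ofReal (C * U ^ (1 / 2 + ε) * H ^ n) := by
  set ε' : ℝ := min (ε / (n + 1)) (1 / 2) with hε'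
  have hn : (0 : ℝ) < n + 1 := by positivity
  have hε'0 : 0 < ε' := lt_min (by positivity) (by norm_num)
  have hε'1 : ε' ≤ 1 / 2 := min_le_right _ _
  have hε'2 : (n + 1) * ε' ≤ ε := by
    have := min_le_left (ε / (n + 1)) (1 / 2 : ℝ)
    calc (n + 1) * ε' ≤ (n + 1) * (ε / (n + 1)) := mul_le_mul_of_nonneg_left this hn.le
      _ = ε := by field_simp
  obtain ⟨C1, hC1, hafe⟩ := afe ε' hε'0
  obtain ⟨C2, hC2, hsm⟩ := second_moment ε' hε'0
  refine ⟨(n + 1) * C1 * (2 * C2 + C1) ^ n * 1, by positivity, ?_⟩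
  intro U V H hU hV hVU hUH hHU α₀ hα₀ hα₀' β hβ hβ'
  have hU0 : 0 < U := by linarith
  set η : ℝ := C1 * U ^ (-(1 / 2) + ε') with hη
  have hη0 : 0 ≤ η := by positivity
  set D : ℝ := 2 * C2 + C1 with hD
  have hη1 : η ≤ C1 * U ^ ε' := by
    refine mul_le_mul_of_nonneg_left (Real.rpow_le_rpow_of_exponent_le hU (by linarith)) hC1.le
  have hH0 : 0 ≤ H := (Real.rpow_nonneg hU0.le _).trans hUH
  have hUU : U ^ (1 / 2 : ℝ) ≤ U := by
    calc U ^ (1 / 2 : ℝ) ≤ U ^ (1 : ℝ) := Real.rpow_le_rpow_of_exponent_le hU (by norm_num)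
      _ = U := Real.rpow_one U
  set g : ℝ → ENNReal := fun x => ENNReal.ofReal (‖riemannZeta (1 / 2 + ((x : ℝ) : ℂ) * I)‖ ^ 2 + η) with hg
  have hgm : Measurable g := by
    have := (zeta_half_continuous.norm.pow 2).add (continuous_const (y := η))
    exact this.measurable.ennreal_ofReal
  set G : Fin (n + 1) → Fin (n + 1) → ℝ → ENNReal := fun j i x => if i = j then ENNReal.ofReal η else g x with hG
  have hGm : ∀ j i, Measurable (G j i) := by
    intro j i
    simp only [hG]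
    split_ifs
    · exact measurable_const
    · exact hgm
  set M : Fin (n + 1) → Fin (n + 1) → ℝ := fun j i => if i = j then η else D * U ^ ε' with hM
  have hM0 : ∀ j i, 0 ≤ M j i := by
    intro j i
    simp only [hM]
    split_ifs <;> positivity
  -- integral of one factor
  have hone : ∀ (j i : Fin (n + 1)) (s a b L : ℝ), a ≤ b → b - a ≤ L → U ^ (1 / 2 : ℝ) ≤ L → -(4 * U) ≤ s + a →
      s + b ≤ 4 * U → ∫⁻ x in Set.Icc a b, G j i (s + x) ≤ ENNReal.ofReal (M j i * L) := by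
    intro j i s a b L hab hL hL2 h1 h2
    by_cases hij : i = j
    · simp only [hG, hM, if_pos hij]
      rw [setLIntegral_const, Real.volume_Icc, ← ENNReal.ofReal_mul hη0]
      exact ENNReal.ofReal_le_ofReal (mul_le_mul_of_nonneg_left hL hη0)
    · simp only [hG, hM, if_neg hij, hg]
      exact e1_lint_le hU hη0 hC2 (fun a b h1 h2 h3 => hsm U a b hU h1 h2 h3) hη1 hab hL hL2 h1 h2
  have hbox : Set.Icc β (fun j => β j + H) = Set.pi Set.univ (fun i => Set.Icc (β i) (β i + H)) :=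
    (Set.pi_univ_Icc _ _).symm
  have hvol : (volume : Measure (Fin n → ℝ)).restrict (Set.Icc β (fun j => β j + H)) =
      Measure.pi (fun i => volume.restrict (Set.Icc (β i) (β i + H))) := by
    rw [hbox, volume_pi, Measure.restrict_pi_pi]
  have hm1 : ∀ (j : Fin (n + 1)) (t : ℝ), Measurable (fun α : Fin n → ℝ => ∏ i : Fin n, G j i.succ (t + α i)) :=
    fun j t => Finset.measurable_fun_prod _ fun i _ => (hGm _ _).comp (measurable_const.add (measurable_pi_apply i))
  have hm2 : ∀ j : Fin (n + 1), Measurable (fun t : ℝ => G j 0 (t + α₀)) :=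
    fun j => (hGm _ _).comp (measurable_id.add_const _)
  have hpt : ∀ α ∈ Set.Icc β (fun j => β j + H), ∀ t ∈ Set.Icc (0 : ℝ) V,
      ‖(((∏ j, ‖riemannZeta (1 / 2 +
          ((t + (Fin.cons α₀ α : Fin (n + 1) → ℝ) j : ℝ) : ℂ) * I)‖ ^ 2 : ℝ) : ℂ) -
        ∏ j, Fd (t + (Fin.cons α₀ α : Fin (n + 1) → ℝ) j))‖ₑ ≤
      ∑ j, G j 0 (t + α₀) * ∏ i : Fin n, G j i.succ (t + α i) := by
    intro α hα t ht
    have hx : ∀ j, 1 ≤ t + (Fin.cons α₀ α : Fin (n + 1) → ℝ) j ∧ U ≤ t + (Fin.cons α₀ α : Fin (n + 1) → ℝ) j := by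
      intro j
      have : U ≤ t + (Fin.cons α₀ α : Fin (n + 1) → ℝ) j := by
        refine Fin.cases ?_ (fun i => ?_) j
        · simp only [Fin.cons_zero]
          linarith [ht.1]
        · simp only [Fin.cons_succ]
          linarith [ht.1, hα.1 i, hβ i]
      exact ⟨hU.trans this, this⟩
    have hb := e1_prod_diff (n + 1)
      (fun j => ((‖riemannZeta (1 / 2 + ((t + (Fin.cons α₀ α : Fin (n + 1) → ℝ) j : ℝ) : ℂ) * I)‖ ^ 2 : ℝ) : ℂ))
      (fun j => Fd (t + (Fin.cons α₀ α : Fin (n + 1) → ℝ) j))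
      (fun j => ‖riemannZeta (1 / 2 + ((t + (Fin.cons α₀ α : Fin (n + 1) → ℝ) j : ℝ) : ℂ) * I)‖ ^ 2) hη0
      (fun j => by rw [Complex.norm_real, Real.norm_of_nonneg (by positivity)])
      (fun j => by
        refine (hafe _ (hx j).1).trans ?_
        refine mul_le_mul_of_nonneg_left ?_ hC1.le
        exact Real.rpow_le_rpow_of_nonpos hU0 (hx j).2 (by linarith))
    rw [← ofReal_norm]
    rw [Complex.ofReal_prod]
    refine (ENNReal.ofReal_le_ofReal hb).trans ?_
    rw [ENNReal.ofReal_sum_of_nonneg]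
    swap
    · intro j _
      refine Finset.prod_nonneg fun i _ => ?_
      split_ifs <;> positivity
    refine le_of_eq (Finset.sum_congr rfl fun j _ => ?_)
    rw [ENNReal.ofReal_prod_of_nonneg]
    swap
    · intro i _
      split_ifs <;> positivity
    rw [Fin.prod_univ_succ]
    congr 1
    · simp only [hG, hg, Fin.cons_zero]
      split_ifs <;> rfl
    · refine Finset.prod_congr rfl fun i _ => ?_
      simp only [hG, hg, Fin.cons_succ]
      split_ifs <;> rfl
  calc ∫⁻ α in Set.Icc β (fun j => β j + H),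
      ‖∫ t in (0:ℝ)..V, (((∏ j, ‖riemannZeta (1 / 2 +
          ((t + (Fin.cons α₀ α : Fin (n + 1) → ℝ) j : ℝ) : ℂ) * I)‖ ^ 2 : ℝ) : ℂ) -
        ∏ j, Fd (t + (Fin.cons α₀ α : Fin (n + 1) → ℝ) j))‖ₑ 
      ≤ ∫⁻ α in Set.Icc β (fun j => β j + H), ∫⁻ t in Set.Icc 0 V,
          ∑ j, G j 0 (t + α₀) * ∏ i : Fin n, G j i.succ (t + α i) := by
        refine setLIntegral_mono' measurableSet_Icc fun α hα => ?_
        rw [intervalIntegral.integral_of_le hV, ← integral_Icc_eq_integral_Ioc]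
        refine (enorm_integral_le_lintegral_enorm _).trans ?_
        exact setLIntegral_mono' measurableSet_Icc fun t ht => hpt α hα t ht
    _ = ∫⁻ t in Set.Icc 0 V, ∫⁻ α in Set.Icc β (fun j => β j + H), 
          ∑ j, G j 0 (t + α₀) * ∏ i : Fin n, G j i.succ (t + α i) := by
        refine lintegral_lintegral_swap ?_
        refine Measurable.aemeasurable ?_
        refine Finset.measurable_sum _ fun j _ => ?_
        refine Measurable.mul ?_ (Finset.measurable_prod _ fun i _ => ?_)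
        · exact (hGm _ _).comp (measurable_snd.add_const _)
        · exact (hGm _ _).comp (measurable_snd.add ((measurable_pi_apply i).comp measurable_fst))
    _ ≤ ∫⁻ t in Set.Icc 0 V, ∑ j, G j 0 (t + α₀) * ∏ i : Fin n, ENNReal.ofReal (M j i.succ * H) := by
        refine setLIntegral_mono' measurableSet_Icc fun t ht => ?_
        rw [hvol, lintegral_finsetSum _ (fun j _ => (hm1 j t).const_mul _)]
        refine Finset.sum_le_sum fun j _ => ?_
        rw [lintegral_const_mul _ (hm1 j t)]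
        refine mul_le_mul' le_rfl ?_
        rw [e1_lint_prod n _ (fun i x => G j i.succ (t + x)) (fun i => (hGm _ _).comp (measurable_const.add measurable_id))]
        refine Finset.prod_le_prod' fun i _ => ?_
        refine hone j i.succ t _ _ H (by linarith) (by linarith) hUH ?_ ?_
        · linarith [ht.1, hβ i]
        · linarith [ht.2, hβ' i]
    _ ≤ ∑ j : Fin (n + 1), ENNReal.ofReal (M j 0 * U) * ∏ i : Fin n, ENNReal.ofReal (M j i.succ * H) := by
        rw [lintegral_finsetSum _ (fun j _ => (hm2 j).mul_const _)]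
        refine Finset.sum_le_sum fun j _ => ?_
        rw [lintegral_mul_const _ (hm2 j)]
        refine mul_le_mul' ?_ le_rfl
        have h5 := hone j 0 α₀ 0 V U hV (by linarith) hUU (by linarith) (by linarith)
        simpa only [add_comm] using h5
    _ = ∑ j : Fin (n + 1), ENNReal.ofReal (η * (D * U ^ ε') ^ n * (U * H ^ n)) := by
        refine Finset.sum_congr rfl fun j _ => ?_
        rw [← ENNReal.ofReal_prod_of_nonneg (fun i _ => mul_nonneg (hM0 _ _) hH0),
          ← ENNReal.ofReal_mul (mul_nonneg (hM0 _ _) hU0.le)]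
        congr 1
        rw [Finset.prod_mul_distrib, ← e1_prod_ite n j η (D * U ^ ε'), Fin.prod_univ_succ]
        simp only [Finset.prod_const, Finset.card_univ, Fintype.card_fin, hM]
        ring
    _ = ENNReal.ofReal ((n + 1) * (η * (D * U ^ ε') ^ n * (U * H ^ n))) := by
        rw [Finset.sum_const, Finset.card_univ, Fintype.card_fin, nsmul_eq_mul,
          ENNReal.ofReal_mul hn.le]
        congr 1
        rw [ENNReal.ofReal_add (by positivity) zero_le_one]
        simp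
    _ ≤ _ := by
        refine ENNReal.ofReal_le_ofReal ?_
        have e1 : U ^ (-(1 / 2) + ε') * (U ^ ε') ^ n * U = U ^ (1 / 2 + (n + 1) * ε') := by
          rw [← Real.rpow_natCast, ← Real.rpow_mul hU0.le, ← Real.rpow_add hU0]
          nth_rewrite 2 [← Real.rpow_one U]
          rw [← Real.rpow_add hU0]
          congr 1
          ring
        have e2 : U ^ (1 / 2 + (n + 1) * ε') ≤ U ^ (1 / 2 + ε) :=
          Real.rpow_le_rpow_of_exponent_le hU (by linarith)
        have e3 : (n + 1) * (η * (D * U ^ ε') ^ n * (U * H ^ n)) =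
            ((n + 1) * C1 * D ^ n) * (U ^ (-(1 / 2) + ε') * (U ^ ε') ^ n * U) * H ^ n := by
          rw [hη, mul_pow]
          ring
        rw [e3, e1, mul_one]
        have hC : 0 ≤ (n + 1) * C1 * D ^ n := by positivity
        exact mul_le_mul_of_nonneg_right (mul_le_mul_of_nonneg_left e2 hC) (by positivity)

end Pool.Agent.P07318s
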