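import Pool.Agent.Lib.P07318s.Defs
import Pool.Agent.Lib.P07318s.R1
import Pool.Agent.Lib.P07318s.E1
import Pool.Agent.Lib.P07318s.Cont

/-!
Chebyshev. On the box `∫ (∏‖ζ‖² - Dg) = ∫ (∏‖ζ‖² - ∏Fd) + ∫ (∏Fd - Dg)` (all continuous in `t`). If the sum exceeds
`2 A` with `A = T^(1/2+ε) (T/H)^(n/2)` then one of the two exceeds `A`. First: `r1` (with `U = T`, small `δ`) and
`mul_meas_ge_le_lintegral` (square): measure `≤ C T^((n+1)(1+3δ)) / A² = C H^n T^(3δ(n+1) - 2ε)`. Second: `e1` with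
`ε/2`: measure `≤ C T^(1/2+ε/2) H^n / T^(1/2+ε)` since `A ≥ T^(1/2+ε)`. Choose `3δ(n+1) ≤ ε`, `η = ε/2`.
(Outer measure inequality is enough, no measurability of the bad set is needed if you bound it by the union of
the two super-level sets of measurable functions, or use `meas_ge_le_lintegral_div` for `AEMeasurable` functions.)
-/

set_option autoImplicit false

namespace Pool.Agent.P07318s

open MeasureTheory Complex

namespace FD

theorem cons_cont (n : ℕ) (α₀ : ℝ) : Continuous fun z : (Fin n → ℝ) × ℝ =>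
    (fun j => z.2 + (Fin.cons α₀ z.1 : Fin (n + 1) → ℝ) j) := by
  refine continuous_pi fun j => ?_
  refine Fin.cases ?_ (fun i => ?_) j
  · simp only [Fin.cons_zero]
    fun_prop
  · simp only [Fin.cons_succ]
    fun_prop

theorem cons_pos {n : ℕ} {α₀ : ℝ} (h0 : 0 < α₀) {α : Fin n → ℝ} (hα : ∀ j, 0 < α j) {t : ℝ}
    (ht : 0 ≤ t) (j : Fin (n + 1)) : 0 < t + (Fin.cons α₀ α : Fin (n + 1) → ℝ) j := by
  refine Fin.cases ?_ (fun i => ?_) j
  · simp only [Fin.cons_zero]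
    linarith
  · simp only [Fin.cons_succ]
    have := hα i
    linarith

theorem int_of_cont {n : ℕ} {G : (Fin (n + 1) → ℝ) → ℂ} (hG : ContinuousOn G {x | ∀ j, 0 < x j})
    {α₀ : ℝ} (h0 : 0 < α₀) {α : Fin n → ℝ} (hα : ∀ j, 0 < α j) {V : ℝ} (hV : 0 ≤ V) :
    IntervalIntegrable (fun t => G (fun j => t + (Fin.cons α₀ α : Fin (n + 1) → ℝ) j))
      volume 0 V := by
  apply ContinuousOn.intervalIntegrable
  rw [Set.uIcc_of_le hV]
  have h1 : Continuous fun t : ℝ => (fun j => t + (Fin.cons α₀ α : Fin (n + 1) → ℝ) j) :=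
    (cons_cont n α₀).comp (Continuous.prodMk continuous_const continuous_id)
  exact hG.comp h1.continuousOn fun t ht => cons_pos h0 hα ht.1

theorem meas_of_cont {n : ℕ} {G : (Fin (n + 1) → ℝ) → ℂ} (hG : ContinuousOn G {x | ∀ j, 0 < x j})
    {α₀ : ℝ} (h0 : 0 < α₀) {S : Set (Fin n → ℝ)} (hS : MeasurableSet S)
    (hα : ∀ α ∈ S, ∀ j, 0 < α j) {V : ℝ} (hV : 0 ≤ V) :
    AEStronglyMeasurable (fun α : Fin n → ℝ =>
      ∫ t in (0:ℝ)..V, G (fun j => t + (Fin.cons α₀ α : Fin (n + 1) → ℝ) j))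
      (volume.restrict S) := by
  have h2 : AEStronglyMeasurable (fun z : (Fin n → ℝ) × ℝ =>
      G (fun j => z.2 + (Fin.cons α₀ z.1 : Fin (n + 1) → ℝ) j))
      ((volume.restrict S).prod (volume.restrict (Set.Ioc 0 V))) := by
    rw [Measure.prod_restrict]
    apply ContinuousOn.aestronglyMeasurable _ (hS.prod measurableSet_Ioc)
    exact hG.comp (cons_cont n α₀).continuousOn fun z hz =>
      cons_pos h0 (hα _ hz.1) hz.2.1.le
  have h3 := h2.integral_prod_right'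
  simp_rw [intervalIntegral.integral_of_le hV]
  exact h3

theorem markov1 {X : Type*} [MeasurableSpace X] {μ : Measure X} {f : X → ℂ}
    (hf : AEStronglyMeasurable f μ) {a K : ℝ} (ha : 0 < a)
    (h : ∫⁻ x, ‖f x‖ₑ ∂μ ≤ ENNReal.ofReal K) :
    μ {x | a < ‖f x‖} ≤ ENNReal.ofReal (K / a) := by
  have h1 : μ {x | a < ‖f x‖} ≤ μ {x | ENNReal.ofReal a ≤ ‖f x‖ₑ} := by
    refine measure_mono fun x hx => ?_
    simp only [Set.mem_ofPred_eq] at hx ⊢
    rw [← ofReal_norm]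
    exact ENNReal.ofReal_le_ofReal hx.le
  refine h1.trans ?_
  refine (meas_ge_le_lintegral_div hf.enorm (by simpa using ha) ENNReal.ofReal_ne_top).trans ?_
  rw [ENNReal.ofReal_div_of_pos ha]
  exact ENNReal.div_le_div_right h _

theorem markov2 {X : Type*} [MeasurableSpace X] {μ : Measure X} {f : X → ℂ}
    (hf : AEStronglyMeasurable f μ) {a K : ℝ} (ha : 0 < a)
    (h : ∫⁻ x, ‖f x‖ₑ ^ 2 ∂μ ≤ ENNReal.ofReal K) :
    μ {x | a < ‖f x‖} ≤ ENNReal.ofReal (K / a ^ 2) := by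
  have h1 : μ {x | a < ‖f x‖} ≤ μ {x | ENNReal.ofReal (a ^ 2) ≤ ‖f x‖ₑ ^ 2} := by
    refine measure_mono fun x hx => ?_
    simp only [Set.mem_ofPred_eq] at hx ⊢
    rw [← ofReal_norm, ENNReal.ofReal_pow ha.le]
    exact pow_le_pow_left₀ zero_le (ENNReal.ofReal_le_ofReal hx.le) 2
  refine h1.trans ?_
  have ha2 : 0 < a ^ 2 := by positivity
  refine (meas_ge_le_lintegral_div (hf.enorm.pow_const 2) (by simpa using ha.ne')
    ENNReal.ofReal_ne_top).trans ?_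
  rw [ENNReal.ofReal_div_of_pos ha2]
  exact ENNReal.div_le_div_right h _

/-- product of the second powers -/
noncomputable def ZZ {k : ℕ} (x : Fin k → ℝ) : ℂ :=
  ((∏ j, ‖riemannZeta (1 / 2 + ((x j : ℝ) : ℂ) * I)‖ ^ 2 : ℝ) : ℂ)

theorem zeta_cont : Continuous fun x : ℝ => riemannZeta (1 / 2 + (x : ℂ) * I) := by
  rw [continuous_iff_continuousAt]
  intro x
  have h1 : (1 / 2 + (x : ℂ) * I) ≠ 1 := by
    intro h
    have := congrArg Complex.re h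
    norm_num at this
  have h2 : ContinuousAt riemannZeta (1 / 2 + (x : ℂ) * I) :=
    (differentiableAt_riemannZeta h1).continuousAt
  have h3 : ContinuousAt (fun x : ℝ => 1 / 2 + (x : ℂ) * I) x := by fun_prop
  exact ContinuousAt.comp (f := fun x : ℝ => 1 / 2 + (x : ℂ) * I) h2 h3

theorem ZZ_cont (k : ℕ) : Continuous (ZZ (k := k)) := by
  unfold ZZ
  refine Complex.continuous_ofReal.comp ?_
  refine continuous_finsetProd _ fun j _ => ?_
  exact ((zeta_cont.comp (continuous_apply j)).norm).pow 2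

theorem PF_cont (k : ℕ) : ContinuousOn (fun x : Fin k → ℝ => ∏ j, Fd (x j)) {x | ∀ j, 0 < x j} := by
  refine continuousOn_finsetProd _ fun j _ => ?_
  exact Fd_continuousOn.comp (continuous_apply j).continuousOn fun x hx => hx j

end FD

open FD in
theorem final_diag (n : ℕ) (ε : ℝ) (hε : 0 < ε) : ∃ C η : ℝ, 0 < C ∧ 0 < η ∧ ∀ T V H : ℝ, 1 ≤ T →
    0 ≤ V → V ≤ T → T ^ (1 / 2 : ℝ) ≤ H → H ≤ T → ∀ α₀ : ℝ, T ≤ α₀ → α₀ ≤ 2 * T → ∀ β : Fin n → ℝ,
    (∀ j, T ≤ β j) → (∀ j, β j ≤ 2 * T) →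
    volume {α ∈ Set.Icc β (fun j => β j + H) | C * T ^ (1 / 2 + ε) * (T / H) ^ ((n : ℝ) / 2) <
      ‖∫ t in (0:ℝ)..V, (((∏ j, ‖riemannZeta (1 / 2 +
          ((t + (Fin.cons α₀ α : Fin (n + 1) → ℝ) j : ℝ) : ℂ) * I)‖ ^ 2 : ℝ) : ℂ) -
        Dg (fun j => t + (Fin.cons α₀ α : Fin (n + 1) → ℝ) j))‖} ≤
      ENNReal.ofReal (C * H ^ n * T ^ (-η)) := by
  have hn : (0 : ℝ) < (n : ℝ) + 1 := by positivity
  set δ : ℝ := min (1 / 2) (ε / (3 * ((n : ℝ) + 1))) with hδ_def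
  have hδ : 0 < δ := lt_min (by norm_num) (by positivity)
  have hδ2 : δ ≤ 1 / 2 := min_le_left _ _
  have hδ3 : 3 * δ * ((n : ℝ) + 1) ≤ ε := by
    have h := min_le_right (1 / 2 : ℝ) (ε / (3 * ((n : ℝ) + 1)))
    rw [← hδ_def, le_div_iff₀ (by positivity)] at h
    linarith
  obtain ⟨C₂, hC₂, hr1⟩ := r1 n δ hδ hδ2
  obtain ⟨C₁, hC₁, he1⟩ := e1 n (ε / 2) (by positivity)
  refine ⟨2 + C₁ + C₂, ε / 2, by positivity, by positivity, ?_⟩
  intro T V H hT hV hVT hTH hHT α₀ hα₀ hα₀' β hβ hβ'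
  have hT0 : 0 < T := by linarith
  have hTh : (1 : ℝ) ≤ T ^ (1 / 2 : ℝ) := Real.one_le_rpow hT (by norm_num)
  have hH0 : 0 < H := by linarith
  set S : Set (Fin n → ℝ) := Set.Icc β (fun j => β j + H) with hS_def
  have hSm : MeasurableSet S := measurableSet_Icc
  have hSpos : ∀ α ∈ S, ∀ j, 0 < α j := by
    intro α hα j
    have := hα.1 j
    have := hβ j
    linarith
  have h0 : 0 < α₀ := by linarith
  set G₁ : (Fin (n + 1) → ℝ) → ℂ := fun x => ZZ x - ∏ j, Fd (x j) with hG₁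
  set G₂ : (Fin (n + 1) → ℝ) → ℂ := fun x => (∏ j, Fd (x j)) - Dg x with hG₂
  have hc₁ : ContinuousOn G₁ {x | ∀ j, 0 < x j} := (ZZ_cont _).continuousOn.sub (PF_cont _)
  have hc₂ : ContinuousOn G₂ {x | ∀ j, 0 < x j} := (PF_cont _).sub (Dg_continuousOn _)
  set F₁ : (Fin n → ℝ) → ℂ := fun α =>
    ∫ t in (0:ℝ)..V, G₁ (fun j => t + (Fin.cons α₀ α : Fin (n + 1) → ℝ) j) with hF₁
  set F₂ : (Fin n → ℝ) → ℂ := fun α =>
    ∫ t in (0:ℝ)..V, G₂ (fun j => t + (Fin.cons α₀ α : Fin (n + 1) → ℝ) j) with hF₂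
  have hm₁ : AEStronglyMeasurable F₁ (volume.restrict S) := meas_of_cont hc₁ h0 hSm hSpos hV
  have hm₂ : AEStronglyMeasurable F₂ (volume.restrict S) := meas_of_cont hc₂ h0 hSm hSpos hV
  have hsum : ∀ α ∈ S, ∫ t in (0:ℝ)..V, (((∏ j, ‖riemannZeta (1 / 2 +
          ((t + (Fin.cons α₀ α : Fin (n + 1) → ℝ) j : ℝ) : ℂ) * I)‖ ^ 2 : ℝ) : ℂ) -
        Dg (fun j => t + (Fin.cons α₀ α : Fin (n + 1) → ℝ) j)) = F₁ α + F₂ α := by
    intro α hα
    rw [hF₁, hF₂]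
    simp only
    rw [← intervalIntegral.integral_add (int_of_cont hc₁ h0 (hSpos α hα) hV)
      (int_of_cont hc₂ h0 (hSpos α hα) hV)]
    congr 1
    funext t
    rw [hG₁, hG₂]
    simp only [ZZ]
    ring
  set A : ℝ := T ^ (1 / 2 + ε) * (T / H) ^ ((n : ℝ) / 2) with hA
  have hTH1 : 1 ≤ T / H := (one_le_div hH0).2 hHT
  have hq : 1 ≤ (T / H) ^ ((n : ℝ) / 2) := Real.one_le_rpow hTH1 (by positivity)
  have hTe : 0 < T ^ (1 / 2 + ε) := Real.rpow_pos_of_pos hT0 _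
  have hA0 : 0 < A := by positivity
  have hAT : T ^ (1 / 2 + ε) ≤ A := by
    rw [hA]
    nlinarith
  have b₁ : (volume.restrict S) {α | A < ‖F₁ α‖} ≤ ENNReal.ofReal (C₁ * H ^ n * T ^ (-(ε / 2))) := by
    refine (markov1 hm₁ hA0 (he1 T V H hT hV hVT hTH hHT α₀ hα₀ hα₀' β hβ hβ')).trans ?_
    apply ENNReal.ofReal_le_ofReal
    have e : T ^ (1 / 2 + ε / 2) = T ^ (-(ε / 2)) * T ^ (1 / 2 + ε) := by
      rw [← Real.rpow_add hT0]
      congr 1
      ring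
    rw [div_le_iff₀ hA0, e]
    have h3 : 0 ≤ C₁ * H ^ n * T ^ (-(ε / 2)) := by positivity
    nlinarith
  have b₂ : (volume.restrict S) {α | A < ‖F₂ α‖} ≤ ENNReal.ofReal (C₂ * H ^ n * T ^ (-(ε / 2))) := by
    refine (markov2 hm₂ hA0 (hr1 T V H hT hV hVT hH0.le hHT α₀ hα₀ (by linarith) β hβ hβ')).trans ?_
    apply ENNReal.ofReal_le_ofReal
    have hA2 : A ^ 2 = T ^ (1 + 2 * ε + n) / H ^ n := by
      rw [hA, mul_pow, ← Real.rpow_natCast (T ^ (1 / 2 + ε)) 2, ← Real.rpow_mul hT0.le,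
        ← Real.rpow_natCast ((T / H) ^ ((n : ℝ) / 2)) 2, ← Real.rpow_mul (by positivity)]
      have e1 : (n : ℝ) / 2 * ((2 : ℕ) : ℝ) = n := by push_cast; ring
      have e2 : (1 / 2 + ε) * ((2 : ℕ) : ℝ) = 1 + 2 * ε := by push_cast; ring
      rw [e1, e2, Real.rpow_natCast, div_pow, Real.rpow_add hT0 (1 + 2 * ε), Real.rpow_natCast]
      ring
    rw [div_le_iff₀ (by positivity), hA2]
    have hHn : 0 < H ^ n := by positivity
    have e3 : C₂ * H ^ n * T ^ (-(ε / 2)) * (T ^ (1 + 2 * ε + n) / H ^ n) =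
        C₂ * T ^ (-(ε / 2) + (1 + 2 * ε + n)) := by
      rw [Real.rpow_add hT0 (-(ε / 2))]
      field_simp
    rw [e3]
    refine mul_le_mul_of_nonneg_left ?_ hC₂.le
    apply Real.rpow_le_rpow_of_exponent_le hT
    nlinarith
  have hsub : {α ∈ S | (2 + C₁ + C₂) * T ^ (1 / 2 + ε) * (T / H) ^ ((n : ℝ) / 2) <
      ‖∫ t in (0:ℝ)..V, (((∏ j, ‖riemannZeta (1 / 2 +
          ((t + (Fin.cons α₀ α : Fin (n + 1) → ℝ) j : ℝ) : ℂ) * I)‖ ^ 2 : ℝ) : ℂ) -
        Dg (fun j => t + (Fin.cons α₀ α : Fin (n + 1) → ℝ) j))‖} ⊆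
      ({α | A < ‖F₁ α‖} ∪ {α | A < ‖F₂ α‖}) ∩ S := by
    rintro α ⟨hα, hlt⟩
    rw [hsum α hα] at hlt
    refine ⟨?_, hα⟩
    by_contra hcon
    simp only [Set.mem_union, Set.mem_ofPred_eq, not_or, not_lt] at hcon
    have h5 : ‖F₁ α + F₂ α‖ ≤ 2 * A := (norm_add_le _ _).trans (by linarith [hcon.1, hcon.2])
    have h6 : 2 * A ≤ (2 + C₁ + C₂) * T ^ (1 / 2 + ε) * (T / H) ^ ((n : ℝ) / 2) := by
      rw [mul_assoc, ← hA]
      nlinarith
    linarith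
  refine (measure_mono hsub).trans ?_
  rw [← Measure.restrict_apply' hSm]
  refine (measure_union_le _ _).trans ?_
  refine (add_le_add b₁ b₂).trans ?_
  rw [← ENNReal.ofReal_add (by positivity) (by positivity)]
  apply ENNReal.ofReal_le_ofReal
  have h7 : 0 ≤ H ^ n * T ^ (-(ε / 2)) := by positivity
  nlinarith

end Pool.Agent.P07318s
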