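import Pool.Agent.Lib.P07318s.Defs
import Pool.Agent.Lib.P07318s.EulerA

/-!
Continuity of the main term in the heights away from coinciding heights. The integrand on the torus `|w_j| = 1/8`
is jointly continuous in `(x, w)`: `AX_continuousOn_prod` (choose `e = 1/4`, `ρ = 3/16`... any parameters with
`Re w ≥ -1/8 > -ρ` and `-1/2 + e < -1/8`, `ρ < e`, `e + ρ ≤ 1/2`), the zeta factors
`ζ(1 + w_i + w_j + i (x_i - x_j))` have argument `≠ 1` (for `i = j` since `w_i ≠ 0`; for `i ≠ j` since
`|Im (w_i + w_j)| ≤ 1/4 < |x_i - x_j|`), `GX_eq`, and `(x_j/2π)^(w_j)` is continuous for `x_j > 0`. Then the integral over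
the compact torus is continuous (`torusIntegral` unfolds to a set integral over `Icc 0 2π`;
`continuousOn_integral..` / dominated convergence, or `ContinuousOn.parametric`-style with compactness).
-/

set_option autoImplicit false

namespace Pool.Agent.P07318s

open MeasureTheory Complex

namespace MCont

/-- the set of admissible heights -/
def SS (k : ℕ) : Set (Fin k → ℝ) := {x | (∀ j, 0 < x j) ∧ ∀ i j, i ≠ j → 1 < |x i - x j|}

lemma isOpen_SS (k : ℕ) : IsOpen (SS k) := by
  have h1 : IsOpen {x : Fin k → ℝ | ∀ j, 0 < x j} := by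
    rw [Set.ofPred_forall]
    exact isOpen_iInter_of_finite fun j => isOpen_lt continuous_const (continuous_apply j)
  have h2 : IsOpen {x : Fin k → ℝ | ∀ i j, i ≠ j → 1 < |x i - x j|} := by
    rw [Set.ofPred_forall]
    refine isOpen_iInter_of_finite fun i => ?_
    rw [Set.ofPred_forall]
    refine isOpen_iInter_of_finite fun j => ?_
    by_cases hij : i = j
    · simp [hij]
    · simp only [ne_eq, hij, not_false_eq_true, forall_const]
      exact isOpen_lt continuous_const (by fun_prop)
  exact h1.inter h2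

/-- points of the torus -/
noncomputable def tt {k : ℕ} (θ : Fin k → ℝ) : Fin k → ℂ := torusMap 0 (fun _ => 1 / 8) θ

lemma tt_apply {k : ℕ} (θ : Fin k → ℝ) (j : Fin k) : tt θ j = ((1 / 8 : ℝ) : ℂ) * exp (θ j * I) := by
  unfold tt torusMap
  simp

lemma norm_tt {k : ℕ} (θ : Fin k → ℝ) (j : Fin k) : ‖tt θ j‖ = 1 / 8 := by
  rw [tt_apply, norm_mul, Complex.norm_exp_ofReal_mul_I, Complex.norm_real]
  norm_num

lemma continuous_tt (k : ℕ) : Continuous (tt (k := k)) := by
  refine continuous_pi fun j => ?_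
  simp_rw [tt_apply]
  fun_prop

lemma tt_mem {k : ℕ} (hk : k ≠ 0) (θ : Fin k → ℝ) : tt θ ∈ Rg k (1 / 4) (3 / 16) := by
  have h : ∀ j, -(1 / 8) ≤ (tt θ j).re := by
    intro j
    have h1 := Complex.abs_re_le_norm (tt θ j)
    rw [norm_tt] at h1
    exact (abs_le.1 h1).1
  refine ⟨⟨0, Nat.pos_of_ne_zero hk⟩, ?_, fun j _ => ?_⟩
  · have := h ⟨0, Nat.pos_of_ne_zero hk⟩
    linarith
  · have := h j
    linarith

lemma zarg_ne {k : ℕ} {x : Fin k → ℝ} (hx : x ∈ SS k) (θ : Fin k → ℝ) (i j : Fin k) :
    1 + tt θ i + tt θ j + ((x i - x j : ℝ) : ℂ) * I ≠ 1 := by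
  intro h
  by_cases hij : i = j
  · subst hij
    have h1 : tt θ i = 0 := by
      simp only [sub_self, Complex.ofReal_zero, zero_mul, add_zero] at h
      linear_combination h / 2
    have h2 := norm_tt θ i
    rw [h1, norm_zero] at h2
    norm_num at h2
  · have h1 := congrArg Complex.im h
    simp at h1
    have h2 := Complex.abs_im_le_norm (tt θ i)
    have h3 := Complex.abs_im_le_norm (tt θ j)
    rw [norm_tt] at h2 h3
    have h4 := hx.2 i j hij
    rw [lt_abs] at h4
    rw [abs_le] at h2 h3
    rcases h4 with h4 | h4 <;> linarith [h2.1, h2.2, h3.1, h3.2]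

/-- the integrand -/
noncomputable def HH {k : ℕ} (x : Fin k → ℝ) (θ : Fin k → ℝ) : ℂ :=
  (∏ i : Fin k, (((fun _ => 1 / 8 : Fin k → ℝ) i : ℝ) : ℂ) * exp (θ i * I) * I) •
    (GG (fun j => tt θ j + x j * I) (fun j => -tt θ j + x j * I) *
      ∏ j, (((x j / (2 * Real.pi) : ℝ) : ℂ) ^ (tt θ j) / tt θ j))

lemma mainTerm_eq {k : ℕ} (x : Fin k → ℝ) :
    mainTerm x = ((Real.pi * I) ^ k)⁻¹ *
      ∫ θ in Set.Icc (0 : Fin k → ℝ) (fun _ => 2 * Real.pi), HH x θ := rfl

lemma continuous_HH {k : ℕ} (hk : k ≠ 0) :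
    Continuous (Function.uncurry fun (x : SS k) (θ : Fin k → ℝ) => HH (x : Fin k → ℝ) θ) := by
  have hx : ∀ j, Continuous fun p : SS k × (Fin k → ℝ) => (p.1 : Fin k → ℝ) j := fun j =>
    (continuous_apply j).comp (continuous_subtype_val.comp continuous_fst)
  have ht : Continuous fun p : SS k × (Fin k → ℝ) => tt p.2 := (continuous_tt k).comp continuous_snd
  have htj : ∀ j, Continuous fun p : SS k × (Fin k → ℝ) => tt p.2 j := fun j =>
    (continuous_apply j).comp ht
  unfold Function.uncurry HH
  simp only [smul_eq_mul]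
  refine Continuous.mul ?_ (Continuous.mul ?_ ?_)
  · fun_prop
  · have e : ∀ p : SS k × (Fin k → ℝ), GG (fun j => tt p.2 j + (p.1 : Fin k → ℝ) j * I)
        (fun j => -tt p.2 j + (p.1 : Fin k → ℝ) j * I) = AX (p.1 : Fin k → ℝ) (tt p.2) *
        ∏ i, ∏ j, riemannZeta (1 + tt p.2 i + tt p.2 j +
          (((p.1 : Fin k → ℝ) i - (p.1 : Fin k → ℝ) j : ℝ) : ℂ) * I) := fun p => GX_eq _ _
    simp_rw [e]
    refine Continuous.mul ?_ ?_
    · have h := AX_continuousOn_prod k (e := 1 / 4) (ρ := 3 / 16) (by norm_num) (by norm_num)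
        (by norm_num)
      refine h.comp_continuous (f := fun p : SS k × (Fin k → ℝ) => ((p.1 : Fin k → ℝ), tt p.2))
        ((continuous_subtype_val.comp continuous_fst).prodMk ht) fun p => ?_
      exact ⟨Set.mem_univ _, tt_mem hk _⟩
    · refine continuous_finsetProd _ fun i _ => continuous_finsetProd _ fun j _ => ?_
      rw [continuous_iff_continuousAt]
      intro p
      refine ContinuousAt.comp (g := riemannZeta)
        (differentiableAt_riemannZeta (zarg_ne p.1.2 p.2 i j)).continuousAt ?_
      refine Continuous.continuousAt ?_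
      have h1 := hx i
      have h2 := hx j
      have h3 := htj i
      have h4 := htj j
      fun_prop
  · refine continuous_finsetProd _ fun j _ => ?_
    refine Continuous.div ?_ (htj j) fun p h0 => ?_
    · refine Continuous.cpow ?_ (htj j) fun p => ?_
      · have := hx j
        fun_prop
      · rw [Complex.ofReal_mem_slitPlane]
        have := p.1.2.1 j
        positivity
    · have h2 := norm_tt p.2 j
      rw [h0, norm_zero] at h2
      norm_num at h2

end MCont

open MCont in
theorem mainTerm_continuousOn (k : ℕ) :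
    ContinuousOn (fun x : Fin k → ℝ => mainTerm x) {x | (∀ j, 0 < x j) ∧ ∀ i j, i ≠ j → 1 < |x i - x j|} := by
  rcases Nat.eq_zero_or_pos k with rfl | hk
  · exact Set.subsingleton_of_subsingleton.continuousOn _
  change ContinuousOn _ (SS k)
  have : LocallyCompactSpace (SS k) := (isOpen_SS k).locallyCompactSpace
  rw [continuousOn_iff_continuous_domRestrict]
  simp_rw [Set.domRestrict_def, mainTerm_eq]
  refine continuous_const.mul ?_
  exact continuous_parametric_integral_of_continuous (continuous_HH hk.ne') isCompact_Icc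

end Pool.Agent.P07318s
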