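import Pool.Agent.Lib.P07318s.Defs
import Pool.Agent.Lib.P07318s.PiSum
import Pool.Agent.Lib.P07318s.WMellin
import Pool.Agent.Lib.P07318s.Regroup
import Pool.Agent.Lib.P07318s.EulerD2

/-!
Mellin representation of the diagonal terms. `cf x p = (1/π) ∫ exp(s²) (x/2π)^s hgt^(-1/2-s)/s dv`, `s = c+iv` (`W_eq` with
`y = 2π hgt/x`). Hence for `lam p = 0`: `∏_j cf(x_j)(p_j) ex = π^(-k) ∫_{ℝ^k} ∏_j [exp(s_j²) (x_j/2π)^(s_j)/s_j]
∏_j hgt(p_j)^(-1/2-s_j) ex(x_j)(p_j) dv` (`integral_fintype_prod_eq_prod`), sum over `p` (absolute convergence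
`euler_D2_summable c`), interchange, `euler_D2`: `Dg x = π^(-k) ∫_{ℝ^k} ∏[...] GX x (c+iv) dv`. The part of the integral outside
`[-Y, Y]^k`: some `|v_j| > Y`: `≤ k (∏ (x_j/2π)^c) S(c) (∫ e exp(-v²)/c dv)^(k-1) ∫_{|v|>Y} e exp(-v²)/c dv ≤ C U^(kc) exp(-Y²/2)`.
-/

set_option autoImplicit false

namespace Pool.Agent.P07318s

open MeasureTheory Complex

namespace DgTruncAux

/-- one factor of the kernel -/
noncomputable def EE (c x v : ℝ) : ℂ :=
  cexp (((c : ℂ) + v * I) ^ 2) *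
    (((x / (2 * Real.pi) : ℝ) : ℂ) ^ ((c : ℂ) + v * I) / ((c : ℂ) + v * I))

/-- one factor of the Dirichlet series -/
noncomputable def HH (c x : ℝ) (p : ℕ+ × ℕ+) (v : ℝ) : ℂ :=
  ((hgt p : ℝ) : ℂ) ^ (-(1 / 2 + ((c : ℂ) + v * I))) * ex x p

theorem cpow_y {h x : ℝ} (hh : 0 < h) (hx : 0 < x) (s : ℂ) :
    ((2 * Real.pi * h / x : ℝ) : ℂ) ^ (-s)
      = ((x / (2 * Real.pi) : ℝ) : ℂ) ^ s * ((h : ℝ) : ℂ) ^ (-s) := by
  have hpi := Real.pi_pos
  have e : (2 * Real.pi * h / x : ℝ) = (x / (2 * Real.pi))⁻¹ * h := by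
    field_simp
  rw [e, Complex.ofReal_mul, mul_cpow_ofReal_nonneg (by positivity) hh.le, Complex.ofReal_inv,
    inv_cpow_ofReal_nonneg (by positivity), Complex.cpow_neg, inv_inv]

theorem integrand_eq {c x : ℝ} (hx : 0 < x) (p : ℕ+ × ℕ+) (v : ℝ) :
    cexp (((c : ℂ) + v * I) ^ 2) * ((2 * Real.pi * hgt p / x : ℝ) : ℂ) ^ (-((c : ℂ) + v * I)) /
      ((c : ℂ) + v * I) * (((hgt p : ℝ) : ℂ) ^ (-(1 / 2) : ℂ) * ex x p) = EE c x v * HH c x p v := by
  have hp := hgt_pos p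
  have hp0 : ((hgt p : ℝ) : ℂ) ≠ 0 := by exact_mod_cast hp.ne'
  have e : -(1 / 2 + ((c : ℂ) + v * I)) = -(1 / 2) + -((c : ℂ) + v * I) := by ring
  rw [cpow_y hp hx, EE, HH, e, Complex.cpow_add _ _ hp0]
  generalize ((hgt p : ℝ) : ℂ) ^ (-((c : ℂ) + v * I)) = a1
  generalize ((hgt p : ℝ) : ℂ) ^ (-(1 / 2) : ℂ) = a2
  ring

theorem cf_eq {c x : ℝ} (hc : 0 < c) (hx : 0 < x) (p : ℕ+ × ℕ+) :
    (cf x p : ℂ) * ex x p = (Real.pi : ℂ)⁻¹ * ∫ v : ℝ, EE c x v * HH c x p v := by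
  have hp := hgt_pos p
  have hpi := Real.pi_pos
  have hy : 0 < 2 * Real.pi * hgt p / x := by positivity
  have h1 : ∫ v : ℝ, EE c x v * HH c x p v = (∫ v : ℝ, cexp (((c : ℂ) + v * I) ^ 2) *
      ((2 * Real.pi * hgt p / x : ℝ) : ℂ) ^ (-((c : ℂ) + v * I)) / ((c : ℂ) + v * I)) *
      (((hgt p : ℝ) : ℂ) ^ (-(1 / 2) : ℂ) * ex x p) := by
    rw [← MeasureTheory.integral_mul_const]
    refine integral_congr_ae (Filter.Eventually.of_forall fun v => ?_)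
    exact (integrand_eq hx p v).symm
  rw [h1, cf, Complex.ofReal_mul, W_eq hc hy, Complex.ofReal_cpow hp.le]
  push_cast
  ring

theorem integrable_EH {c x : ℝ} (hc : 0 < c) (hx : 0 < x) (p : ℕ+ × ℕ+) :
    Integrable (fun v : ℝ => EE c x v * HH c x p v) := by
  have hp := hgt_pos p
  have hpi := Real.pi_pos
  have hy : 0 < 2 * Real.pi * hgt p / x := by positivity
  refine ((W_integrand_integrable hc hy).mul_const
    (((hgt p : ℝ) : ℂ) ^ (-(1 / 2) : ℂ) * ex x p)).congr (Filter.Eventually.of_forall fun v => ?_)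
  exact integrand_eq hx p v

theorem integrable_EE {c x : ℝ} (hc : 0 < c) (hx : 0 < x) :
    Integrable (fun v : ℝ => EE c x v) := by
  have hpi := Real.pi_pos
  have hy : 0 < 2 * Real.pi * 1 / x := by positivity
  refine (W_integrand_integrable hc hy).congr (Filter.Eventually.of_forall fun v => ?_)
  change cexp (((c : ℂ) + v * I) ^ 2) * ((2 * Real.pi * 1 / x : ℝ) : ℂ) ^ (-((c : ℂ) + v * I)) /
      ((c : ℂ) + v * I) = EE c x v
  rw [cpow_y one_pos hx, Complex.ofReal_one, Complex.one_cpow, EE]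
  ring

theorem norm_HH (c x : ℝ) (p : ℕ+ × ℕ+) (v : ℝ) : ‖HH c x p v‖ = hgt p ^ (-(1 / 2 + c)) := by
  rw [HH, norm_mul, norm_ex, mul_one, Complex.norm_cpow_eq_rpow_re_of_pos (hgt_pos p)]
  congr 1
  simp

theorem norm_EE_le {c x U : ℝ} (hc : 0 < c) (hc1 : c ≤ 1) (hU : 1 ≤ U) (hx : 0 < x)
    (hxU : x ≤ 4 * U) (v : ℝ) :
    ‖EE c x v‖ ≤ (Real.exp 1 / c * U ^ c) * Real.exp (-v ^ 2) := by
  have hpi := Real.pi_gt_three
  have hxp : 0 < x / (2 * Real.pi) := by positivity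
  have h1 : ‖cexp (((c : ℂ) + v * I) ^ 2)‖ ≤ Real.exp 1 * Real.exp (-v ^ 2) := by
    rw [Complex.norm_exp, ← Real.exp_add]
    apply Real.exp_le_exp.2
    have e : (((c : ℂ) + v * I) ^ 2).re = c ^ 2 - v ^ 2 := by
      rw [sq, Complex.mul_re]
      simp
      ring
    rw [e]
    nlinarith
  have h2 : ‖((x / (2 * Real.pi) : ℝ) : ℂ) ^ ((c : ℂ) + v * I)‖ ≤ U ^ c := by
    rw [Complex.norm_cpow_eq_rpow_re_of_pos hxp]
    have e : ((c : ℂ) + v * I).re = c := by simp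
    rw [e]
    refine Real.rpow_le_rpow hxp.le ?_ hc.le
    rw [div_le_iff₀ (by positivity)]
    nlinarith
  have h3 : c ≤ ‖(c : ℂ) + v * I‖ := by
    have h4 := Complex.abs_re_le_norm ((c : ℂ) + v * I)
    have e : ((c : ℂ) + v * I).re = c := by simp
    rw [e, abs_of_pos hc] at h4
    exact h4
  rw [EE, norm_mul, norm_div]
  have h5 : ‖((x / (2 * Real.pi) : ℝ) : ℂ) ^ ((c : ℂ) + v * I)‖ / ‖(c : ℂ) + v * I‖ ≤ U ^ c / c :=
    div_le_div₀ (by positivity) h2 hc h3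
  calc _ ≤ (Real.exp 1 * Real.exp (-v ^ 2)) * (U ^ c / c) :=
        mul_le_mul h1 h5 (by positivity) (by positivity)
    _ = _ := by ring

open Classical in
/-- the general term -/
noncomputable def ff {k : ℕ} (c : ℝ) (x : Fin k → ℝ) (p : Fin k → ℕ+ × ℕ+) (v : Fin k → ℝ) : ℂ :=
  (∏ j, EE c (x j) (v j)) * (if lam p = 0 then ∏ j, HH c (x j) (p j) (v j) else 0)

open Classical in
/-- the majorant -/
noncomputable def aa {k : ℕ} (c : ℝ) (p : Fin k → ℕ+ × ℕ+) : ℝ :=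
  if lam p = 0 then ∏ j, (hgt (p j)) ^ (-(1 / 2 + c)) else 0

theorem aa_nonneg {k : ℕ} (c : ℝ) (p : Fin k → ℕ+ × ℕ+) : 0 ≤ aa c p := by
  unfold aa
  split_ifs
  · exact Finset.prod_nonneg fun j _ => Real.rpow_nonneg (hgt_pos _).le _
  · exact le_rfl

theorem aa_summable {k : ℕ} {c : ℝ} (hc : 0 < c) :
    Summable (fun p : Fin k → ℕ+ × ℕ+ => aa c p) := by
  have := euler_D2_summable (k := k) c hc
  unfold aa
  convert this

theorem ff_integrable {k : ℕ} {c : ℝ} (hc : 0 < c) {x : Fin k → ℝ} (hx : ∀ j, 0 < x j)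
    (p : Fin k → ℕ+ × ℕ+) : Integrable (ff c x p) := by
  by_cases h : lam p = 0
  · have e : ff c x p = fun v : Fin k → ℝ =>
        ∏ j, (fun w : ℝ => EE c (x j) w * HH c (x j) (p j) w) (v j) := by
      funext v
      rw [ff, if_pos h, ← Finset.prod_mul_distrib]
    rw [e]
    exact Integrable.fintype_prod (fun j => integrable_EH hc (hx j) (p j))
  · have e : ff c x p = fun _ => 0 := by
      funext v
      rw [ff, if_neg h, mul_zero]
    rw [e]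
    exact integrable_zero _ _ _

theorem prodEE_integrable {k : ℕ} {c : ℝ} (hc : 0 < c) {x : Fin k → ℝ} (hx : ∀ j, 0 < x j) :
    Integrable (fun v : Fin k → ℝ => ∏ j, EE c (x j) (v j)) :=
  Integrable.fintype_prod (f := fun j w => EE c (x j) w) (fun j => integrable_EE hc (hx j))

theorem norm_ff {k : ℕ} (c : ℝ) (x : Fin k → ℝ) (p : Fin k → ℕ+ × ℕ+) (v : Fin k → ℝ) :
    ‖ff c x p v‖ = aa c p * ‖∏ j, EE c (x j) (v j)‖ := by
  rw [ff, aa, norm_mul, mul_comm]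
  split_ifs with h
  · congr 1
    rw [norm_prod]
    exact Finset.prod_congr rfl fun j _ => norm_HH _ _ _ _
  · rw [norm_zero]

theorem term_eq {k : ℕ} {c : ℝ} (hc : 0 < c) {x : Fin k → ℝ} (hx : ∀ j, 0 < x j)
    (p : Fin k → ℕ+ × ℕ+) (h : lam p = 0) :
    (∏ j, ((cf (x j) (p j) : ℂ) * ex (x j) (p j))) =
      ((Real.pi : ℂ) ^ k)⁻¹ * ∫ v : Fin k → ℝ, ff c x p v := by
  have e : ∀ v : Fin k → ℝ, ff c x p v =
        ∏ j, (fun w : ℝ => EE c (x j) w * HH c (x j) (p j) w) (v j) := by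
    intro v
    rw [ff, if_pos h, ← Finset.prod_mul_distrib]
  simp_rw [e]
  rw [integral_fintype_prod_volume_eq_prod
    (fun j => (fun w : ℝ => EE c (x j) w * HH c (x j) (p j) w))]
  rw [Finset.prod_congr rfl fun j _ => cf_eq hc (hx j) (p j), Finset.prod_mul_distrib,
    Finset.prod_const, Finset.card_univ, Fintype.card_fin, inv_pow]

theorem ff_zero {k : ℕ} (c : ℝ) (x : Fin k → ℝ) (p : Fin k → ℕ+ × ℕ+) (h : lam p ≠ 0) :
    ∫ v : Fin k → ℝ, ff c x p v = 0 := by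
  have e : ∀ v : Fin k → ℝ, ff c x p v = 0 := by
    intro v
    rw [ff, if_neg h, mul_zero]
  simp_rw [e]
  exact integral_zero _ _

theorem Dg_eq_tsum {k : ℕ} {c : ℝ} (hc : 0 < c) {x : Fin k → ℝ} (hx : ∀ j, 0 < x j) :
    Dg x = ((Real.pi : ℂ) ^ k)⁻¹ * ∑' p : Fin k → ℕ+ × ℕ+, ∫ v : Fin k → ℝ, ff c x p v := by
  rw [Dg, ← tsum_mul_left]
  refine tsum_congr fun p => ?_
  by_cases h : lam p = 0
  · rw [if_pos h, term_eq hc hx p h]
  · rw [if_neg h, ff_zero c x p h, mul_zero]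

theorem tsum_ff {k : ℕ} {c : ℝ} (hc : 0 < c) (x : Fin k → ℝ) (v : Fin k → ℝ) :
    ∑' p : Fin k → ℕ+ × ℕ+, ff c x p v
      = (∏ j, EE c (x j) (v j)) * GX x (fun j => (c : ℂ) + v j * I) := by
  have h1 := euler_D2 x (fun j => (c : ℂ) + v j * I) (fun j => by simpa using hc)
  have h2 : HasSum (fun p : Fin k → ℕ+ × ℕ+ => ff c x p v)
      ((∏ j, EE c (x j) (v j)) * GX x (fun j => (c : ℂ) + v j * I)) := by
    have h3 := h1.mul_left (∏ j, EE c (x j) (v j))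
    unfold ff HH
    convert h3
  exact h2.tsum_eq

theorem box_hasSum {k : ℕ} {c : ℝ} (hc : 0 < c) {x : Fin k → ℝ} (hx : ∀ j, 0 < x j)
    (B : Set (Fin k → ℝ)) :
    HasSum (fun p : Fin k → ℕ+ × ℕ+ => ∫ v in B, ff c x p v)
      (∫ v in B, (∏ j, EE c (x j) (v j)) * GX x (fun j => (c : ℂ) + v j * I)) := by
  have h1 : ∀ v : Fin k → ℝ, (∏ j, EE c (x j) (v j)) * GX x (fun j => (c : ℂ) + v j * I)
      = ∑' p : Fin k → ℕ+ × ℕ+, ff c x p v := fun v => (tsum_ff hc x v).symm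
  simp_rw [h1]
  refine hasSum_integral_of_summable_integral_norm (fun p => (ff_integrable hc hx p).restrict) ?_
  have h2 : ∀ p : Fin k → ℕ+ × ℕ+, ∫ v in B, ‖ff c x p v‖
      = aa c p * ∫ v in B, ‖∏ j, EE c (x j) (v j)‖ := by
    intro p
    simp_rw [norm_ff]
    rw [MeasureTheory.integral_const_mul]
  simp_rw [h2]
  exact (aa_summable hc).mul_right _

/-- the Gaussian mass -/
noncomputable def JG : ℝ := ∫ v : ℝ, Real.exp (-(1 / 2) * v ^ 2)

theorem JG_nonneg : 0 ≤ JG := integral_nonneg fun _ => (Real.exp_pos _).le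

theorem outside {k : ℕ} {c U Y : ℝ} (hc : 0 < c) (hc1 : c ≤ 1) (hU : 1 ≤ U) (hY : 1 ≤ Y)
    {x : Fin k → ℝ} (hx : ∀ j, 0 < x j) (hxU : ∀ j, x j ≤ 4 * U) :
    ∫ v in (Set.Icc (fun _ : Fin k => -Y) (fun _ => Y))ᶜ, ‖∏ j, EE c (x j) (v j)‖
      ≤ (Real.exp 1 / c * U ^ c) ^ k * Real.exp (-(Y ^ 2 / 2)) * JG ^ k := by
  set K := Real.exp 1 / c * U ^ c with hK
  have hK0 : 0 ≤ K := by positivity
  have hgi : Integrable (fun v : ℝ => Real.exp (-(1 / 2) * v ^ 2)) :=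
    integrable_exp_neg_mul_sq (by norm_num)
  have hgp : Integrable (fun v : Fin k → ℝ => ∏ j, (fun w : ℝ => Real.exp (-(1 / 2) * w ^ 2)) (v j)) :=
    Integrable.fintype_prod (fun _ => hgi)
  have hmeas : MeasurableSet (Set.Icc (fun _ : Fin k => -Y) (fun _ => Y))ᶜ :=
    measurableSet_Icc.compl
  have h1 : ∀ v ∈ (Set.Icc (fun _ : Fin k => -Y) (fun _ => Y))ᶜ, ‖∏ j, EE c (x j) (v j)‖
      ≤ K ^ k * Real.exp (-(Y ^ 2 / 2)) *
        ∏ j, (fun w : ℝ => Real.exp (-(1 / 2) * w ^ 2)) (v j) := by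
    intro v hv
    have h2 : ‖∏ j, EE c (x j) (v j)‖ ≤ ∏ j : Fin k, (K * Real.exp (-(v j) ^ 2)) := by
      rw [norm_prod]
      exact Finset.prod_le_prod (fun j _ => norm_nonneg _)
        (fun j _ => norm_EE_le hc hc1 hU (hx j) (hxU j) (v j))
    refine h2.trans ?_
    rw [Finset.prod_mul_distrib, Finset.prod_const, Finset.card_univ, Fintype.card_fin, mul_assoc]
    refine mul_le_mul_of_nonneg_left ?_ (by positivity)
    rw [← Real.exp_sum]
    have h3 : ∏ j, (fun w : ℝ => Real.exp (-(1 / 2) * w ^ 2)) (v j)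
        = Real.exp (∑ j, (-(1 / 2) * (v j) ^ 2)) := (Real.exp_sum _ _).symm
    rw [h3, ← Real.exp_add]
    apply Real.exp_le_exp.2
    obtain ⟨j, hj⟩ : ∃ j, Y ^ 2 ≤ (v j) ^ 2 := by
      by_contra hcon
      push Not at hcon
      apply hv
      rw [Set.mem_Icc, Pi.le_def, Pi.le_def]
      constructor
      · intro j
        have := abs_lt_of_sq_lt_sq (hcon j) (by linarith)
        exact (abs_lt.1 (by simpa using this)).1.le
      · intro j
        have := abs_lt_of_sq_lt_sq (hcon j) (by linarith)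
        exact (abs_lt.1 (by simpa using this)).2.le
    have h4 : (v j) ^ 2 ≤ ∑ i, (v i) ^ 2 :=
      Finset.single_le_sum (f := fun i => (v i) ^ 2) (fun i _ => sq_nonneg _) (Finset.mem_univ j)
    have h5 : ∑ i, -(v i) ^ 2 = -∑ i, (v i) ^ 2 := by rw [Finset.sum_neg_distrib]
    have h6 : ∑ i, -(1 / 2) * (v i) ^ 2 = -(1 / 2) * ∑ i, (v i) ^ 2 := by rw [Finset.mul_sum]
    rw [h5, h6]
    linarith
  have h7 : Integrable (fun v : Fin k → ℝ => K ^ k * Real.exp (-(Y ^ 2 / 2)) *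
      ∏ j, (fun w : ℝ => Real.exp (-(1 / 2) * w ^ 2)) (v j)) := hgp.const_mul _
  calc ∫ v in (Set.Icc (fun _ : Fin k => -Y) (fun _ => Y))ᶜ, ‖∏ j, EE c (x j) (v j)‖
      ≤ ∫ v in (Set.Icc (fun _ : Fin k => -Y) (fun _ => Y))ᶜ, K ^ k * Real.exp (-(Y ^ 2 / 2)) *
        ∏ j, (fun w : ℝ => Real.exp (-(1 / 2) * w ^ 2)) (v j) :=
        setIntegral_mono_on (prodEE_integrable hc hx).norm.integrableOn h7.integrableOn hmeas h1
    _ ≤ ∫ v : Fin k → ℝ, K ^ k * Real.exp (-(Y ^ 2 / 2)) *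
        ∏ j, (fun w : ℝ => Real.exp (-(1 / 2) * w ^ 2)) (v j) := by
        refine setIntegral_le_integral h7 (Filter.Eventually.of_forall fun v => ?_)
        have : 0 ≤ ∏ j, (fun w : ℝ => Real.exp (-(1 / 2) * w ^ 2)) (v j) :=
          Finset.prod_nonneg fun j _ => (Real.exp_pos _).le
        change 0 ≤ K ^ k * Real.exp (-(Y ^ 2 / 2)) *
          ∏ j, (fun w : ℝ => Real.exp (-(1 / 2) * w ^ 2)) (v j)
        positivity
    _ = K ^ k * Real.exp (-(Y ^ 2 / 2)) * JG ^ k := by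
        rw [MeasureTheory.integral_const_mul, integral_fintype_prod_volume_eq_prod
          (fun _ : Fin k => (fun w : ℝ => Real.exp (-(1 / 2) * w ^ 2))), Finset.prod_const,
          Finset.card_univ, Fintype.card_fin]
        rfl

end DgTruncAux

open DgTruncAux in
theorem dg_trunc (k : ℕ) {c : ℝ} (hc : 0 < c) (hc1 : c ≤ 1) : ∃ C : ℝ, 0 < C ∧ ∀ (U Y : ℝ) (x : Fin k → ℝ), 1 ≤ U → 1 ≤ Y →
    (∀ j, U ≤ x j) → (∀ j, x j ≤ 4 * U) →
    ‖Dg x - ((Real.pi : ℂ) ^ k)⁻¹ * ∫ v in Set.Icc (fun _ : Fin k => -Y) (fun _ => Y),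
      (∏ j, cexp (((c : ℂ) + v j * I) ^ 2)) *
        ((∏ j, (((x j / (2 * Real.pi) : ℝ) : ℂ) ^ ((c : ℂ) + v j * I) / ((c : ℂ) + v j * I))) *
          GX x (fun j => (c : ℂ) + v j * I))‖ ≤ C * U ^ (k * c) * Real.exp (-(Y ^ 2 / 2)) := by
  have hpi := Real.pi_pos
  set S : ℝ := ∑' p : Fin k → ℕ+ × ℕ+, aa c p with hS
  have hS0 : 0 ≤ S := tsum_nonneg fun p => aa_nonneg c p
  have hJ := JG_nonneg
  refine ⟨(Real.pi ^ k)⁻¹ * (S * ((Real.exp 1 / c) ^ k * JG ^ k)) + 1, by positivity, ?_⟩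
  intro U Y x hU hY hx1 hx2
  have hx : ∀ j, 0 < x j := fun j => by linarith [hx1 j]
  set B : Set (Fin k → ℝ) := Set.Icc (fun _ : Fin k => -Y) (fun _ => Y) with hB
  have hBm : MeasurableSet B := measurableSet_Icc
  have e1 : (∫ v in B, (∏ j, cexp (((c : ℂ) + v j * I) ^ 2)) *
        ((∏ j, (((x j / (2 * Real.pi) : ℝ) : ℂ) ^ ((c : ℂ) + v j * I) / ((c : ℂ) + v j * I))) *
          GX x (fun j => (c : ℂ) + v j * I)))
      = ∑' p : Fin k → ℕ+ × ℕ+, ∫ v in B, ff c x p v := by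
    rw [(box_hasSum hc hx B).tsum_eq]
    refine integral_congr_ae (Filter.Eventually.of_forall fun v => ?_)
    change _ = (∏ j, EE c (x j) (v j)) * GX x (fun j => (c : ℂ) + v j * I)
    unfold EE
    rw [Finset.prod_mul_distrib, mul_assoc]
  have e2 : ∀ p : Fin k → ℕ+ × ℕ+, ∫ v : Fin k → ℝ, ff c x p v
      = (∫ v in B, ff c x p v) + ∫ v in Bᶜ, ff c x p v :=
    fun p => (integral_add_compl hBm (ff_integrable hc hx p)).symm
  rw [e1, Dg_eq_tsum hc hx, ← mul_sub]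
  simp_rw [e2]
  rw [(box_hasSum hc hx B).summable.tsum_add (box_hasSum hc hx Bᶜ).summable, add_sub_cancel_left,
    norm_mul, norm_inv, norm_pow, Complex.norm_real, Real.norm_eq_abs, abs_of_pos hpi]
  set K := Real.exp 1 / c * U ^ c with hK
  have hout := outside (k := k) hc hc1 hU hY hx hx2
  rw [← hK, ← hB] at hout
  have h3 : ‖∑' p : Fin k → ℕ+ × ℕ+, ∫ v in Bᶜ, ff c x p v‖
      ≤ S * (K ^ k * Real.exp (-(Y ^ 2 / 2)) * JG ^ k) := by
    refine tsum_of_norm_bounded ((aa_summable hc).hasSum.mul_right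
      (K ^ k * Real.exp (-(Y ^ 2 / 2)) * JG ^ k)) fun p => ?_
    refine (norm_integral_le_integral_norm _).trans ?_
    simp_rw [norm_ff]
    rw [MeasureTheory.integral_const_mul]
    exact mul_le_mul_of_nonneg_left hout (aa_nonneg c p)
  have h4 : K ^ k = (Real.exp 1 / c) ^ k * U ^ (k * c) := by
    rw [hK, mul_pow]
    congr 1
    rw [mul_comm (k : ℝ) c, Real.rpow_mul (by linarith), Real.rpow_natCast]
  calc (Real.pi ^ k)⁻¹ * ‖∑' p : Fin k → ℕ+ × ℕ+, ∫ v in Bᶜ, ff c x p v‖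
      ≤ (Real.pi ^ k)⁻¹ * (S * (K ^ k * Real.exp (-(Y ^ 2 / 2)) * JG ^ k)) :=
        mul_le_mul_of_nonneg_left h3 (by positivity)
    _ = (Real.pi ^ k)⁻¹ * (S * ((Real.exp 1 / c) ^ k * JG ^ k)) * U ^ (k * c) *
          Real.exp (-(Y ^ 2 / 2)) := by rw [h4]; ring
    _ ≤ ((Real.pi ^ k)⁻¹ * (S * ((Real.exp 1 / c) ^ k * JG ^ k)) + 1) * U ^ (k * c) *
          Real.exp (-(Y ^ 2 / 2)) := by
        have hU0 : 0 ≤ U ^ (k * c) := Real.rpow_nonneg (by linarith) _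
        gcongr
        linarith

end Pool.Agent.P07318s
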