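import Mathlib

/-!
Telescoping. For `i = 1, 2`, curves `g_i` on `[a_i, b_i]` with weights `p_i`, let
`T_i F = ∫_{[a_i,b_i]^k} (∏ p_i(v_j)) F(g_i ∘ v) dv`. Induction on `k` (generalise over `F`):
`T_1^{k+1} F - T_2^{k+1} F = ∫ p_1(v_0) [T_1^k - T_2^k] F(cons (g_1 v_0) ·) dv_0
+ T_2^k ( w' ↦ ∫ p_1(v_0) F(cons (g_1 v_0) w') dv_0 - ∫ p_2(v_0) F(cons (g_2 v_0) w') dv_0 )`
(one Fubini swap, continuous integrands on compact sets). The first term is `≤ ℓ · k ℓ^(k-1) E` by induction, the second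
`≤ ℓ^k E`. Splitting the integral over `Fin (k+1) → ℝ`: `MeasurableEquiv.piFinSuccAbove`,
`MeasureTheory.volume_preserving_piFinSuccAbove`, `Icc` is a product.
`torus_radius` is the special case of two circles with `E = 0`
(`Complex.circleIntegral_sub_center_inv_smul_eq_of_differentiable_on_annulus_off_countable` family:
`Complex.circleIntegral_eq_of_differentiable_on_annulus_off_countable`).
-/

set_option autoImplicit false

namespace Pool.Agent.P07318s

open MeasureTheory Complex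

namespace TeleAux

theorem split_int {k : ℕ} {a b : ℝ} (Φ : (Fin (k + 1) → ℝ) → ℂ)
    (hΦ : IntegrableOn Φ (Set.Icc (fun _ => a) (fun _ => b))) :
    ∫ v in Set.Icc (fun _ : Fin (k + 1) => a) (fun _ => b), Φ v =
      ∫ x in Set.Icc a b, ∫ v in Set.Icc (fun _ : Fin k => a) (fun _ => b), Φ (Fin.cons x v) := by
  set e : ℝ × (Fin k → ℝ) ≃ᵐ (Fin (k + 1) → ℝ) :=
    (MeasurableEquiv.piFinSuccAbove (fun _ => ℝ) 0).symm with he
  have hem : MeasurePreserving e :=
    (volume_preserving_piFinSuccAbove (fun _ : Fin (k + 1) => ℝ) 0).symm _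
  have heπ : (e ⁻¹' Set.Icc (fun _ => a) fun _ => b) =
      Set.Icc a b ×ˢ Set.Icc (fun _ : Fin k => a) fun _ => b :=
    ((Fin.insertNthOrderIso (fun _ => ℝ) 0).preimage_Icc _ _).trans (Set.Icc_prod_eq _ _)
  have hee : ∀ (x : ℝ) (v : Fin k → ℝ), e (x, v) = Fin.cons x v := by
    intro x v
    simp [he, MeasurableEquiv.piFinSuccAbove_symm_apply, Fin.insertNthEquiv]
  rw [← hem.map_eq, setIntegral_map_equiv, heπ, Measure.volume_eq_prod, setIntegral_prod]
  · refine setIntegral_congr_fun measurableSet_Icc fun θ _ => ?_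
    refine setIntegral_congr_fun measurableSet_Icc fun Θ _ => ?_
    simp only [hee]
  · rwa [← hem.integrableOn_comp_preimage e.measurableEmbedding, heπ] at hΦ

/-- the product integral -/
noncomputable def TT (k : ℕ) (a b : ℝ) (g p : ℝ → ℂ) (F : (Fin k → ℂ) → ℂ) : ℂ :=
  ∫ v in Set.Icc (fun _ : Fin k => a) (fun _ => b), (∏ j, p (v j)) * F (fun j => g (v j))

theorem mem_Icc_apply {k : ℕ} {a b : ℝ} {v : Fin k → ℝ}
    (hv : v ∈ Set.Icc (fun _ : Fin k => a) (fun _ => b)) (j : Fin k) : v j ∈ Set.Icc a b :=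
  ⟨hv.1 j, hv.2 j⟩

theorem contOn_integrand {k : ℕ} {a b : ℝ} {g p : ℝ → ℂ} (hg : ContinuousOn g (Set.Icc a b))
    (hp : ContinuousOn p (Set.Icc a b)) {P : Set ℂ} (hP : g '' Set.Icc a b ⊆ P)
    {F : (Fin k → ℂ) → ℂ} (hF : ContinuousOn F (Set.univ.pi fun _ => P)) :
    ContinuousOn (fun v : Fin k → ℝ => (∏ j, p (v j)) * F (fun j => g (v j)))
      (Set.Icc (fun _ : Fin k => a) (fun _ => b)) := by
  refine ContinuousOn.mul ?_ ?_
  · refine continuousOn_finsetProd _ fun j _ => ?_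
    exact hp.comp (continuous_apply j).continuousOn fun v hv => mem_Icc_apply hv j
  · refine hF.comp ?_ ?_
    · refine continuousOn_pi.2 fun j => ?_
      exact hg.comp (continuous_apply j).continuousOn fun v hv => mem_Icc_apply hv j
    · intro v hv j _
      exact hP ⟨v j, mem_Icc_apply hv j, rfl⟩

theorem int_Psi {k : ℕ} {a b a' b' : ℝ} {g p g' p' : ℝ → ℂ} (hg : ContinuousOn g (Set.Icc a b))
    (hp : ContinuousOn p (Set.Icc a b)) (hg' : ContinuousOn g' (Set.Icc a' b'))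
    (hp' : ContinuousOn p' (Set.Icc a' b')) {P : Set ℂ} (hP : g '' Set.Icc a b ⊆ P)
    (hP' : g' '' Set.Icc a' b' ⊆ P)
    {F : (Fin (k + 1) → ℂ) → ℂ} (hF : ContinuousOn F (Set.univ.pi fun _ => P)) :
    Integrable (fun z : ℝ × (Fin k → ℝ) => p z.1 * ((∏ j, p' (z.2 j)) *
        F (Fin.cons (g z.1) fun j => g' (z.2 j))))
      ((volume.restrict (Set.Icc a b)).prod
        (volume.restrict (Set.Icc (fun _ : Fin k => a') fun _ => b'))) := by
  rw [Measure.prod_restrict]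
  refine ContinuousOn.integrableOn_compact (isCompact_Icc.prod isCompact_Icc) ?_
  have h1 : ContinuousOn (fun z : ℝ × (Fin k → ℝ) => z.1)
      (Set.Icc a b ×ˢ Set.Icc (fun _ : Fin k => a') fun _ => b') := continuous_fst.continuousOn
  have h2 : ∀ j, ContinuousOn (fun z : ℝ × (Fin k → ℝ) => z.2 j)
      (Set.Icc a b ×ˢ Set.Icc (fun _ : Fin k => a') fun _ => b') := fun j =>
    ((continuous_apply j).comp continuous_snd).continuousOn
  refine ContinuousOn.mul (hp.comp h1 fun z hz => hz.1) (ContinuousOn.mul ?_ ?_)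
  · refine continuousOn_finsetProd _ fun j _ => ?_
    exact hp'.comp (h2 j) fun z hz => mem_Icc_apply hz.2 j
  · refine hF.comp ?_ ?_
    · refine continuousOn_pi.2 fun j => ?_
      refine Fin.cases ?_ (fun i => ?_) j
      · simp only [Fin.cons_zero]
        exact hg.comp h1 fun z hz => hz.1
      · simp only [Fin.cons_succ]
        exact hg'.comp (h2 i) fun z hz => mem_Icc_apply hz.2 i
    · intro z hz j _
      refine Fin.cases ?_ (fun i => ?_) j
      · simpa only [Fin.cons_zero] using hP ⟨z.1, hz.1, rfl⟩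
      · simpa only [Fin.cons_succ] using hP' ⟨z.2 i, mem_Icc_apply hz.2 i, rfl⟩

theorem TT_succ {k : ℕ} {a b : ℝ} {g p : ℝ → ℂ} (hg : ContinuousOn g (Set.Icc a b))
    (hp : ContinuousOn p (Set.Icc a b)) {P : Set ℂ} (hP : g '' Set.Icc a b ⊆ P)
    {F : (Fin (k + 1) → ℂ) → ℂ} (hF : ContinuousOn F (Set.univ.pi fun _ => P)) :
    TT (k + 1) a b g p F =
      ∫ x in Set.Icc a b, ∫ v in Set.Icc (fun _ : Fin k => a) (fun _ => b),
        p x * ((∏ j, p (v j)) * F (Fin.cons (g x) fun j => g (v j))) := by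
  rw [TT, split_int _ ((contOn_integrand hg hp hP hF).integrableOn_compact isCompact_Icc)]
  refine setIntegral_congr_fun measurableSet_Icc fun x _ => ?_
  refine setIntegral_congr_fun measurableSet_Icc fun v _ => ?_
  simp only [Fin.prod_univ_succ, Fin.cons_zero, Fin.cons_succ]
  have h : (fun j : Fin (k + 1) => g ((Fin.cons x v : Fin (k + 1) → ℝ) j)) =
      Fin.cons (g x) fun j => g (v j) := by
    funext j
    refine Fin.cases ?_ (fun i => ?_) j
    · simp
    · simp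
  rw [h, mul_assoc]

theorem inner_const {k : ℕ} {a b : ℝ} (c : ℂ) (g p : ℝ → ℂ) (F : (Fin k → ℂ) → ℂ) :
    ∫ v in Set.Icc (fun _ : Fin k => a) (fun _ => b), c * ((∏ j, p (v j)) *
      F (fun j => g (v j))) = c * TT k a b g p F := by
  rw [TT, integral_const_mul]

end TeleAux

open TeleAux

theorem tele {k : ℕ} {a₁ b₁ a₂ b₂ : ℝ} (h₁ : a₁ ≤ b₁) (h₂ : a₂ ≤ b₂) (g₁ g₂ p₁ p₂ : ℝ → ℂ)
    (hg₁ : ContinuousOn g₁ (Set.Icc a₁ b₁)) (hg₂ : ContinuousOn g₂ (Set.Icc a₂ b₂))
    (hp₁ : ContinuousOn p₁ (Set.Icc a₁ b₁)) (hp₂ : ContinuousOn p₂ (Set.Icc a₂ b₂)) {M₁ M₂ ℓ E : ℝ}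
    (hM₁ : ∀ v ∈ Set.Icc a₁ b₁, ‖p₁ v‖ ≤ M₁) (hM₂ : ∀ v ∈ Set.Icc a₂ b₂, ‖p₂ v‖ ≤ M₂)
    (hℓ₁ : (b₁ - a₁) * M₁ ≤ ℓ) (hℓ₂ : (b₂ - a₂) * M₂ ≤ ℓ) (hE : 0 ≤ E) (F : (Fin k → ℂ) → ℂ) (P : Set ℂ)
    (hP₁ : g₁ '' Set.Icc a₁ b₁ ⊆ P) (hP₂ : g₂ '' Set.Icc a₂ b₂ ⊆ P)
    (hF : ContinuousOn F (Set.univ.pi fun _ => P))
    (hd : ∀ w ∈ (Set.univ.pi fun _ : Fin k => P), ∀ j : Fin k,
      ‖(∫ v in a₁..b₁, p₁ v * F (Function.update w j (g₁ v))) -
        ∫ v in a₂..b₂, p₂ v * F (Function.update w j (g₂ v))‖ ≤ E) :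
    ‖(∫ v in Set.Icc (fun _ : Fin k => a₁) (fun _ => b₁), (∏ j, p₁ (v j)) * F (fun j => g₁ (v j))) -
      ∫ v in Set.Icc (fun _ : Fin k => a₂) (fun _ => b₂), (∏ j, p₂ (v j)) * F (fun j => g₂ (v j))‖ ≤
      k * ℓ ^ (k - 1) * E := by
  have hM₁0 : 0 ≤ M₁ := (norm_nonneg _).trans (hM₁ a₁ ⟨le_rfl, h₁⟩)
  have hM₂0 : 0 ≤ M₂ := (norm_nonneg _).trans (hM₂ a₂ ⟨le_rfl, h₂⟩)
  have hℓ0 : 0 ≤ ℓ := (mul_nonneg (sub_nonneg.2 h₁) hM₁0).trans hℓ₁
  change ‖TT k a₁ b₁ g₁ p₁ F - TT k a₂ b₂ g₂ p₂ F‖ ≤ _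
  induction k with
  | zero =>
    have h1 : ∀ (a b : ℝ) (g p : ℝ → ℂ), TT 0 a b g p F = F (fun _ => 0) := by
      intro a b g p
      have e : (Set.Icc (fun _ : Fin 0 => a) (fun _ => b)) = Set.univ := by
        ext v; simp [Set.mem_Icc]
      have hg : (fun v : Fin 0 → ℝ => (∏ j, p (v j)) * F (fun j => g (v j))) =
          fun _ => F (fun _ => 0) := by
        funext v
        rw [Fin.prod_univ_zero, one_mul]
        congr 1
        exact Subsingleton.elim _ _
      rw [TT, hg, e, Measure.restrict_univ, volume_pi,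
        Measure.pi_of_empty (fun _ : Fin 0 => (volume : Measure ℝ)) 0, integral_dirac]
    rw [h1, h1, sub_self, norm_zero]
    simp
  | succ k ih =>
    -- restriction of the function
    have hFx : ∀ x ∈ P, ContinuousOn (fun w : Fin k → ℂ => F (Fin.cons x w))
        (Set.univ.pi fun _ => P) := by
      intro x hx
      refine hF.comp ?_ ?_
      · refine continuousOn_pi.2 fun j => ?_
        refine Fin.cases ?_ (fun i => ?_) j
        · simpa only [Fin.cons_zero] using continuousOn_const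
        · simpa only [Fin.cons_succ] using (continuous_apply i).continuousOn
      · intro w hw j _
        refine Fin.cases ?_ (fun i => ?_) j
        · simpa only [Fin.cons_zero] using hx
        · simpa only [Fin.cons_succ] using hw i (Set.mem_univ _)
    have hrec : ∀ x ∈ Set.Icc a₁ b₁, ‖TT k a₁ b₁ g₁ p₁ (fun w => F (Fin.cons (g₁ x) w)) -
        TT k a₂ b₂ g₂ p₂ (fun w => F (Fin.cons (g₁ x) w))‖ ≤ k * ℓ ^ (k - 1) * E := by
      intro x hx
      have hx' : g₁ x ∈ P := hP₁ ⟨x, hx, rfl⟩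
      refine ih (fun w => F (Fin.cons (g₁ x) w)) (hFx _ hx') fun w hw j => ?_
      have hw' : (Fin.cons (g₁ x) w : Fin (k + 1) → ℂ) ∈ Set.univ.pi fun _ => P := by
        intro j _
        refine Fin.cases ?_ (fun i => ?_) j
        · simpa only [Fin.cons_zero] using hx'
        · simpa only [Fin.cons_succ] using hw i (Set.mem_univ _)
      have := hd _ hw' j.succ
      simpa only [Fin.cons_update] using this
    have hi1 := int_Psi (k := k) hg₁ hp₁ hg₁ hp₁ hP₁ hP₁ hF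
    have hi12 := int_Psi (k := k) hg₁ hp₁ hg₂ hp₂ hP₁ hP₂ hF
    have hi2 := int_Psi (k := k) hg₂ hp₂ hg₂ hp₂ hP₂ hP₂ hF
    have e1 : TT (k + 1) a₁ b₁ g₁ p₁ F - TT (k + 1) a₂ b₂ g₂ p₂ F =
        (∫ x in Set.Icc a₁ b₁, p₁ x * (TT k a₁ b₁ g₁ p₁ (fun w => F (Fin.cons (g₁ x) w)) -
          TT k a₂ b₂ g₂ p₂ (fun w => F (Fin.cons (g₁ x) w)))) +
        ∫ v in Set.Icc (fun _ : Fin k => a₂) (fun _ => b₂), (∏ j, p₂ (v j)) *
          ((∫ x in Set.Icc a₁ b₁, p₁ x * F (Fin.cons (g₁ x) fun j => g₂ (v j))) -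
            ∫ x in Set.Icc a₂ b₂, p₂ x * F (Fin.cons (g₂ x) fun j => g₂ (v j))) := by
      have s1 : (∫ x in Set.Icc a₁ b₁, p₁ x * (TT k a₁ b₁ g₁ p₁ (fun w => F (Fin.cons (g₁ x) w)) -
          TT k a₂ b₂ g₂ p₂ (fun w => F (Fin.cons (g₁ x) w)))) =
          (∫ x in Set.Icc a₁ b₁, ∫ v in Set.Icc (fun _ : Fin k => a₁) (fun _ => b₁),
            p₁ x * ((∏ j, p₁ (v j)) * F (Fin.cons (g₁ x) fun j => g₁ (v j)))) -
          ∫ x in Set.Icc a₁ b₁, ∫ v in Set.Icc (fun _ : Fin k => a₂) (fun _ => b₂),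
            p₁ x * ((∏ j, p₂ (v j)) * F (Fin.cons (g₁ x) fun j => g₂ (v j))) := by
        rw [← integral_sub hi1.integral_prod_left hi12.integral_prod_left]
        refine setIntegral_congr_fun measurableSet_Icc fun x _ => ?_
        change _ = (∫ v in Set.Icc (fun _ : Fin k => a₁) (fun _ => b₁),
            p₁ x * ((∏ j, p₁ (v j)) * F (Fin.cons (g₁ x) fun j => g₁ (v j)))) -
          ∫ v in Set.Icc (fun _ : Fin k => a₂) (fun _ => b₂),
            p₁ x * ((∏ j, p₂ (v j)) * F (Fin.cons (g₁ x) fun j => g₂ (v j)))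
        rw [inner_const (p₁ x) g₁ p₁ (fun w => F (Fin.cons (g₁ x) w)),
          inner_const (p₁ x) g₂ p₂ (fun w => F (Fin.cons (g₁ x) w)), mul_sub]
      have s2 : (∫ v in Set.Icc (fun _ : Fin k => a₂) (fun _ => b₂), (∏ j, p₂ (v j)) *
          ((∫ x in Set.Icc a₁ b₁, p₁ x * F (Fin.cons (g₁ x) fun j => g₂ (v j))) -
            ∫ x in Set.Icc a₂ b₂, p₂ x * F (Fin.cons (g₂ x) fun j => g₂ (v j)))) =
          (∫ v in Set.Icc (fun _ : Fin k => a₂) (fun _ => b₂), ∫ x in Set.Icc a₁ b₁,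
            p₁ x * ((∏ j, p₂ (v j)) * F (Fin.cons (g₁ x) fun j => g₂ (v j)))) -
          ∫ v in Set.Icc (fun _ : Fin k => a₂) (fun _ => b₂), ∫ x in Set.Icc a₂ b₂,
            p₂ x * ((∏ j, p₂ (v j)) * F (Fin.cons (g₂ x) fun j => g₂ (v j))) := by
        rw [← integral_sub hi12.integral_prod_right hi2.integral_prod_right]
        refine setIntegral_congr_fun measurableSet_Icc fun v _ => ?_
        change _ = (∫ x in Set.Icc a₁ b₁,
            p₁ x * ((∏ j, p₂ (v j)) * F (Fin.cons (g₁ x) fun j => g₂ (v j)))) -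
          ∫ x in Set.Icc a₂ b₂,
            p₂ x * ((∏ j, p₂ (v j)) * F (Fin.cons (g₂ x) fun j => g₂ (v j)))
        rw [mul_sub, ← integral_const_mul, ← integral_const_mul]
        congr 1
        · refine setIntegral_congr_fun measurableSet_Icc fun x _ => ?_
          ring
        · refine setIntegral_congr_fun measurableSet_Icc fun x _ => ?_
          ring
      have s3 := integral_integral_swap (f := fun (x : ℝ) (v : Fin k → ℝ) =>
        p₁ x * ((∏ j, p₂ (v j)) * F (Fin.cons (g₁ x) fun j => g₂ (v j)))) hi12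
      have s4 := integral_integral_swap (f := fun (x : ℝ) (v : Fin k → ℝ) =>
        p₂ x * ((∏ j, p₂ (v j)) * F (Fin.cons (g₂ x) fun j => g₂ (v j)))) hi2
      rw [s1, s2, TT_succ hg₁ hp₁ hP₁ hF, TT_succ hg₂ hp₂ hP₂ hF, ← s3, ← s4]
      ring
    rw [e1]
    have n1 : ‖∫ x in Set.Icc a₁ b₁, p₁ x * (TT k a₁ b₁ g₁ p₁ (fun w => F (Fin.cons (g₁ x) w)) -
          TT k a₂ b₂ g₂ p₂ (fun w => F (Fin.cons (g₁ x) w)))‖ ≤ k * ℓ ^ k * E := by
      have hk0 : 0 ≤ (k : ℝ) * ℓ ^ (k - 1) * E := by positivity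
      have := norm_setIntegral_le_of_norm_le_const (μ := volume) (s := Set.Icc a₁ b₁)
        (f := fun x => p₁ x * (TT k a₁ b₁ g₁ p₁ (fun w => F (Fin.cons (g₁ x) w)) -
          TT k a₂ b₂ g₂ p₂ (fun w => F (Fin.cons (g₁ x) w))))
        (C := M₁ * (k * ℓ ^ (k - 1) * E)) measure_Icc_lt_top (fun x hx => by
          rw [norm_mul]
          exact mul_le_mul (hM₁ x hx) (hrec x hx) (norm_nonneg _) hM₁0)
      refine this.trans ?_
      rw [Measure.real, Real.volume_Icc, ENNReal.toReal_ofReal (sub_nonneg.2 h₁)]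
      calc M₁ * (k * ℓ ^ (k - 1) * E) * (b₁ - a₁) = ((b₁ - a₁) * M₁) * (k * ℓ ^ (k - 1) * E) := by
            ring
        _ ≤ ℓ * (k * ℓ ^ (k - 1) * E) := mul_le_mul_of_nonneg_right hℓ₁ hk0
        _ ≤ k * ℓ ^ k * E := by
            rcases Nat.eq_zero_or_pos k with rfl | hk
            · simp
            · obtain ⟨m, rfl⟩ : ∃ m, k = m + 1 := ⟨k - 1, by omega⟩
              rw [Nat.add_sub_cancel]
              apply le_of_eq
              ring
    have n2 : ‖∫ v in Set.Icc (fun _ : Fin k => a₂) (fun _ => b₂), (∏ j, p₂ (v j)) *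
          ((∫ x in Set.Icc a₁ b₁, p₁ x * F (Fin.cons (g₁ x) fun j => g₂ (v j))) -
            ∫ x in Set.Icc a₂ b₂, p₂ x * F (Fin.cons (g₂ x) fun j => g₂ (v j)))‖ ≤ ℓ ^ k * E := by
      have := norm_setIntegral_le_of_norm_le_const (μ := volume)
        (s := Set.Icc (fun _ : Fin k => a₂) (fun _ => b₂))
        (f := fun v => (∏ j, p₂ (v j)) *
          ((∫ x in Set.Icc a₁ b₁, p₁ x * F (Fin.cons (g₁ x) fun j => g₂ (v j))) -
            ∫ x in Set.Icc a₂ b₂, p₂ x * F (Fin.cons (g₂ x) fun j => g₂ (v j))))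
        (C := M₂ ^ k * E) measure_Icc_lt_top (fun v hv => by
          rw [norm_mul]
          refine mul_le_mul ?_ ?_ (norm_nonneg _) (by positivity)
          · rw [norm_prod]
            calc ∏ j, ‖p₂ (v j)‖ ≤ ∏ _j : Fin k, M₂ :=
                  Finset.prod_le_prod (fun _ _ => norm_nonneg _) fun j _ =>
                    hM₂ _ (mem_Icc_apply hv j)
              _ = M₂ ^ k := by simp
          · have hw' : (Fin.cons (g₂ a₂) (fun j => g₂ (v j)) : Fin (k + 1) → ℂ) ∈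
                Set.univ.pi fun _ => P := by
              intro j _
              refine Fin.cases ?_ (fun i => ?_) j
              · simpa only [Fin.cons_zero] using hP₂ ⟨a₂, ⟨le_rfl, h₂⟩, rfl⟩
              · simpa only [Fin.cons_succ] using hP₂ ⟨v i, mem_Icc_apply hv i, rfl⟩
            have := hd _ hw' 0
            simp only [Fin.update_cons_zero] at this
            rwa [intervalIntegral.integral_of_le h₁, intervalIntegral.integral_of_le h₂,
              ← integral_Icc_eq_integral_Ioc, ← integral_Icc_eq_integral_Ioc] at this)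
      refine this.trans ?_
      rw [Measure.real, Real.volume_Icc_pi_toReal (fun _ => h₂), Finset.prod_const,
        Finset.card_univ, Fintype.card_fin]
      calc M₂ ^ k * E * (b₂ - a₂) ^ k = ((b₂ - a₂) * M₂) ^ k * E := by rw [mul_pow]; ring
        _ ≤ ℓ ^ k * E := by
            have : 0 ≤ (b₂ - a₂) * M₂ := mul_nonneg (sub_nonneg.2 h₂) hM₂0
            gcongr
    refine (norm_add_le _ _).trans ((add_le_add n1 n2).trans (le_of_eq ?_))
    rw [Nat.add_sub_cancel]
    push_cast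
    ring

theorem torus_eq {k : ℕ} (r : ℝ) (F : (Fin k → ℂ) → ℂ) :
    (∯ w in T(0, fun _ => r), F w) = ∫ v in Set.Icc (fun _ : Fin k => (0:ℝ)) (fun _ => 2 * Real.pi),
      (∏ j, (r * cexp (v j * I) * I)) * F (fun j => r * cexp (v j * I)) := by
  rw [torusIntegral]
  refine setIntegral_congr_fun measurableSet_Icc fun v _ => ?_
  rw [smul_eq_mul]
  congr 2
  funext j
  simp [torusMap]

theorem torus_radius {k : ℕ} {r R : ℝ} (hr : 0 < r) (hR : r ≤ R) (F : (Fin k → ℂ) → ℂ)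
    (hF : ContinuousOn F {w | ∀ j, r ≤ ‖w j‖ ∧ ‖w j‖ ≤ R})
    (hd : ∀ w : Fin k → ℂ, (∀ j, r ≤ ‖w j‖ ∧ ‖w j‖ ≤ R) → ∀ (j : Fin k) (s : ℂ), r < ‖s‖ → ‖s‖ < R →
      DifferentiableAt ℂ (fun s => F (Function.update w j s)) s) :
    (∯ w in T(0, fun _ => R), F w) = ∯ w in T(0, fun _ => r), F w := by
  have hR0 : 0 < R := hr.trans_le hR
  set P : Set ℂ := {z | r ≤ ‖z‖ ∧ ‖z‖ ≤ R} with hPdef
  have hpi : (Set.univ.pi fun _ : Fin k => P) = {w | ∀ j, r ≤ ‖w j‖ ∧ ‖w j‖ ≤ R} := by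
    ext w; simp [hPdef, Set.mem_pi]
  have hn : ∀ (ρ : ℝ) (_ : 0 < ρ) (v : ℝ), ‖(ρ : ℂ) * cexp (v * I)‖ = ρ := by
    intro ρ hρ v
    rw [norm_mul, Complex.norm_exp_ofReal_mul_I, mul_one, Complex.norm_real, Real.norm_eq_abs,
      abs_of_pos hρ]
  have hc : ∀ ρ : ℝ, Continuous fun v : ℝ => (ρ : ℂ) * cexp (v * I) := by
    intro ρ; fun_prop
  have hc' : ∀ ρ : ℝ, Continuous fun v : ℝ => (ρ : ℂ) * cexp (v * I) * I := by
    intro ρ; fun_prop
  have hci : ∀ (ρ : ℝ) (f : ℂ → ℂ), (∫ v in (0:ℝ)..(2 * Real.pi), ((ρ : ℂ) * cexp (v * I) * I) *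
      f ((ρ : ℂ) * cexp (v * I))) = ∮ s in C(0, ρ), f s := by
    intro ρ f
    rw [circleIntegral]
    refine intervalIntegral.integral_congr fun v _ => ?_
    simp [circleMap, deriv_circleMap]
  have h0 := tele (k := k) Real.two_pi_pos.le Real.two_pi_pos.le
    (fun v : ℝ => (R : ℂ) * cexp (v * I)) (fun v : ℝ => (r : ℂ) * cexp (v * I))
    (fun v : ℝ => (R : ℂ) * cexp (v * I) * I) (fun v : ℝ => (r : ℂ) * cexp (v * I) * I)
    (hc R).continuousOn (hc r).continuousOn (hc' R).continuousOn (hc' r).continuousOn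
    (M₁ := R) (M₂ := R) (ℓ := 2 * Real.pi * R) (E := 0)
    (fun v _ => by rw [norm_mul, hn R hR0, Complex.norm_I, mul_one])
    (fun v _ => by rw [norm_mul, hn r hr, Complex.norm_I, mul_one]; exact hR)
    (by rw [sub_zero]) (by rw [sub_zero]) le_rfl F P
    (by
      rintro _ ⟨v, _, rfl⟩
      exact ⟨by rw [hn R hR0]; exact hR, by rw [hn R hR0]⟩)
    (by
      rintro _ ⟨v, _, rfl⟩
      exact ⟨by rw [hn r hr], by rw [hn r hr]; exact hR⟩)
    (by rw [hpi]; exact hF)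
    (fun w hw j => by
      rw [hpi] at hw
      rw [hci R fun s => F (Function.update w j s), hci r fun s => F (Function.update w j s)]
      rw [Complex.circleIntegral_eq_of_differentiable_on_annulus_off_countable hr hR
        Set.countable_empty]
      · rw [sub_self, norm_zero]
      · refine hF.comp ?_ ?_
        · exact (Continuous.update (f := fun _ : ℂ => w) continuous_const j
            continuous_id).continuousOn
        · intro s hs i
          rcases eq_or_ne i j with rfl | hij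
          · rw [Function.update_self]
            have h1 := hs.1
            have h2 := hs.2
            rw [Metric.mem_closedBall, dist_zero_right] at h1
            rw [Metric.mem_ball, dist_zero_right, not_lt] at h2
            exact ⟨h2, h1⟩
          · rw [Function.update_of_ne hij]
            exact hw i
      · intro s hs
        have h1 := hs.1.1
        have h2 := hs.1.2
        rw [Metric.mem_ball, dist_zero_right] at h1
        rw [Metric.mem_closedBall, dist_zero_right, not_le] at h2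
        exact hd w hw j s h2 h1)
  rw [mul_zero, norm_le_zero_iff, sub_eq_zero] at h0
  rw [torus_eq, torus_eq]
  exact h0

end Pool.Agent.P07318s
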