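import Pool.Agent.Lib.P07318s.Defs
import Pool.Agent.Lib.P07318s.Crude
import Pool.Agent.Lib.P07318s.EulerA
import Pool.Agent.Lib.P07318s.OneVar
import Pool.Agent.Lib.P07318s.Tele
import Pool.Agent.Lib.P07318s.DgTrunc

/-!
The diagonal terms equal the main term up to `U^(-1/2+ε)` at good heights.
-/

set_option autoImplicit false

namespace Pool.Agent.P07318s

open MeasureTheory Complex

/-- the integrand -/
noncomputable def FF {k : ℕ} (x : Fin k → ℝ) (w : Fin k → ℂ) : ℂ :=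
  (∏ j, (((x j / (2 * Real.pi) : ℝ) : ℂ) ^ (w j) / w j)) * GX x w

/-- the domain of the integrand -/
def DD {k : ℕ} (x : Fin k → ℝ) (e ρ : ℝ) : Set (Fin k → ℂ) :=
  {w | (∀ i, w i ≠ 0) ∧ (∀ i j, i ≠ j → |(w i).im + (w j).im| < |x i - x j|) ∧ w ∈ Rg k e ρ}

lemma arg_ne_one {k : ℕ} {x : Fin k → ℝ} {e ρ : ℝ} {w : Fin k → ℂ} (hw : w ∈ DD x e ρ) (i j : Fin k) :
    1 + w i + w j + ((x i - x j : ℝ) : ℂ) * I ≠ 1 := by
  intro h
  by_cases hij : i = j
  · subst hij
    have h1 : w i = 0 := by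
      have : 2 * w i = 0 := by
        have h2 := h
        simp only [sub_self, Complex.ofReal_zero, zero_mul, add_zero] at h2
        linear_combination h2
      simpa using this
    exact hw.1 i h1
  · have h1 := hw.2.1 i j hij
    have h2 : (w i).im + (w j).im + (x i - x j) = 0 := by
      have := congrArg Complex.im h
      simpa using this
    have h3 : |(w i).im + (w j).im| = |x i - x j| := by
      have : (w i).im + (w j).im = -(x i - x j) := by linarith
      rw [this, abs_neg]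
    linarith

lemma X_ne {k : ℕ} {x : Fin k → ℝ} (hx : ∀ j, 0 < x j) (j : Fin k) : ((x j / (2 * Real.pi) : ℝ) : ℂ) ≠ 0 := by
  have : (0:ℝ) < x j / (2 * Real.pi) := div_pos (hx j) (by positivity)
  exact_mod_cast this.ne'

lemma FF_cont {k : ℕ} {x : Fin k → ℝ} (hx : ∀ j, 0 < x j) {e ρ : ℝ} (hρ : 0 < ρ) (hρe : ρ < e)
    (he : e + ρ ≤ 1 / 2) : ContinuousOn (FF x) (DD x e ρ) := by
  have e1 : FF x = fun w => (∏ j, (((x j / (2 * Real.pi) : ℝ) : ℂ) ^ (w j) / w j)) *
      (AX x w * ∏ i, ∏ j, riemannZeta (1 + w i + w j + ((x i - x j : ℝ) : ℂ) * I)) := by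
    funext w
    unfold FF
    rw [GX_eq]
  rw [e1]
  refine ContinuousOn.mul ?_ (ContinuousOn.mul ?_ ?_)
  · refine continuousOn_finsetProd _ fun j _ => ?_
    refine ContinuousOn.div ?_ (continuous_apply j).continuousOn fun w hw => hw.1 j
    exact (Continuous.const_cpow (continuous_apply j) (Or.inl (X_ne hx j))).continuousOn
  · exact (AX_continuousOn k hρ hρe he x).mono fun w hw => hw.2.2
  · refine continuousOn_finsetProd _ fun i _ => continuousOn_finsetProd _ fun j _ => ?_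
    intro w hw
    have h1 := (differentiableAt_riemannZeta (arg_ne_one hw i j)).continuousAt
    have h2 : ContinuousWithinAt (fun w : Fin k → ℂ => 1 + w i + w j + ((x i - x j : ℝ) : ℂ) * I)
        (DD x e ρ) w := by
      have : Continuous (fun w : Fin k → ℂ => 1 + w i + w j + ((x i - x j : ℝ) : ℂ) * I) := by fun_prop
      exact this.continuousWithinAt
    exact ContinuousAt.comp_continuousWithinAt (g := riemannZeta) h1 h2

/-- all the factors which depend on the variable `j` in a holomorphic way at `s` -/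
lemma zfac_diff {k : ℕ} {x : Fin k → ℝ} (w : Fin k → ℂ) (j : Fin k) {s : ℂ} (i l : Fin k)
    (hne : 1 + (Function.update w j s) i + (Function.update w j s) l + ((x i - x l : ℝ) : ℂ) * I ≠ 1) :
    DifferentiableAt ℂ (fun s => riemannZeta (1 + (Function.update w j s) i + (Function.update w j s) l +
      ((x i - x l : ℝ) : ℂ) * I)) s := by
  have hupd : ∀ i : Fin k, DifferentiableAt ℂ (fun s => (Function.update w j s) i) s := by
    intro i
    by_cases h : i = j
    · subst h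
      simp only [Function.update_self]
      exact differentiableAt_id
    · have : (fun s => (Function.update w j s) i) = fun _ => w i := by
        funext s
        rw [Function.update_of_ne h]
      rw [this]
      exact differentiableAt_const _
  have h2 : DifferentiableAt ℂ (fun s => 1 + (Function.update w j s) i + (Function.update w j s) l +
      ((x i - x l : ℝ) : ℂ) * I) s :=
    (((differentiableAt_const _).add (hupd i)).add (hupd l)).add (differentiableAt_const _)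
  exact DifferentiableAt.comp (g := riemannZeta) s (differentiableAt_riemannZeta hne) h2

lemma upd_diff {k : ℕ} (w : Fin k → ℂ) (j : Fin k) (s : ℂ) (i : Fin k) :
    DifferentiableAt ℂ (fun s => (Function.update w j s) i) s := by
  by_cases h : i = j
  · subst h
    simp only [Function.update_self]
    exact differentiableAt_id
  · have : (fun s => (Function.update w j s) i) = fun _ => w i := by
      funext s
      rw [Function.update_of_ne h]
    rw [this]
    exact differentiableAt_const _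

lemma FF_diff {k : ℕ} {x : Fin k → ℝ} (hx : ∀ j, 0 < x j) {e ρ : ℝ} (hρ : 0 < ρ) (hρe : ρ < e)
    (he : e + ρ ≤ 1 / 2) (w : Fin k → ℂ) (j : Fin k) {s : ℂ} (hs : Function.update w j s ∈ DD x e ρ) :
    DifferentiableAt ℂ (fun s => FF x (Function.update w j s)) s := by
  have e1 : FF x = fun w => (∏ j, (((x j / (2 * Real.pi) : ℝ) : ℂ) ^ (w j) / w j)) *
      (AX x w * ∏ i, ∏ j, riemannZeta (1 + w i + w j + ((x i - x j : ℝ) : ℂ) * I)) := by
    funext w
    unfold FF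
    rw [GX_eq]
  rw [e1]
  refine DifferentiableAt.mul ?_ (DifferentiableAt.mul ?_ ?_)
  · refine DifferentiableAt.fun_finsetProd fun i _ => ?_
    refine DifferentiableAt.div ?_ (upd_diff w j s i) (hs.1 i)
    exact DifferentiableAt.const_cpow (upd_diff w j s i) (Or.inl (X_ne hx i))
  · exact AX_diff hρ hρe he x w j hs.2.2
  · refine DifferentiableAt.fun_finsetProd fun i _ => DifferentiableAt.fun_finsetProd fun l _ => ?_
    exact zfac_diff w j i l (arg_ne_one hs i l)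

/-! ### the function for the one variable shift -/

/-- the remaining factors -/
noncomputable def fj {k : ℕ} (x : Fin k → ℝ) (w : Fin k → ℂ) (j : Fin k) (s : ℂ) : ℂ :=
  (∏ i ∈ Finset.univ.erase j, (((x i / (2 * Real.pi) : ℝ) : ℂ) ^ (w i) / w i)) *
    (AX x (Function.update w j s) *
      ∏ p ∈ (Finset.univ ×ˢ Finset.univ : Finset (Fin k × Fin k)).erase (j, j),
        riemannZeta (1 + (Function.update w j s) p.1 + (Function.update w j s) p.2 +
          ((x p.1 - x p.2 : ℝ) : ℂ) * I))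

lemma FF_update {k : ℕ} (x : Fin k → ℝ) (w : Fin k → ℂ) (j : Fin k) (s : ℂ) :
    FF x (Function.update w j s) =
      ((x j / (2 * Real.pi) : ℝ) : ℂ) ^ s * riemannZeta (1 + 2 * s) / s * fj x w j s := by
  unfold FF fj
  rw [GX_eq]
  have h1 : (∏ i, (((x i / (2 * Real.pi) : ℝ) : ℂ) ^ (Function.update w j s i) / Function.update w j s i)) =
      ((x j / (2 * Real.pi) : ℝ) : ℂ) ^ s / s *
        ∏ i ∈ Finset.univ.erase j, (((x i / (2 * Real.pi) : ℝ) : ℂ) ^ (w i) / w i) := by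
    rw [← Finset.mul_prod_erase Finset.univ _ (Finset.mem_univ j), Function.update_self]
    congr 1
    refine Finset.prod_congr rfl fun i hi => ?_
    rw [Function.update_of_ne (Finset.ne_of_mem_erase hi)]
  have h2 : (∏ i, ∏ l, riemannZeta (1 + (Function.update w j s) i + (Function.update w j s) l +
      ((x i - x l : ℝ) : ℂ) * I)) = riemannZeta (1 + 2 * s) *
      ∏ p ∈ (Finset.univ ×ˢ Finset.univ : Finset (Fin k × Fin k)).erase (j, j),
        riemannZeta (1 + (Function.update w j s) p.1 + (Function.update w j s) p.2 +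
          ((x p.1 - x p.2 : ℝ) : ℂ) * I) := by
    rw [← Finset.prod_product' Finset.univ Finset.univ (fun i l =>
      riemannZeta (1 + (Function.update w j s) i + (Function.update w j s) l +
        ((x i - x l : ℝ) : ℂ) * I)),
      ← Finset.mul_prod_erase (Finset.univ ×ˢ Finset.univ : Finset (Fin k × Fin k)) _
        (show (j, j) ∈ (Finset.univ ×ˢ Finset.univ : Finset (Fin k × Fin k)) by simp)]
    congr 1
    simp only [Function.update_self, sub_self, Complex.ofReal_zero, zero_mul, add_zero]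
    congr 1
    ring
  rw [h1, h2]
  ring

lemma prod_le_pow_of_card {ι : Type*} (S : Finset ι) (a : ι → ℝ) {M : ℝ} (hM : 1 ≤ M) {N : ℕ}
    (hN : S.card ≤ N) (h0 : ∀ i ∈ S, 0 ≤ a i) (h1 : ∀ i ∈ S, a i ≤ M) : ∏ i ∈ S, a i ≤ M ^ N := by
  calc ∏ i ∈ S, a i ≤ ∏ _i ∈ S, M := Finset.prod_le_prod h0 h1
    _ = M ^ S.card := by rw [Finset.prod_const]
    _ ≤ M ^ N := pow_le_pow_right₀ hM hN

lemma zeta_P {r c : ℝ} (hr : 0 < r) (hr2 : r ≤ 1 / 8) (hc : 0 < c) : ∃ C : ℝ, 0 < C ∧ ∀ z : ℂ,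
    (z.re = c ∨ ‖z‖ = r) → ‖riemannZeta (1 + 2 * z)‖ ≤ C := by
  obtain ⟨C1, hC1, h1⟩ := zeta_bound_re (2 * c) (by positivity)
  obtain ⟨C2, hC2, h2⟩ := zE_bound (1 / 2) (by norm_num)
  refine ⟨C1 + 9 * C2 / (2 * r), by positivity, fun z hz => ?_⟩
  rcases hz with hz | hz
  · have := h1 (1 + 2 * z) (by simp [hz])
    have h3 : 0 ≤ 9 * C2 / (2 * r) := by positivity
    linarith
  · have hz0 : z ≠ 0 := by
      rintro rfl
      simp at hz
      exact hr.ne hz
    have hne : 1 + 2 * z ≠ 1 := by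
      intro h
      apply hz0
      have : 2 * z = 0 := by linear_combination h
      simpa using this
    have hzE := P4f18dfV.zE_of_ne hne
    have h3 : riemannZeta (1 + 2 * z) = P4f18dfV.zE (1 + 2 * z) / (2 * z) := by
      rw [hzE]
      field_simp
      ring
    rw [h3, norm_div]
    have h4 : ‖(2 : ℂ) * z‖ = 2 * r := by rw [norm_mul, hz]; simp
    rw [h4]
    have hre : |z.re| ≤ r := by rw [← hz]; exact Complex.abs_re_le_norm z
    have h5 := h2 (1 + 2 * z) (by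
      simp only [Complex.add_re, Complex.one_re, Complex.mul_re, Complex.re_ofNat, Complex.im_ofNat, zero_mul, sub_zero]
      have := (abs_le.1 hre).1
      linarith)
    have h6 : ‖1 + 2 * z‖ ≤ 2 := by
      calc ‖1 + 2 * z‖ ≤ ‖(1:ℂ)‖ + ‖2 * z‖ := norm_add_le _ _
        _ = 1 + 2 * r := by rw [h4]; simp
        _ ≤ 2 := by linarith
    have h7 : ‖P4f18dfV.zE (1 + 2 * z)‖ ≤ 9 * C2 := by
      refine h5.trans ?_
      have : (1 + ‖1 + 2 * z‖) ^ 2 ≤ 9 := by
        have := norm_nonneg (1 + 2 * z)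
        nlinarith
      nlinarith
    have h8 : ‖P4f18dfV.zE (1 + 2 * z)‖ / (2 * r) ≤ 9 * C2 / (2 * r) :=
      div_le_div_of_nonneg_right h7 (by positivity)
    linarith

lemma good_zeta {κ Y B δ : ℝ} (h : Good κ Y B δ) {a b : ℂ} (h1 : 1 / 2 + κ ≤ 1 + a.re + b.re)
    (h2 : 1 + a.re + b.re ≤ 3) (h3 : |a.im| ≤ Y) (h4 : |b.im| ≤ Y) :
    ‖riemannZeta (1 + a + b + (δ : ℂ) * I)‖ ≤ B := by
  have := h.2 (1 + a.re + b.re) (a.im + b.im) h1 h2 (by
    calc |a.im + b.im| ≤ |a.im| + |b.im| := abs_add_le _ _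
      _ ≤ 2 * Y := by linarith)
  have e1 : 1 + a + b + (δ : ℂ) * I = ((1 + a.re + b.re : ℝ) : ℂ) + ((δ + (a.im + b.im) : ℝ) : ℂ) * I := by
    apply Complex.ext
    · simp
    · simp
      ring
  rw [e1]
  exact this

lemma good_ne {κ Y B δ : ℝ} (h : Good κ Y B δ) {a b : ℂ} (h3 : |a.im| ≤ Y) (h4 : |b.im| ≤ Y) :
    |a.im + b.im| < |δ| := by
  have hY : 0 ≤ Y := (abs_nonneg _).trans h3
  calc |a.im + b.im| ≤ |a.im| + |b.im| := abs_add_le _ _
    _ ≤ 2 * Y := by linarith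
    _ ≤ 4 * Y := by linarith
    _ < |δ| := h.1

lemma two_pi_le : 2 * Real.pi ≤ 7 := by
  have := Real.pi_lt_d2
  linarith

lemma X_rpow_le {U x a c r : ℝ} (hU : 1 ≤ U) (h1 : U ≤ x) (h2 : x ≤ 4 * U) (hr : r ≤ 1) (ha : -r ≤ a)
    (hac : a ≤ c) (hc : 0 ≤ c) : (x / (2 * Real.pi)) ^ a ≤ 7 * U ^ c := by
  have hpi : (0:ℝ) < 2 * Real.pi := by positivity
  have hx : 0 < x := by linarith
  have hX : 0 < x / (2 * Real.pi) := by positivity
  have hUc : 1 ≤ U ^ c := Real.one_le_rpow hU hc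
  by_cases hX1 : 1 ≤ x / (2 * Real.pi)
  · have h3 : x / (2 * Real.pi) ≤ U := by
      rw [div_le_iff₀ hpi]
      have := Real.pi_gt_three
      nlinarith
    calc (x / (2 * Real.pi)) ^ a ≤ (x / (2 * Real.pi)) ^ c := Real.rpow_le_rpow_of_exponent_le hX1 hac
      _ ≤ U ^ c := Real.rpow_le_rpow hX.le h3 hc
      _ ≤ 7 * U ^ c := by linarith
  · push Not at hX1
    by_cases ha0 : 0 ≤ a
    · have := Real.rpow_le_one hX.le hX1.le ha0
      linarith
    · push Not at ha0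
      have h4 : (x / (2 * Real.pi)) ^ a ≤ (x / (2 * Real.pi)) ^ (-1 : ℝ) :=
        Real.rpow_le_rpow_of_exponent_ge hX hX1.le (by linarith)
      have h5 : (x / (2 * Real.pi)) ^ (-1 : ℝ) = 2 * Real.pi / x := by
        rw [Real.rpow_neg_one, inv_div]
      have h6 : 2 * Real.pi / x ≤ 7 := by
        rw [div_le_iff₀ hx]
        have := two_pi_le
        nlinarith
      rw [h5] at h4
      linarith

lemma X_rpow_le' {U x b : ℝ} (hU : 1 ≤ U) (h1 : U ≤ x) (hb : 0 ≤ b) (hb1 : b ≤ 1) :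
    (x / (2 * Real.pi)) ^ (-b) ≤ 7 * U ^ (-b) := by
  have hpi : (0:ℝ) < 2 * Real.pi := by positivity
  have hU0 : 0 < U := by linarith
  have h3 : U / (2 * Real.pi) ≤ x / (2 * Real.pi) := div_le_div_of_nonneg_right h1 hpi.le
  calc (x / (2 * Real.pi)) ^ (-b) ≤ (U / (2 * Real.pi)) ^ (-b) :=
        Real.rpow_le_rpow_of_nonpos (by positivity) h3 (by linarith)
    _ = U ^ (-b) * (2 * Real.pi) ^ b := by
        rw [Real.div_rpow hU0.le hpi.le, Real.rpow_neg hpi.le, div_inv_eq_mul]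
    _ ≤ U ^ (-b) * 7 := by
        refine mul_le_mul_of_nonneg_left ?_ (Real.rpow_nonneg hU0.le _)
        have hpi1 : 1 ≤ 2 * Real.pi := by have := Real.pi_gt_three; linarith
        calc (2 * Real.pi) ^ b ≤ (2 * Real.pi) ^ (1:ℝ) := Real.rpow_le_rpow_of_exponent_le hpi1 hb1
          _ = 2 * Real.pi := Real.rpow_one _
          _ ≤ 7 := two_pi_le
    _ = 7 * U ^ (-b) := by ring

/-- the contour for the other variables -/
def PP (c Y r : ℝ) : Set ℂ := {z | (z.re = c ∧ |z.im| ≤ Y) ∨ ‖z‖ = r}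

lemma PP_facts {c Y r : ℝ} (hr : 0 < r) (hrc : r < c) (hrY : r ≤ Y) {z : ℂ} (hz : z ∈ PP c Y r) :
    r ≤ ‖z‖ ∧ -r ≤ z.re ∧ z.re ≤ c ∧ |z.im| ≤ Y := by
  rcases hz with ⟨h1, h2⟩ | h
  · refine ⟨?_, by linarith, h1.le, h2⟩
    have := Complex.abs_re_le_norm z
    have h3 := le_abs_self z.re
    linarith
  · have h1 := Complex.abs_re_le_norm z
    have h2 := Complex.abs_im_le_norm z
    rw [h] at h1 h2
    exact ⟨h.ge, (abs_le.1 h1).1, (le_abs_self _).trans (h1.trans hrc.le), h2.trans hrY⟩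

lemma fj_diff {k : ℕ} {x : Fin k → ℝ} {e ρ : ℝ} (hρ : 0 < ρ) (hρe : ρ < e)
    (he : e + ρ ≤ 1 / 2) (w : Fin k → ℂ) (j : Fin k) {s : ℂ} (hs : Function.update w j s ∈ Rg k e ρ)
    (h0 : ∀ i, i ≠ j → w i ≠ 0)
    (h1 : ∀ i l, i ≠ l → |(Function.update w j s i).im + (Function.update w j s l).im| < |x i - x l|) :
    DifferentiableAt ℂ (fj x w j) s := by
  unfold fj
  refine (differentiableAt_const _).mul (DifferentiableAt.mul ?_ ?_)
  · exact AX_diff hρ hρe he x w j hs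
  · refine DifferentiableAt.fun_finsetProd fun p hp => ?_
    refine zfac_diff w j p.1 p.2 ?_
    intro h
    by_cases hij : p.1 = p.2
    · have hpj : p.1 ≠ j := by
        intro hj
        have h2 := Finset.ne_of_mem_erase hp
        exact h2 (Prod.ext hj (hij ▸ hj))
      rw [← hij, Function.update_of_ne hpj] at h
      have h3 : 2 * w p.1 = 0 := by
        simp only [sub_self, Complex.ofReal_zero, zero_mul, add_zero] at h
        linear_combination h
      exact h0 p.1 hpj (by simpa using h3)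
    · have h2 := h1 p.1 p.2 hij
      have h3 : (Function.update w j s p.1).im + (Function.update w j s p.2).im + (x p.1 - x p.2) = 0 := by
        have := congrArg Complex.im h
        simpa using this
      have h4 : |(Function.update w j s p.1).im + (Function.update w j s p.2).im| = |x p.1 - x p.2| := by
        have : (Function.update w j s p.1).im + (Function.update w j s p.2).im = -(x p.1 - x p.2) := by
          linarith
        rw [this, abs_neg]
      linarith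

lemma fj_bound {k : ℕ} {x : Fin k → ℝ} {U c r e κ Y B CA CZ : ℝ} (hU : 1 ≤ U) (hx1 : ∀ j, U ≤ x j)
    (hx2 : ∀ j, x j ≤ 4 * U) (hr : 0 < r) (hrc : r < c) (hc1 : c ≤ 1) (hκ : 0 < κ) (hκe : κ + r ≤ e)
    (hκr : κ + 2 * r ≤ 1 / 2) (hY : 1 ≤ Y)
    (hgood : ∀ i l, i ≠ l → Good κ Y (B * U ^ κ) (x i - x l)) (w : Fin k → ℂ)
    (hw : ∀ i, w i ∈ PP c Y r) (hCZ : ∀ z : ℂ, (z.re = c ∨ ‖z‖ = r) → ‖riemannZeta (1 + 2 * z)‖ ≤ CZ)
    (j : Fin k) {s : ℂ} (hs1 : -(1 / 2) + e ≤ s.re) (hs2 : s.re ≤ c) (hs3 : |s.im| ≤ Y)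
    (hCA : ‖AX x (Function.update w j s)‖ ≤ CA) :
    ‖fj x w j s‖ ≤ (7 * U ^ c / r) ^ k * (CA * (max (max B CZ) 1 * U ^ κ) ^ (k * k)) := by
  have hcpos : 0 < c := hr.trans hrc
  have hUc : 1 ≤ U ^ c := Real.one_le_rpow hU hcpos.le
  have hUκ : 1 ≤ U ^ κ := Real.one_le_rpow hU hκ.le
  have hr1 : r < 1 := hrc.trans_le hc1
  have hM1 : 1 ≤ max (max B CZ) 1 := le_max_right _ _
  have hMU : 1 ≤ max (max B CZ) 1 * U ^ κ := by nlinarith
  have hbase : 1 ≤ 7 * U ^ c / r := by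
    rw [le_div_iff₀ hr]
    linarith
  unfold fj
  rw [norm_mul, norm_mul, norm_prod, norm_prod]
  have hfacts := fun i => PP_facts hr hrc (hr1.le.trans hY) (hw i)
  have b1 : ∏ i ∈ Finset.univ.erase j, ‖((x i / (2 * Real.pi) : ℝ) : ℂ) ^ (w i) / w i‖ ≤
      (7 * U ^ c / r) ^ k := by
    refine prod_le_pow_of_card _ _ hbase ?_ (fun i _ => norm_nonneg _) ?_
    · calc (Finset.univ.erase j).card ≤ (Finset.univ : Finset (Fin k)).card := Finset.card_le_card (Finset.erase_subset _ _)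
        _ = k := by simp
    · intro i _
      have hX : 0 < x i / (2 * Real.pi) := div_pos (by linarith [hx1 i]) (by positivity)
      rw [norm_div, Complex.norm_cpow_eq_rpow_re_of_pos hX]
      obtain ⟨f1, f2, f3, f4⟩ := hfacts i
      refine div_le_div₀ (by positivity) ?_ hr f1
      exact X_rpow_le hU (hx1 i) (hx2 i) hr1.le f2 f3 hcpos.le
  have b2 : ∏ p ∈ (Finset.univ ×ˢ Finset.univ : Finset (Fin k × Fin k)).erase (j, j),
      ‖riemannZeta (1 + (Function.update w j s) p.1 + (Function.update w j s) p.2 +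
          ((x p.1 - x p.2 : ℝ) : ℂ) * I)‖ ≤ (max (max B CZ) 1 * U ^ κ) ^ (k * k) := by
    refine prod_le_pow_of_card _ _ hMU ?_ (fun i _ => norm_nonneg _) ?_
    · calc ((Finset.univ ×ˢ Finset.univ : Finset (Fin k × Fin k)).erase (j, j)).card ≤
          (Finset.univ ×ˢ Finset.univ : Finset (Fin k × Fin k)).card := Finset.card_le_card (Finset.erase_subset _ _)
        _ = k * k := by simp
    · intro p hp
      by_cases hij : p.1 = p.2
      · have hpj : p.1 ≠ j := by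
          intro hj
          have h2 := Finset.ne_of_mem_erase hp
          exact h2 (Prod.ext hj (hij ▸ hj))
        rw [← hij, Function.update_of_ne hpj]
        have e1 : (1 + w p.1 + w p.1 + ((x p.1 - x p.1 : ℝ) : ℂ) * I) = 1 + 2 * w p.1 := by
          simp only [sub_self, Complex.ofReal_zero, zero_mul, add_zero]
          ring
        rw [e1]
        have h3 := hCZ (w p.1) (by
          rcases hw p.1 with h | h
          · exact Or.inl h.1
          · exact Or.inr h)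
        have h4 : CZ ≤ max (max B CZ) 1 := (le_max_right _ _).trans (le_max_left _ _)
        calc ‖riemannZeta (1 + 2 * w p.1)‖ ≤ max (max B CZ) 1 := h3.trans h4
          _ = max (max B CZ) 1 * 1 := (mul_one _).symm
          _ ≤ max (max B CZ) 1 * U ^ κ := mul_le_mul_of_nonneg_left hUκ (by linarith)
      · have hlo : ∀ i, ((if i = j then -(1 / 2) + e else -r) ≤ (Function.update w j s i).re) ∧
            (Function.update w j s i).re ≤ c ∧ |(Function.update w j s i).im| ≤ Y := by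
          intro i
          by_cases h : i = j
          · subst h
            rw [if_pos rfl, Function.update_self]
            exact ⟨hs1, hs2, hs3⟩
          · rw [if_neg h, Function.update_of_ne h]
            obtain ⟨f1, f2, f3, f4⟩ := hfacts i
            exact ⟨f2, f3, f4⟩
        obtain ⟨a1, a2, a3⟩ := hlo p.1
        obtain ⟨c1, c2, c3⟩ := hlo p.2
        have hsum : 1 / 2 + κ ≤ 1 + (Function.update w j s p.1).re + (Function.update w j s p.2).re := by
          split_ifs at a1 c1 with q1 q2 q2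
          · exact absurd (q1.trans q2.symm) hij
          · linarith
          · linarith
          · linarith
        have h5 := good_zeta (hgood p.1 p.2 hij) hsum (by linarith) a3 c3
        refine h5.trans ?_
        exact mul_le_mul_of_nonneg_right ((le_max_left _ _).trans (le_max_left _ _)) (by linarith)
  have hCA0 : 0 ≤ CA := (norm_nonneg _).trans hCA
  refine mul_le_mul b1 ?_ (by positivity) (by positivity)
  exact mul_le_mul hCA b2 (Finset.prod_nonneg fun i _ => norm_nonneg _) hCA0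

lemma circ_eq (r : ℝ) (f : ℂ → ℂ) : I⁻¹ * (∮ s in C(0, r), f s) =
    ∫ θ in (0:ℝ)..(2 * Real.pi), (r * cexp (θ * I)) * f (r * cexp (θ * I)) := by
  unfold circleIntegral
  rw [← intervalIntegral.integral_const_mul]
  congr 1
  funext θ
  simp only [deriv_circleMap, circleMap, zero_add, smul_eq_mul]
  have hI : (I : ℂ) ≠ 0 := Complex.I_ne_zero
  field_simp

lemma exp_decay {κ : ℝ} (hκ : 0 < κ) : ∃ C : ℝ, 0 < C ∧ ∀ U : ℝ, 1 ≤ U →
    Real.exp (-((U ^ κ) ^ 2 / 2)) ≤ C * U ^ (-1 : ℝ) := by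
  obtain ⟨m, hm⟩ := exists_nat_ge (1 / κ)
  refine ⟨2 ^ m * m.factorial, by positivity, fun U hU => ?_⟩
  have hU0 : 0 < U := by linarith
  have hy : 1 ≤ U ^ κ := Real.one_le_rpow hU hκ.le
  have h1 : U ≤ (U ^ κ) ^ m := by
    rw [← Real.rpow_natCast, ← Real.rpow_mul hU0.le]
    have h2 : 1 ≤ κ * m := by
      rw [div_le_iff₀ hκ] at hm
      linarith
    calc U = U ^ (1:ℝ) := (Real.rpow_one U).symm
      _ ≤ U ^ (κ * m) := Real.rpow_le_rpow_of_exponent_le hU h2
  have h3 : (U ^ κ) ^ m ≤ ((U ^ κ) ^ 2) ^ m := pow_le_pow_left₀ (by linarith) (by nlinarith) m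
  have h4 : ((U ^ κ) ^ 2 / 2) ^ m / m.factorial ≤ Real.exp ((U ^ κ) ^ 2 / 2) :=
    Real.pow_div_factorial_le_exp _ (by positivity) m
  have hf : (0:ℝ) < m.factorial := by exact_mod_cast m.factorial_pos
  have h5 : ((U ^ κ) ^ 2) ^ m ≤ 2 ^ m * m.factorial * Real.exp ((U ^ κ) ^ 2 / 2) := by
    rw [div_pow, div_div, div_le_iff₀ (by positivity)] at h4
    linarith
  have h6 : U ≤ 2 ^ m * m.factorial * Real.exp ((U ^ κ) ^ 2 / 2) := h1.trans (h3.trans h5)
  rw [Real.exp_neg, Real.rpow_neg_one, ← div_eq_mul_inv, inv_eq_one_div, div_le_div_iff₀ (Real.exp_pos _) hU0]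
  linarith

lemma main_zero (x : Fin 0 → ℝ) : Dg x = 1 ∧ mainTerm x = 1 := by
  constructor
  · unfold Dg
    rw [tsum_eq_single (default : Fin 0 → ℕ+ × ℕ+) (fun b hb => absurd (Subsingleton.elim b _) hb)]
    simp [lam]
  · unfold mainTerm
    simp only [torusIntegral, GG, AA, Afac, MeasureTheory.volume_pi]
    simp only [pow_zero, inv_one, Finset.univ_eq_empty, Finset.prod_empty, mul_one, one_mul, integral_const, smul_eq_mul,
      intervalIntegral.integral_const, sub_zero, one_smul, tprod_one]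
    rw [MeasureTheory.Measure.pi_of_empty]
    have h1 : (Set.Icc (0 : Fin 0 → ℝ) (fun _ => 2 * Real.pi)) = Set.univ := by
      ext v
      simp
    rw [h1]
    simp

lemma one_diff {e r c : ℝ} (hr : 0 < r) (hrc : r < c) (hc : c ≤ 1) (he : 0 < e) (hre : r < 1 / 2 - e) :
    ∃ C : ℝ, 0 < C ∧ ∀ {k : ℕ} (x : Fin k → ℝ) (w : Fin k → ℂ) (j : Fin k) (Y B : ℝ), 0 < x j → 1 ≤ Y → 0 ≤ B →
    (∀ s : ℂ, -(1 / 2) + e ≤ s.re → s.re ≤ c → |s.im| ≤ Y → DifferentiableAt ℂ (fj x w j) s) →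
    (∀ s : ℂ, -(1 / 2) + e ≤ s.re → s.re ≤ c → |s.im| ≤ Y → ‖fj x w j s‖ ≤ B) →
    ‖(∫ v in (-Y)..Y, cexp (((c : ℂ) + v * I) ^ 2) * FF x (Function.update w j ((c : ℂ) + v * I))) -
      ∫ v in (0:ℝ)..(2 * Real.pi), (r * cexp (v * I)) * FF x (Function.update w j (r * cexp (v * I)))‖ ≤
      C * B * ((x j / (2 * Real.pi)) ^ (-(1 / 2) + e) + (x j / (2 * Real.pi)) ^ c * Real.exp (-(Y ^ 2 / 2))) := by
  obtain ⟨C, hC, h⟩ := one_var hr hrc hc he hre
  refine ⟨C, hC, fun {k} x w j Y B hx hY hB h1 h2 => ?_⟩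
  have h3 := h (x j / (2 * Real.pi)) Y B (fj x w j) (div_pos hx (by positivity)) hY hB h1 h2
  rw [circ_eq r (fun s => ((x j / (2 * Real.pi) : ℝ) : ℂ) ^ s * riemannZeta (1 + 2 * s) / s * fj x w j s)] at h3
  simp_rw [FF_update]
  exact h3

lemma annulus_mem {k : ℕ} (hk : 1 ≤ k) {x : Fin k → ℝ} (hx : ∀ i j, i ≠ j → 1 < |x i - x j|) {r : ℝ} (hr : 0 < r)
    {w : Fin k → ℂ} (hw : ∀ j, r ≤ ‖w j‖ ∧ ‖w j‖ ≤ 1 / 8) : w ∈ DD x (5 / 16) (3 / 16) := by
  refine ⟨fun i hi => ?_, fun i j hij => ?_, ?_⟩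
  · have := (hw i).1
    rw [hi, norm_zero] at this
    linarith
  · have h1 := (Complex.abs_im_le_norm (w i)).trans (hw i).2
    have h2 := (Complex.abs_im_le_norm (w j)).trans (hw j).2
    have h3 := abs_add_le (w i).im (w j).im
    linarith [hx i j hij]
  · refine ⟨⟨0, hk⟩, ?_, fun j _ => ?_⟩
    · have h1 := (Complex.abs_re_le_norm (w ⟨0, hk⟩)).trans (hw ⟨0, hk⟩).2
      have := (abs_le.1 h1).1
      linarith
    · have h1 := (Complex.abs_re_le_norm (w j)).trans (hw j).2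
      have := (abs_le.1 h1).1
      linarith

lemma main_eq {k : ℕ} (hk : 1 ≤ k) {x : Fin k → ℝ} (hxpos : ∀ j, 0 < x j) (hsep : ∀ i j, i ≠ j → 1 < |x i - x j|)
    {r : ℝ} (hr0 : 0 < r) (hr8 : r ≤ 1 / 8) :
    mainTerm x = ((Real.pi : ℂ) ^ k)⁻¹ * ∫ v in Set.Icc (fun _ : Fin k => (0:ℝ)) (fun _ => 2 * Real.pi),
    (∏ j, (r * cexp (v j * I))) * FF x (fun j => r * cexp (v j * I)) := by
  have e1 : mainTerm x = ((Real.pi * I) ^ k)⁻¹ * ∯ w in T(0, fun _ => 1 / 8), FF x w := by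
    unfold mainTerm FF GX
    congr 1
    congr 1
    funext w
    rw [mul_comm]
  have e2 : (∯ w in T(0, fun _ => 1 / 8), FF x w) = ∯ w in T(0, fun _ => r), FF x w := by
    refine torus_radius hr0 hr8 (FF x) ?_ ?_
    · exact (FF_cont hxpos (e := 5 / 16) (ρ := 3 / 16) (by norm_num) (by norm_num) (by norm_num)).mono
        fun w hw => annulus_mem hk hsep hr0 hw
    · intro w hw j s hs1 hs2
      refine FF_diff hxpos (e := 5 / 16) (ρ := 3 / 16) (by norm_num) (by norm_num) (by norm_num) w j ?_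
      refine annulus_mem hk hsep hr0 fun i => ?_
      by_cases h : i = j
      · subst h; rw [Function.update_self]; exact ⟨hs1.le, hs2.le⟩
      · rw [Function.update_of_ne h]; exact hw i
  rw [e1, e2, torus_eq]
  have e3 : ∀ v : Fin k → ℝ, (∏ j, ((r : ℂ) * cexp (v j * I) * I)) * FF x (fun j => r * cexp (v j * I)) =
      I ^ k * ((∏ j, ((r : ℂ) * cexp (v j * I))) * FF x (fun j => r * cexp (v j * I))) := by
    intro v
    rw [Finset.prod_mul_distrib]
    simp only [Finset.prod_const, Finset.card_univ, Fintype.card_fin]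
    ring
  simp_rw [e3]
  have hI : (I : ℂ) ^ k ≠ 0 := pow_ne_zero _ Complex.I_ne_zero
  rw [MeasureTheory.integral_const_mul, mul_pow, mul_inv, mul_assoc, inv_mul_cancel_left₀ hI]

lemma pow_aux (k : ℕ) {U κ c r ε e CA M C1 C2 : ℝ} (hU : 1 ≤ U) (hr0 : 0 < r) (hCA : 0 ≤ CA)
    (hM : 0 ≤ M) (hC1 : 0 ≤ C1) (hC2 : 0 ≤ C2) (hY : 1 ≤ U ^ κ) (hkκ : κ * (k * k + k) ≤ ε / 8) (hkc : k * c ≤ ε / 8)
    (he : e ≤ 3 * ε / 4) :
    k * (20 * U ^ κ) ^ (k - 1) * (C1 * ((7 * U ^ c / r) ^ k * (CA * (M * U ^ κ) ^ (k * k))) *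
      ((7 + 7 * C2) * U ^ (-(1 / 2) + e))) ≤
      k * 20 ^ k * (C1 * ((7 / r) ^ k * (CA * M ^ (k * k))) * (7 + 7 * C2)) * U ^ (-(1 / 2) + ε) := by
  have hU0 : 0 < U := by linarith
  have c1 : (20 * U ^ κ) ^ (k - 1) ≤ (20 * U ^ κ) ^ k :=
    pow_le_pow_right₀ (by linarith) (Nat.sub_le _ _)
  have hpos : 0 ≤ C1 * ((7 * U ^ c / r) ^ k * (CA * (M * U ^ κ) ^ (k * k))) *
      ((7 + 7 * C2) * U ^ (-(1 / 2) + e)) := by positivity
  have c2 : k * (20 * U ^ κ) ^ (k - 1) * (C1 * ((7 * U ^ c / r) ^ k * (CA * (M * U ^ κ) ^ (k * k))) *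
      ((7 + 7 * C2) * U ^ (-(1 / 2) + e))) ≤ k * (20 * U ^ κ) ^ k *
      (C1 * ((7 * U ^ c / r) ^ k * (CA * (M * U ^ κ) ^ (k * k))) * ((7 + 7 * C2) * U ^ (-(1 / 2) + e))) :=
    mul_le_mul_of_nonneg_right (mul_le_mul_of_nonneg_left c1 (Nat.cast_nonneg k)) hpos
  have d1 : (U ^ κ) ^ k = U ^ (κ * k) := by rw [← Real.rpow_natCast, ← Real.rpow_mul hU0.le]
  have d2 : (7 * U ^ c / r) ^ k = (7 / r) ^ k * U ^ (c * k) := by
    rw [show 7 * U ^ c / r = (7 / r) * U ^ c by ring, mul_pow]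
    congr 1
    rw [← Real.rpow_natCast, ← Real.rpow_mul hU0.le]
  have d3 : (U ^ κ) ^ (k * k) = U ^ (κ * (k * k)) := by
    rw [← Real.rpow_natCast, ← Real.rpow_mul hU0.le]
    push_cast
    rfl
  have d4 : U ^ (κ * k + c * k + κ * (k * k) + (-(1 / 2) + e)) ≤ U ^ (-(1 / 2) + ε) :=
    Real.rpow_le_rpow_of_exponent_le hU (by nlinarith [hkκ, hkc])
  have d5 : U ^ (κ * k + c * k + κ * (k * k) + (-(1 / 2) + e)) =
      U ^ (κ * k) * U ^ (c * k) * U ^ (κ * (k * k)) * U ^ (-(1 / 2) + e) := by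
    rw [Real.rpow_add hU0, Real.rpow_add hU0, Real.rpow_add hU0]
  refine c2.trans ?_
  rw [mul_pow, mul_pow, d1, d2, d3]
  have hc : 0 ≤ k * 20 ^ k * (C1 * ((7 / r) ^ k * (CA * M ^ (k * k))) * (7 + 7 * C2)) := by positivity
  have := mul_le_mul_of_nonneg_left d4 hc
  rw [d5] at this
  refine le_trans (le_of_eq ?_) this
  ring

lemma main_pos (k : ℕ) (hk : 1 ≤ k) (ε : ℝ) (hε : 0 < ε) (hε1 : ε ≤ 1) :
    ∃ κ : ℝ, 0 < κ ∧ κ ≤ 1 / 4 ∧ ∀ B : ℝ, ∃ C : ℝ, 0 < C ∧
    ∀ (U : ℝ) (x : Fin k → ℝ), 1 ≤ U → (∀ j, U ≤ x j) → (∀ j, x j ≤ 4 * U) →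
    (∀ i j, i ≠ j → Good κ (U ^ κ) (B * U ^ κ) (x i - x j)) →
    ‖Dg x - mainTerm x‖ ≤ C * U ^ (-(1 / 2) + ε) := by
  have hk' : (1:ℝ) ≤ k := by exact_mod_cast hk
  obtain ⟨K, hK⟩ : ∃ K : ℝ, K = (k:ℝ) + 1 := ⟨_, rfl⟩
  have hK2 : 2 ≤ K := by linarith
  have hK0 : 0 < K := by linarith
  obtain ⟨e, he⟩ : ∃ e : ℝ, e = ε / 4 := ⟨_, rfl⟩
  obtain ⟨c, hc⟩ : ∃ c : ℝ, c = ε / (8 * K) := ⟨_, rfl⟩
  obtain ⟨r, hr⟩ : ∃ r : ℝ, r = c / 2 := ⟨_, rfl⟩
  obtain ⟨κ, hκ⟩ : ∃ κ : ℝ, κ = ε / (8 * K ^ 2) := ⟨_, rfl⟩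
  have hc0 : 0 < c := by rw [hc]; positivity
  have hcε : c ≤ ε / 16 := by
    rw [hc]
    exact div_le_div_of_nonneg_left hε.le (by norm_num) (by linarith)
  have hr0 : 0 < r := by linarith
  have hκ0 : 0 < κ := by rw [hκ]; positivity
  have hκε : κ ≤ ε / 32 := by
    rw [hκ]
    exact div_le_div_of_nonneg_left hε.le (by norm_num) (by nlinarith)
  have hkc : k * c ≤ ε / 8 := by
    rw [hc, mul_div_assoc', div_le_div_iff₀ (by positivity) (by norm_num)]
    nlinarith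
  have hkκ : κ * (k * k + k) ≤ ε / 8 := by
    rw [hκ, div_mul_eq_mul_div, div_le_div_iff₀ (by positivity) (by norm_num)]
    have : (k:ℝ) * k + k ≤ K ^ 2 := by rw [hK]; nlinarith
    nlinarith
  obtain ⟨CA, hCA0, hCA⟩ := AX_bound k (e := e / 2) (ρ := c) hc0 (by linarith) (by linarith)
  obtain ⟨CZ, hCZ0, hCZ⟩ := zeta_P (r := r) (c := c) hr0 (by linarith) hc0
  obtain ⟨C1, hC1, h1v⟩ := one_diff (e := e) (r := r) (c := c) hr0 (by linarith) (by linarith) (by linarith)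
    (by linarith)
  obtain ⟨C2, hC2, hexp⟩ := exp_decay hκ0
  obtain ⟨C3, hC3, hdg⟩ := dg_trunc k (c := c) hc0 (by linarith)
  refine ⟨κ, hκ0, by linarith, fun B => ?_⟩
  obtain ⟨M, hM⟩ : ∃ M : ℝ, M = max (max B CZ) 1 := ⟨_, rfl⟩
  have hM1 : 1 ≤ M := by rw [hM]; exact le_max_right _ _
  refine ⟨C3 * C2 + k * 20 ^ k * (C1 * ((7 / r) ^ k * (CA * M ^ (k * k))) * (7 + 7 * C2)), by positivity,
    fun U x hU hx1 hx2 hgood => ?_⟩
  have hU0 : 0 < U := by linarith
  have hY : 1 ≤ U ^ κ := Real.one_le_rpow hU hκ0.le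
  have hxpos : ∀ j, 0 < x j := fun j => by linarith [hx1 j]
  have hrY : r ≤ U ^ κ := by linarith
  have hsep : ∀ i j, i ≠ j → 1 < |x i - x j| := fun i j hij => by
    have := (hgood i j hij).1
    linarith
  have hUc : 1 ≤ U ^ c := Real.one_le_rpow hU hc0.le
  -- the two integrals
  set T1 : ℂ := ∫ v in Set.Icc (fun _ : Fin k => -(U ^ κ)) (fun _ => U ^ κ),
    (∏ j, cexp (((c : ℂ) + v j * I) ^ 2)) * FF x (fun j => (c : ℂ) + v j * I) with hT1
  set T2 : ℂ := ∫ v in Set.Icc (fun _ : Fin k => (0:ℝ)) (fun _ => 2 * Real.pi),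
    (∏ j, (r * cexp (v j * I))) * FF x (fun j => r * cexp (v j * I)) with hT2
  obtain ⟨E, hE⟩ : ∃ E : ℝ, E = C1 * ((7 * U ^ c / r) ^ k * (CA * (M * U ^ κ) ^ (k * k))) *
    ((7 + 7 * C2) * U ^ (-(1 / 2) + e)) := ⟨_, rfl⟩
  have hE0 : 0 ≤ E := by rw [hE]; positivity
  -- one variable
  have hone : ∀ w ∈ (Set.univ.pi fun _ : Fin k => PP c (U ^ κ) r), ∀ j : Fin k,
      ‖(∫ v in (-(U ^ κ))..(U ^ κ), cexp (((c : ℂ) + v * I) ^ 2) * FF x (Function.update w j ((c : ℂ) + v * I))) -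
      ∫ v in (0:ℝ)..(2 * Real.pi), (r * cexp (v * I)) * FF x (Function.update w j (r * cexp (v * I)))‖ ≤ E := by
    intro w hw j
    have hw' : ∀ i, w i ∈ PP c (U ^ κ) r := fun i => hw i (Set.mem_univ i)
    have hfacts := fun i => PP_facts hr0 (by linarith : r < c) hrY (hw' i)
    have hmem : ∀ s : ℂ, -(1 / 2) + e ≤ s.re → Function.update w j s ∈ Rg k (e / 2) c := by
      intro s hs
      refine ⟨j, ?_, fun i hi => ?_⟩
      · rw [Function.update_self]; linarith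
      · rw [Function.update_of_ne hi]
        have := (hfacts i).2.1
        linarith
    have h2 := h1v x w j (U ^ κ) ((7 * U ^ c / r) ^ k * (CA * (M * U ^ κ) ^ (k * k))) (hxpos j) hY (by positivity)
      (fun s hs1 hs2 hs3 => by
        refine fj_diff (e := e / 2) (ρ := c) hc0 (by linarith) (by linarith) w j (hmem s hs1) ?_ ?_
        · intro i _ h0
          have := (hfacts i).1
          rw [h0, norm_zero] at this
          linarith
        · intro i l hil
          have him : ∀ i, |(Function.update w j s i).im| ≤ U ^ κ := by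
            intro i
            by_cases h : i = j
            · subst h; rw [Function.update_self]; exact hs3
            · rw [Function.update_of_ne h]; exact (hfacts i).2.2.2
          exact good_ne (hgood i l hil) (him i) (him l))
      (fun s hs1 hs2 hs3 => by
        rw [hM]
        exact fj_bound hU hx1 hx2 hr0 (by linarith) (by linarith) hκ0 (by linarith) (by linarith) hY hgood w hw' hCZ j
          hs1 hs2 hs3 (hCA x _ (hmem s hs1)).2)
    refine h2.trans ?_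
    rw [hE]
    refine mul_le_mul_of_nonneg_left ?_ (by positivity)
    have a1 : (x j / (2 * Real.pi)) ^ (-(1 / 2) + e) ≤ 7 * U ^ (-(1 / 2) + e) := by
      have := X_rpow_le' (b := 1 / 2 - e) hU (hx1 j) (by linarith) (by linarith)
      have e1 : -(1 / 2 - e) = -(1 / 2) + e := by ring
      rwa [e1] at this
    have a2 : (x j / (2 * Real.pi)) ^ c ≤ 7 * U ^ c :=
      X_rpow_le hU (hx1 j) (hx2 j) (r := r) (by linarith) (by linarith) le_rfl hc0.le
    have a3 := hexp U hU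
    have a4 : (x j / (2 * Real.pi)) ^ c * Real.exp (-((U ^ κ) ^ 2 / 2)) ≤ 7 * U ^ c * (C2 * U ^ (-1 : ℝ)) :=
      mul_le_mul a2 a3 (Real.exp_pos _).le (by positivity)
    have a5 : U ^ c * U ^ (-1 : ℝ) ≤ U ^ (-(1 / 2) + e) := by
      rw [← Real.rpow_add hU0]
      exact Real.rpow_le_rpow_of_exponent_le hU (by linarith)
    calc (x j / (2 * Real.pi)) ^ (-(1 / 2) + e) + (x j / (2 * Real.pi)) ^ c * Real.exp (-((U ^ κ) ^ 2 / 2))
        ≤ 7 * U ^ (-(1 / 2) + e) + 7 * C2 * (U ^ c * U ^ (-1 : ℝ)) := by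
          refine add_le_add a1 (a4.trans (le_of_eq ?_))
          ring
      _ ≤ 7 * U ^ (-(1 / 2) + e) + 7 * C2 * U ^ (-(1 / 2) + e) := by
          have := mul_le_mul_of_nonneg_left a5 (by positivity : 0 ≤ 7 * C2)
          linarith
      _ = (7 + 7 * C2) * U ^ (-(1 / 2) + e) := by ring
  -- telescoping
  have htele : ‖T1 - T2‖ ≤ k * (20 * U ^ κ) ^ (k - 1) * E := by
    refine tele (a₁ := -(U ^ κ)) (b₁ := U ^ κ) (a₂ := 0) (b₂ := 2 * Real.pi) (by linarith) (by positivity)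
      (fun v => (c : ℂ) + v * I) (fun v => r * cexp (v * I)) (fun v => cexp (((c : ℂ) + v * I) ^ 2))
      (fun v => r * cexp (v * I)) (by fun_prop) (by fun_prop) (by fun_prop) (by fun_prop)
      (M₁ := 3) (M₂ := r) ?_ ?_ ?_ ?_ hE0 (FF x) (PP c (U ^ κ) r) ?_ ?_ ?_ hone
    · intro v _
      rw [Complex.norm_exp]
      have h1 : (((c : ℂ) + v * I) ^ 2).re ≤ 1 := by
        have : (((c : ℂ) + v * I) ^ 2).re = c ^ 2 - v ^ 2 := by
          simp [pow_two]
        rw [this]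
        nlinarith [sq_nonneg v]
      calc Real.exp (((c : ℂ) + v * I) ^ 2).re ≤ Real.exp 1 := Real.exp_le_exp.2 h1
        _ ≤ 3 := by have := Real.exp_one_lt_d9; linarith
    · intro v _
      rw [norm_mul, Complex.norm_exp_ofReal_mul_I, mul_one, Complex.norm_real, Real.norm_of_nonneg hr0.le]
    · linarith
    · have := two_pi_le
      have hr1 : r ≤ 1 := by linarith
      nlinarith [Real.pi_pos]
    · rintro z ⟨v, hv, rfl⟩
      left
      constructor
      · simp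
      · simp only [Complex.add_im, Complex.ofReal_im, Complex.mul_im, Complex.ofReal_re, Complex.I_im, mul_one,
          Complex.I_re, mul_zero, add_zero, zero_add]
        exact abs_le.2 ⟨hv.1, hv.2⟩
    · rintro z ⟨v, hv, rfl⟩
      right
      simp only []
      rw [norm_mul, Complex.norm_exp_ofReal_mul_I, mul_one, Complex.norm_real, Real.norm_of_nonneg hr0.le]
    · refine (FF_cont hxpos (e := e / 2) (ρ := c) hc0 (by linarith) (by linarith)).mono fun w hw => ?_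
      have hfacts := fun i => PP_facts hr0 (by linarith : r < c) hrY (hw i (Set.mem_univ i))
      refine ⟨fun i h0 => ?_, fun i l hil => ?_, ⟨⟨0, hk⟩, ?_, fun i _ => ?_⟩⟩
      · have := (hfacts i).1
        rw [h0, norm_zero] at this
        linarith
      · exact good_ne (hgood i l hil) (hfacts i).2.2.2 (hfacts l).2.2.2
      · have := (hfacts ⟨0, hk⟩).2.1
        linarith
      · have := (hfacts i).2.1
        linarith
  -- the main term
  have hmain : mainTerm x = ((Real.pi : ℂ) ^ k)⁻¹ * T2 := main_eq hk hxpos hsep hr0 (by linarith)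
  -- truncation
  have hdg' : ‖Dg x - ((Real.pi : ℂ) ^ k)⁻¹ * T1‖ ≤ C3 * U ^ (k * c) * Real.exp (-((U ^ κ) ^ 2 / 2)) :=
    hdg U (U ^ κ) x hU hY hx1 hx2
  have b1 : C3 * U ^ (k * c) * Real.exp (-((U ^ κ) ^ 2 / 2)) ≤ C3 * C2 * U ^ (-(1 / 2) + ε) := by
    have a3 := hexp U hU
    calc C3 * U ^ (k * c) * Real.exp (-((U ^ κ) ^ 2 / 2)) ≤ C3 * U ^ (k * c) * (C2 * U ^ (-1 : ℝ)) :=
          mul_le_mul_of_nonneg_left a3 (by positivity)
      _ = C3 * C2 * (U ^ (k * c) * U ^ (-1 : ℝ)) := by ring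
      _ = C3 * C2 * U ^ (k * c + (-1)) := by rw [← Real.rpow_add hU0]
      _ ≤ C3 * C2 * U ^ (-(1 / 2) + ε) := by
          refine mul_le_mul_of_nonneg_left ?_ (by positivity)
          exact Real.rpow_le_rpow_of_exponent_le hU (by linarith)
  have b2 : k * (20 * U ^ κ) ^ (k - 1) * E ≤
      k * 20 ^ k * (C1 * ((7 / r) ^ k * (CA * M ^ (k * k))) * (7 + 7 * C2)) * U ^ (-(1 / 2) + ε) := by
    rw [hE]
    exact pow_aux k hU hr0 hCA0.le (by linarith) hC1.le hC2.le hY hkκ hkc (by linarith)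
  have hpi : ‖((Real.pi : ℂ) ^ k)⁻¹‖ ≤ 1 := by
    rw [norm_inv, norm_pow, Complex.norm_real, Real.norm_of_nonneg Real.pi_pos.le]
    exact inv_le_one_of_one_le₀ (one_le_pow₀ (by have := Real.pi_gt_three; linarith))
  rw [hmain]
  calc ‖Dg x - ((Real.pi : ℂ) ^ k)⁻¹ * T2‖
      = ‖(Dg x - ((Real.pi : ℂ) ^ k)⁻¹ * T1) + ((Real.pi : ℂ) ^ k)⁻¹ * (T1 - T2)‖ := by
        congr 1; ring
    _ ≤ ‖Dg x - ((Real.pi : ℂ) ^ k)⁻¹ * T1‖ + ‖((Real.pi : ℂ) ^ k)⁻¹ * (T1 - T2)‖ := norm_add_le _ _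
    _ ≤ C3 * C2 * U ^ (-(1 / 2) + ε) + k * (20 * U ^ κ) ^ (k - 1) * E := by
        refine add_le_add (hdg'.trans b1) ?_
        rw [norm_mul]
        calc ‖((Real.pi : ℂ) ^ k)⁻¹‖ * ‖T1 - T2‖ ≤ 1 * (k * (20 * U ^ κ) ^ (k - 1) * E) :=
              mul_le_mul hpi htele (norm_nonneg _) zero_le_one
          _ = _ := one_mul _
    _ ≤ C3 * C2 * U ^ (-(1 / 2) + ε) +
        k * 20 ^ k * (C1 * ((7 / r) ^ k * (CA * M ^ (k * k))) * (7 + 7 * C2)) * U ^ (-(1 / 2) + ε) := by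
        linarith
    _ = _ := by ring

theorem main_point (k : ℕ) (ε : ℝ) (hε : 0 < ε) : ∃ κ : ℝ, 0 < κ ∧ κ ≤ 1 / 4 ∧ ∀ B : ℝ, ∃ C : ℝ, 0 < C ∧
    ∀ (U : ℝ) (x : Fin k → ℝ), 1 ≤ U → (∀ j, U ≤ x j) → (∀ j, x j ≤ 4 * U) →
    (∀ i j, i ≠ j → Good κ (U ^ κ) (B * U ^ κ) (x i - x j)) →
    ‖Dg x - mainTerm x‖ ≤ C * U ^ (-(1 / 2) + ε) := by
  rcases Nat.eq_zero_or_pos k with hk | hk
  · subst hk
    refine ⟨1 / 4, by norm_num, le_rfl, fun B => ⟨1, one_pos, fun U x hU _ _ _ => ?_⟩⟩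
    rw [(main_zero x).1, (main_zero x).2, sub_self, norm_zero]
    positivity
  · obtain ⟨κ, h1, h2, h3⟩ := main_pos k hk (min ε 1) (lt_min hε one_pos) (min_le_right _ _)
    refine ⟨κ, h1, h2, fun B => ?_⟩
    obtain ⟨C, hC, h4⟩ := h3 B
    refine ⟨C, hC, fun U x hU hx1 hx2 hg => (h4 U x hU hx1 hx2 hg).trans ?_⟩
    refine mul_le_mul_of_nonneg_left ?_ hC.le
    exact Real.rpow_le_rpow_of_exponent_le hU (by have := min_le_left ε 1; linarith)

end Pool.Agent.P07318s
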