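import Pool.Agent.Lib.P07318s.Defs
import Pool.Agent.Lib.P07318s.FinalDiag
import Pool.Agent.Lib.P07318s.ZetaGood
import Pool.Agent.Lib.P07318s.MainPoint
import Pool.Agent.Lib.P07318s.MainCont
import Pool.Agent.Lib.P07318s.Cont

/-!
Assembly. Outside the set where some difference `α_i - α_j` is not good (`zeta_good` for each pair; the pair `(0, j)` is a
condition on `α_j` alone, for a pair `i, j ≥ 1` fix all the other coordinates and use Fubini; measure
`≤ C H^n T^(-κ')`), `|Dg(t+α) - mainTerm(t+α)| ≤ C T^(-1/2+ε)` for every `t ∈ [0, V]` (`main_point`; the differences do not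
depend on `t`), so `|∫_0^V (Dg - mainTerm)| ≤ C T^(1/2+ε)`. Add `final_diag`. Integrability of `t ↦ mainTerm(t+α)` for good
`α`: `mainTerm_continuousOn` (good differences are `> 4 T^κ ≥ 4`), of `Dg`: `Dg_continuousOn`, of `ζ`: `zeta_half_continuous`.
-/

set_option autoImplicit false

namespace Pool.Agent.P07318s

open MeasureTheory Complex

namespace FinalAux

theorem measurableSet_bad (κ Y B : ℝ) : MeasurableSet {δ : ℝ | ¬ Good κ Y B δ} := by
  have h : {δ : ℝ | ¬ Good κ Y B δ} = {δ : ℝ | |δ| ≤ 4 * Y} ∪ {δ : ℝ | 4 * Y < |δ| ∧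
      ∃ σ v : ℝ, 1 / 2 + κ ≤ σ ∧ σ ≤ 3 ∧ |v| ≤ 2 * Y ∧
        B < ‖riemannZeta (σ + ((δ + v : ℝ) : ℂ) * I)‖} := by
    ext δ
    change ¬ (4 * Y < |δ| ∧ ∀ σ v : ℝ, 1 / 2 + κ ≤ σ → σ ≤ 3 → |v| ≤ 2 * Y →
      ‖riemannZeta (σ + ((δ + v : ℝ) : ℂ) * I)‖ ≤ B) ↔ (|δ| ≤ 4 * Y ∨ (4 * Y < |δ| ∧
      ∃ σ v : ℝ, 1 / 2 + κ ≤ σ ∧ σ ≤ 3 ∧ |v| ≤ 2 * Y ∧
        B < ‖riemannZeta (σ + ((δ + v : ℝ) : ℂ) * I)‖))
    constructor
    · intro h
      by_cases h1 : |δ| ≤ 4 * Y
      · exact Or.inl h1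
      · right
        push Not at h1
        refine ⟨h1, ?_⟩
        by_contra hcon
        push Not at hcon
        exact h ⟨h1, fun σ v a b c => hcon σ v a b c⟩
    · rintro (h1 | ⟨h1, σ, v, a, b, c, d⟩) ⟨h2, h3⟩
      · linarith
      · have := h3 σ v a b c
        linarith
  rw [h]
  refine (measurableSet_le (by fun_prop) (by fun_prop)).union (IsOpen.measurableSet ?_)
  rw [isOpen_iff_mem_nhds]
  rintro δ₀ ⟨h1, σ, v, h2, h3, h4, h5⟩
  have hne : δ₀ + v ≠ 0 := by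
    intro h0
    have h6 : δ₀ = -v := by linarith
    rw [h6, abs_neg] at h1
    have := abs_nonneg v
    linarith
  have hne1 : (σ : ℂ) + ((δ₀ + v : ℝ) : ℂ) * I ≠ 1 := by
    intro h0
    have := congrArg Complex.im h0
    simp at this
    exact hne (by exact_mod_cast this)
  have hc : ContinuousAt (fun δ : ℝ => ‖riemannZeta (σ + ((δ + v : ℝ) : ℂ) * I)‖) δ₀ := by
    apply ContinuousAt.norm
    apply ContinuousAt.comp (g := riemannZeta) (f := fun δ : ℝ => (σ : ℂ) + ((δ + v : ℝ) : ℂ) * I)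
      (differentiableAt_riemannZeta hne1).continuousAt
    fun_prop
  have hc2 : ContinuousAt (fun δ : ℝ => |δ|) δ₀ := by fun_prop
  filter_upwards [hc.eventually (lt_mem_nhds h5), hc2.eventually (lt_mem_nhds h1)] with δ ha hb
  exact ⟨hb, σ, v, h2, h3, h4, ha⟩

theorem one_dim {D : Set ℝ} {U H : ℝ} {K : ENNReal} (_hH : 0 ≤ H)
    (hZ : ∀ a : ℝ, -(3 * U) ≤ a → a + H ≤ 3 * U → volume {δ ∈ Set.Icc a (a + H) | δ ∈ D} ≤ K)
    {s c b : ℝ} (hs : s = 1 ∨ s = -1) (h1 : |s * b + c| ≤ 3 * U) (h2 : |s * (b + H) + c| ≤ 3 * U) :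
    volume {u ∈ Set.Icc b (b + H) | s * u + c ∈ D} ≤ K := by
  rw [abs_le] at h1 h2
  rcases hs with rfl | rfl
  · have h := hZ (b + c) (by linarith) (by linarith)
    rw [← measure_preimage_add_right volume c] at h
    refine le_trans (measure_mono ?_) h
    rintro u ⟨hu, hu'⟩
    rw [one_mul] at hu'
    exact ⟨⟨by linarith [hu.1], by linarith [hu.2]⟩, hu'⟩
  · have h := hZ (c - b - H) (by linarith) (by linarith)
    rw [← measure_preimage_add_right volume c, ← Measure.measure_preimage_neg volume] at h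
    refine le_trans (measure_mono ?_) h
    rintro u ⟨hu, hu'⟩
    rw [neg_one_mul] at hu'
    exact ⟨⟨by linarith [hu.2], by linarith [hu.1]⟩, hu'⟩

theorem fub {n : ℕ} (m : Fin (n + 1)) (β : Fin (n + 1) → ℝ) {H : ℝ} (hH : 0 ≤ H) {D : Set ℝ}
    (hD : MeasurableSet D) (s : ℝ) (c : (Fin n → ℝ) → ℝ) (hc : Measurable c) (K : ENNReal)
    (hK : ∀ w ∈ Set.Icc (fun j => β (m.succAbove j)) (fun j => β (m.succAbove j) + H),
      volume {u ∈ Set.Icc (β m) (β m + H) | s * u + c w ∈ D} ≤ K) :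
    volume {α ∈ Set.Icc β (fun j => β j + H) | s * α m + c (fun j => α (m.succAbove j)) ∈ D} ≤
      K * ENNReal.ofReal (H ^ n) := by
  let E' : Set (ℝ × (Fin n → ℝ)) := {q | q.2 ∈ Set.Icc (fun j => β (m.succAbove j))
    (fun j => β (m.succAbove j) + H) ∧ q.1 ∈ Set.Icc (β m) (β m + H) ∧ s * q.1 + c q.2 ∈ D}
  have hE' : MeasurableSet E' := by
    apply MeasurableSet.inter (measurable_snd measurableSet_Icc)
    apply MeasurableSet.inter (measurable_fst measurableSet_Icc)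
    exact ((measurable_fst.const_mul s).add (hc.comp measurable_snd)) hD
  have hpre : {α ∈ Set.Icc β (fun j => β j + H) | s * α m + c (fun j => α (m.succAbove j)) ∈ D} ⊆
      (MeasurableEquiv.piFinSuccAbove (fun _ => ℝ) m) ⁻¹' E' := by
    rintro α ⟨hα, hα'⟩
    exact ⟨⟨fun j => hα.1 _, fun j => hα.2 _⟩, ⟨hα.1 _, hα.2 _⟩, hα'⟩
  calc volume {α ∈ Set.Icc β (fun j => β j + H) | s * α m + c (fun j => α (m.succAbove j)) ∈ D}
      ≤ volume ((MeasurableEquiv.piFinSuccAbove (fun _ => ℝ) m) ⁻¹' E') := measure_mono hpre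
    _ = volume E' := (volume_preserving_piFinSuccAbove (fun _ => ℝ) m).measure_preimage_equiv E'
    _ = ∫⁻ w : Fin n → ℝ, volume ((fun x => (x, w)) ⁻¹' E') := Measure.prod_apply_symm hE'
    _ ≤ ∫⁻ w : Fin n → ℝ, (Set.Icc (fun j => β (m.succAbove j))
          (fun j => β (m.succAbove j) + H)).indicator (fun _ => K) w := by
        refine lintegral_mono fun w => ?_
        by_cases hw : w ∈ Set.Icc (fun j => β (m.succAbove j)) (fun j => β (m.succAbove j) + H)
        · rw [Set.indicator_of_mem hw]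
          refine le_trans (measure_mono ?_) (hK w hw)
          rintro u ⟨_, h2, h3⟩
          exact ⟨h2, h3⟩
        · rw [Set.indicator_of_notMem hw]
          have h0 : (fun x => (x, w)) ⁻¹' E' = ∅ := by
            ext u
            simp only [Set.mem_preimage, Set.mem_empty_iff_false, iff_false]
            rintro ⟨h1, _, _⟩
            exact hw h1
          rw [h0, measure_empty]
    _ = K * volume (Set.Icc (fun j => β (m.succAbove j)) (fun j => β (m.succAbove j) + H)) := by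
        rw [lintegral_indicator_const measurableSet_Icc]
    _ = K * ENNReal.ofReal (H ^ n) := by
        rw [Real.volume_Icc_pi]
        congr 1
        have : ∀ i : Fin n, ENNReal.ofReal (β (m.succAbove i) + H - β (m.succAbove i)) =
            ENNReal.ofReal H := by
          intro i
          congr 1
          ring
        simp only [this, Finset.prod_const, Finset.card_univ, Fintype.card_fin]
        rw [ENNReal.ofReal_pow hH]

/-- the bad set of a pair -/
theorem pair_bound {n : ℕ} {κ Y B T H C κ' : ℝ} (hT : 1 ≤ T) (hH : 0 ≤ H) (hHT : H ≤ T)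
    (hC : 0 ≤ C)
    (hZ : ∀ a : ℝ, -(3 * T) ≤ a → a + H ≤ 3 * T →
      volume {δ ∈ Set.Icc a (a + H) | ¬ Good κ Y B δ} ≤ ENNReal.ofReal (C * H * T ^ (-κ')))
    {α₀ : ℝ} (h0 : T ≤ α₀) (h0' : α₀ ≤ 2 * T) {β : Fin n → ℝ} (hβ : ∀ j, T ≤ β j)
    (hβ' : ∀ j, β j ≤ 2 * T) (i j : Fin (n + 1)) (hij : i ≠ j) :
    volume {α ∈ Set.Icc β (fun j => β j + H) |
      ¬ Good κ Y B ((Fin.cons α₀ α : Fin (n + 1) → ℝ) i - (Fin.cons α₀ α : Fin (n + 1) → ℝ) j)} ≤
      ENNReal.ofReal (C * H ^ n * T ^ (-κ')) := by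
  have hD := measurableSet_bad κ Y B
  have hTp : 0 ≤ T ^ (-κ') := Real.rpow_nonneg (by linarith) _
  -- reduction to one coordinate
  have key : ∀ (n' : ℕ) (β : Fin (n' + 1) → ℝ) (_ : ∀ j, T ≤ β j) (_ : ∀ j, β j ≤ 2 * T)
      (m : Fin (n' + 1)) (s : ℝ) (_ : s = 1 ∨ s = -1) (c : (Fin n' → ℝ) → ℝ) (_ : Measurable c)
      (_ : ∀ w ∈ Set.Icc (fun j => β (m.succAbove j)) (fun j => β (m.succAbove j) + H),
        T ≤ -s * c w ∧ -s * c w ≤ 3 * T),
      volume {α ∈ Set.Icc β (fun j => β j + H) |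
        s * α m + c (fun j => α (m.succAbove j)) ∈ {δ : ℝ | ¬ Good κ Y B δ}} ≤
      ENNReal.ofReal (C * H ^ (n' + 1) * T ^ (-κ')) := by
    intro n' β hβ hβ' m s hs c hc hw
    have h1 := fub m β hH hD s c hc (ENNReal.ofReal (C * H * T ^ (-κ'))) (by
      intro w hwm
      obtain ⟨h2, h3⟩ := hw w hwm
      have h4 := hβ m
      have h5 := hβ' m
      apply one_dim (U := T) hH (fun a ha ha' => hZ a ha ha') hs
      · rcases hs with rfl | rfl <;> rw [abs_le] <;> constructor <;> linarith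
      · rcases hs with rfl | rfl <;> rw [abs_le] <;> constructor <;> linarith)
    refine h1.trans (le_of_eq ?_)
    rw [← ENNReal.ofReal_mul (by positivity)]
    congr 1
    ring
  rcases n with _ | n
  · exact absurd (by apply Fin.ext; omega : i = j) hij
  refine Fin.cases (motive := fun i => i ≠ j → volume {α ∈ Set.Icc β (fun j => β j + H) |
      ¬ Good κ Y B ((Fin.cons α₀ α : Fin (n + 1 + 1) → ℝ) i -
        (Fin.cons α₀ α : Fin (n + 1 + 1) → ℝ) j)} ≤
      ENNReal.ofReal (C * H ^ (n + 1) * T ^ (-κ'))) ?_ ?_ i hij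
  · intro hj
    obtain ⟨j', rfl⟩ := Fin.exists_succ_eq.2 hj.symm
    have h1 := key n β hβ hβ' j' (-1) (Or.inr rfl) (fun _ => α₀) measurable_const (by
      intro w _
      constructor <;> linarith)
    refine le_trans (measure_mono ?_) h1
    rintro α ⟨hα, hα'⟩
    refine ⟨hα, ?_⟩
    rw [Fin.cons_zero, Fin.cons_succ] at hα'
    change ¬ Good κ Y B (-1 * α j' + α₀)
    rwa [show -1 * α j' + α₀ = α₀ - α j' by ring]
  · intro i' hj
    by_cases hj0 : j = 0
    · subst hj0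
      have h1 := key n β hβ hβ' i' 1 (Or.inl rfl) (fun _ => -α₀) measurable_const (by
        intro w _
        constructor <;> linarith)
      refine le_trans (measure_mono ?_) h1
      rintro α ⟨hα, hα'⟩
      refine ⟨hα, ?_⟩
      rw [Fin.cons_zero, Fin.cons_succ] at hα'
      change ¬ Good κ Y B (1 * α i' + -α₀)
      rwa [show 1 * α i' + -α₀ = α i' - α₀ by ring]
    · obtain ⟨j', rfl⟩ := Fin.exists_succ_eq.2 hj0
      have hne : j' ≠ i' := fun h => hj (by rw [h])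
      obtain ⟨l, hl⟩ := Fin.exists_succAbove_eq hne
      have h1 := key n β hβ hβ' i' 1 (Or.inl rfl) (fun w => -w l) (by fun_prop) (by
        intro w hw
        have h2 := hw.1 l
        have h3 := hw.2 l
        simp only at h2 h3
        have h4 := hβ (i'.succAbove l)
        have h5 := hβ' (i'.succAbove l)
        constructor <;> linarith)
      refine le_trans (measure_mono ?_) h1
      rintro α ⟨hα, hα'⟩
      refine ⟨hα, ?_⟩
      rw [Fin.cons_succ, Fin.cons_succ] at hα'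
      change ¬ Good κ Y B (1 * α i' + -α (i'.succAbove l))
      rwa [hl, show 1 * α i' + -α j' = α i' - α j' by ring]

end FinalAux

open FinalAux in
theorem main_theorem (n : ℕ) (ε : ℝ) (hε : 0 < ε) : ∃ C η : ℝ, 0 < C ∧ 0 < η ∧ ∀ T V H : ℝ, 1 ≤ T →
    0 ≤ V → V ≤ T → T ^ (1 / 2 : ℝ) ≤ H → H ≤ T → ∀ α₀ : ℝ, T ≤ α₀ → α₀ ≤ 2 * T → ∀ β : Fin n → ℝ,
    (∀ j, T ≤ β j) → (∀ j, β j ≤ 2 * T) →
    volume {α ∈ Set.Icc β (fun j => β j + H) | C * T ^ (1 / 2 + ε) * (T / H) ^ ((n : ℝ) / 2) <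
      ‖∫ t in (0:ℝ)..V, (((∏ j, ‖riemannZeta (1 / 2 +
          ((t + (Fin.cons α₀ α : Fin (n + 1) → ℝ) j : ℝ) : ℂ) * I)‖ ^ 2 : ℝ) : ℂ) -
        mainTerm (fun j => t + (Fin.cons α₀ α : Fin (n + 1) → ℝ) j))‖} ≤
      ENNReal.ofReal (C * H ^ n * T ^ (-η)) := by
  obtain ⟨κ, hκ, hκ4, hMP⟩ := main_point (n + 1) ε hε
  obtain ⟨B, C1, κ', hB, hC1, hκ', hZG⟩ := zeta_good κ hκ hκ4
  obtain ⟨C2, hC2, hMP'⟩ := hMP B
  obtain ⟨C3, η3, hC3, hη3, hFD⟩ := final_diag n ε hε
  refine ⟨C2 + C3 + ((n : ℝ) + 1) ^ 2 * C1, min η3 κ', by positivity, lt_min hη3 hκ', ?_⟩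
  intro T V H hT hV hVT hTH hHT α₀ h0 h0' β hβ hβ'
  have hT0 : 0 < T := by linarith
  have hH0 : 0 < H := lt_of_lt_of_le (Real.rpow_pos_of_pos hT0 _) hTH
  have hTκ : 1 ≤ T ^ κ := Real.one_le_rpow hT hκ.le
  set X : ℝ := T ^ (1 / 2 + ε) * (T / H) ^ ((n : ℝ) / 2) with hX
  have hTHn : 1 ≤ (T / H) ^ ((n : ℝ) / 2) := by
    apply Real.one_le_rpow
    · rwa [le_div_iff₀ hH0, one_mul]
    · positivity
  have hXge : T ^ (1 / 2 + ε) ≤ X := by
    rw [hX]
    exact le_mul_of_one_le_right (Real.rpow_nonneg hT0.le _) hTHn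
  have hX0 : 0 ≤ X := le_trans (Real.rpow_nonneg hT0.le _) hXge
  set S0 : Set (Fin n → ℝ) := {α ∈ Set.Icc β (fun j => β j + H) |
    C3 * T ^ (1 / 2 + ε) * (T / H) ^ ((n : ℝ) / 2) <
      ‖∫ t in (0:ℝ)..V, (((∏ j, ‖riemannZeta (1 / 2 +
          ((t + (Fin.cons α₀ α : Fin (n + 1) → ℝ) j : ℝ) : ℂ) * I)‖ ^ 2 : ℝ) : ℂ) -
        Dg (fun j => t + (Fin.cons α₀ α : Fin (n + 1) → ℝ) j))‖} with hS0
  set P : Finset (Fin (n + 1) × Fin (n + 1)) := Finset.univ.filter (fun q => q.1 ≠ q.2) with hP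
  set Sb : Fin (n + 1) × Fin (n + 1) → Set (Fin n → ℝ) := fun q =>
    {α ∈ Set.Icc β (fun j => β j + H) |
      ¬ Good κ (T ^ κ) (B * T ^ κ) ((Fin.cons α₀ α : Fin (n + 1) → ℝ) q.1 -
        (Fin.cons α₀ α : Fin (n + 1) → ℝ) q.2)} with hSb
  have hsub : {α ∈ Set.Icc β (fun j => β j + H) |
      (C2 + C3 + ((n : ℝ) + 1) ^ 2 * C1) * T ^ (1 / 2 + ε) * (T / H) ^ ((n : ℝ) / 2) <
      ‖∫ t in (0:ℝ)..V, (((∏ j, ‖riemannZeta (1 / 2 +
          ((t + (Fin.cons α₀ α : Fin (n + 1) → ℝ) j : ℝ) : ℂ) * I)‖ ^ 2 : ℝ) : ℂ) -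
        mainTerm (fun j => t + (Fin.cons α₀ α : Fin (n + 1) → ℝ) j))‖} ⊆ S0 ∪ ⋃ q ∈ P, Sb q := by
    rintro α ⟨hα, hα'⟩
    by_contra hcon
    rw [Set.mem_union, not_or] at hcon
    obtain ⟨hc1, hc2⟩ := hcon
    have hgood : ∀ i j, i ≠ j → Good κ (T ^ κ) (B * T ^ κ)
        ((Fin.cons α₀ α : Fin (n + 1) → ℝ) i - (Fin.cons α₀ α : Fin (n + 1) → ℝ) j) := by
      intro i j hij
      by_contra hg
      apply hc2
      rw [Set.mem_iUnion₂]
      exact ⟨(i, j), Finset.mem_filter.2 ⟨Finset.mem_univ _, hij⟩, hα, hg⟩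
    have hc3 : ‖∫ t in (0:ℝ)..V, (((∏ j, ‖riemannZeta (1 / 2 +
          ((t + (Fin.cons α₀ α : Fin (n + 1) → ℝ) j : ℝ) : ℂ) * I)‖ ^ 2 : ℝ) : ℂ) -
        Dg (fun j => t + (Fin.cons α₀ α : Fin (n + 1) → ℝ) j))‖ ≤ C3 * X := by
      by_contra hg
      push Not at hg
      apply hc1
      refine ⟨hα, ?_⟩
      rw [mul_assoc]
      exact hg
    set a : Fin (n + 1) → ℝ := Fin.cons α₀ α with ha
    have ha1 : ∀ j, T ≤ a j := by
      intro j
      refine Fin.cases ?_ (fun i => ?_) j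
      · rw [ha, Fin.cons_zero]; exact h0
      · rw [ha, Fin.cons_succ]; exact (hβ i).trans (hα.1 i)
    have ha2 : ∀ j, a j ≤ 3 * T := by
      intro j
      refine Fin.cases ?_ (fun i => ?_) j
      · rw [ha, Fin.cons_zero]; linarith
      · rw [ha, Fin.cons_succ]
        have h1 := hα.2 i
        have h2 := hβ' i
        simp only at h1
        linarith
    have hmaps : ∀ t ∈ Set.uIcc 0 V, (∀ j, 0 < t + a j) ∧ (∀ j, T ≤ t + a j) ∧
        (∀ j, t + a j ≤ 4 * T) := by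
      intro t ht
      rw [Set.uIcc_of_le hV] at ht
      have h1 := ht.1
      have h2 := ht.2
      refine ⟨fun j => ?_, fun j => ?_, fun j => ?_⟩
      · have := ha1 j; linarith
      · have := ha1 j; linarith
      · have := ha2 j; linarith
    have hdiff : ∀ (t : ℝ) (i j : Fin (n + 1)), (t + a i) - (t + a j) = a i - a j := by
      intro t i j; ring
    have hsep : ∀ i j, i ≠ j → 1 < |a i - a j| := by
      intro i j hij
      have := (hgood i j hij).1
      linarith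
    have hcontM : ContinuousOn (fun t : ℝ => mainTerm (fun j => t + a j)) (Set.uIcc 0 V) := by
      refine (mainTerm_continuousOn (n + 1)).comp (f := fun t : ℝ => (fun j => t + a j))
        (by fun_prop) ?_
      intro t ht
      refine ⟨(hmaps t ht).1, fun i j hij => ?_⟩
      simp only
      rw [hdiff]
      exact hsep i j hij
    have hcontD : ContinuousOn (fun t : ℝ => Dg (fun j => t + a j)) (Set.uIcc 0 V) := by
      refine (Dg_continuousOn (n + 1)).comp (f := fun t : ℝ => (fun j => t + a j))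
        (by fun_prop) ?_
      intro t ht
      exact (hmaps t ht).1
    have hcontZ : Continuous (fun t : ℝ => ((∏ j, ‖riemannZeta (1 / 2 +
          ((t + a j : ℝ) : ℂ) * I)‖ ^ 2 : ℝ) : ℂ)) := by
      apply Complex.continuous_ofReal.comp
      refine continuous_finsetProd _ fun j _ => ?_
      apply Continuous.pow
      apply Continuous.norm
      rw [continuous_iff_continuousAt]
      intro t
      apply ContinuousAt.comp (g := riemannZeta)
        (f := fun t : ℝ => (1 / 2 : ℂ) + ((t + a j : ℝ) : ℂ) * I)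
      · apply (differentiableAt_riemannZeta _).continuousAt
        intro h
        have := congrArg Complex.re h
        simp at this
      · fun_prop
    have hi1 : IntervalIntegrable (fun t : ℝ => ((∏ j, ‖riemannZeta (1 / 2 +
          ((t + a j : ℝ) : ℂ) * I)‖ ^ 2 : ℝ) : ℂ) - Dg (fun j => t + a j)) volume 0 V :=
      (hcontZ.continuousOn.sub hcontD).intervalIntegrable
    have hi2 : IntervalIntegrable (fun t : ℝ => Dg (fun j => t + a j) -
        mainTerm (fun j => t + a j)) volume 0 V := (hcontD.sub hcontM).intervalIntegrable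
    have hsplit : ∫ t in (0:ℝ)..V, (((∏ j, ‖riemannZeta (1 / 2 +
          ((t + a j : ℝ) : ℂ) * I)‖ ^ 2 : ℝ) : ℂ) - mainTerm (fun j => t + a j)) =
        (∫ t in (0:ℝ)..V, (((∏ j, ‖riemannZeta (1 / 2 +
          ((t + a j : ℝ) : ℂ) * I)‖ ^ 2 : ℝ) : ℂ) - Dg (fun j => t + a j))) +
        ∫ t in (0:ℝ)..V, (Dg (fun j => t + a j) - mainTerm (fun j => t + a j)) := by
      rw [← intervalIntegral.integral_add hi1 hi2]
      refine intervalIntegral.integral_congr fun t _ => ?_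
      ring
    have hb2 : ‖∫ t in (0:ℝ)..V, (Dg (fun j => t + a j) - mainTerm (fun j => t + a j))‖ ≤
        C2 * X := by
      have h1 := intervalIntegral.norm_integral_le_of_norm_le_const (a := 0) (b := V)
        (C := C2 * T ^ (-(1 / 2) + ε))
        (f := fun t : ℝ => Dg (fun j => t + a j) - mainTerm (fun j => t + a j)) (by
          intro t ht
          have ht' : t ∈ Set.uIcc 0 V := Set.uIoc_subset_uIcc ht
          refine hMP' T (fun j => t + a j) hT (hmaps t ht').2.1 (hmaps t ht').2.2 ?_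
          intro i j hij
          rw [hdiff]
          exact hgood i j hij)
      rw [sub_zero, abs_of_nonneg hV] at h1
      refine h1.trans ?_
      rw [mul_assoc]
      apply mul_le_mul_of_nonneg_left _ hC2.le
      refine le_trans ?_ hXge
      have h2 : T ^ (-(1 / 2) + ε) * T = T ^ (1 / 2 + ε) := by
        rw [← Real.rpow_add_one hT0.ne']
        congr 1
        ring
      rw [← h2]
      exact mul_le_mul_of_nonneg_left hVT (Real.rpow_nonneg hT0.le _)
    have h4 : (C2 + C3 + ((n : ℝ) + 1) ^ 2 * C1) * X < (C3 + C2) * X := by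
      calc (C2 + C3 + ((n : ℝ) + 1) ^ 2 * C1) * X
          = (C2 + C3 + ((n : ℝ) + 1) ^ 2 * C1) * T ^ (1 / 2 + ε) * (T / H) ^ ((n : ℝ) / 2) := by
            rw [hX]; ring
        _ < ‖∫ t in (0:ℝ)..V, (((∏ j, ‖riemannZeta (1 / 2 +
          ((t + a j : ℝ) : ℂ) * I)‖ ^ 2 : ℝ) : ℂ) - mainTerm (fun j => t + a j))‖ := hα'
        _ ≤ C3 * X + C2 * X := by
            rw [hsplit]
            exact (norm_add_le _ _).trans (add_le_add hc3 hb2)
        _ = (C3 + C2) * X := by ring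
    have h5 : 0 ≤ ((n : ℝ) + 1) ^ 2 * C1 * X := by positivity
    nlinarith
  have hT1 : ∀ κ'' : ℝ, min η3 κ' ≤ κ'' → T ^ (-κ'') ≤ T ^ (-(min η3 κ')) := by
    intro κ'' h
    exact Real.rpow_le_rpow_of_exponent_le hT (by linarith)
  have hm0 : 0 ≤ T ^ (-(min η3 κ')) := Real.rpow_nonneg hT0.le _
  have hfin1 : volume S0 ≤ ENNReal.ofReal (C3 * H ^ n * T ^ (-(min η3 κ'))) := by
    refine (hFD T V H hT hV hVT hTH hHT α₀ h0 h0' β hβ hβ').trans ?_
    apply ENNReal.ofReal_le_ofReal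
    exact mul_le_mul_of_nonneg_left (hT1 η3 (min_le_left _ _)) (by positivity)
  have hfin2 : ∀ q ∈ P, volume (Sb q) ≤ ENNReal.ofReal (C1 * H ^ n * T ^ (-(min η3 κ'))) := by
    intro q hq
    have hne := (Finset.mem_filter.1 hq).2
    refine (pair_bound (κ' := κ') hT hH0.le hHT hC1.le (fun a ha ha' => ?_) h0 h0' hβ hβ'
      q.1 q.2 hne).trans ?_
    · exact hZG T a H hT hTH ha ha'
    · apply ENNReal.ofReal_le_ofReal
      exact mul_le_mul_of_nonneg_left (hT1 κ' (min_le_right _ _)) (by positivity)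
  have hPcard : (P.card : ℝ) ≤ ((n : ℝ) + 1) ^ 2 := by
    have h1 : P.card ≤ (n + 1) * (n + 1) := by
      refine (Finset.card_filter_le _ _).trans ?_
      simp
    have h2 : (P.card : ℝ) ≤ ((n + 1) * (n + 1) : ℕ) := by exact_mod_cast h1
    push_cast at h2
    linarith [h2]
  calc volume {α ∈ Set.Icc β (fun j => β j + H) |
      (C2 + C3 + ((n : ℝ) + 1) ^ 2 * C1) * T ^ (1 / 2 + ε) * (T / H) ^ ((n : ℝ) / 2) <
      ‖∫ t in (0:ℝ)..V, (((∏ j, ‖riemannZeta (1 / 2 +
          ((t + (Fin.cons α₀ α : Fin (n + 1) → ℝ) j : ℝ) : ℂ) * I)‖ ^ 2 : ℝ) : ℂ) -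
        mainTerm (fun j => t + (Fin.cons α₀ α : Fin (n + 1) → ℝ) j))‖}
      ≤ volume (S0 ∪ ⋃ q ∈ P, Sb q) := measure_mono hsub
    _ ≤ volume S0 + volume (⋃ q ∈ P, Sb q) := measure_union_le _ _
    _ ≤ volume S0 + ∑ q ∈ P, volume (Sb q) := by
        gcongr
        exact measure_biUnion_finset_le _ _
    _ ≤ ENNReal.ofReal (C3 * H ^ n * T ^ (-(min η3 κ'))) +
        ∑ q ∈ P, ENNReal.ofReal (C1 * H ^ n * T ^ (-(min η3 κ'))) :=
        add_le_add hfin1 (Finset.sum_le_sum hfin2)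
    _ = ENNReal.ofReal (C3 * H ^ n * T ^ (-(min η3 κ')) +
        P.card * (C1 * H ^ n * T ^ (-(min η3 κ')))) := by
        rw [Finset.sum_const, nsmul_eq_mul, ENNReal.ofReal_add (by positivity) (by positivity),
          ENNReal.ofReal_mul (by positivity : (0 : ℝ) ≤ (P.card : ℝ)), ENNReal.ofReal_natCast]
    _ ≤ _ := by
        apply ENNReal.ofReal_le_ofReal
        have h1 : (P.card : ℝ) * (C1 * H ^ n * T ^ (-(min η3 κ'))) ≤
            ((n : ℝ) + 1) ^ 2 * (C1 * H ^ n * T ^ (-(min η3 κ'))) :=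
          mul_le_mul_of_nonneg_right hPcard (by positivity)
        have h2 : 0 ≤ C2 * H ^ n * T ^ (-(min η3 κ')) := by positivity
        nlinarith

end Pool.Agent.P07318s
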