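import Pool.Agent.Lib.P07318s.Defs
import Pool.Agent.Lib.P07318s.PiSum
import Pool.Agent.Lib.P07318s.Spaced
import Pool.Agent.Lib.P07318s.Outer

/-!
Every term: `kap δ U h ≤ (U/h)^s` for every `s ∈ [δ, 2]` (both cases of `kap`); take `s = 1/2 + 2δ`: `ww δ U q ≤ U^(1/2+2δ) h_q^(-1-2δ)`.
So it is enough that `∑_q h_q^(-1-2δ) / |lgr q - lgr p| ≤ C h_p^3`.
Base case `p = 1`: this is `outer_sum` with one variable.
General `p`: let `r` be the reduced form of `q/p` (an injective map of `q`), `lgr q - lgr p = lgr r`, `h_r ≤ h_q h_p`, so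
`h_q^(-1-2δ) ≤ h_p^(1+2δ) h_r^(-1-2δ)` and `1 + 2δ ≤ 2`. The term `q = p` is `0` (division by zero).
-/

set_option autoImplicit false

namespace Pool.Agent.P07318s

open MeasureTheory Complex

namespace LowSumAux

theorem exists_quot (p q : Q) : ∃ r : Q, lgr r.1 = lgr q.1 - lgr p.1 ∧ hgt r.1 ≤ hgt q.1 * hgt p.1 := by
  obtain ⟨⟨a, b⟩, hab⟩ := q
  obtain ⟨⟨c, d⟩, hcd⟩ := p
  set x : ℕ := (a : ℕ) * (d : ℕ) with hx
  set y : ℕ := (b : ℕ) * (c : ℕ) with hy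
  have hx0 : 0 < x := Nat.mul_pos a.2 d.2
  have hy0 : 0 < y := Nat.mul_pos b.2 c.2
  have hg : 0 < Nat.gcd x y := Nat.gcd_pos_of_pos_left _ hx0
  have hx1 : 0 < x / Nat.gcd x y := Nat.div_pos (Nat.le_of_dvd hx0 (Nat.gcd_dvd_left _ _)) hg
  have hy1 : 0 < y / Nat.gcd x y := Nat.div_pos (Nat.le_of_dvd hy0 (Nat.gcd_dvd_right _ _)) hg
  refine ⟨⟨(⟨x / Nat.gcd x y, hx1⟩, ⟨y / Nat.gcd x y, hy1⟩), Nat.coprime_div_gcd_div_gcd hg⟩, ?_, ?_⟩
  · unfold lgr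
    simp only [PNat.mk_coe]
    have hg' : ((Nat.gcd x y : ℕ) : ℝ) ≠ 0 := by exact_mod_cast hg.ne'
    rw [Nat.cast_div (Nat.gcd_dvd_left _ _) hg', Nat.cast_div (Nat.gcd_dvd_right _ _) hg',
      Real.log_div (by exact_mod_cast hx0.ne') hg', Real.log_div (by exact_mod_cast hy0.ne') hg',
      hx, hy, Nat.cast_mul, Nat.cast_mul,
      Real.log_mul (by exact_mod_cast a.2.ne') (by exact_mod_cast d.2.ne'),
      Real.log_mul (by exact_mod_cast b.2.ne') (by exact_mod_cast c.2.ne')]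
    ring
  · unfold hgt
    simp only [PNat.mk_coe]
    have h1 : ((x / Nat.gcd x y : ℕ) : ℝ) ≤ (x : ℝ) := by exact_mod_cast Nat.div_le_self _ _
    have h2 : ((y / Nat.gcd x y : ℕ) : ℝ) ≤ (y : ℝ) := by exact_mod_cast Nat.div_le_self _ _
    calc ((x / Nat.gcd x y : ℕ) : ℝ) * ((y / Nat.gcd x y : ℕ) : ℝ) ≤ (x : ℝ) * (y : ℝ) :=
          mul_le_mul h1 h2 (by positivity) (by positivity)
      _ = _ := by rw [hx, hy]; push_cast; ring

/-- the reduced quotient of two fractions -/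
noncomputable def quo (p q : Q) : Q := Classical.choose (exists_quot p q)

theorem lgr_quo (p q : Q) : lgr (quo p q).1 = lgr q.1 - lgr p.1 :=
  (Classical.choose_spec (exists_quot p q)).1

theorem hgt_quo (p q : Q) : hgt (quo p q).1 ≤ hgt q.1 * hgt p.1 :=
  (Classical.choose_spec (exists_quot p q)).2

theorem lgr_inj {q q' : Q} (h : lgr q.1 = lgr q'.1) : q = q' := by
  by_contra hne
  have h1 := spacing hne
  rw [h, sub_self, abs_zero] at h1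
  have h2 : 0 < 1 / (2 * Real.sqrt (hgt q.1 * hgt q'.1)) := by
    have := hgt_pos q.1
    have := hgt_pos q'.1
    positivity
  linarith

theorem quo_inj (p : Q) : Function.Injective (quo p) := by
  intro q q' h
  apply lgr_inj
  have h1 := lgr_quo p q
  have h2 := lgr_quo p q'
  rw [h] at h1
  linarith

theorem base (η : ℝ) (hη : 0 < η) : ∃ C : ℝ, 0 < C ∧
    ∑' q : Q, ENNReal.ofReal ((hgt q.1) ^ (-1 - η) / |lgr q.1|) ≤ ENNReal.ofReal C := by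
  obtain ⟨C, hC, h⟩ := outer_sum 1 η hη
  refine ⟨C, hC, le_trans (le_of_eq ?_) h⟩
  rw [← (Equiv.funUnique (Fin 1) Q).tsum_eq]
  refine tsum_congr fun q => ?_
  congr 1
  unfold lam
  simp only [Equiv.funUnique_apply, Finset.univ_unique, Finset.prod_singleton,
    Finset.sum_singleton]

theorem term_le {δ U : ℝ} (hδ : 0 < δ) (hδ2 : δ ≤ 1 / 2) (hU : 1 ≤ U) (p q : Q) :
    ww δ U q / |lgr q.1 - lgr p.1| ≤
      (hgt p.1) ^ 3 * U ^ (1 / 2 + 2 * δ) *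
        ((hgt (quo p q).1) ^ (-1 - 2 * δ) / |lgr (quo p q).1|) := by
  rw [lgr_quo]
  have hU0 : 0 < U := by linarith
  have hq := hgt_pos q.1
  have hp := hgt_pos p.1
  have hp1 := one_le_hgt p.1
  have hr := hgt_pos (quo p q).1
  have h1 : ww δ U q ≤ U ^ (1 / 2 + 2 * δ) * (hgt q.1) ^ (-1 - 2 * δ) := by
    unfold ww
    have h2 := Spaced.kap_le' (δ := δ) (U := U) (h := hgt q.1) (θ := 1 / 2 + 2 * δ) (by linarith)
      (by linarith) hU0 hq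
    rw [Real.div_rpow hU0.le hq.le] at h2
    calc kap δ U (hgt q.1) * (hgt q.1) ^ (-(1 / 2) : ℝ)
        ≤ U ^ (1 / 2 + 2 * δ) / (hgt q.1) ^ (1 / 2 + 2 * δ) * (hgt q.1) ^ (-(1 / 2) : ℝ) :=
          mul_le_mul_of_nonneg_right h2 (Real.rpow_nonneg hq.le _)
      _ = _ := by
          rw [div_eq_mul_inv, ← Real.rpow_neg hq.le, mul_assoc, ← Real.rpow_add hq]
          congr 2
          ring
  have h3 : (hgt q.1) ^ (-1 - 2 * δ) ≤ (hgt p.1) ^ 3 * (hgt (quo p q).1) ^ (-1 - 2 * δ) := by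
    have h4 : (hgt q.1 * hgt p.1) ^ (-1 - 2 * δ) ≤ (hgt (quo p q).1) ^ (-1 - 2 * δ) :=
      Real.rpow_le_rpow_of_nonpos hr (hgt_quo p q) (by linarith)
    rw [Real.mul_rpow hq.le hp.le] at h4
    have h5 : (hgt p.1) ^ (1 + 2 * δ) ≤ (hgt p.1) ^ 3 := by
      rw [← Real.rpow_natCast]
      exact Real.rpow_le_rpow_of_exponent_le hp1 (by push_cast; linarith)
    have h6 : (hgt p.1) ^ (1 + 2 * δ) * (hgt p.1) ^ (-1 - 2 * δ) = 1 := by
      rw [← Real.rpow_add hp]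
      rw [show (1 + 2 * δ + (-1 - 2 * δ)) = 0 by ring, Real.rpow_zero]
    calc (hgt q.1) ^ (-1 - 2 * δ)
        = (hgt p.1) ^ (1 + 2 * δ) * ((hgt q.1) ^ (-1 - 2 * δ) * (hgt p.1) ^ (-1 - 2 * δ)) := by
          rw [mul_comm ((hgt q.1) ^ (-1 - 2 * δ)), ← mul_assoc, h6, one_mul]
      _ ≤ (hgt p.1) ^ (1 + 2 * δ) * (hgt (quo p q).1) ^ (-1 - 2 * δ) :=
          mul_le_mul_of_nonneg_left h4 (Real.rpow_nonneg hp.le _)
      _ ≤ (hgt p.1) ^ 3 * (hgt (quo p q).1) ^ (-1 - 2 * δ) :=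
          mul_le_mul_of_nonneg_right h5 (Real.rpow_nonneg hr.le _)
  calc ww δ U q / |lgr q.1 - lgr p.1|
      ≤ (U ^ (1 / 2 + 2 * δ) * ((hgt p.1) ^ 3 * (hgt (quo p q).1) ^ (-1 - 2 * δ))) /
          |lgr q.1 - lgr p.1| :=
        div_le_div_of_nonneg_right (h1.trans (mul_le_mul_of_nonneg_left h3 (by positivity)))
          (abs_nonneg _)
    _ = _ := by ring

end LowSumAux

open LowSumAux in
theorem low_sum (δ : ℝ) (hδ : 0 < δ) (hδ2 : δ ≤ 1 / 2) : ∃ C : ℝ, 0 < C ∧ ∀ U : ℝ, 1 ≤ U → ∀ p : Q,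
    ∑' q : Q, ENNReal.ofReal (ww δ U q / |lgr q.1 - lgr p.1|) ≤
      ENNReal.ofReal (C * (hgt p.1) ^ 3 * U ^ (1 / 2 + 2 * δ)) := by
  obtain ⟨C, hC, h⟩ := base (2 * δ) (by linarith)
  refine ⟨C, hC, fun U hU p => ?_⟩
  have hU0 : 0 < U := by linarith
  have hp := hgt_pos p.1
  calc ∑' q : Q, ENNReal.ofReal (ww δ U q / |lgr q.1 - lgr p.1|)
      ≤ ∑' q : Q, ENNReal.ofReal ((hgt p.1) ^ 3 * U ^ (1 / 2 + 2 * δ)) *
          ENNReal.ofReal ((hgt (quo p q).1) ^ (-1 - 2 * δ) / |lgr (quo p q).1|) := by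
        refine ENNReal.tsum_le_tsum fun q => ?_
        rw [← ENNReal.ofReal_mul (by positivity)]
        exact ENNReal.ofReal_le_ofReal (term_le hδ hδ2 hU p q)
    _ = ENNReal.ofReal ((hgt p.1) ^ 3 * U ^ (1 / 2 + 2 * δ)) *
          ∑' q : Q, ENNReal.ofReal ((hgt (quo p q).1) ^ (-1 - 2 * δ) / |lgr (quo p q).1|) :=
        ENNReal.tsum_mul_left
    _ ≤ ENNReal.ofReal ((hgt p.1) ^ 3 * U ^ (1 / 2 + 2 * δ)) *
          ∑' r : Q, ENNReal.ofReal ((hgt r.1) ^ (-1 - 2 * δ) / |lgr r.1|) :=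
        mul_le_mul_right (ENNReal.tsum_comp_le_tsum_of_injective (quo_inj p)
          (fun r : Q => ENNReal.ofReal ((hgt r.1) ^ (-1 - 2 * δ) / |lgr r.1|))) _
    _ ≤ ENNReal.ofReal ((hgt p.1) ^ 3 * U ^ (1 / 2 + 2 * δ)) * ENNReal.ofReal C :=
        mul_le_mul_right h _
    _ = _ := by
        rw [← ENNReal.ofReal_mul (by positivity)]
        congr 1
        ring

end Pool.Agent.P07318s
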