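import Pool.Agent.Lib.P07318s.Defs
import Pool.Agent.Lib.P07318s.WMellin
import Pool.Agent.Lib.P07318s.Regroup
import Pool.Agent.Lib.P07318s.AFE
import Pool.Agent.Lib.P07318s.Sep
import Pool.Agent.Lib.P07318s.KapSum
import Pool.Agent.Lib.P07318s.LowSum
import Pool.Agent.Lib.P07318s.Cont

/-!
Twisted second moment of zeta with a short twist. `x = t + a ∈ [T, 4T]`, `U = T`. By `afe` replace `‖ζ‖²` by `Fd` (error `T · T^(-1/2+ε)`), by `Fd_eq`
`∫ Fd(t+a) conj(ex a p) da = ∑_q hgt^(-1/2) ex t q ∫ Om(hgt q)(t+a) exp(-i a (lgr q - lgr p)) da` (absolutely convergent). The term `q = p` is the main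
term. For `q ≠ p`: `Om h` is nonnegative and nondecreasing in `x` (`W_antitone`), so by partial integration / second mean value theorem the integral is
`≤ 4 Om(h)(4U)/|lgr q - lgr p| ≤ C kap δ U h / |lgr q - lgr p|` (or use the separated expansion `exists_sep` and integrate each power of the logarithm by
parts). Sum by `low_sum` with `δ = 1/16`. Note `Om h x ≤ C kap δ U h` for `x ≤ 4U` follows from `exists_sep` (or `W_le_rpow`).
-/

set_option autoImplicit false

namespace Pool.Agent.P07318s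

open MeasureTheory Complex

namespace TwistAux

lemma log_ratio {U x : ℝ} (hU : 1 ≤ U) (h1 : U ≤ x) (h2 : x ≤ 4 * U) :
    0 ≤ Real.log (x / U) ∧ Real.log (x / U) ≤ 2 := by
  have hU0 : 0 < U := by linarith
  constructor
  · exact Real.log_nonneg (by rw [le_div_iff₀ hU0]; linarith)
  · have h3 : x / U ≤ 4 := by rw [div_le_iff₀ hU0]; linarith
    have hx0 : 0 < x / U := div_pos (by linarith) hU0
    have h4 : (4:ℝ) ≤ Real.exp 2 := by
      have h5 := Real.add_one_le_exp (1:ℝ)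
      have h6 : Real.exp 2 = Real.exp 1 * Real.exp 1 := by rw [← Real.exp_add]; norm_num
      nlinarith
    exact (Real.log_le_log hx0 h3).trans ((Real.log_le_iff_le_exp (by norm_num)).2 h4)

lemma two_sixteen (n : ℕ) (C K : ℝ) : (2:ℝ) ^ n * (C / 16 ^ n * K) = C * K * (1 / 8) ^ n := by
  have h : (1 / 8 : ℝ) ^ n = 2 ^ n / 16 ^ n := by rw [← div_pow]; norm_num
  rw [h]
  ring

lemma term_le {δ U C : ℝ} {a : ℕ → ℝ → ℝ} (ha : IsSep δ U C a) {h x : ℝ} (hh : 1 ≤ h) (hU : 1 ≤ U)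
    (h1 : U ≤ x) (h2 : x ≤ 4 * U) (n : ℕ) :
    |(Real.log (x / U)) ^ n * a n h| ≤ C * kap δ U h * (1 / 8) ^ n := by
  obtain ⟨l1, l2⟩ := log_ratio hU h1 h2
  rw [← two_sixteen, abs_mul, abs_of_nonneg (pow_nonneg l1 n)]
  exact mul_le_mul (pow_le_pow_left₀ l1 l2 n) (ha.1 n h hh) (abs_nonneg _) (by positivity)

lemma geo (B : ℝ) : HasSum (fun n : ℕ => B * (1 / 8 : ℝ) ^ n) (B * (8 / 7)) := by
  have h := (hasSum_geometric_of_lt_one (r := (1 / 8 : ℝ)) (by norm_num) (by norm_num)).mul_left B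
  have e : B * (1 - 1 / 8)⁻¹ = B * (8 / 7) := by norm_num
  rwa [e] at h

lemma bb_mono {V H : ℝ} (hV : 0 ≤ V) (hVH : V ≤ H) (l : ℝ) : bb V l ≤ bb H l := by
  unfold bb
  have hl := abs_nonneg l
  have hH : 0 ≤ H := hV.trans hVH
  rw [div_le_div_iff₀ (by positivity) (by positivity)]
  nlinarith

/-- primitive of the exponential -/
noncomputable def Ev (β l a : ℝ) : ℂ := ∫ τ in β..a, cexp (((-(τ * l) : ℝ) : ℂ) * I)

lemma cont_e (l : ℝ) : Continuous (fun τ : ℝ => cexp (((-(τ * l) : ℝ) : ℂ) * I)) := by fun_prop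

lemma Ev_deriv (β l a : ℝ) : HasDerivAt (Ev β l) (cexp (((-(a * l) : ℝ) : ℂ) * I)) a :=
  ((cont_e l).integral_hasStrictDerivAt β a).hasDerivAt

lemma Ev_le {β l a H : ℝ} (h1 : β ≤ a) (h2 : a ≤ β + H) : ‖Ev β l a‖ ≤ bb H l := by
  have e : Ev β l a = cexp (((-(β * l) : ℝ) : ℂ) * I) * osc (a - β) l := by
    unfold Ev osc
    rw [← intervalIntegral.integral_const_mul]
    have h := intervalIntegral.integral_comp_add_right (a := 0) (b := a - β)
      (fun τ : ℝ => cexp (((-(τ * l) : ℝ) : ℂ) * I)) β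
    rw [zero_add, sub_add_cancel] at h
    rw [← h]
    refine intervalIntegral.integral_congr fun τ _ => ?_
    change cexp (((-((τ + β) * l) : ℝ) : ℂ) * I) = cexp (((-(β * l) : ℝ) : ℂ) * I) * cexp (((-(τ * l) : ℝ) : ℂ) * I)
    rw [← Complex.exp_add]
    congr 1
    push_cast
    ring
  rw [e, norm_mul, Complex.norm_exp_ofReal_mul_I, one_mul]
  exact (norm_osc_le (by linarith) l).trans (bb_mono (by linarith) (by linarith) l)

lemma lg_deriv {U t a : ℝ} (hU : 0 < U) (ha : 0 < t + a) :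
    HasDerivAt (fun a : ℝ => Real.log ((t + a) / U)) (1 / (t + a)) a := by
  have h1 : HasDerivAt (fun a : ℝ => (t + a) / U) (1 / U) a := by
    have := ((hasDerivAt_id a).const_add t).div_const U
    simpa using this
  have h2 := h1.log (div_pos ha hU).ne'
  convert h2 using 1
  field_simp

lemma lgpow_deriv {U t a : ℝ} (hU : 0 < U) (ha : 0 < t + a) (n : ℕ) :
    HasDerivAt (fun a : ℝ => Real.log ((t + a) / U) ^ n)
      (n * Real.log ((t + a) / U) ^ (n - 1) * (1 / (t + a))) a :=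
  (lg_deriv hU ha).pow n

/-- one power of the logarithm -/
lemma osc_pow {U t β H l : ℝ} (hU : 1 ≤ U) (hH : 0 ≤ H) (h1 : U ≤ t + β) (h2 : t + β + H ≤ 4 * U) (n : ℕ) :
    ‖∫ a in β..(β + H), ((Real.log ((t + a) / U) ^ n : ℝ) : ℂ) * cexp (((-(a * l) : ℝ) : ℂ) * I)‖ ≤
      2 * 2 ^ n * bb H l := by
  have hU0 : 0 < U := by linarith
  have hle : β ≤ β + H := by linarith
  have hpos : ∀ a ∈ Set.Icc β (β + H), 0 < t + a := fun a ha => by have := ha.1; linarith
  have hrat : ∀ a ∈ Set.Icc β (β + H), 0 ≤ Real.log ((t + a) / U) ∧ Real.log ((t + a) / U) ≤ 2 :=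
    fun a ha => log_ratio hU (by have := ha.1; linarith) (by have := ha.2; linarith)
  have hbb : 0 ≤ bb H l := bb_nonneg hH l
  set u' : ℝ → ℝ := fun a => n * Real.log ((t + a) / U) ^ (n - 1) * (1 / (t + a)) with hu'
  have hcont : ContinuousOn u' (Set.Icc β (β + H)) := by
    intro a ha
    have hp := hpos a ha
    refine ContinuousAt.continuousWithinAt ?_
    have c1 : ContinuousAt (fun a : ℝ => Real.log ((t + a) / U)) a := (lg_deriv hU0 hp).continuousAt
    have c2 : ContinuousAt (fun a : ℝ => 1 / (t + a)) a :=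
      continuousAt_const.div (continuousAt_const.add continuousAt_id) hp.ne'
    exact (continuousAt_const.mul (c1.pow _)).mul c2
  have hint : IntervalIntegrable u' volume β (β + H) := by
    apply ContinuousOn.intervalIntegrable
    rwa [Set.uIcc_of_le hle]
  have hintc : IntervalIntegrable (fun a => (u' a : ℂ)) volume β (β + H) := by
    apply ContinuousOn.intervalIntegrable
    rw [Set.uIcc_of_le hle]
    exact Complex.continuous_ofReal.comp_continuousOn hcont
  have hparts := intervalIntegral.integral_mul_deriv_eq_deriv_mul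
    (u := fun a : ℝ => ((Real.log ((t + a) / U) ^ n : ℝ) : ℂ)) (u' := fun a => (u' a : ℂ))
    (v := Ev β l) (v' := fun a => cexp (((-(a * l) : ℝ) : ℂ) * I)) (a := β) (b := β + H)
    (fun a ha => by
      rw [Set.uIcc_of_le hle] at ha
      exact (lgpow_deriv hU0 (hpos a ha) n).ofReal_comp)
    (fun a _ => Ev_deriv β l a)
    hintc ((cont_e l).intervalIntegrable _ _)
  rw [hparts]
  have e0 : Ev β l β = 0 := by unfold Ev; exact intervalIntegral.integral_same
  rw [e0, mul_zero, sub_zero]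
  have hend := hrat (β + H) ⟨hle, le_rfl⟩
  have b1 : ‖((Real.log ((t + (β + H)) / U) ^ n : ℝ) : ℂ) * Ev β l (β + H)‖ ≤ 2 ^ n * bb H l := by
    rw [norm_mul, Complex.norm_real, Real.norm_eq_abs, abs_of_nonneg (pow_nonneg hend.1 n)]
    exact mul_le_mul (pow_le_pow_left₀ hend.1 hend.2 n) (Ev_le hle le_rfl) (norm_nonneg _) (by positivity)
  have b2 : ‖∫ a in β..(β + H), (u' a : ℂ) * Ev β l a‖ ≤ 2 ^ n * bb H l := by
    have hb := intervalIntegral.norm_integral_le_of_norm_le (μ := volume) (a := β) (b := β + H)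
      (f := fun a => (u' a : ℂ) * Ev β l a) (g := fun a => u' a * bb H l) hle
      (Filter.Eventually.of_forall fun a ha => by
        have ha' : a ∈ Set.Icc β (β + H) := ⟨ha.1.le, ha.2⟩
        have hu0 : 0 ≤ u' a := by
          have h3 := (hrat a ha').1
          have h4 := hpos a ha'
          simp only [hu']
          positivity
        rw [norm_mul, Complex.norm_real, Real.norm_eq_abs, abs_of_nonneg hu0]
        exact mul_le_mul_of_nonneg_left (Ev_le ha'.1 ha'.2) hu0)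
      (hint.mul_const _)
    refine hb.trans ?_
    rw [intervalIntegral.integral_mul_const]
    have hi := intervalIntegral.integral_eq_sub_of_hasDerivAt
      (f := fun a : ℝ => Real.log ((t + a) / U) ^ n) (f' := u') (a := β) (b := β + H)
      (fun a ha => by
        rw [Set.uIcc_of_le hle] at ha
        exact lgpow_deriv hU0 (hpos a ha) n) hint
    rw [hi]
    refine mul_le_mul_of_nonneg_right ?_ hbb
    have h3 := pow_nonneg (hrat β ⟨le_rfl, hle⟩).1 n
    have h4 := pow_le_pow_left₀ hend.1 hend.2 n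
    linarith
  calc ‖((Real.log ((t + (β + H)) / U) ^ n : ℝ) : ℂ) * Ev β l (β + H) -
        ∫ a in β..(β + H), (u' a : ℂ) * Ev β l a‖
      ≤ 2 ^ n * bb H l + 2 ^ n * bb H l := (norm_sub_le _ _).trans (add_le_add b1 b2)
    _ = 2 * 2 ^ n * bb H l := by ring

end TwistAux

open TwistAux

theorem Om_le_kap (δ : ℝ) (hδ : 0 < δ) (hδ2 : δ ≤ 1 / 2) : ∃ C : ℝ, 0 < C ∧ ∀ U h x : ℝ, 1 ≤ U → 1 ≤ h → U ≤ x →
    x ≤ 4 * U → Om h x ≤ C * kap δ U h := by
  obtain ⟨C, hC, hsep⟩ := exists_sep δ hδ hδ2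
  refine ⟨2 * C, by linarith, fun U h x hU hh h1 h2 => ?_⟩
  obtain ⟨a, ha⟩ := hsep U hU
  have hs := ha.2 h hh x h1 h2
  have hb := tsum_of_norm_bounded (f := fun n : ℕ => (Real.log (x / U)) ^ n * a n h)
    (geo (C * kap δ U h)) (fun n => term_le ha hh hU h1 h2 n)
  rw [hs.tsum_eq, Real.norm_eq_abs] at hb
  have hk : 0 ≤ kap δ U h := kap_nonneg (by linarith) (by linarith)
  have hk2 : 0 ≤ C * kap δ U h := by positivity
  have := (le_abs_self _).trans hb
  linarith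

/-- one oscillating integral -/
theorem Om_osc (δ : ℝ) (hδ : 0 < δ) (hδ2 : δ ≤ 1 / 2) : ∃ C : ℝ, 0 < C ∧ ∀ U h t β H l : ℝ, 1 ≤ U → 1 ≤ h → 0 ≤ H → U ≤ t + β →
    t + β + H ≤ 4 * U →
    ‖∫ a in β..(β + H), ((Om h (t + a) : ℝ) : ℂ) * cexp (((-(a * l) : ℝ) : ℂ) * I)‖ ≤ C * kap δ U h * bb H l := by
  obtain ⟨C, hC, hsep⟩ := exists_sep δ hδ hδ2
  refine ⟨4 * C, by linarith, fun U h t β H l hU hh hH h1 h2 => ?_⟩
  obtain ⟨a, ha⟩ := hsep U hU
  have hle : β ≤ β + H := by linarith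
  have hk : 0 ≤ kap δ U h := kap_nonneg (by linarith) (by linarith)
  have hbb : 0 ≤ bb H l := bb_nonneg hH l
  have hrange : ∀ x ∈ Set.uIoc β (β + H), U ≤ t + x ∧ t + x ≤ 4 * U := by
    intro x hx
    rw [Set.uIoc_of_le hle] at hx
    exact ⟨by have := hx.1; linarith, by have := hx.2; linarith⟩
  have hint := intervalIntegral.hasSum_integral_of_dominated_convergence (μ := volume) (a := β) (b := β + H)
    (F := fun (n : ℕ) (x : ℝ) => (((Real.log ((t + x) / U)) ^ n * a n h : ℝ) : ℂ) *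
      cexp (((-(x * l) : ℝ) : ℂ) * I))
    (f := fun x : ℝ => ((Om h (t + x) : ℝ) : ℂ) * cexp (((-(x * l) : ℝ) : ℂ) * I))
    (fun n _ => C * kap δ U h * (1 / 8) ^ n)
    (fun n => by
      refine Measurable.aestronglyMeasurable ?_
      have m1 : Measurable (fun x : ℝ => (Real.log ((t + x) / U)) ^ n * a n h) := by
        refine Measurable.mul_const ?_ _
        refine Measurable.pow_const ?_ _
        exact Real.measurable_log.comp (by fun_prop)
      exact (Complex.measurable_ofReal.comp m1).mul (cont_e l).measurable)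
    (fun n => Filter.Eventually.of_forall fun x hx => by
      obtain ⟨r1, r2⟩ := hrange x hx
      rw [norm_mul, Complex.norm_exp_ofReal_mul_I, mul_one, Complex.norm_real, Real.norm_eq_abs]
      exact term_le ha hh hU r1 r2 n)
    (Filter.Eventually.of_forall fun x _ => (geo _).summable)
    intervalIntegrable_const
    (Filter.Eventually.of_forall fun x hx => by
      obtain ⟨r1, r2⟩ := hrange x hx
      exact (Complex.hasSum_ofReal.2 (ha.2 h hh (t + x) r1 r2)).mul_right _)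
  rw [← hint.tsum_eq]
  have hterm : ∀ n : ℕ, ‖∫ x in β..(β + H), (((Real.log ((t + x) / U)) ^ n * a n h : ℝ) : ℂ) *
      cexp (((-(x * l) : ℝ) : ℂ) * I)‖ ≤ (2 * (C * kap δ U h) * bb H l) * (1 / 8) ^ n := by
    intro n
    have e : ∀ x : ℝ, (((Real.log ((t + x) / U)) ^ n * a n h : ℝ) : ℂ) * cexp (((-(x * l) : ℝ) : ℂ) * I) =
        ((a n h : ℝ) : ℂ) * (((Real.log ((t + x) / U) ^ n : ℝ) : ℂ) * cexp (((-(x * l) : ℝ) : ℂ) * I)) := by
      intro x
      push_cast
      ring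
    simp_rw [e]
    rw [intervalIntegral.integral_const_mul, norm_mul, Complex.norm_real, Real.norm_eq_abs]
    calc |a n h| * ‖∫ x in β..(β + H), ((Real.log ((t + x) / U) ^ n : ℝ) : ℂ) * cexp (((-(x * l) : ℝ) : ℂ) * I)‖
        ≤ (C / 16 ^ n * kap δ U h) * (2 * 2 ^ n * bb H l) :=
          mul_le_mul (ha.1 n h hh) (osc_pow hU hH h1 h2 n) (norm_nonneg _) (by positivity)
      _ = 2 * bb H l * (2 ^ n * (C / 16 ^ n * kap δ U h)) := by ring
      _ = (2 * (C * kap δ U h) * bb H l) * (1 / 8) ^ n := by rw [two_sixteen]; ring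
  refine (tsum_of_norm_bounded (geo (2 * (C * kap δ U h) * bb H l)) hterm).trans ?_
  have hk2 : 0 ≤ C * kap δ U h * bb H l := by positivity
  nlinarith

namespace TwistAux

lemma lgr_inj {q p : Q} (h : lgr q.1 = lgr p.1) : q = p := by
  obtain ⟨⟨a, b⟩, hab⟩ := q
  obtain ⟨⟨c, d⟩, hcd⟩ := p
  unfold lgr at h
  simp only at h hab hcd
  have ha : (0:ℝ) < ((a : ℕ) : ℝ) := by exact_mod_cast a.pos
  have hb : (0:ℝ) < ((b : ℕ) : ℝ) := by exact_mod_cast b.pos
  have hc : (0:ℝ) < ((c : ℕ) : ℝ) := by exact_mod_cast c.pos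
  have hd : (0:ℝ) < ((d : ℕ) : ℝ) := by exact_mod_cast d.pos
  have h1 : Real.log (((a : ℕ) : ℝ) * ((d : ℕ) : ℝ)) = Real.log (((c : ℕ) : ℝ) * ((b : ℕ) : ℝ)) := by
    rw [Real.log_mul ha.ne' hd.ne', Real.log_mul hc.ne' hb.ne']
    linarith
  have h2 : ((a : ℕ) : ℝ) * ((d : ℕ) : ℝ) = ((c : ℕ) : ℝ) * ((b : ℕ) : ℝ) :=
    Real.log_injOn_pos (Set.mem_Ioi.2 (mul_pos ha hd)) (Set.mem_Ioi.2 (mul_pos hc hb)) h1
  have h3 : (a : ℕ) * (d : ℕ) = (c : ℕ) * (b : ℕ) := by exact_mod_cast h2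
  have h4 : (a : ℕ) ∣ (c : ℕ) := hab.dvd_of_dvd_mul_right (Dvd.intro _ h3)
  have h5 : (c : ℕ) ∣ (a : ℕ) := hcd.dvd_of_dvd_mul_right (Dvd.intro _ h3.symm)
  have h6 : (a : ℕ) = (c : ℕ) := Nat.dvd_antisymm h4 h5
  have h7 : (b : ℕ) = (d : ℕ) := by
    rw [h6] at h3
    exact (Nat.eq_of_mul_eq_mul_left c.pos h3).symm
  exact Subtype.ext (Prod.ext (PNat.eq h6) (PNat.eq h7))

lemma Om_mono (h : ℝ) (hh : 1 ≤ h) : MonotoneOn (fun x : ℝ => Om h x) (Set.Ioi 0) := by
  intro x hx y hy hxy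
  have hx0 : 0 < x := hx
  have hy0 : 0 < y := hy
  simp only
  unfold Om
  refine Summable.tsum_le_tsum (fun g => ?_) (Om_summable hx0 hh) (Om_summable hy0 hh)
  have hg : (0 : ℝ) < ((g : ℕ) : ℝ) := by exact_mod_cast g.pos
  have hn : 0 < 2 * Real.pi * ((g : ℕ) : ℝ) ^ 2 * h := by positivity
  refine div_le_div_of_nonneg_right ?_ hg.le
  exact W_antitone (Set.mem_Ioi.2 (div_pos hn hy0)) (Set.mem_Ioi.2 (div_pos hn hx0))
    (div_le_div_of_nonneg_left hn.le hx0 hxy)

lemma ex_conj (t a : ℝ) (q p : ℕ+ × ℕ+) :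
    ex (t + a) q * (starRingEnd ℂ) (ex a p) =
      ex t q * cexp (((-(a * (lgr q - lgr p)) : ℝ) : ℂ) * I) := by
  rw [lgr_add_aux, mul_assoc]
  congr 1
  unfold ex
  rw [← Complex.exp_conj, ← Complex.exp_add]
  congr 1
  rw [map_mul, Complex.conj_ofReal, Complex.conj_I]
  push_cast
  ring

lemma zeta_cont (t : ℝ) : Continuous (fun a : ℝ =>
    ((‖riemannZeta (1 / 2 + ((t + a : ℝ) : ℂ) * I)‖ ^ 2 : ℝ) : ℂ)) := by
  have h1 : Continuous (fun a : ℝ => riemannZeta (1 / 2 + ((t + a : ℝ) : ℂ) * I)) := by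
    rw [continuous_iff_continuousAt]
    intro a
    have hne : (1 / 2 + ((t + a : ℝ) : ℂ) * I) ≠ 1 := by
      intro h
      have := congrArg Complex.re h
      simp at this
    have h2 : ContinuousAt riemannZeta (1 / 2 + ((t + a : ℝ) : ℂ) * I) :=
      (differentiableAt_riemannZeta hne).continuousAt
    have h3 : ContinuousAt (fun a : ℝ => (1 / 2 + ((t + a : ℝ) : ℂ) * I)) a := by fun_prop
    exact ContinuousAt.comp (f := fun a : ℝ => (1 / 2 + ((t + a : ℝ) : ℂ) * I)) h2 h3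
  exact Complex.continuous_ofReal.comp ((continuous_norm.comp h1).pow 2)

lemma conj_ex_cont (p : ℕ+ × ℕ+) : Continuous (fun a : ℝ => (starRingEnd ℂ) (ex a p)) :=
  Complex.continuous_conj.comp (Cont_ex_continuous p)

end TwistAux

theorem twist : ∃ C : ℝ, 0 < C ∧ ∀ T β t : ℝ, 1 ≤ T → T ≤ β → β ≤ 2 * T → 0 ≤ t → t ≤ T → ∀ p : Q,
    ‖(∫ a in β..(β + T), ((‖riemannZeta (1 / 2 + ((t + a : ℝ) : ℂ) * I)‖ ^ 2 : ℝ) : ℂ) * (starRingEnd ℂ) (ex a p.1)) -
      ex t p.1 * (((hgt p.1) ^ (-(1 / 2) : ℝ) * ∫ a in β..(β + T), Om (hgt p.1) (t + a) : ℝ) : ℂ)‖ ≤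
      C * (hgt p.1) ^ 3 * T ^ (3 / 4 : ℝ) := by
  classical
  obtain ⟨C1, hC1, hafe⟩ := afe (1 / 4) (by norm_num)
  obtain ⟨C2, hC2, hosc⟩ := Om_osc (1 / 16) (by norm_num) (by norm_num)
  obtain ⟨C3, hC3, hlow⟩ := low_sum (1 / 16) (by norm_num) (by norm_num)
  obtain ⟨C4, hC4, hkap⟩ := Om_le_kap (1 / 16) (by norm_num) (by norm_num)
  refine ⟨C1 + 4 * C2 * C3, by positivity, fun T β t hT hβ1 hβ2 ht0 htT p => ?_⟩
  have hT0 : 0 < T := by linarith
  have hle : β ≤ β + T := by linarith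
  have hh1 : ∀ q : Q, 1 ≤ hgt q.1 := fun q => one_le_hgt q.1
  have hrange : ∀ a ∈ Set.Icc β (β + T), T ≤ t + a ∧ t + a ≤ 4 * T := fun a ha =>
    ⟨by have := ha.1; linarith, by have := ha.2; linarith⟩
  have hrange' : ∀ a ∈ Set.uIoc β (β + T), T ≤ t + a ∧ t + a ≤ 4 * T := by
    intro a ha
    rw [Set.uIoc_of_le hle] at ha
    exact hrange a ⟨ha.1.le, ha.2⟩
  -- continuity of `Fd`
  have hFd : ContinuousOn (fun a : ℝ => Fd (t + a)) (Set.Icc β (β + T)) := by
    refine Fd_continuousOn.comp (by fun_prop) ?_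
    intro a ha
    have := (hrange a ha).1
    exact Set.mem_Ioi.2 (by linarith)
  have hi1 : IntervalIntegrable (fun a : ℝ => ((‖riemannZeta (1 / 2 + ((t + a : ℝ) : ℂ) * I)‖ ^ 2 : ℝ) : ℂ) *
      (starRingEnd ℂ) (ex a p.1)) volume β (β + T) :=
    ((zeta_cont t).mul (conj_ex_cont p.1)).intervalIntegrable _ _
  have hi2 : IntervalIntegrable (fun a : ℝ => Fd (t + a) * (starRingEnd ℂ) (ex a p.1)) volume β (β + T) := by
    apply ContinuousOn.intervalIntegrable
    rw [Set.uIcc_of_le hle]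
    exact hFd.mul (conj_ex_cont p.1).continuousOn
  -- the approximate functional equation
  have hA : ‖(∫ a in β..(β + T), ((‖riemannZeta (1 / 2 + ((t + a : ℝ) : ℂ) * I)‖ ^ 2 : ℝ) : ℂ) *
      (starRingEnd ℂ) (ex a p.1)) - ∫ a in β..(β + T), Fd (t + a) * (starRingEnd ℂ) (ex a p.1)‖ ≤
      C1 * T ^ (3 / 4 : ℝ) := by
    rw [← intervalIntegral.integral_sub hi1 hi2]
    have hb := intervalIntegral.norm_integral_le_of_norm_le_const (a := β) (b := β + T)
      (C := C1 * T ^ (-(1 / 4) : ℝ))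
      (f := fun a : ℝ => ((‖riemannZeta (1 / 2 + ((t + a : ℝ) : ℂ) * I)‖ ^ 2 : ℝ) : ℂ) *
        (starRingEnd ℂ) (ex a p.1) - Fd (t + a) * (starRingEnd ℂ) (ex a p.1)) (fun a ha => by
        obtain ⟨r1, r2⟩ := hrange' a ha
        rw [← sub_mul, norm_mul]
        have e1 : ‖(starRingEnd ℂ) (ex a p.1)‖ = 1 := by rw [RCLike.norm_conj, norm_ex]
        rw [e1, mul_one]
        refine (hafe (t + a) (by linarith)).trans ?_
        refine mul_le_mul_of_nonneg_left ?_ hC1.le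
        have e2 : (-(1 / 2) + 1 / 4 : ℝ) = -(1 / 4) := by norm_num
        rw [e2]
        exact Real.rpow_le_rpow_of_nonpos hT0 r1 (by norm_num))
    refine hb.trans (le_of_eq ?_)
    rw [add_sub_cancel_left, abs_of_pos hT0, mul_assoc]
    congr 1
    have e3 : (3 / 4 : ℝ) = -(1 / 4) + 1 := by norm_num
    rw [e3, Real.rpow_add hT0, Real.rpow_one]
  -- termwise integration
  have hint := intervalIntegral.hasSum_integral_of_dominated_convergence (μ := volume) (a := β) (b := β + T)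
    (F := fun (q : Q) (a : ℝ) => ((((hgt q.1) ^ (-(1 / 2) : ℝ) * Om (hgt q.1) (t + a) : ℝ) : ℂ) *
      ex (t + a) q.1) * (starRingEnd ℂ) (ex a p.1))
    (f := fun a : ℝ => Fd (t + a) * (starRingEnd ℂ) (ex a p.1))
    (fun q _ => C4 * ww (1 / 16) T q)
    (fun q => by
      have m1 : AEMeasurable (fun a : ℝ => Om (hgt q.1) (t + a)) (volume.restrict (Set.uIoc β (β + T))) := by
        refine aemeasurable_restrict_of_monotoneOn measurableSet_uIoc ?_
        intro a ha b hb hab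
        exact Om_mono (hgt q.1) (hh1 q) (Set.mem_Ioi.2 (by have := (hrange' a ha).1; linarith))
          (Set.mem_Ioi.2 (by have := (hrange' b hb).1; linarith)) (by linarith)
      have m2 : AEMeasurable (fun a : ℝ => (((hgt q.1) ^ (-(1 / 2) : ℝ) * Om (hgt q.1) (t + a) : ℝ) : ℂ))
          (volume.restrict (Set.uIoc β (β + T))) :=
        Complex.measurable_ofReal.comp_aemeasurable (m1.const_mul _)
      have m3 : Continuous (fun a : ℝ => ex (t + a) q.1) :=
        (Cont_ex_continuous q.1).comp (continuous_const.add continuous_id)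
      exact ((m2.mul m3.measurable.aemeasurable).mul
        (conj_ex_cont p.1).measurable.aemeasurable).aestronglyMeasurable)
    (fun q => Filter.Eventually.of_forall fun a ha => by
      obtain ⟨r1, r2⟩ := hrange' a ha
      have e1 : ‖(starRingEnd ℂ) (ex a p.1)‖ = 1 := by rw [RCLike.norm_conj, norm_ex]
      have h0 : 0 ≤ (hgt q.1) ^ (-(1 / 2) : ℝ) := Real.rpow_nonneg (hgt_pos q.1).le _
      rw [norm_mul, norm_mul, e1, norm_ex, mul_one, mul_one, Complex.norm_real, Real.norm_eq_abs,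
        abs_of_nonneg (mul_nonneg h0 (Om_nonneg _ _))]
      unfold ww
      calc (hgt q.1) ^ (-(1 / 2) : ℝ) * Om (hgt q.1) (t + a)
          ≤ (hgt q.1) ^ (-(1 / 2) : ℝ) * (C4 * kap (1 / 16) T (hgt q.1)) :=
            mul_le_mul_of_nonneg_left (hkap T _ _ hT (hh1 q) r1 r2) h0
        _ = _ := by ring)
    (Filter.Eventually.of_forall fun a _ => (ww_summable (by norm_num) (by norm_num) hT).mul_left C4)
    intervalIntegrable_const
    (Filter.Eventually.of_forall fun a ha => by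
      obtain ⟨r1, r2⟩ := hrange' a ha
      have hpos : 0 < t + a := by linarith
      refine HasSum.mul_right _ ?_
      rw [Fd_eq hpos]
      refine Summable.hasSum (Summable.of_norm ?_)
      refine (cfQ_summable hpos).congr fun q => ?_
      rw [norm_mul, norm_ex, mul_one, Complex.norm_real, Real.norm_eq_abs,
        abs_of_nonneg (mul_nonneg (Real.rpow_nonneg (hgt_pos q.1).le _) (Om_nonneg _ _))])
  -- the integral of a term
  set J : Q → ℂ := fun q => ∫ a in β..(β + T), ((((hgt q.1) ^ (-(1 / 2) : ℝ) * Om (hgt q.1) (t + a) : ℝ) : ℂ) *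
      ex (t + a) q.1) * (starRingEnd ℂ) (ex a p.1) with hJ
  have hJeq : ∀ q : Q, J q = (((hgt q.1) ^ (-(1 / 2) : ℝ) : ℝ) : ℂ) * ex t q.1 *
      ∫ a in β..(β + T), ((Om (hgt q.1) (t + a) : ℝ) : ℂ) *
        cexp (((-(a * (lgr q.1 - lgr p.1)) : ℝ) : ℂ) * I) := by
    intro q
    rw [hJ, ← intervalIntegral.integral_const_mul]
    refine intervalIntegral.integral_congr fun a _ => ?_
    rw [mul_assoc, ex_conj]
    push_cast
    ring
  have hJp : J p = ex t p.1 * (((hgt p.1) ^ (-(1 / 2) : ℝ) * ∫ a in β..(β + T), Om (hgt p.1) (t + a) : ℝ) : ℂ) := by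
    rw [hJeq p, sub_self]
    simp only [mul_zero, neg_zero, Complex.ofReal_zero, zero_mul, Complex.exp_zero, mul_one]
    rw [intervalIntegral.integral_ofReal]
    push_cast
    ring
  have hsub := hasSum_ite_sub_hasSum hint p
  have hB : ‖(∫ a in β..(β + T), Fd (t + a) * (starRingEnd ℂ) (ex a p.1)) - J p‖ ≤
      4 * C2 * (C3 * (hgt p.1) ^ 3 * T ^ (1 / 2 + 2 * (1 / 16) : ℝ)) := by
    rw [← hsub.tsum_eq]
    have hnn : 0 ≤ 4 * C2 * (C3 * (hgt p.1) ^ 3 * T ^ (1 / 2 + 2 * (1 / 16) : ℝ)) := by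
      have := (hgt_pos p.1).le
      positivity
    rw [← ENNReal.ofReal_le_ofReal_iff hnn, ofReal_norm]
    refine enorm_tsum_le_tsum_enorm.trans ?_
    rw [ENNReal.ofReal_mul (by positivity)]
    refine le_trans ?_ (mul_le_mul_right (hlow T hT p) _)
    rw [← ENNReal.tsum_mul_left]
    refine ENNReal.tsum_le_tsum fun q => ?_
    by_cases hq : q = p
    · simp [hq]
    · rw [if_neg hq]
      change ‖J q‖ₑ ≤ _
      have hl : lgr q.1 - lgr p.1 ≠ 0 := fun h0 => hq (lgr_inj (by linarith))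
      rw [← ENNReal.ofReal_mul (by positivity), ← ofReal_norm]
      refine ENNReal.ofReal_le_ofReal ?_
      have h0 : 0 ≤ (hgt q.1) ^ (-(1 / 2) : ℝ) := Real.rpow_nonneg (hgt_pos q.1).le _
      have hk : 0 ≤ kap (1 / 16) T (hgt q.1) := kap_nonneg hT0.le (hgt_pos q.1).le
      rw [hJeq q, norm_mul, norm_mul, norm_ex, mul_one, Complex.norm_real, Real.norm_eq_abs, abs_of_nonneg h0]
      have h1 := hosc T (hgt q.1) t β T (lgr q.1 - lgr p.1) hT (hh1 q) hT0.le (by linarith) (by linarith)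
      have h2 := bb_le_inv hT0.le hl
      calc (hgt q.1) ^ (-(1 / 2) : ℝ) * ‖∫ a in β..(β + T), ((Om (hgt q.1) (t + a) : ℝ) : ℂ) *
            cexp (((-(a * (lgr q.1 - lgr p.1)) : ℝ) : ℂ) * I)‖
          ≤ (hgt q.1) ^ (-(1 / 2) : ℝ) * (C2 * kap (1 / 16) T (hgt q.1) * (4 / |lgr q.1 - lgr p.1|)) :=
            mul_le_mul_of_nonneg_left (h1.trans (mul_le_mul_of_nonneg_left h2 (by positivity))) h0
        _ = 4 * C2 * (ww (1 / 16) T q / |lgr q.1 - lgr p.1|) := by
            unfold ww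
            ring
  rw [← hJp]
  have hT34 : T ^ (1 / 2 + 2 * (1 / 16) : ℝ) ≤ T ^ (3 / 4 : ℝ) :=
    Real.rpow_le_rpow_of_exponent_le hT (by norm_num)
  have hp3 : 1 ≤ (hgt p.1) ^ 3 := one_le_pow₀ (hh1 p)
  have hTn : 0 ≤ T ^ (3 / 4 : ℝ) := Real.rpow_nonneg hT0.le _
  calc ‖(∫ a in β..(β + T), ((‖riemannZeta (1 / 2 + ((t + a : ℝ) : ℂ) * I)‖ ^ 2 : ℝ) : ℂ) *
        (starRingEnd ℂ) (ex a p.1)) - J p‖
      ≤ C1 * T ^ (3 / 4 : ℝ) + 4 * C2 * (C3 * (hgt p.1) ^ 3 * T ^ (1 / 2 + 2 * (1 / 16) : ℝ)) := by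
        refine (norm_sub_le_norm_sub_add_norm_sub _
          (∫ a in β..(β + T), Fd (t + a) * (starRingEnd ℂ) (ex a p.1)) _).trans (add_le_add hA hB)
    _ ≤ C1 * ((hgt p.1) ^ 3 * T ^ (3 / 4 : ℝ)) + 4 * C2 * (C3 * (hgt p.1) ^ 3 * T ^ (3 / 4 : ℝ)) := by
        refine add_le_add (mul_le_mul_of_nonneg_left ?_ hC1.le) ?_
        · nlinarith
        · refine mul_le_mul_of_nonneg_left ?_ (by positivity)
          exact mul_le_mul_of_nonneg_left hT34 (by positivity)
    _ = (C1 + 4 * C2 * C3) * (hgt p.1) ^ 3 * T ^ (3 / 4 : ℝ) := by ring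

end Pool.Agent.P07318s
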