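import Pool.Agent.Lib.P07318s.Defs
import Pool.Agent.Lib.P07318s.AFE
import Pool.Agent.Lib.P07318s.SecondMoment
import Pool.Agent.Lib.P07318s.E1
import Pool.Agent.Lib.P07318s.Cont

/-!
As `e1` (E1.lean; the proof there bounds the norm of the integral by the integral of the norm first), here with the norm
inside the integral over `t`.
-/

set_option autoImplicit false

namespace Pool.Agent.P07318s

open MeasureTheory Complex

theorem e1_v (n : ℕ) (ε : ℝ) (hε : 0 < ε) : ∃ C : ℝ, 0 < C ∧ ∀ U H : ℝ, 1 ≤ U →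
    U ^ (1 / 2 : ℝ) ≤ H → H ≤ U → ∀ α₀ : ℝ, U ≤ α₀ → α₀ ≤ 2 * U → ∀ β : Fin n → ℝ,
    (∀ j, U ≤ β j) → (∀ j, β j ≤ 2 * U) →
    ∃ B : (Fin n → ℝ) → ENNReal, Measurable B ∧
      (∀ α ∈ Set.Icc β (fun j => β j + H), ∀ V ∈ Set.Icc (0:ℝ) U,
        ‖∫ t in (0:ℝ)..V, (((∏ j, ‖riemannZeta (1 / 2 +
            ((t + (Fin.cons α₀ α : Fin (n + 1) → ℝ) j : ℝ) : ℂ) * I)‖ ^ 2 : ℝ) : ℂ) -
          ∏ j, Fd (t + (Fin.cons α₀ α : Fin (n + 1) → ℝ) j))‖ₑ ≤ B α) ∧
      ∫⁻ α in Set.Icc β (fun j => β j + H), B α ≤ ENNReal.ofReal (C * U ^ (1 / 2 + ε) * H ^ n) := by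
  set ε' : ℝ := min (ε / (n + 1)) (1 / 2) with hε'
  have hn : (0 : ℝ) < n + 1 := by positivity
  have hε'0 : 0 < ε' := lt_min (by positivity) (by norm_num)
  have hε'1 : ε' ≤ 1 / 2 := min_le_right _ _
  have hε'2 : (n + 1) * ε' ≤ ε := by
    have := min_le_left (ε / (n + 1)) (1 / 2 : ℝ)
    calc (n + 1) * ε' ≤ (n + 1) * (ε / (n + 1)) := mul_le_mul_of_nonneg_left this hn.le
      _ = ε := by field_simp
  obtain ⟨C1, hC1, hafe⟩ := afe ε' hε'0
  obtain ⟨C2, hC2, hsm⟩ := second_moment ε' hε'0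
  refine ⟨(n + 1) * C1 * (2 * C2 + C1) ^ n * 1, by positivity, ?_⟩
  intro U H hU hUH hHU α₀ hα₀ hα₀' β hβ hβ'
  have hU0 : 0 < U := by linarith
  set η : ℝ := C1 * U ^ (-(1 / 2) + ε') with hη
  have hη0 : 0 ≤ η := by positivity
  set D : ℝ := 2 * C2 + C1 with hD
  have hη1 : η ≤ C1 * U ^ ε' := by
    refine mul_le_mul_of_nonneg_left (Real.rpow_le_rpow_of_exponent_le hU (by linarith)) hC1.le
  have hH0 : 0 ≤ H := (Real.rpow_nonneg hU0.le _).trans hUH
  have hUU : U ^ (1 / 2 : ℝ) ≤ U := by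
    calc U ^ (1 / 2 : ℝ) ≤ U ^ (1 : ℝ) := Real.rpow_le_rpow_of_exponent_le hU (by norm_num)
      _ = U := Real.rpow_one U
  set g : ℝ → ENNReal := fun x => ENNReal.ofReal (‖riemannZeta (1 / 2 + ((x : ℝ) : ℂ) * I)‖ ^ 2 + η) with hg
  have hgm : Measurable g := by
    have := (zeta_half_continuous.norm.pow 2).add (continuous_const (y := η))
    exact this.measurable.ennreal_ofReal
  set G : Fin (n + 1) → Fin (n + 1) → ℝ → ENNReal := fun j i x => if i = j then ENNReal.ofReal η else g x with hG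
  have hGm : ∀ j i, Measurable (G j i) := by
    intro j i
    simp only [hG]
    split_ifs
    · exact measurable_const
    · exact hgm
  set M : Fin (n + 1) → Fin (n + 1) → ℝ := fun j i => if i = j then η else D * U ^ ε' with hM
  have hM0 : ∀ j i, 0 ≤ M j i := by
    intro j i
    simp only [hM]
    split_ifs <;> positivity
  -- integral of one factor
  have hone : ∀ (j i : Fin (n + 1)) (s a b L : ℝ), a ≤ b → b - a ≤ L → U ^ (1 / 2 : ℝ) ≤ L → -(4 * U) ≤ s + a →
      s + b ≤ 4 * U → ∫⁻ x in Set.Icc a b, G j i (s + x) ≤ ENNReal.ofReal (M j i * L) := by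
    intro j i s a b L hab hL hL2 h1 h2
    by_cases hij : i = j
    · simp only [hG, hM, if_pos hij]
      rw [setLIntegral_const, Real.volume_Icc, ← ENNReal.ofReal_mul hη0]
      exact ENNReal.ofReal_le_ofReal (mul_le_mul_of_nonneg_left hL hη0)
    · simp only [hG, hM, if_neg hij, hg]
      exact e1_lint_le hU hη0 hC2 (fun a b h1 h2 h3 => hsm U a b hU h1 h2 h3) hη1 hab hL hL2 h1 h2
  have hbox : Set.Icc β (fun j => β j + H) = Set.pi Set.univ (fun i => Set.Icc (β i) (β i + H)) :=
    (Set.pi_univ_Icc _ _).symm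
  have hvol : (volume : Measure (Fin n → ℝ)).restrict (Set.Icc β (fun j => β j + H)) =
      Measure.pi (fun i => volume.restrict (Set.Icc (β i) (β i + H))) := by
    rw [hbox, volume_pi, Measure.restrict_pi_pi]
  have hm1 : ∀ (j : Fin (n + 1)) (t : ℝ), Measurable (fun α : Fin n → ℝ => ∏ i : Fin n, G j i.succ (t + α i)) :=
    fun j t => Finset.measurable_fun_prod _ fun i _ => (hGm _ _).comp (measurable_const.add (measurable_pi_apply i))
  have hm2 : ∀ j : Fin (n + 1), Measurable (fun t : ℝ => G j 0 (t + α₀)) :=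
    fun j => (hGm _ _).comp (measurable_id.add_const _)
  have hpt : ∀ α ∈ Set.Icc β (fun j => β j + H), ∀ t ∈ Set.Icc (0 : ℝ) U,
      ‖(((∏ j, ‖riemannZeta (1 / 2 +
          ((t + (Fin.cons α₀ α : Fin (n + 1) → ℝ) j : ℝ) : ℂ) * I)‖ ^ 2 : ℝ) : ℂ) -
        ∏ j, Fd (t + (Fin.cons α₀ α : Fin (n + 1) → ℝ) j))‖ₑ ≤
      ∑ j, G j 0 (t + α₀) * ∏ i : Fin n, G j i.succ (t + α i) := by
    intro α hα t ht
    have hx : ∀ j, 1 ≤ t + (Fin.cons α₀ α : Fin (n + 1) → ℝ) j ∧ U ≤ t + (Fin.cons α₀ α : Fin (n + 1) → ℝ) j := by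
      intro j
      have : U ≤ t + (Fin.cons α₀ α : Fin (n + 1) → ℝ) j := by
        refine Fin.cases ?_ (fun i => ?_) j
        · simp only [Fin.cons_zero]
          linarith [ht.1]
        · simp only [Fin.cons_succ]
          linarith [ht.1, hα.1 i, hβ i]
      exact ⟨hU.trans this, this⟩
    have hb := e1_prod_diff (n + 1)
      (fun j => ((‖riemannZeta (1 / 2 + ((t + (Fin.cons α₀ α : Fin (n + 1) → ℝ) j : ℝ) : ℂ) * I)‖ ^ 2 : ℝ) : ℂ))
      (fun j => Fd (t + (Fin.cons α₀ α : Fin (n + 1) → ℝ) j))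
      (fun j => ‖riemannZeta (1 / 2 + ((t + (Fin.cons α₀ α : Fin (n + 1) → ℝ) j : ℝ) : ℂ) * I)‖ ^ 2) hη0
      (fun j => by rw [Complex.norm_real, Real.norm_of_nonneg (by positivity)])
      (fun j => by
        refine (hafe _ (hx j).1).trans ?_
        refine mul_le_mul_of_nonneg_left ?_ hC1.le
        exact Real.rpow_le_rpow_of_nonpos hU0 (hx j).2 (by linarith))
    rw [← ofReal_norm]
    rw [Complex.ofReal_prod]
    refine (ENNReal.ofReal_le_ofReal hb).trans ?_
    rw [ENNReal.ofReal_sum_of_nonneg]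
    swap
    · intro j _
      refine Finset.prod_nonneg fun i _ => ?_
      split_ifs <;> positivity
    refine le_of_eq (Finset.sum_congr rfl fun j _ => ?_)
    rw [ENNReal.ofReal_prod_of_nonneg]
    swap
    · intro i _
      split_ifs <;> positivity
    rw [Fin.prod_univ_succ]
    congr 1
    · simp only [hG, hg, Fin.cons_zero]
      split_ifs <;> rfl
    · refine Finset.prod_congr rfl fun i _ => ?_
      simp only [hG, hg, Fin.cons_succ]
      split_ifs <;> rfl
  refine ⟨fun α => ∫⁻ t in Set.Icc 0 U, ∑ j, G j 0 (t + α₀) * ∏ i : Fin n, G j i.succ (t + α i), ?_, ?_, ?_⟩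
  · refine Measurable.lintegral_prod_right' (f := fun p : (Fin n → ℝ) × ℝ =>
      ∑ j, G j 0 (p.2 + α₀) * ∏ i : Fin n, G j i.succ (p.2 + p.1 i)) ?_
    refine Finset.measurable_fun_sum _ fun j _ => ?_
    refine Measurable.mul ?_ (Finset.measurable_fun_prod _ fun i _ => ?_)
    · exact (hGm _ _).comp (measurable_snd.add_const _)
    · exact (hGm _ _).comp (measurable_snd.add ((measurable_pi_apply i).comp measurable_fst))
  · intro α hα V hV
    rw [intervalIntegral.integral_of_le hV.1, ← integral_Icc_eq_integral_Ioc]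
    refine (enorm_integral_le_lintegral_enorm _).trans ?_
    refine (setLIntegral_mono' measurableSet_Icc fun t ht => hpt α hα t ⟨ht.1, ht.2.trans hV.2⟩).trans ?_
    exact lintegral_mono_set (Set.Icc_subset_Icc_right hV.2)
  calc ∫⁻ α in Set.Icc β (fun j => β j + H), ∫⁻ t in Set.Icc 0 U,
          ∑ j, G j 0 (t + α₀) * ∏ i : Fin n, G j i.succ (t + α i)
      = ∫⁻ t in Set.Icc 0 U, ∫⁻ α in Set.Icc β (fun j => β j + H), 
          ∑ j, G j 0 (t + α₀) * ∏ i : Fin n, G j i.succ (t + α i) := by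
        refine lintegral_lintegral_swap ?_
        refine Measurable.aemeasurable ?_
        refine Finset.measurable_sum _ fun j _ => ?_
        refine Measurable.mul ?_ (Finset.measurable_prod _ fun i _ => ?_)
        · exact (hGm _ _).comp (measurable_snd.add_const _)
        · exact (hGm _ _).comp (measurable_snd.add ((measurable_pi_apply i).comp measurable_fst))
    _ ≤ ∫⁻ t in Set.Icc 0 U, ∑ j, G j 0 (t + α₀) * ∏ i : Fin n, ENNReal.ofReal (M j i.succ * H) := by
        refine setLIntegral_mono' measurableSet_Icc fun t ht => ?_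
        rw [hvol, lintegral_finsetSum _ (fun j _ => (hm1 j t).const_mul _)]
        refine Finset.sum_le_sum fun j _ => ?_
        rw [lintegral_const_mul _ (hm1 j t)]
        refine mul_le_mul' le_rfl ?_
        rw [e1_lint_prod n _ (fun i x => G j i.succ (t + x)) (fun i => (hGm _ _).comp (measurable_const.add measurable_id))]
        refine Finset.prod_le_prod' fun i _ => ?_
        refine hone j i.succ t _ _ H (by linarith) (by linarith) hUH ?_ ?_
        · linarith [ht.1, hβ i]
        · linarith [ht.2, hβ' i]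
    _ ≤ ∑ j : Fin (n + 1), ENNReal.ofReal (M j 0 * U) * ∏ i : Fin n, ENNReal.ofReal (M j i.succ * H) := by
        rw [lintegral_finsetSum _ (fun j _ => (hm2 j).mul_const _)]
        refine Finset.sum_le_sum fun j _ => ?_
        rw [lintegral_mul_const _ (hm2 j)]
        refine mul_le_mul' ?_ le_rfl
        have h5 := hone j 0 α₀ 0 U U hU0.le (by linarith) hUU (by linarith) (by linarith)
        simpa only [add_comm] using h5
    _ = ∑ j : Fin (n + 1), ENNReal.ofReal (η * (D * U ^ ε') ^ n * (U * H ^ n)) := by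
        refine Finset.sum_congr rfl fun j _ => ?_
        rw [← ENNReal.ofReal_prod_of_nonneg (fun i _ => mul_nonneg (hM0 _ _) hH0),
          ← ENNReal.ofReal_mul (mul_nonneg (hM0 _ _) hU0.le)]
        congr 1
        rw [Finset.prod_mul_distrib, ← e1_prod_ite n j η (D * U ^ ε'), Fin.prod_univ_succ]
        simp only [Finset.prod_const, Finset.card_univ, Fintype.card_fin, hM]
        ring
    _ = ENNReal.ofReal ((n + 1) * (η * (D * U ^ ε') ^ n * (U * H ^ n))) := by
        rw [Finset.sum_const, Finset.card_univ, Fintype.card_fin, nsmul_eq_mul,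
          ENNReal.ofReal_mul hn.le]
        congr 1
        rw [ENNReal.ofReal_add (by positivity) zero_le_one]
        simp
    _ ≤ _ := by
        refine ENNReal.ofReal_le_ofReal ?_
        have e1 : U ^ (-(1 / 2) + ε') * (U ^ ε') ^ n * U = U ^ (1 / 2 + (n + 1) * ε') := by
          rw [← Real.rpow_natCast, ← Real.rpow_mul hU0.le, ← Real.rpow_add hU0]
          nth_rewrite 2 [← Real.rpow_one U]
          rw [← Real.rpow_add hU0]
          congr 1
          ring
        have e2 : U ^ (1 / 2 + (n + 1) * ε') ≤ U ^ (1 / 2 + ε) :=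
          Real.rpow_le_rpow_of_exponent_le hU (by linarith)
        have e3 : (n + 1) * (η * (D * U ^ ε') ^ n * (U * H ^ n)) =
            ((n + 1) * C1 * D ^ n) * (U ^ (-(1 / 2) + ε') * (U ^ ε') ^ n * U) * H ^ n := by
          rw [hη, mul_pow]
          ring
        rw [e3, e1, mul_one]
        have hC : 0 ≤ (n + 1) * C1 * D ^ n := by positivity
        exact mul_le_mul_of_nonneg_right (mul_le_mul_of_nonneg_left e2 hC) (by positivity)

end Pool.Agent.P07318s
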