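import Pool.Agent.Lib.P07318s.Defs
import Pool.Agent.Lib.P07318s.BoxMS

/-!
As `box_ms` (see the proof in BoxMS.lean, lemmas `BoxMSAux.one_dim`, `BoxMSAux.box_osc`), with one more integration over
`v ∈ [0, U]`: the integral of `cexp(-i(v m + ∑ α_j d_j))` over `[0,U] × box` has norm `≤ bb U m ∏ bb H (d_j)`.
Either repeat the proof on the product measure `(volume.restrict (Icc 0 U)).prod (volume.restrict (Icc β (β+H)))`, or deduce
it by integrating the expanded double series.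
-/

set_option autoImplicit false

namespace Pool.Agent.P07318s

open MeasureTheory Complex

namespace BoxMSVAux

open BoxMSAux

/-- the expanded square, for an arbitrary finite measure -/
theorem ms_gen {ι : Type*} [Countable ι] {n : ℕ} (ν : Measure (ℝ × (Fin n → ℝ))) [IsFiniteMeasure ν]
    (Z : ι → ℂ) (hZ : Summable fun i => ‖Z i‖)
    (φ : ι → ℝ × (Fin n → ℝ) → ℝ) (hφ : ∀ i, Continuous (φ i)) :
    ∫⁻ x, ‖∑' i, Z i * cexp (((-(φ i x) : ℝ) : ℂ) * I)‖ₑ ^ 2 ∂ν ≤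
      ∑' x : ι × ι, ‖Z x.1‖ₑ * ‖Z x.2‖ₑ *
        ‖∫ y, cexp (((-(φ x.1 y - φ x.2 y) : ℝ) : ℂ) * I) ∂ν‖ₑ := by
  set f : (ℝ × (Fin n → ℝ)) → ℂ := fun α => ∑' i, Z i * cexp (((-(φ i α) : ℝ) : ℂ) * I) with hf
  set F : ι × ι → (ℝ × (Fin n → ℝ)) → ℂ := fun x α => (Z x.1 * (starRingEnd ℂ) (Z x.2)) *
    cexp (((-(φ x.1 α - φ x.2 α) : ℝ) : ℂ) * I) with hF
  have hnorm : ∀ (i : ι) (α : ℝ × (Fin n → ℝ)), ‖Z i * cexp (((-(φ i α) : ℝ) : ℂ) * I)‖ = ‖Z i‖ := by
    intro i α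
    rw [norm_mul, Complex.norm_exp_ofReal_mul_I, mul_one]
  have hFnorm : ∀ (x : ι × ι) (α : ℝ × (Fin n → ℝ)), ‖F x α‖ = ‖Z x.1‖ * ‖Z x.2‖ := by
    intro x α
    simp only [hF]
    rw [norm_mul, Complex.norm_exp_ofReal_mul_I, mul_one, norm_mul, RCLike.norm_conj]
  have hprod : Summable (fun x : ι × ι => ‖Z x.1‖ * ‖Z x.2‖) :=
    hZ.mul_of_nonneg hZ (fun _ => norm_nonneg _) (fun _ => norm_nonneg _)
  have hcexp : ∀ g : ℝ × (Fin n → ℝ) → ℝ, Continuous g →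
      Continuous fun α => cexp (((-(g α) : ℝ) : ℂ) * I) := fun g hg =>
    Complex.continuous_exp.comp ((Complex.continuous_ofReal.comp hg.neg).mul continuous_const)
  have hfcont : Continuous f := by
    refine continuous_tsum (u := fun i => ‖Z i‖) (fun i => ?_) hZ (fun i α => (hnorm i α).le)
    exact continuous_const.mul (hcexp _ (hφ i))
  have hs : ∀ α, HasSum (fun i => Z i * cexp (((-(φ i α) : ℝ) : ℂ) * I)) (f α) := by
    intro α
    exact (Summable.of_norm (by simpa only [hnorm] using hZ)).hasSum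
  have hpt : ∀ α, HasSum (fun x => F x α) (((‖f α‖ ^ 2 : ℝ)) : ℂ) := by
    intro α
    have h1 := hs α
    have h2 := h1.star
    have h3 : Summable (fun x : ι × ι => (Z x.1 * cexp (((-(φ x.1 α) : ℝ) : ℂ) * I)) *
        star (Z x.2 * cexp (((-(φ x.2 α) : ℝ) : ℂ) * I))) := by
      refine Summable.of_norm_bounded hprod fun x => ?_
      rw [norm_mul, norm_star, hnorm, hnorm]
    have h4 := h1.mul h2 h3
    have e1 : f α * star (f α) = (((‖f α‖ ^ 2 : ℝ)) : ℂ) := by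
      have := Complex.mul_conj (f α)
      rw [Complex.normSq_eq_norm_sq] at this
      exact this
    rw [e1] at h4
    have e2 : (fun x : ι × ι => (Z x.1 * cexp (((-(φ x.1 α) : ℝ) : ℂ) * I)) *
        star (Z x.2 * cexp (((-(φ x.2 α) : ℝ) : ℂ) * I))) = fun x => F x α := by
      funext x
      simp only [hF]
      have e3 : star (Z x.2 * cexp (((-(φ x.2 α) : ℝ) : ℂ) * I)) =
          (starRingEnd ℂ) (Z x.2) * cexp (((φ x.2 α : ℝ) : ℂ) * I) := by
        change (starRingEnd ℂ) _ = _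
        rw [map_mul, ← Complex.exp_conj, map_mul, Complex.conj_ofReal, Complex.conj_I]
        congr 2
        push_cast
        ring
      rw [e3]
      have e4 : cexp (((-(φ x.1 α - φ x.2 α) : ℝ) : ℂ) * I) =
          cexp (((-(φ x.1 α) : ℝ) : ℂ) * I) * cexp (((φ x.2 α : ℝ) : ℂ) * I) := by
        rw [← Complex.exp_add, ← add_mul]
        congr 2
        push_cast
        ring
      rw [e4]
      ring
    rw [e2] at h4
    exact h4
  have hFint : ∀ x, Integrable (F x) ν := by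
    intro x
    have hc : Continuous (F x) := by
      simp only [hF]
      exact continuous_const.mul (hcexp _ ((hφ x.1).sub (hφ x.2)))
    refine Integrable.of_bound hc.aestronglyMeasurable (‖Z x.1‖ * ‖Z x.2‖) ?_
    exact Filter.Eventually.of_forall fun α => (hFnorm x α).le
  have hFsum : Summable (fun x => ∫ α, ‖F x α‖ ∂ν) := by
    simp only [hFnorm, integral_const]
    exact hprod.mul_left _
  have hint := hasSum_integral_of_summable_integral_norm hFint hFsum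
  have e5 : (∫ α, (∑' x, F x α) ∂ν) = (((∫ α, ‖f α‖ ^ 2 ∂ν) : ℝ) : ℂ) := by
    have e8 : (∫ α, ((‖f α‖ ^ 2 : ℝ) : ℂ) ∂ν) = (((∫ α, ‖f α‖ ^ 2 ∂ν) : ℝ) : ℂ) := integral_ofReal
    rw [← e8]
    refine integral_congr_ae (Filter.Eventually.of_forall fun α => ?_)
    exact (hpt α).tsum_eq
  rw [e5] at hint
  have hnn : 0 ≤ ∫ α, ‖f α‖ ^ 2 ∂ν := integral_nonneg fun α => by positivity
  have hfint : Integrable (fun α => ‖f α‖ ^ 2) ν := by
    refine Integrable.of_bound (by fun_prop) ((∑' i, ‖Z i‖) ^ 2) ?_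
    refine Filter.Eventually.of_forall fun α => ?_
    rw [Real.norm_of_nonneg (by positivity)]
    refine pow_le_pow_left₀ (norm_nonneg _) ?_ 2
    refine (norm_tsum_le_tsum_norm (by simpa only [hnorm] using hZ)).trans (le_of_eq ?_)
    exact tsum_congr fun i => hnorm i α
  calc ∫⁻ α, ‖f α‖ₑ ^ 2 ∂ν
      = ∫⁻ α, ENNReal.ofReal (‖f α‖ ^ 2) ∂ν := by
        refine lintegral_congr fun α => ?_
        rw [ENNReal.ofReal_pow (norm_nonneg _), ofReal_norm]
    _ = ENNReal.ofReal (∫ α, ‖f α‖ ^ 2 ∂ν) :=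
        (ofReal_integral_eq_lintegral_ofReal hfint (Filter.Eventually.of_forall fun α => by positivity)).symm
    _ = ‖∑' x, ∫ α, F x α ∂ν‖ₑ := by
        rw [hint.tsum_eq, enorm_ofReal_nonneg hnn]
    _ ≤ ∑' x, ‖∫ α, F x α ∂ν‖ₑ := enorm_tsum_le_tsum_enorm
    _ = ∑' x : ι × ι, ‖Z x.1‖ₑ * ‖Z x.2‖ₑ *
        ‖∫ y, cexp (((-(φ x.1 y - φ x.2 y) : ℝ) : ℂ) * I) ∂ν‖ₑ := by
        refine tsum_congr fun x => ?_
        have e6 : ∫ α, F x α ∂ν = (Z x.1 * (starRingEnd ℂ) (Z x.2)) *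
            ∫ α, cexp (((-(φ x.1 α - φ x.2 α) : ℝ) : ℂ) * I) ∂ν := by
          simp only [hF]
          rw [integral_const_mul]
        rw [e6, enorm_mul, enorm_mul]
        have e7 : ‖(starRingEnd ℂ) (Z x.2)‖ₑ = ‖Z x.2‖ₑ := by
          rw [← ofReal_norm, ← ofReal_norm, RCLike.norm_conj]
        rw [e7]

end BoxMSVAux

open BoxMSAux BoxMSVAux

theorem box_ms_v {ι : Type*} [Countable ι] {n : ℕ} (Z : ι → ℂ) (hZ : Summable fun i => ‖Z i‖)
    (ω : ι → Fin n → ℝ) (m : ι → ℝ) (β : Fin n → ℝ) {H U : ℝ} (hH : 0 ≤ H) (hU : 0 ≤ U) :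
    ∫⁻ v in Set.Icc (0:ℝ) U, ∫⁻ α in Set.Icc β (fun j => β j + H),
        ‖∑' i, Z i * cexp (((-(v * m i + ∑ j, α j * ω i j) : ℝ) : ℂ) * I)‖ₑ ^ 2 ≤
      ∑' i, ∑' i', ‖Z i‖ₑ * ‖Z i'‖ₑ * (ENNReal.ofReal (bb U (m i - m i')) *
        ∏ j, ENNReal.ofReal (bb H (ω i j - ω i' j))) := by
  set K : Set (Fin n → ℝ) := Set.Icc β (fun j => β j + H) with hK
  have i1 : IsFiniteMeasure ((volume : Measure (Fin n → ℝ)).restrict K) :=
    ⟨by rw [Measure.restrict_apply_univ]; exact isCompact_Icc.measure_lt_top⟩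
  have i2 : IsFiniteMeasure ((volume : Measure ℝ).restrict (Set.Icc (0:ℝ) U)) :=
    ⟨by rw [Measure.restrict_apply_univ]; exact isCompact_Icc.measure_lt_top⟩
  set φ : ι → ℝ × (Fin n → ℝ) → ℝ := fun i p => p.1 * m i + ∑ j, p.2 j * ω i j with hφ
  have hφc : ∀ i, Continuous (φ i) := fun i => by
    simp only [hφ]
    fun_prop
  have hcont : Continuous fun p : ℝ × (Fin n → ℝ) =>
      ∑' i, Z i * cexp (((-(φ i p) : ℝ) : ℂ) * I) := by
    refine continuous_tsum (u := fun i => ‖Z i‖) (fun i => ?_) hZ (fun i α => ?_)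
    · exact continuous_const.mul (Complex.continuous_exp.comp
        ((Complex.continuous_ofReal.comp (hφc i).neg).mul continuous_const))
    · rw [norm_mul, Complex.norm_exp_ofReal_mul_I, mul_one]
  have hmeas : Measurable fun p : ℝ × (Fin n → ℝ) =>
      ‖∑' i, Z i * cexp (((-(φ i p) : ℝ) : ℂ) * I)‖ₑ ^ 2 :=
    (hcont.enorm.measurable).pow_const 2
  have h1 : ∫⁻ v in Set.Icc (0:ℝ) U, ∫⁻ α in K,
        ‖∑' i, Z i * cexp (((-(v * m i + ∑ j, α j * ω i j) : ℝ) : ℂ) * I)‖ₑ ^ 2 =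
      ∫⁻ p, ‖∑' i, Z i * cexp (((-(φ i p) : ℝ) : ℂ) * I)‖ₑ ^ 2
        ∂((volume.restrict (Set.Icc (0:ℝ) U)).prod (volume.restrict K)) :=
    (lintegral_prod _ hmeas.aemeasurable).symm
  rw [h1]
  refine (ms_gen _ Z hZ φ hφc).trans ?_
  rw [← ENNReal.tsum_prod' (f := fun x : ι × ι =>
    ‖Z x.1‖ₑ * ‖Z x.2‖ₑ * (ENNReal.ofReal (bb U (m x.1 - m x.2)) *
      ∏ j, ENNReal.ofReal (bb H (ω x.1 j - ω x.2 j))))]
  refine ENNReal.tsum_le_tsum fun x => ?_
  gcongr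
  have e1 : ∀ p : ℝ × (Fin n → ℝ), cexp (((-(φ x.1 p - φ x.2 p) : ℝ) : ℂ) * I) =
      cexp (((-(p.1 * (m x.1 - m x.2)) : ℝ) : ℂ) * I) *
        cexp (((-(∑ j, p.2 j * (ω x.1 j - ω x.2 j)) : ℝ) : ℂ) * I) := by
    intro p
    rw [← Complex.exp_add, ← add_mul]
    congr 2
    have h2 : (∑ j, p.2 j * (ω x.1 j - ω x.2 j)) =
        (∑ j, p.2 j * ω x.1 j) - ∑ j, p.2 j * ω x.2 j := by
      rw [← Finset.sum_sub_distrib]
      exact Finset.sum_congr rfl fun j _ => by ring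
    rw [h2]
    simp only [hφ]
    push_cast
    ring
  simp_rw [e1]
  rw [integral_prod_mul (fun v : ℝ => cexp (((-(v * (m x.1 - m x.2)) : ℝ) : ℂ) * I))
    (fun α : Fin n → ℝ => cexp (((-(∑ j, α j * (ω x.1 j - ω x.2 j)) : ℝ) : ℂ) * I)), enorm_mul]
  gcongr
  · rw [← ofReal_norm]
    refine ENNReal.ofReal_le_ofReal ?_
    have h3 := one_dim 0 hU (m x.1 - m x.2)
    rwa [zero_add] at h3
  · rw [← ENNReal.ofReal_prod_of_nonneg (fun j _ => bb_nonneg hH _), ← ofReal_norm]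
    exact ENNReal.ofReal_le_ofReal (box_osc β hH (fun j => ω x.1 j - ω x.2 j))

end Pool.Agent.P07318s
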