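import Pool.Agent.Lib.P07318s.Defs
import Pool.Agent.Lib.P07318s.PiSum
import Pool.Agent.Lib.P07318s.Spaced
import Pool.Agent.Lib.P07318s.Outer
import Pool.Agent.Lib.P07318s.Count

/-!
Variants of `count` (same proof, see Count.lean: `term_le`, `inner`, `outer`).

`count_v`: `∏ h_j^(-1/2) h'_j^(-1/2) ≤ (∏ 1/h_j + ∏ 1/h'_j)/2` and symmetry; inner sum over `q'`: `bb L (lam q') ≤ 4 L` (`bb_le`),
then over `q'_0` the kernel `bb U (lam q - lam q')` (`spaced_sum` with `V := U`, `μ = ∑_{j ≥ 1} lgr q'_j - lam q`, `bb_neg`), then over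
`q'_j`, `j ≥ 1`, with `bb H`: inner `≤ 4 L (C U^(1+2δ))^(n+1)`. Outer: `∑ ∏ kap(h_j)/h_j bb L (lam q) 1[lam q ≠ 0] ≤ C U^((n+1)δ)` as in
`outer` (`bb_le_inv`).
`count_v0`: no `bb L` kernels: inner `≤ (C U^(1+2δ))^(n+1)`, outer `∑_q ∏ U^δ h_j^(-1-δ) = (U^δ ∑_q h^(-1-δ))^(n+1)`, a convergent sum.
-/

set_option autoImplicit false

namespace Pool.Agent.P07318s

open MeasureTheory Complex

namespace CountVAux

open CountAux

/-- the second factor -/
noncomputable def gB (n : ℕ) (δ U H : ℝ) (q q' : Fin (n + 1) → Q) : ℝ :=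
  (∏ j, kap δ U (hgt (q' j).1)) * bb U (lam (fun j => (q j).1) - lam (fun j => (q' j).1)) *
    ∏ j : Fin n, bb H (lgr (q j.succ).1 - lgr (q' j.succ).1)

theorem gB_nonneg {n : ℕ} {δ U H : ℝ} (hU : 0 ≤ U) (hH : 0 ≤ H)
    (q q' : Fin (n + 1) → Q) : 0 ≤ gB n δ U H q q' :=
  mul_nonneg (mul_nonneg (Finset.prod_nonneg fun _ _ => kap_nonneg hU (hgt_pos _).le)
    (bb_nonneg hU _)) (Finset.prod_nonneg fun _ _ => bb_nonneg hH _)

/-- the first factor without kernel -/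
noncomputable def fA0 (n : ℕ) (δ U : ℝ) (q : Fin (n + 1) → Q) : ℝ :=
  ∏ j, (kap δ U (hgt (q j).1) * (hgt (q j).1)⁻¹)

theorem fA0_nonneg {n : ℕ} {δ U : ℝ} (hU : 0 ≤ U) (q : Fin (n + 1) → Q) :
    0 ≤ fA0 n δ U q :=
  Finset.prod_nonneg fun _ _ => mul_nonneg (kap_nonneg hU (hgt_pos _).le)
      (inv_nonneg.2 (hgt_pos _).le)

theorem basic {n : ℕ} {δ U H : ℝ} (hU : 0 ≤ U) (hH : 0 ≤ H)
    (q q' : Fin (n + 1) → Q) :
    (∏ j, ww δ U (q j)) * (∏ j, ww δ U (q' j)) *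
          bb U (lam (fun j => (q j).1) - lam (fun j => (q' j).1)) *
          ∏ j : Fin n, bb H (lgr (q j.succ).1 - lgr (q' j.succ).1) ≤
      fA0 n δ U q * gB n δ U H q q' + fA0 n δ U q' * gB n δ U H q' q := by
  unfold fA0 gB
  rw [prod_ww, prod_ww]
  have hP : ∏ j : Fin n, bb H (lgr (q' j.succ).1 - lgr (q j.succ).1) =
      ∏ j : Fin n, bb H (lgr (q j.succ).1 - lgr (q' j.succ).1) :=
    Finset.prod_congr rfl fun j _ => by rw [← bb_neg, neg_sub]
  have hb : bb U (lam (fun j => (q' j).1) - lam (fun j => (q j).1)) =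
      bb U (lam (fun j => (q j).1) - lam (fun j => (q' j).1)) := by rw [← bb_neg, neg_sub]
  rw [hP, hb, Finset.prod_mul_distrib, Finset.prod_mul_distrib, ← sq_prod, ← sq_prod]
  set k₁ := ∏ j, kap δ U (hgt (q j).1)
  set k₂ := ∏ j, kap δ U (hgt (q' j).1)
  set x := ∏ j, (hgt (q j).1) ^ (-(1 / 2) : ℝ)
  set y := ∏ j, (hgt (q' j).1) ^ (-(1 / 2) : ℝ)
  set b := bb U (lam (fun j => (q j).1) - lam (fun j => (q' j).1))
  set P := ∏ j : Fin n, bb H (lgr (q j.succ).1 - lgr (q' j.succ).1)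
  have hk₁ : 0 ≤ k₁ := Finset.prod_nonneg fun j _ => kap_nonneg hU (hgt_pos _).le
  have hk₂ : 0 ≤ k₂ := Finset.prod_nonneg fun j _ => kap_nonneg hU (hgt_pos _).le
  have hb₁ : 0 ≤ b := bb_nonneg hU _
  have hPn : 0 ≤ P := Finset.prod_nonneg fun j _ => bb_nonneg hH _
  have hxy : x * y ≤ x ^ 2 + y ^ 2 := by nlinarith [sq_nonneg (x - y), sq_nonneg (x + y)]
  have hc : 0 ≤ k₁ * k₂ * b * P := by positivity
  calc k₁ * x * (k₂ * y) * b * P = (k₁ * k₂ * b * P) * (x * y) := by ring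
    _ ≤ (k₁ * k₂ * b * P) * (x ^ 2 + y ^ 2) := mul_le_mul_of_nonneg_left hxy hc
    _ = _ := by ring

theorem inner {n : ℕ} {δ U H C : ℝ} (hU : 0 ≤ U) (hH : 0 ≤ H) (hC : 0 ≤ C)
    (h1 : ∀ μ : ℝ, ∑' q : Q, ENNReal.ofReal (kap δ U (hgt q.1) * bb U (lgr q.1 + μ)) ≤
      ENNReal.ofReal C)
    (h2 : ∀ μ : ℝ, ∑' q : Q, ENNReal.ofReal (kap δ U (hgt q.1) * bb H (lgr q.1 + μ)) ≤
      ENNReal.ofReal C) (q : Fin (n + 1) → Q) :
    ∑' q' : Fin (n + 1) → Q, ENNReal.ofReal (gB n δ U H q q') ≤ ENNReal.ofReal (C ^ (n + 1)) := by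
  have e : ∀ p : Q × (Fin n → Q), ENNReal.ofReal (gB n δ U H q
      (Fin.consEquiv (fun _ : Fin (n + 1) => Q) p)) =
      ENNReal.ofReal (kap δ U (hgt p.1.1) * bb U (lgr p.1.1 + (∑ j, lgr (p.2 j).1 -
        lam (fun j => (q j).1)))) *
        ∏ j : Fin n, ENNReal.ofReal (kap δ U (hgt (p.2 j).1) *
          bb H (lgr (p.2 j).1 + -lgr (q j.succ).1)) := by
    intro p
    rw [← ENNReal.ofReal_prod_of_nonneg (fun j _ => mul_nonneg (kap_nonneg hU (hgt_pos _).le)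
      (bb_nonneg hH _)), ← ENNReal.ofReal_mul (mul_nonneg (kap_nonneg hU (hgt_pos _).le)
      (bb_nonneg hU _))]
    congr 1
    unfold gB
    have e0 : (Fin.consEquiv (fun _ : Fin (n + 1) => Q) p) 0 = p.1 := rfl
    have e1 : ∀ j : Fin n, (Fin.consEquiv (fun _ : Fin (n + 1) => Q) p) j.succ = p.2 j :=
      fun j => rfl
    have e2 : bb U (lam (fun j => (q j).1) -
        lam (fun j => ((Fin.consEquiv (fun _ : Fin (n + 1) => Q) p) j).1)) =
        bb U (lgr p.1.1 + (∑ j, lgr (p.2 j).1 - lam (fun j => (q j).1))) := by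
      rw [← bb_neg]
      congr 1
      have : lam (fun j => ((Fin.consEquiv (fun _ : Fin (n + 1) => Q) p) j).1) =
          lgr p.1.1 + ∑ j, lgr (p.2 j).1 := by
        unfold lam
        rw [Fin.sum_univ_succ]
        simp only [e0, e1]
      rw [this]
      ring
    rw [e2, Fin.prod_univ_succ]
    simp only [e0, e1]
    rw [Finset.prod_mul_distrib]
    have hP : ∏ j : Fin n, bb H (lgr (p.2 j).1 + -lgr (q j.succ).1) =
        ∏ j : Fin n, bb H (lgr (q j.succ).1 - lgr (p.2 j).1) :=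
      Finset.prod_congr rfl fun j _ => by rw [← bb_neg]; congr 1; ring
    rw [hP]
    ring
  rw [← (Fin.consEquiv (fun _ : Fin (n + 1) => Q)).tsum_eq
    (fun q' => ENNReal.ofReal (gB n δ U H q q'))]
  simp_rw [e]
  rw [ENNReal.tsum_prod', ENNReal.tsum_comm]
  simp only [ENNReal.tsum_mul_right]
  calc ∑' r : Fin n → Q, (∑' a : Q, ENNReal.ofReal (kap δ U (hgt a.1) *
          bb U (lgr a.1 + (∑ j, lgr (r j).1 - lam (fun j => (q j).1))))) *
        ∏ j : Fin n, ENNReal.ofReal (kap δ U (hgt (r j).1) *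
          bb H (lgr (r j).1 + -lgr (q j.succ).1))
      ≤ ∑' r : Fin n → Q, ENNReal.ofReal C *
        ∏ j : Fin n, ENNReal.ofReal (kap δ U (hgt (r j).1) *
          bb H (lgr (r j).1 + -lgr (q j.succ).1)) :=
        ENNReal.tsum_le_tsum fun r => mul_le_mul_left (h1 _) _
    _ = ENNReal.ofReal C * ∏ j : Fin n, ∑' a : Q, ENNReal.ofReal (kap δ U (hgt a.1) *
          bb H (lgr a.1 + -lgr (q j.succ).1)) := by
        rw [ENNReal.tsum_mul_left, ← tsum_pi_prod_ennreal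
          (fun (j : Fin n) (a : Q) => ENNReal.ofReal (kap δ U (hgt a.1) *
          bb H (lgr a.1 + -lgr (q j.succ).1)))]
    _ ≤ ENNReal.ofReal C * ∏ _j : Fin n, ENNReal.ofReal C :=
        mul_le_mul_right (Finset.prod_le_prod' fun j _ => h2 _) _
    _ = ENNReal.ofReal (C ^ (n + 1)) := by
        rw [Finset.prod_const, Finset.card_univ, Fintype.card_fin, ENNReal.ofReal_pow hC,
          pow_succ, mul_comm]

theorem core {n : ℕ} {δ U H K M S : ℝ} (hU : 0 ≤ U) (hH : 0 ≤ H) (hK : 0 ≤ K) (hM : 0 ≤ M)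
    (hS : 0 ≤ S) (A : (Fin (n + 1) → Q) → ℝ) (hA : ∀ q, 0 ≤ A q)
    (t : (Fin (n + 1) → Q) → (Fin (n + 1) → Q) → ℝ)
    (ht : ∀ q q', t q q' ≤ K * (A q * gB n δ U H q q') + K * (A q' * gB n δ U H q' q))
    (hin : ∀ q, ∑' q', ENNReal.ofReal (gB n δ U H q q') ≤ ENNReal.ofReal M)
    (hout : ∑' q, ENNReal.ofReal (A q) ≤ ENNReal.ofReal S) :
    ∑' q, ∑' q', ENNReal.ofReal (t q q') ≤ ENNReal.ofReal (2 * K * S * M) := by
  have hS' : ∑' q : Fin (n + 1) → Q, ∑' q' : Fin (n + 1) → Q,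
      ENNReal.ofReal K * (ENNReal.ofReal (A q) * ENNReal.ofReal (gB n δ U H q q')) ≤
      ENNReal.ofReal K * (ENNReal.ofReal S * ENNReal.ofReal M) := by
    simp only [ENNReal.tsum_mul_left]
    refine mul_le_mul_right ?_ _
    calc ∑' q : Fin (n + 1) → Q, ENNReal.ofReal (A q) *
          ∑' q' : Fin (n + 1) → Q, ENNReal.ofReal (gB n δ U H q q')
        ≤ ∑' q : Fin (n + 1) → Q, ENNReal.ofReal (A q) * ENNReal.ofReal M :=
          ENNReal.tsum_le_tsum fun q => mul_le_mul_right (hin q) _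
      _ = (∑' q : Fin (n + 1) → Q, ENNReal.ofReal (A q)) * ENNReal.ofReal M :=
          ENNReal.tsum_mul_right
      _ ≤ _ := mul_le_mul_left hout _
  have hterm : ∀ q q' : Fin (n + 1) → Q, ENNReal.ofReal (t q q') ≤
      ENNReal.ofReal K * (ENNReal.ofReal (A q) * ENNReal.ofReal (gB n δ U H q q')) +
      ENNReal.ofReal K * (ENNReal.ofReal (A q') * ENNReal.ofReal (gB n δ U H q' q)) := by
    intro q q'
    rw [← ENNReal.ofReal_mul (hA q), ← ENNReal.ofReal_mul (hA q'), ← ENNReal.ofReal_mul hK,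
      ← ENNReal.ofReal_mul hK, ← ENNReal.ofReal_add
      (mul_nonneg hK (mul_nonneg (hA q) (gB_nonneg hU hH q q')))
      (mul_nonneg hK (mul_nonneg (hA q') (gB_nonneg hU hH q' q)))]
    exact ENNReal.ofReal_le_ofReal (ht q q')
  refine (ENNReal.tsum_le_tsum fun q => ENNReal.tsum_le_tsum fun q' => hterm q q').trans ?_
  simp only [ENNReal.tsum_add]
  have hcomm : ∑' q : Fin (n + 1) → Q, ∑' q' : Fin (n + 1) → Q,
      ENNReal.ofReal K * (ENNReal.ofReal (A q') * ENNReal.ofReal (gB n δ U H q' q)) =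
      ∑' q : Fin (n + 1) → Q, ∑' q' : Fin (n + 1) → Q,
      ENNReal.ofReal K * (ENNReal.ofReal (A q) * ENNReal.ofReal (gB n δ U H q q')) :=
    ENNReal.tsum_comm
  rw [hcomm]
  refine (add_le_add hS' hS').trans ?_
  rw [← ENNReal.ofReal_mul hS, ← ENNReal.ofReal_mul hK,
    ← ENNReal.ofReal_add (by positivity) (by positivity)]
  apply ENNReal.ofReal_le_ofReal
  apply le_of_eq
  ring

theorem kh_le {n : ℕ} {δ U : ℝ} (hδ2 : δ ≤ 1 / 2) (hU : 1 ≤ U) (q : Fin (n + 1) → Q) :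
    fA0 n δ U q ≤ ∏ j, (U ^ δ * (hgt (q j).1) ^ (-1 - δ)) := by
  have hU0 : 0 < U := by linarith
  refine Finset.prod_le_prod (fun j _ => mul_nonneg (kap_nonneg hU0.le (hgt_pos _).le)
                (inv_nonneg.2 (hgt_pos _).le)) fun j _ => ?_
  have hh := hgt_pos (q j).1
  have h5 := kap_le (δ := δ) (by linarith) hU0 hh
  rw [Real.div_rpow hU0.le hh.le] at h5
  have h6 : (hgt (q j).1) ^ (-1 - δ) = (hgt (q j).1)⁻¹ / (hgt (q j).1) ^ δ := by
    rw [Real.rpow_sub hh, Real.rpow_neg_one]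
  rw [h6]
  calc kap δ U (hgt (q j).1) * (hgt (q j).1)⁻¹
      ≤ U ^ δ / (hgt (q j).1) ^ δ * (hgt (q j).1)⁻¹ :=
        mul_le_mul_of_nonneg_right h5 (inv_nonneg.2 hh.le)
    _ = _ := by ring

theorem tsum_hgt {δ : ℝ} (hδ : 0 < δ) : ∃ C : ℝ, 0 < C ∧
    ∑' q : Q, ENNReal.ofReal ((hgt q.1) ^ (-1 - δ)) ≤ ENNReal.ofReal C := by
  have h1 : ∑' q : Q, ENNReal.ofReal ((hgt q.1) ^ (-1 - δ)) ≤
      ∑' p : ℕ+ × ℕ+, ENNReal.ofReal ((hgt p) ^ (-1 - δ)) :=
    ENNReal.tsum_comp_le_tsum_of_injective (f := fun q : Q => q.1) (fun a b h => Subtype.ext h)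
      (fun p : ℕ+ × ℕ+ => ENNReal.ofReal ((hgt p) ^ (-1 - δ)))
  have h2 : ∑' p : ℕ+ × ℕ+, ENNReal.ofReal ((hgt p) ^ (-1 - δ)) ≠ ⊤ := by
    have e : ∀ p : ℕ+ × ℕ+, ENNReal.ofReal ((hgt p) ^ (-1 - δ)) =
        ENNReal.ofReal (((p.1 : ℕ) : ℝ) ^ (-1 - δ)) * ENNReal.ofReal (((p.2 : ℕ) : ℝ) ^ (-1 - δ)) := by
      intro p
      unfold hgt
      rw [Real.mul_rpow (by positivity) (by positivity), ENNReal.ofReal_mul (by positivity)]
    simp_rw [e]
    rw [ENNReal.tsum_prod']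
    simp only [ENNReal.tsum_mul_left, ENNReal.tsum_mul_right]
    have h3 : ∑' a : ℕ+, ENNReal.ofReal (((a : ℕ) : ℝ) ^ (-1 - δ)) ≠ ⊤ := tsum_zeta_ne_top hδ
    exact ENNReal.mul_ne_top h3 h3
  set S := ∑' p : ℕ+ × ℕ+, ENNReal.ofReal ((hgt p) ^ (-1 - δ)) with hS
  exact ⟨S.toReal + 1, by positivity, h1.trans
    ((ENNReal.ofReal_toReal h2).symm.le.trans (ENNReal.ofReal_le_ofReal (by linarith)))⟩

end CountVAux

open CountVAux in
theorem count_v (n : ℕ) (δ : ℝ) (hδ : 0 < δ) (hδ2 : δ ≤ 1 / 2) : ∃ C : ℝ, 0 < C ∧ ∀ U L H : ℝ, 1 ≤ U →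
    0 ≤ L → L ≤ U → 0 ≤ H → H ≤ U →
    ∑' q : Fin (n + 1) → Q, ∑' q' : Fin (n + 1) → Q,
      ENNReal.ofReal (if lam (fun j => (q j).1) = 0 ∨ lam (fun j => (q' j).1) = 0 then 0 else
        (∏ j, ww δ U (q j)) * (∏ j, ww δ U (q' j)) * bb L (lam fun j => (q j).1) *
          bb L (lam fun j => (q' j).1) * bb U (lam (fun j => (q j).1) - lam (fun j => (q' j).1)) *
          ∏ j : Fin n, bb H (lgr (q j.succ).1 - lgr (q' j.succ).1)) ≤
      ENNReal.ofReal (C * L * U ^ (((n : ℝ) + 1) * (1 + 3 * δ))) := by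
  obtain ⟨C1, hC1, h1⟩ := spaced_sum δ hδ hδ2
  obtain ⟨C2, hC2, h2⟩ := outer_sum (n + 1) δ hδ
  refine ⟨32 * C2 * C1 ^ (n + 1), by positivity, ?_⟩
  intro U L H hU hL hLU hH hHU
  have hU0 : 0 < U := by linarith
  set M : ℝ := C1 * U ^ (1 + 2 * δ) with hM
  have hM0 : 0 ≤ M := by positivity
  have hin := fun q => inner (n := n) hU0.le hH hM0 (fun μ => h1 U U μ hU hU0.le le_rfl)
    (fun μ => h1 U H μ hU hH hHU) q
  have hout := CountAux.outer hδ hδ2 hU hL h2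
  rw [← ENNReal.ofReal_mul (by positivity)] at hout
  refine (core (K := 4 * L) hU0.le hH (by positivity) (by positivity) (by positivity)
    (fun q => CountAux.fA n δ U L q) (fun q => CountAux.fA_nonneg hU0.le hL q) _ ?_ hin hout).trans ?_
  · intro q q'
    have n1 := CountAux.fA_nonneg (δ := δ) hU0.le hL q
    have n2 := CountAux.fA_nonneg (δ := δ) hU0.le hL q'
    have n3 := gB_nonneg (δ := δ) hU0.le hH q q'
    have n4 := gB_nonneg (δ := δ) hU0.le hH q' q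
    split_ifs with h
    · positivity
    · push Not at h
      have hb := basic (δ := δ) hU0.le hH q q'
      have b1 := bb_nonneg hL (lam fun j => (q j).1)
      have b2 := bb_nonneg hL (lam fun j => (q' j).1)
      have b3 := bb_le hL (lam fun j => (q j).1)
      have b4 := bb_le hL (lam fun j => (q' j).1)
      have f1 : CountAux.fA n δ U L q = fA0 n δ U q * bb L (lam fun j => (q j).1) := by
        unfold CountAux.fA fA0
        rw [if_neg h.1]
      have f2 : CountAux.fA n δ U L q' = fA0 n δ U q' * bb L (lam fun j => (q' j).1) := by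
        unfold CountAux.fA fA0
        rw [if_neg h.2]
      rw [f1, f2]
      have m1 := fA0_nonneg (δ := δ) hU0.le q
      have m2 := fA0_nonneg (δ := δ) hU0.le q'
      calc (∏ j, ww δ U (q j)) * (∏ j, ww δ U (q' j)) * bb L (lam fun j => (q j).1) *
          bb L (lam fun j => (q' j).1) * bb U (lam (fun j => (q j).1) - lam (fun j => (q' j).1)) *
          ∏ j : Fin n, bb H (lgr (q j.succ).1 - lgr (q' j.succ).1)
          = ((∏ j, ww δ U (q j)) * (∏ j, ww δ U (q' j)) *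
              bb U (lam (fun j => (q j).1) - lam (fun j => (q' j).1)) *
              ∏ j : Fin n, bb H (lgr (q j.succ).1 - lgr (q' j.succ).1)) *
            (bb L (lam fun j => (q j).1) * bb L (lam fun j => (q' j).1)) := by ring
        _ ≤ (fA0 n δ U q * gB n δ U H q q' + fA0 n δ U q' * gB n δ U H q' q) *
            (bb L (lam fun j => (q j).1) * bb L (lam fun j => (q' j).1)) :=
            mul_le_mul_of_nonneg_right hb (by positivity)
        _ = (fA0 n δ U q * gB n δ U H q q' * bb L (lam fun j => (q j).1)) *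
              bb L (lam fun j => (q' j).1) +
            (fA0 n δ U q' * gB n δ U H q' q * bb L (lam fun j => (q' j).1)) *
              bb L (lam fun j => (q j).1) := by ring
        _ ≤ (fA0 n δ U q * gB n δ U H q q' * bb L (lam fun j => (q j).1)) * (4 * L) +
            (fA0 n δ U q' * gB n δ U H q' q * bb L (lam fun j => (q' j).1)) * (4 * L) :=
            add_le_add (mul_le_mul_of_nonneg_left b4 (by positivity))
              (mul_le_mul_of_nonneg_left b3 (by positivity))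
        _ = _ := by ring
  · apply ENNReal.ofReal_le_ofReal
    apply le_of_eq
    have e1 : (U ^ δ) ^ (n + 1) * (U ^ (1 + 2 * δ)) ^ (n + 1) =
        U ^ (((n : ℝ) + 1) * (1 + 3 * δ)) := by
      rw [← mul_pow, ← Real.rpow_add hU0, ← Real.rpow_natCast, ← Real.rpow_mul hU0.le]
      congr 1
      push_cast
      ring
    rw [← e1, hM, mul_pow]
    ring

open CountVAux in
theorem count_v0 (n : ℕ) (δ : ℝ) (hδ : 0 < δ) (hδ2 : δ ≤ 1 / 2) : ∃ C : ℝ, 0 < C ∧ ∀ U H : ℝ, 1 ≤ U →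
    0 ≤ H → H ≤ U →
    ∑' q : Fin (n + 1) → Q, ∑' q' : Fin (n + 1) → Q,
      ENNReal.ofReal ((∏ j, ww δ U (q j)) * (∏ j, ww δ U (q' j)) *
          bb U (lam (fun j => (q j).1) - lam (fun j => (q' j).1)) *
          ∏ j : Fin n, bb H (lgr (q j.succ).1 - lgr (q' j.succ).1)) ≤
      ENNReal.ofReal (C * U ^ (((n : ℝ) + 1) * (1 + 3 * δ))) := by
  obtain ⟨C1, hC1, h1⟩ := spaced_sum δ hδ hδ2
  obtain ⟨Z, hZ, h2⟩ := tsum_hgt hδ
  refine ⟨2 * Z ^ (n + 1) * C1 ^ (n + 1), by positivity, ?_⟩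
  intro U H hU hH hHU
  have hU0 : 0 < U := by linarith
  set M : ℝ := C1 * U ^ (1 + 2 * δ) with hM
  have hM0 : 0 ≤ M := by positivity
  have hin := fun q => inner (n := n) hU0.le hH hM0 (fun μ => h1 U U μ hU hU0.le le_rfl)
    (fun μ => h1 U H μ hU hH hHU) q
  have hout : ∑' q, ENNReal.ofReal (fA0 n δ U q) ≤
      ENNReal.ofReal ((U ^ δ * Z) ^ (n + 1)) := by
    calc ∑' q, ENNReal.ofReal (fA0 n δ U q)
        ≤ ∑' q : Fin (n + 1) → Q, ∏ j, ENNReal.ofReal (U ^ δ * (hgt (q j).1) ^ (-1 - δ)) := by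
          refine ENNReal.tsum_le_tsum fun q => ?_
          rw [← ENNReal.ofReal_prod_of_nonneg (fun j _ => mul_nonneg (by positivity)
            (Real.rpow_nonneg (hgt_pos _).le _))]
          exact ENNReal.ofReal_le_ofReal (kh_le hδ2 hU q)
      _ = ∏ _j : Fin (n + 1), ∑' a : Q, ENNReal.ofReal (U ^ δ * (hgt a.1) ^ (-1 - δ)) :=
          tsum_pi_prod_ennreal (fun (_ : Fin (n + 1)) (a : Q) =>
            ENNReal.ofReal (U ^ δ * (hgt a.1) ^ (-1 - δ)))
      _ ≤ ∏ _j : Fin (n + 1), ENNReal.ofReal (U ^ δ * Z) := by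
          refine Finset.prod_le_prod' fun j _ => ?_
          have e : ∀ a : Q, ENNReal.ofReal (U ^ δ * (hgt a.1) ^ (-1 - δ)) =
              ENNReal.ofReal (U ^ δ) * ENNReal.ofReal ((hgt a.1) ^ (-1 - δ)) :=
            fun a => ENNReal.ofReal_mul (by positivity)
          simp_rw [e]
          rw [ENNReal.tsum_mul_left, ENNReal.ofReal_mul (by positivity)]
          exact mul_le_mul_right h2 _
      _ = _ := by
          rw [Finset.prod_const, Finset.card_univ, Fintype.card_fin,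
            ENNReal.ofReal_pow (by positivity)]
  refine (core (K := 1) hU0.le hH zero_le_one (by positivity) (by positivity)
    (fun q => fA0 n δ U q) (fun q => fA0_nonneg hU0.le q) _ ?_ hin hout).trans ?_
  · intro q q'
    rw [one_mul, one_mul]
    exact basic hU0.le hH q q'
  · apply ENNReal.ofReal_le_ofReal
    apply le_of_eq
    have e1 : (U ^ δ) ^ (n + 1) * (U ^ (1 + 2 * δ)) ^ (n + 1) =
        U ^ (((n : ℝ) + 1) * (1 + 3 * δ)) := by
      rw [← mul_pow, ← Real.rpow_add hU0, ← Real.rpow_natCast, ← Real.rpow_mul hU0.le]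
      congr 1
      push_cast
      ring
    rw [← e1, hM, mul_pow, mul_pow]
    ring

end Pool.Agent.P07318s
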