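import Pool.Agent.Lib.P07318s.Defs
import Pool.Agent.Lib.P07318s.PiSum
import Pool.Agent.Lib.P07318s.BoxMSV
import Pool.Agent.Lib.P07318s.KapSum
import Pool.Agent.Lib.P07318s.CountV
import Pool.Agent.Lib.P07318s.MeanM
import Pool.Agent.Lib.P07318s.NNint

/-!
Mean squares over `v ∈ [0, U]` and the box. As `mean_MM` (MeanM.lean: `mmZ`, `mmZ_norm`, `mmZ_summable`, `mm_eq`), using
`ex (v + α_j)`: `∏_j ex (v + α_j) (q_j) = exp(-i v lam q) ∏_j ex (α_j) (q_j)` (`prod_shift` in NNint), then `box_ms_v` with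
`m q = lam q`, `ω q j = lgr (q j.succ)`, and `count_v`, `count_v0` (for `NN` use the coefficients without `osc`).
-/

set_option autoImplicit false

namespace Pool.Agent.P07318s

open MeasureTheory Complex

namespace MeanVAux

lemma prod_cons {n : ℕ} (α₀ : ℝ) (α : Fin n → ℝ) (q : Fin (n + 1) → Q) :
    ∏ j : Fin (n + 1), ex ((Fin.cons α₀ α : Fin (n + 1) → ℝ) j) (q j).1 =
        ex α₀ (q 0).1 * cexp (((-(∑ j, α j * lgr (q j.succ).1) : ℝ) : ℂ) * I) := by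
  rw [Fin.prod_univ_succ]
  congr 1
  unfold ex
  rw [← Complex.exp_sum]
  congr 1
  rw [← Finset.sum_mul]
  congr 1
  push_cast
  rw [← Finset.sum_neg_distrib]
  refine Finset.sum_congr rfl fun j _ => ?_
  simp

lemma exp_two (a b : ℝ) : cexp (((-(a + b) : ℝ) : ℂ) * I) =
    cexp (((-a : ℝ) : ℂ) * I) * cexp (((-b : ℝ) : ℂ) * I) := by
  rw [← Complex.exp_add]
  congr 1
  push_cast
  ring

lemma mmv_eq {n : ℕ} (z : Fin (n + 1) → Q → ℝ) (V α₀ v : ℝ) (α : Fin n → ℝ) :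
    MM z V (fun j => v + (Fin.cons α₀ α : Fin (n + 1) → ℝ) j) =
      ∑' q : Fin (n + 1) → Q, mmZ z V α₀ q *
        cexp (((-(v * (fun (q : Fin (n + 1) → Q) => lam (fun j => (q j).1)) q +
          ∑ j, α j * (fun (q : Fin (n + 1) → Q) (j : Fin n) => lgr (q j.succ).1) q j) : ℝ) : ℂ) * I) := by
  unfold MM mmZ
  refine tsum_congr fun q => ?_
  split_ifs with h
  · simp
  · rw [NNintAux.prod_shift, Finset.prod_mul_distrib, prod_cons, exp_two]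
    ring

/-- coefficients of `NN` -/
noncomputable def nnZ {n : ℕ} (z : Fin (n + 1) → Q → ℝ) (α₀ : ℝ) (q : Fin (n + 1) → Q) : ℂ :=
  if lam (fun j => (q j).1) = 0 then 0 else (∏ j, (z j (q j) : ℂ)) * ex α₀ (q 0).1

lemma nnv_eq {n : ℕ} (z : Fin (n + 1) → Q → ℝ) (α₀ v : ℝ) (α : Fin n → ℝ) :
    NN z (fun j => v + (Fin.cons α₀ α : Fin (n + 1) → ℝ) j) =
      ∑' q : Fin (n + 1) → Q, nnZ z α₀ q *
        cexp (((-(v * (fun (q : Fin (n + 1) → Q) => lam (fun j => (q j).1)) q +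
          ∑ j, α j * (fun (q : Fin (n + 1) → Q) (j : Fin n) => lgr (q j.succ).1) q j) : ℝ) : ℂ) * I) := by
  unfold NN nnZ
  refine tsum_congr fun q => ?_
  split_ifs with h
  · simp
  · rw [NNintAux.prod_shift, Finset.prod_mul_distrib, prod_cons, exp_two]
    ring

lemma nnZ_norm {n : ℕ} {δ U : ℝ} (z : Fin (n + 1) → Q → ℝ)
    (s : Fin (n + 1) → ℝ) (hz : ∀ j q, |z j q| ≤ s j * ww δ U q) (α₀ : ℝ)
    (q : Fin (n + 1) → Q) :
    ‖nnZ z α₀ q‖ ≤ (∏ j, s j) * ∏ j, ww δ U (q j) := by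
  have h1 : ∏ j, ‖((z j (q j) : ℝ) : ℂ)‖ ≤ ∏ j, (s j * ww δ U (q j)) := by
    refine Finset.prod_le_prod (fun j _ => norm_nonneg _) fun j _ => ?_
    rw [Complex.norm_real, Real.norm_eq_abs]
    exact hz j (q j)
  rw [← Finset.prod_mul_distrib]
  unfold nnZ
  split_ifs with h
  · rw [norm_zero]
    exact (Finset.prod_nonneg fun j _ => norm_nonneg _).trans h1
  · rw [norm_mul, norm_ex, mul_one, norm_prod]
    exact h1

lemma nnZ_summable {n : ℕ} {δ U : ℝ} (hδ : 0 < δ) (hδ2 : δ ≤ 1 / 2) (hU : 1 ≤ U)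
    (z : Fin (n + 1) → Q → ℝ)
    (s : Fin (n + 1) → ℝ) (hz : ∀ j q, |z j q| ≤ s j * ww δ U q) (α₀ : ℝ) :
    Summable (fun q => ‖nnZ z α₀ q‖) := by
  have hw := summable_pi_prod_real (k := n + 1) (fun _ q => ww δ U q) (fun _ => ww_summable hδ hδ2 hU)
    (fun _ q => ww_nonneg (by linarith) q)
  exact Summable.of_nonneg_of_le (fun q => norm_nonneg _) (fun q => nnZ_norm z s hz α₀ q)
    (hw.mul_left (∏ j, s j))

/-- the common computation -/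
lemma gen {n : ℕ} {H U P T : ℝ} (hH : 0 ≤ H) (hU : 0 ≤ U)
    (Z : (Fin (n + 1) → Q) → ℂ) (hZ : Summable fun q => ‖Z q‖)
    (B : (Fin (n + 1) → Q) → ℝ) (hB : ∀ q, ‖Z q‖ ≤ P * B q) (β : Fin n → ℝ)
    (hT : ∑' q : Fin (n + 1) → Q, ∑' q' : Fin (n + 1) → Q,
      ENNReal.ofReal (B q * B q' * bb U (lam (fun j => (q j).1) - lam (fun j => (q' j).1)) *
        ∏ j : Fin n, bb H (lgr (q j.succ).1 - lgr (q' j.succ).1)) ≤ ENNReal.ofReal T) :
    ∫⁻ v in Set.Icc (0:ℝ) U, ∫⁻ α in Set.Icc β (fun j => β j + H),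
      ‖∑' q, Z q *
        cexp (((-(v * (fun (q : Fin (n + 1) → Q) => lam (fun j => (q j).1)) q +
          ∑ j, α j * (fun (q : Fin (n + 1) → Q) (j : Fin n) => lgr (q j.succ).1) q j) : ℝ) : ℂ) * I)‖ₑ ^ 2 ≤
      ENNReal.ofReal (P ^ 2 * T) := by
  have h1 := box_ms_v Z hZ (fun (q : Fin (n + 1) → Q) (j : Fin n) => lgr (q j.succ).1)
    (fun (q : Fin (n + 1) → Q) => lam (fun j => (q j).1)) β hH hU
  refine h1.trans ?_
  have hterm : ∀ q q' : Fin (n + 1) → Q, ‖Z q‖ₑ * ‖Z q'‖ₑ *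
      (ENNReal.ofReal (bb U (lam (fun j => (q j).1) - lam (fun j => (q' j).1))) *
        ∏ j : Fin n, ENNReal.ofReal (bb H (lgr (q j.succ).1 - lgr (q' j.succ).1))) ≤
      ENNReal.ofReal (P ^ 2) *
      ENNReal.ofReal (B q * B q' * bb U (lam (fun j => (q j).1) - lam (fun j => (q' j).1)) *
        ∏ j : Fin n, bb H (lgr (q j.succ).1 - lgr (q' j.succ).1)) := by
    intro q q'
    have hp : 0 ≤ ∏ j : Fin n, bb H (lgr (q j.succ).1 - lgr (q' j.succ).1) :=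
      Finset.prod_nonneg fun j _ => bb_nonneg hH _
    have hbU := bb_nonneg hU (lam (fun j => (q j).1) - lam (fun j => (q' j).1))
    rw [← ENNReal.ofReal_prod_of_nonneg (fun j _ => bb_nonneg hH _), ← ofReal_norm, ← ofReal_norm,
      ← ENNReal.ofReal_mul (norm_nonneg _), ← ENNReal.ofReal_mul hbU, ← ENNReal.ofReal_mul (by positivity),
      ← ENNReal.ofReal_mul (by positivity)]
    refine ENNReal.ofReal_le_ofReal ?_
    calc ‖Z q‖ * ‖Z q'‖ * (bb U (lam (fun j => (q j).1) - lam (fun j => (q' j).1)) *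
          ∏ j : Fin n, bb H (lgr (q j.succ).1 - lgr (q' j.succ).1))
        ≤ (P * B q) * (P * B q') * (bb U (lam (fun j => (q j).1) - lam (fun j => (q' j).1)) *
          ∏ j : Fin n, bb H (lgr (q j.succ).1 - lgr (q' j.succ).1)) := by
          refine mul_le_mul_of_nonneg_right ?_ (mul_nonneg hbU hp)
          exact mul_le_mul (hB q) (hB q') (norm_nonneg _) ((norm_nonneg _).trans (hB q))
      _ = _ := by ring
  refine (ENNReal.tsum_le_tsum fun q => ENNReal.tsum_le_tsum fun q' => hterm q q').trans ?_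
  have e : ∑' q : Fin (n + 1) → Q, ∑' q' : Fin (n + 1) → Q, ENNReal.ofReal (P ^ 2) *
      ENNReal.ofReal (B q * B q' * bb U (lam (fun j => (q j).1) - lam (fun j => (q' j).1)) *
        ∏ j : Fin n, bb H (lgr (q j.succ).1 - lgr (q' j.succ).1)) =
      ENNReal.ofReal (P ^ 2) * ∑' q : Fin (n + 1) → Q, ∑' q' : Fin (n + 1) → Q,
      ENNReal.ofReal (B q * B q' * bb U (lam (fun j => (q j).1) - lam (fun j => (q' j).1)) *
        ∏ j : Fin n, bb H (lgr (q j.succ).1 - lgr (q' j.succ).1)) := by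
    rw [← ENNReal.tsum_mul_left]
    refine tsum_congr fun q => ?_
    rw [← ENNReal.tsum_mul_left]
  rw [e, ENNReal.ofReal_mul (by positivity)]
  exact mul_le_mul_right hT _

end MeanVAux

open MeanVAux

theorem mean_v (n : ℕ) (δ : ℝ) (hδ : 0 < δ) (hδ2 : δ ≤ 1 / 2) : ∃ C : ℝ, 0 < C ∧ ∀ U L H : ℝ, 1 ≤ U →
    0 ≤ L → L ≤ U → 0 ≤ H → H ≤ U → ∀ (z : Fin (n + 1) → Q → ℝ) (s : Fin (n + 1) → ℝ),
    (∀ j, 0 ≤ s j) → (∀ j q, |z j q| ≤ s j * ww δ U q) → ∀ (α₀ : ℝ) (β : Fin n → ℝ),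
    ∫⁻ v in Set.Icc (0:ℝ) U, ∫⁻ α in Set.Icc β (fun j => β j + H),
      ‖MM z L (fun j => v + (Fin.cons α₀ α : Fin (n + 1) → ℝ) j)‖ₑ ^ 2 ≤
      ENNReal.ofReal (C * (∏ j, s j) ^ 2 * L * U ^ (((n : ℝ) + 1) * (1 + 3 * δ))) := by
  obtain ⟨C, hC, hcount⟩ := count_v n δ hδ hδ2
  refine ⟨C, hC, fun U L H hU hL hLU hH hHU z s hs hz α₀ β => ?_⟩
  simp_rw [mmv_eq]
  refine (gen (T := C * L * U ^ (((n : ℝ) + 1) * (1 + 3 * δ))) hH (by linarith) (mmZ z L α₀)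
    (mmZ_summable hδ hδ2 hU hL z s hs hz α₀)
    (fun q => if lam (fun j => (q j).1) = 0 then 0 else
      (∏ j, ww δ U (q j)) * bb L (lam fun j => (q j).1))
    (fun q => mmZ_norm hU hL z s hs hz α₀ q) β ?_).trans ?_
  · refine le_trans (le_of_eq ?_) (hcount U L H hU hL hLU hH hHU)
    refine tsum_congr fun q => tsum_congr fun q' => ?_
    congr 1
    by_cases h : lam (fun j => (q j).1) = 0
    · simp [h]
    · by_cases h' : lam (fun j => (q' j).1) = 0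
      · simp [h']
      · simp only [h, h', if_false, or_self]
        ring
  · refine ENNReal.ofReal_le_ofReal (le_of_eq ?_)
    ring

theorem mean_v0 (n : ℕ) (δ : ℝ) (hδ : 0 < δ) (hδ2 : δ ≤ 1 / 2) : ∃ C : ℝ, 0 < C ∧ ∀ U H : ℝ, 1 ≤ U →
    0 ≤ H → H ≤ U → ∀ (z : Fin (n + 1) → Q → ℝ) (s : Fin (n + 1) → ℝ),
    (∀ j, 0 ≤ s j) → (∀ j q, |z j q| ≤ s j * ww δ U q) → ∀ (α₀ : ℝ) (β : Fin n → ℝ),
    ∫⁻ v in Set.Icc (0:ℝ) U, ∫⁻ α in Set.Icc β (fun j => β j + H),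
      ‖NN z (fun j => v + (Fin.cons α₀ α : Fin (n + 1) → ℝ) j)‖ₑ ^ 2 ≤
      ENNReal.ofReal (C * (∏ j, s j) ^ 2 * U ^ (((n : ℝ) + 1) * (1 + 3 * δ))) := by
  obtain ⟨C, hC, hcount⟩ := count_v0 n δ hδ hδ2
  refine ⟨C, hC, fun U H hU hH hHU z s _ hz α₀ β => ?_⟩
  simp_rw [nnv_eq]
  refine (gen (T := C * U ^ (((n : ℝ) + 1) * (1 + 3 * δ))) hH (by linarith) (nnZ z α₀)
    (nnZ_summable hδ hδ2 hU z s hz α₀) (fun q => ∏ j, ww δ U (q j))
    (fun q => nnZ_norm z s hz α₀ q) β (hcount U H hU hH hHU)).trans ?_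
  refine ENNReal.ofReal_le_ofReal (le_of_eq ?_)
  ring

end Pool.Agent.P07318s
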