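import Mathlib

/-!
Maximal inequality by chaining over dyadic intervals. Let `E(v) = ∫_0^v N`, `ℓ_m = V₀/2^m`, and for `V ∈ [0, V₀]`
let `J_m` be a dyadic interval `[i ℓ_m, (i+1) ℓ_m]` of `[0, V₀]` containing `V`, `J_{m+1} ⊆ J_m`, `A_m` the mean of `E`
over `J_m`. `E(V) = A_0 + ∑_{m < M} (A_{m+1} - A_m) + (E(V) - A_M)`.
* `|A_0|² ≤ (1/V₀) ∫_0^{V₀} |E|²` (Cauchy-Schwarz).
* `J_{m+1}` is the left or the right half of `J_m`, so `|A_{m+1} - A_m| = (1/2)|mean over left half - mean over right half|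
  = (1/2)(2/ℓ_m) |∫_{left half} (E(v) - E(v + ℓ_m/2)) dv| ≤ (1/ℓ_m) ∫_{left half} ‖∫_v^{v+ℓ_{m+1}} N‖ dv`, hence
  `|A_{m+1} - A_m|² ≤ (1/ℓ_m) ∫_0^{V₀} ‖∫_v^{v+ℓ_{m+1}} N‖² dv` (Cauchy-Schwarz, the half interval has length `ℓ_m/2`).
* `|E(V) - A_M| ≤ ∫_{J_M} ‖N‖`, so its square is `≤ ℓ_M ∫_0^{V₀} ‖N‖²`.
* `(∑_{M+2 terms} x_i)² ≤ (M+2) ∑ x_i²`.
Suggested formal proof: induction on `M` for the statement: for every interval `[a, a+ℓ] ⊆ [0, V₀]` and `V` in it,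
`‖E(V) - mean‖ ≤ ∑_{m < M} ((2^m/ℓ) ∫_0^{V₀} ‖∫_v^{v+ℓ/2^(m+1)} N‖²)^(1/2) + ((ℓ/2^M) ∫_0^{V₀} ‖N‖²)^(1/2)`.
-/

set_option autoImplicit false

namespace Pool.Agent.P07318s

open MeasureTheory Complex

namespace ChainAux

theorem cs (f : ℝ → ℝ) (hf : Continuous f) {a b : ℝ} (hab : a < b) :
    (∫ t in a..b, f t) ^ 2 ≤ (b - a) * ∫ t in a..b, f t ^ 2 := by
  have hpos : 0 < b - a := sub_pos.2 hab
  set I := ∫ t in a..b, f t with hI
  have h0 : 0 ≤ ∫ t in a..b, (f t - I / (b - a)) ^ 2 :=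
    intervalIntegral.integral_nonneg hab.le (fun _ _ => sq_nonneg _)
  have h1 : ∫ t in a..b, (f t - I / (b - a)) ^ 2 =
      (∫ t in a..b, f t ^ 2) - 2 * (I / (b - a)) * I + (I / (b - a)) ^ 2 * (b - a) := by
    have h2 : (fun t => (f t - I / (b - a)) ^ 2) =
        fun t => f t ^ 2 - 2 * (I / (b - a)) * f t + (I / (b - a)) ^ 2 := by
      ext t; ring
    rw [h2, intervalIntegral.integral_add, intervalIntegral.integral_sub,
      intervalIntegral.integral_const_mul, intervalIntegral.integral_const, smul_eq_mul, ← hI]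
    · ring
    · exact (hf.pow 2).intervalIntegrable _ _
    · exact (continuous_const.mul hf).intervalIntegrable _ _
    · exact ((hf.pow 2).sub (continuous_const.mul hf)).intervalIntegrable _ _
    · exact continuous_const.intervalIntegrable _ _
  rw [h1] at h0
  have h3 : (∫ t in a..b, f t ^ 2) - 2 * (I / (b - a)) * I + (I / (b - a)) ^ 2 * (b - a) =
      (∫ t in a..b, f t ^ 2) - I ^ 2 / (b - a) := by
    field_simp
    ring
  rw [h3] at h0
  have h4 : I ^ 2 / (b - a) ≤ ∫ t in a..b, f t ^ 2 := by linarith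
  rw [div_le_iff₀ hpos] at h4
  linarith

/-- the integral over a subinterval -/
theorem sub_int (g : ℝ → ℝ) (hg : Continuous g) (h : ∀ t, 0 ≤ g t) {V₀ a b : ℝ} (h0 : 0 ≤ a)
    (hb : b ≤ V₀) : ∫ t in a..b, g t ≤ ∫ t in (0:ℝ)..V₀, g t := by
  have hi : ∀ x y : ℝ, IntervalIntegrable g volume x y := fun x y => hg.intervalIntegrable x y
  have h1 : (∫ t in (0:ℝ)..V₀, g t) = (∫ t in (0:ℝ)..a, g t) + (∫ t in a..b, g t) +
      ∫ t in b..V₀, g t := by
    rw [intervalIntegral.integral_add_adjacent_intervals (hi _ _) (hi _ _),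
      intervalIntegral.integral_add_adjacent_intervals (hi _ _) (hi _ _)]
  have h2 : 0 ≤ ∫ t in (0:ℝ)..a, g t := intervalIntegral.integral_nonneg h0 (fun _ _ => h _)
  have h3 : 0 ≤ ∫ t in b..V₀, g t := intervalIntegral.integral_nonneg hb (fun _ _ => h _)
  linarith

theorem cont_prim (N : ℝ → ℂ) (hN : Continuous N) (c : ℝ) :
    Continuous (fun v => ∫ t in v..(v + c), N t) := by
  have h : (fun v => ∫ t in v..(v + c), N t) =
      fun v => (∫ t in (0:ℝ)..(v + c), N t) - ∫ t in (0:ℝ)..v, N t := by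
    ext v
    rw [intervalIntegral.integral_interval_sub_left (hN.intervalIntegrable _ _)
      (hN.intervalIntegrable _ _)]
  rw [h]
  have h1 : Continuous (fun v => ∫ t in (0:ℝ)..v, N t) :=
    intervalIntegral.continuous_primitive (fun a b => hN.intervalIntegrable a b) 0
  exact (h1.comp (continuous_id.add continuous_const)).sub h1

/-- the mean of the primitive over a half of an interval against the mean over the other half -/
theorem halves (N : ℝ → ℂ) (hN : Continuous N) {V₀ a l : ℝ} (h0 : 0 ≤ a) (hl : 0 < l)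
    (hb : a + l ≤ V₀) :
    ‖(1 / (l : ℂ)) * ((∫ v in a..(a + l / 2), ∫ t in (0:ℝ)..v, N t) -
      ∫ v in (a + l / 2)..(a + l), ∫ t in (0:ℝ)..v, N t)‖ ≤
    Real.sqrt ((1 / l) * ∫ v in (0:ℝ)..V₀, ‖∫ t in v..(v + l / 2), N t‖ ^ 2) := by
  have hE : Continuous (fun v => ∫ t in (0:ℝ)..v, N t) :=
    intervalIntegral.continuous_primitive (fun a b => hN.intervalIntegrable a b) 0
  have h1 : (∫ v in (a + l / 2)..(a + l), ∫ t in (0:ℝ)..v, N t) =
      ∫ v in a..(a + l / 2), ∫ t in (0:ℝ)..(v + l / 2), N t := by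
    have := intervalIntegral.integral_comp_add_right (a := a) (b := a + l / 2)
      (fun v => ∫ t in (0:ℝ)..v, N t) (l / 2)
    rw [this]
    congr 1
    ring
  have hE2 : Continuous (fun v => ∫ t in (0:ℝ)..(v + l / 2), N t) :=
    hE.comp (continuous_id.add continuous_const)
  rw [h1, ← intervalIntegral.integral_sub (hE.intervalIntegrable _ _)
    (hE2.intervalIntegrable _ _)]
  have h2 : ∀ v : ℝ, (∫ t in (0:ℝ)..v, N t) - (∫ t in (0:ℝ)..(v + l / 2), N t) =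
      -∫ t in v..(v + l / 2), N t := by
    intro v
    rw [intervalIntegral.integral_interval_sub_left (hN.intervalIntegrable _ _)
      (hN.intervalIntegrable _ _), intervalIntegral.integral_symm]
  simp only [h2]
  rw [norm_mul]
  have h3 : ‖(1 / (l : ℂ))‖ = 1 / l := by
    rw [norm_div, norm_one, Complex.norm_real, Real.norm_of_nonneg hl.le]
  rw [h3]
  have hc : Continuous (fun v => ‖∫ t in v..(v + l / 2), N t‖) := (cont_prim N hN _).norm
  have h4 : ‖∫ v in a..(a + l / 2), -∫ t in v..(v + l / 2), N t‖ ≤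
      ∫ v in a..(a + l / 2), ‖∫ t in v..(v + l / 2), N t‖ := by
    refine (intervalIntegral.norm_integral_le_integral_norm (by linarith)).trans (le_of_eq ?_)
    simp
  have h5 := cs _ hc (show a < a + l / 2 by linarith)
  have h6 : ∫ v in a..(a + l / 2), ‖∫ t in v..(v + l / 2), N t‖ ^ 2 ≤
      ∫ v in (0:ℝ)..V₀, ‖∫ t in v..(v + l / 2), N t‖ ^ 2 :=
    sub_int _ (hc.pow 2) (fun _ => sq_nonneg _) h0 (show a + l / 2 ≤ V₀ by linarith)
  refine Real.le_sqrt_of_sq_le ?_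
  have h7 : 0 ≤ ‖∫ v in a..(a + l / 2), -∫ t in v..(v + l / 2), N t‖ := norm_nonneg _
  set I := ‖∫ v in a..(a + l / 2), -∫ t in v..(v + l / 2), N t‖
  set J := ∫ v in a..(a + l / 2), ‖∫ t in v..(v + l / 2), N t‖
  set K := ∫ v in a..(a + l / 2), ‖∫ t in v..(v + l / 2), N t‖ ^ 2
  set L := ∫ v in (0:ℝ)..V₀, ‖∫ t in v..(v + l / 2), N t‖ ^ 2
  have h8 : I ^ 2 ≤ J ^ 2 := by gcongr
  have h9 : (1 / l * I) ^ 2 = (1 / l) * ((1 / l) * I ^ 2) := by ring
  rw [h9]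
  refine mul_le_mul_of_nonneg_left ?_ (by positivity)
  have hK : 0 ≤ K := intervalIntegral.integral_nonneg (by linarith) (fun _ _ => sq_nonneg _)
  have h10 : I ^ 2 ≤ l * L := by
    have : a + l / 2 - a = l / 2 := by ring
    rw [this] at h5
    nlinarith
  rw [one_div, inv_mul_le_iff₀ hl]
  exact h10

theorem base (N : ℝ → ℂ) (hN : Continuous N) {V₀ a l V : ℝ} (h0 : 0 ≤ a) (hl : 0 < l)
    (hb : a + l ≤ V₀) (hV : a ≤ V) (hV' : V ≤ a + l) :
    ‖(∫ t in (0:ℝ)..V, N t) - (1 / (l : ℂ)) * ∫ v in a..(a + l), ∫ t in (0:ℝ)..v, N t‖ ≤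
    Real.sqrt (l * ∫ v in (0:ℝ)..V₀, ‖N v‖ ^ 2) := by
  have hE : Continuous (fun v => ∫ t in (0:ℝ)..v, N t) :=
    intervalIntegral.continuous_primitive (fun a b => hN.intervalIntegrable a b) 0
  have hlc : (l : ℂ) ≠ 0 := by exact_mod_cast hl.ne'
  have h1 : (∫ t in (0:ℝ)..V, N t) - (1 / (l : ℂ)) * ∫ v in a..(a + l), ∫ t in (0:ℝ)..v, N t =
      (1 / (l : ℂ)) * ∫ v in a..(a + l), ((∫ t in (0:ℝ)..V, N t) - ∫ t in (0:ℝ)..v, N t) := by
    rw [intervalIntegral.integral_sub (continuous_const.intervalIntegrable _ _)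
      (hE.intervalIntegrable _ _), intervalIntegral.integral_const]
    have : ((a + l - a : ℝ) • (∫ t in (0:ℝ)..V, N t)) = (l : ℂ) * ∫ t in (0:ℝ)..V, N t := by
      rw [add_sub_cancel_left, Complex.real_smul]
    rw [this]
    field_simp
  rw [h1, norm_mul]
  have h3 : ‖(1 / (l : ℂ))‖ = 1 / l := by
    rw [norm_div, norm_one, Complex.norm_real, Real.norm_of_nonneg hl.le]
  rw [h3]
  have hn : Continuous (fun t => ‖N t‖) := hN.norm
  have h4 : ∀ v ∈ Set.uIoc a (a + l), ‖(∫ t in (0:ℝ)..V, N t) - ∫ t in (0:ℝ)..v, N t‖ ≤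
      ∫ t in a..(a + l), ‖N t‖ := by
    intro v hv
    rw [Set.uIoc_of_le (by linarith)] at hv
    rw [intervalIntegral.integral_interval_sub_left (hN.intervalIntegrable _ _)
      (hN.intervalIntegrable _ _)]
    have key : ∀ x y : ℝ, a ≤ x → x ≤ y → y ≤ a + l → ‖∫ t in x..y, N t‖ ≤
        ∫ t in a..(a + l), ‖N t‖ := by
      intro x y hx hxy hy
      refine (intervalIntegral.norm_integral_le_integral_norm hxy).trans ?_
      have hi : ∀ x y : ℝ, IntervalIntegrable (fun t => ‖N t‖) volume x y :=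
        fun x y => hn.intervalIntegrable x y
      have h5 : (∫ t in a..(a + l), ‖N t‖) = (∫ t in a..x, ‖N t‖) + (∫ t in x..y, ‖N t‖) +
          ∫ t in y..(a + l), ‖N t‖ := by
        rw [intervalIntegral.integral_add_adjacent_intervals (hi _ _) (hi _ _),
          intervalIntegral.integral_add_adjacent_intervals (hi _ _) (hi _ _)]
      have h6 : 0 ≤ ∫ t in a..x, ‖N t‖ :=
        intervalIntegral.integral_nonneg hx (fun _ _ => norm_nonneg _)
      have h7 : 0 ≤ ∫ t in y..(a + l), ‖N t‖ :=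
        intervalIntegral.integral_nonneg hy (fun _ _ => norm_nonneg _)
      linarith
    rcases le_total v V with h | h
    · exact key v V hv.1.le h hV'
    · rw [intervalIntegral.integral_symm, norm_neg]
      exact key V v hV h hv.2
  have h5 := intervalIntegral.norm_integral_le_of_norm_le_const h4
  have h6 := cs _ hn (show a < a + l by linarith)
  have h7 : ∫ t in a..(a + l), ‖N t‖ ^ 2 ≤ ∫ t in (0:ℝ)..V₀, ‖N t‖ ^ 2 :=
    sub_int _ (hn.pow 2) (fun _ => sq_nonneg _) h0 hb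
  have h8 : a + l - a = l := by ring
  rw [h8] at h5 h6
  rw [abs_of_pos hl] at h5
  refine Real.le_sqrt_of_sq_le ?_
  set I := ‖∫ v in a..(a + l), ((∫ t in (0:ℝ)..V, N t) - ∫ t in (0:ℝ)..v, N t)‖
  have h9 : 0 ≤ I := norm_nonneg _
  have h10 : 1 / l * I ≤ ∫ t in a..(a + l), ‖N t‖ := by
    rw [one_div, inv_mul_le_iff₀ hl]
    linarith
  have h11 : (1 / l * I) ^ 2 ≤ (∫ t in a..(a + l), ‖N t‖) ^ 2 := by
    gcongr
  refine h11.trans (h6.trans ?_)
  exact mul_le_mul_of_nonneg_left h7 hl.le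

theorem ind (N : ℝ → ℂ) (hN : Continuous N) {V₀ : ℝ} (M : ℕ) : ∀ {a l V : ℝ}, 0 ≤ a → 0 < l →
    a + l ≤ V₀ → a ≤ V → V ≤ a + l →
    ‖(∫ t in (0:ℝ)..V, N t) - (1 / (l : ℂ)) * ∫ v in a..(a + l), ∫ t in (0:ℝ)..v, N t‖ ≤
    (∑ m ∈ Finset.range M, Real.sqrt ((2 ^ m / l) *
      ∫ v in (0:ℝ)..V₀, ‖∫ t in v..(v + l / 2 ^ (m + 1)), N t‖ ^ 2)) +
    Real.sqrt ((l / 2 ^ M) * ∫ v in (0:ℝ)..V₀, ‖N v‖ ^ 2) := by
  induction M with
  | zero =>
    intro a l V h0 hl hb hV hV'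
    have := base N hN h0 hl hb hV hV'
    simpa using this
  | succ M ih =>
    intro a l V h0 hl hb hV hV'
    have hE : Continuous (fun v => ∫ t in (0:ℝ)..v, N t) :=
      intervalIntegral.continuous_primitive (fun a b => hN.intervalIntegrable a b) 0
    have hlc : (l : ℂ) ≠ 0 := by exact_mod_cast hl.ne'
    have hl2 : 0 < l / 2 := by linarith
    have hsplit : (∫ v in a..(a + l), ∫ t in (0:ℝ)..v, N t) =
        (∫ v in a..(a + l / 2), ∫ t in (0:ℝ)..v, N t) +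
        ∫ v in (a + l / 2)..(a + l), ∫ t in (0:ℝ)..v, N t := by
      rw [intervalIntegral.integral_add_adjacent_intervals (hE.intervalIntegrable _ _)
        (hE.intervalIntegrable _ _)]
    have hh := halves N hN h0 hl hb
    have hrest : (∑ m ∈ Finset.range M, Real.sqrt ((2 ^ m / (l / 2)) *
          ∫ v in (0:ℝ)..V₀, ‖∫ t in v..(v + (l / 2) / 2 ^ (m + 1)), N t‖ ^ 2)) +
        Real.sqrt (((l / 2) / 2 ^ M) * ∫ v in (0:ℝ)..V₀, ‖N v‖ ^ 2) +
        Real.sqrt ((1 / l) * ∫ v in (0:ℝ)..V₀, ‖∫ t in v..(v + l / 2), N t‖ ^ 2) =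
        (∑ m ∈ Finset.range (M + 1), Real.sqrt ((2 ^ m / l) *
          ∫ v in (0:ℝ)..V₀, ‖∫ t in v..(v + l / 2 ^ (m + 1)), N t‖ ^ 2)) +
        Real.sqrt ((l / 2 ^ (M + 1)) * ∫ v in (0:ℝ)..V₀, ‖N v‖ ^ 2) := by
      rw [Finset.sum_range_succ']
      have e1 : ∀ m : ℕ, (2 : ℝ) ^ m / (l / 2) = 2 ^ (m + 1) / l := by
        intro m; field_simp; ring
      have e2 : ∀ m : ℕ, (l / 2) / 2 ^ m = l / 2 ^ (m + 1) := by
        intro m; field_simp; ring
      simp only [e1, e2]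
      simp only [pow_zero, zero_add, pow_one]
      ring
    rw [← hrest]
    set R := (∑ m ∈ Finset.range M, Real.sqrt ((2 ^ m / (l / 2)) *
          ∫ v in (0:ℝ)..V₀, ‖∫ t in v..(v + (l / 2) / 2 ^ (m + 1)), N t‖ ^ 2)) +
        Real.sqrt (((l / 2) / 2 ^ M) * ∫ v in (0:ℝ)..V₀, ‖N v‖ ^ 2) with hR
    have hcast : (1 / ((l / 2 : ℝ) : ℂ)) = 2 * (1 / (l : ℂ)) := by
      push_cast; field_simp
    rcases le_total V (a + l / 2) with h | h
    · have h1 := ih (a := a) (l := l / 2) (V := V) h0 hl2 (by linarith) hV h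
      rw [← hR] at h1
      rw [hcast] at h1
      have h2 : (∫ t in (0:ℝ)..V, N t) -
          (1 / (l : ℂ)) * ∫ v in a..(a + l), ∫ t in (0:ℝ)..v, N t =
          ((∫ t in (0:ℝ)..V, N t) -
            2 * (1 / (l : ℂ)) * ∫ v in a..(a + l / 2), ∫ t in (0:ℝ)..v, N t) +
          (1 / (l : ℂ)) * ((∫ v in a..(a + l / 2), ∫ t in (0:ℝ)..v, N t) -
            ∫ v in (a + l / 2)..(a + l), ∫ t in (0:ℝ)..v, N t) := by
        rw [hsplit]; ring
      rw [h2]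
      exact (norm_add_le _ _).trans (add_le_add h1 hh)
    · have h1 := ih (a := a + l / 2) (l := l / 2) (V := V) (by linarith) hl2 (by linarith) h
        (by linarith)
      rw [← hR] at h1
      rw [hcast] at h1
      have e3 : a + l / 2 + l / 2 = a + l := by ring
      rw [e3] at h1
      have h2 : (∫ t in (0:ℝ)..V, N t) -
          (1 / (l : ℂ)) * ∫ v in a..(a + l), ∫ t in (0:ℝ)..v, N t =
          ((∫ t in (0:ℝ)..V, N t) -
            2 * (1 / (l : ℂ)) * ∫ v in (a + l / 2)..(a + l), ∫ t in (0:ℝ)..v, N t) +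
          -((1 / (l : ℂ)) * ((∫ v in a..(a + l / 2), ∫ t in (0:ℝ)..v, N t) -
            ∫ v in (a + l / 2)..(a + l), ∫ t in (0:ℝ)..v, N t)) := by
        rw [hsplit]; ring
      rw [h2]
      refine (norm_add_le _ _).trans (add_le_add h1 ?_)
      rw [norm_neg]
      exact hh

end ChainAux

theorem chain (N : ℝ → ℂ) (hN : Continuous N) {V₀ : ℝ} (hV₀ : 0 < V₀) (M : ℕ) {V : ℝ} (h0 : 0 ≤ V) (h1 : V ≤ V₀) :
    ‖∫ t in (0:ℝ)..V, N t‖ ^ 2 ≤ (M + 2) * ((1 / V₀) * (∫ v in (0:ℝ)..V₀, ‖∫ t in (0:ℝ)..v, N t‖ ^ 2) +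
      (∑ m ∈ Finset.range M, (2 ^ m / V₀) * ∫ v in (0:ℝ)..V₀, ‖∫ t in v..(v + V₀ / 2 ^ (m + 1)), N t‖ ^ 2) +
      (V₀ / 2 ^ M) * ∫ v in (0:ℝ)..V₀, ‖N v‖ ^ 2) := by
  have hE : Continuous (fun v => ∫ t in (0:ℝ)..v, N t) :=
    intervalIntegral.continuous_primitive (fun a b => hN.intervalIntegrable a b) 0
  have h2 := ChainAux.ind N hN (V₀ := V₀) M (a := 0) (l := V₀) (V := V) le_rfl hV₀
    (by linarith) h0 (by linarith)
  rw [zero_add] at h2
  have h3 : ‖(1 / (V₀ : ℂ)) * ∫ v in (0:ℝ)..V₀, ∫ t in (0:ℝ)..v, N t‖ ≤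
      Real.sqrt ((1 / V₀) * ∫ v in (0:ℝ)..V₀, ‖∫ t in (0:ℝ)..v, N t‖ ^ 2) := by
    rw [norm_mul]
    have h3 : ‖(1 / (V₀ : ℂ))‖ = 1 / V₀ := by
      rw [norm_div, norm_one, Complex.norm_real, Real.norm_of_nonneg hV₀.le]
    rw [h3]
    refine Real.le_sqrt_of_sq_le ?_
    have h4 := intervalIntegral.norm_integral_le_integral_norm (μ := volume)
      (f := fun v => ∫ t in (0:ℝ)..v, N t) hV₀.le
    have h5 := ChainAux.cs _ hE.norm hV₀
    rw [sub_zero] at h5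
    set I := ‖∫ v in (0:ℝ)..V₀, ∫ t in (0:ℝ)..v, N t‖
    have h9 : 0 ≤ I := norm_nonneg _
    have h6 : I ^ 2 ≤ (∫ v in (0:ℝ)..V₀, ‖∫ t in (0:ℝ)..v, N t‖) ^ 2 := by gcongr
    have h7 : (1 / V₀ * I) ^ 2 = (1 / V₀) * ((1 / V₀) * I ^ 2) := by ring
    rw [h7]
    refine mul_le_mul_of_nonneg_left ?_ (by positivity)
    rw [one_div, inv_mul_le_iff₀ hV₀]
    exact h6.trans h5
  have h4 : ‖∫ t in (0:ℝ)..V, N t‖ ≤
      Real.sqrt ((1 / V₀) * ∫ v in (0:ℝ)..V₀, ‖∫ t in (0:ℝ)..v, N t‖ ^ 2) +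
      ((∑ m ∈ Finset.range M, Real.sqrt ((2 ^ m / V₀) *
        ∫ v in (0:ℝ)..V₀, ‖∫ t in v..(v + V₀ / 2 ^ (m + 1)), N t‖ ^ 2)) +
      Real.sqrt ((V₀ / 2 ^ M) * ∫ v in (0:ℝ)..V₀, ‖N v‖ ^ 2)) := by
    have h5 : (∫ t in (0:ℝ)..V, N t) =
        ((1 / (V₀ : ℂ)) * ∫ v in (0:ℝ)..V₀, ∫ t in (0:ℝ)..v, N t) +
        ((∫ t in (0:ℝ)..V, N t) - (1 / (V₀ : ℂ)) * ∫ v in (0:ℝ)..V₀, ∫ t in (0:ℝ)..v, N t) := by
      ring
    rw [h5]
    exact (norm_add_le _ _).trans (add_le_add h3 h2)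
  -- Cauchy-Schwarz for the finite sum
  let X : ℕ → ℝ := fun i => if i < M then (2 ^ i / V₀) *
        ∫ v in (0:ℝ)..V₀, ‖∫ t in v..(v + V₀ / 2 ^ (i + 1)), N t‖ ^ 2
    else if i = M then (V₀ / 2 ^ M) * ∫ v in (0:ℝ)..V₀, ‖N v‖ ^ 2
    else (1 / V₀) * ∫ v in (0:ℝ)..V₀, ‖∫ t in (0:ℝ)..v, N t‖ ^ 2
  have hX : ∀ i, 0 ≤ X i := by
    intro i
    simp only [X]
    split_ifs
    · exact mul_nonneg (by positivity)
        (intervalIntegral.integral_nonneg hV₀.le (fun _ _ => sq_nonneg _))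
    · exact mul_nonneg (by positivity)
        (intervalIntegral.integral_nonneg hV₀.le (fun _ _ => sq_nonneg _))
    · exact mul_nonneg (by positivity)
        (intervalIntegral.integral_nonneg hV₀.le (fun _ _ => sq_nonneg _))
  have hsum : ∀ φ : ℝ → ℝ, ∑ i ∈ Finset.range (M + 2), φ (X i) =
      (∑ m ∈ Finset.range M, φ ((2 ^ m / V₀) *
        ∫ v in (0:ℝ)..V₀, ‖∫ t in v..(v + V₀ / 2 ^ (m + 1)), N t‖ ^ 2)) +
      φ ((V₀ / 2 ^ M) * ∫ v in (0:ℝ)..V₀, ‖N v‖ ^ 2) +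
      φ ((1 / V₀) * ∫ v in (0:ℝ)..V₀, ‖∫ t in (0:ℝ)..v, N t‖ ^ 2) := by
    intro φ
    rw [Finset.sum_range_succ, Finset.sum_range_succ]
    congr 1
    · congr 1
      · refine Finset.sum_congr rfl (fun i hi => ?_)
        simp only [X, if_pos (Finset.mem_range.1 hi)]
      · simp only [X, lt_irrefl, if_false, if_true]
    · simp only [X]
      rw [if_neg (by omega), if_neg (by omega)]
  have h6 : ‖∫ t in (0:ℝ)..V, N t‖ ≤ ∑ i ∈ Finset.range (M + 2), Real.sqrt (X i) := by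
    rw [hsum]
    linarith
  have h7 : (∑ i ∈ Finset.range (M + 2), Real.sqrt (X i)) ^ 2 ≤
      (Finset.range (M + 2)).card * ∑ i ∈ Finset.range (M + 2), Real.sqrt (X i) ^ 2 :=
    sq_sum_le_card_mul_sum_sq
  have h8 : ∑ i ∈ Finset.range (M + 2), Real.sqrt (X i) ^ 2 =
      ∑ i ∈ Finset.range (M + 2), id (X i) :=
    Finset.sum_congr rfl (fun i _ => Real.sq_sqrt (hX i))
  rw [h8, hsum id, Finset.card_range] at h7
  simp only [id] at h7
  have h9 : ‖∫ t in (0:ℝ)..V, N t‖ ^ 2 ≤ (∑ i ∈ Finset.range (M + 2), Real.sqrt (X i)) ^ 2 := by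
    gcongr
  refine h9.trans (h7.trans (le_of_eq ?_))
  push_cast
  ring

end Pool.Agent.P07318s
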