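import Pool.Agent.Lib.P07318s.Defs
import Pool.Agent.Lib.P07318s.NNint
import Pool.Agent.Lib.P07318s.Chain

/-!
Measurable majorant of `sup_{V ≤ V₀} ‖MM z V (A x)‖`. By `MM_eq`: `∫_0^V NN z (t + A x) dt = MM z V (A x)` and
`∫_v^{v+ℓ} NN z (t + A x) dt = MM z ℓ (v + A x)` (shift `t ↦ t + v`). `chain` with `N t = NN z (t + A x)` gives, for every `V ∈ [0, V₀]`,
`‖MM z V (A x)‖² ≤ B(x)²` with
`B² = (M+2) ((1/V₀) ∫⁻ ‖MM z v (A x)‖² + ∑_{m<M} (2^m/V₀) ∫⁻ ‖MM z (V₀/2^(m+1)) (v + A x)‖² + (V₀/2^M) ∫⁻ ‖NN z (v + A x)‖²)`.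
-/

set_option autoImplicit false

namespace Pool.Agent.P07318s

open MeasureTheory Complex

namespace SupMMAux

theorem conv {V₀ : ℝ} (hV₀ : 0 ≤ V₀) (f : ℝ → ℂ) (hf : Continuous f) :
    ∫⁻ v in Set.Icc (0:ℝ) V₀, ‖f v‖ₑ ^ 2 = ENNReal.ofReal (∫ v in (0:ℝ)..V₀, ‖f v‖ ^ 2) := by
  have h1 : Continuous (fun v => ‖f v‖ ^ 2) := by fun_prop
  rw [intervalIntegral.integral_of_le hV₀, ← integral_Icc_eq_integral_Ioc,
    ofReal_integral_eq_lintegral_ofReal (h1.continuousOn.integrableOn_compact isCompact_Icc)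
      (Filter.Eventually.of_forall fun v => by positivity)]
  refine lintegral_congr fun v => ?_
  rw [ENNReal.ofReal_pow (norm_nonneg _), ofReal_norm]

theorem meas {X : Type} [MeasurableSpace X] {k : ℕ} (g : ℝ × (Fin k → ℝ) → ℂ) (hg : Continuous g)
    (A : X → Fin k → ℝ) (hA : Measurable A) (V₀ : ℝ) :
    Measurable (fun x => ∫⁻ v in Set.Icc (0:ℝ) V₀, ‖g (v, A x)‖ₑ ^ 2) := by
  have h1 : Measurable (fun p : X × ℝ => ‖g (p.2, A p.1)‖ₑ ^ 2) := by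
    have h2 : Measurable (fun p : X × ℝ => (p.2, A p.1)) :=
      measurable_snd.prodMk (hA.comp measurable_fst)
    exact ((hg.measurable.comp h2).enorm).pow_const 2
  exact h1.lintegral_prod_right'

end SupMMAux

open SupMMAux in
theorem sup_MM {X : Type} [MeasurableSpace X] (μ : Measure X) [SFinite μ] {k : ℕ} {δ U : ℝ} (hδ : 0 < δ)
    (hδ2 : δ ≤ 1 / 2) (hU : 1 ≤ U) (z : Fin k → Q → ℝ) (s : Fin k → ℝ) (hz : ∀ j q, |z j q| ≤ s j * ww δ U q)
    (A : X → Fin k → ℝ) (hA : Measurable A) {V₀ K : ℝ} (hV₀ : 0 < V₀) (hK : 0 ≤ K) (M : ℕ)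
    (h1 : ∫⁻ x, (∫⁻ v in Set.Icc (0:ℝ) V₀, ‖MM z v (A x)‖ₑ ^ 2) ∂μ ≤ ENNReal.ofReal (V₀ * K))
    (h2 : ∀ m < M, ∫⁻ x, (∫⁻ v in Set.Icc (0:ℝ) V₀, ‖MM z (V₀ / 2 ^ (m + 1)) (fun j => v + A x j)‖ₑ ^ 2) ∂μ ≤
      ENNReal.ofReal (V₀ / 2 ^ m * K))
    (h3 : ∫⁻ x, (∫⁻ v in Set.Icc (0:ℝ) V₀, ‖NN z (fun j => v + A x j)‖ₑ ^ 2) ∂μ ≤ ENNReal.ofReal (2 ^ M / V₀ * K)) :
    ∃ B : X → ENNReal, Measurable B ∧ (∀ x, ∀ V ∈ Set.Icc (0:ℝ) V₀, ‖MM z V (A x)‖ₑ ≤ B x) ∧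
      ∫⁻ x, B x ^ 2 ∂μ ≤ ENNReal.ofReal ((M + 2) ^ 2 * K) := by
  have hNN := NN_continuous hδ hδ2 hU z s hz
  have hMM := MM_continuous hδ hδ2 hU z s hz
  -- the three integrands
  have hsh : Continuous (fun p : ℝ × (Fin k → ℝ) => (fun j => p.1 + p.2 j : Fin k → ℝ)) := by
    fun_prop
  have g1 : Continuous (fun p : ℝ × (Fin k → ℝ) => MM z p.1 p.2) := hMM
  have g2 : ∀ ℓ : ℝ, Continuous (fun p : ℝ × (Fin k → ℝ) => MM z ℓ (fun j => p.1 + p.2 j)) := by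
    intro ℓ
    have h4 : Continuous (fun p : ℝ × (Fin k → ℝ) =>
        ((ℓ, fun j => p.1 + p.2 j) : ℝ × (Fin k → ℝ))) := continuous_const.prodMk hsh
    have h5 := hMM.comp h4
    exact h5
  have g3 : Continuous (fun p : ℝ × (Fin k → ℝ) => NN z (fun j => p.1 + p.2 j)) := by
    have h5 := hNN.comp hsh
    exact h5
  have m1 : Measurable (fun x => ∫⁻ v in Set.Icc (0:ℝ) V₀, ‖MM z v (A x)‖ₑ ^ 2) :=
    meas (fun p : ℝ × (Fin k → ℝ) => MM z p.1 p.2) g1 A hA V₀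
  have m2 : ∀ ℓ : ℝ, Measurable
      (fun x => ∫⁻ v in Set.Icc (0:ℝ) V₀, ‖MM z ℓ (fun j => v + A x j)‖ₑ ^ 2) :=
    fun ℓ => meas (fun p : ℝ × (Fin k → ℝ) => MM z ℓ (fun j => p.1 + p.2 j)) (g2 ℓ) A hA V₀
  have m3 : Measurable (fun x => ∫⁻ v in Set.Icc (0:ℝ) V₀, ‖NN z (fun j => v + A x j)‖ₑ ^ 2) :=
    meas (fun p : ℝ × (Fin k → ℝ) => NN z (fun j => p.1 + p.2 j)) g3 A hA V₀
  set F1 : X → ENNReal := fun x => ∫⁻ v in Set.Icc (0:ℝ) V₀, ‖MM z v (A x)‖ₑ ^ 2 with hF1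
  set F2 : ℕ → X → ENNReal := fun m x =>
    ∫⁻ v in Set.Icc (0:ℝ) V₀, ‖MM z (V₀ / 2 ^ (m + 1)) (fun j => v + A x j)‖ₑ ^ 2 with hF2
  set F3 : X → ENNReal := fun x => ∫⁻ v in Set.Icc (0:ℝ) V₀, ‖NN z (fun j => v + A x j)‖ₑ ^ 2
    with hF3
  have m2' : ∀ m, Measurable (F2 m) := fun m => m2 _
  set B2 : X → ENNReal := fun x => ENNReal.ofReal (M + 2) * (ENNReal.ofReal (1 / V₀) * F1 x +
    (∑ m ∈ Finset.range M, ENNReal.ofReal (2 ^ m / V₀) * F2 m x) +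
      ENNReal.ofReal (V₀ / 2 ^ M) * F3 x) with hB2
  have mA : Measurable (fun x => ENNReal.ofReal (1 / V₀) * F1 x) := m1.const_mul _
  have mB : ∀ m, Measurable (fun x => ENNReal.ofReal (2 ^ m / V₀) * F2 m x) :=
    fun m => (m2' m).const_mul _
  have mC : Measurable (fun x => ∑ m ∈ Finset.range M, ENNReal.ofReal (2 ^ m / V₀) * F2 m x) :=
    Finset.measurable_fun_sum _ fun m _ => mB m
  have mD : Measurable (fun x => ENNReal.ofReal (V₀ / 2 ^ M) * F3 x) := m3.const_mul _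
  have mAC : Measurable (fun x => ENNReal.ofReal (1 / V₀) * F1 x +
      ∑ m ∈ Finset.range M, ENNReal.ofReal (2 ^ m / V₀) * F2 m x) := mA.add mC
  have mACD : Measurable (fun x => ENNReal.ofReal (1 / V₀) * F1 x +
      (∑ m ∈ Finset.range M, ENNReal.ofReal (2 ^ m / V₀) * F2 m x) +
        ENNReal.ofReal (V₀ / 2 ^ M) * F3 x) := mAC.add mD
  have mB2 : Measurable B2 := mACD.const_mul _
  refine ⟨fun x => (B2 x) ^ ((2 : ℝ)⁻¹), mB2.pow_const _, ?_, ?_⟩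
  · intro x V hV
    rw [ENNReal.le_rpow_inv_iff (by norm_num), ENNReal.rpow_two]
    -- the path
    set N : ℝ → ℂ := fun t => NN z (fun j => t + A x j) with hN
    have hpr : Continuous (fun v : ℝ => ((v, A x) : ℝ × (Fin k → ℝ))) :=
      continuous_id.prodMk continuous_const
    have hNc : Continuous N := by
      have h5 := g3.comp hpr
      exact h5
    have hM1 : Continuous (fun v => MM z v (A x)) := by
      have h5 := g1.comp hpr
      exact h5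
    have hM2 : ∀ ℓ : ℝ, Continuous (fun v => MM z ℓ (fun j => v + A x j)) := by
      intro ℓ
      have h5 := (g2 ℓ).comp hpr
      exact h5
    have hE : ∀ v : ℝ, ∫ t in (0:ℝ)..v, N t = MM z v (A x) := fun v =>
      MM_eq hδ hδ2 hU z s hz (A x) v
    have hS : ∀ v ℓ : ℝ, ∫ t in v..(v + ℓ), N t = MM z ℓ (fun j => v + A x j) := by
      intro v ℓ
      rw [← MM_eq hδ hδ2 hU z s hz (fun j => v + A x j) ℓ]
      have h4 := intervalIntegral.integral_comp_add_right (a := 0) (b := ℓ) N v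
      rw [zero_add, add_comm ℓ v] at h4
      rw [← h4]
      congr 1
      funext t
      simp only [hN]
      congr 1
      funext j
      ring
    have hch := chain N hNc hV₀ M hV.1 hV.2
    simp only [hE, hS] at hch
    have c1 : F1 x = ENNReal.ofReal (∫ v in (0:ℝ)..V₀, ‖MM z v (A x)‖ ^ 2) :=
      conv hV₀.le (fun v => MM z v (A x)) hM1
    have c2 : ∀ m, F2 m x =
        ENNReal.ofReal (∫ v in (0:ℝ)..V₀, ‖MM z (V₀ / 2 ^ (m + 1)) (fun j => v + A x j)‖ ^ 2) :=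
      fun m => conv hV₀.le (fun v => MM z (V₀ / 2 ^ (m + 1)) (fun j => v + A x j)) (hM2 _)
    have c3 : F3 x = ENNReal.ofReal (∫ v in (0:ℝ)..V₀, ‖N v‖ ^ 2) := conv hV₀.le N hNc
    have p1 : 0 ≤ ∫ v in (0:ℝ)..V₀, ‖MM z v (A x)‖ ^ 2 :=
      intervalIntegral.integral_nonneg hV₀.le fun v _ => by positivity
    have p2 : ∀ m : ℕ, 0 ≤ ∫ v in (0:ℝ)..V₀, ‖MM z (V₀ / 2 ^ (m + 1)) (fun j => v + A x j)‖ ^ 2 :=
      fun m => intervalIntegral.integral_nonneg hV₀.le fun v _ => by positivity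
    have p3 : 0 ≤ ∫ v in (0:ℝ)..V₀, ‖N v‖ ^ 2 :=
      intervalIntegral.integral_nonneg hV₀.le fun v _ => by positivity
    have hB : B2 x = ENNReal.ofReal ((M + 2) * ((1 / V₀) * (∫ v in (0:ℝ)..V₀, ‖MM z v (A x)‖ ^ 2) +
      (∑ m ∈ Finset.range M, (2 ^ m / V₀) *
        ∫ v in (0:ℝ)..V₀, ‖MM z (V₀ / 2 ^ (m + 1)) (fun j => v + A x j)‖ ^ 2) +
      (V₀ / 2 ^ M) * ∫ v in (0:ℝ)..V₀, ‖N v‖ ^ 2)) := by
      have q2 : 0 ≤ ∑ m ∈ Finset.range M, (2 ^ m / V₀) *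
          ∫ v in (0:ℝ)..V₀, ‖MM z (V₀ / 2 ^ (m + 1)) (fun j => v + A x j)‖ ^ 2 :=
        Finset.sum_nonneg fun m _ => mul_nonneg (by positivity) (p2 m)
      rw [ENNReal.ofReal_mul (by positivity), ENNReal.ofReal_add
        (add_nonneg (mul_nonneg (by positivity) p1) q2) (mul_nonneg (by positivity) p3),
        ENNReal.ofReal_add (mul_nonneg (by positivity) p1) q2,
        ENNReal.ofReal_mul (by positivity), ENNReal.ofReal_mul (by positivity),
        ENNReal.ofReal_sum_of_nonneg fun m _ => mul_nonneg (by positivity) (p2 m)]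
      simp only [hB2]
      rw [c1, c3]
      congr 2
      congr 1
      refine Finset.sum_congr rfl fun m _ => ?_
      rw [c2, ENNReal.ofReal_mul (by positivity)]
    rw [hB, ← ofReal_norm, ← ENNReal.ofReal_pow (norm_nonneg _)]
    exact ENNReal.ofReal_le_ofReal hch
  · have e1 : ∀ x, ((B2 x) ^ ((2 : ℝ)⁻¹)) ^ 2 = B2 x := by
      intro x
      rw [← ENNReal.rpow_two, ← ENNReal.rpow_mul, inv_mul_cancel₀ (by norm_num), ENNReal.rpow_one]
    simp only [e1]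
    simp only [hB2]
    rw [lintegral_const_mul _ mACD, lintegral_add_left mAC,
      lintegral_add_left mA, lintegral_finsetSum _ (fun m _ => mB m),
      lintegral_const_mul _ m1, lintegral_const_mul _ m3]
    have b1 : ENNReal.ofReal (1 / V₀) * ∫⁻ x, F1 x ∂μ ≤ ENNReal.ofReal K := by
      refine (mul_le_mul_right h1 _).trans ?_
      rw [← ENNReal.ofReal_mul (by positivity)]
      apply ENNReal.ofReal_le_ofReal
      field_simp
      exact le_rfl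
    have b2 : ∑ m ∈ Finset.range M, ∫⁻ x, ENNReal.ofReal (2 ^ m / V₀) * F2 m x ∂μ ≤
        ENNReal.ofReal (M * K) := by
      have : ∀ m ∈ Finset.range M, ∫⁻ x, ENNReal.ofReal (2 ^ m / V₀) * F2 m x ∂μ ≤
          ENNReal.ofReal K := by
        intro m hm
        rw [lintegral_const_mul _ (m2' m)]
        refine (mul_le_mul_right (h2 m (Finset.mem_range.1 hm)) _).trans ?_
        rw [← ENNReal.ofReal_mul (by positivity)]
        apply ENNReal.ofReal_le_ofReal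
        field_simp
        exact le_rfl
      refine (Finset.sum_le_sum this).trans ?_
      rw [Finset.sum_const, Finset.card_range, nsmul_eq_mul, ENNReal.ofReal_mul (by positivity),
        ENNReal.ofReal_natCast]
    have b3 : ENNReal.ofReal (V₀ / 2 ^ M) * ∫⁻ x, F3 x ∂μ ≤ ENNReal.ofReal K := by
      refine (mul_le_mul_right h3 _).trans ?_
      rw [← ENNReal.ofReal_mul (by positivity)]
      apply ENNReal.ofReal_le_ofReal
      field_simp
      exact le_rfl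
    refine (mul_le_mul_right (add_le_add (add_le_add b1 b2) b3) _).trans ?_
    rw [← ENNReal.ofReal_add hK (by positivity), ← ENNReal.ofReal_add (by positivity) hK,
      ← ENNReal.ofReal_mul (by positivity)]
    apply ENNReal.ofReal_le_ofReal
    apply le_of_eq
    ring

end Pool.Agent.P07318s
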