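import Pool.Agent.Lib.P07318s.Defs
import Pool.Agent.Lib.P07318s.R1
import Pool.Agent.Lib.P07318s.SupMM

/-!
Assembly over the separated pieces (compare `r1` in R1.lean; use its `point_bound`, `cs_tsum`): for `x ∈ S`, `V ≤ V₀ ≤ U`:
`‖∫_0^V (∏Fd - Dg)‖ₑ ≤ ∑_l 2^|l| (‖MM_l(V)‖ₑ + (|l|/U) ∫⁻_{(0,V]} ‖MM_l(t)‖ₑ) ≤ ∑_l 2^|l| (1 + |l|) B_l(x) =: B(x)`.
Cauchy-Schwarz with weights `4^(-|l|)`: `B² ≤ (∑_l 4^(-|l|)) ∑_l 16^|l| (1+|l|)² B_l²`, integrate: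
`≤ c ∑_l 16^|l| (1+|l|)² C₀^(2k) 16^(-2|l|) K ≤ c' C₀^(2k) K`.
-/

set_option autoImplicit false

namespace Pool.Agent.P07318s

open MeasureTheory Complex
open scoped ENNReal

theorem sum_quarter_ne_top (k : ℕ) :
    (∑' l : Fin k → ℕ, ENNReal.ofReal ((1 / 4) ^ (∑ j, l j))) ≠ ⊤ := by
  have hsm : Summable (fun l : Fin k → ℕ => ∏ j, (1 / 4 : ℝ) ^ (l j)) :=
    summable_pi_prod_real (k := k) (fun _ i => (1 / 4 : ℝ) ^ i)
      (fun _ => summable_geometric_of_lt_one (by norm_num) (by norm_num)) (fun _ i => by positivity)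
  have : (∑' l : Fin k → ℕ, ENNReal.ofReal ((1 / 4) ^ (∑ j, l j))) =
      ENNReal.ofReal (∑' l : Fin k → ℕ, ∏ j, (1 / 4 : ℝ) ^ (l j)) := by
    rw [ENNReal.ofReal_tsum_of_nonneg (fun l => Finset.prod_nonneg fun _ _ => by positivity) hsm]
    simp only [Finset.prod_pow_eq_pow_sum]
  rw [this]
  exact ENNReal.ofReal_ne_top

theorem supR_num (k m : ℕ) {C₀ K : ℝ} (hC : 0 ≤ C₀) (hK : 0 ≤ K) :
    (4 ^ m * (1 + (m : ℝ))) ^ 2 * ((C₀ ^ k / 16 ^ m) ^ 2 * K) ≤ C₀ ^ (2 * k) * K * (1 / 4) ^ m := by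
  have h1 : (1 : ℝ) + m ≤ 2 ^ m := by
    have : m + 1 ≤ 2 ^ m := Nat.lt_two_pow_self
    have h : ((m + 1 : ℕ) : ℝ) ≤ ((2 ^ m : ℕ) : ℝ) := by exact_mod_cast this
    push_cast at h
    linarith
  have h4 : ((2 : ℝ) ^ m) ^ 2 = 4 ^ m := by rw [← pow_mul, mul_comm, pow_mul]; norm_num
  have h16 : (16 : ℝ) ^ m = 4 ^ m * 4 ^ m := by rw [← mul_pow]; norm_num
  have h2 : (1 + (m : ℝ)) ^ 2 ≤ 4 ^ m := by
    rw [← h4]; exact pow_le_pow_left₀ (by positivity) h1 2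
  have hc : (C₀ ^ k) ^ 2 = C₀ ^ (2 * k) := by rw [← pow_mul, mul_comm]
  have e : (4 ^ m * (1 + (m : ℝ))) ^ 2 * ((C₀ ^ k / 16 ^ m) ^ 2 * K) =
      C₀ ^ (2 * k) * K * ((1 + (m : ℝ)) ^ 2 / (4 ^ m * 4 ^ m)) := by
    rw [div_pow, hc, h16]
    field_simp
  rw [e]
  refine mul_le_mul_of_nonneg_left ?_ (by positivity)
  rw [one_div, inv_pow, div_le_iff₀ (by positivity)]
  have : ((4 : ℝ) ^ m)⁻¹ * (4 ^ m * 4 ^ m) = 4 ^ m := by field_simp
  rw [this]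
  exact h2

theorem sup_R (k : ℕ) : ∃ c : ℝ, 0 < c ∧ ∀ {X : Type} [MeasurableSpace X] (μ : Measure X) [SFinite μ] {δ U C₀ : ℝ},
    0 < δ → δ ≤ 1 / 2 → 1 ≤ U → 0 ≤ C₀ → ∀ {a : ℕ → ℝ → ℝ}, IsSep δ U C₀ a → ∀ (A : X → Fin k → ℝ) (S : Set X)
    {V₀ K : ℝ}, 0 < V₀ → V₀ ≤ U → 0 ≤ K → (∀ x ∈ S, ∀ j, U ≤ A x j) → (∀ x ∈ S, ∀ j, A x j + V₀ ≤ 4 * U) →
    (∀ l : Fin k → ℕ, ∃ B : X → ENNReal, Measurable B ∧
      (∀ x, ∀ V ∈ Set.Icc (0:ℝ) V₀, ‖MM (za a l) V (A x)‖ₑ ≤ B x) ∧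
      ∫⁻ x, B x ^ 2 ∂μ ≤ ENNReal.ofReal ((∏ j, C₀ / 16 ^ (l j)) ^ 2 * K)) →
    ∃ B : X → ENNReal, Measurable B ∧
      (∀ x ∈ S, ∀ V ∈ Set.Icc (0:ℝ) V₀,
        ‖∫ t in (0:ℝ)..V, ((∏ j, Fd (t + A x j)) - Dg (fun j => t + A x j))‖ₑ ≤ B x) ∧
      ∫⁻ x, B x ^ 2 ∂μ ≤ ENNReal.ofReal (c * C₀ ^ (2 * k) * K) := by
  set Z : ℝ≥0∞ := ∑' l : Fin k → ℕ, ENNReal.ofReal ((1 / 4) ^ (∑ j, l j)) with hZ
  have hZf : Z ≠ ⊤ := sum_quarter_ne_top k
  refine ⟨Z.toReal ^ 2 + 1, by positivity, ?_⟩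
  intro X _ μ _ δ U C₀ hδ hδ2 hU hC₀ a ha A S V₀ K hV₀ hV₀U hK h1 h2 hB
  choose Bl hBm hBb hBi using hB
  have hU0 : 0 < U := by linarith
  refine ⟨fun x => ∑' l : Fin k → ℕ,
    ENNReal.ofReal (2 ^ (∑ j, l j) * (1 + ((∑ j, l j : ℕ) : ℝ))) * Bl l x, ?_, ?_, ?_⟩
  · exact Measurable.ennreal_tsum fun l => (hBm l).const_mul _
  · intro x hx V hV
    refine (point_bound hδ hδ2 hU hC₀ ha hV.1 (A x) (h1 x hx)
      (fun j => (by linarith [h2 x hx j, hV.2] : A x j + V ≤ 4 * U))).trans ?_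
    refine ENNReal.tsum_le_tsum fun l => ?_
    rw [ENNReal.ofReal_mul (by positivity), mul_assoc]
    refine mul_le_mul_right ?_ _
    rw [ENNReal.ofReal_add zero_le_one (by positivity), ENNReal.ofReal_one, add_mul, one_mul]
    refine add_le_add (hBb l x V hV) ?_
    have hint : ∫⁻ t in Set.Ioc 0 V, ‖MM (za a l) t (A x)‖ₑ ≤ ENNReal.ofReal V * Bl l x := by
      calc ∫⁻ t in Set.Ioc 0 V, ‖MM (za a l) t (A x)‖ₑ
          ≤ ∫⁻ _t in Set.Ioc 0 V, Bl l x := by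
            refine setLIntegral_mono measurable_const fun t ht => ?_
            exact hBb l x t ⟨ht.1.le, ht.2.trans hV.2⟩
        _ = ENNReal.ofReal V * Bl l x := by
            rw [setLIntegral_const, Real.volume_Ioc, sub_zero, mul_comm]
    refine (mul_le_mul_right hint _).trans ?_
    rw [← mul_assoc, ← ENNReal.ofReal_mul (by positivity)]
    refine mul_le_mul_left (ENNReal.ofReal_le_ofReal ?_) _
    have e : ((∑ j, l j : ℕ) : ℝ) / U * V = ((∑ j, l j : ℕ) : ℝ) * (V / U) := by ring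
    rw [e]
    exact mul_le_of_le_one_right (by positivity) ((div_le_one hU0).2 (hV.2.trans hV₀U))
  · have hpt : ∀ x, (∑' l : Fin k → ℕ,
        ENNReal.ofReal (2 ^ (∑ j, l j) * (1 + ((∑ j, l j : ℕ) : ℝ))) * Bl l x) ^ 2 ≤
        Z * ∑' l : Fin k → ℕ,
          ENNReal.ofReal ((4 ^ (∑ j, l j) * (1 + ((∑ j, l j : ℕ) : ℝ))) ^ 2) * Bl l x ^ 2 := by
      intro x
      have e1 : ∀ l : Fin k → ℕ,
          ENNReal.ofReal (2 ^ (∑ j, l j) * (1 + ((∑ j, l j : ℕ) : ℝ))) * Bl l x =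
          ENNReal.ofReal ((1 / 2) ^ (∑ j, l j)) *
            (ENNReal.ofReal (4 ^ (∑ j, l j) * (1 + ((∑ j, l j : ℕ) : ℝ))) * Bl l x) := by
        intro l
        rw [← mul_assoc, ← ENNReal.ofReal_mul (by positivity)]
        congr 2
        rw [← mul_assoc, ← mul_pow]
        norm_num
      simp only [e1]
      refine (cs_tsum _ _).trans ?_
      refine mul_le_mul' (le_of_eq ?_) (ENNReal.tsum_le_tsum fun l => le_of_eq ?_)
      · rw [hZ]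
        refine tsum_congr fun l => ?_
        rw [← ENNReal.ofReal_pow (by positivity), ← pow_mul, mul_comm, pow_mul]
        norm_num
      · rw [mul_pow, ← ENNReal.ofReal_pow (by positivity)]
    calc ∫⁻ x, (∑' l : Fin k → ℕ,
          ENNReal.ofReal (2 ^ (∑ j, l j) * (1 + ((∑ j, l j : ℕ) : ℝ))) * Bl l x) ^ 2 ∂μ
        ≤ ∫⁻ x, Z * ∑' l : Fin k → ℕ,
          ENNReal.ofReal ((4 ^ (∑ j, l j) * (1 + ((∑ j, l j : ℕ) : ℝ))) ^ 2) * Bl l x ^ 2 ∂μ :=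
          lintegral_mono hpt
      _ = Z * ∑' l : Fin k → ℕ,
          ENNReal.ofReal ((4 ^ (∑ j, l j) * (1 + ((∑ j, l j : ℕ) : ℝ))) ^ 2) *
            ∫⁻ x, Bl l x ^ 2 ∂μ := by
          rw [lintegral_const_mul' _ _ hZf, lintegral_tsum fun l =>
            (((hBm l).pow_const 2).const_mul _).aemeasurable]
          congr 1
          refine tsum_congr fun l => ?_
          rw [lintegral_const_mul' _ _ ENNReal.ofReal_ne_top]
      _ ≤ Z * ∑' l : Fin k → ℕ,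
          ENNReal.ofReal (C₀ ^ (2 * k) * K) * ENNReal.ofReal ((1 / 4) ^ (∑ j, l j)) := by
          refine mul_le_mul_right (ENNReal.tsum_le_tsum fun l => ?_) _
          refine (mul_le_mul_right (hBi l) _).trans ?_
          rw [← ENNReal.ofReal_mul (by positivity), ← ENNReal.ofReal_mul (by positivity)]
          apply ENNReal.ofReal_le_ofReal
          have hp : ∏ j, C₀ / 16 ^ (l j) = C₀ ^ k / 16 ^ (∑ j, l j) := by
            simp only [Finset.prod_div_distrib, Finset.prod_const, Finset.card_univ,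
              Fintype.card_fin, Finset.prod_pow_eq_pow_sum]
          rw [hp]
          exact supR_num k (∑ j, l j) hC₀ hK
      _ = ENNReal.ofReal (Z.toReal ^ 2 * (C₀ ^ (2 * k) * K)) := by
          rw [ENNReal.tsum_mul_left, ← hZ]
          nth_rewrite 1 [← ENNReal.ofReal_toReal hZf]
          nth_rewrite 2 [← ENNReal.ofReal_toReal hZf]
          rw [← ENNReal.ofReal_mul (by positivity), ← ENNReal.ofReal_mul (by positivity)]
          congr 1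
          ring
      _ ≤ _ := by
          apply ENNReal.ofReal_le_ofReal
          have : 0 ≤ C₀ ^ (2 * k) * K := by positivity
          nlinarith

end Pool.Agent.P07318s
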