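import Pool.Agent.Lib.P07318s.Defs
import Pool.Agent.Lib.P07318s.Sep
import Pool.Agent.Lib.P07318s.MeanM
import Pool.Agent.Lib.P07318s.MeanV
import Pool.Agent.Lib.P07318s.SupMM
import Pool.Agent.Lib.P07318s.SupR

/-!
`α₀` fixed, box in the other `n` shifts, all `V ≤ U`. Take `a` from `exists_sep`, `X = Fin n → ℝ`, `μ = volume.restrict box`,
`A α = Fin.cons α₀ α`, `V₀ = U`, `M` with `U ≤ 2^M ≤ 2U`, `K_l = C (∏ C₀/16^(l_j))² U^((n+1)(1+3δ))`. Hypotheses of `sup_MM`: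
`h1` by `mean_MM` for each `v ≤ U` (swap the integrals, `lintegral_lintegral_swap`), `h2` by `mean_v` with `L = U/2^(m+1)`
(and `≤ (U/2^m) K`), `h3` by `mean_v0` (`2^M/U ≥ 1`). Then `sup_R` (with `K := (M+2)² C U^(..)`), and
`(M+2)² ≤ C U^((n+1)δ)`, as `M ≤ 1 + log U / log 2`.
The box of `sup_R`: `S = box`, on it `U ≤ A` and `A + U ≤ 4U` (`α₀ ≤ 3U`, `β_j + H ≤ 3U`).
-/

set_option autoImplicit false

namespace Pool.Agent.P07318s

open MeasureTheory Complex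

namespace SupVAux

theorem pow_near {U : ℝ} (hU : 1 ≤ U) : ∃ M : ℕ, U ≤ 2 ^ M ∧ (M : ℝ) ≤ 1 + Real.log U / Real.log 2 := by
  obtain ⟨m, h1, h2⟩ := exists_nat_pow_near hU (one_lt_two)
  refine ⟨m + 1, h2.le, ?_⟩
  have hl2 : 0 < Real.log 2 := Real.log_pos one_lt_two
  have h3 : (m : ℝ) * Real.log 2 ≤ Real.log U := by
    rw [← Real.log_pow]
    exact Real.log_le_log (by positivity) h1
  push_cast
  rw [add_comm]
  have : (m : ℝ) ≤ Real.log U / Real.log 2 := by rwa [le_div_iff₀ hl2]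
  linarith

theorem sq_le {U δ : ℝ} (hU : 1 ≤ U) (hδ : 0 < δ) (n : ℕ) {M : ℕ} (hM : (M : ℝ) ≤ 1 + Real.log U / Real.log 2) :
    ((M : ℝ) + 2) ^ 2 ≤ (3 + 2 / (δ * Real.log 2)) ^ 2 * U ^ (((n : ℝ) + 1) * δ) := by
  have hl2 : 0 < Real.log 2 := Real.log_pos one_lt_two
  have hU0 : 0 < U := by linarith
  have h1 : Real.log U ≤ U ^ (δ / 2) / (δ / 2) := Real.log_le_rpow_div hU0.le (by linarith)
  have h2 : 1 ≤ U ^ (δ / 2) := Real.one_le_rpow hU (by linarith)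
  have h3 : Real.log U / Real.log 2 ≤ 2 / (δ * Real.log 2) * U ^ (δ / 2) := by
    rw [div_le_iff₀ hl2]
    refine h1.trans (le_of_eq ?_)
    field_simp
  have h4 : (M : ℝ) + 2 ≤ (3 + 2 / (δ * Real.log 2)) * U ^ (δ / 2) := by
    nlinarith
  have h5 : (U ^ (δ / 2)) ^ 2 ≤ U ^ (((n : ℝ) + 1) * δ) := by
    rw [← Real.rpow_natCast, ← Real.rpow_mul hU0.le]
    refine Real.rpow_le_rpow_of_exponent_le hU ?_
    push_cast
    have : 0 ≤ (n : ℝ) * δ := by positivity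
    nlinarith
  calc ((M : ℝ) + 2) ^ 2 ≤ ((3 + 2 / (δ * Real.log 2)) * U ^ (δ / 2)) ^ 2 :=
        pow_le_pow_left₀ (by positivity) h4 2
    _ = (3 + 2 / (δ * Real.log 2)) ^ 2 * (U ^ (δ / 2)) ^ 2 := by ring
    _ ≤ _ := mul_le_mul_of_nonneg_left h5 (by positivity)

theorem cont_shift_cons {n : ℕ} (α₀ : ℝ) : Continuous fun p : (Fin n → ℝ) × ℝ =>
    (fun j => p.2 + (Fin.cons α₀ p.1 : Fin (n + 1) → ℝ) j) := by
  refine continuous_pi fun j => ?_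
  refine Continuous.add continuous_snd ?_
  exact (continuous_apply j).comp ((continuous_cons α₀).comp continuous_fst)

theorem meas2 {n : ℕ} {δ U : ℝ} (hδ : 0 < δ) (hδ2 : δ ≤ 1 / 2) (hU : 1 ≤ U)
    (z : Fin (n + 1) → Q → ℝ) (s : Fin (n + 1) → ℝ) (hz : ∀ j q, |z j q| ≤ s j * ww δ U q) (α₀ L : ℝ) :
    Measurable fun p : (Fin n → ℝ) × ℝ =>
      ‖MM z L (fun j => p.2 + (Fin.cons α₀ p.1 : Fin (n + 1) → ℝ) j)‖ₑ ^ 2 := by
  have hc : Continuous fun p : (Fin n → ℝ) × ℝ =>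
      ((L, (fun j => p.2 + (Fin.cons α₀ p.1 : Fin (n + 1) → ℝ) j)) : ℝ × (Fin (n + 1) → ℝ)) :=
    continuous_const.prodMk (cont_shift_cons α₀)
  have h := ((MM_continuous hδ hδ2 hU z s hz).comp hc).enorm.measurable.pow_const 2
  exact h

theorem meas3 {n : ℕ} {δ U : ℝ} (hδ : 0 < δ) (hδ2 : δ ≤ 1 / 2) (hU : 1 ≤ U)
    (z : Fin (n + 1) → Q → ℝ) (s : Fin (n + 1) → ℝ) (hz : ∀ j q, |z j q| ≤ s j * ww δ U q) (α₀ : ℝ) :
    Measurable fun p : (Fin n → ℝ) × ℝ =>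
      ‖NN z (fun j => p.2 + (Fin.cons α₀ p.1 : Fin (n + 1) → ℝ) j)‖ₑ ^ 2 := by
  have h := ((NN_continuous hδ hδ2 hU z s hz).comp (cont_shift_cons (n := n) α₀)).enorm.measurable.pow_const 2
  exact h

end SupVAux

open SupVAux

theorem sup_v (n : ℕ) (δ : ℝ) (hδ : 0 < δ) (hδ2 : δ ≤ 1 / 2) : ∃ C : ℝ, 0 < C ∧ ∀ U H : ℝ, 1 ≤ U →
    0 ≤ H → H ≤ U → ∀ α₀ : ℝ, U ≤ α₀ → α₀ ≤ 3 * U → ∀ β : Fin n → ℝ, (∀ j, U ≤ β j) → (∀ j, β j ≤ 2 * U) →
    ∃ B : (Fin n → ℝ) → ENNReal, Measurable B ∧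
      (∀ α ∈ Set.Icc β (fun j => β j + H), ∀ V ∈ Set.Icc (0:ℝ) U,
        ‖∫ t in (0:ℝ)..V, ((∏ j, Fd (t + (Fin.cons α₀ α : Fin (n + 1) → ℝ) j)) -
          Dg (fun j => t + (Fin.cons α₀ α : Fin (n + 1) → ℝ) j))‖ₑ ≤ B α) ∧
      ∫⁻ α in Set.Icc β (fun j => β j + H), B α ^ 2 ≤
        ENNReal.ofReal (C * U ^ (((n : ℝ) + 1) * (1 + 4 * δ))) := by
  obtain ⟨C₀, hC₀, hsep⟩ := exists_sep δ hδ hδ2
  obtain ⟨C1, hC1, hm1⟩ := mean_MM n δ hδ hδ2
  obtain ⟨C2, hC2, hm2⟩ := mean_v n δ hδ hδ2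
  obtain ⟨C3, hC3, hm3⟩ := mean_v0 n δ hδ hδ2
  obtain ⟨c, hc, hR⟩ := sup_R (n + 1)
  set Cc : ℝ := C1 + C2 + C3 with hCc
  set D : ℝ := (3 + 2 / (δ * Real.log 2)) ^ 2 with hD
  have hl2 : 0 < Real.log 2 := Real.log_pos one_lt_two
  have hD0 : 0 < D := by positivity
  refine ⟨c * C₀ ^ (2 * (n + 1)) * (Cc * D), by positivity, ?_⟩
  intro U H hU hH hHU α₀ hα1 hα2 β hβ1 hβ2
  have hU0 : 0 < U := by linarith
  obtain ⟨a, ha⟩ := hsep U hU
  obtain ⟨M, hM1, hM2⟩ := pow_near hU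
  set X := U ^ (((n : ℝ) + 1) * (1 + 3 * δ)) with hX
  have hX0 : 0 ≤ X := by positivity
  have hz : ∀ (l : Fin (n + 1) → ℕ) (j : Fin (n + 1)) (q : Q),
      |za a l j q| ≤ (fun j => C₀ / 16 ^ (l j)) j * ww δ U q := fun l j q => za_le ha l j q
  have hA : Measurable (fun α : Fin n → ℝ => (Fin.cons α₀ α : Fin (n + 1) → ℝ)) :=
    (continuous_cons α₀).measurable
  have hl : ∀ l : Fin (n + 1) → ℕ, ∃ B : (Fin n → ℝ) → ENNReal, Measurable B ∧
      (∀ x, ∀ V ∈ Set.Icc (0:ℝ) U, ‖MM (za a l) V ((Fin.cons α₀ x : Fin (n + 1) → ℝ))‖ₑ ≤ B x) ∧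
      ∫⁻ x, B x ^ 2 ∂(volume.restrict (Set.Icc β (fun j => β j + H))) ≤
        ENNReal.ofReal ((∏ j, C₀ / 16 ^ (l j)) ^ 2 * (((M : ℝ) + 2) ^ 2 * (Cc * X))) := by
    intro l
    set P : ℝ := ∏ j, C₀ / 16 ^ (l j) with hP
    have hP0 : 0 ≤ P := Finset.prod_nonneg fun j _ => by positivity
    have hmeas1 := measurable_enorm_MM hδ hδ2 hU (za a l) _ (hz l) α₀
    have hmeas2 := meas2 hδ hδ2 hU (za a l) _ (hz l) α₀
    have hmeas3 := meas3 hδ hδ2 hU (za a l) _ (hz l) α₀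
    have hK : ENNReal.ofReal (((M : ℝ) + 2) ^ 2 * (Cc * P ^ 2 * X)) =
        ENNReal.ofReal (P ^ 2 * (((M : ℝ) + 2) ^ 2 * (Cc * X))) := by
      congr 1
      ring
    rw [← hK]
    refine sup_MM (volume.restrict (Set.Icc β (fun j => β j + H))) hδ hδ2 hU (za a l) _ (hz l)
      (fun α : Fin n → ℝ => (Fin.cons α₀ α : Fin (n + 1) → ℝ)) hA (V₀ := U) (K := Cc * P ^ 2 * X) hU0
      (by positivity) M ?_ ?_ ?_
    · rw [lintegral_lintegral_swap]
      · calc ∫⁻ v in Set.Icc (0:ℝ) U, ∫⁻ α in Set.Icc β (fun j => β j + H),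
            ‖MM (za a l) v (Fin.cons α₀ α : Fin (n + 1) → ℝ)‖ₑ ^ 2
            ≤ ∫⁻ v in Set.Icc (0:ℝ) U, ENNReal.ofReal (Cc * P ^ 2 * X) := by
              refine setLIntegral_mono measurable_const fun v hv => ?_
              refine (hm1 U v H hU hv.1 hv.2 hH hHU (za a l) _ (fun j => by positivity) (hz l) α₀ β).trans ?_
              refine ENNReal.ofReal_le_ofReal ?_
              have : 0 ≤ P ^ 2 * X := by positivity
              have h : (C1 : ℝ) ≤ Cc := by rw [hCc]; linarith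
              calc C1 * (∏ j, C₀ / 16 ^ (l j)) ^ 2 * X = C1 * (P ^ 2 * X) := by rw [hP]; ring
                _ ≤ Cc * (P ^ 2 * X) := mul_le_mul_of_nonneg_right h this
                _ = _ := by ring
          _ = ENNReal.ofReal (U * (Cc * P ^ 2 * X)) := by
              rw [setLIntegral_const, Real.volume_Icc, sub_zero, ← ENNReal.ofReal_mul (by positivity)]
              congr 1
              ring
      · exact hmeas1.aemeasurable
    · intro m hm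
      rw [lintegral_lintegral_swap]
      · refine (hm2 U (U / 2 ^ (m + 1)) H hU (by positivity) (div_le_self hU0.le (one_le_pow₀ one_le_two))
          hH hHU (za a l) _ (fun j => by positivity) (hz l) α₀ β).trans ?_
        refine ENNReal.ofReal_le_ofReal ?_
        have h0 : 0 ≤ P ^ 2 * X * (U / 2 ^ (m + 1)) := by positivity
        have h : (C2 : ℝ) ≤ Cc := by rw [hCc]; linarith
        have h1 : U / 2 ^ (m + 1) ≤ U / 2 ^ m :=
          div_le_div_of_nonneg_left hU0.le (by positivity) (pow_le_pow_right₀ one_le_two (Nat.le_succ m))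
        calc C2 * (∏ j, C₀ / 16 ^ (l j)) ^ 2 * (U / 2 ^ (m + 1)) * X
            = C2 * (P ^ 2 * X * (U / 2 ^ (m + 1))) := by rw [hP]; ring
          _ ≤ Cc * (P ^ 2 * X * (U / 2 ^ (m + 1))) := mul_le_mul_of_nonneg_right h h0
          _ = (Cc * P ^ 2 * X) * (U / 2 ^ (m + 1)) := by ring
          _ ≤ (Cc * P ^ 2 * X) * (U / 2 ^ m) := mul_le_mul_of_nonneg_left h1 (by positivity)
          _ = _ := by ring
      · exact (hmeas2 (U / 2 ^ (m + 1))).aemeasurable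
    · rw [lintegral_lintegral_swap]
      · refine (hm3 U H hU hH hHU (za a l) _ (fun j => by positivity) (hz l) α₀ β).trans ?_
        refine ENNReal.ofReal_le_ofReal ?_
        have h0 : 0 ≤ P ^ 2 * X := by positivity
        have h : (C3 : ℝ) ≤ Cc := by rw [hCc]; linarith
        have h1 : 1 ≤ 2 ^ M / U := by rwa [le_div_iff₀ hU0, one_mul]
        calc C3 * (∏ j, C₀ / 16 ^ (l j)) ^ 2 * X
            = C3 * (P ^ 2 * X) := by rw [hP]; ring
          _ ≤ Cc * (P ^ 2 * X) := mul_le_mul_of_nonneg_right h h0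
          _ = 1 * (Cc * P ^ 2 * X) := by ring
          _ ≤ 2 ^ M / U * (Cc * P ^ 2 * X) := mul_le_mul_of_nonneg_right h1 (by positivity)
      · exact hmeas3.aemeasurable
  have hS1 : ∀ x ∈ Set.Icc β (fun j => β j + H), ∀ j, U ≤ (Fin.cons α₀ x : Fin (n + 1) → ℝ) j := by
    intro α hα
    refine Fin.cases ?_ fun i => ?_
    · simpa using hα1
    · simpa using (hβ1 i).trans (hα.1 i)
  have hS2 : ∀ x ∈ Set.Icc β (fun j => β j + H), ∀ j, (Fin.cons α₀ x : Fin (n + 1) → ℝ) j + U ≤ 4 * U := by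
    intro α hα
    refine Fin.cases ?_ fun i => ?_
    · simp only [Fin.cons_zero]
      linarith
    · simp only [Fin.cons_succ]
      have := hα.2 i
      simp only at this
      linarith [hβ2 i]
  obtain ⟨B, hB1, hB2, hB3⟩ := hR (volume.restrict (Set.Icc β (fun j => β j + H))) hδ hδ2 hU hC₀.le ha
    (fun α : Fin n → ℝ => (Fin.cons α₀ α : Fin (n + 1) → ℝ)) (Set.Icc β (fun j => β j + H))
    (V₀ := U) (K := ((M : ℝ) + 2) ^ 2 * (Cc * X)) hU0 le_rfl (by positivity) hS1 hS2 hl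
  · refine ⟨B, hB1, hB2, hB3.trans (ENNReal.ofReal_le_ofReal ?_)⟩
    have h1 := sq_le hU hδ n hM2
    have h2 : X * U ^ (((n : ℝ) + 1) * δ) = U ^ (((n : ℝ) + 1) * (1 + 4 * δ)) := by
      rw [hX, ← Real.rpow_add hU0]
      congr 1
      ring
    rw [← h2]
    calc c * C₀ ^ (2 * (n + 1)) * (((M : ℝ) + 2) ^ 2 * (Cc * X))
        ≤ c * C₀ ^ (2 * (n + 1)) * ((D * U ^ (((n : ℝ) + 1) * δ)) * (Cc * X)) := by
          refine mul_le_mul_of_nonneg_left ?_ (by positivity)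
          exact mul_le_mul_of_nonneg_right h1 (by positivity)
      _ = _ := by ring

end Pool.Agent.P07318s
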