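import Pool.Agent.Lib.P07318s.Defs
import Pool.Agent.Lib.P07318s.SupV
import Pool.Agent.Lib.P07318s.E1V
import Pool.Agent.Lib.P07318s.Cont
import Pool.Agent.Lib.P07318s.FinalDiag
import Pool.Agent.Lib.P07318s.Final

/-!
Final assembly, `α₀` fixed, all windows `[0, V]`, `V ≤ T`, at once (compare FinalDiag.lean and Final.lean: `FD.*`, `FinalAux.pair_bound`).
For `α` in the box and all `V ∈ [0, T]`: `‖∫_0^V (∏‖ζ‖² - mainTerm)‖ ≤ B₁(α) + B₂(α) + ∫_0^V ‖Dg - mainTerm‖` with `B₁` from `e1_v` (`ε/2`), `B₂` from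
`sup_v` (small `δ`), and the last term is `≤ C T^(1/2+ε)` off the bad set of differences (`main_point`, `zeta_good`, `pair_bound`).
Markov for `B₁` at level `T^(1/2+ε)`, Chebyshev for `B₂` at level `T^(1/2+ε) (T/H)^(n/2)` (`mul_meas_ge_le_lintegral`, `B` measurable).
-/

set_option autoImplicit false

namespace Pool.Agent.P07318s

open MeasureTheory Complex

namespace FVaux

theorem markovE1 {X : Type*} [MeasurableSpace X] {μ : Measure X} {B : X → ENNReal}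
    (hB : Measurable B) {a K : ℝ} (ha : 0 < a) (h : ∫⁻ x, B x ∂μ ≤ ENNReal.ofReal K) :
    μ {x | ENNReal.ofReal a < B x} ≤ ENNReal.ofReal (K / a) := by
  have h1 : μ {x | ENNReal.ofReal a < B x} ≤ μ {x | ENNReal.ofReal a ≤ B x} :=
    measure_mono fun x (hx : ENNReal.ofReal a < B x) => (le_of_lt hx : ENNReal.ofReal a ≤ B x)
  refine h1.trans ?_
  refine (meas_ge_le_lintegral_div hB.aemeasurable (by simpa using ha)
    ENNReal.ofReal_ne_top).trans ?_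
  rw [ENNReal.ofReal_div_of_pos ha]
  exact ENNReal.div_le_div_right h _

theorem markovE2 {X : Type*} [MeasurableSpace X] {μ : Measure X} {B : X → ENNReal}
    (hB : Measurable B) {a K : ℝ} (ha : 0 < a) (h : ∫⁻ x, B x ^ 2 ∂μ ≤ ENNReal.ofReal K) :
    μ {x | ENNReal.ofReal a < B x} ≤ ENNReal.ofReal (K / a ^ 2) := by
  have h1 : μ {x | ENNReal.ofReal a < B x} ≤ μ {x | ENNReal.ofReal (a ^ 2) < B x ^ 2} := by
    refine measure_mono fun x hx => ?_
    simp only [Set.mem_ofPred_eq] at hx ⊢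
    rw [ENNReal.ofReal_pow ha.le]
    exact ENNReal.pow_lt_pow_left (by norm_num) hx
  refine h1.trans (markovE1 (hB.pow_const 2) (by positivity) h)

theorem norm_le_of {z : ℂ} {b : ENNReal} {A : ℝ} (hA : 0 ≤ A) (h : ‖z‖ₑ ≤ b)
    (hb : ¬ ENNReal.ofReal A < b) : ‖z‖ ≤ A := by
  rw [not_lt] at hb
  have h1 := h.trans hb
  rw [← ofReal_norm] at h1
  exact (ENNReal.ofReal_le_ofReal_iff hA).1 h1

/-- the estimate for a fixed good shift vector -/
theorem point {k : ℕ} {ε κ B C2 : ℝ}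
    (hMP : ∀ (U : ℝ) (x : Fin k → ℝ), 1 ≤ U → (∀ j, U ≤ x j) → (∀ j, x j ≤ 4 * U) →
      (∀ i j, i ≠ j → Good κ (U ^ κ) (B * U ^ κ) (x i - x j)) →
      ‖Dg x - mainTerm x‖ ≤ C2 * U ^ (-(1 / 2) + ε)) {T : ℝ} (hT : 1 ≤ T) (hκ : 0 < κ)
    {a : Fin k → ℝ} (ha1 : ∀ j, T ≤ a j) (ha2 : ∀ j, a j ≤ 3 * T)
    (hgood : ∀ i j, i ≠ j → Good κ (T ^ κ) (B * T ^ κ) (a i - a j)) {V : ℝ} (hV : 0 ≤ V)
    (hVT : V ≤ T) :
    ‖∫ t in (0:ℝ)..V, (((∏ j, ‖riemannZeta (1 / 2 + ((t + a j : ℝ) : ℂ) * I)‖ ^ 2 : ℝ) : ℂ) -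
        mainTerm (fun j => t + a j))‖ ≤
      ‖∫ t in (0:ℝ)..V, (((∏ j, ‖riemannZeta (1 / 2 + ((t + a j : ℝ) : ℂ) * I)‖ ^ 2 : ℝ) : ℂ) -
        ∏ j, Fd (t + a j))‖ +
      ‖∫ t in (0:ℝ)..V, ((∏ j, Fd (t + a j)) - Dg (fun j => t + a j))‖ +
      C2 * T ^ (-(1 / 2) + ε) * V := by
  have hTκ : 1 ≤ T ^ κ := Real.one_le_rpow hT hκ.le
  have hmaps : ∀ t ∈ Set.uIcc 0 V, (∀ j, 0 < t + a j) ∧ (∀ j, T ≤ t + a j) ∧
      (∀ j, t + a j ≤ 4 * T) := by
    intro t ht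
    rw [Set.uIcc_of_le hV] at ht
    have h1 := ht.1
    have h2 := ht.2
    refine ⟨fun j => ?_, fun j => ?_, fun j => ?_⟩
    · have := ha1 j; linarith
    · have := ha1 j; linarith
    · have := ha2 j; linarith
  have hdiff : ∀ (t : ℝ) (i j : Fin k), (t + a i) - (t + a j) = a i - a j := by
    intro t i j; ring
  have hsep : ∀ i j, i ≠ j → 1 < |a i - a j| := by
    intro i j hij
    have := (hgood i j hij).1
    linarith
  have hct : Continuous (fun t : ℝ => (fun j => t + a j)) := by fun_prop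
  have hcontM : ContinuousOn (fun t : ℝ => mainTerm (fun j => t + a j)) (Set.uIcc 0 V) := by
    refine (mainTerm_continuousOn k).comp (f := fun t : ℝ => (fun j => t + a j))
      hct.continuousOn ?_
    intro t ht
    refine ⟨(hmaps t ht).1, fun i j hij => ?_⟩
    simp only
    rw [hdiff]
    exact hsep i j hij
  have hcontD : ContinuousOn (fun t : ℝ => Dg (fun j => t + a j)) (Set.uIcc 0 V) := by
    refine (Dg_continuousOn k).comp (f := fun t : ℝ => (fun j => t + a j))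
      hct.continuousOn ?_
    intro t ht
    exact (hmaps t ht).1
  have hcontP : ContinuousOn (fun t : ℝ => ∏ j, Fd (t + a j)) (Set.uIcc 0 V) := by
    refine (FD.PF_cont k).comp (f := fun t : ℝ => (fun j => t + a j)) hct.continuousOn ?_
    intro t ht
    exact (hmaps t ht).1
  have hcontZ : Continuous (fun t : ℝ => ((∏ j, ‖riemannZeta (1 / 2 +
        ((t + a j : ℝ) : ℂ) * I)‖ ^ 2 : ℝ) : ℂ)) :=
    (FD.ZZ_cont k).comp hct
  have hi1 : IntervalIntegrable (fun t : ℝ => ((∏ j, ‖riemannZeta (1 / 2 +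
        ((t + a j : ℝ) : ℂ) * I)‖ ^ 2 : ℝ) : ℂ) - ∏ j, Fd (t + a j)) volume 0 V :=
    (hcontZ.continuousOn.sub hcontP).intervalIntegrable
  have hi2 : IntervalIntegrable (fun t : ℝ => (∏ j, Fd (t + a j)) - Dg (fun j => t + a j))
      volume 0 V := (hcontP.sub hcontD).intervalIntegrable
  have hi3 : IntervalIntegrable (fun t : ℝ => Dg (fun j => t + a j) -
      mainTerm (fun j => t + a j)) volume 0 V := (hcontD.sub hcontM).intervalIntegrable
  have hsplit : ∫ t in (0:ℝ)..V, (((∏ j, ‖riemannZeta (1 / 2 +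
        ((t + a j : ℝ) : ℂ) * I)‖ ^ 2 : ℝ) : ℂ) - mainTerm (fun j => t + a j)) =
      (∫ t in (0:ℝ)..V, (((∏ j, ‖riemannZeta (1 / 2 +
        ((t + a j : ℝ) : ℂ) * I)‖ ^ 2 : ℝ) : ℂ) - ∏ j, Fd (t + a j))) +
      (∫ t in (0:ℝ)..V, ((∏ j, Fd (t + a j)) - Dg (fun j => t + a j))) +
      ∫ t in (0:ℝ)..V, (Dg (fun j => t + a j) - mainTerm (fun j => t + a j)) := by
    rw [← intervalIntegral.integral_add hi1 hi2, ← intervalIntegral.integral_add (hi1.add hi2) hi3]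
    refine intervalIntegral.integral_congr fun t _ => ?_
    ring
  have hb2 : ‖∫ t in (0:ℝ)..V, (Dg (fun j => t + a j) - mainTerm (fun j => t + a j))‖ ≤
      C2 * T ^ (-(1 / 2) + ε) * V := by
    have h1 := intervalIntegral.norm_integral_le_of_norm_le_const (a := 0) (b := V)
      (C := C2 * T ^ (-(1 / 2) + ε))
      (f := fun t : ℝ => Dg (fun j => t + a j) - mainTerm (fun j => t + a j)) (by
        intro t ht
        have ht' : t ∈ Set.uIcc 0 V := Set.uIoc_subset_uIcc ht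
        refine hMP T (fun j => t + a j) hT (hmaps t ht').2.1 (hmaps t ht').2.2 ?_
        intro i j hij
        rw [hdiff]
        exact hgood i j hij)
    rw [sub_zero, abs_of_nonneg hV] at h1
    exact h1
  rw [hsplit]
  refine (norm_add_le _ _).trans (add_le_add (norm_add_le _ _) hb2)

end FVaux

open FVaux in
theorem final_v (n : ℕ) (ε : ℝ) (hε : 0 < ε) : ∃ C η : ℝ, 0 < C ∧ 0 < η ∧ ∀ T H : ℝ, 1 ≤ T →
    T ^ (1 / 2 : ℝ) ≤ H → H ≤ T → ∀ α₀ : ℝ, T ≤ α₀ → α₀ ≤ 2 * T → ∀ β : Fin n → ℝ,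
    (∀ j, T ≤ β j) → (∀ j, β j ≤ 2 * T) →
    volume {α ∈ Set.Icc β (fun j => β j + H) | ∃ V ∈ Set.Icc (0:ℝ) T,
      C * T ^ (1 / 2 + ε) * (T / H) ^ ((n : ℝ) / 2) <
      ‖∫ t in (0:ℝ)..V, (((∏ j, ‖riemannZeta (1 / 2 +
          ((t + (Fin.cons α₀ α : Fin (n + 1) → ℝ) j : ℝ) : ℂ) * I)‖ ^ 2 : ℝ) : ℂ) -
        mainTerm (fun j => t + (Fin.cons α₀ α : Fin (n + 1) → ℝ) j))‖} ≤
      ENNReal.ofReal (C * H ^ n * T ^ (-η)) := by
  have hn : (0 : ℝ) < (n : ℝ) + 1 := by positivity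
  set δ : ℝ := min (1 / 2) (ε / (4 * ((n : ℝ) + 1))) with hδ_def
  have hδ : 0 < δ := lt_min (by norm_num) (by positivity)
  have hδ2 : δ ≤ 1 / 2 := min_le_left _ _
  have hδ3 : 4 * δ * ((n : ℝ) + 1) ≤ ε := by
    have h := min_le_right (1 / 2 : ℝ) (ε / (4 * ((n : ℝ) + 1)))
    rw [← hδ_def, le_div_iff₀ (by positivity)] at h
    linarith
  obtain ⟨κ, hκ, hκ4, hMP⟩ := main_point (n + 1) ε hε
  obtain ⟨B, C1, κ', hB, hC1, hκ', hZG⟩ := zeta_good κ hκ hκ4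
  obtain ⟨C2, hC2, hMP'⟩ := hMP B
  obtain ⟨D1, hD1, hE1⟩ := e1_v n (ε / 2) (by positivity)
  obtain ⟨D2, hD2, hS2⟩ := sup_v n δ hδ hδ2
  refine ⟨2 + C2 + D1 + D2 + ((n : ℝ) + 1) ^ 2 * C1, min (ε / 2) κ', by positivity,
    lt_min (by positivity) hκ', ?_⟩
  intro T H hT hTH hHT α₀ h0 h0' β hβ hβ'
  have hT0 : 0 < T := by linarith
  have hH0 : 0 < H := lt_of_lt_of_le (Real.rpow_pos_of_pos hT0 _) hTH
  obtain ⟨B₁, hB₁m, hB₁, hB₁i⟩ := hE1 T H hT hTH hHT α₀ h0 h0' β hβ hβ'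
  obtain ⟨B₂, hB₂m, hB₂, hB₂i⟩ := hS2 T H hT hH0.le hHT α₀ h0 (by linarith) β hβ hβ'
  set S : Set (Fin n → ℝ) := Set.Icc β (fun j => β j + H) with hS_def
  have hSm : MeasurableSet S := measurableSet_Icc
  set A : ℝ := T ^ (1 / 2 + ε) * (T / H) ^ ((n : ℝ) / 2) with hA
  have hTH1 : 1 ≤ T / H := (one_le_div hH0).2 hHT
  have hq : 1 ≤ (T / H) ^ ((n : ℝ) / 2) := Real.one_le_rpow hTH1 (by positivity)
  have hTe : 0 < T ^ (1 / 2 + ε) := Real.rpow_pos_of_pos hT0 _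
  have hA0 : 0 < A := by positivity
  have hAT : T ^ (1 / 2 + ε) ≤ A := by
    rw [hA]
    nlinarith
  set m : ℝ := min (ε / 2) κ' with hm_def
  have hT1 : ∀ κ'' : ℝ, m ≤ κ'' → T ^ (-κ'') ≤ T ^ (-m) := by
    intro κ'' h
    exact Real.rpow_le_rpow_of_exponent_le hT (by linarith)
  have hm0 : 0 ≤ T ^ (-m) := Real.rpow_nonneg hT0.le _
  have b₁ : (volume.restrict S) {α | ENNReal.ofReal A < B₁ α} ≤
      ENNReal.ofReal (D1 * H ^ n * T ^ (-m)) := by
    refine (markovE1 hB₁m hA0 hB₁i).trans ?_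
    apply ENNReal.ofReal_le_ofReal
    refine le_trans ?_ (mul_le_mul_of_nonneg_left (hT1 (ε / 2) (min_le_left _ _)) (by positivity))
    have e : T ^ (1 / 2 + ε / 2) = T ^ (-(ε / 2)) * T ^ (1 / 2 + ε) := by
      rw [← Real.rpow_add hT0]
      congr 1
      ring
    rw [div_le_iff₀ hA0, e]
    have h3 : 0 ≤ D1 * H ^ n * T ^ (-(ε / 2)) := by positivity
    nlinarith
  have b₂ : (volume.restrict S) {α | ENNReal.ofReal A < B₂ α} ≤
      ENNReal.ofReal (D2 * H ^ n * T ^ (-m)) := by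
    refine (markovE2 hB₂m hA0 hB₂i).trans ?_
    apply ENNReal.ofReal_le_ofReal
    refine le_trans ?_ (mul_le_mul_of_nonneg_left (hT1 (ε / 2) (min_le_left _ _)) (by positivity))
    have hA2 : A ^ 2 = T ^ (1 + 2 * ε + n) / H ^ n := by
      rw [hA, mul_pow, ← Real.rpow_natCast (T ^ (1 / 2 + ε)) 2, ← Real.rpow_mul hT0.le,
        ← Real.rpow_natCast ((T / H) ^ ((n : ℝ) / 2)) 2, ← Real.rpow_mul (by positivity)]
      have e1 : (n : ℝ) / 2 * ((2 : ℕ) : ℝ) = n := by push_cast; ring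
      have e2 : (1 / 2 + ε) * ((2 : ℕ) : ℝ) = 1 + 2 * ε := by push_cast; ring
      rw [e1, e2, Real.rpow_natCast, div_pow, Real.rpow_add hT0 (1 + 2 * ε), Real.rpow_natCast]
      ring
    rw [div_le_iff₀ (by positivity), hA2]
    have hHn : 0 < H ^ n := by positivity
    have e3 : D2 * H ^ n * T ^ (-(ε / 2)) * (T ^ (1 + 2 * ε + n) / H ^ n) =
        D2 * T ^ (-(ε / 2) + (1 + 2 * ε + n)) := by
      rw [Real.rpow_add hT0 (-(ε / 2))]
      field_simp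
    rw [e3]
    refine mul_le_mul_of_nonneg_left ?_ hD2.le
    apply Real.rpow_le_rpow_of_exponent_le hT
    nlinarith
  set P : Finset (Fin (n + 1) × Fin (n + 1)) := Finset.univ.filter (fun q => q.1 ≠ q.2) with hP
  set Sb : Fin (n + 1) × Fin (n + 1) → Set (Fin n → ℝ) := fun q =>
    {α ∈ Set.Icc β (fun j => β j + H) |
      ¬ Good κ (T ^ κ) (B * T ^ κ) ((Fin.cons α₀ α : Fin (n + 1) → ℝ) q.1 -
        (Fin.cons α₀ α : Fin (n + 1) → ℝ) q.2)} with hSb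
  have hsub : {α ∈ S | ∃ V ∈ Set.Icc (0:ℝ) T,
      (2 + C2 + D1 + D2 + ((n : ℝ) + 1) ^ 2 * C1) * T ^ (1 / 2 + ε) * (T / H) ^ ((n : ℝ) / 2) <
      ‖∫ t in (0:ℝ)..V, (((∏ j, ‖riemannZeta (1 / 2 +
          ((t + (Fin.cons α₀ α : Fin (n + 1) → ℝ) j : ℝ) : ℂ) * I)‖ ^ 2 : ℝ) : ℂ) -
        mainTerm (fun j => t + (Fin.cons α₀ α : Fin (n + 1) → ℝ) j))‖} ⊆
      (({α | ENNReal.ofReal A < B₁ α} ∪ {α | ENNReal.ofReal A < B₂ α}) ∩ S) ∪ ⋃ q ∈ P, Sb q := by
    rintro α ⟨hα, V, hV, hα'⟩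
    by_contra hcon
    rw [Set.mem_union, not_or] at hcon
    obtain ⟨hc1, hc2⟩ := hcon
    have hc3 : ¬ ENNReal.ofReal A < B₁ α := fun h => hc1 ⟨Or.inl h, hα⟩
    have hc4 : ¬ ENNReal.ofReal A < B₂ α := fun h => hc1 ⟨Or.inr h, hα⟩
    have hgood : ∀ i j, i ≠ j → Good κ (T ^ κ) (B * T ^ κ)
        ((Fin.cons α₀ α : Fin (n + 1) → ℝ) i - (Fin.cons α₀ α : Fin (n + 1) → ℝ) j) := by
      intro i j hij
      by_contra hg
      apply hc2
      rw [Set.mem_iUnion₂]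
      exact ⟨(i, j), Finset.mem_filter.2 ⟨Finset.mem_univ _, hij⟩, hα, hg⟩
    have ha1 : ∀ j, T ≤ (Fin.cons α₀ α : Fin (n + 1) → ℝ) j := by
      intro j
      refine Fin.cases ?_ (fun i => ?_) j
      · rw [Fin.cons_zero]; exact h0
      · rw [Fin.cons_succ]; exact (hβ i).trans (hα.1 i)
    have ha2 : ∀ j, (Fin.cons α₀ α : Fin (n + 1) → ℝ) j ≤ 3 * T := by
      intro j
      refine Fin.cases ?_ (fun i => ?_) j
      · rw [Fin.cons_zero]; linarith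
      · rw [Fin.cons_succ]
        have h1 := hα.2 i
        have h2 := hβ' i
        simp only at h1
        linarith
    have hpt := point hMP' hT hκ ha1 ha2 hgood hV.1 hV.2
    have h1 := norm_le_of hA0.le (hB₁ α hα V hV) hc3
    have h2 := norm_le_of hA0.le (hB₂ α hα V hV) hc4
    have h3 : C2 * T ^ (-(1 / 2) + ε) * V ≤ C2 * A := by
      rw [mul_assoc]
      apply mul_le_mul_of_nonneg_left _ hC2.le
      refine le_trans ?_ hAT
      have h4 : T ^ (-(1 / 2) + ε) * T = T ^ (1 / 2 + ε) := by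
        rw [← Real.rpow_add_one hT0.ne']
        congr 1
        ring
      rw [← h4]
      exact mul_le_mul_of_nonneg_left hV.2 (Real.rpow_nonneg hT0.le _)
    have h5 : (2 + C2) * A ≤
        (2 + C2 + D1 + D2 + ((n : ℝ) + 1) ^ 2 * C1) * T ^ (1 / 2 + ε) *
          (T / H) ^ ((n : ℝ) / 2) := by
      rw [mul_assoc _ (T ^ (1 / 2 + ε)), ← hA]
      apply mul_le_mul_of_nonneg_right _ hA0.le
      have : 0 ≤ D1 + D2 + ((n : ℝ) + 1) ^ 2 * C1 := by positivity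
      linarith
    linarith
  have hfin2 : ∀ q ∈ P, volume (Sb q) ≤ ENNReal.ofReal (C1 * H ^ n * T ^ (-m)) := by
    intro q hq
    have hne := (Finset.mem_filter.1 hq).2
    refine (FinalAux.pair_bound (κ' := κ') hT hH0.le hHT hC1.le (fun a ha ha' => ?_) h0 h0' hβ hβ'
      q.1 q.2 hne).trans ?_
    · exact hZG T a H hT hTH ha ha'
    · apply ENNReal.ofReal_le_ofReal
      exact mul_le_mul_of_nonneg_left (hT1 κ' (min_le_right _ _)) (by positivity)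
  have hPcard : (P.card : ℝ) ≤ ((n : ℝ) + 1) ^ 2 := by
    have h1 : P.card ≤ (n + 1) * (n + 1) := by
      refine (Finset.card_filter_le _ _).trans ?_
      simp
    have h2 : (P.card : ℝ) ≤ ((n + 1) * (n + 1) : ℕ) := by exact_mod_cast h1
    push_cast at h2
    linarith [h2]
  refine (measure_mono hsub).trans ?_
  refine (measure_union_le _ _).trans ?_
  have hf1 : volume (({α | ENNReal.ofReal A < B₁ α} ∪ {α | ENNReal.ofReal A < B₂ α}) ∩ S) ≤
      ENNReal.ofReal (D1 * H ^ n * T ^ (-m)) + ENNReal.ofReal (D2 * H ^ n * T ^ (-m)) := by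
    rw [← Measure.restrict_apply' hSm]
    exact (measure_union_le _ _).trans (add_le_add b₁ b₂)
  have hf2 : volume (⋃ q ∈ P, Sb q) ≤ ∑ q ∈ P, ENNReal.ofReal (C1 * H ^ n * T ^ (-m)) :=
    (measure_biUnion_finset_le _ _).trans (Finset.sum_le_sum hfin2)
  refine (add_le_add hf1 hf2).trans ?_
  rw [Finset.sum_const, nsmul_eq_mul, ← ENNReal.ofReal_natCast,
    ← ENNReal.ofReal_mul (by positivity : (0 : ℝ) ≤ (P.card : ℝ)),
    ← ENNReal.ofReal_add (by positivity) (by positivity),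
    ← ENNReal.ofReal_add (by positivity) (by positivity)]
  apply ENNReal.ofReal_le_ofReal
  have h1 : (P.card : ℝ) * (C1 * H ^ n * T ^ (-m)) ≤
      ((n : ℝ) + 1) ^ 2 * (C1 * H ^ n * T ^ (-m)) :=
    mul_le_mul_of_nonneg_right hPcard (by positivity)
  have h2 : 0 ≤ (2 + C2) * H ^ n * T ^ (-m) := by positivity
  nlinarith

end Pool.Agent.P07318s
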