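import Pool.Agent.Lib.P07318s.Defs
import Pool.Agent.Lib.P07318s.PiSum
import Pool.Agent.Lib.P07318s.Spaced
import Pool.Agent.Lib.P07318s.Outer
import Pool.Agent.Lib.P07318s.Count

/-!
Variants of `count` for a box in all `k` shifts (same proof, see Count.lean): AM-GM and symmetry; inner sum over `q'`:
`bb L (lam q') ≤ 4 L`, then `tsum_pi_prod_ennreal` and `spaced_sum` with `V := H`, `μ = -lgr q_j` for each coordinate:
`≤ 4 L (C U^(1+2δ))^k`. Outer: `∑ ∏ kap(h_j)/h_j bb L (lam q) 1[lam q ≠ 0] ≤ C U^(kδ)` by `bb_le_inv`, `kap_le`, `outer_sum`.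
`count_f0`: everything is a product over `j`.
-/

set_option autoImplicit false

namespace Pool.Agent.P07318s

open MeasureTheory Complex

namespace CountFAux

open CountAux

/-- the second factor -/
noncomputable def fC (n : ℕ) (δ U V H : ℝ) (q q' : Fin (n + 1) → Q) : ℝ :=
  (∏ j, kap δ U (hgt (q' j).1)) * bb V (lam fun j => (q' j).1) *
    ∏ j : Fin (n + 1), bb H (lgr (q j).1 - lgr (q' j).1)

theorem fC_nonneg {n : ℕ} {δ U V H : ℝ} (hU : 0 ≤ U) (hV : 0 ≤ V) (hH : 0 ≤ H)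
    (q q' : Fin (n + 1) → Q) : 0 ≤ fC n δ U V H q q' :=
  mul_nonneg (mul_nonneg (Finset.prod_nonneg fun _ _ => kap_nonneg hU (hgt_pos _).le)
    (bb_nonneg hV _)) (Finset.prod_nonneg fun _ _ => bb_nonneg hH _)

theorem term_le' {n : ℕ} {δ U V H : ℝ} (hU : 0 ≤ U) (hV : 0 ≤ V) (hH : 0 ≤ H)
    (q q' : Fin (n + 1) → Q) :
    (if lam (fun j => (q j).1) = 0 ∨ lam (fun j => (q' j).1) = 0 then 0 else
        (∏ j, ww δ U (q j)) * (∏ j, ww δ U (q' j)) * bb V (lam fun j => (q j).1) *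
          bb V (lam fun j => (q' j).1) *
          ∏ j : Fin (n + 1), bb H (lgr (q j).1 - lgr (q' j).1)) ≤
      fA n δ U V q * fC n δ U V H q q' + fA n δ U V q' * fC n δ U V H q' q := by
  split_ifs with h
  · exact add_nonneg (mul_nonneg (fA_nonneg hU hV q) (fC_nonneg hU hV hH q q'))
      (mul_nonneg (fA_nonneg hU hV q') (fC_nonneg hU hV hH q' q))
  · push Not at h
    unfold fA fC
    rw [if_neg h.1, if_neg h.2, prod_ww, prod_ww]
    have hP : ∏ j : Fin (n + 1), bb H (lgr (q' j).1 - lgr (q j).1) =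
        ∏ j : Fin (n + 1), bb H (lgr (q j).1 - lgr (q' j).1) :=
      Finset.prod_congr rfl fun j _ => by rw [← bb_neg, neg_sub]
    rw [hP, Finset.prod_mul_distrib, Finset.prod_mul_distrib, ← sq_prod, ← sq_prod]
    set k₁ := ∏ j, kap δ U (hgt (q j).1)
    set k₂ := ∏ j, kap δ U (hgt (q' j).1)
    set x := ∏ j, (hgt (q j).1) ^ (-(1 / 2) : ℝ)
    set y := ∏ j, (hgt (q' j).1) ^ (-(1 / 2) : ℝ)
    set b₁ := bb V (lam fun j => (q j).1)
    set b₂ := bb V (lam fun j => (q' j).1)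
    set P := ∏ j : Fin (n + 1), bb H (lgr (q j).1 - lgr (q' j).1)
    have hk₁ : 0 ≤ k₁ := Finset.prod_nonneg fun j _ => kap_nonneg hU (hgt_pos _).le
    have hk₂ : 0 ≤ k₂ := Finset.prod_nonneg fun j _ => kap_nonneg hU (hgt_pos _).le
    have hb₁ : 0 ≤ b₁ := bb_nonneg hV _
    have hb₂ : 0 ≤ b₂ := bb_nonneg hV _
    have hPn : 0 ≤ P := Finset.prod_nonneg fun j _ => bb_nonneg hH _
    have hxy : x * y ≤ x ^ 2 + y ^ 2 := by nlinarith [sq_nonneg (x - y), sq_nonneg (x + y)]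
    have hc : 0 ≤ k₁ * k₂ * b₁ * b₂ * P := by positivity
    calc k₁ * x * (k₂ * y) * b₁ * b₂ * P = (k₁ * k₂ * b₁ * b₂ * P) * (x * y) := by ring
      _ ≤ (k₁ * k₂ * b₁ * b₂ * P) * (x ^ 2 + y ^ 2) := mul_le_mul_of_nonneg_left hxy hc
      _ = _ := by ring

theorem inner' {n : ℕ} {δ U V H C : ℝ} (hU : 0 ≤ U) (hV : 0 ≤ V) (hH : 0 ≤ H) (hC : 0 ≤ C)
    (h2 : ∀ μ : ℝ, ∑' q : Q, ENNReal.ofReal (kap δ U (hgt q.1) * bb H (lgr q.1 + μ)) ≤
      ENNReal.ofReal C) (q : Fin (n + 1) → Q) :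
    ∑' q' : Fin (n + 1) → Q, ENNReal.ofReal (fC n δ U V H q q') ≤
      ENNReal.ofReal (4 * V) * ENNReal.ofReal (C ^ (n + 1)) := by
  have e : ∀ q' : Fin (n + 1) → Q, ENNReal.ofReal (fC n δ U V H q q') ≤
      ENNReal.ofReal (4 * V) *
        ∏ j : Fin (n + 1), ENNReal.ofReal (kap δ U (hgt (q' j).1) *
          bb H (lgr (q' j).1 + -lgr (q j).1)) := by
    intro q'
    rw [← ENNReal.ofReal_prod_of_nonneg (fun j _ => mul_nonneg (kap_nonneg hU (hgt_pos _).le)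
      (bb_nonneg hH _)), ← ENNReal.ofReal_mul (by positivity)]
    apply ENNReal.ofReal_le_ofReal
    unfold fC
    rw [Finset.prod_mul_distrib]
    have hP : ∏ j : Fin (n + 1), bb H (lgr (q' j).1 + -lgr (q j).1) =
        ∏ j : Fin (n + 1), bb H (lgr (q j).1 - lgr (q' j).1) :=
      Finset.prod_congr rfl fun j _ => by rw [← bb_neg]; congr 1; ring
    rw [hP]
    have hk : 0 ≤ ∏ j, kap δ U (hgt (q' j).1) :=
      Finset.prod_nonneg fun j _ => kap_nonneg hU (hgt_pos _).le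
    have hb : 0 ≤ ∏ j : Fin (n + 1), bb H (lgr (q j).1 - lgr (q' j).1) :=
      Finset.prod_nonneg fun j _ => bb_nonneg hH _
    have hb1 := bb_le hV (lam fun j => (q' j).1)
    calc (∏ j, kap δ U (hgt (q' j).1)) * bb V (lam fun j => (q' j).1) *
          ∏ j : Fin (n + 1), bb H (lgr (q j).1 - lgr (q' j).1)
        ≤ (∏ j, kap δ U (hgt (q' j).1)) * (4 * V) *
          ∏ j : Fin (n + 1), bb H (lgr (q j).1 - lgr (q' j).1) :=
          mul_le_mul_of_nonneg_right (mul_le_mul_of_nonneg_left hb1 hk) hb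
      _ = _ := by ring
  refine (ENNReal.tsum_le_tsum e).trans ?_
  rw [ENNReal.tsum_mul_left, tsum_pi_prod_ennreal
          (fun (j : Fin (n + 1)) (a : Q) => ENNReal.ofReal (kap δ U (hgt a.1) *
          bb H (lgr a.1 + -lgr (q j).1)))]
  refine mul_le_mul_right ?_ _
  calc ∏ j : Fin (n + 1), ∑' a : Q, ENNReal.ofReal (kap δ U (hgt a.1) *
          bb H (lgr a.1 + -lgr (q j).1))
      ≤ ∏ _j : Fin (n + 1), ENNReal.ofReal C := Finset.prod_le_prod' fun j _ => h2 _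
    _ = ENNReal.ofReal (C ^ (n + 1)) := by
        rw [Finset.prod_const, Finset.card_univ, Fintype.card_fin, ENNReal.ofReal_pow hC]

theorem summableQ {δ : ℝ} (hδ : 0 < δ) : Summable fun q : Q => (hgt q.1) ^ (-1 - δ) := by
  have h1 : Summable fun n : ℕ+ => (((n : ℕ) : ℝ)) ^ (-1 - δ) := by
    have h4 : Summable fun n : ℕ => ((n : ℝ)) ^ (-1 - δ) :=
      Real.summable_nat_rpow.2 (by linarith)
    exact h4.comp_injective PNat.coe_injective
  have h2 := h1.mul_of_nonneg h1 (fun i => Real.rpow_nonneg (Nat.cast_nonneg _) _)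
    (fun i => Real.rpow_nonneg (Nat.cast_nonneg _) _)
  have h3 : Summable fun p : ℕ+ × ℕ+ => (hgt p) ^ (-1 - δ) := by
    refine h2.congr ?_
    intro p
    unfold hgt
    rw [Real.mul_rpow (Nat.cast_nonneg _) (Nat.cast_nonneg _)]
  exact h3.comp_injective (f := fun p : ℕ+ × ℕ+ => (hgt p) ^ (-1 - δ)) (i := fun q : Q => q.1)
    Subtype.val_injective

/-- the double sum in one variable -/
theorem one_var {δ : ℝ} (hδ : 0 < δ) (hδ2 : δ ≤ 1 / 2) : ∃ C : ℝ, 0 < C ∧ ∀ U H : ℝ, 1 ≤ U →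
    0 ≤ H → H ≤ U →
    ∑' a : Q, ∑' b : Q, ENNReal.ofReal (ww δ U a * ww δ U b * bb H (lgr a.1 - lgr b.1)) ≤
      ENNReal.ofReal (C * U ^ (1 + 3 * δ)) := by
  obtain ⟨C1, hC1, h1⟩ := spaced_sum δ hδ hδ2
  have hs := summableQ hδ
  set S : ℝ := ∑' q : Q, (hgt q.1) ^ (-1 - δ) with hS
  have hS0 : 0 ≤ S := tsum_nonneg fun q => Real.rpow_nonneg (hgt_pos _).le _
  refine ⟨2 * (S + 1) * C1, by positivity, ?_⟩
  intro U H hU hH hHU
  have hU0 : 0 < U := by linarith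
  set M : ℝ := C1 * U ^ (1 + 2 * δ) with hM
  have hM0 : 0 ≤ M := by positivity
  -- the one sided sum
  have hone : ∑' a : Q, ∑' b : Q, ENNReal.ofReal (U ^ δ * (hgt a.1) ^ (-1 - δ)) *
      ENNReal.ofReal (kap δ U (hgt b.1) * bb H (lgr b.1 + -lgr a.1)) ≤
      ENNReal.ofReal (U ^ δ * S * M) := by
    simp only [ENNReal.tsum_mul_left]
    calc ∑' a : Q, ENNReal.ofReal (U ^ δ * (hgt a.1) ^ (-1 - δ)) *
          ∑' b : Q, ENNReal.ofReal (kap δ U (hgt b.1) * bb H (lgr b.1 + -lgr a.1))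
        ≤ ∑' a : Q, ENNReal.ofReal (U ^ δ * (hgt a.1) ^ (-1 - δ)) * ENNReal.ofReal M :=
          ENNReal.tsum_le_tsum fun a => mul_le_mul_right (h1 U H _ hU hH hHU) _
      _ = ENNReal.ofReal (∑' a : Q, U ^ δ * (hgt a.1) ^ (-1 - δ)) * ENNReal.ofReal M := by
          rw [ENNReal.tsum_mul_right, ENNReal.ofReal_tsum_of_nonneg (fun a =>
            mul_nonneg (Real.rpow_nonneg hU0.le _) (Real.rpow_nonneg (hgt_pos _).le _))
            (hs.mul_left _)]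
      _ = ENNReal.ofReal (U ^ δ * S * M) := by
          rw [tsum_mul_left, ← hS, ← ENNReal.ofReal_mul (by positivity)]
  have hkap : ∀ a : Q, kap δ U (hgt a.1) * (hgt a.1)⁻¹ ≤ U ^ δ * (hgt a.1) ^ (-1 - δ) := by
    intro a
    have hh := hgt_pos a.1
    have h5 := kap_le (δ := δ) (by linarith) hU0 hh
    rw [Real.div_rpow hU0.le hh.le] at h5
    have h6 : (hgt a.1) ^ (-1 - δ) = (hgt a.1)⁻¹ / (hgt a.1) ^ δ := by
      rw [Real.rpow_sub hh, Real.rpow_neg_one]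
    rw [h6]
    calc kap δ U (hgt a.1) * (hgt a.1)⁻¹
        ≤ U ^ δ / (hgt a.1) ^ δ * (hgt a.1)⁻¹ :=
          mul_le_mul_of_nonneg_right h5 (inv_nonneg.2 hh.le)
      _ = _ := by ring
  have hsq : ∀ a : Q, ((hgt a.1) ^ (-(1 / 2) : ℝ)) ^ 2 = (hgt a.1)⁻¹ := by
    intro a
    rw [← Real.rpow_natCast, ← Real.rpow_mul (hgt_pos _).le]
    norm_num
    rw [Real.rpow_neg_one]
  have hterm : ∀ a b : Q, ENNReal.ofReal (ww δ U a * ww δ U b * bb H (lgr a.1 - lgr b.1)) ≤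
      ENNReal.ofReal (U ^ δ * (hgt a.1) ^ (-1 - δ)) *
      ENNReal.ofReal (kap δ U (hgt b.1) * bb H (lgr b.1 + -lgr a.1)) +
      ENNReal.ofReal (U ^ δ * (hgt b.1) ^ (-1 - δ)) *
      ENNReal.ofReal (kap δ U (hgt a.1) * bb H (lgr a.1 + -lgr b.1)) := by
    intro a b
    have n1 : ∀ c : Q, 0 ≤ U ^ δ * (hgt c.1) ^ (-1 - δ) := fun c =>
      mul_nonneg (Real.rpow_nonneg hU0.le _) (Real.rpow_nonneg (hgt_pos _).le _)
    have n2 : ∀ (c : Q) (μ : ℝ), 0 ≤ kap δ U (hgt c.1) * bb H μ := fun c μ =>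
      mul_nonneg (kap_nonneg hU0.le (hgt_pos _).le) (bb_nonneg hH _)
    rw [← ENNReal.ofReal_mul (n1 a), ← ENNReal.ofReal_mul (n1 b),
      ← ENNReal.ofReal_add (mul_nonneg (n1 a) (n2 b _)) (mul_nonneg (n1 b) (n2 a _))]
    apply ENNReal.ofReal_le_ofReal
    have e1 : bb H (lgr b.1 + -lgr a.1) = bb H (lgr a.1 - lgr b.1) := by
      rw [← bb_neg]; congr 1; ring
    have e2 : lgr a.1 + -lgr b.1 = lgr a.1 - lgr b.1 := by ring
    rw [e1, e2]
    unfold ww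
    have ha := hkap a
    have hb := hkap b
    rw [← hsq a] at ha
    rw [← hsq b] at hb
    have k1 : 0 ≤ kap δ U (hgt a.1) := kap_nonneg hU0.le (hgt_pos _).le
    have k2 : 0 ≤ kap δ U (hgt b.1) := kap_nonneg hU0.le (hgt_pos _).le
    have b1 : 0 ≤ bb H (lgr a.1 - lgr b.1) := bb_nonneg hH _
    set x := (hgt a.1) ^ (-(1 / 2) : ℝ)
    set y := (hgt b.1) ^ (-(1 / 2) : ℝ)
    have hxy : x * y ≤ x ^ 2 + y ^ 2 := by nlinarith [sq_nonneg (x - y), sq_nonneg (x + y)]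
    calc kap δ U (hgt a.1) * x * (kap δ U (hgt b.1) * y) * bb H (lgr a.1 - lgr b.1)
        = (kap δ U (hgt a.1) * kap δ U (hgt b.1) * bb H (lgr a.1 - lgr b.1)) * (x * y) := by ring
      _ ≤ (kap δ U (hgt a.1) * kap δ U (hgt b.1) * bb H (lgr a.1 - lgr b.1)) * (x ^ 2 + y ^ 2) :=
          mul_le_mul_of_nonneg_left hxy (by positivity)
      _ = (kap δ U (hgt a.1) * x ^ 2) * (kap δ U (hgt b.1) * bb H (lgr a.1 - lgr b.1)) +
          (kap δ U (hgt b.1) * y ^ 2) * (kap δ U (hgt a.1) * bb H (lgr a.1 - lgr b.1)) := by ring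
      _ ≤ _ := add_le_add (mul_le_mul_of_nonneg_right ha (by positivity))
          (mul_le_mul_of_nonneg_right hb (by positivity))
  refine (ENNReal.tsum_le_tsum fun a => ENNReal.tsum_le_tsum fun b => hterm a b).trans ?_
  simp only [ENNReal.tsum_add]
  have hcomm : ∑' a : Q, ∑' b : Q, ENNReal.ofReal (U ^ δ * (hgt b.1) ^ (-1 - δ)) *
      ENNReal.ofReal (kap δ U (hgt a.1) * bb H (lgr a.1 + -lgr b.1)) =
      ∑' a : Q, ∑' b : Q, ENNReal.ofReal (U ^ δ * (hgt a.1) ^ (-1 - δ)) *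
      ENNReal.ofReal (kap δ U (hgt b.1) * bb H (lgr b.1 + -lgr a.1)) := ENNReal.tsum_comm
  rw [hcomm]
  refine (add_le_add hone hone).trans ?_
  rw [← ENNReal.ofReal_add (by positivity) (by positivity)]
  apply ENNReal.ofReal_le_ofReal
  have e1 : U ^ δ * U ^ (1 + 2 * δ) = U ^ (1 + 3 * δ) := by
    rw [← Real.rpow_add hU0]
    congr 1
    ring
  rw [← e1, hM]
  have hp : 0 ≤ C1 * (U ^ δ * U ^ (1 + 2 * δ)) := by positivity
  nlinarith

end CountFAux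

open CountAux CountFAux in
theorem count_f (k : ℕ) (δ : ℝ) (hδ : 0 < δ) (hδ2 : δ ≤ 1 / 2) : ∃ C : ℝ, 0 < C ∧ ∀ U L H : ℝ, 1 ≤ U →
    0 ≤ L → L ≤ U → 0 ≤ H → H ≤ U →
    ∑' q : Fin k → Q, ∑' q' : Fin k → Q,
      ENNReal.ofReal (if lam (fun j => (q j).1) = 0 ∨ lam (fun j => (q' j).1) = 0 then 0 else
        (∏ j, ww δ U (q j)) * (∏ j, ww δ U (q' j)) * bb L (lam fun j => (q j).1) *
          bb L (lam fun j => (q' j).1) * ∏ j : Fin k, bb H (lgr (q j).1 - lgr (q' j).1)) ≤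
      ENNReal.ofReal (C * L * U ^ ((k : ℝ) * (1 + 3 * δ))) := by
  obtain _ | n := k
  · refine ⟨1, one_pos, ?_⟩
    intro U L H hU hL hLU hH hHU
    have h0 : ∀ q : Fin 0 → Q, lam (fun j => (q j).1) = 0 := fun q => by
      unfold lam
      exact Finset.sum_of_isEmpty _
    simp only [h0, true_or, if_true, ENNReal.ofReal_zero, tsum_zero]
    exact zero_le
  obtain ⟨C1, hC1, h1⟩ := spaced_sum δ hδ hδ2
  obtain ⟨C2, hC2, h2⟩ := outer_sum (n + 1) δ hδ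
  refine ⟨32 * C2 * C1 ^ (n + 1), by positivity, ?_⟩
  intro U V H hU hV hVU hH hHU
  have hU0 : 0 < U := by linarith
  set M : ℝ := C1 * U ^ (1 + 2 * δ) with hM
  have hM0 : 0 ≤ M := by positivity
  have hin := fun q => inner' (n := n) hU0.le hV hH hM0 (fun μ => h1 U H μ hU hH hHU) q
  have hout := outer hδ hδ2 hU hV h2
  have hS : ∑' q : Fin (n + 1) → Q, ∑' q' : Fin (n + 1) → Q,
      ENNReal.ofReal (fA n δ U V q) * ENNReal.ofReal (fC n δ U V H q q') ≤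
      ENNReal.ofReal (4 * (U ^ δ) ^ (n + 1)) * ENNReal.ofReal C2 *
        (ENNReal.ofReal (4 * V) * ENNReal.ofReal (M ^ (n + 1))) := by
    simp only [ENNReal.tsum_mul_left]
    calc ∑' q : Fin (n + 1) → Q, ENNReal.ofReal (fA n δ U V q) *
          ∑' q' : Fin (n + 1) → Q, ENNReal.ofReal (fC n δ U V H q q')
        ≤ ∑' q : Fin (n + 1) → Q, ENNReal.ofReal (fA n δ U V q) *
          (ENNReal.ofReal (4 * V) * ENNReal.ofReal (M ^ (n + 1))) :=
          ENNReal.tsum_le_tsum fun q => mul_le_mul_right (hin q) _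
      _ = (∑' q : Fin (n + 1) → Q, ENNReal.ofReal (fA n δ U V q)) *
          (ENNReal.ofReal (4 * V) * ENNReal.ofReal (M ^ (n + 1))) := ENNReal.tsum_mul_right
      _ ≤ _ := mul_le_mul_left hout _
  have hterm : ∀ q q' : Fin (n + 1) → Q,
      ENNReal.ofReal (if lam (fun j => (q j).1) = 0 ∨ lam (fun j => (q' j).1) = 0 then 0 else
        (∏ j, ww δ U (q j)) * (∏ j, ww δ U (q' j)) * bb V (lam fun j => (q j).1) *
          bb V (lam fun j => (q' j).1) *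
          ∏ j : Fin (n + 1), bb H (lgr (q j).1 - lgr (q' j).1)) ≤
      ENNReal.ofReal (fA n δ U V q) * ENNReal.ofReal (fC n δ U V H q q') +
      ENNReal.ofReal (fA n δ U V q') * ENNReal.ofReal (fC n δ U V H q' q) := by
    intro q q'
    rw [← ENNReal.ofReal_mul (fA_nonneg hU0.le hV q), ← ENNReal.ofReal_mul
      (fA_nonneg hU0.le hV q'), ← ENNReal.ofReal_add
      (mul_nonneg (fA_nonneg hU0.le hV q) (fC_nonneg hU0.le hV hH q q'))
      (mul_nonneg (fA_nonneg hU0.le hV q') (fC_nonneg hU0.le hV hH q' q))]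
    exact ENNReal.ofReal_le_ofReal (term_le' hU0.le hV hH q q')
  refine (ENNReal.tsum_le_tsum fun q => ENNReal.tsum_le_tsum fun q' => hterm q q').trans ?_
  simp only [ENNReal.tsum_add]
  have hcomm : ∑' q : Fin (n + 1) → Q, ∑' q' : Fin (n + 1) → Q,
      ENNReal.ofReal (fA n δ U V q') * ENNReal.ofReal (fC n δ U V H q' q) =
      ∑' q : Fin (n + 1) → Q, ∑' q' : Fin (n + 1) → Q,
      ENNReal.ofReal (fA n δ U V q) * ENNReal.ofReal (fC n δ U V H q q') := ENNReal.tsum_comm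
  rw [hcomm]
  refine (add_le_add hS hS).trans ?_
  rw [← ENNReal.ofReal_mul (by positivity), ← ENNReal.ofReal_mul (by positivity),
    ← ENNReal.ofReal_mul (by positivity), ← ENNReal.ofReal_add (by positivity) (by positivity)]
  apply ENNReal.ofReal_le_ofReal
  apply le_of_eq
  have e1 : (U ^ δ) ^ (n + 1) * (U ^ (1 + 2 * δ)) ^ (n + 1) =
      U ^ (((n + 1 : ℕ) : ℝ) * (1 + 3 * δ)) := by
    rw [← mul_pow, ← Real.rpow_add hU0, ← Real.rpow_natCast, ← Real.rpow_mul hU0.le]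
    congr 1
    push_cast
    ring
  rw [← e1, hM, mul_pow]
  ring

open CountFAux in
theorem count_f0 (k : ℕ) (δ : ℝ) (hδ : 0 < δ) (hδ2 : δ ≤ 1 / 2) : ∃ C : ℝ, 0 < C ∧ ∀ U H : ℝ, 1 ≤ U →
    0 ≤ H → H ≤ U →
    ∑' q : Fin k → Q, ∑' q' : Fin k → Q,
      ENNReal.ofReal ((∏ j, ww δ U (q j)) * (∏ j, ww δ U (q' j)) *
          ∏ j : Fin k, bb H (lgr (q j).1 - lgr (q' j).1)) ≤
      ENNReal.ofReal (C * U ^ ((k : ℝ) * (1 + 3 * δ))) := by
  obtain ⟨C, hC, h⟩ := one_var hδ hδ2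
  refine ⟨C ^ k, by positivity, ?_⟩
  intro U H hU hH hHU
  have hU0 : 0 < U := by linarith
  have e : ∀ q q' : Fin k → Q, ENNReal.ofReal ((∏ j, ww δ U (q j)) * (∏ j, ww δ U (q' j)) *
          ∏ j : Fin k, bb H (lgr (q j).1 - lgr (q' j).1)) =
      ∏ j, ENNReal.ofReal (ww δ U (q j) * ww δ U (q' j) * bb H (lgr (q j).1 - lgr (q' j).1)) := by
    intro q q'
    rw [← ENNReal.ofReal_prod_of_nonneg (fun j _ => mul_nonneg (mul_nonneg (ww_nonneg hU0.le _)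
      (ww_nonneg hU0.le _)) (bb_nonneg hH _))]
    rw [Finset.prod_mul_distrib, Finset.prod_mul_distrib]
  simp_rw [e]
  have e2 : ∀ q : Fin k → Q, ∑' q' : Fin k → Q,
      ∏ j, ENNReal.ofReal (ww δ U (q j) * ww δ U (q' j) * bb H (lgr (q j).1 - lgr (q' j).1)) =
      ∏ j, ∑' b : Q, ENNReal.ofReal (ww δ U (q j) * ww δ U b * bb H (lgr (q j).1 - lgr b.1)) :=
    fun q => tsum_pi_prod_ennreal (fun (j : Fin k) (b : Q) =>
      ENNReal.ofReal (ww δ U (q j) * ww δ U b * bb H (lgr (q j).1 - lgr b.1)))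
  simp_rw [e2]
  rw [tsum_pi_prod_ennreal (fun (_ : Fin k) (a : Q) =>
    ∑' b : Q, ENNReal.ofReal (ww δ U a * ww δ U b * bb H (lgr a.1 - lgr b.1)))]
  calc ∏ _j : Fin k, ∑' a : Q, ∑' b : Q,
        ENNReal.ofReal (ww δ U a * ww δ U b * bb H (lgr a.1 - lgr b.1))
      ≤ ∏ _j : Fin k, ENNReal.ofReal (C * U ^ (1 + 3 * δ)) :=
        Finset.prod_le_prod' fun j _ => h U H hU hH hHU
    _ = ENNReal.ofReal (C ^ k * U ^ ((k : ℝ) * (1 + 3 * δ))) := by
        rw [Finset.prod_const, Finset.card_univ, Fintype.card_fin,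
          ← ENNReal.ofReal_pow (by positivity), mul_pow]
        congr 2
        rw [← Real.rpow_natCast, ← Real.rpow_mul hU0.le]
        congr 1
        ring

end Pool.Agent.P07318s
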