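import Pool.Agent.Lib.P07318s.Defs
import Pool.Agent.Lib.P07318s.PiSum
import Pool.Agent.Lib.P07318s.BoxMS
import Pool.Agent.Lib.P07318s.KapSum
import Pool.Agent.Lib.P07318s.CountF
import Pool.Agent.Lib.P07318s.MeanM
import Pool.Agent.Lib.P07318s.NNint

/-!
Mean squares over a box in all `k` shifts: `box_ms` with `ω q j = lgr (q j)` and the coefficients of `MM`, `NN`
(compare MeanM.lean), then `count_f`, `count_f0`. Valid for every base point `β`.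
-/

set_option autoImplicit false

namespace Pool.Agent.P07318s

open MeasureTheory Complex

namespace MeanFAux

/-- coefficients for `box_ms` -/
noncomputable def mfZ {k : ℕ} (z : Fin k → Q → ℝ) (V : ℝ) (q : Fin k → Q) : ℂ :=
  if lam (fun j => (q j).1) = 0 then 0 else
    (∏ j, (z j (q j) : ℂ)) * osc V (lam (fun j => (q j).1))

/-- coefficients for `box_ms` -/
noncomputable def nfZ {k : ℕ} (z : Fin k → Q → ℝ) (q : Fin k → Q) : ℂ :=
  if lam (fun j => (q j).1) = 0 then 0 else ∏ j, (z j (q j) : ℂ)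

lemma prod_norm_le {k : ℕ} {δ U : ℝ} (z : Fin k → Q → ℝ)
    (s : Fin k → ℝ) (hz : ∀ j q, |z j q| ≤ s j * ww δ U q)
    (q : Fin k → Q) : ∏ j, ‖((z j (q j) : ℝ) : ℂ)‖ ≤ (∏ j, s j) * ∏ j, ww δ U (q j) := by
  rw [← Finset.prod_mul_distrib]
  refine Finset.prod_le_prod (fun j _ => norm_nonneg _) fun j _ => ?_
  rw [Complex.norm_real, Real.norm_eq_abs]
  exact hz j (q j)

lemma mfZ_norm {k : ℕ} {δ U V : ℝ} (hU : 1 ≤ U) (hV : 0 ≤ V) (z : Fin k → Q → ℝ)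
    (s : Fin k → ℝ) (hs : ∀ j, 0 ≤ s j) (hz : ∀ j q, |z j q| ≤ s j * ww δ U q)
    (q : Fin k → Q) :
    ‖mfZ z V q‖ ≤ (∏ j, s j) *
      (if lam (fun j => (q j).1) = 0 then 0 else (∏ j, ww δ U (q j)) * bb V (lam fun j => (q j).1)) := by
  unfold mfZ
  split_ifs with h
  · simp
  · rw [norm_mul, norm_prod]
    have h1 := prod_norm_le z s hz q
    have h2 := norm_osc_le hV (lam fun j => (q j).1)
    have h0 : 0 ≤ ∏ j, ww δ U (q j) := Finset.prod_nonneg fun j _ => ww_nonneg (by linarith) _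
    calc (∏ j, ‖((z j (q j) : ℝ) : ℂ)‖) * ‖osc V (lam fun j => (q j).1)‖
        ≤ ((∏ j, s j) * ∏ j, ww δ U (q j)) * bb V (lam fun j => (q j).1) :=
          mul_le_mul h1 h2 (norm_nonneg _) (mul_nonneg (Finset.prod_nonneg fun j _ => hs j) h0)
      _ = _ := by ring

lemma nfZ_norm {k : ℕ} {δ U : ℝ} (hU : 1 ≤ U) (z : Fin k → Q → ℝ)
    (s : Fin k → ℝ) (hs : ∀ j, 0 ≤ s j) (hz : ∀ j q, |z j q| ≤ s j * ww δ U q)
    (q : Fin k → Q) :
    ‖nfZ z q‖ ≤ (∏ j, s j) * ∏ j, ww δ U (q j) := by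
  have h0 : 0 ≤ ∏ j, ww δ U (q j) := Finset.prod_nonneg fun j _ => ww_nonneg (by linarith) _
  have hs0 : 0 ≤ ∏ j, s j := Finset.prod_nonneg fun j _ => hs j
  unfold nfZ
  split_ifs with h
  · rw [norm_zero]
    positivity
  · rw [norm_prod]
    exact prod_norm_le z s hz q

lemma mfZ_summable {k : ℕ} {δ U V : ℝ} (hδ : 0 < δ) (hδ2 : δ ≤ 1 / 2) (hU : 1 ≤ U) (hV : 0 ≤ V)
    (z : Fin k → Q → ℝ)
    (s : Fin k → ℝ) (hs : ∀ j, 0 ≤ s j) (hz : ∀ j q, |z j q| ≤ s j * ww δ U q) :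
    Summable (fun q => ‖mfZ z V q‖) := by
  have hw := summable_pi_prod_real (k := k) (fun _ q => ww δ U q) (fun _ => ww_summable hδ hδ2 hU)
    (fun _ q => ww_nonneg (by linarith) q)
  refine Summable.of_nonneg_of_le (fun q => norm_nonneg _) (fun q => ?_)
    (hw.mul_left ((∏ j, s j) * (4 * V)))
  refine (mfZ_norm hU hV z s hs hz q).trans ?_
  have h0 : 0 ≤ ∏ j, ww δ U (q j) := Finset.prod_nonneg fun j _ => ww_nonneg (by linarith) _
  have hs0 : 0 ≤ ∏ j, s j := Finset.prod_nonneg fun j _ => hs j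
  rw [mul_assoc]
  refine mul_le_mul_of_nonneg_left ?_ hs0
  split_ifs with h
  · positivity
  · rw [mul_comm]
    exact mul_le_mul_of_nonneg_right (bb_le hV _) h0

lemma nfZ_summable {k : ℕ} {δ U : ℝ} (hδ : 0 < δ) (hδ2 : δ ≤ 1 / 2) (hU : 1 ≤ U)
    (z : Fin k → Q → ℝ)
    (s : Fin k → ℝ) (hs : ∀ j, 0 ≤ s j) (hz : ∀ j q, |z j q| ≤ s j * ww δ U q) :
    Summable (fun q => ‖nfZ z q‖) := by
  have hw := summable_pi_prod_real (k := k) (fun _ q => ww δ U q) (fun _ => ww_summable hδ hδ2 hU)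
    (fun _ q => ww_nonneg (by linarith) q)
  exact Summable.of_nonneg_of_le (fun q => norm_nonneg _) (fun q => nfZ_norm hU z s hs hz q)
    (hw.mul_left (∏ j, s j))

lemma prod_ex {k : ℕ} (α : Fin k → ℝ) (q : Fin k → Q) :
    ∏ j, ex (α j) (q j).1 = cexp (((-(∑ j, α j * lgr (q j).1) : ℝ) : ℂ) * I) := by
  unfold ex
  rw [← Complex.exp_sum]
  congr 1
  rw [← Finset.sum_mul]
  congr 1
  push_cast
  rw [← Finset.sum_neg_distrib]

lemma mf_eq {k : ℕ} (z : Fin k → Q → ℝ) (V : ℝ) (α : Fin k → ℝ) :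
    MM z V α =
      ∑' q : Fin k → Q, mfZ z V q *
        cexp (((-(∑ j, α j * (fun (q : Fin k → Q) (j : Fin k) => lgr (q j).1) q j) : ℝ) : ℂ) * I) := by
  unfold MM mfZ
  refine tsum_congr fun q => ?_
  split_ifs with h
  · simp
  · rw [Finset.prod_mul_distrib, prod_ex]
    ring

lemma nf_eq {k : ℕ} (z : Fin k → Q → ℝ) (α : Fin k → ℝ) :
    NN z α =
      ∑' q : Fin k → Q, nfZ z q *
        cexp (((-(∑ j, α j * (fun (q : Fin k → Q) (j : Fin k) => lgr (q j).1) q j) : ℝ) : ℂ) * I) := by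
  unfold NN nfZ
  refine tsum_congr fun q => ?_
  split_ifs with h
  · simp
  · rw [Finset.prod_mul_distrib, prod_ex]

end MeanFAux

open MeanFAux

theorem mean_f (k : ℕ) (δ : ℝ) (hδ : 0 < δ) (hδ2 : δ ≤ 1 / 2) : ∃ C : ℝ, 0 < C ∧ ∀ U L H : ℝ, 1 ≤ U →
    0 ≤ L → L ≤ U → 0 ≤ H → H ≤ U → ∀ (z : Fin k → Q → ℝ) (s : Fin k → ℝ),
    (∀ j, 0 ≤ s j) → (∀ j q, |z j q| ≤ s j * ww δ U q) → ∀ β : Fin k → ℝ,
    ∫⁻ α in Set.Icc β (fun j => β j + H), ‖MM z L α‖ₑ ^ 2 ≤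
      ENNReal.ofReal (C * (∏ j, s j) ^ 2 * L * U ^ ((k : ℝ) * (1 + 3 * δ))) := by
  obtain ⟨C, hC, hcount⟩ := count_f k δ hδ hδ2
  refine ⟨C, hC, fun U L H hU hL hLU hH hHU z s hs hz β => ?_⟩
  have h1 := box_ms (mfZ z L) (mfZ_summable hδ hδ2 hU hL z s hs hz)
    (fun (q : Fin k → Q) (j : Fin k) => lgr (q j).1) β hH
  simp_rw [mf_eq]
  refine h1.trans ?_
  have hs0 : 0 ≤ ∏ j, s j := Finset.prod_nonneg fun j _ => hs j
  have hterm : ∀ q q' : Fin k → Q, ‖mfZ z L q‖ₑ * ‖mfZ z L q'‖ₑ *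
      ∏ j : Fin k, ENNReal.ofReal (bb H (lgr (q j).1 - lgr (q' j).1)) ≤
      ENNReal.ofReal ((∏ j, s j) ^ 2) *
      ENNReal.ofReal (if lam (fun j => (q j).1) = 0 ∨ lam (fun j => (q' j).1) = 0 then 0 else
        (∏ j, ww δ U (q j)) * (∏ j, ww δ U (q' j)) * bb L (lam fun j => (q j).1) *
          bb L (lam fun j => (q' j).1) * ∏ j : Fin k, bb H (lgr (q j).1 - lgr (q' j).1)) := by
    intro q q'
    have hp : 0 ≤ ∏ j : Fin k, bb H (lgr (q j).1 - lgr (q' j).1) :=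
      Finset.prod_nonneg fun j _ => bb_nonneg hH _
    rw [← ENNReal.ofReal_prod_of_nonneg (fun j _ => bb_nonneg hH _), ← ofReal_norm, ← ofReal_norm,
      ← ENNReal.ofReal_mul (norm_nonneg _), ← ENNReal.ofReal_mul (by positivity),
      ← ENNReal.ofReal_mul (by positivity)]
    refine ENNReal.ofReal_le_ofReal ?_
    have ha := mfZ_norm hU hL z s hs hz q
    have hb := mfZ_norm hU hL z s hs hz q'
    by_cases h : lam (fun j => (q j).1) = 0 ∨ lam (fun j => (q' j).1) = 0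
    · rw [if_pos h]
      rcases h with h | h
      · have : mfZ z L q = 0 := by unfold mfZ; rw [if_pos h]
        rw [this]
        simp
      · have : mfZ z L q' = 0 := by unfold mfZ; rw [if_pos h]
        rw [this]
        simp
    · rw [if_neg h]
      push Not at h
      rw [if_neg h.1] at ha
      rw [if_neg h.2] at hb
      have h0 : 0 ≤ ∏ j, ww δ U (q j) := Finset.prod_nonneg fun j _ => ww_nonneg (by linarith) _
      have h0' : 0 ≤ ∏ j, ww δ U (q' j) := Finset.prod_nonneg fun j _ => ww_nonneg (by linarith) _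
      have hb0 := bb_nonneg hL (lam fun j => (q j).1)
      have hb0' := bb_nonneg hL (lam fun j => (q' j).1)
      calc ‖mfZ z L q‖ * ‖mfZ z L q'‖ * ∏ j : Fin k, bb H (lgr (q j).1 - lgr (q' j).1)
          ≤ ((∏ j, s j) * ((∏ j, ww δ U (q j)) * bb L (lam fun j => (q j).1))) *
            ((∏ j, s j) * ((∏ j, ww δ U (q' j)) * bb L (lam fun j => (q' j).1))) *
            ∏ j : Fin k, bb H (lgr (q j).1 - lgr (q' j).1) := by
            refine mul_le_mul_of_nonneg_right ?_ hp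
            exact mul_le_mul ha hb (norm_nonneg _) (by positivity)
        _ = _ := by ring
  calc ∑' q : Fin k → Q, ∑' q' : Fin k → Q, ‖mfZ z L q‖ₑ * ‖mfZ z L q'‖ₑ *
      ∏ j : Fin k, ENNReal.ofReal (bb H (lgr (q j).1 - lgr (q' j).1))
      ≤ ∑' q : Fin k → Q, ∑' q' : Fin k → Q, ENNReal.ofReal ((∏ j, s j) ^ 2) *
      ENNReal.ofReal (if lam (fun j => (q j).1) = 0 ∨ lam (fun j => (q' j).1) = 0 then 0 else
        (∏ j, ww δ U (q j)) * (∏ j, ww δ U (q' j)) * bb L (lam fun j => (q j).1) *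
          bb L (lam fun j => (q' j).1) * ∏ j : Fin k, bb H (lgr (q j).1 - lgr (q' j).1)) :=
        ENNReal.tsum_le_tsum fun q => ENNReal.tsum_le_tsum fun q' => hterm q q'
    _ = ENNReal.ofReal ((∏ j, s j) ^ 2) * ∑' q : Fin k → Q, ∑' q' : Fin k → Q,
      ENNReal.ofReal (if lam (fun j => (q j).1) = 0 ∨ lam (fun j => (q' j).1) = 0 then 0 else
        (∏ j, ww δ U (q j)) * (∏ j, ww δ U (q' j)) * bb L (lam fun j => (q j).1) *
          bb L (lam fun j => (q' j).1) * ∏ j : Fin k, bb H (lgr (q j).1 - lgr (q' j).1)) := by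
        rw [← ENNReal.tsum_mul_left]
        refine tsum_congr fun q => ?_
        rw [← ENNReal.tsum_mul_left]
    _ ≤ ENNReal.ofReal ((∏ j, s j) ^ 2) * ENNReal.ofReal (C * L * U ^ ((k : ℝ) * (1 + 3 * δ))) :=
        mul_le_mul_right (hcount U L H hU hL hLU hH hHU) _
    _ = _ := by
        rw [← ENNReal.ofReal_mul (by positivity)]
        congr 1
        ring

theorem mean_f0 (k : ℕ) (δ : ℝ) (hδ : 0 < δ) (hδ2 : δ ≤ 1 / 2) : ∃ C : ℝ, 0 < C ∧ ∀ U H : ℝ, 1 ≤ U →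
    0 ≤ H → H ≤ U → ∀ (z : Fin k → Q → ℝ) (s : Fin k → ℝ),
    (∀ j, 0 ≤ s j) → (∀ j q, |z j q| ≤ s j * ww δ U q) → ∀ β : Fin k → ℝ,
    ∫⁻ α in Set.Icc β (fun j => β j + H), ‖NN z α‖ₑ ^ 2 ≤
      ENNReal.ofReal (C * (∏ j, s j) ^ 2 * U ^ ((k : ℝ) * (1 + 3 * δ))) := by
  obtain ⟨C, hC, hcount⟩ := count_f0 k δ hδ hδ2
  refine ⟨C, hC, fun U H hU hH hHU z s hs hz β => ?_⟩
  have h1 := box_ms (nfZ z) (nfZ_summable hδ hδ2 hU z s hs hz)
    (fun (q : Fin k → Q) (j : Fin k) => lgr (q j).1) β hH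
  simp_rw [nf_eq]
  refine h1.trans ?_
  have hs0 : 0 ≤ ∏ j, s j := Finset.prod_nonneg fun j _ => hs j
  have hterm : ∀ q q' : Fin k → Q, ‖nfZ z q‖ₑ * ‖nfZ z q'‖ₑ *
      ∏ j : Fin k, ENNReal.ofReal (bb H (lgr (q j).1 - lgr (q' j).1)) ≤
      ENNReal.ofReal ((∏ j, s j) ^ 2) *
      ENNReal.ofReal ((∏ j, ww δ U (q j)) * (∏ j, ww δ U (q' j)) *
          ∏ j : Fin k, bb H (lgr (q j).1 - lgr (q' j).1)) := by
    intro q q'
    have hp : 0 ≤ ∏ j : Fin k, bb H (lgr (q j).1 - lgr (q' j).1) :=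
      Finset.prod_nonneg fun j _ => bb_nonneg hH _
    rw [← ENNReal.ofReal_prod_of_nonneg (fun j _ => bb_nonneg hH _), ← ofReal_norm, ← ofReal_norm,
      ← ENNReal.ofReal_mul (norm_nonneg _), ← ENNReal.ofReal_mul (by positivity),
      ← ENNReal.ofReal_mul (by positivity)]
    refine ENNReal.ofReal_le_ofReal ?_
    have ha := nfZ_norm hU z s hs hz q
    have hb := nfZ_norm hU z s hs hz q'
    have h0 : 0 ≤ ∏ j, ww δ U (q j) := Finset.prod_nonneg fun j _ => ww_nonneg (by linarith) _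
    have h0' : 0 ≤ ∏ j, ww δ U (q' j) := Finset.prod_nonneg fun j _ => ww_nonneg (by linarith) _
    calc ‖nfZ z q‖ * ‖nfZ z q'‖ * ∏ j : Fin k, bb H (lgr (q j).1 - lgr (q' j).1)
        ≤ ((∏ j, s j) * ∏ j, ww δ U (q j)) * ((∏ j, s j) * ∏ j, ww δ U (q' j)) *
          ∏ j : Fin k, bb H (lgr (q j).1 - lgr (q' j).1) := by
          refine mul_le_mul_of_nonneg_right ?_ hp
          exact mul_le_mul ha hb (norm_nonneg _) (by positivity)
      _ = _ := by ring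
  calc ∑' q : Fin k → Q, ∑' q' : Fin k → Q, ‖nfZ z q‖ₑ * ‖nfZ z q'‖ₑ *
      ∏ j : Fin k, ENNReal.ofReal (bb H (lgr (q j).1 - lgr (q' j).1))
      ≤ ∑' q : Fin k → Q, ∑' q' : Fin k → Q, ENNReal.ofReal ((∏ j, s j) ^ 2) *
      ENNReal.ofReal ((∏ j, ww δ U (q j)) * (∏ j, ww δ U (q' j)) *
          ∏ j : Fin k, bb H (lgr (q j).1 - lgr (q' j).1)) :=
        ENNReal.tsum_le_tsum fun q => ENNReal.tsum_le_tsum fun q' => hterm q q'
    _ = ENNReal.ofReal ((∏ j, s j) ^ 2) * ∑' q : Fin k → Q, ∑' q' : Fin k → Q,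
      ENNReal.ofReal ((∏ j, ww δ U (q j)) * (∏ j, ww δ U (q' j)) *
          ∏ j : Fin k, bb H (lgr (q j).1 - lgr (q' j).1)) := by
        rw [← ENNReal.tsum_mul_left]
        refine tsum_congr fun q => ?_
        rw [← ENNReal.tsum_mul_left]
    _ ≤ ENNReal.ofReal ((∏ j, s j) ^ 2) * ENNReal.ofReal (C * U ^ ((k : ℝ) * (1 + 3 * δ))) :=
        mul_le_mul_right (hcount U H hU hH hHU) _
    _ = _ := by
        rw [← ENNReal.ofReal_mul (by positivity)]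
        congr 1
        ring

end Pool.Agent.P07318s
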