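import Mathlib

/-!
Shifted moments of the Riemann zeta function on the critical line for almost all shifts: definitions.
-/

set_option autoImplicit false

namespace Pool.Agent.P07318s

open MeasureTheory Complex

/-- logarithm of the fraction `p.1 / p.2` -/
noncomputable def lgr (p : ℕ+ × ℕ+) : ℝ := Real.log (p.1 : ℕ) - Real.log (p.2 : ℕ)

/-- the product `p.1 * p.2` (the height, if the fraction is reduced) -/
noncomputable def hgt (p : ℕ+ × ℕ+) : ℝ := ((p.1 : ℕ) : ℝ) * ((p.2 : ℕ) : ℝ)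

/-- `(p.1 / p.2) ^ (-i x)` -/
noncomputable def ex (x : ℝ) (p : ℕ+ × ℕ+) : ℂ := Complex.exp (((-(x * lgr p) : ℝ) : ℂ) * I)

/-- reduced positive fractions -/
def Q : Type := {p : ℕ+ × ℕ+ // Nat.Coprime (p.1 : ℕ) (p.2 : ℕ)}

instance : Countable Q := inferInstanceAs (Countable {p : ℕ+ × ℕ+ // Nat.Coprime (p.1 : ℕ) (p.2 : ℕ)})

/-- the smooth cut-off `W y = erfc (log y / 2)` of the approximate functional equation -/
noncomputable def W (y : ℝ) : ℝ :=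
  (Real.sqrt Real.pi)⁻¹ * ∫ u in Set.Ioi (Real.log y), Real.exp (-u ^ 2 / 4)

/-- the coefficient of `ex x p` in the approximate functional equation -/
noncomputable def cf (x : ℝ) (p : ℕ+ × ℕ+) : ℝ :=
  (hgt p) ^ (-(1 / 2) : ℝ) * W (2 * Real.pi * hgt p / x)

/-- the Dirichlet series of the approximate functional equation for `|ζ(1/2 + i x)| ^ 2` -/
noncomputable def Fd (x : ℝ) : ℂ := ∑' p : ℕ+ × ℕ+, (cf x p : ℂ) * ex x p

/-- logarithm of the product of the fractions -/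
noncomputable def lam {k : ℕ} (p : Fin k → ℕ+ × ℕ+) : ℝ := ∑ j, lgr (p j)

open Classical in
/-- the diagonal terms of the product of `k` approximate functional equations -/
noncomputable def Dg {k : ℕ} (x : Fin k → ℝ) : ℂ :=
  ∑' p : Fin k → ℕ+ × ℕ+, if lam p = 0 then ∏ j, ((cf (x j) (p j) : ℂ) * ex (x j) (p j)) else 0

/-- the coefficient of a reduced fraction of height `h` is `h ^ (-1/2) * Om h x` -/
noncomputable def Om (h x : ℝ) : ℝ := ∑' g : ℕ+, W (2 * Real.pi * ((g : ℕ) : ℝ) ^ 2 * h / x) / ((g : ℕ) : ℝ)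

/-- majorant of the coefficients -/
noncomputable def kap (δ U h : ℝ) : ℝ := if h ≤ U then (U / h) ^ δ else (U / h) ^ (2 : ℝ)

/-- majorant of `∫₀^V exp(-i τ l) dτ` -/
noncomputable def bb (V l : ℝ) : ℝ := 4 * V / (1 + V * |l|)

lemma lgr_add_aux (x y : ℝ) (p : ℕ+ × ℕ+) : ex (x + y) p = ex x p * ex y p := by
  unfold ex
  rw [← Complex.exp_add]
  congr 1
  push_cast
  ring

lemma norm_ex (x : ℝ) (p : ℕ+ × ℕ+) : ‖ex x p‖ = 1 := by
  unfold ex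
  rw [Complex.norm_exp_ofReal_mul_I]

lemma one_le_hgt (p : ℕ+ × ℕ+) : 1 ≤ hgt p := by
  have h1 : (1 : ℝ) ≤ ((p.1 : ℕ) : ℝ) := by exact_mod_cast p.1.2
  have h2 : (1 : ℝ) ≤ ((p.2 : ℕ) : ℝ) := by exact_mod_cast p.2.2
  unfold hgt
  nlinarith

lemma hgt_pos (p : ℕ+ × ℕ+) : 0 < hgt p := lt_of_lt_of_le one_pos (one_le_hgt p)

lemma bb_nonneg {V : ℝ} (hV : 0 ≤ V) (l : ℝ) : 0 ≤ bb V l := by unfold bb; positivity

lemma bb_le {V : ℝ} (hV : 0 ≤ V) (l : ℝ) : bb V l ≤ 4 * V := by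
  unfold bb
  have h : 0 ≤ V * |l| := by positivity
  rw [div_le_iff₀ (by linarith)]
  nlinarith

lemma bb_le_inv {V : ℝ} (hV : 0 ≤ V) {l : ℝ} (hl : l ≠ 0) : bb V l ≤ 4 / |l| := by
  unfold bb
  have hl' : 0 < |l| := abs_pos.2 hl
  have h : 0 ≤ V * |l| := by positivity
  rw [div_le_div_iff₀ (by linarith) hl']
  nlinarith

lemma bb_abs (V l : ℝ) : bb V |l| = bb V l := by unfold bb; rw [abs_abs]

lemma bb_neg (V l : ℝ) : bb V (-l) = bb V l := by unfold bb; rw [abs_neg]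

lemma kap_nonneg {δ U h : ℝ} (hU : 0 ≤ U) (hh : 0 ≤ h) : 0 ≤ kap δ U h := by
  unfold kap
  split_ifs <;> positivity

lemma kap_le {δ U h : ℝ} (hδ : δ ≤ 2) (hU : 0 < U) (hh : 0 < h) : kap δ U h ≤ (U / h) ^ δ := by
  unfold kap
  split_ifs with h1
  · exact le_rfl
  · push Not at h1
    have h2 : U / h ≤ 1 := (div_le_one hh).2 h1.le
    exact Real.rpow_le_rpow_of_exponent_ge (by positivity) h2 hδ

/-- `∫₀^V exp(-i τ l) dτ` -/
noncomputable def osc (V l : ℝ) : ℂ := ∫ τ in (0:ℝ)..V, Complex.exp (((-(τ * l) : ℝ) : ℂ) * I)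

lemma norm_osc_le {V : ℝ} (hV : 0 ≤ V) (l : ℝ) : ‖osc V l‖ ≤ bb V l := by
  have h1 : ‖osc V l‖ ≤ V := by
    unfold osc
    have := intervalIntegral.norm_integral_le_of_norm_le_const (a := 0) (b := V) (C := 1)
      (f := fun τ : ℝ => Complex.exp (((-(τ * l) : ℝ) : ℂ) * I)) (fun τ _ => by
        rw [Complex.norm_exp_ofReal_mul_I])
    simpa [abs_of_nonneg hV] using this
  by_cases hl : l = 0
  · subst hl
    unfold bb
    simp only [abs_zero, mul_zero, add_zero, div_one]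
    linarith
  have hl' : 0 < |l| := abs_pos.2 hl
  have h2 : ‖osc V l‖ ≤ 2 / |l| := by
    unfold osc
    have hc : (-(l : ℂ) * I) ≠ 0 := by
      simp [hl]
    have e : ∀ τ : ℝ, Complex.exp (((-(τ * l) : ℝ) : ℂ) * I) = Complex.exp ((-(l : ℂ) * I) * τ) := by
      intro τ
      congr 1
      push_cast
      ring
    simp_rw [e]
    rw [integral_exp_mul_complex hc]
    rw [norm_div]
    have hn : ‖-(l : ℂ) * I‖ = |l| := by simp
    rw [hn]
    refine div_le_div_of_nonneg_right ?_ hl'.le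
    refine (norm_sub_le _ _).trans ?_
    have e1 : ∀ τ : ℝ, ‖Complex.exp ((-(l : ℂ) * I) * τ)‖ = 1 := by
      intro τ
      rw [← e, Complex.norm_exp_ofReal_mul_I]
    rw [e1, e1]
    norm_num
  unfold bb
  have h : 0 ≤ V * |l| := by positivity
  rw [le_div_iff₀ (by linarith)]
  by_cases hc : V * |l| ≤ 1
  · nlinarith
  · push Not at hc
    have h3 : ‖osc V l‖ * |l| ≤ 2 := by rwa [le_div_iff₀ hl'] at h2
    nlinarith

/-! ### the main term -/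

/-- `e(θ) = exp(2π i θ)` -/
noncomputable def ee (θ : ℝ) : ℂ := Complex.exp (2 * Real.pi * I * θ)

/-- the Euler factor at `p` of `A_k(z, z')` (`z = (z₁, …, z_k)`, `z' = (z_{k+1}, …, z_{2k})`) -/
noncomputable def Afac {k : ℕ} (z z' : Fin k → ℂ) (p : ℕ) : ℂ :=
  (∏ l, ∏ j, (1 - (p : ℂ) ^ (-1 - z l + z' j))) *
    ∫ θ in (0:ℝ)..1, ∏ j, ((1 - ee θ / (p : ℂ) ^ (1 / 2 + z j))⁻¹ *
      (1 - ee (-θ) / (p : ℂ) ^ (1 / 2 - z' j))⁻¹)

/-- the Euler product `A_k(z₁, …, z_{2k})` -/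
noncomputable def AA {k : ℕ} (z z' : Fin k → ℂ) : ℂ := ∏' p : Nat.Primes, Afac z z' p

/-- the function `G(z₁, …, z_{2k}) = A_k(z₁, …, z_{2k}) ∏ ζ(1 + z_i - z_{k+j})` -/
noncomputable def GG {k : ℕ} (z z' : Fin k → ℂ) : ℂ :=
  AA z z' * ∏ i, ∏ j, riemannZeta (1 + z i - z' j)

/-- the main term at the heights `x₁, …, x_k` -/
noncomputable def mainTerm {k : ℕ} (x : Fin k → ℝ) : ℂ :=
  ((Real.pi * I) ^ k)⁻¹ * ∯ w in T(0, fun _ => 1 / 8),
    GG (fun j => w j + x j * I) (fun j => -w j + x j * I) *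
      ∏ j, (((x j / (2 * Real.pi) : ℝ) : ℂ) ^ (w j) / w j)


/-- `G` at the points `z_j = w_j + i x_j`, `z'_j = -w_j + i x_j` -/
noncomputable def GX {k : ℕ} (x : Fin k → ℝ) (w : Fin k → ℂ) : ℂ :=
  GG (fun j => w j + x j * I) (fun j => -w j + x j * I)

/-- `A` at the points `z_j = w_j + i x_j`, `z'_j = -w_j + i x_j` -/
noncomputable def AX {k : ℕ} (x : Fin k → ℝ) (w : Fin k → ℂ) : ℂ :=
  AA (fun j => w j + x j * I) (fun j => -w j + x j * I)

lemma GX_eq {k : ℕ} (x : Fin k → ℝ) (w : Fin k → ℂ) :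
    GX x w = AX x w * ∏ i, ∏ j, riemannZeta (1 + w i + w j + ((x i - x j : ℝ) : ℂ) * I) := by
  unfold GX GG AX
  congr 1
  refine Finset.prod_congr rfl fun i _ => Finset.prod_congr rfl fun j _ => ?_
  congr 1
  push_cast
  ring

/-- region of convergence of the Euler product `A`: one variable may go almost to the line
`Re = -1/2`, the others stay near the line `Re = 0` -/
def Rg (k : ℕ) (e ρ : ℝ) : Set (Fin k → ℂ) :=
  {w | ∃ j₀, -(1 / 2) + e < (w j₀).re ∧ ∀ j, j ≠ j₀ → -ρ < (w j).re}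

/-- a good difference of two shifts -/
def Good (κ Y B δ : ℝ) : Prop :=
  4 * Y < |δ| ∧ ∀ σ v : ℝ, 1 / 2 + κ ≤ σ → σ ≤ 3 → |v| ≤ 2 * Y →
    ‖riemannZeta (σ + ((δ + v : ℝ) : ℂ) * I)‖ ≤ B

/-- the normalised local factor -/
noncomputable def JJ {m n : ℕ} (X : Fin m → ℂ) (Y : Fin n → ℂ) : ℂ :=
  (∏ i, ∏ j, (1 - X i * Y j)) *
    ∫ θ in (0:ℝ)..1, (∏ i, (1 - ee θ * X i)⁻¹) * ∏ j, (1 - ee (-θ) * Y j)⁻¹

/-- the coefficients of `∏ ζ(s + s_j)` -/
noncomputable def hh {k : ℕ} (s : Fin k → ℂ) (N : ℕ) : ℂ :=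
  ∑ m ∈ Nat.finMulAntidiag k N, ∏ j, ((m j : ℕ) : ℂ) ^ (-(s j))

/-! ### kernels of the approximate functional equation -/

noncomputable def gx (x : ℝ) (s : ℂ) : ℂ :=
  Gammaℝ (1 / 2 + s + x * I) * Gammaℝ (1 / 2 + s - x * I) /
    (Gammaℝ (1 / 2 + x * I) * Gammaℝ (1 / 2 - x * I))

noncomputable def qx (x : ℝ) (s : ℂ) : ℂ :=
  (1 / 4 - (s + x * I) ^ 2) * (1 / 4 - (s - x * I) ^ 2) / (((1 / 4 + x ^ 2) ^ 2 : ℝ) : ℂ)

/-! ### off-diagonal sums -/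

/-- the off-diagonal sum with separated coefficients -/
noncomputable def NN {k : ℕ} (z : Fin k → Q → ℝ) (x : Fin k → ℝ) : ℂ :=
  ∑' q : Fin k → Q, if lam (fun j => (q j).1) = 0 then 0 else ∏ j, ((z j (q j) : ℂ) * ex (x j) (q j).1)

/-- the off-diagonal sum with separated coefficients, integrated over a segment of length `V` -/
noncomputable def MM {k : ℕ} (z : Fin k → Q → ℝ) (V : ℝ) (x : Fin k → ℝ) : ℂ :=
  ∑' q : Fin k → Q, if lam (fun j => (q j).1) = 0 then 0 else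
    (∏ j, ((z j (q j) : ℂ) * ex (x j) (q j).1)) * osc V (lam (fun j => (q j).1))

/-- majorant of the coefficients of a reduced fraction -/
noncomputable def ww (δ U : ℝ) (q : Q) : ℝ := kap δ U (hgt q.1) * (hgt q.1) ^ (-(1 / 2) : ℝ)

/-- separated expansion of the coefficients -/
def IsSep (δ U C : ℝ) (a : ℕ → ℝ → ℝ) : Prop :=
  (∀ l : ℕ, ∀ h : ℝ, 1 ≤ h → |a l h| ≤ C / 16 ^ l * kap δ U h) ∧
    ∀ h : ℝ, 1 ≤ h → ∀ x : ℝ, U ≤ x → x ≤ 4 * U →
      HasSum (fun l : ℕ => (Real.log (x / U)) ^ l * a l h) (Om h x)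

/-- the coefficients of the separated off-diagonal sums -/
noncomputable def za {k : ℕ} (a : ℕ → ℝ → ℝ) (l : Fin k → ℕ) (j : Fin k) (q : Q) : ℝ :=
  (hgt q.1) ^ (-(1 / 2) : ℝ) * a (l j) (hgt q.1)

lemma ww_nonneg {δ U : ℝ} (hU : 0 ≤ U) (q : Q) : 0 ≤ ww δ U q :=
  mul_nonneg (kap_nonneg hU (hgt_pos q.1).le) (Real.rpow_nonneg (hgt_pos q.1).le _)

lemma za_le {k : ℕ} {δ U C : ℝ} {a : ℕ → ℝ → ℝ} (ha : IsSep δ U C a) (l : Fin k → ℕ) (j : Fin k)
    (q : Q) : |za a l j q| ≤ C / 16 ^ (l j) * ww δ U q := by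
  unfold za ww
  rw [abs_mul, abs_of_nonneg (Real.rpow_nonneg (hgt_pos q.1).le _)]
  have h := ha.1 (l j) (hgt q.1) (one_le_hgt q.1)
  have h0 : 0 ≤ (hgt q.1) ^ (-(1 / 2) : ℝ) := Real.rpow_nonneg (hgt_pos q.1).le _
  calc (hgt q.1) ^ (-(1 / 2) : ℝ) * |a (l j) (hgt q.1)|
      ≤ (hgt q.1) ^ (-(1 / 2) : ℝ) * (C / 16 ^ (l j) * kap δ U (hgt q.1)) :=
        mul_le_mul_of_nonneg_left h h0
    _ = C / 16 ^ (l j) * (kap δ U (hgt q.1) * (hgt q.1) ^ (-(1 / 2) : ℝ)) := by ring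

end Pool.Agent.P07318s
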