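import Pool.Agent.Lib.P07318s.Defs
import Pool.Agent.Lib.P07318s.AFE
import Pool.Agent.Lib.P07318s.SecondMoment
import Pool.Agent.Lib.P07318s.E1
import Pool.Agent.Lib.P07318s.Cont

/-!
As `e1` (E1.lean: `e1_prod_diff`, `e1_lint_prod`, `e1_lint_le`), with a box in all `k` shifts and a window `[0, L]`:
for each fixed `t ∈ [0, L]` the integral over the box of `‖∏‖ζ‖² - ∏Fd‖` is `≤ C U^(-1/2+ε) H^k` (each factor
`∫_{β_j}^{β_j+H} ‖ζ(1/2+i(t+α_j))‖² dα_j ≤ C U^ε' H`), then integrate over `t`.
-/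

set_option autoImplicit false

namespace Pool.Agent.P07318s

open MeasureTheory Complex

theorem e1_f (k : ℕ) (ε : ℝ) (hε : 0 < ε) : ∃ C : ℝ, 0 < C ∧ ∀ U L H : ℝ, 1 ≤ U → 0 ≤ L → L ≤ U →
    U ^ (1 / 2 : ℝ) ≤ H → H ≤ U → ∀ β : Fin k → ℝ, (∀ j, U ≤ β j) → (∀ j, β j ≤ 2 * U) →
    ∃ B : (Fin k → ℝ) → ENNReal, Measurable B ∧
      (∀ α ∈ Set.Icc β (fun j => β j + H), ∀ V ∈ Set.Icc (0:ℝ) L,
        ‖∫ t in (0:ℝ)..V, (((∏ j, ‖riemannZeta (1 / 2 + ((t + α j : ℝ) : ℂ) * I)‖ ^ 2 : ℝ) : ℂ) -
          ∏ j, Fd (t + α j))‖ₑ ≤ B α) ∧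
      ∫⁻ α in Set.Icc β (fun j => β j + H), B α ≤ ENNReal.ofReal (C * L * U ^ (-(1 / 2) + ε) * H ^ k) := by
  rcases k with _ | n
  · refine ⟨1, one_pos, fun U L H _ _ _ _ _ β _ _ => ⟨fun _ => 0, measurable_const, fun α _ V _ => ?_, ?_⟩⟩
    · simp
    · simp
  set ε' : ℝ := min (ε / (n + 1)) (1 / 2) with hε'
  have hn : (0 : ℝ) < n + 1 := by positivity
  have hε'0 : 0 < ε' := lt_min (by positivity) (by norm_num)
  have hε'1 : ε' ≤ 1 / 2 := min_le_right _ _
  have hε'2 : (n + 1) * ε' ≤ ε := by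
    have := min_le_left (ε / (n + 1)) (1 / 2 : ℝ)
    calc (n + 1) * ε' ≤ (n + 1) * (ε / (n + 1)) := mul_le_mul_of_nonneg_left this hn.le
      _ = ε := by field_simp
  obtain ⟨C1, hC1, hafe⟩ := afe ε' hε'0
  obtain ⟨C2, hC2, hsm⟩ := second_moment ε' hε'0
  refine ⟨(n + 1) * C1 * (2 * C2 + C1) ^ n, by positivity, ?_⟩
  intro U L H hU hL hLU hUH hHU β hβ hβ'
  have hU0 : 0 < U := by linarith
  set η : ℝ := C1 * U ^ (-(1 / 2) + ε') with hη
  have hη0 : 0 ≤ η := by positivity
  set D : ℝ := 2 * C2 + C1 with hD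
  have hη1 : η ≤ C1 * U ^ ε' := by
    refine mul_le_mul_of_nonneg_left (Real.rpow_le_rpow_of_exponent_le hU (by linarith)) hC1.le
  have hH0 : 0 ≤ H := (Real.rpow_nonneg hU0.le _).trans hUH
  set g : ℝ → ENNReal := fun x => ENNReal.ofReal (‖riemannZeta (1 / 2 + ((x : ℝ) : ℂ) * I)‖ ^ 2 + η) with hg
  have hgm : Measurable g := by
    have := (zeta_half_continuous.norm.pow 2).add (continuous_const (y := η))
    exact this.measurable.ennreal_ofReal
  set G : Fin (n + 1) → Fin (n + 1) → ℝ → ENNReal := fun j i x => if i = j then ENNReal.ofReal η else g x with hG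
  have hGm : ∀ j i, Measurable (G j i) := by
    intro j i
    simp only [hG]
    split_ifs
    · exact measurable_const
    · exact hgm
  set M : Fin (n + 1) → Fin (n + 1) → ℝ := fun j i => if i = j then η else D * U ^ ε' with hM
  have hM0 : ∀ j i, 0 ≤ M j i := by
    intro j i
    simp only [hM]
    split_ifs <;> positivity
  -- integral of one factor
  have hone : ∀ (j i : Fin (n + 1)) (s a b K : ℝ), a ≤ b → b - a ≤ K → U ^ (1 / 2 : ℝ) ≤ K → -(4 * U) ≤ s + a →
      s + b ≤ 4 * U → ∫⁻ x in Set.Icc a b, G j i (s + x) ≤ ENNReal.ofReal (M j i * K) := by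
    intro j i s a b K hab hK hK2 h1 h2
    by_cases hij : i = j
    · simp only [hG, hM, if_pos hij]
      rw [setLIntegral_const, Real.volume_Icc, ← ENNReal.ofReal_mul hη0]
      exact ENNReal.ofReal_le_ofReal (mul_le_mul_of_nonneg_left hK hη0)
    · simp only [hG, hM, if_neg hij, hg]
      exact e1_lint_le hU hη0 hC2 (fun a b h1 h2 h3 => hsm U a b hU h1 h2 h3) hη1 hab hK hK2 h1 h2
  have hbox : Set.Icc β (fun j => β j + H) = Set.pi Set.univ (fun i => Set.Icc (β i) (β i + H)) :=
    (Set.pi_univ_Icc _ _).symm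
  have hvol : (volume : Measure (Fin (n + 1) → ℝ)).restrict (Set.Icc β (fun j => β j + H)) =
      Measure.pi (fun i => volume.restrict (Set.Icc (β i) (β i + H))) := by
    rw [hbox, volume_pi, Measure.restrict_pi_pi]
  have hm1 : ∀ (j : Fin (n + 1)) (t : ℝ), Measurable (fun α : Fin (n + 1) → ℝ => ∏ i, G j i (t + α i)) :=
    fun j t => Finset.measurable_fun_prod _ fun i _ => (hGm _ _).comp (measurable_const.add (measurable_pi_apply i))
  have hm2 : Measurable (fun p : (Fin (n + 1) → ℝ) × ℝ => ∑ j, ∏ i, G j i (p.2 + p.1 i)) := by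
    refine Finset.measurable_sum _ fun j _ => ?_
    refine Finset.measurable_prod _ fun i _ => ?_
    exact (hGm _ _).comp (measurable_snd.add ((measurable_pi_apply i).comp measurable_fst))
  refine ⟨fun α => ∫⁻ t in Set.Icc 0 L, ∑ j, ∏ i, G j i (t + α i), hm2.lintegral_prod_right', ?_, ?_⟩
  · intro α hα V hV
    have hpt : ∀ t ∈ Set.Icc (0 : ℝ) V,
        ‖(((∏ j, ‖riemannZeta (1 / 2 + ((t + α j : ℝ) : ℂ) * I)‖ ^ 2 : ℝ) : ℂ) -
          ∏ j, Fd (t + α j))‖ₑ ≤ ∑ j, ∏ i, G j i (t + α i) := by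
      intro t ht
      have hx : ∀ j, 1 ≤ t + α j ∧ U ≤ t + α j := by
        intro j
        have : U ≤ t + α j := by linarith [ht.1, hα.1 j, hβ j]
        exact ⟨hU.trans this, this⟩
      have hb := e1_prod_diff (n + 1)
        (fun j => ((‖riemannZeta (1 / 2 + ((t + α j : ℝ) : ℂ) * I)‖ ^ 2 : ℝ) : ℂ))
        (fun j => Fd (t + α j))
        (fun j => ‖riemannZeta (1 / 2 + ((t + α j : ℝ) : ℂ) * I)‖ ^ 2) hη0
        (fun j => by rw [Complex.norm_real, Real.norm_of_nonneg (by positivity)])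
        (fun j => by
          refine (hafe _ (hx j).1).trans ?_
          refine mul_le_mul_of_nonneg_left ?_ hC1.le
          exact Real.rpow_le_rpow_of_nonpos hU0 (hx j).2 (by linarith))
      rw [← ofReal_norm]
      rw [Complex.ofReal_prod]
      refine (ENNReal.ofReal_le_ofReal hb).trans ?_
      rw [ENNReal.ofReal_sum_of_nonneg]
      swap
      · intro j _
        refine Finset.prod_nonneg fun i _ => ?_
        split_ifs <;> positivity
      refine le_of_eq (Finset.sum_congr rfl fun j _ => ?_)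
      rw [ENNReal.ofReal_prod_of_nonneg]
      swap
      · intro i _
        split_ifs <;> positivity
      refine Finset.prod_congr rfl fun i _ => ?_
      simp only [hG, hg]
      split_ifs <;> rfl
    rw [intervalIntegral.integral_of_le hV.1, ← integral_Icc_eq_integral_Ioc]
    refine (enorm_integral_le_lintegral_enorm _).trans ?_
    refine (setLIntegral_mono' measurableSet_Icc fun t ht => hpt t ht).trans ?_
    exact lintegral_mono_set (Set.Icc_subset_Icc_right hV.2)
  · calc ∫⁻ α in Set.Icc β (fun j => β j + H), ∫⁻ t in Set.Icc 0 L, ∑ j, ∏ i, G j i (t + α i)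
        = ∫⁻ t in Set.Icc 0 L, ∫⁻ α in Set.Icc β (fun j => β j + H), ∑ j, ∏ i, G j i (t + α i) := by
          exact lintegral_lintegral_swap hm2.aemeasurable
      _ ≤ ∫⁻ t in Set.Icc 0 L, ∑ j : Fin (n + 1), ∏ i, ENNReal.ofReal (M j i * H) := by
          refine setLIntegral_mono' measurableSet_Icc fun t ht => ?_
          rw [hvol, lintegral_finsetSum _ (fun j _ => hm1 j t)]
          refine Finset.sum_le_sum fun j _ => ?_
          rw [e1_lint_prod (n + 1) _ (fun i x => G j i (t + x))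
            (fun i => (hGm _ _).comp (measurable_const.add measurable_id))]
          refine Finset.prod_le_prod' fun i _ => ?_
          refine hone j i t _ _ H (by linarith) (by linarith) hUH ?_ ?_
          · linarith [ht.1, hβ i]
          · linarith [ht.2, hβ' i]
      _ = ∫⁻ t in Set.Icc 0 L, ENNReal.ofReal ((n + 1) * (η * (D * U ^ ε') ^ n * H ^ (n + 1))) := by
          refine lintegral_congr fun t => ?_
          have h1 : ∀ j : Fin (n + 1), (∏ i, ENNReal.ofReal (M j i * H)) =
              ENNReal.ofReal (η * (D * U ^ ε') ^ n * H ^ (n + 1)) := by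
            intro j
            rw [← ENNReal.ofReal_prod_of_nonneg (fun i _ => mul_nonneg (hM0 _ _) hH0)]
            congr 1
            rw [Finset.prod_mul_distrib, ← e1_prod_ite n j η (D * U ^ ε')]
            simp only [Finset.prod_const, Finset.card_univ, Fintype.card_fin, hM]
          simp_rw [h1]
          rw [Finset.sum_const, Finset.card_univ, Fintype.card_fin, nsmul_eq_mul,
            ENNReal.ofReal_mul hn.le]
          congr 1
          rw [ENNReal.ofReal_add (by positivity) zero_le_one]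
          simp
      _ = ENNReal.ofReal ((n + 1) * (η * (D * U ^ ε') ^ n * H ^ (n + 1)) * L) := by
          rw [setLIntegral_const, Real.volume_Icc, sub_zero, ← ENNReal.ofReal_mul (by positivity)]
      _ ≤ _ := by
          refine ENNReal.ofReal_le_ofReal ?_
          have e1 : U ^ (-(1 / 2) + ε') * (U ^ ε') ^ n = U ^ (-(1 / 2) + (n + 1) * ε') := by
            rw [← Real.rpow_natCast, ← Real.rpow_mul hU0.le, ← Real.rpow_add hU0]
            congr 1
            ring
          have e2 : U ^ (-(1 / 2) + (n + 1) * ε') ≤ U ^ (-(1 / 2) + ε) :=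
            Real.rpow_le_rpow_of_exponent_le hU (by linarith)
          have e3 : (n + 1) * (η * (D * U ^ ε') ^ n * H ^ (n + 1)) * L =
              ((n + 1) * C1 * D ^ n * L) * (U ^ (-(1 / 2) + ε') * (U ^ ε') ^ n) * H ^ (n + 1) := by
            rw [hη, mul_pow]
            ring
          rw [e3, e1]
          have hC : 0 ≤ (n + 1) * C1 * D ^ n * L := by positivity
          exact mul_le_mul_of_nonneg_right (mul_le_mul_of_nonneg_left e2 hC) (by positivity)

end Pool.Agent.P07318s
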