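import Pool.Agent.Lib.P07318s.Defs
import Pool.Agent.Lib.P07318s.Sep
import Pool.Agent.Lib.P07318s.MeanF
import Pool.Agent.Lib.P07318s.SupMM
import Pool.Agent.Lib.P07318s.SupR

/-!
Box in all `k` shifts, windows of length `L ≤ U`, all `V ≤ L`. As `sup_v` with `X = Fin k → ℝ`, `A = id`, `V₀ = L`, `M` with
`L ≤ 2^M ≤ 2L` (`1 ≤ L`), `K_l = C (∏ C₀/16^(l_j))² L U^(k(1+3δ))`: `h1`: for `v ≤ L`, `mean_f` gives `≤ C(..)² v U^(..) ≤ K`; `h2`: for each `v` the
shifted box `β + v` (translation invariance of Lebesgue measure, `mean_f` holds for every base point):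
`≤ L · C(..)² (L/2^(m+1)) U^(..) ≤ (L/2^m) K`; `h3`: `≤ L C (..)² U^(..) = K ≤ (2^M/L) K` by `mean_f0`.
-/

set_option autoImplicit false

namespace Pool.Agent.P07318s

open MeasureTheory Complex

theorem supf_shift {k : ℕ} (β : Fin k → ℝ) (H v : ℝ) (g : (Fin k → ℝ) → ENNReal) :
    ∫⁻ x in Set.Icc β (fun j => β j + H), g (fun j => v + x j) =
      ∫⁻ x in Set.Icc (fun j => v + β j) (fun j => v + β j + H), g x := by
  have h := (measurePreserving_add_left (volume : Measure (Fin k → ℝ)) (fun _ => v)).setLIntegral_comp_preimage_emb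
    (MeasurableEquiv.addLeft (fun _ : Fin k => v)).measurableEmbedding g
    (Set.Icc (fun j => v + β j) (fun j => v + β j + H))
  rw [← h, Set.preimage_const_add_Icc]
  have e1 : (fun j => v + β j) - (fun _ : Fin k => v) = β := by
    funext j
    simp
  have e2 : (fun j => v + β j + H) - (fun _ : Fin k => v) = (fun j => β j + H) := by
    funext j
    simp only [Pi.sub_apply]
    ring
  rw [e1, e2]
  rfl

theorem supf_double {k : ℕ} (β : Fin k → ℝ) (H : ℝ) {L : ℝ} (F : ℝ → (Fin k → ℝ) → ENNReal)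
    (hF : Measurable (Function.uncurry F)) {R : ℝ} (hR : 0 ≤ R)
    (hb : ∀ v ∈ Set.Icc (0:ℝ) L, ∫⁻ x in Set.Icc β (fun j => β j + H), F v x ≤ ENNReal.ofReal R) :
    ∫⁻ x in Set.Icc β (fun j => β j + H), (∫⁻ v in Set.Icc (0:ℝ) L, F v x) ≤
      ENNReal.ofReal (L * R) := by
  rw [lintegral_lintegral_swap]
  · calc ∫⁻ v in Set.Icc (0:ℝ) L, ∫⁻ x in Set.Icc β (fun j => β j + H), F v x
        ≤ ∫⁻ v in Set.Icc (0:ℝ) L, ENNReal.ofReal R := setLIntegral_mono' measurableSet_Icc hb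
      _ = ENNReal.ofReal (L * R) := by
        rw [setLIntegral_const, Real.volume_Icc, sub_zero, ← ENNReal.ofReal_mul hR, mul_comm]
  · exact (hF.comp measurable_swap).aemeasurable

theorem supf_log {δ : ℝ} (hδ : 0 < δ) {U : ℝ} (hU : 1 ≤ U) {n : ℕ} (hn : (2:ℝ) ^ n ≤ U) :
    ((n + 1 : ℕ) + 2 : ℝ) ^ 2 ≤ (3 + 2 / (δ * Real.log 2)) ^ 2 * U ^ δ := by
  have hU0 : 0 < U := by linarith
  have hl2 : 0 < Real.log 2 := Real.log_pos (by norm_num)
  have h1 : (n : ℝ) * Real.log 2 ≤ Real.log U := by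
    rw [← Real.log_pow]
    exact Real.log_le_log (by positivity) hn
  have h2 : Real.log U ≤ U ^ (δ / 2) / (δ / 2) := Real.log_le_rpow_div hU0.le (by positivity)
  have h3 : 1 ≤ U ^ (δ / 2) := Real.one_le_rpow hU (by positivity)
  have h4 : (n : ℝ) ≤ 2 / (δ * Real.log 2) * U ^ (δ / 2) := by
    have : (n : ℝ) ≤ (U ^ (δ / 2) / (δ / 2)) / Real.log 2 := by
      rw [le_div_iff₀ hl2]
      exact h1.trans h2
    refine this.trans (le_of_eq ?_)
    field_simp
  have h5 : ((n + 1 : ℕ) + 2 : ℝ) ≤ (3 + 2 / (δ * Real.log 2)) * U ^ (δ / 2) := by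
    push_cast
    nlinarith
  calc ((n + 1 : ℕ) + 2 : ℝ) ^ 2 ≤ ((3 + 2 / (δ * Real.log 2)) * U ^ (δ / 2)) ^ 2 :=
        pow_le_pow_left₀ (by positivity) h5 2
    _ = (3 + 2 / (δ * Real.log 2)) ^ 2 * U ^ δ := by
        rw [mul_pow, ← Real.rpow_natCast (U ^ (δ / 2)) 2, ← Real.rpow_mul hU0.le]
        congr 2
        push_cast
        ring

theorem supf_zero (t : ℝ) (α : Fin 0 → ℝ) :
    ((∏ j, Fd (t + α j)) - Dg (fun j => t + α j)) = 0 := by
  have h : Dg (fun j : Fin 0 => t + α j) = 1 := by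
    unfold Dg
    rw [tsum_eq_single (default : Fin 0 → ℕ+ × ℕ+) (fun b hb => absurd (Subsingleton.elim b default) hb)]
    rw [if_pos (by simp [lam])]
    simp
  rw [h]
  simp

theorem sup_f (k : ℕ) (δ : ℝ) (hδ : 0 < δ) (hδ2 : δ ≤ 1 / 2) : ∃ C : ℝ, 0 < C ∧ ∀ U L H : ℝ, 1 ≤ U →
    1 ≤ L → L ≤ U → 0 ≤ H → H ≤ U → ∀ β : Fin k → ℝ, (∀ j, U ≤ β j) → (∀ j, β j ≤ 2 * U) →
    ∃ B : (Fin k → ℝ) → ENNReal, Measurable B ∧
      (∀ α ∈ Set.Icc β (fun j => β j + H), ∀ V ∈ Set.Icc (0:ℝ) L,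
        ‖∫ t in (0:ℝ)..V, ((∏ j, Fd (t + α j)) - Dg (fun j => t + α j))‖ₑ ≤ B α) ∧
      ∫⁻ α in Set.Icc β (fun j => β j + H), B α ^ 2 ≤
        ENNReal.ofReal (C * L * U ^ ((k : ℝ) * (1 + 4 * δ))) := by
  rcases Nat.eq_zero_or_pos k with hk | hk
  · subst hk
    refine ⟨1, one_pos, ?_⟩
    intro U L H hU hL hLU hH hHU β hβ1 hβ2
    refine ⟨fun _ => 0, measurable_const, ?_, ?_⟩
    · intro α _ V _
      simp only [supf_zero]
      simp
    · simp
  obtain ⟨C₀, hC₀, hsep⟩ := exists_sep δ hδ hδ2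
  obtain ⟨C1, hC1, hmean⟩ := mean_f k δ hδ hδ2
  obtain ⟨C2, hC2, hmean0⟩ := mean_f0 k δ hδ hδ2
  obtain ⟨c, hc, hR⟩ := sup_R k
  set D : ℝ := (3 + 2 / (δ * Real.log 2)) ^ 2 with hD
  have hD0 : 0 ≤ D := by positivity
  refine ⟨c * C₀ ^ (2 * k) * (D * (C1 + C2)) + 1, by positivity, ?_⟩
  intro U L H hU hL hLU hH hHU β hβ1 hβ2
  have hU0 : 0 < U := by linarith
  have hL0 : 0 < L := by linarith
  obtain ⟨a, ha⟩ := hsep U hU
  obtain ⟨n, hn1, hn2⟩ := exists_nat_pow_near hL (by norm_num : (1:ℝ) < 2)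
  set X : ℝ := U ^ ((k : ℝ) * (1 + 3 * δ)) with hX
  have hX0 : 0 ≤ X := by positivity
  set μ : Measure (Fin k → ℝ) := volume.restrict (Set.Icc β (fun j => β j + H)) with hμ
  set K : ℝ := ((n + 1 : ℕ) + 2 : ℝ) ^ 2 * ((C1 + C2) * L * X) with hK
  have hK0 : 0 ≤ K := by positivity
  have key : ∀ l : Fin k → ℕ, ∃ B : (Fin k → ℝ) → ENNReal, Measurable B ∧
      (∀ x, ∀ V ∈ Set.Icc (0:ℝ) L, ‖MM (za a l) V (id x)‖ₑ ≤ B x) ∧
      ∫⁻ x, B x ^ 2 ∂μ ≤ ENNReal.ofReal ((∏ j, C₀ / 16 ^ (l j)) ^ 2 * K) := by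
    intro l
    have hz : ∀ (j : Fin k) (q : Q),
        |za a l j q| ≤ (fun j => C₀ / 16 ^ (l j)) j * ww δ U q := fun j q => za_le ha l j q
    have hsn : ∀ j : Fin k, 0 ≤ (fun j => C₀ / 16 ^ (l j)) j := fun j => by positivity
    set P : ℝ := (∏ j, C₀ / 16 ^ (l j)) ^ 2 with hP
    have hP0 : 0 ≤ P := by positivity
    have hMc := MM_continuous hδ hδ2 hU (za a l) _ hz
    have hNc := NN_continuous hδ hδ2 hU (za a l) _ hz
    have hcs : Continuous (fun p : ℝ × (Fin k → ℝ) => (fun j => p.1 + p.2 j : Fin k → ℝ)) := by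
      fun_prop
    obtain ⟨B, hB1, hB2, hB3⟩ := sup_MM μ hδ hδ2 hU (za a l) _ hz id measurable_id
      (V₀ := L) (K := P * ((C1 + C2) * L * X)) hL0 (by positivity) (n + 1)
      (by
        refine (supf_double β H (fun v x => ‖MM (za a l) v (id x)‖ₑ ^ 2) ?_
          (R := P * ((C1 + C2) * L * X)) (by positivity) ?_)
        · exact (hMc.enorm.measurable).pow_const 2
        · intro v hv
          refine (hmean U v H hU hv.1 (hv.2.trans hLU) hH hHU (za a l) _ hsn hz β).trans ?_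
          apply ENNReal.ofReal_le_ofReal
          have h1 : C1 * P * v * X ≤ C1 * P * L * X := by
            have := hv.2
            gcongr
          refine h1.trans ?_
          have h2 : 0 ≤ C2 * P * L * X := by positivity
          nlinarith)
      (by
        intro m hm
        have hle : L / 2 ^ (m + 1) ≤ L := div_le_self hL0.le (one_le_pow₀ (by norm_num))
        refine (supf_double β H (fun v x => ‖MM (za a l) (L / 2 ^ (m + 1)) (fun j => v + id x j)‖ₑ ^ 2) ?_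
          (R := P * ((C1 + C2) * (L / 2 ^ (m + 1)) * X)) (by positivity) ?_).trans ?_
        · have hc : Continuous (fun p : ℝ × (Fin k → ℝ) =>
              MM (za a l) (L / 2 ^ (m + 1)) (fun j => p.1 + p.2 j)) := by
            have hcc : Continuous (fun p : ℝ × (Fin k → ℝ) =>
                ((L / 2 ^ (m + 1), fun j => p.1 + p.2 j) : ℝ × (Fin k → ℝ))) :=
              continuous_const.prodMk hcs
            have := hMc.comp hcc
            exact this
          exact (hc.enorm.measurable).pow_const 2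
        · intro v hv
          have hsh := supf_shift β H v (fun x => ‖MM (za a l) (L / 2 ^ (m + 1)) x‖ₑ ^ 2)
          refine (le_of_eq hsh).trans ?_
          refine (hmean U (L / 2 ^ (m + 1)) H hU (by positivity) (hle.trans hLU) hH hHU (za a l) _ hsn hz
            (fun j => v + β j)).trans ?_
          apply ENNReal.ofReal_le_ofReal
          have h2 : 0 ≤ C2 * P * (L / 2 ^ (m + 1)) * X := by positivity
          nlinarith
        · apply ENNReal.ofReal_le_ofReal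
          have e : L * (P * ((C1 + C2) * (L / 2 ^ (m + 1)) * X)) =
              (1 / 2) * (L / 2 ^ m * (P * ((C1 + C2) * L * X))) := by
            rw [pow_succ]
            field_simp
          rw [e]
          have : 0 ≤ L / 2 ^ m * (P * ((C1 + C2) * L * X)) := by positivity
          linarith)
      (by
        refine (supf_double β H (fun v x => ‖NN (za a l) (fun j => v + id x j)‖ₑ ^ 2) ?_
          (R := P * ((C1 + C2) * X)) (by positivity) ?_).trans ?_
        · have hc : Continuous (fun p : ℝ × (Fin k → ℝ) =>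
              NN (za a l) (fun j => p.1 + p.2 j)) := hNc.comp hcs
          exact (hc.enorm.measurable).pow_const 2
        · intro v hv
          have hsh := supf_shift β H v (fun x => ‖NN (za a l) x‖ₑ ^ 2)
          refine (le_of_eq hsh).trans ?_
          refine (hmean0 U H hU hH hHU (za a l) _ hsn hz (fun j => v + β j)).trans ?_
          apply ENNReal.ofReal_le_ofReal
          have h2 : 0 ≤ C1 * P * X := by positivity
          nlinarith
        · apply ENNReal.ofReal_le_ofReal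
          have h1 : 1 ≤ 2 ^ (n + 1) / L := by
            rw [le_div_iff₀ hL0]
            linarith
          have h2 : 0 ≤ P * ((C1 + C2) * L * X) := by positivity
          calc L * (P * ((C1 + C2) * X)) = 1 * (P * ((C1 + C2) * L * X)) := by ring
            _ ≤ 2 ^ (n + 1) / L * (P * ((C1 + C2) * L * X)) := mul_le_mul_of_nonneg_right h1 h2)
    refine ⟨B, hB1, hB2, hB3.trans (le_of_eq ?_)⟩
    congr 1
    rw [hK]
    ring
  obtain ⟨B, hB1, hB2, hB3⟩ := hR μ hδ hδ2 hU hC₀.le ha id (Set.Icc β (fun j => β j + H)) hL0 hLU hK0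
    (fun x hx j => (hβ1 j).trans (hx.1 j))
    (fun x hx j => by
      have h1 := hx.2 j
      have h2 := hβ2 j
      simp only [id] at h1 ⊢
      linarith) key
  refine ⟨B, hB1, hB2, hB3.trans (ENNReal.ofReal_le_ofReal ?_)⟩
  have hlog := supf_log hδ hU (hn1.trans hLU)
  have hUk : U ^ δ ≤ U ^ ((k : ℝ) * δ) := by
    apply Real.rpow_le_rpow_of_exponent_le hU
    have : (1:ℝ) ≤ k := by exact_mod_cast hk
    nlinarith
  have hXX : U ^ ((k : ℝ) * (1 + 4 * δ)) = X * U ^ ((k : ℝ) * δ) := by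
    rw [hX, ← Real.rpow_add hU0]
    congr 1
    ring
  rw [hXX, hK]
  have h1 : ((n + 1 : ℕ) + 2 : ℝ) ^ 2 ≤ D * U ^ ((k : ℝ) * δ) :=
    hlog.trans (mul_le_mul_of_nonneg_left hUk hD0)
  have h2 : 0 ≤ L * (X * U ^ ((k : ℝ) * δ)) := by positivity
  calc c * C₀ ^ (2 * k) * (((n + 1 : ℕ) + 2 : ℝ) ^ 2 * ((C1 + C2) * L * X))
      ≤ c * C₀ ^ (2 * k) * ((D * U ^ ((k : ℝ) * δ)) * ((C1 + C2) * L * X)) := by gcongr
    _ = (c * C₀ ^ (2 * k) * (D * (C1 + C2))) * (L * (X * U ^ ((k : ℝ) * δ))) := by ring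
    _ ≤ (c * C₀ ^ (2 * k) * (D * (C1 + C2)) + 1) * (L * (X * U ^ ((k : ℝ) * δ))) := by
        apply mul_le_mul_of_nonneg_right _ h2
        linarith
    _ = _ := by ring

end Pool.Agent.P07318s
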