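import Pool.Agent.Lib.P07318s.Defs
import Pool.Agent.Lib.P07318s.AFE
import Pool.Agent.Lib.P07318s.Sep
import Pool.Agent.Lib.P07318s.MeanF
import Pool.Agent.Lib.P07318s.SupF
import Pool.Agent.Lib.P07318s.R1
import Pool.Agent.Lib.P07318s.Cont
import Pool.Agent.Lib.P07318s.KapSum

/-!
Mean square of `Fd` and fourth moment of zeta over long intervals. `Fd x = Om 1 x + ` (off-diagonal sum `NN` with `k = 1`, separated coefficients `exists_sep`; see `R1.lean` / `SupF.lean`, where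
`∏ Fd - Dg` is expanded in the sums `NN (za a l)` with weights `∏ (log (x_j/U))^(l_j)`, `point_bound`), `mean_f0` with `k = 1`, Minkowski over `l` (factor `16^(-l) (log 4)^l`), and
`Om 1 x ≤ C U^δ` (`exists_sep`). Then `‖ζ(1/2+ix)‖⁴ ≤ 2 ‖Fd x‖² + C x^(-1+2ε)` by `afe`.
-/

set_option autoImplicit false

namespace Pool.Agent.P07318s

open MeasureTheory Complex
open scoped ENNReal

namespace FourthMAux

/-- the fraction `1/1` -/
def q1 : Q := ⟨(1, 1), by simp⟩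

lemma eq_q1 (q : Q) (h : lgr q.1 = 0) : q = q1 := by
  obtain ⟨⟨a, b⟩, hab⟩ := q
  unfold lgr at h
  have ha : (0:ℝ) < ((a : ℕ) : ℝ) := by exact_mod_cast a.pos
  have hb : (0:ℝ) < ((b : ℕ) : ℝ) := by exact_mod_cast b.pos
  have h1 : Real.log ((a : ℕ) : ℝ) = Real.log ((b : ℕ) : ℝ) := by
    simp only at h
    linarith
  have h2 : ((a : ℕ) : ℝ) = ((b : ℕ) : ℝ) := Real.log_injOn_pos ha hb h1
  have h3 : (a : ℕ) = b := by exact_mod_cast h2
  have h4 : Nat.Coprime (a : ℕ) (b : ℕ) := hab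
  rw [h3, Nat.coprime_self] at h4
  have h5 : b = 1 := PNat.eq h4
  have h6 : a = 1 := PNat.eq (by rw [h3, h4]; rfl)
  subst h5
  subst h6
  rfl

lemma norm_dg1 (x : Fin 1 → ℝ) (hx : ∀ j, 0 < x j) : ‖Dg x‖ ≤ Om 1 (x 0) := by
  rw [Dg_eq x hx]
  have hlam : ∀ q : Fin 1 → Q, lam (fun j => (q j).1) = lgr (q 0).1 := by
    intro q
    unfold lam
    simp
  rw [tsum_eq_single (fun _ => q1)]
  · have h0 : lam (fun j : Fin 1 => ((fun _ => q1 : Fin 1 → Q) j).1) = 0 := by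
      rw [hlam]
      unfold lgr q1
      simp
    rw [if_pos h0]
    rw [Fin.prod_univ_one, norm_mul, norm_ex, mul_one, Complex.norm_real]
    have h1 : hgt q1.1 = 1 := by
      unfold hgt q1
      simp
    rw [h1, Real.one_rpow, one_mul, Real.norm_of_nonneg (Om_nonneg _ _)]
  · intro q hq
    rw [if_neg]
    intro h
    apply hq
    funext j
    rw [hlam] at h
    have := eq_q1 _ h
    rw [Subsingleton.elim j 0]
    exact this

lemma log_le_two {U x : ℝ} (hU : 1 ≤ U) (h1 : U ≤ x) (h2 : x ≤ 4 * U) :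
    |Real.log (x / U)| ≤ 2 := by
  have hU0 : 0 < U := by linarith
  have e1 : 1 ≤ x / U := by
    rw [le_div_iff₀ hU0]
    linarith
  have e2 : x / U ≤ 4 := by
    rw [div_le_iff₀ hU0]
    linarith
  rw [abs_of_nonneg (Real.log_nonneg e1)]
  have e3 : Real.log (x / U) ≤ Real.log 4 := Real.log_le_log (by linarith) e2
  have e4 : Real.log 4 ≤ 2 := by
    have : (4 : ℝ) = 2 ^ 2 := by norm_num
    rw [this, Real.log_pow]
    have := Real.log_two_lt_d9
    push_cast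
    linarith
  linarith

lemma om_bound {δ U C₀ : ℝ} (hU : 1 ≤ U) (hC₀ : 0 < C₀)
    {a : ℕ → ℝ → ℝ} (ha : IsSep δ U C₀ a) {x : ℝ} (h1 : U ≤ x) (h2 : x ≤ 4 * U) :
    Om 1 x ≤ 2 * C₀ * U ^ δ := by
  have hs := ha.2 1 le_rfl x h1 h2
  have hU0 : 0 < U := by linarith
  have hg : HasSum (fun l : ℕ => (C₀ * U ^ δ) * (1 / 8 : ℝ) ^ l) ((C₀ * U ^ δ) * (1 - 1 / 8)⁻¹) :=
    (hasSum_geometric_of_lt_one (by norm_num) (by norm_num)).mul_left _
  have hb : ∀ l : ℕ, ‖(Real.log (x / U)) ^ l * a l 1‖ ≤ (C₀ * U ^ δ) * (1 / 8 : ℝ) ^ l := by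
    intro l
    rw [norm_mul, norm_pow, Real.norm_eq_abs, Real.norm_eq_abs]
    have h3 := ha.1 l 1 le_rfl
    have h4 : kap δ U 1 = U ^ δ := by
      unfold kap
      rw [if_pos hU, div_one]
    rw [h4] at h3
    have h5 : |Real.log (x / U)| ^ l ≤ 2 ^ l := pow_le_pow_left₀ (abs_nonneg _) (log_le_two hU h1 h2) l
    calc |Real.log (x / U)| ^ l * |a l 1| ≤ 2 ^ l * (C₀ / 16 ^ l * U ^ δ) :=
          mul_le_mul h5 h3 (abs_nonneg _) (by positivity)
      _ = (C₀ * U ^ δ) * (1 / 8 : ℝ) ^ l := by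
          have e : (16 : ℝ) ^ l = 2 ^ l * 8 ^ l := by rw [← mul_pow]; norm_num
          rw [e, one_div, inv_pow]
          field_simp
  have h3 := tsum_of_norm_bounded hg hb
  rw [hs.tsum_eq, Real.norm_of_nonneg (Om_nonneg _ _)] at h3
  refine h3.trans ?_
  have h4 : 0 ≤ C₀ * U ^ δ := by positivity
  nlinarith

lemma lint_one (f : ℝ → ℝ≥0∞) (b H : ℝ) :
    ∫⁻ α in Set.Icc (fun _ : Fin 1 => b) (fun j => (fun _ : Fin 1 => b) j + H), f (α 0)
      = ∫⁻ x in Set.Icc b (b + H), f x := by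
  have h := (volume_preserving_funUnique (Fin 1) ℝ).setLIntegral_comp_preimage_emb
    (MeasurableEquiv.funUnique (Fin 1) ℝ).measurableEmbedding f (Set.Icc b (b + H))
  rw [← h]
  have e : (MeasurableEquiv.funUnique (Fin 1) ℝ) ⁻¹' Set.Icc b (b + H)
      = Set.Icc (fun _ : Fin 1 => b) (fun j => (fun _ : Fin 1 => b) j + H) := by
    ext α
    simp only [Set.mem_preimage, Set.mem_Icc, MeasurableEquiv.funUnique_apply, Pi.le_def,
      Fin.forall_fin_one]
    rfl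
  rw [e]
  rfl

/-- pointwise bound -/
lemma point {δ U C₀ : ℝ} (hδ : 0 < δ) (hδ2 : δ ≤ 1 / 2) (hU : 1 ≤ U) (hC₀ : 0 < C₀)
    {a : ℕ → ℝ → ℝ} (ha : IsSep δ U C₀ a) {x : ℝ} (h1 : U ≤ x) (h2 : x ≤ 4 * U) :
    ‖Fd x‖ₑ ^ 2 ≤ 2 * ((∑' l : Fin 1 → ℕ, ENNReal.ofReal ((1 / 4) ^ (l 0))) *
      (∑' l : Fin 1 → ℕ, ENNReal.ofReal (16 ^ (l 0)) * ‖NN (za a l) (fun _ : Fin 1 => x)‖ₑ ^ 2)
      + ENNReal.ofReal ((2 * C₀ * U ^ δ) ^ 2)) := by
  have hU0 : 0 < U := by linarith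
  have hx0 : 0 < x := by linarith
  have hs := prod_exp (k := 1) hδ hδ2 hU ha (fun _ => x) (fun _ => h1) (fun _ => h2)
  have e1 : Fd x = (∏ _j : Fin 1, Fd x - Dg (fun _ : Fin 1 => x)) + Dg (fun _ : Fin 1 => x) := by
    rw [Fin.prod_univ_one]
    ring
  have h3 : ‖Fd x‖ₑ ≤ ‖∏ _j : Fin 1, Fd x - Dg (fun _ : Fin 1 => x)‖ₑ
      + ‖Dg (fun _ : Fin 1 => x)‖ₑ := by
    conv_lhs => rw [e1]
    exact enorm_add_le _ _
  refine (pow_le_pow_left' h3 2).trans ((sq_add_le' _ _).trans ?_)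
  refine mul_le_mul_right (add_le_add ?_ ?_) _
  · rw [← hs.tsum_eq]
    have h4 : ‖∑' l : Fin 1 → ℕ, ((∏ j, (Real.log (x / U)) ^ (l j) : ℝ) : ℂ) *
        NN (za a l) (fun _ : Fin 1 => x)‖ₑ ≤
        ∑' l : Fin 1 → ℕ, ENNReal.ofReal ((1 / 2) ^ (l 0)) *
          (ENNReal.ofReal (4 ^ (l 0)) * ‖NN (za a l) (fun _ : Fin 1 => x)‖ₑ) := by
      refine enorm_tsum_le_tsum_enorm.trans (ENNReal.tsum_le_tsum fun l => ?_)
      rw [enorm_mul, ← mul_assoc, ← ENNReal.ofReal_mul (by positivity)]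
      refine mul_le_mul_left ?_ _
      rw [← ofReal_norm, Complex.norm_real, Fin.prod_univ_one]
      refine ENNReal.ofReal_le_ofReal ?_
      rw [norm_pow, ← mul_pow, Real.norm_eq_abs]
      have : (1 / 2 * 4 : ℝ) = 2 := by norm_num
      rw [this]
      exact pow_le_pow_left₀ (abs_nonneg _) (log_le_two hU h1 h2) _
    refine (pow_le_pow_left' h4 2).trans ((cs_tsum _ _).trans ?_)
    refine mul_le_mul' (le_of_eq ?_) (le_of_eq ?_)
    · refine tsum_congr fun l => ?_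
      rw [← ENNReal.ofReal_pow (by positivity), ← pow_mul, mul_comm, pow_mul]
      norm_num
    · refine tsum_congr fun l => ?_
      rw [mul_pow, ← ENNReal.ofReal_pow (by positivity), ← pow_mul, mul_comm (l 0), pow_mul]
      norm_num
  · rw [← ofReal_norm, ENNReal.ofReal_pow (by positivity)]
    refine pow_le_pow_left' (ENNReal.ofReal_le_ofReal ?_) 2
    exact (norm_dg1 (fun _ => x) (fun _ => hx0)).trans (om_bound hU hC₀ ha h1 h2)

end FourthMAux

open FourthMAux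

theorem fd_sq_lint (δ : ℝ) (hδ : 0 < δ) (hδ2 : δ ≤ 1 / 2) : ∃ C : ℝ, 0 < C ∧ ∀ T b : ℝ, 1 ≤ T →
    T ≤ b → b ≤ 3 * T →
    ∫⁻ x in Set.Icc b (b + T), ‖Fd x‖ₑ ^ 2 ≤ ENNReal.ofReal (C * T ^ (1 + 3 * δ)) := by
  obtain ⟨C₀, hC₀, hsep⟩ := exists_sep δ hδ hδ2
  obtain ⟨C2, hC2, hmean0⟩ := mean_f0 1 δ hδ hδ2
  set S : ℝ≥0∞ := ∑' l : Fin 1 → ℕ, ENNReal.ofReal ((1 / 4) ^ (l 0)) with hS
  have hSf : S ≠ ⊤ := by
    have hsm : Summable (fun l : Fin 1 → ℕ => (1 / 4 : ℝ) ^ (l 0)) := by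
      have h := summable_pi_prod_real (k := 1) (fun _ i => (1 / 4 : ℝ) ^ i)
        (fun _ => summable_geometric_of_lt_one (by norm_num) (by norm_num)) (fun _ i => by positivity)
      refine h.congr fun l => ?_
      rw [Fin.prod_univ_one]
    rw [hS, ← ENNReal.ofReal_tsum_of_nonneg (fun l => by positivity) hsm]
    exact ENNReal.ofReal_ne_top
  refine ⟨2 * (S.toReal * (C2 * C₀ ^ 2) * S.toReal + 4 * C₀ ^ 2), by positivity, ?_⟩
  intro T b hT hb1 hb2
  obtain ⟨a, ha⟩ := hsep T hT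
  have hT0 : 0 < T := by linarith
  set X := T ^ (1 + 3 * δ) with hX
  have hX0 : 0 ≤ X := by positivity
  have hz : ∀ (l : Fin 1 → ℕ) (j : Fin 1) (q : Q),
      |za a l j q| ≤ (fun j => C₀ / 16 ^ (l j)) j * ww δ T q := fun l j q => za_le ha l j q
  have hNc : ∀ l : Fin 1 → ℕ, Continuous fun x : ℝ => NN (za a l) (fun _ : Fin 1 => x) := by
    intro l
    have hc : Continuous fun x : ℝ => (fun _ : Fin 1 => x) := by fun_prop
    exact (NN_continuous hδ hδ2 hT (za a l) _ (hz l)).comp hc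
  have hone : ∀ l : Fin 1 → ℕ, ∫⁻ x in Set.Icc b (b + T), ‖NN (za a l) (fun _ : Fin 1 => x)‖ₑ ^ 2
      ≤ ENNReal.ofReal (C2 * (C₀ / 16 ^ (l 0)) ^ 2 * X) := by
    intro l
    have h := hmean0 T T hT hT0.le le_rfl (za a l) _ (fun j => by positivity) (hz l) (fun _ => b)
    rw [Fin.prod_univ_one] at h
    have e : ((1 : ℕ) : ℝ) * (1 + 3 * δ) = 1 + 3 * δ := by push_cast; ring
    rw [e] at h
    refine le_trans (le_of_eq ?_) h
    rw [← lint_one (fun x => ‖NN (za a l) (fun _ : Fin 1 => x)‖ₑ ^ 2) b T]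
    refine lintegral_congr fun α => ?_
    have : (fun _ : Fin 1 => α 0) = α := by
      funext j
      rw [Subsingleton.elim j 0]
    simp only [this]
  have hpt : ∀ x ∈ Set.Icc b (b + T), ‖Fd x‖ₑ ^ 2 ≤ 2 * (S *
      (∑' l : Fin 1 → ℕ, ENNReal.ofReal (16 ^ (l 0)) * ‖NN (za a l) (fun _ : Fin 1 => x)‖ₑ ^ 2)
      + ENNReal.ofReal ((2 * C₀ * T ^ δ) ^ 2)) := fun x hx =>
    point hδ hδ2 hT hC₀ ha (hb1.trans hx.1) (by linarith [hx.2])
  have hmeas : ∀ l : Fin 1 → ℕ, Measurable fun x : ℝ =>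
      ENNReal.ofReal (16 ^ (l 0)) * ‖NN (za a l) (fun _ : Fin 1 => x)‖ₑ ^ 2 := fun l =>
    ((hNc l).enorm.measurable.pow_const 2).const_mul _
  calc ∫⁻ x in Set.Icc b (b + T), ‖Fd x‖ₑ ^ 2
      ≤ ∫⁻ x in Set.Icc b (b + T), 2 * (S * (∑' l : Fin 1 → ℕ, ENNReal.ofReal (16 ^ (l 0)) *
          ‖NN (za a l) (fun _ : Fin 1 => x)‖ₑ ^ 2) + ENNReal.ofReal ((2 * C₀ * T ^ δ) ^ 2)) :=
        setLIntegral_mono' measurableSet_Icc hpt
    _ = 2 * (S * (∑' l : Fin 1 → ℕ, ENNReal.ofReal (16 ^ (l 0)) *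
          ∫⁻ x in Set.Icc b (b + T), ‖NN (za a l) (fun _ : Fin 1 => x)‖ₑ ^ 2)
          + ENNReal.ofReal ((2 * C₀ * T ^ δ) ^ 2) * ENNReal.ofReal T) := by
        rw [lintegral_const_mul' _ _ (by norm_num), lintegral_add_right _ measurable_const,
          lintegral_const_mul' _ _ hSf, lintegral_tsum fun l => (hmeas l).aemeasurable,
          setLIntegral_const, Real.volume_Icc]
        have e1 : b + T - b = T := by ring
        have e2 : ∀ l : Fin 1 → ℕ, ∫⁻ x in Set.Icc b (b + T), ENNReal.ofReal (16 ^ (l 0)) *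
            ‖NN (za a l) (fun _ : Fin 1 => x)‖ₑ ^ 2 = ENNReal.ofReal (16 ^ (l 0)) *
            ∫⁻ x in Set.Icc b (b + T), ‖NN (za a l) (fun _ : Fin 1 => x)‖ₑ ^ 2 := fun l =>
          lintegral_const_mul' _ _ ENNReal.ofReal_ne_top
        simp only [e1, e2]
    _ ≤ 2 * (S * (∑' l : Fin 1 → ℕ, ENNReal.ofReal (C2 * C₀ ^ 2 * X) *
          ENNReal.ofReal ((1 / 4) ^ (l 0))) + ENNReal.ofReal (4 * C₀ ^ 2 * X)) := by
        refine mul_le_mul_right (add_le_add (mul_le_mul_right (ENNReal.tsum_le_tsum fun l => ?_) _) ?_) _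
        · refine (mul_le_mul_right (hone l) _).trans ?_
          rw [← ENNReal.ofReal_mul (by positivity), ← ENNReal.ofReal_mul (by positivity)]
          apply ENNReal.ofReal_le_ofReal
          have e : (16:ℝ) ^ (l 0) * (C2 * (C₀ / 16 ^ (l 0)) ^ 2 * X)
              = C2 * C₀ ^ 2 * X * (1 / 16) ^ (l 0) := by
            rw [one_div, inv_pow]
            field_simp
          rw [e]
          refine mul_le_mul_of_nonneg_left ?_ (by positivity)
          exact pow_le_pow_left₀ (by norm_num) (by norm_num) _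
        · rw [← ENNReal.ofReal_mul (by positivity)]
          apply ENNReal.ofReal_le_ofReal
          have e : (2 * C₀ * T ^ δ) ^ 2 * T = 4 * C₀ ^ 2 * T ^ (1 + 2 * δ) := by
            rw [Real.rpow_add hT0, Real.rpow_one, two_mul δ, Real.rpow_add hT0]
            ring
          rw [e]
          refine mul_le_mul_of_nonneg_left ?_ (by positivity)
          exact Real.rpow_le_rpow_of_exponent_le hT (by linarith)
    _ = ENNReal.ofReal (2 * (S.toReal * (C2 * C₀ ^ 2) * S.toReal + 4 * C₀ ^ 2) * X) := by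
        rw [ENNReal.tsum_mul_left, ← hS, ← ENNReal.ofReal_toReal hSf, 
          ENNReal.toReal_ofReal (by positivity), ← ENNReal.ofReal_mul (by positivity),
          ← ENNReal.ofReal_mul (by positivity), ← ENNReal.ofReal_add (by positivity) (by positivity)]
        have h2 : (2 : ℝ≥0∞) = ENNReal.ofReal 2 := by norm_num
        rw [h2, ← ENNReal.ofReal_mul (by norm_num)]
        congr 1
        ring

theorem fd_sq (ε : ℝ) (hε : 0 < ε) : ∃ C : ℝ, 0 < C ∧ ∀ T b : ℝ, 1 ≤ T → T ≤ b → b ≤ 3 * T →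
    ∫ x in b..(b + T), ‖Fd x‖ ^ 2 ≤ C * T ^ (1 + ε) := by
  obtain ⟨δ, hδ, hδ2, hδε⟩ : ∃ δ : ℝ, 0 < δ ∧ δ ≤ 1 / 2 ∧ 3 * δ ≤ ε :=
    ⟨min (ε / 3) (1 / 2), by positivity, min_le_right _ _, by
      have := min_le_left (ε / 3) (1 / 2)
      linarith⟩
  obtain ⟨C, hC, h⟩ := fd_sq_lint δ hδ hδ2
  refine ⟨C, hC, fun T b hT hb1 hb2 => ?_⟩
  have hT0 : 0 < T := by linarith
  have h1 := h T b hT hb1 hb2
  have hcont : ContinuousOn (fun x => ‖Fd x‖ ^ 2) (Set.Icc b (b + T)) := by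
    refine ((Fd_continuousOn.mono fun x hx => ?_).norm).pow 2
    rw [Set.mem_Ioi]
    linarith [hx.1]
  have hint : IntegrableOn (fun x => ‖Fd x‖ ^ 2) (Set.Icc b (b + T)) :=
    hcont.integrableOn_Icc
  rw [intervalIntegral.integral_of_le (by linarith), ← integral_Icc_eq_integral_Ioc]
  have h2 : ENNReal.ofReal (∫ x in Set.Icc b (b + T), ‖Fd x‖ ^ 2)
      = ∫⁻ x in Set.Icc b (b + T), ‖Fd x‖ₑ ^ 2 := by
    rw [ofReal_integral_eq_lintegral_ofReal hint (Filter.Eventually.of_forall fun x => by positivity)]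
    refine lintegral_congr fun x => ?_
    rw [ENNReal.ofReal_pow (norm_nonneg _), ofReal_norm]
  rw [← h2] at h1
  have h3 := (ENNReal.ofReal_le_ofReal_iff (by positivity)).mp h1
  refine h3.trans ?_
  refine mul_le_mul_of_nonneg_left ?_ hC.le
  exact Real.rpow_le_rpow_of_exponent_le hT (by linarith)

theorem zeta_fourth (ε : ℝ) (hε : 0 < ε) : ∃ C : ℝ, 0 < C ∧ ∀ T b : ℝ, 1 ≤ T → T ≤ b → b ≤ 3 * T →
    ∫ x in b..(b + T), ‖riemannZeta (1 / 2 + x * I)‖ ^ 4 ≤ C * T ^ (1 + ε) := by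
  obtain ⟨C1, hC1, h1⟩ := fd_sq ε hε
  obtain ⟨C2, hC2, h2⟩ := afe (1 / 2) (by norm_num)
  refine ⟨2 * C1 + 2 * C2 ^ 2, by positivity, fun T b hT hb1 hb2 => ?_⟩
  have hT0 : 0 < T := by linarith
  have hζc : Continuous fun x : ℝ => riemannZeta (1 / 2 + x * I) := by
    refine continuous_iff_continuousAt.2 fun v => ?_
    refine ContinuousAt.comp (g := riemannZeta) ?_ (by fun_prop)
    refine (differentiableAt_riemannZeta ?_).continuousAt
    intro h
    have := congrArg Complex.re h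
    simp at this
  have hcont : ContinuousOn (fun x => ‖Fd x‖ ^ 2) (Set.Icc b (b + T)) := by
    refine ((Fd_continuousOn.mono fun x hx => ?_).norm).pow 2
    rw [Set.mem_Ioi]
    linarith [hx.1]
  have hle : b ≤ b + T := by linarith
  have hint : IntervalIntegrable (fun x => ‖Fd x‖ ^ 2) volume b (b + T) := by
    rw [intervalIntegrable_iff_integrableOn_Icc_of_le hle]
    exact hcont.integrableOn_Icc
  have hpt : ∀ x ∈ Set.Icc b (b + T), ‖riemannZeta (1 / 2 + x * I)‖ ^ 4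
      ≤ 2 * ‖Fd x‖ ^ 2 + 2 * C2 ^ 2 := by
    intro x hx
    have hx1 : 1 ≤ x := by linarith [hx.1]
    have h3 := h2 x hx1
    have h4 : x ^ (-(1 / 2) + 1 / 2 : ℝ) = 1 := by
      rw [neg_add_cancel, Real.rpow_zero]
    rw [h4, mul_one] at h3
    have h5 : ‖riemannZeta (1 / 2 + x * I)‖ ^ 2 ≤ ‖Fd x‖ + C2 := by
      have h6 := norm_sub_norm_le ((‖riemannZeta (1 / 2 + x * I)‖ ^ 2 : ℝ) : ℂ) (Fd x)
      rw [Complex.norm_real, Real.norm_of_nonneg (by positivity)] at h6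
      linarith
    calc ‖riemannZeta (1 / 2 + x * I)‖ ^ 4 = (‖riemannZeta (1 / 2 + x * I)‖ ^ 2) ^ 2 := by ring
      _ ≤ (‖Fd x‖ + C2) ^ 2 := pow_le_pow_left₀ (by positivity) h5 2
      _ ≤ 2 * ‖Fd x‖ ^ 2 + 2 * C2 ^ 2 := by nlinarith [sq_nonneg (‖Fd x‖ - C2)]
  have h3 : ∫ x in b..(b + T), ‖riemannZeta (1 / 2 + x * I)‖ ^ 4
      ≤ ∫ x in b..(b + T), (2 * ‖Fd x‖ ^ 2 + 2 * C2 ^ 2) := by
    refine intervalIntegral.integral_mono_on hle ((hζc.norm.pow 4).intervalIntegrable _ _) ?_ hpt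
    exact (hint.const_mul 2).add intervalIntegrable_const
  refine h3.trans ?_
  rw [intervalIntegral.integral_add (hint.const_mul 2) intervalIntegrable_const,
    intervalIntegral.integral_const_mul, intervalIntegral.integral_const, smul_eq_mul]
  have h4 := h1 T b hT hb1 hb2
  have h5 : T ≤ T ^ (1 + ε) := by
    conv_lhs => rw [← Real.rpow_one T]
    exact Real.rpow_le_rpow_of_exponent_le hT (by linarith)
  have h6 : 0 ≤ 2 * C2 ^ 2 := by positivity
  have e : b + T - b = T := by ring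
  rw [e]
  nlinarith

end Pool.Agent.P07318s
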