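import Pool.Agent.Lib.P07318s.Defs
import Pool.Agent.Lib.P07318s.AFE
import Pool.Agent.Lib.P07318s.Cont
import Pool.Agent.Lib.P07318s.FourthM
import Pool.Agent.Lib.P07318s.E1F

/-!
Mean square of the error of the approximate functional equation. `|∫_0^V g|² ≤ V ∫_0^V |g|²`, Tonelli, and for fixed `t`, `x_j = t + α_j`, `a_j = ‖ζ(1/2+ix_j)‖²`, `b_j = Fd x_j`:
`|∏ a_j - ∏ b_j|² ≤ k ∑_i ∏_{j<i} |a_j|² · |a_i - b_i|² · ∏_{j>i} |b_j|²`, whose box integral factors: `zeta_fourth`, `fd_sq` (`C T^(1+ε')` each), and `|a_i - b_i|² ≤ C T^(-1+2ε')` (`afe`).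
-/

set_option autoImplicit false

namespace Pool.Agent.P07318s

open MeasureTheory Complex
open scoped ENNReal

namespace E2FAux

/-- one factor -/
lemma lint_fourth {C T ε' η b s : ℝ} (hT : 1 ≤ T) (hη : 0 ≤ η) (hC : 0 < C)
    (h4 : ∀ T b : ℝ, 1 ≤ T → T ≤ b → b ≤ 3 * T →
      ∫ x in b..(b + T), ‖riemannZeta (1 / 2 + x * I)‖ ^ 4 ≤ C * T ^ (1 + ε'))
    {C1 : ℝ} (hC1 : η ^ 2 * T ≤ C1 * T ^ (1 + ε'))
    (h1 : T ≤ s + b) (h2 : s + b ≤ 3 * T) :
    ∫⁻ x in Set.Icc b (b + T),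
        ENNReal.ofReal (‖riemannZeta (1 / 2 + ((s + x : ℝ) : ℂ) * I)‖ ^ 2 + η) ^ 2 ≤
      ENNReal.ofReal ((2 * C + 2 * C1) * T ^ (1 + ε')) := by
  have hT0 : 0 < T := by linarith
  have hc0 : Continuous (fun x : ℝ => riemannZeta (1 / 2 + ((s + x : ℝ) : ℂ) * I)) :=
    zeta_half_continuous.comp (continuous_const.add continuous_id : Continuous (fun x : ℝ => s + x))
  have hcont : Continuous (fun x : ℝ => (‖riemannZeta (1 / 2 + ((s + x : ℝ) : ℂ) * I)‖ ^ 2 + η) ^ 2) :=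
    ((hc0.norm.pow 2).add continuous_const).pow 2
  have e1 : ∀ x : ℝ, ENNReal.ofReal (‖riemannZeta (1 / 2 + ((s + x : ℝ) : ℂ) * I)‖ ^ 2 + η) ^ 2
      = ENNReal.ofReal ((‖riemannZeta (1 / 2 + ((s + x : ℝ) : ℂ) * I)‖ ^ 2 + η) ^ 2) := fun x =>
    (ENNReal.ofReal_pow (by positivity) 2).symm
  simp_rw [e1]
  rw [← ofReal_integral_eq_lintegral_ofReal (hcont.integrableOn_Icc)
    (Filter.Eventually.of_forall fun x => by positivity)]
  refine ENNReal.ofReal_le_ofReal ?_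
  have hle : b ≤ b + T := by linarith
  rw [integral_Icc_eq_integral_Ioc, ← intervalIntegral.integral_of_le hle]
  have hc4 : Continuous (fun x : ℝ => 2 * ‖riemannZeta (1 / 2 + ((s + x : ℝ) : ℂ) * I)‖ ^ 4 + 2 * η ^ 2) :=
    ((hc0.norm.pow 4).const_mul 2).add continuous_const
  have h3 : ∫ x in b..(b + T), (‖riemannZeta (1 / 2 + ((s + x : ℝ) : ℂ) * I)‖ ^ 2 + η) ^ 2 ≤
      ∫ x in b..(b + T), (2 * ‖riemannZeta (1 / 2 + ((s + x : ℝ) : ℂ) * I)‖ ^ 4 + 2 * η ^ 2) := by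
    refine intervalIntegral.integral_mono_on hle (hcont.intervalIntegrable _ _)
      (hc4.intervalIntegrable _ _) fun x _ => ?_
    nlinarith [sq_nonneg (‖riemannZeta (1 / 2 + ((s + x : ℝ) : ℂ) * I)‖ ^ 2 - η)]
  refine h3.trans ?_
  have hc5 : Continuous (fun x : ℝ => 2 * ‖riemannZeta (1 / 2 + ((s + x : ℝ) : ℂ) * I)‖ ^ 4) :=
    (hc0.norm.pow 4).const_mul 2
  rw [intervalIntegral.integral_add (hc5.intervalIntegrable _ _)
    intervalIntegrable_const, intervalIntegral.integral_const_mul, intervalIntegral.integral_const,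
    smul_eq_mul]
  have e2 : ∫ x in b..(b + T), ‖riemannZeta (1 / 2 + ((s + x : ℝ) : ℂ) * I)‖ ^ 4
      = ∫ x in (s + b)..(s + b + T), ‖riemannZeta (1 / 2 + x * I)‖ ^ 4 := by
    rw [intervalIntegral.integral_comp_add_left
      (fun x : ℝ => ‖riemannZeta (1 / 2 + x * I)‖ ^ 4) s]
    congr 1
    ring
  rw [e2]
  have h5 := h4 T (s + b) hT h1 h2
  have e3 : b + T - b = T := by ring
  rw [e3]
  nlinarith

end E2FAux

open E2FAux

theorem e2_f (k : ℕ) (ε : ℝ) (hε : 0 < ε) : ∃ C : ℝ, 0 < C ∧ ∀ T V : ℝ, 1 ≤ T → 0 ≤ V → V ≤ T →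
    ∀ β : Fin k → ℝ, (∀ j, T ≤ β j) → (∀ j, β j ≤ 2 * T) →
    ∫⁻ α in Set.Icc β (fun j => β j + T),
      ‖∫ t in (0:ℝ)..V, (((∏ j, ‖riemannZeta (1 / 2 + ((t + α j : ℝ) : ℂ) * I)‖ ^ 2 : ℝ) : ℂ) -
        ∏ j, Fd (t + α j))‖ₑ ^ 2 ≤ ENNReal.ofReal (C * V ^ 2 * T ^ ((k : ℝ) - 1 + ε)) := by
  rcases k with _ | n
  · refine ⟨1, one_pos, fun T V _ _ _ β _ _ => ?_⟩
    simp
  set ε' : ℝ := min (ε / (n + 2)) (1 / 2) with hε'
  have hn : (0 : ℝ) < n + 1 := by positivity
  have hn2 : (0 : ℝ) < n + 2 := by positivity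
  have hε'0 : 0 < ε' := lt_min (by positivity) (by norm_num)
  have hε'1 : ε' ≤ 1 / 2 := min_le_right _ _
  have hε'2 : (n + 2) * ε' ≤ ε := by
    have := min_le_left (ε / (n + 2)) (1 / 2 : ℝ)
    calc (n + 2) * ε' ≤ (n + 2) * (ε / (n + 2)) := mul_le_mul_of_nonneg_left this hn2.le
      _ = ε := by field_simp
  obtain ⟨C1, hC1, hafe⟩ := afe ε' hε'0
  obtain ⟨C2, hC2, hfm⟩ := zeta_fourth ε' hε'0
  set D : ℝ := 2 * C2 + 2 * C1 ^ 2 with hD
  refine ⟨(n + 1) * ((n + 1) * (C1 ^ 2 * D ^ n)), by positivity, ?_⟩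
  intro T V hT hV hVT β hβ hβ'
  have hT0 : 0 < T := by linarith
  set η : ℝ := C1 * T ^ (-(1 / 2) + ε') with hη
  have hη0 : 0 ≤ η := by positivity
  have hη2 : η ^ 2 * T = C1 ^ 2 * T ^ (2 * ε') := by
    rw [hη, mul_pow, ← Real.rpow_natCast (T ^ (-(1 / 2) + ε')), ← Real.rpow_mul hT0.le, mul_assoc]
    congr 1
    conv_lhs => rw [← Real.rpow_one T, ← Real.rpow_mul hT0.le, ← Real.rpow_add hT0]
    congr 1
    push_cast
    ring
  have hη3 : η ^ 2 * T ≤ C1 ^ 2 * T ^ (1 + ε') := by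
    rw [hη2]
    refine mul_le_mul_of_nonneg_left (Real.rpow_le_rpow_of_exponent_le hT (by linarith)) (by positivity)
  set g : ℝ → ENNReal := fun x => ENNReal.ofReal (‖riemannZeta (1 / 2 + ((x : ℝ) : ℂ) * I)‖ ^ 2 + η) with hg
  have hgm : Measurable g := by
    have := (zeta_half_continuous.norm.pow 2).add (continuous_const (y := η))
    exact this.measurable.ennreal_ofReal
  set G : Fin (n + 1) → Fin (n + 1) → ℝ → ENNReal := fun j i x => if i = j then ENNReal.ofReal η else g x with hG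
  have hGm : ∀ j i, Measurable (G j i) := by
    intro j i
    simp only [hG]
    split_ifs
    · exact measurable_const
    · exact hgm
  set M : Fin (n + 1) → Fin (n + 1) → ℝ := fun j i => if i = j then C1 ^ 2 * T ^ (2 * ε') else D * T ^ (1 + ε') with hM
  have hM0 : ∀ j i, 0 ≤ M j i := by
    intro j i
    simp only [hM]
    split_ifs <;> positivity
  -- integral of one factor
  have hone : ∀ (j i : Fin (n + 1)) (s b : ℝ), T ≤ s + b → s + b ≤ 3 * T →
      ∫⁻ x in Set.Icc b (b + T), G j i (s + x) ^ 2 ≤ ENNReal.ofReal (M j i) := by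
    intro j i s b h1 h2
    by_cases hij : i = j
    · simp only [hG, hM, if_pos hij]
      rw [setLIntegral_const, Real.volume_Icc, ← ENNReal.ofReal_pow hη0,
        ← ENNReal.ofReal_mul (by positivity)]
      refine ENNReal.ofReal_le_ofReal (le_of_eq ?_)
      rw [← hη2]
      ring
    · simp only [hG, hM, if_neg hij, hg]
      exact lint_fourth hT hη0 hC2 hfm hη3 h1 h2
  have hbox : Set.Icc β (fun j => β j + T) = Set.pi Set.univ (fun i => Set.Icc (β i) (β i + T)) :=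
    (Set.pi_univ_Icc _ _).symm
  have hvol : (volume : Measure (Fin (n + 1) → ℝ)).restrict (Set.Icc β (fun j => β j + T)) =
      Measure.pi (fun i => volume.restrict (Set.Icc (β i) (β i + T))) := by
    rw [hbox, volume_pi, Measure.restrict_pi_pi]
  have hm1 : ∀ (j : Fin (n + 1)) (t : ℝ), Measurable (fun α : Fin (n + 1) → ℝ => ∏ i, G j i (t + α i) ^ 2) :=
    fun j t => Finset.measurable_fun_prod _ fun i _ =>
      ((hGm _ _).comp (measurable_const.add (measurable_pi_apply i))).pow_const 2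
  have hm2 : Measurable (fun p : (Fin (n + 1) → ℝ) × ℝ => ∑ j, ∏ i, G j i (p.2 + p.1 i) ^ 2) := by
    refine Finset.measurable_fun_sum _ fun j _ => ?_
    refine Finset.measurable_fun_prod _ fun i _ => ?_
    exact ((hGm _ _).comp (measurable_snd.add ((measurable_pi_apply i).comp measurable_fst))).pow_const 2
  have hm3 : ∀ α : Fin (n + 1) → ℝ, Measurable (fun t : ℝ => ∑ j, ∏ i, G j i (t + α i)) := by
    intro α
    refine Finset.measurable_fun_sum _ fun j _ => ?_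
    refine Finset.measurable_fun_prod _ fun i _ => ?_
    exact (hGm _ _).comp (measurable_id.add measurable_const)
  -- Cauchy-Schwarz for the finite sum
  have hcs : ∀ (α : Fin (n + 1) → ℝ) (t : ℝ), (∑ j, ∏ i, G j i (t + α i)) ^ 2
      ≤ ENNReal.ofReal (n + 1) * ∑ j, ∏ i, G j i (t + α i) ^ 2 := by
    intro α t
    have h := cs_tsum (fun _ : Fin (n + 1) => (1 : ℝ≥0∞)) (fun j => ∏ i, G j i (t + α i))
    simp only [tsum_fintype, one_mul, one_pow, Finset.sum_const, Finset.card_univ,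
      Fintype.card_fin, nsmul_eq_mul, mul_one, ← Finset.prod_pow] at h
    refine h.trans (le_of_eq ?_)
    congr 1
    rw [ENNReal.ofReal_add (by positivity) zero_le_one]
    simp
  -- pointwise in the box
  have hpt2 : ∀ α ∈ Set.Icc β (fun j => β j + T),
      ‖∫ t in (0:ℝ)..V, (((∏ j, ‖riemannZeta (1 / 2 + ((t + α j : ℝ) : ℂ) * I)‖ ^ 2 : ℝ) : ℂ) -
        ∏ j, Fd (t + α j))‖ₑ ^ 2 ≤ ENNReal.ofReal (V * (n + 1)) *
        ∫⁻ t in Set.Icc 0 V, ∑ j, ∏ i, G j i (t + α i) ^ 2 := by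
    intro α hα
    have hpt : ∀ t ∈ Set.Icc (0 : ℝ) V,
        ‖(((∏ j, ‖riemannZeta (1 / 2 + ((t + α j : ℝ) : ℂ) * I)‖ ^ 2 : ℝ) : ℂ) -
          ∏ j, Fd (t + α j))‖ₑ ≤ ∑ j, ∏ i, G j i (t + α i) := by
      intro t ht
      have hx : ∀ j, 1 ≤ t + α j ∧ T ≤ t + α j := by
        intro j
        have : T ≤ t + α j := by linarith [ht.1, hα.1 j, hβ j]
        exact ⟨hT.trans this, this⟩
      have hb := e1_prod_diff (n + 1)
        (fun j => ((‖riemannZeta (1 / 2 + ((t + α j : ℝ) : ℂ) * I)‖ ^ 2 : ℝ) : ℂ))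
        (fun j => Fd (t + α j))
        (fun j => ‖riemannZeta (1 / 2 + ((t + α j : ℝ) : ℂ) * I)‖ ^ 2) hη0
        (fun j => by rw [Complex.norm_real, Real.norm_of_nonneg (by positivity)])
        (fun j => by
          refine (hafe _ (hx j).1).trans ?_
          refine mul_le_mul_of_nonneg_left ?_ hC1.le
          exact Real.rpow_le_rpow_of_nonpos hT0 (hx j).2 (by linarith))
      rw [← ofReal_norm]
      rw [Complex.ofReal_prod]
      refine (ENNReal.ofReal_le_ofReal hb).trans ?_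
      rw [ENNReal.ofReal_sum_of_nonneg]
      swap
      · intro j _
        refine Finset.prod_nonneg fun i _ => ?_
        split_ifs <;> positivity
      refine le_of_eq (Finset.sum_congr rfl fun j _ => ?_)
      rw [ENNReal.ofReal_prod_of_nonneg]
      swap
      · intro i _
        split_ifs <;> positivity
      refine Finset.prod_congr rfl fun i _ => ?_
      simp only [hG, hg]
      split_ifs <;> rfl
    have h1 : ‖∫ t in (0:ℝ)..V, (((∏ j, ‖riemannZeta (1 / 2 + ((t + α j : ℝ) : ℂ) * I)‖ ^ 2 : ℝ) : ℂ) -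
        ∏ j, Fd (t + α j))‖ₑ ≤ ∫⁻ t in Set.Icc 0 V, 1 * ∑ j, ∏ i, G j i (t + α i) := by
      rw [intervalIntegral.integral_of_le hV, ← integral_Icc_eq_integral_Ioc]
      refine (enorm_integral_le_lintegral_enorm _).trans ?_
      simp only [one_mul]
      exact setLIntegral_mono' measurableSet_Icc fun t ht => hpt t ht
    refine (pow_le_pow_left' h1 2).trans ?_
    refine (cs_lintegral (volume.restrict (Set.Icc 0 V)) (f := fun _ => (1 : ℝ≥0∞))
      (g := fun t => ∑ j, ∏ i, G j i (t + α i)) measurable_const.aemeasurable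
      (hm3 α).aemeasurable).trans ?_
    have h2 : ∫⁻ _t in Set.Icc 0 V, (1 : ℝ≥0∞) ^ 2 = ENNReal.ofReal V := by
      simp
    rw [h2, ENNReal.ofReal_mul hV, mul_assoc]
    refine mul_le_mul_right ?_ _
    have h3 : ∫⁻ t in Set.Icc 0 V, (∑ j, ∏ i, G j i (t + α i)) ^ 2 ≤
        ∫⁻ t in Set.Icc 0 V, ENNReal.ofReal (n + 1) * ∑ j, ∏ i, G j i (t + α i) ^ 2 :=
      lintegral_mono fun t => hcs α t
    refine h3.trans (le_of_eq ?_)
    rw [lintegral_const_mul' _ _ ENNReal.ofReal_ne_top]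
  calc ∫⁻ α in Set.Icc β (fun j => β j + T),
      ‖∫ t in (0:ℝ)..V, (((∏ j, ‖riemannZeta (1 / 2 + ((t + α j : ℝ) : ℂ) * I)‖ ^ 2 : ℝ) : ℂ) -
        ∏ j, Fd (t + α j))‖ₑ ^ 2
      ≤ ∫⁻ α in Set.Icc β (fun j => β j + T), ENNReal.ofReal (V * (n + 1)) *
        ∫⁻ t in Set.Icc 0 V, ∑ j, ∏ i, G j i (t + α i) ^ 2 :=
        setLIntegral_mono' measurableSet_Icc hpt2
    _ = ENNReal.ofReal (V * (n + 1)) * ∫⁻ t in Set.Icc 0 V,
        ∫⁻ α in Set.Icc β (fun j => β j + T), ∑ j, ∏ i, G j i (t + α i) ^ 2 := by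
        rw [lintegral_const_mul' _ _ ENNReal.ofReal_ne_top, lintegral_lintegral_swap hm2.aemeasurable]
    _ ≤ ENNReal.ofReal (V * (n + 1)) * ∫⁻ _t in Set.Icc 0 V,
        ∑ j : Fin (n + 1), ∏ i, ENNReal.ofReal (M j i) := by
        refine mul_le_mul_right ?_ _
        refine setLIntegral_mono' measurableSet_Icc fun t ht => ?_
        rw [hvol, lintegral_finsetSum _ (fun j _ => hm1 j t)]
        refine Finset.sum_le_sum fun j _ => ?_
        rw [e1_lint_prod (n + 1) _ (fun i x => G j i (t + x) ^ 2)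
          (fun i => ((hGm _ _).comp (measurable_const.add measurable_id)).pow_const 2)]
        refine Finset.prod_le_prod' fun i _ => ?_
        refine hone j i t _ ?_ ?_
        · linarith [ht.1, hβ i]
        · linarith [ht.2, hβ' i]
    _ = ENNReal.ofReal (V * (n + 1)) * (ENNReal.ofReal ((n + 1) *
        (C1 ^ 2 * T ^ (2 * ε') * (D * T ^ (1 + ε')) ^ n)) * ENNReal.ofReal V) := by
        congr 1
        have h1 : ∀ j : Fin (n + 1), (∏ i, ENNReal.ofReal (M j i)) =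
            ENNReal.ofReal (C1 ^ 2 * T ^ (2 * ε') * (D * T ^ (1 + ε')) ^ n) := by
          intro j
          rw [← ENNReal.ofReal_prod_of_nonneg (fun i _ => hM0 _ _)]
          congr 1
          exact e1_prod_ite n j _ _
        simp_rw [h1]
        rw [Finset.sum_const, Finset.card_univ, Fintype.card_fin, nsmul_eq_mul,
          ENNReal.ofReal_mul (p := (n + 1 : ℝ)) hn.le, setLIntegral_const, Real.volume_Icc, sub_zero]
        congr 2
        rw [ENNReal.ofReal_add (by positivity) zero_le_one]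
        simp
    _ = ENNReal.ofReal ((V * (n + 1)) * (((n + 1) *
        (C1 ^ 2 * T ^ (2 * ε') * (D * T ^ (1 + ε')) ^ n)) * V)) := by
        rw [← ENNReal.ofReal_mul (by positivity), ← ENNReal.ofReal_mul (by positivity)]
    _ ≤ _ := by
        refine ENNReal.ofReal_le_ofReal ?_
        have e1 : T ^ (2 * ε') * (T ^ (1 + ε')) ^ n = T ^ (2 * ε' + n * (1 + ε')) := by
          rw [← Real.rpow_natCast, ← Real.rpow_mul hT0.le, ← Real.rpow_add hT0]
          congr 1
          ring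
        have e2 : T ^ (2 * ε' + n * (1 + ε')) ≤ T ^ (((n + 1 : ℕ) : ℝ) - 1 + ε) := by
          refine Real.rpow_le_rpow_of_exponent_le hT ?_
          push_cast
          linarith
        have e3 : (V * (n + 1)) * (((n + 1) * (C1 ^ 2 * T ^ (2 * ε') * (D * T ^ (1 + ε')) ^ n)) * V) =
            ((n + 1) * ((n + 1) * (C1 ^ 2 * D ^ n)) * V ^ 2) * (T ^ (2 * ε') * (T ^ (1 + ε')) ^ n) := by
          rw [mul_pow]
          ring
        rw [e3, e1]
        exact mul_le_mul_of_nonneg_left e2 (by positivity)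

end Pool.Agent.P07318s
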