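import Pool.Agent.Lib.P07318s.Defs
import Pool.Agent.Lib.P07318s.SupF
import Pool.Agent.Lib.P07318s.E1F
import Pool.Agent.Lib.P07318s.Cont
import Pool.Agent.Lib.P07318s.FinalDiag
import Pool.Agent.Lib.P07318s.Final
import Pool.Agent.Lib.P07318s.FinalV

/-!
Final assembly for a box in all `k` shifts and short windows `[0, L]`, `1 ≤ L ≤ T` (compare FinalDiag.lean and Final.lean).
`‖∫_0^V (∏‖ζ‖² - mainTerm)‖ ≤ B₁(α) + B₂(α) + ∫_0^V ‖Dg - mainTerm‖` for all `V ≤ L`, `B₁` from `e1_f` (`ε/2`): measure of `B₁ > L^(1/2) T^ε` is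
`≤ C L T^(-1/2+ε/2) H^k / (L^(1/2) T^ε) ≤ C H^k T^(-ε/2)`; `B₂` from `sup_f`: measure of `B₂ > L^(1/2) T^ε (T/H)^(k/2)` is
`≤ C L T^(k(1+4δ)) / (L T^(2ε) (T/H)^k) = C H^k T^(4δk - 2ε)`; the last term is `≤ C T^(-1/2+ε) L ≤ C L^(1/2) T^ε` off the bad set of
differences `α_i - α_j`, `i ≠ j` (`main_point`, `zeta_good`, and `FinalAux.fub` / `one_dim` as in `pair_bound` for two coordinates of the
box; if `k ≤ 1` there are no pairs).
-/

set_option autoImplicit false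

namespace Pool.Agent.P07318s

open MeasureTheory Complex

open FVaux in
theorem final_f (k : ℕ) (ε : ℝ) (hε : 0 < ε) : ∃ C η : ℝ, 0 < C ∧ 0 < η ∧ ∀ T L H : ℝ, 1 ≤ L → L ≤ T →
    T ^ (1 / 2 : ℝ) ≤ H → H ≤ T → ∀ β : Fin k → ℝ, (∀ j, T ≤ β j) → (∀ j, β j ≤ 2 * T) →
    volume {α ∈ Set.Icc β (fun j => β j + H) | ∃ V ∈ Set.Icc (0:ℝ) L,
      C * L ^ (1 / 2 : ℝ) * T ^ ε * (T / H) ^ ((k : ℝ) / 2) <
      ‖∫ t in (0:ℝ)..V, (((∏ j, ‖riemannZeta (1 / 2 + ((t + α j : ℝ) : ℂ) * I)‖ ^ 2 : ℝ) : ℂ) -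
        mainTerm (fun j => t + α j))‖} ≤
      ENNReal.ofReal (C * H ^ k * T ^ (-η)) := by
  have hk : (0 : ℝ) < (k : ℝ) + 1 := by positivity
  set δ : ℝ := min (1 / 2) (ε / (4 * ((k : ℝ) + 1))) with hδ_def
  have hδ : 0 < δ := lt_min (by norm_num) (by positivity)
  have hδ2 : δ ≤ 1 / 2 := min_le_left _ _
  have hδ3 : 4 * δ * ((k : ℝ) + 1) ≤ ε := by
    have h := min_le_right (1 / 2 : ℝ) (ε / (4 * ((k : ℝ) + 1)))
    rw [← hδ_def, le_div_iff₀ (by positivity)] at h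
    linarith
  obtain ⟨κ, hκ, hκ4, hMP⟩ := main_point k ε hε
  obtain ⟨B, C1, κ', hB, hC1, hκ', hZG⟩ := zeta_good κ hκ hκ4
  obtain ⟨C2, hC2, hMP'⟩ := hMP B
  obtain ⟨D1, hD1, hE1⟩ := e1_f k (ε / 2) (by positivity)
  obtain ⟨D2, hD2, hS2⟩ := sup_f k δ hδ hδ2
  refine ⟨2 + C2 + D1 + D2 + (k : ℝ) ^ 2 * C1, min (ε / 2) κ', by positivity,
    lt_min (by positivity) hκ', ?_⟩
  intro T L H hL hLT hTH hHT β hβ hβ'
  have hT : 1 ≤ T := hL.trans hLT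
  have hT0 : 0 < T := by linarith
  have hL0 : 0 < L := by linarith
  have hH0 : 0 < H := lt_of_lt_of_le (Real.rpow_pos_of_pos hT0 _) hTH
  obtain ⟨B₁, hB₁m, hB₁, hB₁i⟩ := hE1 T L H hT hL0.le hLT hTH hHT β hβ hβ'
  obtain ⟨B₂, hB₂m, hB₂, hB₂i⟩ := hS2 T L H hT hL hLT hH0.le hHT β hβ hβ'
  set S : Set (Fin k → ℝ) := Set.Icc β (fun j => β j + H) with hS_def
  have hSm : MeasurableSet S := measurableSet_Icc
  set A : ℝ := L ^ (1 / 2 : ℝ) * T ^ ε * (T / H) ^ ((k : ℝ) / 2) with hA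
  have hTH1 : 1 ≤ T / H := (one_le_div hH0).2 hHT
  have hq : 1 ≤ (T / H) ^ ((k : ℝ) / 2) := Real.one_le_rpow hTH1 (by positivity)
  have hTe : 0 < T ^ ε := Real.rpow_pos_of_pos hT0 _
  have hLh : 0 < L ^ (1 / 2 : ℝ) := Real.rpow_pos_of_pos hL0 _
  have hLL : L ^ (1 / 2 : ℝ) * L ^ (1 / 2 : ℝ) = L := by
    rw [← Real.rpow_add hL0]
    norm_num
  have hLTh : L ^ (1 / 2 : ℝ) ≤ T ^ (1 / 2 : ℝ) := Real.rpow_le_rpow hL0.le hLT (by norm_num)
  have hTT : T ^ (-(1 / 2) : ℝ) * T ^ (1 / 2 : ℝ) = 1 := by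
    rw [← Real.rpow_add hT0]
    norm_num
  have hTmh : 0 < T ^ (-(1 / 2) : ℝ) := Real.rpow_pos_of_pos hT0 _
  -- `L T^(-1/2) ≤ L^(1/2)`
  have hLT2 : L * T ^ (-(1 / 2) : ℝ) ≤ L ^ (1 / 2 : ℝ) := by
    calc L * T ^ (-(1 / 2) : ℝ) = L ^ (1 / 2 : ℝ) * (T ^ (-(1 / 2) : ℝ) * L ^ (1 / 2 : ℝ)) := by
          rw [← mul_assoc, mul_right_comm, hLL]
      _ ≤ L ^ (1 / 2 : ℝ) * (T ^ (-(1 / 2) : ℝ) * T ^ (1 / 2 : ℝ)) := by gcongr
      _ = L ^ (1 / 2 : ℝ) := by rw [hTT, mul_one]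
  have hA0 : 0 < A := by positivity
  have hAT : L ^ (1 / 2 : ℝ) * T ^ ε ≤ A := by
    rw [hA]
    have : 0 < L ^ (1 / 2 : ℝ) * T ^ ε := by positivity
    nlinarith
  set m : ℝ := min (ε / 2) κ' with hm_def
  have hT1 : ∀ κ'' : ℝ, m ≤ κ'' → T ^ (-κ'') ≤ T ^ (-m) := by
    intro κ'' h
    exact Real.rpow_le_rpow_of_exponent_le hT (by linarith)
  have hm0 : 0 ≤ T ^ (-m) := Real.rpow_nonneg hT0.le _
  have b₁ : (volume.restrict S) {α | ENNReal.ofReal A < B₁ α} ≤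
      ENNReal.ofReal (D1 * H ^ k * T ^ (-m)) := by
    refine (markovE1 hB₁m hA0 hB₁i).trans ?_
    apply ENNReal.ofReal_le_ofReal
    refine le_trans ?_ (mul_le_mul_of_nonneg_left (hT1 (ε / 2) (min_le_left _ _)) (by positivity))
    have e : T ^ (-(1 / 2) + ε / 2) = T ^ (-(1 / 2) : ℝ) * T ^ (ε / 2) := Real.rpow_add hT0 _ _
    have e' : T ^ ε * T ^ (-(ε / 2)) = T ^ (ε / 2) := by
      rw [← Real.rpow_add hT0]
      congr 1
      ring
    rw [div_le_iff₀ hA0, e]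
    have h3 : 0 ≤ D1 * H ^ k * T ^ (-(ε / 2)) := by positivity
    calc D1 * L * (T ^ (-(1 / 2) : ℝ) * T ^ (ε / 2)) * H ^ k
        = D1 * H ^ k * T ^ (ε / 2) * (L * T ^ (-(1 / 2) : ℝ)) := by ring
      _ ≤ D1 * H ^ k * T ^ (ε / 2) * L ^ (1 / 2 : ℝ) := by gcongr
      _ = D1 * H ^ k * T ^ (-(ε / 2)) * (L ^ (1 / 2 : ℝ) * T ^ ε) := by rw [← e']; ring
      _ ≤ D1 * H ^ k * T ^ (-(ε / 2)) * A := mul_le_mul_of_nonneg_left hAT h3
  have b₂ : (volume.restrict S) {α | ENNReal.ofReal A < B₂ α} ≤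
      ENNReal.ofReal (D2 * H ^ k * T ^ (-m)) := by
    refine (markovE2 hB₂m hA0 hB₂i).trans ?_
    apply ENNReal.ofReal_le_ofReal
    refine le_trans ?_ (mul_le_mul_of_nonneg_left (hT1 (ε / 2) (min_le_left _ _)) (by positivity))
    have hA2 : A ^ 2 = L * (T ^ (2 * ε + k) / H ^ k) := by
      rw [hA, mul_pow, mul_pow, ← Real.rpow_natCast (T ^ ε) 2, ← Real.rpow_mul hT0.le,
        ← Real.rpow_natCast ((T / H) ^ ((k : ℝ) / 2)) 2, ← Real.rpow_mul (by positivity)]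
      have e1 : (k : ℝ) / 2 * ((2 : ℕ) : ℝ) = k := by push_cast; ring
      have e2 : ε * ((2 : ℕ) : ℝ) = 2 * ε := by push_cast; ring
      rw [e1, e2, Real.rpow_natCast, div_pow, Real.rpow_add hT0 (2 * ε), Real.rpow_natCast,
        pow_two, hLL]
      ring
    rw [div_le_iff₀ (by positivity), hA2]
    have hHn : 0 < H ^ k := by positivity
    have e3 : D2 * H ^ k * T ^ (-(ε / 2)) * (L * (T ^ (2 * ε + k) / H ^ k)) =
        D2 * L * T ^ (-(ε / 2) + (2 * ε + k)) := by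
      rw [Real.rpow_add hT0 (-(ε / 2))]
      field_simp
    rw [e3]
    refine mul_le_mul_of_nonneg_left ?_ (by positivity)
    apply Real.rpow_le_rpow_of_exponent_le hT
    nlinarith
  set P : Finset (Fin k × Fin k) := Finset.univ.filter (fun q => q.1 ≠ q.2) with hP
  set Sb : Fin k × Fin k → Set (Fin k → ℝ) := fun q =>
    {α ∈ Set.Icc β (fun j => β j + H) |
      ¬ Good κ (T ^ κ) (B * T ^ κ) (α q.1 - α q.2)} with hSb
  have hsub : {α ∈ S | ∃ V ∈ Set.Icc (0:ℝ) L,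
      (2 + C2 + D1 + D2 + (k : ℝ) ^ 2 * C1) * L ^ (1 / 2 : ℝ) * T ^ ε * (T / H) ^ ((k : ℝ) / 2) <
      ‖∫ t in (0:ℝ)..V, (((∏ j, ‖riemannZeta (1 / 2 + ((t + α j : ℝ) : ℂ) * I)‖ ^ 2 : ℝ) : ℂ) -
        mainTerm (fun j => t + α j))‖} ⊆
      (({α | ENNReal.ofReal A < B₁ α} ∪ {α | ENNReal.ofReal A < B₂ α}) ∩ S) ∪ ⋃ q ∈ P, Sb q := by
    rintro α ⟨hα, V, hV, hα'⟩
    by_contra hcon
    rw [Set.mem_union, not_or] at hcon
    obtain ⟨hc1, hc2⟩ := hcon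
    have hc3 : ¬ ENNReal.ofReal A < B₁ α := fun h => hc1 ⟨Or.inl h, hα⟩
    have hc4 : ¬ ENNReal.ofReal A < B₂ α := fun h => hc1 ⟨Or.inr h, hα⟩
    have hgood : ∀ i j, i ≠ j → Good κ (T ^ κ) (B * T ^ κ) (α i - α j) := by
      intro i j hij
      by_contra hg
      apply hc2
      rw [Set.mem_iUnion₂]
      exact ⟨(i, j), Finset.mem_filter.2 ⟨Finset.mem_univ _, hij⟩, hα, hg⟩
    have ha1 : ∀ j, T ≤ α j := fun j => (hβ j).trans (hα.1 j)
    have ha2 : ∀ j, α j ≤ 3 * T := by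
      intro j
      have h1 := hα.2 j
      have h2 := hβ' j
      simp only at h1
      linarith
    have hpt := point hMP' hT hκ ha1 ha2 hgood hV.1 (hV.2.trans hLT)
    have h1 := norm_le_of hA0.le (hB₁ α hα V hV) hc3
    have h2 := norm_le_of hA0.le (hB₂ α hα V hV) hc4
    have h3 : C2 * T ^ (-(1 / 2) + ε) * V ≤ C2 * A := by
      rw [mul_assoc]
      apply mul_le_mul_of_nonneg_left _ hC2.le
      refine le_trans ?_ hAT
      rw [Real.rpow_add hT0]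
      calc T ^ (-(1 / 2) : ℝ) * T ^ ε * V ≤ T ^ (-(1 / 2) : ℝ) * T ^ ε * L :=
            mul_le_mul_of_nonneg_left hV.2 (by positivity)
        _ = (L * T ^ (-(1 / 2) : ℝ)) * T ^ ε := by ring
        _ ≤ L ^ (1 / 2 : ℝ) * T ^ ε := mul_le_mul_of_nonneg_right hLT2 hTe.le
    have h5 : (2 + C2) * A ≤
        (2 + C2 + D1 + D2 + (k : ℝ) ^ 2 * C1) * L ^ (1 / 2 : ℝ) * T ^ ε *
          (T / H) ^ ((k : ℝ) / 2) := by
      have e : (2 + C2 + D1 + D2 + (k : ℝ) ^ 2 * C1) * L ^ (1 / 2 : ℝ) * T ^ ε *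
          (T / H) ^ ((k : ℝ) / 2) = (2 + C2 + D1 + D2 + (k : ℝ) ^ 2 * C1) * A := by
        rw [hA]
        ring
      rw [e]
      apply mul_le_mul_of_nonneg_right _ hA0.le
      have : 0 ≤ D1 + D2 + (k : ℝ) ^ 2 * C1 := by positivity
      linarith
    linarith
  have hfin2 : ∀ q ∈ P, volume (Sb q) ≤ ENNReal.ofReal (C1 * H ^ k * T ^ (-m)) := by
    intro q hq
    have hne := (Finset.mem_filter.1 hq).2
    have hne' : q.1.succ ≠ q.2.succ := fun h => hne (Fin.succ_injective _ h)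
    have hpb := FinalAux.pair_bound (κ := κ) (Y := T ^ κ) (B := B * T ^ κ) (κ' := κ') hT hH0.le hHT
      hC1.le (fun a ha ha' => hZG T a H hT hTH ha ha') (α₀ := T) le_rfl (by linarith) hβ hβ'
      q.1.succ q.2.succ hne'
    simp only [Fin.cons_succ] at hpb
    refine hpb.trans ?_
    apply ENNReal.ofReal_le_ofReal
    exact mul_le_mul_of_nonneg_left (hT1 κ' (min_le_right _ _)) (by positivity)
  have hPcard : (P.card : ℝ) ≤ (k : ℝ) ^ 2 := by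
    have h1 : P.card ≤ k * k := by
      refine (Finset.card_filter_le _ _).trans ?_
      simp
    have h2 : (P.card : ℝ) ≤ (k * k : ℕ) := by exact_mod_cast h1
    push_cast at h2
    linarith [h2]
  refine (measure_mono hsub).trans ?_
  refine (measure_union_le _ _).trans ?_
  have hf1 : volume (({α | ENNReal.ofReal A < B₁ α} ∪ {α | ENNReal.ofReal A < B₂ α}) ∩ S) ≤
      ENNReal.ofReal (D1 * H ^ k * T ^ (-m)) + ENNReal.ofReal (D2 * H ^ k * T ^ (-m)) := by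
    rw [← Measure.restrict_apply' hSm]
    exact (measure_union_le _ _).trans (add_le_add b₁ b₂)
  have hf2 : volume (⋃ q ∈ P, Sb q) ≤ ∑ q ∈ P, ENNReal.ofReal (C1 * H ^ k * T ^ (-m)) :=
    (measure_biUnion_finset_le _ _).trans (Finset.sum_le_sum hfin2)
  refine (add_le_add hf1 hf2).trans ?_
  rw [Finset.sum_const, nsmul_eq_mul, ← ENNReal.ofReal_natCast,
    ← ENNReal.ofReal_mul (by positivity : (0 : ℝ) ≤ (P.card : ℝ)),
    ← ENNReal.ofReal_add (by positivity) (by positivity),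
    ← ENNReal.ofReal_add (by positivity) (by positivity)]
  apply ENNReal.ofReal_le_ofReal
  have h1 : (P.card : ℝ) * (C1 * H ^ k * T ^ (-m)) ≤ (k : ℝ) ^ 2 * (C1 * H ^ k * T ^ (-m)) :=
    mul_le_mul_of_nonneg_right hPcard (by positivity)
  have h2 : 0 ≤ (2 + C2) * H ^ k * T ^ (-m) := by positivity
  nlinarith

end Pool.Agent.P07318s
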