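import Mathlib

/-!
Mean square of a finite exponential sum over a box, by a Gaussian majorant. For `a ∈ [β, β + T]`, `c = β + T/2`: `1 ≤ e^(1/4) exp(-(a-c)²/T²)`. So
`∫_box |∑_s c_s exp(i ∑_j α_j f_s(j))|² ≤ e^(k/4) ∫_{ℝ^k} ∏_j exp(-(α_j-c_j)²/T²) |∑|² = e^(k/4) ∑_{s,s'} c_s conj(c_s') ∏_j √π T exp(i c_j l_j) exp(-T² l_j²/4)`,
`l_j = f_s(j) - f_s'(j)` (`MeasureTheory.integral_fintype_prod_eq_prod`, Fourier transform of the Gaussian: `fourierIntegral_gaussian` / `integral_cexp_neg_mul_sq_add_real_mul_I`).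
Constant `(e^(1/4) √π)^k ≤ 3^k`.
-/

set_option autoImplicit false

namespace Pool.Agent.P07318s

open MeasureTheory Complex

namespace GOaux

/-- the one dimensional weight -/
noncomputable def gw (T c a : ℝ) : ℝ := Real.exp (1 / 4 - ((a - c) / T) ^ 2)

lemma gw_nonneg (T c a : ℝ) : 0 ≤ gw T c a := (Real.exp_pos _).le

lemma one_le_gw {T : ℝ} (hT : 0 < T) {b a : ℝ} (h1 : b ≤ a) (h2 : a ≤ b + T) :
    1 ≤ gw T (b + T / 2) a := by
  unfold gw
  refine Real.one_le_exp ?_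
  have h : |(a - (b + T / 2)) / T| ≤ 1 / 2 := by
    rw [abs_div, abs_of_pos hT, div_le_iff₀ hT, abs_le]
    constructor <;> linarith
  have h3 := sq_abs ((a - (b + T / 2)) / T)
  have h4 := abs_nonneg ((a - (b + T / 2)) / T)
  nlinarith

lemma gw_exp {T : ℝ} (hT : 0 < T) (c l a : ℝ) :
    ((gw T c a : ℝ) : ℂ) * cexp (((a * l : ℝ) : ℂ) * I) =
      cexp ((((-(1 / T ^ 2) : ℝ)) : ℂ) * (a : ℂ) ^ 2 + (((2 * c / T ^ 2 : ℝ) : ℂ) + (l : ℂ) * I) * (a : ℂ) +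
        ((1 / 4 - c ^ 2 / T ^ 2 : ℝ) : ℂ)) := by
  unfold gw
  rw [Complex.ofReal_exp, ← Complex.exp_add]
  congr 1
  have hT' : (T : ℂ) ≠ 0 := by exact_mod_cast hT.ne'
  push_cast
  field_simp
  ring

lemma re_neg {T : ℝ} (hT : 0 < T) : ((((-(1 / T ^ 2) : ℝ)) : ℂ)).re < 0 := by
  rw [Complex.ofReal_re]
  have : 0 < 1 / T ^ 2 := by positivity
  linarith

lemma gw_integrable {T : ℝ} (hT : 0 < T) (c l : ℝ) :
    Integrable (fun a : ℝ => ((gw T c a : ℝ) : ℂ) * cexp (((a * l : ℝ) : ℂ) * I)) := by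
  simp_rw [gw_exp hT]
  exact integrable_cexp_quadratic' (re_neg hT) _ _

lemma gw_integral {T : ℝ} (hT : 0 < T) (c l : ℝ) :
    ‖∫ a : ℝ, ((gw T c a : ℝ) : ℂ) * cexp (((a * l : ℝ) : ℂ) * I)‖ ≤
      3 * T * Real.exp (-(T ^ 2 * l ^ 2 / 4)) := by
  simp_rw [gw_exp hT]
  rw [integral_cexp_quadratic (re_neg hT), norm_mul, Complex.norm_exp]
  have hT' : (T : ℂ) ≠ 0 := by exact_mod_cast hT.ne'
  have e1 : ((1 / 4 - c ^ 2 / T ^ 2 : ℝ) : ℂ) -
      (((2 * c / T ^ 2 : ℝ) : ℂ) + (l : ℂ) * I) ^ 2 / (4 * (((-(1 / T ^ 2) : ℝ)) : ℂ)) =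
      ((1 / 4 - T ^ 2 * l ^ 2 / 4 : ℝ) : ℂ) + ((c * l : ℝ) : ℂ) * I := by
    push_cast
    field_simp
    ring_nf
    rw [Complex.I_sq]
    ring
  rw [e1]
  have e2 : (((1 / 4 - T ^ 2 * l ^ 2 / 4 : ℝ) : ℂ) + ((c * l : ℝ) : ℂ) * I).re = 1 / 4 - T ^ 2 * l ^ 2 / 4 := by
    simp only [Complex.add_re, Complex.ofReal_re, Complex.mul_re, Complex.I_re, mul_zero, Complex.ofReal_im,
      Complex.I_im, mul_one, sub_zero, zero_mul, add_zero, sub_self]
  rw [e2]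
  have e3 : (Real.pi : ℂ) / -((((-(1 / T ^ 2) : ℝ)) : ℂ)) = ((Real.pi * T ^ 2 : ℝ) : ℂ) := by
    push_cast
    field_simp
  rw [e3]
  have hp : (0 : ℝ) < Real.pi * T ^ 2 := by positivity
  rw [Complex.norm_cpow_eq_rpow_re_of_pos hp]
  have e4 : ((1 / 2 : ℂ)).re = 1 / 2 := by norm_num
  rw [e4, ← Real.sqrt_eq_rpow, Real.sqrt_mul Real.pi_pos.le, Real.sqrt_sq hT.le]
  have e5 : Real.exp (1 / 4 - T ^ 2 * l ^ 2 / 4) = Real.exp (1 / 4) * Real.exp (-(T ^ 2 * l ^ 2 / 4)) := by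
    rw [← Real.exp_add]
    congr 1
  rw [e5]
  have h1 : Real.sqrt Real.pi ≤ 2 := by
    rw [Real.sqrt_le_left (by norm_num)]
    linarith [Real.pi_le_four]
  have h2 : Real.exp (1 / 4) ≤ 3 / 2 := by
    have h3 : (Real.exp (1 / 4)) ^ 4 = Real.exp 1 := by
      rw [← Real.exp_nat_mul]
      norm_num
    by_contra hc
    push Not at hc
    have h4 : (3 / 2 : ℝ) ^ 4 < (Real.exp (1 / 4)) ^ 4 := pow_lt_pow_left₀ hc (by norm_num) (by norm_num)
    rw [h3] at h4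
    have := Real.exp_one_lt_d9
    norm_num at h4
    linarith
  have h6 : 0 ≤ Real.exp (-(T ^ 2 * l ^ 2 / 4)) := (Real.exp_pos _).le
  have h7 : Real.sqrt Real.pi * Real.exp (1 / 4) ≤ 2 * (3 / 2) :=
    mul_le_mul h1 h2 (Real.exp_pos _).le (by norm_num)
  calc Real.sqrt Real.pi * T * (Real.exp (1 / 4) * Real.exp (-(T ^ 2 * l ^ 2 / 4)))
      = (Real.sqrt Real.pi * Real.exp (1 / 4)) * (T * Real.exp (-(T ^ 2 * l ^ 2 / 4))) := by ring
    _ ≤ (2 * (3 / 2)) * (T * Real.exp (-(T ^ 2 * l ^ 2 / 4))) :=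
        mul_le_mul_of_nonneg_right h7 (by positivity)
    _ = 3 * T * Real.exp (-(T ^ 2 * l ^ 2 / 4)) := by ring

end GOaux

open GOaux in
theorem gauss_orth (k : ℕ) {ι : Type*} (F : Finset ι) (f : ι → Fin k → ℝ) (c : ι → ℂ) (T : ℝ) (hT : 0 < T) (β : Fin k → ℝ) :
    ∫ α in Set.Icc β (fun j => β j + T), ‖∑ s ∈ F, c s * cexp (((∑ j, α j * f s j : ℝ) : ℂ) * I)‖ ^ 2 ≤
      3 ^ k * T ^ k * ∑ s ∈ F, ∑ s' ∈ F, ‖c s‖ * ‖c s'‖ * ∏ j, Real.exp (-(T ^ 2 * (f s j - f s' j) ^ 2 / 4)) := by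
  set S : (Fin k → ℝ) → ℂ := fun α => ∑ s ∈ F, c s * cexp (((∑ j, α j * f s j : ℝ) : ℂ) * I) with hS
  set g : (Fin k → ℝ) → ℝ := fun α => ∏ j, gw T (β j + T / 2) (α j) with hg
  -- the expansion
  have hexp : ∀ α : Fin k → ℝ, ((g α * ‖S α‖ ^ 2 : ℝ) : ℂ) =
      ∑ s ∈ F, ∑ s' ∈ F, (c s * (starRingEnd ℂ) (c s')) *
        ∏ j, (((gw T (β j + T / 2) (α j) : ℝ) : ℂ) * cexp (((α j * (f s j - f s' j) : ℝ) : ℂ) * I)) := by
    intro α
    have h1 : ((‖S α‖ ^ 2 : ℝ) : ℂ) = S α * (starRingEnd ℂ) (S α) := by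
      rw [Complex.mul_conj, Complex.normSq_eq_norm_sq]
    rw [Complex.ofReal_mul, h1, hS]
    simp only []
    rw [map_sum, Finset.sum_mul_sum, Finset.mul_sum]
    refine Finset.sum_congr rfl fun s _ => ?_
    rw [Finset.mul_sum]
    refine Finset.sum_congr rfl fun s' _ => ?_
    rw [Finset.prod_mul_distrib, map_mul, ← Complex.exp_conj, ← Complex.exp_sum]
    have h2 : cexp (((∑ j, α j * f s j : ℝ) : ℂ) * I) *
        cexp ((starRingEnd ℂ) (((∑ j, α j * f s' j : ℝ) : ℂ) * I)) =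
        cexp (∑ j, ((α j * (f s j - f s' j) : ℝ) : ℂ) * I) := by
      rw [← Complex.exp_add]
      congr 1
      rw [map_mul, Complex.conj_I, Complex.conj_ofReal]
      push_cast
      rw [← Finset.sum_mul]
      have : ∑ j, (α j : ℂ) * ((f s j : ℂ) - (f s' j : ℂ)) =
          (∑ j, (α j : ℂ) * (f s j : ℂ)) - ∑ j, (α j : ℂ) * (f s' j : ℂ) := by
        rw [← Finset.sum_sub_distrib]
        exact Finset.sum_congr rfl fun j _ => by ring
      rw [this]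
      ring
    rw [hg]
    push_cast
    push_cast at h2
    rw [← h2]
    ring
  have hint1 : ∀ s s' : ι, Integrable (fun α : Fin k → ℝ =>
      ∏ j, (((gw T (β j + T / 2) (α j) : ℝ) : ℂ) * cexp (((α j * (f s j - f s' j) : ℝ) : ℂ) * I))) := by
    intro s s'
    exact Integrable.fintype_prod (f := fun j a =>
      ((gw T (β j + T / 2) a : ℝ) : ℂ) * cexp (((a * (f s j - f s' j) : ℝ) : ℂ) * I))
      (fun j => gw_integrable hT _ _)
  have hintC : Integrable (fun α : Fin k → ℝ => ((g α * ‖S α‖ ^ 2 : ℝ) : ℂ)) := by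
    simp_rw [hexp]
    refine integrable_finsetSum _ fun s _ => integrable_finsetSum _ fun s' _ => ?_
    exact (hint1 s s').const_mul _
  have hintR : Integrable (fun α : Fin k → ℝ => g α * ‖S α‖ ^ 2) := by
    have h := hintC.re
    refine h.congr (Filter.Eventually.of_forall fun α => ?_)
    exact Complex.ofReal_re _
  have hg0 : ∀ α, 0 ≤ g α := fun α => Finset.prod_nonneg fun j _ => gw_nonneg _ _ _
  have hg1 : ∀ α ∈ Set.Icc β (fun j => β j + T), 1 ≤ g α := by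
    intro α hα
    have : ∏ _j : Fin k, (1 : ℝ) ≤ g α := Finset.prod_le_prod (fun _ _ => zero_le_one)
      (fun j _ => one_le_gw hT (hα.1 j) (hα.2 j))
    simpa using this
  have hcont : Continuous S := by
    rw [hS]
    refine continuous_finsetSum _ fun s _ => continuous_const.mul ?_
    refine Complex.continuous_exp.comp (Continuous.mul ?_ continuous_const)
    refine Complex.continuous_ofReal.comp ?_
    exact continuous_finsetSum _ fun j _ => (continuous_apply j).mul continuous_const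
  -- step 1
  have hstep : ∫ α in Set.Icc β (fun j => β j + T), ‖S α‖ ^ 2 ≤ ∫ α : Fin k → ℝ, g α * ‖S α‖ ^ 2 := by
    calc ∫ α in Set.Icc β (fun j => β j + T), ‖S α‖ ^ 2
        ≤ ∫ α in Set.Icc β (fun j => β j + T), g α * ‖S α‖ ^ 2 := by
          refine setIntegral_mono_on ?_ hintR.integrableOn measurableSet_Icc ?_
          · exact (hcont.norm.pow 2).continuousOn.integrableOn_compact isCompact_Icc
          · intro α hα
            have := hg1 α hα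
            have h0 : 0 ≤ ‖S α‖ ^ 2 := by positivity
            nlinarith
      _ ≤ ∫ α : Fin k → ℝ, g α * ‖S α‖ ^ 2 :=
          setIntegral_le_integral hintR (Filter.Eventually.of_forall fun α =>
            mul_nonneg (hg0 α) (by positivity))
  refine hstep.trans ?_
  -- step 2
  have hval : ((∫ α : Fin k → ℝ, g α * ‖S α‖ ^ 2 : ℝ) : ℂ) =
      ∑ s ∈ F, ∑ s' ∈ F, (c s * (starRingEnd ℂ) (c s')) *
        ∏ j, ∫ a : ℝ, (((gw T (β j + T / 2) a : ℝ) : ℂ) * cexp (((a * (f s j - f s' j) : ℝ) : ℂ) * I)) := by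
    rw [← integral_complex_ofReal]
    simp_rw [hexp]
    rw [integral_finsetSum _ fun s _ => integrable_finsetSum _ fun s' _ => (hint1 s s').const_mul _]
    refine Finset.sum_congr rfl fun s _ => ?_
    rw [integral_finsetSum _ fun s' _ => (hint1 s s').const_mul _]
    refine Finset.sum_congr rfl fun s' _ => ?_
    rw [integral_const_mul]
    congr 1
    exact integral_fintype_prod_volume_eq_prod (fun j a =>
      ((gw T (β j + T / 2) a : ℝ) : ℂ) * cexp (((a * (f s j - f s' j) : ℝ) : ℂ) * I))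
  have hnn : 0 ≤ ∫ α : Fin k → ℝ, g α * ‖S α‖ ^ 2 :=
    integral_nonneg fun α => mul_nonneg (hg0 α) (by positivity)
  have hnorm : (∫ α : Fin k → ℝ, g α * ‖S α‖ ^ 2) = ‖((∫ α : Fin k → ℝ, g α * ‖S α‖ ^ 2 : ℝ) : ℂ)‖ := by
    rw [Complex.norm_real, Real.norm_of_nonneg hnn]
  rw [hnorm, hval, Finset.mul_sum]
  refine (norm_sum_le _ _).trans (Finset.sum_le_sum fun s _ => ?_)
  rw [Finset.mul_sum]
  refine (norm_sum_le _ _).trans (Finset.sum_le_sum fun s' _ => ?_)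
  rw [norm_mul, norm_mul, RCLike.norm_conj, norm_prod]
  have hp : ∏ j, ‖∫ a : ℝ, (((gw T (β j + T / 2) a : ℝ) : ℂ) * cexp (((a * (f s j - f s' j) : ℝ) : ℂ) * I))‖ ≤
      ∏ j : Fin k, (3 * T * Real.exp (-(T ^ 2 * (f s j - f s' j) ^ 2 / 4))) :=
    Finset.prod_le_prod (fun _ _ => norm_nonneg _) fun j _ => gw_integral hT _ _
  rw [Finset.prod_mul_distrib, Finset.prod_const, Finset.card_univ, Fintype.card_fin, mul_pow] at hp
  calc ‖c s‖ * ‖c s'‖ * ∏ j, ‖∫ a : ℝ, (((gw T (β j + T / 2) a : ℝ) : ℂ) *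
        cexp (((a * (f s j - f s' j) : ℝ) : ℂ) * I))‖
      ≤ ‖c s‖ * ‖c s'‖ * (3 ^ k * T ^ k * ∏ j, Real.exp (-(T ^ 2 * (f s j - f s' j) ^ 2 / 4))) :=
        mul_le_mul_of_nonneg_left hp (by positivity)
    _ = 3 ^ k * T ^ k * (‖c s‖ * ‖c s'‖ * ∏ j, Real.exp (-(T ^ 2 * (f s j - f s' j) ^ 2 / 4))) := by ring

end Pool.Agent.P07318s
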