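import Pool.Agent.Lib.P07318s.Defs

/-!
Test functions with integer frequencies: coordinates `j < m` carry the fraction `x_j / 1`, the others `1 / x_j`.
-/

set_option autoImplicit false

namespace Pool.Agent.P07318s

open MeasureTheory Complex

/-- the fraction `c / 1` (if `s` is true) or `1 / c` -/
def pc (s : Bool) (c : ℕ+) : Q :=
  if s then ⟨(c, 1), by simp⟩ else ⟨(1, c), by simp⟩

lemma hgt_pc (s : Bool) (c : ℕ+) : hgt (pc s c).1 = ((c : ℕ) : ℝ) := by
  cases s <;> simp [pc, hgt]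

lemma lgr_pc_true (c : ℕ+) : lgr (pc true c).1 = Real.log ((c : ℕ) : ℝ) := by simp [pc, lgr]

lemma lgr_pc_false (c : ℕ+) : lgr (pc false c).1 = -Real.log ((c : ℕ) : ℝ) := by simp [pc, lgr]

/-- the tuple of fractions of `x` -/
def fr {k : ℕ} (m : ℕ) (x : Fin k → ℕ+) (j : Fin k) : Q := pc (decide ((j : ℕ) < m)) (x j)

/-- `∑_{j < m} log x_j - ∑_{j ≥ m} log x_j` -/
noncomputable def lamx {k : ℕ} (m : ℕ) (x : Fin k → ℕ+) : ℝ := lam (fun j => (fr m x j).1)

/-- the test function of a finite set of frequencies -/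
noncomputable def PS {k : ℕ} (m : ℕ) (S : Finset (Fin k → ℕ+)) (α : Fin k → ℝ) : ℂ :=
  ∑ x ∈ S, ∏ j, ex (α j) (fr m x j).1

open Classical in
/-- the frequencies: `x_j ∈ [B, 2B)` for `j < 2m`, `x_j = 1` for `j ≥ 2m`, `0 < |lamx m x| ≤ 1/V` -/
noncomputable def SS (k m : ℕ) (B : ℕ+) (V : ℝ) : Finset (Fin k → ℕ+) :=
  (Fintype.piFinset fun j : Fin k => if (j : ℕ) < 2 * m then Finset.Ico B (2 * B) else {1}).filter
    fun x => lamx m x ≠ 0 ∧ |lamx m x| ≤ 1 / V

end Pool.Agent.P07318s
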