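import Pool.Agent.Lib.P07318s.Defs
import Pool.Agent.Lib.P07318s.IntDefs

/-!
Test functions with integer frequencies, with any signs: coordinate `j` carries the fraction `x_j / 1` (if `σ j`) or `1 / x_j`.
-/

set_option autoImplicit false

namespace Pool.Agent.P07318s

open MeasureTheory Complex

/-- the tuple of fractions of `x` -/
def frs {k : ℕ} (σ : Fin k → Bool) (x : Fin k → ℕ+) (j : Fin k) : Q := pc (σ j) (x j)

/-- `∑_{σ j} log x_j - ∑_{¬ σ j} log x_j` -/
noncomputable def lams {k : ℕ} (σ : Fin k → Bool) (x : Fin k → ℕ+) : ℝ := lam (fun j => (frs σ x j).1)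

/-- the test function of a finite set of frequencies -/
noncomputable def PT {k : ℕ} (σ : Fin k → Bool) (S : Finset (Fin k → ℕ+)) (α : Fin k → ℝ) : ℂ :=
  ∑ x ∈ S, ∏ j, ex (α j) (frs σ x j).1

end Pool.Agent.P07318s
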