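import Pool.Agent.Lib.P07318s.Defs
import Pool.Agent.Lib.P07318s.IntDefs
import Pool.Agent.Lib.P07318s.LowSum

/-!
As `LowSum.lean`, but for `p = c/1` or `1/c` the constant does not depend on `c`. `kap δ U h ≤ (U/h)^(1/2+2δ)`, so it is enough that
`∑_{a ≠ b c} (ab)^(-1-2δ) / |log(a/(bc))| ≤ C_δ` (sum over all pairs `a, b`, not only reduced; for `1/c` swap `a` and `b`).
One term: `a^(-1-η) / |log a - log B| ≤ 2 a^(-1-η) + |a - B|^(-1-η)`.
-/

set_option autoImplicit false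

namespace Pool.Agent.P07318s

open MeasureTheory Complex

namespace IntSumAux

/-- lower bound of a difference of logarithms -/
lemma log_sub_ge {x m : ℝ} (hx : 0 < x) (hm : 0 < m) :
    m / (x + m) ≤ |Real.log (x + m) - Real.log x| := by
  have hxm : 0 < x + m := by linarith
  rw [← Real.log_div hxm.ne' hx.ne']
  refine le_trans ?_ (le_abs_self _)
  have h2 := Real.one_sub_inv_le_log_of_pos (x := (x + m) / x) (by positivity)
  refine le_trans (le_of_eq ?_) h2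
  rw [inv_div]
  field_simp
  ring

lemma f_le {η : ℝ} (hη : 0 < η) (a B : ℕ+) :
    ((a : ℕ) : ℝ) ^ (-1 - η) / |Real.log ((a : ℕ) : ℝ) - Real.log ((B : ℕ) : ℝ)| ≤
      2 * ((a : ℕ) : ℝ) ^ (-1 - η) + |((((a : ℕ) : ℤ) - ((B : ℕ) : ℤ) : ℤ) : ℝ)| ^ (-1 - η) := by
  have ha : (0:ℝ) < ((a : ℕ) : ℝ) := by exact_mod_cast a.pos
  have hB : (0:ℝ) < ((B : ℕ) : ℝ) := by exact_mod_cast B.pos
  push_cast
  set x : ℝ := ((a : ℕ) : ℝ) with hx
  set y : ℝ := ((B : ℕ) : ℝ) with hy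
  have hxe : 0 ≤ x ^ (-1 - η) := Real.rpow_nonneg ha.le _
  have hsplit : ∀ u : ℝ, 0 < u → u ^ (-1 - η) = u ^ (-η) * u⁻¹ := by
    intro u hu
    rw [← Real.rpow_neg_one u, ← Real.rpow_add hu]
    congr 1; ring
  rcases lt_trichotomy x y with h | h | h
  · -- `y = x + m`
    obtain ⟨m, hm, hym⟩ : ∃ m : ℝ, 0 < m ∧ y = x + m := ⟨y - x, by linarith, by ring⟩
    rw [hym]
    have h1 := log_sub_ge ha hm
    rw [abs_sub_comm] at h1
    have h2 : |x - (x + m)| = m := by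
      rw [show x - (x + m) = -m by ring, abs_neg, abs_of_pos hm]
    rw [h2]
    have h3 : x ^ (-1 - η) / |Real.log x - Real.log (x + m)| ≤ x ^ (-1 - η) / (m / (x + m)) :=
      div_le_div_of_nonneg_left hxe (by positivity) h1
    have h4 : x ^ (-1 - η) / (m / (x + m)) = x ^ (-1 - η) + x ^ (-η) * m⁻¹ := by
      rw [hsplit x ha]
      field_simp
      ring
    have h5 : x ^ (-η) * m⁻¹ ≤ x ^ (-1 - η) + m ^ (-1 - η) := by
      rcases le_total x m with h6 | h6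
      · have h7 : m⁻¹ ≤ x⁻¹ := inv_anti₀ ha h6
        have h8 : x ^ (-η) * m⁻¹ ≤ x ^ (-1 - η) := by
          rw [hsplit x ha]
          exact mul_le_mul_of_nonneg_left h7 (Real.rpow_nonneg ha.le _)
        have h9 : 0 ≤ m ^ (-1 - η) := Real.rpow_nonneg hm.le _
        linarith
      · have h7 : x ^ (-η) ≤ m ^ (-η) := Real.rpow_le_rpow_of_nonpos hm h6 (by linarith)
        have h8 : x ^ (-η) * m⁻¹ ≤ m ^ (-1 - η) := by
          rw [hsplit m hm]
          exact mul_le_mul_of_nonneg_right h7 (by positivity)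
        linarith
    linarith
  · rw [h]
    simp only [sub_self, abs_zero, div_zero]
    have h9 : (0:ℝ) ≤ y ^ (-1 - η) := Real.rpow_nonneg hB.le _
    have h10 : (0:ℝ) ≤ (0:ℝ) ^ (-1 - η) := Real.rpow_nonneg le_rfl _
    positivity
  · -- `x = y + m`
    obtain ⟨m, hm, hxm⟩ : ∃ m : ℝ, 0 < m ∧ x = y + m := ⟨x - y, by linarith, by ring⟩
    have h1 := log_sub_ge hB hm
    rw [← hxm] at h1
    have h2 : |x - y| = m := by
      rw [hxm, show y + m - y = m by ring, abs_of_pos hm]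
    rw [h2]
    have hmx : m ≤ x := by linarith
    have h3 : x ^ (-1 - η) / |Real.log x - Real.log y| ≤ x ^ (-1 - η) / (m / x) :=
      div_le_div_of_nonneg_left hxe (by positivity) h1
    have h4 : x ^ (-1 - η) / (m / x) = x ^ (-η) * m⁻¹ := by
      rw [hsplit x ha]
      field_simp
    have h7 : x ^ (-η) ≤ m ^ (-η) := Real.rpow_le_rpow_of_nonpos hm hmx (by linarith)
    have h8 : x ^ (-η) * m⁻¹ ≤ m ^ (-1 - η) := by
      rw [hsplit m hm]
      exact mul_le_mul_of_nonneg_right h7 (by positivity)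
    linarith

lemma tsum_int_ne_top {η : ℝ} (hη : 0 < η) :
    ∑' z : ℤ, ENNReal.ofReal (|(z : ℝ)| ^ (-1 - η)) ≠ ⊤ := by
  have h1 : Summable (fun z : ℤ => |(z : ℝ)| ^ (-1 - η)) := by
    have := Real.summable_abs_int_rpow (b := 1 + η) (by linarith)
    refine this.congr fun z => ?_
    congr 1
    ring
  rw [← ENNReal.ofReal_tsum_of_nonneg (fun n => by positivity) h1]
  exact ENNReal.ofReal_ne_top

/-- the sum over one variable -/
lemma one_sum {η : ℝ} (hη : 0 < η) (B : ℕ+) :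
    ∑' a : ℕ+, ENNReal.ofReal (((a : ℕ) : ℝ) ^ (-1 - η) /
        |Real.log ((a : ℕ) : ℝ) - Real.log ((B : ℕ) : ℝ)|) ≤
      2 * (∑' n : ℕ+, ENNReal.ofReal (((n : ℕ) : ℝ) ^ (-1 - η))) +
        ∑' z : ℤ, ENNReal.ofReal (|(z : ℝ)| ^ (-1 - η)) := by
  calc ∑' a : ℕ+, ENNReal.ofReal (((a : ℕ) : ℝ) ^ (-1 - η) /
        |Real.log ((a : ℕ) : ℝ) - Real.log ((B : ℕ) : ℝ)|)
      ≤ ∑' a : ℕ+, (2 * ENNReal.ofReal (((a : ℕ) : ℝ) ^ (-1 - η)) +
          ENNReal.ofReal (|((((a : ℕ) : ℤ) - ((B : ℕ) : ℤ) : ℤ) : ℝ)| ^ (-1 - η))) := by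
        refine ENNReal.tsum_le_tsum fun a => ?_
        have h0 : (0:ℝ) ≤ ((a : ℕ) : ℝ) ^ (-1 - η) := Real.rpow_nonneg (Nat.cast_nonneg _) _
        have e2 : (2 : ENNReal) = ENNReal.ofReal 2 := by norm_num
        rw [e2, ← ENNReal.ofReal_mul (by norm_num), ← ENNReal.ofReal_add (by positivity)
          (Real.rpow_nonneg (abs_nonneg _) _)]
        exact ENNReal.ofReal_le_ofReal (f_le hη a B)
    _ = 2 * (∑' n : ℕ+, ENNReal.ofReal (((n : ℕ) : ℝ) ^ (-1 - η))) +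
          ∑' a : ℕ+, ENNReal.ofReal (|((((a : ℕ) : ℤ) - ((B : ℕ) : ℤ) : ℤ) : ℝ)| ^ (-1 - η)) := by
        rw [ENNReal.tsum_add, ENNReal.tsum_mul_left]
    _ ≤ _ := by
        refine add_le_add le_rfl ?_
        have hinj : Function.Injective (fun a : ℕ+ => (((a : ℕ) : ℤ) - ((B : ℕ) : ℤ) : ℤ)) := by
          intro a a' h
          apply PNat.eq
          have h' : (((a : ℕ) : ℤ) - ((B : ℕ) : ℤ) : ℤ) = (((a' : ℕ) : ℤ) - ((B : ℕ) : ℤ) : ℤ) := h
          omega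
        exact ENNReal.tsum_comp_le_tsum_of_injective hinj
          (fun z : ℤ => ENNReal.ofReal (|(z : ℝ)| ^ (-1 - η)))

/-- the sum over all pairs -/
lemma pair_sum {η : ℝ} (hη : 0 < η) (c : ℕ+) :
    ∑' b : ℕ+, ∑' a : ℕ+, ENNReal.ofReal ((((a : ℕ) : ℝ) * ((b : ℕ) : ℝ)) ^ (-1 - η) /
        |Real.log ((a : ℕ) : ℝ) - Real.log ((b : ℕ) : ℝ) - Real.log ((c : ℕ) : ℝ)|) ≤
      (∑' n : ℕ+, ENNReal.ofReal (((n : ℕ) : ℝ) ^ (-1 - η))) *
      (2 * (∑' n : ℕ+, ENNReal.ofReal (((n : ℕ) : ℝ) ^ (-1 - η))) +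
        ∑' z : ℤ, ENNReal.ofReal (|(z : ℝ)| ^ (-1 - η))) := by
  rw [← ENNReal.tsum_mul_right]
  refine ENNReal.tsum_le_tsum fun b => ?_
  refine le_trans (le_of_eq ?_) (mul_le_mul_right (one_sum hη (b * c)) _)
  rw [← ENNReal.tsum_mul_left]
  refine tsum_congr fun a => ?_
  have ha : (0:ℝ) < ((a : ℕ) : ℝ) := by exact_mod_cast a.pos
  have hb : (0:ℝ) < ((b : ℕ) : ℝ) := by exact_mod_cast b.pos
  have hc : (0:ℝ) < ((c : ℕ) : ℝ) := by exact_mod_cast c.pos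
  rw [← ENNReal.ofReal_mul (Real.rpow_nonneg hb.le _)]
  congr 1
  rw [PNat.mul_coe, Nat.cast_mul, Real.log_mul hb.ne' hc.ne', Real.mul_rpow ha.le hb.le,
    ← sub_sub]
  ring

end IntSumAux

open IntSumAux in
theorem low_sum_int (δ : ℝ) (hδ : 0 < δ) (hδ2 : δ ≤ 1 / 2) : ∃ C : ℝ, 0 < C ∧ ∀ U : ℝ, 1 ≤ U → ∀ (s : Bool) (c : ℕ+),
    ∑' q : Q, ENNReal.ofReal (ww δ U q / |lgr q.1 - lgr (pc s c).1|) ≤
      ENNReal.ofReal (C * U ^ (1 / 2 + 2 * δ)) := by
  have hη : 0 < 2 * δ := by linarith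
  set Z1 : ENNReal := ∑' n : ℕ+, ENNReal.ofReal (((n : ℕ) : ℝ) ^ (-1 - 2 * δ)) with hZ1
  set Z2 : ENNReal := ∑' z : ℤ, ENNReal.ofReal (|(z : ℝ)| ^ (-1 - 2 * δ)) with hZ2
  have h1t : Z1 ≠ ⊤ := tsum_zeta_ne_top hη
  have h2t : Z2 ≠ ⊤ := tsum_int_ne_top hη
  have hDt : Z1 * (2 * Z1 + Z2) ≠ ⊤ :=
    ENNReal.mul_ne_top h1t (ENNReal.add_ne_top.2 ⟨ENNReal.mul_ne_top (by norm_num) h1t, h2t⟩)
  set D : ℝ := (Z1 * (2 * Z1 + Z2)).toReal with hD
  have hD0 : 0 ≤ D := ENNReal.toReal_nonneg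
  have hDle : Z1 * (2 * Z1 + Z2) ≤ ENNReal.ofReal (D + 1) := by
    refine le_trans (le_of_eq (ENNReal.ofReal_toReal hDt).symm) ?_
    exact ENNReal.ofReal_le_ofReal (by linarith)
  refine ⟨D + 1, by linarith, fun U hU s c => ?_⟩
  have hU0 : 0 < U := by linarith
  -- all pairs
  have hpair : ∑' q : ℕ+ × ℕ+, ENNReal.ofReal ((hgt q) ^ (-1 - 2 * δ) / |lgr q - lgr (pc s c).1|) ≤
      Z1 * (2 * Z1 + Z2) := by
    cases s with
    | true =>
      refine le_trans (le_of_eq ?_) (pair_sum hη c)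
      rw [ENNReal.tsum_prod', ENNReal.tsum_comm]
      refine tsum_congr fun b => tsum_congr fun a => ?_
      rw [lgr_pc_true]
      rfl
    | false =>
      refine le_trans (le_of_eq ?_) (pair_sum hη c)
      rw [ENNReal.tsum_prod']
      refine tsum_congr fun a => tsum_congr fun b => ?_
      rw [lgr_pc_false]
      unfold hgt lgr
      simp only
      rw [mul_comm (((a : ℕ) : ℝ)), show Real.log ((a : ℕ) : ℝ) - Real.log ((b : ℕ) : ℝ) - -Real.log ((c : ℕ) : ℝ) =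
        -(Real.log ((b : ℕ) : ℝ) - Real.log ((a : ℕ) : ℝ) - Real.log ((c : ℕ) : ℝ)) by ring, abs_neg]
  calc ∑' q : Q, ENNReal.ofReal (ww δ U q / |lgr q.1 - lgr (pc s c).1|)
      ≤ ∑' q : Q, ENNReal.ofReal (U ^ (1 / 2 + 2 * δ)) *
          ENNReal.ofReal ((hgt q.1) ^ (-1 - 2 * δ) / |lgr q.1 - lgr (pc s c).1|) := by
        refine ENNReal.tsum_le_tsum fun q => ?_
        rw [← ENNReal.ofReal_mul (by positivity)]
        refine ENNReal.ofReal_le_ofReal ?_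
        have hq := hgt_pos q.1
        have h1 : ww δ U q ≤ U ^ (1 / 2 + 2 * δ) * (hgt q.1) ^ (-1 - 2 * δ) := by
          unfold ww
          have h2 := Spaced.kap_le' (δ := δ) (U := U) (h := hgt q.1) (θ := 1 / 2 + 2 * δ) (by linarith)
            (by linarith) hU0 hq
          rw [Real.div_rpow hU0.le hq.le] at h2
          calc kap δ U (hgt q.1) * (hgt q.1) ^ (-(1 / 2) : ℝ)
              ≤ U ^ (1 / 2 + 2 * δ) / (hgt q.1) ^ (1 / 2 + 2 * δ) * (hgt q.1) ^ (-(1 / 2) : ℝ) :=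
                mul_le_mul_of_nonneg_right h2 (Real.rpow_nonneg hq.le _)
            _ = _ := by
                rw [div_eq_mul_inv, ← Real.rpow_neg hq.le, mul_assoc, ← Real.rpow_add hq]
                congr 2
                ring
        rw [← mul_div_assoc]
        exact div_le_div_of_nonneg_right h1 (abs_nonneg _)
    _ = ENNReal.ofReal (U ^ (1 / 2 + 2 * δ)) *
          ∑' q : Q, ENNReal.ofReal ((hgt q.1) ^ (-1 - 2 * δ) / |lgr q.1 - lgr (pc s c).1|) :=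
        ENNReal.tsum_mul_left
    _ ≤ ENNReal.ofReal (U ^ (1 / 2 + 2 * δ)) *
          ∑' q : ℕ+ × ℕ+, ENNReal.ofReal ((hgt q) ^ (-1 - 2 * δ) / |lgr q - lgr (pc s c).1|) :=
        mul_le_mul_right (ENNReal.tsum_comp_le_tsum_of_injective
          (Subtype.val_injective : Function.Injective (fun q : Q => q.1))
          (fun q : ℕ+ × ℕ+ => ENNReal.ofReal ((hgt q) ^ (-1 - 2 * δ) / |lgr q - lgr (pc s c).1|))) _
    _ ≤ ENNReal.ofReal (U ^ (1 / 2 + 2 * δ)) * ENNReal.ofReal (D + 1) :=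
        mul_le_mul_right (hpair.trans hDle) _
    _ = _ := by
        rw [← ENNReal.ofReal_mul (by positivity)]
        congr 1
        ring

end Pool.Agent.P07318s
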