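import Pool.Agent.Lib.P07318s.Defs
import Pool.Agent.Lib.P07318s.IntDefs
import Pool.Agent.Lib.P07318s.Twist
import Pool.Agent.Lib.P07318s.IntSum

/-!
As `twist` in `Twist.lean` (same proof), with `low_sum_int` in place of `low_sum` (and `afe` with exponent `-1/2 + δ`), for the fractions `c/1`, `1/c`.
Second theorem: `Om h x ≤ C U^δ` (`Om_le_kap`, `kap δ U h ≤ U^δ` for `h ≥ 1`), and `Om h x ≥ W(2πh/x) ≥ W 1 = 1` for `2πh ≤ x` (term `g = 1`, `W_antitone`; `W 1 = 1` by the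
Gaussian integral).
-/

set_option autoImplicit false

namespace Pool.Agent.P07318s

open MeasureTheory Complex

open TwistAux in
theorem twist_int (δ : ℝ) (hδ : 0 < δ) (hδ2 : δ ≤ 1 / 2) : ∃ C : ℝ, 0 < C ∧ ∀ T β t : ℝ, 1 ≤ T → T ≤ β → β ≤ 2 * T →
    0 ≤ t → t ≤ T → ∀ (s : Bool) (c : ℕ+),
    ‖(∫ a in β..(β + T), ((‖riemannZeta (1 / 2 + ((t + a : ℝ) : ℂ) * I)‖ ^ 2 : ℝ) : ℂ) *
        (starRingEnd ℂ) (ex a (pc s c).1)) -
      ex t (pc s c).1 * (((((c : ℕ) : ℝ)) ^ (-(1 / 2) : ℝ) * ∫ a in β..(β + T), Om ((c : ℕ) : ℝ) (t + a) : ℝ) : ℂ)‖ ≤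
      C * T ^ (1 / 2 + δ) := by
  classical
  have hd0 : 0 < δ / 2 := by linarith
  have hd1 : δ / 2 ≤ 1 / 2 := by linarith
  obtain ⟨C1, hC1, hafe⟩ := afe δ hδ
  obtain ⟨C2, hC2, hosc⟩ := Om_osc (δ / 2) hd0 hd1
  obtain ⟨C3, hC3, hlow⟩ := low_sum_int (δ / 2) hd0 hd1
  obtain ⟨C4, hC4, hkap⟩ := Om_le_kap (δ / 2) hd0 hd1
  refine ⟨C1 + 4 * C2 * C3, by positivity, fun T β t hT hβ1 hβ2 ht0 htT s c => ?_⟩
  rw [← hgt_pc s c]
  set p : Q := pc s c with hpdef
  have hT0 : 0 < T := by linarith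
  have hle : β ≤ β + T := by linarith
  have hh1 : ∀ q : Q, 1 ≤ hgt q.1 := fun q => one_le_hgt q.1
  have hrange : ∀ a ∈ Set.Icc β (β + T), T ≤ t + a ∧ t + a ≤ 4 * T := fun a ha =>
    ⟨by have := ha.1; linarith, by have := ha.2; linarith⟩
  have hrange' : ∀ a ∈ Set.uIoc β (β + T), T ≤ t + a ∧ t + a ≤ 4 * T := by
    intro a ha
    rw [Set.uIoc_of_le hle] at ha
    exact hrange a ⟨ha.1.le, ha.2⟩
  -- continuity of `Fd`
  have hFd : ContinuousOn (fun a : ℝ => Fd (t + a)) (Set.Icc β (β + T)) := by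
    refine Fd_continuousOn.comp (by fun_prop) ?_
    intro a ha
    have := (hrange a ha).1
    exact Set.mem_Ioi.2 (by linarith)
  have hi1 : IntervalIntegrable (fun a : ℝ => ((‖riemannZeta (1 / 2 + ((t + a : ℝ) : ℂ) * I)‖ ^ 2 : ℝ) : ℂ) *
      (starRingEnd ℂ) (ex a p.1)) volume β (β + T) :=
    ((zeta_cont t).mul (conj_ex_cont p.1)).intervalIntegrable _ _
  have hi2 : IntervalIntegrable (fun a : ℝ => Fd (t + a) * (starRingEnd ℂ) (ex a p.1)) volume β (β + T) := by
    apply ContinuousOn.intervalIntegrable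
    rw [Set.uIcc_of_le hle]
    exact hFd.mul (conj_ex_cont p.1).continuousOn
  -- the approximate functional equation
  have hA : ‖(∫ a in β..(β + T), ((‖riemannZeta (1 / 2 + ((t + a : ℝ) : ℂ) * I)‖ ^ 2 : ℝ) : ℂ) *
      (starRingEnd ℂ) (ex a p.1)) - ∫ a in β..(β + T), Fd (t + a) * (starRingEnd ℂ) (ex a p.1)‖ ≤
      C1 * T ^ (1 / 2 + δ) := by
    rw [← intervalIntegral.integral_sub hi1 hi2]
    have hb := intervalIntegral.norm_integral_le_of_norm_le_const (a := β) (b := β + T)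
      (C := C1 * T ^ (-(1 / 2) + δ))
      (f := fun a : ℝ => ((‖riemannZeta (1 / 2 + ((t + a : ℝ) : ℂ) * I)‖ ^ 2 : ℝ) : ℂ) *
        (starRingEnd ℂ) (ex a p.1) - Fd (t + a) * (starRingEnd ℂ) (ex a p.1)) (fun a ha => by
        obtain ⟨r1, r2⟩ := hrange' a ha
        rw [← sub_mul, norm_mul]
        have e1 : ‖(starRingEnd ℂ) (ex a p.1)‖ = 1 := by rw [RCLike.norm_conj, norm_ex]
        rw [e1, mul_one]
        refine (hafe (t + a) (by linarith)).trans ?_
        refine mul_le_mul_of_nonneg_left ?_ hC1.le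
        exact Real.rpow_le_rpow_of_nonpos hT0 r1 (by linarith))
    refine hb.trans (le_of_eq ?_)
    rw [add_sub_cancel_left, abs_of_pos hT0, mul_assoc]
    congr 1
    have e3 : (1 / 2 + δ : ℝ) = -(1 / 2) + δ + 1 := by ring
    rw [e3, Real.rpow_add hT0 (-(1 / 2) + δ) 1, Real.rpow_one]
  -- termwise integration
  have hint := intervalIntegral.hasSum_integral_of_dominated_convergence (μ := volume) (a := β) (b := β + T)
    (F := fun (q : Q) (a : ℝ) => ((((hgt q.1) ^ (-(1 / 2) : ℝ) * Om (hgt q.1) (t + a) : ℝ) : ℂ) *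
      ex (t + a) q.1) * (starRingEnd ℂ) (ex a p.1))
    (f := fun a : ℝ => Fd (t + a) * (starRingEnd ℂ) (ex a p.1))
    (fun q _ => C4 * ww (δ / 2) T q)
    (fun q => by
      have m1 : AEMeasurable (fun a : ℝ => Om (hgt q.1) (t + a)) (volume.restrict (Set.uIoc β (β + T))) := by
        refine aemeasurable_restrict_of_monotoneOn measurableSet_uIoc ?_
        intro a ha b hb hab
        exact Om_mono (hgt q.1) (hh1 q) (Set.mem_Ioi.2 (by have := (hrange' a ha).1; linarith))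
          (Set.mem_Ioi.2 (by have := (hrange' b hb).1; linarith)) (by linarith)
      have m2 : AEMeasurable (fun a : ℝ => (((hgt q.1) ^ (-(1 / 2) : ℝ) * Om (hgt q.1) (t + a) : ℝ) : ℂ))
          (volume.restrict (Set.uIoc β (β + T))) :=
        Complex.measurable_ofReal.comp_aemeasurable (m1.const_mul _)
      have m3 : Continuous (fun a : ℝ => ex (t + a) q.1) :=
        (Cont_ex_continuous q.1).comp (continuous_const.add continuous_id)
      exact ((m2.mul m3.measurable.aemeasurable).mul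
        (conj_ex_cont p.1).measurable.aemeasurable).aestronglyMeasurable)
    (fun q => Filter.Eventually.of_forall fun a ha => by
      obtain ⟨r1, r2⟩ := hrange' a ha
      have e1 : ‖(starRingEnd ℂ) (ex a p.1)‖ = 1 := by rw [RCLike.norm_conj, norm_ex]
      have h0 : 0 ≤ (hgt q.1) ^ (-(1 / 2) : ℝ) := Real.rpow_nonneg (hgt_pos q.1).le _
      rw [norm_mul, norm_mul, e1, norm_ex, mul_one, mul_one, Complex.norm_real, Real.norm_eq_abs,
        abs_of_nonneg (mul_nonneg h0 (Om_nonneg _ _))]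
      unfold ww
      calc (hgt q.1) ^ (-(1 / 2) : ℝ) * Om (hgt q.1) (t + a)
          ≤ (hgt q.1) ^ (-(1 / 2) : ℝ) * (C4 * kap (δ / 2) T (hgt q.1)) :=
            mul_le_mul_of_nonneg_left (hkap T _ _ hT (hh1 q) r1 r2) h0
        _ = _ := by ring)
    (Filter.Eventually.of_forall fun a _ => (ww_summable hd0 hd1 hT).mul_left C4)
    intervalIntegrable_const
    (Filter.Eventually.of_forall fun a ha => by
      obtain ⟨r1, r2⟩ := hrange' a ha
      have hpos : 0 < t + a := by linarith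
      refine HasSum.mul_right _ ?_
      rw [Fd_eq hpos]
      refine Summable.hasSum (Summable.of_norm ?_)
      refine (cfQ_summable hpos).congr fun q => ?_
      rw [norm_mul, norm_ex, mul_one, Complex.norm_real, Real.norm_eq_abs,
        abs_of_nonneg (mul_nonneg (Real.rpow_nonneg (hgt_pos q.1).le _) (Om_nonneg _ _))])
  -- the integral of a term
  set J : Q → ℂ := fun q => ∫ a in β..(β + T), ((((hgt q.1) ^ (-(1 / 2) : ℝ) * Om (hgt q.1) (t + a) : ℝ) : ℂ) *
      ex (t + a) q.1) * (starRingEnd ℂ) (ex a p.1) with hJ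
  have hJeq : ∀ q : Q, J q = (((hgt q.1) ^ (-(1 / 2) : ℝ) : ℝ) : ℂ) * ex t q.1 *
      ∫ a in β..(β + T), ((Om (hgt q.1) (t + a) : ℝ) : ℂ) *
        cexp (((-(a * (lgr q.1 - lgr p.1)) : ℝ) : ℂ) * I) := by
    intro q
    rw [hJ, ← intervalIntegral.integral_const_mul]
    refine intervalIntegral.integral_congr fun a _ => ?_
    rw [mul_assoc, ex_conj]
    push_cast
    ring
  have hJp : J p = ex t p.1 * (((hgt p.1) ^ (-(1 / 2) : ℝ) * ∫ a in β..(β + T), Om (hgt p.1) (t + a) : ℝ) : ℂ) := by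
    rw [hJeq p, sub_self]
    simp only [mul_zero, neg_zero, Complex.ofReal_zero, zero_mul, Complex.exp_zero, mul_one]
    rw [intervalIntegral.integral_ofReal]
    push_cast
    ring
  have hsub := hasSum_ite_sub_hasSum hint p
  have hB : ‖(∫ a in β..(β + T), Fd (t + a) * (starRingEnd ℂ) (ex a p.1)) - J p‖ ≤
      4 * C2 * (C3 * T ^ (1 / 2 + 2 * (δ / 2) : ℝ)) := by
    rw [← hsub.tsum_eq]
    have hnn : 0 ≤ 4 * C2 * (C3 * T ^ (1 / 2 + 2 * (δ / 2) : ℝ)) := by
      have := (hgt_pos p.1).le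
      positivity
    rw [← ENNReal.ofReal_le_ofReal_iff hnn, ofReal_norm]
    refine enorm_tsum_le_tsum_enorm.trans ?_
    rw [ENNReal.ofReal_mul (by positivity)]
    refine le_trans ?_ (mul_le_mul_right (hlow T hT s c) _)
    rw [← ENNReal.tsum_mul_left]
    refine ENNReal.tsum_le_tsum fun q => ?_
    by_cases hq : q = p
    · simp [hq]
    · rw [if_neg hq]
      change ‖J q‖ₑ ≤ _
      have hl : lgr q.1 - lgr p.1 ≠ 0 := fun h0 => hq (lgr_inj (by linarith))
      rw [← ENNReal.ofReal_mul (by positivity), ← ofReal_norm]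
      refine ENNReal.ofReal_le_ofReal ?_
      have h0 : 0 ≤ (hgt q.1) ^ (-(1 / 2) : ℝ) := Real.rpow_nonneg (hgt_pos q.1).le _
      have hk : 0 ≤ kap (δ / 2) T (hgt q.1) := kap_nonneg hT0.le (hgt_pos q.1).le
      rw [hJeq q, norm_mul, norm_mul, norm_ex, mul_one, Complex.norm_real, Real.norm_eq_abs, abs_of_nonneg h0]
      have h1 := hosc T (hgt q.1) t β T (lgr q.1 - lgr p.1) hT (hh1 q) hT0.le (by linarith) (by linarith)
      have h2 := bb_le_inv hT0.le hl
      calc (hgt q.1) ^ (-(1 / 2) : ℝ) * ‖∫ a in β..(β + T), ((Om (hgt q.1) (t + a) : ℝ) : ℂ) *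
            cexp (((-(a * (lgr q.1 - lgr p.1)) : ℝ) : ℂ) * I)‖
          ≤ (hgt q.1) ^ (-(1 / 2) : ℝ) * (C2 * kap (δ / 2) T (hgt q.1) * (4 / |lgr q.1 - lgr p.1|)) :=
            mul_le_mul_of_nonneg_left (h1.trans (mul_le_mul_of_nonneg_left h2 (by positivity))) h0
        _ = 4 * C2 * (ww (δ / 2) T q / |lgr q.1 - lgr p.1|) := by
            unfold ww
            ring
  rw [← hJp]
  have e5 : (1 / 2 + 2 * (δ / 2) : ℝ) = 1 / 2 + δ := by ring
  rw [e5] at hB
  refine (norm_sub_le_norm_sub_add_norm_sub _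
    (∫ a in β..(β + T), Fd (t + a) * (starRingEnd ℂ) (ex a p.1)) _).trans ((add_le_add hA hB).trans
      (le_of_eq ?_))
  ring

namespace IntTwistAux

lemma W_one : W 1 = 1 := by
  unfold W
  rw [Real.log_one]
  have h := integral_gaussian_Ioi (1 / 4)
  have e : (fun u : ℝ => Real.exp (-u ^ 2 / 4)) = fun u : ℝ => Real.exp (-(1 / 4) * u ^ 2) := by
    funext u
    congr 1
    ring
  rw [e, h]
  have hpi := Real.pi_pos
  have h1 : Real.sqrt (Real.pi / (1 / 4)) = 2 * Real.sqrt Real.pi := by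
    rw [show Real.pi / (1 / 4) = 2 ^ 2 * Real.pi by ring, Real.sqrt_mul (by norm_num),
      Real.sqrt_sq (by norm_num)]
  rw [h1]
  have h2 : Real.sqrt Real.pi ≠ 0 := (Real.sqrt_pos.2 hpi).ne'
  field_simp

lemma one_le_Om {h x : ℝ} (hh : 1 ≤ h) (hx : 0 < x) (hxh : 2 * Real.pi * h ≤ x) : 1 ≤ Om h x := by
  have hpi := Real.pi_pos
  have hh0 : 0 < h := by linarith
  unfold Om
  have hs := Om_summable hx hh
  have h1 := hs.le_tsum (1 : ℕ+) (fun g _ => div_nonneg (W_nonneg _) (Nat.cast_nonneg _))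
  refine le_trans ?_ h1
  rw [PNat.one_coe, Nat.cast_one, one_pow, mul_one, div_one, ← W_one]
  refine W_antitone ?_ ?_ ?_
  · rw [Set.mem_Ioi]; positivity
  · rw [Set.mem_Ioi]; norm_num
  · rw [div_le_one hx]; exact hxh

end IntTwistAux

open TwistAux IntTwistAux in
theorem Om_int (δ : ℝ) (hδ : 0 < δ) (hδ2 : δ ≤ 1 / 2) : ∃ C : ℝ, 0 < C ∧ ∀ T β t : ℝ, 1 ≤ T → T ≤ β → β ≤ 2 * T →
    0 ≤ t → t ≤ T → ∀ h : ℝ, 1 ≤ h →
    (∫ a in β..(β + T), Om h (t + a)) ≤ C * T ^ (1 + δ) ∧ 0 ≤ (∫ a in β..(β + T), Om h (t + a)) ∧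
      (2 * Real.pi * h ≤ T → T ≤ ∫ a in β..(β + T), Om h (t + a)) := by
  obtain ⟨C, hC, hkap⟩ := Om_le_kap δ hδ hδ2
  refine ⟨C, hC, fun T β t hT hβ1 hβ2 ht0 htT h hh => ?_⟩
  have hT0 : 0 < T := by linarith
  have hh0 : 0 < h := by linarith
  have hle : β ≤ β + T := by linarith
  have hrange : ∀ a ∈ Set.Icc β (β + T), T ≤ t + a ∧ t + a ≤ 4 * T := fun a ha =>
    ⟨by have := ha.1; linarith, by have := ha.2; linarith⟩
  have hint : IntervalIntegrable (fun a : ℝ => Om h (t + a)) volume β (β + T) := by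
    apply MonotoneOn.intervalIntegrable
    rw [Set.uIcc_of_le hle]
    intro a ha b hb hab
    exact Om_mono h hh (Set.mem_Ioi.2 (by have := (hrange a ha).1; linarith))
      (Set.mem_Ioi.2 (by have := (hrange b hb).1; linarith)) (by linarith)
  refine ⟨?_, ?_, fun hbig => ?_⟩
  · have hk : kap δ T h ≤ T ^ δ := by
      refine (kap_le (by linarith) hT0 hh0).trans ?_
      exact Real.rpow_le_rpow (div_nonneg hT0.le hh0.le) (div_le_self hT0.le hh) hδ.le
    have h1 : ∀ a ∈ Set.Icc β (β + T), Om h (t + a) ≤ C * T ^ δ := by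
      intro a ha
      obtain ⟨r1, r2⟩ := hrange a ha
      exact (hkap T h (t + a) hT hh r1 r2).trans (mul_le_mul_of_nonneg_left hk hC.le)
    have h2 := intervalIntegral.integral_mono_on hle hint intervalIntegrable_const h1
    rw [intervalIntegral.integral_const, add_sub_cancel_left, smul_eq_mul] at h2
    refine h2.trans (le_of_eq ?_)
    rw [Real.rpow_add hT0, Real.rpow_one]
    ring
  · exact intervalIntegral.integral_nonneg hle (fun a _ => Om_nonneg _ _)
  · have h1 : ∀ a ∈ Set.Icc β (β + T), 1 ≤ Om h (t + a) := by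
      intro a ha
      obtain ⟨r1, r2⟩ := hrange a ha
      exact one_le_Om hh (by linarith) (by linarith)
    have h2 := intervalIntegral.integral_mono_on hle intervalIntegrable_const hint h1
    rw [intervalIntegral.integral_const, add_sub_cancel_left, smul_eq_mul, mul_one] at h2
    exact h2

end Pool.Agent.P07318s
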