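import Pool.Agent.Lib.P07318s.Defs
import Pool.Agent.Lib.P07318s.PiSum
import Pool.Agent.Lib.P07318s.Regroup
import Pool.Agent.Lib.P07318s.KapSum
import Pool.Agent.Lib.P07318s.LowSum
import Pool.Agent.Lib.P07318s.Twist
import Pool.Agent.Lib.P07318s.Cont

/-!
The diagonal terms do not correlate with a single frequency `p ≠ 1` of `α_0`. By `Dg_eq` and Fubini the integral over the box is
`∑_{q, lam q = 0} ∏_j hgt^(-1/2) ex t (q_j) ∫ Om(hgt q_j)(t+a) exp(-i a (lgr q_j - [j=0] lgr p)) da`, each factor `≤ C ww(q_j) bb T (lgr q_j - [j=0] lgr p)`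
(`Om_osc`). If `lam q = 0` and `lgr p ≠ 0` then not all of `lgr q_0 = lgr p`, `lgr q_j = 0 (j ≥ 1)` hold; so the sum is at most `∑_i` (coordinate `i` with
`lgr ≠` its resonance: `bb T l ≤ 4/|l|`, `low_sum`: `≤ C hgt(p)^3 T^(1/2+2δ)`) times the full sums over the other coordinates
(`≤ C hgt(p)^3 ...`; for `j ≥ 1` or `j = 0`: resonance term `4 T ww ≤ 4 T^(1+δ)` plus `low_sum`, total `≤ C T^(1+δ)` if you use the `q`-sum with `p` for `j=0` only once;
if the nonresonant coordinate is `i ≥ 1` the factor of `j = 0` is `≤ C hgt(p)^3 T^(1+δ)`). Take `δ` small depending on `n`. (The total power of `hgt p` may be `3` as only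
one coordinate carries the twist.)
-/

set_option autoImplicit false

namespace Pool.Agent.P07318s

open MeasureTheory Complex

namespace LowDgAux

theorem Om_continuousOn {h : ℝ} (hh : 1 ≤ h) : ContinuousOn (fun x : ℝ => Om h x) (Set.Ioi 0) := by
  intro x0 hx0
  have hx0' : 0 < x0 := hx0
  have hpi := Real.pi_pos
  have hh0 : 0 < h := by linarith
  have hg : ∀ g : ℕ+, (0 : ℝ) < ((g : ℕ) : ℝ) := fun g => by exact_mod_cast g.pos
  have h1 : ContinuousOn (fun x : ℝ => Om h x) (Set.Ioo 0 (x0 + 1)) := by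
    unfold Om
    refine continuousOn_tsum
      (u := fun g : ℕ+ => W (2 * Real.pi * ((g : ℕ) : ℝ) ^ 2 * h / (x0 + 1)) / ((g : ℕ) : ℝ))
      (fun g => ?_) (Om_summable (by linarith) hh) (fun g x hx => ?_)
    · refine ContinuousOn.div_const ?_ _
      refine W_continuousOn.comp (t := Set.Ioi 0)
        (f := fun x : ℝ => 2 * Real.pi * ((g : ℕ) : ℝ) ^ 2 * h / x) ?_ ?_
      · exact continuousOn_const.div continuousOn_id (fun x hx => ne_of_gt hx.1)
      · intro x hx
        show 0 < 2 * Real.pi * ((g : ℕ) : ℝ) ^ 2 * h / x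
        have h2 := hg g
        have h3 := hx.1
        positivity
    · rw [Real.norm_of_nonneg (div_nonneg (W_nonneg _) (hg g).le)]
      refine div_le_div_of_nonneg_right ?_ (hg g).le
      have h2 := hg g
      have h3 := hx.1
      refine W_antitone ?_ ?_ ?_
      · rw [Set.mem_Ioi]
        positivity
      · rw [Set.mem_Ioi]
        positivity
      · exact div_le_div_of_nonneg_left (by positivity) h3 hx.2.le
  exact (h1.continuousAt (Ioo_mem_nhds hx0' (by linarith))).continuousWithinAt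

/-- one factor of a diagonal term -/
noncomputable def gg (t ν : ℝ) (q : Q) (a : ℝ) : ℂ :=
  (((hgt q.1) ^ (-(1 / 2) : ℝ) * Om (hgt q.1) (t + a) : ℝ) : ℂ) * ex (t + a) q.1 *
    cexp (((a * ν : ℝ) : ℂ) * I)

theorem gg_norm {t ν a : ℝ} (q : Q) :
    ‖gg t ν q a‖ = (hgt q.1) ^ (-(1 / 2) : ℝ) * Om (hgt q.1) (t + a) := by
  unfold gg
  rw [norm_mul, norm_mul, norm_ex, Complex.norm_exp_ofReal_mul_I, mul_one, mul_one,
    Complex.norm_real, Real.norm_of_nonneg]
  exact mul_nonneg (Real.rpow_nonneg (hgt_pos q.1).le _) (Om_nonneg _ _)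

theorem gg_continuousOn {t ν b H : ℝ} (hb : 0 < t + b) (q : Q) :
    ContinuousOn (gg t ν q) (Set.Icc b (b + H)) := by
  unfold gg
  refine ContinuousOn.mul (ContinuousOn.mul ?_ ?_) ?_
  · refine Complex.continuous_ofReal.comp_continuousOn (continuousOn_const.mul ?_)
    refine (Om_continuousOn (one_le_hgt q.1)).comp (f := fun a : ℝ => t + a) (by fun_prop) ?_
    intro a ha
    show 0 < t + a
    linarith [ha.1]
  · unfold ex
    fun_prop
  · fun_prop

theorem one_int {C δ T t b ν : ℝ} (hT : 1 ≤ T) (ht : 0 ≤ t) (htT : t ≤ T) (hb : T ≤ b)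
    (hb2 : b ≤ 2 * T)
    (hosc : ∀ U h t β H l : ℝ, 1 ≤ U → 1 ≤ h → 0 ≤ H → U ≤ t + β → t + β + H ≤ 4 * U →
      ‖∫ a in β..(β + H), ((Om h (t + a) : ℝ) : ℂ) * cexp (((-(a * l) : ℝ) : ℂ) * I)‖ ≤
        C * kap δ U h * bb H l) (q : Q) :
    ‖∫ a in Set.Icc b (b + T), gg t ν q a‖ ≤ C * (ww δ T q * bb T (lgr q.1 - ν)) := by
  rw [integral_Icc_eq_integral_Ioc, ← intervalIntegral.integral_of_le (by linarith)]
  have e : ∀ a : ℝ, gg t ν q a = ((((hgt q.1) ^ (-(1 / 2) : ℝ) : ℝ) : ℂ) * ex t q.1) *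
      (((Om (hgt q.1) (t + a) : ℝ) : ℂ) * cexp (((-(a * (lgr q.1 - ν)) : ℝ) : ℂ) * I)) := by
    intro a
    unfold gg
    rw [lgr_add_aux]
    have e2 : cexp (((-(a * (lgr q.1 - ν)) : ℝ) : ℂ) * I) =
        ex a q.1 * cexp (((a * ν : ℝ) : ℂ) * I) := by
      unfold ex
      rw [← Complex.exp_add]
      congr 1
      push_cast
      ring
    rw [e2]
    push_cast
    ring
  simp_rw [e]
  rw [intervalIntegral.integral_const_mul, norm_mul, norm_mul, norm_ex, mul_one,
    Complex.norm_real, Real.norm_of_nonneg (Real.rpow_nonneg (hgt_pos q.1).le _)]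
  have h1 := hosc T (hgt q.1) t b T (lgr q.1 - ν) hT (one_le_hgt q.1) (by linarith) (by linarith)
    (by linarith)
  calc (hgt q.1) ^ (-(1 / 2) : ℝ) * ‖∫ a in b..(b + T), ((Om (hgt q.1) (t + a) : ℝ) : ℂ) *
        cexp (((-(a * (lgr q.1 - ν)) : ℝ) : ℂ) * I)‖
      ≤ (hgt q.1) ^ (-(1 / 2) : ℝ) * (C * kap δ T (hgt q.1) * bb T (lgr q.1 - ν)) :=
        mul_le_mul_of_nonneg_left h1 (Real.rpow_nonneg (hgt_pos q.1).le _)
    _ = _ := by
        unfold ww
        ring

/-- the trivial fraction -/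
def one : Q := ⟨(1, 1), by
  show Nat.Coprime 1 1
  exact Nat.coprime_one_left 1⟩

theorem lgr_one : lgr one.1 = 0 := by
  unfold lgr one
  simp

theorem hgt_one : hgt one.1 = 1 := by
  unfold hgt one
  simp

/-- the single sums -/
theorem sum_ne {C1 C2 δ T : ℝ} (hC2 : 0 < C2) (hT : 1 ≤ T)
    (hlow : ∀ U : ℝ, 1 ≤ U → ∀ p : Q, ∑' q : Q, ENNReal.ofReal (ww δ U q / |lgr q.1 - lgr p.1|) ≤
      ENNReal.ofReal (C1 * (hgt p.1) ^ 3 * U ^ (1 / 2 + 2 * δ))) (r : Q) :
    ∑' q : Q, (if lgr q.1 = lgr r.1 then 0 else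
      ENNReal.ofReal (C2 * (ww δ T q * bb T (lgr q.1 - lgr r.1)))) ≤
      ENNReal.ofReal (C2 * (4 * C1) * (hgt r.1) ^ 3 * T ^ (1 / 2 + 2 * δ)) := by
  have hT0 : 0 ≤ T := by linarith
  calc ∑' q : Q, (if lgr q.1 = lgr r.1 then 0 else
        ENNReal.ofReal (C2 * (ww δ T q * bb T (lgr q.1 - lgr r.1))))
      ≤ ∑' q : Q, ENNReal.ofReal (4 * C2) * ENNReal.ofReal (ww δ T q / |lgr q.1 - lgr r.1|) := by
        refine ENNReal.tsum_le_tsum fun q => ?_
        split_ifs with h
        · exact zero_le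
        · rw [← ENNReal.ofReal_mul (by positivity)]
          refine ENNReal.ofReal_le_ofReal ?_
          have h1 := bb_le_inv hT0 (sub_ne_zero.mpr h)
          have h2 := ww_nonneg (δ := δ) hT0 q
          calc C2 * (ww δ T q * bb T (lgr q.1 - lgr r.1))
              ≤ C2 * (ww δ T q * (4 / |lgr q.1 - lgr r.1|)) :=
                mul_le_mul_of_nonneg_left (mul_le_mul_of_nonneg_left h1 h2) hC2.le
            _ = _ := by ring
    _ = ENNReal.ofReal (4 * C2) * ∑' q : Q, ENNReal.ofReal (ww δ T q / |lgr q.1 - lgr r.1|) :=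
        ENNReal.tsum_mul_left
    _ ≤ ENNReal.ofReal (4 * C2) * ENNReal.ofReal (C1 * (hgt r.1) ^ 3 * T ^ (1 / 2 + 2 * δ)) :=
        mul_le_mul_right (hlow T hT r) _
    _ = _ := by
        rw [← ENNReal.ofReal_mul (by positivity)]
        congr 1
        ring

theorem sum_all {C1 C2 δ T : ℝ} (hC1 : 0 < C1) (hC2 : 0 < C2) (hδ : 0 < δ) (hδ2 : δ ≤ 1 / 2)
    (hT : 1 ≤ T)
    (hlow : ∀ U : ℝ, 1 ≤ U → ∀ p : Q, ∑' q : Q, ENNReal.ofReal (ww δ U q / |lgr q.1 - lgr p.1|) ≤
      ENNReal.ofReal (C1 * (hgt p.1) ^ 3 * U ^ (1 / 2 + 2 * δ))) (r : Q) :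
    ∑' q : Q, ENNReal.ofReal (C2 * (ww δ T q * bb T (lgr q.1 - lgr r.1))) ≤
      ENNReal.ofReal (C2 * (4 + 4 * C1) * (hgt r.1) ^ 3 * T ^ (1 + δ)) := by
  classical
  have hT0 : 0 < T := by linarith
  have hr := one_le_hgt r.1
  have hr3 : 1 ≤ (hgt r.1) ^ 3 := one_le_pow₀ hr
  have h1 := sum_ne hC2 hT hlow r
  have hw : ww δ T r ≤ T ^ δ := by
    unfold ww
    have h2 : kap δ T (hgt r.1) ≤ T ^ δ := by
      refine (kap_le (by linarith) hT0 (hgt_pos r.1)).trans ?_
      refine Real.rpow_le_rpow (div_nonneg hT0.le (hgt_pos r.1).le) ?_ hδ.le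
      exact div_le_self hT0.le hr
    have h3 : (hgt r.1) ^ (-(1 / 2) : ℝ) ≤ 1 := Real.rpow_le_one_of_one_le_of_nonpos hr (by norm_num)
    calc kap δ T (hgt r.1) * (hgt r.1) ^ (-(1 / 2) : ℝ) ≤ T ^ δ * 1 :=
          mul_le_mul h2 h3 (Real.rpow_nonneg (hgt_pos r.1).le _) (by positivity)
      _ = T ^ δ := mul_one _
  calc ∑' q : Q, ENNReal.ofReal (C2 * (ww δ T q * bb T (lgr q.1 - lgr r.1)))
      ≤ ∑' q : Q, ((if q = r then ENNReal.ofReal (C2 * (T ^ δ * (4 * T))) else 0) +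
          (if lgr q.1 = lgr r.1 then 0 else
            ENNReal.ofReal (C2 * (ww δ T q * bb T (lgr q.1 - lgr r.1))))) := by
        refine ENNReal.tsum_le_tsum fun q => ?_
        by_cases h : q = r
        · subst h
          rw [if_pos rfl, if_pos rfl, add_zero]
          refine ENNReal.ofReal_le_ofReal (mul_le_mul_of_nonneg_left ?_ hC2.le)
          exact mul_le_mul hw (bb_le hT0.le _) (bb_nonneg hT0.le _) (by positivity)
        · have h' : lgr q.1 ≠ lgr r.1 := fun e => h (LowSumAux.lgr_inj e)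
          rw [if_neg h, if_neg h', zero_add]
    _ = ENNReal.ofReal (C2 * (T ^ δ * (4 * T))) + ∑' q : Q, (if lgr q.1 = lgr r.1 then 0 else
            ENNReal.ofReal (C2 * (ww δ T q * bb T (lgr q.1 - lgr r.1)))) := by
        rw [ENNReal.tsum_add, tsum_ite_eq]
    _ ≤ ENNReal.ofReal (C2 * (T ^ δ * (4 * T))) +
          ENNReal.ofReal (C2 * (4 * C1) * (hgt r.1) ^ 3 * T ^ (1 / 2 + 2 * δ)) :=
        add_le_add le_rfl h1
    _ = ENNReal.ofReal (C2 * (T ^ δ * (4 * T)) +
          C2 * (4 * C1) * (hgt r.1) ^ 3 * T ^ (1 / 2 + 2 * δ)) := by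
        rw [← ENNReal.ofReal_add (by positivity) (by positivity)]
    _ ≤ _ := by
        refine ENNReal.ofReal_le_ofReal ?_
        have e1 : T ^ δ * (4 * T) = 4 * T ^ (1 + δ) := by
          rw [Real.rpow_add hT0, Real.rpow_one]
          ring
        have e2 : T ^ (1 / 2 + 2 * δ) ≤ T ^ (1 + δ) :=
          Real.rpow_le_rpow_of_exponent_le hT (by linarith)
        have e3 : 0 < T ^ (1 + δ) := by positivity
        rw [e1]
        calc C2 * (4 * T ^ (1 + δ)) + C2 * (4 * C1) * (hgt r.1) ^ 3 * T ^ (1 / 2 + 2 * δ)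
            ≤ C2 * (4 * ((hgt r.1) ^ 3 * T ^ (1 + δ))) +
              C2 * (4 * C1) * (hgt r.1) ^ 3 * T ^ (1 + δ) := by
              refine add_le_add ?_ ?_
              · refine mul_le_mul_of_nonneg_left ?_ hC2.le
                refine mul_le_mul_of_nonneg_left ?_ (by norm_num)
                nlinarith
              · exact mul_le_mul_of_nonneg_left e2 (by positivity)
          _ = _ := by ring

/-- the fraction of resonance of the coordinate `j` -/
def rr {n : ℕ} (p : Q) (j : Fin (n + 1)) : Q := if j = 0 then p else one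

theorem sum_rr {n : ℕ} (p : Q) : ∑ j : Fin (n + 1), lgr (rr p j).1 = lgr p.1 := by
  rw [Fin.sum_univ_succ]
  have h : ∀ j : Fin n, lgr (rr p j.succ).1 = 0 := by
    intro j
    unfold rr
    rw [if_neg (Fin.succ_ne_zero j)]
    exact lgr_one
  simp only [h, Finset.sum_const_zero, add_zero]
  unfold rr
  rw [if_pos rfl]

theorem prod_rr {n : ℕ} (p : Q) : ∏ j : Fin (n + 1), (hgt (rr p j).1) ^ 3 = (hgt p.1) ^ 3 := by
  rw [Fin.prod_univ_succ]
  have h : ∀ j : Fin n, (hgt (rr p j.succ).1) ^ 3 = 1 := by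
    intro j
    unfold rr
    rw [if_neg (Fin.succ_ne_zero j), hgt_one, one_pow]
  simp only [h, Finset.prod_const_one, mul_one]
  unfold rr
  rw [if_pos rfl]

theorem conj_ex {n : ℕ} (p : Q) (α : Fin (n + 1) → ℝ) :
    (starRingEnd ℂ) (ex (α 0) p.1) = ∏ j, cexp (((α j * lgr (rr p j).1 : ℝ) : ℂ) * I) := by
  rw [Fin.prod_univ_succ]
  have h : ∀ j : Fin n, cexp (((α j.succ * lgr (rr p j.succ).1 : ℝ) : ℂ) * I) = 1 := by
    intro j
    unfold rr
    rw [if_neg (Fin.succ_ne_zero j), lgr_one, mul_zero]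
    simp
  simp only [h, Finset.prod_const_one, mul_one]
  unfold rr
  rw [if_pos rfl]
  unfold ex
  rw [← Complex.exp_conj, map_mul, Complex.conj_ofReal, Complex.conj_I]
  congr 1
  push_cast
  ring

/-- the multiple sum -/
theorem multi {C1 C2 δ T : ℝ} (hC1 : 0 < C1) (hC2 : 0 < C2) (hδ : 0 < δ) (hδ2 : δ ≤ 1 / 2)
    (hT : 1 ≤ T)
    (hlow : ∀ U : ℝ, 1 ≤ U → ∀ p : Q, ∑' q : Q, ENNReal.ofReal (ww δ U q / |lgr q.1 - lgr p.1|) ≤
      ENNReal.ofReal (C1 * (hgt p.1) ^ 3 * U ^ (1 / 2 + 2 * δ))) (n : ℕ) (p : Q)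
    (hp : lgr p.1 ≠ 0) :
    ∑' q : Fin (n + 1) → Q, (if lam (fun j => (q j).1) = 0 then
      ENNReal.ofReal (∏ j, (C2 * (ww δ T (q j) * bb T (lgr (q j).1 - lgr (rr p j).1)))) else 0) ≤
      ENNReal.ofReal (((n : ℝ) + 1) * ((C2 * (4 + 4 * C1)) ^ (n + 1) * (hgt p.1) ^ 3 *
        T ^ ((n : ℝ) * (1 + δ) + (1 / 2 + 2 * δ)))) := by
  classical
  have hT0 : 0 < T := by linarith
  set A : Fin (n + 1) → Q → ENNReal := fun j q =>
    ENNReal.ofReal (C2 * (ww δ T q * bb T (lgr q.1 - lgr (rr p j).1))) with hA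
  set B : Fin (n + 1) → Fin (n + 1) → Q → ENNReal := fun i j q =>
    if j = i then (if lgr q.1 = lgr (rr p j).1 then 0 else A j q) else A j q with hB
  have hnn : ∀ (j : Fin (n + 1)) (q : Q),
      0 ≤ C2 * (ww δ T q * bb T (lgr q.1 - lgr (rr p j).1)) := fun j q =>
    mul_nonneg hC2.le (mul_nonneg (ww_nonneg hT0.le q) (bb_nonneg hT0.le _))
  have step1 : ∀ q : Fin (n + 1) → Q, (if lam (fun j => (q j).1) = 0 then
      ENNReal.ofReal (∏ j, (C2 * (ww δ T (q j) * bb T (lgr (q j).1 - lgr (rr p j).1)))) else 0) ≤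
      ∑ i, ∏ j, B i j (q j) := by
    intro q
    by_cases h0 : lam (fun j => (q j).1) = 0
    · rw [if_pos h0]
      obtain ⟨i, hi⟩ : ∃ i, lgr (q i).1 ≠ lgr (rr p i).1 := by
        by_contra hc
        push Not at hc
        apply hp
        rw [← sum_rr (n := n) p, ← h0]
        unfold lam
        exact Finset.sum_congr rfl fun j _ => (hc j).symm
      have e1 : ENNReal.ofReal (∏ j, (C2 * (ww δ T (q j) *
          bb T (lgr (q j).1 - lgr (rr p j).1)))) = ∏ j, B i j (q j) := by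
        rw [ENNReal.ofReal_prod_of_nonneg (fun j _ => hnn j (q j))]
        refine Finset.prod_congr rfl fun j _ => ?_
        simp only [hB, hA]
        by_cases hj : j = i
        · subst hj
          rw [if_pos rfl, if_neg hi]
        · rw [if_neg hj]
      rw [e1]
      exact Finset.single_le_sum (f := fun i => ∏ j, B i j (q j)) (fun _ _ => zero_le)
        (Finset.mem_univ i)
    · rw [if_neg h0]
      exact zero_le
  have hD : 0 < C2 * (4 + 4 * C1) := by positivity
  have hBsum : ∀ i j : Fin (n + 1), ∑' q : Q, B i j q ≤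
      ENNReal.ofReal (C2 * (4 + 4 * C1) * (hgt (rr p j).1) ^ 3 *
        T ^ ((1 + δ) + (if j = i then δ - 1 / 2 else 0))) := by
    intro i j
    have hh := hgt_pos (rr p j).1
    by_cases hj : j = i
    · subst hj
      simp only [hB, if_true]
      refine (sum_ne hC2 hT hlow (rr p j)).trans ?_
      refine ENNReal.ofReal_le_ofReal ?_
      rw [show (1 + δ) + (δ - 1 / 2) = 1 / 2 + 2 * δ by ring]
      refine mul_le_mul_of_nonneg_right ?_ (by positivity)
      refine mul_le_mul_of_nonneg_right ?_ (by positivity)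
      refine mul_le_mul_of_nonneg_left ?_ hC2.le
      linarith
    · simp only [hB, if_neg hj]
      rw [add_zero]
      exact sum_all hC1 hC2 hδ hδ2 hT hlow (rr p j)
  calc ∑' q : Fin (n + 1) → Q, (if lam (fun j => (q j).1) = 0 then
        ENNReal.ofReal (∏ j, (C2 * (ww δ T (q j) * bb T (lgr (q j).1 - lgr (rr p j).1)))) else 0)
      ≤ ∑' q : Fin (n + 1) → Q, ∑ i, ∏ j, B i j (q j) := ENNReal.tsum_le_tsum step1
    _ = ∑ i, ∑' q : Fin (n + 1) → Q, ∏ j, B i j (q j) := by
        rw [Summable.tsum_finsetSum (fun i _ => ENNReal.summable)]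
    _ = ∑ i, ∏ j, ∑' q : Q, B i j q := by
        refine Finset.sum_congr rfl fun i _ => ?_
        exact tsum_pi_prod_ennreal (B i)
    _ ≤ ∑ i : Fin (n + 1), ENNReal.ofReal ((C2 * (4 + 4 * C1)) ^ (n + 1) * (hgt p.1) ^ 3 *
          T ^ ((n : ℝ) * (1 + δ) + (1 / 2 + 2 * δ))) := by
        refine Finset.sum_le_sum fun i _ => ?_
        refine (Finset.prod_le_prod' fun j _ => hBsum i j).trans (le_of_eq ?_)
        rw [← ENNReal.ofReal_prod_of_nonneg (fun j _ => by
          have hh := hgt_pos (rr p j).1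
          positivity)]
        congr 1
        rw [Finset.prod_mul_distrib, Finset.prod_mul_distrib, prod_rr, Finset.prod_const,
          Finset.card_univ, Fintype.card_fin, ← Real.rpow_sum_of_pos hT0]
        congr 2
        rw [Finset.sum_add_distrib, Finset.sum_const, Finset.card_univ, Fintype.card_fin,
          Finset.sum_ite_eq' Finset.univ i (fun _ => δ - 1 / 2), if_pos (Finset.mem_univ i),
          nsmul_eq_mul]
        push_cast
        ring
    _ = _ := by
        rw [Finset.sum_const, Finset.card_univ, Fintype.card_fin, nsmul_eq_mul,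
          ENNReal.ofReal_mul (p := (n : ℝ) + 1) (by positivity)]
        congr 1
        rw [show ((n : ℝ) + 1) = ((n + 1 : ℕ) : ℝ) by push_cast; ring, ENNReal.ofReal_natCast]

end LowDgAux

open LowDgAux in
theorem low_dg (n : ℕ) : ∃ C : ℝ, 0 < C ∧ ∀ (T t : ℝ) (β : Fin (n + 1) → ℝ), 1 ≤ T → (∀ j, T ≤ β j) → (∀ j, β j ≤ 2 * T) →
    0 ≤ t → t ≤ T → ∀ p : Q, lgr p.1 ≠ 0 →
    ‖∫ α in Set.Icc β (fun j => β j + T), Dg (fun j => t + α j) * (starRingEnd ℂ) (ex (α 0) p.1)‖ ≤
      C * (hgt p.1) ^ 3 * T ^ ((n : ℝ) + 4 / 5) := by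
  classical
  set δ : ℝ := 3 / (10 * ((n : ℝ) + 2)) with hδdef
  have hn0 : (0 : ℝ) ≤ n := Nat.cast_nonneg n
  have hδ : 0 < δ := by
    rw [hδdef]
    positivity
  have hδ2 : δ ≤ 1 / 2 := by
    rw [hδdef, div_le_div_iff₀ (by positivity) (by norm_num)]
    nlinarith
  have hexp : (n : ℝ) * (1 + δ) + (1 / 2 + 2 * δ) = (n : ℝ) + 4 / 5 := by
    have h1 : ((n : ℝ) + 2) * δ = 3 / 10 := by
      rw [hδdef]
      field_simp
    nlinarith
  obtain ⟨C0, hC0, hOm⟩ := Om_le_kap δ hδ hδ2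
  obtain ⟨C1, hC1, hlow⟩ := low_sum δ hδ hδ2
  obtain ⟨C2, hC2, hosc⟩ := Om_osc δ hδ hδ2
  refine ⟨((n : ℝ) + 1) * (C2 * (4 + 4 * C1)) ^ (n + 1), by positivity, ?_⟩
  intro T t β hT hβ hβ2 ht htT p hp
  have hT0 : 0 < T := by linarith
  set K : Set (Fin (n + 1) → ℝ) := Set.Icc β (fun j => β j + T) with hK
  have hKx : ∀ α ∈ K, ∀ j, T ≤ t + α j ∧ t + α j ≤ 4 * T := by
    intro α hα j
    have h1 := hα.1 j
    have h2 := hα.2 j
    have h3 := hβ j
    have h4 := hβ2 j
    simp only at h2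
    exact ⟨by linarith, by linarith⟩
  have : IsFiniteMeasure (volume.restrict K) :=
    ⟨by rw [Measure.restrict_apply_univ]; exact isCompact_Icc.measure_lt_top⟩
  set F : (Fin (n + 1) → Q) → (Fin (n + 1) → ℝ) → ℂ := fun q α =>
    if lam (fun j => (q j).1) = 0 then ∏ j, gg t (lgr (rr p j).1) (q j) (α j) else 0 with hF
  have hpt : ∀ α ∈ K, Dg (fun j => t + α j) * (starRingEnd ℂ) (ex (α 0) p.1) = ∑' q, F q α := by
    intro α hα
    rw [Dg_eq _ (fun j => by linarith [(hKx α hα j).1]), ← tsum_mul_right, conj_ex p α]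
    refine tsum_congr fun q => ?_
    simp only [hF]
    split_ifs with h
    · rw [← Finset.prod_mul_distrib]
      rfl
    · rw [zero_mul]
  have hFn : ∀ q, ∀ α ∈ K, ‖F q α‖ ≤ ∏ j, (C0 * ww δ T (q j)) := by
    intro q α hα
    have hnn : ∀ j, 0 ≤ C0 * ww δ T (q j) := fun j => mul_nonneg hC0.le (ww_nonneg hT0.le _)
    simp only [hF]
    split_ifs with h
    · rw [norm_prod]
      refine Finset.prod_le_prod (fun j _ => norm_nonneg _) fun j _ => ?_
      rw [gg_norm]
      have h1 := hOm T (hgt (q j).1) (t + α j) hT (one_le_hgt _) (hKx α hα j).1 (hKx α hα j).2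
      calc (hgt (q j).1) ^ (-(1 / 2) : ℝ) * Om (hgt (q j).1) (t + α j)
          ≤ (hgt (q j).1) ^ (-(1 / 2) : ℝ) * (C0 * kap δ T (hgt (q j).1)) :=
            mul_le_mul_of_nonneg_left h1 (Real.rpow_nonneg (hgt_pos _).le _)
        _ = _ := by
            unfold ww
            ring
    · rw [norm_zero]
      exact Finset.prod_nonneg fun j _ => hnn j
  have hsum0 : Summable (fun q : Fin (n + 1) → Q => ∏ j, (C0 * ww δ T (q j))) :=
    summable_pi_prod_real (k := n + 1) (fun _ q => C0 * ww δ T q)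
      (fun _ => (ww_summable hδ hδ2 hT).mul_left C0)
      (fun _ q => mul_nonneg hC0.le (ww_nonneg hT0.le q))
  have hFint : ∀ q, Integrable (F q) (volume.restrict K) := by
    intro q
    have hc : ContinuousOn (F q) K := by
      simp only [hF]
      by_cases h : lam (fun j => (q j).1) = 0
      · simp only [if_pos h]
        refine continuousOn_finsetProd _ (fun j _ => ?_)
        refine (gg_continuousOn (t := t) (ν := lgr (rr p j).1) (b := β j) (H := T) (by
          linarith [hβ j]) (q j)).comp (continuous_apply j).continuousOn ?_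
        intro α hα
        exact ⟨hα.1 j, hα.2 j⟩
      · simp only [if_neg h]
        exact continuousOn_const
    exact hc.integrableOn_compact isCompact_Icc
  have hae : ∀ q, ∀ᵐ α ∂(volume.restrict K), ‖‖F q α‖‖ ≤ ∏ j, (C0 * ww δ T (q j)) := by
    intro q
    refine (ae_restrict_iff' measurableSet_Icc).2 (Filter.Eventually.of_forall fun α hα => ?_)
    rw [norm_norm]
    exact hFn q α hα
  have hFsum : Summable (fun q => ∫ α, ‖F q α‖ ∂(volume.restrict K)) := by
    refine Summable.of_nonneg_of_le (fun q => integral_nonneg fun α => norm_nonneg _) (fun q => ?_)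
      (hsum0.mul_right ((volume.restrict K).real Set.univ))
    have h1 := norm_integral_le_of_norm_le_const (hae q)
    rw [Real.norm_of_nonneg (integral_nonneg fun α => norm_nonneg _)] at h1
    exact h1
  have hint := hasSum_integral_of_summable_integral_norm hFint hFsum
  have hX : (∫ α in K, Dg (fun j => t + α j) * (starRingEnd ℂ) (ex (α 0) p.1)) =
      ∫ α, (∑' q, F q α) ∂(volume.restrict K) :=
    setIntegral_congr_fun measurableSet_Icc hpt
  rw [hX, ← hint.tsum_eq]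
  have hnorm : ∀ q, ‖∫ α, F q α ∂(volume.restrict K)‖ ≤
      if lam (fun j => (q j).1) = 0 then
        ∏ j, (C2 * (ww δ T (q j) * bb T (lgr (q j).1 - lgr (rr p j).1))) else 0 := by
    intro q
    simp only [hF]
    split_ifs with h
    · rw [hK, ← Set.pi_univ_Icc, volume_pi, Measure.restrict_pi_pi,
        integral_fintype_prod_eq_prod (fun (j : Fin (n + 1)) (x : ℝ) =>
          gg t (lgr (rr p j).1) (q j) x), norm_prod]
      refine Finset.prod_le_prod (fun j _ => norm_nonneg _) fun j _ => ?_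
      exact one_int hT ht htT (hβ j) (hβ2 j) hosc (q j)
    · simp
  have hns : Summable (fun q => ‖∫ α, F q α ∂(volume.restrict K)‖) :=
    Summable.of_nonneg_of_le (fun q => norm_nonneg _) (fun q => norm_integral_le_integral_norm _)
      hFsum
  have hfin : ENNReal.ofReal ‖∑' q, ∫ α, F q α ∂(volume.restrict K)‖ ≤
      ENNReal.ofReal (((n : ℝ) + 1) * ((C2 * (4 + 4 * C1)) ^ (n + 1) * (hgt p.1) ^ 3 *
        T ^ ((n : ℝ) * (1 + δ) + (1 / 2 + 2 * δ)))) := by
    refine le_trans (ENNReal.ofReal_le_ofReal (norm_tsum_le_tsum_norm hns)) ?_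
    rw [ENNReal.ofReal_tsum_of_nonneg (fun q => norm_nonneg _) hns]
    refine le_trans (ENNReal.tsum_le_tsum fun q => ?_) (multi hC1 hC2 hδ hδ2 hT hlow n p hp)
    have h1 := hnorm q
    split_ifs with h
    · rw [if_pos h] at h1
      exact ENNReal.ofReal_le_ofReal h1
    · rw [if_neg h] at h1
      rw [ENNReal.ofReal_of_nonpos h1]
  have hp0 := hgt_pos p.1
  have h2 := (ENNReal.ofReal_le_ofReal_iff (by positivity)).1 hfin
  rw [hexp] at h2
  calc ‖∑' q, ∫ α, F q α ∂(volume.restrict K)‖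
      ≤ ((n : ℝ) + 1) * ((C2 * (4 + 4 * C1)) ^ (n + 1) * (hgt p.1) ^ 3 *
        T ^ ((n : ℝ) + 4 / 5)) := h2
    _ = _ := by ring

end Pool.Agent.P07318s
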