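import Pool.Agent.Lib.P07318s.Defs
import Pool.Agent.Lib.P07318s.IntDefs
import Pool.Agent.Lib.P07318s.HiDefs
import Pool.Agent.Lib.P07318s.IntDg
import Pool.Agent.Lib.P07318s.IntSum
import Pool.Agent.Lib.P07318s.IntTwist
import Pool.Agent.Lib.P07318s.LowDg

/-!
As `IntDg.lean`, with any signs, for frequencies up to `T^(1-η)`.
-/

set_option autoImplicit false

namespace Pool.Agent.P07318s

open MeasureTheory Complex

namespace HiDgAux

open LowDgAux

theorem half_pow {T c η : ℝ} (hT : 1 ≤ T) (hc : 0 < c) (hcT : c ≤ T ^ (1 - η)) (e : ℝ) :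
    T ^ e ≤ T ^ (e + (1 - η) / 2) * c ^ (-(1 / 2) : ℝ) := by
  have hT0 : 0 < T := by linarith
  have h1 : c ^ (1 / 2 : ℝ) ≤ T ^ ((1 - η) / 2) := by
    have := Real.rpow_le_rpow hc.le hcT (by norm_num : (0:ℝ) ≤ 1 / 2)
    rw [← Real.rpow_mul hT0.le] at this
    refine this.trans (le_of_eq ?_)
    congr 1
    ring
  have h2 : 1 = c ^ (1 / 2 : ℝ) * c ^ (-(1 / 2) : ℝ) := by
    rw [← Real.rpow_add hc]
    norm_num
  have h3 : 0 ≤ c ^ (-(1 / 2) : ℝ) := Real.rpow_nonneg hc.le _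
  calc T ^ e = T ^ e * (c ^ (1 / 2 : ℝ) * c ^ (-(1 / 2) : ℝ)) := by rw [← h2, mul_one]
    _ ≤ T ^ e * (T ^ ((1 - η) / 2) * c ^ (-(1 / 2) : ℝ)) :=
        mul_le_mul_of_nonneg_left (mul_le_mul_of_nonneg_right h1 h3) (by positivity)
    _ = _ := by
        rw [Real.rpow_add hT0 e ((1 - η) / 2)]
        ring

/-- the single sums -/
theorem sum_ne {C1 C2 δ T η : ℝ} (hC1 : 0 < C1) (hC2 : 0 < C2) (hT : 1 ≤ T)
    (hlow : ∀ U : ℝ, 1 ≤ U → ∀ (s : Bool) (c : ℕ+),
      ∑' q : Q, ENNReal.ofReal (ww δ U q / |lgr q.1 - lgr (pc s c).1|) ≤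
      ENNReal.ofReal (C1 * U ^ (1 / 2 + 2 * δ))) (s : Bool) (c : ℕ+)
    (hc : ((c : ℕ) : ℝ) ≤ T ^ (1 - η)) :
    ∑' q : Q, (if lgr q.1 = lgr (pc s c).1 then 0 else
      ENNReal.ofReal (C2 * (ww δ T q * bb T (lgr q.1 - lgr (pc s c).1)))) ≤
      ENNReal.ofReal (C2 * (4 * C1) * ((c : ℕ) : ℝ) ^ (-(1 / 2) : ℝ) * T ^ (1 - η / 2 + 2 * δ)) := by
  have hT0 : 0 ≤ T := by linarith
  have hc0 : (0:ℝ) < ((c : ℕ) : ℝ) := by exact_mod_cast c.pos
  calc ∑' q : Q, (if lgr q.1 = lgr (pc s c).1 then 0 else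
        ENNReal.ofReal (C2 * (ww δ T q * bb T (lgr q.1 - lgr (pc s c).1))))
      ≤ ∑' q : Q, ENNReal.ofReal (4 * C2) *
          ENNReal.ofReal (ww δ T q / |lgr q.1 - lgr (pc s c).1|) := by
        refine ENNReal.tsum_le_tsum fun q => ?_
        split_ifs with h
        · exact zero_le
        · rw [← ENNReal.ofReal_mul (by positivity)]
          refine ENNReal.ofReal_le_ofReal ?_
          have h1 := bb_le_inv hT0 (sub_ne_zero.mpr h)
          have h2 := ww_nonneg (δ := δ) hT0 q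
          calc C2 * (ww δ T q * bb T (lgr q.1 - lgr (pc s c).1))
              ≤ C2 * (ww δ T q * (4 / |lgr q.1 - lgr (pc s c).1|)) :=
                mul_le_mul_of_nonneg_left (mul_le_mul_of_nonneg_left h1 h2) hC2.le
            _ = _ := by ring
    _ = ENNReal.ofReal (4 * C2) *
          ∑' q : Q, ENNReal.ofReal (ww δ T q / |lgr q.1 - lgr (pc s c).1|) :=
        ENNReal.tsum_mul_left
    _ ≤ ENNReal.ofReal (4 * C2) * ENNReal.ofReal (C1 * T ^ (1 / 2 + 2 * δ)) :=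
        mul_le_mul_right (hlow T hT s c) _
    _ ≤ _ := by
        rw [← ENNReal.ofReal_mul (by positivity)]
        refine ENNReal.ofReal_le_ofReal ?_
        have h1 := half_pow hT hc0 hc (1 / 2 + 2 * δ)
        rw [show 1 / 2 + 2 * δ + (1 - η) / 2 = 1 - η / 2 + 2 * δ by ring] at h1
        calc 4 * C2 * (C1 * T ^ (1 / 2 + 2 * δ))
            ≤ 4 * C2 * (C1 * (T ^ (1 - η / 2 + 2 * δ) * ((c : ℕ) : ℝ) ^ (-(1 / 2) : ℝ))) :=
              mul_le_mul_of_nonneg_left (mul_le_mul_of_nonneg_left h1 hC1.le) (by positivity)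
          _ = _ := by ring

theorem sum_all {C1 C2 δ T η : ℝ} (hC1 : 0 < C1) (hC2 : 0 < C2) (hδ : 0 < δ) (hδ2 : δ ≤ 1 / 2)
    (hT : 1 ≤ T) (hη : 0 < η)
    (hlow : ∀ U : ℝ, 1 ≤ U → ∀ (s : Bool) (c : ℕ+),
      ∑' q : Q, ENNReal.ofReal (ww δ U q / |lgr q.1 - lgr (pc s c).1|) ≤
      ENNReal.ofReal (C1 * U ^ (1 / 2 + 2 * δ))) (s : Bool) (c : ℕ+)
    (hc : ((c : ℕ) : ℝ) ≤ T ^ (1 - η)) :
    ∑' q : Q, ENNReal.ofReal (C2 * (ww δ T q * bb T (lgr q.1 - lgr (pc s c).1))) ≤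
      ENNReal.ofReal (C2 * (4 + 4 * C1) * ((c : ℕ) : ℝ) ^ (-(1 / 2) : ℝ) * T ^ (1 + 2 * δ)) := by
  classical
  have hT0 : 0 < T := by linarith
  have hc0 : (0:ℝ) < ((c : ℕ) : ℝ) := by exact_mod_cast c.pos
  have h1 := sum_ne hC1 hC2 hT hlow s c hc
  set r : Q := pc s c with hrdef
  have hrh : hgt r.1 = ((c : ℕ) : ℝ) := hgt_pc s c
  have hr := one_le_hgt r.1
  have hcn : 0 ≤ ((c : ℕ) : ℝ) ^ (-(1 / 2) : ℝ) := Real.rpow_nonneg hc0.le _
  have hw : ww δ T r ≤ T ^ δ * ((c : ℕ) : ℝ) ^ (-(1 / 2) : ℝ) := by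
    unfold ww
    have h2 : kap δ T (hgt r.1) ≤ T ^ δ := by
      refine (kap_le (by linarith) hT0 (hgt_pos r.1)).trans ?_
      refine Real.rpow_le_rpow (div_nonneg hT0.le (hgt_pos r.1).le) ?_ hδ.le
      exact div_le_self hT0.le hr
    rw [hrh] at h2 ⊢
    exact mul_le_mul_of_nonneg_right h2 hcn
  calc ∑' q : Q, ENNReal.ofReal (C2 * (ww δ T q * bb T (lgr q.1 - lgr r.1)))
      ≤ ∑' q : Q, ((if q = r then ENNReal.ofReal (C2 * (T ^ δ * ((c : ℕ) : ℝ) ^ (-(1 / 2) : ℝ) *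
            (4 * T))) else 0) +
          (if lgr q.1 = lgr r.1 then 0 else
            ENNReal.ofReal (C2 * (ww δ T q * bb T (lgr q.1 - lgr r.1))))) := by
        refine ENNReal.tsum_le_tsum fun q => ?_
        by_cases h : q = r
        · subst h
          rw [if_pos rfl, if_pos rfl, add_zero]
          refine ENNReal.ofReal_le_ofReal (mul_le_mul_of_nonneg_left ?_ hC2.le)
          exact mul_le_mul hw (bb_le hT0.le _) (bb_nonneg hT0.le _) (by positivity)
        · have h' : lgr q.1 ≠ lgr r.1 := fun e => h (LowSumAux.lgr_inj e)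
          rw [if_neg h, if_neg h', zero_add]
    _ = ENNReal.ofReal (C2 * (T ^ δ * ((c : ℕ) : ℝ) ^ (-(1 / 2) : ℝ) * (4 * T))) +
          ∑' q : Q, (if lgr q.1 = lgr r.1 then 0 else
            ENNReal.ofReal (C2 * (ww δ T q * bb T (lgr q.1 - lgr r.1)))) := by
        rw [ENNReal.tsum_add, tsum_ite_eq]
    _ ≤ ENNReal.ofReal (C2 * (T ^ δ * ((c : ℕ) : ℝ) ^ (-(1 / 2) : ℝ) * (4 * T))) +
          ENNReal.ofReal (C2 * (4 * C1) * ((c : ℕ) : ℝ) ^ (-(1 / 2) : ℝ) * T ^ (1 - η / 2 + 2 * δ)) :=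
        add_le_add le_rfl h1
    _ = ENNReal.ofReal (C2 * (T ^ δ * ((c : ℕ) : ℝ) ^ (-(1 / 2) : ℝ) * (4 * T)) +
          C2 * (4 * C1) * ((c : ℕ) : ℝ) ^ (-(1 / 2) : ℝ) * T ^ (1 - η / 2 + 2 * δ)) := by
        rw [← ENNReal.ofReal_add (by positivity) (by positivity)]
    _ ≤ _ := by
        refine ENNReal.ofReal_le_ofReal ?_
        have e0 : T ^ δ * T = T ^ (1 + δ) := by
          rw [Real.rpow_add hT0, Real.rpow_one]
          ring
        have e1 : T ^ (1 + δ) ≤ T ^ (1 + 2 * δ) :=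
          Real.rpow_le_rpow_of_exponent_le hT (by linarith)
        have e2 : T ^ (1 - η / 2 + 2 * δ) ≤ T ^ (1 + 2 * δ) :=
          Real.rpow_le_rpow_of_exponent_le hT (by linarith)
        calc C2 * (T ^ δ * ((c : ℕ) : ℝ) ^ (-(1 / 2) : ℝ) * (4 * T)) +
              C2 * (4 * C1) * ((c : ℕ) : ℝ) ^ (-(1 / 2) : ℝ) * T ^ (1 - η / 2 + 2 * δ)
            = C2 * 4 * ((c : ℕ) : ℝ) ^ (-(1 / 2) : ℝ) * (T ^ δ * T) +
              C2 * (4 * C1) * ((c : ℕ) : ℝ) ^ (-(1 / 2) : ℝ) * T ^ (1 - η / 2 + 2 * δ) := by ring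
          _ ≤ C2 * 4 * ((c : ℕ) : ℝ) ^ (-(1 / 2) : ℝ) * T ^ (1 + 2 * δ) +
              C2 * (4 * C1) * ((c : ℕ) : ℝ) ^ (-(1 / 2) : ℝ) * T ^ (1 + 2 * δ) := by
              refine add_le_add ?_ ?_
              · refine mul_le_mul_of_nonneg_left ?_ (by positivity)
                rw [e0]
                exact e1
              · exact mul_le_mul_of_nonneg_left e2 (by positivity)
          _ = _ := by ring

theorem conj_prod {k : ℕ} (σ : Fin k → Bool) (x : Fin k → ℕ+) (α : Fin k → ℝ) :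
    (starRingEnd ℂ) (∏ j, ex (α j) (frs σ x j).1) =
      ∏ j, cexp (((α j * lgr (frs σ x j).1 : ℝ) : ℂ) * I) := by
  rw [map_prod]
  refine Finset.prod_congr rfl fun j _ => ?_
  unfold ex
  rw [← Complex.exp_conj, map_mul, Complex.conj_ofReal, Complex.conj_I]
  congr 1
  push_cast
  ring

/-- the multiple sum -/
theorem multi {C1 C2 δ T η : ℝ} (hC1 : 0 < C1) (hC2 : 0 < C2) (hδ : 0 < δ) (hδ2 : δ ≤ 1 / 2)
    (hT : 1 ≤ T) (hη : 0 < η)
    (hlow : ∀ U : ℝ, 1 ≤ U → ∀ (s : Bool) (c : ℕ+),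
      ∑' q : Q, ENNReal.ofReal (ww δ U q / |lgr q.1 - lgr (pc s c).1|) ≤
      ENNReal.ofReal (C1 * U ^ (1 / 2 + 2 * δ))) (k : ℕ) (σ : Fin k → Bool) (x : Fin k → ℕ+)
    (hx : ∀ j, ((x j : ℕ) : ℝ) ≤ T ^ (1 - η)) (hp : lams σ x ≠ 0) :
    ∑' q : Fin k → Q, (if lam (fun j => (q j).1) = 0 then
      ENNReal.ofReal (∏ j, (C2 * (ww δ T (q j) * bb T (lgr (q j).1 - lgr (frs σ x j).1)))) else 0) ≤
      ENNReal.ofReal ((k : ℝ) * ((C2 * (4 + 4 * C1)) ^ k * (∏ j, ((x j : ℕ) : ℝ) ^ (-(1 / 2) : ℝ)) *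
        T ^ ((k : ℝ) * (1 + 2 * δ) + (-(η / 2))))) := by
  classical
  have hT0 : 0 < T := by linarith
  set A : Fin k → Q → ENNReal := fun j q =>
    ENNReal.ofReal (C2 * (ww δ T q * bb T (lgr q.1 - lgr (frs σ x j).1))) with hA
  set B : Fin k → Fin k → Q → ENNReal := fun i j q =>
    if j = i then (if lgr q.1 = lgr (frs σ x j).1 then 0 else A j q) else A j q with hB
  have hnn : ∀ (j : Fin k) (q : Q),
      0 ≤ C2 * (ww δ T q * bb T (lgr q.1 - lgr (frs σ x j).1)) := fun j q =>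
    mul_nonneg hC2.le (mul_nonneg (ww_nonneg hT0.le q) (bb_nonneg hT0.le _))
  have step1 : ∀ q : Fin k → Q, (if lam (fun j => (q j).1) = 0 then
      ENNReal.ofReal (∏ j, (C2 * (ww δ T (q j) * bb T (lgr (q j).1 - lgr (frs σ x j).1)))) else 0) ≤
      ∑ i, ∏ j, B i j (q j) := by
    intro q
    by_cases h0 : lam (fun j => (q j).1) = 0
    · rw [if_pos h0]
      obtain ⟨i, hi⟩ : ∃ i, lgr (q i).1 ≠ lgr (frs σ x i).1 := by
        by_contra hc
        push Not at hc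
        apply hp
        unfold lams
        rw [← h0]
        unfold lam
        exact Finset.sum_congr rfl fun j _ => (hc j).symm
      have e1 : ENNReal.ofReal (∏ j, (C2 * (ww δ T (q j) *
          bb T (lgr (q j).1 - lgr (frs σ x j).1)))) = ∏ j, B i j (q j) := by
        rw [ENNReal.ofReal_prod_of_nonneg (fun j _ => hnn j (q j))]
        refine Finset.prod_congr rfl fun j _ => ?_
        simp only [hB, hA]
        by_cases hj : j = i
        · subst hj
          rw [if_pos rfl, if_neg hi]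
        · rw [if_neg hj]
      rw [e1]
      exact Finset.single_le_sum (f := fun i => ∏ j, B i j (q j)) (fun _ _ => zero_le)
        (Finset.mem_univ i)
    · rw [if_neg h0]
      exact zero_le
  have hD : 0 < C2 * (4 + 4 * C1) := by positivity
  have hBsum : ∀ i j : Fin k, ∑' q : Q, B i j q ≤
      ENNReal.ofReal (C2 * (4 + 4 * C1) * ((x j : ℕ) : ℝ) ^ (-(1 / 2) : ℝ) *
        T ^ ((1 + 2 * δ) + (if j = i then -(η / 2) else 0))) := by
    intro i j
    have hh : (0:ℝ) < ((x j : ℕ) : ℝ) := by exact_mod_cast (x j).pos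
    by_cases hj : j = i
    · subst hj
      simp only [hB, if_true]
      refine (sum_ne hC1 hC2 hT hlow _ (x j) (hx j)).trans ?_
      refine ENNReal.ofReal_le_ofReal ?_
      rw [show (1 + 2 * δ) + (-(η / 2)) = 1 - η / 2 + 2 * δ by ring]
      refine mul_le_mul_of_nonneg_right ?_ (by positivity)
      refine mul_le_mul_of_nonneg_right ?_ (by positivity)
      refine mul_le_mul_of_nonneg_left ?_ hC2.le
      linarith
    · simp only [hB, if_neg hj]
      rw [add_zero]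
      exact sum_all hC1 hC2 hδ hδ2 hT hη hlow _ (x j) (hx j)
  calc ∑' q : Fin k → Q, (if lam (fun j => (q j).1) = 0 then
        ENNReal.ofReal (∏ j, (C2 * (ww δ T (q j) * bb T (lgr (q j).1 - lgr (frs σ x j).1)))) else 0)
      ≤ ∑' q : Fin k → Q, ∑ i, ∏ j, B i j (q j) := ENNReal.tsum_le_tsum step1
    _ = ∑ i, ∑' q : Fin k → Q, ∏ j, B i j (q j) := by
        rw [Summable.tsum_finsetSum (fun i _ => ENNReal.summable)]
    _ = ∑ i, ∏ j, ∑' q : Q, B i j q := by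
        refine Finset.sum_congr rfl fun i _ => ?_
        exact tsum_pi_prod_ennreal (B i)
    _ ≤ ∑ i : Fin k, ENNReal.ofReal ((C2 * (4 + 4 * C1)) ^ k *
          (∏ j, ((x j : ℕ) : ℝ) ^ (-(1 / 2) : ℝ)) *
          T ^ ((k : ℝ) * (1 + 2 * δ) + (-(η / 2)))) := by
        refine Finset.sum_le_sum fun i _ => ?_
        refine (Finset.prod_le_prod' fun j _ => hBsum i j).trans (le_of_eq ?_)
        rw [← ENNReal.ofReal_prod_of_nonneg (fun j _ => by positivity)]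
        congr 1
        rw [Finset.prod_mul_distrib, Finset.prod_mul_distrib, Finset.prod_const,
          Finset.card_univ, Fintype.card_fin, ← Real.rpow_sum_of_pos hT0]
        congr 2
        rw [Finset.sum_add_distrib, Finset.sum_const, Finset.card_univ, Fintype.card_fin,
          Finset.sum_ite_eq' Finset.univ i (fun _ => (-(η / 2) : ℝ)), if_pos (Finset.mem_univ i),
          nsmul_eq_mul]
    _ = _ := by
        rw [Finset.sum_const, Finset.card_univ, Fintype.card_fin, nsmul_eq_mul,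
          ENNReal.ofReal_mul (p := (k : ℝ)) (by positivity)]
        congr 1
        rw [ENNReal.ofReal_natCast]

end HiDgAux

open LowDgAux HiDgAux in
theorem low_dg_hi (k : ℕ) (η δ : ℝ) (hη : 0 < η) (hδ : 0 < δ) : ∃ C : ℝ, 0 < C ∧ ∀ (T t : ℝ) (β : Fin k → ℝ), 1 ≤ T →
    (∀ j, T ≤ β j) → (∀ j, β j ≤ 2 * T) → 0 ≤ t → t ≤ T → ∀ (σ : Fin k → Bool) (x : Fin k → ℕ+),
    (∀ j, ((x j : ℕ) : ℝ) ≤ T ^ (1 - η)) → lams σ x ≠ 0 →
    ‖∫ α in Set.Icc β (fun j => β j + T), Dg (fun j => t + α j) * (starRingEnd ℂ) (∏ j, ex (α j) (frs σ x j).1)‖ ≤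
      C * T ^ ((k : ℝ) - η / 2 + δ) * ∏ j, ((x j : ℕ) : ℝ) ^ (-(1 / 2) : ℝ) := by
  classical
  obtain ⟨δ', hδ', hδ2, hkδ⟩ : ∃ δ' : ℝ, 0 < δ' ∧ δ' ≤ 1 / 2 ∧ (k : ℝ) * (2 * δ') ≤ δ := by
    refine ⟨min (1 / 2) (δ / (2 * ((k : ℝ) + 1))), by positivity, min_le_left _ _, ?_⟩
    have hk0 : (0:ℝ) ≤ k := Nat.cast_nonneg k
    have h1 : min (1 / 2) (δ / (2 * ((k : ℝ) + 1))) ≤ δ / (2 * ((k : ℝ) + 1)) := min_le_right _ _
    have h2 : 2 * (δ / (2 * ((k : ℝ) + 1))) * ((k : ℝ) + 1) = δ := by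
      field_simp
    have h3 : 0 ≤ δ / (2 * ((k : ℝ) + 1)) := by positivity
    nlinarith
  obtain ⟨C0, hC0, hOm⟩ := Om_le_kap δ' hδ' hδ2
  obtain ⟨C1, hC1, hlow⟩ := low_sum_int δ' hδ' hδ2
  obtain ⟨C2, hC2, hosc⟩ := Om_osc δ' hδ' hδ2
  refine ⟨((k : ℝ) + 1) * (C2 * (4 + 4 * C1)) ^ k, by positivity, ?_⟩
  intro T t β hT hβ hβ2 ht htT σ x hx hp
  have hT0 : 0 < T := by linarith
  set K : Set (Fin k → ℝ) := Set.Icc β (fun j => β j + T) with hK
  have hKx : ∀ α ∈ K, ∀ j, T ≤ t + α j ∧ t + α j ≤ 4 * T := by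
    intro α hα j
    have h1 := hα.1 j
    have h2 := hα.2 j
    have h3 := hβ j
    have h4 := hβ2 j
    simp only at h2
    exact ⟨by linarith, by linarith⟩
  have : IsFiniteMeasure (volume.restrict K) :=
    ⟨by rw [Measure.restrict_apply_univ]; exact isCompact_Icc.measure_lt_top⟩
  set F : (Fin k → Q) → (Fin k → ℝ) → ℂ := fun q α =>
    if lam (fun j => (q j).1) = 0 then ∏ j, gg t (lgr (frs σ x j).1) (q j) (α j) else 0 with hF
  have hpt : ∀ α ∈ K, Dg (fun j => t + α j) * (starRingEnd ℂ) (∏ j, ex (α j) (frs σ x j).1) =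
      ∑' q, F q α := by
    intro α hα
    rw [Dg_eq _ (fun j => by linarith [(hKx α hα j).1]), ← tsum_mul_right, conj_prod σ x α]
    refine tsum_congr fun q => ?_
    simp only [hF]
    split_ifs with h
    · rw [← Finset.prod_mul_distrib]
      rfl
    · rw [zero_mul]
  have hFn : ∀ q, ∀ α ∈ K, ‖F q α‖ ≤ ∏ j, (C0 * ww δ' T (q j)) := by
    intro q α hα
    have hnn : ∀ j, 0 ≤ C0 * ww δ' T (q j) := fun j => mul_nonneg hC0.le (ww_nonneg hT0.le _)
    simp only [hF]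
    split_ifs with h
    · rw [norm_prod]
      refine Finset.prod_le_prod (fun j _ => norm_nonneg _) fun j _ => ?_
      rw [gg_norm]
      have h1 := hOm T (hgt (q j).1) (t + α j) hT (one_le_hgt _) (hKx α hα j).1 (hKx α hα j).2
      calc (hgt (q j).1) ^ (-(1 / 2) : ℝ) * Om (hgt (q j).1) (t + α j)
          ≤ (hgt (q j).1) ^ (-(1 / 2) : ℝ) * (C0 * kap δ' T (hgt (q j).1)) :=
            mul_le_mul_of_nonneg_left h1 (Real.rpow_nonneg (hgt_pos _).le _)
        _ = _ := by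
            unfold ww
            ring
    · rw [norm_zero]
      exact Finset.prod_nonneg fun j _ => hnn j
  have hsum0 : Summable (fun q : Fin k → Q => ∏ j, (C0 * ww δ' T (q j))) :=
    summable_pi_prod_real (k := k) (fun _ q => C0 * ww δ' T q)
      (fun _ => (ww_summable hδ' hδ2 hT).mul_left C0)
      (fun _ q => mul_nonneg hC0.le (ww_nonneg hT0.le q))
  have hFint : ∀ q, Integrable (F q) (volume.restrict K) := by
    intro q
    have hc : ContinuousOn (F q) K := by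
      simp only [hF]
      by_cases h : lam (fun j => (q j).1) = 0
      · simp only [if_pos h]
        refine continuousOn_finsetProd _ (fun j _ => ?_)
        refine (gg_continuousOn (t := t) (ν := lgr (frs σ x j).1) (b := β j) (H := T) (by
          linarith [hβ j]) (q j)).comp (continuous_apply j).continuousOn ?_
        intro α hα
        exact ⟨hα.1 j, hα.2 j⟩
      · simp only [if_neg h]
        exact continuousOn_const
    exact hc.integrableOn_compact isCompact_Icc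
  have hae : ∀ q, ∀ᵐ α ∂(volume.restrict K), ‖‖F q α‖‖ ≤ ∏ j, (C0 * ww δ' T (q j)) := by
    intro q
    refine (ae_restrict_iff' measurableSet_Icc).2 (Filter.Eventually.of_forall fun α hα => ?_)
    rw [norm_norm]
    exact hFn q α hα
  have hFsum : Summable (fun q => ∫ α, ‖F q α‖ ∂(volume.restrict K)) := by
    refine Summable.of_nonneg_of_le (fun q => integral_nonneg fun α => norm_nonneg _) (fun q => ?_)
      (hsum0.mul_right ((volume.restrict K).real Set.univ))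
    have h1 := norm_integral_le_of_norm_le_const (hae q)
    rw [Real.norm_of_nonneg (integral_nonneg fun α => norm_nonneg _)] at h1
    exact h1
  have hint := hasSum_integral_of_summable_integral_norm hFint hFsum
  have hX : (∫ α in K, Dg (fun j => t + α j) * (starRingEnd ℂ) (∏ j, ex (α j) (frs σ x j).1)) =
      ∫ α, (∑' q, F q α) ∂(volume.restrict K) :=
    setIntegral_congr_fun measurableSet_Icc hpt
  rw [hX, ← hint.tsum_eq]
  have hnorm : ∀ q, ‖∫ α, F q α ∂(volume.restrict K)‖ ≤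
      if lam (fun j => (q j).1) = 0 then
        ∏ j, (C2 * (ww δ' T (q j) * bb T (lgr (q j).1 - lgr (frs σ x j).1))) else 0 := by
    intro q
    simp only [hF]
    split_ifs with h
    · rw [hK, ← Set.pi_univ_Icc, volume_pi, Measure.restrict_pi_pi,
        integral_fintype_prod_eq_prod (fun (j : Fin k) (y : ℝ) =>
          gg t (lgr (frs σ x j).1) (q j) y), norm_prod]
      refine Finset.prod_le_prod (fun j _ => norm_nonneg _) fun j _ => ?_
      exact one_int hT ht htT (hβ j) (hβ2 j) hosc (q j)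
    · simp
  have hns : Summable (fun q => ‖∫ α, F q α ∂(volume.restrict K)‖) :=
    Summable.of_nonneg_of_le (fun q => norm_nonneg _) (fun q => norm_integral_le_integral_norm _)
      hFsum
  have hfin : ENNReal.ofReal ‖∑' q, ∫ α, F q α ∂(volume.restrict K)‖ ≤
      ENNReal.ofReal ((k : ℝ) * ((C2 * (4 + 4 * C1)) ^ k *
        (∏ j, ((x j : ℕ) : ℝ) ^ (-(1 / 2) : ℝ)) *
        T ^ ((k : ℝ) * (1 + 2 * δ') + (-(η / 2))))) := by
    refine le_trans (ENNReal.ofReal_le_ofReal (norm_tsum_le_tsum_norm hns)) ?_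
    rw [ENNReal.ofReal_tsum_of_nonneg (fun q => norm_nonneg _) hns]
    refine le_trans (ENNReal.tsum_le_tsum fun q => ?_) (multi hC1 hC2 hδ' hδ2 hT hη hlow k σ x hx hp)
    have h1 := hnorm q
    split_ifs with h
    · rw [if_pos h] at h1
      exact ENNReal.ofReal_le_ofReal h1
    · rw [if_neg h] at h1
      rw [ENNReal.ofReal_of_nonpos h1]
  have hPn : 0 ≤ ∏ j, ((x j : ℕ) : ℝ) ^ (-(1 / 2) : ℝ) :=
    Finset.prod_nonneg fun j _ => Real.rpow_nonneg (Nat.cast_nonneg _) _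
  have h2 := (ENNReal.ofReal_le_ofReal_iff (by positivity)).1 hfin
  refine h2.trans ?_
  have h3 : T ^ ((k : ℝ) * (1 + 2 * δ') + (-(η / 2))) ≤ T ^ ((k : ℝ) - η / 2 + δ) :=
    Real.rpow_le_rpow_of_exponent_le hT (by linarith)
  have hE : 0 ≤ (C2 * (4 + 4 * C1)) ^ k * ∏ j, ((x j : ℕ) : ℝ) ^ (-(1 / 2) : ℝ) := by positivity
  calc (k : ℝ) * ((C2 * (4 + 4 * C1)) ^ k * (∏ j, ((x j : ℕ) : ℝ) ^ (-(1 / 2) : ℝ)) *
        T ^ ((k : ℝ) * (1 + 2 * δ') + (-(η / 2))))
      ≤ ((k : ℝ) + 1) * ((C2 * (4 + 4 * C1)) ^ k * (∏ j, ((x j : ℕ) : ℝ) ^ (-(1 / 2) : ℝ)) *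
        T ^ ((k : ℝ) - η / 2 + δ)) := by
        refine mul_le_mul (by linarith) (mul_le_mul_of_nonneg_left h3 hE) (by positivity)
          (by positivity)
    _ = _ := by ring

end Pool.Agent.P07318s
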