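import Pool.Agent.Lib.P07318s.Defs

/-!
The test function for the lower bound: `Ys M a = ∑_{M ≤ m < 2M} ((m+2)/(m+1))^(-i a)`.
-/

set_option autoImplicit false

namespace Pool.Agent.P07318s

open MeasureTheory Complex

/-- the reduced fraction `(m + 2) / (m + 1)` -/
def pm (m : ℕ) : Q :=
  ⟨(Nat.succPNat (m + 1), Nat.succPNat m), by
    show Nat.Coprime (m + 1 + 1) (m + 1)
    exact (Nat.coprime_self_add_left).2 (Nat.coprime_one_left _)⟩

/-- the test function -/
noncomputable def Ys (M : ℕ) (a : ℝ) : ℂ := ∑ m ∈ Finset.Ico M (2 * M), ex a (pm m).1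

end Pool.Agent.P07318s
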