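import Pool.Agent.Lib.P07318s.Defs
import Pool.Agent.Lib.P07318s.LowDefs
import Pool.Agent.Lib.P07318s.Twist
import Pool.Agent.Lib.P07318s.LowDg
import Pool.Agent.Lib.P07318s.SecondMoment
import Pool.Agent.Lib.P07318s.Cont

/-!
Correlation of the remainder with `conj (Ys M (α 0))`. Fubini: the integral is `∫_0^L ∑_{M ≤ m < 2M} (∏_{j ≥ 1} I_j(t)) J_m(t) dt - ∫_0^L ∑_m D_m(t) dt`,
`I_j(t) = ∫_{β_j}^{β_j+T} ‖ζ(1/2+i(t+a))‖² da`, `J_m(t) = ∫ ‖ζ(1/2+i(t+a))‖² conj(ex a (pm m)) da`, `D_m(t) = ∫_box Dg conj(ex (α 0) (pm m))`.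
`twist` with `p = 1` (the fraction 1/1): `I_j ≥ T - C T^(3/4) ≥ T/2` as `Om 1 x ≥ W(2π/x) ≥ W 1 = 1` (`W_antitone`, `W 1 = 1`: `integral_exp_sq_div` + `W_eq` or direct;
any positive constant is enough) and `I_j ≤ C T^(1+ε)` (`second_moment`).
`twist` with `p = pm m`, `h = (m+1)(m+2)`: `J_m = ex t (pm m) A_m + O(h³ T^(3/4))`, `A_m ≥ T h^(-1/2) ≥ T/(2M+1)` (since `2π h ≤ T`), and
`Re ex t (pm m) = cos(t log((m+2)/(m+1))) ≥ cos 1 ≥ 1/2` for `0 ≤ t ≤ L ≤ M`. So `Re ∑_m J_m ≥ M · T/(2(2M+1)) - C M (2M+2)^6 T^(3/4) ≥ T/8` for `T` large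
(`M ≤ T^(1/40)`, `7/40 + 3/4 < 1`). `low_dg`: `∑_m |D_m| ≤ C M (2M+2)^6 T^(n+4/5)`, and `7/40 + 4/5 < 1`.
-/

set_option autoImplicit false

namespace Pool.Agent.P07318s

open MeasureTheory Complex

namespace LowMainAux

/-- square of the absolute value of zeta on the critical line -/
noncomputable def zs (x : ℝ) : ℝ := ‖riemannZeta (1 / 2 + ((x : ℝ) : ℂ) * I)‖ ^ 2

theorem zs_cont : Continuous zs := sm_zsq_continuous

theorem zs_nonneg (x : ℝ) : 0 ≤ zs x := by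
  unfold zs
  positivity

theorem W_one : W 1 = 1 := by
  unfold W
  rw [Real.log_one]
  have h := integral_gaussian_Ioi (1 / 4 : ℝ)
  have e : (fun u : ℝ => Real.exp (-u ^ 2 / 4)) = fun u => Real.exp (-(1 / 4) * u ^ 2) := by
    funext u
    congr 1
    ring
  rw [e, h]
  have h4 : Real.sqrt (Real.pi / (1 / 4)) = 2 * Real.sqrt Real.pi := by
    rw [show Real.pi / (1 / 4) = 2 ^ 2 * Real.pi by ring, Real.sqrt_mul (by norm_num),
      Real.sqrt_sq (by norm_num)]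
  rw [h4]
  have hpi : Real.sqrt Real.pi ≠ 0 := (Real.sqrt_pos.2 Real.pi_pos).ne'
  field_simp

theorem one_le_Om {h x : ℝ} (hh : 1 ≤ h) (hx : 2 * Real.pi * h ≤ x) : 1 ≤ Om h x := by
  have hpi := Real.pi_pos
  have hh0 : 0 < h := by linarith
  have h2 : 0 < 2 * Real.pi * h := by positivity
  have hx0 : 0 < x := by linarith
  have h1 := (Om_summable hx0 hh).le_tsum (1 : ℕ+) (fun j _ => div_nonneg (W_nonneg _) (by positivity))
  refine le_trans ?_ h1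
  have e : 2 * Real.pi * (((1 : ℕ+) : ℕ) : ℝ) ^ 2 * h / x = 2 * Real.pi * h / x := by
    simp
  rw [e]
  have h3 : W 1 ≤ W (2 * Real.pi * h / x) := by
    refine W_antitone ?_ ?_ ?_
    · rw [Set.mem_Ioi]
      positivity
    · rw [Set.mem_Ioi]
      norm_num
    · rw [div_le_one hx0]
      exact hx
  rw [W_one] at h3
  simpa using h3

theorem Om_mono {h : ℝ} (hh : 1 ≤ h) : MonotoneOn (fun x => Om h x) (Set.Ioi 0) := by
  intro x hx y hy hxy
  have hpi := Real.pi_pos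
  have hx0 : 0 < x := hx
  have hy0 : 0 < y := hy
  have hh0 : 0 < h := by linarith
  refine (Om_summable hx0 hh).tsum_le_tsum (fun g => ?_) (Om_summable hy0 hh)
  have hg : (0 : ℝ) < ((g : ℕ) : ℝ) := by exact_mod_cast g.2
  refine div_le_div_of_nonneg_right ?_ hg.le
  refine W_antitone ?_ ?_ ?_
  · rw [Set.mem_Ioi]
    positivity
  · rw [Set.mem_Ioi]
    positivity
  · exact div_le_div_of_nonneg_left (by positivity) hx0 hxy

theorem int_Om {h T β t : ℝ} (hh : 1 ≤ h) (hT : 2 * Real.pi * h ≤ T) (hβ : T ≤ β) (ht : 0 ≤ t) :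
    T ≤ ∫ a in β..(β + T), Om h (t + a) := by
  have hpi := Real.pi_pos
  have hT0 : 0 < T := by
    have : 0 < 2 * Real.pi * h := by positivity
    linarith
  have hint : IntervalIntegrable (fun a => Om h (t + a)) volume β (β + T) := by
    refine MonotoneOn.intervalIntegrable ?_
    rw [Set.uIcc_of_le (by linarith)]
    intro x hx y hy hxy
    refine Om_mono hh ?_ ?_ ?_
    · rw [Set.mem_Ioi]
      linarith [hx.1]
    · rw [Set.mem_Ioi]
      linarith [hy.1]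
    · linarith
  have h1 : ∫ _ in β..(β + T), (1 : ℝ) ≤ ∫ a in β..(β + T), Om h (t + a) := by
    refine intervalIntegral.integral_mono_on (by linarith) intervalIntegrable_const hint ?_
    intro a ha
    exact one_le_Om hh (by linarith [ha.1])
  simpa using h1

theorem box_prod (n : ℕ) {T : ℝ} (t : ℝ) (hT : 0 ≤ T) (β : Fin (n + 1) → ℝ) (p : ℕ+ × ℕ+) :
    ∫ α in Set.Icc β (fun j => β j + T), ((∏ j, zs (t + α j) : ℝ) : ℂ) *
      (starRingEnd ℂ) (ex (α 0) p) =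
    (∫ a in (β 0)..(β 0 + T), ((zs (t + a) : ℝ) : ℂ) * (starRingEnd ℂ) (ex a p)) *
      ((∏ j : Fin n, ∫ a in (β j.succ)..(β j.succ + T), zs (t + a) : ℝ) : ℂ) := by
  have e1 : ∀ α : Fin (n + 1) → ℝ, ((∏ j, zs (t + α j) : ℝ) : ℂ) *
      (starRingEnd ℂ) (ex (α 0) p) =
      ∏ j, (((zs (t + α j) : ℝ) : ℂ) * if j = 0 then (starRingEnd ℂ) (ex (α j) p) else 1) := by
    intro α
    rw [Finset.prod_mul_distrib, Finset.prod_ite_eq']
    simp
  simp_rw [e1]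
  rw [← Set.pi_univ_Icc, volume_pi, Measure.restrict_pi_pi,
    integral_fintype_prod_eq_prod (fun (j : Fin (n + 1)) (x : ℝ) =>
      ((zs (t + x) : ℝ) : ℂ) * if j = 0 then (starRingEnd ℂ) (ex x p) else 1),
    Fin.prod_univ_succ]
  congr 1
  · rw [intervalIntegral.integral_of_le (by linarith), integral_Icc_eq_integral_Ioc]
    simp
  · rw [Complex.ofReal_prod]
    refine Finset.prod_congr rfl fun j _ => ?_
    rw [intervalIntegral.integral_of_le (by linarith), ← integral_Icc_eq_integral_Ioc]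
    simp only [Fin.succ_ne_zero, if_false, mul_one]
    exact integral_ofReal

theorem lgr_pm (m : ℕ) : lgr (pm m).1 = Real.log (((m : ℝ) + 2) / ((m : ℝ) + 1)) := by
  have h1 : (((pm m).1.1 : ℕ) : ℝ) = (m : ℝ) + 2 := by
    show (((m + 1 + 1 : ℕ)) : ℝ) = _
    push_cast
    ring
  have h2 : (((pm m).1.2 : ℕ) : ℝ) = (m : ℝ) + 1 := by
    show (((m + 1 : ℕ)) : ℝ) = _
    push_cast
    ring
  unfold lgr
  rw [h1, h2, Real.log_div (by positivity) (by positivity)]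

theorem hgt_pm (m : ℕ) : hgt (pm m).1 = ((m : ℝ) + 2) * ((m : ℝ) + 1) := by
  have h1 : (((pm m).1.1 : ℕ) : ℝ) = (m : ℝ) + 2 := by
    show (((m + 1 + 1 : ℕ)) : ℝ) = _
    push_cast
    ring
  have h2 : (((pm m).1.2 : ℕ) : ℝ) = (m : ℝ) + 1 := by
    show (((m + 1 : ℕ)) : ℝ) = _
    push_cast
    ring
  unfold hgt
  rw [h1, h2]

theorem lgr_pm_pos (m : ℕ) : 0 < lgr (pm m).1 := by
  rw [lgr_pm]
  apply Real.log_pos
  rw [lt_div_iff₀ (by positivity)]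
  linarith

theorem lgr_pm_le (m : ℕ) : lgr (pm m).1 ≤ 1 / ((m : ℝ) + 1) := by
  rw [lgr_pm]
  have h := Real.log_le_sub_one_of_pos (show 0 < ((m : ℝ) + 2) / ((m : ℝ) + 1) by positivity)
  refine h.trans (le_of_eq ?_)
  field_simp
  ring

theorem re_ex (x : ℝ) (p : ℕ+ × ℕ+) : (ex x p).re = Real.cos (x * lgr p) := by
  unfold ex
  rw [Complex.exp_ofReal_mul_I_re, Real.cos_neg]

theorem growth (K s : ℝ) (hs : s < 1) : ∃ T₀ : ℝ, 1 ≤ T₀ ∧ ∀ T : ℝ, T₀ ≤ T → K * T ^ s ≤ T := by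
  have h1 := (tendsto_rpow_atTop (sub_pos.2 hs)).eventually_ge_atTop K
  obtain ⟨T₀, h2⟩ := Filter.eventually_atTop.1 h1
  refine ⟨max T₀ 1, le_max_right _ _, fun T hT => ?_⟩
  have hT1 : 1 ≤ T := (le_max_right _ _).trans hT
  have h3 := h2 T ((le_max_left _ _).trans hT)
  calc K * T ^ s ≤ T ^ (1 - s) * T ^ s := mul_le_mul_of_nonneg_right h3 (by positivity)
    _ = T := by
      rw [← Real.rpow_add (by linarith)]
      simp

theorem I_lower : ∃ C : ℝ, 0 < C ∧ ∀ T β t : ℝ, 2 * Real.pi ≤ T → T ≤ β → β ≤ 2 * T → 0 ≤ t →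
    t ≤ T → T - C * T ^ (3 / 4 : ℝ) ≤ ∫ a in β..(β + T), zs (t + a) := by
  obtain ⟨C, hC, h⟩ := twist
  refine ⟨C, hC, fun T β t hT h1 h2 h3 h4 => ?_⟩
  have hpi := Real.pi_gt_three
  let p1 : Q := ⟨(1, 1), Nat.coprime_one_right _⟩
  have hex : ∀ a : ℝ, ex a p1.1 = 1 := by
    intro a
    show ex a ((1 : ℕ+), (1 : ℕ+)) = 1
    unfold ex lgr
    simp
  have hh : hgt p1.1 = 1 := by
    show hgt ((1 : ℕ+), (1 : ℕ+)) = 1
    unfold hgt
    simp
  have h5 := h T β t (by linarith) h1 h2 h3 h4 p1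
  simp only [hex, hh, map_one, mul_one, Real.one_rpow, one_mul, one_pow] at h5
  have h6 : (∫ a in β..(β + T), ((‖riemannZeta (1 / 2 + ((t + a : ℝ) : ℂ) * I)‖ ^ 2 : ℝ) : ℂ)) =
      ((∫ a in β..(β + T), zs (t + a) : ℝ) : ℂ) := intervalIntegral.integral_ofReal
  rw [h6, ← Complex.ofReal_sub, Complex.norm_real, Real.norm_eq_abs] at h5
  have h7 := int_Om (h := 1) (T := T) (β := β) (t := t) le_rfl (by linarith) h1 h3
  have h8 := (abs_le.1 h5).1
  linarith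

theorem J_lower : ∃ C : ℝ, 0 < C ∧ ∀ (T β t : ℝ) (M m : ℕ), 1 ≤ T → T ≤ β → β ≤ 2 * T → 0 ≤ t →
    t ≤ T → t ≤ M → 1 ≤ M → M ≤ m → m < 2 * M → 2 * Real.pi * (2 * (M : ℝ) + 1) ^ 2 ≤ T →
    T / (2 * (2 * (M : ℝ) + 1)) - C * (2 * (M : ℝ) + 1) ^ 6 * T ^ (3 / 4 : ℝ) ≤
      (∫ a in β..(β + T), ((zs (t + a) : ℝ) : ℂ) * (starRingEnd ℂ) (ex a (pm m).1)).re := by
  obtain ⟨C, hC, h⟩ := twist
  refine ⟨C, hC, fun T β t M m hT h1 h2 h3 h4 h5 h6 h7 h8 h9 => ?_⟩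
  have hpi := Real.pi_pos
  have hm1 : (M : ℝ) ≤ m := by exact_mod_cast h7
  have hm2 : (m : ℝ) + 1 ≤ 2 * M := by exact_mod_cast h8
  have hM1 : (1 : ℝ) ≤ M := by exact_mod_cast h6
  have hh1 := one_le_hgt (pm m).1
  have hh0 := hgt_pos (pm m).1
  have hh2 : hgt (pm m).1 ≤ (2 * (M : ℝ) + 1) ^ 2 := by
    rw [hgt_pm]
    nlinarith
  have h10 := h T β t hT h1 h2 h3 h4 (pm m)
  have h11 : T ≤ ∫ a in β..(β + T), Om (hgt (pm m).1) (t + a) := by
    refine int_Om hh1 ?_ h1 h3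
    refine le_trans ?_ h9
    exact mul_le_mul_of_nonneg_left hh2 (by positivity)
  have h12 : 1 / (2 * (M : ℝ) + 1) ≤ (hgt (pm m).1) ^ (-(1 / 2) : ℝ) := by
    have e : 1 / (2 * (M : ℝ) + 1) = ((2 * (M : ℝ) + 1) ^ 2) ^ (-(1 / 2) : ℝ) := by
      rw [← Real.rpow_natCast, ← Real.rpow_mul (by positivity)]
      norm_num
      rw [Real.rpow_neg_one]
    rw [e]
    exact Real.rpow_le_rpow_of_nonpos hh0 hh2 (by norm_num)
  have h13 : T / (2 * (M : ℝ) + 1) ≤ (hgt (pm m).1) ^ (-(1 / 2) : ℝ) *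
      ∫ a in β..(β + T), Om (hgt (pm m).1) (t + a) := by
    calc T / (2 * (M : ℝ) + 1) = 1 / (2 * (M : ℝ) + 1) * T := by ring
      _ ≤ _ := mul_le_mul h12 h11 (by linarith) (by positivity)
  set A : ℝ := (hgt (pm m).1) ^ (-(1 / 2) : ℝ) * ∫ a in β..(β + T), Om (hgt (pm m).1) (t + a)
    with hA
  have h14 : (1 : ℝ) / 2 ≤ Real.cos (t * lgr (pm m).1) := by
    have h15 := Real.one_sub_sq_div_two_le_cos (x := t * lgr (pm m).1)
    have h16 : 0 ≤ t * lgr (pm m).1 := mul_nonneg h3 (lgr_pm_pos m).le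
    have h17 : t * lgr (pm m).1 ≤ 1 := by
      calc t * lgr (pm m).1 ≤ M * (1 / ((m : ℝ) + 1)) :=
            mul_le_mul h5 (lgr_pm_le m) (lgr_pm_pos m).le (by positivity)
        _ ≤ 1 := by
            rw [mul_one_div, div_le_one (by positivity)]
            linarith
    nlinarith
  have h18 : (ex t (pm m).1 * (A : ℂ)).re = A * Real.cos (t * lgr (pm m).1) := by
    rw [Complex.re_mul_ofReal, re_ex, mul_comm]
  have h19 := (Complex.abs_re_le_norm _).trans h10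
  rw [Complex.sub_re, h18] at h19
  have h20 := (abs_le.1 h19).1
  have h21 : C * (hgt (pm m).1) ^ 3 * T ^ (3 / 4 : ℝ) ≤
      C * (2 * (M : ℝ) + 1) ^ 6 * T ^ (3 / 4 : ℝ) := by
    have h22 : (hgt (pm m).1) ^ 3 ≤ ((2 * (M : ℝ) + 1) ^ 2) ^ 3 := by
      gcongr
    have h23 : ((2 * (M : ℝ) + 1) ^ 2) ^ 3 = (2 * (M : ℝ) + 1) ^ 6 := by ring
    rw [h23] at h22
    have h24 : 0 ≤ T ^ (3 / 4 : ℝ) := by positivity
    exact mul_le_mul_of_nonneg_right (mul_le_mul_of_nonneg_left h22 hC.le) h24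
  have h25 : T / (2 * (2 * (M : ℝ) + 1)) ≤ A * Real.cos (t * lgr (pm m).1) := by
    have h26 : 0 ≤ T / (2 * (M : ℝ) + 1) := by positivity
    calc T / (2 * (2 * (M : ℝ) + 1)) = T / (2 * (M : ℝ) + 1) * (1 / 2) := by
          field_simp
      _ ≤ _ := mul_le_mul h13 h14 (by norm_num) (h26.trans h13)
  have h27 : (∫ a in β..(β + T), ((‖riemannZeta (1 / 2 + ((t + a : ℝ) : ℂ) * I)‖ ^ 2 : ℝ) : ℂ) *
      (starRingEnd ℂ) (ex a (pm m).1)).re =
      (∫ a in β..(β + T), ((zs (t + a) : ℝ) : ℂ) * (starRingEnd ℂ) (ex a (pm m).1)).re := rfl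
  rw [h27] at h20
  linarith

theorem conj_Ys (M : ℕ) (a : ℝ) : (starRingEnd ℂ) (Ys M a) =
    ∑ m ∈ Finset.Ico M (2 * M), (starRingEnd ℂ) (ex a (pm m).1) := by
  unfold Ys
  rw [map_sum]

/-- the correlation at a fixed time -/
theorem fixed_t (n : ℕ) : ∃ T₀ : ℝ, 1 ≤ T₀ ∧ ∀ (T t : ℝ) (M : ℕ) (β : Fin (n + 1) → ℝ), T₀ ≤ T →
    0 ≤ t → t ≤ M → 1 ≤ M → (M : ℝ) ≤ T ^ (1 / 40 : ℝ) → (∀ j, T ≤ β j) → (∀ j, β j ≤ 2 * T) →
    T ^ (n + 1) / (16 * 2 ^ n) ≤ (∫ α in Set.Icc β (fun j => β j + T),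
      (((∏ j, zs (t + α j) : ℝ) : ℂ) - Dg (fun j => t + α j)) *
        (starRingEnd ℂ) (Ys M (α 0))).re := by
  obtain ⟨C1, hC1, hI⟩ := I_lower
  obtain ⟨C2, hC2, hJ⟩ := J_lower
  obtain ⟨C3, hC3, hD⟩ := low_dg n
  obtain ⟨T1, hT1, g1⟩ := growth (2 * C1) (3 / 4) (by norm_num)
  obtain ⟨T2, hT2, g2⟩ := growth (24 * 729 * C2) (37 / 40) (by norm_num)
  obtain ⟨T3, hT3, g3⟩ := growth (16 * 2 ^ n * 729 * C3) (39 / 40) (by norm_num)
  obtain ⟨T4, hT4, g4⟩ := growth (18 * Real.pi) (1 / 20) (by norm_num)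
  refine ⟨max (max T1 T2) (max T3 T4), le_max_of_le_left (le_max_of_le_left hT1), ?_⟩
  intro T t M β hT ht0 htM hM1 hMT hβ1 hβ2
  have k1 := g1 T ((le_max_left _ _).trans ((le_max_left _ _).trans hT))
  have k2 := g2 T ((le_max_right _ _).trans ((le_max_left _ _).trans hT))
  have k3 := g3 T ((le_max_left _ _).trans ((le_max_right _ _).trans hT))
  have k4 := g4 T ((le_max_right _ _).trans ((le_max_right _ _).trans hT))
  have hT1' : 1 ≤ T := hT1.trans ((le_max_left _ _).trans ((le_max_left _ _).trans hT))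
  have hT0 : 0 < T := by linarith
  have hpi := Real.pi_gt_three
  have hM1' : (1 : ℝ) ≤ M := by exact_mod_cast hM1
  set y : ℝ := T ^ (1 / 40 : ℝ) with hy
  have hy1 : 1 ≤ y := hM1'.trans hMT
  have hyT : y ≤ T := by
    rw [hy]
    exact Real.rpow_le_self_of_one_le hT1' (by norm_num)
  have hy2 : y ^ 2 = T ^ (1 / 20 : ℝ) := by
    rw [hy, ← Real.rpow_natCast, ← Real.rpow_mul hT0.le]
    norm_num
  have hy7 : y ^ 7 = T ^ (7 / 40 : ℝ) := by
    rw [hy, ← Real.rpow_natCast, ← Real.rpow_mul hT0.le]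
    norm_num
  have htT : t ≤ T := htM.trans (hMT.trans hyT)
  have h3y : 2 * (M : ℝ) + 1 ≤ 3 * y := by linarith
  have hpow : (M : ℝ) * (2 * (M : ℝ) + 1) ^ 6 ≤ 729 * T ^ (7 / 40 : ℝ) := by
    calc (M : ℝ) * (2 * (M : ℝ) + 1) ^ 6 ≤ y * (3 * y) ^ 6 := by gcongr
      _ = 729 * y ^ 7 := by ring
      _ = _ := by rw [hy7]
  have h2pi : 2 * Real.pi * (2 * (M : ℝ) + 1) ^ 2 ≤ T := by
    calc 2 * Real.pi * (2 * (M : ℝ) + 1) ^ 2 ≤ 2 * Real.pi * (3 * y) ^ 2 := by gcongr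
      _ = 18 * Real.pi * y ^ 2 := by ring
      _ = 18 * Real.pi * T ^ (1 / 20 : ℝ) := by rw [hy2]
      _ ≤ T := k4
  have h2pi' : 2 * Real.pi ≤ T := by
    refine le_trans ?_ h2pi
    have : (1 : ℝ) ≤ (2 * (M : ℝ) + 1) ^ 2 := by nlinarith
    nlinarith
  -- the product of the mean squares
  set PI : ℝ := ∏ j : Fin n, ∫ a in (β j.succ)..(β j.succ + T), zs (t + a) with hPI
  have hPIge : (T / 2) ^ n ≤ PI := by
    have e : (T / 2) ^ n = ∏ _j : Fin n, (T / 2) := by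
      rw [Finset.prod_const, Finset.card_univ, Fintype.card_fin]
    rw [e]
    refine Finset.prod_le_prod (fun j _ => by positivity) (fun j _ => ?_)
    have := hI T (β j.succ) t h2pi' (hβ1 _) (hβ2 _) ht0 htT
    linarith
  have hPI0 : 0 ≤ PI := le_trans (by positivity) hPIge
  -- integrability
  set B : Set (Fin (n + 1) → ℝ) := Set.Icc β (fun j => β j + T) with hB
  have hBpos : ∀ α ∈ B, ∀ j, 0 < t + α j := by
    intro α hα j
    have h1 := hα.1 j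
    have h2 := hβ1 j
    linarith
  have hexc : ∀ m, Continuous (fun α : Fin (n + 1) → ℝ => (starRingEnd ℂ) (ex (α 0) (pm m).1)) :=
    fun m => Complex.continuous_conj.comp ((Cont_ex_continuous _).comp (continuous_apply 0))
  have hZc : Continuous (fun α : Fin (n + 1) → ℝ => ((∏ j, zs (t + α j) : ℝ) : ℂ)) := by
    refine Complex.continuous_ofReal.comp (continuous_finsetProd _ fun j _ => ?_)
    exact zs_cont.comp (continuous_const.add (continuous_apply j))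
  have hDc : ContinuousOn (fun α : Fin (n + 1) → ℝ => Dg (fun j => t + α j)) B := by
    refine (Dg_continuousOn (n + 1)).comp (f := fun α : Fin (n + 1) → ℝ => fun j => t + α j)
      (Continuous.continuousOn (by fun_prop)) ?_
    intro α hα
    exact hBpos α hα
  have hZi : ∀ m, IntegrableOn (fun α : Fin (n + 1) → ℝ => ((∏ j, zs (t + α j) : ℝ) : ℂ) *
      (starRingEnd ℂ) (ex (α 0) (pm m).1)) B := fun m =>
    ((hZc.mul (hexc m)).continuousOn).integrableOn_compact isCompact_Icc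
  have hDi : ∀ m, IntegrableOn (fun α : Fin (n + 1) → ℝ => Dg (fun j => t + α j) *
      (starRingEnd ℂ) (ex (α 0) (pm m).1)) B := fun m =>
    (hDc.mul (hexc m).continuousOn).integrableOn_compact isCompact_Icc
  have hsplit : ∫ α in B, (((∏ j, zs (t + α j) : ℝ) : ℂ) - Dg (fun j => t + α j)) *
        (starRingEnd ℂ) (Ys M (α 0)) =
      ∑ m ∈ Finset.Ico M (2 * M), ((∫ α in B, ((∏ j, zs (t + α j) : ℝ) : ℂ) *
        (starRingEnd ℂ) (ex (α 0) (pm m).1)) -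
        ∫ α in B, Dg (fun j => t + α j) * (starRingEnd ℂ) (ex (α 0) (pm m).1)) := by
    have e1 : (fun α : Fin (n + 1) → ℝ => (((∏ j, zs (t + α j) : ℝ) : ℂ) -
        Dg (fun j => t + α j)) * (starRingEnd ℂ) (Ys M (α 0))) =
        fun α => ∑ m ∈ Finset.Ico M (2 * M), (((∏ j, zs (t + α j) : ℝ) : ℂ) *
        (starRingEnd ℂ) (ex (α 0) (pm m).1) -
        Dg (fun j => t + α j) * (starRingEnd ℂ) (ex (α 0) (pm m).1)) := by
      funext α
      rw [conj_Ys, Finset.mul_sum]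
      refine Finset.sum_congr rfl fun m _ => ?_
      ring
    have hi : ∀ m ∈ Finset.Ico M (2 * M), Integrable (fun α : Fin (n + 1) → ℝ =>
        ((∏ j, zs (t + α j) : ℝ) : ℂ) * (starRingEnd ℂ) (ex (α 0) (pm m).1) -
        Dg (fun j => t + α j) * (starRingEnd ℂ) (ex (α 0) (pm m).1)) (volume.restrict B) :=
      fun m _ => (hZi m).sub (hDi m)
    rw [e1, integral_finsetSum _ hi]
    refine Finset.sum_congr rfl fun m _ => ?_
    exact integral_sub (hZi m) (hDi m)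
  rw [hsplit, Complex.re_sum]
  have hterm : ∀ m ∈ Finset.Ico M (2 * M),
      PI * (T / (2 * (2 * (M : ℝ) + 1)) - C2 * (2 * (M : ℝ) + 1) ^ 6 * T ^ (3 / 4 : ℝ)) -
        C3 * (2 * (M : ℝ) + 1) ^ 6 * T ^ ((n : ℝ) + 4 / 5) ≤
      ((∫ α in B, ((∏ j, zs (t + α j) : ℝ) : ℂ) * (starRingEnd ℂ) (ex (α 0) (pm m).1)) -
        ∫ α in B, Dg (fun j => t + α j) * (starRingEnd ℂ) (ex (α 0) (pm m).1)).re := by
    intro m hm
    rw [Finset.mem_Ico] at hm
    have h1 := hJ T (β 0) t M m hT1' (hβ1 0) (hβ2 0) ht0 htT htM hM1 hm.1 hm.2 h2pi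
    have h2 := hD T t β hT1' hβ1 hβ2 ht0 htT (pm m) (lgr_pm_pos m).ne'
    rw [box_prod n t hT0.le β (pm m).1, Complex.sub_re, Complex.re_mul_ofReal]
    have h3 := (Complex.abs_re_le_norm _).trans h2
    have h4 := (abs_le.1 h3).2
    have hm1 : (m : ℝ) + 1 ≤ 2 * M := by exact_mod_cast hm.2
    have hm0 : (0 : ℝ) ≤ m := Nat.cast_nonneg m
    have hh2 : hgt (pm m).1 ≤ (2 * (M : ℝ) + 1) ^ 2 := by
      rw [hgt_pm]
      nlinarith
    have hh0 := hgt_pos (pm m).1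
    have h5 : C3 * (hgt (pm m).1) ^ 3 * T ^ ((n : ℝ) + 4 / 5) ≤
        C3 * (2 * (M : ℝ) + 1) ^ 6 * T ^ ((n : ℝ) + 4 / 5) := by
      have h22 : (hgt (pm m).1) ^ 3 ≤ ((2 * (M : ℝ) + 1) ^ 2) ^ 3 := by gcongr
      have h23 : ((2 * (M : ℝ) + 1) ^ 2) ^ 3 = (2 * (M : ℝ) + 1) ^ 6 := by ring
      rw [h23] at h22
      have h24 : 0 ≤ T ^ ((n : ℝ) + 4 / 5) := by positivity
      exact mul_le_mul_of_nonneg_right (mul_le_mul_of_nonneg_left h22 hC3.le) h24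
    have h6 := mul_le_mul_of_nonneg_left h1 hPI0
    rw [mul_comm PI (Complex.re _)] at h6
    linarith
  refine le_trans ?_ (Finset.sum_le_sum hterm)
  rw [Finset.sum_const, Nat.card_Ico, nsmul_eq_mul]
  have hcard : ((2 * M - M : ℕ) : ℝ) = M := by
    have : 2 * M - M = M := by omega
    rw [this]
  rw [hcard, mul_sub]
  -- numerical part
  have q1 : T / 8 ≤ (M : ℝ) * (T / (2 * (2 * (M : ℝ) + 1)) -
      C2 * (2 * (M : ℝ) + 1) ^ 6 * T ^ (3 / 4 : ℝ)) := by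
    have r1 : T / 6 ≤ (M : ℝ) * (T / (2 * (2 * (M : ℝ) + 1))) := by
      have e : (M : ℝ) * (T / (2 * (2 * (M : ℝ) + 1))) = T * ((M : ℝ) / (2 * (2 * (M : ℝ) + 1))) := by
        ring
      rw [e]
      have r2 : (1 : ℝ) / 6 ≤ (M : ℝ) / (2 * (2 * (M : ℝ) + 1)) := by
        rw [div_le_div_iff₀ (by norm_num) (by positivity)]
        linarith
      calc T / 6 = T * (1 / 6) := by ring
        _ ≤ _ := mul_le_mul_of_nonneg_left r2 hT0.le
    have r3 : (M : ℝ) * (C2 * (2 * (M : ℝ) + 1) ^ 6 * T ^ (3 / 4 : ℝ)) ≤ T / 24 := by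
      have e : (M : ℝ) * (C2 * (2 * (M : ℝ) + 1) ^ 6 * T ^ (3 / 4 : ℝ)) =
          C2 * T ^ (3 / 4 : ℝ) * ((M : ℝ) * (2 * (M : ℝ) + 1) ^ 6) := by ring
      rw [e]
      have r4 : T ^ (3 / 4 : ℝ) * T ^ (7 / 40 : ℝ) = T ^ (37 / 40 : ℝ) := by
        rw [← Real.rpow_add hT0]
        norm_num
      calc C2 * T ^ (3 / 4 : ℝ) * ((M : ℝ) * (2 * (M : ℝ) + 1) ^ 6)
          ≤ C2 * T ^ (3 / 4 : ℝ) * (729 * T ^ (7 / 40 : ℝ)) :=
            mul_le_mul_of_nonneg_left hpow (by positivity)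
        _ = 729 * C2 * (T ^ (3 / 4 : ℝ) * T ^ (7 / 40 : ℝ)) := by ring
        _ = 729 * C2 * T ^ (37 / 40 : ℝ) := by rw [r4]
        _ ≤ T / 24 := by linarith
    rw [mul_sub]
    linarith
  have q2 : T ^ (n + 1) / (8 * 2 ^ n) ≤ (M : ℝ) * (PI * (T / (2 * (2 * (M : ℝ) + 1)) -
      C2 * (2 * (M : ℝ) + 1) ^ 6 * T ^ (3 / 4 : ℝ))) := by
    calc T ^ (n + 1) / (8 * 2 ^ n) = (T / 2) ^ n * (T / 8) := by
          rw [div_pow, pow_succ]
          field_simp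
      _ ≤ PI * ((M : ℝ) * (T / (2 * (2 * (M : ℝ) + 1)) -
          C2 * (2 * (M : ℝ) + 1) ^ 6 * T ^ (3 / 4 : ℝ))) :=
          mul_le_mul hPIge q1 (by positivity) hPI0
      _ = _ := by ring
  have q3 : (M : ℝ) * (C3 * (2 * (M : ℝ) + 1) ^ 6 * T ^ ((n : ℝ) + 4 / 5)) ≤
      T ^ (n + 1) / (16 * 2 ^ n) := by
    have e : (M : ℝ) * (C3 * (2 * (M : ℝ) + 1) ^ 6 * T ^ ((n : ℝ) + 4 / 5)) =
        C3 * T ^ ((n : ℝ) + 4 / 5) * ((M : ℝ) * (2 * (M : ℝ) + 1) ^ 6) := by ring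
    rw [e]
    have r4 : T ^ ((n : ℝ) + 4 / 5) * T ^ (7 / 40 : ℝ) = T ^ n * T ^ (39 / 40 : ℝ) := by
      rw [← Real.rpow_add hT0, ← Real.rpow_natCast, ← Real.rpow_add hT0]
      congr 1
      ring
    calc C3 * T ^ ((n : ℝ) + 4 / 5) * ((M : ℝ) * (2 * (M : ℝ) + 1) ^ 6)
        ≤ C3 * T ^ ((n : ℝ) + 4 / 5) * (729 * T ^ (7 / 40 : ℝ)) :=
          mul_le_mul_of_nonneg_left hpow (by positivity)
      _ = 729 * C3 * (T ^ ((n : ℝ) + 4 / 5) * T ^ (7 / 40 : ℝ)) := by ring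
      _ = T ^ n * (16 * 2 ^ n * 729 * C3 * T ^ (39 / 40 : ℝ)) / (16 * 2 ^ n) := by
          rw [r4]
          field_simp
      _ ≤ T ^ n * T / (16 * 2 ^ n) := by
          gcongr
      _ = _ := by rw [pow_succ]
  have q4 : T ^ (n + 1) / (8 * 2 ^ n) = T ^ (n + 1) / (16 * 2 ^ n) + T ^ (n + 1) / (16 * 2 ^ n) := by
    field_simp
    norm_num
  linarith

end LowMainAux

open LowMainAux

theorem low_main (n : ℕ) : ∃ c T₀ : ℝ, 0 < c ∧ 1 ≤ T₀ ∧ ∀ (T L : ℝ) (M : ℕ) (β : Fin (n + 1) → ℝ), T₀ ≤ T → 1 ≤ L →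
    L ≤ M → (M : ℝ) ≤ T ^ (1 / 40 : ℝ) → (∀ j, T ≤ β j) → (∀ j, β j ≤ 2 * T) →
    c * L * T ^ (n + 1) ≤ (∫ α in Set.Icc β (fun j => β j + T),
      (∫ t in (0:ℝ)..L, (((∏ j, ‖riemannZeta (1 / 2 + ((t + α j : ℝ) : ℂ) * I)‖ ^ 2 : ℝ) : ℂ) - Dg (fun j => t + α j))) *
        (starRingEnd ℂ) (Ys M (α 0))).re := by
  obtain ⟨T₀, hT₀, hfix⟩ := fixed_t n
  refine ⟨1 / (16 * 2 ^ n), T₀, by positivity, hT₀, ?_⟩
  intro T L M β hT hL hLM hMT hβ1 hβ2
  have hM1 : 1 ≤ M := by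
    have : (1 : ℝ) ≤ M := hL.trans hLM
    exact_mod_cast this
  have hT1 : 1 ≤ T := hT₀.trans hT
  set B : Set (Fin (n + 1) → ℝ) := Set.Icc β (fun j => β j + T) with hB
  have hcont : ContinuousOn (fun q : (Fin (n + 1) → ℝ) × ℝ =>
      (((∏ j, zs (q.2 + q.1 j) : ℝ) : ℂ) - Dg (fun j => q.2 + q.1 j)) *
        (starRingEnd ℂ) (Ys M (q.1 0))) (B ×ˢ Set.Icc 0 L) := by
    have h1 : Continuous (fun q : (Fin (n + 1) → ℝ) × ℝ =>
        ((∏ j, zs (q.2 + q.1 j) : ℝ) : ℂ)) := by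
      refine Complex.continuous_ofReal.comp (continuous_finsetProd _ fun j _ => ?_)
      exact zs_cont.comp (continuous_snd.add ((continuous_apply j).comp continuous_fst))
    have h2 : ContinuousOn (fun q : (Fin (n + 1) → ℝ) × ℝ => Dg (fun j => q.2 + q.1 j))
        (B ×ˢ Set.Icc 0 L) := by
      refine (Dg_continuousOn (n + 1)).comp
        (f := fun q : (Fin (n + 1) → ℝ) × ℝ => fun j => q.2 + q.1 j)
        (Continuous.continuousOn ?_) ?_
      · exact continuous_pi fun j => continuous_snd.add ((continuous_apply j).comp continuous_fst)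
      · rintro ⟨α, t⟩ ⟨hα, ht⟩ j
        have h3 := hα.1 j
        have h4 := hβ1 j
        have h5 := ht.1
        show 0 < t + α j
        simp only at h3 h5
        linarith
    have h3 : Continuous (fun q : (Fin (n + 1) → ℝ) × ℝ => (starRingEnd ℂ) (Ys M (q.1 0))) := by
      refine Complex.continuous_conj.comp ?_
      unfold Ys
      exact continuous_finsetSum _ fun m _ => (Cont_ex_continuous _).comp
        ((continuous_apply 0).comp continuous_fst)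
    exact (h1.continuousOn.sub h2).mul h3.continuousOn
  have hint : Integrable (Function.uncurry fun (α : Fin (n + 1) → ℝ) (t : ℝ) =>
      (((∏ j, zs (t + α j) : ℝ) : ℂ) - Dg (fun j => t + α j)) *
        (starRingEnd ℂ) (Ys M (α 0)))
      ((volume.restrict B).prod (volume.restrict (Set.Ioc 0 L))) := by
    rw [Measure.prod_restrict]
    have h1 := hcont.integrableOn_compact (μ := (volume : Measure (Fin (n + 1) → ℝ)).prod
      (volume : Measure ℝ)) (isCompact_Icc.prod isCompact_Icc)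
    exact h1.mono_set (Set.prod_mono le_rfl Set.Ioc_subset_Icc_self)
  have e1 : (∫ α in B, (∫ t in (0:ℝ)..L, (((∏ j, ‖riemannZeta (1 / 2 +
      ((t + α j : ℝ) : ℂ) * I)‖ ^ 2 : ℝ) : ℂ) - Dg (fun j => t + α j))) *
        (starRingEnd ℂ) (Ys M (α 0))) =
      ∫ t in Set.Ioc 0 L, ∫ α in B, (((∏ j, zs (t + α j) : ℝ) : ℂ) - Dg (fun j => t + α j)) *
        (starRingEnd ℂ) (Ys M (α 0)) := by
    rw [← integral_integral_swap hint]
    refine integral_congr_ae (Filter.Eventually.of_forall fun α => ?_)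
    simp only
    rw [intervalIntegral.integral_of_le (by linarith), ← integral_mul_const]
    rfl
  rw [e1]
  have hG := hint.integral_prod_right
  have e2 : (∫ t in Set.Ioc 0 L, ∫ α in B, (((∏ j, zs (t + α j) : ℝ) : ℂ) -
      Dg (fun j => t + α j)) * (starRingEnd ℂ) (Ys M (α 0))).re =
      ∫ t in Set.Ioc 0 L, (∫ α in B, (((∏ j, zs (t + α j) : ℝ) : ℂ) -
      Dg (fun j => t + α j)) * (starRingEnd ℂ) (Ys M (α 0))).re :=
    (Complex.reCLM.integral_comp_comm hG).symm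
  rw [e2]
  have e3 : 1 / (16 * 2 ^ n) * L * T ^ (n + 1) =
      ∫ _ in Set.Ioc 0 L, T ^ (n + 1) / (16 * 2 ^ n) := by
    rw [setIntegral_const, smul_eq_mul, Measure.real, Real.volume_Ioc,
      ENNReal.toReal_ofReal (by linarith)]
    ring
  rw [e3]
  refine setIntegral_mono_on (integrableOn_const (by simp)) ?_ measurableSet_Ioc ?_
  · exact Complex.reCLM.integrable_comp hG
  · intro t ht
    exact hfix T t M β hT ht.1.le (ht.2.trans hLM) hM1 hMT hβ1 hβ2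

end Pool.Agent.P07318s
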