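import Pool.Agent.Lib.P07318s.Defs
import Pool.Agent.Lib.P07318s.IntDefs
import Pool.Agent.Lib.P07318s.IntTwist
import Pool.Agent.Lib.P07318s.IntDg
import Pool.Agent.Lib.P07318s.LowMain

/-!
As `LowMain.lean` (proved), with the test function `PS m S`. Fubini: the integral is `∑_{x ∈ S} ∫_0^V (∏_j J_j(t) - D_x(t)) dt`, `J_j(t) = ∫_{β_j}^{β_j+T} ‖ζ(1/2+i(t+a))‖² conj(ex a (fr m x j)) da`,
`D_x(t) = ∫_box Dg · conj ∏ ex`. `twist_int`: `J_j = ex t (fr m x j) A_j + O(T^(1/2+δ))`, `T x_j^(-1/2) ≤ A_j ≤ C T^(1+δ) x_j^(-1/2)` (`Om_int`; `2π x_j ≤ T` for `T ≥ 50`), so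
`∏ J_j = exp(-i t lamx) ∏ A_j + O(T^(k-1/4+kδ) ∏ x_j^(-1/2))` (one factor `O(T^(1/2+δ)) ≤ T^(1/2+δ+1/4) x_j^(-1/2)`), `Re exp(-i t lamx) = cos(t lamx) ≥ cos 1 ≥ 1/2` as `|t lamx| ≤ V/V = 1`.
`low_dg_int`: `D_x = O(T^(k-1/4+δ) ∏ x_j^(-1/2))`. Take `δ = 1/(8(k+1))` and `T₀` large.
-/

set_option autoImplicit false

namespace Pool.Agent.P07318s

open MeasureTheory Complex

namespace IntMainAux

open LowMainAux

/-- difference of two products -/
theorem prod_diff {k : ℕ} (s : Finset (Fin k)) (a b : Fin k → ℂ) (w : Fin k → ℝ) (M e : ℝ)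
    (hM0 : 0 ≤ M) (he : 0 ≤ e) (hw : ∀ j, 0 ≤ w j) (ha : ∀ j, ‖a j‖ ≤ M * w j)
    (hb : ∀ j, ‖b j‖ ≤ M * w j) (hab : ∀ j, ‖a j - b j‖ ≤ e * w j) :
    M * ‖∏ j ∈ s, a j - ∏ j ∈ s, b j‖ ≤ s.card * e * M ^ s.card * ∏ j ∈ s, w j := by
  induction s using Finset.induction_on with
  | empty => simp
  | insert i s hi ih =>
    rw [Finset.prod_insert hi, Finset.prod_insert hi, Finset.prod_insert hi,
      Finset.card_insert_of_notMem hi]
    have hW : 0 ≤ ∏ j ∈ s, w j := Finset.prod_nonneg fun j _ => hw j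
    have hpb : ‖∏ j ∈ s, b j‖ ≤ M ^ s.card * ∏ j ∈ s, w j := by
      rw [norm_prod]
      calc ∏ j ∈ s, ‖b j‖ ≤ ∏ j ∈ s, (M * w j) :=
            Finset.prod_le_prod (fun _ _ => norm_nonneg _) (fun j _ => hb j)
        _ = _ := by rw [Finset.prod_mul_distrib, Finset.prod_const]
    have e1 : a i * ∏ j ∈ s, a j - b i * ∏ j ∈ s, b j =
        a i * (∏ j ∈ s, a j - ∏ j ∈ s, b j) + (a i - b i) * ∏ j ∈ s, b j := by ring
    rw [e1]
    have h0 : M * ‖a i * (∏ j ∈ s, a j - ∏ j ∈ s, b j) + (a i - b i) * ∏ j ∈ s, b j‖ ≤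
        ‖a i‖ * (M * ‖∏ j ∈ s, a j - ∏ j ∈ s, b j‖) + M * (‖a i - b i‖ * ‖∏ j ∈ s, b j‖) := by
      have h := mul_le_mul_of_nonneg_left
        (norm_add_le (a i * (∏ j ∈ s, a j - ∏ j ∈ s, b j)) ((a i - b i) * ∏ j ∈ s, b j)) hM0
      rw [norm_mul, norm_mul] at h
      linarith
    refine h0.trans ?_
    have h1 : ‖a i‖ * (M * ‖∏ j ∈ s, a j - ∏ j ∈ s, b j‖) ≤
        (M * w i) * (s.card * e * M ^ s.card * ∏ j ∈ s, w j) :=
      mul_le_mul (ha i) ih (mul_nonneg hM0 (norm_nonneg _)) (mul_nonneg hM0 (hw i))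
    have h2 : ‖a i - b i‖ * ‖∏ j ∈ s, b j‖ ≤ (e * w i) * (M ^ s.card * ∏ j ∈ s, w j) :=
      mul_le_mul (hab i) hpb (norm_nonneg _) (mul_nonneg he (hw i))
    calc _ ≤ (M * w i) * (s.card * e * M ^ s.card * ∏ j ∈ s, w j) +
          M * ((e * w i) * (M ^ s.card * ∏ j ∈ s, w j)) :=
          add_le_add h1 (mul_le_mul_of_nonneg_left h2 hM0)
      _ = _ := by
          push_cast
          ring

theorem box_prod' (k : ℕ) {T : ℝ} (t : ℝ) (hT : 0 ≤ T) (β : Fin k → ℝ) (p : Fin k → ℕ+ × ℕ+) :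
    ∫ α in Set.Icc β (fun j => β j + T), ((∏ j, zs (t + α j) : ℝ) : ℂ) *
      (starRingEnd ℂ) (∏ j, ex (α j) (p j)) =
    ∏ j, ∫ a in (β j)..(β j + T), ((zs (t + a) : ℝ) : ℂ) * (starRingEnd ℂ) (ex a (p j)) := by
  have e1 : ∀ α : Fin k → ℝ, ((∏ j, zs (t + α j) : ℝ) : ℂ) *
      (starRingEnd ℂ) (∏ j, ex (α j) (p j)) =
      ∏ j, (((zs (t + α j) : ℝ) : ℂ) * (starRingEnd ℂ) (ex (α j) (p j))) := by
    intro α
    rw [Finset.prod_mul_distrib, map_prod, Complex.ofReal_prod]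
  simp_rw [e1]
  rw [← Set.pi_univ_Icc, volume_pi, Measure.restrict_pi_pi,
    integral_fintype_prod_eq_prod (fun (j : Fin k) (x : ℝ) =>
      ((zs (t + x) : ℝ) : ℂ) * (starRingEnd ℂ) (ex x (p j)))]
  refine Finset.prod_congr rfl fun j _ => ?_
  rw [intervalIntegral.integral_of_le (by linarith), integral_Icc_eq_integral_Ioc]

theorem prod_ex {k : ℕ} (t : ℝ) (p : Fin k → ℕ+ × ℕ+) :
    ∏ j, ex t (p j) = Complex.exp (((-(t * lam p) : ℝ) : ℂ) * I) := by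
  unfold ex lam
  rw [← Complex.exp_sum]
  congr 1
  rw [← Finset.sum_mul]
  congr 1
  push_cast
  rw [Finset.mul_sum, ← Finset.sum_neg_distrib]

/-- the correlation with one frequency at a fixed time -/
theorem one_x (k : ℕ) : ∃ T₀ : ℝ, 1 ≤ T₀ ∧ ∀ (T t V : ℝ) (β : Fin k → ℝ) (m : ℕ)
    (x : Fin k → ℕ+), T₀ ≤ T → 1 ≤ V → 0 ≤ t → t ≤ V → V ≤ T →
    (∀ j, T ≤ β j) → (∀ j, β j ≤ 2 * T) → (∀ j, ((x j : ℕ) : ℝ) ≤ T ^ (1 / 2 : ℝ)) →
    lamx m x ≠ 0 → |lamx m x| ≤ 1 / V →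
    1 / 4 * T ^ k * ∏ j, ((x j : ℕ) : ℝ) ^ (-(1 / 2) : ℝ) ≤
      ((∫ α in Set.Icc β (fun j => β j + T), ((∏ j, zs (t + α j) : ℝ) : ℂ) *
        (starRingEnd ℂ) (∏ j, ex (α j) (fr m x j).1)) -
        ∫ α in Set.Icc β (fun j => β j + T), Dg (fun j => t + α j) *
          (starRingEnd ℂ) (∏ j, ex (α j) (fr m x j).1)).re := by
  set δ : ℝ := 1 / (8 * ((k : ℝ) + 1)) with hδ
  have hk0 : (0 : ℝ) ≤ k := Nat.cast_nonneg k
  have hδ0 : 0 < δ := by positivity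
  have hδ8 : δ ≤ 1 / 8 := by
    rw [hδ]
    apply one_div_le_one_div_of_le (by norm_num)
    linarith
  have hkδ : k * δ ≤ 1 / 8 := by
    rw [hδ, mul_one_div, div_le_iff₀ (by positivity)]
    linarith
  obtain ⟨C1, hC1, h1⟩ := twist_int δ hδ0 (by linarith)
  obtain ⟨C2, hC2, h2⟩ := Om_int δ hδ0 (by linarith)
  obtain ⟨C3, hC3, h3⟩ := low_dg_int k δ hδ0
  set M0 : ℝ := C1 + C2 + 1 with hM0
  set K : ℝ := k * C1 * M0 ^ k + C3 with hK
  obtain ⟨T1, hT1, g1⟩ := growth (4 * K) (7 / 8) (by norm_num)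
  obtain ⟨T2, hT2, g2⟩ := growth (2 * Real.pi) (1 / 2) (by norm_num)
  refine ⟨max T1 T2, le_max_of_le_left hT1, ?_⟩
  intro T t V β m x hT hV ht0 htV hVT hβ1 hβ2 hx hl0 hlV
  have k1 := g1 T ((le_max_left _ _).trans hT)
  have k2 := g2 T ((le_max_right _ _).trans hT)
  have hT1' : 1 ≤ T := hT1.trans ((le_max_left _ _).trans hT)
  have hT0 : 0 < T := by linarith
  have htT : t ≤ T := htV.trans hVT
  have hx1 : ∀ j, (1 : ℝ) ≤ ((x j : ℕ) : ℝ) := fun j => by exact_mod_cast (x j).pos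
  -- notation
  set w : Fin k → ℝ := fun j => ((x j : ℕ) : ℝ) ^ (-(1 / 2) : ℝ) with hw
  have hw0 : ∀ j, 0 < w j := fun j => by
    have := hx1 j
    rw [hw]
    positivity
  set J : Fin k → ℂ := fun j => ∫ a in (β j)..(β j + T), ((zs (t + a) : ℝ) : ℂ) *
    (starRingEnd ℂ) (ex a (fr m x j).1) with hJ
  set A : Fin k → ℝ := fun j => w j * ∫ a in (β j)..(β j + T), Om ((x j : ℕ) : ℝ) (t + a) with hA
  set Bc : Fin k → ℂ := fun j => ex t (fr m x j).1 * (A j : ℂ) with hBc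
  have hJB : ∀ j, ‖J j - Bc j‖ ≤ C1 * T ^ (1 / 2 + δ) := by
    intro j
    exact h1 T (β j) t hT1' (hβ1 j) (hβ2 j) ht0 htT (decide ((j : ℕ) < m)) (x j)
  have hOm : ∀ j, (∫ a in (β j)..(β j + T), Om ((x j : ℕ) : ℝ) (t + a)) ≤ C2 * T ^ (1 + δ) ∧
      T ≤ ∫ a in (β j)..(β j + T), Om ((x j : ℕ) : ℝ) (t + a) := by
    intro j
    have h4 := h2 T (β j) t hT1' (hβ1 j) (hβ2 j) ht0 htT ((x j : ℕ) : ℝ) (hx1 j)
    refine ⟨h4.1, h4.2.2 ?_⟩
    refine le_trans ?_ k2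
    exact mul_le_mul_of_nonneg_left (hx j) (by positivity)
  have hAlo : ∀ j, T * w j ≤ A j := by
    intro j
    rw [mul_comm T]
    exact mul_le_mul_of_nonneg_left (hOm j).2 (hw0 j).le
  have hA0 : ∀ j, 0 ≤ A j := fun j => le_trans (mul_nonneg hT0.le (hw0 j).le) (hAlo j)
  have hAhi : ∀ j, A j ≤ C2 * T ^ (1 + δ) * w j := by
    intro j
    rw [mul_comm (C2 * T ^ (1 + δ))]
    exact mul_le_mul_of_nonneg_left (hOm j).1 (hw0 j).le
  have hTδ : 0 < T ^ (1 + δ) := Real.rpow_pos_of_pos hT0 _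
  -- the error of one factor
  have herr : ∀ j, ‖J j - Bc j‖ ≤ (C1 * T ^ (3 / 4 + δ)) * w j := by
    intro j
    refine (hJB j).trans ?_
    have h4 : T ^ (-(1 / 4) : ℝ) ≤ w j := by
      have e : T ^ (-(1 / 4) : ℝ) = (T ^ (1 / 2 : ℝ)) ^ (-(1 / 2) : ℝ) := by
        rw [← Real.rpow_mul hT0.le]; norm_num
      rw [e]
      exact Real.rpow_le_rpow_of_nonpos (by linarith [hx1 j]) (hx j) (by norm_num)
    have e : T ^ (1 / 2 + δ) = T ^ (3 / 4 + δ) * T ^ (-(1 / 4) : ℝ) := by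
      rw [← Real.rpow_add hT0]; congr 1; ring
    rw [e]
    have h5 : 0 ≤ C1 * T ^ (3 / 4 + δ) := by positivity
    calc C1 * (T ^ (3 / 4 + δ) * T ^ (-(1 / 4) : ℝ)) =
          C1 * T ^ (3 / 4 + δ) * T ^ (-(1 / 4) : ℝ) := by ring
      _ ≤ _ := mul_le_mul_of_nonneg_left h4 h5
  have hnB : ∀ j, ‖Bc j‖ = A j := by
    intro j
    rw [hBc]
    simp only
    rw [norm_mul, norm_ex, one_mul, Complex.norm_real, Real.norm_eq_abs, abs_of_nonneg (hA0 j)]
  set MM : ℝ := M0 * T ^ (1 + δ) with hMM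
  have hT341 : T ^ (3 / 4 + δ) ≤ T ^ (1 + δ) :=
    Real.rpow_le_rpow_of_exponent_le hT1' (by linarith)
  have hT1δ : 1 ≤ T ^ (1 + δ) := Real.one_le_rpow hT1' (by linarith)
  have hMM1 : T ≤ MM := by
    have h4 : T ≤ T ^ (1 + δ) := by
      calc T = T ^ (1 : ℝ) := (Real.rpow_one T).symm
        _ ≤ _ := Real.rpow_le_rpow_of_exponent_le hT1' (by linarith)
    rw [hMM, hM0]
    nlinarith
  have hMM0 : 0 ≤ MM := hT0.le.trans hMM1
  have hB' : ∀ j, ‖Bc j‖ ≤ MM * w j := by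
    intro j
    rw [hnB]
    refine (hAhi j).trans ?_
    apply mul_le_mul_of_nonneg_right _ (hw0 j).le
    rw [hMM, hM0]
    nlinarith
  have hJ' : ∀ j, ‖J j‖ ≤ MM * w j := by
    intro j
    have h4 : ‖J j‖ ≤ ‖Bc j‖ + ‖J j - Bc j‖ := by
      have := norm_add_le (Bc j) (J j - Bc j)
      rwa [add_sub_cancel] at this
    refine h4.trans ?_
    have h5 := herr j
    have h6 := hAhi j
    rw [← hnB j] at h6
    have h7 : C2 * T ^ (1 + δ) * w j + C1 * T ^ (3 / 4 + δ) * w j ≤ MM * w j := by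
      rw [← add_mul]
      apply mul_le_mul_of_nonneg_right _ (hw0 j).le
      rw [hMM, hM0]
      nlinarith [mul_le_mul_of_nonneg_left hT341 hC1.le]
    linarith
  have hdiff := prod_diff (Finset.univ : Finset (Fin k)) J Bc w MM (C1 * T ^ (3 / 4 + δ)) hMM0
    (by positivity) (fun j => (hw0 j).le) hJ' hB' herr
  rw [Finset.card_univ, Fintype.card_fin] at hdiff
  -- the main term
  have hprodB : ∏ j, Bc j = Complex.exp (((-(t * lamx m x) : ℝ) : ℂ) * I) *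
      ((∏ j, A j : ℝ) : ℂ) := by
    rw [hBc]
    simp only
    rw [Finset.prod_mul_distrib, prod_ex, Complex.ofReal_prod]
    rfl
  have hW0 : 0 < ∏ j, w j := Finset.prod_pos fun j _ => hw0 j
  have hprodA : T ^ k * ∏ j, w j ≤ ∏ j, A j := by
    have e : T ^ k * ∏ j, w j = ∏ j, (T * w j) := by
      rw [Finset.prod_mul_distrib, Finset.prod_const, Finset.card_univ, Fintype.card_fin]
    rw [e]
    exact Finset.prod_le_prod (fun j _ => mul_nonneg hT0.le (hw0 j).le) (fun j _ => hAlo j)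
  have hcos : (1 : ℝ) / 2 ≤ Real.cos (t * lamx m x) := by
    have h4 := Real.one_sub_sq_div_two_le_cos (x := t * lamx m x)
    have h5 : |t * lamx m x| ≤ 1 := by
      rw [abs_mul, abs_of_nonneg ht0]
      calc t * |lamx m x| ≤ V * (1 / V) := mul_le_mul htV hlV (abs_nonneg _) (by linarith)
        _ = 1 := by field_simp
    have h6 := (abs_le.1 h5)
    nlinarith
  have hmain : 1 / 2 * (T ^ k * ∏ j, w j) ≤ (∏ j, Bc j).re := by
    rw [hprodB, Complex.re_mul_ofReal, Complex.exp_ofReal_mul_I_re, Real.cos_neg]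
    exact mul_le_mul hcos hprodA (mul_nonneg (by positivity) hW0.le) (by linarith)
  -- the diagonal
  have hdg := h3 T t β hT1' hβ1 hβ2 ht0 htT m x hx hl0
  rw [Complex.sub_re, box_prod' k t hT0.le β (fun j => (fr m x j).1)]
  have h7 := (abs_le.1 ((Complex.abs_re_le_norm _).trans hdg)).2
  have h8 : (∏ j, Bc j).re - ‖∏ j, J j - ∏ j, Bc j‖ ≤ (∏ j, J j).re := by
    have h9 := (abs_le.1 (Complex.abs_re_le_norm (∏ j, J j - ∏ j, Bc j))).1
    rw [Complex.sub_re] at h9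
    linarith
  -- numerical part
  have hkδ' : (k : ℝ) * δ + δ = 1 / 8 := by
    rw [hδ]
    field_simp
  have n0 : (k : ℝ) * (C1 * T ^ (3 / 4 + δ)) * MM ^ k = k * C1 * M0 ^ k * (T ^ k * T ^ (7 / 8 : ℝ)) := by
    have e2 : T ^ (3 / 4 + δ) * (T ^ (1 + δ)) ^ k = T ^ k * T ^ (7 / 8 : ℝ) := by
      rw [← Real.rpow_natCast (T ^ (1 + δ)) k, ← Real.rpow_mul hT0.le, ← Real.rpow_natCast T k,
        ← Real.rpow_add hT0, ← Real.rpow_add hT0]
      congr 1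
      linarith
    rw [hMM, mul_pow]
    calc (k : ℝ) * (C1 * T ^ (3 / 4 + δ)) * (M0 ^ k * (T ^ (1 + δ)) ^ k) =
          k * C1 * M0 ^ k * (T ^ (3 / 4 + δ) * (T ^ (1 + δ)) ^ k) := by ring
      _ = _ := by rw [e2]
  have n1 : T * ‖∏ j, J j - ∏ j, Bc j‖ ≤ k * C1 * M0 ^ k * (T ^ k * T ^ (7 / 8 : ℝ)) * ∏ j, w j := by
    rw [← n0]
    exact (mul_le_mul_of_nonneg_right hMM1 (norm_nonneg _)).trans hdiff
  have n2 : T * (C3 * T ^ ((k : ℝ) - 1 / 4 + δ) * ∏ j, w j) ≤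
      C3 * (T ^ k * T ^ (7 / 8 : ℝ)) * ∏ j, w j := by
    have e2 : T * T ^ ((k : ℝ) - 1 / 4 + δ) ≤ T ^ k * T ^ (7 / 8 : ℝ) := by
      have e3 : T * T ^ ((k : ℝ) - 1 / 4 + δ) = T ^ ((k : ℝ) + 3 / 4 + δ) := by
        nth_rewrite 1 [← Real.rpow_one T]
        rw [← Real.rpow_add hT0]
        congr 1
        ring
      rw [e3, ← Real.rpow_natCast T k, ← Real.rpow_add hT0]
      exact Real.rpow_le_rpow_of_exponent_le hT1' (by linarith)
    calc T * (C3 * T ^ ((k : ℝ) - 1 / 4 + δ) * ∏ j, w j) =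
          C3 * (T * T ^ ((k : ℝ) - 1 / 4 + δ)) * ∏ j, w j := by ring
      _ ≤ _ := mul_le_mul_of_nonneg_right (mul_le_mul_of_nonneg_left e2 hC3.le) hW0.le
  have n3 : (k * C1 * M0 ^ k * (T ^ k * T ^ (7 / 8 : ℝ)) + C3 * (T ^ k * T ^ (7 / 8 : ℝ))) * ∏ j, w j ≤
      T * (1 / 4 * (T ^ k * ∏ j, w j)) := by
    have e2 : (k * C1 * M0 ^ k * (T ^ k * T ^ (7 / 8 : ℝ)) + C3 * (T ^ k * T ^ (7 / 8 : ℝ))) * ∏ j, w j =
        1 / 4 * (4 * K * T ^ (7 / 8 : ℝ)) * (T ^ k * ∏ j, w j) := by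
      rw [hK]
      ring
    rw [e2]
    have e3 : 0 ≤ T ^ k * ∏ j, w j := mul_nonneg (by positivity) hW0.le
    calc 1 / 4 * (4 * K * T ^ (7 / 8 : ℝ)) * (T ^ k * ∏ j, w j) ≤
          1 / 4 * T * (T ^ k * ∏ j, w j) :=
          mul_le_mul_of_nonneg_right (mul_le_mul_of_nonneg_left k1 (by norm_num)) e3
      _ = _ := by ring
  have n4 : T * (‖∏ j, J j - ∏ j, Bc j‖ + C3 * T ^ ((k : ℝ) - 1 / 4 + δ) * ∏ j, w j) ≤
      T * (1 / 4 * (T ^ k * ∏ j, w j)) := by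
    rw [mul_add]
    linarith
  have n5 := le_of_mul_le_mul_left n4 hT0
  have n6 : 1 / 4 * T ^ k * ∏ j, w j = 1 / 4 * (T ^ k * ∏ j, w j) := by ring
  rw [n6]
  linarith

end IntMainAux

open IntMainAux LowMainAux

theorem low_main_int (k : ℕ) : ∃ T₀ : ℝ, 1 ≤ T₀ ∧ ∀ (T V : ℝ) (β : Fin k → ℝ) (m : ℕ) (S : Finset (Fin k → ℕ+)),
    T₀ ≤ T → 1 ≤ V → V ≤ T → (∀ j, T ≤ β j) → (∀ j, β j ≤ 2 * T) →
    (∀ x ∈ S, ∀ j, ((x j : ℕ) : ℝ) ≤ T ^ (1 / 2 : ℝ)) → (∀ x ∈ S, lamx m x ≠ 0 ∧ |lamx m x| ≤ 1 / V) →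
    1 / 4 * V * T ^ k * ∑ x ∈ S, ∏ j, ((x j : ℕ) : ℝ) ^ (-(1 / 2) : ℝ) ≤
      (∫ α in Set.Icc β (fun j => β j + T),
        (∫ t in (0:ℝ)..V, (((∏ j, ‖riemannZeta (1 / 2 + ((t + α j : ℝ) : ℂ) * I)‖ ^ 2 : ℝ) : ℂ) - Dg (fun j => t + α j))) *
          (starRingEnd ℂ) (PS m S α)).re := by
  obtain ⟨T₀, hT₀, hone⟩ := one_x k
  refine ⟨T₀, hT₀, ?_⟩
  intro T V β m S hT hV hVT hβ1 hβ2 hS1 hS2
  have hT1 : 1 ≤ T := hT₀.trans hT
  set B : Set (Fin k → ℝ) := Set.Icc β (fun j => β j + T) with hB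
  have hPc : Continuous (fun α : Fin k → ℝ => (starRingEnd ℂ) (PS m S α)) := by
    refine Complex.continuous_conj.comp ?_
    unfold PS
    exact continuous_finsetSum _ fun x _ => continuous_finsetProd _ fun j _ =>
      (Cont_ex_continuous _).comp (continuous_apply j)
  have hcont : ContinuousOn (fun q : (Fin k → ℝ) × ℝ =>
      (((∏ j, zs (q.2 + q.1 j) : ℝ) : ℂ) - Dg (fun j => q.2 + q.1 j)) *
        (starRingEnd ℂ) (PS m S q.1)) (B ×ˢ Set.Icc 0 V) := by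
    have h1 : Continuous (fun q : (Fin k → ℝ) × ℝ =>
        ((∏ j, zs (q.2 + q.1 j) : ℝ) : ℂ)) := by
      refine Complex.continuous_ofReal.comp (continuous_finsetProd _ fun j _ => ?_)
      exact zs_cont.comp (continuous_snd.add ((continuous_apply j).comp continuous_fst))
    have h2 : ContinuousOn (fun q : (Fin k → ℝ) × ℝ => Dg (fun j => q.2 + q.1 j))
        (B ×ˢ Set.Icc 0 V) := by
      refine (Dg_continuousOn k).comp
        (f := fun q : (Fin k → ℝ) × ℝ => fun j => q.2 + q.1 j)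
        (Continuous.continuousOn ?_) ?_
      · exact continuous_pi fun j => continuous_snd.add ((continuous_apply j).comp continuous_fst)
      · rintro ⟨α, t⟩ ⟨hα, ht⟩ j
        have h3 := hα.1 j
        have h4 := hβ1 j
        have h5 := ht.1
        show 0 < t + α j
        simp only at h3 h5
        linarith
    have h3 : Continuous (fun q : (Fin k → ℝ) × ℝ => (starRingEnd ℂ) (PS m S q.1)) :=
      hPc.comp continuous_fst
    exact (h1.continuousOn.sub h2).mul h3.continuousOn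
  have hint : Integrable (Function.uncurry fun (α : Fin k → ℝ) (t : ℝ) =>
      (((∏ j, zs (t + α j) : ℝ) : ℂ) - Dg (fun j => t + α j)) *
        (starRingEnd ℂ) (PS m S α))
      ((volume.restrict B).prod (volume.restrict (Set.Ioc 0 V))) := by
    rw [Measure.prod_restrict]
    have h1 := hcont.integrableOn_compact (μ := (volume : Measure (Fin k → ℝ)).prod
      (volume : Measure ℝ)) (isCompact_Icc.prod isCompact_Icc)
    exact h1.mono_set (Set.prod_mono le_rfl Set.Ioc_subset_Icc_self)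
  have e1 : (∫ α in B, (∫ t in (0:ℝ)..V, (((∏ j, ‖riemannZeta (1 / 2 +
      ((t + α j : ℝ) : ℂ) * I)‖ ^ 2 : ℝ) : ℂ) - Dg (fun j => t + α j))) *
        (starRingEnd ℂ) (PS m S α)) =
      ∫ t in Set.Ioc 0 V, ∫ α in B, (((∏ j, zs (t + α j) : ℝ) : ℂ) - Dg (fun j => t + α j)) *
        (starRingEnd ℂ) (PS m S α) := by
    rw [← integral_integral_swap hint]
    refine integral_congr_ae (Filter.Eventually.of_forall fun α => ?_)
    simp only
    rw [intervalIntegral.integral_of_le (by linarith), ← integral_mul_const]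
    rfl
  rw [e1]
  have hG := hint.integral_prod_right
  have e2 : (∫ t in Set.Ioc 0 V, ∫ α in B, (((∏ j, zs (t + α j) : ℝ) : ℂ) -
      Dg (fun j => t + α j)) * (starRingEnd ℂ) (PS m S α)).re =
      ∫ t in Set.Ioc 0 V, (∫ α in B, (((∏ j, zs (t + α j) : ℝ) : ℂ) -
      Dg (fun j => t + α j)) * (starRingEnd ℂ) (PS m S α)).re :=
    (Complex.reCLM.integral_comp_comm hG).symm
  rw [e2]
  have e3 : 1 / 4 * V * T ^ k * ∑ x ∈ S, ∏ j, ((x j : ℕ) : ℝ) ^ (-(1 / 2) : ℝ) =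
      ∫ _ in Set.Ioc 0 V, ∑ x ∈ S, 1 / 4 * T ^ k * ∏ j, ((x j : ℕ) : ℝ) ^ (-(1 / 2) : ℝ) := by
    rw [setIntegral_const, smul_eq_mul, Measure.real, Real.volume_Ioc,
      ENNReal.toReal_ofReal (by linarith), ← Finset.mul_sum]
    ring
  rw [e3]
  refine setIntegral_mono_on (integrableOn_const (by simp)) ?_ measurableSet_Ioc ?_
  · exact Complex.reCLM.integrable_comp hG
  · intro t ht
    have ht0 : 0 ≤ t := ht.1.le
    have hBpos : ∀ α ∈ B, ∀ j, 0 < t + α j := by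
      intro α hα j
      have h1 := hα.1 j
      have h2 := hβ1 j
      linarith
    have hexc : ∀ x : Fin k → ℕ+, Continuous (fun α : Fin k → ℝ =>
        (starRingEnd ℂ) (∏ j, ex (α j) (fr m x j).1)) := fun x =>
      Complex.continuous_conj.comp (continuous_finsetProd _ fun j _ =>
        (Cont_ex_continuous _).comp (continuous_apply j))
    have hZc : Continuous (fun α : Fin k → ℝ => ((∏ j, zs (t + α j) : ℝ) : ℂ)) := by
      refine Complex.continuous_ofReal.comp (continuous_finsetProd _ fun j _ => ?_)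
      exact zs_cont.comp (continuous_const.add (continuous_apply j))
    have hDc : ContinuousOn (fun α : Fin k → ℝ => Dg (fun j => t + α j)) B := by
      refine (Dg_continuousOn k).comp (f := fun α : Fin k → ℝ => fun j => t + α j)
        (Continuous.continuousOn (by fun_prop)) ?_
      intro α hα
      exact hBpos α hα
    have hZi : ∀ x : Fin k → ℕ+, IntegrableOn (fun α : Fin k → ℝ => ((∏ j, zs (t + α j) : ℝ) : ℂ) *
        (starRingEnd ℂ) (∏ j, ex (α j) (fr m x j).1)) B := fun x =>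
      ((hZc.mul (hexc x)).continuousOn).integrableOn_compact isCompact_Icc
    have hDi : ∀ x : Fin k → ℕ+, IntegrableOn (fun α : Fin k → ℝ => Dg (fun j => t + α j) *
        (starRingEnd ℂ) (∏ j, ex (α j) (fr m x j).1)) B := fun x =>
      (hDc.mul (hexc x).continuousOn).integrableOn_compact isCompact_Icc
    have hsplit : ∫ α in B, (((∏ j, zs (t + α j) : ℝ) : ℂ) - Dg (fun j => t + α j)) *
          (starRingEnd ℂ) (PS m S α) =
        ∑ x ∈ S, ((∫ α in B, ((∏ j, zs (t + α j) : ℝ) : ℂ) *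
          (starRingEnd ℂ) (∏ j, ex (α j) (fr m x j).1)) -
          ∫ α in B, Dg (fun j => t + α j) * (starRingEnd ℂ) (∏ j, ex (α j) (fr m x j).1)) := by
      have e4 : (fun α : Fin k → ℝ => (((∏ j, zs (t + α j) : ℝ) : ℂ) -
          Dg (fun j => t + α j)) * (starRingEnd ℂ) (PS m S α)) =
          fun α => ∑ x ∈ S, (((∏ j, zs (t + α j) : ℝ) : ℂ) *
          (starRingEnd ℂ) (∏ j, ex (α j) (fr m x j).1) -
          Dg (fun j => t + α j) * (starRingEnd ℂ) (∏ j, ex (α j) (fr m x j).1)) := by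
        funext α
        unfold PS
        rw [map_sum, Finset.mul_sum]
        refine Finset.sum_congr rfl fun x _ => ?_
        ring
      have hi : ∀ x ∈ S, Integrable (fun α : Fin k → ℝ =>
          ((∏ j, zs (t + α j) : ℝ) : ℂ) * (starRingEnd ℂ) (∏ j, ex (α j) (fr m x j).1) -
          Dg (fun j => t + α j) * (starRingEnd ℂ) (∏ j, ex (α j) (fr m x j).1))
          (volume.restrict B) :=
        fun x _ => (hZi x).sub (hDi x)
      rw [e4, integral_finsetSum _ hi]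
      refine Finset.sum_congr rfl fun x _ => ?_
      exact integral_sub (hZi x) (hDi x)
    rw [hsplit, Complex.re_sum]
    refine Finset.sum_le_sum fun x hx => ?_
    exact hone T t V β m x hT hV ht0 ht.2 hVT hβ1 hβ2 (hS1 x hx) (hS2 x hx).1 (hS2 x hx).2

end Pool.Agent.P07318s
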