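import Pool.Agent.Lib.P07318s.Defs
import Pool.Agent.Lib.P07318s.IntDefs
import Pool.Agent.Lib.P07318s.HiDefs
import Pool.Agent.Lib.P07318s.HiDg
import Pool.Agent.Lib.P07318s.IntMain
import Pool.Agent.Lib.P07318s.IntTwist
import Pool.Agent.Lib.P07318s.IntDg
import Pool.Agent.Lib.P07318s.LowMain

/-!
As `IntMain.lean`, with any signs, for frequencies up to `T^(1-η)`.
-/

set_option autoImplicit false

namespace Pool.Agent.P07318s

open MeasureTheory Complex

namespace HiMainAux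

open LowMainAux IntMainAux

/-- the correlation with one frequency at a fixed time -/
theorem one_x (k : ℕ) (η : ℝ) (hη : 0 < η) (hη1 : η ≤ 1 / 2) : ∃ T₀ : ℝ, 1 ≤ T₀ ∧ ∀ (T t V : ℝ) (β : Fin k → ℝ) (σ : Fin k → Bool)
    (x : Fin k → ℕ+), T₀ ≤ T → 1 ≤ V → 0 ≤ t → t ≤ V → V ≤ T →
    (∀ j, T ≤ β j) → (∀ j, β j ≤ 2 * T) → (∀ j, ((x j : ℕ) : ℝ) ≤ T ^ (1 - η)) →
    lams σ x ≠ 0 → |lams σ x| ≤ 1 / V →
    1 / 4 * T ^ k * ∏ j, ((x j : ℕ) : ℝ) ^ (-(1 / 2) : ℝ) ≤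
      ((∫ α in Set.Icc β (fun j => β j + T), ((∏ j, zs (t + α j) : ℝ) : ℂ) *
        (starRingEnd ℂ) (∏ j, ex (α j) (frs σ x j).1)) -
        ∫ α in Set.Icc β (fun j => β j + T), Dg (fun j => t + α j) *
          (starRingEnd ℂ) (∏ j, ex (α j) (frs σ x j).1)).re := by
  set δ : ℝ := η / (4 * ((k : ℝ) + 1)) with hδ
  have hk0 : (0 : ℝ) ≤ k := Nat.cast_nonneg k
  have hδ0 : 0 < δ := by positivity
  have hkδ' : (k : ℝ) * δ + δ = η / 4 := by
    rw [hδ]
    field_simp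
  have hkδ0 : 0 ≤ (k : ℝ) * δ := by positivity
  have hδ8 : δ ≤ 1 / 8 := by linarith
  obtain ⟨C1, hC1, h1⟩ := twist_int δ hδ0 (by linarith)
  obtain ⟨C2, hC2, h2⟩ := Om_int δ hδ0 (by linarith)
  obtain ⟨C3, hC3, h3⟩ := low_dg_hi k η δ hη hδ0
  set M0 : ℝ := C1 + C2 + 1 with hM0
  set K : ℝ := k * C1 * M0 ^ k + C3 with hK
  obtain ⟨T1, hT1, g1⟩ := growth (4 * K) (1 - η / 4) (by linarith)
  obtain ⟨T2, hT2, g2⟩ := growth (2 * Real.pi) (1 - η) (by linarith)
  refine ⟨max T1 T2, le_max_of_le_left hT1, ?_⟩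
  intro T t V β σ x hT hV ht0 htV hVT hβ1 hβ2 hx hl0 hlV
  have k1 := g1 T ((le_max_left _ _).trans hT)
  have k2 := g2 T ((le_max_right _ _).trans hT)
  have hT1' : 1 ≤ T := hT1.trans ((le_max_left _ _).trans hT)
  have hT0 : 0 < T := by linarith
  have htT : t ≤ T := htV.trans hVT
  have hx1 : ∀ j, (1 : ℝ) ≤ ((x j : ℕ) : ℝ) := fun j => by exact_mod_cast (x j).pos
  -- notation
  set w : Fin k → ℝ := fun j => ((x j : ℕ) : ℝ) ^ (-(1 / 2) : ℝ) with hw
  have hw0 : ∀ j, 0 < w j := fun j => by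
    have := hx1 j
    rw [hw]
    positivity
  set J : Fin k → ℂ := fun j => ∫ a in (β j)..(β j + T), ((zs (t + a) : ℝ) : ℂ) *
    (starRingEnd ℂ) (ex a (frs σ x j).1) with hJ
  set A : Fin k → ℝ := fun j => w j * ∫ a in (β j)..(β j + T), Om ((x j : ℕ) : ℝ) (t + a) with hA
  set Bc : Fin k → ℂ := fun j => ex t (frs σ x j).1 * (A j : ℂ) with hBc
  have hJB : ∀ j, ‖J j - Bc j‖ ≤ C1 * T ^ (1 / 2 + δ) := by
    intro j
    exact h1 T (β j) t hT1' (hβ1 j) (hβ2 j) ht0 htT (σ j) (x j)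
  have hOm : ∀ j, (∫ a in (β j)..(β j + T), Om ((x j : ℕ) : ℝ) (t + a)) ≤ C2 * T ^ (1 + δ) ∧
      T ≤ ∫ a in (β j)..(β j + T), Om ((x j : ℕ) : ℝ) (t + a) := by
    intro j
    have h4 := h2 T (β j) t hT1' (hβ1 j) (hβ2 j) ht0 htT ((x j : ℕ) : ℝ) (hx1 j)
    refine ⟨h4.1, h4.2.2 ?_⟩
    refine le_trans ?_ k2
    exact mul_le_mul_of_nonneg_left (hx j) (by positivity)
  have hAlo : ∀ j, T * w j ≤ A j := by
    intro j
    rw [mul_comm T]
    exact mul_le_mul_of_nonneg_left (hOm j).2 (hw0 j).le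
  have hA0 : ∀ j, 0 ≤ A j := fun j => le_trans (mul_nonneg hT0.le (hw0 j).le) (hAlo j)
  have hAhi : ∀ j, A j ≤ C2 * T ^ (1 + δ) * w j := by
    intro j
    rw [mul_comm (C2 * T ^ (1 + δ))]
    exact mul_le_mul_of_nonneg_left (hOm j).1 (hw0 j).le
  have hTδ : 0 < T ^ (1 + δ) := Real.rpow_pos_of_pos hT0 _
  -- the error of one factor
  have herr : ∀ j, ‖J j - Bc j‖ ≤ (C1 * T ^ (1 - η / 2 + δ)) * w j := by
    intro j
    refine (hJB j).trans ?_
    have h4 : T ^ (-((1 - η) / 2)) ≤ w j := by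
      have e : T ^ (-((1 - η) / 2)) = (T ^ (1 - η)) ^ (-(1 / 2) : ℝ) := by
        rw [← Real.rpow_mul hT0.le]; congr 1; ring
      rw [e]
      exact Real.rpow_le_rpow_of_nonpos (by linarith [hx1 j]) (hx j) (by norm_num)
    have e : T ^ (1 / 2 + δ) = T ^ (1 - η / 2 + δ) * T ^ (-((1 - η) / 2)) := by
      rw [← Real.rpow_add hT0]; congr 1; ring
    rw [e]
    have h5 : 0 ≤ C1 * T ^ (1 - η / 2 + δ) := by positivity
    calc C1 * (T ^ (1 - η / 2 + δ) * T ^ (-((1 - η) / 2))) =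
          C1 * T ^ (1 - η / 2 + δ) * T ^ (-((1 - η) / 2)) := by ring
      _ ≤ _ := mul_le_mul_of_nonneg_left h4 h5
  have hnB : ∀ j, ‖Bc j‖ = A j := by
    intro j
    rw [hBc]
    simp only
    rw [norm_mul, norm_ex, one_mul, Complex.norm_real, Real.norm_eq_abs, abs_of_nonneg (hA0 j)]
  set MM : ℝ := M0 * T ^ (1 + δ) with hMM
  have hT341 : T ^ (1 - η / 2 + δ) ≤ T ^ (1 + δ) :=
    Real.rpow_le_rpow_of_exponent_le hT1' (by linarith)
  have hT1δ : 1 ≤ T ^ (1 + δ) := Real.one_le_rpow hT1' (by linarith)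
  have hMM1 : T ≤ MM := by
    have h4 : T ≤ T ^ (1 + δ) := by
      calc T = T ^ (1 : ℝ) := (Real.rpow_one T).symm
        _ ≤ _ := Real.rpow_le_rpow_of_exponent_le hT1' (by linarith)
    rw [hMM, hM0]
    nlinarith
  have hMM0 : 0 ≤ MM := hT0.le.trans hMM1
  have hB' : ∀ j, ‖Bc j‖ ≤ MM * w j := by
    intro j
    rw [hnB]
    refine (hAhi j).trans ?_
    apply mul_le_mul_of_nonneg_right _ (hw0 j).le
    rw [hMM, hM0]
    nlinarith
  have hJ' : ∀ j, ‖J j‖ ≤ MM * w j := by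
    intro j
    have h4 : ‖J j‖ ≤ ‖Bc j‖ + ‖J j - Bc j‖ := by
      have := norm_add_le (Bc j) (J j - Bc j)
      rwa [add_sub_cancel] at this
    refine h4.trans ?_
    have h5 := herr j
    have h6 := hAhi j
    rw [← hnB j] at h6
    have h7 : C2 * T ^ (1 + δ) * w j + C1 * T ^ (1 - η / 2 + δ) * w j ≤ MM * w j := by
      rw [← add_mul]
      apply mul_le_mul_of_nonneg_right _ (hw0 j).le
      rw [hMM, hM0]
      nlinarith [mul_le_mul_of_nonneg_left hT341 hC1.le]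
    linarith
  have hdiff := prod_diff (Finset.univ : Finset (Fin k)) J Bc w MM (C1 * T ^ (1 - η / 2 + δ)) hMM0
    (by positivity) (fun j => (hw0 j).le) hJ' hB' herr
  rw [Finset.card_univ, Fintype.card_fin] at hdiff
  -- the main term
  have hprodB : ∏ j, Bc j = Complex.exp (((-(t * lams σ x) : ℝ) : ℂ) * I) *
      ((∏ j, A j : ℝ) : ℂ) := by
    rw [hBc]
    simp only
    rw [Finset.prod_mul_distrib, prod_ex, Complex.ofReal_prod]
    rfl
  have hW0 : 0 < ∏ j, w j := Finset.prod_pos fun j _ => hw0 j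
  have hprodA : T ^ k * ∏ j, w j ≤ ∏ j, A j := by
    have e : T ^ k * ∏ j, w j = ∏ j, (T * w j) := by
      rw [Finset.prod_mul_distrib, Finset.prod_const, Finset.card_univ, Fintype.card_fin]
    rw [e]
    exact Finset.prod_le_prod (fun j _ => mul_nonneg hT0.le (hw0 j).le) (fun j _ => hAlo j)
  have hcos : (1 : ℝ) / 2 ≤ Real.cos (t * lams σ x) := by
    have h4 := Real.one_sub_sq_div_two_le_cos (x := t * lams σ x)
    have h5 : |t * lams σ x| ≤ 1 := by
      rw [abs_mul, abs_of_nonneg ht0]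
      calc t * |lams σ x| ≤ V * (1 / V) := mul_le_mul htV hlV (abs_nonneg _) (by linarith)
        _ = 1 := by field_simp
    have h6 := (abs_le.1 h5)
    nlinarith
  have hmain : 1 / 2 * (T ^ k * ∏ j, w j) ≤ (∏ j, Bc j).re := by
    rw [hprodB, Complex.re_mul_ofReal, Complex.exp_ofReal_mul_I_re, Real.cos_neg]
    exact mul_le_mul hcos hprodA (mul_nonneg (by positivity) hW0.le) (by linarith)
  -- the diagonal
  have hdg := h3 T t β hT1' hβ1 hβ2 ht0 htT σ x hx hl0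
  rw [Complex.sub_re, box_prod' k t hT0.le β (fun j => (frs σ x j).1)]
  have h7 := (abs_le.1 ((Complex.abs_re_le_norm _).trans hdg)).2
  have h8 : (∏ j, Bc j).re - ‖∏ j, J j - ∏ j, Bc j‖ ≤ (∏ j, J j).re := by
    have h9 := (abs_le.1 (Complex.abs_re_le_norm (∏ j, J j - ∏ j, Bc j))).1
    rw [Complex.sub_re] at h9
    linarith
  -- numerical part
  have n0 : (k : ℝ) * (C1 * T ^ (1 - η / 2 + δ)) * MM ^ k = k * C1 * M0 ^ k * (T ^ k * T ^ (1 - η / 4)) := by
    have e2 : T ^ (1 - η / 2 + δ) * (T ^ (1 + δ)) ^ k = T ^ k * T ^ (1 - η / 4) := by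
      rw [← Real.rpow_natCast (T ^ (1 + δ)) k, ← Real.rpow_mul hT0.le, ← Real.rpow_natCast T k,
        ← Real.rpow_add hT0, ← Real.rpow_add hT0]
      congr 1
      linarith
    rw [hMM, mul_pow]
    calc (k : ℝ) * (C1 * T ^ (1 - η / 2 + δ)) * (M0 ^ k * (T ^ (1 + δ)) ^ k) =
          k * C1 * M0 ^ k * (T ^ (1 - η / 2 + δ) * (T ^ (1 + δ)) ^ k) := by ring
      _ = _ := by rw [e2]
  have n1 : T * ‖∏ j, J j - ∏ j, Bc j‖ ≤ k * C1 * M0 ^ k * (T ^ k * T ^ (1 - η / 4)) * ∏ j, w j := by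
    rw [← n0]
    exact (mul_le_mul_of_nonneg_right hMM1 (norm_nonneg _)).trans hdiff
  have n2 : T * (C3 * T ^ ((k : ℝ) - η / 2 + δ) * ∏ j, w j) ≤
      C3 * (T ^ k * T ^ (1 - η / 4)) * ∏ j, w j := by
    have e2 : T * T ^ ((k : ℝ) - η / 2 + δ) ≤ T ^ k * T ^ (1 - η / 4) := by
      have e3 : T * T ^ ((k : ℝ) - η / 2 + δ) = T ^ ((k : ℝ) + 1 - η / 2 + δ) := by
        nth_rewrite 1 [← Real.rpow_one T]
        rw [← Real.rpow_add hT0]
        congr 1
        ring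
      rw [e3, ← Real.rpow_natCast T k, ← Real.rpow_add hT0]
      exact Real.rpow_le_rpow_of_exponent_le hT1' (by linarith)
    calc T * (C3 * T ^ ((k : ℝ) - η / 2 + δ) * ∏ j, w j) =
          C3 * (T * T ^ ((k : ℝ) - η / 2 + δ)) * ∏ j, w j := by ring
      _ ≤ _ := mul_le_mul_of_nonneg_right (mul_le_mul_of_nonneg_left e2 hC3.le) hW0.le
  have n3 : (k * C1 * M0 ^ k * (T ^ k * T ^ (1 - η / 4)) + C3 * (T ^ k * T ^ (1 - η / 4))) * ∏ j, w j ≤
      T * (1 / 4 * (T ^ k * ∏ j, w j)) := by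
    have e2 : (k * C1 * M0 ^ k * (T ^ k * T ^ (1 - η / 4)) + C3 * (T ^ k * T ^ (1 - η / 4))) * ∏ j, w j =
        1 / 4 * (4 * K * T ^ (1 - η / 4)) * (T ^ k * ∏ j, w j) := by
      rw [hK]
      ring
    rw [e2]
    have e3 : 0 ≤ T ^ k * ∏ j, w j := mul_nonneg (by positivity) hW0.le
    calc 1 / 4 * (4 * K * T ^ (1 - η / 4)) * (T ^ k * ∏ j, w j) ≤
          1 / 4 * T * (T ^ k * ∏ j, w j) :=
          mul_le_mul_of_nonneg_right (mul_le_mul_of_nonneg_left k1 (by norm_num)) e3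
      _ = _ := by ring
  have n4 : T * (‖∏ j, J j - ∏ j, Bc j‖ + C3 * T ^ ((k : ℝ) - η / 2 + δ) * ∏ j, w j) ≤
      T * (1 / 4 * (T ^ k * ∏ j, w j)) := by
    rw [mul_add]
    linarith
  have n5 := le_of_mul_le_mul_left n4 hT0
  have n6 : 1 / 4 * T ^ k * ∏ j, w j = 1 / 4 * (T ^ k * ∏ j, w j) := by ring
  rw [n6]
  linarith

end HiMainAux

open HiMainAux IntMainAux LowMainAux

theorem low_main_hi (k : ℕ) (η : ℝ) (hη : 0 < η) (hη1 : η ≤ 1 / 2) : ∃ T₀ : ℝ, 1 ≤ T₀ ∧ ∀ (T V : ℝ) (β : Fin k → ℝ) (σ : Fin k → Bool) (S : Finset (Fin k → ℕ+)),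
    T₀ ≤ T → 1 ≤ V → V ≤ T → (∀ j, T ≤ β j) → (∀ j, β j ≤ 2 * T) →
    (∀ x ∈ S, ∀ j, ((x j : ℕ) : ℝ) ≤ T ^ (1 - η)) → (∀ x ∈ S, lams σ x ≠ 0 ∧ |lams σ x| ≤ 1 / V) →
    1 / 4 * V * T ^ k * ∑ x ∈ S, ∏ j, ((x j : ℕ) : ℝ) ^ (-(1 / 2) : ℝ) ≤
      (∫ α in Set.Icc β (fun j => β j + T),
        (∫ t in (0:ℝ)..V, (((∏ j, ‖riemannZeta (1 / 2 + ((t + α j : ℝ) : ℂ) * I)‖ ^ 2 : ℝ) : ℂ) - Dg (fun j => t + α j))) *
          (starRingEnd ℂ) (PT σ S α)).re := by
  obtain ⟨T₀, hT₀, hone⟩ := HiMainAux.one_x k η hη hη1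
  refine ⟨T₀, hT₀, ?_⟩
  intro T V β σ S hT hV hVT hβ1 hβ2 hS1 hS2
  have hT1 : 1 ≤ T := hT₀.trans hT
  set B : Set (Fin k → ℝ) := Set.Icc β (fun j => β j + T) with hB
  have hPc : Continuous (fun α : Fin k → ℝ => (starRingEnd ℂ) (PT σ S α)) := by
    refine Complex.continuous_conj.comp ?_
    unfold PT
    exact continuous_finsetSum _ fun x _ => continuous_finsetProd _ fun j _ =>
      (Cont_ex_continuous _).comp (continuous_apply j)
  have hcont : ContinuousOn (fun q : (Fin k → ℝ) × ℝ =>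
      (((∏ j, zs (q.2 + q.1 j) : ℝ) : ℂ) - Dg (fun j => q.2 + q.1 j)) *
        (starRingEnd ℂ) (PT σ S q.1)) (B ×ˢ Set.Icc 0 V) := by
    have h1 : Continuous (fun q : (Fin k → ℝ) × ℝ =>
        ((∏ j, zs (q.2 + q.1 j) : ℝ) : ℂ)) := by
      refine Complex.continuous_ofReal.comp (continuous_finsetProd _ fun j _ => ?_)
      exact zs_cont.comp (continuous_snd.add ((continuous_apply j).comp continuous_fst))
    have h2 : ContinuousOn (fun q : (Fin k → ℝ) × ℝ => Dg (fun j => q.2 + q.1 j))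
        (B ×ˢ Set.Icc 0 V) := by
      refine (Dg_continuousOn k).comp
        (f := fun q : (Fin k → ℝ) × ℝ => fun j => q.2 + q.1 j)
        (Continuous.continuousOn ?_) ?_
      · exact continuous_pi fun j => continuous_snd.add ((continuous_apply j).comp continuous_fst)
      · rintro ⟨α, t⟩ ⟨hα, ht⟩ j
        have h3 := hα.1 j
        have h4 := hβ1 j
        have h5 := ht.1
        show 0 < t + α j
        simp only at h3 h5
        linarith
    have h3 : Continuous (fun q : (Fin k → ℝ) × ℝ => (starRingEnd ℂ) (PT σ S q.1)) :=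
      hPc.comp continuous_fst
    exact (h1.continuousOn.sub h2).mul h3.continuousOn
  have hint : Integrable (Function.uncurry fun (α : Fin k → ℝ) (t : ℝ) =>
      (((∏ j, zs (t + α j) : ℝ) : ℂ) - Dg (fun j => t + α j)) *
        (starRingEnd ℂ) (PT σ S α))
      ((volume.restrict B).prod (volume.restrict (Set.Ioc 0 V))) := by
    rw [Measure.prod_restrict]
    have h1 := hcont.integrableOn_compact (μ := (volume : Measure (Fin k → ℝ)).prod
      (volume : Measure ℝ)) (isCompact_Icc.prod isCompact_Icc)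
    exact h1.mono_set (Set.prod_mono le_rfl Set.Ioc_subset_Icc_self)
  have e1 : (∫ α in B, (∫ t in (0:ℝ)..V, (((∏ j, ‖riemannZeta (1 / 2 +
      ((t + α j : ℝ) : ℂ) * I)‖ ^ 2 : ℝ) : ℂ) - Dg (fun j => t + α j))) *
        (starRingEnd ℂ) (PT σ S α)) =
      ∫ t in Set.Ioc 0 V, ∫ α in B, (((∏ j, zs (t + α j) : ℝ) : ℂ) - Dg (fun j => t + α j)) *
        (starRingEnd ℂ) (PT σ S α) := by
    rw [← integral_integral_swap hint]
    refine integral_congr_ae (Filter.Eventually.of_forall fun α => ?_)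
    simp only
    rw [intervalIntegral.integral_of_le (by linarith), ← integral_mul_const]
    rfl
  rw [e1]
  have hG := hint.integral_prod_right
  have e2 : (∫ t in Set.Ioc 0 V, ∫ α in B, (((∏ j, zs (t + α j) : ℝ) : ℂ) -
      Dg (fun j => t + α j)) * (starRingEnd ℂ) (PT σ S α)).re =
      ∫ t in Set.Ioc 0 V, (∫ α in B, (((∏ j, zs (t + α j) : ℝ) : ℂ) -
      Dg (fun j => t + α j)) * (starRingEnd ℂ) (PT σ S α)).re :=
    (Complex.reCLM.integral_comp_comm hG).symm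
  rw [e2]
  have e3 : 1 / 4 * V * T ^ k * ∑ x ∈ S, ∏ j, ((x j : ℕ) : ℝ) ^ (-(1 / 2) : ℝ) =
      ∫ _ in Set.Ioc 0 V, ∑ x ∈ S, 1 / 4 * T ^ k * ∏ j, ((x j : ℕ) : ℝ) ^ (-(1 / 2) : ℝ) := by
    rw [setIntegral_const, smul_eq_mul, Measure.real, Real.volume_Ioc,
      ENNReal.toReal_ofReal (by linarith), ← Finset.mul_sum]
    ring
  rw [e3]
  refine setIntegral_mono_on (integrableOn_const (by simp)) ?_ measurableSet_Ioc ?_
  · exact Complex.reCLM.integrable_comp hG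
  · intro t ht
    have ht0 : 0 ≤ t := ht.1.le
    have hBpos : ∀ α ∈ B, ∀ j, 0 < t + α j := by
      intro α hα j
      have h1 := hα.1 j
      have h2 := hβ1 j
      linarith
    have hexc : ∀ x : Fin k → ℕ+, Continuous (fun α : Fin k → ℝ =>
        (starRingEnd ℂ) (∏ j, ex (α j) (frs σ x j).1)) := fun x =>
      Complex.continuous_conj.comp (continuous_finsetProd _ fun j _ =>
        (Cont_ex_continuous _).comp (continuous_apply j))
    have hZc : Continuous (fun α : Fin k → ℝ => ((∏ j, zs (t + α j) : ℝ) : ℂ)) := by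
      refine Complex.continuous_ofReal.comp (continuous_finsetProd _ fun j _ => ?_)
      exact zs_cont.comp (continuous_const.add (continuous_apply j))
    have hDc : ContinuousOn (fun α : Fin k → ℝ => Dg (fun j => t + α j)) B := by
      refine (Dg_continuousOn k).comp (f := fun α : Fin k → ℝ => fun j => t + α j)
        (Continuous.continuousOn (by fun_prop)) ?_
      intro α hα
      exact hBpos α hα
    have hZi : ∀ x : Fin k → ℕ+, IntegrableOn (fun α : Fin k → ℝ => ((∏ j, zs (t + α j) : ℝ) : ℂ) *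
        (starRingEnd ℂ) (∏ j, ex (α j) (frs σ x j).1)) B := fun x =>
      ((hZc.mul (hexc x)).continuousOn).integrableOn_compact isCompact_Icc
    have hDi : ∀ x : Fin k → ℕ+, IntegrableOn (fun α : Fin k → ℝ => Dg (fun j => t + α j) *
        (starRingEnd ℂ) (∏ j, ex (α j) (frs σ x j).1)) B := fun x =>
      (hDc.mul (hexc x).continuousOn).integrableOn_compact isCompact_Icc
    have hsplit : ∫ α in B, (((∏ j, zs (t + α j) : ℝ) : ℂ) - Dg (fun j => t + α j)) *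
          (starRingEnd ℂ) (PT σ S α) =
        ∑ x ∈ S, ((∫ α in B, ((∏ j, zs (t + α j) : ℝ) : ℂ) *
          (starRingEnd ℂ) (∏ j, ex (α j) (frs σ x j).1)) -
          ∫ α in B, Dg (fun j => t + α j) * (starRingEnd ℂ) (∏ j, ex (α j) (frs σ x j).1)) := by
      have e4 : (fun α : Fin k → ℝ => (((∏ j, zs (t + α j) : ℝ) : ℂ) -
          Dg (fun j => t + α j)) * (starRingEnd ℂ) (PT σ S α)) =
          fun α => ∑ x ∈ S, (((∏ j, zs (t + α j) : ℝ) : ℂ) *
          (starRingEnd ℂ) (∏ j, ex (α j) (frs σ x j).1) -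
          Dg (fun j => t + α j) * (starRingEnd ℂ) (∏ j, ex (α j) (frs σ x j).1)) := by
        funext α
        unfold PT
        rw [map_sum, Finset.mul_sum]
        refine Finset.sum_congr rfl fun x _ => ?_
        ring
      have hi : ∀ x ∈ S, Integrable (fun α : Fin k → ℝ =>
          ((∏ j, zs (t + α j) : ℝ) : ℂ) * (starRingEnd ℂ) (∏ j, ex (α j) (frs σ x j).1) -
          Dg (fun j => t + α j) * (starRingEnd ℂ) (∏ j, ex (α j) (frs σ x j).1))
          (volume.restrict B) :=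
        fun x _ => (hZi x).sub (hDi x)
      rw [e4, integral_finsetSum _ hi]
      refine Finset.sum_congr rfl fun x _ => ?_
      exact integral_sub (hZi x) (hDi x)
    rw [hsplit, Complex.re_sum]
    refine Finset.sum_le_sum fun x hx => ?_
    exact hone T t V β σ x hT hV ht0 ht.2 hVT hβ1 hβ2 (hS1 x hx) (hS2 x hx).1 (hS2 x hx).2

end Pool.Agent.P07318s
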