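import Pool.Agent.Lib.P07318s.Defs
import Pool.Agent.Lib.P07318s.LowDefs
import Pool.Agent.Lib.P07318s.Spaced
import Pool.Agent.Lib.P07318d.DivSum
import Pool.Agent.Lib.P5632c9.DivBound

/-!
Moments of the test function. Second moment: expand, diagonal `M T`, off diagonal `2/|lgr(pm m) - lgr(pm m')| ≤ C M²` (`spacing` or directly), total `C M⁴ ≤ C T`.
Fourth moment: `‖Ys‖⁴ = ‖Ys²‖²`, `Ys² = ∑_{m,m'} (..)^(-ia)` with frequencies `f(m)+f(m')`, `f(m) = log((m+2)/(m+1))`. Pairs of pairs with equal frequency: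
`(1+1/x)(1+1/y) = s` with `x = m+1`, `y = m'+1`: for given `s = 1 + A/B` (lowest terms) `A x y = B (x + y + 1)`, i.e. `(A x - B)(A y - B) = B (A + B)`, so `A x - B` is a divisor (up to
sign) of `B (A+B)`, a positive integer `≤ C M⁴`: the number of solutions is `≤ 2 d(B(A+B)) ≤ C_ε M^ε` (divisor bound; it can be deduced from `P07318d.divsum_le`, see the
module Outer). So the diagonal contributes `≤ T M² C_ε M^ε`. If the frequencies differ, the difference is `|log(rational)|` with numerator and denominator `≤ (2M+2)⁴`,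
so it is `≥ (2M+2)^(-4)/2`, the contribution is `≤ M⁴ · C M⁴ ≤ C T`.
-/

set_option autoImplicit false

namespace Pool.Agent.P07318s

open MeasureTheory Complex

namespace LowY

lemma normsq_sum {ι : Type*} (S : Finset ι) (f : ι → ℝ) (a : ℝ) :
    ‖∑ s ∈ S, Complex.exp (((-(a * f s) : ℝ) : ℂ) * I)‖ ^ 2 =
      ∑ p ∈ S ×ˢ S, Real.cos ((f p.1 - f p.2) * a) := by
  rw [Complex.sq_norm, Complex.normSq_apply, Complex.re_sum, Complex.im_sum, Finset.sum_mul_sum,
    Finset.sum_mul_sum, Finset.sum_product, ← Finset.sum_add_distrib]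
  apply Finset.sum_congr rfl
  intro s _
  rw [← Finset.sum_add_distrib]
  apply Finset.sum_congr rfl
  intro s' _
  rw [Complex.exp_ofReal_mul_I_re, Complex.exp_ofReal_mul_I_re, Complex.exp_ofReal_mul_I_im,
    Complex.exp_ofReal_mul_I_im, Real.cos_neg, Real.cos_neg, Real.sin_neg, Real.sin_neg]
  have : (f s - f s') * a = a * f s - a * f s' := by ring
  simp only [this, Real.cos_sub]
  ring

lemma cos_int (T β l δ : ℝ) (hδ : 0 < δ) (h : l ≠ 0 → δ ≤ |l|) :
    ∫ a in β..(β + T), Real.cos (l * a) ≤ if l = 0 then T else 2 / δ := by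
  split_ifs with h0
  · rw [h0]
    simp
  · rw [intervalIntegral.integral_comp_mul_left (fun x => Real.cos x) h0, integral_cos, smul_eq_mul]
    have h1 := h h0
    have h2 : |Real.sin (l * (β + T)) - Real.sin (l * β)| ≤ 2 := by
      refine (abs_sub _ _).trans ?_
      have := Real.abs_sin_le_one (l * (β + T))
      have := Real.abs_sin_le_one (l * β)
      linarith
    refine (le_abs_self _).trans ?_
    rw [abs_mul, abs_inv, div_eq_mul_inv, mul_comm]
    have h3 : |l|⁻¹ ≤ δ⁻¹ := inv_anti₀ hδ h1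
    exact mul_le_mul h2 h3 (by positivity) (by norm_num)

open Classical in
lemma moment {ι : Type*} (S : Finset ι) (f : ι → ℝ) (T β δ : ℝ) (hT : 0 ≤ T) (hδ : 0 < δ)
    (h : ∀ s ∈ S, ∀ s' ∈ S, f s ≠ f s' → δ ≤ |f s - f s'|) :
    ∫ a in β..(β + T), ‖∑ s ∈ S, Complex.exp (((-(a * f s) : ℝ) : ℂ) * I)‖ ^ 2 ≤
      T * (((S ×ˢ S).filter (fun p => f p.1 = f p.2)).card : ℝ) + (S.card : ℝ) ^ 2 * (2 / δ) := by
  simp_rw [normsq_sum]
  rw [intervalIntegral.integral_finset_sum]
  · have h1 : ∀ p ∈ S ×ˢ S, ∫ a in β..(β + T), Real.cos ((f p.1 - f p.2) * a) ≤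
        (if f p.1 = f p.2 then T else 0) + 2 / δ := by
      intro p hp
      rw [Finset.mem_product] at hp
      have h2 := cos_int T β (f p.1 - f p.2) δ hδ
        (fun h3 => h _ hp.1 _ hp.2 (fun h4 => h3 (sub_eq_zero.2 h4)))
      refine h2.trans ?_
      have h5 : 0 < 2 / δ := by positivity
      by_cases h6 : f p.1 = f p.2
      · rw [if_pos (sub_eq_zero.2 h6), if_pos h6]
        linarith
      · rw [if_neg (fun h7 => h6 (sub_eq_zero.1 h7)), if_neg h6]
        linarith
    refine (Finset.sum_le_sum h1).trans ?_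
    rw [Finset.sum_add_distrib, ← Finset.sum_filter, Finset.sum_const, Finset.sum_const,
      Finset.card_product, nsmul_eq_mul, nsmul_eq_mul]
    apply le_of_eq
    push_cast
    ring
  · intro p _
    exact (Continuous.intervalIntegrable (by fun_prop) _ _)

/-- the frequencies -/
noncomputable def fr (m : ℕ) : ℝ := Real.log (m + 2 : ℝ) - Real.log (m + 1 : ℝ)

lemma lgr_pm (m : ℕ) : lgr (pm m).1 = fr m := by
  unfold lgr pm fr
  simp only [Nat.succPNat_coe, Nat.succ_eq_add_one]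
  push_cast
  ring_nf

lemma Ys_eq (M : ℕ) (a : ℝ) :
    Ys M a = ∑ m ∈ Finset.Ico M (2 * M), Complex.exp (((-(a * fr m) : ℝ) : ℂ) * I) := by
  unfold Ys ex
  simp_rw [lgr_pm]

lemma card_S (M : ℕ) : (Finset.Ico M (2 * M)).card = M := by
  rw [Nat.card_Ico]
  omega

lemma pow_le_T {T : ℝ} {M k : ℕ} (hT : 1 ≤ T) (hM : (M : ℝ) ≤ T ^ (1 / 40 : ℝ)) (hk : k ≤ 40) :
    (M : ℝ) ^ k ≤ T := by
  have h1 : (M : ℝ) ^ k ≤ (T ^ (1 / 40 : ℝ)) ^ k := pow_le_pow_left₀ (Nat.cast_nonneg _) hM k
  refine h1.trans ?_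
  rw [← Real.rpow_natCast, ← Real.rpow_mul (by linarith)]
  calc T ^ (1 / 40 * (k : ℝ)) ≤ T ^ (1 : ℝ) := by
        apply Real.rpow_le_rpow_of_exponent_le hT
        have : (k : ℝ) ≤ 40 := by exact_mod_cast hk
        linarith
    _ = T := Real.rpow_one T

lemma hgt_pm (m : ℕ) : hgt (pm m).1 = ((m : ℝ) + 2) * (m + 1) := by
  unfold hgt pm
  simp only [Nat.succPNat_coe, Nat.succ_eq_add_one]
  push_cast
  ring

lemma pm_inj {m m' : ℕ} (h : pm m = pm m') : m = m' := by
  have h1 : (pm m).1.2 = (pm m').1.2 := by rw [h]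
  exact Nat.succPNat_injective h1

lemma gap2 {M m m' : ℕ} (hM : 1 ≤ M) (hm : m ∈ Finset.Ico M (2 * M))
    (hm' : m' ∈ Finset.Ico M (2 * M)) (h : m ≠ m') :
    1 / (12 * (M : ℝ) ^ 2) ≤ |fr m - fr m'| := by
  have h1 := spacing (q := pm m) (q' := pm m') (fun h2 => h (pm_inj h2))
  rw [lgr_pm, lgr_pm, hgt_pm, hgt_pm] at h1
  refine le_trans ?_ h1
  rw [Finset.mem_Ico] at hm hm'
  have e1 : (m : ℝ) + 1 ≤ 2 * M := by exact_mod_cast hm.2
  have e2 : (m' : ℝ) + 1 ≤ 2 * M := by exact_mod_cast hm'.2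
  have e3 : (1 : ℝ) ≤ M := by exact_mod_cast hM
  have e4 : (0 : ℝ) ≤ m := Nat.cast_nonneg _
  have e5 : (0 : ℝ) ≤ m' := Nat.cast_nonneg _
  have h6 : ∀ x : ℝ, 0 ≤ x → x + 1 ≤ 2 * M → (x + 2) * (x + 1) ≤ 6 * (M : ℝ) ^ 2 := by
    intro x hx hx2
    nlinarith
  have h7 : Real.sqrt (((m : ℝ) + 2) * (m + 1) * (((m' : ℝ) + 2) * (m' + 1))) ≤
      6 * (M : ℝ) ^ 2 := by
    rw [Real.sqrt_le_left (by positivity)]
    have := h6 _ e4 e1
    have := h6 _ e5 e2
    have h8 : (0 : ℝ) ≤ ((m : ℝ) + 2) * (m + 1) := by positivity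
    have h9 : (0 : ℝ) ≤ ((m' : ℝ) + 2) * (m' + 1) := by positivity
    nlinarith
  apply one_div_le_one_div_of_le (by positivity)
  linarith

/-- logarithms of different positive integers -/
lemma log_gap {a b : ℕ} {X : ℝ} (ha : 0 < a) (hb : 0 < b) (hne : a ≠ b) (haX : (a : ℝ) ≤ X)
    (hbX : (b : ℝ) ≤ X) : 1 / X ≤ |Real.log a - Real.log b| := by
  have key : ∀ {a b : ℕ}, 0 < a → 0 < b → b < a → (a : ℝ) ≤ X →
      1 / X ≤ Real.log a - Real.log b := by
    intro a b ha hb hlt haX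
    have ha' : (0 : ℝ) < a := by exact_mod_cast ha
    have hb' : (0 : ℝ) < b := by exact_mod_cast hb
    rw [← Real.log_div ha'.ne' hb'.ne']
    refine le_trans ?_ (Real.one_sub_inv_le_log_of_pos (by positivity))
    rw [inv_div]
    have h1 : (b : ℝ) + 1 ≤ a := by exact_mod_cast hlt
    have h2 : 1 - (b : ℝ) / a = (a - b) / a := by field_simp
    rw [h2]
    calc 1 / X ≤ 1 / (a : ℝ) := one_div_le_one_div_of_le ha' haX
      _ ≤ (a - b) / a := by
        apply div_le_div_of_nonneg_right _ ha'.le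
        linarith
  rcases lt_or_gt_of_ne hne with h | h
  · rw [abs_sub_comm]
    exact (key hb ha h hbX).trans (le_abs_self _)
  · exact (key ha hb h haX).trans (le_abs_self _)

/-- numerator of the sum of two frequencies -/
def nu (p : ℕ × ℕ) : ℕ := (p.1 + 2) * (p.2 + 2)

/-- denominator of the sum of two frequencies -/
def de (p : ℕ × ℕ) : ℕ := (p.1 + 1) * (p.2 + 1)

lemma fr_add (p : ℕ × ℕ) : fr p.1 + fr p.2 = Real.log (nu p) - Real.log (de p) := by
  unfold fr nu de
  push_cast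
  rw [Real.log_mul (by positivity) (by positivity), Real.log_mul (by positivity) (by positivity)]
  ring

lemma nu_pos (p : ℕ × ℕ) : 0 < nu p := by unfold nu; positivity

lemma de_pos (p : ℕ × ℕ) : 0 < de p := by unfold de; positivity

lemma fr_sub (p q : ℕ × ℕ) : (fr p.1 + fr p.2) - (fr q.1 + fr q.2) =
    Real.log ((nu p * de q : ℕ)) - Real.log ((nu q * de p : ℕ)) := by
  have h1 : (0 : ℝ) < nu p := by exact_mod_cast nu_pos p
  have h2 : (0 : ℝ) < nu q := by exact_mod_cast nu_pos q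
  have h3 : (0 : ℝ) < de p := by exact_mod_cast de_pos p
  have h4 : (0 : ℝ) < de q := by exact_mod_cast de_pos q
  rw [fr_add, fr_add]
  push_cast
  rw [Real.log_mul h1.ne' h4.ne', Real.log_mul h2.ne' h3.ne']
  ring

lemma fr_eq_iff (p q : ℕ × ℕ) : fr p.1 + fr p.2 = fr q.1 + fr q.2 ↔ nu p * de q = nu q * de p := by
  rw [← sub_eq_zero, fr_sub, sub_eq_zero]
  constructor
  · intro h
    have h1 := Real.log_injOn_pos (Set.mem_Ioi.2 (by
      have := Nat.mul_pos (nu_pos p) (de_pos q)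
      exact_mod_cast this)) (Set.mem_Ioi.2 (by
      have := Nat.mul_pos (nu_pos q) (de_pos p)
      exact_mod_cast this)) h
    exact_mod_cast h1
  · intro h
    rw [h]

lemma nude_le {M : ℕ} (hM : 1 ≤ M) {p q : ℕ × ℕ}
    (hp : p ∈ Finset.Ico M (2 * M) ×ˢ Finset.Ico M (2 * M))
    (hq : q ∈ Finset.Ico M (2 * M) ×ˢ Finset.Ico M (2 * M)) :
    nu p * de q ≤ 36 * M ^ 4 := by
  rw [Finset.mem_product, Finset.mem_Ico, Finset.mem_Ico] at hp hq
  have h1 : nu p ≤ (3 * M) * (3 * M) := by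
    unfold nu
    exact Nat.mul_le_mul (by omega) (by omega)
  have h2 : de q ≤ (2 * M) * (2 * M) := by
    unfold de
    exact Nat.mul_le_mul (by omega) (by omega)
  calc nu p * de q ≤ ((3 * M) * (3 * M)) * ((2 * M) * (2 * M)) := Nat.mul_le_mul h1 h2
    _ = 36 * M ^ 4 := by ring

/-- number of representations of a sum of two frequencies -/
lemma fib_card {M : ℕ} (q : ℕ × ℕ) :
    ((Finset.Ico M (2 * M) ×ˢ Finset.Ico M (2 * M)).filter
      (fun p => nu p * de q = nu q * de p)).card ≤ (nu q * de q).divisors.card := by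
  classical
  -- `a = nu q - de q`
  set a : ℕ := q.1 + q.2 + 3 with ha
  set b : ℕ := de q with hb
  have hab : nu q = a + b := by
    rw [ha, hb]
    unfold nu de
    ring
  apply Finset.card_le_card_of_injOn (fun p => a * (p.1 + 1) - b)
  · intro p hp
    rw [Finset.mem_coe, Finset.mem_filter] at hp
    have h := hp.2
    rw [hab] at h
    set x := p.1 + 1 with hx
    set y := p.2 + 1 with hy
    have hnu : nu p = (x + 1) * (y + 1) := by unfold nu; rw [hx, hy]
    have hde : de p = x * y := by unfold de; rw [hx, hy]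
    rw [hnu, hde] at h
    have hb0 : 0 < b := de_pos q
    -- a x y = b (x + y + 1)
    have h1 : a * x * y = b * (x + y + 1) := by
      have : (a + b) * (x * y) = a * x * y + b * (x * y) := by ring
      rw [this] at h
      have h2 : (x + 1) * (y + 1) * b = b * (x + y + 1) + b * (x * y) := by ring
      rw [h2] at h
      omega
    have hx0 : 0 < x := Nat.succ_pos _
    have hy0 : 0 < y := Nat.succ_pos _
    have h3 : b < a * x := by
      by_contra hcon
      push Not at hcon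
      have h4 : a * x * y ≤ b * y := Nat.mul_le_mul_right y hcon
      rw [h1] at h4
      have h5 : b * (x + y + 1) = b * y + b * (x + 1) := by ring
      rw [h5] at h4
      have h6 : 0 < b * (x + 1) := Nat.mul_pos hb0 (Nat.succ_pos _)
      omega
    have h3' : b < a * y := by
      by_contra hcon
      push Not at hcon
      have h4 : a * y * x ≤ b * x := Nat.mul_le_mul_right x hcon
      have h4' : a * x * y = a * y * x := by ring
      rw [← h4', h1] at h4
      have h5 : b * (x + y + 1) = b * x + b * (y + 1) := by ring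
      rw [h5] at h4
      have h6 : 0 < b * (y + 1) := Nat.mul_pos hb0 (Nat.succ_pos _)
      omega
    rw [Finset.mem_coe, Nat.mem_divisors]
    refine ⟨⟨a * y - b, ?_⟩, ?_⟩
    · show nu q * b = (a * x - b) * (a * y - b)
      rw [hab]
      zify [h3.le, h3'.le]
      have h1z : (a : ℤ) * x * y = b * (x + y + 1) := by exact_mod_cast h1
      linear_combination (-(a : ℤ)) * h1z
    · exact (Nat.mul_pos (nu_pos q) (de_pos q)).ne'
  · intro p hp p' hp' hpp
    rw [Finset.mem_coe, Finset.mem_filter] at hp hp'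
    have key : ∀ p : ℕ × ℕ, nu p * de q = nu q * de p →
        b < a * (p.1 + 1) ∧ a * (p.1 + 1) * (p.2 + 1) = b * ((p.1 + 1) + (p.2 + 1) + 1) := by
      intro p h
      rw [hab] at h
      set x := p.1 + 1 with hx
      set y := p.2 + 1 with hy
      have hnu : nu p = (x + 1) * (y + 1) := by unfold nu; rw [hx, hy]
      have hde : de p = x * y := by unfold de; rw [hx, hy]
      rw [hnu, hde] at h
      have hb0 : 0 < b := de_pos q
      have h1 : a * x * y = b * (x + y + 1) := by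
        have : (a + b) * (x * y) = a * x * y + b * (x * y) := by ring
        rw [this] at h
        have h2 : (x + 1) * (y + 1) * b = b * (x + y + 1) + b * (x * y) := by ring
        rw [h2] at h
        omega
      refine ⟨?_, h1⟩
      by_contra hcon
      push Not at hcon
      have h4 : a * x * y ≤ b * y := Nat.mul_le_mul_right y hcon
      rw [h1] at h4
      have h5 : b * (x + y + 1) = b * y + b * (x + 1) := by ring
      rw [h5] at h4
      have h6 : 0 < b * (x + 1) := Nat.mul_pos hb0 (Nat.succ_pos _)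
      omega
    obtain ⟨k1, k2⟩ := key p hp.2
    obtain ⟨k1', k2'⟩ := key p' hp'.2
    simp only at hpp
    have ha0 : 0 < a := by rw [ha]; positivity
    have e1 : a * (p.1 + 1) = a * (p'.1 + 1) := by omega
    have e2 : p.1 = p'.1 := by
      have := Nat.eq_of_mul_eq_mul_left ha0 e1
      omega
    rw [e2] at k1 k2
    have e3 : p.2 = p'.2 := by
      zify at k1 k2 k1' k2' ⊢
      have h7 : ((a : ℤ) * (p'.1 + 1) - b) * ((p.2 : ℤ) - p'.2) = 0 := by
        linear_combination k2 - k2'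
      rcases mul_eq_zero.1 h7 with h8 | h8
      · exfalso
        linarith
      · linarith
    exact Prod.ext e2 e3

end LowY

open LowY in
theorem low_Y2 : ∃ C : ℝ, 0 < C ∧ ∀ (T β : ℝ) (M : ℕ), 1 ≤ T → 1 ≤ M → (M : ℝ) ≤ T ^ (1 / 40 : ℝ) →
    ∫ a in β..(β + T), ‖Ys M a‖ ^ 2 ≤ C * T * M := by
  classical
  refine ⟨25, by norm_num, fun T β M hT hM hMT => ?_⟩
  have e3 : (1 : ℝ) ≤ M := by exact_mod_cast hM
  have h := moment (Finset.Ico M (2 * M)) fr T β (1 / (12 * (M : ℝ) ^ 2)) (by linarith)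
    (by positivity) (fun m hm m' hm' hne => gap2 hM hm hm' (fun h => hne (by rw [h])))
  simp_rw [← Ys_eq] at h
  refine h.trans ?_
  rw [card_S]
  have h1 : (((Finset.Ico M (2 * M) ×ˢ Finset.Ico M (2 * M)).filter
      (fun p => fr p.1 = fr p.2)).card : ℝ) ≤ M := by
    have h2 : ((Finset.Ico M (2 * M) ×ˢ Finset.Ico M (2 * M)).filter
      (fun p => fr p.1 = fr p.2)).card ≤ (Finset.Ico M (2 * M)).card := by
      apply Finset.card_le_card_of_injOn (fun p => p.1)
      · intro p hp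
        rw [Finset.mem_coe, Finset.mem_filter, Finset.mem_product] at hp
        exact hp.1.1
      · have key : ∀ p ∈ (Finset.Ico M (2 * M) ×ˢ Finset.Ico M (2 * M)).filter
            (fun p => fr p.1 = fr p.2), p.1 = p.2 := by
          intro p hp
          rw [Finset.mem_filter, Finset.mem_product] at hp
          by_contra hne
          have h3 := gap2 hM hp.1.1 hp.1.2 hne
          rw [hp.2, sub_self, abs_zero] at h3
          have : (0 : ℝ) < 1 / (12 * (M : ℝ) ^ 2) := by positivity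
          linarith
        intro p hp p' hp' hpp
        have h4 := key p hp
        have h5 := key p' hp'
        simp only at hpp
        exact Prod.ext hpp (by rw [← h4, ← h5, hpp])
    rw [card_S] at h2
    exact_mod_cast h2
  have h4 : (M : ℝ) ^ 2 * (2 / (1 / (12 * (M : ℝ) ^ 2))) = 24 * (M : ℝ) ^ 4 := by
    field_simp
    ring
  rw [h4]
  have h5 := pow_le_T (k := 4) hT hMT (by norm_num)
  have h6 : T * (((Finset.Ico M (2 * M) ×ˢ Finset.Ico M (2 * M)).filter
      (fun p => fr p.1 = fr p.2)).card : ℝ) ≤ T * M := mul_le_mul_of_nonneg_left h1 (by linarith)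
  nlinarith

open LowY in
theorem low_Y4 (ε : ℝ) (hε : 0 < ε) : ∃ C : ℝ, 0 < C ∧ ∀ (T β : ℝ) (M : ℕ), 1 ≤ T → 1 ≤ M → (M : ℝ) ≤ T ^ (1 / 40 : ℝ) →
    ∫ a in β..(β + T), ‖Ys M a‖ ^ 4 ≤ C * T * (M : ℝ) ^ (2 + ε) := by
  classical
  obtain ⟨C, hC1, hC⟩ := Pool.Agent.Lib.P5632c9.card_divisors_le (ε / 4) (by positivity)
  refine ⟨C * (36 : ℝ) ^ (ε / 4) + 72, by positivity, fun T β M hT hM hMT => ?_⟩
  have e3 : (1 : ℝ) ≤ M := by exact_mod_cast hM
  set S := Finset.Ico M (2 * M) ×ˢ Finset.Ico M (2 * M) with hS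
  have h := moment S (fun p => fr p.1 + fr p.2) T β (1 / (36 * (M : ℝ) ^ 4)) (by linarith)
    (by positivity) (by
      intro p hp q hq hne
      rw [fr_sub]
      apply log_gap (Nat.mul_pos (nu_pos _) (de_pos _)) (Nat.mul_pos (nu_pos _) (de_pos _))
        (fun h => hne ((fr_eq_iff p q).2 h))
      · exact_mod_cast nude_le hM hp hq
      · exact_mod_cast nude_le hM hq hp)
  have hY : ∀ a, ‖∑ s ∈ S, Complex.exp (((-(a * (fr s.1 + fr s.2)) : ℝ) : ℂ) * I)‖ ^ 2 =
      ‖Ys M a‖ ^ 4 := by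
    intro a
    have h1 : ∑ s ∈ S, Complex.exp (((-(a * (fr s.1 + fr s.2)) : ℝ) : ℂ) * I) =
        Ys M a * Ys M a := by
      rw [Ys_eq, Finset.sum_mul_sum, hS, Finset.sum_product]
      apply Finset.sum_congr rfl
      intro s _
      apply Finset.sum_congr rfl
      intro s' _
      rw [← Complex.exp_add]
      congr 1
      push_cast
      ring
    rw [h1, norm_mul]
    ring
  simp_rw [hY] at h
  refine h.trans ?_
  have hcard : (S.card : ℝ) = (M : ℝ) ^ 2 := by
    rw [hS, Finset.card_product, card_S]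
    push_cast
    ring
  rw [hcard]
  have h1 : (((S ×ˢ S).filter (fun p => fr p.1.1 + fr p.1.2 = fr p.2.1 + fr p.2.2)).card : ℝ) ≤
      (M : ℝ) ^ 2 * (C * (36 : ℝ) ^ (ε / 4) * (M : ℝ) ^ ε) := by
    have h2 : ((S ×ˢ S).filter (fun p => fr p.1.1 + fr p.1.2 = fr p.2.1 + fr p.2.2)).card =
        ∑ q ∈ S, (S.filter (fun p => nu p * de q = nu q * de p)).card := by
      rw [Finset.card_filter, Finset.sum_product_right]
      apply Finset.sum_congr rfl
      intro q _
      rw [Finset.card_filter]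
      apply Finset.sum_congr rfl
      intro p _
      simp only [fr_eq_iff]
    rw [h2]
    push_cast
    have h3 : ∀ q ∈ S, ((S.filter (fun p => nu p * de q = nu q * de p)).card : ℝ) ≤
        C * (36 : ℝ) ^ (ε / 4) * (M : ℝ) ^ ε := by
      intro q hq
      have h4 : ((S.filter (fun p => nu p * de q = nu q * de p)).card : ℝ) ≤
          ((nu q * de q).divisors.card : ℝ) := by exact_mod_cast fib_card q
      refine h4.trans ?_
      have h5 := hC (nu q * de q) (Nat.mul_pos (nu_pos q) (de_pos q)).ne'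
      refine h5.trans ?_
      have h6 : ((nu q * de q : ℕ) : ℝ) ≤ 36 * (M : ℝ) ^ 4 := by
        exact_mod_cast nude_le hM hq hq
      have h7 : ((nu q * de q : ℕ) : ℝ) ^ (ε / 4) ≤ (36 * (M : ℝ) ^ 4) ^ (ε / 4) :=
        Real.rpow_le_rpow (Nat.cast_nonneg _) h6 (by positivity)
      have h8 : (36 * (M : ℝ) ^ 4) ^ (ε / 4) = (36 : ℝ) ^ (ε / 4) * (M : ℝ) ^ ε := by
        rw [Real.mul_rpow (by norm_num) (by positivity), ← Real.rpow_natCast,
          ← Real.rpow_mul (by positivity)]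
        congr 2
        push_cast
        ring
      rw [mul_assoc, ← h8]
      exact mul_le_mul_of_nonneg_left h7 (by linarith)
    refine (Finset.sum_le_sum h3).trans ?_
    rw [Finset.sum_const, nsmul_eq_mul, hcard]
  have h4 : ((M : ℝ) ^ 2) ^ 2 * (2 / (1 / (36 * (M : ℝ) ^ 4))) = 72 * (M : ℝ) ^ 8 := by
    field_simp
    ring
  rw [h4]
  have h5 := pow_le_T (k := 8) hT hMT (by norm_num)
  have h6 : (M : ℝ) ^ (2 + ε) = (M : ℝ) ^ 2 * (M : ℝ) ^ ε := by
    rw [Real.rpow_add (by linarith), Real.rpow_two]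
  have h7 : (1 : ℝ) ≤ (M : ℝ) ^ (2 + ε) := Real.one_le_rpow e3 (by linarith)
  have h8 := mul_le_mul_of_nonneg_left h1 (by linarith : (0 : ℝ) ≤ T)
  calc _ ≤ T * ((M : ℝ) ^ 2 * (C * (36 : ℝ) ^ (ε / 4) * (M : ℝ) ^ ε)) + 72 * T := by
        refine add_le_add h8 ?_
        linarith
    _ ≤ T * ((M : ℝ) ^ 2 * (C * (36 : ℝ) ^ (ε / 4) * (M : ℝ) ^ ε)) +
        72 * T * (M : ℝ) ^ (2 + ε) := by
        have : 72 * T * 1 ≤ 72 * T * (M : ℝ) ^ (2 + ε) :=
          mul_le_mul_of_nonneg_left h7 (by linarith)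
        linarith
    _ = _ := by rw [h6]; ring

theorem Ys_norm_le (M : ℕ) (a : ℝ) : ‖Ys M a‖ ≤ M := by
  unfold Ys
  refine (norm_sum_le _ _).trans ?_
  simp_rw [norm_ex]
  rw [Finset.sum_const, nsmul_eq_mul, mul_one, LowY.card_S]

theorem Ys_continuous (M : ℕ) : Continuous (Ys M) := by
  have : Ys M = fun a => ∑ m ∈ Finset.Ico M (2 * M),
      Complex.exp (((-(a * LowY.fr m) : ℝ) : ℂ) * I) := funext (LowY.Ys_eq M)
  rw [this]
  fun_prop

end Pool.Agent.P07318s
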