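import Pool.Agent.Lib.P07318s.Defs
import Pool.Agent.Lib.P07318s.IntDefs
import Pool.Agent.Lib.P07318s.GaussOrth
import Pool.Agent.Lib.P07318s.LowY

/-!
Fourth moment of the test function. `‖PS‖⁴ = ‖PS²‖²`, `PS² = ∑_{(x,y) ∈ S²} exp(-i ∑_j α_j ε_j log(x_j y_j))` (`ε_j = ±1` depends only on `j`). `gauss_orth` with the index set `S²`, coefficients 1:
`≤ 3^k T^k ∑_{(x,y),(z,w)} ∏_j exp(-T² l_j²/4)`, `l_j = log(x_j y_j / (z_j w_j))`. If some `l_j ≠ 0` then `|l_j| ≥ 1/max(x_j y_j, z_j w_j) ≥ T^(-1+2δ)` and the product is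
`≤ exp(-T^(4δ)/4)`; these terms give `≤ |S|⁴ exp(-T^(4δ)/4) ≤ |S|² T^k exp(-T^(4δ)/4) ≤ C |S|²` (`|S| ≤ T^(k/2)`). If all `l_j = 0` then `z_j | x_j y_j` and `w_j = x_j y_j / z_j`: for given
`(x,y)` there are `≤ ∏_j d(x_j y_j) ≤ (C T^(ε/k))^k` pairs `(z,w)` (divisor bound).
-/

set_option autoImplicit false

namespace Pool.Agent.P07318s

open MeasureTheory Complex

namespace IP4

/-- the sign of the coordinate `j` -/
noncomputable def sg {k : ℕ} (m : ℕ) (j : Fin k) : ℝ := if (j : ℕ) < m then 1 else -1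

lemma sg_abs {k : ℕ} (m : ℕ) (j : Fin k) : |sg m j| = 1 := by
  unfold sg
  split_ifs <;> simp

lemma sg_ne {k : ℕ} (m : ℕ) (j : Fin k) : sg m j ≠ 0 := by
  unfold sg
  split_ifs <;> norm_num

lemma lgr_fr {k : ℕ} (m : ℕ) (x : Fin k → ℕ+) (j : Fin k) :
    lgr (fr m x j).1 = sg m j * Real.log ((x j : ℕ) : ℝ) := by
  unfold fr sg
  by_cases h : (j : ℕ) < m
  · simp only [h, decide_true, if_true]
    rw [lgr_pc_true, one_mul]
  · simp only [h, decide_false, if_false]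
    rw [lgr_pc_false]
    ring

/-- the frequencies of the square of the test function -/
noncomputable def ff {k : ℕ} (m : ℕ) (s : (Fin k → ℕ+) × (Fin k → ℕ+)) (j : Fin k) : ℝ :=
  -(sg m j * Real.log (((s.1 j * s.2 j : ℕ+) : ℕ) : ℝ))

lemma PS_eq {k : ℕ} (m : ℕ) (S : Finset (Fin k → ℕ+)) (α : Fin k → ℝ) :
    PS m S α = ∑ x ∈ S, cexp (((∑ j, α j * (-(sg m j * Real.log ((x j : ℕ) : ℝ))) : ℝ) : ℂ) * I) := by
  unfold PS
  refine Finset.sum_congr rfl fun x _ => ?_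
  unfold ex
  rw [← Complex.exp_sum]
  congr 1
  push_cast
  rw [Finset.sum_mul]
  refine Finset.sum_congr rfl fun j _ => ?_
  rw [lgr_fr]
  push_cast
  ring

lemma PS_sq {k : ℕ} (m : ℕ) (S : Finset (Fin k → ℕ+)) (α : Fin k → ℝ) :
    PS m S α ^ 2 = ∑ s ∈ S ×ˢ S, (1 : ℂ) * cexp (((∑ j, α j * ff m s j : ℝ) : ℂ) * I) := by
  rw [PS_eq, sq, Finset.sum_mul_sum, Finset.sum_product]
  refine Finset.sum_congr rfl fun x _ => Finset.sum_congr rfl fun y _ => ?_
  rw [one_mul, ← Complex.exp_add]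
  congr 1
  rw [← add_mul, ← Complex.ofReal_add]
  have key : (∑ j, α j * -(sg m j * Real.log ((x j : ℕ) : ℝ))) + (∑ j, α j * -(sg m j * Real.log ((y j : ℕ) : ℝ))) =
      ∑ j, α j * ff m (x, y) j := by
    rw [← Finset.sum_add_distrib]
    refine Finset.sum_congr rfl fun j _ => ?_
    unfold ff
    have hx : ((x j : ℕ) : ℝ) ≠ 0 := by exact_mod_cast (x j).ne_zero
    have hy : ((y j : ℕ) : ℝ) ≠ 0 := by exact_mod_cast (y j).ne_zero
    have : Real.log (((x j * y j : ℕ+) : ℕ) : ℝ) = Real.log ((x j : ℕ) : ℝ) + Real.log ((y j : ℕ) : ℝ) := by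
      rw [PNat.mul_coe, Nat.cast_mul, Real.log_mul hx hy]
    simp only [this]
    ring
  rw [key]

lemma exp_dec (k : ℕ) (δ : ℝ) (hδ : 0 < δ) : ∃ C : ℝ, 0 < C ∧ ∀ T : ℝ, 1 ≤ T →
    T ^ k * Real.exp (-(T ^ (4 * δ) / 4)) ≤ C := by
  obtain ⟨N, hN⟩ := exists_nat_ge ((k : ℝ) / (4 * δ))
  refine ⟨N.factorial * 4 ^ N, by positivity, fun T hT => ?_⟩
  have hT0 : 0 < T := by linarith
  set y : ℝ := T ^ (4 * δ) / 4 with hy
  have hy0 : 0 < y := by positivity
  have h1 : y ^ N / N.factorial ≤ Real.exp y := Real.pow_div_factorial_le_exp y hy0.le N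
  have h2 : Real.exp (-y) ≤ N.factorial / y ^ N := by
    rw [Real.exp_neg, inv_eq_one_div, div_le_div_iff₀ (Real.exp_pos _) (by positivity), one_mul]
    rw [div_le_iff₀ (by positivity)] at h1
    linarith
  have h3 : T ^ k ≤ (T ^ (4 * δ)) ^ N := by
    rw [← Real.rpow_natCast T k, ← Real.rpow_natCast (T ^ (4 * δ)) N, ← Real.rpow_mul hT0.le]
    refine Real.rpow_le_rpow_of_exponent_le hT ?_
    rw [div_le_iff₀ (by positivity)] at hN
    linarith
  have h4 : y ^ N = (T ^ (4 * δ)) ^ N / 4 ^ N := by rw [hy, div_pow]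
  have h5 : 0 < (T ^ (4 * δ)) ^ N := by positivity
  calc T ^ k * Real.exp (-y) ≤ (T ^ (4 * δ)) ^ N * (N.factorial / y ^ N) :=
        mul_le_mul h3 h2 (Real.exp_pos _).le h5.le
    _ = N.factorial * 4 ^ N := by
        rw [h4]
        field_simp

lemma prod_le_one_term {k : ℕ} (g : Fin k → ℝ) (j : Fin k) {b : ℝ} (hg : ∀ i, 0 ≤ g i ∧ g i ≤ 1) (hj : g j ≤ b) :
    ∏ i, g i ≤ b := by
  classical
  rw [← Finset.mul_prod_erase Finset.univ g (Finset.mem_univ j)]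
  have h1 : ∏ i ∈ Finset.univ.erase j, g i ≤ 1 := Finset.prod_le_one (fun i _ => (hg i).1) fun i _ => (hg i).2
  have h2 : 0 ≤ ∏ i ∈ Finset.univ.erase j, g i := Finset.prod_nonneg fun i _ => (hg i).1
  have h3 := (hg j).1
  calc g j * ∏ i ∈ Finset.univ.erase j, g i ≤ g j * 1 := mul_le_mul_of_nonneg_left h1 h3
    _ ≤ b := by linarith

lemma term_le {k : ℕ} (m : ℕ) {T δ : ℝ} (hT : 1 ≤ T) (s s' : (Fin k → ℕ+) × (Fin k → ℕ+))
    (hs : ∀ j, (((s.1 j * s.2 j : ℕ+) : ℕ) : ℝ) ≤ T ^ (1 - 2 * δ))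
    (hs' : ∀ j, (((s'.1 j * s'.2 j : ℕ+) : ℕ) : ℝ) ≤ T ^ (1 - 2 * δ)) :
    ∏ j, Real.exp (-(T ^ 2 * (ff m s j - ff m s' j) ^ 2 / 4)) ≤
      (if (∀ j, s.1 j * s.2 j = s'.1 j * s'.2 j) then 1 else 0) + Real.exp (-(T ^ (4 * δ) / 4)) := by
  have hT0 : 0 < T := by linarith
  have hg : ∀ i : Fin k, 0 ≤ Real.exp (-(T ^ 2 * (ff m s i - ff m s' i) ^ 2 / 4)) ∧
      Real.exp (-(T ^ 2 * (ff m s i - ff m s' i) ^ 2 / 4)) ≤ 1 := by
    intro i
    refine ⟨(Real.exp_pos _).le, ?_⟩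
    rw [Real.exp_le_one_iff]
    have : 0 ≤ T ^ 2 * (ff m s i - ff m s' i) ^ 2 / 4 := by positivity
    linarith
  split_ifs with h
  · have : ∏ j, Real.exp (-(T ^ 2 * (ff m s j - ff m s' j) ^ 2 / 4)) ≤ 1 :=
      Finset.prod_le_one (fun i _ => (hg i).1) fun i _ => (hg i).2
    have := Real.exp_pos (-(T ^ (4 * δ) / 4))
    linarith
  · push Not at h
    obtain ⟨j, hj⟩ := h
    rw [zero_add]
    refine prod_le_one_term _ j hg ?_
    rw [Real.exp_le_exp, neg_le_neg_iff]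
    have hne : ((s.1 j * s.2 j : ℕ+) : ℕ) ≠ ((s'.1 j * s'.2 j : ℕ+) : ℕ) := fun h => hj (PNat.coe_injective h)
    have hgap := LowY.log_gap (PNat.pos _) (PNat.pos _) hne (hs j) (hs' j)
    have e1 : |ff m s j - ff m s' j| =
        |Real.log (((s.1 j * s.2 j : ℕ+) : ℕ) : ℝ) - Real.log (((s'.1 j * s'.2 j : ℕ+) : ℕ) : ℝ)| := by
      have : ff m s j - ff m s' j = (-(sg m j)) *
          (Real.log (((s.1 j * s.2 j : ℕ+) : ℕ) : ℝ) - Real.log (((s'.1 j * s'.2 j : ℕ+) : ℕ) : ℝ)) := by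
        unfold ff
        ring
      rw [this, abs_mul, abs_neg, sg_abs, one_mul]
    rw [← e1] at hgap
    have h2 : (1 / T ^ (1 - 2 * δ)) ^ 2 ≤ (ff m s j - ff m s' j) ^ 2 := by
      rw [← sq_abs (ff m s j - ff m s' j)]
      exact pow_le_pow_left₀ (by positivity) hgap 2
    have h3 : T ^ 2 * (1 / T ^ (1 - 2 * δ)) ^ 2 = T ^ (4 * δ) := by
      rw [← Real.rpow_natCast T 2, one_div, ← Real.rpow_neg hT0.le, ← Real.rpow_natCast (T ^ (-(1 - 2 * δ))) 2,
        ← Real.rpow_mul hT0.le, ← Real.rpow_add hT0]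
      congr 1
      push_cast
      ring
    have h4 := mul_le_mul_of_nonneg_left h2 (by positivity : (0:ℝ) ≤ T ^ 2)
    rw [h3] at h4
    linarith

open Classical in
lemma fib_card {k : ℕ} (S : Finset (Fin k → ℕ+)) (s : (Fin k → ℕ+) × (Fin k → ℕ+)) :
    ((S ×ˢ S).filter (fun s' => ∀ j, s.1 j * s.2 j = s'.1 j * s'.2 j)).card ≤
      ∏ j, (Nat.divisors ((s.1 j * s.2 j : ℕ+) : ℕ)).card := by
  rw [← Fintype.card_piFinset]
  refine Finset.card_le_card_of_injOn (fun s' j => ((s'.1 j : ℕ+) : ℕ)) ?_ ?_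
  · intro s' hs'
    rw [Finset.mem_coe, Finset.mem_filter] at hs'
    rw [Finset.mem_coe, Fintype.mem_piFinset]
    intro j
    rw [Nat.mem_divisors]
    refine ⟨?_, (PNat.pos _).ne'⟩
    rw [hs'.2 j, PNat.mul_coe]
    exact Dvd.intro _ rfl
  · intro s1 h1 s2 h2 h12
    rw [Finset.mem_coe, Finset.mem_filter] at h1 h2
    have e1 : s1.1 = s2.1 := by
      funext j
      exact PNat.coe_injective (congrFun h12 j)
    have e2 : s1.2 = s2.2 := by
      funext j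
      have a1 := h1.2 j
      have a2 := h2.2 j
      rw [a1, e1] at a2
      exact mul_left_cancel a2
    exact Prod.ext e1 e2

open Classical in
lemma card_S {k : ℕ} (S : Finset (Fin k → ℕ+)) {X : ℝ} (hX : 0 ≤ X) (hS : ∀ x ∈ S, ∀ j, ((x j : ℕ) : ℝ) ≤ X) :
    (S.card : ℝ) ≤ X ^ k := by
  have h : S.card ≤ (Fintype.piFinset fun _ : Fin k => Finset.Icc 1 ⌊X⌋₊).card := by
    refine Finset.card_le_card_of_injOn (fun x j => ((x j : ℕ+) : ℕ)) ?_ ?_
    · intro x hx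
      rw [Finset.mem_coe, Fintype.mem_piFinset]
      intro j
      rw [Finset.mem_Icc]
      exact ⟨(x j).pos, Nat.le_floor (hS x hx j)⟩
    · intro x _ y _ hxy
      funext j
      exact PNat.coe_injective (congrFun hxy j)
  rw [Fintype.card_piFinset] at h
  simp only [Nat.card_Icc, Nat.add_sub_cancel, Finset.prod_const, Finset.card_univ, Fintype.card_fin] at h
  calc (S.card : ℝ) ≤ ((⌊X⌋₊ ^ k : ℕ) : ℝ) := by exact_mod_cast h
    _ = (⌊X⌋₊ : ℝ) ^ k := by push_cast; rfl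
    _ ≤ X ^ k := pow_le_pow_left₀ (by positivity) (Nat.floor_le hX) k

end IP4

open IP4 in
theorem low_P4 (k : ℕ) (δ ε : ℝ) (hδ : 0 < δ) (hε : 0 < ε) : ∃ C : ℝ, 0 < C ∧ ∀ (T : ℝ) (β : Fin k → ℝ) (m : ℕ)
    (S : Finset (Fin k → ℕ+)), 1 ≤ T → (∀ x ∈ S, ∀ j, ((x j : ℕ) : ℝ) ≤ T ^ (1 / 2 - δ)) →
    ∫ α in Set.Icc β (fun j => β j + T), ‖PS m S α‖ ^ 4 ≤ C * T ^ ((k : ℝ) + ε) * (S.card : ℝ) ^ 2 := by
  classical
  obtain ⟨D, hD1, hD⟩ := Pool.Agent.Lib.P5632c9.card_divisors_le (ε / (k + 1)) (by positivity)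
  obtain ⟨E, hE0, hE⟩ := exp_dec k δ hδ
  refine ⟨3 ^ k * (D ^ k + E), by positivity, fun T β m S hT hS => ?_⟩
  have hT0 : 0 < T := by linarith
  have hprod : ∀ s ∈ S ×ˢ S, ∀ j, (((s.1 j * s.2 j : ℕ+) : ℕ) : ℝ) ≤ T ^ (1 - 2 * δ) := by
    intro s hs j
    rw [Finset.mem_product] at hs
    have h1 := hS _ hs.1 j
    have h2 := hS _ hs.2 j
    rw [PNat.mul_coe, Nat.cast_mul]
    calc ((s.1 j : ℕ) : ℝ) * ((s.2 j : ℕ) : ℝ) ≤ T ^ (1 / 2 - δ) * T ^ (1 / 2 - δ) :=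
          mul_le_mul h1 h2 (by positivity) (by positivity)
      _ = T ^ (1 - 2 * δ) := by
          rw [← Real.rpow_add hT0]
          congr 1
          ring
  have hmain := gauss_orth k (S ×ˢ S) (ff m) (fun _ => (1:ℂ)) T hT0 β
  have e1 : ∀ α : Fin k → ℝ, ‖∑ s ∈ S ×ˢ S, (1:ℂ) * cexp (((∑ j, α j * ff m s j : ℝ) : ℂ) * I)‖ ^ 2 =
      ‖PS m S α‖ ^ 4 := by
    intro α
    rw [← PS_sq, norm_pow]
    ring
  simp_rw [e1] at hmain
  refine hmain.trans ?_
  simp only [norm_one, mul_one, one_mul]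
  -- the sum
  have hsum : ∑ s ∈ S ×ˢ S, ∑ s' ∈ S ×ˢ S, ∏ j, Real.exp (-(T ^ 2 * (ff m s j - ff m s' j) ^ 2 / 4)) ≤
      (D ^ k * T ^ ε + E) * (S.card : ℝ) ^ 2 := by
    calc ∑ s ∈ S ×ˢ S, ∑ s' ∈ S ×ˢ S, ∏ j, Real.exp (-(T ^ 2 * (ff m s j - ff m s' j) ^ 2 / 4))
        ≤ ∑ s ∈ S ×ˢ S, ∑ s' ∈ S ×ˢ S, ((if (∀ j, s.1 j * s.2 j = s'.1 j * s'.2 j) then (1:ℝ) else 0) +
            Real.exp (-(T ^ (4 * δ) / 4))) := by
          refine Finset.sum_le_sum fun s hs => Finset.sum_le_sum fun s' hs' => ?_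
          exact term_le m hT s s' (hprod s hs) (hprod s' hs')
      _ = ∑ s ∈ S ×ˢ S, ((((S ×ˢ S).filter (fun s' => ∀ j, s.1 j * s.2 j = s'.1 j * s'.2 j)).card : ℝ) +
            (S.card : ℝ) ^ 2 * Real.exp (-(T ^ (4 * δ) / 4))) := by
          refine Finset.sum_congr rfl fun s _ => ?_
          rw [Finset.sum_add_distrib, Finset.sum_boole, Finset.sum_const, Finset.card_product, nsmul_eq_mul]
          push_cast
          ring
      _ ≤ ∑ s ∈ S ×ˢ S, (D ^ k * T ^ ε + (S.card : ℝ) ^ 2 * Real.exp (-(T ^ (4 * δ) / 4))) := by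
          refine Finset.sum_le_sum fun s hs => add_le_add ?_ le_rfl
          have h1 : (((S ×ˢ S).filter (fun s' => ∀ j, s.1 j * s.2 j = s'.1 j * s'.2 j)).card : ℝ) ≤
              ((∏ j, (Nat.divisors ((s.1 j * s.2 j : ℕ+) : ℕ)).card : ℕ) : ℝ) := by
            exact_mod_cast fib_card S s
          refine h1.trans ?_
          push_cast
          have h2 : ∏ j : Fin k, ((Nat.divisors ((s.1 j * s.2 j : ℕ+) : ℕ)).card : ℝ) ≤
              ∏ _j : Fin k, (D * T ^ (ε / (k + 1))) := by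
            refine Finset.prod_le_prod (fun _ _ => by positivity) fun j _ => ?_
            refine (hD _ (PNat.pos _).ne').trans ?_
            refine mul_le_mul_of_nonneg_left ?_ (by linarith)
            refine Real.rpow_le_rpow (by positivity) ?_ (by positivity)
            refine (hprod s hs j).trans ?_
            calc T ^ (1 - 2 * δ) ≤ T ^ (1:ℝ) := Real.rpow_le_rpow_of_exponent_le hT (by linarith)
              _ = T := Real.rpow_one T
          refine h2.trans ?_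
          rw [Finset.prod_const, Finset.card_univ, Fintype.card_fin, mul_pow]
          refine mul_le_mul_of_nonneg_left ?_ (by positivity)
          rw [← Real.rpow_natCast, ← Real.rpow_mul hT0.le]
          refine Real.rpow_le_rpow_of_exponent_le hT ?_
          rw [div_mul_eq_mul_div, div_le_iff₀ (by positivity)]
          nlinarith
      _ = (D ^ k * T ^ ε + (S.card : ℝ) ^ 2 * Real.exp (-(T ^ (4 * δ) / 4))) * (S.card : ℝ) ^ 2 := by
          rw [Finset.sum_const, Finset.card_product, nsmul_eq_mul]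
          push_cast
          ring
      _ ≤ (D ^ k * T ^ ε + E) * (S.card : ℝ) ^ 2 := by
          refine mul_le_mul_of_nonneg_right (add_le_add le_rfl ?_) (by positivity)
          have h3 : (S.card : ℝ) ≤ (T ^ (1 / 2 - δ)) ^ k := card_S S (by positivity) hS
          have h4 : (S.card : ℝ) ^ 2 ≤ T ^ k := by
            calc (S.card : ℝ) ^ 2 ≤ ((T ^ (1 / 2 - δ)) ^ k) ^ 2 := pow_le_pow_left₀ (by positivity) h3 2
              _ = (T ^ (1 / 2 - δ) * T ^ (1 / 2 - δ)) ^ k := by rw [← pow_mul, mul_comm k 2, pow_mul, sq]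
              _ ≤ T ^ k := by
                  refine pow_le_pow_left₀ (by positivity) ?_ k
                  rw [← Real.rpow_add hT0]
                  calc T ^ (1 / 2 - δ + (1 / 2 - δ)) ≤ T ^ (1:ℝ) :=
                        Real.rpow_le_rpow_of_exponent_le hT (by linarith)
                    _ = T := Real.rpow_one T
          exact (mul_le_mul_of_nonneg_right h4 (Real.exp_pos _).le).trans (hE T hT)
  have h5 : (1:ℝ) ≤ T ^ ε := Real.one_le_rpow hT hε.le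
  have h6 : T ^ ((k : ℝ) + ε) = T ^ k * T ^ ε := by rw [Real.rpow_add hT0, Real.rpow_natCast]
  have h7 : 0 ≤ (S.card : ℝ) ^ 2 := by positivity
  calc 3 ^ k * T ^ k * ∑ s ∈ S ×ˢ S, ∑ s' ∈ S ×ˢ S, ∏ j, Real.exp (-(T ^ 2 * (ff m s j - ff m s' j) ^ 2 / 4))
      ≤ 3 ^ k * T ^ k * ((D ^ k * T ^ ε + E) * (S.card : ℝ) ^ 2) :=
        mul_le_mul_of_nonneg_left hsum (by positivity)
    _ ≤ 3 ^ k * T ^ k * ((D ^ k * T ^ ε + E * T ^ ε) * (S.card : ℝ) ^ 2) := by
        refine mul_le_mul_of_nonneg_left ?_ (by positivity)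
        refine mul_le_mul_of_nonneg_right (add_le_add le_rfl ?_) h7
        nlinarith
    _ = 3 ^ k * (D ^ k + E) * T ^ ((k : ℝ) + ε) * (S.card : ℝ) ^ 2 := by
        rw [h6]
        ring

theorem PS_norm_le {k : ℕ} (m : ℕ) (S : Finset (Fin k → ℕ+)) (α : Fin k → ℝ) : ‖PS m S α‖ ≤ S.card := by
  unfold PS
  refine (norm_sum_le _ _).trans ?_
  have : ∀ x ∈ S, ‖∏ j, ex (α j) (fr m x j).1‖ ≤ 1 := by
    intro x _
    rw [norm_prod]
    simp only [norm_ex, Finset.prod_const_one, le_refl]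
  refine (Finset.sum_le_sum this).trans ?_
  simp

theorem PS_continuous {k : ℕ} (m : ℕ) (S : Finset (Fin k → ℕ+)) : Continuous (PS m S) := by
  have : (PS m S : (Fin k → ℝ) → ℂ) = fun α =>
      ∑ x ∈ S, cexp (((∑ j, α j * (-(IP4.sg m j * Real.log ((x j : ℕ) : ℝ))) : ℝ) : ℂ) * I) := by
    funext α
    exact IP4.PS_eq m S α
  rw [this]
  refine continuous_finsetSum _ fun x _ => ?_
  refine Complex.continuous_exp.comp (Continuous.mul ?_ continuous_const)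
  refine Complex.continuous_ofReal.comp ?_
  exact continuous_finsetSum _ fun j _ => (continuous_apply j).mul continuous_const

end Pool.Agent.P07318s
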