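import Pool.Agent.Lib.P07318s.Defs
import Pool.Agent.Lib.P07318s.HiDefs
import Pool.Agent.Lib.P07318s.IntP4
import Pool.Agent.Lib.P07318s.GaussOrth

/-!
Fourth moment of the test function when the coordinates `1, ..., n` determine the tuple. `gauss_orth` for all `n + 1` coordinates, the factor of the coordinate `0` being `≤ 1`.
-/

set_option autoImplicit false

namespace Pool.Agent.P07318s

open MeasureTheory Complex

/-- the sign of the coordinate `j` -/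
noncomputable def sgs {k : ℕ} (σ : Fin k → Bool) (j : Fin k) : ℝ := if σ j then 1 else -1

theorem lgr_frs {k : ℕ} (σ : Fin k → Bool) (x : Fin k → ℕ+) (j : Fin k) :
    lgr (frs σ x j).1 = sgs σ j * Real.log ((x j : ℕ) : ℝ) := by
  unfold frs sgs
  cases h : σ j
  · simp only [Bool.false_eq_true, if_false]
    rw [lgr_pc_false]
    ring
  · simp only [if_true]
    rw [lgr_pc_true, one_mul]

namespace HP4

open IP4

lemma sgs_abs {k : ℕ} (σ : Fin k → Bool) (j : Fin k) : |sgs σ j| = 1 := by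
  unfold sgs
  split_ifs <;> simp

/-- the frequencies of the square of the test function -/
noncomputable def fs {k : ℕ} (σ : Fin k → Bool) (s : (Fin k → ℕ+) × (Fin k → ℕ+)) (j : Fin k) : ℝ :=
  -(sgs σ j * Real.log (((s.1 j * s.2 j : ℕ+) : ℕ) : ℝ))

lemma PT_eq {k : ℕ} (σ : Fin k → Bool) (S : Finset (Fin k → ℕ+)) (α : Fin k → ℝ) :
    PT σ S α = ∑ x ∈ S, cexp (((∑ j, α j * (-(sgs σ j * Real.log ((x j : ℕ) : ℝ))) : ℝ) : ℂ) * I) := by
  unfold PT
  refine Finset.sum_congr rfl fun x _ => ?_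
  unfold ex
  rw [← Complex.exp_sum]
  congr 1
  push_cast
  rw [Finset.sum_mul]
  refine Finset.sum_congr rfl fun j _ => ?_
  rw [lgr_frs]
  push_cast
  ring

lemma PT_sq {k : ℕ} (σ : Fin k → Bool) (S : Finset (Fin k → ℕ+)) (α : Fin k → ℝ) :
    PT σ S α ^ 2 = ∑ s ∈ S ×ˢ S, (1 : ℂ) * cexp (((∑ j, α j * fs σ s j : ℝ) : ℂ) * I) := by
  rw [PT_eq, sq, Finset.sum_mul_sum, Finset.sum_product]
  refine Finset.sum_congr rfl fun x _ => Finset.sum_congr rfl fun y _ => ?_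
  rw [one_mul, ← Complex.exp_add]
  congr 1
  rw [← add_mul, ← Complex.ofReal_add]
  have key : (∑ j, α j * -(sgs σ j * Real.log ((x j : ℕ) : ℝ))) + (∑ j, α j * -(sgs σ j * Real.log ((y j : ℕ) : ℝ))) =
      ∑ j, α j * fs σ (x, y) j := by
    rw [← Finset.sum_add_distrib]
    refine Finset.sum_congr rfl fun j _ => ?_
    unfold fs
    have hx : ((x j : ℕ) : ℝ) ≠ 0 := by exact_mod_cast (x j).ne_zero
    have hy : ((y j : ℕ) : ℝ) ≠ 0 := by exact_mod_cast (y j).ne_zero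
    have : Real.log (((x j * y j : ℕ+) : ℕ) : ℝ) = Real.log ((x j : ℕ) : ℝ) + Real.log ((y j : ℕ) : ℝ) := by
      rw [PNat.mul_coe, Nat.cast_mul, Real.log_mul hx hy]
    simp only [this]
    ring
  rw [key]

lemma term_le {n : ℕ} (σ : Fin (n + 1) → Bool) {T δ : ℝ} (hT : 1 ≤ T)
    (s s' : (Fin (n + 1) → ℕ+) × (Fin (n + 1) → ℕ+))
    (hs : ∀ j : Fin n, (((s.1 j.succ * s.2 j.succ : ℕ+) : ℕ) : ℝ) ≤ T ^ (1 - 2 * δ))
    (hs' : ∀ j : Fin n, (((s'.1 j.succ * s'.2 j.succ : ℕ+) : ℕ) : ℝ) ≤ T ^ (1 - 2 * δ)) :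
    ∏ j, Real.exp (-(T ^ 2 * (fs σ s j - fs σ s' j) ^ 2 / 4)) ≤
      (if (∀ j : Fin n, s.1 j.succ * s.2 j.succ = s'.1 j.succ * s'.2 j.succ) then 1 else 0) +
        Real.exp (-(T ^ (4 * δ) / 4)) := by
  have hT0 : 0 < T := by linarith
  have hg : ∀ i : Fin (n + 1), 0 ≤ Real.exp (-(T ^ 2 * (fs σ s i - fs σ s' i) ^ 2 / 4)) ∧
      Real.exp (-(T ^ 2 * (fs σ s i - fs σ s' i) ^ 2 / 4)) ≤ 1 := by
    intro i
    refine ⟨(Real.exp_pos _).le, ?_⟩
    rw [Real.exp_le_one_iff]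
    have : 0 ≤ T ^ 2 * (fs σ s i - fs σ s' i) ^ 2 / 4 := by positivity
    linarith
  split_ifs with h
  · have : ∏ j, Real.exp (-(T ^ 2 * (fs σ s j - fs σ s' j) ^ 2 / 4)) ≤ 1 :=
      Finset.prod_le_one (fun i _ => (hg i).1) fun i _ => (hg i).2
    have := Real.exp_pos (-(T ^ (4 * δ) / 4))
    linarith
  · push Not at h
    obtain ⟨j, hj⟩ := h
    rw [zero_add]
    refine prod_le_one_term _ j.succ hg ?_
    rw [Real.exp_le_exp, neg_le_neg_iff]
    have hne : ((s.1 j.succ * s.2 j.succ : ℕ+) : ℕ) ≠ ((s'.1 j.succ * s'.2 j.succ : ℕ+) : ℕ) :=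
      fun h => hj (PNat.coe_injective h)
    have hgap := LowY.log_gap (PNat.pos _) (PNat.pos _) hne (hs j) (hs' j)
    have e1 : |fs σ s j.succ - fs σ s' j.succ| =
        |Real.log (((s.1 j.succ * s.2 j.succ : ℕ+) : ℕ) : ℝ) -
          Real.log (((s'.1 j.succ * s'.2 j.succ : ℕ+) : ℕ) : ℝ)| := by
      have : fs σ s j.succ - fs σ s' j.succ = (-(sgs σ j.succ)) *
          (Real.log (((s.1 j.succ * s.2 j.succ : ℕ+) : ℕ) : ℝ) -
            Real.log (((s'.1 j.succ * s'.2 j.succ : ℕ+) : ℕ) : ℝ)) := by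
        unfold fs
        ring
      rw [this, abs_mul, abs_neg, sgs_abs, one_mul]
    rw [← e1] at hgap
    have h2 : (1 / T ^ (1 - 2 * δ)) ^ 2 ≤ (fs σ s j.succ - fs σ s' j.succ) ^ 2 := by
      rw [← sq_abs (fs σ s j.succ - fs σ s' j.succ)]
      exact pow_le_pow_left₀ (by positivity) hgap 2
    have h3 : T ^ 2 * (1 / T ^ (1 - 2 * δ)) ^ 2 = T ^ (4 * δ) := by
      rw [← Real.rpow_natCast T 2, one_div, ← Real.rpow_neg hT0.le, ← Real.rpow_natCast (T ^ (-(1 - 2 * δ))) 2,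
        ← Real.rpow_mul hT0.le, ← Real.rpow_add hT0]
      congr 1
      push_cast
      ring
    have h4 := mul_le_mul_of_nonneg_left h2 (by positivity : (0:ℝ) ≤ T ^ 2)
    rw [h3] at h4
    linarith

open Classical in
lemma fib_card {n : ℕ} (S : Finset (Fin (n + 1) → ℕ+))
    (hdet : ∀ x ∈ S, ∀ y ∈ S, (∀ j : Fin n, x j.succ = y j.succ) → x = y)
    (s : (Fin (n + 1) → ℕ+) × (Fin (n + 1) → ℕ+)) :
    ((S ×ˢ S).filter (fun s' => ∀ j : Fin n, s.1 j.succ * s.2 j.succ = s'.1 j.succ * s'.2 j.succ)).card ≤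
      ∏ j : Fin n, (Nat.divisors ((s.1 j.succ * s.2 j.succ : ℕ+) : ℕ)).card := by
  rw [← Fintype.card_piFinset]
  refine Finset.card_le_card_of_injOn (fun s' (j : Fin n) => ((s'.1 j.succ : ℕ+) : ℕ)) ?_ ?_
  · intro s' hs'
    rw [Finset.mem_coe, Finset.mem_filter] at hs'
    rw [Finset.mem_coe, Fintype.mem_piFinset]
    intro j
    rw [Nat.mem_divisors]
    refine ⟨?_, (PNat.pos _).ne'⟩
    rw [hs'.2 j, PNat.mul_coe]
    exact Dvd.intro _ rfl
  · intro s1 h1 s2 h2 h12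
    rw [Finset.mem_coe, Finset.mem_filter, Finset.mem_product] at h1 h2
    have e0 : ∀ j : Fin n, s1.1 j.succ = s2.1 j.succ := fun j => PNat.coe_injective (congrFun h12 j)
    have e1 : s1.1 = s2.1 := hdet _ h1.1.1 _ h2.1.1 e0
    have e2 : s1.2 = s2.2 := by
      refine hdet _ h1.1.2 _ h2.1.2 fun j => ?_
      have a1 := h1.2 j
      have a2 := h2.2 j
      rw [a1, e1] at a2
      exact mul_left_cancel a2
    exact Prod.ext e1 e2

open Classical in
lemma card_S {n : ℕ} (S : Finset (Fin (n + 1) → ℕ+))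
    (hdet : ∀ x ∈ S, ∀ y ∈ S, (∀ j : Fin n, x j.succ = y j.succ) → x = y) {X : ℝ} (hX : 0 ≤ X)
    (hS : ∀ x ∈ S, ∀ j : Fin n, ((x j.succ : ℕ) : ℝ) ≤ X) : (S.card : ℝ) ≤ X ^ n := by
  have h : S.card ≤ (Fintype.piFinset fun _ : Fin n => Finset.Icc 1 ⌊X⌋₊).card := by
    refine Finset.card_le_card_of_injOn (fun x (j : Fin n) => ((x j.succ : ℕ+) : ℕ)) ?_ ?_
    · intro x hx
      rw [Finset.mem_coe, Fintype.mem_piFinset]
      intro j
      rw [Finset.mem_Icc]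
      exact ⟨(x j.succ).pos, Nat.le_floor (hS x hx j)⟩
    · intro x hx y hy hxy
      exact hdet x hx y hy fun j => PNat.coe_injective (congrFun hxy j)
  rw [Fintype.card_piFinset] at h
  simp only [Nat.card_Icc, Nat.add_sub_cancel, Finset.prod_const, Finset.card_univ, Fintype.card_fin] at h
  calc (S.card : ℝ) ≤ ((⌊X⌋₊ ^ n : ℕ) : ℝ) := by exact_mod_cast h
    _ = (⌊X⌋₊ : ℝ) ^ n := by push_cast; rfl
    _ ≤ X ^ n := pow_le_pow_left₀ (by positivity) (Nat.floor_le hX) n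

end HP4

theorem PT_continuous {k : ℕ} (σ : Fin k → Bool) (S : Finset (Fin k → ℕ+)) : Continuous (PT σ S) := by
  have : (PT σ S : (Fin k → ℝ) → ℂ) = fun α =>
      ∑ x ∈ S, cexp (((∑ j, α j * (-(sgs σ j * Real.log ((x j : ℕ) : ℝ))) : ℝ) : ℂ) * I) := by
    funext α
    exact HP4.PT_eq σ S α
  rw [this]
  refine continuous_finsetSum _ fun x _ => ?_
  refine Complex.continuous_exp.comp (Continuous.mul ?_ continuous_const)
  refine Complex.continuous_ofReal.comp ?_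
  exact continuous_finsetSum _ fun j _ => (continuous_apply j).mul continuous_const

open IP4 HP4 in
theorem low_P4_hi (n : ℕ) (δ ε : ℝ) (hδ : 0 < δ) (hε : 0 < ε) : ∃ C : ℝ, 0 < C ∧ ∀ (T : ℝ) (β : Fin (n + 1) → ℝ)
    (σ : Fin (n + 1) → Bool) (S : Finset (Fin (n + 1) → ℕ+)), 1 ≤ T →
    (∀ x ∈ S, ∀ j : Fin n, ((x j.succ : ℕ) : ℝ) ≤ T ^ (1 / 2 - δ)) →
    (∀ x ∈ S, ∀ y ∈ S, (∀ j : Fin n, x j.succ = y j.succ) → x = y) →
    ∫ α in Set.Icc β (fun j => β j + T), ‖PT σ S α‖ ^ 4 ≤ C * T ^ (((n + 1 : ℕ) : ℝ) + ε) * (S.card : ℝ) ^ 2 := by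
  classical
  obtain ⟨D, hD1, hD⟩ := Pool.Agent.Lib.P5632c9.card_divisors_le (ε / (n + 1)) (by positivity)
  obtain ⟨E, hE0, hE⟩ := exp_dec n δ hδ
  refine ⟨3 ^ (n + 1) * (D ^ n + E), by positivity, fun T β σ S hT hS hdet => ?_⟩
  have hT0 : 0 < T := by linarith
  have hprod : ∀ s ∈ S ×ˢ S, ∀ j : Fin n, (((s.1 j.succ * s.2 j.succ : ℕ+) : ℕ) : ℝ) ≤ T ^ (1 - 2 * δ) := by
    intro s hs j
    rw [Finset.mem_product] at hs
    have h1 := hS _ hs.1 j
    have h2 := hS _ hs.2 j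
    rw [PNat.mul_coe, Nat.cast_mul]
    calc ((s.1 j.succ : ℕ) : ℝ) * ((s.2 j.succ : ℕ) : ℝ) ≤ T ^ (1 / 2 - δ) * T ^ (1 / 2 - δ) :=
          mul_le_mul h1 h2 (by positivity) (by positivity)
      _ = T ^ (1 - 2 * δ) := by
          rw [← Real.rpow_add hT0]
          congr 1
          ring
  have hmain := gauss_orth (n + 1) (S ×ˢ S) (fs σ) (fun _ => (1:ℂ)) T hT0 β
  have e1 : ∀ α : Fin (n + 1) → ℝ, ‖∑ s ∈ S ×ˢ S, (1:ℂ) * cexp (((∑ j, α j * fs σ s j : ℝ) : ℂ) * I)‖ ^ 2 =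
      ‖PT σ S α‖ ^ 4 := by
    intro α
    rw [← PT_sq, norm_pow]
    ring
  simp_rw [e1] at hmain
  refine hmain.trans ?_
  simp only [norm_one, mul_one, one_mul]
  -- the sum
  have hsum : ∑ s ∈ S ×ˢ S, ∑ s' ∈ S ×ˢ S, ∏ j, Real.exp (-(T ^ 2 * (fs σ s j - fs σ s' j) ^ 2 / 4)) ≤
      (D ^ n * T ^ ε + E) * (S.card : ℝ) ^ 2 := by
    calc ∑ s ∈ S ×ˢ S, ∑ s' ∈ S ×ˢ S, ∏ j, Real.exp (-(T ^ 2 * (fs σ s j - fs σ s' j) ^ 2 / 4))
        ≤ ∑ s ∈ S ×ˢ S, ∑ s' ∈ S ×ˢ S, ((if (∀ j : Fin n, s.1 j.succ * s.2 j.succ =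
            s'.1 j.succ * s'.2 j.succ) then (1:ℝ) else 0) + Real.exp (-(T ^ (4 * δ) / 4))) := by
          refine Finset.sum_le_sum fun s hs => Finset.sum_le_sum fun s' hs' => ?_
          exact HP4.term_le σ hT s s' (hprod s hs) (hprod s' hs')
      _ = ∑ s ∈ S ×ˢ S, ((((S ×ˢ S).filter (fun s' => ∀ j : Fin n, s.1 j.succ * s.2 j.succ =
            s'.1 j.succ * s'.2 j.succ)).card : ℝ) + (S.card : ℝ) ^ 2 * Real.exp (-(T ^ (4 * δ) / 4))) := by
          refine Finset.sum_congr rfl fun s _ => ?_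
          rw [Finset.sum_add_distrib, Finset.sum_boole, Finset.sum_const, Finset.card_product, nsmul_eq_mul]
          push_cast
          ring
      _ ≤ ∑ s ∈ S ×ˢ S, (D ^ n * T ^ ε + (S.card : ℝ) ^ 2 * Real.exp (-(T ^ (4 * δ) / 4))) := by
          refine Finset.sum_le_sum fun s hs => add_le_add ?_ le_rfl
          have h1 : (((S ×ˢ S).filter (fun s' => ∀ j : Fin n, s.1 j.succ * s.2 j.succ =
              s'.1 j.succ * s'.2 j.succ)).card : ℝ) ≤
              ((∏ j : Fin n, (Nat.divisors ((s.1 j.succ * s.2 j.succ : ℕ+) : ℕ)).card : ℕ) : ℝ) := by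
            exact_mod_cast HP4.fib_card S hdet s
          refine h1.trans ?_
          push_cast
          have h2 : ∏ j : Fin n, ((Nat.divisors ((s.1 j.succ * s.2 j.succ : ℕ+) : ℕ)).card : ℝ) ≤
              ∏ _j : Fin n, (D * T ^ (ε / (n + 1))) := by
            refine Finset.prod_le_prod (fun _ _ => by positivity) fun j _ => ?_
            refine (hD _ (PNat.pos _).ne').trans ?_
            refine mul_le_mul_of_nonneg_left ?_ (by linarith)
            refine Real.rpow_le_rpow (by positivity) ?_ (by positivity)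
            refine (hprod s hs j).trans ?_
            calc T ^ (1 - 2 * δ) ≤ T ^ (1:ℝ) := Real.rpow_le_rpow_of_exponent_le hT (by linarith)
              _ = T := Real.rpow_one T
          refine h2.trans ?_
          rw [Finset.prod_const, Finset.card_univ, Fintype.card_fin, mul_pow]
          refine mul_le_mul_of_nonneg_left ?_ (by positivity)
          rw [← Real.rpow_natCast, ← Real.rpow_mul hT0.le]
          refine Real.rpow_le_rpow_of_exponent_le hT ?_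
          rw [div_mul_eq_mul_div, div_le_iff₀ (by positivity)]
          nlinarith
      _ = (D ^ n * T ^ ε + (S.card : ℝ) ^ 2 * Real.exp (-(T ^ (4 * δ) / 4))) * (S.card : ℝ) ^ 2 := by
          rw [Finset.sum_const, Finset.card_product, nsmul_eq_mul]
          push_cast
          ring
      _ ≤ (D ^ n * T ^ ε + E) * (S.card : ℝ) ^ 2 := by
          refine mul_le_mul_of_nonneg_right (add_le_add le_rfl ?_) (by positivity)
          have h3 : (S.card : ℝ) ≤ (T ^ (1 / 2 - δ)) ^ n := HP4.card_S S hdet (by positivity) hS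
          have h4 : (S.card : ℝ) ^ 2 ≤ T ^ n := by
            calc (S.card : ℝ) ^ 2 ≤ ((T ^ (1 / 2 - δ)) ^ n) ^ 2 := pow_le_pow_left₀ (by positivity) h3 2
              _ = (T ^ (1 / 2 - δ) * T ^ (1 / 2 - δ)) ^ n := by rw [← pow_mul, mul_comm n 2, pow_mul, sq]
              _ ≤ T ^ n := by
                  refine pow_le_pow_left₀ (by positivity) ?_ n
                  rw [← Real.rpow_add hT0]
                  calc T ^ (1 / 2 - δ + (1 / 2 - δ)) ≤ T ^ (1:ℝ) :=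
                        Real.rpow_le_rpow_of_exponent_le hT (by linarith)
                    _ = T := Real.rpow_one T
          exact (mul_le_mul_of_nonneg_right h4 (Real.exp_pos _).le).trans (hE T hT)
  have h5 : (1:ℝ) ≤ T ^ ε := Real.one_le_rpow hT hε.le
  have h6 : T ^ (((n + 1 : ℕ) : ℝ) + ε) = T ^ (n + 1) * T ^ ε := by rw [Real.rpow_add hT0, Real.rpow_natCast]
  have h7 : 0 ≤ (S.card : ℝ) ^ 2 := by positivity
  calc 3 ^ (n + 1) * T ^ (n + 1) * ∑ s ∈ S ×ˢ S, ∑ s' ∈ S ×ˢ S, ∏ j, Real.exp (-(T ^ 2 * (fs σ s j - fs σ s' j) ^ 2 / 4))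
      ≤ 3 ^ (n + 1) * T ^ (n + 1) * ((D ^ n * T ^ ε + E) * (S.card : ℝ) ^ 2) :=
        mul_le_mul_of_nonneg_left hsum (by positivity)
    _ ≤ 3 ^ (n + 1) * T ^ (n + 1) * ((D ^ n * T ^ ε + E * T ^ ε) * (S.card : ℝ) ^ 2) := by
        refine mul_le_mul_of_nonneg_left ?_ (by positivity)
        refine mul_le_mul_of_nonneg_right (add_le_add le_rfl ?_) h7
        nlinarith
    _ = 3 ^ (n + 1) * (D ^ n + E) * T ^ (((n + 1 : ℕ) : ℝ) + ε) * (S.card : ℝ) ^ 2 := by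
        rw [h6]
        ring

end Pool.Agent.P07318s
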