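import Pool.Agent.Lib.P07318s.Defs
import Pool.Agent.Lib.P07318s.IntDefs
import Pool.Agent.Lib.P07318d.DivSum
import Pool.Agent.Lib.P5632c9.DivBound

/-!
Number of frequencies. Let `X` be the set of the `u : Fin m → [B, 2B)`, `|X| = B^m`, `f(u) = ∑ log u_j ∈ [m log B, m log B + m log 2]`. Divide this interval in at most `m log 2 · V + 1 ≤ (m+1) V`
intervals of length `≤ 1/V`: by Cauchy-Schwarz (pigeonhole, `Finset.sum_card_sq` / `inner_mul_le_norm_mul_norm`) the number of pairs `(u,v)` with `|f(u) - f(v)| ≤ 1/V` is `≥ B^(2m)/((m+1) V)`. The pairs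
with `f(u) = f(v)`, i.e. `∏ u = ∏ v`: for given `u` at most `d(∏ u)^m ≤ C B^ε` choices of `v`; so they are `≤ C B^(m+ε)`, at most half of the above if `B^m ≥ C' V B^ε`. The pair `(u,v)` corresponds to
`x ∈ SS k m B V`: `x_j = u_j (j < m)`, `x_(m+j) = v_j (j < m)`, `x_j = 1 (j ≥ 2m)`, `lamx m x = f(u) - f(v)`. Divisor bound: see `P07318d.divsum_le` and the modules Outer, LowY.
-/

set_option autoImplicit false

namespace Pool.Agent.P07318s

open MeasureTheory Complex

namespace IntCard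

open Finset

/-- `∑ log u_j` -/
noncomputable def ff {m : ℕ} (u : Fin m → ℕ+) : ℝ := ∑ j, Real.log ((u j : ℕ) : ℝ)

/-- the tuple of the pair -/
def xx (k m : ℕ) (u v : Fin m → ℕ+) (j : Fin k) : ℕ+ :=
  if h : (j : ℕ) < m then u ⟨j, h⟩ else
    if h2 : (j : ℕ) < 2 * m then v ⟨(j : ℕ) - m, by omega⟩ else 1

theorem lamx_xx (k m : ℕ) (hk : 2 * m ≤ k) (u v : Fin m → ℕ+) :
    lamx m (xx k m u v) = ff u - ff v := by
  set G : ℕ → ℝ := fun i => if h : i < m then Real.log ((u ⟨i, h⟩ : ℕ) : ℝ) else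
    if h2 : i < 2 * m then -Real.log ((v ⟨i - m, by omega⟩ : ℕ) : ℝ) else 0 with hG
  have h1 : lamx m (xx k m u v) = ∑ j : Fin k, G j := by
    unfold lamx lam
    refine sum_congr rfl (fun j _ => ?_)
    simp only [fr, hG, xx]
    by_cases h : (j : ℕ) < m
    · simp only [h, decide_true, dif_pos, lgr_pc_true]
    · simp only [h, decide_false, dif_neg, not_false_eq_true, lgr_pc_false]
      by_cases h2 : (j : ℕ) < 2 * m
      · simp only [h2, dif_pos]
      · simp only [h2, dif_neg, not_false_eq_true]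
        simp
  rw [h1, Fin.sum_univ_eq_sum_range (fun i => G i) k]
  have h2 : ∑ i ∈ range k, G i = ∑ i ∈ range (m + m), G i := by
    symm
    refine sum_subset (range_subset_range.2 (by omega)) (fun i _ hi => ?_)
    rw [mem_range, not_lt] at hi
    simp only [hG]
    rw [dif_neg (by omega), dif_neg (by omega)]
  rw [h2, sum_range_add]
  have h3 : ∑ i ∈ range m, G i = ff u := by
    unfold ff
    rw [← Fin.sum_univ_eq_sum_range (fun i => G i) m]
    refine sum_congr rfl (fun j _ => ?_)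
    simp only [hG]
    rw [dif_pos j.2]
  have h4 : ∑ i ∈ range m, G (m + i) = -ff v := by
    unfold ff
    rw [← Fin.sum_univ_eq_sum_range (fun i => G (m + i)) m, ← sum_neg_distrib]
    refine sum_congr rfl (fun j _ => ?_)
    simp only [hG]
    have := j.2
    rw [dif_neg (by omega), dif_pos (by omega)]
    have h5 : (⟨m + (j : ℕ) - m, by omega⟩ : Fin m) = j := Fin.ext (by simp)
    rw [h5]
  rw [h3, h4]
  ring

theorem xx_inj (k m : ℕ) (hk : 2 * m ≤ k) (u v u' v' : Fin m → ℕ+)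
    (h : xx k m u v = xx k m u' v') : u = u' ∧ v = v' := by
  constructor
  · funext j
    have := congrFun h ⟨j, by have := j.2; omega⟩
    unfold xx at this
    simpa using this
  · funext j
    have h1 := congrFun h ⟨m + j, by have := j.2; omega⟩
    unfold xx at h1
    have h2 : ¬ (m + (j : ℕ) < m) := by omega
    have h3 : m + (j : ℕ) < 2 * m := by have := j.2; omega
    simp only [h2, h3, dif_pos, dif_neg, not_false_eq_true] at h1
    simpa using h1

/-- the set of the `u` -/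
def XX (m : ℕ) (B : ℕ+) : Finset (Fin m → ℕ+) := Fintype.piFinset (fun _ => Ico B (2 * B))

theorem card_XX (m : ℕ) (B : ℕ+) : (XX m B).card = (B : ℕ) ^ m := by
  unfold XX
  rw [Fintype.card_piFinset, prod_const, card_univ, Fintype.card_fin, PNat.card_Ico]
  congr 1
  rw [PNat.mul_coe]
  simp
  omega

theorem mem_XX {m : ℕ} {B : ℕ+} {u : Fin m → ℕ+} (hu : u ∈ XX m B) (j : Fin m) :
    (B : ℕ) ≤ (u j : ℕ) ∧ (u j : ℕ) < 2 * B := by
  have h := Fintype.mem_piFinset.1 hu j
  rw [mem_Ico] at h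
  refine ⟨by exact_mod_cast h.1, ?_⟩
  have := h.2
  rw [← PNat.coe_lt_coe, PNat.mul_coe] at this
  simpa using this

open Classical in
theorem mem_SS (k m : ℕ) (hk : 2 * m ≤ k) (B : ℕ+) (V : ℝ) (u v : Fin m → ℕ+)
    (hu : u ∈ XX m B) (hv : v ∈ XX m B) (h1 : ff u ≠ ff v) (h2 : |ff u - ff v| ≤ 1 / V) :
    xx k m u v ∈ SS k m B V := by
  unfold SS
  rw [mem_filter, Fintype.mem_piFinset]
  refine ⟨fun j => ?_, ?_, ?_⟩
  · unfold xx
    by_cases h : (j : ℕ) < m
    · rw [if_pos (by omega), dif_pos h]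
      exact Fintype.mem_piFinset.1 hu _
    · by_cases h' : (j : ℕ) < 2 * m
      · rw [if_pos h', dif_neg h, dif_pos h']
        exact Fintype.mem_piFinset.1 hv _
      · rw [if_neg h', dif_neg h, dif_neg h']
        exact mem_singleton_self _
  · rw [lamx_xx k m hk]
    exact sub_ne_zero.2 h1
  · rw [lamx_xx k m hk]
    exact h2

theorem ff_eq {m : ℕ} (u : Fin m → ℕ+) : ff u = Real.log (((∏ j, (u j : ℕ) : ℕ)) : ℝ) := by
  unfold ff
  rw [Nat.cast_prod, Real.log_prod]
  intro j _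
  have := (u j).pos
  positivity

theorem prod_eq_of_ff {m : ℕ} {u v : Fin m → ℕ+} (h : ff u = ff v) :
    ∏ j, (u j : ℕ) = ∏ j, (v j : ℕ) := by
  rw [ff_eq, ff_eq] at h
  have h1 : (0 : ℝ) < ((∏ j, (u j : ℕ) : ℕ) : ℝ) := by
    exact_mod_cast prod_pos (fun j _ => (u j).pos)
  have h2 : (0 : ℝ) < ((∏ j, (v j : ℕ) : ℕ) : ℝ) := by
    exact_mod_cast prod_pos (fun j _ => (v j).pos)
  have h3 := Real.log_injOn_pos (Set.mem_Ioi.2 h1) (Set.mem_Ioi.2 h2) h
  exact_mod_cast h3

theorem card_same {m : ℕ} (s : Finset (Fin m → ℕ+)) (u : Fin m → ℕ+) :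
    (s.filter (fun v => ff u = ff v)).card ≤ ((∏ j, (u j : ℕ)).divisors.card) ^ m := by
  classical
  have h1 : (s.filter (fun v => ff u = ff v)).card ≤
      (Fintype.piFinset (fun _ : Fin m => (∏ j, (u j : ℕ)).divisors)).card := by
    refine card_le_card_of_injOn (fun v j => (v j : ℕ)) ?_ ?_
    · intro v hv
      rw [mem_coe, mem_filter] at hv
      rw [mem_coe, Fintype.mem_piFinset]
      intro j
      rw [Nat.mem_divisors]
      refine ⟨?_, (prod_pos (fun j _ => (u j).pos)).ne'⟩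
      rw [prod_eq_of_ff hv.2]
      exact dvd_prod_of_mem (fun j => (v j : ℕ)) (mem_univ j)
    · intro v _ v' _ h
      funext j
      exact PNat.coe_injective (congrFun h j)
  refine h1.trans ?_
  rw [Fintype.card_piFinset, prod_const, card_univ, Fintype.card_fin]

/-- Cauchy-Schwarz: pairs in the same class. -/
theorem pairs_ge {α : Type} [DecidableEq α] (s : Finset α) (b : α → ℕ) (L : ℕ)
    (hb : ∀ u ∈ s, b u < L) :
    (s.card) ^ 2 ≤ L * ((s ×ˢ s).filter (fun p => b p.1 = b p.2)).card := by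
  have h1 : s.card = ∑ i ∈ range L, (s.filter (fun u => b u = i)).card :=
    card_eq_sum_card_fiberwise (fun u hu => by simpa using hb u hu)
  have h2 : ((s ×ˢ s).filter (fun p => b p.1 = b p.2)).card =
      ∑ i ∈ range L, (s.filter (fun u => b u = i)).card ^ 2 := by
    rw [card_eq_sum_card_fiberwise (f := fun p : α × α => b p.1) (t := range L)
      (fun p hp => by
        have := (mem_product.1 (mem_filter.1 hp).1).1
        simpa using hb p.1 this)]
    refine sum_congr rfl (fun i _ => ?_)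
    rw [filter_filter, sq, ← card_product]
    congr 1
    ext p
    simp only [mem_filter, mem_product]
    constructor
    · rintro ⟨⟨h3, h4⟩, h5, h6⟩
      exact ⟨⟨h3, h6⟩, h4, by rw [← h5, h6]⟩
    · rintro ⟨⟨h3, h6⟩, h4, h5⟩
      exact ⟨⟨h3, h4⟩, by rw [h5, h6], h6⟩
  have h3 := sq_sum_le_card_mul_sum_sq (s := range L)
    (f := fun i => (s.filter (fun u => b u = i)).card)
  rw [card_range] at h3
  rw [h1, h2]
  exact_mod_cast h3

end IntCard

open Finset IntCard in
theorem int_card (m : ℕ) (hm : 1 ≤ m) (ε : ℝ) (hε : 0 < ε) : ∃ C : ℝ, 1 ≤ C ∧ ∀ k : ℕ, 2 * m ≤ k → ∀ (B : ℕ+) (V : ℝ),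
    1 ≤ V → C * V * ((B : ℕ) : ℝ) ^ ε ≤ ((B : ℕ) : ℝ) ^ m →
    ((B : ℕ) : ℝ) ^ (2 * m) ≤ C * V * ((SS k m B V).card : ℝ) := by
  classical
  have hm0 : (0 : ℝ) < m := by exact_mod_cast hm
  obtain ⟨D, hD1, hD⟩ := Pool.Agent.Lib.P5632c9.card_divisors_le (ε / m ^ 2) (by positivity)
  set C1 : ℝ := D ^ m * 2 ^ ε with hC1
  have hC1pos : 1 ≤ C1 := by
    rw [hC1]
    have h1 : (1 : ℝ) ≤ D ^ m := one_le_pow₀ hD1
    have h2 : (1 : ℝ) ≤ 2 ^ ε := Real.one_le_rpow (by norm_num) hε.le
    nlinarith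
  refine ⟨2 * (m + 1) * C1, by nlinarith, ?_⟩
  intro k hk B V hV hB
  set b : ℝ := ((B : ℕ) : ℝ) with hb
  have hb1 : 1 ≤ b := by rw [hb]; exact_mod_cast B.pos
  have hb0 : 0 < b := by linarith
  have hV0 : 0 < V := by linarith
  -- the range of `ff`
  have hlo : ∀ u ∈ XX m B, m * Real.log b ≤ ff u := by
    intro u hu
    unfold ff
    have h1 : ∑ _j : Fin m, Real.log b = m * Real.log b := by simp
    rw [← h1]
    refine sum_le_sum (fun j _ => Real.log_le_log hb0 ?_)
    exact Nat.cast_le.2 (mem_XX hu j).1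
  have hhi : ∀ u ∈ XX m B, ff u ≤ m * Real.log b + m := by
    intro u hu
    unfold ff
    have h1 : ∑ _j : Fin m, (Real.log b + 1) = m * Real.log b + m := by
      simp
    rw [← h1]
    refine sum_le_sum (fun j _ => ?_)
    have h2 : ((u j : ℕ) : ℝ) ≤ 2 * b := by
      rw [hb]; exact_mod_cast (mem_XX hu j).2.le
    have h3 : (0 : ℝ) < ((u j : ℕ) : ℝ) := by exact_mod_cast (u j).pos
    calc Real.log ((u j : ℕ) : ℝ) ≤ Real.log (2 * b) := Real.log_le_log h3 h2
      _ = Real.log 2 + Real.log b := Real.log_mul (by norm_num) hb0.ne'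
      _ ≤ Real.log b + 1 := by linarith [Real.log_two_lt_d9]
  -- the classes
  let cls : (Fin m → ℕ+) → ℕ := fun u => ⌊V * (ff u - m * Real.log b)⌋₊
  set L : ℕ := ⌊V * m⌋₊ + 1 with hL
  have hcls : ∀ u ∈ XX m B, cls u < L := by
    intro u hu
    rw [hL]
    apply Nat.lt_succ_of_le
    apply Nat.floor_mono
    apply mul_le_mul_of_nonneg_left _ hV0.le
    linarith [hhi u hu]
  have hLle : (L : ℝ) ≤ (m + 1) * V := by
    rw [hL]
    push_cast
    have := Nat.floor_le (show 0 ≤ V * m by positivity)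
    nlinarith
  have hpairs := pairs_ge (XX m B) cls L hcls
  rw [card_XX] at hpairs
  set P := ((XX m B) ×ˢ (XX m B)).filter (fun p => cls p.1 = cls p.2) with hP
  have hPge : b ^ (2 * m) ≤ (m + 1) * V * P.card := by
    have h1 : ((B : ℕ) ^ m : ℝ) ^ 2 ≤ L * P.card := by exact_mod_cast hpairs
    calc b ^ (2 * m) = (((B : ℕ) : ℝ) ^ m) ^ 2 := by rw [hb, ← pow_mul, mul_comm]
      _ ≤ L * P.card := h1
      _ ≤ (m + 1) * V * P.card := mul_le_mul_of_nonneg_right hLle (Nat.cast_nonneg _)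
  -- pairs with the same value
  have hsame : ((P.filter (fun p => ff p.1 = ff p.2)).card : ℝ) ≤ C1 * b ^ ε * b ^ m := by
    have h1 : (P.filter (fun p => ff p.1 = ff p.2)) ⊆
        ((XX m B) ×ˢ (XX m B)).filter (fun p => ff p.1 = ff p.2) := by
      intro p hp
      rw [mem_filter] at hp ⊢
      exact ⟨(mem_filter.1 hp.1).1, hp.2⟩
    have h2 : (((XX m B) ×ˢ (XX m B)).filter (fun p => ff p.1 = ff p.2)).card =
        ∑ u ∈ XX m B, ((XX m B).filter (fun v => ff u = ff v)).card := by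
      rw [card_filter, sum_product]
      refine sum_congr rfl (fun u _ => ?_)
      rw [card_filter]
    have h3 : ∀ u ∈ XX m B, (((XX m B).filter (fun v => ff u = ff v)).card : ℝ) ≤
        C1 * b ^ ε := by
      intro u hu
      have h4 := card_same (XX m B) u
      set Nn : ℕ := ∏ j, (u j : ℕ) with hNn
      have hN0 : Nn ≠ 0 := (prod_pos (fun j _ => (u j).pos)).ne'
      have h5 := hD Nn hN0
      have h6 : (Nn : ℝ) ≤ (2 * b) ^ m := by
        rw [hNn, Nat.cast_prod]
        calc ∏ j, ((u j : ℕ) : ℝ) ≤ ∏ _j : Fin m, (2 * b) := by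
              refine prod_le_prod (fun j _ => Nat.cast_nonneg _) (fun j _ => ?_)
              rw [hb]; exact_mod_cast (mem_XX hu j).2.le
          _ = (2 * b) ^ m := by simp
      have h7 : (Nn.divisors.card : ℝ) ≤ D * ((2 * b) ^ m) ^ (ε / m ^ 2) := by
        refine h5.trans (mul_le_mul_of_nonneg_left ?_ (by linarith))
        exact Real.rpow_le_rpow (Nat.cast_nonneg _) h6 (by positivity)
      have h8 : (D * ((2 * b) ^ m) ^ (ε / m ^ 2)) ^ m = C1 * b ^ ε := by
        rw [mul_pow, hC1]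
        have h9 : (((2 * b) ^ m) ^ (ε / m ^ 2)) ^ m = 2 ^ ε * b ^ ε := by
          rw [← Real.rpow_natCast (((2 * b) ^ m) ^ (ε / m ^ 2)) m,
            ← Real.rpow_natCast (2 * b) m, ← Real.rpow_mul (by positivity),
            ← Real.rpow_mul (by positivity), ← Real.mul_rpow (by norm_num) hb0.le]
          congr 1
          field_simp
        rw [h9]; ring
      calc (((XX m B).filter (fun v => ff u = ff v)).card : ℝ)
          ≤ ((Nn.divisors.card : ℝ)) ^ m := by exact_mod_cast h4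
        _ ≤ (D * ((2 * b) ^ m) ^ (ε / m ^ 2)) ^ m :=
            pow_le_pow_left₀ (Nat.cast_nonneg _) h7 m
        _ = _ := h8
    calc ((P.filter (fun p => ff p.1 = ff p.2)).card : ℝ)
        ≤ (((XX m B) ×ˢ (XX m B)).filter (fun p => ff p.1 = ff p.2)).card := by
          exact_mod_cast card_le_card h1
      _ = ∑ u ∈ XX m B, (((XX m B).filter (fun v => ff u = ff v)).card : ℝ) := by
          rw [h2]; push_cast; rfl
      _ ≤ ∑ _u ∈ XX m B, C1 * b ^ ε := sum_le_sum h3
      _ = C1 * b ^ ε * b ^ m := by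
          rw [sum_const, nsmul_eq_mul, card_XX, hb]
          push_cast
          ring
  -- the remaining pairs give elements of `SS`
  have hrest : ((P.filter (fun p => ¬ ff p.1 = ff p.2)).card : ℝ) ≤ (SS k m B V).card := by
    have : (P.filter (fun p => ¬ ff p.1 = ff p.2)).card ≤ (SS k m B V).card := by
      refine card_le_card_of_injOn (fun p => xx k m p.1 p.2) ?_ ?_
      · intro p hp
        rw [mem_coe, mem_filter, hP, mem_filter, mem_product] at hp
        obtain ⟨⟨⟨h1, h2⟩, h3⟩, h4⟩ := hp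
        rw [mem_coe]
        apply mem_SS k m hk B V p.1 p.2 h1 h2 h4
        have h5 : ∀ q ∈ XX m B, 0 ≤ V * (ff q - m * Real.log b) := fun q hq =>
          mul_nonneg hV0.le (by linarith [hlo q hq])
        have h6 := Nat.floor_le (h5 p.1 h1)
        have h7 := Nat.lt_floor_add_one (V * (ff p.1 - m * Real.log b))
        have h8 := Nat.floor_le (h5 p.2 h2)
        have h9 := Nat.lt_floor_add_one (V * (ff p.2 - m * Real.log b))
        have h10 : (⌊V * (ff p.1 - m * Real.log b)⌋₊ : ℝ) = ⌊V * (ff p.2 - m * Real.log b)⌋₊ := by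
          exact_mod_cast h3
        rw [h10] at h6 h7
        rw [abs_le, le_div_iff₀ hV0, ← neg_div, div_le_iff₀ hV0]
        constructor <;> nlinarith
      · intro p _ q _ h
        have := xx_inj k m hk _ _ _ _ h
        exact Prod.ext this.1 this.2
    exact_mod_cast this
  have hsplit : (P.card : ℝ) = ((P.filter (fun p => ff p.1 = ff p.2)).card : ℝ) +
      ((P.filter (fun p => ¬ ff p.1 = ff p.2)).card : ℝ) := by
    have := card_filter_add_card_filter_not (s := P) (fun p => ff p.1 = ff p.2)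
    rw [← this]
    push_cast
    rfl
  set S : ℝ := ((SS k m B V).card : ℝ) with hS
  have hS0 : 0 ≤ S := Nat.cast_nonneg _
  have hbm : (0 : ℝ) < b ^ m := by positivity
  have h2m : b ^ (2 * m) = b ^ m * b ^ m := by rw [two_mul, pow_add]
  have e1 : (m + 1) * V * (C1 * b ^ ε * b ^ m) ≤ b ^ (2 * m) / 2 := by
    rw [h2m]
    have h1 : 2 * (m + 1) * C1 * V * b ^ ε ≤ b ^ m := hB
    nlinarith [mul_le_mul_of_nonneg_right h1 hbm.le]
  have e2 : b ^ (2 * m) ≤ (m + 1) * V * (C1 * b ^ ε * b ^ m) + (m + 1) * V * S := by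
    have h1 : (0 : ℝ) ≤ (m + 1) * V := by positivity
    calc b ^ (2 * m) ≤ (m + 1) * V * P.card := hPge
      _ ≤ (m + 1) * V * (C1 * b ^ ε * b ^ m + S) := by
          apply mul_le_mul_of_nonneg_left _ h1
          rw [hsplit]
          linarith
      _ = _ := by ring
  have e3 : b ^ (2 * m) ≤ 2 * (m + 1) * V * S := by linarith
  calc b ^ (2 * m) ≤ 2 * (m + 1) * V * S * 1 := by linarith
    _ ≤ 2 * (m + 1) * V * S * C1 := mul_le_mul_of_nonneg_left hC1pos (by positivity)
    _ = _ := by ring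

end Pool.Agent.P07318s
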