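import Pool.Agent.Lib.P07318s.Defs
import Pool.Agent.Lib.P07318s.LowDefs
import Pool.Agent.Lib.P07318s.LowMain
import Pool.Agent.Lib.P07318s.LowY
import Pool.Agent.Lib.P07318s.SupF
import Pool.Agent.Lib.P07318s.E1F
import Pool.Agent.Lib.P07318s.MainPoint
import Pool.Agent.Lib.P07318s.ZetaGood
import Pool.Agent.Lib.P07318s.Cont
import Pool.Agent.Lib.P07318s.FinalDiag
import Pool.Agent.Lib.P07318s.Final
import Pool.Agent.Lib.P07318s.FinalV

/-!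
Lower bound for the measure. `k = n + 1`, box `K` of side `T`, `M = ⌈L⌉`. Let `Rem(α) = ∫_0^L (∏‖ζ‖² - Dg)`, `R = ∫_0^L (∏Fd - Dg)`, `E = Rem - R`. `low_main`:
`c L T^k ≤ ∫_K |Rem| |Ys|`. Split by `G = {|Rem| > τ}`, `τ = 2 L^(1/2) T^(-ε)`: on the complement `≤ τ ∫ |Ys| ≤ τ T^k (C M)^(1/2)` (`low_Y2`, Cauchy-Schwarz), small. On `G`:
`∫_G |R||Ys| ≤ (∫|R|²)^(1/2) (∫|Ys|⁴)^(1/4) |G|^(1/4) ≤ (C L T^(k(1+4δ)))^(1/2) (C T^k M^(2+ε'))^(1/4) |G|^(1/4)` (`sup_f` with `H = T`, `V = L`; `low_Y4`; the other coordinates of the box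
contribute `T^(k-1)`), and `∫ |E||Ys| ≤ M ∫|E| ≤ M C L T^(-1/2+1/4) T^k` (`e1_f`), small. Hence `|G| ≥ T^k T^(-ε/2)` for `T` large (choose `δ, ε'` small). Finally on the complement of the bad
set of differences (measure `≤ C T^(k-κ')`, `κ'` depends only on `k`: `main_point` with exponent `1/4`, `zeta_good`), `|∫_0^L (Dg - mainTerm)| ≤ C L T^(-1/4) ≤ L^(1/2) T^(-ε)`,
so `|∫_0^L (∏‖ζ‖² - mainTerm)| > L^(1/2) T^(-ε)` on `G` minus the bad set. We may assume `ε ≤ ε₀(k)` small: the statement for a smaller `ε` implies it for a larger one.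
-/

set_option autoImplicit false

namespace Pool.Agent.P07318s

open MeasureTheory Complex

namespace LFin

/-- Cauchy-Schwarz -/
theorem cs {X : Type*} [MeasurableSpace X] {μ : Measure X} {f g : X → ENNReal}
    (hf : AEMeasurable f μ) (hg : AEMeasurable g μ) :
    (∫⁻ x, f x * g x ∂μ) ^ 2 ≤ (∫⁻ x, f x ^ 2 ∂μ) * ∫⁻ x, g x ^ 2 ∂μ := by
  have h := ENNReal.lintegral_mul_le_Lp_mul_Lq μ Real.HolderConjugate.two_two hf hg
  have h2 := pow_le_pow_left' h 2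
  refine h2.trans (le_of_eq ?_)
  rw [mul_pow, ← ENNReal.rpow_natCast, ← ENNReal.rpow_natCast, ← ENNReal.rpow_mul,
    ← ENNReal.rpow_mul]
  norm_num

/-- a function of the first coordinate -/
theorem lint_coord {n : ℕ} (β : Fin (n + 1) → ℝ) {T : ℝ} (hT : 0 ≤ T) {f : ℝ → ENNReal}
    (hf : Measurable f) :
    ∫⁻ α in Set.Icc β (fun j => β j + T), f (α 0) =
      ENNReal.ofReal (T ^ n) * ∫⁻ a in Set.Icc (β 0) (β 0 + T), f a := by
  have hbox : Set.Icc β (fun j => β j + T) =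
      Set.pi Set.univ (fun i => Set.Icc (β i) (β i + T)) := (Set.pi_univ_Icc _ _).symm
  have hvol : (volume : Measure (Fin (n + 1) → ℝ)).restrict (Set.Icc β (fun j => β j + T)) =
      Measure.pi (fun i => volume.restrict (Set.Icc (β i) (β i + T))) := by
    rw [hbox, volume_pi, Measure.restrict_pi_pi]
  rw [hvol]
  have h := e1_lint_prod (n + 1) (fun i => volume.restrict (Set.Icc (β i) (β i + T)))
    (fun i => if i = 0 then f else fun _ => 1) (fun i => by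
      split_ifs
      · exact hf
      · exact measurable_const)
  have e : ∀ x : Fin (n + 1) → ℝ,
      (∏ i, (if i = 0 then f else fun _ => (1 : ENNReal)) (x i)) = f (x 0) := by
    intro x
    rw [Fin.prod_univ_succ]
    simp
  simp_rw [e] at h
  rw [h, Fin.prod_univ_succ]
  simp only [if_true, Fin.succ_ne_zero, if_false, lintegral_one, Measure.restrict_apply_univ,
    Real.volume_Icc, add_sub_cancel_left, Finset.prod_const, Finset.card_univ, Fintype.card_fin]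
  rw [ENNReal.ofReal_pow hT, mul_comm]

/-- the integral of a continuous nonnegative function -/
theorem lint_ofReal {g : ℝ → ℝ} (hg : Continuous g) (h0 : ∀ x, 0 ≤ g x) {b T : ℝ} (hT : 0 ≤ T) :
    ∫⁻ a in Set.Icc b (b + T), ENNReal.ofReal (g a) = ENNReal.ofReal (∫ a in b..(b + T), g a) := by
  rw [← ofReal_integral_eq_lintegral_ofReal hg.integrableOn_Icc
    (Filter.Eventually.of_forall fun x => h0 x), integral_Icc_eq_integral_Ioc,
    ← intervalIntegral.integral_of_le (by linarith)]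

/-- moments of the test function over the box -/
theorem lint_Ys {n : ℕ} (β : Fin (n + 1) → ℝ) {T : ℝ} (hT : 0 ≤ T) (M p : ℕ) {K : ℝ}
    (h : ∫ a in (β 0)..(β 0 + T), ‖Ys M a‖ ^ p ≤ K) :
    ∫⁻ α in Set.Icc β (fun j => β j + T), ‖Ys M (α 0)‖ₑ ^ p ≤ ENNReal.ofReal (T ^ n * K) := by
  have hc := Ys_continuous M
  have h1 := lint_coord β hT (f := fun a => ‖Ys M a‖ₑ ^ p) (hc.enorm.measurable.pow_const p)
  refine (le_of_eq h1).trans ?_
  have e : ∀ a, ‖Ys M a‖ₑ ^ p = ENNReal.ofReal (‖Ys M a‖ ^ p) := by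
    intro a
    rw [ENNReal.ofReal_pow (norm_nonneg _), ofReal_norm]
  simp_rw [e]
  have h2 := lint_ofReal (g := fun a => ‖Ys M a‖ ^ p) (hc.norm.pow p) (fun x => by positivity)
    (b := β 0) hT
  rw [h2, ← ENNReal.ofReal_mul (by positivity)]
  exact ENNReal.ofReal_le_ofReal (mul_le_mul_of_nonneg_left h (by positivity))

/-- the remainder, with the diagonal in place of the main term -/
theorem point_low {k : ℕ} {ε κ B C2 : ℝ}
    (hMP : ∀ (U : ℝ) (x : Fin k → ℝ), 1 ≤ U → (∀ j, U ≤ x j) → (∀ j, x j ≤ 4 * U) →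
      (∀ i j, i ≠ j → Good κ (U ^ κ) (B * U ^ κ) (x i - x j)) →
      ‖Dg x - mainTerm x‖ ≤ C2 * U ^ (-(1 / 2) + ε)) {T : ℝ} (hT : 1 ≤ T) (hκ : 0 < κ)
    {a : Fin k → ℝ} (ha1 : ∀ j, T ≤ a j) (ha2 : ∀ j, a j ≤ 3 * T)
    (hgood : ∀ i j, i ≠ j → Good κ (T ^ κ) (B * T ^ κ) (a i - a j)) {V : ℝ} (hV : 0 ≤ V)
    (hVT : V ≤ T) :
    ‖∫ t in (0:ℝ)..V, (((∏ j, ‖riemannZeta (1 / 2 + ((t + a j : ℝ) : ℂ) * I)‖ ^ 2 : ℝ) : ℂ) -
        Dg (fun j => t + a j))‖ ≤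
      ‖∫ t in (0:ℝ)..V, (((∏ j, ‖riemannZeta (1 / 2 + ((t + a j : ℝ) : ℂ) * I)‖ ^ 2 : ℝ) : ℂ) -
        mainTerm (fun j => t + a j))‖ + C2 * T ^ (-(1 / 2) + ε) * V := by
  have hTκ : 1 ≤ T ^ κ := Real.one_le_rpow hT hκ.le
  have hmaps : ∀ t ∈ Set.uIcc 0 V, (∀ j, 0 < t + a j) ∧ (∀ j, T ≤ t + a j) ∧
      (∀ j, t + a j ≤ 4 * T) := by
    intro t ht
    rw [Set.uIcc_of_le hV] at ht
    have h1 := ht.1
    have h2 := ht.2
    refine ⟨fun j => ?_, fun j => ?_, fun j => ?_⟩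
    · have := ha1 j; linarith
    · have := ha1 j; linarith
    · have := ha2 j; linarith
  have hdiff : ∀ (t : ℝ) (i j : Fin k), (t + a i) - (t + a j) = a i - a j := by
    intro t i j; ring
  have hsep : ∀ i j, i ≠ j → 1 < |a i - a j| := by
    intro i j hij
    have := (hgood i j hij).1
    linarith
  have hct : Continuous (fun t : ℝ => (fun j => t + a j)) := by fun_prop
  have hcontM : ContinuousOn (fun t : ℝ => mainTerm (fun j => t + a j)) (Set.uIcc 0 V) := by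
    refine (mainTerm_continuousOn k).comp (f := fun t : ℝ => (fun j => t + a j))
      hct.continuousOn ?_
    intro t ht
    refine ⟨(hmaps t ht).1, fun i j hij => ?_⟩
    simp only
    rw [hdiff]
    exact hsep i j hij
  have hcontD : ContinuousOn (fun t : ℝ => Dg (fun j => t + a j)) (Set.uIcc 0 V) := by
    refine (Dg_continuousOn k).comp (f := fun t : ℝ => (fun j => t + a j))
      hct.continuousOn ?_
    intro t ht
    exact (hmaps t ht).1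
  have hcontZ : Continuous (fun t : ℝ => ((∏ j, ‖riemannZeta (1 / 2 +
        ((t + a j : ℝ) : ℂ) * I)‖ ^ 2 : ℝ) : ℂ)) :=
    (FD.ZZ_cont k).comp hct
  have hi1 : IntervalIntegrable (fun t : ℝ => ((∏ j, ‖riemannZeta (1 / 2 +
        ((t + a j : ℝ) : ℂ) * I)‖ ^ 2 : ℝ) : ℂ) - mainTerm (fun j => t + a j)) volume 0 V :=
    (hcontZ.continuousOn.sub hcontM).intervalIntegrable
  have hi3 : IntervalIntegrable (fun t : ℝ => Dg (fun j => t + a j) -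
      mainTerm (fun j => t + a j)) volume 0 V := (hcontD.sub hcontM).intervalIntegrable
  have hsplit : ∫ t in (0:ℝ)..V, (((∏ j, ‖riemannZeta (1 / 2 +
        ((t + a j : ℝ) : ℂ) * I)‖ ^ 2 : ℝ) : ℂ) - Dg (fun j => t + a j)) =
      (∫ t in (0:ℝ)..V, (((∏ j, ‖riemannZeta (1 / 2 +
        ((t + a j : ℝ) : ℂ) * I)‖ ^ 2 : ℝ) : ℂ) - mainTerm (fun j => t + a j))) -
      ∫ t in (0:ℝ)..V, (Dg (fun j => t + a j) - mainTerm (fun j => t + a j)) := by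
    rw [← intervalIntegral.integral_sub hi1 hi3]
    refine intervalIntegral.integral_congr fun t _ => ?_
    ring
  have hb2 : ‖∫ t in (0:ℝ)..V, (Dg (fun j => t + a j) - mainTerm (fun j => t + a j))‖ ≤
      C2 * T ^ (-(1 / 2) + ε) * V := by
    have h1 := intervalIntegral.norm_integral_le_of_norm_le_const (a := 0) (b := V)
      (C := C2 * T ^ (-(1 / 2) + ε))
      (f := fun t : ℝ => Dg (fun j => t + a j) - mainTerm (fun j => t + a j)) (by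
        intro t ht
        have ht' : t ∈ Set.uIcc 0 V := Set.uIoc_subset_uIcc ht
        refine hMP T (fun j => t + a j) hT (hmaps t ht').2.1 (hmaps t ht').2.2 ?_
        intro i j hij
        rw [hdiff]
        exact hgood i j hij)
    rw [sub_zero, abs_of_nonneg hV] at h1
    exact h1
  rw [hsplit]
  exact (norm_sub_le _ _).trans (add_le_add le_rfl hb2)

/-- the remainder is bounded by the two majorants -/
theorem rem_le {k : ℕ} {a : Fin k → ℝ} (ha : ∀ j, 0 < a j) {V : ℝ} (hV : 0 ≤ V) {b₁ b₂ : ENNReal}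
    (h1 : ‖∫ t in (0:ℝ)..V, (((∏ j, ‖riemannZeta (1 / 2 + ((t + a j : ℝ) : ℂ) * I)‖ ^ 2 : ℝ) : ℂ) -
        ∏ j, Fd (t + a j))‖ₑ ≤ b₁)
    (h2 : ‖∫ t in (0:ℝ)..V, ((∏ j, Fd (t + a j)) - Dg (fun j => t + a j))‖ₑ ≤ b₂) :
    ‖∫ t in (0:ℝ)..V, (((∏ j, ‖riemannZeta (1 / 2 + ((t + a j : ℝ) : ℂ) * I)‖ ^ 2 : ℝ) : ℂ) -
        Dg (fun j => t + a j))‖ₑ ≤ b₁ + b₂ := by
  have hpos : ∀ t ∈ Set.uIcc 0 V, ∀ j, 0 < t + a j := by
    intro t ht j
    rw [Set.uIcc_of_le hV] at ht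
    have := ha j
    linarith [ht.1]
  have hct : Continuous (fun t : ℝ => (fun j => t + a j)) := by fun_prop
  have hcontD : ContinuousOn (fun t : ℝ => Dg (fun j => t + a j)) (Set.uIcc 0 V) :=
    (Dg_continuousOn k).comp (f := fun t : ℝ => (fun j => t + a j)) hct.continuousOn hpos
  have hcontP : ContinuousOn (fun t : ℝ => ∏ j, Fd (t + a j)) (Set.uIcc 0 V) :=
    (FD.PF_cont k).comp (f := fun t : ℝ => (fun j => t + a j)) hct.continuousOn hpos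
  have hcontZ : Continuous (fun t : ℝ => ((∏ j, ‖riemannZeta (1 / 2 +
        ((t + a j : ℝ) : ℂ) * I)‖ ^ 2 : ℝ) : ℂ)) :=
    (FD.ZZ_cont k).comp hct
  have hi1 : IntervalIntegrable (fun t : ℝ => ((∏ j, ‖riemannZeta (1 / 2 +
        ((t + a j : ℝ) : ℂ) * I)‖ ^ 2 : ℝ) : ℂ) - ∏ j, Fd (t + a j)) volume 0 V :=
    (hcontZ.continuousOn.sub hcontP).intervalIntegrable
  have hi2 : IntervalIntegrable (fun t : ℝ => (∏ j, Fd (t + a j)) - Dg (fun j => t + a j))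
      volume 0 V := (hcontP.sub hcontD).intervalIntegrable
  have hsplit : ∫ t in (0:ℝ)..V, (((∏ j, ‖riemannZeta (1 / 2 +
        ((t + a j : ℝ) : ℂ) * I)‖ ^ 2 : ℝ) : ℂ) - Dg (fun j => t + a j)) =
      (∫ t in (0:ℝ)..V, (((∏ j, ‖riemannZeta (1 / 2 +
        ((t + a j : ℝ) : ℂ) * I)‖ ^ 2 : ℝ) : ℂ) - ∏ j, Fd (t + a j))) +
      ∫ t in (0:ℝ)..V, ((∏ j, Fd (t + a j)) - Dg (fun j => t + a j)) := by
    rw [← intervalIntegral.integral_add hi1 hi2]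
    refine intervalIntegral.integral_congr fun t _ => ?_
    ring
  rw [hsplit]
  exact (enorm_add_le _ _).trans (add_le_add h1 h2)

theorem le_of_pow_le {X : ENNReal} {y z : ℝ} {k : ℕ} (hk : k ≠ 0) (hz : 0 ≤ z)
    (h : X ^ k ≤ ENNReal.ofReal y) (hy : y ≤ z ^ k) : X ≤ ENNReal.ofReal z := by
  by_contra hc
  push Not at hc
  have h1 := ENNReal.pow_lt_pow_left hk hc
  rw [← ENNReal.ofReal_pow hz] at h1
  exact absurd (h1.trans_le h) (not_lt.2 (ENNReal.ofReal_le_ofReal hy))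

/-- the set where the remainder is large -/
def BadG (n : ℕ) (ε T L : ℝ) (β : Fin (n + 1) → ℝ) : Set (Fin (n + 1) → ℝ) :=
  {α ∈ Set.Icc β (fun j => β j + T) | ENNReal.ofReal (2 * L ^ (1 / 2 : ℝ) * T ^ (-ε)) <
    ‖∫ t in (0:ℝ)..L, (((∏ j, ‖riemannZeta (1 / 2 + ((t + α j : ℝ) : ℂ) * I)‖ ^ 2 : ℝ) : ℂ) -
      Dg (fun j => t + α j))‖ₑ}

theorem core_step {n : ℕ} {ε T L c CY2 CY4 CS CE δ : ℝ} {M : ℕ} {β : Fin (n + 1) → ℝ}
    (hε : 0 < ε) (hc : 0 < c) (hCY2 : 0 < CY2) (hCY4 : 0 < CY4) (hCS : 0 < CS) (hCE : 0 < CE)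
    (hT : 1 ≤ T) (hL : 1 ≤ L) (hM1 : 1 ≤ M) (hML : (M : ℝ) ≤ 2 * L)
    (hMT : (M : ℝ) ≤ T ^ (1 / 40 : ℝ)) (hβ : ∀ j, T ≤ β j)
    (hδ : 8 * δ * ((n : ℝ) + 1) ≤ ε / 8)
    (hlow : c * L * T ^ (n + 1) ≤ (∫ α in Set.Icc β (fun j => β j + T),
      (∫ t in (0:ℝ)..L, (((∏ j, ‖riemannZeta (1 / 2 + ((t + α j : ℝ) : ℂ) * I)‖ ^ 2 : ℝ) : ℂ) -
        Dg (fun j => t + α j))) * (starRingEnd ℂ) (Ys M (α 0))).re)
    (hY2 : ∫ a in (β 0)..(β 0 + T), ‖Ys M a‖ ^ 2 ≤ CY2 * T * M)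
    (hY4 : ∫ a in (β 0)..(β 0 + T), ‖Ys M a‖ ^ 4 ≤ CY4 * T * (M : ℝ) ^ (2 + ε))
    {B₁ B₂ : (Fin (n + 1) → ℝ) → ENNReal} (hB₁m : Measurable B₁) (hB₂m : Measurable B₂)
    (hB₁ : ∀ α ∈ Set.Icc β (fun j => β j + T),
      ‖∫ t in (0:ℝ)..L, (((∏ j, ‖riemannZeta (1 / 2 + ((t + α j : ℝ) : ℂ) * I)‖ ^ 2 : ℝ) : ℂ) -
          ∏ j, Fd (t + α j))‖ₑ ≤ B₁ α)
    (hB₂ : ∀ α ∈ Set.Icc β (fun j => β j + T),
      ‖∫ t in (0:ℝ)..L, ((∏ j, Fd (t + α j)) - Dg (fun j => t + α j))‖ₑ ≤ B₂ α)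
    (hB₁i : ∫⁻ α in Set.Icc β (fun j => β j + T), B₁ α ≤
      ENNReal.ofReal (CE * L * T ^ (-(1 / 2) + 1 / 4 : ℝ) * T ^ (n + 1)))
    (hB₂i : ∫⁻ α in Set.Icc β (fun j => β j + T), B₂ α ^ 2 ≤
      ENNReal.ofReal (CS * L * T ^ (((n + 1 : ℕ) : ℝ) * (1 + 4 * δ))))
    (h1 : 128 * CY2 / c ^ 2 ≤ T ^ (2 * ε)) (h2 : 4 * CE / c ≤ T ^ (9 / 40 : ℝ))
    (h3 : 1024 * (CS ^ 2 * CY4) / c ^ 4 ≤ T ^ (ε / 4)) :
    ENNReal.ofReal (T ^ (n + 1) * T ^ (-(ε / 2))) ≤ volume (BadG n ε T L β) := by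
  by_contra hcon
  push Not at hcon
  have hT0 : 0 < T := by linarith
  have hL0 : 0 < L := by linarith
  obtain ⟨P, hP⟩ : ∃ P, P = T ^ (n + 1) := ⟨_, rfl⟩
  have hP0 : 0 < P := by rw [hP]; positivity
  have hPn : T ^ n * T = P := by rw [hP, pow_succ]
  obtain ⟨K, hK⟩ : ∃ K, K = Set.Icc β (fun j => β j + T) := ⟨_, rfl⟩
  have hKm : MeasurableSet K := by rw [hK]; exact measurableSet_Icc
  have hKv : volume K = ENNReal.ofReal P := by
    rw [hK, Real.volume_Icc_pi, hP]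
    have e : ∀ i : Fin (n + 1), β i + T - β i = T := fun i => by ring
    simp only [e, Finset.prod_const, Finset.card_univ, Fintype.card_fin]
    rw [ENNReal.ofReal_pow hT0.le]
  have hYc := Ys_continuous M
  have hYm : Measurable fun α : Fin (n + 1) → ℝ => ‖Ys M (α 0)‖ₑ :=
    hYc.enorm.measurable.comp (measurable_pi_apply 0)
  have hM0 : (0:ℝ) < M := by exact_mod_cast hM1
  -- the exceptional set
  obtain ⟨G', hG'⟩ : ∃ G', G' = toMeasurable volume (BadG n ε T L β) := ⟨_, rfl⟩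
  have hG'm : MeasurableSet G' := by rw [hG']; exact measurableSet_toMeasurable _ _
  have hG'v : volume G' ≤ ENNReal.ofReal (P * T ^ (-(ε / 2))) := by
    rw [hG', measure_toMeasurable, hP]
    exact hcon.le
  have hG'sub : BadG n ε T L β ⊆ G' := by rw [hG']; exact subset_toMeasurable _ _
  obtain ⟨τ, hτ⟩ : ∃ τ, τ = 2 * L ^ (1 / 2 : ℝ) * T ^ (-ε) := ⟨_, rfl⟩
  have hτ0 : 0 ≤ τ := by rw [hτ]; positivity
  obtain ⟨Rem, hRem⟩ : ∃ Rem : (Fin (n + 1) → ℝ) → ℂ, Rem = fun α =>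
    ∫ t in (0:ℝ)..L, (((∏ j, ‖riemannZeta (1 / 2 + ((t + α j : ℝ) : ℂ) * I)‖ ^ 2 : ℝ) : ℂ) -
        Dg (fun j => t + α j)) := ⟨_, rfl⟩
  -- lower bound
  have hA : ENNReal.ofReal (c * L * P) ≤ ∫⁻ α in K, ‖Rem α‖ₑ * ‖Ys M (α 0)‖ₑ := by
    have e1 : ENNReal.ofReal (c * L * P) ≤
        ‖∫ α in K, Rem α * (starRingEnd ℂ) (Ys M (α 0))‖ₑ := by
      rw [← ofReal_norm]
      apply ENNReal.ofReal_le_ofReal
      rw [hP, hK, hRem]
      exact hlow.trans (Complex.re_le_norm _)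
    refine e1.trans ((enorm_integral_le_lintegral_enorm _).trans (le_of_eq ?_))
    refine lintegral_congr fun α => ?_
    rw [enorm_mul]
    congr 1
    rw [← ofReal_norm, ← ofReal_norm, RCLike.norm_conj]
  -- pointwise bound
  have hB : ∀ α ∈ K, ‖Rem α‖ₑ * ‖Ys M (α 0)‖ₑ ≤ ENNReal.ofReal τ * ‖Ys M (α 0)‖ₑ +
      (B₁ α * ‖Ys M (α 0)‖ₑ + (B₂ α * (G'.indicator (fun _ => 1) α * ‖Ys M (α 0)‖ₑ))) := by
    intro α hα
    by_cases hg : α ∈ BadG n ε T L β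
    · have hind : G'.indicator (fun _ => (1 : ENNReal)) α = 1 :=
        Set.indicator_of_mem (hG'sub hg) _
      rw [hind, one_mul, ← add_mul]
      refine le_trans ?_ le_add_self
      refine mul_le_mul_left ?_ _
      rw [hRem]
      rw [hK] at hα
      exact rem_le (fun j => by have := hβ j; have := hα.1 j; linarith) hL0.le (hB₁ α hα) (hB₂ α hα)
    · refine le_trans ?_ le_self_add
      refine mul_le_mul_left ?_ _
      by_contra hlt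
      push Not at hlt
      apply hg
      rw [hτ, hRem] at hlt
      rw [hK] at hα
      exact ⟨hα, hlt⟩
  have hindm : Measurable (G'.indicator (fun _ => (1 : ENNReal))) :=
    measurable_const.indicator hG'm
  have hC : ENNReal.ofReal (c * L * P) ≤ (∫⁻ α in K, ENNReal.ofReal τ * ‖Ys M (α 0)‖ₑ) +
      ((∫⁻ α in K, B₁ α * ‖Ys M (α 0)‖ₑ) +
        ∫⁻ α in K, B₂ α * (G'.indicator (fun _ => 1) α * ‖Ys M (α 0)‖ₑ)) := by
    refine hA.trans ((setLIntegral_mono' hKm hB).trans (le_of_eq ?_))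
    have ma : Measurable fun α : Fin (n + 1) → ℝ => ENNReal.ofReal τ * ‖Ys M (α 0)‖ₑ :=
      measurable_const.mul hYm
    have mb : Measurable fun α : Fin (n + 1) → ℝ => B₁ α * ‖Ys M (α 0)‖ₑ := hB₁m.mul hYm
    rw [lintegral_add_left ma, lintegral_add_left mb]
  -- the second and fourth moments
  have m2 : ∫⁻ α in K, ‖Ys M (α 0)‖ₑ ^ 2 ≤ ENNReal.ofReal (P * (CY2 * M)) := by
    rw [hK]
    refine (lint_Ys β hT0.le M 2 hY2).trans (le_of_eq ?_)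
    rw [← hPn]
    congr 1
    ring
  have m4 : ∫⁻ α in K, ‖Ys M (α 0)‖ₑ ^ 4 ≤ ENNReal.ofReal (P * (CY4 * (M : ℝ) ^ (2 + ε))) := by
    rw [hK]
    refine (lint_Ys β hT0.le M 4 hY4).trans (le_of_eq ?_)
    rw [← hPn]
    congr 1
    ring
  have hgoal0 : 0 ≤ c / 4 * L * P := by positivity
  have hLL : L ^ (1 / 2 : ℝ) * L ^ (1 / 2 : ℝ) = L := by
    rw [← Real.rpow_add hL0]
    norm_num
  -- first term
  have X1 : ∫⁻ α in K, ENNReal.ofReal τ * ‖Ys M (α 0)‖ₑ ≤ ENNReal.ofReal (c / 4 * L * P) := by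
    refine le_of_pow_le (k := 2) (y := τ ^ 2 * P * (P * (CY2 * M))) two_ne_zero hgoal0 ?_ ?_
    · refine (cs aemeasurable_const hYm.aemeasurable).trans ?_
      rw [lintegral_const, Measure.restrict_apply_univ, hKv, ← ENNReal.ofReal_pow hτ0]
      calc _ ≤ ENNReal.ofReal (τ ^ 2) * ENNReal.ofReal P * ENNReal.ofReal (P * (CY2 * M)) :=
            mul_le_mul_right m2 _
        _ = _ := by
            rw [← ENNReal.ofReal_mul (by positivity), ← ENNReal.ofReal_mul (by positivity)]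
    · have e1 : τ ^ 2 = 4 * L * T ^ (-(2 * ε)) := by
        rw [hτ, mul_pow, mul_pow, ← Real.rpow_natCast (T ^ (-ε)) 2, ← Real.rpow_mul hT0.le,
          pow_two (L ^ (1 / 2 : ℝ)), hLL]
        have : -ε * ((2 : ℕ) : ℝ) = -(2 * ε) := by push_cast; ring
        rw [this]
        ring
      have e2 : T ^ (-(2 * ε)) * T ^ (2 * ε) = 1 := by
        rw [← Real.rpow_add hT0]
        simp
      have e3 : 0 < T ^ (-(2 * ε)) := Real.rpow_pos_of_pos hT0 _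
      have e4 : 128 * CY2 * T ^ (-(2 * ε)) ≤ c ^ 2 := by
        rw [div_le_iff₀ (by positivity)] at h1
        calc 128 * CY2 * T ^ (-(2 * ε)) ≤ (T ^ (2 * ε) * c ^ 2) * T ^ (-(2 * ε)) :=
              mul_le_mul_of_nonneg_right h1 e3.le
          _ = (T ^ (-(2 * ε)) * T ^ (2 * ε)) * c ^ 2 := by ring
          _ = c ^ 2 := by rw [e2, one_mul]
      rw [e1]
      calc 4 * L * T ^ (-(2 * ε)) * P * (P * (CY2 * M))
          ≤ 4 * L * T ^ (-(2 * ε)) * P * (P * (CY2 * (2 * L))) := by gcongr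
        _ = (128 * CY2 * T ^ (-(2 * ε))) * (1 / 16 * L ^ 2 * P ^ 2) := by ring
        _ ≤ c ^ 2 * (1 / 16 * L ^ 2 * P ^ 2) := mul_le_mul_of_nonneg_right e4 (by positivity)
        _ = (c / 4 * L * P) ^ 2 := by ring
  -- second term
  have X3 : ∫⁻ α in K, B₁ α * ‖Ys M (α 0)‖ₑ ≤ ENNReal.ofReal (c / 4 * L * P) := by
    have e1 : ∀ α : Fin (n + 1) → ℝ, ‖Ys M (α 0)‖ₑ ≤ ENNReal.ofReal M := by
      intro α
      rw [← ofReal_norm]
      exact ENNReal.ofReal_le_ofReal (Ys_norm_le M _)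
    calc ∫⁻ α in K, B₁ α * ‖Ys M (α 0)‖ₑ ≤ ∫⁻ α in K, B₁ α * ENNReal.ofReal M :=
          lintegral_mono fun α => mul_le_mul_right (e1 α) _
      _ = (∫⁻ α in K, B₁ α) * ENNReal.ofReal M := lintegral_mul_const _ hB₁m
      _ ≤ ENNReal.ofReal (CE * L * T ^ (-(1 / 2) + 1 / 4 : ℝ) * T ^ (n + 1)) * ENNReal.ofReal M := by
          rw [hK]
          exact mul_le_mul_left hB₁i _
      _ = ENNReal.ofReal (CE * L * T ^ (-(1 / 2) + 1 / 4 : ℝ) * T ^ (n + 1) * M) := by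
          rw [← ENNReal.ofReal_mul (by positivity)]
      _ ≤ _ := by
          apply ENNReal.ofReal_le_ofReal
          rw [← hP]
          have e2 : T ^ (-(1 / 2) + 1 / 4 : ℝ) * T ^ (1 / 40 : ℝ) * T ^ (9 / 40 : ℝ) = 1 := by
            rw [← Real.rpow_add hT0, ← Real.rpow_add hT0]
            norm_num
          have e3 : 4 * CE ≤ T ^ (9 / 40 : ℝ) * c := by rwa [div_le_iff₀ hc] at h2
          have e4 : 0 < T ^ (-(1 / 2) + 1 / 4 : ℝ) * T ^ (1 / 40 : ℝ) := by positivity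
          have e5 : 4 * CE * (T ^ (-(1 / 2) + 1 / 4 : ℝ) * T ^ (1 / 40 : ℝ)) ≤ c := by
            calc 4 * CE * (T ^ (-(1 / 2) + 1 / 4 : ℝ) * T ^ (1 / 40 : ℝ)) ≤
                  (T ^ (9 / 40 : ℝ) * c) * (T ^ (-(1 / 2) + 1 / 4 : ℝ) * T ^ (1 / 40 : ℝ)) :=
                  mul_le_mul_of_nonneg_right e3 e4.le
              _ = (T ^ (-(1 / 2) + 1 / 4 : ℝ) * T ^ (1 / 40 : ℝ) * T ^ (9 / 40 : ℝ)) * c := by ring
              _ = c := by rw [e2, one_mul]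
          calc CE * L * T ^ (-(1 / 2) + 1 / 4 : ℝ) * P * M ≤
                CE * L * T ^ (-(1 / 2) + 1 / 4 : ℝ) * P * T ^ (1 / 40 : ℝ) := by gcongr
            _ = (4 * CE * (T ^ (-(1 / 2) + 1 / 4 : ℝ) * T ^ (1 / 40 : ℝ))) * (1 / 4 * L * P) := by
                ring
            _ ≤ c * (1 / 4 * L * P) := mul_le_mul_of_nonneg_right e5 (by positivity)
            _ = c / 4 * L * P := by ring
  -- third term
  have X2 : ∫⁻ α in K, B₂ α * (G'.indicator (fun _ => 1) α * ‖Ys M (α 0)‖ₑ) ≤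
      ENNReal.ofReal (c / 4 * L * P) := by
    refine le_of_pow_le (k := 4) (y := (CS * L * T ^ (((n + 1 : ℕ) : ℝ) * (1 + 4 * δ))) ^ 2 *
      (P * T ^ (-(ε / 2)) * (P * (CY4 * (M : ℝ) ^ (2 + ε))))) four_ne_zero hgoal0 ?_ ?_
    · have c1 := cs (μ := volume.restrict K) hB₂m.aemeasurable (hindm.mul hYm).aemeasurable
      have e0 : ∀ α : Fin (n + 1) → ℝ, (G'.indicator (fun _ => (1 : ENNReal)) α *
          ‖Ys M (α 0)‖ₑ) ^ 2 = G'.indicator (fun _ => (1 : ENNReal)) α * ‖Ys M (α 0)‖ₑ ^ 2 := by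
        intro α
        by_cases hα : α ∈ G'
        · rw [Set.indicator_of_mem hα, one_mul, one_mul]
        · rw [Set.indicator_of_notMem hα, zero_mul, zero_mul]
          norm_num
      have c2 := cs (μ := volume.restrict K) hindm.aemeasurable (hYm.pow_const 2).aemeasurable
      have e1 : ∀ α : Fin (n + 1) → ℝ, (G'.indicator (fun _ => (1 : ENNReal)) α) ^ 2 =
          G'.indicator (fun _ => (1 : ENNReal)) α := by
        intro α
        by_cases hα : α ∈ G'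
        · rw [Set.indicator_of_mem hα, one_pow]
        · rw [Set.indicator_of_notMem hα]
          norm_num
      have e2 : ∀ α : Fin (n + 1) → ℝ, (‖Ys M (α 0)‖ₑ ^ 2) ^ 2 = ‖Ys M (α 0)‖ₑ ^ 4 := by
        intro α
        rw [← pow_mul]
      simp_rw [e1, e2] at c2
      have e3 : ∫⁻ α in K, G'.indicator (fun _ => (1 : ENNReal)) α ≤
          ENNReal.ofReal (P * T ^ (-(ε / 2))) := by
        refine le_trans ?_ hG'v
        refine (setLIntegral_le_lintegral K _).trans (le_of_eq ?_)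
        rw [lintegral_indicator hG'm]
        simp
      have c3 : (∫⁻ α in K, (B₂ α * (G'.indicator (fun _ => 1) α * ‖Ys M (α 0)‖ₑ))) ^ 2 ≤
          (∫⁻ α in K, B₂ α ^ 2) *
            ∫⁻ α in K, G'.indicator (fun _ => (1 : ENNReal)) α * ‖Ys M (α 0)‖ₑ ^ 2 := by
        refine c1.trans (le_of_eq ?_)
        congr 1
        exact lintegral_congr fun α => e0 α
      calc (∫⁻ α in K, (B₂ α * (G'.indicator (fun _ => 1) α * ‖Ys M (α 0)‖ₑ))) ^ 4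
          = ((∫⁻ α in K, (B₂ α * (G'.indicator (fun _ => 1) α * ‖Ys M (α 0)‖ₑ))) ^ 2) ^ 2 := by
            rw [← pow_mul]
        _ ≤ ((∫⁻ α in K, B₂ α ^ 2) *
            ∫⁻ α in K, G'.indicator (fun _ => (1 : ENNReal)) α * ‖Ys M (α 0)‖ₑ ^ 2) ^ 2 :=
            pow_le_pow_left' c3 2
        _ = (∫⁻ α in K, B₂ α ^ 2) ^ 2 *
            (∫⁻ α in K, G'.indicator (fun _ => (1 : ENNReal)) α * ‖Ys M (α 0)‖ₑ ^ 2) ^ 2 :=
            mul_pow _ _ _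
        _ ≤ (ENNReal.ofReal (CS * L * T ^ (((n + 1 : ℕ) : ℝ) * (1 + 4 * δ)))) ^ 2 *
            (ENNReal.ofReal (P * T ^ (-(ε / 2))) *
              ENNReal.ofReal (P * (CY4 * (M : ℝ) ^ (2 + ε)))) := by
            refine mul_le_mul' (pow_le_pow_left' ?_ 2) (c2.trans (mul_le_mul' e3 m4))
            rw [hK]
            exact hB₂i
        _ = _ := by
            rw [← ENNReal.ofReal_pow (by positivity), ← ENNReal.ofReal_mul (by positivity),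
              ← ENNReal.ofReal_mul (by positivity)]
    · have e1 : T ^ (((n + 1 : ℕ) : ℝ) * (1 + 4 * δ)) = P * T ^ (4 * δ * ((n : ℝ) + 1)) := by
        have : ((n + 1 : ℕ) : ℝ) * (1 + 4 * δ) = ((n + 1 : ℕ) : ℝ) + 4 * δ * ((n : ℝ) + 1) := by
          push_cast
          ring
        rw [this, Real.rpow_add hT0, Real.rpow_natCast, hP]
      have e2 : (M : ℝ) ^ (2 + ε) ≤ 4 * L ^ 2 * T ^ (ε / 40) := by
        rw [Real.rpow_add hM0]
        have e3 : (M : ℝ) ^ (2 : ℝ) ≤ 4 * L ^ 2 := by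
          rw [show (2 : ℝ) = ((2 : ℕ) : ℝ) by norm_num, Real.rpow_natCast]
          calc (M : ℝ) ^ 2 ≤ (2 * L) ^ 2 := pow_le_pow_left₀ hM0.le hML 2
            _ = 4 * L ^ 2 := by ring
            _ = _ := by norm_num
        have e4 : (M : ℝ) ^ ε ≤ T ^ (ε / 40) := by
          calc (M : ℝ) ^ ε ≤ (T ^ (1 / 40 : ℝ)) ^ ε := Real.rpow_le_rpow hM0.le hMT hε.le
            _ = T ^ (ε / 40) := by
              rw [← Real.rpow_mul hT0.le]
              congr 1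
              ring
        exact mul_le_mul e3 e4 (by positivity) (by positivity)
      have e5 : T ^ (4 * δ * ((n : ℝ) + 1)) * T ^ (4 * δ * ((n : ℝ) + 1)) * T ^ (-(ε / 2)) *
          T ^ (ε / 40) * T ^ (ε / 4) ≤ 1 := by
        rw [← Real.rpow_add hT0, ← Real.rpow_add hT0, ← Real.rpow_add hT0, ← Real.rpow_add hT0]
        apply Real.rpow_le_one_of_one_le_of_nonpos hT
        linarith
      obtain ⟨q, hq⟩ : ∃ q, q = T ^ (4 * δ * ((n : ℝ) + 1)) * T ^ (4 * δ * ((n : ℝ) + 1)) *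
        T ^ (-(ε / 2)) * T ^ (ε / 40) := ⟨_, rfl⟩
      rw [← hq] at e5
      have hq0 : 0 < q := by rw [hq]; positivity
      have e6 : 1024 * (CS ^ 2 * CY4) * q ≤ c ^ 4 := by
        rw [div_le_iff₀ (by positivity)] at h3
        calc 1024 * (CS ^ 2 * CY4) * q ≤ (T ^ (ε / 4) * c ^ 4) * q :=
              mul_le_mul_of_nonneg_right h3 hq0.le
          _ = (q * T ^ (ε / 4)) * c ^ 4 := by ring
          _ ≤ 1 * c ^ 4 := mul_le_mul_of_nonneg_right e5 (by positivity)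
          _ = c ^ 4 := one_mul _
      rw [e1]
      calc (CS * L * (P * T ^ (4 * δ * ((n : ℝ) + 1)))) ^ 2 *
            (P * T ^ (-(ε / 2)) * (P * (CY4 * (M : ℝ) ^ (2 + ε))))
          ≤ (CS * L * (P * T ^ (4 * δ * ((n : ℝ) + 1)))) ^ 2 *
            (P * T ^ (-(ε / 2)) * (P * (CY4 * (4 * L ^ 2 * T ^ (ε / 40))))) := by gcongr
        _ = (1024 * (CS ^ 2 * CY4) * q) * (1 / 256 * L ^ 4 * P ^ 4) := by
            rw [hq]
            ring
        _ ≤ c ^ 4 * (1 / 256 * L ^ 4 * P ^ 4) := mul_le_mul_of_nonneg_right e6 (by positivity)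
        _ = (c / 4 * L * P) ^ 4 := by ring
  -- conclusion
  have hfin := hC.trans (add_le_add X1 (add_le_add X3 X2))
  rw [← ENNReal.ofReal_add hgoal0 hgoal0, ← ENNReal.ofReal_add hgoal0 (by positivity)] at hfin
  have hlt : c / 4 * L * P + (c / 4 * L * P + c / 4 * L * P) < c * L * P := by
    have : 0 < c * L * P := by positivity
    linarith
  have := (ENNReal.ofReal_le_ofReal_iff (by positivity)).1 hfin
  linarith

theorem eventually_rpow (C a : ℝ) (ha : 0 < a) : ∃ T₀ : ℝ, 1 ≤ T₀ ∧ ∀ T, T₀ ≤ T → C ≤ T ^ a := by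
  have h := (tendsto_rpow_atTop ha).eventually_ge_atTop C
  rw [Filter.eventually_atTop] at h
  obtain ⟨T₀, hT₀⟩ := h
  exact ⟨max 1 T₀, le_max_left _ _, fun T hT => hT₀ T ((le_max_right _ _).trans hT)⟩

theorem core (n : ℕ) (ε : ℝ) (hε : 0 < ε) : ∃ T₁ : ℝ, 1 ≤ T₁ ∧
    ∀ (T L : ℝ) (β : Fin (n + 1) → ℝ), T₁ ≤ T → 1 ≤ L →
    L ≤ T ^ (1 / 50 : ℝ) → (∀ j, T ≤ β j) → (∀ j, β j ≤ 2 * T) →
    ENNReal.ofReal (T ^ (n + 1) * T ^ (-(ε / 2))) ≤ volume (BadG n ε T L β) := by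
  obtain ⟨c, T₂, hc, hT₂, hlow⟩ := low_main n
  obtain ⟨CY2, hCY2, hY2⟩ := low_Y2
  obtain ⟨CY4, hCY4, hY4⟩ := low_Y4 ε hε
  obtain ⟨δ, hδ⟩ : ∃ δ, δ = min (1 / 2) (ε / (64 * ((n : ℝ) + 1))) := ⟨_, rfl⟩
  have hδ0 : 0 < δ := by rw [hδ]; exact lt_min (by norm_num) (by positivity)
  have hδ2 : δ ≤ 1 / 2 := by rw [hδ]; exact min_le_left _ _
  have hδ3 : 8 * δ * ((n : ℝ) + 1) ≤ ε / 8 := by
    have h := min_le_right (1 / 2 : ℝ) (ε / (64 * ((n : ℝ) + 1)))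
    rw [← hδ, le_div_iff₀ (by positivity)] at h
    linarith
  obtain ⟨CS, hCS, hS⟩ := sup_f (n + 1) δ hδ0 hδ2
  obtain ⟨CE, hCE, hE⟩ := e1_f (n + 1) (1 / 4) (by norm_num)
  obtain ⟨t1, ht1, ht1'⟩ := eventually_rpow 2 (1 / 200) (by norm_num)
  obtain ⟨t2, ht2, ht2'⟩ := eventually_rpow (128 * CY2 / c ^ 2) (2 * ε) (by positivity)
  obtain ⟨t3, ht3, ht3'⟩ := eventually_rpow (4 * CE / c) (9 / 40) (by norm_num)
  obtain ⟨t4, ht4, ht4'⟩ := eventually_rpow (1024 * (CS ^ 2 * CY4) / c ^ 4) (ε / 4) (by positivity)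
  refine ⟨max T₂ (max t1 (max t2 (max t3 t4))), hT₂.trans (le_max_left _ _), ?_⟩
  intro T L β hT hL hLT hβ hβ'
  simp only [max_le_iff] at hT
  obtain ⟨g0, g1, g2, g3, g4⟩ := hT
  have hT1 : 1 ≤ T := hT₂.trans g0
  have hT0 : 0 < T := by linarith
  have hL0 : 0 < L := by linarith
  have hM1 : 1 ≤ ⌈L⌉₊ := Nat.one_le_ceil_iff.2 hL0
  have hLM : L ≤ (⌈L⌉₊ : ℝ) := Nat.le_ceil L
  have hML : (⌈L⌉₊ : ℝ) ≤ 2 * L := by
    have := (Nat.ceil_lt_add_one hL0.le).le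
    linarith
  have hMT : (⌈L⌉₊ : ℝ) ≤ T ^ (1 / 40 : ℝ) := by
    calc (⌈L⌉₊ : ℝ) ≤ 2 * L := hML
      _ ≤ T ^ (1 / 200 : ℝ) * T ^ (1 / 50 : ℝ) :=
          mul_le_mul (ht1' T g1) hLT hL0.le (by positivity)
      _ = T ^ (1 / 40 : ℝ) := by
          rw [← Real.rpow_add hT0]
          norm_num
  have hLT' : L ≤ T := hLT.trans (by
    calc T ^ (1 / 50 : ℝ) ≤ T ^ (1 : ℝ) := Real.rpow_le_rpow_of_exponent_le hT1 (by norm_num)
      _ = T := Real.rpow_one T)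
  have hTh : T ^ (1 / 2 : ℝ) ≤ T := by
    calc T ^ (1 / 2 : ℝ) ≤ T ^ (1 : ℝ) := Real.rpow_le_rpow_of_exponent_le hT1 (by norm_num)
      _ = T := Real.rpow_one T
  obtain ⟨B₁, hB₁m, hB₁, hB₁i⟩ := hE T L T hT1 hL0.le hLT' hTh le_rfl β hβ hβ'
  obtain ⟨B₂, hB₂m, hB₂, hB₂i⟩ := hS T L T hT1 hL hLT' hT0.le le_rfl β hβ hβ'
  have hLmem : L ∈ Set.Icc (0:ℝ) L := ⟨hL0.le, le_rfl⟩
  exact core_step hε hc hCY2 hCY4 hCS hCE hT1 hL hM1 hML hMT hβ hδ3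
    (hlow T L ⌈L⌉₊ β g0 hL hLM hMT hβ hβ') (hY2 T (β 0) _ hT1 hM1 hMT) (hY4 T (β 0) _ hT1 hM1 hMT)
    hB₁m hB₂m (fun α hα => hB₁ α hα L hLmem) (fun α hα => hB₂ α hα L hLmem) hB₁i hB₂i
    (ht2' T g2) (ht3' T g3) (ht4' T g4)

end LFin

open LFin in
theorem low_final (n : ℕ) (ε : ℝ) (hε : 0 < ε) : ∃ T₀ : ℝ, 1 ≤ T₀ ∧ ∀ (T L : ℝ) (β : Fin (n + 1) → ℝ), T₀ ≤ T → 1 ≤ L →
    L ≤ T ^ (1 / 50 : ℝ) → (∀ j, T ≤ β j) → (∀ j, β j ≤ 2 * T) →
    ENNReal.ofReal (T ^ (n + 1) * T ^ (-ε)) ≤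
      volume {α ∈ Set.Icc β (fun j => β j + T) | L ^ (1 / 2 : ℝ) * T ^ (-ε) <
        ‖∫ t in (0:ℝ)..L, (((∏ j, ‖riemannZeta (1 / 2 + ((t + α j : ℝ) : ℂ) * I)‖ ^ 2 : ℝ) : ℂ) -
          mainTerm (fun j => t + α j))‖} := by
  obtain ⟨κ, hκ, hκ4, hMP⟩ := main_point (n + 1) (1 / 4) (by norm_num)
  obtain ⟨B, C1, κ', hB, hC1, hκ', hZG⟩ := zeta_good κ hκ hκ4
  obtain ⟨C2, hC2, hMP'⟩ := hMP B
  obtain ⟨ε₁, hε₁⟩ : ∃ ε₁, ε₁ = min ε (min (1 / 8) κ') := ⟨_, rfl⟩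
  have hε₁0 : 0 < ε₁ := by rw [hε₁]; exact lt_min hε (lt_min (by norm_num) hκ')
  have hε₁ε : ε₁ ≤ ε := by rw [hε₁]; exact min_le_left _ _
  have hε₁8 : ε₁ ≤ 1 / 8 := by rw [hε₁]; exact (min_le_right _ _).trans (min_le_left _ _)
  have hε₁κ : ε₁ ≤ κ' := by rw [hε₁]; exact (min_le_right _ _).trans (min_le_right _ _)
  obtain ⟨T₁, hT₁, hcore⟩ := core n ε₁ hε₁0
  obtain ⟨t5, ht5, ht5'⟩ := eventually_rpow (1 + ((n : ℝ) + 1) ^ 2 * C1) (ε₁ / 2) (by positivity)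
  obtain ⟨t6, ht6, ht6'⟩ := eventually_rpow C2 (1 / 10) (by norm_num)
  refine ⟨max T₁ (max t5 t6), hT₁.trans (le_max_left _ _), ?_⟩
  intro T L β hT hL hLT hβ hβ'
  simp only [max_le_iff] at hT
  obtain ⟨g1, g5, g6⟩ := hT
  have hT1 : 1 ≤ T := hT₁.trans g1
  have hT0 : 0 < T := by linarith
  have hL0 : 0 < L := by linarith
  have hLT' : L ≤ T := hLT.trans (by
    calc T ^ (1 / 50 : ℝ) ≤ T ^ (1 : ℝ) := Real.rpow_le_rpow_of_exponent_le hT1 (by norm_num)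
      _ = T := Real.rpow_one T)
  have hTh : T ^ (1 / 2 : ℝ) ≤ T := by
    calc T ^ (1 / 2 : ℝ) ≤ T ^ (1 : ℝ) := Real.rpow_le_rpow_of_exponent_le hT1 (by norm_num)
      _ = T := Real.rpow_one T
  have hG := hcore T L β g1 hL hLT hβ hβ'
  obtain ⟨S, hS⟩ : ∃ S : Set (Fin (n + 1) → ℝ), S = {α ∈ Set.Icc β (fun j => β j + T) |
      L ^ (1 / 2 : ℝ) * T ^ (-ε) <
        ‖∫ t in (0:ℝ)..L, (((∏ j, ‖riemannZeta (1 / 2 + ((t + α j : ℝ) : ℂ) * I)‖ ^ 2 : ℝ) : ℂ) -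
          mainTerm (fun j => t + α j))‖} := ⟨_, rfl⟩
  rw [← hS]
  obtain ⟨P, hP⟩ : ∃ P : Finset (Fin (n + 1) × Fin (n + 1)),
    P = Finset.univ.filter (fun q => q.1 ≠ q.2) := ⟨_, rfl⟩
  obtain ⟨Sb, hSb⟩ : ∃ Sb : Fin (n + 1) × Fin (n + 1) → Set (Fin (n + 1) → ℝ), Sb = fun q =>
    {α ∈ Set.Icc β (fun j => β j + T) |
      ¬ Good κ (T ^ κ) (B * T ^ κ) (α q.1 - α q.2)} := ⟨_, rfl⟩
  have hLL : L ^ (1 / 2 : ℝ) * L ^ (1 / 2 : ℝ) = L := by
    rw [← Real.rpow_add hL0]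
    norm_num
  have hLh : 0 < L ^ (1 / 2 : ℝ) := Real.rpow_pos_of_pos hL0 _
  have hLT2 : L ^ (1 / 2 : ℝ) ≤ T ^ (1 / 100 : ℝ) := by
    calc L ^ (1 / 2 : ℝ) ≤ (T ^ (1 / 50 : ℝ)) ^ (1 / 2 : ℝ) :=
          Real.rpow_le_rpow hL0.le hLT (by norm_num)
      _ = T ^ (1 / 100 : ℝ) := by
          rw [← Real.rpow_mul hT0.le]
          norm_num
  have hsmall : C2 * T ^ (-(1 / 2) + 1 / 4 : ℝ) * L ≤ L ^ (1 / 2 : ℝ) * T ^ (-ε₁) := by
    have e1 : T ^ (1 / 10 : ℝ) * T ^ (-(1 / 2) + 1 / 4 : ℝ) * T ^ (1 / 100 : ℝ) ≤ T ^ (-ε₁) := by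
      rw [← Real.rpow_add hT0, ← Real.rpow_add hT0]
      apply Real.rpow_le_rpow_of_exponent_le hT1
      linarith
    calc C2 * T ^ (-(1 / 2) + 1 / 4 : ℝ) * L
        = L ^ (1 / 2 : ℝ) * (C2 * T ^ (-(1 / 2) + 1 / 4 : ℝ) * L ^ (1 / 2 : ℝ)) := by
          conv_lhs => rw [← hLL]
          ring
      _ ≤ L ^ (1 / 2 : ℝ) *
          (T ^ (1 / 10 : ℝ) * T ^ (-(1 / 2) + 1 / 4 : ℝ) * T ^ (1 / 100 : ℝ)) := by
          have := ht6' T g6
          gcongr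
      _ ≤ L ^ (1 / 2 : ℝ) * T ^ (-ε₁) := mul_le_mul_of_nonneg_left e1 hLh.le
  have hsub : BadG n ε₁ T L β ⊆ S ∪ ⋃ q ∈ P, Sb q := by
    intro α hα
    by_contra hcon
    rw [Set.mem_union, not_or] at hcon
    obtain ⟨hc1, hc2⟩ := hcon
    have hαK := hα.1
    have hgood : ∀ i j, i ≠ j → Good κ (T ^ κ) (B * T ^ κ) (α i - α j) := by
      intro i j hij
      by_contra hg
      apply hc2
      rw [Set.mem_iUnion₂]
      refine ⟨(i, j), ?_, ?_⟩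
      · rw [hP]
        exact Finset.mem_filter.2 ⟨Finset.mem_univ _, hij⟩
      · rw [hSb]
        exact ⟨hαK, hg⟩
    have ha1 : ∀ j, T ≤ α j := fun j => (hβ j).trans (hαK.1 j)
    have ha2 : ∀ j, α j ≤ 3 * T := by
      intro j
      have h1 := hαK.2 j
      have h2 := hβ' j
      simp only at h1
      linarith
    have hpt := point_low hMP' hT1 hκ ha1 ha2 hgood hL0.le hLT'
    have hbig := hα.2
    rw [← ofReal_norm, ENNReal.ofReal_lt_ofReal_iff_of_nonneg (by positivity)] at hbig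
    apply hc1
    rw [hS]
    refine ⟨hαK, ?_⟩
    have h3 : T ^ (-ε) ≤ T ^ (-ε₁) := Real.rpow_le_rpow_of_exponent_le hT1 (by linarith)
    have h4 : L ^ (1 / 2 : ℝ) * T ^ (-ε) ≤ L ^ (1 / 2 : ℝ) * T ^ (-ε₁) :=
      mul_le_mul_of_nonneg_left h3 hLh.le
    linarith
  have hfin2 : ∀ q ∈ P, volume (Sb q) ≤ ENNReal.ofReal (C1 * T ^ (n + 1) * T ^ (-κ')) := by
    intro q hq
    rw [hP] at hq
    have hne := (Finset.mem_filter.1 hq).2
    have hne' : q.1.succ ≠ q.2.succ := fun h => hne (Fin.succ_injective _ h)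
    have hpb := FinalAux.pair_bound (κ := κ) (Y := T ^ κ) (B := B * T ^ κ) (κ' := κ') hT1 hT0.le
      le_rfl hC1.le (fun a ha ha' => hZG T a T hT1 hTh ha ha') (α₀ := T) le_rfl (by linarith) hβ hβ'
      q.1.succ q.2.succ hne'
    simp only [Fin.cons_succ] at hpb
    rw [hSb]
    exact hpb
  have hPcard : (P.card : ℝ) ≤ ((n : ℝ) + 1) ^ 2 := by
    have h1 : P.card ≤ (n + 1) * (n + 1) := by
      rw [hP]
      refine (Finset.card_filter_le _ _).trans ?_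
      simp
    have h2 : (P.card : ℝ) ≤ (((n + 1) * (n + 1) : ℕ) : ℝ) := by exact_mod_cast h1
    push_cast at h2
    linarith [h2]
  obtain ⟨X, hX⟩ : ∃ X, X = ((n : ℝ) + 1) ^ 2 * C1 * T ^ (n + 1) * T ^ (-κ') := ⟨_, rfl⟩
  have hX0 : 0 ≤ X := by rw [hX]; positivity
  have hf2 : volume (⋃ q ∈ P, Sb q) ≤ ENNReal.ofReal X := by
    refine ((measure_biUnion_finset_le _ _).trans (Finset.sum_le_sum hfin2)).trans ?_
    rw [Finset.sum_const, nsmul_eq_mul, ← ENNReal.ofReal_natCast,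
      ← ENNReal.ofReal_mul (by positivity : (0 : ℝ) ≤ (P.card : ℝ))]
    apply ENNReal.ofReal_le_ofReal
    rw [hX]
    have h1 : (P.card : ℝ) * (C1 * T ^ (n + 1) * T ^ (-κ')) ≤
        ((n : ℝ) + 1) ^ 2 * (C1 * T ^ (n + 1) * T ^ (-κ')) :=
      mul_le_mul_of_nonneg_right hPcard (by positivity)
    linarith
  have htot : ENNReal.ofReal (T ^ (n + 1) * T ^ (-(ε₁ / 2))) ≤ volume S + ENNReal.ofReal X :=
    hG.trans ((measure_mono hsub).trans ((measure_union_le _ _).trans (add_le_add le_rfl hf2)))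
  have hnum : T ^ (n + 1) * T ^ (-ε) + X ≤ T ^ (n + 1) * T ^ (-(ε₁ / 2)) := by
    have e1 : T ^ (-(ε₁ / 2)) = T ^ (-ε₁) * T ^ (ε₁ / 2) := by
      rw [← Real.rpow_add hT0]
      congr 1
      ring
    have e2 : T ^ (-κ') ≤ T ^ (-ε₁) := Real.rpow_le_rpow_of_exponent_le hT1 (by linarith)
    have e3 : T ^ (-ε) ≤ T ^ (-ε₁) := Real.rpow_le_rpow_of_exponent_le hT1 (by linarith)
    have e4 := ht5' T g5
    have hTn : 0 < T ^ (n + 1) := by positivity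
    rw [hX, e1]
    calc T ^ (n + 1) * T ^ (-ε) + ((n : ℝ) + 1) ^ 2 * C1 * T ^ (n + 1) * T ^ (-κ')
        ≤ T ^ (n + 1) * T ^ (-ε₁) + ((n : ℝ) + 1) ^ 2 * C1 * T ^ (n + 1) * T ^ (-ε₁) := by gcongr
      _ = T ^ (n + 1) * T ^ (-ε₁) * (1 + ((n : ℝ) + 1) ^ 2 * C1) := by ring
      _ ≤ T ^ (n + 1) * T ^ (-ε₁) * T ^ (ε₁ / 2) := mul_le_mul_of_nonneg_left e4 (by positivity)
      _ = _ := by ring
  have h5 := (ENNReal.ofReal_le_ofReal hnum).trans htot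
  rw [ENNReal.ofReal_add (by positivity) hX0] at h5
  exact (ENNReal.add_le_add_iff_right ENNReal.ofReal_ne_top).1 h5

end Pool.Agent.P07318s
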