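import Pool.Agent.Lib.P07318s.Defs
import Pool.Agent.Lib.P07318s.IntDefs
import Pool.Agent.Lib.P07318s.IntMain
import Pool.Agent.Lib.P07318s.IntP4
import Pool.Agent.Lib.P07318s.IntCard
import Pool.Agent.Lib.P07318s.E2F
import Pool.Agent.Lib.P07318s.SupF
import Pool.Agent.Lib.P07318s.MainPoint
import Pool.Agent.Lib.P07318s.ZetaGood
import Pool.Agent.Lib.P07318s.Cont
import Pool.Agent.Lib.P07318s.FinalF
import Pool.Agent.Lib.P07318s.LowFinal

/-!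
As `LowFinal.lean` (proved), with the test function `PS m S`, `S = SS k m B V`, `B = ⌊T^(1/2-δ₁)/2⌋`, `m δ₁ < δ/4`. `Rem = ∫_0^V (∏‖ζ‖² - Dg) = R + E`, `K` the box.
Facts (all constants absolute, `ε₁` as small as we like, `T` large): `n_S = |S| ≥ B^(2m)/(C V)` (`int_card`; `B^m ≥ C V B^ε₁`), `W = ∑_{x∈S} ∏ x_j^(-1/2) ≥ n_S (2B)^(-m)`,
`∫_K |PS|⁴ ≤ C T^(k+ε₁) n_S²` (`low_P4`), so `∫_K |PS|² ≤ C T^(k+ε₁) n_S` and `∫_K |PS| ≤ C T^(k+ε₁) n_S^(1/2)`; `∫_K |R|² ≤ C V T^(k+ε₁)` (`sup_f`, `H = T`, `L = V`); `∫_K |E|² ≤ C V² T^(k-1+ε₁)` (`e2_f`).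
`low_main_int`: `V T^k W/4 ≤ ∫_K |Rem| |PS|`. Split by `G = {|Rem| > τ}`, `τ = 2 V^(1/2) T^(-ε)`: complement `≤ τ C T^(k+ε₁) n_S^(1/2)`; `∫_K |E||PS| ≤ C V T^(k-1/2+ε₁) n_S^(1/2)`;
`∫_G |R||PS| ≤ (∫_K|R|²)^(1/2) (∫_K|PS|⁴)^(1/4) |G|^(1/4) ≤ C V^(1/2) T^(3k/4+ε₁) n_S^(1/2) |G|^(1/4)`. As `V W ≥ V n_S (2B)^(-m) ≥ c V^(1/2) n_S^(1/2)`, the first two are small if `ε₁ < ε/2` and
`V ≤ T^(1-δ)`, `2ε₁ < δ/2`; so `|G| ≥ c T^(k-4ε₁)`. Then `|∫_0^V (Dg - mainTerm)| ≤ C V T^(-1/2+δ/4) ≤ V^(1/2) T^(-ε)` outside a set of measure `≤ C T^(k-κ')` (`main_point` with `δ/4`, `zeta_good`; `κ'` depends on `k, δ`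
only). We may assume `ε < min(δ/8, κ'/4)`: the statement for a smaller `ε` implies it for a larger one.
-/

set_option autoImplicit false

namespace Pool.Agent.P07318s

open MeasureTheory Complex
open scoped ENNReal

namespace IntFinalAux

open LFin

/-- Hölder with an exceptional set. -/
theorem absG {X : Type*} [MeasurableSpace X] (μ : Measure X) {p : ℝ} (hp : 0 ≤ p)
    (hv : μ Set.univ ≤ ENNReal.ofReal (p ^ 4)) {F : X → ℝ≥0∞} (hF : Measurable F)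
    {Rem : X → ℝ≥0∞} {τ : ℝ} (hτ : 0 ≤ τ) {G : Set X} (hG : MeasurableSet G)
    {B₁ B₂ : X → ℝ≥0∞} (hB₁ : Measurable B₁) (hB₂ : Measurable B₂)
    (hR1 : ∀ᵐ x ∂μ, x ∉ G → Rem x ≤ ENNReal.ofReal τ) (hR2 : ∀ᵐ x ∂μ, Rem x ≤ B₁ x + B₂ x)
    {bE bR b4 g : ℝ} (hbE : 0 ≤ bE) (hbR : 0 ≤ bR) (hb4 : 0 ≤ b4) (hg : 0 ≤ g)
    (h1 : ∫⁻ x, B₁ x ^ 2 ∂μ ≤ ENNReal.ofReal (bE ^ 2))
    (h2 : ∫⁻ x, B₂ x ^ 2 ∂μ ≤ ENNReal.ofReal (bR ^ 2))
    (h4 : ∫⁻ x, F x ^ 4 ∂μ ≤ ENNReal.ofReal (b4 ^ 4)) (hGv : μ G ≤ ENNReal.ofReal (g ^ 4)) :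
    ∫⁻ x, Rem x * F x ∂μ ≤ ENNReal.ofReal (τ * (p ^ 3 * b4) + (bE * (p * b4) + bR * (g * b4))) := by
  -- powers of F
  have hone : ∀ (H : Set X) (hH : MeasurableSet H) (q : ℝ) (_ : 0 ≤ q)
      (_ : μ H ≤ ENNReal.ofReal (q ^ 4)),
      ∫⁻ x, H.indicator (fun _ => 1) x * F x ^ 2 ∂μ ≤ ENNReal.ofReal ((q * b4) ^ 2) := by
    intro H hH q hq hHv
    have hindm : Measurable (H.indicator (fun _ => (1 : ℝ≥0∞))) := measurable_const.indicator hH
    have c2 := cs (μ := μ) hindm.aemeasurable (hF.pow_const 2).aemeasurable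
    have e1 : ∀ x : X, (H.indicator (fun _ => (1 : ℝ≥0∞)) x) ^ 2 =
        H.indicator (fun _ => (1 : ℝ≥0∞)) x := by
      intro x
      by_cases hx : x ∈ H
      · rw [Set.indicator_of_mem hx, one_pow]
      · rw [Set.indicator_of_notMem hx]
        norm_num
    have e2 : ∀ x : X, (F x ^ 2) ^ 2 = F x ^ 4 := fun x => by rw [← pow_mul]
    simp_rw [e1, e2] at c2
    have e3 : ∫⁻ x, H.indicator (fun _ => (1 : ℝ≥0∞)) x ∂μ = μ H := by
      rw [lintegral_indicator hH]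
      simp
    rw [e3] at c2
    refine le_of_pow_le (k := 2) (y := q ^ 4 * b4 ^ 4) two_ne_zero (by positivity)
      (c2.trans ?_) (le_of_eq (by ring))
    rw [ENNReal.ofReal_mul (by positivity)]
    exact mul_le_mul' hHv h4
  have hF2 : ∫⁻ x, F x ^ 2 ∂μ ≤ ENNReal.ofReal ((p * b4) ^ 2) := by
    have := hone Set.univ MeasurableSet.univ p hp hv
    simpa using this
  have hF1 : ∫⁻ x, F x ∂μ ≤ ENNReal.ofReal (p ^ 3 * b4) := by
    have c := cs (μ := μ) (f := fun _ => (1 : ℝ≥0∞)) (g := F) aemeasurable_const hF.aemeasurable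
    simp only [one_mul, one_pow, lintegral_const] at c
    refine le_of_pow_le (k := 2) (y := p ^ 4 * (p * b4) ^ 2) two_ne_zero (by positivity)
      (c.trans ?_) (le_of_eq (by ring))
    rw [ENNReal.ofReal_mul (by positivity)]
    exact mul_le_mul' hv hF2
  have hindm : Measurable (G.indicator (fun _ => (1 : ℝ≥0∞))) := measurable_const.indicator hG
  have hpt : ∀ᵐ x ∂μ, Rem x * F x ≤ ENNReal.ofReal τ * F x +
      (B₁ x * F x + B₂ x * (G.indicator (fun _ => 1) x * F x)) := by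
    filter_upwards [hR1, hR2] with x hx1 hx2
    by_cases hx : x ∈ G
    · rw [Set.indicator_of_mem hx, one_mul, ← add_mul]
      exact (mul_le_mul_left hx2 _).trans le_add_self
    · exact (mul_le_mul_left (hx1 hx) _).trans le_self_add
  have T1 : ∫⁻ x, ENNReal.ofReal τ * F x ∂μ ≤ ENNReal.ofReal (τ * (p ^ 3 * b4)) := by
    rw [lintegral_const_mul _ hF, ENNReal.ofReal_mul hτ]
    exact mul_le_mul_right hF1 _
  have T2 : ∫⁻ x, B₁ x * F x ∂μ ≤ ENNReal.ofReal (bE * (p * b4)) := by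
    refine le_of_pow_le (k := 2) (y := bE ^ 2 * (p * b4) ^ 2) two_ne_zero (by positivity)
      ((cs hB₁.aemeasurable hF.aemeasurable).trans ?_) (le_of_eq (by ring))
    rw [ENNReal.ofReal_mul (by positivity)]
    exact mul_le_mul' h1 hF2
  have T3 : ∫⁻ x, B₂ x * (G.indicator (fun _ => 1) x * F x) ∂μ ≤ ENNReal.ofReal (bR * (g * b4)) := by
    refine le_of_pow_le (k := 2) (y := bR ^ 2 * (g * b4) ^ 2) two_ne_zero (by positivity)
      ((cs hB₂.aemeasurable (hindm.mul hF).aemeasurable).trans ?_) (le_of_eq (by ring))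
    rw [ENNReal.ofReal_mul (by positivity)]
    refine mul_le_mul' h2 ?_
    refine le_trans (le_of_eq ?_) (hone G hG g hg hGv)
    refine lintegral_congr fun x => ?_
    by_cases hx : x ∈ G
    · simp only [Pi.mul_apply, Set.indicator_of_mem hx, one_mul]
    · simp only [Pi.mul_apply, Set.indicator_of_notMem hx, zero_mul]
      norm_num
  calc ∫⁻ x, Rem x * F x ∂μ ≤ ∫⁻ x, (ENNReal.ofReal τ * F x +
        (B₁ x * F x + B₂ x * (G.indicator (fun _ => 1) x * F x))) ∂μ := lintegral_mono_ae hpt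
    _ = (∫⁻ x, ENNReal.ofReal τ * F x ∂μ) + ((∫⁻ x, B₁ x * F x ∂μ) +
        ∫⁻ x, B₂ x * (G.indicator (fun _ => 1) x * F x) ∂μ) := by
        have ma : Measurable fun x => ENNReal.ofReal τ * F x := measurable_const.mul hF
        have mb : Measurable fun x => B₁ x * F x := hB₁.mul hF
        rw [lintegral_add_left ma, lintegral_add_left mb]
    _ ≤ ENNReal.ofReal (τ * (p ^ 3 * b4)) + (ENNReal.ofReal (bE * (p * b4)) +
        ENNReal.ofReal (bR * (g * b4))) := add_le_add T1 (add_le_add T2 T3)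
    _ = _ := by
        rw [← ENNReal.ofReal_add (by positivity) (by positivity),
          ← ENNReal.ofReal_add (by positivity) (by positivity)]

/-- the error of the approximate functional equation, measurable version -/
theorem e2_meas {k : ℕ} {T V : ℝ} (hT : 1 ≤ T) (hV : 0 ≤ V) (β : Fin k → ℝ) (hβ : ∀ j, T ≤ β j) :
    ∃ B₁ : (Fin k → ℝ) → ℝ≥0∞, Measurable B₁ ∧ ∀ α ∈ Set.Icc β (fun j => β j + T),
      ‖∫ t in (0:ℝ)..V, (((∏ j, ‖riemannZeta (1 / 2 + ((t + α j : ℝ) : ℂ) * I)‖ ^ 2 : ℝ) : ℂ) -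
        ∏ j, Fd (t + α j))‖ₑ = B₁ α := by
  have hT0 : 0 < T := by linarith
  set c : (Fin k → ℝ) × ℝ → Fin k → ℝ := fun p j => max p.2 0 + max (p.1 j) T with hc
  have hcc : Continuous c := by
    refine continuous_pi fun j => ?_
    exact (continuous_snd.max continuous_const).add
      (((continuous_apply j).comp continuous_fst).max continuous_const)
  have hcpos : ∀ p j, 0 < c p j := fun p j => by
    have h1 : 0 ≤ max p.2 0 := le_max_right _ _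
    have h2 : T ≤ max (p.1 j) T := le_max_right _ _
    simp only [hc]
    linarith
  set f : (Fin k → ℝ) × ℝ → ℂ := fun p => ((∏ j, ‖riemannZeta (1 / 2 + ((c p j : ℝ) : ℂ) * I)‖ ^ 2 : ℝ) : ℂ) -
        ∏ j, Fd (c p j) with hf
  have hfc : Continuous f := by
    refine Continuous.sub ?_ ?_
    · exact (FD.ZZ_cont k).comp hcc
    · refine (FD.PF_cont k).comp_continuous hcc fun p => ?_
      exact fun j => hcpos p j
  refine ⟨fun α => ‖∫ t in (0:ℝ)..V, f (α, t)‖ₑ, ?_, fun α hα => ?_⟩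
  · have h1 : Continuous fun α : Fin k → ℝ => ∫ t in (0:ℝ)..V, f (α, t) :=
      intervalIntegral.continuous_parametric_intervalIntegral_of_continuous' hfc 0 V
    exact h1.enorm.measurable
  · simp only
    congr 1
    refine intervalIntegral.integral_congr fun t ht => ?_
    rw [Set.uIcc_of_le hV] at ht
    have e : ∀ j, c (α, t) j = t + α j := by
      intro j
      simp only [hc]
      rw [max_eq_left ht.1, max_eq_left ((hβ j).trans (hα.1 j))]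
    simp only [hf, e]

/-- lower bound for the weights -/
theorem weight_low {k m : ℕ} (hk : 2 * m ≤ k) (B : ℕ+) (V : ℝ) :
    ((SS k m B V).card : ℝ) * (((2 * (B : ℕ) : ℕ) : ℝ) ^ m)⁻¹ ≤
      ∑ x ∈ SS k m B V, ∏ j, ((x j : ℕ) : ℝ) ^ (-(1 / 2) : ℝ) := by
  have hB0 : (0:ℝ) < ((2 * (B : ℕ) : ℕ) : ℝ) := by
    have := B.pos
    positivity
  have h1 : ∀ x ∈ SS k m B V, (((2 * (B : ℕ) : ℕ) : ℝ) ^ m)⁻¹ ≤
      ∏ j, ((x j : ℕ) : ℝ) ^ (-(1 / 2) : ℝ) := by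
    intro x hx
    unfold SS at hx
    rw [Finset.mem_filter, Fintype.mem_piFinset] at hx
    have h2 : ∀ j ∈ (Finset.univ : Finset (Fin k)), (if (j : ℕ) < 2 * m then
        ((2 * (B : ℕ) : ℕ) : ℝ) ^ (-(1 / 2) : ℝ) else 1) ≤ ((x j : ℕ) : ℝ) ^ (-(1 / 2) : ℝ) := by
      intro j _
      have h3 := hx.1 j
      split_ifs with hj
      · rw [if_pos hj, Finset.mem_Ico] at h3
        have h4 : (x j : ℕ) ≤ 2 * (B : ℕ) := by exact_mod_cast h3.2.le
        have h5 : (0:ℝ) < ((x j : ℕ) : ℝ) := by exact_mod_cast (x j).pos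
        exact Real.rpow_le_rpow_of_nonpos h5 (by exact_mod_cast h4) (by norm_num)
      · rw [if_neg hj, Finset.mem_singleton] at h3
        rw [h3]
        simp
    refine le_trans (le_of_eq ?_) (Finset.prod_le_prod (fun j _ => ?_) h2)
    · rw [Finset.prod_ite, Finset.prod_const_one, mul_one, Finset.prod_const]
      have h6 : (Finset.univ.filter (fun j : Fin k => (j : ℕ) < 2 * m)).card = 2 * m := by
        rw [Fin.card_filter_val_lt]
        exact min_eq_right hk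
      rw [h6, pow_mul, ← Real.rpow_natCast (((2 * (B : ℕ) : ℕ) : ℝ) ^ (-(1 / 2) : ℝ)) 2,
        ← Real.rpow_mul hB0.le, ← inv_pow]
      congr 1
      have e : (-(1 / 2) : ℝ) * ((2 : ℕ) : ℝ) = -1 := by norm_num
      rw [e, Real.rpow_neg_one]
    · split_ifs
      · positivity
      · exact zero_le_one
  have h3 := Finset.sum_le_sum h1
  rw [Finset.sum_const, nsmul_eq_mul] at h3
  exact h3

/-- the set where the remainder is large -/
def BadI (k : ℕ) (ε T V : ℝ) (β : Fin k → ℝ) : Set (Fin k → ℝ) :=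
  {α ∈ Set.Icc β (fun j => β j + T) | ENNReal.ofReal (2 * V ^ (1 / 2 : ℝ) * T ^ (-ε)) <
    ‖∫ t in (0:ℝ)..V, (((∏ j, ‖riemannZeta (1 / 2 + ((t + α j : ℝ) : ℂ) * I)‖ ^ 2 : ℝ) : ℂ) -
      Dg (fun j => t + α j))‖ₑ}

/-- the numerical contradiction -/
theorem numer {P u s W V c0 x1 x2 x3 : ℝ} (hP : 0 < P) (hu : 0 < u) (hs : 0 < s) (hc0 : 0 < c0)
    (hlow : c0 * (u * s) ≤ V * W) (h1 : x1 ≤ c0 / 16) (h2 : x2 ≤ c0 / 16) (h3 : x3 ≤ c0 / 16) :
    x1 * (u * s * P) + (x2 * (u * s * P) + x3 * (u * s * P)) < 1 / 4 * V * P * W := by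
  have h4 : 0 < u * s * P := by positivity
  have h5 : c0 * (u * s * P) ≤ V * W * P := by
    have := mul_le_mul_of_nonneg_right hlow hP.le
    calc c0 * (u * s * P) = c0 * (u * s) * P := by ring
      _ ≤ _ := this
  have h6 := mul_le_mul_of_nonneg_right h1 h4.le
  have h7 := mul_le_mul_of_nonneg_right h2 h4.le
  have h8 := mul_le_mul_of_nonneg_right h3 h4.le
  have h9 : 0 < c0 * (u * s * P) := by positivity
  nlinarith

theorem freq_le {k m : ℕ} {B : ℕ+} {V X : ℝ} (hB : 2 * ((B : ℕ) : ℝ) ≤ X) (hX : 1 ≤ X) :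
    ∀ x ∈ SS k m B V, ∀ j, ((x j : ℕ) : ℝ) ≤ X := by
  intro x hx j
  unfold SS at hx
  rw [Finset.mem_filter, Fintype.mem_piFinset] at hx
  have h3 := hx.1 j
  split_ifs at h3 with hj
  · rw [Finset.mem_Ico] at h3
    have h4 : (x j : ℕ) ≤ 2 * (B : ℕ) := by exact_mod_cast h3.2.le
    have h5 : ((x j : ℕ) : ℝ) ≤ 2 * ((B : ℕ) : ℝ) := by exact_mod_cast h4
    linarith
  · rw [Finset.mem_singleton] at h3
    rw [h3]
    simpa using hX

theorem core_int (k m : ℕ) (hm : 1 ≤ m) (hk : 2 * m ≤ k) (δ ε : ℝ) (hδ : 0 < δ) (hε : 0 < ε)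
    (hεδ : ε ≤ δ / 8) : ∃ T₁ : ℝ, 1 ≤ T₁ ∧ ∀ (T V : ℝ) (β : Fin k → ℝ), T₁ ≤ T → 1 ≤ V →
    V ≤ T ^ ((m : ℝ) / 2 - δ) → V ≤ T ^ (1 - δ) → (∀ j, T ≤ β j) → (∀ j, β j ≤ 2 * T) →
    ENNReal.ofReal (T ^ k * T ^ (-(ε / 2))) ≤ volume (BadI k ε T V β) := by
  have hm0 : (0:ℝ) < m := by exact_mod_cast hm
  obtain ⟨δ₁, hδ₁, hδ₁m, hδ₁8⟩ : ∃ δ₁ : ℝ, 0 < δ₁ ∧ m * δ₁ ≤ δ / 4 ∧ δ₁ ≤ 1 / 8 := by
    refine ⟨min (δ / (4 * m)) (1 / 8), by positivity, ?_, min_le_right _ _⟩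
    calc m * min (δ / (4 * m)) (1 / 8) ≤ m * (δ / (4 * m)) :=
          mul_le_mul_of_nonneg_left (min_le_left _ _) hm0.le
      _ = δ / 4 := by field_simp
  obtain ⟨δ₄, hδ₄, hδ₄2, hδ₄k⟩ : ∃ δ₄ : ℝ, 0 < δ₄ ∧ δ₄ ≤ 1 / 2 ∧ 2 * k * δ₄ ≤ ε / 32 := by
    have hk1 : (0:ℝ) < (k : ℝ) + 1 := by positivity
    refine ⟨min (1 / 2) (ε / (64 * ((k : ℝ) + 1))), by positivity, min_le_left _ _, ?_⟩
    calc 2 * (k : ℝ) * min (1 / 2) (ε / (64 * ((k : ℝ) + 1)))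
        ≤ 2 * ((k : ℝ) + 1) * (ε / (64 * ((k : ℝ) + 1))) := by
          refine mul_le_mul (by linarith) (min_le_right _ _) (by positivity) (by positivity)
      _ = ε / 32 := by field_simp; norm_num
  obtain ⟨C3, hC3, hcard⟩ := int_card m hm (δ / 2) (by positivity)
  obtain ⟨T₂, hT₂, hlow⟩ := low_main_int k
  obtain ⟨C4, hC4, hP4⟩ := low_P4 k δ₁ (ε / 4) hδ₁ (by positivity)
  obtain ⟨CS, hCS, hS⟩ := sup_f k δ₄ hδ₄ hδ₄2
  obtain ⟨CE, hCE, hE⟩ := e2_f k ε hε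
  have hC30 : 0 < C3 := by linarith
  set c4 : ℝ := C4 ^ (1 / 4 : ℝ) with hc4
  set cE : ℝ := CE ^ (1 / 2 : ℝ) with hcE
  set cS : ℝ := CS ^ (1 / 2 : ℝ) with hcS
  set r3 : ℝ := C3 ^ (1 / 2 : ℝ) with hr3
  have hc40 : 0 < c4 := by positivity
  have hcE0 : 0 < cE := by positivity
  have hcS0 : 0 < cS := by positivity
  have hr30 : 0 < r3 := by positivity
  have hc44 : c4 ^ 4 = C4 := by
    rw [hc4, ← Real.rpow_natCast, ← Real.rpow_mul hC4.le]
    norm_num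
  have hcE2 : cE ^ 2 = CE := by
    rw [hcE, ← Real.rpow_natCast, ← Real.rpow_mul hCE.le]
    norm_num
  have hcS2 : cS ^ 2 = CS := by
    rw [hcS, ← Real.rpow_natCast, ← Real.rpow_mul hCS.le]
    norm_num
  have hr32 : r3 ^ 2 = C3 := by
    rw [hr3, ← Real.rpow_natCast, ← Real.rpow_mul hC30.le]
    norm_num
  set c0 : ℝ := (2 ^ m * r3)⁻¹ with hc0
  have hc00 : 0 < c0 := by positivity
  obtain ⟨t1, ht1, ht1'⟩ := eventually_rpow 2 (3 / 8) (by norm_num)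
  obtain ⟨t2, ht2, ht2'⟩ := eventually_rpow (C3 * 4 ^ m) (δ / 2) (by positivity)
  obtain ⟨t3, ht3, ht3'⟩ := eventually_rpow (32 * c4 / c0) (15 * ε / 16) (by positivity)
  obtain ⟨t4, ht4, ht4'⟩ := eventually_rpow (16 * (cE * c4) / c0) (δ / 4) (by positivity)
  obtain ⟨t5, ht5, ht5'⟩ := eventually_rpow (16 * (cS * c4) / c0) (ε / 32) (by positivity)
  refine ⟨max T₂ (max t1 (max t2 (max t3 (max t4 t5)))), hT₂.trans (le_max_left _ _), ?_⟩
  intro T V β hT hV hVm hV1 hβ hβ'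
  simp only [max_le_iff] at hT
  obtain ⟨g0, g1, g2, g3, g4, g5⟩ := hT
  have hT1 : 1 ≤ T := hT₂.trans g0
  have hT0 : 0 < T := by linarith
  have hV0 : 0 < V := by linarith
  have hVT : V ≤ T := by
    refine hV1.trans ?_
    calc T ^ (1 - δ) ≤ T ^ (1 : ℝ) := Real.rpow_le_rpow_of_exponent_le hT1 (by linarith)
      _ = T := Real.rpow_one T
  by_contra hcon
  push Not at hcon
  -- the parameter B
  have hY : 2 ≤ T ^ (1 / 2 - δ₁) := (ht1' T g1).trans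
    (Real.rpow_le_rpow_of_exponent_le hT1 (by linarith))
  have hfl : 0 < ⌊T ^ (1 / 2 - δ₁) / 2⌋₊ := Nat.floor_pos.mpr (by linarith)
  set B : ℕ+ := ⟨⌊T ^ (1 / 2 - δ₁) / 2⌋₊, hfl⟩ with hB
  have hBle : 2 * ((B : ℕ) : ℝ) ≤ T ^ (1 / 2 - δ₁) := by
    have : ((B : ℕ) : ℝ) ≤ T ^ (1 / 2 - δ₁) / 2 := Nat.floor_le (by positivity)
    linarith
  have hBge : T ^ (1 / 2 - δ₁) / 4 ≤ ((B : ℕ) : ℝ) := by
    have h1 : T ^ (1 / 2 - δ₁) / 2 < (⌊T ^ (1 / 2 - δ₁) / 2⌋₊ : ℝ) + 1 := Nat.lt_floor_add_one _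
    have h2 : (1:ℝ) ≤ (⌊T ^ (1 / 2 - δ₁) / 2⌋₊ : ℝ) := by exact_mod_cast hfl
    have h3 : ((B : ℕ) : ℝ) = (⌊T ^ (1 / 2 - δ₁) / 2⌋₊ : ℝ) := rfl
    rw [h3]
    rcases le_or_gt (T ^ (1 / 2 - δ₁)) 4 with h4 | h4
    · linarith
    · linarith
  have hB0 : (0:ℝ) < ((B : ℕ) : ℝ) := by exact_mod_cast B.pos
  set S := SS k m B V with hSdef
  have hfreq : ∀ x ∈ S, ∀ j, ((x j : ℕ) : ℝ) ≤ T ^ (1 / 2 - δ₁) :=
    freq_le hBle (by linarith)
  have hfreq2 : ∀ x ∈ S, ∀ j, ((x j : ℕ) : ℝ) ≤ T ^ (1 / 2 : ℝ) := fun x hx j =>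
    (hfreq x hx j).trans (Real.rpow_le_rpow_of_exponent_le hT1 (by linarith))
  have hlam : ∀ x ∈ S, lamx m x ≠ 0 ∧ |lamx m x| ≤ 1 / V := by
    intro x hx
    rw [hSdef] at hx
    unfold SS at hx
    exact (Finset.mem_filter.mp hx).2
  -- number of frequencies
  have hcond : C3 * V * ((B : ℕ) : ℝ) ^ (δ / 2) ≤ ((B : ℕ) : ℝ) ^ m := by
    have h1 : ((B : ℕ) : ℝ) ^ (δ / 2) ≤ T ^ (δ / 4) := by
      calc ((B : ℕ) : ℝ) ^ (δ / 2) ≤ (T ^ (1 / 2 : ℝ)) ^ (δ / 2) := by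
            refine Real.rpow_le_rpow hB0.le ?_ (by positivity)
            calc ((B : ℕ) : ℝ) ≤ T ^ (1 / 2 - δ₁) := by linarith
              _ ≤ _ := Real.rpow_le_rpow_of_exponent_le hT1 (by linarith)
        _ = T ^ (δ / 4) := by
            rw [← Real.rpow_mul hT0.le]
            congr 1
            ring
    have h2 : T ^ ((m : ℝ) / 2 - δ / 4) / 4 ^ m ≤ ((B : ℕ) : ℝ) ^ m := by
      have h3 : (T ^ (1 / 2 - δ₁) / 4) ^ m ≤ ((B : ℕ) : ℝ) ^ m :=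
        pow_le_pow_left₀ (by positivity) hBge m
      refine le_trans ?_ h3
      rw [div_pow]
      refine div_le_div_of_nonneg_right ?_ (by positivity)
      rw [← Real.rpow_natCast (T ^ (1 / 2 - δ₁)) m, ← Real.rpow_mul hT0.le]
      refine Real.rpow_le_rpow_of_exponent_le hT1 ?_
      have : (1 / 2 - δ₁) * (m : ℝ) = (m : ℝ) / 2 - m * δ₁ := by ring
      rw [this]
      linarith
    refine le_trans ?_ h2
    rw [le_div_iff₀ (by positivity)]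
    have h4 := ht2' T g2
    calc C3 * V * ((B : ℕ) : ℝ) ^ (δ / 2) * 4 ^ m
        = (C3 * 4 ^ m) * V * ((B : ℕ) : ℝ) ^ (δ / 2) := by ring
      _ ≤ T ^ (δ / 2) * T ^ ((m : ℝ) / 2 - δ) * T ^ (δ / 4) := by gcongr
      _ = T ^ ((m : ℝ) / 2 - δ / 4) := by
          rw [← Real.rpow_add hT0, ← Real.rpow_add hT0]
          congr 1
          ring
  have hnS := hcard k hk B V hV hcond
  rw [← hSdef] at hnS
  set N : ℝ := (S.card : ℝ) with hN
  have hNpos : 0 < N := by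
    have h1 : 0 < C3 * V * N := lt_of_lt_of_le (by positivity) hnS
    exact pos_of_mul_pos_right h1 (by positivity)
  set u : ℝ := V ^ (1 / 2 : ℝ) with hu
  set s : ℝ := N ^ (1 / 2 : ℝ) with hs
  have hu0 : 0 < u := by positivity
  have hs0 : 0 < s := by positivity
  have hu2 : u ^ 2 = V := by
    rw [hu, ← Real.rpow_natCast, ← Real.rpow_mul hV0.le]
    norm_num
  have hs2 : s ^ 2 = N := by
    rw [hs, ← Real.rpow_natCast, ← Real.rpow_mul hNpos.le]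
    norm_num
  set W : ℝ := ∑ x ∈ S, ∏ j, ((x j : ℕ) : ℝ) ^ (-(1 / 2) : ℝ) with hW
  have hWlow : N * (((2 * (B : ℕ) : ℕ) : ℝ) ^ m)⁻¹ ≤ W := weight_low hk B V
  have hVW : c0 * (u * s) ≤ V * W := by
    have h1 : ((B : ℕ) : ℝ) ^ m ≤ r3 * (u * s) := by
      refine le_of_pow_le_pow_left₀ two_ne_zero (by positivity) ?_
      calc (((B : ℕ) : ℝ) ^ m) ^ 2 = ((B : ℕ) : ℝ) ^ (2 * m) := by rw [← pow_mul, mul_comm]
        _ ≤ C3 * V * N := hnS
        _ = (r3 * (u * s)) ^ 2 := by rw [mul_pow, mul_pow, hr32, hu2, hs2]; ring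
    have h2 : V * (N * (((2 * (B : ℕ) : ℕ) : ℝ) ^ m)⁻¹) ≤ V * W :=
      mul_le_mul_of_nonneg_left hWlow hV0.le
    refine le_trans ?_ h2
    have h3 : 0 < ((B : ℕ) : ℝ) ^ m := by positivity
    have h0 : c0 * (u * s) = (u * s) / (2 ^ m * r3) := by rw [hc0, inv_mul_eq_div]
    rw [h0, div_le_iff₀ (by positivity)]
    have h4 : V * (N * (((2 * (B : ℕ) : ℕ) : ℝ) ^ m)⁻¹) * (2 ^ m * r3)
        = (u * s) * ((r3 * (u * s)) / ((B : ℕ) : ℝ) ^ m) := by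
      rw [← hu2, ← hs2]
      push_cast
      rw [mul_pow]
      field_simp
    rw [h4]
    have h5 : 1 ≤ (r3 * (u * s)) / ((B : ℕ) : ℝ) ^ m := by
      rw [le_div_iff₀ h3, one_mul]
      exact h1
    have h6 : 0 < u * s := by positivity
    exact le_mul_of_one_le_right h6.le h5
  -- the box
  obtain ⟨p, hp⟩ : ∃ p : ℝ, p = T ^ ((k : ℝ) / 4) := ⟨_, rfl⟩
  have hp0 : 0 < p := by rw [hp]; positivity
  have hp4 : p ^ 4 = T ^ k := by
    rw [hp, ← Real.rpow_natCast, ← Real.rpow_mul hT0.le, ← Real.rpow_natCast]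
    congr 1
    push_cast
    ring
  obtain ⟨K, hK⟩ : ∃ K, K = Set.Icc β (fun j => β j + T) := ⟨_, rfl⟩
  have hKm : MeasurableSet K := by rw [hK]; exact measurableSet_Icc
  have hKv : volume K = ENNReal.ofReal (p ^ 4) := by
    rw [hK, Real.volume_Icc_pi, hp4]
    have e : ∀ i : Fin k, β i + T - β i = T := fun i => by ring
    simp only [e, Finset.prod_const, Finset.card_univ, Fintype.card_fin]
    rw [ENNReal.ofReal_pow hT0.le]
  obtain ⟨G', hG'⟩ : ∃ G', G' = toMeasurable volume (BadI k ε T V β) := ⟨_, rfl⟩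
  have hG'm : MeasurableSet G' := by rw [hG']; exact measurableSet_toMeasurable _ _
  have hG'sub : BadI k ε T V β ⊆ G' := by rw [hG']; exact subset_toMeasurable _ _
  have hG'v : volume G' ≤ ENNReal.ofReal ((p * T ^ (-(ε / 8))) ^ 4) := by
    rw [hG', measure_toMeasurable, mul_pow, hp4]
    refine hcon.le.trans (le_of_eq ?_)
    congr 2
    rw [← Real.rpow_natCast, ← Real.rpow_mul hT0.le]
    congr 1
    push_cast
    ring
  obtain ⟨Rem, hRem⟩ : ∃ Rem : (Fin k → ℝ) → ℂ, Rem = fun α =>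
    ∫ t in (0:ℝ)..V, (((∏ j, ‖riemannZeta (1 / 2 + ((t + α j : ℝ) : ℂ) * I)‖ ^ 2 : ℝ) : ℂ) -
        Dg (fun j => t + α j)) := ⟨_, rfl⟩
  obtain ⟨B₁, hB₁m, hB₁⟩ := e2_meas hT1 hV0.le β hβ
  obtain ⟨B₂, hB₂m, hB₂, hB₂i⟩ := hS T V T hT1 hV hVT hT0.le le_rfl β hβ hβ'
  have hE2 := hE T V hT1 hV0.le hVT β hβ hβ'
  have hPc : Continuous (PS m S) := PS_continuous m S
  have hVmem : V ∈ Set.Icc (0:ℝ) V := ⟨hV0.le, le_rfl⟩
  have main := absG (volume.restrict K) (p := p) hp0.le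
    (by rw [Measure.restrict_apply_univ]; exact hKv.le)
    (F := fun α => ‖PS m S α‖ₑ) hPc.enorm.measurable (Rem := fun α => ‖Rem α‖ₑ)
    (τ := 2 * u * T ^ (-ε)) (by positivity) hG'm hB₁m hB₂m
    (by
      refine (ae_restrict_iff' hKm).mpr (Filter.Eventually.of_forall fun α hα hαG => ?_)
      by_contra hlt
      push Not at hlt
      apply hαG
      apply hG'sub
      rw [hRem] at hlt
      rw [hK] at hα
      exact ⟨hα, hlt⟩)
    (by
      refine (ae_restrict_iff' hKm).mpr (Filter.Eventually.of_forall fun α hα => ?_)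
      rw [hK] at hα
      rw [hRem]
      exact rem_le (fun j => by have := hβ j; have := hα.1 j; linarith) hV0.le
        (hB₁ α hα).le (hB₂ α hα V hVmem))
    (bE := cE * V * p ^ 2 * T ^ (-(1 / 2) + ε / 2)) (bR := cS * u * p ^ 2 * T ^ (2 * k * δ₄))
    (b4 := c4 * p * T ^ (ε / 16) * s) (g := p * T ^ (-(ε / 8)))
    (by positivity) (by positivity) (by positivity) (by positivity)
    (by
      have h1 : ∫⁻ α in K, B₁ α ^ 2 = ∫⁻ α in Set.Icc β (fun j => β j + T),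
          ‖∫ t in (0:ℝ)..V, (((∏ j, ‖riemannZeta (1 / 2 + ((t + α j : ℝ) : ℂ) * I)‖ ^ 2 : ℝ) : ℂ) -
            ∏ j, Fd (t + α j))‖ₑ ^ 2 := by
        rw [hK]
        refine setLIntegral_congr_fun measurableSet_Icc fun α hα => ?_
        rw [hB₁ α hα]
      rw [h1]
      refine hE2.trans (le_of_eq ?_)
      congr 1
      rw [mul_pow, mul_pow, mul_pow, hcE2, ← pow_mul, hp4, ← Real.rpow_natCast (T ^ (-(1 / 2) + ε / 2)),
        ← Real.rpow_mul hT0.le, ← Real.rpow_natCast T k, mul_assoc (CE * V ^ 2), ← Real.rpow_add hT0]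
      congr 2
      push_cast
      ring)
    (by
      have h1 : ∫⁻ α in K, B₂ α ^ 2 ≤ ENNReal.ofReal (CS * V * T ^ ((k : ℝ) * (1 + 4 * δ₄))) := by
        rw [hK]; exact hB₂i
      refine h1.trans (le_of_eq ?_)
      congr 1
      rw [mul_pow, mul_pow, mul_pow, hcS2, ← pow_mul, hp4, hu2, ← Real.rpow_natCast (T ^ (2 * k * δ₄)),
        ← Real.rpow_mul hT0.le, ← Real.rpow_natCast T k, mul_assoc (CS * V), ← Real.rpow_add hT0]
      congr 2
      push_cast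
      ring)
    (by
      have h1 := hP4 T β m S hT1 hfreq
      have hint : IntegrableOn (fun α => ‖PS m S α‖ ^ 4) (Set.Icc β (fun j => β j + T)) :=
        ((hPc.norm.pow 4).continuousOn).integrableOn_compact isCompact_Icc
      have h2 : ∫⁻ α in K, ‖PS m S α‖ₑ ^ 4 = ENNReal.ofReal
          (∫ α in Set.Icc β (fun j => β j + T), ‖PS m S α‖ ^ 4) := by
        rw [ofReal_integral_eq_lintegral_ofReal hint
          (Filter.Eventually.of_forall fun x => by positivity), hK]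
        refine lintegral_congr fun α => ?_
        rw [ENNReal.ofReal_pow (norm_nonneg _), ofReal_norm]
      rw [h2]
      refine ENNReal.ofReal_le_ofReal (h1.trans (le_of_eq ?_))
      have hs4 : s ^ 4 = N ^ 2 := by rw [← hs2]; ring
      have ht : (T ^ (ε / 16)) ^ 4 = T ^ (ε / 4) := by
        rw [← Real.rpow_natCast, ← Real.rpow_mul hT0.le]
        congr 1
        push_cast
        ring
      rw [mul_pow, mul_pow, mul_pow, hc44, hp4, hs4, ht, Real.rpow_add hT0, Real.rpow_natCast]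
      ring)
    (by
      refine (Measure.restrict_apply_le K G').trans hG'v)
  -- lower bound
  have hA : ENNReal.ofReal (1 / 4 * V * T ^ k * W) ≤ ∫⁻ α in K, ‖Rem α‖ₑ * ‖PS m S α‖ₑ := by
    have e0 := hlow T V β m S g0 hV hVT hβ hβ' hfreq2 hlam
    have e1 : ENNReal.ofReal (1 / 4 * V * T ^ k * W) ≤
        ‖∫ α in K, Rem α * (starRingEnd ℂ) (PS m S α)‖ₑ := by
      rw [← ofReal_norm]
      apply ENNReal.ofReal_le_ofReal
      rw [hK, hRem]
      exact e0.trans (Complex.re_le_norm _)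
    refine e1.trans ((enorm_integral_le_lintegral_enorm _).trans (le_of_eq ?_))
    refine lintegral_congr fun α => ?_
    rw [enorm_mul]
    congr 1
    rw [← ofReal_norm, ← ofReal_norm, RCLike.norm_conj]
  have hfin := hA.trans main
  have hfin2 := (ENNReal.ofReal_le_ofReal_iff (by positivity)).1 hfin
  -- the three terms
  have hx1 : 2 * c4 * (T ^ (-ε) * T ^ (ε / 16)) ≤ c0 / 16 := by
    have h1 := ht3' T g3
    rw [div_le_iff₀ hc00] at h1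
    have e : T ^ (-ε) * T ^ (ε / 16) * T ^ (15 * ε / 16) = 1 := by
      rw [← Real.rpow_add hT0, ← Real.rpow_add hT0]
      have : -ε + ε / 16 + 15 * ε / 16 = 0 := by ring
      rw [this, Real.rpow_zero]
    have h2 : 0 < T ^ (-ε) * T ^ (ε / 16) := by positivity
    have h3 := mul_le_mul_of_nonneg_left h1 h2.le
    have h4 : T ^ (-ε) * T ^ (ε / 16) * (T ^ (15 * ε / 16) * c0) = c0 := by
      rw [← mul_assoc, e, one_mul]
    rw [h4] at h3
    linarith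
  have hx2 : cE * c4 * (u * T ^ (-(1 / 2) + ε / 2) * T ^ (ε / 16)) ≤ c0 / 16 := by
    have h1 := ht4' T g4
    rw [div_le_iff₀ hc00] at h1
    have hule : u ≤ T ^ (1 / 2 - δ / 2) := by
      calc u ≤ (T ^ (1 - δ)) ^ (1 / 2 : ℝ) := Real.rpow_le_rpow hV0.le hV1 (by norm_num)
        _ = _ := by
            rw [← Real.rpow_mul hT0.le]
            congr 1
            ring
    have h2 : u * T ^ (-(1 / 2) + ε / 2) * T ^ (ε / 16) ≤ T ^ (-(δ / 4)) := by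
      calc u * T ^ (-(1 / 2) + ε / 2) * T ^ (ε / 16)
          ≤ T ^ (1 / 2 - δ / 2) * T ^ (-(1 / 2) + ε / 2) * T ^ (ε / 16) := by gcongr
        _ = T ^ (1 / 2 - δ / 2 + (-(1 / 2) + ε / 2) + ε / 16) := by
            rw [← Real.rpow_add hT0, ← Real.rpow_add hT0]
        _ ≤ _ := Real.rpow_le_rpow_of_exponent_le hT1 (by linarith)
    have e : T ^ (-(δ / 4)) * T ^ (δ / 4) = 1 := by
      rw [← Real.rpow_add hT0, neg_add_cancel, Real.rpow_zero]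
    have h3 : 0 < T ^ (-(δ / 4)) := by positivity
    have h4 := mul_le_mul_of_nonneg_left h1 h3.le
    have h5 : T ^ (-(δ / 4)) * (T ^ (δ / 4) * c0) = c0 := by rw [← mul_assoc, e, one_mul]
    rw [h5] at h4
    have h6 : cE * c4 * (u * T ^ (-(1 / 2) + ε / 2) * T ^ (ε / 16)) ≤ cE * c4 * T ^ (-(δ / 4)) :=
      mul_le_mul_of_nonneg_left h2 (by positivity)
    linarith
  have hx3 : cS * c4 * (T ^ (2 * k * δ₄) * T ^ (-(ε / 8)) * T ^ (ε / 16)) ≤ c0 / 16 := by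
    have h1 := ht5' T g5
    rw [div_le_iff₀ hc00] at h1
    have h2 : T ^ (2 * k * δ₄) * T ^ (-(ε / 8)) * T ^ (ε / 16) ≤ T ^ (-(ε / 32)) := by
      rw [← Real.rpow_add hT0, ← Real.rpow_add hT0]
      exact Real.rpow_le_rpow_of_exponent_le hT1 (by linarith)
    have e : T ^ (-(ε / 32)) * T ^ (ε / 32) = 1 := by
      rw [← Real.rpow_add hT0, neg_add_cancel, Real.rpow_zero]
    have h3 : 0 < T ^ (-(ε / 32)) := by positivity
    have h4 := mul_le_mul_of_nonneg_left h1 h3.le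
    have h5 : T ^ (-(ε / 32)) * (T ^ (ε / 32) * c0) = c0 := by rw [← mul_assoc, e, one_mul]
    rw [h5] at h4
    have h6 : cS * c4 * (T ^ (2 * k * δ₄) * T ^ (-(ε / 8)) * T ^ (ε / 16)) ≤
        cS * c4 * T ^ (-(ε / 32)) := mul_le_mul_of_nonneg_left h2 (by positivity)
    linarith
  have hnum := numer (P := p ^ 4) (by positivity) hu0 hs0 hc00 hVW hx1 hx2 hx3
  rw [← hp4] at hfin2
  have e1 : 2 * u * T ^ (-ε) * (p ^ 3 * (c4 * p * T ^ (ε / 16) * s))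
      = 2 * c4 * (T ^ (-ε) * T ^ (ε / 16)) * (u * s * p ^ 4) := by ring
  have e2 : cE * V * p ^ 2 * T ^ (-(1 / 2) + ε / 2) * (p * (c4 * p * T ^ (ε / 16) * s))
      = cE * c4 * (u * T ^ (-(1 / 2) + ε / 2) * T ^ (ε / 16)) * (u * s * p ^ 4) := by
    rw [← hu2]; ring
  have e3 : cS * u * p ^ 2 * T ^ (2 * k * δ₄) * (p * T ^ (-(ε / 8)) * (c4 * p * T ^ (ε / 16) * s))
      = cS * c4 * (T ^ (2 * k * δ₄) * T ^ (-(ε / 8)) * T ^ (ε / 16)) * (u * s * p ^ 4) := by ring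
  rw [e1, e2, e3] at hfin2
  linarith

end IntFinalAux

open LFin IntFinalAux in
theorem low_final_int (k m : ℕ) (hm : 1 ≤ m) (hk : 2 * m ≤ k) (δ ε : ℝ) (hδ : 0 < δ) (hε : 0 < ε) :
    ∃ T₀ : ℝ, 1 ≤ T₀ ∧ ∀ (T V : ℝ) (β : Fin k → ℝ), T₀ ≤ T → 1 ≤ V →
    V ≤ T ^ ((m : ℝ) / 2 - δ) → V ≤ T ^ (1 - δ) → (∀ j, T ≤ β j) → (∀ j, β j ≤ 2 * T) →
    ENNReal.ofReal (T ^ k * T ^ (-ε)) ≤
      volume {α ∈ Set.Icc β (fun j => β j + T) | V ^ (1 / 2 : ℝ) * T ^ (-ε) <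
        ‖∫ t in (0:ℝ)..V, (((∏ j, ‖riemannZeta (1 / 2 + ((t + α j : ℝ) : ℂ) * I)‖ ^ 2 : ℝ) : ℂ) -
          mainTerm (fun j => t + α j))‖} := by
  obtain ⟨κ, hκ, hκ4, hMP⟩ := main_point k (δ / 4) (by positivity)
  obtain ⟨B, C1, κ', hB, hC1, hκ', hZG⟩ := zeta_good κ hκ hκ4
  obtain ⟨C2, hC2, hMP'⟩ := hMP B
  obtain ⟨ε₁, hε₁⟩ : ∃ ε₁, ε₁ = min ε (min (δ / 8) κ') := ⟨_, rfl⟩
  have hε₁0 : 0 < ε₁ := by rw [hε₁]; exact lt_min hε (lt_min (by positivity) hκ')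
  have hε₁ε : ε₁ ≤ ε := by rw [hε₁]; exact min_le_left _ _
  have hε₁8 : ε₁ ≤ δ / 8 := by rw [hε₁]; exact (min_le_right _ _).trans (min_le_left _ _)
  have hε₁κ : ε₁ ≤ κ' := by rw [hε₁]; exact (min_le_right _ _).trans (min_le_right _ _)
  obtain ⟨T₁, hT₁, hcore⟩ := core_int k m hm hk δ ε₁ hδ hε₁0 hε₁8
  obtain ⟨t5, ht5, ht5'⟩ := eventually_rpow (1 + (k : ℝ) ^ 2 * C1) (ε₁ / 2) (by positivity)
  obtain ⟨t6, ht6, ht6'⟩ := eventually_rpow C2 (δ / 8) (by positivity)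
  refine ⟨max T₁ (max t5 t6), hT₁.trans (le_max_left _ _), ?_⟩
  intro T V β hT hV hVm hV1 hβ hβ'
  simp only [max_le_iff] at hT
  obtain ⟨g1, g5, g6⟩ := hT
  have hT1 : 1 ≤ T := hT₁.trans g1
  have hT0 : 0 < T := by linarith
  have hV0 : 0 < V := by linarith
  have hVT : V ≤ T := by
    refine hV1.trans ?_
    calc T ^ (1 - δ) ≤ T ^ (1 : ℝ) := Real.rpow_le_rpow_of_exponent_le hT1 (by linarith)
      _ = T := Real.rpow_one T
  have hTh : T ^ (1 / 2 : ℝ) ≤ T := by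
    calc T ^ (1 / 2 : ℝ) ≤ T ^ (1 : ℝ) := Real.rpow_le_rpow_of_exponent_le hT1 (by norm_num)
      _ = T := Real.rpow_one T
  have hG := hcore T V β g1 hV hVm hV1 hβ hβ'
  obtain ⟨S, hS⟩ : ∃ S : Set (Fin k → ℝ), S = {α ∈ Set.Icc β (fun j => β j + T) |
      V ^ (1 / 2 : ℝ) * T ^ (-ε) <
        ‖∫ t in (0:ℝ)..V, (((∏ j, ‖riemannZeta (1 / 2 + ((t + α j : ℝ) : ℂ) * I)‖ ^ 2 : ℝ) : ℂ) -
          mainTerm (fun j => t + α j))‖} := ⟨_, rfl⟩
  rw [← hS]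
  obtain ⟨P, hP⟩ : ∃ P : Finset (Fin k × Fin k),
    P = Finset.univ.filter (fun q => q.1 ≠ q.2) := ⟨_, rfl⟩
  obtain ⟨Sb, hSb⟩ : ∃ Sb : Fin k × Fin k → Set (Fin k → ℝ), Sb = fun q =>
    {α ∈ Set.Icc β (fun j => β j + T) |
      ¬ Good κ (T ^ κ) (B * T ^ κ) (α q.1 - α q.2)} := ⟨_, rfl⟩
  have hVV : V ^ (1 / 2 : ℝ) * V ^ (1 / 2 : ℝ) = V := by
    rw [← Real.rpow_add hV0]
    norm_num
  have hVh : 0 < V ^ (1 / 2 : ℝ) := Real.rpow_pos_of_pos hV0 _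
  have hVT2 : V ^ (1 / 2 : ℝ) ≤ T ^ (1 / 2 - δ / 2) := by
    calc V ^ (1 / 2 : ℝ) ≤ (T ^ (1 - δ)) ^ (1 / 2 : ℝ) :=
          Real.rpow_le_rpow hV0.le hV1 (by norm_num)
      _ = _ := by
          rw [← Real.rpow_mul hT0.le]
          congr 1
          ring
  have hsmall : C2 * T ^ (-(1 / 2) + δ / 4) * V ≤ V ^ (1 / 2 : ℝ) * T ^ (-ε₁) := by
    have e1 : T ^ (δ / 8) * T ^ (-(1 / 2) + δ / 4) * T ^ (1 / 2 - δ / 2) ≤ T ^ (-ε₁) := by
      rw [← Real.rpow_add hT0, ← Real.rpow_add hT0]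
      apply Real.rpow_le_rpow_of_exponent_le hT1
      linarith
    calc C2 * T ^ (-(1 / 2) + δ / 4) * V
        = V ^ (1 / 2 : ℝ) * (C2 * T ^ (-(1 / 2) + δ / 4) * V ^ (1 / 2 : ℝ)) := by
          conv_lhs => rw [← hVV]
          ring
      _ ≤ V ^ (1 / 2 : ℝ) *
          (T ^ (δ / 8) * T ^ (-(1 / 2) + δ / 4) * T ^ (1 / 2 - δ / 2)) := by
          have := ht6' T g6
          gcongr
      _ ≤ V ^ (1 / 2 : ℝ) * T ^ (-ε₁) := mul_le_mul_of_nonneg_left e1 hVh.le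
  have hsub : BadI k ε₁ T V β ⊆ S ∪ ⋃ q ∈ P, Sb q := by
    intro α hα
    by_contra hcon
    rw [Set.mem_union, not_or] at hcon
    obtain ⟨hc1, hc2⟩ := hcon
    have hαK := hα.1
    have hgood : ∀ i j, i ≠ j → Good κ (T ^ κ) (B * T ^ κ) (α i - α j) := by
      intro i j hij
      by_contra hg
      apply hc2
      rw [Set.mem_iUnion₂]
      refine ⟨(i, j), ?_, ?_⟩
      · rw [hP]
        exact Finset.mem_filter.2 ⟨Finset.mem_univ _, hij⟩
      · rw [hSb]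
        exact ⟨hαK, hg⟩
    have ha1 : ∀ j, T ≤ α j := fun j => (hβ j).trans (hαK.1 j)
    have ha2 : ∀ j, α j ≤ 3 * T := by
      intro j
      have h1 := hαK.2 j
      have h2 := hβ' j
      simp only at h1
      linarith
    have hpt := point_low hMP' hT1 hκ ha1 ha2 hgood hV0.le hVT
    have hbig := hα.2
    rw [← ofReal_norm, ENNReal.ofReal_lt_ofReal_iff_of_nonneg (by positivity)] at hbig
    apply hc1
    rw [hS]
    refine ⟨hαK, ?_⟩
    have h3 : T ^ (-ε) ≤ T ^ (-ε₁) := Real.rpow_le_rpow_of_exponent_le hT1 (by linarith)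
    have h4 : V ^ (1 / 2 : ℝ) * T ^ (-ε) ≤ V ^ (1 / 2 : ℝ) * T ^ (-ε₁) :=
      mul_le_mul_of_nonneg_left h3 hVh.le
    linarith
  have hfin2 : ∀ q ∈ P, volume (Sb q) ≤ ENNReal.ofReal (C1 * T ^ k * T ^ (-κ')) := by
    intro q hq
    rw [hP] at hq
    have hne := (Finset.mem_filter.1 hq).2
    have hne' : q.1.succ ≠ q.2.succ := fun h => hne (Fin.succ_injective _ h)
    have hpb := FinalAux.pair_bound (κ := κ) (Y := T ^ κ) (B := B * T ^ κ) (κ' := κ') hT1 hT0.le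
      le_rfl hC1.le (fun a ha ha' => hZG T a T hT1 hTh ha ha') (α₀ := T) le_rfl (by linarith) hβ hβ'
      q.1.succ q.2.succ hne'
    simp only [Fin.cons_succ] at hpb
    rw [hSb]
    exact hpb
  have hPcard : (P.card : ℝ) ≤ (k : ℝ) ^ 2 := by
    have h1 : P.card ≤ k * k := by
      rw [hP]
      refine (Finset.card_filter_le _ _).trans ?_
      simp
    have h2 : (P.card : ℝ) ≤ ((k * k : ℕ) : ℝ) := by exact_mod_cast h1
    push_cast at h2
    linarith [h2]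
  obtain ⟨X, hX⟩ : ∃ X, X = (k : ℝ) ^ 2 * C1 * T ^ k * T ^ (-κ') := ⟨_, rfl⟩
  have hX0 : 0 ≤ X := by rw [hX]; positivity
  have hf2 : volume (⋃ q ∈ P, Sb q) ≤ ENNReal.ofReal X := by
    refine ((measure_biUnion_finset_le _ _).trans (Finset.sum_le_sum hfin2)).trans ?_
    rw [Finset.sum_const, nsmul_eq_mul, ← ENNReal.ofReal_natCast,
      ← ENNReal.ofReal_mul (by positivity : (0 : ℝ) ≤ (P.card : ℝ))]
    apply ENNReal.ofReal_le_ofReal
    rw [hX]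
    have h1 : (P.card : ℝ) * (C1 * T ^ k * T ^ (-κ')) ≤
        (k : ℝ) ^ 2 * (C1 * T ^ k * T ^ (-κ')) :=
      mul_le_mul_of_nonneg_right hPcard (by positivity)
    linarith
  have htot : ENNReal.ofReal (T ^ k * T ^ (-(ε₁ / 2))) ≤ volume S + ENNReal.ofReal X :=
    hG.trans ((measure_mono hsub).trans ((measure_union_le _ _).trans (add_le_add le_rfl hf2)))
  have hnum : T ^ k * T ^ (-ε) + X ≤ T ^ k * T ^ (-(ε₁ / 2)) := by
    have e1 : T ^ (-(ε₁ / 2)) = T ^ (-ε₁) * T ^ (ε₁ / 2) := by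
      rw [← Real.rpow_add hT0]
      congr 1
      ring
    have e2 : T ^ (-κ') ≤ T ^ (-ε₁) := Real.rpow_le_rpow_of_exponent_le hT1 (by linarith)
    have e3 : T ^ (-ε) ≤ T ^ (-ε₁) := Real.rpow_le_rpow_of_exponent_le hT1 (by linarith)
    have e4 := ht5' T g5
    have hTn : 0 < T ^ k := by positivity
    rw [hX, e1]
    calc T ^ k * T ^ (-ε) + (k : ℝ) ^ 2 * C1 * T ^ k * T ^ (-κ')
        ≤ T ^ k * T ^ (-ε₁) + (k : ℝ) ^ 2 * C1 * T ^ k * T ^ (-ε₁) := by gcongr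
      _ = T ^ k * T ^ (-ε₁) * (1 + (k : ℝ) ^ 2 * C1) := by ring
      _ ≤ T ^ k * T ^ (-ε₁) * T ^ (ε₁ / 2) := mul_le_mul_of_nonneg_left e4 (by positivity)
      _ = _ := by ring
  have h5 := (ENNReal.ofReal_le_ofReal hnum).trans htot
  rw [ENNReal.ofReal_add (by positivity) hX0] at h5
  exact (ENNReal.add_le_add_iff_right ENNReal.ofReal_ne_top).1 h5

end Pool.Agent.P07318s
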