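import Pool.Agent.Lib.P07318s.Defs
import Pool.Agent.Lib.P07318s.IntFinal

/-!
The lower bound of `IntFinal.lean` for any test function `P`: `N` is the normalisation of the fourth moment, `W` the correlation.
-/

set_option autoImplicit false

namespace Pool.Agent.P07318s

open MeasureTheory Complex
open scoped ENNReal

namespace LowAbsAux

open LFin IntFinalAux

theorem core_abs (k : ℕ) (δ ε : ℝ) (hδ : 0 < δ) (hε : 0 < ε)
    (hεδ : ε ≤ δ / 8) (c0 C4 : ℝ) (hc00 : 0 < c0) (hC4 : 0 < C4) : ∃ T₁ : ℝ, 1 ≤ T₁ ∧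
    ∀ (T V : ℝ) (β : Fin k → ℝ), T₁ ≤ T → 1 ≤ V → V ≤ T ^ (1 - δ) → (∀ j, T ≤ β j) →
    (∀ j, β j ≤ 2 * T) → ∀ (P : (Fin k → ℝ) → ℂ) (N W : ℝ), Continuous P → 0 < N →
    c0 * (V ^ (1 / 2 : ℝ) * N ^ (1 / 2 : ℝ)) ≤ V * W →
    1 / 4 * V * T ^ k * W ≤
      (∫ α in Set.Icc β (fun j => β j + T),
        (∫ t in (0:ℝ)..V, (((∏ j, ‖riemannZeta (1 / 2 + ((t + α j : ℝ) : ℂ) * I)‖ ^ 2 : ℝ) : ℂ) -
          Dg (fun j => t + α j))) * (starRingEnd ℂ) (P α)).re →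
    ∫ α in Set.Icc β (fun j => β j + T), ‖P α‖ ^ 4 ≤ C4 * T ^ ((k : ℝ) + ε / 4) * N ^ 2 →
    ENNReal.ofReal (T ^ k * T ^ (-(ε / 2))) ≤ volume (BadI k ε T V β) := by
  obtain ⟨δ₄, hδ₄, hδ₄2, hδ₄k⟩ : ∃ δ₄ : ℝ, 0 < δ₄ ∧ δ₄ ≤ 1 / 2 ∧ 2 * k * δ₄ ≤ ε / 32 := by
    have hk1 : (0:ℝ) < (k : ℝ) + 1 := by positivity
    refine ⟨min (1 / 2) (ε / (64 * ((k : ℝ) + 1))), by positivity, min_le_left _ _, ?_⟩
    calc 2 * (k : ℝ) * min (1 / 2) (ε / (64 * ((k : ℝ) + 1)))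
        ≤ 2 * ((k : ℝ) + 1) * (ε / (64 * ((k : ℝ) + 1))) := by
          refine mul_le_mul (by linarith) (min_le_right _ _) (by positivity) (by positivity)
      _ = ε / 32 := by field_simp; norm_num
  obtain ⟨CS, hCS, hS⟩ := sup_f k δ₄ hδ₄ hδ₄2
  obtain ⟨CE, hCE, hE⟩ := e2_f k ε hε
  set c4 : ℝ := C4 ^ (1 / 4 : ℝ) with hc4
  set cE : ℝ := CE ^ (1 / 2 : ℝ) with hcE
  set cS : ℝ := CS ^ (1 / 2 : ℝ) with hcS
  have hc40 : 0 < c4 := by positivity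
  have hcE0 : 0 < cE := by positivity
  have hcS0 : 0 < cS := by positivity
  have hc44 : c4 ^ 4 = C4 := by
    rw [hc4, ← Real.rpow_natCast, ← Real.rpow_mul hC4.le]
    norm_num
  have hcE2 : cE ^ 2 = CE := by
    rw [hcE, ← Real.rpow_natCast, ← Real.rpow_mul hCE.le]
    norm_num
  have hcS2 : cS ^ 2 = CS := by
    rw [hcS, ← Real.rpow_natCast, ← Real.rpow_mul hCS.le]
    norm_num
  obtain ⟨t3, ht3, ht3'⟩ := eventually_rpow (32 * c4 / c0) (15 * ε / 16) (by positivity)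
  obtain ⟨t4, ht4, ht4'⟩ := eventually_rpow (16 * (cE * c4) / c0) (δ / 4) (by positivity)
  obtain ⟨t5, ht5, ht5'⟩ := eventually_rpow (16 * (cS * c4) / c0) (ε / 32) (by positivity)
  refine ⟨max t3 (max t4 t5), ht3.trans (le_max_left _ _), ?_⟩
  intro T V β hT hV hV1 hβ hβ' PP N W hPc hNpos hVW hlow hP4
  simp only [max_le_iff] at hT
  obtain ⟨g3, g4, g5⟩ := hT
  have hT1 : 1 ≤ T := ht3.trans g3
  have hT0 : 0 < T := by linarith
  have hV0 : 0 < V := by linarith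
  have hVT : V ≤ T := by
    refine hV1.trans ?_
    calc T ^ (1 - δ) ≤ T ^ (1 : ℝ) := Real.rpow_le_rpow_of_exponent_le hT1 (by linarith)
      _ = T := Real.rpow_one T
  by_contra hcon
  push Not at hcon
  set u : ℝ := V ^ (1 / 2 : ℝ) with hu
  set s : ℝ := N ^ (1 / 2 : ℝ) with hs
  have hu0 : 0 < u := by positivity
  have hs0 : 0 < s := by positivity
  have hu2 : u ^ 2 = V := by
    rw [hu, ← Real.rpow_natCast, ← Real.rpow_mul hV0.le]
    norm_num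
  have hs2 : s ^ 2 = N := by
    rw [hs, ← Real.rpow_natCast, ← Real.rpow_mul hNpos.le]
    norm_num
  have hW0 : 0 ≤ W := by
    have h1 : 0 ≤ V * W := le_trans (by positivity) hVW
    exact nonneg_of_mul_nonneg_right h1 hV0
  -- the box
  obtain ⟨p, hp⟩ : ∃ p : ℝ, p = T ^ ((k : ℝ) / 4) := ⟨_, rfl⟩
  have hp0 : 0 < p := by rw [hp]; positivity
  have hp4 : p ^ 4 = T ^ k := by
    rw [hp, ← Real.rpow_natCast, ← Real.rpow_mul hT0.le, ← Real.rpow_natCast]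
    congr 1
    push_cast
    ring
  obtain ⟨K, hK⟩ : ∃ K, K = Set.Icc β (fun j => β j + T) := ⟨_, rfl⟩
  have hKm : MeasurableSet K := by rw [hK]; exact measurableSet_Icc
  have hKv : volume K = ENNReal.ofReal (p ^ 4) := by
    rw [hK, Real.volume_Icc_pi, hp4]
    have e : ∀ i : Fin k, β i + T - β i = T := fun i => by ring
    simp only [e, Finset.prod_const, Finset.card_univ, Fintype.card_fin]
    rw [ENNReal.ofReal_pow hT0.le]
  obtain ⟨G', hG'⟩ : ∃ G', G' = toMeasurable volume (BadI k ε T V β) := ⟨_, rfl⟩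
  have hG'm : MeasurableSet G' := by rw [hG']; exact measurableSet_toMeasurable _ _
  have hG'sub : BadI k ε T V β ⊆ G' := by rw [hG']; exact subset_toMeasurable _ _
  have hG'v : volume G' ≤ ENNReal.ofReal ((p * T ^ (-(ε / 8))) ^ 4) := by
    rw [hG', measure_toMeasurable, mul_pow, hp4]
    refine hcon.le.trans (le_of_eq ?_)
    congr 2
    rw [← Real.rpow_natCast, ← Real.rpow_mul hT0.le]
    congr 1
    push_cast
    ring
  obtain ⟨Rem, hRem⟩ : ∃ Rem : (Fin k → ℝ) → ℂ, Rem = fun α =>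
    ∫ t in (0:ℝ)..V, (((∏ j, ‖riemannZeta (1 / 2 + ((t + α j : ℝ) : ℂ) * I)‖ ^ 2 : ℝ) : ℂ) -
        Dg (fun j => t + α j)) := ⟨_, rfl⟩
  obtain ⟨B₁, hB₁m, hB₁⟩ := e2_meas hT1 hV0.le β hβ
  obtain ⟨B₂, hB₂m, hB₂, hB₂i⟩ := hS T V T hT1 hV hVT hT0.le le_rfl β hβ hβ'
  have hE2 := hE T V hT1 hV0.le hVT β hβ hβ'
  have hVmem : V ∈ Set.Icc (0:ℝ) V := ⟨hV0.le, le_rfl⟩
  have main := absG (volume.restrict K) (p := p) hp0.le
    (by rw [Measure.restrict_apply_univ]; exact hKv.le)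
    (F := fun α => ‖PP α‖ₑ) hPc.enorm.measurable (Rem := fun α => ‖Rem α‖ₑ)
    (τ := 2 * u * T ^ (-ε)) (by positivity) hG'm hB₁m hB₂m
    (by
      refine (ae_restrict_iff' hKm).mpr (Filter.Eventually.of_forall fun α hα hαG => ?_)
      by_contra hlt
      push Not at hlt
      apply hαG
      apply hG'sub
      rw [hRem] at hlt
      rw [hK] at hα
      exact ⟨hα, hlt⟩)
    (by
      refine (ae_restrict_iff' hKm).mpr (Filter.Eventually.of_forall fun α hα => ?_)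
      rw [hK] at hα
      rw [hRem]
      exact rem_le (fun j => by have := hβ j; have := hα.1 j; linarith) hV0.le
        (hB₁ α hα).le (hB₂ α hα V hVmem))
    (bE := cE * V * p ^ 2 * T ^ (-(1 / 2) + ε / 2)) (bR := cS * u * p ^ 2 * T ^ (2 * k * δ₄))
    (b4 := c4 * p * T ^ (ε / 16) * s) (g := p * T ^ (-(ε / 8)))
    (by positivity) (by positivity) (by positivity) (by positivity)
    (by
      have h1 : ∫⁻ α in K, B₁ α ^ 2 = ∫⁻ α in Set.Icc β (fun j => β j + T),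
          ‖∫ t in (0:ℝ)..V, (((∏ j, ‖riemannZeta (1 / 2 + ((t + α j : ℝ) : ℂ) * I)‖ ^ 2 : ℝ) : ℂ) -
            ∏ j, Fd (t + α j))‖ₑ ^ 2 := by
        rw [hK]
        refine setLIntegral_congr_fun measurableSet_Icc fun α hα => ?_
        rw [hB₁ α hα]
      rw [h1]
      refine hE2.trans (le_of_eq ?_)
      congr 1
      rw [mul_pow, mul_pow, mul_pow, hcE2, ← pow_mul, hp4, ← Real.rpow_natCast (T ^ (-(1 / 2) + ε / 2)),
        ← Real.rpow_mul hT0.le, ← Real.rpow_natCast T k, mul_assoc (CE * V ^ 2), ← Real.rpow_add hT0]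
      congr 2
      push_cast
      ring)
    (by
      have h1 : ∫⁻ α in K, B₂ α ^ 2 ≤ ENNReal.ofReal (CS * V * T ^ ((k : ℝ) * (1 + 4 * δ₄))) := by
        rw [hK]; exact hB₂i
      refine h1.trans (le_of_eq ?_)
      congr 1
      rw [mul_pow, mul_pow, mul_pow, hcS2, ← pow_mul, hp4, hu2, ← Real.rpow_natCast (T ^ (2 * k * δ₄)),
        ← Real.rpow_mul hT0.le, ← Real.rpow_natCast T k, mul_assoc (CS * V), ← Real.rpow_add hT0]
      congr 2
      push_cast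
      ring)
    (by
      have h1 := hP4
      have hint : IntegrableOn (fun α => ‖PP α‖ ^ 4) (Set.Icc β (fun j => β j + T)) :=
        ((hPc.norm.pow 4).continuousOn).integrableOn_compact isCompact_Icc
      have h2 : ∫⁻ α in K, ‖PP α‖ₑ ^ 4 = ENNReal.ofReal
          (∫ α in Set.Icc β (fun j => β j + T), ‖PP α‖ ^ 4) := by
        rw [ofReal_integral_eq_lintegral_ofReal hint
          (Filter.Eventually.of_forall fun x => by positivity), hK]
        refine lintegral_congr fun α => ?_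
        rw [ENNReal.ofReal_pow (norm_nonneg _), ofReal_norm]
      rw [h2]
      refine ENNReal.ofReal_le_ofReal (h1.trans (le_of_eq ?_))
      have hs4 : s ^ 4 = N ^ 2 := by rw [← hs2]; ring
      have ht : (T ^ (ε / 16)) ^ 4 = T ^ (ε / 4) := by
        rw [← Real.rpow_natCast, ← Real.rpow_mul hT0.le]
        congr 1
        push_cast
        ring
      rw [mul_pow, mul_pow, mul_pow, hc44, hp4, hs4, ht, Real.rpow_add hT0, Real.rpow_natCast]
      ring)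
    (by
      refine (Measure.restrict_apply_le K G').trans hG'v)
  -- lower bound
  have hA : ENNReal.ofReal (1 / 4 * V * T ^ k * W) ≤ ∫⁻ α in K, ‖Rem α‖ₑ * ‖PP α‖ₑ := by
    have e0 := hlow
    have e1 : ENNReal.ofReal (1 / 4 * V * T ^ k * W) ≤
        ‖∫ α in K, Rem α * (starRingEnd ℂ) (PP α)‖ₑ := by
      rw [← ofReal_norm]
      apply ENNReal.ofReal_le_ofReal
      rw [hK, hRem]
      exact e0.trans (Complex.re_le_norm _)
    refine e1.trans ((enorm_integral_le_lintegral_enorm _).trans (le_of_eq ?_))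
    refine lintegral_congr fun α => ?_
    rw [enorm_mul]
    congr 1
    rw [← ofReal_norm, ← ofReal_norm, RCLike.norm_conj]
  have hfin := hA.trans main
  have hfin2 := (ENNReal.ofReal_le_ofReal_iff (by positivity)).1 hfin
  -- the three terms
  have hx1 : 2 * c4 * (T ^ (-ε) * T ^ (ε / 16)) ≤ c0 / 16 := by
    have h1 := ht3' T g3
    rw [div_le_iff₀ hc00] at h1
    have e : T ^ (-ε) * T ^ (ε / 16) * T ^ (15 * ε / 16) = 1 := by
      rw [← Real.rpow_add hT0, ← Real.rpow_add hT0]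
      have : -ε + ε / 16 + 15 * ε / 16 = 0 := by ring
      rw [this, Real.rpow_zero]
    have h2 : 0 < T ^ (-ε) * T ^ (ε / 16) := by positivity
    have h3 := mul_le_mul_of_nonneg_left h1 h2.le
    have h4 : T ^ (-ε) * T ^ (ε / 16) * (T ^ (15 * ε / 16) * c0) = c0 := by
      rw [← mul_assoc, e, one_mul]
    rw [h4] at h3
    linarith
  have hx2 : cE * c4 * (u * T ^ (-(1 / 2) + ε / 2) * T ^ (ε / 16)) ≤ c0 / 16 := by
    have h1 := ht4' T g4
    rw [div_le_iff₀ hc00] at h1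
    have hule : u ≤ T ^ (1 / 2 - δ / 2) := by
      calc u ≤ (T ^ (1 - δ)) ^ (1 / 2 : ℝ) := Real.rpow_le_rpow hV0.le hV1 (by norm_num)
        _ = _ := by
            rw [← Real.rpow_mul hT0.le]
            congr 1
            ring
    have h2 : u * T ^ (-(1 / 2) + ε / 2) * T ^ (ε / 16) ≤ T ^ (-(δ / 4)) := by
      calc u * T ^ (-(1 / 2) + ε / 2) * T ^ (ε / 16)
          ≤ T ^ (1 / 2 - δ / 2) * T ^ (-(1 / 2) + ε / 2) * T ^ (ε / 16) := by gcongr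
        _ = T ^ (1 / 2 - δ / 2 + (-(1 / 2) + ε / 2) + ε / 16) := by
            rw [← Real.rpow_add hT0, ← Real.rpow_add hT0]
        _ ≤ _ := Real.rpow_le_rpow_of_exponent_le hT1 (by linarith)
    have e : T ^ (-(δ / 4)) * T ^ (δ / 4) = 1 := by
      rw [← Real.rpow_add hT0, neg_add_cancel, Real.rpow_zero]
    have h3 : 0 < T ^ (-(δ / 4)) := by positivity
    have h4 := mul_le_mul_of_nonneg_left h1 h3.le
    have h5 : T ^ (-(δ / 4)) * (T ^ (δ / 4) * c0) = c0 := by rw [← mul_assoc, e, one_mul]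
    rw [h5] at h4
    have h6 : cE * c4 * (u * T ^ (-(1 / 2) + ε / 2) * T ^ (ε / 16)) ≤ cE * c4 * T ^ (-(δ / 4)) :=
      mul_le_mul_of_nonneg_left h2 (by positivity)
    linarith
  have hx3 : cS * c4 * (T ^ (2 * k * δ₄) * T ^ (-(ε / 8)) * T ^ (ε / 16)) ≤ c0 / 16 := by
    have h1 := ht5' T g5
    rw [div_le_iff₀ hc00] at h1
    have h2 : T ^ (2 * k * δ₄) * T ^ (-(ε / 8)) * T ^ (ε / 16) ≤ T ^ (-(ε / 32)) := by
      rw [← Real.rpow_add hT0, ← Real.rpow_add hT0]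
      exact Real.rpow_le_rpow_of_exponent_le hT1 (by linarith)
    have e : T ^ (-(ε / 32)) * T ^ (ε / 32) = 1 := by
      rw [← Real.rpow_add hT0, neg_add_cancel, Real.rpow_zero]
    have h3 : 0 < T ^ (-(ε / 32)) := by positivity
    have h4 := mul_le_mul_of_nonneg_left h1 h3.le
    have h5 : T ^ (-(ε / 32)) * (T ^ (ε / 32) * c0) = c0 := by rw [← mul_assoc, e, one_mul]
    rw [h5] at h4
    have h6 : cS * c4 * (T ^ (2 * k * δ₄) * T ^ (-(ε / 8)) * T ^ (ε / 16)) ≤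
        cS * c4 * T ^ (-(ε / 32)) := mul_le_mul_of_nonneg_left h2 (by positivity)
    linarith
  have hnum := numer (P := p ^ 4) (by positivity) hu0 hs0 hc00 hVW hx1 hx2 hx3
  rw [← hp4] at hfin2
  have e1 : 2 * u * T ^ (-ε) * (p ^ 3 * (c4 * p * T ^ (ε / 16) * s))
      = 2 * c4 * (T ^ (-ε) * T ^ (ε / 16)) * (u * s * p ^ 4) := by ring
  have e2 : cE * V * p ^ 2 * T ^ (-(1 / 2) + ε / 2) * (p * (c4 * p * T ^ (ε / 16) * s))
      = cE * c4 * (u * T ^ (-(1 / 2) + ε / 2) * T ^ (ε / 16)) * (u * s * p ^ 4) := by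
    rw [← hu2]; ring
  have e3 : cS * u * p ^ 2 * T ^ (2 * k * δ₄) * (p * T ^ (-(ε / 8)) * (c4 * p * T ^ (ε / 16) * s))
      = cS * c4 * (T ^ (2 * k * δ₄) * T ^ (-(ε / 8)) * T ^ (ε / 16)) * (u * s * p ^ 4) := by ring
  rw [e1, e2, e3] at hfin2
  linarith

end LowAbsAux

open LFin IntFinalAux LowAbsAux in
theorem low_abs (k : ℕ) (δ ε c0 : ℝ) (hδ : 0 < δ) (hε : 0 < ε) (hc0 : 0 < c0) (C4 : ℝ → ℝ)
    (hC4 : ∀ e, 0 < e → 0 < C4 e) : ∃ T₀ : ℝ, 1 ≤ T₀ ∧ ∀ (T V : ℝ) (β : Fin k → ℝ),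
    T₀ ≤ T → 1 ≤ V → V ≤ T ^ (1 - δ) → (∀ j, T ≤ β j) → (∀ j, β j ≤ 2 * T) →
    ∀ (P : (Fin k → ℝ) → ℂ) (N W : ℝ), Continuous P → 0 < N →
    c0 * (V ^ (1 / 2 : ℝ) * N ^ (1 / 2 : ℝ)) ≤ V * W →
    1 / 4 * V * T ^ k * W ≤
      (∫ α in Set.Icc β (fun j => β j + T),
        (∫ t in (0:ℝ)..V, (((∏ j, ‖riemannZeta (1 / 2 + ((t + α j : ℝ) : ℂ) * I)‖ ^ 2 : ℝ) : ℂ) -
          Dg (fun j => t + α j))) * (starRingEnd ℂ) (P α)).re →
    (∀ e, 0 < e → ∫ α in Set.Icc β (fun j => β j + T), ‖P α‖ ^ 4 ≤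
      C4 e * T ^ ((k : ℝ) + e) * N ^ 2) →
    ENNReal.ofReal (T ^ k * T ^ (-ε)) ≤
      volume {α ∈ Set.Icc β (fun j => β j + T) | V ^ (1 / 2 : ℝ) * T ^ (-ε) <
        ‖∫ t in (0:ℝ)..V, (((∏ j, ‖riemannZeta (1 / 2 + ((t + α j : ℝ) : ℂ) * I)‖ ^ 2 : ℝ) : ℂ) -
          mainTerm (fun j => t + α j))‖} := by
  obtain ⟨κ, hκ, hκ4, hMP⟩ := main_point k (δ / 4) (by positivity)
  obtain ⟨B, C1, κ', hB, hC1, hκ', hZG⟩ := zeta_good κ hκ hκ4
  obtain ⟨C2, hC2, hMP'⟩ := hMP B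
  obtain ⟨ε₁, hε₁⟩ : ∃ ε₁, ε₁ = min ε (min (δ / 8) κ') := ⟨_, rfl⟩
  have hε₁0 : 0 < ε₁ := by rw [hε₁]; exact lt_min hε (lt_min (by positivity) hκ')
  have hε₁ε : ε₁ ≤ ε := by rw [hε₁]; exact min_le_left _ _
  have hε₁8 : ε₁ ≤ δ / 8 := by rw [hε₁]; exact (min_le_right _ _).trans (min_le_left _ _)
  have hε₁κ : ε₁ ≤ κ' := by rw [hε₁]; exact (min_le_right _ _).trans (min_le_right _ _)
  obtain ⟨T₁, hT₁, hcore⟩ := core_abs k δ ε₁ hδ hε₁0 hε₁8 c0 (C4 (ε₁ / 4)) hc0 (hC4 _ (by positivity))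
  obtain ⟨t5, ht5, ht5'⟩ := eventually_rpow (1 + (k : ℝ) ^ 2 * C1) (ε₁ / 2) (by positivity)
  obtain ⟨t6, ht6, ht6'⟩ := eventually_rpow C2 (δ / 8) (by positivity)
  refine ⟨max T₁ (max t5 t6), hT₁.trans (le_max_left _ _), ?_⟩
  intro T V β hT hV hV1 hβ hβ' PP N W hPc hNpos hVW hlow hP4
  simp only [max_le_iff] at hT
  obtain ⟨g1, g5, g6⟩ := hT
  have hT1 : 1 ≤ T := hT₁.trans g1
  have hT0 : 0 < T := by linarith
  have hV0 : 0 < V := by linarith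
  have hVT : V ≤ T := by
    refine hV1.trans ?_
    calc T ^ (1 - δ) ≤ T ^ (1 : ℝ) := Real.rpow_le_rpow_of_exponent_le hT1 (by linarith)
      _ = T := Real.rpow_one T
  have hTh : T ^ (1 / 2 : ℝ) ≤ T := by
    calc T ^ (1 / 2 : ℝ) ≤ T ^ (1 : ℝ) := Real.rpow_le_rpow_of_exponent_le hT1 (by norm_num)
      _ = T := Real.rpow_one T
  have hG := hcore T V β g1 hV hV1 hβ hβ' PP N W hPc hNpos hVW hlow (hP4 _ (by positivity))
  obtain ⟨S, hS⟩ : ∃ S : Set (Fin k → ℝ), S = {α ∈ Set.Icc β (fun j => β j + T) |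
      V ^ (1 / 2 : ℝ) * T ^ (-ε) <
        ‖∫ t in (0:ℝ)..V, (((∏ j, ‖riemannZeta (1 / 2 + ((t + α j : ℝ) : ℂ) * I)‖ ^ 2 : ℝ) : ℂ) -
          mainTerm (fun j => t + α j))‖} := ⟨_, rfl⟩
  rw [← hS]
  obtain ⟨P, hP⟩ : ∃ P : Finset (Fin k × Fin k),
    P = Finset.univ.filter (fun q => q.1 ≠ q.2) := ⟨_, rfl⟩
  obtain ⟨Sb, hSb⟩ : ∃ Sb : Fin k × Fin k → Set (Fin k → ℝ), Sb = fun q =>
    {α ∈ Set.Icc β (fun j => β j + T) |
      ¬ Good κ (T ^ κ) (B * T ^ κ) (α q.1 - α q.2)} := ⟨_, rfl⟩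
  have hVV : V ^ (1 / 2 : ℝ) * V ^ (1 / 2 : ℝ) = V := by
    rw [← Real.rpow_add hV0]
    norm_num
  have hVh : 0 < V ^ (1 / 2 : ℝ) := Real.rpow_pos_of_pos hV0 _
  have hVT2 : V ^ (1 / 2 : ℝ) ≤ T ^ (1 / 2 - δ / 2) := by
    calc V ^ (1 / 2 : ℝ) ≤ (T ^ (1 - δ)) ^ (1 / 2 : ℝ) :=
          Real.rpow_le_rpow hV0.le hV1 (by norm_num)
      _ = _ := by
          rw [← Real.rpow_mul hT0.le]
          congr 1
          ring
  have hsmall : C2 * T ^ (-(1 / 2) + δ / 4) * V ≤ V ^ (1 / 2 : ℝ) * T ^ (-ε₁) := by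
    have e1 : T ^ (δ / 8) * T ^ (-(1 / 2) + δ / 4) * T ^ (1 / 2 - δ / 2) ≤ T ^ (-ε₁) := by
      rw [← Real.rpow_add hT0, ← Real.rpow_add hT0]
      apply Real.rpow_le_rpow_of_exponent_le hT1
      linarith
    calc C2 * T ^ (-(1 / 2) + δ / 4) * V
        = V ^ (1 / 2 : ℝ) * (C2 * T ^ (-(1 / 2) + δ / 4) * V ^ (1 / 2 : ℝ)) := by
          conv_lhs => rw [← hVV]
          ring
      _ ≤ V ^ (1 / 2 : ℝ) *
          (T ^ (δ / 8) * T ^ (-(1 / 2) + δ / 4) * T ^ (1 / 2 - δ / 2)) := by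
          have := ht6' T g6
          gcongr
      _ ≤ V ^ (1 / 2 : ℝ) * T ^ (-ε₁) := mul_le_mul_of_nonneg_left e1 hVh.le
  have hsub : BadI k ε₁ T V β ⊆ S ∪ ⋃ q ∈ P, Sb q := by
    intro α hα
    by_contra hcon
    rw [Set.mem_union, not_or] at hcon
    obtain ⟨hc1, hc2⟩ := hcon
    have hαK := hα.1
    have hgood : ∀ i j, i ≠ j → Good κ (T ^ κ) (B * T ^ κ) (α i - α j) := by
      intro i j hij
      by_contra hg
      apply hc2
      rw [Set.mem_iUnion₂]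
      refine ⟨(i, j), ?_, ?_⟩
      · rw [hP]
        exact Finset.mem_filter.2 ⟨Finset.mem_univ _, hij⟩
      · rw [hSb]
        exact ⟨hαK, hg⟩
    have ha1 : ∀ j, T ≤ α j := fun j => (hβ j).trans (hαK.1 j)
    have ha2 : ∀ j, α j ≤ 3 * T := by
      intro j
      have h1 := hαK.2 j
      have h2 := hβ' j
      simp only at h1
      linarith
    have hpt := point_low hMP' hT1 hκ ha1 ha2 hgood hV0.le hVT
    have hbig := hα.2
    rw [← ofReal_norm, ENNReal.ofReal_lt_ofReal_iff_of_nonneg (by positivity)] at hbig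
    apply hc1
    rw [hS]
    refine ⟨hαK, ?_⟩
    have h3 : T ^ (-ε) ≤ T ^ (-ε₁) := Real.rpow_le_rpow_of_exponent_le hT1 (by linarith)
    have h4 : V ^ (1 / 2 : ℝ) * T ^ (-ε) ≤ V ^ (1 / 2 : ℝ) * T ^ (-ε₁) :=
      mul_le_mul_of_nonneg_left h3 hVh.le
    linarith
  have hfin2 : ∀ q ∈ P, volume (Sb q) ≤ ENNReal.ofReal (C1 * T ^ k * T ^ (-κ')) := by
    intro q hq
    rw [hP] at hq
    have hne := (Finset.mem_filter.1 hq).2
    have hne' : q.1.succ ≠ q.2.succ := fun h => hne (Fin.succ_injective _ h)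
    have hpb := FinalAux.pair_bound (κ := κ) (Y := T ^ κ) (B := B * T ^ κ) (κ' := κ') hT1 hT0.le
      le_rfl hC1.le (fun a ha ha' => hZG T a T hT1 hTh ha ha') (α₀ := T) le_rfl (by linarith) hβ hβ'
      q.1.succ q.2.succ hne'
    simp only [Fin.cons_succ] at hpb
    rw [hSb]
    exact hpb
  have hPcard : (P.card : ℝ) ≤ (k : ℝ) ^ 2 := by
    have h1 : P.card ≤ k * k := by
      rw [hP]
      refine (Finset.card_filter_le _ _).trans ?_
      simp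
    have h2 : (P.card : ℝ) ≤ ((k * k : ℕ) : ℝ) := by exact_mod_cast h1
    push_cast at h2
    linarith [h2]
  obtain ⟨X, hX⟩ : ∃ X, X = (k : ℝ) ^ 2 * C1 * T ^ k * T ^ (-κ') := ⟨_, rfl⟩
  have hX0 : 0 ≤ X := by rw [hX]; positivity
  have hf2 : volume (⋃ q ∈ P, Sb q) ≤ ENNReal.ofReal X := by
    refine ((measure_biUnion_finset_le _ _).trans (Finset.sum_le_sum hfin2)).trans ?_
    rw [Finset.sum_const, nsmul_eq_mul, ← ENNReal.ofReal_natCast,
      ← ENNReal.ofReal_mul (by positivity : (0 : ℝ) ≤ (P.card : ℝ))]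
    apply ENNReal.ofReal_le_ofReal
    rw [hX]
    have h1 : (P.card : ℝ) * (C1 * T ^ k * T ^ (-κ')) ≤
        (k : ℝ) ^ 2 * (C1 * T ^ k * T ^ (-κ')) :=
      mul_le_mul_of_nonneg_right hPcard (by positivity)
    linarith
  have htot : ENNReal.ofReal (T ^ k * T ^ (-(ε₁ / 2))) ≤ volume S + ENNReal.ofReal X :=
    hG.trans ((measure_mono hsub).trans ((measure_union_le _ _).trans (add_le_add le_rfl hf2)))
  have hnum : T ^ k * T ^ (-ε) + X ≤ T ^ k * T ^ (-(ε₁ / 2)) := by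
    have e1 : T ^ (-(ε₁ / 2)) = T ^ (-ε₁) * T ^ (ε₁ / 2) := by
      rw [← Real.rpow_add hT0]
      congr 1
      ring
    have e2 : T ^ (-κ') ≤ T ^ (-ε₁) := Real.rpow_le_rpow_of_exponent_le hT1 (by linarith)
    have e3 : T ^ (-ε) ≤ T ^ (-ε₁) := Real.rpow_le_rpow_of_exponent_le hT1 (by linarith)
    have e4 := ht5' T g5
    have hTn : 0 < T ^ k := by positivity
    rw [hX, e1]
    calc T ^ k * T ^ (-ε) + (k : ℝ) ^ 2 * C1 * T ^ k * T ^ (-κ')
        ≤ T ^ k * T ^ (-ε₁) + (k : ℝ) ^ 2 * C1 * T ^ k * T ^ (-ε₁) := by gcongr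
      _ = T ^ k * T ^ (-ε₁) * (1 + (k : ℝ) ^ 2 * C1) := by ring
      _ ≤ T ^ k * T ^ (-ε₁) * T ^ (ε₁ / 2) := mul_le_mul_of_nonneg_left e4 (by positivity)
      _ = _ := by ring
  have h5 := (ENNReal.ofReal_le_ofReal hnum).trans htot
  rw [ENNReal.ofReal_add (by positivity) hX0] at h5
  exact (ENNReal.add_le_add_iff_right ENNReal.ofReal_ne_top).1 h5

end Pool.Agent.P07318s
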