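import Pool.Agent.Lib.P07318s.Defs
import Pool.Agent.Lib.P07318s.HiDefs
import Pool.Agent.Lib.P07318s.HiMain
import Pool.Agent.Lib.P07318s.HiP4
import Pool.Agent.Lib.P07318s.LowAbs

/-!
Sharp lower bound for `k = n + 1 ≥ 3` and all `V ≤ T^(1-δ)`, by `low_abs` (proved) with `P = PT σ S`, `σ 0 = true`, `σ j = false` for `j ≥ 1` (so `σ = fun j => decide (j = 0)`). With
`c = ⌈V^(1/2)⌉ ≥ 1` (`c ≤ 2 V^(1/2)`), `S` = the set of the `x` with `x_1 = a`, `x_2 = b`, `x_0 = a b + 1`, `x_j = 1` for `j ≥ 3`, for `(a, b) ∈ [c, 2c)²` (image of an injective map, `|S| = c²`).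
Facts: `lams σ x = log(ab+1) - log a - log b = log(1 + 1/(ab)) ∈ (0, 1/(ab)] ⊆ (0, 1/V]` (product over `Fin (n+1)`, `n ≥ 2`: only the coordinates 0, 1, 2 contribute);
`∏_j x_j^(-1/2) = ((ab+1) a b)^(-1/2) ≥ 1/(4c²)` as `ab + 1 ≤ 4c²` (`a, b ≤ 2c - 1`), so `W = ∑_{x ∈ S} ∏_j x_j^(-1/2) ≥ 1/4`. `N = |S| = c²`: `N^(1/2) = c ≤ 2 V^(1/2)`, so
`1/8 · V^(1/2) N^(1/2) ≤ 1/4 · V ≤ V W`: `low_abs` with `c0 = 1/8`. Sizes: `x_0 ≤ 4c² ≤ 16 V ≤ 16 T^(1-δ) ≤ T^(1-δ/2)` for `T` large, `x_j ≤ 2c ≤ 4 V^(1/2) ≤ 4 T^(1/2-δ/2) ≤ T^(1/2-δ/4)`.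
`low_main_hi (n+1) η` with `η = min (δ/2) (1/4)` gives the correlation bound, `low_P4_hi n (δ/4) e` the fourth moment (`C4 e` := its constant, by `choose`; `x` is determined by `x_1, x_2, ...`: `x_0 = x_1 x_2 + 1`).
We may assume `δ ≤ 1/2` (or use `min δ (1/2)` in the exponents). The case `V ≤ T^(1-δ)`, `T ≥ 1` gives `V ≤ T`.
-/

set_option autoImplicit false

namespace Pool.Agent.P07318s

open MeasureTheory Complex

namespace HiFinalAux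

/-- the frequency of the pair `(a, b)` -/
def fx (m : ℕ) (p : ℕ+ × ℕ+) : Fin (m + 2 + 1) → ℕ+ :=
  Fin.cons (p.1 * p.2 + 1) (Fin.cons p.1 (Fin.cons p.2 (fun _ => 1)))

/-- the signs -/
def sg (n : ℕ) : Fin (n + 1) → Bool := fun j => decide (j = 0)

theorem fx_tail {m : ℕ} {p q : ℕ+ × ℕ+} (h : ∀ j : Fin (m + 2), fx m p j.succ = fx m q j.succ) : p = q := by
  have h0 := h 0
  have h1 := h 1
  simp only [fx, Fin.cons_succ] at h0 h1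
  rw [Fin.cons_zero, Fin.cons_zero] at h0
  rw [← Fin.succ_zero_eq_one, Fin.cons_succ, Fin.cons_succ, Fin.cons_zero, Fin.cons_zero] at h1
  exact Prod.ext h0 h1

theorem fx_inj (m : ℕ) : Function.Injective (fx m) := fun p q h => fx_tail fun j => by rw [h]

theorem lams_fx (m : ℕ) (p : ℕ+ × ℕ+) : lams (sg (m + 2)) (fx m p) =
    Real.log (1 + 1 / (((p.1 : ℕ) : ℝ) * ((p.2 : ℕ) : ℝ))) := by
  have ha : (0:ℝ) < ((p.1 : ℕ) : ℝ) := by exact_mod_cast p.1.pos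
  have hb : (0:ℝ) < ((p.2 : ℕ) : ℝ) := by exact_mod_cast p.2.pos
  have e1 : ∀ j : Fin (m + 2), sgs (sg (m + 2)) j.succ = -1 := by
    intro j
    unfold sgs sg
    simp [Fin.succ_ne_zero]
  have e0 : sgs (sg (m + 2)) 0 = 1 := by
    unfold sgs sg
    simp
  unfold lams lam
  simp only [lgr_frs]
  rw [Fin.sum_univ_succ, e0]
  simp only [e1, fx, Fin.cons_succ, Fin.cons_zero]
  rw [Fin.sum_univ_succ, Fin.sum_univ_succ]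
  simp only [Fin.cons_succ, Fin.cons_zero, PNat.one_coe, Nat.cast_one, Real.log_one, mul_zero,
    Finset.sum_const_zero, add_zero, one_mul]
  have e2 : (1 + 1 / (((p.1 : ℕ) : ℝ) * ((p.2 : ℕ) : ℝ))) =
      (((p.1 * p.2 + 1 : ℕ+) : ℕ) : ℝ) / (((p.1 : ℕ) : ℝ) * ((p.2 : ℕ) : ℝ)) := by
    rw [PNat.add_coe, PNat.mul_coe, PNat.one_coe]
    push_cast
    field_simp
  rw [e2, Real.log_div (by positivity) (by positivity), Real.log_mul ha.ne' hb.ne']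
  ring

theorem prod_fx (m : ℕ) (p : ℕ+ × ℕ+) : ∏ j, ((fx m p j : ℕ) : ℝ) ^ (-(1 / 2) : ℝ) =
    ((((p.1 : ℕ) : ℝ) * ((p.2 : ℕ) : ℝ) + 1) * (((p.1 : ℕ) : ℝ) * ((p.2 : ℕ) : ℝ))) ^ (-(1 / 2) : ℝ) := by
  have ha : (0:ℝ) < ((p.1 : ℕ) : ℝ) := by exact_mod_cast p.1.pos
  have hb : (0:ℝ) < ((p.2 : ℕ) : ℝ) := by exact_mod_cast p.2.pos
  rw [Fin.prod_univ_succ, Fin.prod_univ_succ, Fin.prod_univ_succ]
  simp only [fx, Fin.cons_succ, Fin.cons_zero, PNat.one_coe, Nat.cast_one, Real.one_rpow,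
    Finset.prod_const_one, mul_one]
  rw [PNat.add_coe, PNat.mul_coe, PNat.one_coe]
  push_cast
  rw [Real.mul_rpow (by positivity) (by positivity), Real.mul_rpow ha.le hb.le]

theorem fx_zero (m : ℕ) (p : ℕ+ × ℕ+) : ((fx m p 0 : ℕ) : ℝ) = ((p.1 : ℕ) : ℝ) * ((p.2 : ℕ) : ℝ) + 1 := by
  simp only [fx, Fin.cons_zero]
  rw [PNat.add_coe, PNat.mul_coe, PNat.one_coe]
  push_cast
  ring

theorem fx_succ_le {m : ℕ} {p : ℕ+ × ℕ+} {X : ℝ} (h1 : ((p.1 : ℕ) : ℝ) ≤ X) (h2 : ((p.2 : ℕ) : ℝ) ≤ X)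
    (h3 : 1 ≤ X) (j : Fin (m + 2)) : ((fx m p j.succ : ℕ) : ℝ) ≤ X := by
  simp only [fx, Fin.cons_succ]
  refine Fin.cases ?_ (fun i => ?_) j
  · simpa using h1
  · rw [Fin.cons_succ]
    refine Fin.cases ?_ (fun i' => ?_) i
    · simpa using h2
    · rw [Fin.cons_succ]
      simpa using h3

theorem main_half (m : ℕ) (δ ε : ℝ) (hδ : 0 < δ) (hδ1 : δ ≤ 1 / 2) (hε : 0 < ε) :
    ∃ T₀ : ℝ, 1 ≤ T₀ ∧ ∀ (T V : ℝ) (β : Fin (m + 2 + 1) → ℝ), T₀ ≤ T → 1 ≤ V → V ≤ T ^ (1 - δ) →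
    (∀ j, T ≤ β j) → (∀ j, β j ≤ 2 * T) →
    ENNReal.ofReal (T ^ (m + 2 + 1) * T ^ (-ε)) ≤
      volume {α ∈ Set.Icc β (fun j => β j + T) | V ^ (1 / 2 : ℝ) * T ^ (-ε) <
        ‖∫ t in (0:ℝ)..V, (((∏ j, ‖riemannZeta (1 / 2 + ((t + α j : ℝ) : ℂ) * I)‖ ^ 2 : ℝ) : ℂ) -
          mainTerm (fun j => t + α j))‖} := by
  classical
  choose C hC0 hC using fun (e : ℝ) (he : 0 < e) => low_P4_hi (m + 2) (δ / 4) e (by positivity) he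
  obtain ⟨T₁, hT₁, hlow⟩ := low_abs (m + 2 + 1) δ ε (1 / 8) hδ hε (by norm_num)
    (fun e => if h : 0 < e then C e h else 1) (fun e he => by
      show 0 < if h : 0 < e then C e h else 1
      rw [dif_pos he]
      exact hC0 e he)
  obtain ⟨T₂, hT₂, hmain⟩ := low_main_hi (m + 2 + 1) (δ / 2) (by positivity) (by linarith)
  obtain ⟨t3, ht3, ht3'⟩ := LFin.eventually_rpow 16 (δ / 2) (by positivity)
  obtain ⟨t4, ht4, ht4'⟩ := LFin.eventually_rpow 4 (δ / 4) (by positivity)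
  refine ⟨max T₁ (max T₂ (max t3 t4)), hT₁.trans (le_max_left _ _), ?_⟩
  intro T V β hT hV hVT hβ1 hβ2
  simp only [max_le_iff] at hT
  obtain ⟨g1, g2, g3, g4⟩ := hT
  have hT1 : 1 ≤ T := hT₁.trans g1
  have hT0 : 0 < T := by linarith
  have hV0 : 0 < V := by linarith
  have hVT' : V ≤ T := by
    refine hVT.trans ?_
    calc T ^ (1 - δ) ≤ T ^ (1 : ℝ) := Real.rpow_le_rpow_of_exponent_le hT1 (by linarith)
      _ = T := Real.rpow_one T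
  obtain ⟨u, hu⟩ : ∃ u, u = V ^ (1 / 2 : ℝ) := ⟨_, rfl⟩
  have hu1 : 1 ≤ u := by rw [hu]; exact Real.one_le_rpow hV (by norm_num)
  have hu2 : u ^ 2 = V := by
    rw [hu, ← Real.rpow_natCast, ← Real.rpow_mul hV0.le]
    norm_num
  have hcpos : 0 < ⌈u⌉₊ := Nat.ceil_pos.2 (by linarith)
  obtain ⟨c, hc⟩ : ∃ c : ℕ+, (c : ℕ) = ⌈u⌉₊ := ⟨⟨_, hcpos⟩, rfl⟩
  have hcu : u ≤ ((c : ℕ) : ℝ) := by rw [hc]; exact Nat.le_ceil u
  have hcu2 : ((c : ℕ) : ℝ) ≤ 2 * u := by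
    rw [hc]
    have := (Nat.ceil_lt_add_one (by linarith : 0 ≤ u)).le
    linarith
  have hc0 : (0:ℝ) < ((c : ℕ) : ℝ) := by linarith
  obtain ⟨S0, hS0⟩ : ∃ S0 : Finset (ℕ+ × ℕ+), S0 = Finset.Ico c (2 * c) ×ˢ Finset.Ico c (2 * c) := ⟨_, rfl⟩
  have hS0c : S0.card = (c : ℕ) ^ 2 := by
    rw [hS0, Finset.card_product, PNat.card_Ico]
    have : ((2 * c : ℕ+) : ℕ) = 2 * (c : ℕ) := by simp [PNat.mul_coe]
    rw [this, sq]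
    have e : 2 * (c : ℕ) - c = c := by omega
    rw [e]
  have hmem : ∀ p ∈ S0, ((c : ℕ) : ℝ) ≤ ((p.1 : ℕ) : ℝ) ∧ ((p.1 : ℕ) : ℝ) ≤ 2 * ((c : ℕ) : ℝ) - 1 ∧
      ((c : ℕ) : ℝ) ≤ ((p.2 : ℕ) : ℝ) ∧ ((p.2 : ℕ) : ℝ) ≤ 2 * ((c : ℕ) : ℝ) - 1 := by
    intro p hp
    rw [hS0, Finset.mem_product, Finset.mem_Ico, Finset.mem_Ico] at hp
    have key : ∀ a : ℕ+, c ≤ a ∧ a < 2 * c → ((c : ℕ) : ℝ) ≤ ((a : ℕ) : ℝ) ∧
        ((a : ℕ) : ℝ) ≤ 2 * ((c : ℕ) : ℝ) - 1 := by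
      intro a ha
      have h1 : (c : ℕ) ≤ (a : ℕ) := by exact_mod_cast ha.1
      have h2 : (a : ℕ) < 2 * (c : ℕ) := by
        have := PNat.coe_lt_coe a (2 * c) |>.2 ha.2
        simpa [PNat.mul_coe] using this
      have h3 : (a : ℕ) + 1 ≤ 2 * (c : ℕ) := h2
      have h4 : ((a : ℕ) : ℝ) + 1 ≤ 2 * ((c : ℕ) : ℝ) := by exact_mod_cast h3
      exact ⟨by exact_mod_cast h1, by linarith⟩
    exact ⟨(key _ hp.1).1, (key _ hp.1).2, (key _ hp.2).1, (key _ hp.2).2⟩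
  obtain ⟨S, hS⟩ : ∃ S : Finset (Fin (m + 2 + 1) → ℕ+), S = S0.image (fx m) := ⟨_, rfl⟩
  have hScard : (S.card : ℝ) = ((c : ℕ) : ℝ) ^ 2 := by
    rw [hS, Finset.card_image_of_injective _ (fx_inj m), hS0c]
    push_cast
    ring
  have hSmem : ∀ x ∈ S, ∃ p ∈ S0, fx m p = x := by
    intro x hx
    rw [hS, Finset.mem_image] at hx
    exact hx
  have hab : ∀ p ∈ S0, ((c : ℕ) : ℝ) ^ 2 ≤ ((p.1 : ℕ) : ℝ) * ((p.2 : ℕ) : ℝ) ∧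
      ((p.1 : ℕ) : ℝ) * ((p.2 : ℕ) : ℝ) + 1 ≤ 4 * ((c : ℕ) : ℝ) ^ 2 := by
    intro p hp
    obtain ⟨h1, h2, h3, h4⟩ := hmem p hp
    have hc1 : (1:ℝ) ≤ ((c : ℕ) : ℝ) := by linarith
    constructor
    · nlinarith
    · nlinarith
  -- sizes
  have hVhalf : u ≤ T ^ (1 / 2 - δ / 2) := by
    rw [hu]
    calc V ^ (1 / 2 : ℝ) ≤ (T ^ (1 - δ)) ^ (1 / 2 : ℝ) := Real.rpow_le_rpow hV0.le hVT (by norm_num)
      _ = _ := by
          rw [← Real.rpow_mul hT0.le]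
          congr 1
          ring
  have hsz0 : 4 * ((c : ℕ) : ℝ) ^ 2 ≤ T ^ (1 - δ / 2) := by
    have h1 : 4 * ((c : ℕ) : ℝ) ^ 2 ≤ 16 * V := by rw [← hu2]; nlinarith
    have h2 := ht3' T g3
    calc 4 * ((c : ℕ) : ℝ) ^ 2 ≤ 16 * V := h1
      _ ≤ T ^ (δ / 2) * T ^ (1 - δ) := by
          refine mul_le_mul h2 hVT hV0.le (by positivity)
      _ = _ := by
          rw [← Real.rpow_add hT0]
          congr 1
          ring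
  have hsz1 : 2 * ((c : ℕ) : ℝ) ≤ T ^ (1 / 2 - δ / 4) := by
    have h2 := ht4' T g4
    calc 2 * ((c : ℕ) : ℝ) ≤ 4 * u := by linarith
      _ ≤ T ^ (δ / 4) * T ^ (1 / 2 - δ / 2) := by
          refine mul_le_mul h2 hVhalf (by linarith) (by positivity)
      _ = _ := by
          rw [← Real.rpow_add hT0]
          congr 1
          ring
  have hone : 1 ≤ T ^ (1 / 2 - δ / 4) := Real.one_le_rpow hT1 (by linarith)
  have htail : ∀ x ∈ S, ∀ j : Fin (m + 2), ((x j.succ : ℕ) : ℝ) ≤ T ^ (1 / 2 - δ / 4) := by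
    intro x hx j
    obtain ⟨p, hp, rfl⟩ := hSmem x hx
    obtain ⟨h1, h2, h3, h4⟩ := hmem p hp
    exact fx_succ_le (by linarith) (by linarith) hone j
  have hdet : ∀ x ∈ S, ∀ y ∈ S, (∀ j : Fin (m + 2), x j.succ = y j.succ) → x = y := by
    intro x hx y hy h
    obtain ⟨p, hp, rfl⟩ := hSmem x hx
    obtain ⟨q, hq, rfl⟩ := hSmem y hy
    rw [fx_tail h]
  have hall : ∀ x ∈ S, ∀ j, ((x j : ℕ) : ℝ) ≤ T ^ (1 - δ / 2) := by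
    intro x hx j
    refine Fin.cases ?_ (fun i => ?_) j
    · obtain ⟨p, hp, rfl⟩ := hSmem x hx
      rw [fx_zero]
      exact ((hab p hp).2).trans hsz0
    · exact (htail x hx i).trans (Real.rpow_le_rpow_of_exponent_le hT1 (by linarith))
  have hlam : ∀ x ∈ S, lams (sg (m + 2)) x ≠ 0 ∧ |lams (sg (m + 2)) x| ≤ 1 / V := by
    intro x hx
    obtain ⟨p, hp, rfl⟩ := hSmem x hx
    rw [lams_fx]
    have h1 := (hab p hp).1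
    have h2 : V ≤ ((c : ℕ) : ℝ) ^ 2 := by rw [← hu2]; nlinarith
    have h3 : 0 < ((p.1 : ℕ) : ℝ) * ((p.2 : ℕ) : ℝ) := by nlinarith
    have h4 : 0 < 1 / (((p.1 : ℕ) : ℝ) * ((p.2 : ℕ) : ℝ)) := by positivity
    have h5 : 0 < Real.log (1 + 1 / (((p.1 : ℕ) : ℝ) * ((p.2 : ℕ) : ℝ))) :=
      Real.log_pos (by linarith)
    refine ⟨h5.ne', ?_⟩
    rw [abs_of_pos h5]
    have h6 := Real.log_le_sub_one_of_pos (show 0 < 1 + 1 / (((p.1 : ℕ) : ℝ) * ((p.2 : ℕ) : ℝ)) by linarith)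
    have h7 : 1 / (((p.1 : ℕ) : ℝ) * ((p.2 : ℕ) : ℝ)) ≤ 1 / V :=
      one_div_le_one_div_of_le hV0 (h2.trans h1)
    linarith
  have hW : 1 / 4 ≤ ∑ x ∈ S, ∏ j, ((x j : ℕ) : ℝ) ^ (-(1 / 2) : ℝ) := by
    rw [hS, Finset.sum_image (fun a _ b _ h => fx_inj m h)]
    have h1 : ∀ p ∈ S0, (4 * ((c : ℕ) : ℝ) ^ 2)⁻¹ ≤ ∏ j, ((fx m p j : ℕ) : ℝ) ^ (-(1 / 2) : ℝ) := by
      intro p hp
      rw [prod_fx]
      obtain ⟨h1, h2⟩ := hab p hp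
      have h3 : 0 < ((p.1 : ℕ) : ℝ) * ((p.2 : ℕ) : ℝ) := by nlinarith
      have h4 : ((4 * ((c : ℕ) : ℝ) ^ 2) ^ 2) ^ (-(1 / 2) : ℝ) = (4 * ((c : ℕ) : ℝ) ^ 2)⁻¹ := by
        rw [← Real.rpow_natCast, ← Real.rpow_mul (by positivity)]
        have : ((2 : ℕ) : ℝ) * (-(1 / 2) : ℝ) = -1 := by norm_num
        rw [this, Real.rpow_neg_one]
      rw [← h4]
      refine Real.rpow_le_rpow_of_nonpos (by positivity) ?_ (by norm_num)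
      rw [sq]
      exact mul_le_mul h2 (by linarith) h3.le (by positivity)
    have h2 := Finset.sum_le_sum h1
    rw [Finset.sum_const, nsmul_eq_mul, hS0c] at h2
    refine le_trans (le_of_eq ?_) h2
    push_cast
    field_simp
  have hNs : (((c : ℕ) : ℝ) ^ 2) ^ (1 / 2 : ℝ) = ((c : ℕ) : ℝ) := by
    rw [← Real.rpow_natCast, ← Real.rpow_mul hc0.le]
    norm_num
  refine hlow T V β g1 hV hVT hβ1 hβ2 (PT (sg (m + 2)) S) (((c : ℕ) : ℝ) ^ 2)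
    (∑ x ∈ S, ∏ j, ((x j : ℕ) : ℝ) ^ (-(1 / 2) : ℝ)) (PT_continuous _ _) (by positivity) ?_ ?_ ?_
  · rw [hNs, ← hu]
    have h1 : V * (1 / 4) ≤ V * ∑ x ∈ S, ∏ j, ((x j : ℕ) : ℝ) ^ (-(1 / 2) : ℝ) :=
      mul_le_mul_of_nonneg_left hW hV0.le
    refine le_trans ?_ h1
    rw [← hu2]
    nlinarith
  · exact hmain T V β (sg (m + 2)) S g2 hV hVT' hβ1 hβ2 hall hlam
  · intro e he
    have h1 := hC e he T β (sg (m + 2)) S hT1 htail hdet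
    rw [hScard] at h1
    show _ ≤ (if h : 0 < e then C e h else 1) * _ * _
    rw [dif_pos he]
    exact h1

end HiFinalAux

theorem low_final_hi (n : ℕ) (hn : 2 ≤ n) (δ ε : ℝ) (hδ : 0 < δ) (hε : 0 < ε) :
    ∃ T₀ : ℝ, 1 ≤ T₀ ∧ ∀ (T V : ℝ) (β : Fin (n + 1) → ℝ), T₀ ≤ T → 1 ≤ V → V ≤ T ^ (1 - δ) →
    (∀ j, T ≤ β j) → (∀ j, β j ≤ 2 * T) →
    ENNReal.ofReal (T ^ (n + 1) * T ^ (-ε)) ≤
      volume {α ∈ Set.Icc β (fun j => β j + T) | V ^ (1 / 2 : ℝ) * T ^ (-ε) <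
        ‖∫ t in (0:ℝ)..V, (((∏ j, ‖riemannZeta (1 / 2 + ((t + α j : ℝ) : ℂ) * I)‖ ^ 2 : ℝ) : ℂ) -
          mainTerm (fun j => t + α j))‖} := by
  obtain ⟨m, rfl⟩ : ∃ m, n = m + 2 := ⟨n - 2, by omega⟩
  obtain ⟨T₀, hT₀, h⟩ := HiFinalAux.main_half m (min δ (1 / 2)) ε (by positivity) (min_le_right _ _) hε
  refine ⟨T₀, hT₀, ?_⟩
  intro T V β hT hV hVT hβ1 hβ2
  have hT1 : 1 ≤ T := hT₀.trans hT
  exact h T V β hT hV (hVT.trans (Real.rpow_le_rpow_of_exponent_le hT1 (by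
    have := min_le_left δ (1 / 2)
    linarith))) hβ1 hβ2

end Pool.Agent.P07318s
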