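import Mathlib
import Pool.Agent.Lib.P5632c9.DivBound

/-!
Elementary counting. Put `u = x - y`, `v = x + y`, `d = z - w`, `a = z + w - v` (`|a| ≤ R`): `d² - u² = a(2v + a) - 4(zw - xy)`, so `|a(2v+a) - (d² - u²)| ≤ 4R`, and `(u, v, a, d)` determines
`(x, y, z, w)`; `|u|, |d| < X`, `2X ≤ v < 4X`.
`R > X`: for given `x, y, z` there are at most `3R/X` values of `w`.
`R ≤ X`, `a = 0`: `|d² - u²| ≤ 4R`, at most `4X + C X^ε R` pairs `(u, d)` and `2X` values of `v`.
`R ≤ X`, `a ≠ 0`: `|d² - u²| ≤ 14 |a| X`, so at most `4X + C |a| X^(1+ε)` pairs `(u, d)`; for given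
`(a, u, d)` at most `5R/|a|` values of `v`.
-/

set_option autoImplicit false

namespace Pool.Agent.P07318s

open Complex

private theorem card_le_real {α β : Type*} [DecidableEq β] (s : Finset α) (f : α → β)
    (t : Finset β) (hf : ∀ a ∈ s, f a ∈ t) (K : ℝ)
    (h : ∀ b ∈ t, ((s.filter (fun a => f a = b)).card : ℝ) ≤ K) :
    (s.card : ℝ) ≤ K * t.card := by
  rw [Finset.card_eq_sum_card_fiberwise hf]
  push_cast
  calc _ ≤ ∑ _b ∈ t, K := Finset.sum_le_sum h
    _ = K * t.card := by simp [mul_comm]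

private theorem interval_count (S : Finset ℤ) (k c : ℤ) (L : ℕ) (hk : k ≠ 0)
    (h : ∀ v ∈ S, |k * v + c| ≤ (L : ℤ)) : (S.card : ℝ) ≤ 2 * L / |(k : ℝ)| + 1 := by
  have hk0 : (0 : ℝ) < |(k : ℝ)| := abs_pos.2 (by exact_mod_cast hk)
  have hk1 : (0 : ℤ) < |k| := abs_pos.2 hk
  rcases S.eq_empty_or_nonempty with rfl | hS
  · simp; positivity
  set m := S.min' hS with hm
  set q : ℤ := (2 * L) / |k| with hq
  have hq0 : 0 ≤ q := Int.ediv_nonneg (by positivity) hk1.le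
  have hsub : S ⊆ Finset.Icc m (m + q) := by
    intro v hv
    rw [Finset.mem_Icc]
    refine ⟨S.min'_le v hv, ?_⟩
    have h1 := h v hv
    have h2 := h m (S.min'_mem hS)
    have h3 : |k * (v - m)| ≤ 2 * L := by
      have : k * (v - m) = (k * v + c) - (k * m + c) := by ring
      rw [this]
      have := abs_sub (k * v + c) (k * m + c)
      linarith
    rw [abs_mul] at h3
    have h4 : (v - m) * |k| ≤ 2 * L := by
      have := le_abs_self (v - m)
      nlinarith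
    have h5 : v - m ≤ q := by rw [hq]; exact Int.le_ediv_of_mul_le hk1 h4
    linarith
  have h6 := Finset.card_le_card hsub
  rw [Int.card_Icc] at h6
  have h7 : (S.card : ℝ) ≤ (q : ℝ) + 1 := by
    have h8 : (S.card : ℤ) ≤ q + 1 := by
      have : ((m + q + 1 - m).toNat : ℤ) = q + 1 := by
        rw [Int.toNat_of_nonneg (by linarith)]; ring
      calc (S.card : ℤ) ≤ ((m + q + 1 - m).toNat : ℤ) := by exact_mod_cast h6
        _ = q + 1 := this
    exact_mod_cast h8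
  have h9 : (q : ℝ) ≤ 2 * L / |(k : ℝ)| := by
    rw [le_div_iff₀ hk0]
    have : q * |k| ≤ 2 * L := Int.ediv_mul_le _ hk1.ne'
    have h10 : ((q * |k| : ℤ) : ℝ) ≤ ((2 * L : ℤ) : ℝ) := by exact_mod_cast this
    push_cast at h10
    exact h10
  linarith

private theorem pairs_count (ε : ℝ) (hε : 0 < ε) : ∃ C : ℝ, 1 ≤ C ∧ ∀ X B : ℕ, 1 ≤ X → 1 ≤ B →
    (((Finset.Ioo (-(X : ℤ)) X ×ˢ Finset.Ioo (-(X : ℤ)) X).filter
      (fun p : ℤ × ℤ => |p.2 ^ 2 - p.1 ^ 2| ≤ (B : ℤ))).card : ℝ) ≤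
      4 * X + C * (X : ℝ) ^ ε * B := by
  obtain ⟨D, hD1, hD⟩ := Pool.Agent.Lib.P5632c9.card_divisors_le (ε / 2) (by positivity)
  refine ⟨6 * D, by linarith, fun X B hX hB => ?_⟩
  have hXr : (1 : ℝ) ≤ X := by exact_mod_cast hX
  have hBr : (1 : ℝ) ≤ B := by exact_mod_cast hB
  set S := (Finset.Ioo (-(X : ℤ)) X ×ˢ Finset.Ioo (-(X : ℤ)) X).filter
      (fun p : ℤ × ℤ => |p.2 ^ 2 - p.1 ^ 2| ≤ (B : ℤ)) with hS
  have hsplit : (S.card : ℝ) = ((S.filter (fun p => p.2 ^ 2 = p.1 ^ 2)).card : ℝ) +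
      ((S.filter (fun p => ¬ p.2 ^ 2 = p.1 ^ 2)).card : ℝ) := by
    exact_mod_cast (Finset.card_filter_add_card_filter_not (s := S)
      (fun p : ℤ × ℤ => p.2 ^ (2 : ℕ) = p.1 ^ (2 : ℕ))).symm
  have hmem : ∀ p ∈ S, (-(X : ℤ) < p.1 ∧ p.1 < X) ∧ (-(X : ℤ) < p.2 ∧ p.2 < X) ∧
      |p.2 ^ 2 - p.1 ^ 2| ≤ (B : ℤ) := by
    intro p hp
    rw [hS, Finset.mem_filter, Finset.mem_product, Finset.mem_Ioo, Finset.mem_Ioo] at hp
    exact ⟨hp.1.1, hp.1.2, hp.2⟩
  have h0 : ((S.filter (fun p => p.2 ^ 2 = p.1 ^ 2)).card : ℝ) ≤ 4 * X := by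
    have h1 := card_le_real (S.filter (fun p => p.2 ^ 2 = p.1 ^ 2)) Prod.fst
      (Finset.Ioo (-(X : ℤ)) X) (fun p hp => by
        have := hmem p (Finset.mem_filter.1 hp).1
        exact Finset.mem_Ioo.2 this.1) 2 (fun b _ => by
        have : ((S.filter (fun p => p.2 ^ 2 = p.1 ^ 2)).filter (fun a => a.1 = b)) ⊆
            {(b, b), (b, -b)} := by
          intro p hp
          rw [Finset.mem_filter, Finset.mem_filter] at hp
          obtain ⟨⟨_, h2⟩, h3⟩ := hp
          rw [Finset.mem_insert, Finset.mem_singleton]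
          rcases sq_eq_sq_iff_eq_or_eq_neg.1 h2 with h4 | h4
          · left; ext <;> simp [h4, h3]
          · right; ext <;> simp [h4, h3]
        have h5 := (Finset.card_le_card this).trans Finset.card_le_two
        exact_mod_cast h5)
    have h2 : ((Finset.Ioo (-(X : ℤ)) X).card : ℝ) ≤ 2 * X := by
      rw [Int.card_Ioo]
      have : ((X : ℤ) - -(X : ℤ) - 1).toNat ≤ 2 * X := by omega
      exact_mod_cast this
    linarith
  have h1 : ((S.filter (fun p => ¬ p.2 ^ 2 = p.1 ^ 2)).card : ℝ) ≤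
      6 * D * (X : ℝ) ^ ε * B := by
    have hDp : 0 ≤ D := by linarith
    have hXe : 0 ≤ (X : ℝ) ^ ε := by positivity
    have h1 := card_le_real (S.filter (fun p => ¬ p.2 ^ 2 = p.1 ^ 2))
      (fun p => p.2 ^ 2 - p.1 ^ 2)
      (Finset.Icc (-(B : ℤ)) B) (fun p hp => by
        have := hmem p (Finset.mem_filter.1 hp).1
        exact Finset.mem_Icc.2 (abs_le.1 this.2.2)) (2 * (D * (X : ℝ) ^ ε)) (fun n _ => by
        set F := (S.filter (fun p => ¬ p.2 ^ 2 = p.1 ^ 2)).filter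
          (fun a => a.2 ^ 2 - a.1 ^ 2 = n) with hF
        rcases F.eq_empty_or_nonempty with hE | ⟨p₀, hp₀⟩
        · rw [hE]; simp; positivity
        have hFm : ∀ p ∈ F, p ∈ S ∧ ¬ p.2 ^ 2 = p.1 ^ 2 ∧ p.2 ^ 2 - p.1 ^ 2 = n := by
          intro p hp
          rw [hF, Finset.mem_filter, Finset.mem_filter] at hp
          exact ⟨hp.1.1, hp.1.2, hp.2⟩
        have hn0 : n ≠ 0 := by
          obtain ⟨_, h2, h3⟩ := hFm p₀ hp₀
          intro h0
          rw [h0] at h3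
          exact h2 (by linarith)
        have hnX : n.natAbs ≤ X ^ 2 := by
          obtain ⟨h1, _, h3⟩ := hFm p₀ hp₀
          obtain ⟨h4, h5, _⟩ := hmem p₀ h1
          have h6 : |n| ≤ (X : ℤ) ^ 2 := by
            rw [← h3, abs_le]
            constructor <;> nlinarith [sq_nonneg p₀.1, sq_nonneg p₀.2]
          have : (n.natAbs : ℤ) ≤ ((X ^ 2 : ℕ) : ℤ) := by
            rw [Int.natCast_natAbs]; push_cast; exact h6
          exact_mod_cast this
        have hcard : F.card ≤ (((n.natAbs.divisors).image (fun k : ℕ => (k : ℤ))) ∪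
            ((n.natAbs.divisors).image (fun k : ℕ => -(k : ℤ)))).card := by
          apply Finset.card_le_card_of_injOn (fun p => p.2 - p.1)
          · intro p hp
            obtain ⟨_, h2, h3⟩ := hFm p hp
            have hdvd : (p.2 - p.1) ∣ n := ⟨p.2 + p.1, by rw [← h3]; ring⟩
            have hdvd' : (p.2 - p.1).natAbs ∣ n.natAbs := Int.natAbs_dvd_natAbs.2 hdvd
            have hmd : (p.2 - p.1).natAbs ∈ n.natAbs.divisors :=
              Nat.mem_divisors.2 ⟨hdvd', Int.natAbs_ne_zero.2 hn0⟩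
            rw [Finset.mem_coe, Finset.mem_union, Finset.mem_image, Finset.mem_image]
            rcases Int.natAbs_eq (p.2 - p.1) with h | h
            · left; exact ⟨_, hmd, h.symm⟩
            · right; exact ⟨_, hmd, h.symm⟩
          · intro p hp p' hp' hpp
            obtain ⟨_, h2, h3⟩ := hFm p hp
            obtain ⟨_, h2', h3'⟩ := hFm p' hp'
            simp only at hpp
            have hne : p.2 - p.1 ≠ 0 := by
              intro h0
              apply hn0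
              rw [← h3]
              have : p.2 ^ 2 - p.1 ^ 2 = (p.2 - p.1) * (p.2 + p.1) := by ring
              rw [this, h0, zero_mul]
            have h4 : (p.2 - p.1) * (p.2 + p.1) = (p.2 - p.1) * (p'.2 + p'.1) := by
              have e1 : (p.2 - p.1) * (p.2 + p.1) = n := by rw [← h3]; ring
              have e2 : (p.2 - p.1) * (p'.2 + p'.1) = n := by rw [hpp, ← h3']; ring
              rw [e1, e2]
            have h5 := mul_left_cancel₀ hne h4
            ext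
            · linarith
            · linarith
        have hcard2 : F.card ≤ 2 * n.natAbs.divisors.card := by
          refine hcard.trans ((Finset.card_union_le _ _).trans ?_)
          have a1 := Finset.card_image_le (s := n.natAbs.divisors) (f := fun k : ℕ => (k : ℤ))
          have a2 := Finset.card_image_le (s := n.natAbs.divisors) (f := fun k : ℕ => -(k : ℤ))
          omega
        have h7 := hD n.natAbs (Int.natAbs_ne_zero.2 hn0)
        have h8 : ((n.natAbs : ℕ) : ℝ) ^ (ε / 2) ≤ (X : ℝ) ^ ε := by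
          calc ((n.natAbs : ℕ) : ℝ) ^ (ε / 2) ≤ ((X : ℝ) ^ 2) ^ (ε / 2) := by
                apply Real.rpow_le_rpow (by positivity) (by exact_mod_cast hnX) (by positivity)
            _ = (X : ℝ) ^ ε := by
                rw [← Real.rpow_natCast, ← Real.rpow_mul (by positivity)]
                congr 1; push_cast; ring
        have h9 : (F.card : ℝ) ≤ 2 * (n.natAbs.divisors.card : ℝ) := by exact_mod_cast hcard2
        have h10 : D * ((n.natAbs : ℕ) : ℝ) ^ (ε / 2) ≤ D * (X : ℝ) ^ ε := by gcongr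
        linarith)
    have h2 : ((Finset.Icc (-(B : ℤ)) B).card : ℝ) ≤ 3 * B := by
      rw [Int.card_Icc]
      have : ((B : ℤ) + 1 - -(B : ℤ)).toNat ≤ 3 * B := by omega
      exact_mod_cast this
    calc _ ≤ 2 * (D * (X : ℝ) ^ ε) * ((Finset.Icc (-(B : ℤ)) B).card : ℝ) := h1
      _ ≤ 2 * (D * (X : ℝ) ^ ε) * (3 * B) := by gcongr
      _ = 6 * D * (X : ℝ) ^ ε * B := by ring
  rw [hsplit]
  linarith

/-- the set of quadruples -/
private noncomputable def Qd (X R : ℕ) : Finset ((ℤ × ℤ) × (ℤ × ℤ)) :=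
  ((Finset.Ico (X : ℤ) (2 * X) ×ˢ Finset.Ico (X : ℤ) (2 * X)) ×ˢ
      (Finset.Ico (X : ℤ) (2 * X) ×ˢ Finset.Ico (X : ℤ) (2 * X))).filter (fun s : (ℤ × ℤ) × (ℤ × ℤ) =>
        |s.1.1 * s.1.2 - s.2.1 * s.2.2| ≤ (R : ℤ) ∧ |s.1.1 + s.1.2 - (s.2.1 + s.2.2)| ≤ (R : ℤ))

private theorem mem_Qd {X R : ℕ} {s : (ℤ × ℤ) × (ℤ × ℤ)} (hs : s ∈ Qd X R) :
    ((X : ℤ) ≤ s.1.1 ∧ s.1.1 < 2 * X) ∧ ((X : ℤ) ≤ s.1.2 ∧ s.1.2 < 2 * X) ∧
    ((X : ℤ) ≤ s.2.1 ∧ s.2.1 < 2 * X) ∧ ((X : ℤ) ≤ s.2.2 ∧ s.2.2 < 2 * X) ∧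
    |s.1.1 * s.1.2 - s.2.1 * s.2.2| ≤ (R : ℤ) ∧ |s.1.1 + s.1.2 - (s.2.1 + s.2.2)| ≤ (R : ℤ) := by
  rw [Qd, Finset.mem_filter, Finset.mem_product, Finset.mem_product, Finset.mem_product,
    Finset.mem_Ico, Finset.mem_Ico, Finset.mem_Ico, Finset.mem_Ico] at hs
  exact ⟨hs.1.1.1, hs.1.1.2, hs.1.2.1, hs.1.2.2, hs.2.1, hs.2.2⟩

private theorem big_R (X R : ℕ) (hX : 1 ≤ X) (hXR : X < R) :
    ((Qd X R).card : ℝ) ≤ 3 * (R : ℝ) ^ 2 * X := by
  have hXr : (1 : ℝ) ≤ X := by exact_mod_cast hX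
  have hRr : (X : ℝ) ≤ R := by exact_mod_cast hXR.le
  have h1 := card_le_real (Qd X R) (fun s => (s.1.1, s.2))
    (Finset.Ico (X : ℤ) (2 * X) ×ˢ (Finset.Ico (X : ℤ) (2 * X) ×ˢ Finset.Ico (X : ℤ) (2 * X)))
    (fun s hs => by
      obtain ⟨h1, _, h3, h4, _, _⟩ := mem_Qd hs
      simp only [Finset.mem_product, Finset.mem_Ico]
      exact ⟨h1, h3, h4⟩) (3 * R / X) (fun b hb => by
      simp only [Finset.mem_product, Finset.mem_Ico] at hb
      set F := (Qd X R).filter (fun s => (s.1.1, s.2) = b) with hF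
      have hinj : Set.InjOn (fun s : (ℤ × ℤ) × (ℤ × ℤ) => s.1.2) F := by
        intro s hs s' hs' h
        have e1 := (Finset.mem_filter.1 (Finset.mem_coe.1 hs)).2
        have e2 := (Finset.mem_filter.1 (Finset.mem_coe.1 hs')).2
        have e3 := e1.trans e2.symm
        simp only [Prod.mk.injEq] at e3
        simp only at h
        exact Prod.ext (Prod.ext e3.1 h) e3.2
      have hb1 : (0 : ℤ) < b.1 := by have := hb.1.1; omega
      have h2 := interval_count (F.image (fun s => s.1.2)) b.1 (-(b.2.1 * b.2.2)) R hb1.ne'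
        (fun v hv => by
          obtain ⟨s, hs, rfl⟩ := Finset.mem_image.1 hv
          have e1 := (Finset.mem_filter.1 hs).2
          obtain ⟨_, _, _, _, h5, _⟩ := mem_Qd (Finset.mem_filter.1 hs).1
          rw [← e1]
          simpa [sub_eq_add_neg] using h5)
      rw [Finset.card_image_of_injOn hinj] at h2
      have h3 : (X : ℝ) ≤ |(b.1 : ℝ)| := by
        rw [abs_of_pos (by exact_mod_cast hb1)]
        exact_mod_cast hb.1.1
      have h4 : 2 * (R : ℝ) / |(b.1 : ℝ)| ≤ 2 * R / X := by gcongr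
      have h5 : (1 : ℝ) ≤ R / X := (one_le_div (by linarith)).2 hRr
      calc (F.card : ℝ) ≤ 2 * R / X + R / X := by linarith
        _ = 3 * R / X := by ring)
  have h2 : ((Finset.Ico (X : ℤ) (2 * X) ×ˢ (Finset.Ico (X : ℤ) (2 * X) ×ˢ
      Finset.Ico (X : ℤ) (2 * X))).card : ℝ) = (X : ℝ) * (X * X) := by
    rw [Finset.card_product, Finset.card_product, Int.card_Ico]
    have : (2 * (X : ℤ) - X).toNat = X := by omega
    rw [this]
    push_cast
    ring
  rw [h2] at h1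
  have hX0 : (X : ℝ) ≠ 0 := by positivity
  have h3 : 3 * (R : ℝ) / X * (X * (X * X)) = 3 * R * X * X := by
    field_simp
  rw [h3] at h1
  have h4 : 3 * (R : ℝ) * X * X ≤ 3 * R * R * X := by gcongr
  calc _ ≤ 3 * (R : ℝ) * X * X := h1
    _ ≤ _ := h4
    _ = _ := by ring

private theorem fibre_uv {X R : ℕ} {s : (ℤ × ℤ) × (ℤ × ℤ)} (hs : s ∈ Qd X R) :
    let a := s.1.1 + s.1.2 - (s.2.1 + s.2.2)
    let v := s.2.1 + s.2.2
    let u := s.2.1 - s.2.2
    let d := s.1.1 - s.1.2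
    (-(X : ℤ) < u ∧ u < X) ∧ (-(X : ℤ) < d ∧ d < X) ∧ (2 * (X : ℤ) ≤ v ∧ v < 4 * X) ∧
      |a| ≤ (R : ℤ) ∧ |2 * a * v + (a ^ 2 - (d ^ 2 - u ^ 2))| ≤ 4 * (R : ℤ) := by
  obtain ⟨h1, h2, h3, h4, h5, h6⟩ := mem_Qd hs
  intro a v u d
  refine ⟨⟨by simp only [u]; linarith, by simp only [u]; linarith⟩,
    ⟨by simp only [d]; linarith, by simp only [d]; linarith⟩,
    ⟨by simp only [v]; linarith, by simp only [v]; linarith⟩, h6, ?_⟩
  have : 2 * a * v + (a ^ 2 - (d ^ 2 - u ^ 2)) = 4 * (s.1.1 * s.1.2 - s.2.1 * s.2.2) := by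
    simp only [a, v, u, d]; ring
  rw [this, abs_mul]
  norm_num
  exact h5

/-- the quadruples with given `a` -/
private theorem fibre_a (X R : ℕ) (C ε : ℝ)
    (hp : ∀ X B : ℕ, 1 ≤ X → 1 ≤ B →
      (((Finset.Ioo (-(X : ℤ)) X ×ˢ Finset.Ioo (-(X : ℤ)) X).filter
      (fun p : ℤ × ℤ => |p.2 ^ 2 - p.1 ^ 2| ≤ (B : ℤ))).card : ℝ) ≤
      4 * X + C * (X : ℝ) ^ ε * B) (hX : 1 ≤ X) (a : ℤ) (B : ℕ) (hB : 1 ≤ B) (K : ℝ)
    (hBa : ∀ s ∈ Qd X R, s.1.1 + s.1.2 - (s.2.1 + s.2.2) = a →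
      |(s.1.1 - s.1.2) ^ 2 - (s.2.1 - s.2.2) ^ 2| ≤ (B : ℤ))
    (hK : ∀ p : ℤ × ℤ, ((((Qd X R).filter
      (fun s => s.1.1 + s.1.2 - (s.2.1 + s.2.2) = a ∧ (s.2.1 - s.2.2, s.1.1 - s.1.2) = p)).image
        (fun s => s.2.1 + s.2.2)).card : ℝ) ≤ K) (hK0 : 0 ≤ K) :
    (((Qd X R).filter (fun s => s.1.1 + s.1.2 - (s.2.1 + s.2.2) = a)).card : ℝ) ≤
      K * (4 * X + C * (X : ℝ) ^ ε * B) := by
  have h1 := card_le_real ((Qd X R).filter (fun s => s.1.1 + s.1.2 - (s.2.1 + s.2.2) = a))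
    (fun s => (s.2.1 - s.2.2, s.1.1 - s.1.2))
    ((Finset.Ioo (-(X : ℤ)) X ×ˢ Finset.Ioo (-(X : ℤ)) X).filter
      (fun p : ℤ × ℤ => |p.2 ^ 2 - p.1 ^ 2| ≤ (B : ℤ)))
    (fun s hs => by
      obtain ⟨h1, h2⟩ := Finset.mem_filter.1 hs
      have h3 := fibre_uv h1
      rw [Finset.mem_filter, Finset.mem_product, Finset.mem_Ioo, Finset.mem_Ioo]
      exact ⟨⟨h3.1, h3.2.1⟩, hBa s h1 h2⟩) K (fun p _ => by
      have h2 := hK p
      rw [Finset.card_image_of_injOn] at h2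
      · rw [Finset.filter_filter]
        exact h2
      · intro s hs s' hs' h
        obtain ⟨_, e1, e2⟩ := Finset.mem_filter.1 (Finset.mem_coe.1 hs)
        obtain ⟨_, e1', e2'⟩ := Finset.mem_filter.1 (Finset.mem_coe.1 hs')
        have e3 := e2.trans e2'.symm
        simp only [Prod.mk.injEq] at e3
        simp only at h
        obtain ⟨e4, e5⟩ := e3
        apply Prod.ext <;> apply Prod.ext <;> omega)
  exact h1.trans (mul_le_mul_of_nonneg_left (hp X B hX hB) hK0)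

theorem two_count (ε : ℝ) (hε : 0 < ε) : ∃ C : ℝ, 0 < C ∧ ∀ X R : ℕ, 1 ≤ X → 1 ≤ R →
    ((((Finset.Ico (X : ℤ) (2 * X) ×ˢ Finset.Ico (X : ℤ) (2 * X)) ×ˢ
      (Finset.Ico (X : ℤ) (2 * X) ×ˢ Finset.Ico (X : ℤ) (2 * X))).filter (fun s : (ℤ × ℤ) × (ℤ × ℤ) =>
        |s.1.1 * s.1.2 - s.2.1 * s.2.2| ≤ (R : ℤ) ∧ |s.1.1 + s.1.2 - (s.2.1 + s.2.2)| ≤ (R : ℤ))).card : ℝ) ≤
      C * (X : ℝ) ^ ε * ((X : ℝ) ^ 2 + (R : ℝ) ^ 2 * X) := by
  obtain ⟨C, hC, hp⟩ := pairs_count ε hε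
  refine ⟨300 * C, by linarith, fun X R hX hR => ?_⟩
  change ((Qd X R).card : ℝ) ≤ _
  have hXr : (1 : ℝ) ≤ X := by exact_mod_cast hX
  have hRr : (1 : ℝ) ≤ R := by exact_mod_cast hR
  have hXe : (1 : ℝ) ≤ (X : ℝ) ^ ε := Real.one_le_rpow hXr hε.le
  have hCX : 1 ≤ C * (X : ℝ) ^ ε := by nlinarith
  by_cases hXR : X < R
  · have h1 := big_R X R hX hXR
    have h2 : 0 ≤ (X : ℝ) ^ 2 + (R : ℝ) ^ 2 * X := by positivity
    have h3 : 3 * (R : ℝ) ^ 2 * X ≤ 300 * ((X : ℝ) ^ 2 + (R : ℝ) ^ 2 * X) := by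
      have : 0 ≤ (R : ℝ) ^ 2 * X := by positivity
      nlinarith [sq_nonneg (X : ℝ)]
    calc ((Qd X R).card : ℝ) ≤ 3 * (R : ℝ) ^ 2 * X := h1
      _ ≤ 300 * ((X : ℝ) ^ 2 + (R : ℝ) ^ 2 * X) := h3
      _ = 1 * (300 * ((X : ℝ) ^ 2 + (R : ℝ) ^ 2 * X)) := by ring
      _ ≤ (C * (X : ℝ) ^ ε) * (300 * ((X : ℝ) ^ 2 + (R : ℝ) ^ 2 * X)) := by gcongr
      _ = _ := by ring
  have hRX : R ≤ X := not_lt.1 hXR
  have hRXr : (R : ℝ) ≤ X := by exact_mod_cast hRX
  have hsplit : ((Qd X R).card : ℝ) =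
      (((Qd X R).filter (fun s => s.1.1 + s.1.2 - (s.2.1 + s.2.2) = 0)).card : ℝ) +
      (((Qd X R).filter (fun s => ¬ s.1.1 + s.1.2 - (s.2.1 + s.2.2) = 0)).card : ℝ) := by
    exact_mod_cast (Finset.card_filter_add_card_filter_not (s := Qd X R)
      (fun s => s.1.1 + s.1.2 - (s.2.1 + s.2.2) = 0)).symm
  have h0 : (((Qd X R).filter (fun s => s.1.1 + s.1.2 - (s.2.1 + s.2.2) = 0)).card : ℝ) ≤
      16 * (C * (X : ℝ) ^ ε) * (X : ℝ) ^ 2 := by
    have h1 := fibre_a X R C ε hp hX 0 (4 * R) (by omega) (2 * X) (fun s hs ha => by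
        have h2 := (fibre_uv hs).2.2.2.2
        simp only [ha] at h2
        rw [mul_zero, zero_mul, zero_add, zero_pow two_ne_zero, zero_sub, abs_neg] at h2
        push_cast
        exact h2) (fun p => by
        have hsub : (((Qd X R).filter (fun s => s.1.1 + s.1.2 - (s.2.1 + s.2.2) = 0 ∧
            (s.2.1 - s.2.2, s.1.1 - s.1.2) = p)).image
            (fun s => s.2.1 + s.2.2)) ⊆ Finset.Ico (2 * (X : ℤ)) (4 * X) := by
          intro v hv
          obtain ⟨s, hs, rfl⟩ := Finset.mem_image.1 hv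
          rw [Finset.mem_Ico]
          exact (fibre_uv (Finset.mem_filter.1 hs).1).2.2.1
        have h2 := Finset.card_le_card hsub
        rw [Int.card_Ico] at h2
        have h3 : (4 * (X : ℤ) - 2 * X).toNat = 2 * X := by omega
        rw [h3] at h2
        exact_mod_cast h2) (by positivity)
    push_cast at h1
    have h2 : 2 * (X : ℝ) * (4 * X + C * (X : ℝ) ^ ε * (4 * R)) ≤
        2 * X * (4 * ((C * (X : ℝ) ^ ε) * X) + C * (X : ℝ) ^ ε * (4 * X)) := by
      gcongr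
      nlinarith
    calc _ ≤ _ := h1
      _ ≤ _ := h2
      _ = _ := by ring
  have h1 : (((Qd X R).filter (fun s => ¬ s.1.1 + s.1.2 - (s.2.1 + s.2.2) = 0)).card : ℝ) ≤
      270 * (C * (X : ℝ) ^ ε) * ((R : ℝ) ^ 2 * X) := by
    have h2 := card_le_real ((Qd X R).filter (fun s => ¬ s.1.1 + s.1.2 - (s.2.1 + s.2.2) = 0))
      (fun s => s.1.1 + s.1.2 - (s.2.1 + s.2.2)) (Finset.Icc (-(R : ℤ)) R) (fun s hs => by
        have := (fibre_uv (Finset.mem_filter.1 hs).1).2.2.2.1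
        exact Finset.mem_Icc.2 (abs_le.1 this)) (90 * (C * (X : ℝ) ^ ε) * (R * X)) (fun a ha => by
        by_cases ha0 : a = 0
        · have : (((Qd X R).filter (fun s => ¬ s.1.1 + s.1.2 - (s.2.1 + s.2.2) = 0)).filter
              (fun s => s.1.1 + s.1.2 - (s.2.1 + s.2.2) = a)) = ∅ := by
            rw [Finset.filter_filter, Finset.filter_eq_empty_iff]
            rintro s _ ⟨h1, h2⟩
            exact h1 (h2.trans ha0)
          rw [this]
          simp
          positivity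
        have hsub : (((Qd X R).filter (fun s => ¬ s.1.1 + s.1.2 - (s.2.1 + s.2.2) = 0)).filter
              (fun s => s.1.1 + s.1.2 - (s.2.1 + s.2.2) = a)) ⊆
            (Qd X R).filter (fun s => s.1.1 + s.1.2 - (s.2.1 + s.2.2) = a) := by
          rw [Finset.filter_filter]
          exact Finset.monotone_filter_right _ (fun s _ h => h.2)
        have ha1 : 1 ≤ a.natAbs := Int.natAbs_pos.2 ha0
        have haR : a.natAbs ≤ R := by
          rw [Finset.mem_Icc] at ha; omega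
        have hna : ((a.natAbs : ℕ) : ℤ) = |a| := Int.natCast_natAbs a
        have h3 := fibre_a X R C ε hp hX a (14 * a.natAbs * X) (by
            have := Nat.mul_le_mul ha1 hX
            nlinarith) (5 * R / |(a : ℝ)|)
          (fun s hs hsa => by
            obtain ⟨_, _, h4, h5, h6⟩ := fibre_uv hs
            simp only [hsa] at h6 h5
            push_cast
            set v := s.2.1 + s.2.2 with hv
            set D := (s.1.1 - s.1.2) ^ 2 - (s.2.1 - s.2.2) ^ 2 with hD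
            have hRX' : (R : ℤ) ≤ X := by exact_mod_cast hRX
            have ha1' : 1 ≤ |a| := by rw [← hna]; exact_mod_cast ha1
            have hX' : (1 : ℤ) ≤ X := by exact_mod_cast hX
            have e1 : D = 2 * a * v + a ^ 2 - (2 * a * v + (a ^ 2 - D)) := by ring
            have e2 : |D| ≤ |a * (2 * v + a)| + 4 * R := by
              calc |D| = |a * (2 * v + a) - (2 * a * v + (a ^ 2 - D))| := by
                    congr 1; ring
                _ ≤ |a * (2 * v + a)| + |2 * a * v + (a ^ 2 - D)| := abs_sub _ _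
                _ ≤ _ := by linarith
            have e3 : |2 * v + a| ≤ 10 * X := by
              rw [abs_le]
              rw [abs_le] at h5
              constructor <;> linarith
            rw [abs_mul] at e2
            have e4 : |a| * |2 * v + a| ≤ |a| * (10 * X) := by gcongr
            nlinarith)
          (fun p => by
            have h4 := interval_count (((Qd X R).filter (fun s =>
              s.1.1 + s.1.2 - (s.2.1 + s.2.2) = a ∧
              (s.2.1 - s.2.2, s.1.1 - s.1.2) = p)).image (fun s => s.2.1 + s.2.2))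
              (2 * a) (a ^ 2 - (p.2 ^ 2 - p.1 ^ 2)) (4 * R) (by omega) (fun v hv => by
                obtain ⟨s, hs, rfl⟩ := Finset.mem_image.1 hv
                obtain ⟨e1, e2, e3⟩ := Finset.mem_filter.1 hs
                have e4 := (fibre_uv e1).2.2.2.2
                simp only [e2] at e4
                rw [← e3]
                push_cast
                exact e4)
            refine h4.trans ?_
            have hap : 0 < |(a : ℝ)| := abs_pos.2 (by exact_mod_cast ha0)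
            have haR' : |(a : ℝ)| ≤ R := by
              have : ((a.natAbs : ℕ) : ℝ) = |(a : ℝ)| := by
                rw [Nat.cast_natAbs]; simp
              rw [← this]; exact_mod_cast haR
            push_cast
            rw [abs_mul, abs_of_pos (by norm_num : (0 : ℝ) < 2)]
            have e5 : (1 : ℝ) ≤ R / |(a : ℝ)| := (one_le_div hap).2 haR'
            calc 2 * (4 * (R : ℝ)) / (2 * |(a : ℝ)|) + 1 = 4 * (R / |(a : ℝ)|) + 1 := by
                  field_simp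
              _ ≤ 4 * (R / |(a : ℝ)|) + R / |(a : ℝ)| := by linarith
              _ = 5 * R / |(a : ℝ)| := by ring) (by positivity)
        have hap : 0 < |(a : ℝ)| := abs_pos.2 (by exact_mod_cast ha0)
        have hap1 : 1 ≤ |(a : ℝ)| := by
          have : ((a.natAbs : ℕ) : ℝ) = |(a : ℝ)| := by
            rw [Nat.cast_natAbs]; simp
          rw [← this]; exact_mod_cast ha1
        have hcst : ((14 * a.natAbs * X : ℕ) : ℝ) = 14 * |(a : ℝ)| * X := by
          push_cast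
          rw [Nat.cast_natAbs]; simp
        rw [hcst] at h3
        have e6 : 4 * (X : ℝ) + C * (X : ℝ) ^ ε * (14 * |(a : ℝ)| * X) ≤
            18 * (C * (X : ℝ) ^ ε) * X * |(a : ℝ)| := by
          have e7 : (X : ℝ) ≤ (C * (X : ℝ) ^ ε) * X * |(a : ℝ)| := by
            calc (X : ℝ) = 1 * X * 1 := by ring
              _ ≤ (C * (X : ℝ) ^ ε) * X * |(a : ℝ)| := by gcongr
          nlinarith
        calc _ ≤ (((Qd X R).filter (fun s => s.1.1 + s.1.2 - (s.2.1 + s.2.2) = a)).card : ℝ) := by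
              exact_mod_cast Finset.card_le_card hsub
          _ ≤ _ := h3
          _ ≤ 5 * R / |(a : ℝ)| * (18 * (C * (X : ℝ) ^ ε) * X * |(a : ℝ)|) := by gcongr
          _ = 90 * (C * (X : ℝ) ^ ε) * (R * X) := by
              field_simp
              ring)
    have h3 : ((Finset.Icc (-(R : ℤ)) R).card : ℝ) ≤ 3 * R := by
      rw [Int.card_Icc]
      have : ((R : ℤ) + 1 - -(R : ℤ)).toNat ≤ 3 * R := by omega
      exact_mod_cast this
    calc _ ≤ 90 * (C * (X : ℝ) ^ ε) * (R * X) * ((Finset.Icc (-(R : ℤ)) R).card : ℝ) := h2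
      _ ≤ 90 * (C * (X : ℝ) ^ ε) * (R * X) * (3 * R) := by gcongr
      _ = _ := by ring
  have hpos1 : 0 ≤ (C * (X : ℝ) ^ ε) * (X : ℝ) ^ 2 := by positivity
  have hpos2 : 0 ≤ (C * (X : ℝ) ^ ε) * ((R : ℝ) ^ 2 * X) := by positivity
  rw [hsplit]
  nlinarith

end Pool.Agent.P07318s
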