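import Pool.Agent.Lib.P07318s.Defs
import Pool.Agent.Lib.P07318s.HiDefs

/-!
The test function for two factors: frequencies `(x, 1/(x+1))`, `X ≤ x < 2X`.
-/

set_option autoImplicit false

namespace Pool.Agent.P07318s

open MeasureTheory Complex

/-- the tuple `(x, x + 1)` -/
def tw (x : ℕ+) : Fin 2 → ℕ+ := ![x, x + 1]

open Classical in
/-- the set of frequencies -/
noncomputable def S2 (X : ℕ+) : Finset (Fin 2 → ℕ+) := (Finset.Ico X (2 * X)).image tw

/-- the signs -/
def sg2 : Fin 2 → Bool := ![true, false]

end Pool.Agent.P07318s
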