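import Pool.Agent.Lib.P07318s.Defs
import Pool.Agent.Lib.P07318s.HiDefs
import Pool.Agent.Lib.P07318s.TwoDefs
import Pool.Agent.Lib.P07318s.IntP4
import Pool.Agent.Lib.P07318s.GaussOrth
import Pool.Agent.Lib.P07318s.TwoCount

/-!
Fourth moment for two factors, up to `T^(2/3)`. As `IntP4.lean` (proved; `PS_sq`, `exp_dec`, `prod_le_one_term`): `‖PT‖⁴ = ‖PT²‖²`, `PT² = ∑_{(x,y) ∈ [X,2X)²} exp(i(α_0 f_0 + α_1 f_1))`,
`f_0 = -log(xy)`, `f_1 = log((x+1)(y+1))`. `gauss_orth` (`k = 2`, coefficients 1): `≤ 9 T² ∑_{(x,y),(z,w)} exp(-T² l_0²/4) exp(-T² l_1²/4)`, `l_0 = log(xy) - log(zw)`, `l_1 = log((x+1)(y+1)) - log((z+1)(w+1))`.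
Let `ε' = min(ε, δ)/2` and `R = ⌈4 X² T^(-1+ε')⌉ ≥ 1`. If `|xy - zw| > R` then `|l_0| ≥ |xy - zw| / max(xy, zw) ≥ 4 X² T^(-1+ε') / (4X²) = T^(-1+ε')` and the term is `≤ exp(-T^(2ε')/4)`; the same for
`|(x+1)(y+1) - (z+1)(w+1)| > R` (`(x+1)(y+1) ≤ 4X²`); these terms give `≤ X⁴ exp(-T^(2ε')/4) ≤ X² T² exp(-T^(2ε')/4) ≤ C X²`. Otherwise `|x + y - z - w| ≤ 2R`: by `two_count` with `2R` the
number is `≤ C X^(ε/2) (X² + 4R² X)`, `R ≤ 4 X² T^(-1+ε') + 1`, `R² X ≤ 32 X⁵ T^(-2+2ε') + 2X ≤ 32 X² T^(-3δ+2ε') + 2X² ≤ 34 X²` as `X³ ≤ T^(2-3δ)`. `X^(ε/2) ≤ T^ε`.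
`gauss_orth` can be applied to the index set `S ×ˢ S` with `S = Finset.Ico X (2X)` in `ℕ+` or `ℕ` or to pairs of integers, as convenient; `tw` is injective.
-/

set_option autoImplicit false

namespace Pool.Agent.P07318s

open MeasureTheory Complex

namespace TP4

lemma tw_inj : Function.Injective tw := by
  intro x y h
  have := congrFun h 0
  simpa [tw] using this

end TP4

theorem S2_card (X : ℕ+) : (S2 X).card = (X : ℕ) := by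
  classical
  unfold S2
  rw [Finset.card_image_of_injective _ TP4.tw_inj, PNat.card_Ico]
  rw [PNat.mul_coe, PNat.val_ofNat]
  omega

namespace TP4

/-- the frequencies of the test function -/
noncomputable def hz (x : ℤ) (j : Fin 2) : ℝ := ![-(Real.log (x : ℝ)), Real.log ((x + 1 : ℤ) : ℝ)] j

/-- the frequencies of the square of the test function -/
noncomputable def gz (s : ℤ × ℤ) (j : Fin 2) : ℝ :=
  ![-(Real.log ((s.1 * s.2 : ℤ) : ℝ)), Real.log (((s.1 + 1) * (s.2 + 1) : ℤ) : ℝ)] j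

lemma gz_add {x y : ℤ} (hx : 1 ≤ x) (hy : 1 ≤ y) (j : Fin 2) : gz (x, y) j = hz x j + hz y j := by
  have hx' : (0 : ℝ) < (x : ℝ) := by exact_mod_cast (by omega : (0:ℤ) < x)
  have hy' : (0 : ℝ) < (y : ℝ) := by exact_mod_cast (by omega : (0:ℤ) < y)
  have hx1 : (0 : ℝ) < ((x + 1 : ℤ) : ℝ) := by exact_mod_cast (by omega : (0:ℤ) < x + 1)
  have hy1 : (0 : ℝ) < ((y + 1 : ℤ) : ℝ) := by exact_mod_cast (by omega : (0:ℤ) < y + 1)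
  unfold gz hz
  fin_cases j
  · simp only [Fin.zero_eta, Matrix.cons_val_zero]
    rw [Int.cast_mul, Real.log_mul hx'.ne' hy'.ne']
    ring
  · simp only [Fin.mk_one, Matrix.cons_val_one, Matrix.cons_val_fin_one]
    rw [Int.cast_mul, Real.log_mul hx1.ne' hy1.ne']

lemma PT_eq (X : ℕ+) (α : Fin 2 → ℝ) :
    PT sg2 (S2 X) α = ∑ x ∈ Finset.Ico ((X : ℕ) : ℤ) (2 * ((X : ℕ) : ℤ)),
      cexp (((∑ j, α j * hz x j : ℝ) : ℂ) * I) := by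
  classical
  unfold PT S2
  rw [Finset.sum_image (fun x _ y _ h => tw_inj h)]
  refine Finset.sum_nbij' (fun x : ℕ+ => ((x : ℕ) : ℤ)) (fun z : ℤ => Nat.toPNat' z.toNat) ?_ ?_ ?_ ?_ ?_
  · intro x hx
    rw [Finset.mem_Ico] at hx
    rw [Finset.mem_Ico]
    have h1 : (X : ℕ) ≤ (x : ℕ) := hx.1
    have h2 : (x : ℕ) < ((2 * X : ℕ+) : ℕ) := hx.2
    rw [PNat.mul_coe, PNat.val_ofNat] at h2
    omega
  · intro z hz
    rw [Finset.mem_Ico] at hz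
    have hX := X.pos
    have hz0 : 0 < z.toNat := by omega
    rw [Finset.mem_Ico, ← PNat.coe_le_coe, ← PNat.coe_lt_coe, Nat.toPNat'_coe, if_pos hz0, PNat.mul_coe, PNat.val_ofNat]
    omega
  · intro x _
    apply PNat.coe_injective
    rw [Nat.toPNat'_coe, Int.toNat_natCast, if_pos x.pos]
  · intro z hz
    rw [Finset.mem_Ico] at hz
    have hX := X.pos
    have hz0 : 0 < z.toNat := by omega
    show (((Nat.toPNat' z.toNat : ℕ+) : ℕ) : ℤ) = z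
    rw [Nat.toPNat'_coe, if_pos hz0]
    omega
  · intro x _
    rw [Fin.prod_univ_two, Fin.sum_univ_two]
    unfold ex
    rw [← Complex.exp_add]
    congr 1
    have e0 : lgr (frs sg2 (tw x) 0).1 = Real.log ((x : ℕ) : ℝ) := by
      unfold frs sg2 tw
      simp only [Matrix.cons_val_zero]
      exact lgr_pc_true x
    have e1 : lgr (frs sg2 (tw x) 1).1 = -Real.log ((x : ℕ) + 1 : ℝ) := by
      unfold frs sg2 tw
      simp only [Matrix.cons_val_one, Matrix.cons_val_fin_one]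
      rw [lgr_pc_false, PNat.add_coe]
      push_cast
      rfl
    rw [e0, e1]
    unfold hz
    simp only [Matrix.cons_val_zero, Matrix.cons_val_one, Matrix.cons_val_fin_one]
    push_cast
    ring

lemma PT_sq (X : ℕ+) (α : Fin 2 → ℝ) :
    PT sg2 (S2 X) α ^ 2 = ∑ s ∈ Finset.Ico ((X : ℕ) : ℤ) (2 * ((X : ℕ) : ℤ)) ×ˢ Finset.Ico ((X : ℕ) : ℤ) (2 * ((X : ℕ) : ℤ)),
      (1 : ℂ) * cexp (((∑ j, α j * gz s j : ℝ) : ℂ) * I) := by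
  rw [PT_eq, sq, Finset.sum_mul_sum, Finset.sum_product]
  refine Finset.sum_congr rfl fun x hx => Finset.sum_congr rfl fun y hy => ?_
  rw [one_mul, ← Complex.exp_add]
  congr 1
  rw [← add_mul, ← Complex.ofReal_add]
  rw [Finset.mem_Ico] at hx hy
  have hX := X.pos
  have key : (∑ j, α j * hz x j) + (∑ j, α j * hz y j) = ∑ j, α j * gz (x, y) j := by
    rw [← Finset.sum_add_distrib]
    refine Finset.sum_congr rfl fun j _ => ?_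
    rw [gz_add (by omega) (by omega)]
    ring
  rw [key]

lemma log_gap' {a b M r : ℝ} (ha : 0 < a) (hb : 0 < b) (haM : a ≤ M) (hbM : b ≤ M) (hr0 : 0 ≤ r)
    (hr : r ≤ |a - b|) : r / M ≤ |Real.log a - Real.log b| := by
  have key : ∀ a b : ℝ, 0 < a → 0 < b → a ≤ M → b ≤ a → r ≤ |a - b| → r / M ≤ |Real.log a - Real.log b| := by
    intro a b ha hb haM hba hr
    rw [← Real.log_div ha.ne' hb.ne']
    refine le_trans ?_ (le_abs_self _)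
    have h2 := Real.one_sub_inv_le_log_of_pos (x := a / b) (by positivity)
    refine le_trans ?_ h2
    rw [abs_of_nonneg (by linarith)] at hr
    calc r / M ≤ r / a := div_le_div_of_nonneg_left hr0 ha haM
      _ ≤ (a - b) / a := div_le_div_of_nonneg_right hr ha.le
      _ = 1 - (a / b)⁻¹ := by
          rw [inv_div]
          field_simp
  rcases le_total b a with h | h
  · exact key a b ha hb haM h hr
  · rw [abs_sub_comm] at hr ⊢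
    exact key b a hb ha hbM h hr

lemma term_le {X : ℕ} (hX : 1 ≤ X) {T e R : ℝ} (hT : 1 ≤ T) (hR : 4 * (X : ℝ) ^ 2 * T ^ (-1 + e) ≤ R)
    (s s' : ℤ × ℤ) (hs : s ∈ Finset.Ico (X : ℤ) (2 * X) ×ˢ Finset.Ico (X : ℤ) (2 * X))
    (hs' : s' ∈ Finset.Ico (X : ℤ) (2 * X) ×ˢ Finset.Ico (X : ℤ) (2 * X)) :
    ∏ j, Real.exp (-(T ^ 2 * (gz s j - gz s' j) ^ 2 / 4)) ≤
      (if (|((s.1 * s.2 - s'.1 * s'.2 : ℤ) : ℝ)| ≤ 2 * R ∧ |((s.1 + s.2 - (s'.1 + s'.2) : ℤ) : ℝ)| ≤ 2 * R) then 1 else 0) +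
        Real.exp (-(T ^ (4 * (e / 2)) / 4)) := by
  have hT0 : 0 < T := by linarith
  have hXr : (1:ℝ) ≤ (X : ℝ) := by exact_mod_cast hX
  have hR0 : 0 ≤ R := le_trans (by positivity) hR
  have hg : ∀ i : Fin 2, 0 ≤ Real.exp (-(T ^ 2 * (gz s i - gz s' i) ^ 2 / 4)) ∧
      Real.exp (-(T ^ 2 * (gz s i - gz s' i) ^ 2 / 4)) ≤ 1 := by
    intro i
    refine ⟨(Real.exp_pos _).le, ?_⟩
    rw [Real.exp_le_one_iff]
    have : 0 ≤ T ^ 2 * (gz s i - gz s' i) ^ 2 / 4 := by positivity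
    linarith
  have hE := (Real.exp_pos (-(T ^ (4 * (e / 2)) / 4))).le
  rw [Finset.mem_product, Finset.mem_Ico, Finset.mem_Ico] at hs hs'
  obtain ⟨x, y⟩ := s
  obtain ⟨z, w⟩ := s'
  dsimp only at hs hs' ⊢
  obtain ⟨⟨hx1, hx2⟩, hy1, hy2⟩ := hs
  obtain ⟨⟨hz1, hz2⟩, hw1, hw2⟩ := hs'
  have hX1 : (1:ℤ) ≤ (X : ℤ) := by exact_mod_cast hX
  -- a large gap in one coordinate
  have big : ∀ (j : Fin 2) (a b : ℤ), 0 < a → 0 < b → a ≤ 4 * (X : ℤ) ^ 2 → b ≤ 4 * (X : ℤ) ^ 2 →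
      |gz (x, y) j - gz (z, w) j| = |Real.log (a : ℝ) - Real.log (b : ℝ)| → R < |(a : ℝ) - (b : ℝ)| →
      ∏ j, Real.exp (-(T ^ 2 * (gz (x, y) j - gz (z, w) j) ^ 2 / 4)) ≤ Real.exp (-(T ^ (4 * (e / 2)) / 4)) := by
    intro j a b ha hb haM hbM hab hRab
    refine IP4.prod_le_one_term _ j hg ?_
    rw [Real.exp_le_exp, neg_le_neg_iff]
    have ha' : (0:ℝ) < (a : ℝ) := by exact_mod_cast ha
    have hb' : (0:ℝ) < (b : ℝ) := by exact_mod_cast hb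
    have haM' : (a : ℝ) ≤ 4 * (X : ℝ) ^ 2 := by exact_mod_cast haM
    have hbM' : (b : ℝ) ≤ 4 * (X : ℝ) ^ 2 := by exact_mod_cast hbM
    have hgap := log_gap' ha' hb' haM' hbM' hR0 hRab.le
    rw [← hab] at hgap
    have h1 : T ^ (-1 + e) ≤ |gz (x, y) j - gz (z, w) j| := by
      refine le_trans ?_ hgap
      rw [le_div_iff₀ (by positivity)]
      linarith
    have h2 : (T ^ (-1 + e)) ^ 2 ≤ (gz (x, y) j - gz (z, w) j) ^ 2 := by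
      rw [← sq_abs (gz (x, y) j - gz (z, w) j)]
      exact pow_le_pow_left₀ (by positivity) h1 2
    have h3 : T ^ 2 * (T ^ (-1 + e)) ^ 2 = T ^ (4 * (e / 2)) := by
      rw [← Real.rpow_natCast T 2, ← Real.rpow_natCast (T ^ (-1 + e)) 2,
        ← Real.rpow_mul hT0.le, ← Real.rpow_add hT0]
      congr 1
      push_cast
      ring
    have h4 := mul_le_mul_of_nonneg_left h2 (by positivity : (0:ℝ) ≤ T ^ 2)
    rw [h3] at h4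
    linarith
  by_cases hA : R < |((x * y : ℤ) : ℝ) - ((z * w : ℤ) : ℝ)|
  · have := big 0 (x * y) (z * w) (mul_pos (by omega) (by omega)) (mul_pos (by omega) (by omega))
      (by nlinarith) (by nlinarith) (by
        unfold gz
        simp only [Matrix.cons_val_zero]
        rw [← abs_neg]
        congr 1
        ring) hA
    split_ifs <;> linarith
  by_cases hB : R < |(((x + 1) * (y + 1) : ℤ) : ℝ) - (((z + 1) * (w + 1) : ℤ) : ℝ)|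
  · have := big 1 ((x + 1) * (y + 1)) ((z + 1) * (w + 1)) (mul_pos (by omega) (by omega)) (mul_pos (by omega) (by omega))
      (by
        have h1 : x + 1 ≤ 2 * X := by omega
        have h2 : y + 1 ≤ 2 * X := by omega
        nlinarith) (by
        have h1 : z + 1 ≤ 2 * X := by omega
        have h2 : w + 1 ≤ 2 * X := by omega
        nlinarith) (by
        unfold gz
        simp only [Matrix.cons_val_one, Matrix.cons_val_fin_one]) hB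
    split_ifs <;> linarith
  push Not at hA hB
  have hcond : |((x * y - z * w : ℤ) : ℝ)| ≤ 2 * R ∧ |((x + y - (z + w) : ℤ) : ℝ)| ≤ 2 * R := by
    constructor
    · have e1 : ((x * y - z * w : ℤ) : ℝ) = ((x * y : ℤ) : ℝ) - ((z * w : ℤ) : ℝ) := by push_cast; ring
      rw [e1]
      linarith
    · have e1 : ((x + y - (z + w) : ℤ) : ℝ) = ((((x + 1) * (y + 1) : ℤ) : ℝ) - (((z + 1) * (w + 1) : ℤ) : ℝ)) -
          (((x * y : ℤ) : ℝ) - ((z * w : ℤ) : ℝ)) := by push_cast; ring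
      rw [e1]
      refine (abs_sub _ _).trans ?_
      linarith
  rw [if_pos hcond]
  have : ∏ j, Real.exp (-(T ^ 2 * (gz (x, y) j - gz (z, w) j) ^ 2 / 4)) ≤ 1 :=
    Finset.prod_le_one (fun i _ => (hg i).1) fun i _ => (hg i).2
  linarith

lemma sum_le {X : ℕ} (hX : 1 ≤ X) {T e : ℝ} {R : ℕ} (hT : 1 ≤ T) (hR : 4 * (X : ℝ) ^ 2 * T ^ (-1 + e) ≤ R) :
    ∑ s ∈ Finset.Ico (X : ℤ) (2 * X) ×ˢ Finset.Ico (X : ℤ) (2 * X),
      ∑ s' ∈ Finset.Ico (X : ℤ) (2 * X) ×ˢ Finset.Ico (X : ℤ) (2 * X),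
        ∏ j, Real.exp (-(T ^ 2 * (gz s j - gz s' j) ^ 2 / 4)) ≤
    ((((Finset.Ico (X : ℤ) (2 * X) ×ˢ Finset.Ico (X : ℤ) (2 * X)) ×ˢ
      (Finset.Ico (X : ℤ) (2 * X) ×ˢ Finset.Ico (X : ℤ) (2 * X))).filter (fun s : (ℤ × ℤ) × (ℤ × ℤ) =>
        |s.1.1 * s.1.2 - s.2.1 * s.2.2| ≤ ((2 * R : ℕ) : ℤ) ∧ |s.1.1 + s.1.2 - (s.2.1 + s.2.2)| ≤ ((2 * R : ℕ) : ℤ))).card : ℝ) +
      (X : ℝ) ^ 4 * Real.exp (-(T ^ (4 * (e / 2)) / 4)) := by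
  rw [← Finset.sum_product']
  have h1 : ∀ q ∈ (Finset.Ico (X : ℤ) (2 * X) ×ˢ Finset.Ico (X : ℤ) (2 * X)) ×ˢ
      (Finset.Ico (X : ℤ) (2 * X) ×ˢ Finset.Ico (X : ℤ) (2 * X)),
      ∏ j, Real.exp (-(T ^ 2 * (gz q.1 j - gz q.2 j) ^ 2 / 4)) ≤
        (if (|q.1.1 * q.1.2 - q.2.1 * q.2.2| ≤ ((2 * R : ℕ) : ℤ) ∧
          |q.1.1 + q.1.2 - (q.2.1 + q.2.2)| ≤ ((2 * R : ℕ) : ℤ)) then (1:ℝ) else 0) +
        Real.exp (-(T ^ (4 * (e / 2)) / 4)) := by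
    intro q hq
    rw [Finset.mem_product] at hq
    have h := term_le hX hT hR q.1 q.2 hq.1 hq.2
    have hiff : (|((q.1.1 * q.1.2 - q.2.1 * q.2.2 : ℤ) : ℝ)| ≤ 2 * (R : ℝ) ∧
        |((q.1.1 + q.1.2 - (q.2.1 + q.2.2) : ℤ) : ℝ)| ≤ 2 * (R : ℝ)) ↔
        (|q.1.1 * q.1.2 - q.2.1 * q.2.2| ≤ ((2 * R : ℕ) : ℤ) ∧
          |q.1.1 + q.1.2 - (q.2.1 + q.2.2)| ≤ ((2 * R : ℕ) : ℤ)) := by
      rw [← Int.cast_abs, ← Int.cast_abs]
      constructor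
      · rintro ⟨a, b⟩
        exact ⟨by exact_mod_cast a, by exact_mod_cast b⟩
      · rintro ⟨a, b⟩
        exact ⟨by exact_mod_cast a, by exact_mod_cast b⟩
    simp only [hiff] at h
    exact h
  refine (Finset.sum_le_sum h1).trans ?_
  rw [Finset.sum_add_distrib, Finset.sum_boole, Finset.sum_const, nsmul_eq_mul]
  refine add_le_add le_rfl (le_of_eq ?_)
  congr 1
  rw [Finset.card_product, Finset.card_product, Int.card_Ico]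
  have : (2 * (X : ℤ) - X).toNat = X := by omega
  rw [this]
  push_cast
  ring

end TP4

open TP4 in
theorem two_P4 (δ ε : ℝ) (hδ : 0 < δ) (hε : 0 < ε) : ∃ C : ℝ, 0 < C ∧ ∀ (T : ℝ) (β : Fin 2 → ℝ) (X : ℕ+), 1 ≤ T →
    ((X : ℕ) : ℝ) ≤ T ^ (2 / 3 - δ) →
    ∫ α in Set.Icc β (fun j => β j + T), ‖PT sg2 (S2 X) α‖ ^ 4 ≤ C * T ^ ((2 : ℝ) + ε) * ((X : ℕ) : ℝ) ^ 2 := by
  obtain ⟨C1, hC1, hcount⟩ := two_count ε hε
  set e : ℝ := min ε δ / 2 with he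
  have he0 : 0 < e := by
    rw [he]
    have := lt_min hε hδ
    linarith
  have heδ : 2 * e ≤ δ := by
    rw [he]
    have := min_le_right ε δ
    linarith
  obtain ⟨E, hE0, hE⟩ := IP4.exp_dec 2 (e / 2) (by linarith)
  refine ⟨9 * (137 * C1 + E), by positivity, fun T β X hT hXT => ?_⟩
  have hT0 : 0 < T := by linarith
  have hX1 : 1 ≤ (X : ℕ) := X.pos
  have hXr : (1:ℝ) ≤ ((X : ℕ) : ℝ) := by exact_mod_cast hX1
  set R : ℕ := ⌈4 * ((X : ℕ) : ℝ) ^ 2 * T ^ (-1 + e)⌉₊ with hRdef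
  have hR : 4 * ((X : ℕ) : ℝ) ^ 2 * T ^ (-1 + e) ≤ (R : ℝ) := Nat.le_ceil _
  have hRpos : 0 < 4 * ((X : ℕ) : ℝ) ^ 2 * T ^ (-1 + e) := by positivity
  have hR1 : 1 ≤ R := Nat.ceil_pos.2 hRpos
  have hR2 : (R : ℝ) ≤ 4 * ((X : ℕ) : ℝ) ^ 2 * T ^ (-1 + e) + 1 := (Nat.ceil_lt_add_one hRpos.le).le
  have hmain := gauss_orth 2 (Finset.Ico ((X : ℕ) : ℤ) (2 * ((X : ℕ) : ℤ)) ×ˢ Finset.Ico ((X : ℕ) : ℤ) (2 * ((X : ℕ) : ℤ)))
    gz (fun _ => (1:ℂ)) T hT0 β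
  have e1 : ∀ α : Fin 2 → ℝ, ‖∑ s ∈ Finset.Ico ((X : ℕ) : ℤ) (2 * ((X : ℕ) : ℤ)) ×ˢ Finset.Ico ((X : ℕ) : ℤ) (2 * ((X : ℕ) : ℤ)),
      (1:ℂ) * cexp (((∑ j, α j * gz s j : ℝ) : ℂ) * I)‖ ^ 2 = ‖PT sg2 (S2 X) α‖ ^ 4 := by
    intro α
    rw [← PT_sq, norm_pow]
    ring
  simp_rw [e1] at hmain
  refine hmain.trans ?_
  simp only [norm_one, mul_one, one_mul]
  have hs := sum_le hX1 hT hR
  have hc := hcount (X : ℕ) (2 * R) hX1 (by omega)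
  -- the numbers
  have hXT' : ((X : ℕ) : ℝ) ≤ T := by
    refine hXT.trans ?_
    calc T ^ (2 / 3 - δ) ≤ T ^ (1:ℝ) := Real.rpow_le_rpow_of_exponent_le hT (by linarith)
      _ = T := Real.rpow_one T
  have h3 : ((X : ℕ) : ℝ) ^ 3 * T ^ (-2 + 2 * e) ≤ 1 := by
    calc ((X : ℕ) : ℝ) ^ 3 * T ^ (-2 + 2 * e) ≤ (T ^ (2 / 3 - δ)) ^ 3 * T ^ (-2 + 2 * e) :=
          mul_le_mul_of_nonneg_right (pow_le_pow_left₀ (by positivity) hXT 3) (by positivity)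
      _ = T ^ (-(3 * δ) + 2 * e) := by
          rw [← Real.rpow_natCast (T ^ (2 / 3 - δ)) 3, ← Real.rpow_mul hT0.le, ← Real.rpow_add hT0]
          congr 1
          push_cast
          ring
      _ ≤ 1 := Real.rpow_le_one_of_one_le_of_nonpos hT (by linarith)
  have hRR : (R : ℝ) ^ 2 ≤ 32 * ((X : ℕ) : ℝ) ^ 4 * T ^ (-2 + 2 * e) + 2 := by
    have h5 : (T ^ (-1 + e)) ^ 2 = T ^ (-2 + 2 * e) := by
      rw [← Real.rpow_natCast (T ^ (-1 + e)) 2, ← Real.rpow_mul hT0.le]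
      congr 1
      push_cast
      ring
    have h6 : (R : ℝ) ^ 2 ≤ (4 * ((X : ℕ) : ℝ) ^ 2 * T ^ (-1 + e) + 1) ^ 2 :=
      pow_le_pow_left₀ (by positivity) hR2 2
    have h7 : (4 * ((X : ℕ) : ℝ) ^ 2 * T ^ (-1 + e) + 1) ^ 2 ≤ 2 * (4 * ((X : ℕ) : ℝ) ^ 2 * T ^ (-1 + e)) ^ 2 + 2 := by
      nlinarith [sq_nonneg (4 * ((X : ℕ) : ℝ) ^ 2 * T ^ (-1 + e) - 1)]
    calc (R : ℝ) ^ 2 ≤ 2 * (4 * ((X : ℕ) : ℝ) ^ 2 * T ^ (-1 + e)) ^ 2 + 2 := h6.trans h7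
      _ = 32 * ((X : ℕ) : ℝ) ^ 4 * T ^ (-2 + 2 * e) + 2 := by
          rw [← h5]
          ring
  have hRX : (R : ℝ) ^ 2 * ((X : ℕ) : ℝ) ≤ 34 * ((X : ℕ) : ℝ) ^ 2 := by
    calc (R : ℝ) ^ 2 * ((X : ℕ) : ℝ) ≤ (32 * ((X : ℕ) : ℝ) ^ 4 * T ^ (-2 + 2 * e) + 2) * ((X : ℕ) : ℝ) :=
          mul_le_mul_of_nonneg_right hRR (by positivity)
      _ = 32 * ((X : ℕ) : ℝ) ^ 2 * (((X : ℕ) : ℝ) ^ 3 * T ^ (-2 + 2 * e)) + 2 * ((X : ℕ) : ℝ) := by ring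
      _ ≤ 32 * ((X : ℕ) : ℝ) ^ 2 * 1 + 2 * ((X : ℕ) : ℝ) := by
          have := mul_le_mul_of_nonneg_left h3 (by positivity : (0:ℝ) ≤ 32 * ((X : ℕ) : ℝ) ^ 2)
          linarith
      _ ≤ 34 * ((X : ℕ) : ℝ) ^ 2 := by nlinarith
  have hXe : ((X : ℕ) : ℝ) ^ ε ≤ T ^ ε := Real.rpow_le_rpow (by positivity) hXT' hε.le
  have hc2 : C1 * ((X : ℕ) : ℝ) ^ ε * (((X : ℕ) : ℝ) ^ 2 + ((2 * R : ℕ) : ℝ) ^ 2 * ((X : ℕ) : ℝ)) ≤
      137 * C1 * T ^ ε * ((X : ℕ) : ℝ) ^ 2 := by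
    calc C1 * ((X : ℕ) : ℝ) ^ ε * (((X : ℕ) : ℝ) ^ 2 + ((2 * R : ℕ) : ℝ) ^ 2 * ((X : ℕ) : ℝ))
        ≤ C1 * T ^ ε * (137 * ((X : ℕ) : ℝ) ^ 2) := by
          refine mul_le_mul (mul_le_mul_of_nonneg_left hXe hC1.le) ?_ (by positivity) (by positivity)
          push_cast
          nlinarith
      _ = 137 * C1 * T ^ ε * ((X : ℕ) : ℝ) ^ 2 := by ring
  have hexp : ((X : ℕ) : ℝ) ^ 4 * Real.exp (-(T ^ (4 * (e / 2)) / 4)) ≤ E * ((X : ℕ) : ℝ) ^ 2 := by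
    have h8 := hE T hT
    have h9 : ((X : ℕ) : ℝ) ^ 2 ≤ T ^ 2 := pow_le_pow_left₀ (by positivity) hXT' 2
    calc ((X : ℕ) : ℝ) ^ 4 * Real.exp (-(T ^ (4 * (e / 2)) / 4))
        = ((X : ℕ) : ℝ) ^ 2 * (((X : ℕ) : ℝ) ^ 2 * Real.exp (-(T ^ (4 * (e / 2)) / 4))) := by ring
      _ ≤ ((X : ℕ) : ℝ) ^ 2 * E := by
          refine mul_le_mul_of_nonneg_left ?_ (by positivity)
          exact (mul_le_mul_of_nonneg_right h9 (Real.exp_pos _).le).trans h8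
      _ = E * ((X : ℕ) : ℝ) ^ 2 := by ring
  have h10 : (1:ℝ) ≤ T ^ ε := Real.one_le_rpow hT hε.le
  have h11 : T ^ ((2 : ℝ) + ε) = T ^ 2 * T ^ ε := by
    rw [Real.rpow_add hT0, Real.rpow_ofNat]
  have hfin := hs.trans (add_le_add (hc.trans hc2) hexp)
  calc (3:ℝ) ^ 2 * T ^ 2 * ∑ s ∈ Finset.Ico ((X : ℕ) : ℤ) (2 * ((X : ℕ) : ℤ)) ×ˢ Finset.Ico ((X : ℕ) : ℤ) (2 * ((X : ℕ) : ℤ)),
        ∑ s' ∈ Finset.Ico ((X : ℕ) : ℤ) (2 * ((X : ℕ) : ℤ)) ×ˢ Finset.Ico ((X : ℕ) : ℤ) (2 * ((X : ℕ) : ℤ)),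
          ∏ j, Real.exp (-(T ^ 2 * (gz s j - gz s' j) ^ 2 / 4))
      ≤ (3:ℝ) ^ 2 * T ^ 2 * (137 * C1 * T ^ ε * ((X : ℕ) : ℝ) ^ 2 + E * ((X : ℕ) : ℝ) ^ 2) :=
        mul_le_mul_of_nonneg_left hfin (by positivity)
    _ ≤ (3:ℝ) ^ 2 * T ^ 2 * (137 * C1 * T ^ ε * ((X : ℕ) : ℝ) ^ 2 + E * T ^ ε * ((X : ℕ) : ℝ) ^ 2) := by
        refine mul_le_mul_of_nonneg_left ?_ (by positivity)
        refine add_le_add le_rfl ?_
        refine mul_le_mul_of_nonneg_right ?_ (by positivity)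
        nlinarith
    _ = 9 * (137 * C1 + E) * T ^ ((2 : ℝ) + ε) * ((X : ℕ) : ℝ) ^ 2 := by
        rw [h11]
        ring

end Pool.Agent.P07318s
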