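import Pool.Agent.Lib.P07318s.Defs
import Pool.Agent.Lib.P07318s.HiDefs
import Pool.Agent.Lib.P07318s.TwoDefs
import Pool.Agent.Lib.P07318s.HiMain
import Pool.Agent.Lib.P07318s.HiP4
import Pool.Agent.Lib.P07318s.TwoP4
import Pool.Agent.Lib.P07318s.LowAbs

/-!
Lower bound for two factors, `V ≤ T^(2/3-δ)`, by `low_abs` (proved) with `k = 2`, `P = PT sg2 (S2 X)`, `X = ⌈V⌉ ≤ 2V`, `N = X`, `c0 = 1/4`: `W = ∑_{X ≤ x < 2X} (x(x+1))^(-1/2) ≥ X/(2X) = 1/2`,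
`V^(1/2) N^(1/2) ≤ √2 V`. `lams sg2 (tw x) = log x - log(x+1)`, nonzero, of modulus `≤ 1/x ≤ 1/V`. Sizes `x, x + 1 ≤ 2X ≤ 4V ≤ 4 T^(2/3) ≤ T^(3/4)` for `T` large: `low_main_hi 2 (1/4)`. Fourth moment:
`two_P4 (δ/2) e` (`X ≤ 2 T^(2/3-δ) ≤ T^(2/3-δ/2)` for `T` large). `V ≤ T^(2/3-δ) ≤ T^(1-1/3)`: use `low_abs` with `δ := 1/3`. Continuity: `PT_continuous` (in `HiP4.lean`).
-/

set_option autoImplicit false

namespace Pool.Agent.P07318s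

open MeasureTheory Complex

namespace TwoFinalAux

theorem lams_tw (x : ℕ+) :
    lams sg2 (tw x) = Real.log ((x : ℕ) : ℝ) - Real.log (((x : ℕ) : ℝ) + 1) := by
  have h0 : lgr (frs sg2 (tw x) 0).1 = Real.log ((x : ℕ) : ℝ) := lgr_pc_true x
  have h1 : lgr (frs sg2 (tw x) 1).1 = -Real.log (((x + 1 : ℕ+) : ℕ) : ℝ) := lgr_pc_false (x + 1)
  unfold lams lam
  rw [Fin.sum_univ_two, h0, h1]
  push_cast
  ring

theorem lams_ne (x : ℕ+) : lams sg2 (tw x) ≠ 0 := by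
  rw [lams_tw]
  have hx : (0 : ℝ) < ((x : ℕ) : ℝ) := by exact_mod_cast x.pos
  have := Real.log_lt_log hx (by linarith : ((x : ℕ) : ℝ) < ((x : ℕ) : ℝ) + 1)
  linarith

theorem lams_abs (x : ℕ+) : |lams sg2 (tw x)| ≤ 1 / ((x : ℕ) : ℝ) := by
  rw [lams_tw]
  have hx : (0 : ℝ) < ((x : ℕ) : ℝ) := by exact_mod_cast x.pos
  have h1 := Real.log_lt_log hx (by linarith : ((x : ℕ) : ℝ) < ((x : ℕ) : ℝ) + 1)
  rw [abs_of_neg (by linarith)]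
  have h2 : -(Real.log ((x : ℕ) : ℝ) - Real.log (((x : ℕ) : ℝ) + 1)) =
      Real.log ((((x : ℕ) : ℝ) + 1) / ((x : ℕ) : ℝ)) := by
    rw [Real.log_div (by positivity) hx.ne']
    ring
  rw [h2]
  have h3 := Real.log_le_sub_one_of_pos
    (x := (((x : ℕ) : ℝ) + 1) / ((x : ℕ) : ℝ)) (by positivity)
  have h4 : (((x : ℕ) : ℝ) + 1) / ((x : ℕ) : ℝ) - 1 = 1 / ((x : ℕ) : ℝ) := by
    field_simp
    ring
  linarith

theorem mem_S2 {X : ℕ+} {x : Fin 2 → ℕ+} (hx : x ∈ S2 X) :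
    ∃ a : ℕ+, X ≤ a ∧ a < 2 * X ∧ tw a = x := by
  unfold S2 at hx
  obtain ⟨a, ha, rfl⟩ := Finset.mem_image.1 hx
  rw [Finset.mem_Ico] at ha
  exact ⟨a, ha.1, ha.2, rfl⟩

theorem size {X : ℕ+} {x : Fin 2 → ℕ+} (hx : x ∈ S2 X) (j : Fin 2) :
    ((x j : ℕ) : ℝ) ≤ 2 * ((X : ℕ) : ℝ) := by
  obtain ⟨a, _, h2, rfl⟩ := mem_S2 hx
  have h3 : (a : ℕ) < 2 * (X : ℕ) := by
    have : (a : ℕ) < ((2 * X : ℕ+) : ℕ) := PNat.coe_lt_coe _ _ |>.2 h2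
    simpa using this
  have h5 : ((tw a j : ℕ+) : ℕ) ≤ 2 * (X : ℕ) := by
    fin_cases j
    · show (a : ℕ) ≤ _
      omega
    · show ((a + 1 : ℕ+) : ℕ) ≤ _
      rw [PNat.add_coe, PNat.one_coe]
      omega
  exact_mod_cast h5

theorem W_ge (X : ℕ+) : (1 : ℝ) / 2 ≤ ∑ x ∈ S2 X, ∏ j, ((x j : ℕ) : ℝ) ^ (-(1 / 2) : ℝ) := by
  have hX : (0 : ℝ) < ((X : ℕ) : ℝ) := by exact_mod_cast X.pos
  have h1 : ∀ x ∈ S2 X, 1 / (2 * ((X : ℕ) : ℝ)) ≤ ∏ j, ((x j : ℕ) : ℝ) ^ (-(1 / 2) : ℝ) := by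
    intro x hx
    rw [Fin.prod_univ_two]
    have h2 : ∀ j, (2 * ((X : ℕ) : ℝ)) ^ (-(1 / 2) : ℝ) ≤ ((x j : ℕ) : ℝ) ^ (-(1 / 2) : ℝ) :=
      fun j => Real.rpow_le_rpow_of_nonpos (by exact_mod_cast (x j).pos) (size hx j) (by norm_num)
    have h3 : 1 / (2 * ((X : ℕ) : ℝ)) =
        (2 * ((X : ℕ) : ℝ)) ^ (-(1 / 2) : ℝ) * (2 * ((X : ℕ) : ℝ)) ^ (-(1 / 2) : ℝ) := by
      rw [← Real.rpow_add (by positivity)]
      norm_num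
      rw [Real.rpow_neg_one]
      ring
    rw [h3]
    exact mul_le_mul (h2 0) (h2 1) (by positivity) (by positivity)
  have h2 := Finset.card_nsmul_le_sum (S2 X) _ _ h1
  rw [S2_card, nsmul_eq_mul] at h2
  refine le_trans (le_of_eq ?_) h2
  field_simp

end TwoFinalAux

open TwoFinalAux in
theorem low_final_two (δ ε : ℝ) (hδ : 0 < δ) (hε : 0 < ε) :
    ∃ T₀ : ℝ, 1 ≤ T₀ ∧ ∀ (T V : ℝ) (β : Fin 2 → ℝ), T₀ ≤ T → 1 ≤ V → V ≤ T ^ (2 / 3 - δ) →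
    (∀ j, T ≤ β j) → (∀ j, β j ≤ 2 * T) →
    ENNReal.ofReal (T ^ 2 * T ^ (-ε)) ≤
      volume {α ∈ Set.Icc β (fun j => β j + T) | V ^ (1 / 2 : ℝ) * T ^ (-ε) <
        ‖∫ t in (0:ℝ)..V, (((∏ j, ‖riemannZeta (1 / 2 + ((t + α j : ℝ) : ℂ) * I)‖ ^ 2 : ℝ) : ℂ) -
          mainTerm (fun j => t + α j))‖} := by
  have hP := fun e he => two_P4 (δ / 2) e (half_pos hδ) he
  choose! C4 hC4pos hC4 using hP
  obtain ⟨T₀, hT₀, hlow⟩ := low_abs 2 (1 / 3) ε (1 / 4) (by norm_num) hε (by norm_num) C4 hC4pos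
  obtain ⟨T₁, hT₁, hmain⟩ := low_main_hi 2 (1 / 4) (by norm_num) (by norm_num)
  obtain ⟨T₂, hT₂, ht2⟩ := LFin.eventually_rpow 4 (1 / 12) (by norm_num)
  obtain ⟨T₃, hT₃, ht3⟩ := LFin.eventually_rpow 2 (δ / 2) (by positivity)
  refine ⟨max (max T₀ T₁) (max T₂ T₃), hT₀.trans ((le_max_left _ _).trans (le_max_left _ _)), ?_⟩
  intro T V β hT hV hVT hβ hβ'
  have g0 : T₀ ≤ T := ((le_max_left _ _).trans (le_max_left _ _)).trans hT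
  have g1 : T₁ ≤ T := ((le_max_right _ _).trans (le_max_left _ _)).trans hT
  have g2 : T₂ ≤ T := ((le_max_left _ _).trans (le_max_right _ _)).trans hT
  have g3 : T₃ ≤ T := ((le_max_right _ _).trans (le_max_right _ _)).trans hT
  have hT1 : 1 ≤ T := hT₀.trans g0
  have hT0 : 0 < T := by linarith
  have hV0 : 0 < V := by linarith
  have hVT' : V ≤ T ^ (2 / 3 : ℝ) :=
    hVT.trans (Real.rpow_le_rpow_of_exponent_le hT1 (by linarith))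
  have hVT1 : V ≤ T := by
    refine hVT'.trans ?_
    calc T ^ (2 / 3 : ℝ) ≤ T ^ (1 : ℝ) := Real.rpow_le_rpow_of_exponent_le hT1 (by norm_num)
      _ = T := Real.rpow_one T
  obtain ⟨X, hXV, hXV'⟩ : ∃ X : ℕ+, V ≤ ((X : ℕ) : ℝ) ∧ ((X : ℕ) : ℝ) ≤ 2 * V := by
    refine ⟨⟨⌈V⌉₊, Nat.ceil_pos.2 hV0⟩, Nat.le_ceil V, ?_⟩
    have := (Nat.ceil_lt_add_one hV0.le).le
    show ((⌈V⌉₊ : ℕ) : ℝ) ≤ _
    linarith
  have hX0 : (0 : ℝ) < ((X : ℕ) : ℝ) := by linarith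
  have hW := W_ge X
  refine hlow T V β g0 hV (hVT'.trans (le_of_eq (by norm_num))) hβ hβ' (PT sg2 (S2 X))
    ((X : ℕ) : ℝ) (∑ x ∈ S2 X, ∏ j, ((x j : ℕ) : ℝ) ^ (-(1 / 2) : ℝ)) (PT_continuous _ _) hX0
    ?_ ?_ ?_
  · have h1 : V ^ (1 / 2 : ℝ) * ((X : ℕ) : ℝ) ^ (1 / 2 : ℝ) ≤ 2 * V := by
      rw [← Real.sqrt_eq_rpow, ← Real.sqrt_eq_rpow]
      have h2 : Real.sqrt ((X : ℕ) : ℝ) ≤ 2 * Real.sqrt V := by
        rw [show (2 : ℝ) * Real.sqrt V = Real.sqrt (4 * V) by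
          rw [Real.sqrt_mul (by norm_num), show (4 : ℝ) = 2 ^ 2 by norm_num,
            Real.sqrt_sq (by norm_num)]]
        exact Real.sqrt_le_sqrt (by linarith)
      calc Real.sqrt V * Real.sqrt ((X : ℕ) : ℝ) ≤ Real.sqrt V * (2 * Real.sqrt V) :=
            mul_le_mul_of_nonneg_left h2 (Real.sqrt_nonneg _)
        _ = 2 * (Real.sqrt V * Real.sqrt V) := by ring
        _ = 2 * V := by rw [Real.mul_self_sqrt hV0.le]
    calc 1 / 4 * (V ^ (1 / 2 : ℝ) * ((X : ℕ) : ℝ) ^ (1 / 2 : ℝ)) ≤ 1 / 4 * (2 * V) :=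
          mul_le_mul_of_nonneg_left h1 (by norm_num)
      _ = V * (1 / 2) := by ring
      _ ≤ _ := mul_le_mul_of_nonneg_left hW hV0.le
  · refine hmain T V β sg2 (S2 X) g1 hV hVT1 hβ hβ' ?_ ?_
    · intro x hx j
      refine (size hx j).trans ?_
      have h1 := ht2 T g2
      calc 2 * ((X : ℕ) : ℝ) ≤ 4 * V := by linarith
        _ ≤ T ^ (1 / 12 : ℝ) * T ^ (2 / 3 : ℝ) := mul_le_mul h1 hVT' hV0.le (by positivity)
        _ = T ^ (1 - 1 / 4 : ℝ) := by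
            rw [← Real.rpow_add hT0]
            norm_num
    · intro x hx
      obtain ⟨a, ha1, _, rfl⟩ := mem_S2 hx
      refine ⟨lams_ne a, (lams_abs a).trans ?_⟩
      have h1 : ((X : ℕ) : ℝ) ≤ ((a : ℕ) : ℝ) := by exact_mod_cast ha1
      exact one_div_le_one_div_of_le hV0 (hXV.trans h1)
  · intro e he
    have h1 := ht3 T g3
    have h2 : ((X : ℕ) : ℝ) ≤ T ^ (2 / 3 - δ / 2) := by
      calc ((X : ℕ) : ℝ) ≤ 2 * V := hXV'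
        _ ≤ T ^ (δ / 2) * T ^ (2 / 3 - δ) := mul_le_mul h1 hVT hV0.le (by positivity)
        _ = T ^ (2 / 3 - δ / 2) := by
            rw [← Real.rpow_add hT0]
            congr 1
            ring
    have h3 := hC4 e he T β X hT1 h2
    refine h3.trans (le_of_eq ?_)
    push_cast
    rfl

end Pool.Agent.P07318s
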